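import Pool.Agent.Lib.MP_ccbbf6_gt.L4.FRc

/-!
# Level 4, forms on a space given by smooth plots, part a (helper56)
-/

set_option autoImplicit false
set_option maxSynthPendingDepth 3

noncomputable section

namespace Pool.Agent.Lib.MP_ccbbf6_gt.L4.FR

/-- A space: a type with smooth plots `R^k → X`. -/
structure Space where
  /-- points -/
  pt : Type
  /-- plots -/
  Pl : ∀ k : ℕ, Set (V k → pt)
  pre : ∀ {k l : ℕ} {p : V l → pt}, p ∈ Pl l → ∀ g : Sm k l, (fun x => p (g x)) ∈ Pl k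

variable {X Y Z : Space} {k l n : ℕ}

/-- plots as a type -/
def Space.Plot (X : Space) (k : ℕ) := {p : V k → X.pt // p ∈ X.Pl k}

/-- composition of a plot with a smooth map -/
def Space.Plot.cmp (p : X.Plot l) (g : Sm k l) : X.Plot k := ⟨fun x => p.1 (g x), X.pre p.2 g⟩

lemma Plot_ext {p q : X.Plot k} (h : ∀ x, p.1 x = q.1 x) : p = q := Subtype.ext (funext h)

lemma cmp_comp (p : X.Plot n) (g : Sm l n) (h : Sm k l) : p.cmp (g.comp h) = (p.cmp g).cmp h := rfl

lemma cmp_id (p : X.Plot k) : p.cmp (Sm.id k) = p := rfl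

/-- forms on `X` : natural families over plots -/
def Om (X : Space) : Subalgebra ℝ (∀ (k : ℕ) (_ : X.Plot k), Fm k) where
  carrier := {θ | ∀ (k l : ℕ) (p : X.Plot l) (g : Sm k l), θ k (p.cmp g) = pb g (θ l p)}
  mul_mem' := fun {a b} ha hb k l p g => by
    change a k _ * b k _ = pb g (a l p * b l p)
    rw [ha, hb, map_mul]
  add_mem' := fun {a b} ha hb k l p g => by
    change a k _ + b k _ = pb g (a l p + b l p)
    rw [ha, hb, map_add]
  algebraMap_mem' := fun r k l p g => by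
    change algebraMap ℝ (Fm k) r = pb g (algebraMap ℝ (Fm l) r)
    rw [AlgHom.commutes]

instance (priority := 3000) OmRing (X : Space) : Ring (Om X) := (Om X).toRing

instance (priority := 3000) OmSemiring (X : Space) : Semiring (Om X) := (OmRing X).toSemiring

instance (priority := 3000) OmNAS (X : Space) : NonAssocSemiring (Om X) := (OmSemiring X).toNonAssocSemiring

instance (priority := 3000) OmNUNAS (X : Space) : NonUnitalNonAssocSemiring (Om X) := (OmNAS X).toNonUnitalNonAssocSemiring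

instance (priority := 3000) OmNUNAR (X : Space) : NonUnitalNonAssocRing (Om X) := inferInstance

instance (priority := 3000) OmACG (X : Space) : AddCommGroup (Om X) := (OmRing X).toAddCommGroup

instance (priority := 3000) OmACM (X : Space) : AddCommMonoid (Om X) := (OmNUNAS X).toAddCommMonoid

instance (priority := 3000) OmMonoid (X : Space) : Monoid (Om X) := (OmSemiring X).toMonoid

instance (priority := 3000) OmMul (X : Space) : Mul (Om X) := (OmNUNAS X).toMul

instance (priority := 3000) OmAdd (X : Space) : Add (Om X) := (OmACM X).toAdd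

instance (priority := 3000) OmZero (X : Space) : Zero (Om X) := (OmACM X).toZero

instance (priority := 3000) OmOne (X : Space) : One (Om X) := (OmNAS X).toOne

instance (priority := 3000) OmNeg (X : Space) : Neg (Om X) := (OmRing X).toNeg

instance (priority := 3000) OmSub (X : Space) : Sub (Om X) := (OmRing X).toSub

instance (priority := 3000) OmNPow (X : Space) : NPow (Om X) := (OmMonoid X).toNPow

instance (priority := 3000) OmPow (X : Space) : Pow (Om X) ℕ := @NPow.toPow (Om X) (OmNPow X)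

instance (priority := 3000) OmAlgebra (X : Space) : Algebra ℝ (Om X) := (Om X).algebra

instance (priority := 3000) OmModule (X : Space) : Module ℝ (Om X) := (OmAlgebra X).toModule

instance (priority := 3000) OmSMul (X : Space) : SMul ℝ (Om X) := (OmAlgebra X).toSMul

instance OmAH (X Y : Space) : AddHomClass (Om X →ₐ[ℝ] Om Y) (Om X) (Om Y) := inferInstance

instance OmMA (X Y : Space) : MulActionHomClass (Om X →ₐ[ℝ] Om Y) ℝ (Om X) (Om Y) := inferInstance

/-- the value of a form on a plot -/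
def Om.on (θ : Om X) (p : X.Plot k) : Fm k := θ.1 k p

lemma on_cmp (θ : Om X) (p : X.Plot l) (g : Sm k l) : Om.on θ (p.cmp g) = pb g (Om.on θ p) := θ.2 k l p g

lemma Om_ext {θ τ : Om X} (h : ∀ (k : ℕ) (p : X.Plot k), Om.on θ p = Om.on τ p) : θ = τ :=
  Subtype.ext (funext fun k => funext fun p => h k p)

/-- constructor -/
def mkO (θ : ∀ (k : ℕ) (_ : X.Plot k), Fm k)
    (h : ∀ (k l : ℕ) (p : X.Plot l) (g : Sm k l), θ k (p.cmp g) = pb g (θ l p)) : Om X := ⟨θ, h⟩

@[simp] lemma on_mkO (θ : ∀ (k : ℕ) (_ : X.Plot k), Fm k)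
    (h : ∀ (k l : ℕ) (p : X.Plot l) (g : Sm k l), θ k (p.cmp g) = pb g (θ l p)) (p : X.Plot k) :
    Om.on (mkO θ h) p = θ k p := rfl

@[simp] lemma on_add (θ τ : Om X) (p : X.Plot k) : Om.on (θ + τ) p = Om.on θ p + Om.on τ p := rfl
@[simp] lemma on_sub (θ τ : Om X) (p : X.Plot k) : Om.on (θ - τ) p = Om.on θ p - Om.on τ p := rfl
@[simp] lemma on_neg (θ : Om X) (p : X.Plot k) : Om.on (-θ) p = -Om.on θ p := rfl
@[simp] lemma on_zero (p : X.Plot k) : Om.on (0 : Om X) p = 0 := rfl
@[simp] lemma on_one (p : X.Plot k) : Om.on (1 : Om X) p = 1 := rfl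
@[simp] lemma on_mul (θ τ : Om X) (p : X.Plot k) : Om.on (θ * τ) p = Om.on θ p * Om.on τ p := rfl
@[simp] lemma on_smul (r : ℝ) (θ : Om X) (p : X.Plot k) : Om.on (r • θ) p = r • Om.on θ p := rfl

@[simp] lemma on_pow (θ : Om X) (j : ℕ) (p : X.Plot k) : Om.on (θ ^ j) p = Om.on θ p ^ j := by
  induction j with
  | zero => rw [pow_zero, pow_zero, on_one]
  | succ j ih => rw [pow_succ, pow_succ, on_mul, ih]

/-- exterior derivative -/
def dO (X : Space) : Om X →ₗ[ℝ] Om X where
  toFun θ := mkO (fun k p => dd k (Om.on θ p)) (fun k l p g => by rw [on_cmp, pb_dd])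
  map_add' θ τ := Om_ext fun k p => by simp
  map_smul' r θ := Om_ext fun k p => by simp

@[simp] lemma on_d (θ : Om X) (p : X.Plot k) : Om.on (dO X θ) p = dd k (Om.on θ p) := rfl

lemma d_d (θ : Om X) : dO X (dO X θ) = 0 := Om_ext fun k p => by rw [on_d, on_d, dd_dd, on_zero]

/-- grading involution -/
def sO (X : Space) : Om X →ₐ[ℝ] Om X where
  toFun θ := mkO (fun k p => sg k (Om.on θ p)) (fun k l p g => by rw [on_cmp, pb_sg])
  map_add' θ τ := Om_ext fun k p => by simp
  map_mul' θ τ := Om_ext fun k p => by simp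
  map_zero' := Om_ext fun k p => by simp
  map_one' := Om_ext fun k p => by simp
  commutes' r := Om_ext fun k p => (sg k).commutes r

@[simp] lemma on_s (θ : Om X) (p : X.Plot k) : Om.on (sO X θ) p = sg k (Om.on θ p) := rfl

lemma s_s (θ : Om X) : sO X (sO X θ) = θ := Om_ext fun k p => by rw [on_s, on_s, sg_sg]

lemma d_mul (θ τ : Om X) : dO X (θ * τ) = dO X θ * τ + sO X θ * dO X τ :=
  Om_ext fun k p => by simp [dd_mul]

lemma s_d (θ : Om X) : sO X (dO X θ) = -dO X (sO X θ) := Om_ext fun k p => by simp [sg_dd]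

lemma d_one : dO X (1 : Om X) = 0 := Om_ext fun k p => by simp [dd_one]

/-- smooth maps -/
def SMap (X Y : Space) := {f : X.pt → Y.pt // ∀ (k : ℕ) (p : X.Plot k), (fun x => f (p.1 x)) ∈ Y.Pl k}

/-- image of a plot -/
def SMap.pl (f : SMap X Y) (p : X.Plot k) : Y.Plot k := ⟨fun x => f.1 (p.1 x), f.2 k p⟩

lemma SMap_ext {f g : SMap X Y} (h : ∀ x, f.1 x = g.1 x) : f = g := Subtype.ext (funext h)

lemma pl_cmp (f : SMap X Y) (p : X.Plot l) (g : Sm k l) : f.pl (p.cmp g) = (f.pl p).cmp g := rfl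

/-- composition -/
def SMap.comp (g : SMap Y Z) (f : SMap X Y) : SMap X Z := ⟨fun x => g.1 (f.1 x), fun k p => g.2 k (f.pl p)⟩

/-- identity -/
def SMap.id (X : Space) : SMap X X := ⟨fun x => x, fun _ p => p.2⟩

/-- pullback of forms -/
def SMap.pull (f : SMap X Y) : Om Y →ₐ[ℝ] Om X where
  toFun θ := mkO (fun k p => Om.on θ (f.pl p)) (fun k l p g => by rw [pl_cmp, on_cmp])
  map_add' θ τ := Om_ext fun k p => by simp
  map_mul' θ τ := Om_ext fun k p => by simp
  map_zero' := Om_ext fun k p => by simp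
  map_one' := Om_ext fun k p => by simp
  commutes' r := rfl

@[simp] lemma on_pull (f : SMap X Y) (θ : Om Y) (p : X.Plot k) : Om.on (f.pull θ) p = Om.on θ (f.pl p) := rfl

lemma pull_comp (g : SMap Y Z) (f : SMap X Y) (θ : Om Z) : (g.comp f).pull θ = f.pull (g.pull θ) := rfl

lemma pull_id (θ : Om X) : (SMap.id X).pull θ = θ := rfl

lemma pull_d (f : SMap X Y) (θ : Om Y) : dO X (f.pull θ) = f.pull (dO Y θ) := rfl

lemma pull_s (f : SMap X Y) (θ : Om Y) : sO X (f.pull θ) = f.pull (sO Y θ) := rfl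

/-! ### Product with the line -/

/-- `X × R` -/
def Space.xR (X : Space) : Space where
  pt := X.pt × ℝ
  Pl k := {q | (fun x => (q x).1) ∈ X.Pl k ∧ ContDiff ℝ (⊤ : ℕ∞) fun x => (q x).2}
  pre := fun {_ _ _} hp g => ⟨X.pre hp.1 g, hp.2.comp g.smooth⟩

/-- `(x, s) ↦ (p x, s)` -/
def Space.Plot.up (p : X.Plot k) : X.xR.Plot (k + 1) :=
  ⟨fun z => (p.1 (pr k z), z (Fin.last k)), X.pre p.2 (pr k), contDiff_apply ℝ ℝ (Fin.last k)⟩

lemma plot_up_cmp (p : X.Plot l) (g : Sm k l) : (p.cmp g).up = p.up.cmp g.up := by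
  refine Plot_ext fun z => ?_
  change (p.1 (g (pr k z)), z (Fin.last k)) = (p.1 (pr l (Fin.snoc (g (pr k z)) (z (Fin.last k)))),
    (Fin.snoc (g (pr k z)) (z (Fin.last k)) : V (l + 1)) (Fin.last l))
  rw [pr_snoc, Fin.snoc_last]

/-- slice -/
def jO (X : Space) (c : ℝ) : SMap X X.xR := ⟨fun x => (x, c), fun _ p => ⟨p.2, contDiff_const⟩⟩

/-- projection -/
def pO (X : Space) : SMap X.xR X := ⟨fun z => z.1, fun _ p => p.2.1⟩

lemma pl_j (c : ℝ) (p : X.Plot k) : (jO X c).pl p = p.up.cmp (sl k c) := by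
  refine Plot_ext fun x => ?_
  change (p.1 x, c) = (p.1 (pr k (Fin.snoc x c)), (Fin.snoc x c : V (k + 1)) (Fin.last k))
  rw [pr_snoc, Fin.snoc_last]

lemma pl_p (p : X.Plot k) : (pO X).pl p.up = p.cmp (pr k) := rfl

lemma on_j (c : ℝ) (θ : Om X.xR) (p : X.Plot k) : Om.on ((jO X c).pull θ) p = pb (sl k c) (Om.on θ p.up) := by
  rw [on_pull, pl_j, on_cmp]

lemma on_p (θ : Om X) (p : X.Plot k) : Om.on ((pO X).pull θ) p.up = pb (pr k) (Om.on θ p) := by
  rw [on_pull, pl_p, on_cmp]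

lemma j_p (c : ℝ) (θ : Om X) : (jO X c).pull ((pO X).pull θ) = θ := rfl

/-- fibre integration over `[0, 1]` -/
def KO (X : Space) : Om X.xR →ₗ[ℝ] Om X where
  toFun θ := mkO (fun k p => KK k (Om.on θ p.up)) (fun k l p g => by rw [plot_up_cmp, on_cmp, KK_up])
  map_add' θ τ := Om_ext fun k p => by simp
  map_smul' r θ := Om_ext fun k p => by simp

lemma on_K (θ : Om X.xR) (p : X.Plot k) : Om.on (KO X θ) p = KK k (Om.on θ p.up) := rfl

/-- homotopy formula -/
theorem d_K (θ : Om X.xR) :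
    dO X (KO X θ) + KO X (dO X.xR θ) = (jO X 1).pull θ - (jO X 0).pull θ :=
  Om_ext fun k p => by
    rw [on_add, on_d, on_K, on_K, on_d, on_sub, on_j, on_j]
    exact dd_KK _

/-- `K` is linear over forms of the base -/
lemma K_mul (z : Om X) (θ : Om X.xR) : KO X ((pO X).pull z * θ) = sO X z * KO X θ :=
  Om_ext fun k p => by rw [on_K, on_mul, on_p, KK_mul, on_mul, on_s, on_K]

lemma K_p (z : Om X) : KO X ((pO X).pull z) = 0 :=
  Om_ext fun k p => by rw [on_K, on_p, KK_pr, on_zero]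

/-- `f × id` -/
def SMap.up (f : SMap X Y) : SMap X.xR Y.xR :=
  ⟨fun z => (f.1 z.1, z.2), fun k p => ⟨f.2 k ((pO X).pl p), p.2.2⟩⟩

lemma K_up (f : SMap X Y) (θ : Om Y.xR) : KO X (f.up.pull θ) = f.pull (KO Y θ) := rfl

lemma up_j (f : SMap X Y) (c : ℝ) : f.up.comp (jO X c) = (jO Y c).comp f := rfl

lemma p_up (f : SMap X Y) : (pO Y).comp f.up = f.comp (pO X) := rfl

end Pool.Agent.Lib.MP_ccbbf6_gt.L4.FR
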