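import Pool.Agent.Lib.MP_ccbbf6_gt.L4.FRt
import Pool.Agent.Lib.MP_ccbbf6_gt.L4.FXa

/-!
# Level 4, FI2: values of a form along local plots, Stokes in a local plot (helper5)

`vAt j θ p z` is the value at `z` of the form `θ` on a map `p : V k → T` which near `z` is (up to the injection
`j : X.pt → T`) a plot.
-/

set_option autoImplicit false
set_option maxSynthPendingDepth 3

open Set Filter Topology MeasureTheory
open scoped TensorProduct ContDiff

noncomputable section

namespace Pool.Agent.Lib.MP_ccbbf6_gt.L4.FR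

variable {X Y : Space} {k l N : ℕ}

/-! ### Squeezing maps -/

/-- a smooth map of `R^k` which is the identity near `z` and takes values in a given neighbourhood of `z` -/
lemma exists_sq (z : V k) {U : Set (V k)} (hU : U ∈ 𝓝 z) : ∃ g : Sm k k, (∀ᶠ w in 𝓝 z, g w = w) ∧ ∀ w, g w ∈ U := by
  obtain ⟨ε, hε, hball⟩ := Metric.mem_nhds_iff.1 hU
  let β : ContDiffBump z := ⟨ε / 2, ε, by linarith, by linarith⟩
  refine ⟨⟨fun w => z + β w • (w - z), contDiff_const.add (β.contDiff.smul (contDiff_id.sub contDiff_const))⟩, ?_, ?_⟩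
  · filter_upwards [Metric.closedBall_mem_nhds z β.rIn_pos] with w hw
    change z + β w • (w - z) = w
    rw [β.one_of_mem_closedBall hw, one_smul, add_sub_cancel]
  · intro w
    apply hball
    change dist (z + β w • (w - z)) z < ε
    rw [dist_eq_norm, add_sub_cancel_left, norm_smul, Real.norm_of_nonneg β.nonneg]
    by_cases hw : dist w z < ε
    · rw [dist_eq_norm] at hw
      calc β w * ‖w - z‖ ≤ 1 * ‖w - z‖ := mul_le_mul_of_nonneg_right β.le_one (norm_nonneg _)
        _ < ε := by rw [one_mul]; exact hw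
    · push Not at hw
      rw [β.zero_of_le_dist hw, zero_mul]
      exact hε

/-- a smooth map near `z` agrees near `z` with a globally smooth map -/
lemma exists_glob {g : V k → V l} {z : V k} (hg : ∀ᶠ z' in 𝓝 z, ContDiffAt ℝ ∞ g z') :
    ∃ h : Sm k l, (h : V k → V l) =ᶠ[𝓝 z] g := by
  obtain ⟨s, hs1, hs2⟩ := exists_sq z hg
  refine ⟨⟨fun w => g (s w), contDiff_iff_contDiffAt.2 fun w => ?_⟩, ?_⟩
  · exact ContDiffAt.comp (g := g) (f := (s : V k → V k)) w (hs2 w) s.smooth.contDiffAt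
  · filter_upwards [hs1] with w hw
    change g (s w) = g w
    rw [hw]

/-! ### Transposes -/

/-- transpose of a linear map -/
def trL (A : V k →L[ℝ] V l) : V l →ₗ[ℝ] V k where
  toFun v i := ∑ j, v j * A (Pi.single i 1) j
  map_add' v w := by
    funext i
    change ∑ j, (v j + w j) * _ = ∑ j, _ + ∑ j, _
    rw [← Finset.sum_add_distrib]
    exact Finset.sum_congr rfl fun j _ => add_mul _ _ _
  map_smul' r v := by
    funext i
    change ∑ j, (r * v j) * _ = r * ∑ j, _
    rw [Finset.mul_sum]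
    exact Finset.sum_congr rfl fun j _ => mul_assoc _ _ _

lemma trL_apply (A : V k →L[ℝ] V l) (v : V l) (i : Fin k) : trL A v i = ∑ j, v j * A (Pi.single i 1) j := rfl

lemma tr_eq (g : Sm k l) (x : V k) : tr g x = trL (fderiv ℝ (g : V k → V l) x) := by
  have h1 : ∀ i j, (pd i (g.cp j) : V k → ℝ) x = fderiv ℝ (g : V k → V l) x (Pi.single i 1) j := by
    intro i j
    rw [pd_apply]
    change fderiv ℝ (fun y => g y j) x (Pi.single i 1) = _
    rw [(hasFDerivAt_pi'.1 (g.diff x).hasFDerivAt j).fderiv]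
    rfl
  refine LinearMap.ext fun v => funext fun i => ?_
  change (∑ j, v j * (pd i (g.cp j) : V k → ℝ) x) = ∑ j, v j * fderiv ℝ (g : V k → V l) x (Pi.single i 1) j
  exact Finset.sum_congr rfl fun j _ => by rw [h1]

lemma trL_dot (A : V k →L[ℝ] V l) (v : V l) (w : V k) : ∑ i, trL A v i * w i = ∑ j, v j * A w j := by
  have h5 : w = ∑ i, w i • (Pi.single i (1 : ℝ) : V k) := by
    ext a
    simp [Finset.sum_apply, Pi.single_apply]
  have h6 : ∀ j, A w j = ∑ i, w i * A (Pi.single i 1) j := by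
    intro j
    conv_lhs => rw [h5]
    rw [map_sum, Finset.sum_apply]
    refine Finset.sum_congr rfl fun i _ => ?_
    rw [map_smul, Pi.smul_apply, smul_eq_mul]
  simp only [h6, trL_apply, Finset.sum_mul, Finset.mul_sum]
  rw [Finset.sum_comm]
  exact Finset.sum_congr rfl fun j _ => Finset.sum_congr rfl fun i _ => by ring

lemma trL_id : trL (ContinuousLinearMap.id ℝ (V k)) = LinearMap.id := by
  refine LinearMap.ext fun v => funext fun i => ?_
  rw [trL_apply, LinearMap.id_apply]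
  rw [Finset.sum_eq_single i]
  · simp
  · intro j _ hj
    simp [Pi.single_apply, hj]
  · intro h
    exact absurd (Finset.mem_univ i) h

lemma trL_comp {m : ℕ} (A : V k →L[ℝ] V l) (B : V l →L[ℝ] V m) : trL (B.comp A) = (trL A).comp (trL B) := by
  refine LinearMap.ext fun v => funext fun i => ?_
  rw [LinearMap.comp_apply, trL_apply, trL_apply]
  have h := trL_dot B v (A (Pi.single i 1))
  rw [h]
  rfl

lemma det_trL (A : V k →L[ℝ] V k) : LinearMap.det (trL A) = A.det := by
  have h2 : LinearMap.toMatrix' (trL A) = (LinearMap.toMatrix' (A : V k →ₗ[ℝ] V k)).transpose := by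
    ext i j
    rw [Matrix.transpose_apply, LinearMap.toMatrix'_apply, LinearMap.toMatrix'_apply, trL_apply]
    rw [Finset.sum_eq_single j]
    · rw [Pi.single_eq_same, one_mul]
      rfl
    · intro b _ hb
      rw [Pi.single_eq_of_ne hb, zero_mul]
    · intro h
      exact absurd (Finset.mem_univ j) h
  rw [← LinearMap.det_toMatrix', h2, Matrix.det_transpose, LinearMap.det_toMatrix']

/-- the transpose of the derivative of a map which is the identity near `z` -/
lemma tr_of_id {g : Sm k k} {z : V k} (h : ∀ᶠ w in 𝓝 z, g w = w) : tr g z = LinearMap.id := by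
  rw [tr_eq]
  have h1 : (g : V k → V k) =ᶠ[𝓝 z] fun w => w := h
  rw [h1.fderiv_eq, fderiv_fun_id]
  exact trL_id

/-! ### Locality -/

lemma ev_on_congr (θ : Om X) {P Q : X.Plot k} {z : V k} (h : P.1 =ᶠ[𝓝 z] Q.1) :
    ev z (Om.on θ P) = ev z (Om.on θ Q) := by
  obtain ⟨s, hs1, hs2⟩ := exists_sq z h
  have h1 : P.cmp s = Q.cmp s := Plot_ext fun w => hs2 w
  have h2 : ∀ R : X.Plot k, ev z (Om.on θ (R.cmp s)) = ev z (Om.on θ R) := by
    intro R
    rw [on_cmp, ev_pb, tr_of_id hs1, hs1.self_of_nhds, ExteriorAlgebra.map_id]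
    rfl
  rw [← h2 P, h1, h2 Q]

variable {T : Type} (j : X.pt → T)

/-- `p` is a plot near `z` -/
def LocPl (p : V k → T) (z : V k) : Prop := ∃ P : X.Plot k, (fun w => j (P.1 w)) =ᶠ[𝓝 z] p

open Classical in
/-- value of a form along a local plot -/
def vAt (θ : Om X) (p : V k → T) (z : V k) : Ex k :=
  if h : LocPl j p z then ev z (Om.on θ h.choose) else 0

variable {j}

lemma vAt_eq (hj : Function.Injective j) (θ : Om X) {p : V k → T} {z : V k} (P : X.Plot k)
    (h : (fun w => j (P.1 w)) =ᶠ[𝓝 z] p) : vAt j θ p z = ev z (Om.on θ P) := by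
  have h1 : LocPl j p z := ⟨P, h⟩
  unfold vAt
  rw [dif_pos h1]
  refine ev_on_congr θ ?_
  filter_upwards [h, h1.choose_spec] with w h2 h3
  exact hj (h3.trans h2.symm)

lemma vAt_of_not (θ : Om X) {p : V k → T} {z : V k} (h : ¬ LocPl j p z) : vAt j θ p z = 0 := dif_neg h

lemma LocPl.eventually {p : V k → T} {z : V k} (h : LocPl j p z) : ∀ᶠ z' in 𝓝 z, LocPl j p z' := by
  obtain ⟨P, hP⟩ := h
  filter_upwards [hP.eventually_nhds] with z' hz'
  exact ⟨P, hz'⟩

lemma vAt_eventuallyEq (hj : Function.Injective j) (θ : Om X) {p : V k → T} {z : V k} (P : X.Plot k)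
    (h : (fun w => j (P.1 w)) =ᶠ[𝓝 z] p) : (fun z' => vAt j θ p z') =ᶠ[𝓝 z] fun z' => ev z' (Om.on θ P) := by
  filter_upwards [h.eventually_nhds] with z' hz'
  exact vAt_eq hj θ P hz'

lemma vAt_add (hj : Function.Injective j) (θ τ : Om X) {p : V k → T} {z : V k} :
    vAt j (θ + τ) p z = vAt j θ p z + vAt j τ p z := by
  by_cases h : LocPl j p z
  · obtain ⟨P, hP⟩ := h
    rw [vAt_eq hj _ P hP, vAt_eq hj _ P hP, vAt_eq hj _ P hP, on_add, map_add]
  · rw [vAt_of_not _ h, vAt_of_not _ h, vAt_of_not _ h, add_zero]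

lemma vAt_smul (hj : Function.Injective j) (r : ℝ) (θ : Om X) {p : V k → T} {z : V k} :
    vAt j (r • θ) p z = r • vAt j θ p z := by
  by_cases h : LocPl j p z
  · obtain ⟨P, hP⟩ := h
    rw [vAt_eq hj _ P hP, vAt_eq hj _ P hP, on_smul, map_smul]
  · rw [vAt_of_not _ h, vAt_of_not _ h, smul_zero]

lemma vAt_mul (hj : Function.Injective j) (θ τ : Om X) {p : V k → T} {z : V k} :
    vAt j (θ * τ) p z = vAt j θ p z * vAt j τ p z := by
  by_cases h : LocPl j p z
  · obtain ⟨P, hP⟩ := h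
    rw [vAt_eq hj _ P hP, vAt_eq hj _ P hP, vAt_eq hj _ P hP, on_mul, map_mul]
  · rw [vAt_of_not _ h, vAt_of_not _ h, vAt_of_not _ h, mul_zero]

/-- change of the local plot -/
lemma vAt_comp (hj : Function.Injective j) (θ : Om X) {p : V l → T} {g : V k → V l} {z : V k}
    (hg : ∀ᶠ z' in 𝓝 z, ContDiffAt ℝ ∞ g z') (hp : LocPl j p (g z)) :
    LocPl j (fun w => p (g w)) z ∧
      vAt j θ (fun w => p (g w)) z = ExteriorAlgebra.map (trL (fderiv ℝ g z)) (vAt j θ p (g z)) := by
  obtain ⟨h, hh⟩ := exists_glob hg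
  obtain ⟨P, hP⟩ := hp
  have hz : h z = g z := hh.self_of_nhds
  have hc : ContinuousAt (h : V k → V l) z := h.smooth.continuous.continuousAt
  have h1 : (fun w => j ((P.cmp h).1 w)) =ᶠ[𝓝 z] fun w => p (g w) := by
    rw [← hz] at hP
    filter_upwards [hh, hc.eventually hP] with w h2 h3
    change j (P.1 (h w)) = p (g w)
    rw [h3, h2]
  refine ⟨⟨P.cmp h, h1⟩, ?_⟩
  rw [vAt_eq hj θ (P.cmp h) h1, vAt_eq hj θ P hP, on_cmp, ev_pb, tr_eq, hh.fderiv_eq, hz]

/-- the value along a local plot only depends on the germ -/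
lemma vAt_congr (hj : Function.Injective j) (θ : Om X) {p q : V k → T} {z : V k} (h : p =ᶠ[𝓝 z] q) :
    vAt j θ p z = vAt j θ q z := by
  by_cases hp : LocPl j p z
  · obtain ⟨P, hP⟩ := hp
    rw [vAt_eq hj θ P hP, vAt_eq hj θ P (hP.trans h)]
  · have hq : ¬ LocPl j q z := fun ⟨P, hP⟩ => hp ⟨P, hP.trans h.symm⟩
    rw [vAt_of_not _ hp, vAt_of_not _ hq]

/-- coefficients along a local plot are smooth -/
lemma contDiffAt_vAt (hj : Function.Injective j) (θ : Om X) {p : V k → T} {z : V k} (hp : LocPl j p z)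
    (L : Ex k →ₗ[ℝ] ℝ) : ContDiffAt ℝ ∞ (fun z' => L (vAt j θ p z')) z := by
  obtain ⟨P, hP⟩ := hp
  refine (contDiff_coef L (Om.on θ P)).contDiffAt.congr_of_eventuallyEq ?_
  filter_upwards [vAt_eventuallyEq hj θ P hP] with z' hz'
  rw [hz']

/-- the top coefficient of `dθ` along a local plot is a divergence -/
lemma topE_vAt_d (hj : Function.Injective j) (θ : Om X) {p : V k → T} {z : V k} (hp : LocPl j p z) :
    topE k (vAt j (dO X θ) p z) =
      ∑ i, fderiv ℝ (fun z' => topE k (ee i * vAt j θ p z')) z (Pi.single i 1) := by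
  obtain ⟨P, hP⟩ := hp
  rw [vAt_eq hj _ P hP, on_d, ← tp_apply, tp_dd, AddSubmonoidClass.coe_finsetSum, Finset.sum_apply]
  refine Finset.sum_congr rfl fun i _ => ?_
  rw [pd_apply]
  have h1 : (cof ((topE k).comp (LinearMap.mulLeft ℝ (ee i))) (Om.on θ P) : V k → ℝ) =ᶠ[𝓝 z]
      fun z' => topE k (ee i * vAt j θ p z') := by
    filter_upwards [vAt_eventuallyEq hj θ P hP] with z' hz'
    rw [hz', cof_apply]
    rfl
  rw [h1.fderiv_eq]

/-! ### Stokes in a local plot -/

/-- the divergence theorem for functions on an open set, with a locally constant sign -/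
lemma stokes_fun {Ω K : Set (V k)} (hΩ : IsOpen Ω) (hK : IsCompact K) (hKΩ : K ⊆ Ω) {σ : V k → ℝ}
    (hσ : ∀ x ∈ Ω, ∀ᶠ y in 𝓝 x, σ y = σ x) {c : Fin k → V k → ℝ} (hc : ∀ i, ∀ x ∈ Ω, ContDiffAt ℝ 1 (c i) x)
    (hc0 : ∀ i, ∀ x ∈ Ω, x ∉ K → c i x = 0) :
    ∫ x in Ω, σ x * ∑ i, fderiv ℝ (c i) x (Pi.single i 1) = 0 := by
  classical
  let g : Fin k → V k → ℝ := fun i => Ω.indicator fun x => σ x * c i x
  have hg0 : ∀ i, ∀ x ∉ K, g i x = 0 := by
    intro i x hx
    by_cases h : x ∈ Ω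
    · change Ω.indicator (fun x => σ x * c i x) x = 0
      rw [indicator_of_mem h, hc0 i x h hx, mul_zero]
    · exact indicator_of_notMem h _
  have hloc : ∀ i, ∀ x ∈ Ω, g i =ᶠ[𝓝 x] fun y => σ x * c i y := by
    intro i x hx
    filter_upwards [hσ x hx, hΩ.mem_nhds hx] with y hy hyΩ
    change Ω.indicator (fun x => σ x * c i x) y = _
    rw [indicator_of_mem hyΩ, hy]
  have hloc' : ∀ i, ∀ x ∉ Ω, g i =ᶠ[𝓝 x] fun _ => 0 := by
    intro i x hx
    have hxK : x ∉ K := fun h => hx (hKΩ h)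
    filter_upwards [hK.isClosed.isOpen_compl.mem_nhds hxK] with y hy
    exact hg0 i y hy
  have hsm : ∀ i, ContDiff ℝ 1 (g i) := by
    intro i
    rw [contDiff_iff_contDiffAt]
    intro x
    by_cases hx : x ∈ Ω
    · exact (contDiffAt_const.mul (hc i x hx)).congr_of_eventuallyEq (hloc i x hx)
    · exact contDiffAt_const.congr_of_eventuallyEq (hloc' i x hx)
  have hcs : ∀ i, HasCompactSupport (g i) := fun i => HasCompactSupport.intro hK (hg0 i)
  have hder : ∀ x, Ω.indicator (fun x => σ x * ∑ i, fderiv ℝ (c i) x (Pi.single i 1)) x =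
      ∑ i, fderiv ℝ (g i) x (Pi.single i 1) := by
    intro x
    by_cases hx : x ∈ Ω
    · rw [indicator_of_mem hx, Finset.mul_sum]
      refine Finset.sum_congr rfl fun i _ => ?_
      rw [(hloc i x hx).fderiv_eq, fderiv_const_mul ((hc i x hx).differentiableAt one_ne_zero)]
      rfl
    · rw [indicator_of_notMem hx]
      refine (Finset.sum_eq_zero fun i _ => ?_).symm
      rw [(hloc' i x hx).fderiv_eq]
      simp
  rw [← integral_indicator hΩ.measurableSet]
  simp only [hder]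
  rw [integral_finsetSum]
  · exact Finset.sum_eq_zero fun i _ => integral_pd_eq_zero (hsm i) (hcs i) _
  · intro i _
    have h1 : Continuous fun x => fderiv ℝ (g i) x (Pi.single i 1) :=
      ((hsm i).continuous_fderiv one_ne_zero).clm_apply continuous_const
    exact h1.integrable_of_hasCompactSupport ((hcs i).fderiv_apply ℝ _)

/-- **Stokes in a local plot.** -/
theorem stokes_loc (hj : Function.Injective j) (θ : Om X) {p : V k → T} {Ω K : Set (V k)} (hΩ : IsOpen Ω)
    (hK : IsCompact K) (hKΩ : K ⊆ Ω) {σ : V k → ℝ} (hσ : ∀ x ∈ Ω, ∀ᶠ y in 𝓝 x, σ y = σ x)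
    (hp : ∀ z ∈ Ω, LocPl j p z) (h0 : ∀ z ∈ Ω, z ∉ K → vAt j θ p z = 0) :
    ∫ z in Ω, σ z * topE k (vAt j (dO X θ) p z) = 0 := by
  have h := stokes_fun hΩ hK hKΩ hσ (c := fun i z' => topE k (ee i * vAt j θ p z'))
    (fun i x hx => (contDiffAt_vAt hj θ (hp x hx) ((topE k).comp (LinearMap.mulLeft ℝ (ee i)))).of_le ENat.LEInfty.out)
    (fun i x hx hxK => by rw [h0 x hx hxK, mul_zero, map_zero])
  rw [← h]
  refine setIntegral_congr_fun hΩ.measurableSet fun z hz => ?_
  rw [topE_vAt_d hj θ (hp z hz)]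

/-! ### Functions as forms -/

/-- smooth functions as forms -/
def fO (f : X.pt → ℝ) (hf : ∀ (k : ℕ) (p : X.Plot k), ContDiff ℝ ∞ fun x => f (p.1 x)) : Om X :=
  mkO (fun k p => fc k (mkC (fun x => f (p.1 x)) (hf k p))) (fun k l p g => by rw [pb_fc]; rfl)

lemma on_fO (f : X.pt → ℝ) (hf : ∀ (k : ℕ) (p : X.Plot k), ContDiff ℝ ∞ fun x => f (p.1 x)) (p : X.Plot k) :
    Om.on (fO f hf) p = fc k (mkC (fun x => f (p.1 x)) (hf k p)) := rfl

lemma ev_fO (f : X.pt → ℝ) (hf : ∀ (k : ℕ) (p : X.Plot k), ContDiff ℝ ∞ fun x => f (p.1 x)) (p : X.Plot k)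
    (z : V k) : ev z (Om.on (fO f hf) p) = algebraMap ℝ (Ex k) (f (p.1 z)) := by
  rw [on_fO, ev_fc]
  rfl

/-- the grading involution and the top coefficient -/
lemma topE_ivo (x : Ex k) : topE k (ivo k x) = (-1) ^ k * topE k x := by
  have h1 : ivo k x = ExteriorAlgebra.map (-LinearMap.id) x := by
    induction x using ExteriorAlgebra.induction with
    | algebraMap r => rw [AlgHom.commutes, AlgHom.commutes]
    | ι v => rw [ivo_ι, ExteriorAlgebra.map_apply_ι]; simp
    | mul a b ha hb => rw [map_mul, map_mul, ha, hb]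
    | add a b ha hb => rw [map_add, map_add, ha, hb]
  rw [h1, topE_map]
  congr 1
  have h2 : (-LinearMap.id : V k →ₗ[ℝ] V k) = (-1 : ℝ) • LinearMap.id := by simp
  rw [h2, LinearMap.det_smul, LinearMap.det_id, mul_one, Module.finrank_fin_fun]

end Pool.Agent.Lib.MP_ccbbf6_gt.L4.FR
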