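import Pool.Agent.Lib.MP_ccbbf6_gt.L4.FRd
import Pool.Agent.Lib.MP_ccbbf6_gt.L4.FXa

/-!
# Level 4, forms on a space given by smooth plots, part b: degrees, circle actions (helper56)
-/

set_option autoImplicit false
set_option maxSynthPendingDepth 3

noncomputable section

namespace Pool.Agent.Lib.MP_ccbbf6_gt.L4.FR

variable {X Y Z : Space} {k l n : ℕ} {i j : ℕ}

/-! ### Degrees -/

/-- homogeneous of degree `j` -/
def Deg (j : ℕ) (θ : Om X) : Prop := ∀ (k : ℕ) (p : X.Plot k), Dg j (Om.on θ p)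

lemma Deg_add {θ τ : Om X} (h : Deg j θ) (h' : Deg j τ) : Deg j (θ + τ) := fun k p => Dg_add (h k p) (h' k p)
lemma Deg_sub {θ τ : Om X} (h : Deg j θ) (h' : Deg j τ) : Deg j (θ - τ) := fun k p => Dg_sub (h k p) (h' k p)
lemma Deg_neg {θ : Om X} (h : Deg j θ) : Deg j (-θ) := fun k p => Dg_neg (h k p)
lemma Deg_zero : Deg j (0 : Om X) := fun _ _ => Dg_zero
lemma Deg_one : Deg 0 (1 : Om X) := fun _ _ => Dg_one
lemma Deg_smul (r : ℝ) {θ : Om X} (h : Deg j θ) : Deg j (r • θ) := fun k p => Dg_smul r (h k p)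
lemma Deg_mul {θ τ : Om X} (h : Deg i θ) (h' : Deg j τ) : Deg (i + j) (θ * τ) := fun k p => Dg_mul (h k p) (h' k p)

lemma Deg_pow {θ : Om X} (h : Deg i θ) (n : ℕ) : Deg (i * n) (θ ^ n) := by
  intro k p
  rw [on_pow]
  exact Dg_pow (h k p) n

lemma Deg_d {θ : Om X} (h : Deg j θ) : Deg (j + 1) (dO X θ) := fun k p => Dg_dd (h k p)

lemma Deg_pull (f : SMap X Y) {θ : Om Y} (h : Deg j θ) : Deg j (f.pull θ) := fun k p => h k (f.pl p)

lemma Deg_K {θ : Om X.xR} (h : Deg (j + 1) θ) : Deg j (KO X θ) := fun k p => Dg_KK (h (k + 1) p.up)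

lemma Deg_s {θ : Om X} (h : Deg j θ) : sO X θ = (-1 : ℝ) ^ j • θ := Om_ext fun k p => (h k p).2

lemma Deg_even {θ : Om X} (h : Deg (2 * j) θ) : sO X θ = θ := by
  rw [Deg_s h, pow_mul, neg_one_sq, one_pow, one_smul]

lemma Deg_odd {θ : Om X} (h : Deg (2 * j + 1) θ) : sO X θ = -θ := by
  rw [Deg_s h, pow_succ, pow_mul, neg_one_sq, one_pow, one_mul, neg_smul, one_smul]

/-- even forms are central -/
lemma even_comm' {θ : Om X} (h : sO X θ = θ) (τ : Om X) : θ * τ = τ * θ :=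
  Om_ext fun k p => by
    rw [on_mul, on_mul]
    exact even_comm (by rw [← on_s, h]) _

/-- `X` has dimension at most `n` : every plot factors near every point through a plot of `R^n` -/
def DimLE (X : Space) (n : ℕ) : Prop := ∀ (k : ℕ) (p : X.Plot k) (x : V k), ∃ (h : Sm k k) (q : X.Plot n) (g : Sm k n),
  (∀ᶠ y in nhds x, h y = y) ∧ p.cmp h = q.cmp g

lemma tr_id {h : Sm k k} {x : V k} (he : ∀ᶠ y in nhds x, h y = y) : tr h x = LinearMap.id := by
  refine LinearMap.ext fun v => funext fun i => ?_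
  change ∑ j, v j * fderiv ℝ (fun y => h y j) x (Pi.single i 1) = v i
  have h1 : ∀ j, fderiv ℝ (fun y => h y j) x (Pi.single i 1) = (Pi.single i (1 : ℝ) : V k) j := by
    intro j
    have h2 : (fun y => h y j) =ᶠ[nhds x] fun y => y j := by
      filter_upwards [he] with y hy
      rw [hy]
    rw [h2.fderiv_eq, (hasFDerivAt_apply (𝕜 := ℝ) j x).fderiv]
    rfl
  simp only [h1]
  rw [Finset.sum_eq_single i]
  · rw [Pi.single_eq_same, mul_one]
  · intro b _ hb
    rw [Pi.single_eq_of_ne hb, mul_zero]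
  · intro h'
    exact absurd (Finset.mem_univ i) h'

/-- values of a form only depend on the germ of the plot -/
lemma ev_local (θ : Om X) (p : X.Plot k) (x : V k) {h : Sm k k} (he : ∀ᶠ y in nhds x, h y = y) :
    ev x (Om.on θ (p.cmp h)) = ev x (Om.on θ p) := by
  rw [on_cmp, ev_pb, tr_id he, he.self_of_nhds, ExteriorAlgebra.map_id]
  rfl

lemma Deg_big (hX : DimLE X n) (hj : n < j) {θ : Om X} (h : Deg j θ) : θ = 0 :=
  Om_ext fun k p => by
    refine ev_ext fun x => ?_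
    obtain ⟨h', q, g, he, hq⟩ := hX k p x
    rw [← ev_local θ p x he, hq, on_cmp, Dg_big hj (h n q), map_zero, map_zero, on_zero, map_zero]

/-! ### Circle actions -/

/-- smooth circle action with period `1` -/
structure Circ (X : Space) where
  /-- the action `(x, s) ↦ a_s x` -/
  a : SMap X.xR X
  zero : ∀ x, a.1 (x, 0) = x
  add : ∀ x s t, a.1 (a.1 (x, s), t) = a.1 (x, s + t)
  one : ∀ x s, a.1 (x, s + 1) = a.1 (x, s)

variable (c : Circ X)

/-- the orbit plot `(x, s) ↦ a_s (p x)` -/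
def Circ.op (p : X.Plot k) : X.Plot (k + 1) := c.a.pl p.up

lemma op_cmp (p : X.Plot l) (g : Sm k l) : c.op (p.cmp g) = (c.op p).cmp g.up := by
  unfold Circ.op
  rw [plot_up_cmp, pl_cmp]

/-- the map `a_t` -/
def Circ.at (t : ℝ) : SMap X X := c.a.comp (jO X t)

lemma op_sl (p : X.Plot k) (t : ℝ) : (c.op p).cmp (sl k t) = (c.at t).pl p := by
  unfold Circ.op
  rw [← pl_cmp, ← pl_j]
  rfl

lemma op_zero (p : X.Plot k) : (c.op p).cmp (sl k 0) = p := by
  rw [op_sl]
  exact Plot_ext fun x => c.zero _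

lemma op_op (p : X.Plot k) : c.op (c.op p) = (c.op p).cmp (sh k) := by
  refine Plot_ext fun z => ?_
  change c.a.1 (c.a.1 (p.1 (pr k (pr (k + 1) z)), (pr (k + 1) z) (Fin.last k)), z (Fin.last (k + 1))) =
    c.a.1 (p.1 (pr k (Fin.snoc (pr k (pr (k + 1) z)) (z (Fin.last k).castSucc + z (Fin.last (k + 1))))),
      (Fin.snoc (pr k (pr (k + 1) z)) (z (Fin.last k).castSucc + z (Fin.last (k + 1))) : V (k + 1)) (Fin.last k))
  rw [c.add, pr_snoc, Fin.snoc_last]
  rfl

lemma op_ts (p : X.Plot k) (t : ℝ) : (c.op p).cmp (ts k t) = c.op ((c.at t).pl p) := by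
  refine Plot_ext fun z => ?_
  change c.a.1 (p.1 (pr k (Fin.snoc (pr k z) (z (Fin.last k) + t))),
      (Fin.snoc (pr k z) (z (Fin.last k) + t) : V (k + 1)) (Fin.last k)) =
    c.a.1 (c.a.1 (p.1 (pr k z), t), z (Fin.last k))
  rw [c.add, pr_snoc, Fin.snoc_last, add_comm t]

lemma op_one (p : X.Plot k) : (c.op p).cmp (ts k 1) = c.op p := by
  refine Plot_ext fun z => ?_
  change c.a.1 (p.1 (pr k (Fin.snoc (pr k z) (z (Fin.last k) + 1))),
      (Fin.snoc (pr k z) (z (Fin.last k) + 1) : V (k + 1)) (Fin.last k)) = c.a.1 (p.1 (pr k z), z (Fin.last k))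
  rw [pr_snoc, Fin.snoc_last, c.one]

/-- contraction with the generator -/
def iO : Om X →ₗ[ℝ] Om X where
  toFun θ := mkO (fun k p => pb (sl k 0) (cs k (Om.on θ (c.op p)))) (fun k l p g => by
    rw [op_cmp, on_cmp, cs_up, ← pb_comp, ← pb_comp, up_sl])
  map_add' θ τ := Om_ext fun k p => by simp
  map_smul' r θ := Om_ext fun k p => by simp

lemma on_i (θ : Om X) (p : X.Plot k) : Om.on (iO c θ) p = pb (sl k 0) (cs k (Om.on θ (c.op p))) := rfl

lemma pb_op_zero (θ : Om X) (p : X.Plot k) : pb (sl k 0) (Om.on θ (c.op p)) = Om.on θ p := by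
  rw [← on_cmp, op_zero]

/-- contraction is an antiderivation -/
lemma i_mul (θ τ : Om X) : iO c (θ * τ) = iO c θ * τ + sO X θ * iO c τ :=
  Om_ext fun k p => by
    rw [on_i, on_mul, cs, cn_mul, map_add, map_mul, map_mul, pb_op_zero, ← pb_sg, pb_op_zero, on_add, on_mul, on_mul,
      on_i, on_i, on_s]
    rfl

lemma i_i (θ : Om X) : iO c (iO c θ) = 0 :=
  Om_ext fun k p => by
    rw [on_i, on_i, op_op, on_cmp, cs_sh, ← pb_comp, sh_sl, ts_zero, pb_id, cs_cs, map_zero, on_zero]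

lemma i_one : iO c (1 : Om X) = 0 :=
  Om_ext fun k p => by
    rw [on_i, on_one, ← map_one (fc (k + 1)), cs, cn_fc, map_zero, on_zero]

lemma Deg_i {θ : Om X} (h : Deg (j + 1) θ) : Deg j (iO c θ) := fun k p => Dg_pb _ (Dg_cn _ (h (k + 1) (c.op p)))

/-- invariant forms -/
def Inv (θ : Om X) : Prop := ∀ t, (c.at t).pull θ = θ

/-- Cartan formula for invariant forms -/
lemma cartan {θ : Om X} (h : Inv c θ) : dO X (iO c θ) = -iO c (dO X θ) := by
  rw [← add_eq_zero_iff_eq_neg]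
  refine Om_ext fun k p => ?_
  rw [on_add, on_d, on_i, on_i, on_d, pb_dd, ← map_add, dd_cs, on_zero]
  refine Ls_zero (fun s => ?_) 0
  rw [← on_cmp, ← on_cmp, op_sl, op_sl, ← on_pull, ← on_pull, h, h]

/-- maps which are constant on the orbits -/
def IMap (f : SMap X Y) : Prop := ∀ x s, f.1 (c.a.1 (x, s)) = f.1 x

lemma IMap_op {f : SMap X Y} (h : IMap c f) (p : X.Plot k) : f.pl (c.op p) = (f.pl p).cmp (pr k) :=
  Plot_ext fun _ => h _ _

/-- horizontal in the strong sense: `a^* w = p^* w` -/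
def Bas (w : Om X) : Prop := ∀ (k : ℕ) (p : X.Plot k), Om.on w (c.op p) = pb (pr k) (Om.on w p)

lemma Bas_pull {f : SMap X Y} (h : IMap c f) (θ : Om Y) : Bas c (f.pull θ) := fun k p => by
  rw [on_pull, IMap_op c h, on_cmp, on_pull]

lemma Bas_mul {w w' : Om X} (h : Bas c w) (h' : Bas c w') : Bas c (w * w') := fun k p => by
  rw [on_mul, h, h', on_mul, map_mul]

lemma Bas_add {w w' : Om X} (h : Bas c w) (h' : Bas c w') : Bas c (w + w') := fun k p => by
  rw [on_add, h, h', on_add, map_add]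

lemma Bas_sub {w w' : Om X} (h : Bas c w) (h' : Bas c w') : Bas c (w - w') := fun k p => by
  rw [on_sub, h, h', on_sub, map_sub]

lemma Bas_one : Bas c (1 : Om X) := fun k p => by rw [on_one, on_one, map_one]

lemma Bas_smul (r : ℝ) {w : Om X} (h : Bas c w) : Bas c (r • w) := fun k p => by
  rw [on_smul, h, on_smul, map_smul]

lemma Bas_pow {w : Om X} (h : Bas c w) (n : ℕ) : Bas c (w ^ n) := by
  induction n with
  | zero => rw [pow_zero]; exact Bas_one c
  | succ n ih => rw [pow_succ]; exact Bas_mul c ih h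

lemma Bas_d {w : Om X} (h : Bas c w) : Bas c (dO X w) := fun k p => by
  rw [on_d, h, on_d, pb_dd]

lemma Bas_i {w : Om X} (h : Bas c w) : iO c w = 0 :=
  Om_ext fun k p => by rw [on_i, h, cs_pr, map_zero, on_zero]

lemma Bas_inv {w : Om X} (h : Bas c w) : Inv c w := fun t =>
  Om_ext fun k p => by
    rw [on_pull, ← op_sl, on_cmp, h, ← pb_comp, pr_sl, pb_id]

/-! ### Averages -/

/-- average over the circle action -/
def AO : Om X →ₗ[ℝ] Om X where
  toFun θ := mkO (fun k p => Q0 k (Om.on θ (c.op p))) (fun k l p g => by rw [op_cmp, on_cmp, Q0_up])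
  map_add' θ τ := Om_ext fun k p => by simp
  map_smul' r θ := Om_ext fun k p => by simp

lemma on_A (θ : Om X) (p : X.Plot k) : Om.on (AO c θ) p = Q0 k (Om.on θ (c.op p)) := rfl

lemma A_d (θ : Om X) : dO X (AO c θ) = AO c (dO X θ) :=
  Om_ext fun k p => by rw [on_d, on_A, on_A, on_d, dd_Q0]

lemma A_mul {w : Om X} (h : Bas c w) (θ : Om X) : AO c (w * θ) = w * AO c θ :=
  Om_ext fun k p => by rw [on_A, on_mul, h, Q0_mul, on_mul, on_A]

lemma Q0_one : Q0 k (1 : Fm (k + 1)) = 1 := by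
  have h : (1 : Fm (k + 1)) = tm 1 1 := rfl
  rw [h, Q0_tm, map_one (kil k)]
  have h1 : Int k (1 : Cs (k + 1)) = 1 := by
    have := Int_pr (k := k) 1
    rwa [map_one] at this
  rw [h1]
  rfl

lemma A_one : AO c (1 : Om X) = 1 := Om_ext fun k p => by rw [on_A, on_one, Q0_one, on_one]

lemma A_bas {w : Om X} (h : Bas c w) : AO c w = w := by
  have := A_mul c h 1
  rwa [mul_one, A_one, mul_one] at this

lemma A_inv (θ : Om X) : Inv c (AO c θ) := fun t =>
  Om_ext fun k p => by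
    rw [on_pull, on_A, on_A, ← op_ts, on_cmp]
    refine Q0_ts ?_ t
    rw [← on_cmp, op_one]

lemma Deg_A {θ : Om X} (h : Deg j θ) : Deg j (AO c θ) := fun k p => Dg_Q0 (h (k + 1) (c.op p))

/-- contraction of an average = integral over the orbits -/
lemma i_A (θ : Om X) : iO c (AO c θ) = KO X (c.a.pull θ) :=
  Om_ext fun k p => by
    have h1 : (lst k).comp (ini (k + 1)) = lst' k := rfl
    rw [on_i, on_A, op_op, on_cmp, cs, cn_Q0, h1, cn_sh', ← Q0_up, ← pb_comp, sh_up, ts_zero, pb_id]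
    rfl

end Pool.Agent.Lib.MP_ccbbf6_gt.L4.FR
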