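import Pool.Agent.Lib.MP_ccbbf6_gt.L4.Def

/-!
# Level 4: structures used by the blocks
-/

set_option autoImplicit false

open Set Filter Topology Metric Real
open scoped ContDiff RealInnerProductSpace

noncomputable section

namespace Pool.Agent.Lib.MP_ccbbf6_gt.L4

open Geo

/-- A fibration of the unit sphere by great circles, oriented: `e v` = the unit vector orthogonal to `v` in the plane
of `v` (homogeneous of degree `0` outside `0`). -/
structure GCF {n : ℕ} (e : Eu n → Eu n) : Prop where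
  smooth : ∀ v, v ≠ 0 → ContDiffAt ℝ ∞ e v
  hom : ∀ (v : Eu n) (r : ℝ), 0 < r → e (r • v) = e v
  norm : ∀ v, v ≠ 0 → ‖e v‖ = 1
  orth : ∀ v, ⟪v, e v⟫ = 0
  rot : ∀ v, ‖v‖ = 1 → ∀ θ : ℝ, e (cos θ • v + sin θ • e v) = -sin θ • v + cos θ • e v

/-- rotation along the fibres of a great circle fibration (on unit vectors; radial outside) -/
def rotv {n : ℕ} (e : Eu n → Eu n) (θ : ℝ) (v : Eu n) : Eu n := cos θ • v + sin θ • (‖v‖ • e v)

section

variable {n : ℕ} {M : Type*} [MetricSpace M] [CompactSpace M] (𝒜 : SDist n M)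

/-- smooth homotopies `Gs M × ℝ → M` -/
def SmH (f : Gs M → ℝ → M) : Prop := ∀ (E : Type) [NormedAddCommGroup E] [NormedSpace ℝ E] (σ : E → Gs M),
  SmG 𝒜 σ → Sm 𝒜 (fun z : E × ℝ => f (σ z.1) z.2)

/-- the geodesic with foot `p` and velocity `v` -/
def gvg (hB : Bl M) (p : M) (v : Eu n) (hv : ‖v‖ = 1) : Gs M := ⟨𝒜.gv p v, (gv_spec 𝒜 hB p hv).1⟩

/-- the circle action by rotation in the planes of the spheres through `c 0` and `c π` -/
structure Rot (ρ : ℝ → Gs M → Gs M) : Prop where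
  smooth : ∀ (E : Type) [NormedAddCommGroup E] [NormedSpace ℝ E] (σ : E → Gs M),
    SmG 𝒜 σ → SmG 𝒜 (fun z : ℝ × E => ρ z.1 (σ z.2))
  zero : ∀ c, ρ 0 c = c
  add : ∀ a b c, ρ a (ρ b c) = ρ (a + b) c
  foot : ∀ θ c, (ρ θ c).1 0 = c.1 0
  top : ∀ θ c, (ρ θ c).1 π = c.1 π
  pi : ∀ c, ρ π c = rev c
  orth : ∀ c : Gs M, ⟪𝒜.vel c.1 0, 𝒜.vel (ρ (π / 2) c).1 0⟫ = 0
  vel : ∀ (θ : ℝ) (c : Gs M), 𝒜.vel (ρ θ c).1 0 = cos θ • 𝒜.vel c.1 0 + sin θ • 𝒜.vel (ρ (π / 2) c).1 0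

/-- a filling: homotopy from the foot point map to a map which is invariant under the geodesic flow -/
structure Fill (f : Gs M → ℝ → M) : Prop where
  smooth : SmH 𝒜 f
  zero : ∀ c s, s ≤ 1 / 4 → f c s = c.1 0
  one : ∀ c s, 3 / 4 ≤ s → f c s = f c 1
  inv : ∀ c t, f (shift t c) 1 = f c 1

end

end Pool.Agent.Lib.MP_ccbbf6_gt.L4
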