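import Pool.Agent.Lib.MP_ccbbf6_gt.L4.FXa
import Pool.Agent.Lib.MP_ccbbf6_gt.L4.Str

/-!
# Level 4: the spaces
-/

set_option autoImplicit false

open Set Filter Topology Metric Real
open scoped ContDiff RealInnerProductSpace

noncomputable section

namespace Pool.Agent.Lib.MP_ccbbf6_gt.L4

open Geo FR

/-- `ℝ^n` without the origin -/
def spR (n : ℕ) : Space where
  pt := {ξ : Eu n // ξ ≠ 0}
  Pl _ := {p | ContDiff ℝ ∞ fun u => (p u).1}
  pre := fun {_ _ _} hp g => (show ContDiff ℝ ∞ _ from hp).comp g.smooth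

/-- the unit sphere -/
def spS (n : ℕ) : Space where
  pt := {ξ : Eu n // ‖ξ‖ = 1}
  Pl _ := {p | ContDiff ℝ ∞ fun u => (p u).1}
  pre := fun {_ _ _} hp g => (show ContDiff ℝ ∞ _ from hp).comp g.smooth

variable {n : ℕ} {M : Type} [MetricSpace M] [CompactSpace M] (𝒜 : SDist n M)

/-- the manifold -/
def spM : Space where
  pt := M
  Pl _ := {p | Sm 𝒜 p}
  pre := fun {_ _ _} hp g => Sm.comp hp g.smooth

/-- the space of geodesics -/
def spG : Space where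
  pt := Gs M
  Pl _ := {p | SmG 𝒜 p}
  pre := fun {_ _ _} hp g => SmG.comp hp g.smooth

/-- pairs of points at a distance between `0` and `π` -/
def spW : Space where
  pt := {z : M × M // 0 < dist z.1 z.2 ∧ dist z.1 z.2 < π}
  Pl _ := {p | Sm 𝒜 (fun u => (p u).1.1) ∧ Sm 𝒜 (fun u => (p u).1.2)}
  pre := fun {_ _ p} hp g => ⟨Sm.comp (g := fun u => (p u).1.1) hp.1 g.smooth,
    Sm.comp (g := fun u => (p u).1.2) hp.2 g.smooth⟩

variable {𝒜}

/-- evaluation at time `t` -/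
def foot (hB : Bl M) (t : ℝ) : SMap (spG 𝒜) (spM 𝒜) := ⟨fun c => c.1 t, fun _ p => SmG.ev' hB p.2 contDiff_const⟩

/-- the geodesic through two points -/
def gdG (hB : Bl M) (𝒜 : SDist n M) (z : (spW 𝒜).pt) : Gs M :=
  ⟨gd z.1.1 z.1.2, (gd_spec 𝒜 hB (p := z.1.1) (q := z.1.2) (by
    intro h
    have h2 := z.2.1
    rw [h, dist_self] at h2
    exact lt_irrefl _ h2)).1⟩

/-- the geodesic through two points -/
def GW (hB : Bl M) : SMap (spW 𝒜) (spG 𝒜) := ⟨gdG hB 𝒜, fun k p => by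
  constructor
  · intro u
    exact SmAt.gd hB (p.2.1 u) (p.2.2 u) contDiffAt_const (p.1 u).2.1 (p.1 u).2.2
  · intro u
    exact SmAt.gd hB (p.2.1 u) (p.2.2 u) contDiffAt_const (p.1 u).2.1 (p.1 u).2.2⟩

/-- the geodesic flow, period `1` -/
def phiF (hB : Bl M) : SMap (spG 𝒜).xR (spG 𝒜) := ⟨fun z => shift (2 * π * z.2) z.1, fun _ p =>
  SmG.shift hB p.2.1 (contDiff_const.mul p.2.2)⟩

/-- the rotation, period `1` -/
def rhoF {ρ : ℝ → Gs M → Gs M} (hρ : Rot 𝒜 ρ) : SMap (spG 𝒜).xR (spG 𝒜) :=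
  ⟨fun z => ρ (2 * π * z.2) z.1, fun k p =>
    SmG.comp (f := fun u => (2 * π * (p.1 u).2, u)) (hρ.smooth (V k) (fun u => (p.1 u).1) p.2.1)
      ((contDiff_const.mul p.2.2).prodMk contDiff_id)⟩

/-- the homotopy from `foot 0` to `foot π` -/
def fRho (hB : Bl M) : SMap (spG 𝒜).xR (spM 𝒜) := ⟨fun z => z.1.1 (π * z.2), fun _ p =>
  SmG.ev' hB p.2.1 (contDiff_const.mul p.2.2)⟩

/-- both sides of a filling -/
def two (f : Gs M → ℝ → M) (c : Gs M) (s : ℝ) : M := if s ≤ 1 / 2 then f (rev c) (1 - 2 * s) else f c (2 * s - 1)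

theorem sm_two (hB : Bl M) {f : Gs M → ℝ → M} (hf : Fill 𝒜 f) {E : Type} [NormedAddCommGroup E] [NormedSpace ℝ E] {σ : E → Gs M}
    (hσ : SmG 𝒜 σ) {t : E → ℝ} (ht : ContDiff ℝ ∞ t) : Sm 𝒜 (fun u => two f (σ u) (t u)) := by
  intro u
  have h1 : Sm 𝒜 (fun u => f (rev (σ u)) (1 - 2 * t u)) :=
    (hf.smooth E _ (SmG.rev hB hσ)).comp (f := fun u => (u, 1 - 2 * t u)) (contDiff_id.prodMk (by fun_prop))
  have h2 : Sm 𝒜 (fun u => f (σ u) (2 * t u - 1)) :=
    (hf.smooth E _ hσ).comp (f := fun u => (u, 2 * t u - 1)) (contDiff_id.prodMk (by fun_prop))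
  have hc : ContinuousAt t u := ht.continuous.continuousAt
  rcases lt_or_ge (t u) (1 / 2 + 1 / 16) with h | h
  · refine (h1 u).congr ?_
    filter_upwards [hc.eventually (gt_mem_nhds h)] with v hv
    unfold two
    split_ifs with h3
    · rfl
    · rw [not_le] at h3
      rw [hf.zero _ _ (by linarith), hf.zero _ _ (by linarith)]
      simp [rev]
  · refine (h2 u).congr ?_
    have h4 : (1 / 2 : ℝ) < t u := by linarith
    filter_upwards [hc.eventually (lt_mem_nhds h4)] with v hv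
    unfold two
    rw [if_neg (by linarith)]

/-- the homotopy between the two invariant maps -/
def fPhi (hB : Bl M) {f : Gs M → ℝ → M} (hf : Fill 𝒜 f) : SMap (spG 𝒜).xR (spM 𝒜) :=
  ⟨fun z => two (M := M) f z.1 z.2, fun _ p => sm_two hB hf p.2.1 p.2.2⟩

theorem sm_hom (hB : Bl M) {f : Gs M → ℝ → M} (hf : Fill 𝒜 f) {E : Type} [NormedAddCommGroup E] [NormedSpace ℝ E] {σ : E → Gs M}
    (hσ : SmG 𝒜 σ) {t : E → ℝ} (ht : ContDiff ℝ ∞ t) : Sm 𝒜 (fun u => f (rev (σ u)) (1 - t u)) :=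
  (hf.smooth E _ (SmG.rev hB hσ)).comp (f := fun u => (u, 1 - t u)) (contDiff_id.prodMk (by fun_prop))

/-- homotopy from the invariant map (right side) to `foot 0` -/
def fHom (hB : Bl M) {f : Gs M → ℝ → M} (hf : Fill 𝒜 f) : SMap (spG 𝒜).xR (spM 𝒜) :=
  ⟨fun z => f (rev (M := M) z.1) (1 - z.2), fun _ p => sm_hom hB hf p.2.1 p.2.2⟩

end Pool.Agent.Lib.MP_ccbbf6_gt.L4
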