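import Pool.Agent.Lib.MP_ccbbf6_gt.L4.Eps
import Pool.Agent.Lib.MP_ccbbf6_gt.L4.FI2
import Pool.Agent.Lib.MP_ccbbf6_gt.L4.FXb
import Pool.Agent.Lib.MP_ccbbf6_gt.L4.Sp

/-!
# Level 4, FUB, part 1: the space `spR n = ℝ^n ∖ 0`: rotation, normalization, the map to the geodesics from `p`
(helper77)
-/

set_option autoImplicit false
set_option maxSynthPendingDepth 3

open Set Filter Topology Metric Real MeasureTheory
open scoped ContDiff RealInnerProductSpace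

noncomputable section

namespace Pool.Agent.Lib.MP_ccbbf6_gt.L4

open Geo FR

variable {n : ℕ}

/-! ### The rotation of `ℝ^n ∖ 0` -/

lemma GCF.norm_rotv {e : Eu n → Eu n} (he : GCF e) (θ : ℝ) (v : Eu n) : ‖rotv e θ v‖ = ‖v‖ := by
  by_cases hv : v = 0
  · subst hv
    simp [rotv]
  have h1 : ‖rotv e θ v‖ ^ 2 = ‖v‖ ^ 2 := by
    unfold rotv
    rw [norm_add_sq_real, inner_smul_left, inner_smul_right, inner_smul_right, he.orth v, norm_smul, norm_smul, norm_smul,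
      he.norm v hv, mul_pow, mul_pow, Real.norm_eq_abs, Real.norm_eq_abs, sq_abs, sq_abs, norm_norm]
    have := Real.sin_sq_add_cos_sq θ
    simp only [mul_zero, add_zero, mul_one]
    calc cos θ ^ 2 * ‖v‖ ^ 2 + sin θ ^ 2 * ‖v‖ ^ 2 = (sin θ ^ 2 + cos θ ^ 2) * ‖v‖ ^ 2 := by ring
      _ = ‖v‖ ^ 2 := by rw [this, one_mul]
  exact (sq_eq_sq₀ (norm_nonneg _) (norm_nonneg _)).1 h1

lemma normv {v : Eu n} (hv : v ≠ 0) : ‖‖v‖⁻¹ • v‖ = 1 := by
  rw [norm_smul, norm_inv, norm_norm]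
  exact inv_mul_cancel₀ (norm_ne_zero_iff.2 hv)

lemma smul_normv (v : Eu n) : ‖v‖ • (‖v‖⁻¹ • v) = v := by
  by_cases hv : v = 0
  · subst hv
    simp
  · rw [smul_smul, mul_inv_cancel₀ (norm_ne_zero_iff.2 hv), one_smul]

lemma rotv_smul {e : Eu n → Eu n} (he : GCF e) (θ : ℝ) (v : Eu n) {r : ℝ} (hr : 0 < r) :
    rotv e θ (r • v) = r • rotv e θ v := by
  unfold rotv
  rw [he.hom v r hr, norm_smul, Real.norm_of_nonneg hr.le, smul_add, smul_comm r (cos θ), smul_comm r (sin θ), smul_smul r]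

lemma rotv_unit {e : Eu n → Eu n} (θ : ℝ) {v : Eu n} (hv : ‖v‖ = 1) : rotv e θ v = cos θ • v + sin θ • e v := by
  unfold rotv
  rw [hv, one_smul]

lemma rotv_rotv {e : Eu n → Eu n} (he : GCF e) (s t : ℝ) (v : Eu n) : rotv e s (rotv e t v) = rotv e (t + s) v := by
  by_cases hv : v = 0
  · subst hv
    simp [rotv]
  have hr : 0 < ‖v‖ := norm_pos_iff.2 hv
  have key : ∀ u : Eu n, ‖u‖ = 1 → rotv e s (rotv e t u) = rotv e (t + s) u := by
    intro u hu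
    have h1 : ‖rotv e t u‖ = 1 := by rw [he.norm_rotv, hu]
    rw [rotv_unit s h1, rotv_unit t hu, he.rot u hu, rotv_unit (t + s) hu, cos_add, sin_add]
    module
  have h2 := key _ (normv hv)
  rw [← smul_normv v, rotv_smul he _ _ hr, rotv_smul he _ _ hr, rotv_smul he _ _ hr, h2]

lemma contDiff_rotv {e : Eu n → Eu n} (he : GCF e) {E : Type*} [NormedAddCommGroup E] [NormedSpace ℝ E] {v : E → Eu n}
    {θ : E → ℝ} (hv : ContDiff ℝ ∞ v) (hθ : ContDiff ℝ ∞ θ) (h0 : ∀ u, v u ≠ 0) :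
    ContDiff ℝ ∞ fun u => rotv e (θ u) (v u) := by
  unfold rotv
  refine (hθ.cos.smul hv).add (hθ.sin.smul ((hv.norm ℝ h0).smul ?_))
  exact contDiff_iff_contDiffAt.2 fun u => (he.smooth _ (h0 u)).comp u hv.contDiffAt

/-- rotation of `ℝ^n ∖ 0`, period `1` -/
def rotC {e : Eu n → Eu n} (he : GCF e) : Circ (spR n) where
  a := ⟨fun z => ⟨rotv e (2 * π * z.2) z.1.1, by
      rw [← norm_ne_zero_iff, he.norm_rotv, norm_ne_zero_iff]
      exact z.1.2⟩, fun k p =>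
    contDiff_rotv he (v := fun u => (p.1 u).1.1) (θ := fun u => 2 * π * (p.1 u).2) p.2.1
      (contDiff_const.mul p.2.2) fun u => (p.1 u).1.2⟩
  zero := fun x => Subtype.ext (by
    change rotv e (2 * π * 0) x.1 = x.1
    simp [rotv])
  add := fun x s t => Subtype.ext (by
    change rotv e (2 * π * t) (rotv e (2 * π * s) x.1) = rotv e (2 * π * (s + t)) x.1
    rw [rotv_rotv he, mul_add])
  one := fun x s => Subtype.ext (by
    change rotv e (2 * π * (s + 1)) x.1 = rotv e (2 * π * s) x.1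
    rw [mul_add, mul_one, rotv, rotv, cos_add_two_pi, sin_add_two_pi])

/-- normalization `ξ ↦ ξ / |ξ|` -/
def nrmR (n : ℕ) : SMap (spR n) (spR n) :=
  ⟨fun x => ⟨‖x.1‖⁻¹ • x.1, by
    rw [← norm_ne_zero_iff, normv x.2]
    exact one_ne_zero⟩, fun k p =>
    ((show ContDiff ℝ ∞ fun u => (p.1 u).1 from p.2).norm ℝ fun u => (p.1 u).2).inv
      (fun u => norm_ne_zero_iff.2 (p.1 u).2) |>.smul p.2⟩

/-- the inclusion `ℝ^n ∖ 0 → ℝ^n` -/
def jR (n : ℕ) : (spR n).pt → Eu n := Subtype.val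

lemma jR_inj : Function.Injective (jR n) := Subtype.val_injective

/-- the function `χ(|ξ|)` as a form on `ℝ^n ∖ 0` -/
def chR (n : ℕ) : Om (spR n) :=
  fO (fun x : (spR n).pt => chi ‖x.1‖) fun _ p => contDiff_chi.comp
    ((show ContDiff ℝ ∞ fun u => (p.1 u).1 from p.2).norm ℝ fun u => (p.1 u).2)

/-- the integral over `ℝ^n ∖ 0` of `dχ(|ξ|) θ` -/
def JR (n : ℕ) (θ : Om (spR n)) : ℝ := ∫ x : V n, topE n (vAt (jR n) (dO _ (chR n) * θ) toE x)

/-- scaling -/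
def scl (n : ℕ) (r : ℝ) : FR.Sm n n := ⟨fun x => r • x, contDiff_id.const_smul r⟩

/-! ### The map to the geodesics from `p` -/

variable {M : Type} [MetricSpace M] [CompactSpace M] {𝒜 : SDist n M}

lemma smAt_Ex (hB : Bl M) (p : M) {E : Type*} [NormedAddCommGroup E] [NormedSpace ℝ E] {f : E → Eu n} {u : E}
    (hf : ContDiffAt ℝ ∞ f u) : SmAt 𝒜 (fun u => 𝒜.Ex p (f u)) u := by
  constructor
  · exact ContinuousAt.comp (g := 𝒜.Ex p) (f := f) (continuous_Ex 𝒜 hB p).continuousAt hf.continuousAt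
  · exact ContDiffAt.comp (g := fun η => 𝒜.ψ (𝒜.Ex p (f u)) (𝒜.Ex p η)) (f := f) u
      (contDiffAt_Ex 𝒜 hB p (f u) (𝒜.mem _)) hf

/-- the geodesic from `p` in the direction of `ξ` -/
def ER (hB : Bl M) (p : M) : SMap (spR n) (spG 𝒜) :=
  ⟨fun x => gvg 𝒜 hB p (‖x.1‖⁻¹ • x.1) (normv x.2), fun k q => by
    have hq : ContDiff ℝ ∞ fun u => ‖(q.1 u).1‖⁻¹ • (q.1 u).1 :=
      ((show ContDiff ℝ ∞ fun u => (q.1 u).1 from q.2).norm ℝ fun u => (q.1 u).2).inv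
        (fun u => norm_ne_zero_iff.2 (q.1 u).2) |>.smul q.2
    have h1 : ∀ t : ℝ, Sm 𝒜 fun u => 𝒜.gv p (‖(q.1 u).1‖⁻¹ • (q.1 u).1) t := by
      intro t u
      have h2 : (fun u => 𝒜.gv p (‖(q.1 u).1‖⁻¹ • (q.1 u).1) t) =
          fun u => 𝒜.Ex p (t • (‖(q.1 u).1‖⁻¹ • (q.1 u).1)) := by
        funext u
        rw [Ex_smul 𝒜 hB p (normv (q.1 u).2)]
      rw [h2]
      exact smAt_Ex hB p (hq.const_smul t).contDiffAt
    exact ⟨h1 0, h1 (π / 2)⟩⟩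

lemma ER_nrm (hB : Bl M) (p : M) : (ER (𝒜 := 𝒜) hB p).comp (nrmR n) = ER hB p := by
  refine SMap_ext fun x => Subtype.ext ?_
  change 𝒜.gv p (‖‖x.1‖⁻¹ • x.1‖⁻¹ • (‖x.1‖⁻¹ • x.1)) = 𝒜.gv p (‖x.1‖⁻¹ • x.1)
  rw [normv x.2, inv_one, one_smul]

lemma ER_foot (hB : Bl M) (p : M) (x : (spR n).pt) : ((ER (𝒜 := 𝒜) hB p).1 x).1 0 = p :=
  (gv_spec 𝒜 hB p (normv x.2)).2.1

end Pool.Agent.Lib.MP_ccbbf6_gt.L4
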