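import Pool.Agent.Lib.MP_ccbbf6_gt.L4.EF
import Pool.Agent.Lib.MP_ccbbf6_gt.L4.FU1

/-!
# Level 4, F4a: the punctured space `spR n`: the local plot, contractions
-/

set_option autoImplicit false

open Set Filter Topology MeasureTheory
open scoped TensorProduct ContDiff RealInnerProductSpace

noncomputable section

namespace Pool.Agent.Lib.MP_ccbbf6_gt.L4

open FR Geo

variable {n k l : ℕ}

/-! ### The local plot of `spR n` -/

theorem toE_ne {x : V n} (hx : x ≠ 0) : toE x ≠ 0 := by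
  intro h
  apply hx
  funext i
  have := congrArg (fun v : Eu n => v i) h
  exact this

theorem locPl_toE_f4 {x : V n} (hx : x ≠ 0) : LocPl (jR n) toE x := by
  obtain ⟨s, hs1, hs2⟩ := exists_sq x (isOpen_ne.mem_nhds hx)
  refine ⟨⟨fun w => ⟨toE (s w), toE_ne (hs2 w)⟩, contDiff_toE.comp s.smooth⟩, ?_⟩
  filter_upwards [hs1] with w hw
  change toE (s w) = toE w
  rw [hw]

theorem not_locPl_zero_f4 : ¬ LocPl (jR n) (toE : V n → Eu n) 0 := by
  rintro ⟨P, hP⟩
  exact (P.1 0).2 hP.self_of_nhds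

/-! ### Values of contractions -/

theorem ev_cn_f4 (φ : V k →ₗ[ℝ] ℝ) (x : V k) (θ : Fm k) : ev x (cn φ θ) = ctr φ (ev x θ) := by
  induction θ using Fm_tind with
  | hf f a => rw [cn_tm, ev_tm, ev_tm, map_smul]
  | ha y z hy hz => rw [map_add, map_add, map_add, map_add, hy, hz]

theorem ev_sg_f4 (x : V k) (θ : Fm k) : ev x (sg k θ) = ivo k (ev x θ) := by
  induction θ using Fm_tind with
  | hf f a => rw [sg_tm, ev_tm, ev_tm, map_smul]
  | ha y z hy hz => rw [map_add, map_add, map_add, map_add, hy, hz]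

theorem phi_trL (A : V k →L[ℝ] V l) (u : V k) : (EUL.phi u).comp (trL A) = EUL.phi (A u) := by
  refine LinearMap.ext fun v => ?_
  change ∑ i, u i * trL A v i = ∑ j, A u j * v j
  have h := trL_dot A v u
  rw [← Finset.sum_congr rfl fun j _ => mul_comm (v j) (A u j), ← h]
  exact Finset.sum_congr rfl fun i _ => mul_comm _ _

theorem ctr_map_trL (A : V k →L[ℝ] V l) (u : V k) (y : Ex l) :
    ctr (EUL.phi u) (ExteriorAlgebra.map (trL A) y) =
      ExteriorAlgebra.map (trL A) (ctr (EUL.phi (A u)) y) := by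
  rw [ctr_map, phi_trL]

theorem lst_eq (k : ℕ) : lst k = EUL.phi (Pi.single (Fin.last k) (1 : ℝ)) := by
  refine LinearMap.ext fun v => ?_
  rw [EUL.phi_apply, lst_apply, Finset.sum_eq_single (Fin.last k)]
  · rw [Pi.single_eq_same, one_mul]
  · intro j _ hj
    rw [Pi.single_eq_of_ne hj, zero_mul]
  · intro h
    exact absurd (Finset.mem_univ _) h

theorem map_map_trL {N : ℕ} (A : V k →L[ℝ] V l) (B : V l →L[ℝ] V N) (y : Ex N) :
    ExteriorAlgebra.map (trL A) (ExteriorAlgebra.map (trL B) y) = ExteriorAlgebra.map (trL (B.comp A)) y := by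
  rw [trL_comp]
  have h := ExteriorAlgebra.map_comp_map (R := ℝ) (trL B) (trL A)
  exact AlgHom.congr_fun h y

/-- the radial contraction of radially invariant forms vanishes -/
theorem vAt_rad {θ : Om (spR n)} (h : (nrmR n).pull θ = θ) {x : V n} (hx : x ≠ 0) :
    ctr (EUL.phi x) (vAt (jR n) θ toE x) = 0 := by
  obtain ⟨P, hP⟩ := locPl_toE_f4 hx
  -- the normalization
  set r : V n → V n := fun z => ‖toE z‖⁻¹ • z with hr
  have hnx : ∀ z : V n, z ≠ 0 → ‖toE z‖ ≠ 0 := fun z hz => norm_ne_zero_iff.2 (toE_ne hz)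
  have hrs : ∀ z : V n, z ≠ 0 → ContDiffAt ℝ ∞ r z := by
    intro z hz
    have h2 : ContDiffAt ℝ ∞ (fun v : Eu n => ‖v‖) (toE z) := contDiffAt_norm ℝ (toE_ne hz)
    have h1 : ContDiffAt ℝ ∞ (fun y : V n => ‖toE y‖) z := h2.comp z contDiff_toE.contDiffAt
    exact (h1.inv (hnx z hz)).smul contDiffAt_id
  have hrs' : ∀ᶠ z in 𝓝 x, ContDiffAt ℝ ∞ r z := by
    filter_upwards [isOpen_ne.mem_nhds hx] with z hz
    exact hrs z hz
  have hr0 : r x ≠ 0 := smul_ne_zero (inv_ne_zero (hnx x hx)) hx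
  obtain ⟨hl, hv⟩ := vAt_comp (jR_inj) θ hrs' (locPl_toE_f4 hr0)
  have h1 : vAt (jR n) θ toE x = vAt (jR n) θ (fun w => toE (r w)) x := by
    rw [vAt_eq (jR_inj) θ P hP]
    have h2 : (fun w => jR n (((nrmR n).pl P).1 w)) =ᶠ[𝓝 x] fun w => toE (r w) := by
      filter_upwards [hP] with w hw
      change ‖(P.1 w).1‖⁻¹ • (P.1 w).1 = toE (r w)
      have hw' : (P.1 w).1 = toE w := hw
      rw [hw']
      rfl
    rw [vAt_eq (jR_inj) θ ((nrmR n).pl P) h2]
    conv_lhs => rw [← h]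
    rw [on_pull]
  rw [h1, hv, ctr_map_trL]
  have h2 : fderiv ℝ r x x = 0 := by
    have hd : HasDerivAt (fun t : ℝ => r (t • x)) (fderiv ℝ r x x) 1 := by
      have h3 : HasDerivAt (fun t : ℝ => t • x) x 1 := by
        simpa using (hasDerivAt_id (1 : ℝ)).smul_const x
      have h4 : HasFDerivAt r (fderiv ℝ r x) ((1 : ℝ) • x) := by
        rw [one_smul]
        exact ((hrs x hx).differentiableAt (by simp)).hasFDerivAt
      exact h4.comp_hasDerivAt 1 h3
    have hc : (fun t : ℝ => r (t • x)) =ᶠ[𝓝 1] fun _ => r x := by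
      have h6 : ∀ᶠ t : ℝ in 𝓝 1, 0 < t := isOpen_Ioi.mem_nhds (show (0 : ℝ) < 1 from one_pos)
      filter_upwards [h6] with t ht
      change ‖toE (t • x)‖⁻¹ • (t • x) = ‖toE x‖⁻¹ • x
      have h7 : toE (t • x) = t • toE x := rfl
      rw [h7, norm_smul, Real.norm_of_nonneg ht.le, smul_smul, mul_inv, mul_comm t⁻¹, mul_assoc,
        inv_mul_cancel₀ ht.ne', mul_one]
    exact (hd.congr_of_eventuallyEq hc.symm).unique (hasDerivAt_const 1 (r x))
  have h3 : EUL.phi (0 : V n) = 0 := by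
    refine LinearMap.ext fun v => ?_
    rw [EUL.phi_apply]
    simp
  have h4 : ∀ y : Ex n, ctr (0 : V n →ₗ[ℝ] ℝ) y = 0 := by
    intro y
    have := EUL.ctr_smul 0 (0 : V n →ₗ[ℝ] ℝ) y
    rwa [zero_smul, zero_smul] at this
  rw [h2, h3, h4, map_zero]

/-- the contraction with the generator of the rotation -/
theorem vAt_i {e : Eu n → Eu n} (he : GCF e) (θ : Om (spR n)) {x : V n} (hx : x ≠ 0) :
    vAt (jR n) (iO (rotC he) θ) toE x =
      (2 * Real.pi) • ctr (EUL.phi (EUL.XE e x)) (vAt (jR n) θ toE x) := by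
  obtain ⟨P, hP⟩ := locPl_toE_f4 hx
  set y : V (n + 1) := Fin.snoc x 0 with hy
  have hpy : pr n y = x := pr_snoc x 0
  -- the rotated point
  set G : V (n + 1) → V n := fun w =>
    Real.cos (2 * Real.pi * w (Fin.last n)) • (pr n w) +
      Real.sin (2 * Real.pi * w (Fin.last n)) • EUL.XE e (pr n w) with hG
  have hGy : G y = x := by
    rw [hG]
    simp only
    rw [hpy, hy, Fin.snoc_last, mul_zero, Real.cos_zero, Real.sin_zero, one_smul, zero_smul, add_zero]
  have hXs : ∀ z : V n, z ≠ 0 → ContDiffAt ℝ ∞ (EUL.XE e) z := by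
    intro z hz
    have hz0 : 0 < EUL.sqn z := by
      rw [← EUL.norm_toE_sq]
      have : 0 < ‖EUL.toE z‖ := norm_pos_iff.2 (toE_ne hz)
      positivity
    refine contDiffAt_pi.2 fun i => ?_
    have h1 : ContDiffAt ℝ ∞ (fun x : V n => Real.sqrt (EUL.sqn x)) z :=
      ContDiffAt.comp (g := Real.sqrt) z (Real.contDiffAt_sqrt hz0.ne') EUL.contDiff_sqn.contDiffAt
    have h3 : ContDiffAt ℝ ∞ (fun y : V n => e (toE y) i) z := by
      have h4 : ContDiffAt ℝ ∞ (fun y : V n => e (toE y)) z := (he.smooth _ (toE_ne hz)).comp z contDiff_toE.contDiffAt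
      exact (EuclideanSpace.proj i : Eu n →L[ℝ] ℝ).contDiff.contDiffAt.comp z h4
    exact h1.mul h3
  have hGs : ∀ w : V (n + 1), pr n w ≠ 0 → ContDiffAt ℝ ∞ G w := by
    intro w hw
    have h1 : ContDiffAt ℝ ∞ (fun w : V (n + 1) => 2 * Real.pi * w (Fin.last n)) w :=
      (contDiff_const.mul (contDiff_apply ℝ ℝ (Fin.last n))).contDiffAt
    have h2 : ContDiffAt ℝ ∞ (fun w : V (n + 1) => pr n w) w := (pr n).smooth.contDiffAt
    have h3 : ContDiffAt ℝ ∞ (fun w : V (n + 1) => EUL.XE e (pr n w)) w :=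
      ContDiffAt.comp (g := EUL.XE e) w (hXs _ hw) h2
    exact ((Real.contDiff_cos.contDiffAt.comp w h1).smul h2).add
      ((Real.contDiff_sin.contDiffAt.comp w h1).smul h3)
  have hprc : ContinuousAt (fun w : V (n + 1) => pr n w) y := (pr n).smooth.continuous.continuousAt
  have hne : ∀ᶠ w in 𝓝 y, pr n w ≠ 0 :=
    hprc.eventually (isOpen_ne.mem_nhds (show pr n y ≠ 0 by rw [hpy]; exact hx))
  have hGs' : ∀ᶠ w in 𝓝 y, ContDiffAt ℝ ∞ G w := by
    filter_upwards [hne] with w hw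
    exact hGs w hw
  obtain ⟨hl, hv⟩ := vAt_comp (jR_inj) θ hGs' (p := toE) (by rw [hGy]; exact locPl_toE_f4 hx)
  rw [hGy] at hv
  have h1 : (fun w => jR n (((rotC he).op P).1 w)) =ᶠ[𝓝 y] fun w => toE (G w) := by
    have hP' : ∀ᶠ w in 𝓝 y, jR n (P.1 (pr n w)) = toE (pr n w) := by
      have hP2 : ∀ᶠ z in 𝓝 (pr n y), jR n (P.1 z) = toE z := by rw [hpy]; exact hP
      exact hprc.eventually hP2
    filter_upwards [hP'] with w hw
    change rotv e (2 * Real.pi * w (Fin.last n)) (P.1 (pr n w)).1 = toE (G w)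
    have hw' : (P.1 (pr n w)).1 = toE (pr n w) := hw
    rw [hw']
    unfold rotv
    ext i
    change Real.cos (2 * Real.pi * w (Fin.last n)) * (pr n w) i +
      Real.sin (2 * Real.pi * w (Fin.last n)) * (‖EUL.toE (pr n w)‖ * e (toE (pr n w)) i) =
      Real.cos (2 * Real.pi * w (Fin.last n)) * (pr n w) i +
      Real.sin (2 * Real.pi * w (Fin.last n)) * (Real.sqrt (EUL.sqn (pr n w)) * e (EUL.toE (pr n w)) i)
    rw [EUL.norm_toE]
    rfl
  have h2 : ev y (Om.on θ ((rotC he).op P)) = ExteriorAlgebra.map (trL (fderiv ℝ G y)) (vAt (jR n) θ toE x) := by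
    rw [← hv, vAt_eq (jR_inj) θ _ h1]
  -- the derivatives
  have hdG : HasFDerivAt G (fderiv ℝ G y) y :=
    ((hGs y (by rw [hpy]; exact hx)).differentiableAt (by simp)).hasFDerivAt
  have h3 : fderiv ℝ G y (Pi.single (Fin.last n) 1) = (2 * Real.pi) • EUL.XE e x := by
    have h4 : HasDerivAt (fun s : ℝ => G (Fin.snoc x s)) (fderiv ℝ G y (Pi.single (Fin.last n) 1)) 0 :=
      HasFDerivAt.comp_hasDerivAt (f := fun s : ℝ => (Fin.snoc x s : V (n + 1))) (0 : ℝ) hdG (hasDerivAt_snoc x 0)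
    have h5 : (fun s : ℝ => G (Fin.snoc x s)) = fun s : ℝ => Real.cos (2 * Real.pi * s) • x +
        Real.sin (2 * Real.pi * s) • EUL.XE e x := by
      funext s
      rw [hG]
      simp only
      rw [pr_snoc, Fin.snoc_last]
    have h6 : HasDerivAt (fun s : ℝ => Real.cos (2 * Real.pi * s) • x +
        Real.sin (2 * Real.pi * s) • EUL.XE e x) ((2 * Real.pi) • EUL.XE e x) 0 := by
      have h7 : HasDerivAt (fun s : ℝ => 2 * Real.pi * s) (2 * Real.pi) 0 := by
        simpa using (hasDerivAt_id (0 : ℝ)).const_mul (2 * Real.pi)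
      have h8 := ((h7.cos).smul_const x).add ((h7.sin).smul_const (EUL.XE e x))
      have h9 : (-Real.sin (2 * Real.pi * 0) * (2 * Real.pi)) • x +
          (Real.cos (2 * Real.pi * 0) * (2 * Real.pi)) • EUL.XE e x = (2 * Real.pi) • EUL.XE e x := by simp
      rw [h9] at h8
      exact h8
    rw [h5] at h4
    exact h4.unique h6
  have h4 : (fderiv ℝ G y).comp (fderiv ℝ (sl n 0 : V n → V (n + 1)) x) = ContinuousLinearMap.id ℝ (V n) := by
    have h5 : HasFDerivAt (fun z : V n => G (sl n 0 z)) ((fderiv ℝ G y).comp (fderiv ℝ (sl n 0 : V n → V (n + 1)) x)) x :=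
      HasFDerivAt.comp (g := G) x hdG ((sl n 0).diff x).hasFDerivAt
    have h6 : (fun z : V n => G (sl n 0 z)) = fun z => z := by
      funext z
      rw [sl_apply, hG]
      simp only
      rw [pr_snoc, Fin.snoc_last, mul_zero, Real.cos_zero, Real.sin_zero, one_smul, zero_smul, add_zero]
    rw [h6] at h5
    exact h5.unique (hasFDerivAt_id x)
  rw [vAt_eq (jR_inj) _ P hP, on_i, ev_pb, sl_apply, cs, ev_cn_f4, ← hy, h2, lst_eq, ctr_map_trL, h3,
    EUL.phi_smul, EUL.ctr_smul, map_smul, map_smul, tr_eq, map_map_trL, h4, trL_id, ExteriorAlgebra.map_id]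
  rfl

end Pool.Agent.Lib.MP_ccbbf6_gt.L4
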