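import Pool.Agent.Lib.MP_ccbbf6_gt.ML

/-!
# PO1a: calculus lemmas for the push-off (Level 4)
-/

set_option autoImplicit false
set_option linter.unusedSectionVars false

open Set Filter Topology Metric Real
open scoped ContDiff RealInnerProductSpace

noncomputable section

namespace Pool.Agent.Lib.MP_ccbbf6_gt.L4.PO

section

variable {F G : Type*} [NormedAddCommGroup F] [NormedSpace ℝ F] [NormedAddCommGroup G] [NormedSpace ℝ G]

theorem hasDerivAt_snd {g : F × ℝ → G} {z : F × ℝ} (h : DifferentiableAt ℝ g z) :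
    HasDerivAt (fun t => g (z.1, t)) (fderiv ℝ g z (0, 1)) z.2 := by
  have h1 : HasDerivAt (fun t : ℝ => (z.1, t)) ((0 : F), (1 : ℝ)) z.2 :=
    (hasDerivAt_const z.2 z.1).prodMk (hasDerivAt_id z.2)
  exact h.hasFDerivAt.comp_hasDerivAt z.2 h1

theorem eventually_diff {g : F → G} {z : F} (h : ContDiffAt ℝ ∞ g z) : ∀ᶠ w in 𝓝 z, DifferentiableAt ℝ g w := by
  have h1 : ContDiffAt ℝ 1 g z := h.of_le (by simp)
  filter_upwards [h1.eventually (by simp)] with w hw
  exact hw.differentiableAt (by simp)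

/-- the partial derivative in the last variable is smooth -/
theorem contDiffAt_deriv2 {g : F × ℝ → G} {z : F × ℝ} (h : ContDiffAt ℝ ∞ g z) :
    ContDiffAt ℝ ∞ (fun w : F × ℝ => deriv (fun t => g (w.1, t)) w.2) z := by
  have h1 : ContDiffAt ℝ ∞ (fun w => fderiv ℝ g w ((0 : F), (1 : ℝ))) z :=
    (h.fderiv_right (m := ∞) (by simp)).clm_apply contDiffAt_const
  refine h1.congr_of_eventuallyEq ?_
  filter_upwards [eventually_diff h] with w hw
  exact (hasDerivAt_snd hw).deriv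

theorem contDiffAt_deriv2' {g : F × ℝ → G} {y : F} {s : ℝ} (h : ContDiffAt ℝ ∞ g (y, s)) :
    ContDiffAt ℝ ∞ (fun w : F => deriv (fun t => g (w, t)) s) y :=
  ContDiffAt.comp (g := fun w : F × ℝ => deriv (fun t => g (w.1, t)) w.2) (f := fun w : F => (w, s)) y
    (contDiffAt_deriv2 h) (contDiffAt_id.prodMk contDiffAt_const)

end

/-- mixed partial derivatives -/
theorem mixed {f : ℝ × ℝ → ℝ} {x y : ℝ} (h : ContDiffAt ℝ ∞ f (x, y)) :
    ∃ D, HasDerivAt (fun s => deriv (fun t => f (s, t)) y) D x ∧ HasDerivAt (fun t => deriv (fun s => f (s, t)) x) D y := by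
  have hd : DifferentiableAt ℝ (fderiv ℝ f) (x, y) :=
    (h.fderiv_right (m := ∞) (by simp)).differentiableAt (by simp)
  have hs : IsSymmSndFDerivAt ℝ f (x, y) := (h.of_le (m := 2) ENat.LEInfty.out).isSymmSndFDerivAt (by simp)
  have e1 : ∀ᶠ z in 𝓝 (x, y), DifferentiableAt ℝ f z := eventually_diff h
  refine ⟨fderiv ℝ (fderiv ℝ f) (x, y) (1, 0) (0, 1), ?_, ?_⟩
  · have h1 : HasDerivAt (fun s : ℝ => (s, y)) ((1 : ℝ), (0 : ℝ)) x := (hasDerivAt_id x).prodMk (hasDerivAt_const x y)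
    have h2 : HasDerivAt (fun s : ℝ => fderiv ℝ f (s, y)) (fderiv ℝ (fderiv ℝ f) (x, y) (1, 0)) x :=
      HasFDerivAt.comp_hasDerivAt (f := fun s : ℝ => (s, y)) (l := fderiv ℝ f) x hd.hasFDerivAt h1
    have h3 : HasDerivAt (fun s : ℝ => fderiv ℝ f (s, y) (0, 1)) (fderiv ℝ (fderiv ℝ f) (x, y) (1, 0) (0, 1)) x := by
      have := h2.clm_apply (hasDerivAt_const x ((0 : ℝ), (1 : ℝ)))
      simpa using this
    refine h3.congr_of_eventuallyEq ?_
    have hc : ContinuousAt (fun s : ℝ => (s, y)) x := by fun_prop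
    filter_upwards [hc.eventually e1] with s hs
    exact (hasDerivAt_snd (z := (s, y)) hs).deriv
  · have h1 : HasDerivAt (fun t : ℝ => (x, t)) ((0 : ℝ), (1 : ℝ)) y := (hasDerivAt_const y x).prodMk (hasDerivAt_id y)
    have h2 : HasDerivAt (fun t : ℝ => fderiv ℝ f (x, t)) (fderiv ℝ (fderiv ℝ f) (x, y) (0, 1)) y :=
      HasFDerivAt.comp_hasDerivAt (f := fun t : ℝ => (x, t)) (l := fderiv ℝ f) y hd.hasFDerivAt h1
    have h3 : HasDerivAt (fun t : ℝ => fderiv ℝ f (x, t) (1, 0)) (fderiv ℝ (fderiv ℝ f) (x, y) (0, 1) (1, 0)) y := by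
      have := h2.clm_apply (hasDerivAt_const y ((1 : ℝ), (0 : ℝ)))
      simpa using this
    have e2 : fderiv ℝ (fderiv ℝ f) (x, y) (1, 0) (0, 1) = fderiv ℝ (fderiv ℝ f) (x, y) (0, 1) (1, 0) := hs _ _
    rw [e2]
    refine h3.congr_of_eventuallyEq ?_
    have hc : ContinuousAt (fun t : ℝ => (x, t)) y := by fun_prop
    filter_upwards [hc.eventually e1] with t ht
    have h4 : HasDerivAt (fun s : ℝ => (s, t)) ((1 : ℝ), (0 : ℝ)) x := (hasDerivAt_id x).prodMk (hasDerivAt_const x t)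
    have h5 : HasFDerivAt f (fderiv ℝ f (x, t)) ((fun s : ℝ => (s, t)) x) := ht.hasFDerivAt
    exact (h5.comp_hasDerivAt x h4).deriv

/-- a cut-off function -/
theorem exists_cut {E : Type*} [NormedAddCommGroup E] [NormedSpace ℝ E] [FiniteDimensional ℝ E] {K U : Set E}
    (hK : IsCompact K) (hU : IsOpen U) (hKU : K ⊆ U) :
    ∃ χ : E → ℝ, ContDiff ℝ ∞ χ ∧ (∀ x ∈ K, χ x = 1) ∧ HasCompactSupport χ ∧ tsupport χ ⊆ U := by
  have : ProperSpace E := FiniteDimensional.proper_real E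
  obtain ⟨L, hL, hKL, hLU⟩ := exists_compact_between hK hU hKU
  obtain ⟨f, hf1, hf0, -⟩ := exists_contMDiffMap_one_nhds_of_subset_interior (n := (⊤ : ℕ∞)) (modelWithCornersSelf ℝ E)
    hK.isClosed hKL
  have hs : Function.support f ⊆ L := by
    intro x hx
    by_contra hx'
    exact hx (hf0 x hx')
  have ht : tsupport f ⊆ L := closure_minimal hs hL.isClosed
  refine ⟨f, f.contMDiff.contDiff, fun x hx => ?_, ?_, ht.trans hLU⟩
  · exact hf1.self_of_nhdsSet x hx
  · exact HasCompactSupport.intro' hL hL.isClosed (fun x hx => hf0 x hx)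

/-- a cut-off of a smooth map is smooth -/
theorem contDiff_cut {E G : Type*} [NormedAddCommGroup E] [NormedSpace ℝ E] [NormedAddCommGroup G] [NormedSpace ℝ G]
    {χ : E → ℝ} (hχ : ContDiff ℝ ∞ χ) {g : E → G} (hg : ∀ x ∈ tsupport χ, ContDiffAt ℝ ∞ g x) :
    ContDiff ℝ ∞ (fun x => χ x • g x) := by
  rw [contDiff_iff_contDiffAt]
  intro x
  by_cases hx : x ∈ tsupport χ
  · exact hχ.contDiffAt.smul (hg x hx)
  · have h1 : (fun x => χ x • g x) =ᶠ[𝓝 x] fun _ => 0 := by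
      filter_upwards [(isClosed_tsupport χ).isOpen_compl.mem_nhds hx] with y hy
      rw [image_eq_zero_of_notMem_tsupport hy, zero_smul]
    exact contDiffAt_const.congr_of_eventuallyEq h1

theorem bounded_cut {E G : Type*} [NormedAddCommGroup E] [NormedSpace ℝ E] [NormedAddCommGroup G] [NormedSpace ℝ G]
    {χ : E → ℝ} (hχ : ContDiff ℝ ∞ χ) (hc : HasCompactSupport χ) {g : E → G}
    (hg : ∀ x ∈ tsupport χ, ContDiffAt ℝ ∞ g x) : ∃ C, ∀ x, ‖χ x • g x‖ ≤ C := by
  have h1 : HasCompactSupport (fun x => χ x • g x) := hc.smul_right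
  exact h1.exists_bound_of_continuous (contDiff_cut hχ hg).continuous

end Pool.Agent.Lib.MP_ccbbf6_gt.L4.PO
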