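import Pool.Agent.Lib.MP_ccbbf6_gt.L4.SM1

/-!
# L4 smoothing block, file 2 (helper95): smooth embedding of a compact `M` and the smooth retraction
-/

set_option autoImplicit false

open Set Filter Topology Metric
open scoped ContDiff RealInnerProductSpace

noncomputable section

namespace Pool.Agent.Lib.MP_ccbbf6_gt.L4

open Geo

section

variable {n : ℕ} {M : Type*} [MetricSpace M] (𝒜 : SDist n M)
variable {F : Type*} [NormedAddCommGroup F] [NormedSpace ℝ F]

open Classical in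
/-- cut off a function given in a chart -/
def cutF (p : M) (k : Eu n → F) (x : M) : F := if x ∈ (𝒜.ψ p).source then k (𝒜.ψ p x) else 0

variable {𝒜}

theorem smF_cutF {p : M} {k : Eu n → F} (hk : ContDiff ℝ ∞ k) {R : ℝ} (hR : closedBall (0 : Eu n) R ⊆ (𝒜.ψ p).target)
    (h0 : ∀ w, w ∉ closedBall (0 : Eu n) R → k w = 0) (x : M) : SmFA 𝒜 (cutF 𝒜 p k) x := by
  by_cases hx : x ∈ (𝒜.ψ p).source
  · rw [smF_iff hx]
    refine hk.contDiffAt.congr_of_eventuallyEq ?_
    filter_upwards [(𝒜.ψ p).open_target.mem_nhds ((𝒜.ψ p).map_source hx)] with w hw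
    simp only [cutF, (𝒜.ψ p).map_target hw, if_true, (𝒜.ψ p).right_inv hw]
  · have hK : IsCompact ((𝒜.ψ p).symm '' closedBall (0 : Eu n) R) :=
      (isCompact_closedBall _ _).image_of_continuousOn ((𝒜.ψ p).continuousOn_symm.mono hR)
    have hxK : x ∉ (𝒜.ψ p).symm '' closedBall (0 : Eu n) R := by
      rintro ⟨w, hw, rfl⟩
      exact hx ((𝒜.ψ p).map_target (hR hw))
    refine (smF_const (𝒜 := 𝒜) (0 : F) x).congr ?_
    filter_upwards [hK.isClosed.isOpen_compl.mem_nhds hxK] with y hy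
    by_cases hys : y ∈ (𝒜.ψ p).source
    · simp only [cutF, hys, if_true]
      apply h0
      intro hcon
      exact hy ⟨_, hcon, (𝒜.ψ p).left_inv hys⟩
    · simp only [cutF, hys, if_false]

/-- the derivative is injective if there is a local left inverse -/
theorem injective_of_left {F : Type*} [NormedAddCommGroup F] [NormedSpace ℝ F] {h : Eu n → F} {s : F → Eu n} {w₀ : Eu n}
    (hh : DifferentiableAt ℝ h w₀) (hs : DifferentiableAt ℝ s (h w₀)) (he : (fun w => s (h w)) =ᶠ[𝓝 w₀] id) :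
    Function.Injective (fderiv ℝ h w₀) := by
  have h1 : HasFDerivAt (fun w => s (h w)) ((fderiv ℝ s (h w₀)).comp (fderiv ℝ h w₀)) w₀ :=
    hs.hasFDerivAt.comp w₀ hh.hasFDerivAt
  have h2 : HasFDerivAt (fun w => s (h w)) (ContinuousLinearMap.id ℝ (Eu n)) w₀ :=
    (hasFDerivAt_id w₀).congr_of_eventuallyEq he
  have h3 := h1.unique h2
  intro a b hab
  have h4 := congrArg (fun L : Eu n →L[ℝ] Eu n => L a) h3
  have h5 := congrArg (fun L : Eu n →L[ℝ] Eu n => L b) h3
  simp only [ContinuousLinearMap.comp_apply, ContinuousLinearMap.id_apply] at h4 h5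
  rw [← h4, ← h5, hab]

variable (𝒜)

/-- **Embedding with smooth retraction.** -/
theorem exists_embedding [CompactSpace M] [Nonempty M] :
    ∃ (q : ℕ) (ι : M → EuclideanSpace ℝ (Fin q)) (r : EuclideanSpace ℝ (Fin q) → M),
      Function.Injective ι ∧ (∀ x, SmFA 𝒜 ι x) ∧ (∀ x, r (ι x) = x) ∧ ∀ x, ∀ᶠ y in 𝓝 (ι x), SmAt 𝒜 r y := by
  -- radii
  have hR : ∀ p : M, ∃ R : ℝ, 0 < R ∧ closedBall (0 : Eu n) R ⊆ (𝒜.ψ p).target := by
    intro p
    obtain ⟨ε, hε, h⟩ := Metric.nhds_basis_closedBall.mem_iff.1 ((𝒜.ψ p).open_target.mem_nhds (sm_zero_mem 𝒜 p))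
    exact ⟨ε, hε, h⟩
  choose R hR0 hR using hR
  let B : M → ContDiffBump (0 : Eu n) := fun p => ⟨R p / 2, R p, half_pos (hR0 p), half_lt_self (hR0 p)⟩
  have hBout : ∀ p w, w ∉ closedBall (0 : Eu n) (R p) → (B p) w = 0 := by
    intro p w hw
    have h1 : w ∉ Function.support (B p) := by
      rw [(B p).support_eq]
      intro h2
      exact hw (ball_subset_closedBall h2)
    simpa using h1
  let k : M → Eu n → ℝ × Eu n := fun p w => ((B p) w, (B p) w • w)
  have hk : ∀ p, ContDiff ℝ ∞ (k p) := fun p => ((B p).contDiff).prodMk (((B p).contDiff).smul contDiff_id)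
  have hk0 : ∀ p w, w ∉ closedBall (0 : Eu n) (R p) → k p w = 0 := by
    intro p w hw
    simp only [k, hBout p w hw, zero_smul]
    rfl
  -- the cover
  let V : M → Set M := fun p => (𝒜.ψ p).source ∩ (𝒜.ψ p) ⁻¹' ball (0 : Eu n) (R p / 2)
  have hV : ∀ p, V p ∈ 𝓝 p := by
    intro p
    have h1 : ContinuousAt (𝒜.ψ p) p := (𝒜.ψ p).continuousAt (𝒜.mem p)
    refine inter_mem ((𝒜.ψ p).open_source.mem_nhds (𝒜.mem p)) (h1.preimage_mem_nhds ?_)
    rw [𝒜.zero p]
    exact ball_mem_nhds _ (half_pos (hR0 p))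
  obtain ⟨t, ht⟩ := CompactSpace.elim_nhds_subcover V hV
  have hcov : ∀ x, ∃ p : t, x ∈ V p := by
    intro x
    have h1 : x ∈ ⋃ p ∈ t, V p := by rw [ht]; trivial
    simp only [mem_iUnion] at h1
    obtain ⟨p, hp, hx⟩ := h1
    exact ⟨⟨p, hp⟩, hx⟩
  let ι0 : M → (t → ℝ × Eu n) := fun x p => cutF 𝒜 (p : M) (k p) x
  have hι0 : ∀ x, SmFA 𝒜 ι0 x := by
    intro x
    unfold SmFA
    rw [contDiffAt_pi]
    intro p
    exact smF_cutF (hk p) (hR p) (hk0 p) x
  have hval : ∀ (p : t) (x : M), x ∈ V p → ι0 x p = (1, 𝒜.ψ p x) := by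
    intro p x hx
    have h1 : (B p) (𝒜.ψ p x) = 1 := by
      apply (B p).one_of_mem_closedBall
      exact ball_subset_closedBall hx.2
    simp only [ι0, cutF, hx.1, if_true, k, h1, one_smul]
  have hinj : Function.Injective ι0 := by
    intro x y hxy
    obtain ⟨p, hp⟩ := hcov x
    have h1 := congrFun hxy p
    rw [hval p x hp] at h1
    by_cases hys : y ∈ (𝒜.ψ (p : M)).source
    · simp only [ι0, cutF, hys, if_true, k] at h1
      have h2 := congrArg Prod.fst h1
      have h3 := congrArg Prod.snd h1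
      simp only at h2 h3
      rw [← h2, one_smul] at h3
      exact (𝒜.ψ (p : M)).injOn hp.1 hys h3
    · simp only [ι0, cutF, hys, if_false] at h1
      have h2 := congrArg Prod.fst h1
      simp at h2
  -- to Euclidean space
  let L := toEuclidean (E := t → ℝ × Eu n)
  let ι : M → EuclideanSpace ℝ (Fin (Module.finrank ℝ (t → ℝ × Eu n))) := fun x => L (ι0 x)
  have hι : ∀ x, SmFA 𝒜 ι x := fun x => L.contDiff.contDiffAt.comp (0 : Eu n) (hι0 x)
  have hιinj : Function.Injective ι := L.injective.comp hinj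
  have himm : ∀ x, Function.Injective (fderiv ℝ (fun u => ι ((𝒜.ψ x).symm u)) 0) := by
    intro x
    obtain ⟨p, hp⟩ := hcov x
    -- the left inverse
    let s : EuclideanSpace ℝ (Fin (Module.finrank ℝ (t → ℝ × Eu n))) → Eu n :=
      fun y => 𝒜.ψ x ((𝒜.ψ (p : M)).symm ((L.symm y) p).2)
    have hsx : ((L.symm (ι ((𝒜.ψ x).symm 0))) p).2 = 𝒜.ψ (p : M) x := by
      simp only [ι, ContinuousLinearEquiv.symm_apply_apply, sm_symm_zero, hval p x hp]
    have hs : DifferentiableAt ℝ s (ι ((𝒜.ψ x).symm 0)) := by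
      have h1 := 𝒜.trans (p : M) x x hp.1 (𝒜.mem x)
      have h2 : ContDiffAt ℝ ∞ (fun y => ((L.symm y) p).2) (ι ((𝒜.ψ x).symm 0)) := by
        have h3 : ContDiff ℝ ∞ (fun y => ((L.symm y) p).2) := by
          have h4 : ContDiff ℝ ∞ (fun y => (L.symm y) p) := (contDiff_pi.1 L.symm.contDiff) p
          exact h4.snd
        exact h3.contDiffAt
      have h3 : ContDiffAt ℝ ∞ s (ι ((𝒜.ψ x).symm 0)) := by
        refine ContDiffAt.comp (g := fun u => 𝒜.ψ x ((𝒜.ψ (p : M)).symm u)) (f := fun y => ((L.symm y) p).2) _ ?_ h2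
        rw [hsx]
        exact h1
      exact h3.differentiableAt (by simp)
    have hh : DifferentiableAt ℝ (fun u => ι ((𝒜.ψ x).symm u)) 0 :=
      ContDiffAt.differentiableAt (n := ∞) (hι x) (by simp)
    refine injective_of_left (s := s) hh hs ?_
    have hVo : ∀ᶠ u in 𝓝 (0 : Eu n), (𝒜.ψ x).symm u ∈ V p := by
      have h1 : V p ∈ 𝓝 x := by
        refine inter_mem ((𝒜.ψ (p : M)).open_source.mem_nhds hp.1) (((𝒜.ψ (p : M)).continuousAt hp.1).preimage_mem_nhds ?_)
        exact isOpen_ball.mem_nhds hp.2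
      exact (sm_tendsto_symm 𝒜 x).eventually h1
    filter_upwards [hVo, (𝒜.ψ x).open_target.mem_nhds (sm_zero_mem 𝒜 x)] with u hu hut
    simp only [s, ι, ContinuousLinearEquiv.symm_apply_apply, hval p _ hu, id, (𝒜.ψ (p : M)).left_inv hu.1,
      (𝒜.ψ x).right_inv hut]
  obtain ⟨r, hr1, hr2⟩ := retraction_of_immersion 𝒜 hι hιinj himm
  exact ⟨_, ι, r, hιinj, hι, hr1, hr2⟩

/-- a smooth embedding in a Euclidean space with a smooth retraction of an open neighbourhood -/
structure Emb (n : ℕ) {M : Type*} [MetricSpace M] (𝒜 : SDist n M) where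
  /-- dimension -/
  q : ℕ
  /-- the embedding -/
  i : M → EuclideanSpace ℝ (Fin q)
  /-- the retraction -/
  r : EuclideanSpace ℝ (Fin q) → M
  /-- the neighbourhood -/
  U : Set (EuclideanSpace ℝ (Fin q))
  isOpen : IsOpen U
  mem : ∀ x, i x ∈ U
  left : ∀ x, r (i x) = x
  smooth_i : ∀ p, ContDiffAt ℝ ∞ (fun u => i ((𝒜.ψ p).symm u)) 0
  smooth_r : ∀ y ∈ U, ContinuousAt r y ∧ ContDiffAt ℝ ∞ (fun z => 𝒜.ψ (r y) (r z)) y

theorem exists_emb [CompactSpace M] [Nonempty M] : Nonempty (Emb n 𝒜) := by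
  obtain ⟨q, ι, r, _, h2, h3, h4⟩ := exists_embedding 𝒜
  refine ⟨⟨q, ι, r, interior {y | SmAt 𝒜 r y}, isOpen_interior, fun x => ?_, h3, h2, fun y hy => ?_⟩⟩
  · exact mem_interior_iff_mem_nhds.2 (h4 x)
  · exact interior_subset (s := {y | SmAt 𝒜 r y}) hy

end

end Pool.Agent.Lib.MP_ccbbf6_gt.L4
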