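import Pool.Agent.Lib.MP_ccbbf6_gt.ML

/-!
# L4 smoothing block, file 3 (helper95): integrals of smooth functions with parameters
-/

set_option autoImplicit false

open Set Filter Topology Metric MeasureTheory
open scoped ContDiff Interval

noncomputable section

namespace Pool.Agent.Lib.MP_ccbbf6_gt.L4

universe u v

variable {E : Type u} [NormedAddCommGroup E] [NormedSpace ℝ E]

theorem contDiff_param_nat (n : ℕ) : ∀ {F : Type (max u v)} [NormedAddCommGroup F] [NormedSpace ℝ F] [CompleteSpace F]
    {f : E × ℝ → F} (_ : ContDiff ℝ ∞ f) (a b : ℝ), ContDiff ℝ n (fun u => ∫ t in a..b, f (u, t)) := by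
  induction n with
  | zero =>
    intro F _ _ _ f hf a b
    rw [Nat.cast_zero, contDiff_zero]
    exact intervalIntegral.continuous_parametric_intervalIntegral_of_continuous' (f := fun u t => f (u, t))
      (by
        have : Function.uncurry (fun u t => f (u, t)) = f := by
          funext x
          rfl
        rw [this]
        exact hf.continuous) a b
  | succ n ih =>
    intro F _ _ _ f hf a b
    set f' : E × ℝ → (E →L[ℝ] F) := fun x => (fderiv ℝ f x).comp (ContinuousLinearMap.inl ℝ E ℝ) with hf'
    have hf'c : ContDiff ℝ ∞ f' := (hf.fderiv_right (m := ∞) (by norm_cast)).clm_comp contDiff_const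
    have hder : ∀ u t, HasFDerivAt (fun u => f (u, t)) (f' (u, t)) u := by
      intro u t
      have h1 : HasFDerivAt f (fderiv ℝ f (u, t)) (u, t) := (hf.differentiable (by simp) _).hasFDerivAt
      exact h1.comp u (hasFDerivAt_prodMk_left u t)
    rw [Nat.cast_succ, contDiff_succ_iff_hasFDerivAt]
    refine ⟨fun u => ∫ t in a..b, f' (u, t), ih (F := E →L[ℝ] F) hf'c a b, fun u => ?_⟩
    -- a bound on a neighbourhood
    obtain ⟨C, hC⟩ : ∃ C, ∀ t ∈ [[a, b]], ‖f' (u, t)‖ < C := by
      obtain ⟨C, hC⟩ := (isCompact_uIcc (a := a) (b := b)).exists_bound_of_continuousOn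
        (f := fun t => f' (u, t)) (hf'c.continuous.comp (Continuous.prodMk_right u)).continuousOn
      exact ⟨C + 1, fun t ht => (hC t ht).trans_lt (lt_add_one C)⟩
    have hopen : IsOpen {x : E × ℝ | ‖f' x‖ < C} := isOpen_lt hf'c.continuous.norm continuous_const
    obtain ⟨v, w, hv, _, huv, habw, hvw⟩ := generalized_tube_lemma (isCompact_singleton (x := u))
      (isCompact_uIcc (a := a) (b := b)) hopen (by
        rintro ⟨x, t⟩ ⟨hx, ht⟩
        rw [mem_singleton_iff] at hx
        simp only at hx ht
        rw [hx]
        exact hC t ht)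
    have hvn : v ∈ 𝓝 u := hv.mem_nhds (huv rfl)
    refine intervalIntegral.hasFDerivAt_integral_of_dominated_of_fderiv_le (μ := volume) (F := fun u t => f (u, t))
      (F' := fun u t => f' (u, t)) (bound := fun _ => C) hvn ?_ ?_ ?_ ?_ ?_ ?_
    · refine Eventually.of_forall fun x => ?_
      exact (hf.continuous.comp (Continuous.prodMk_right x)).aestronglyMeasurable
    · exact (hf.continuous.comp (Continuous.prodMk_right u)).intervalIntegrable a b
    · exact (hf'c.continuous.comp (Continuous.prodMk_right u)).aestronglyMeasurable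
    · refine Eventually.of_forall fun t ht x hx => ?_
      exact (hvw ⟨hx, habw (uIoc_subset_uIcc ht)⟩ : ‖f' (x, t)‖ < C).le
    · exact intervalIntegrable_const
    · exact Eventually.of_forall fun t _ x _ => hder x t

/-- integrals of smooth functions with parameters are smooth -/
theorem contDiff_param {F : Type (max u v)} [NormedAddCommGroup F] [NormedSpace ℝ F] [CompleteSpace F]
    {f : E × ℝ → F} (hf : ContDiff ℝ ∞ f) (a b : ℝ) : ContDiff ℝ ∞ (fun u => ∫ t in a..b, f (u, t)) := by
  rw [contDiff_infty]
  intro n
  exact contDiff_param_nat.{u, v} n hf a b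

end Pool.Agent.Lib.MP_ccbbf6_gt.L4
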