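import Pool.Agent.Lib.MP_ccbbf6_gt.Geo.CZa
import Pool.Agent.Lib.MP_ccbbf6_gt.L4.SM2
import Pool.Agent.Lib.MP_ccbbf6_gt.L4.SM3

/-!
# L4 smoothing block, file 4 (helper95): the space of geodesics, smooth approximation, averages
-/

set_option autoImplicit false

open Set Filter Topology Metric Real
open scoped ContDiff RealInnerProductSpace Interval

noncomputable section

namespace Pool.Agent.Lib.MP_ccbbf6_gt.L4

open Geo

section top

variable {M : Type*} [MetricSpace M]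

instance sm_compactSpace_Gs [CompactSpace M] : CompactSpace (Gs M) :=
  isCompact_iff_compactSpace.1 isClosed_isGeo.isCompact

theorem gs_continuous_ev : Continuous (fun z : Gs M × ℝ => z.1.1 z.2) := by
  rw [continuous_iff_continuousAt]
  rintro ⟨c, t⟩
  rw [ContinuousAt, tendsto_iff_dist_tendsto_zero]
  have h1 : Continuous (fun z : Gs M × ℝ => z.1.1 t) := (continuous_apply t).comp (continuous_subtype_val.comp continuous_fst)
  have h2 : Tendsto (fun z : Gs M × ℝ => |z.2 - t| + dist (z.1.1 t) (c.1 t)) (𝓝 (c, t)) (𝓝 0) := by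
    have h3 : Continuous (fun z : Gs M × ℝ => |z.2 - t| + dist (z.1.1 t) (c.1 t)) := by fun_prop
    have h4 := h3.tendsto (c, t)
    simpa using h4
  refine squeeze_zero (fun _ => dist_nonneg) (fun z => ?_) h2
  exact (dist_triangle _ (z.1.1 t) _).trans (add_le_add (z.1.2.dist_le _ _) le_rfl)

theorem gs_continuous_ev_at (t : ℝ) : Continuous (fun c : Gs M => c.1 t) :=
  (continuous_apply t).comp continuous_subtype_val

theorem gs_continuous_shift : Continuous (fun z : ℝ × Gs M => shift z.1 z.2) := by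
  refine Continuous.subtype_mk (continuous_pi fun s => ?_) _
  exact gs_continuous_ev.comp (continuous_snd.prodMk (continuous_const.add continuous_fst))

theorem gs_shift_shift (s t : ℝ) (c : Gs M) : shift s (shift t c) = shift (s + t) c := by
  apply Subtype.ext
  funext x
  simp only [shift]
  rw [add_assoc]

end top

section smooth

variable {n : ℕ} {M : Type*} [MetricSpace M] (𝒜 : SDist n M)
variable {F : Type*} [NormedAddCommGroup F] [NormedSpace ℝ F]

/-- plot-smooth functions on `Gs M` -/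
def SmP (f : Gs M → F) : Prop :=
  ∀ (E : Type) [NormedAddCommGroup E] [NormedSpace ℝ E] (σ : E → Gs M), SmG 𝒜 σ → ContDiff ℝ ∞ (fun u => f (σ u))

/-- plot-smooth functions on `Gs M × ℝ` -/
def SmP2 (f : Gs M → ℝ → F) : Prop :=
  ∀ (E : Type) [NormedAddCommGroup E] [NormedSpace ℝ E] (σ : E → Gs M), SmG 𝒜 σ →
    ContDiff ℝ ∞ (fun z : E × ℝ => f (σ z.1) z.2)

variable {𝒜} [CompactSpace M]

theorem SmP.to2 {f : Gs M → F} (hf : SmP 𝒜 f) : SmP2 𝒜 (fun c _ => f c) := by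
  intro E _ _ σ hσ
  exact (hf E σ hσ).comp contDiff_fst

theorem smP_ev (hB : Bl M) {g : M → F} (hg : ∀ x, SmFA 𝒜 g x) (a : ℝ) : SmP 𝒜 (fun c => g (c.1 a)) := by
  intro E _ _ σ hσ
  rw [contDiff_iff_contDiffAt]
  intro u
  exact (hg _).comp_to (r := fun u => (σ u).1 a) (hσ.ev' hB (t := fun _ => a) contDiff_const u)

theorem gs_ext (𝒜 : SDist n M) {c c' : Gs M} (h0 : c.1 0 = c'.1 0) (h1 : c.1 (π / 2) = c'.1 (π / 2)) : c = c' := by
  apply Subtype.ext
  funext t
  rw [gs_gd 𝒜 c 0 t, gs_gd 𝒜 c' 0 t, zero_add, h0, h1]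

/-- a smooth function separating two geodesics -/
theorem exists_separate [Nonempty M] (hB : Bl M) {c c' : Gs M} (h : c ≠ c') :
    ∃ f : Gs M → ℝ, Continuous f ∧ SmP 𝒜 f ∧ f c ≠ f c' := by
  obtain ⟨e⟩ := exists_emb 𝒜
  have hi : Function.Injective e.i := Function.LeftInverse.injective e.left
  have hs : ∀ x, SmFA 𝒜 e.i x := e.smooth_i
  have hic : Continuous e.i := continuous_iff_continuousAt.2 fun x => (hs x).continuousAt
  have key : ∀ a : ℝ, c.1 a ≠ c'.1 a → ∃ f : Gs M → ℝ, Continuous f ∧ SmP 𝒜 f ∧ f c ≠ f c' := by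
    intro a ha
    have h1 : e.i (c.1 a) ≠ e.i (c'.1 a) := fun h => ha (hi h)
    obtain ⟨j, hj⟩ : ∃ j, e.i (c.1 a) j ≠ e.i (c'.1 a) j := by
      by_contra hcon
      push Not at hcon
      exact h1 (by ext j; exact hcon j)
    refine ⟨fun c => e.i (c.1 a) j, ?_, ?_, hj⟩
    · have h2 : Continuous (fun x : EuclideanSpace ℝ (Fin e.q) => x j) := by fun_prop
      exact h2.comp (hic.comp (gs_continuous_ev_at a))
    · refine smP_ev hB (g := fun x => e.i x j) ?_ a
      intro x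
      have h2 : ContDiff ℝ ∞ (fun x : EuclideanSpace ℝ (Fin e.q) => x j) := by fun_prop
      exact ContDiffAt.comp (0 : Eu n) (f := fun u => e.i ((𝒜.ψ x).symm u)) h2.contDiffAt (hs x)
  by_cases h0 : c.1 0 = c'.1 0
  · by_cases h1 : c.1 (π / 2) = c'.1 (π / 2)
    · exact (h (gs_ext 𝒜 h0 h1)).elim
    · exact key _ h1
  · exact key _ h0

variable (𝒜)

/-- the algebra of restrictions to `Gs M × [0, 1]` of smooth functions -/
def SA : Subalgebra ℝ C(Gs M × Icc (0 : ℝ) 1, ℝ) where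
  carrier := {f | ∃ g : Gs M → ℝ → ℝ, SmP2 𝒜 g ∧ ∀ c s, f (c, s) = g c s}
  mul_mem' := by
    rintro f f' ⟨g, hg, hfg⟩ ⟨g', hg', hfg'⟩
    refine ⟨fun c s => g c s * g' c s, fun E _ _ σ hσ => (hg E σ hσ).mul (hg' E σ hσ), fun c s => ?_⟩
    rw [ContinuousMap.mul_apply, hfg, hfg']
  add_mem' := by
    rintro f f' ⟨g, hg, hfg⟩ ⟨g', hg', hfg'⟩
    refine ⟨fun c s => g c s + g' c s, fun E _ _ σ hσ => (hg E σ hσ).add (hg' E σ hσ), fun c s => ?_⟩
    rw [ContinuousMap.add_apply, hfg, hfg']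
  algebraMap_mem' := by
    intro r
    exact ⟨fun _ _ => r, fun E _ _ σ _ => contDiff_const, fun c s => rfl⟩

theorem SA_separates [Nonempty M] (hB : Bl M) : (SA 𝒜 : Subalgebra ℝ C(Gs M × Icc (0 : ℝ) 1, ℝ)).SeparatesPoints := by
  rintro ⟨c, s⟩ ⟨c', s'⟩ h
  by_cases hc : c = c'
  · have hs : s ≠ s' := by
      intro hs
      exact h (by rw [hc, hs])
    refine ⟨fun z => (z.2 : ℝ), ⟨⟨fun z => (z.2 : ℝ), by fun_prop⟩, ⟨fun _ s => s, fun E _ _ σ _ => contDiff_snd, fun c s => rfl⟩, rfl⟩, ?_⟩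
    exact fun h => hs (Subtype.ext h)
  · obtain ⟨f, hf, hfs, hne⟩ := exists_separate (𝒜 := 𝒜) hB hc
    exact ⟨fun z => f z.1, ⟨⟨fun z => f z.1, hf.comp continuous_fst⟩, ⟨fun c _ => f c, hfs.to2, fun c s => rfl⟩, rfl⟩, hne⟩

/-- **Approximation.** Continuous maps `Gs M × [0, 1] → ℝ^q` are uniformly close to smooth ones. -/
theorem exists_smooth_near [Nonempty M] (hB : Bl M) {q : ℕ} {Φ : Gs M → ℝ → EuclideanSpace ℝ (Fin q)}
    (hΦ : Continuous (fun z : Gs M × ℝ => Φ z.1 z.2)) {ε : ℝ} (hε : 0 < ε) :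
    ∃ G : Gs M → ℝ → EuclideanSpace ℝ (Fin q), SmP2 𝒜 G ∧ (∀ s ∈ Icc (0 : ℝ) 1, Continuous fun c => G c s) ∧
      ∀ c, ∀ s ∈ Icc (0 : ℝ) 1, ‖G c s - Φ c s‖ < ε := by
  have hη : 0 < ε / (q + 1) := by positivity
  have hj : ∀ j : Fin q, ∃ g : Gs M → ℝ → ℝ, SmP2 𝒜 g ∧ (∀ s ∈ Icc (0 : ℝ) 1, Continuous fun c => g c s) ∧
      ∀ c, ∀ s ∈ Icc (0 : ℝ) 1, |g c s - Φ c s j| < ε / (q + 1) := by
    intro j
    have hc : Continuous (fun z : Gs M × Icc (0 : ℝ) 1 => Φ z.1 z.2 j) := by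
      have h2 : Continuous (fun x : EuclideanSpace ℝ (Fin q) => x j) := by fun_prop
      exact h2.comp (hΦ.comp (continuous_fst.prodMk (continuous_subtype_val.comp continuous_snd)))
    obtain ⟨⟨g, g', hg', hgg⟩, hg⟩ := ContinuousMap.exists_mem_subalgebra_near_continuous_of_separatesPoints
      (SA 𝒜) (SA_separates 𝒜 hB) (fun z : Gs M × Icc (0 : ℝ) 1 => Φ z.1 z.2 j) hc _ hη
    refine ⟨g', hg', fun s hs => ?_, fun c s hs => ?_⟩
    · have h1 : (fun c => g' c s) = fun c => g (c, ⟨s, hs⟩) := by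
        funext c
        exact (hgg c ⟨s, hs⟩).symm
      rw [h1]
      exact g.continuous.comp (Continuous.prodMk_left _)
    have h1 := hg (c, ⟨s, hs⟩)
    simp only at h1
    have h2 : g (c, ⟨s, hs⟩) = g' c s := hgg c ⟨s, hs⟩
    rw [h2, Real.norm_eq_abs] at h1
    exact h1
  choose g hg1 hg3 hg2 using hj
  refine ⟨fun c s => WithLp.toLp 2 fun j => g j c s, ?_, ?_, ?_⟩
  · intro E _ _ σ hσ
    rw [contDiff_euclidean]
    intro j
    exact hg1 j E σ hσ
  · intro s hs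
    exact (PiLp.continuous_toLp 2 _).comp (continuous_pi fun j => hg3 j s hs)
  · intro c s hs
    rw [EuclideanSpace.norm_eq, Real.sqrt_lt' hε]
    have h1 : ∀ j ∈ (Finset.univ : Finset (Fin q)),
        ‖((WithLp.toLp 2 fun j => g j c s) - Φ c s : EuclideanSpace ℝ (Fin q)) j‖ ^ 2 ≤ (ε / (q + 1)) ^ 2 := by
      intro j _
      have h2 := hg2 j c s hs
      have h3 : ‖((WithLp.toLp 2 fun j => g j c s) - Φ c s : EuclideanSpace ℝ (Fin q)) j‖ = |g j c s - Φ c s j| := by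
        rw [Real.norm_eq_abs]
        rfl
      rw [h3]
      exact pow_le_pow_left₀ (abs_nonneg _) h2.le 2
    refine (Finset.sum_le_sum h1).trans_lt ?_
    rw [Finset.sum_const, Finset.card_univ, Fintype.card_fin, nsmul_eq_mul]
    have h4 : (q : ℝ) * (ε / (q + 1)) ^ 2 = ε ^ 2 * (q / (q + 1) ^ 2) := by rw [div_pow]; ring
    rw [h4]
    have h5 : (q : ℝ) / (q + 1) ^ 2 < 1 := by
      rw [div_lt_one (by positivity)]
      nlinarith [(Nat.cast_nonneg q : (0 : ℝ) ≤ q)]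
    calc ε ^ 2 * (q / (q + 1) ^ 2) < ε ^ 2 * 1 := mul_lt_mul_of_pos_left h5 (by positivity)
      _ = ε ^ 2 := mul_one _

variable {𝒜}

/-- the average over the geodesic flow -/
def avg (f : Gs M → F) (c : Gs M) : F := (2 * π)⁻¹ • ∫ t in (0 : ℝ)..(2 * π), f (shift t c)

theorem smP_avg {F : Type} [NormedAddCommGroup F] [NormedSpace ℝ F] [CompleteSpace F] (hB : Bl M) {f : Gs M → F}
    (hf : SmP 𝒜 f) : SmP 𝒜 (avg f) := by
  intro E _ _ σ hσ
  unfold avg
  have h1 : SmG 𝒜 (fun z : E × ℝ => shift z.2 (σ z.1)) :=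
    (hσ.comp (f := fun z : E × ℝ => z.1) contDiff_fst).shift hB (r := fun z : E × ℝ => z.2) contDiff_snd
  have h2 : ContDiff ℝ ∞ (fun z : E × ℝ => f (shift z.2 (σ z.1))) := hf (E × ℝ) _ h1
  exact (contDiff_param.{0, 0} h2 0 (2 * π)).const_smul _

theorem gs_shift_per (𝒜 : SDist n M) (hB : Bl M) (t : ℝ) (c : Gs M) : shift (t + 2 * π) c = shift t c := by
  apply Subtype.ext
  funext x
  simp only [shift]
  rw [← add_assoc]
  exact IsGeo.closed 𝒜 hB c.2 _

theorem avg_shift (𝒜 : SDist n M) (hB : Bl M) (f : Gs M → F) (s : ℝ) (c : Gs M) : avg f (shift s c) = avg f c := by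
  unfold avg
  congr 1
  simp only [gs_shift_shift]
  have hp : Function.Periodic (fun t => f (shift t c)) (2 * π) := fun t => by
    simp only [gs_shift_per 𝒜 hB]
  have h1 := intervalIntegral.integral_comp_add_right (a := 0) (b := 2 * π) (fun t => f (shift t c)) s
  rw [h1, zero_add, add_comm (2 * π) s]
  have h2 := hp.intervalIntegral_add_eq s 0
  rw [zero_add] at h2
  exact h2

theorem norm_avg_sub_le {f : Gs M → F} (hf : Continuous f) {c : Gs M} {z : F} {ε : ℝ}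
    (h : ∀ t, ‖f (shift t c) - z‖ ≤ ε) [CompleteSpace F] : ‖avg f c - z‖ ≤ ε := by
  have hπ : 0 < 2 * π := by positivity
  have hint : IntervalIntegrable (fun t => f (shift t c)) MeasureTheory.volume 0 (2 * π) :=
    (hf.comp (gs_continuous_shift.comp (Continuous.prodMk_left c))).intervalIntegrable _ _
  have h1 : avg f c - z = (2 * π)⁻¹ • ∫ t in (0 : ℝ)..(2 * π), (f (shift t c) - z) := by
    rw [intervalIntegral.integral_sub hint intervalIntegrable_const, smul_sub, intervalIntegral.integral_const, sub_zero,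
      smul_smul, inv_mul_cancel₀ hπ.ne', one_smul]
    rfl
  rw [h1, norm_smul]
  have h2 := intervalIntegral.norm_integral_le_of_norm_le_const (a := 0) (b := 2 * π) (f := fun t => f (shift t c) - z)
    (C := ε) (fun t _ => h t)
  rw [sub_zero, abs_of_pos hπ] at h2
  calc ‖(2 * π)⁻¹‖ * ‖∫ t in (0 : ℝ)..(2 * π), (f (shift t c) - z)‖ ≤ (2 * π)⁻¹ * (ε * (2 * π)) := by
        rw [Real.norm_eq_abs, abs_of_pos (inv_pos.2 hπ)]
        exact mul_le_mul_of_nonneg_left h2 (inv_pos.2 hπ).le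
    _ = ε := by field_simp

end smooth

end Pool.Agent.Lib.MP_ccbbf6_gt.L4
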