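import Pool.Agent.Lib.MP_ccbbf6_gt.Geo.EXb

/-!
# Level 4: the space `Gs M` of geodesics, smooth families (plots)
-/

set_option autoImplicit false

open Set Filter Topology Metric Real
open scoped ContDiff RealInnerProductSpace

noncomputable section

namespace Pool.Agent.Lib.MP_ccbbf6_gt.L4

open Geo

variable {n : ℕ} {M : Type*} [MetricSpace M] (𝒜 : SDist n M)

/-- `g` is smooth at `u` -/
def SmAt {E : Type*} [NormedAddCommGroup E] [NormedSpace ℝ E] (g : E → M) (u : E) : Prop :=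
  ContinuousAt g u ∧ ContDiffAt ℝ ∞ (fun v => 𝒜.ψ (g u) (g v)) u

/-- `g` is smooth -/
def Sm {E : Type*} [NormedAddCommGroup E] [NormedSpace ℝ E] (g : E → M) : Prop := ∀ u, SmAt 𝒜 g u

/-- the space of unit speed geodesics (the unit tangent bundle) -/
abbrev Gs (M : Type*) [MetricSpace M] : Type _ := {c : ℝ → M // IsGeo c}

/-- smooth families of geodesics -/
def SmG {E : Type*} [NormedAddCommGroup E] [NormedSpace ℝ E] (σ : E → Gs M) : Prop :=
  Sm 𝒜 (fun u => (σ u).1 0) ∧ Sm 𝒜 (fun u => (σ u).1 (π / 2))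

/-- the geodesic flow -/
def shift {M : Type*} [MetricSpace M] (r : ℝ) (c : Gs M) : Gs M := ⟨fun t => c.1 (t + r), c.2.shift r⟩

/-- the reversed geodesic -/
def rev {M : Type*} [MetricSpace M] (c : Gs M) : Gs M := ⟨fun t => c.1 (-t), c.2.rev⟩

open Classical in
/-- the geodesic through `x` and `y` -/
def gg {M : Type*} [MetricSpace M] [Nonempty (Gs M)] (x y : M) : Gs M :=
  if h : IsGeo (gd x y) then ⟨gd x y, h⟩ else Classical.arbitrary _

section basic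

variable [CompactSpace M] {E : Type*} [NormedAddCommGroup E] [NormedSpace ℝ E] {E' : Type*} [NormedAddCommGroup E'] [NormedSpace ℝ E']

theorem symm_zero' (p : M) : (𝒜.ψ p).symm 0 = p := exc_symm_zero 𝒜 p

variable {𝒜}

theorem SmAt.cont {g : E → M} {u : E} (h : SmAt 𝒜 g u) : ContinuousAt g u := h.1

theorem Sm.continuous {g : E → M} (h : Sm 𝒜 g) : Continuous g := continuous_iff_continuousAt.2 fun u => (h u).1

/-- smoothness in any chart -/
theorem SmAt.chart {g : E → M} {u : E} (h : SmAt 𝒜 g u) {q : M} (hq : g u ∈ (𝒜.ψ q).source) :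
    ContDiffAt ℝ ∞ (fun v => 𝒜.ψ q (g v)) u := exb_chart 𝒜 h.1 h.2 hq

theorem SmAt.comp {g : E → M} {f : E' → E} {v : E'} (h : SmAt 𝒜 g (f v)) (hf : ContDiffAt ℝ ∞ f v) :
    SmAt 𝒜 (fun w => g (f w)) v :=
  ⟨ContinuousAt.comp (g := g) h.1 hf.continuousAt,
    ContDiffAt.comp (g := fun w => 𝒜.ψ (g (f v)) (g w)) (f := f) v h.2 hf⟩

theorem Sm.comp {g : E → M} {f : E' → E} (h : Sm 𝒜 g) (hf : ContDiff ℝ ∞ f) : Sm 𝒜 (fun w => g (f w)) :=
  fun v => (h (f v)).comp hf.contDiffAt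

theorem SmG.comp {σ : E → Gs M} {f : E' → E} (h : SmG 𝒜 σ) (hf : ContDiff ℝ ∞ f) : SmG 𝒜 (fun w => σ (f w)) :=
  ⟨h.1.comp hf, h.2.comp hf⟩

theorem SmAt.congr {g g' : E → M} {u : E} (h : SmAt 𝒜 g u) (e : g' =ᶠ[𝓝 u] g) : SmAt 𝒜 g' u := by
  have e0 := e.self_of_nhds
  refine ⟨h.1.congr e.symm, ?_⟩
  rw [e0]
  exact h.2.congr_of_eventuallyEq (by filter_upwards [e] with v hv; rw [hv])

/-- from a chart to `M` -/
theorem smAt_symm {p : M} {f : E → Eu n} {u : E} (hf : ContDiffAt ℝ ∞ f u) (hu : f u ∈ (𝒜.ψ p).target) :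
    SmAt 𝒜 (fun v => (𝒜.ψ p).symm (f v)) u := by
  have hc : ContinuousAt (fun v => (𝒜.ψ p).symm (f v)) u :=
    ContinuousAt.comp (g := (𝒜.ψ p).symm) ((𝒜.ψ p).continuousAt_symm hu) hf.continuousAt
  refine ⟨hc, ?_⟩
  have h1 := 𝒜.trans p ((𝒜.ψ p).symm (f u)) ((𝒜.ψ p).symm (f u)) ((𝒜.ψ p).map_target hu) (𝒜.mem _)
  rw [(𝒜.ψ p).right_inv hu] at h1
  exact ContDiffAt.comp (g := fun w => 𝒜.ψ ((𝒜.ψ p).symm (f u)) ((𝒜.ψ p).symm w)) (f := f) u h1 hf

theorem smAt_of_chart {p : M} {g : E → M} {u : E} (hc : ContinuousAt g u) (hu : g u ∈ (𝒜.ψ p).source)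
    (hf : ContDiffAt ℝ ∞ (fun v => 𝒜.ψ p (g v)) u) : SmAt 𝒜 g u := by
  have h := smAt_symm (𝒜 := 𝒜) (p := p) hf ((𝒜.ψ p).map_source hu)
  refine h.congr ?_
  filter_upwards [hc.eventually ((𝒜.ψ p).open_source.mem_nhds hu)] with v hv
  exact ((𝒜.ψ p).left_inv hv).symm

theorem smAt_const (p : M) (u : E) : SmAt 𝒜 (fun _ : E => p) u :=
  ⟨continuousAt_const, contDiffAt_const⟩

theorem sm_const (p : M) : Sm 𝒜 (fun _ : E => p) := fun u => smAt_const p u

end basic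

section geo

variable [CompactSpace M] {E : Type*} [NormedAddCommGroup E] [NormedSpace ℝ E]

variable {𝒜}

/-- the geodesic through two points is smooth in the points -/
theorem SmAt.gd (hB : Bl M) {x y : E → M} {t : E → ℝ} {u : E} (hx : SmAt 𝒜 x u) (hy : SmAt 𝒜 y u) (ht : ContDiffAt ℝ ∞ t u)
    (h0 : 0 < dist (x u) (y u)) (h1 : dist (x u) (y u) < π) :
    SmAt 𝒜 (fun v => Geo.gd (x v) (y v) (t v)) u := by
  have hk : ContDiffAt ℝ ∞ (fun v => ((𝒜.ψ (x u) (x v), 𝒜.ψ (y u) (y v)), t v)) u := (hx.2.prodMk hy.2).prodMk ht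
  have hk0 : (fun v => ((𝒜.ψ (x u) (x v), 𝒜.ψ (y u) (y v)), t v)) u = ((0, 0), t u) := by
    simp only [𝒜.zero]
  have ev : (fun v => Geo.gd (x v) (y v) (t v)) =ᶠ[𝓝 u] fun v =>
      Geo.gd ((𝒜.ψ (x u)).symm (𝒜.ψ (x u) (x v))) ((𝒜.ψ (y u)).symm (𝒜.ψ (y u) (y v))) (t v) := by
    filter_upwards [hx.1.eventually ((𝒜.ψ (x u)).open_source.mem_nhds (𝒜.mem _)),
      hy.1.eventually ((𝒜.ψ (y u)).open_source.mem_nhds (𝒜.mem _))] with v hv hv'
    rw [(𝒜.ψ (x u)).left_inv hv, (𝒜.ψ (y u)).left_inv hv']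
  refine SmAt.congr ?_ ev
  constructor
  · have h2 := exb_cont 𝒜 hB h0 h1 (t u)
    rw [← hk0] at h2
    exact ContinuousAt.comp (g := fun z : (Eu n × Eu n) × ℝ =>
      Geo.gd ((𝒜.ψ (x u)).symm z.1.1) ((𝒜.ψ (y u)).symm z.1.2) z.2)
      (f := fun v => ((𝒜.ψ (x u) (x v), 𝒜.ψ (y u) (y v)), t v)) h2 hk.continuousAt
  · have h2 := contDiffAt_gd 𝒜 hB h0 h1 (t u)
    rw [← hk0] at h2
    have h3 := ContDiffAt.comp (g := fun z : (Eu n × Eu n) × ℝ =>
      𝒜.ψ (Geo.gd (x u) (y u) (t u)) (Geo.gd ((𝒜.ψ (x u)).symm z.1.1) ((𝒜.ψ (y u)).symm z.1.2) z.2)) u h2 hk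
    have e : Geo.gd ((𝒜.ψ (x u)).symm (𝒜.ψ (x u) (x u))) ((𝒜.ψ (y u)).symm (𝒜.ψ (y u) (y u))) (t u) =
        Geo.gd (x u) (y u) (t u) := by
      rw [(𝒜.ψ (x u)).left_inv (𝒜.mem _), (𝒜.ψ (y u)).left_inv (𝒜.mem _)]
    simp only [e]
    exact h3

theorem gs_gd (𝒜 : SDist n M) (c : Gs M) (a t : ℝ) : c.1 t = Geo.gd (c.1 a) (c.1 (a + π / 2)) (t - a) := by
  have h := gd_eq 𝒜 c.2 (s := a) (t := π / 2) (by positivity) (by linarith [Real.pi_pos])
  rw [h]
  ring_nf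

omit [CompactSpace M] in
theorem gs_dist (c : Gs M) (a : ℝ) : dist (c.1 a) (c.1 (a + π / 2)) = π / 2 := by
  rw [c.2 a (a + π / 2) (by rw [sub_add_cancel_left, abs_neg, abs_of_nonneg (by positivity)]; linarith [Real.pi_pos]),
    sub_add_cancel_left, abs_neg, abs_of_nonneg (by positivity)]

/-- evaluation is smooth -/
theorem SmG.ev (hB : Bl M) {σ : E → Gs M} (h : SmG 𝒜 σ) : Sm 𝒜 (fun z : E × ℝ => (σ z.1).1 z.2) := by
  intro z
  have h1 : SmAt 𝒜 (fun z : E × ℝ => (σ z.1).1 0) z := (h.1 z.1).comp (f := Prod.fst) contDiffAt_fst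
  have h2 : SmAt 𝒜 (fun z : E × ℝ => (σ z.1).1 (π / 2)) z := (h.2 z.1).comp (f := Prod.fst) contDiffAt_fst
  have hd : dist ((σ z.1).1 0) ((σ z.1).1 (π / 2)) = π / 2 := by
    have := gs_dist (σ z.1) 0
    rwa [zero_add] at this
  have h3 := SmAt.gd hB h1 h2 (t := fun z : E × ℝ => z.2) contDiffAt_snd
    (by simp only [hd]; positivity) (by simp only [hd]; linarith [Real.pi_pos])
  refine h3.congr (Eventually.of_forall fun w => ?_)
  have := gs_gd 𝒜 (σ w.1) 0 w.2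
  rw [zero_add, sub_zero] at this
  exact this

theorem SmG.ev' (hB : Bl M) {σ : E → Gs M} (h : SmG 𝒜 σ) {t : E → ℝ} (ht : ContDiff ℝ ∞ t) :
    Sm 𝒜 (fun u => (σ u).1 (t u)) :=
  (h.ev hB).comp (f := fun u => (u, t u)) (contDiff_id.prodMk ht)

/-- a family of geodesics is smooth if two values at a distance less than `π` are smooth -/
theorem SmG.of_two (hB : Bl M) {σ : E → Gs M} {a b : ℝ} (hab : a ≠ b) (hab' : |a - b| < π) (ha : Sm 𝒜 fun u => (σ u).1 a)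
    (hb : Sm 𝒜 fun u => (σ u).1 b) : SmG 𝒜 σ := by
  have key : ∀ a b : ℝ, a < b → b - a < π → (Sm 𝒜 fun u => (σ u).1 a) → (Sm 𝒜 fun u => (σ u).1 b) → SmG 𝒜 σ := by
    intro a b hab hab' ha hb
    have hev : ∀ t : ℝ, Sm 𝒜 fun u => (σ u).1 t := by
      intro t u
      have hd : dist ((σ u).1 a) ((σ u).1 b) = b - a := by
        rw [(σ u).2 a b (by rw [abs_sub_comm, abs_of_pos (by linarith)]; linarith), abs_sub_comm,
          abs_of_pos (by linarith)]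
      have h3 := SmAt.gd hB (ha u) (hb u) (t := fun _ : E => t - a) contDiffAt_const (by rw [hd]; linarith)
        (by rw [hd]; linarith)
      refine h3.congr (Eventually.of_forall fun w => ?_)
      have h := gd_eq 𝒜 (σ w).2 (s := a) (t := b - a) (by linarith) (by linarith)
      rw [add_sub_cancel] at h
      simp only [h, add_sub_cancel]
    exact ⟨hev 0, hev (π / 2)⟩
  rcases lt_or_gt_of_ne hab with h | h
  · exact key a b h (by rw [abs_sub_comm, abs_of_pos (by linarith)] at hab'; exact hab') ha hb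
  · exact key b a h (by rw [abs_of_pos (by linarith)] at hab'; exact hab') hb ha

/-- the geodesic flow is smooth -/
theorem SmG.shift (hB : Bl M) {σ : E → Gs M} (h : SmG 𝒜 σ) {r : E → ℝ} (hr : ContDiff ℝ ∞ r) :
    SmG 𝒜 (fun u => L4.shift (r u) (σ u)) := by
  constructor
  · exact h.ev' hB (t := fun u => 0 + r u) (contDiff_const.add hr)
  · exact h.ev' hB (t := fun u => π / 2 + r u) (contDiff_const.add hr)

theorem SmG.rev (hB : Bl M) {σ : E → Gs M} (h : SmG 𝒜 σ) : SmG 𝒜 (fun u => L4.rev (σ u)) := by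
  constructor
  · exact h.ev' hB (t := fun _ => -0) contDiff_const
  · exact h.ev' hB (t := fun _ => -(π / 2)) contDiff_const

end geo

end Pool.Agent.Lib.MP_ccbbf6_gt.L4
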