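import Pool.Agent.Lib.MP_ccbbf6_gt.Geo.DA
import Pool.Agent.Lib.MP_ccbbf6_gt.L4.Def

/-!
# Level 4, orientation: smooth vector fields along smooth maps, geodesics with smooth initial velocity
-/

set_option autoImplicit false

open Set Filter Topology Metric Real Module
open scoped ContDiff RealInnerProductSpace

noncomputable section

namespace Pool.Agent.Lib.MP_ccbbf6_gt.L4.ORI

open Geo

section base

variable {n : ℕ} {M : Type*} [MetricSpace M] (𝒜 : SDist n M)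

/-- the derivative at `x` of the change from the chart centered at `x` to the chart centered at `p` -/
def CC (p x : M) : Eu n →L[ℝ] Eu n := fderiv ℝ (𝒜.ch p x) 0

/-- the inverse of `CC p x` -/
def DD (p x : M) : Eu n →L[ℝ] Eu n := fderiv ℝ (fun u => 𝒜.ψ x ((𝒜.ψ p).symm u)) (𝒜.ψ p x)

theorem hasFDerivAt_ch {p x : M} (hx : x ∈ (𝒜.ψ p).source) : HasFDerivAt (𝒜.ch p x) (CC 𝒜 p x) 0 :=
  ((contDiffAt_ch 𝒜 hx).differentiableAt (by simp)).hasFDerivAt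

theorem hasFDerivAt_DD {p x : M} (hx : x ∈ (𝒜.ψ p).source) :
    HasFDerivAt (fun u => 𝒜.ψ x ((𝒜.ψ p).symm u)) (DD 𝒜 p x) (𝒜.ψ p x) :=
  ((𝒜.trans p x x hx (𝒜.mem x)).differentiableAt (by simp)).hasFDerivAt

theorem DD_CC {p x : M} (hx : x ∈ (𝒜.ψ p).source) (a : Eu n) : DD 𝒜 p x (CC 𝒜 p x a) = a := by
  have h1 := hasFDerivAt_ch 𝒜 hx
  have h2 : HasFDerivAt (fun u => 𝒜.ψ x ((𝒜.ψ p).symm u)) (DD 𝒜 p x) (𝒜.ch p x 0) := by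
    rw [ch_zero]
    exact hasFDerivAt_DD 𝒜 hx
  have h3 := h2.comp 0 h1
  have h4 : HasFDerivAt ((fun u => 𝒜.ψ x ((𝒜.ψ p).symm u)) ∘ 𝒜.ch p x) (ContinuousLinearMap.id ℝ (Eu n)) 0 := by
    refine (hasFDerivAt_id (0 : Eu n)).congr_of_eventuallyEq ?_
    filter_upwards [symm_ch 𝒜 hx, (𝒜.ψ x).open_target.mem_nhds (zero_mem_target 𝒜 x)] with u h5 h6
    show 𝒜.ψ x ((𝒜.ψ p).symm (𝒜.ch p x u)) = u
    rw [h5, (𝒜.ψ x).right_inv h6]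
  exact congrArg (fun L : Eu n →L[ℝ] Eu n => L a) (h3.unique h4)

theorem CC_DD {p x : M} (hx : x ∈ (𝒜.ψ p).source) (a : Eu n) : CC 𝒜 p x (DD 𝒜 p x a) = a := by
  have h1 : Function.Injective (CC 𝒜 p x) := fun b c h => by
    have := congrArg (DD 𝒜 p x) h
    rwa [DD_CC 𝒜 hx, DD_CC 𝒜 hx] at this
  have h2 : Function.Surjective (CC 𝒜 p x) :=
    (LinearMap.injective_iff_surjective (f := (CC 𝒜 p x : Eu n →ₗ[ℝ] Eu n))).mp h1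
  obtain ⟨b, hb⟩ := h2 a
  rw [← hb, DD_CC 𝒜 hx]

theorem CC_self (p : M) (a : Eu n) : CC 𝒜 p p a = a := by
  have h1 : 𝒜.ch p p =ᶠ[𝓝 0] id := by
    filter_upwards [(𝒜.ψ p).open_target.mem_nhds (zero_mem_target 𝒜 p)] with u hu
    exact (𝒜.ψ p).right_inv hu
  unfold CC
  rw [h1.fderiv_eq, fderiv_id]
  rfl

theorem CC_ne {p x : M} (hx : x ∈ (𝒜.ψ p).source) {a : Eu n} (ha : a ≠ 0) : CC 𝒜 p x a ≠ 0 := by
  intro h
  apply ha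
  rw [← DD_CC 𝒜 hx a, h, map_zero]

/-- change of the chart -/
theorem CC_trans {p p' x : M} (hx : x ∈ (𝒜.ψ p).source) (hx' : x ∈ (𝒜.ψ p').source) (a : Eu n) :
    CC 𝒜 p' x a = fderiv ℝ (fun u => 𝒜.ψ p' ((𝒜.ψ p).symm u)) (𝒜.ψ p x) (CC 𝒜 p x a) := by
  have h1 : HasFDerivAt (fun u => 𝒜.ψ p' ((𝒜.ψ p).symm u)) (fderiv ℝ (fun u => 𝒜.ψ p' ((𝒜.ψ p).symm u)) (𝒜.ψ p x))
      (𝒜.ch p x 0) := by
    rw [ch_zero]
    exact ((𝒜.trans p p' x hx hx').differentiableAt (by simp)).hasFDerivAt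
  have h2 := h1.comp 0 (hasFDerivAt_ch 𝒜 hx)
  have h3 : HasFDerivAt ((fun u => 𝒜.ψ p' ((𝒜.ψ p).symm u)) ∘ 𝒜.ch p x) (CC 𝒜 p' x) 0 := by
    refine (hasFDerivAt_ch 𝒜 hx').congr_of_eventuallyEq ?_
    filter_upwards [symm_ch 𝒜 hx] with u hu
    show 𝒜.ψ p' ((𝒜.ψ p).symm (𝒜.ch p x u)) = 𝒜.ch p' x u
    rw [hu]
    rfl
  exact congrArg (fun L : Eu n →L[ℝ] Eu n => L a) (h3.unique h2)

/-- the velocity in the chart centered at `p` -/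
theorem hasDerivAt_chart {c : ℝ → M} (hc : IsGeo c) {p : M} {s : ℝ} (h : c s ∈ (𝒜.ψ p).source) :
    HasDerivAt (fun t => 𝒜.ψ p (c t)) (CC 𝒜 p (c s) (𝒜.vel c s)) s := by
  have h1 : HasDerivAt (fun t => 𝒜.ψ (c s) (c t)) (𝒜.vel c s) s := (IsGeo.exists_vel 𝒜 hc s).2
  have h2 : HasFDerivAt (𝒜.ch p (c s)) (CC 𝒜 p (c s)) (𝒜.ψ (c s) (c s)) := by
    rw [𝒜.zero]
    exact hasFDerivAt_ch 𝒜 h
  have h3 := h2.comp_hasDerivAt s h1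
  refine h3.congr_of_eventuallyEq ?_
  filter_upwards [(hc.cont.tendsto s).eventually ((𝒜.ψ (c s)).open_source.mem_nhds (𝒜.mem (c s)))] with t ht
  show 𝒜.ψ p (c t) = 𝒜.ch p (c s) (𝒜.ψ (c s) (c t))
  unfold SDist.ch
  rw [(𝒜.ψ (c s)).left_inv ht]

/-- the metric in the chart centered at `p`, at the point with coordinate `X` -/
def GG (p : M) (X a b : Eu n) : ℝ := -(fderiv ℝ (fderiv ℝ (𝒜.F p p)) (X, X) (a, 0) (0, b))

theorem contDiffAt_FX {p x : M} (hx : x ∈ (𝒜.ψ p).source) : ContDiffAt ℝ ∞ (𝒜.F p p) (𝒜.ψ p x, 𝒜.ψ p x) :=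
  (contDiffAt_F_iff 𝒜 hx hx).2 (contDiffAt_F_diag 𝒜 x)

theorem GG_eq {p x : M} (hx : x ∈ (𝒜.ψ p).source) (a b : Eu n) :
    GG 𝒜 p (𝒜.ψ p x) (CC 𝒜 p x a) (CC 𝒜 p x b) = ⟪a, b⟫ := by
  have h := D2F_ch 𝒜 hx hx ((contDiffAt_FX 𝒜 hx).of_le two_le_infty) a b
  rw [D2F_diag] at h
  unfold GG CC
  rw [← h]
  simp

/-- a smooth vector field `w` along the map `x`, near `u` (in the chart centered at `p`) -/
def SmV {E : Type*} [NormedAddCommGroup E] [NormedSpace ℝ E] (p : M) (x : E → M) (w : E → Eu n) (u : E) : Prop :=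
  ContDiffAt ℝ ∞ (fun v => CC 𝒜 p (x v) (w v)) u

variable {𝒜}

section fields

variable {E : Type*} [NormedAddCommGroup E] [NormedSpace ℝ E]
  {E' : Type*} [NormedAddCommGroup E'] [NormedSpace ℝ E']

theorem SmV.add {p : M} {x : E → M} {w w' : E → Eu n} {u : E} (h : SmV 𝒜 p x w u) (h' : SmV 𝒜 p x w' u) :
    SmV 𝒜 p x (fun v => w v + w' v) u := by
  unfold SmV at h h' ⊢
  simp only [map_add]
  exact ContDiffAt.add h h'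

theorem SmV.smul {p : M} {x : E → M} {w : E → Eu n} {f : E → ℝ} {u : E} (h : SmV 𝒜 p x w u) (hf : ContDiffAt ℝ ∞ f u) :
    SmV 𝒜 p x (fun v => f v • w v) u := by
  unfold SmV at h ⊢
  simp only [map_smul]
  exact ContDiffAt.smul hf h

theorem SmV.congr {p : M} {x : E → M} {w w' : E → Eu n} {u : E} (h : SmV 𝒜 p x w u) (e : w' =ᶠ[𝓝 u] w) :
    SmV 𝒜 p x w' u := by
  unfold SmV at h ⊢
  refine h.congr_of_eventuallyEq ?_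
  filter_upwards [e] with v hv
  rw [hv]

theorem SmV.comp {p : M} {x : E → M} {w : E → Eu n} {f : E' → E} {v : E'} (h : SmV 𝒜 p x w (f v))
    (hf : ContDiffAt ℝ ∞ f v) : SmV 𝒜 p (fun z => x (f z)) (fun z => w (f z)) v :=
  ContDiffAt.comp (g := fun v => CC 𝒜 p (x v) (w v)) v h hf

end fields

end base

section geo

variable {n : ℕ} {M : Type*} [MetricSpace M] [CompactSpace M] {𝒜 : SDist n M}
  {E : Type*} [NormedAddCommGroup E] [NormedSpace ℝ E]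

theorem SmV.chart {p p' : M} {x : E → M} {w : E → Eu n} {u : E} (hx : SmAt 𝒜 x u) (h : SmV 𝒜 p x w u)
    (hp : x u ∈ (𝒜.ψ p).source) (hp' : x u ∈ (𝒜.ψ p').source) : SmV 𝒜 p' x w u := by
  unfold SmV at h ⊢
  have h1 : ContDiffAt ℝ ∞ (fderiv ℝ (fun u => 𝒜.ψ p' ((𝒜.ψ p).symm u))) (𝒜.ψ p (x u)) :=
    (𝒜.trans p p' (x u) hp hp').fderiv_right (by simp)
  have h2 : ContDiffAt ℝ ∞ (fun v => 𝒜.ψ p (x v)) u := hx.chart hp
  have h3 : ContDiffAt ℝ ∞ (fun v => fderiv ℝ (fun u => 𝒜.ψ p' ((𝒜.ψ p).symm u)) (𝒜.ψ p (x v))) u :=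
    ContDiffAt.comp (g := fderiv ℝ (fun u => 𝒜.ψ p' ((𝒜.ψ p).symm u))) (f := fun v => 𝒜.ψ p (x v)) u h1 h2
  refine (h3.clm_apply h).congr_of_eventuallyEq ?_
  filter_upwards [hx.cont.eventually ((𝒜.ψ p).open_source.mem_nhds hp),
    hx.cont.eventually ((𝒜.ψ p').open_source.mem_nhds hp')] with v h4 h5
  exact CC_trans 𝒜 h4 h5 _

/-- inner products of smooth fields are smooth -/
theorem SmV.inner {p : M} {x : E → M} {w w' : E → Eu n} {u : E} (hx : SmAt 𝒜 x u) (hp : x u ∈ (𝒜.ψ p).source)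
    (h : SmV 𝒜 p x w u) (h' : SmV 𝒜 p x w' u) : ContDiffAt ℝ ∞ (fun v => ⟪w v, w' v⟫) u := by
  have h1 : ContDiffAt ℝ ∞ (fderiv ℝ (fderiv ℝ (𝒜.F p p))) (𝒜.ψ p (x u), 𝒜.ψ p (x u)) :=
    ((contDiffAt_FX 𝒜 hp).fderiv_right (m := ∞) (by simp)).fderiv_right (by simp)
  have h2 : ContDiffAt ℝ ∞ (fun v => 𝒜.ψ p (x v)) u := hx.chart hp
  have h3 : ContDiffAt ℝ ∞ (fun v => fderiv ℝ (fderiv ℝ (𝒜.F p p)) (𝒜.ψ p (x v), 𝒜.ψ p (x v))) u :=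
    ContDiffAt.comp (g := fderiv ℝ (fderiv ℝ (𝒜.F p p))) (f := fun v => (𝒜.ψ p (x v), 𝒜.ψ p (x v))) u h1 (h2.prodMk h2)
  have h4 : ContDiffAt ℝ ∞ (fun v => (CC 𝒜 p (x v) (w v), (0 : Eu n))) u := ContDiffAt.prodMk h contDiffAt_const
  have h5 : ContDiffAt ℝ ∞ (fun v => ((0 : Eu n), CC 𝒜 p (x v) (w' v))) u := ContDiffAt.prodMk contDiffAt_const h'
  have h6 := ((h3.clm_apply h4).clm_apply h5).neg
  refine h6.congr_of_eventuallyEq ?_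
  filter_upwards [hx.cont.eventually ((𝒜.ψ p).open_source.mem_nhds hp)] with v h7
  exact (GG_eq 𝒜 h7 _ _).symm

/-- velocities of a smooth family -/
theorem smV_vel {p : M} {σ : E → Gs M} {u : E} (h : SmAt 𝒜 (fun z : E × ℝ => (σ z.1).1 z.2) (u, 0))
    (hp : (σ u).1 0 ∈ (𝒜.ψ p).source) : SmV 𝒜 p (fun v => (σ v).1 0) (fun v => 𝒜.vel (σ v).1 0) u := by
  have h1 : ContDiffAt ℝ ∞ (fun z : E × ℝ => 𝒜.ψ p ((σ z.1).1 z.2)) (u, 0) := h.chart hp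
  have h2 : ContDiffAt ℝ ∞ (fun v => fderiv ℝ (fun z : E × ℝ => 𝒜.ψ p ((σ z.1).1 z.2)) (v, 0)) u := by
    have h3 : ContDiffAt ℝ ∞ (fderiv ℝ (fun z : E × ℝ => 𝒜.ψ p ((σ z.1).1 z.2))) (u, 0) := h1.fderiv_right (by simp)
    exact ContDiffAt.comp (g := fderiv ℝ (fun z : E × ℝ => 𝒜.ψ p ((σ z.1).1 z.2))) (f := fun v : E => (v, (0 : ℝ))) u h3
      (contDiffAt_id.prodMk contDiffAt_const)
  have h4 : ContDiffAt ℝ ∞ (fun v => fderiv ℝ (fun z : E × ℝ => 𝒜.ψ p ((σ z.1).1 z.2)) (v, 0) ((0 : E), (1 : ℝ))) u :=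
    h2.clm_apply contDiffAt_const
  unfold SmV
  refine h4.congr_of_eventuallyEq ?_
  have hc : ContinuousAt (fun v : E => (σ v).1 0) u :=
    ContinuousAt.comp (g := fun z : E × ℝ => (σ z.1).1 z.2) (f := fun v : E => (v, (0 : ℝ))) h.cont
      (by fun_prop)
  have hd : ∀ᶠ v in 𝓝 u, DifferentiableAt ℝ (fun z : E × ℝ => 𝒜.ψ p ((σ z.1).1 z.2)) (v, 0) := by
    have h5 : ∀ᶠ z in 𝓝 (u, (0 : ℝ)), DifferentiableAt ℝ (fun z : E × ℝ => 𝒜.ψ p ((σ z.1).1 z.2)) z := by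
      have h6 : ContDiffAt ℝ 1 (fun z : E × ℝ => 𝒜.ψ p ((σ z.1).1 z.2)) (u, 0) := h1.of_le (by simp)
      filter_upwards [h6.eventually (by simp)] with z hz
      exact hz.differentiableAt (by simp)
    exact (Continuous.tendsto (f := fun v : E => (v, (0 : ℝ))) (by fun_prop) u).eventually h5
  filter_upwards [hc.eventually ((𝒜.ψ p).open_source.mem_nhds hp), hd] with v h5 h6
  have h7 := hasDerivAt_chart 𝒜 (σ v).2 (s := 0) h5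
  have h8 : HasDerivAt (fun t : ℝ => ((v, t) : E × ℝ)) ((0 : E), (1 : ℝ)) 0 :=
    (hasDerivAt_const (0 : ℝ) v).prodMk (hasDerivAt_id (0 : ℝ))
  have h9 := h6.hasFDerivAt.comp_hasDerivAt (0 : ℝ) h8
  exact h7.unique h9

omit [NormedSpace ℝ E] in
/-- a family of geodesics is continuous if its initial data are -/
theorem continuousAt_family {p : M} {τ : E → Gs M} {u : E} (hx : ContinuousAt (fun v => (τ v).1 0) u)
    (hp : (τ u).1 0 ∈ (𝒜.ψ p).source)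
    (hw : ContinuousAt (fun v => CC 𝒜 p ((τ v).1 0) (𝒜.vel (τ v).1 0)) u) (t : ℝ) :
    ContinuousAt (fun v => (τ v).1 t) u := by
  rw [ContinuousAt, tendsto_iff_ultrafilter]
  intro l hl
  obtain ⟨c', hc', hlim⟩ := exists_limit_geo (l.map τ) (fun c : Gs M => c.1) fun c => c.2
  have hlim' : ∀ t, Tendsto (fun v => (τ v).1 t) l (𝓝 (c' t)) := fun t => hlim t
  have hl' : (l : Filter E) ≤ 𝓝 u := hl
  have h0 : c' 0 = (τ u).1 0 := tendsto_nhds_unique (hlim' 0) (hx.tendsto.mono_left hl')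
  have hp' : c' 0 ∈ (𝒜.ψ p).source := by rw [h0]; exact hp
  have h1 := tendsto_vel 𝒜 (l := (l : Filter E)) (c := fun v => (τ v).1) (fun v => (τ v).2) hc' hlim' (s := 0) hp'
  have h2 : Tendsto (fun v => CC 𝒜 p ((τ v).1 0) (𝒜.vel (τ v).1 0)) l (𝓝 (CC 𝒜 p ((τ u).1 0) (𝒜.vel (τ u).1 0))) :=
    hw.tendsto.mono_left hl'
  have h3 : deriv (fun t => 𝒜.ψ p (c' t)) 0 = CC 𝒜 p ((τ u).1 0) (𝒜.vel (τ u).1 0) := by
    refine tendsto_nhds_unique h1 (h2.congr' ?_)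
    filter_upwards [(hlim' 0).eventually ((𝒜.ψ p).open_source.mem_nhds hp')] with v hv
    exact (hasDerivAt_chart 𝒜 (τ v).2 (s := 0) hv).deriv.symm
  have h4 : CC 𝒜 p (c' 0) (𝒜.vel c' 0) = CC 𝒜 p ((τ u).1 0) (𝒜.vel (τ u).1 0) := by
    rw [← h3, (hasDerivAt_chart 𝒜 hc' (s := 0) hp').deriv]
  rw [h0] at h4
  have h5 : 𝒜.vel c' 0 = 𝒜.vel (τ u).1 0 := by
    rw [← DD_CC 𝒜 hp (𝒜.vel c' 0), h4, DD_CC 𝒜 hp]
  have h6 : c' = (τ u).1 := IsGeo.eq_of_vel 𝒜 hc' (τ u).2 h0 h5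
  have h7 := hlim' t
  rw [h6] at h7
  exact h7

/-- a smooth family of initial data gives a smooth family of geodesics -/
theorem smAt_of_vel (hB : Bl M) {p : M} {τ : E → Gs M} {u : E} (hx : SmAt 𝒜 (fun v => (τ v).1 0) u)
    (hp : (τ u).1 0 ∈ (𝒜.ψ p).source) (hw : SmV 𝒜 p (fun v => (τ v).1 0) (fun v => 𝒜.vel (τ v).1 0) u)
    {t : ℝ} (ht : |t| < π) : SmAt 𝒜 (fun v => (τ v).1 t) u := by
  obtain ⟨q, hq⟩ : ∃ q, q = (τ u).1 0 := ⟨_, rfl⟩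
  obtain ⟨y, hy⟩ : ∃ y, y = (τ u).1 t := ⟨_, rfl⟩
  have hqs : (τ u).1 0 ∈ (𝒜.ψ q).source := by rw [hq]; exact 𝒜.mem _
  have hw' : SmV 𝒜 q (fun v => (τ v).1 0) (fun v => 𝒜.vel (τ v).1 0) u := hw.chart hx hp hqs
  have hcont : ContinuousAt (fun v => (τ v).1 t) u := continuousAt_family hx.cont hqs hw'.continuousAt t
  refine ⟨hcont, ?_⟩
  have hdq : dist q y < π := by
    have e : |(0 : ℝ) - t| = |t| := by rw [zero_sub, abs_neg]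
    have h := (τ u).2 0 t (by rw [e]; exact ht.le)
    rw [hq, hy, h, e]
    exact ht
  -- the smooth right hand side
  have hX : ContDiffAt ℝ ∞ (fun v => 𝒜.ψ q ((τ v).1 0)) u := hx.chart hqs
  have hg0 : (fun v => (𝒜.ψ q ((τ v).1 0), 𝒜.ψ y ((τ v).1 t))) u = (0, 0) := by
    show (𝒜.ψ q ((τ u).1 0), 𝒜.ψ y ((τ u).1 t)) = (0, 0)
    rw [← hq, ← hy, 𝒜.zero, 𝒜.zero]
  have hys : (τ u).1 t ∈ (𝒜.ψ y).source := by rw [hy]; exact 𝒜.mem _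
  have hFq : ContDiffAt ℝ ∞ (𝒜.F q y) (0, 0) := contDiffAt_F 𝒜 hB hdq
  have hgc : ContinuousAt (fun v => (𝒜.ψ q ((τ v).1 0), 𝒜.ψ y ((τ v).1 t))) u :=
    hX.continuousAt.prodMk (ContinuousAt.comp (g := 𝒜.ψ y) ((𝒜.ψ y).continuousAt hys) hcont)
  let L : Eu n →L[ℝ] Eu n × Eu n := ContinuousLinearMap.inl ℝ (Eu n) (Eu n)
  let R : Eu n →L[ℝ] Eu n × Eu n := ContinuousLinearMap.inr ℝ (Eu n) (Eu n)
  let H : E → Eu n := fun v => t • (InnerProductSpace.toDual ℝ (Eu n)).symm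
    ((fderiv ℝ (fderiv ℝ (𝒜.F q q)) (𝒜.ψ q ((τ v).1 0), 𝒜.ψ q ((τ v).1 0))
      (L (CC 𝒜 q ((τ v).1 0) (𝒜.vel (τ v).1 0)))).comp R)
  have hH : ContDiffAt ℝ ∞ H u := by
    have h1 : ContDiffAt ℝ ∞ (fderiv ℝ (fderiv ℝ (𝒜.F q q))) (𝒜.ψ q ((τ u).1 0), 𝒜.ψ q ((τ u).1 0)) :=
      ((contDiffAt_FX 𝒜 hqs).fderiv_right (m := ∞) (by simp)).fderiv_right (by simp)
    have h3 : ContDiffAt ℝ ∞ (fun v => fderiv ℝ (fderiv ℝ (𝒜.F q q)) (𝒜.ψ q ((τ v).1 0), 𝒜.ψ q ((τ v).1 0))) u :=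
      ContDiffAt.comp (g := fderiv ℝ (fderiv ℝ (𝒜.F q q)))
        (f := fun v => (𝒜.ψ q ((τ v).1 0), 𝒜.ψ q ((τ v).1 0))) u h1 (hX.prodMk hX)
    have h4 : ContDiffAt ℝ ∞ (fun v => L (CC 𝒜 q ((τ v).1 0) (𝒜.vel (τ v).1 0))) u :=
      L.contDiff.contDiffAt.comp u hw'
    have h5 := h3.clm_apply h4
    have h6 : ContDiffAt ℝ ∞ (fun v => (fderiv ℝ (fderiv ℝ (𝒜.F q q)) (𝒜.ψ q ((τ v).1 0), 𝒜.ψ q ((τ v).1 0))
      (L (CC 𝒜 q ((τ v).1 0) (𝒜.vel (τ v).1 0)))).comp R) u := h5.clm_comp contDiffAt_const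
    have h7 : ContDiffAt ℝ ∞ (fun v => (InnerProductSpace.toDual ℝ (Eu n)).symm
        ((fderiv ℝ (fderiv ℝ (𝒜.F q q)) (𝒜.ψ q ((τ v).1 0), 𝒜.ψ q ((τ v).1 0))
          (L (CC 𝒜 q ((τ v).1 0) (𝒜.vel (τ v).1 0)))).comp R)) u :=
      (InnerProductSpace.toDual ℝ (Eu n)).symm.contDiff.contDiffAt.comp u h6
    exact ContDiffAt.smul (f := fun _ : E => t) contDiffAt_const h7
  have hΨ : ContDiffAt ℝ ∞ (fun v => exPsi (𝒜.F q y) (𝒜.ψ q ((τ v).1 0), 𝒜.ψ y ((τ v).1 t))) u := by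
    refine (hX.prodMk hH).congr_of_eventuallyEq ?_
    have hdiff : ∀ᶠ z in 𝓝 ((0 : Eu n), (0 : Eu n)), DifferentiableAt ℝ (𝒜.F q y) z := by
      have h6 : ContDiffAt ℝ 1 (𝒜.F q y) (0, 0) := hFq.of_le (by simp)
      filter_upwards [h6.eventually (by simp)] with z hz
      exact hz.differentiableAt (by simp)
    have hgt : Tendsto (fun v => (𝒜.ψ q ((τ v).1 0), 𝒜.ψ y ((τ v).1 t))) (𝓝 u) (𝓝 (0, 0)) := by
      rw [← hg0]; exact hgc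
    filter_upwards [hgt.eventually hdiff, hx.cont.eventually ((𝒜.ψ q).open_source.mem_nhds hqs),
      hcont.eventually ((𝒜.ψ y).open_source.mem_nhds hys)] with v h7 h8 h9
    unfold exPsi
    show (𝒜.ψ q ((τ v).1 0), gr1 (𝒜.F q y) (𝒜.ψ q ((τ v).1 0), 𝒜.ψ y ((τ v).1 t))) = (𝒜.ψ q ((τ v).1 0), H v)
    rw [Prod.mk.injEq]
    refine ⟨rfl, ext_inner_right ℝ fun a => ?_⟩
    rw [exb_grad 𝒜 hB h8 h9 (τ v).2 rfl ht rfl h7 a]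
    show _ = ⟪t • (InnerProductSpace.toDual ℝ (Eu n)).symm _, a⟫
    rw [real_inner_smul_left, InnerProductSpace.toDual_symm_apply]
    have h10 := GG_eq 𝒜 h8 (𝒜.vel (τ v).1 0) (DD 𝒜 q ((τ v).1 0) a)
    rw [CC_DD 𝒜 h8] at h10
    have h11 : ⟪𝒜.vel (τ v).1 0, fderiv ℝ (fun u => 𝒜.ψ ((τ v).1 0) ((𝒜.ψ q).symm u)) (𝒜.ψ q ((τ v).1 0)) a⟫ =
        ⟪𝒜.vel (τ v).1 0, DD 𝒜 q ((τ v).1 0) a⟫ := rfl
    rw [h11, ← h10]
    unfold GG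
    show -(t * -(fderiv ℝ (fderiv ℝ (𝒜.F q q)) (𝒜.ψ q ((τ v).1 0), 𝒜.ψ q ((τ v).1 0))
      (CC 𝒜 q ((τ v).1 0) (𝒜.vel (τ v).1 0), 0) (0, a))) = t * _
    rw [mul_neg, neg_neg]
    rfl
  have hinj : Function.Injective (fderiv ℝ (exPsi (𝒜.F q y)) (0, 0)) := exb_inj 𝒜 hB hdq
  have hfin := exb_lift (Ψ := exPsi (𝒜.F q y)) (g := fun v => (𝒜.ψ q ((τ v).1 0), 𝒜.ψ y ((τ v).1 t))) (z := u)
    (by
      show ContDiffAt ℝ ∞ (exPsi (𝒜.F q y)) ((fun v => (𝒜.ψ q ((τ v).1 0), 𝒜.ψ y ((τ v).1 t))) u)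
      rw [hg0]; exact contDiffAt_exPsi hFq)
    (by
      show Function.Injective (fderiv ℝ (exPsi (𝒜.F q y)) ((fun v => (𝒜.ψ q ((τ v).1 0), 𝒜.ψ y ((τ v).1 t))) u))
      rw [hg0]; exact hinj) hgc hΨ
  have h12 : ContDiffAt ℝ ∞ (fun v => 𝒜.ψ y ((τ v).1 t)) u := hfin.snd
  rw [hy] at h12
  exact h12

end geo

end Pool.Agent.Lib.MP_ccbbf6_gt.L4.ORI
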