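import Pool.Agent.Lib.MP_ccbbf6_gt.L4.OriC
import Pool.Agent.Lib.MP_ccbbf6_gt.L4.OriD

/-!
# Level 4, orientation: smooth local choice of the perpendicular geodesic along a smooth family
-/

set_option autoImplicit false
set_option linter.unusedSectionVars false

open Set Filter Topology Metric Real Module
open scoped ContDiff RealInnerProductSpace

noncomputable section

namespace Pool.Agent.Lib.MP_ccbbf6_gt.L4.ORI

open Geo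

variable {n : ℕ} {M : Type*} [MetricSpace M] [CompactSpace M] (𝒜 : SDist n M)

theorem fderiv_X_PV (hB : Bl M) {p q : M} {w x : Eu n} (hw : w ≠ 0) (hwq : 𝒜.Ex p (rad π w) ∈ (𝒜.ψ q).source)
    (hx : x ∈ 𝒜.PV p w) : fderiv ℝ (𝒜.X p q π) w x = 0 := by
  have hXw : ContDiffAt ℝ ∞ (𝒜.X p q π) w := contDiffAt_X 𝒜 hB p q π hw hwq
  have hd : HasFDerivAt (𝒜.X p q π) (fderiv ℝ (𝒜.X p q π) w) w := (hXw.differentiableAt (by simp)).hasFDerivAt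
  have hline : HasDerivAt (fun τ : ℝ => w + τ • x) x 0 := by
    have h1 := ((hasDerivAt_id (0 : ℝ)).smul_const x).const_add w
    rwa [one_smul] at h1
  have hline0 : (fun τ : ℝ => w + τ • x) 0 = w := by simp
  have hd' : HasFDerivAt (𝒜.X p q π) (fderiv ℝ (𝒜.X p q π) w) ((fun τ : ℝ => w + τ • x) 0) := by
    rw [hline0]; exact hd
  have h2 := hd'.comp_hasDerivAt (0 : ℝ) hline
  have h3 : HasDerivAt (𝒜.X p q π ∘ fun τ : ℝ => w + τ • x) 0 0 := by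
    refine (hasDerivAt_const (0 : ℝ) (𝒜.X p q π w)).congr_of_eventuallyEq ?_
    have h4 : Tendsto (fun τ : ℝ => w + τ • x) (𝓝 0) (𝓝 w) := by
      have := hline.continuousAt.tendsto
      rwa [zero_smul, add_zero] at this
    filter_upwards [h4.eventually (isOpen_ne.mem_nhds hw)] with τ hτ
    show 𝒜.X p q π (w + τ • x) = 𝒜.X p q π w
    unfold SDist.X
    rw [(mem_PV_iff 𝒜 hB p hw hτ).1
      ((𝒜.PV p w).add_mem (mem_PV_self 𝒜 hB p w) ((𝒜.PV p w).smul_mem _ hx))]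
  exact h2.unique h3

theorem ker_X_PV (hB : Bl M) {κ : ℕ} (hk : 𝒜.HK κ) {p q : M} {w : Eu n} (hw : w ≠ 0)
    (hwq : 𝒜.Ex p (rad π w) ∈ (𝒜.ψ q).source) {x : Eu n} (hx : fderiv ℝ (𝒜.X p q π) w x = 0) : x ∈ 𝒜.PV p w := by
  have h1 := finrank_ker_near 𝒜 hB hk hw hwq
  have h2 : 𝒜.PV p w = LinearMap.ker (fderiv ℝ (𝒜.X p q π) w : Eu n →ₗ[ℝ] Eu n) := by
    apply Submodule.eq_of_le_of_finrank_eq
    · intro y hy
      exact fderiv_X_PV 𝒜 hB hw hwq hy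
    · rw [h1, finrank_PV 𝒜 hB hk p hw]
  rw [h2]
  exact hx

/-- smooth kernel vectors with a parameter -/
theorem smooth_kernel' {E : Type*} [NormedAddCommGroup E] [NormedSpace ℝ E] {A : E → Eu n →L[ℝ] Eu n} {u₀ : E}
    {v a : Eu n} (hA : ContDiffAt ℝ ∞ A u₀) (hv : v ≠ 0) (hva : ⟪v, a⟫ = 0) (ha : ‖a‖ = 1)
    (hker : ∀ x, A u₀ x = 0 → ∃ s t : ℝ, x = s • v + t • a) {V : E → Submodule ℝ (Eu n)}
    (hV : ∀ᶠ u in 𝓝 u₀, finrank ℝ (V u) = 2 ∧ ∀ x ∈ V u, A u x = 0) (haV : A u₀ a = 0) :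
    ∃ k : E → Eu n, k u₀ = a ∧ ∀ᶠ u in 𝓝 u₀, k u ∈ V u ∧ (ContDiffAt ℝ ∞ A u → ContDiffAt ℝ ∞ k u) := by
  have haa : ⟪a, a⟫ = 1 := by rw [real_inner_self_eq_norm_sq, ha]; norm_num
  have hvv : ⟪v, v⟫ ≠ 0 := by rw [real_inner_self_eq_norm_sq]; exact pow_ne_zero 2 (norm_ne_zero_iff.mpr hv)
  let R : Eu n →L[ℝ] Eu n := (innerSL ℝ a).smulRight a + (innerSL ℝ v).smulRight v
  let T : E → Eu n →L[ℝ] Eu n := fun w => (ContinuousLinearMap.adjoint (A u₀)).comp (A w) + R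
  have hTapp : ∀ w x, T w x = ContinuousLinearMap.adjoint (A u₀) (A w x) + (⟪a, x⟫ • a + ⟪v, x⟫ • v) :=
    fun w x => rfl
  have hTc : ∀ u, ContDiffAt ℝ ∞ A u → ContDiffAt ℝ ∞ T u := fun u h =>
    (contDiffAt_const.clm_comp h).add contDiffAt_const
  have hinj : Function.Injective (T u₀) := by
    rw [injective_iff_map_eq_zero]
    intro x hx
    have h1 : ⟪T u₀ x, x⟫ = ‖A u₀ x‖ ^ 2 + ⟪a, x⟫ ^ 2 + ⟪v, x⟫ ^ 2 := by
      rw [hTapp, inner_add_left, inner_add_left, real_inner_smul_left, real_inner_smul_left,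
        ContinuousLinearMap.adjoint_inner_left, real_inner_self_eq_norm_sq]
      ring
    rw [hx, inner_zero_left] at h1
    have h2 : ‖A u₀ x‖ ^ 2 = 0 := by nlinarith [sq_nonneg ‖A u₀ x‖, sq_nonneg ⟪a, x⟫, sq_nonneg ⟪v, x⟫]
    have h3 : ⟪a, x⟫ = 0 := by
      have : ⟪a, x⟫ ^ 2 = 0 := by nlinarith [sq_nonneg ‖A u₀ x‖, sq_nonneg ⟪a, x⟫, sq_nonneg ⟪v, x⟫]
      exact pow_eq_zero_iff two_ne_zero |>.mp this
    have h4 : ⟪v, x⟫ = 0 := by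
      have : ⟪v, x⟫ ^ 2 = 0 := by nlinarith [sq_nonneg ‖A u₀ x‖, sq_nonneg ⟪a, x⟫, sq_nonneg ⟪v, x⟫]
      exact pow_eq_zero_iff two_ne_zero |>.mp this
    have h5 : A u₀ x = 0 := norm_eq_zero.mp (pow_eq_zero_iff two_ne_zero |>.mp h2)
    obtain ⟨s, t, rfl⟩ := hker x h5
    rw [inner_add_right, real_inner_smul_right, real_inner_smul_right, real_inner_comm, hva, haa] at h3
    rw [inner_add_right, real_inner_smul_right, real_inner_smul_right, hva] at h4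
    have ht : t = 0 := by linarith
    have hs : s = 0 := by
      have : s * ⟪v, v⟫ = 0 := by linarith
      exact (mul_eq_zero.mp this).resolve_right hvv
    rw [hs, ht, zero_smul, zero_smul, add_zero]
  let e : Eu n ≃L[ℝ] Eu n := (LinearEquiv.ofInjectiveEndo (T u₀ : Eu n →ₗ[ℝ] Eu n) hinj).toContinuousLinearEquiv
  have he : (e : Eu n →L[ℝ] Eu n) = T u₀ := by ext1 x; rfl
  let k1 : E → Eu n := fun w => ContinuousLinearMap.inverse (T w) a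
  have hTa : T u₀ a = a := by
    rw [hTapp, haV, map_zero, haa, hva, one_smul, zero_smul, add_zero, zero_add]
  have hk1v : k1 u₀ = a := by
    show ContinuousLinearMap.inverse (T u₀) a = a
    rw [← he, ContinuousLinearMap.inverse_equiv]
    apply e.injective
    rw [ContinuousLinearEquiv.coe_coe, e.apply_symm_apply]
    show a = (e : Eu n →L[ℝ] Eu n) a
    rw [he, hTa]
  have hev : ∀ᶠ w in 𝓝 u₀, ∃ e' : Eu n ≃L[ℝ] Eu n, (e' : Eu n →L[ℝ] Eu n) = T w := by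
    have h1 : range ((↑) : (Eu n ≃L[ℝ] Eu n) → Eu n →L[ℝ] Eu n) ∈ 𝓝 (T u₀) := by
      rw [← he]; exact ContinuousLinearEquiv.nhds e
    filter_upwards [(hTc u₀ hA).continuousAt.eventually h1] with w hw
    obtain ⟨e', he'⟩ := hw
    exact ⟨e', he'⟩
  refine ⟨k1, hk1v, ?_⟩
  filter_upwards [hev, hV] with w hw hVw
  obtain ⟨e', he'⟩ := hw
  obtain ⟨h2, h4⟩ := hVw
  refine ⟨?_, fun hAw => ?_⟩
  · let f : V w →ₗ[ℝ] ℝ × ℝ := ((innerSL ℝ a : Eu n →ₗ[ℝ] ℝ).comp (V w).subtype).prod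
      ((innerSL ℝ v : Eu n →ₗ[ℝ] ℝ).comp (V w).subtype)
    have hf : ∀ x : V w, f x = (⟪a, (x : Eu n)⟫, ⟪v, (x : Eu n)⟫) := fun x => rfl
    have hfi : Function.Injective f := by
      rw [injective_iff_map_eq_zero]
      intro x hx
      rw [hf, Prod.mk_eq_zero] at hx
      have h5 : T w x = 0 := by
        rw [hTapp, h4 _ x.2, map_zero, hx.1, hx.2, zero_smul, zero_smul, add_zero, add_zero]
      rw [← he'] at h5
      have h6 : (x : Eu n) = 0 := e'.injective (by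
        show (e' : Eu n →L[ℝ] Eu n) x = e' 0
        rw [h5, map_zero])
      exact Subtype.ext h6
    have hfs : Function.Surjective f := by
      refine (LinearMap.injective_iff_surjective_of_finrank_eq_finrank ?_).mp hfi
      rw [h2, Module.finrank_prod, Module.finrank_self]
    obtain ⟨x, hx⟩ := hfs (1, 0)
    rw [hf, Prod.mk.injEq] at hx
    have h5 : T w x = a := by
      rw [hTapp, h4 _ x.2, map_zero, hx.1, hx.2, one_smul, zero_smul, add_zero, zero_add]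
    have h6 : k1 w = x := by
      show ContinuousLinearMap.inverse (T w) a = x
      rw [← h5, ← he', ContinuousLinearMap.inverse_equiv]
      exact e'.symm_apply_apply _
    rw [h6]
    exact x.2
  · have h5 : ContDiffAt ℝ ∞ ContinuousLinearMap.inverse (T w) := by
      rw [← he']; exact contDiffAt_map_inverse e'
    have h6 : ContDiffAt ℝ ∞ (fun w => ContinuousLinearMap.inverse (T w)) w := h5.comp w (hTc w hAw)
    exact h6.clm_apply contDiffAt_const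

/-- `c'` is perpendicular to `c` in the plane of `c` -/
def Dp (c c' : Gs M) : Prop := c'.1 0 = c.1 0 ∧ c'.1 π = c.1 π ∧ ⟪𝒜.vel c.1 0, 𝒜.vel c'.1 0⟫ = 0

theorem gvg_vel (hB : Bl M) (p : M) (v : Eu n) (hv : ‖v‖ = 1) :
    (gvg 𝒜 hB p v hv).1 0 = p ∧ 𝒜.vel (gvg 𝒜 hB p v hv).1 0 = v := by
  obtain ⟨-, h2, h3⟩ := gv_spec 𝒜 hB p hv
  exact ⟨h2, h3⟩

open Classical in
/-- the geodesic with the foot of `c` in the direction of `w` -/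
def gw (hB : Bl M) (c : Gs M) (w : Eu n) : Gs M := if h : w ≠ 0 then gvg 𝒜 hB (c.1 0) (nrm w) (norm_nrm h) else c

theorem gw_zero (hB : Bl M) (c : Gs M) (w : Eu n) : (gw 𝒜 hB c w).1 0 = c.1 0 := by
  unfold gw
  split_ifs
  · exact (gvg_vel 𝒜 hB _ _ _).1
  · rfl

theorem gw_vel (hB : Bl M) (c : Gs M) {w : Eu n} (hw : w ≠ 0) : 𝒜.vel (gw 𝒜 hB c w).1 0 = nrm w := by
  unfold gw
  rw [dif_pos hw]
  exact (gvg_vel 𝒜 hB _ _ _).2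

theorem gw_eq (hB : Bl M) (c : Gs M) {w : Eu n} (hw : w ≠ 0) (t : ℝ) : (gw 𝒜 hB c w).1 t = 𝒜.Ex (c.1 0) (rad t w) := by
  unfold gw
  rw [dif_pos hw, kc_Ex 𝒜 hB _ hw]
  rfl

theorem eq_of_vel' {c c' : Gs M} (h : c.1 0 = c'.1 0) (hv : 𝒜.vel c.1 0 = 𝒜.vel c'.1 0) : c = c' :=
  Subtype.ext (IsGeo.eq_of_vel 𝒜 c.2 c'.2 h hv)

theorem vel_norm (c : Gs M) : ‖𝒜.vel c.1 0‖ = 1 := (IsGeo.exists_vel 𝒜 c.2 0).1

theorem vel_ne (c : Gs M) : 𝒜.vel c.1 0 ≠ 0 := kc_ne (vel_norm 𝒜 c)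

theorem gs_Ex (hB : Bl M) (c : Gs M) (t : ℝ) : c.1 t = 𝒜.Ex (c.1 0) (rad t (𝒜.vel c.1 0)) := by
  have h1 : gw 𝒜 hB c (𝒜.vel c.1 0) = c :=
    eq_of_vel' 𝒜 (gw_zero 𝒜 hB c _) (by rw [gw_vel 𝒜 hB c (vel_ne 𝒜 c), nrm_of_norm (vel_norm 𝒜 c)])
  rw [← gw_eq 𝒜 hB c (vel_ne 𝒜 c) t, h1]

/-- the end point `c π` and the plane `PV` -/
theorem mem_PV_of_top (hB : Bl M) {c c' : Gs M} (h0 : c'.1 0 = c.1 0) (h1 : c'.1 π = c.1 π) :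
    𝒜.vel c'.1 0 ∈ 𝒜.PV (c.1 0) (𝒜.vel c.1 0) := by
  rw [mem_PV_iff 𝒜 hB _ (vel_ne 𝒜 c) (vel_ne 𝒜 c'), ← gs_Ex 𝒜 hB c, ← h1, gs_Ex 𝒜 hB c' π, h0]

theorem top_of_mem (hB : Bl M) (c : Gs M) {w : Eu n} (hw : w ≠ 0) (h : w ∈ 𝒜.PV (c.1 0) (𝒜.vel c.1 0)) :
    (gw 𝒜 hB c w).1 π = c.1 π := by
  rw [gw_eq 𝒜 hB c hw, (mem_PV_iff 𝒜 hB _ (vel_ne 𝒜 c) hw).1 h, ← gs_Ex 𝒜 hB c]

variable {𝒜}

/-- a family of geodesics which is smooth at `u` -/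
def SmGA (𝒜 : SDist n M) {E : Type*} [NormedAddCommGroup E] [NormedSpace ℝ E] (σ : E → Gs M) (u : E) : Prop :=
  SmAt 𝒜 (fun v => (σ v).1 0) u ∧ SmAt 𝒜 (fun v => (σ v).1 (π / 2)) u

section fam

variable {E : Type*} [NormedAddCommGroup E] [NormedSpace ℝ E] {E' : Type*} [NormedAddCommGroup E'] [NormedSpace ℝ E']

theorem SmGA.ev (hB : Bl M) {σ : E → Gs M} {u : E} (h : SmGA 𝒜 σ u) (t : ℝ) :
    SmAt 𝒜 (fun z : E × ℝ => (σ z.1).1 z.2) (u, t) := by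
  have h1 : SmAt 𝒜 (fun z : E × ℝ => (σ z.1).1 0) (u, t) := SmAt.comp (g := fun v => (σ v).1 0) h.1
    (f := Prod.fst) contDiffAt_fst
  have h2 : SmAt 𝒜 (fun z : E × ℝ => (σ z.1).1 (π / 2)) (u, t) := SmAt.comp (g := fun v => (σ v).1 (π / 2)) h.2
    (f := Prod.fst) contDiffAt_fst
  have hd : dist ((σ u).1 0) ((σ u).1 (π / 2)) = π / 2 := by
    have := gs_dist (σ u) 0
    rwa [zero_add] at this
  have h3 := SmAt.gd hB h1 h2 (t := fun z : E × ℝ => z.2) contDiffAt_snd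
    (by simp only [hd]; positivity) (by simp only [hd]; linarith [Real.pi_pos])
  refine h3.congr (Eventually.of_forall fun w => ?_)
  have := gs_gd 𝒜 (σ w.1) 0 w.2
  rw [zero_add, sub_zero] at this
  exact this

theorem SmGA.at (hB : Bl M) {σ : E → Gs M} {u : E} (h : SmGA 𝒜 σ u) (t : ℝ) : SmAt 𝒜 (fun v => (σ v).1 t) u :=
  SmAt.comp (g := fun z : E × ℝ => (σ z.1).1 z.2) (f := fun v => (v, t)) (h.ev hB t)
    (contDiffAt_id.prodMk contDiffAt_const)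

theorem SmGA.comp {σ : E → Gs M} {f : E' → E} {v : E'} (h : SmGA 𝒜 σ (f v)) (hf : ContDiffAt ℝ ∞ f v) :
    SmGA 𝒜 (fun w => σ (f w)) v :=
  ⟨SmAt.comp (g := fun v => (σ v).1 0) h.1 hf, SmAt.comp (g := fun v => (σ v).1 (π / 2)) h.2 hf⟩

theorem SmGA.congr {σ σ' : E → Gs M} {u : E} (h : SmGA 𝒜 σ u) (e : σ' =ᶠ[𝓝 u] σ) : SmGA 𝒜 σ' u :=
  ⟨SmAt.congr h.1 (by filter_upwards [e] with v hv; rw [hv]), SmAt.congr h.2 (by filter_upwards [e] with v hv; rw [hv])⟩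

theorem SmGA.smV (hB : Bl M) {σ : E → Gs M} {u : E} (h : SmGA 𝒜 σ u) {p : M} (hp : (σ u).1 0 ∈ (𝒜.ψ p).source) :
    SmV 𝒜 p (fun v => (σ v).1 0) (fun v => 𝒜.vel (σ v).1 0) u := smV_vel (h.ev hB 0) hp

theorem _root_.Pool.Agent.Lib.MP_ccbbf6_gt.L4.SmG.at {σ : E → Gs M} (h : SmG 𝒜 σ) (u : E) : SmGA 𝒜 σ u :=
  ⟨h.1 u, h.2 u⟩

theorem smG_of {σ : E → Gs M} (h : ∀ u, SmGA 𝒜 σ u) : SmG 𝒜 σ := ⟨fun u => (h u).1, fun u => (h u).2⟩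

/-- geodesics with smooth initial data -/
theorem smGA_gw (hB : Bl M) {c : E → Gs M} {w : E → Eu n} {u : E} (hx : SmAt 𝒜 (fun v => (c v).1 0) u) {p : M}
    (hp : (c u).1 0 ∈ (𝒜.ψ p).source) (hw : SmV 𝒜 p (fun v => (c v).1 0) w u) (h0 : w u ≠ 0) :
    SmGA 𝒜 (fun v => gw 𝒜 hB (c v) (w v)) u := by
  have h1 : ContDiffAt ℝ ∞ (fun v => ⟪w v, w v⟫) u := SmV.inner hx hp hw hw
  have h2 : ContDiffAt ℝ ∞ (fun v => ‖w v‖⁻¹) u := by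
    have h3 : (fun v => ‖w v‖⁻¹) = fun v => (√⟪w v, w v⟫)⁻¹ := by
      funext v
      rw [real_inner_self_eq_norm_sq, Real.sqrt_sq (norm_nonneg _)]
    rw [h3]
    have h4 : ⟪w u, w u⟫ ≠ 0 := by
      rw [real_inner_self_eq_norm_sq]; exact pow_ne_zero 2 (norm_ne_zero_iff.mpr h0)
    refine (h1.sqrt h4).inv ?_
    rw [real_inner_self_eq_norm_sq, Real.sqrt_sq (norm_nonneg _)]
    exact norm_ne_zero_iff.mpr h0
  have h3 : SmV 𝒜 p (fun v => (c v).1 0) (fun v => nrm (w v)) u := hw.smul h2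
  -- nonzero near `u`
  have h4 : ∀ᶠ v in 𝓝 u, w v ≠ 0 := by
    have h5 : ContinuousAt (fun v => ⟪w v, w v⟫) u := h1.continuousAt
    have h6 : ⟪w u, w u⟫ ≠ 0 := by
      rw [real_inner_self_eq_norm_sq]; exact pow_ne_zero 2 (norm_ne_zero_iff.mpr h0)
    filter_upwards [h5.eventually_ne h6] with v hv h7
    rw [h7, inner_zero_left] at hv
    exact hv rfl
  have hfoot : (fun v => (gw 𝒜 hB (c v) (w v)).1 0) = fun v => (c v).1 0 := by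
    funext v; exact gw_zero 𝒜 hB _ _
  have hx' : SmAt 𝒜 (fun v => (gw 𝒜 hB (c v) (w v)).1 0) u := by rw [hfoot]; exact hx
  have hp' : (gw 𝒜 hB (c u) (w u)).1 0 ∈ (𝒜.ψ p).source := by rw [gw_zero]; exact hp
  have hv' : SmV 𝒜 p (fun v => (gw 𝒜 hB (c v) (w v)).1 0) (fun v => 𝒜.vel (gw 𝒜 hB (c v) (w v)).1 0) u := by
    rw [hfoot]
    refine h3.congr ?_
    filter_upwards [h4] with v hv
    exact gw_vel 𝒜 hB _ hv
  exact ⟨hx', smAt_of_vel hB hx' hp' hv' (by rw [abs_of_pos (by positivity)]; linarith [Real.pi_pos])⟩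

/-- the smooth local choice of the perpendicular geodesic -/
theorem local_D (hB : Bl M) (hk : 𝒜.HK 1) {σ : E → Gs M} (hσ : SmG 𝒜 σ) (u₀ : E) {c' : Gs M}
    (hc' : Dp 𝒜 (σ u₀) c') :
    ∃ σ' : E → Gs M, σ' u₀ = c' ∧ ∀ᶠ u in 𝓝 u₀, SmGA 𝒜 σ' u ∧ Dp 𝒜 (σ u) (σ' u) := by
  obtain ⟨x0, hx0⟩ : ∃ x, x = (σ u₀).1 0 := ⟨_, rfl⟩
  obtain ⟨q0, hq0⟩ : ∃ q, q = (σ u₀).1 π := ⟨_, rfl⟩
  -- points near `u₀`
  have hxs : ∀ᶠ u in 𝓝 u₀, (σ u).1 0 ∈ (𝒜.ψ x0).source := by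
    refine (hσ.at u₀).1.cont.eventually ((𝒜.ψ x0).open_source.mem_nhds ?_)
    show (σ u₀).1 0 ∈ (𝒜.ψ x0).source
    rw [← hx0]; exact 𝒜.mem _
  have hqs : ∀ᶠ u in 𝓝 u₀, (σ u).1 π ∈ (𝒜.ψ q0).source := by
    refine ((hσ.at u₀).at hB π).cont.eventually ((𝒜.ψ q0).open_source.mem_nhds ?_)
    show (σ u₀).1 π ∈ (𝒜.ψ q0).source
    rw [← hq0]; exact 𝒜.mem _
  -- the family with the extra parameter
  let W : E × Eu n → Eu n := fun z => 𝒜.vel (σ z.1).1 0 + DD 𝒜 x0 ((σ z.1).1 0) z.2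
  let τ : E × Eu n → Gs M := fun z => gw 𝒜 hB (σ z.1) (W z)
  have hW0 : ∀ u, W (u, 0) = 𝒜.vel (σ u).1 0 := by
    intro u
    show _ + DD 𝒜 x0 ((σ u).1 0) 0 = _
    rw [map_zero, add_zero]
  have hτ : ∀ u, (σ u).1 0 ∈ (𝒜.ψ x0).source → SmGA 𝒜 τ (u, 0) := by
    intro u hu
    have hfst : SmAt 𝒜 (fun z : E × Eu n => (σ z.1).1 0) (u, 0) :=
      SmAt.comp (g := fun v => (σ v).1 0) (f := Prod.fst) (hσ.at u).1 contDiffAt_fst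
    refine smGA_gw hB hfst hu ?_ (by rw [hW0]; exact vel_ne 𝒜 _)
    have h1 : SmV 𝒜 x0 (fun z : E × Eu n => (σ z.1).1 0) (fun z => 𝒜.vel (σ z.1).1 0) (u, 0) :=
      SmV.comp (f := (Prod.fst : E × Eu n → E)) (v := (u, 0)) ((hσ.at u).smV hB hu) contDiffAt_fst
    refine h1.add ?_
    show ContDiffAt ℝ ∞ (fun z : E × Eu n => CC 𝒜 x0 ((σ z.1).1 0) (DD 𝒜 x0 ((σ z.1).1 0) z.2)) (u, 0)
    refine (contDiffAt_snd (𝕜 := ℝ) (E := E) (F := Eu n)).congr_of_eventuallyEq ?_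
    filter_upwards [hfst.cont.eventually ((𝒜.ψ x0).open_source.mem_nhds hu)] with z hz
    exact CC_DD 𝒜 hz _
  let e : E × Eu n → Eu n := fun z => 𝒜.ψ q0 ((τ z).1 π)
  have hend : ∀ u, (τ (u, 0)).1 π = (σ u).1 π := by
    intro u
    show (gw 𝒜 hB (σ u) (W (u, 0))).1 π = _
    rw [hW0, gw_eq 𝒜 hB _ (vel_ne 𝒜 _), ← gs_Ex 𝒜 hB]
  have he : ∀ u, (σ u).1 0 ∈ (𝒜.ψ x0).source → (σ u).1 π ∈ (𝒜.ψ q0).source → ContDiffAt ℝ ∞ e (u, 0) := by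
    intro u h1 h2
    exact ((hτ u h1).at hB π).chart (by rw [hend]; exact h2)
  let A : E → Eu n →L[ℝ] Eu n := fun u => (fderiv ℝ e (u, 0)).comp (ContinuousLinearMap.inr ℝ E (Eu n))
  have hA : ∀ u, (σ u).1 0 ∈ (𝒜.ψ x0).source → (σ u).1 π ∈ (𝒜.ψ q0).source → ContDiffAt ℝ ∞ A u := by
    intro u h1 h2
    have h3 : ContDiffAt ℝ ∞ (fderiv ℝ e) (u, 0) := (he u h1 h2).fderiv_right (by simp)
    have h4 : ContDiffAt ℝ ∞ (fun v : E => fderiv ℝ e (v, 0)) u :=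
      ContDiffAt.comp (g := fderiv ℝ e) (f := fun v : E => (v, (0 : Eu n))) u h3 (contDiffAt_id.prodMk contDiffAt_const)
    exact h4.clm_comp contDiffAt_const
  have hAeq : ∀ u, (σ u).1 0 ∈ (𝒜.ψ x0).source → (σ u).1 π ∈ (𝒜.ψ q0).source → ∀ b : Eu n,
      A u b = fderiv ℝ (𝒜.X ((σ u).1 0) q0 π) (𝒜.vel (σ u).1 0) (DD 𝒜 x0 ((σ u).1 0) b) := by
    intro u h1 h2 b
    have h3 : HasFDerivAt e (fderiv ℝ e (u, 0)) (u, 0) := ((he u h1 h2).differentiableAt (by simp)).hasFDerivAt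
    have h4 : HasFDerivAt (fun a : Eu n => e (u, a)) (A u) 0 :=
      h3.comp (0 : Eu n) (hasFDerivAt_prodMk_right u (0 : Eu n))
    have h5 : HasFDerivAt (fun a : Eu n => 𝒜.vel (σ u).1 0 + DD 𝒜 x0 ((σ u).1 0) a) (DD 𝒜 x0 ((σ u).1 0)) 0 :=
      (DD 𝒜 x0 ((σ u).1 0)).hasFDerivAt.const_add _
    have hXs : 𝒜.Ex ((σ u).1 0) (rad π (𝒜.vel (σ u).1 0)) ∈ (𝒜.ψ q0).source := by
      rw [← gs_Ex 𝒜 hB]; exact h2
    have h6 : HasFDerivAt (𝒜.X ((σ u).1 0) q0 π) (fderiv ℝ (𝒜.X ((σ u).1 0) q0 π) (𝒜.vel (σ u).1 0))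
        (𝒜.vel (σ u).1 0 + DD 𝒜 x0 ((σ u).1 0) 0) := by
      rw [map_zero, add_zero]
      exact ((contDiffAt_X 𝒜 hB _ q0 π (vel_ne 𝒜 _) hXs).differentiableAt (by simp)).hasFDerivAt
    have h7 := h6.comp (0 : Eu n) h5
    have h8 : (fun a : Eu n => e (u, a)) =ᶠ[𝓝 0]
        (𝒜.X ((σ u).1 0) q0 π) ∘ fun a : Eu n => 𝒜.vel (σ u).1 0 + DD 𝒜 x0 ((σ u).1 0) a := by
      have h9 : ContinuousAt (fun a : Eu n => 𝒜.vel (σ u).1 0 + DD 𝒜 x0 ((σ u).1 0) a) 0 := h5.continuousAt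
      have h10 : 𝒜.vel (σ u).1 0 + DD 𝒜 x0 ((σ u).1 0) 0 ≠ 0 := by
        rw [map_zero, add_zero]; exact vel_ne 𝒜 _
      filter_upwards [h9.eventually_ne h10] with a ha
      show 𝒜.ψ q0 ((gw 𝒜 hB (σ u) (W (u, a))).1 π) = 𝒜.ψ q0 (𝒜.Ex ((σ u).1 0) (rad π (W (u, a))))
      rw [gw_eq 𝒜 hB _ ha]
    exact congrArg (fun L : Eu n →L[ℝ] Eu n => L b) ((h4.congr_of_eventuallyEq h8.symm).unique h7)
  -- the kernels
  let V : E → Submodule ℝ (Eu n) := fun u =>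
    (𝒜.PV ((σ u).1 0) (𝒜.vel (σ u).1 0)).map (CC 𝒜 x0 ((σ u).1 0) : Eu n →ₗ[ℝ] Eu n)
  have hV : ∀ᶠ u in 𝓝 u₀, finrank ℝ (V u) = 2 ∧ ∀ x ∈ V u, A u x = 0 := by
    filter_upwards [hxs, hqs] with u h1 h2
    constructor
    · have hinj : Function.Injective (CC 𝒜 x0 ((σ u).1 0) : Eu n →ₗ[ℝ] Eu n) := fun a b hab => by
        have := congrArg (DD 𝒜 x0 ((σ u).1 0)) hab
        rwa [ContinuousLinearMap.coe_coe, DD_CC 𝒜 h1, DD_CC 𝒜 h1] at this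
      show finrank ℝ ((𝒜.PV ((σ u).1 0) (𝒜.vel (σ u).1 0)).map (CC 𝒜 x0 ((σ u).1 0) : Eu n →ₗ[ℝ] Eu n)) = 2
      rw [← (Submodule.equivMapOfInjective _ hinj _).finrank_eq]
      exact finrank_PV 𝒜 hB hk _ (vel_ne 𝒜 _)
    · rintro x ⟨y, hy, rfl⟩
      rw [hAeq u h1 h2, ContinuousLinearMap.coe_coe, DD_CC 𝒜 h1]
      exact fderiv_X_PV 𝒜 hB (vel_ne 𝒜 _) (by rw [← gs_Ex 𝒜 hB]; exact h2) hy
  have ha1 : ‖𝒜.vel c'.1 0‖ = 1 := vel_norm 𝒜 c'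
  have hva : ⟪𝒜.vel (σ u₀).1 0, 𝒜.vel c'.1 0⟫ = 0 := hc'.2.2
  have haPV : 𝒜.vel c'.1 0 ∈ 𝒜.PV ((σ u₀).1 0) (𝒜.vel (σ u₀).1 0) := mem_PV_of_top 𝒜 hB hc'.1 hc'.2.1
  have hx0s : (σ u₀).1 0 ∈ (𝒜.ψ x0).source := hxs.self_of_nhds
  have hq0s : (σ u₀).1 π ∈ (𝒜.ψ q0).source := hqs.self_of_nhds
  have hDD0 : ∀ b, DD 𝒜 x0 ((σ u₀).1 0) b = b := by
    intro b
    have h1 := DD_CC 𝒜 hx0s b
    rw [← hx0, CC_self] at h1
    rw [← hx0]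
    exact h1
  have hker : ∀ x, A u₀ x = 0 → ∃ s t : ℝ, x = s • 𝒜.vel (σ u₀).1 0 + t • 𝒜.vel c'.1 0 := by
    intro x hx
    rw [hAeq u₀ hx0s hq0s, hDD0] at hx
    have h1 := ker_X_PV 𝒜 hB hk (vel_ne 𝒜 _) (by rw [← gs_Ex 𝒜 hB]; exact hq0s) hx
    obtain ⟨b, hb, hb1, hvb, hb2⟩ := exists_perp (finrank_PV 𝒜 hB hk ((σ u₀).1 0) (vel_ne 𝒜 (σ u₀))) (vel_ne 𝒜 (σ u₀))
      (mem_PV_self 𝒜 hB _ _)
    have h2 := perp_pm (finrank_PV 𝒜 hB hk ((σ u₀).1 0) (vel_ne 𝒜 (σ u₀))) (vel_ne 𝒜 (σ u₀))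
      (mem_PV_self 𝒜 hB _ _) haPV ha1 hva hb hb1 hvb
    obtain ⟨s, t, h3⟩ := hb2 x h1
    exact ⟨s, t * ⟪𝒜.vel c'.1 0, b⟫, by rw [h3, h2, smul_smul, ← h2]⟩
  have haV : A u₀ (𝒜.vel c'.1 0) = 0 := by
    rw [hAeq u₀ hx0s hq0s, hDD0]
    exact fderiv_X_PV 𝒜 hB (vel_ne 𝒜 _) (by rw [← gs_Ex 𝒜 hB]; exact hq0s) haPV
  obtain ⟨k, hk0, hkev⟩ := smooth_kernel' (hA u₀ hx0s hq0s) (vel_ne 𝒜 (σ u₀)) hva ha1 hker hV haV
  -- the perpendicular field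
  let w1 : E → Eu n := fun u => DD 𝒜 x0 ((σ u).1 0) (k u)
  let w2 : E → Eu n := fun u => w1 u + (-⟪w1 u, 𝒜.vel (σ u).1 0⟫) • 𝒜.vel (σ u).1 0
  have hw1 : ∀ᶠ u in 𝓝 u₀, SmV 𝒜 x0 (fun v => (σ v).1 0) w1 u := by
    filter_upwards [hkev, hxs, hqs] with u h1 h2 h3
    show ContDiffAt ℝ ∞ (fun v => CC 𝒜 x0 ((σ v).1 0) (DD 𝒜 x0 ((σ v).1 0) (k v))) u
    refine (h1.2 (hA u h2 h3)).congr_of_eventuallyEq ?_
    filter_upwards [(hσ.at u).1.cont.eventually ((𝒜.ψ x0).open_source.mem_nhds h2)] with v hv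
    exact CC_DD 𝒜 hv _
  have hw2 : ∀ᶠ u in 𝓝 u₀, SmV 𝒜 x0 (fun v => (σ v).1 0) w2 u := by
    filter_upwards [hw1, hxs] with u h1 h2
    have h3 := (hσ.at u).smV hB h2
    exact h1.add (h3.smul (SmV.inner (hσ.at u).1 h2 h1 h3).neg)
  have hw2u : w2 u₀ = 𝒜.vel c'.1 0 := by
    show w1 u₀ + (-⟪w1 u₀, 𝒜.vel (σ u₀).1 0⟫) • 𝒜.vel (σ u₀).1 0 = 𝒜.vel c'.1 0
    have h1 : w1 u₀ = 𝒜.vel c'.1 0 := by
      show DD 𝒜 x0 ((σ u₀).1 0) (k u₀) = _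
      rw [hDD0, hk0]
    rw [h1, real_inner_comm, hva, neg_zero, zero_smul, add_zero]
  have hne : ∀ᶠ u in 𝓝 u₀, w2 u ≠ 0 := by
    have h1 : ContinuousAt (fun u => CC 𝒜 x0 ((σ u).1 0) (w2 u)) u₀ := hw2.self_of_nhds.continuousAt
    have h2 : CC 𝒜 x0 ((σ u₀).1 0) (w2 u₀) ≠ 0 := by
      rw [hw2u]
      exact CC_ne 𝒜 hx0s (kc_ne ha1)
    filter_upwards [h1.eventually_ne h2] with u hu h3
    rw [h3, map_zero] at hu
    exact hu rfl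
  refine ⟨fun u => gw 𝒜 hB (σ u) (w2 u), ?_, ?_⟩
  · refine eq_of_vel' 𝒜 ?_ ?_
    · rw [gw_zero, hc'.1]
    · rw [gw_vel 𝒜 hB _ (by rw [hw2u]; exact kc_ne ha1), hw2u, nrm_of_norm ha1]
  · filter_upwards [hkev, hxs, hqs, hw2, hne] with u h1 h2 h3 h4 h5
    refine ⟨smGA_gw hB (hσ.at u).1 h2 h4 h5, gw_zero 𝒜 hB _ _, ?_, ?_⟩
    · refine top_of_mem 𝒜 hB _ h5 ?_
      have h6 : w1 u ∈ 𝒜.PV ((σ u).1 0) (𝒜.vel (σ u).1 0) := by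
        obtain ⟨y, hy, hyk⟩ := h1.1
        show DD 𝒜 x0 ((σ u).1 0) (k u) ∈ _
        rw [← hyk, ContinuousLinearMap.coe_coe, DD_CC 𝒜 h2]
        exact hy
      exact Submodule.add_mem _ h6 (Submodule.smul_mem _ _ (mem_PV_self 𝒜 hB _ _))
    · rw [gw_vel 𝒜 hB _ h5]
      have h7 : ⟪𝒜.vel (σ u).1 0, w2 u⟫ = 0 := by
        show ⟪𝒜.vel (σ u).1 0, w1 u + (-⟪w1 u, 𝒜.vel (σ u).1 0⟫) • 𝒜.vel (σ u).1 0⟫ = 0
        rw [inner_add_right, real_inner_smul_right, real_inner_self_eq_norm_sq, vel_norm, real_inner_comm]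
        ring
      unfold nrm
      rw [real_inner_smul_right, h7, mul_zero]

end fam

end Pool.Agent.Lib.MP_ccbbf6_gt.L4.ORI
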