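import Pool.Agent.Lib.MP_ccbbf6_gt.L4.SM2
import Pool.Agent.Lib.MP_ccbbf6_gt.L4.Str

/-!
# PO1: pointwise smooth families of geodesics, embedding of `Gs M` (Level 4, push-off)
-/

set_option autoImplicit false
set_option linter.unusedSectionVars false

open Set Filter Topology Metric Real
open scoped ContDiff RealInnerProductSpace

noncomputable section

namespace Pool.Agent.Lib.MP_ccbbf6_gt.L4

open Geo

variable {n : ℕ} {M : Type*} [MetricSpace M] [CompactSpace M] (𝒜 : SDist n M)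

section

variable {E : Type*} [NormedAddCommGroup E] [NormedSpace ℝ E] {E' : Type*} [NormedAddCommGroup E'] [NormedSpace ℝ E']

/-- smoothness at a point of a family of geodesics -/
def SmGAt (σ : E → Gs M) (u : E) : Prop := SmAt 𝒜 (fun v => (σ v).1 0) u ∧ SmAt 𝒜 (fun v => (σ v).1 (π / 2)) u

variable {𝒜}

theorem SmG.atP {σ : E → Gs M} (h : SmG 𝒜 σ) (u : E) : SmGAt 𝒜 σ u := ⟨h.1 u, h.2 u⟩

theorem SmGAt.comp {σ : E → Gs M} {f : E' → E} {v : E'} (h : SmGAt 𝒜 σ (f v)) (hf : ContDiffAt ℝ ∞ f v) :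
    SmGAt 𝒜 (fun w => σ (f w)) v :=
  ⟨SmAt.comp (g := fun v => (σ v).1 0) h.1 hf, SmAt.comp (g := fun v => (σ v).1 (π / 2)) h.2 hf⟩

theorem SmGAt.congr {σ σ' : E → Gs M} {u : E} (h : SmGAt 𝒜 σ u) (e : σ' =ᶠ[𝓝 u] σ) : SmGAt 𝒜 σ' u :=
  ⟨h.1.congr (by filter_upwards [e] with v hv; rw [hv]), h.2.congr (by filter_upwards [e] with v hv; rw [hv])⟩

theorem SmGAt.ev (hB : Bl M) {σ : E → Gs M} {u : E} (h : SmGAt 𝒜 σ u) {t : E → ℝ} (ht : ContDiffAt ℝ ∞ t u) :
    SmAt 𝒜 (fun v => (σ v).1 (t v)) u := by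
  have hd : dist ((σ u).1 0) ((σ u).1 (π / 2)) = π / 2 := by
    have := gs_dist (σ u) 0
    rwa [zero_add] at this
  have h3 := SmAt.gd hB h.1 h.2 ht (by simp only [hd]; positivity) (by simp only [hd]; linarith [Real.pi_pos])
  refine h3.congr (Eventually.of_forall fun w => ?_)
  have := gs_gd 𝒜 (σ w) 0 (t w)
  rw [zero_add, sub_zero] at this
  exact this

theorem SmGAt.shift (hB : Bl M) {σ : E → Gs M} {u : E} (h : SmGAt 𝒜 σ u) {r : E → ℝ} (hr : ContDiffAt ℝ ∞ r u) :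
    SmGAt 𝒜 (fun v => L4.shift (r v) (σ v)) u :=
  ⟨h.ev hB (t := fun v => 0 + r v) (contDiffAt_const.add hr),
    h.ev hB (t := fun v => π / 2 + r v) (contDiffAt_const.add hr)⟩

theorem SmAt.prod_left {g : E → M} {u : E} {u' : E'} (h : SmAt 𝒜 g u) : SmAt 𝒜 (fun z : E × E' => g z.1) (u, u') :=
  SmAt.comp (g := g) (f := Prod.fst) h contDiffAt_fst

/-- a family through two smooth points -/
theorem SmGAt.of_gg (hB : Bl M) [Nonempty (Gs M)] {x y : E → M} {u : E} (hx : SmAt 𝒜 x u) (hy : SmAt 𝒜 y u)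
    (h0 : 0 < dist (x u) (y u)) (h1 : dist (x u) (y u) < π) : SmGAt 𝒜 (fun v => gg (x v) (y v)) u := by
  have h2 : ∀ᶠ v in 𝓝 u, 0 < dist (x v) (y v) := by
    have hc : ContinuousAt (fun v => dist (x v) (y v)) u := hx.1.dist hy.1
    exact hc.eventually (lt_mem_nhds h0)
  have h3 : ∀ᶠ v in 𝓝 u, ∀ t, (gg (x v) (y v)).1 t = gd (x v) (y v) t := by
    filter_upwards [h2] with v hv t
    have h4 := (gd_spec 𝒜 hB (dist_pos.mp hv)).1
    unfold gg
    rw [dif_pos h4]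
  constructor
  · refine (SmAt.gd hB hx hy (t := fun _ => 0) contDiffAt_const h0 h1).congr ?_
    filter_upwards [h3] with v hv
    exact hv 0
  · refine (SmAt.gd hB hx hy (t := fun _ => π / 2) contDiffAt_const h0 h1).congr ?_
    filter_upwards [h3] with v hv
    exact hv (π / 2)

end

section emb

variable {𝒜} (e : Emb n 𝒜)

/-- the space of the embedding -/
abbrev Emb.Q : Type := EuclideanSpace ℝ (Fin e.q) × EuclideanSpace ℝ (Fin e.q)

/-- the embedding of `Gs M` -/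
def Emb.EE (c : Gs M) : e.Q := (e.i (c.1 0), e.i (c.1 (π / 2)))

/-- the retraction -/
def Emb.RR [Nonempty (Gs M)] (y : e.Q) : Gs M := gg (e.r y.1) (e.r y.2)

/-- the neighbourhood of the image -/
def Emb.UU : Set e.Q := {y | y.1 ∈ e.U ∧ y.2 ∈ e.U ∧ 0 < dist (e.r y.1) (e.r y.2) ∧ dist (e.r y.1) (e.r y.2) < π}

theorem Emb.isOpen_UU : IsOpen e.UU := by
  rw [isOpen_iff_mem_nhds]
  rintro y ⟨h1, h2, h3, h4⟩
  have c1 : ContinuousAt (fun z : e.Q => e.r z.1) y := ContinuousAt.comp (g := e.r) (e.smooth_r _ h1).1 continuousAt_fst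
  have c2 : ContinuousAt (fun z : e.Q => e.r z.2) y := ContinuousAt.comp (g := e.r) (e.smooth_r _ h2).1 continuousAt_snd
  have c3 : ContinuousAt (fun z : e.Q => dist (e.r z.1) (e.r z.2)) y := c1.dist c2
  filter_upwards [continuousAt_fst.eventually (e.isOpen.mem_nhds h1), continuousAt_snd.eventually (e.isOpen.mem_nhds h2),
    c3.eventually (lt_mem_nhds h3), c3.eventually (gt_mem_nhds h4)] with z z1 z2 z3 z4
  exact ⟨z1, z2, z3, z4⟩

theorem Emb.EE_mem (c : Gs M) : e.EE c ∈ e.UU := by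
  have h := gs_dist c 0
  rw [zero_add] at h
  refine ⟨e.mem _, e.mem _, ?_, ?_⟩
  · simp only [Emb.EE, e.left, h]; positivity
  · simp only [Emb.EE, e.left, h]; linarith [Real.pi_pos]

theorem Emb.RR_EE (hB : Bl M) [Nonempty (Gs M)] (c : Gs M) : e.RR (e.EE c) = c := by
  have h := gs_dist c 0
  rw [zero_add] at h
  have hp := Real.pi_pos
  have hne : c.1 0 ≠ c.1 (π / 2) := dist_pos.mp (by rw [h]; positivity)
  unfold Emb.RR Emb.EE
  simp only [e.left]
  unfold gg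
  rw [dif_pos (gd_spec 𝒜 hB hne).1]
  apply Subtype.ext
  have h2 := gd_eq 𝒜 c.2 (s := 0) (t := π / 2) (by positivity) (by linarith)
  simp only [zero_add] at h2
  simp only [h2]

theorem Emb.smG_RR (hB : Bl M) [Nonempty (Gs M)] {y : e.Q} (hy : y ∈ e.UU) : SmGAt 𝒜 e.RR y := by
  obtain ⟨h1, h2, h3, h4⟩ := hy
  have s1 : SmAt 𝒜 (fun z : e.Q => e.r z.1) y := SmAt.comp (g := e.r) (f := fun z : e.Q => z.1) (e.smooth_r _ h1) contDiffAt_fst
  have s2 : SmAt 𝒜 (fun z : e.Q => e.r z.2) y := SmAt.comp (g := e.r) (f := fun z : e.Q => z.2) (e.smooth_r _ h2) contDiffAt_snd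
  exact SmGAt.of_gg hB s1 s2 h3 h4

variable {E : Type*} [NormedAddCommGroup E] [NormedSpace ℝ E] {E' : Type*} [NormedAddCommGroup E'] [NormedSpace ℝ E']

theorem Emb.smooth_EE {σ : E → Gs M} {u : E} (h : SmGAt 𝒜 σ u) : ContDiffAt ℝ ∞ (fun v => e.EE (σ v)) u := by
  have h1 := SmFA.comp_to (𝒜 := 𝒜) (g := e.i) (r := fun v => (σ v).1 0) (z := u) (e.smooth_i _) h.1
  have h2 := SmFA.comp_to (𝒜 := 𝒜) (g := e.i) (r := fun v => (σ v).1 (π / 2)) (z := u) (e.smooth_i _) h.2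
  exact h1.prodMk h2

theorem Emb.continuous_i : Continuous e.i :=
  continuous_iff_continuousAt.2 fun x => SmFA.continuousAt (𝒜 := 𝒜) (g := e.i) (e.smooth_i x)

theorem Emb.continuous_EE : Continuous e.EE :=
  (e.continuous_i.comp ((continuous_apply 0).comp continuous_subtype_val)).prodMk
    (e.continuous_i.comp ((continuous_apply (π / 2)).comp continuous_subtype_val))

/-- a smooth map to a ball, the identity near the center -/
theorem exists_to_ball {Q : Type*} [NormedAddCommGroup Q] [NormedSpace ℝ Q] [FiniteDimensional ℝ Q] (y : Q) {U : Set Q}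
    (hU : U ∈ 𝓝 y) : ∃ β : Q → Q, ContDiff ℝ ∞ β ∧ (∀ z, β z ∈ U) ∧ β =ᶠ[𝓝 y] id := by
  obtain ⟨r, hr, hrU⟩ := Metric.mem_nhds_iff.1 hU
  let χ : ContDiffBump y := ⟨r / 4, r / 2, by positivity, by linarith⟩
  refine ⟨fun z => y + χ z • (z - y), ?_, fun z => hrU ?_, ?_⟩
  · exact contDiff_const.add (χ.contDiff.smul (contDiff_id.sub contDiff_const))
  · rw [mem_ball, dist_eq_norm, add_sub_cancel_left, norm_smul]
    by_cases hz : dist z y < r / 2
    · rw [dist_eq_norm] at hz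
      have h1 : ‖χ z‖ ≤ 1 := by
        rw [Real.norm_eq_abs, abs_of_nonneg χ.nonneg]
        exact χ.le_one
      calc ‖χ z‖ * ‖z - y‖ ≤ 1 * ‖z - y‖ := mul_le_mul_of_nonneg_right h1 (norm_nonneg _)
        _ < r := by linarith
    · have h1 : χ z = 0 := χ.zero_of_le_dist (not_lt.mp hz)
      rw [h1, norm_zero, zero_mul]
      exact hr
  · filter_upwards [closedBall_mem_nhds y (show (0 : ℝ) < r / 4 by positivity)] with z hz
    have h1 : χ z = 1 := χ.one_of_mem_closedBall hz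
    rw [h1, one_smul, add_sub_cancel, id]

include e in
/-- the rotation of a smooth family -/
theorem SmGAt.rot (hB : Bl M) [Nonempty (Gs M)] {ρ : ℝ → Gs M → Gs M} (hR : Rot 𝒜 ρ) {σ : E → Gs M} {u : E}
    (h : SmGAt 𝒜 σ u) {θ : E → ℝ} (hθ : ContDiffAt ℝ ∞ θ u) : SmGAt 𝒜 (fun v => ρ (θ v) (σ v)) u := by
  obtain ⟨β, hβ, hβU, hβe⟩ := exists_to_ball (e.EE (σ u)) (e.isOpen_UU.mem_nhds (e.EE_mem (σ u)))
  have h1 : SmG 𝒜 (fun y : e.Q => e.RR (β y)) := by
    constructor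
    · intro y
      exact (SmGAt.comp (e.smG_RR hB (hβU y)) hβ.contDiffAt).1
    · intro y
      exact (SmGAt.comp (e.smG_RR hB (hβU y)) hβ.contDiffAt).2
  have h2 := hR.smooth e.Q (fun y => e.RR (β y)) h1
  have h3 : ContDiffAt ℝ ∞ (fun v => (θ v, e.EE (σ v))) u := hθ.prodMk (e.smooth_EE h)
  have h4 := SmGAt.comp (f := fun v => (θ v, e.EE (σ v))) (v := u) (h2.atP (θ u, e.EE (σ u))) h3
  refine h4.congr ?_
  filter_upwards [(e.smooth_EE h).continuousAt.eventually hβe] with v hv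
  simp only [hv, id, e.RR_EE hB]

end emb

end Pool.Agent.Lib.MP_ccbbf6_gt.L4
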