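import Pool.Agent.Lib.MP_ccbbf6_gt.Geo.CZa
import Pool.Agent.Lib.MP_ccbbf6_gt.L4.FXb
import Pool.Agent.Lib.MP_ccbbf6_gt.L4.Sp

/-!
# Level 4: the contact form of the space of geodesics
-/

set_option autoImplicit false
set_option maxSynthPendingDepth 3

open Set Filter Topology Metric Real
open scoped ContDiff RealInnerProductSpace

noncomputable section

namespace Pool.Agent.Lib.MP_ccbbf6_gt.L4

open Geo FR

section dist

variable {n : ℕ} {M : Type*} [MetricSpace M] [CompactSpace M] {𝒜 : SDist n M}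
  {E : Type*} [NormedAddCommGroup E] [NormedSpace ℝ E]

omit [CompactSpace M] in
theorem al_ev {x y : E → M} {u : E} (hx : SmAt 𝒜 x u) (hy : SmAt 𝒜 y u) : (fun v => dist (x v) (y v)) =ᶠ[𝓝 u]
    fun v => 𝒜.f (x u) (y u) (𝒜.ψ (x u) (x v), 𝒜.ψ (y u) (y v)) := by
  filter_upwards [hx.1.eventually ((𝒜.ψ (x u)).open_source.mem_nhds (𝒜.mem _)),
    hy.1.eventually ((𝒜.ψ (y u)).open_source.mem_nhds (𝒜.mem _))] with v hv hv'
  unfold SDist.f
  simp only
  rw [(𝒜.ψ (x u)).left_inv hv, (𝒜.ψ (y u)).left_inv hv']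

/-- the distance of two smooth points is smooth -/
theorem al_dist (hB : Bl M) {x y : E → M} {u : E} (hx : SmAt 𝒜 x u) (hy : SmAt 𝒜 y u) (h0 : 0 < dist (x u) (y u))
    (h1 : dist (x u) (y u) < π) : ContDiffAt ℝ ∞ (fun v => dist (x v) (y v)) u := by
  refine ContDiffAt.congr_of_eventuallyEq ?_ (al_ev hx hy)
  have h2 := contDiffAt_f 𝒜 hB h0 h1
  have h3 : ((0, 0) : Eu n × Eu n) = (fun v => (𝒜.ψ (x u) (x v), 𝒜.ψ (y u) (y v))) u := by
    simp only [𝒜.zero]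
  rw [h3] at h2
  exact ContDiffAt.comp (g := 𝒜.f (x u) (y u)) u h2 (hx.2.prodMk hy.2)

theorem al_f (hB : Bl M) {p q : M} (h0 : 0 < dist p q) (h1 : dist p q < π) (a b : Eu n) :
    fderiv ℝ (𝒜.f p q) (0, 0) (a, b) = 𝒜.D1 p q a + 𝒜.D1 q p b := by
  have h2 := ((contDiffAt_f 𝒜 hB h0 h1).differentiableAt (by simp)).hasFDerivAt
  have h3 : HasFDerivAt (fun u : Eu n => 𝒜.f p q (u, 0))
      ((fderiv ℝ (𝒜.f p q) (0, 0)).comp (ContinuousLinearMap.inl ℝ (Eu n) (Eu n))) 0 :=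
    h2.comp (f := fun u : Eu n => (u, (0 : Eu n))) (0 : Eu n) (hasFDerivAt_prodMk_left (0 : Eu n) (0 : Eu n))
  have h4 : HasFDerivAt (fun u : Eu n => 𝒜.f p q (0, u))
      ((fderiv ℝ (𝒜.f p q) (0, 0)).comp (ContinuousLinearMap.inr ℝ (Eu n) (Eu n))) 0 :=
    h2.comp (f := fun u : Eu n => ((0 : Eu n), u)) (0 : Eu n) (hasFDerivAt_prodMk_right (0 : Eu n) (0 : Eu n))
  have h5 : 𝒜.D1 p q a = fderiv ℝ (𝒜.f p q) (0, 0) (a, 0) := by
    unfold SDist.D1
    rw [h3.fderiv]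
    rfl
  have h6 : 𝒜.D1 q p b = fderiv ℝ (𝒜.f p q) (0, 0) (0, b) := by
    have h7 : (fun u : Eu n => 𝒜.f q p (u, 0)) = fun u : Eu n => 𝒜.f p q (0, u) := by
      funext u
      unfold SDist.f
      exact dist_comm _ _
    unfold SDist.D1
    rw [h7, h4.fderiv]
    rfl
  rw [h5, h6, ← map_add, Prod.mk_add_mk, add_zero, zero_add]

/-- first variation -/
theorem al_fderiv (hB : Bl M) {x y : E → M} {u : E} (hx : SmAt 𝒜 x u) (hy : SmAt 𝒜 y u) (h0 : 0 < dist (x u) (y u))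
    (h1 : dist (x u) (y u) < π) (w : E) : fderiv ℝ (fun v => dist (x v) (y v)) u w =
      𝒜.D1 (x u) (y u) (fderiv ℝ (fun v => 𝒜.ψ (x u) (x v)) u w) +
        𝒜.D1 (y u) (x u) (fderiv ℝ (fun v => 𝒜.ψ (y u) (y v)) u w) := by
  rw [(al_ev hx hy).fderiv_eq]
  have h2 := ((contDiffAt_f 𝒜 hB h0 h1).differentiableAt (by simp)).hasFDerivAt
  have hx' := (hx.2.differentiableAt (by simp)).hasFDerivAt
  have hy' := (hy.2.differentiableAt (by simp)).hasFDerivAt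
  have h4 : HasFDerivAt (fun v => 𝒜.f (x u) (y u) (𝒜.ψ (x u) (x v), 𝒜.ψ (y u) (y v)))
      ((fderiv ℝ (𝒜.f (x u) (y u)) (0, 0)).comp ((fderiv ℝ (fun v => 𝒜.ψ (x u) (x v)) u).prod
        (fderiv ℝ (fun v => 𝒜.ψ (y u) (y v)) u))) u := by
    refine HasFDerivAt.comp (g := 𝒜.f (x u) (y u)) u ?_ (hx'.prodMk hy')
    rw [𝒜.zero, 𝒜.zero]
    exact h2
  rw [h4.fderiv, ContinuousLinearMap.comp_apply, ContinuousLinearMap.prod_apply]
  exact al_f hB h0 h1 _ _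

/-- first variation along geodesics -/
theorem al_fderiv_geo (hB : Bl M) {σ : E → Gs M} {x y : E → M} {u : E} {s t : ℝ} (h0 : 0 < t)
    (h1 : t < π) (hx : SmAt 𝒜 x u) (hy : SmAt 𝒜 y u) (ex : x u = (σ u).1 s) (ey : y u = (σ u).1 (s + t)) (w : E) :
    fderiv ℝ (fun v => dist (x v) (y v)) u w =
      ⟪𝒜.vel (σ u).1 (s + t), fderiv ℝ (fun v => 𝒜.ψ (y u) (y v)) u w⟫ -
        ⟪𝒜.vel (σ u).1 s, fderiv ℝ (fun v => 𝒜.ψ (x u) (x v)) u w⟫ := by
  have hd : dist (x u) (y u) = t := by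
    rw [ex, ey, (σ u).2 s (s + t) (by rw [sub_add_cancel_left, abs_neg, abs_of_pos h0]; exact h1.le),
      sub_add_cancel_left, abs_neg, abs_of_pos h0]
  rw [al_fderiv hB hx hy (by rw [hd]; exact h0) (by rw [hd]; exact h1)]
  have h2 := D1_forward 𝒜 hB (σ u).2 (s := s) h0 h1 (fderiv ℝ (fun v => 𝒜.ψ (x u) (x v)) u w)
  have h3 := D1_backward 𝒜 hB (σ u).2 (s := s + t) h0 h1 (fderiv ℝ (fun v => 𝒜.ψ (y u) (y v)) u w)
  rw [add_sub_cancel_right] at h3
  rw [← ex, ← ey] at h2 h3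
  rw [h2, h3]
  ring

/-- the contact form is invariant: first variation of the length of a segment of fixed length -/
theorem al_const (hB : Bl M) {σ : E → Gs M} (hσ : SmG 𝒜 σ) (u : E) {s t : ℝ} (h0 : 0 < t) (h1 : t < π) (w : E) :
    ⟪𝒜.vel (σ u).1 (s + t), fderiv ℝ (fun v => 𝒜.ψ ((σ u).1 (s + t)) ((σ v).1 (s + t))) u w⟫ =
      ⟪𝒜.vel (σ u).1 s, fderiv ℝ (fun v => 𝒜.ψ ((σ u).1 s) ((σ v).1 s)) u w⟫ := by
  have hx : SmAt 𝒜 (fun v => (σ v).1 s) u := hσ.ev' hB (t := fun _ => s) contDiff_const u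
  have hy : SmAt 𝒜 (fun v => (σ v).1 (s + t)) u := hσ.ev' hB (t := fun _ => s + t) contDiff_const u
  have h2 := al_fderiv_geo hB (σ := σ) (s := s) h0 h1 hx hy rfl rfl w
  have h3 : (fun v => dist ((σ v).1 s) ((σ v).1 (s + t))) = fun _ => t := by
    funext v
    rw [(σ v).2 s (s + t) (by rw [sub_add_cancel_left, abs_neg, abs_of_pos h0]; exact h1.le),
      sub_add_cancel_left, abs_neg, abs_of_pos h0]
  rw [h3, fderiv_fun_const] at h2
  have h4 : ((0 : E → E →L[ℝ] ℝ) u) w = 0 := rfl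
  rw [h4] at h2
  linarith

end dist

variable {n : ℕ} {M : Type} [MetricSpace M] [CompactSpace M] {𝒜 : SDist n M} {k l : ℕ}

/-- the coefficients of the contact form on a plot -/
def alc (p : (spG 𝒜).Plot k) (i : Fin k) (u : V k) : ℝ :=
  -(2 * π)⁻¹ * fderiv ℝ (fun z : V k × V k => dist ((p.1 z.1).1 0) ((p.1 z.2).1 (π / 2))) (u, u) (Pi.single i 1, 0)

theorem al_two (hB : Bl M) (p : (spG 𝒜).Plot k) (u : V k) :
    ContDiffAt ℝ ∞ (fun z : V k × V k => dist ((p.1 z.1).1 0) ((p.1 z.2).1 (π / 2))) (u, u) := by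
  have hp : SmG 𝒜 p.1 := p.2
  have h1 : SmAt 𝒜 (fun z : V k × V k => (p.1 z.1).1 0) (u, u) :=
    SmAt.comp (g := fun v => (p.1 v).1 0) (f := Prod.fst) (hp.1 u) contDiffAt_fst
  have h2 : SmAt 𝒜 (fun z : V k × V k => (p.1 z.2).1 (π / 2)) (u, u) :=
    SmAt.comp (g := fun v => (p.1 v).1 (π / 2)) (f := Prod.snd) (hp.2 u) contDiffAt_snd
  have hd : dist ((p.1 u).1 0) ((p.1 u).1 (π / 2)) = π / 2 := by
    have := gs_dist (p.1 u) 0
    rwa [zero_add] at this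
  exact al_dist hB h1 h2 (by simp only [hd]; positivity) (by simp only [hd]; linarith [Real.pi_pos])

theorem alc_smooth (hB : Bl M) (p : (spG 𝒜).Plot k) (i : Fin k) : ContDiff ℝ ∞ (alc p i) := by
  rw [contDiff_iff_contDiffAt]
  intro u
  have h1 := (al_two hB p u).fderiv_right (m := ∞) (by simp)
  have h2 : ContDiffAt ℝ ∞ (fun u : V k =>
      fderiv ℝ (fun z : V k × V k => dist ((p.1 z.1).1 0) ((p.1 z.2).1 (π / 2))) (u, u)) u :=
    ContDiffAt.comp (g := fderiv ℝ (fun z : V k × V k => dist ((p.1 z.1).1 0) ((p.1 z.2).1 (π / 2))))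
      (f := fun u : V k => (u, u)) u h1 (contDiffAt_id.prodMk contDiffAt_id)
  exact contDiffAt_const.mul (h2.clm_apply contDiffAt_const)

theorem alc_eq (hB : Bl M) (p : (spG 𝒜).Plot k) (i : Fin k) (u : V k) : alc p i u =
    ⟪𝒜.vel (p.1 u).1 0, fderiv ℝ (fun v => 𝒜.ψ ((p.1 u).1 0) ((p.1 v).1 0)) u (Pi.single i 1)⟫ / (2 * π) := by
  have hp : SmG 𝒜 p.1 := p.2
  have h1 : SmAt 𝒜 (fun z : V k × V k => (p.1 z.1).1 0) (u, u) :=
    SmAt.comp (g := fun v => (p.1 v).1 0) (f := Prod.fst) (hp.1 u) contDiffAt_fst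
  have h2 : SmAt 𝒜 (fun z : V k × V k => (p.1 z.2).1 (π / 2)) (u, u) :=
    SmAt.comp (g := fun v => (p.1 v).1 (π / 2)) (f := Prod.snd) (hp.2 u) contDiffAt_snd
  have hd : dist ((p.1 u).1 0) ((p.1 u).1 (π / 2)) = π / 2 := by
    have := gs_dist (p.1 u) 0
    rwa [zero_add] at this
  have h3 := al_fderiv hB h1 h2 (by simp only [hd]; positivity) (by simp only [hd]; linarith [Real.pi_pos])
    ((Pi.single i 1, 0) : V k × V k)
  have h4 : fderiv ℝ (fun z : V k × V k => 𝒜.ψ ((p.1 u).1 0) ((p.1 z.1).1 0)) (u, u) (Pi.single i 1, 0) =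
      fderiv ℝ (fun v => 𝒜.ψ ((p.1 u).1 0) ((p.1 v).1 0)) u (Pi.single i 1) := by
    have h5 := ((hp.1 u).2.differentiableAt (by simp)).hasFDerivAt
    have h6 : HasFDerivAt (fun z : V k × V k => 𝒜.ψ ((p.1 u).1 0) ((p.1 z.1).1 0))
        ((fderiv ℝ (fun v => 𝒜.ψ ((p.1 u).1 0) ((p.1 v).1 0)) u).comp (ContinuousLinearMap.fst ℝ (V k) (V k)))
        (u, u) := HasFDerivAt.comp (g := fun v => 𝒜.ψ ((p.1 u).1 0) ((p.1 v).1 0)) (f := Prod.fst) (u, u) h5
          hasFDerivAt_fst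
    rw [h6.fderiv]
    rfl
  have h5 : fderiv ℝ (fun z : V k × V k => 𝒜.ψ ((p.1 u).1 (π / 2)) ((p.1 z.2).1 (π / 2))) (u, u)
      (Pi.single i 1, 0) = 0 := by
    have h5 := ((hp.2 u).2.differentiableAt (by simp)).hasFDerivAt
    have h6 : HasFDerivAt (fun z : V k × V k => 𝒜.ψ ((p.1 u).1 (π / 2)) ((p.1 z.2).1 (π / 2)))
        ((fderiv ℝ (fun v => 𝒜.ψ ((p.1 u).1 (π / 2)) ((p.1 v).1 (π / 2))) u).comp
          (ContinuousLinearMap.snd ℝ (V k) (V k)))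
        (u, u) := HasFDerivAt.comp (g := fun v => 𝒜.ψ ((p.1 u).1 (π / 2)) ((p.1 v).1 (π / 2)))
          (f := Prod.snd) (u, u) h5 hasFDerivAt_snd
    rw [h6.fderiv, ContinuousLinearMap.comp_apply]
    exact map_zero _
  simp only at h3
  have h6 := D1_forward 𝒜 hB (p.1 u).2 (s := 0) (t := π / 2) (by positivity) (by linarith [Real.pi_pos])
    (fderiv ℝ (fun v => 𝒜.ψ ((p.1 u).1 0) ((p.1 v).1 0)) u (Pi.single i 1))
  rw [zero_add] at h6
  unfold alc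
  rw [h3, h4, h5, map_zero, add_zero, h6]
  ring

theorem al_vec (w : V k) : w = ∑ j, w j • (Pi.single j (1 : ℝ) : V k) := by
  ext a
  simp [Finset.sum_apply, Pi.single_apply]

/-- naturality of the coefficients -/
theorem alc_cmp (hB : Bl M) (p : (spG 𝒜).Plot l) (g : FR.Sm k l) (i : Fin k) (u : V k) :
    alc (p.cmp g) i u = ∑ j, alc p j (g u) * (pd i (g.cp j) : V k → ℝ) u := by
  have hp : SmG 𝒜 p.1 := p.2
  have h1 := ((hp.1 (g u)).2.differentiableAt (by simp)).hasFDerivAt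
  have h2 : HasFDerivAt (fun v => 𝒜.ψ ((p.1 (g u)).1 0) ((p.1 (g v)).1 0))
      ((fderiv ℝ (fun v => 𝒜.ψ ((p.1 (g u)).1 0) ((p.1 v).1 0)) (g u)).comp (fderiv ℝ (g : V k → V l) u)) u :=
    h1.comp u (g.diff u).hasFDerivAt
  have h3 : ∀ j, (pd i (g.cp j) : V k → ℝ) u = fderiv ℝ (g : V k → V l) u (Pi.single i 1) j := by
    intro j
    have h3 := hasFDerivAt_pi'.1 (g.diff u).hasFDerivAt j
    rw [pd_apply]
    change fderiv ℝ (fun y => g y j) u (Pi.single i 1) = _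
    rw [h3.fderiv]
    rfl
  rw [alc_eq hB]
  change ⟪𝒜.vel (p.1 (g u)).1 0, fderiv ℝ (fun v => 𝒜.ψ ((p.1 (g u)).1 0) ((p.1 (g v)).1 0)) u (Pi.single i 1)⟫ /
    (2 * π) = _
  rw [h2.fderiv, ContinuousLinearMap.comp_apply]
  conv_lhs => rw [al_vec (fderiv ℝ (g : V k → V l) u (Pi.single i 1)), map_sum, inner_sum, Finset.sum_div]
  refine Finset.sum_congr rfl fun j _ => ?_
  rw [alc_eq hB, map_smul, inner_smul_right, h3]
  ring

/-- the contact form, divided by `2 π` -/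
def AL (hB : Bl M) (𝒜 : SDist n M) : Om (spG 𝒜) :=
  mkO (fun k p => ∑ i, fc k (mkC (alc p i) (alc_smooth hB p i)) * dx i) (fun k l p g => by
    refine ev_ext fun u => ?_
    rw [ev_pb]
    have h1 : ∀ (k : ℕ) (p : (spG 𝒜).Plot k) (u : V k),
        ev u (∑ i, fc k (mkC (alc p i) (alc_smooth hB p i)) * dx i) = ExteriorAlgebra.ι ℝ (fun i => alc p i u) := by
      intro k p u
      rw [map_sum, ι_eq]
      refine Finset.sum_congr rfl fun i _ => ?_
      rw [map_mul, ev_fc, dx, ev_cf, mkC_apply, Algebra.smul_def]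
    rw [h1, h1, ExteriorAlgebra.map_apply_ι]
    congr 1
    funext i
    exact alc_cmp hB p g i u)

variable (hB : Bl M)

theorem on_AL (p : (spG 𝒜).Plot k) : Om.on (AL hB 𝒜) p = ∑ i, fc k (mkC (alc p i) (alc_smooth hB p i)) * dx i := rfl

/-- value of the contact form -/
theorem ev_AL (p : (spG 𝒜).Plot k) (u : V k) : ev u (Om.on (AL hB 𝒜) p) =
    ∑ i, (⟪𝒜.vel (p.1 u).1 0, fderiv ℝ (fun v => 𝒜.ψ ((p.1 u).1 0) ((p.1 v).1 0)) u (Pi.single i 1)⟫ / (2 * π)) •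
      ee i := by
  rw [on_AL, map_sum]
  refine Finset.sum_congr rfl fun i _ => ?_
  rw [map_mul, ev_fc, dx, ev_cf, mkC_apply, Algebra.smul_def, alc_eq hB]

theorem al_sum {j : ℕ} {ι : Type} (s : Finset ι) {f : ι → Fm k} (h : ∀ i, Dg j (f i)) : Dg j (∑ i ∈ s, f i) := by
  classical
  induction s using Finset.induction_on with
  | empty =>
    rw [Finset.sum_empty]
    exact Dg_zero
  | insert a s ha ih =>
    rw [Finset.sum_insert ha]
    exact Dg_add (h a) ih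

theorem al_dg (f : Cs k) (i : Fin k) : Dg 1 (fc k f * dx i) := by
  have h := Dg_mul (Dg_fc f) (Dg_dx i)
  rwa [zero_add] at h

theorem AL_deg : Deg 1 (AL hB 𝒜) := by
  intro k p
  rw [on_AL]
  exact al_sum _ fun i => al_dg _ i

theorem al_phi (c : Gs M) (s r : ℝ) : ((phiF (𝒜 := 𝒜) hB).1 (c, s) : Gs M).1 r = c.1 (r + 2 * π * s) := rfl

theorem al_zero (c : Gs M) : (phiF (𝒜 := 𝒜) hB).1 (c, 0) = c := by
  refine Subtype.ext (funext fun t => ?_)
  rw [al_phi, mul_zero, add_zero]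

theorem al_add (c : Gs M) (s t : ℝ) :
    (phiF (𝒜 := 𝒜) hB).1 ((phiF (𝒜 := 𝒜) hB).1 (c, s), t) = (phiF (𝒜 := 𝒜) hB).1 (c, s + t) := by
  refine Subtype.ext (funext fun r => ?_)
  rw [al_phi, al_phi, al_phi]
  ring_nf

theorem al_one (c : Gs M) (s : ℝ) : (phiF (𝒜 := 𝒜) hB).1 (c, s + 1) = (phiF (𝒜 := 𝒜) hB).1 (c, s) := by
  refine Subtype.ext (funext fun r => ?_)
  rw [al_phi, al_phi, ← IsGeo.closed 𝒜 hB c.2 (r + 2 * π * s)]
  ring_nf

/-- the geodesic flow as a circle action -/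
def circPhi (hB : Bl M) (𝒜 : SDist n M) : Circ (spG 𝒜) where
  a := phiF hB
  zero := al_zero hB
  add := al_add hB
  one := al_one hB

theorem al_inv_small {t : ℝ} (h0 : 0 < t) (h1 : t < 1 / 2) :
    ((circPhi hB 𝒜).at t).pull (AL hB 𝒜) = AL hB 𝒜 := by
  refine Om_ext fun k p => ev_ext fun u => ?_
  rw [on_pull, ev_AL, ev_AL]
  refine Finset.sum_congr rfl fun i _ => ?_
  congr 2
  have h2 := al_const hB (σ := p.1) p.2 u (s := 0) (t := 2 * π * t) (by positivity) (by nlinarith [Real.pi_pos])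
    (Pi.single i 1)
  rw [← h2]
  have h3 : ∀ v : V k, ((((circPhi hB 𝒜).at t).pl p).1 v).1 0 = (p.1 v).1 (0 + 2 * π * t) := fun v => rfl
  have h4 : 𝒜.vel ((((circPhi hB 𝒜).at t).pl p).1 u).1 0 = 𝒜.vel (p.1 u).1 (0 + 2 * π * t) :=
    vel_shift 𝒜 (c := (p.1 u).1) (2 * π * t) 0
  rw [h4]
  simp only [h3]

theorem al_at_add (s t : ℝ) : (circPhi hB 𝒜).at (s + t) = ((circPhi hB 𝒜).at t).comp ((circPhi hB 𝒜).at s) :=
  SMap_ext fun c => ((circPhi hB 𝒜).add c s t).symm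

theorem al_at_zero : (circPhi hB 𝒜).at 0 = SMap.id _ := SMap_ext fun c => (circPhi hB 𝒜).zero c

/-- the contact form is invariant -/
theorem AL_inv : Inv (circPhi hB 𝒜) (AL hB 𝒜) := by
  have hn : ∀ (m : ℕ) (s : ℝ), ((circPhi hB 𝒜).at s).pull (AL hB 𝒜) = AL hB 𝒜 →
      ((circPhi hB 𝒜).at (m * s)).pull (AL hB 𝒜) = AL hB 𝒜 := by
    intro m s hs
    induction m with
    | zero => rw [Nat.cast_zero, zero_mul, al_at_zero, pull_id]
    | succ m ih =>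
      have h1 : ((m + 1 : ℕ) : ℝ) * s = m * s + s := by
        push_cast
        ring
      rw [h1, al_at_add, pull_comp, hs, ih]
  have hpos : ∀ t : ℝ, 0 < t → ((circPhi hB 𝒜).at t).pull (AL hB 𝒜) = AL hB 𝒜 := by
    intro t ht
    obtain ⟨m, hm⟩ := exists_nat_gt (2 * t)
    have hm0 : (0 : ℝ) < m := by linarith
    have h1 : (m : ℝ) * (t / m) = t := by field_simp
    rw [← h1]
    refine hn m _ (al_inv_small hB (by positivity) ?_)
    rw [div_lt_iff₀ hm0]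
    linarith
  intro t
  rcases lt_trichotomy t 0 with h | h | h
  · have h1 := hpos (-t) (by linarith)
    have h2 : ((circPhi hB 𝒜).at (-t + t)).pull (AL hB 𝒜) = AL hB 𝒜 := by
      rw [neg_add_cancel, al_at_zero, pull_id]
    have h3 : ((circPhi hB 𝒜).at (t + -t)).pull (AL hB 𝒜) = AL hB 𝒜 := by
      rw [add_neg_cancel, al_at_zero, pull_id]
    rw [al_at_add, pull_comp, h1] at h3
    exact h3
  · rw [h, al_at_zero, pull_id]
  · exact hpos t h

/-- the contact form is normalised -/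
theorem AL_i : iO (circPhi hB 𝒜) (AL hB 𝒜) = 1 := by
  refine Om_ext fun k p => ?_
  rw [on_i, on_AL, map_sum, on_one]
  have h1 : ∀ i : Fin (k + 1), cs k (fc (k + 1) (mkC (alc ((circPhi hB 𝒜).op p) i)
      (alc_smooth hB ((circPhi hB 𝒜).op p) i)) * dx i) =
      if i = Fin.last k then fc (k + 1) (mkC (alc ((circPhi hB 𝒜).op p) i)
        (alc_smooth hB ((circPhi hB 𝒜).op p) i)) else 0 := by
    intro i
    rw [cs, cn_mul, cn_fc, zero_mul, zero_add, cn_dx, sg_fc, lst_apply]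
    by_cases h : i = Fin.last k
    · rw [if_pos h, h, Pi.single_eq_same, map_one, mul_one]
    · rw [if_neg h, Pi.single_eq_of_ne (Ne.symm h), map_zero, mul_zero]
  simp only [h1]
  rw [Finset.sum_ite_eq', if_pos (Finset.mem_univ _), pb_fc]
  have h2 : (sl k 0).pull (mkC (alc ((circPhi hB 𝒜).op p) (Fin.last k))
      (alc_smooth hB ((circPhi hB 𝒜).op p) (Fin.last k))) = 1 := by
    apply Cs_ext
    intro u
    change alc ((circPhi hB 𝒜).op p) (Fin.last k) (Fin.snoc u 0) = 1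
    rw [alc_eq hB]
    set z : V (k + 1) := Fin.snoc u 0 with hz
    have hop : ∀ z : V (k + 1), (((circPhi hB 𝒜).op p).1 z).1 0 = (p.1 (pr k z)).1 (0 + 2 * π * z (Fin.last k)) :=
      fun z => rfl
    have hvel : 𝒜.vel (((circPhi hB 𝒜).op p).1 z).1 0 =
        𝒜.vel (p.1 (pr k z)).1 (0 + 2 * π * z (Fin.last k)) :=
      vel_shift 𝒜 (c := (p.1 (pr k z)).1) (2 * π * z (Fin.last k)) 0
    rw [hvel]
    simp only [hop]
    have hzl : z (Fin.last k) = 0 := Fin.snoc_last (α := fun _ => ℝ) _ _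
    have hzp : pr k z = u := pr_snoc u 0
    -- the curve `s ↦ snoc u s`
    have hsm : SmG 𝒜 p.1 := p.2
    have h3 : SmAt 𝒜 (fun z : V (k + 1) => (p.1 (pr k z)).1 (0 + 2 * π * z (Fin.last k))) z := by
      have h4 : SmG 𝒜 (fun z : V (k + 1) => p.1 (pr k z)) := hsm.comp (pr k).smooth
      exact h4.ev' hB (t := fun z : V (k + 1) => 0 + 2 * π * z (Fin.last k))
        (contDiff_const.add (contDiff_const.mul (contDiff_apply ℝ ℝ (Fin.last k)))) z
    have h4 := (h3.2.differentiableAt (by simp)).hasFDerivAt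
    have h5 : HasDerivAt (fun s : ℝ => (Fin.snoc u s : V (k + 1))) (Pi.single (Fin.last k) 1) 0 :=
      hasDerivAt_snoc u 0
    have h6 := HasFDerivAt.comp_hasDerivAt (f := fun s : ℝ => (Fin.snoc u s : V (k + 1))) (0 : ℝ) h4 h5
    have h7 : (fun v : V (k + 1) => 𝒜.ψ ((p.1 (pr k z)).1 (0 + 2 * π * z (Fin.last k)))
        ((p.1 (pr k v)).1 (0 + 2 * π * v (Fin.last k)))) ∘ (fun s : ℝ => (Fin.snoc u s : V (k + 1))) =
        fun s : ℝ => 𝒜.ψ ((p.1 u).1 0) ((p.1 u).1 (2 * π * s)) := by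
      funext s
      simp only [Function.comp]
      rw [hzl, hzp, pr_snoc, Fin.snoc_last]
      simp only [mul_zero, add_zero, zero_add]
    rw [h7] at h6
    have h8 : HasDerivAt (fun s : ℝ => 𝒜.ψ ((p.1 u).1 0) ((p.1 u).1 (2 * π * s))) ((2 * π) • 𝒜.vel (p.1 u).1 0) 0 := by
      have h9 := (IsGeo.exists_vel 𝒜 (p.1 u).2 0).2
      have h10 : HasDerivAt (fun s : ℝ => 2 * π * s) (2 * π) 0 := by
        have := (hasDerivAt_id (0 : ℝ)).const_mul (2 * π)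
        rwa [mul_one] at this
      have h11 : HasDerivAt (fun t => 𝒜.ψ ((p.1 u).1 0) ((p.1 u).1 t)) (𝒜.vel (p.1 u).1 0) (2 * π * 0) := by
        rw [mul_zero]
        exact h9
      exact HasDerivAt.scomp (g₁ := fun t => 𝒜.ψ ((p.1 u).1 0) ((p.1 u).1 t)) (h := fun s : ℝ => 2 * π * s)
        (0 : ℝ) h11 h10
    rw [h6.unique h8, hzl, hzp, mul_zero, add_zero, inner_smul_right, real_inner_self_eq_norm_sq,
      (IsGeo.exists_vel 𝒜 (p.1 u).2 0).1]
    field_simp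
  rw [h2, map_one]

/-- the derivative of the contact form is horizontal -/
theorem AL_id : iO (circPhi hB 𝒜) (dO _ (AL hB 𝒜)) = 0 := by
  have h := cartan (circPhi hB 𝒜) (AL_inv hB (𝒜 := 𝒜))
  rw [AL_i, d_one] at h
  exact neg_eq_zero.1 h.symm

/-- the contact form on pairs of points is the derivative of the distance in the first variable -/
theorem ev_AL_GW (p : (spW 𝒜).Plot k) (u : V k) : ev u (Om.on (AL hB 𝒜) ((GW hB).pl p)) =
    ∑ i, (-𝒜.D1 (p.1 u).1.1 (p.1 u).1.2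
      (fderiv ℝ (fun v => 𝒜.ψ (p.1 u).1.1 (p.1 v).1.1) u (Pi.single i 1)) / (2 * π)) • ee i := by
  rw [ev_AL]
  refine Finset.sum_congr rfl fun i _ => ?_
  have h0 : ∀ v, 0 < dist (p.1 v).1.1 (p.1 v).1.2 := fun v => (p.1 v).2.1
  have hne : ∀ v, (p.1 v).1.1 ≠ (p.1 v).1.2 := fun v => dist_pos.1 (h0 v)
  have hg : ∀ v, (((GW hB).pl p).1 v : Gs M).1 = gd (p.1 v).1.1 (p.1 v).1.2 := fun v => rfl
  have hx : ∀ v, (((GW hB).pl p).1 v : Gs M).1 0 = (p.1 v).1.1 := fun v => by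
    rw [hg]
    exact (gd_spec 𝒜 hB (hne v)).2.1
  have hy : (((GW hB).pl p).1 u : Gs M).1 (0 + dist (p.1 u).1.1 (p.1 u).1.2) = (p.1 u).1.2 := by
    rw [hg, zero_add]
    exact (gd_spec 𝒜 hB (hne u)).2.2
  have h2 := D1_forward 𝒜 hB (((GW hB).pl p).1 u : Gs M).2 (s := 0) (h0 u) (p.1 u).2.2
    (fderiv ℝ (fun v => 𝒜.ψ (p.1 u).1.1 (p.1 v).1.1) u (Pi.single i 1))
  rw [hx, hy] at h2
  rw [h2, neg_neg]
  simp only [hx]

/-- reversing the geodesics -/
def revF (hB : Bl M) : SMap (spG 𝒜) (spG 𝒜) := ⟨fun c => rev (M := M) c, fun _ p => SmG.rev hB p.2⟩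

theorem AL_rev : (revF hB).pull (AL hB 𝒜) = -AL hB 𝒜 := by
  refine Om_ext fun k p => ev_ext fun u => ?_
  rw [on_pull, on_neg, map_neg, ev_AL, ev_AL, ← Finset.sum_neg_distrib]
  refine Finset.sum_congr rfl fun i _ => ?_
  have h1 : ∀ v, (((revF hB).pl p).1 v : Gs M).1 0 = (p.1 v : Gs M).1 0 := fun v => by
    change (p.1 v : Gs M).1 (-0) = _
    rw [neg_zero]
  have h2 : 𝒜.vel (((revF hB).pl p).1 u : Gs M).1 0 = -𝒜.vel (p.1 u : Gs M).1 0 := by
    have := vel_rev 𝒜 (p.1 u : Gs M).2 0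
    rw [neg_zero] at this
    exact this
  rw [h2, inner_neg_left, neg_div, neg_smul]
  simp only [h1]

end Pool.Agent.Lib.MP_ccbbf6_gt.L4
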