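import Pool.Agent.Lib.MP_ccbbf6_gt.L4.FRc

/-!
# Level 4, forms on `R^k`, part t: top coefficient, coefficients, Stokes on `R^k` (helper5)
-/

set_option autoImplicit false
set_option maxSynthPendingDepth 3

open Set Filter Topology MeasureTheory
open scoped TensorProduct ContDiff

noncomputable section

namespace Pool.Agent.Lib.MP_ccbbf6_gt.L4.FR

variable {k l n : ℕ}

/-! ### The top coefficient on the exterior algebra -/

/-- the coefficient of `dx_1 ... dx_k` -/
def topE (k : ℕ) : Ex k →ₗ[ℝ] ℝ :=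
  ExteriorAlgebra.liftAlternating
    (Pi.single k (Matrix.detRowAlternating : (V k) [⋀^Fin k]→ₗ[ℝ] ℝ) : ∀ i, (V k) [⋀^Fin i]→ₗ[ℝ] ℝ)

lemma topE_ιMulti (v : Fin k → V k) : topE k (ExteriorAlgebra.ιMulti ℝ k v) = Matrix.det (Matrix.of v) := by
  unfold topE
  rw [ExteriorAlgebra.liftAlternating_apply_ιMulti, Pi.single_eq_same]
  rfl

lemma topE_ιMulti_ne {i : ℕ} (h : i ≠ k) (v : Fin i → V k) : topE k (ExteriorAlgebra.ιMulti ℝ i v) = 0 := by
  unfold topE
  rw [ExteriorAlgebra.liftAlternating_apply_ιMulti, Pi.single_eq_of_ne h]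
  rfl

/-- products of more than `k` covectors vanish -/
lemma ιMulti_eq_zero {i : ℕ} (h : k < i) (v : Fin i → V k) : ExteriorAlgebra.ιMulti ℝ i v = 0 := by
  refine AlternatingMap.map_linearDependent _ v ?_
  intro hli
  have h1 := hli.fintype_card_le_finrank
  rw [Fintype.card_fin, Module.finrank_fin_fun] at h1
  omega

/-- determinant rule -/
lemma topE_map (A : V k →ₗ[ℝ] V k) (x : Ex k) : topE k (ExteriorAlgebra.map A x) = LinearMap.det A * topE k x := by
  have h : (topE k).comp (ExteriorAlgebra.map A).toLinearMap = (LinearMap.det A) • topE k := by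
    refine ExteriorAlgebra.lhom_ext fun i => ?_
    ext v
    change topE k (ExteriorAlgebra.map A (ExteriorAlgebra.ιMulti ℝ i v)) =
      LinearMap.det A * topE k (ExteriorAlgebra.ιMulti ℝ i v)
    rw [ExteriorAlgebra.map_apply_ιMulti]
    by_cases hi : i = k
    · subst hi
      rw [topE_ιMulti, topE_ιMulti]
      have h1 : (Matrix.of (A ∘ v)) = Matrix.of v * (LinearMap.toMatrix' A).transpose := by
        ext a b
        rw [Matrix.mul_apply]
        change A (v a) b = ∑ j, v a j * (LinearMap.toMatrix' A) b j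
        have h2 : A (v a) = (LinearMap.toMatrix' A).mulVec (v a) := by
          rw [LinearMap.toMatrix'_mulVec]
        rw [h2, Matrix.mulVec, dotProduct]
        exact Finset.sum_congr rfl fun j _ => mul_comm _ _
      rw [h1, Matrix.det_mul, Matrix.det_transpose, LinearMap.det_toMatrix', mul_comm]
    · rw [topE_ιMulti_ne hi, topE_ιMulti_ne hi, mul_zero]
  exact LinearMap.congr_fun h x

/-- contraction and maps of covectors -/
lemma ctr_map (φ : V k →ₗ[ℝ] ℝ) (A : V l →ₗ[ℝ] V k) (x : Ex l) :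
    ctr φ (ExteriorAlgebra.map A x) = ExteriorAlgebra.map A (ctr (φ.comp A) x) := by
  induction x using CliffordAlgebra.left_induction with
  | algebraMap r =>
    change ctr φ (ExteriorAlgebra.map A (algebraMap ℝ (Ex l) r)) = ExteriorAlgebra.map A (ctr _ (algebraMap ℝ (Ex l) r))
    rw [AlgHom.commutes, ctr_algebraMap, ctr_algebraMap, map_zero]
  | add x y hx hy => simp only [map_add, hx, hy]
  | ι_mul x v hx =>
    change ctr φ (ExteriorAlgebra.map A (ExteriorAlgebra.ι ℝ v * x)) =
      ExteriorAlgebra.map A (ctr _ (ExteriorAlgebra.ι ℝ v * x))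
    rw [map_mul, ExteriorAlgebra.map_apply_ι, ctr_ι_mul, ctr_ι_mul, hx, map_sub, map_smul, map_mul,
      ExteriorAlgebra.map_apply_ι]
    rfl

/-- the top coefficient of a contraction vanishes -/
lemma topE_ctr (φ : V k →ₗ[ℝ] ℝ) (x : Ex k) : topE k (ctr φ x) = 0 := by
  have h : (topE k).comp (ctr φ) = 0 := by
    refine ExteriorAlgebra.lhom_ext fun i => ?_
    ext v
    change topE k (ctr φ (ExteriorAlgebra.ιMulti ℝ i v)) = 0
    rcases lt_or_ge k i with hi | hi
    · rw [ιMulti_eq_zero hi, map_zero, map_zero]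
    -- scaling by `2`
    obtain ⟨A, hA⟩ : ∃ A : V k →ₗ[ℝ] V k, A = (2 : ℝ) • LinearMap.id := ⟨_, rfl⟩
    have h1 : ExteriorAlgebra.map A (ExteriorAlgebra.ιMulti ℝ i v) = (2 : ℝ) ^ i • ExteriorAlgebra.ιMulti ℝ i v := by
      rw [ExteriorAlgebra.map_apply_ιMulti]
      have h2 : (A ∘ v) = fun j => (2 : ℝ) • v j := by
        funext j
        rw [hA]
        rfl
      have h3 := (ExteriorAlgebra.ιMulti ℝ i (M := V k)).toMultilinearMap.map_smul_univ (fun _ => (2 : ℝ)) v
      rw [Finset.prod_const, Finset.card_univ, Fintype.card_fin] at h3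
      rw [h2]
      exact h3
    have h2 : φ.comp A = (2 : ℝ) • φ := by
      rw [hA]
      ext j
      simp
    have h3 : ∀ (c : ℝ) (y : Ex k), ctr (c • φ) y = c • ctr φ y := by
      intro c y
      exact LinearMap.congr_fun ((CliffordAlgebra.contractLeft (Q := (0 : QuadraticForm ℝ (V k)))).map_smul c φ) y
    have h4 := topE_map A (ctr φ (ExteriorAlgebra.ιMulti ℝ i v))
    have h5 := ctr_map φ A (ExteriorAlgebra.ιMulti ℝ i v)
    rw [h1, map_smul, h2, h3, map_smul] at h5
    have h6 := congrArg (topE k) h5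
    rw [map_smul, map_smul, h4, smul_eq_mul, smul_eq_mul] at h6
    have h7 : LinearMap.det A = (2 : ℝ) ^ k := by
      rw [hA, LinearMap.det_smul, Module.finrank_fin_fun, LinearMap.det_id, mul_one]
    rw [h7] at h6
    have h8 : (2 : ℝ) ^ i < 2 * 2 ^ k := by
      have : (2 : ℝ) ^ i ≤ 2 ^ k := pow_le_pow_right₀ (by norm_num) hi
      have h9 : (0 : ℝ) < 2 ^ k := by positivity
      linarith
    have h10 : (2 * 2 ^ k - (2 : ℝ) ^ i) * topE k (ctr φ (ExteriorAlgebra.ιMulti ℝ i v)) = 0 := by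
      linarith
    rcases mul_eq_zero.1 h10 with h11 | h11
    · linarith
    · exact h11
  exact LinearMap.congr_fun h x

/-- an element killed by a nonzero contraction has no top coefficient -/
lemma topE_eq_zero_of_ctr {φ : V k →ₗ[ℝ] ℝ} (hφ : φ ≠ 0) {x : Ex k} (hx : ctr φ x = 0) : topE k x = 0 := by
  obtain ⟨v, hv⟩ : ∃ v, φ v ≠ 0 := by
    by_contra h
    push Not at h
    exact hφ (LinearMap.ext h)
  have h1 := ctr_ι_mul φ v x
  rw [hx, mul_zero, sub_zero] at h1
  have h2 := topE_ctr φ (ExteriorAlgebra.ι ℝ v * x)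
  rw [h1, map_smul, smul_eq_mul] at h2
  exact (mul_eq_zero.1 h2).resolve_left hv

/-- a factor `ι w` with a contraction -/
lemma topE_ι_mul (φ : V k →ₗ[ℝ] ℝ) (v : V k) (x : Ex k) :
    φ v * topE k x = topE k (ExteriorAlgebra.ι ℝ v * ctr φ x) := by
  have h1 := topE_ctr φ (ExteriorAlgebra.ι ℝ v * x)
  rw [ctr_ι_mul, map_sub, map_smul, smul_eq_mul] at h1
  linarith

/-! ### Coefficients of forms -/

/-- the coefficient of a form with respect to a linear form on the exterior algebra -/
def cof (L : Ex k →ₗ[ℝ] ℝ) : Fm k →ₗ[ℝ] Cs k :=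
  (TensorProduct.lift (LinearMap.mk₂ ℝ (fun (f : Cs k) (a : Ex k) => L a • f)
    (fun f g a => smul_add _ _ _) (fun c f a => smul_comm _ _ _)
    (fun f a b => by rw [map_add, add_smul]) (fun c f a => by rw [map_smul, smul_assoc])) :
    Cs k ⊗[ℝ] Ex k →ₗ[ℝ] Cs k)

lemma cof_tm (L : Ex k →ₗ[ℝ] ℝ) (f : Cs k) (a : Ex k) : cof L (tm f a) = L a • f := rfl

lemma cof_apply (L : Ex k →ₗ[ℝ] ℝ) (θ : Fm k) (x : V k) : (cof L θ : V k → ℝ) x = L (ev x θ) := by
  induction θ using Fm_tind with
  | hf f a =>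
    rw [cof_tm, ev_tm, map_smul]
    change L a * (f : V k → ℝ) x = (f : V k → ℝ) x * L a
    exact mul_comm _ _
  | ha y z hy hz =>
    rw [map_add, map_add, map_add, ← hy, ← hz]
    rfl

/-- coefficients are smooth functions -/
lemma contDiff_coef (L : Ex k →ₗ[ℝ] ℝ) (θ : Fm k) : ContDiff ℝ ∞ fun x => L (ev x θ) := by
  have h : (fun x => L (ev x θ)) = (cof L θ : V k → ℝ) := funext fun x => (cof_apply L θ x).symm
  rw [h]
  exact Cs_smooth _

/-- top coefficient -/
def tp (k : ℕ) : Fm k →ₗ[ℝ] Cs k := cof (topE k)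

lemma tp_apply (θ : Fm k) (x : V k) : (tp k θ : V k → ℝ) x = topE k (ev x θ) := cof_apply _ _ _

/-- the top coefficient of `dθ` is a divergence -/
lemma tp_dd (θ : Fm k) : tp k (dd k θ) = ∑ i, pd i (cof ((topE k).comp (LinearMap.mulLeft ℝ (ee i))) θ) := by
  induction θ using Fm_tind with
  | hf f a =>
    rw [dd_tm, map_sum]
    refine Finset.sum_congr rfl fun i _ => ?_
    rw [tp, cof_tm, cof_tm, map_smul]
    rfl
  | ha y z hy hz =>
    simp only [map_add, hy, hz, Finset.sum_add_distrib]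

lemma det_tr (g : Sm k k) (x : V k) : LinearMap.det (tr g x) = (fderiv ℝ (g : V k → V k) x).det := by
  have h1 : ∀ i j, (pd i (g.cp j) : V k → ℝ) x = fderiv ℝ (g : V k → V k) x (Pi.single i 1) j := by
    intro i j
    rw [pd_apply]
    change fderiv ℝ (fun y => g y j) x (Pi.single i 1) = _
    rw [(hasFDerivAt_pi'.1 (g.diff x).hasFDerivAt j).fderiv]
    rfl
  have h2 : LinearMap.toMatrix' (tr g x) =
      (LinearMap.toMatrix' (fderiv ℝ (g : V k → V k) x : V k →ₗ[ℝ] V k)).transpose := by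
    ext i j
    rw [Matrix.transpose_apply, LinearMap.toMatrix'_apply, LinearMap.toMatrix'_apply]
    change ∑ j', (Pi.single j (1 : ℝ) : V k) j' * (pd i (g.cp j') : V k → ℝ) x = _
    rw [Finset.sum_eq_single j]
    · rw [Pi.single_eq_same, one_mul, h1]
      rfl
    · intro b _ hb
      rw [Pi.single_eq_of_ne hb, zero_mul]
    · intro h
      exact absurd (Finset.mem_univ j) h
  rw [← LinearMap.det_toMatrix', h2, Matrix.det_transpose, LinearMap.det_toMatrix']

/-- top coefficient of a pullback -/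
lemma tp_pb (g : Sm k k) (θ : Fm k) (x : V k) :
    (tp k (pb g θ) : V k → ℝ) x = (fderiv ℝ (g : V k → V k) x).det * (tp k θ : V k → ℝ) (g x) := by
  rw [tp_apply, tp_apply, ev_pb, topE_map, det_tr]

/-! ### Stokes on `R^k` -/

/-- the integral of a partial derivative of a function with compact support vanishes -/
lemma integral_pd_eq_zero {f : V k → ℝ} (hf : ContDiff ℝ 1 f) (hc : HasCompactSupport f) (v : V k) :
    ∫ x, fderiv ℝ f x v = 0 := by
  have h1 : Integrable (fun x => fderiv ℝ f x v) := by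
    have h2 : Continuous fun x => fderiv ℝ f x v := (hf.continuous_fderiv one_ne_zero).clm_apply continuous_const
    exact h2.integrable_of_hasCompactSupport (hc.fderiv_apply ℝ v)
  have h := integral_mul_fderiv_eq_neg_fderiv_mul_of_integrable (μ := (volume : Measure (V k)))
    (f := fun _ : V k => (1 : ℝ)) (g := f) (v := v) (by simp) (by simpa using h1)
    (by simpa using hf.continuous.integrable_of_hasCompactSupport hc)
    (fun x _ => differentiableAt_const 1) (fun x _ => hf.differentiable one_ne_zero x)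
  simpa using h

/-- **Stokes on `R^k`**: `θ` has compact support inside the open set `Ω`, on which `σ` is locally constant. -/
theorem stokes {Ω K : Set (V k)} (hK : IsCompact K) (hKΩ : K ⊆ Ω) {σ : V k → ℝ}
    (hσ : ∀ x ∈ Ω, ∀ᶠ y in 𝓝 x, σ y = σ x) (θ : Fm k) (h0 : ∀ x ∉ K, ev x θ = 0) :
    ∫ x, σ x * (tp k (dd k θ) : V k → ℝ) x = 0 := by
  classical
  -- the coefficients
  set c : Fin k → Cs k := fun i => cof ((topE k).comp (LinearMap.mulLeft ℝ (ee i))) θ with hcdef
  have hc0 : ∀ i, ∀ x ∉ K, (c i : V k → ℝ) x = 0 := by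
    intro i x hx
    rw [hcdef, cof_apply, h0 x hx, map_zero]
  set g : Fin k → V k → ℝ := fun i x => σ x * (c i : V k → ℝ) x with hg
  have hg0 : ∀ i, ∀ x ∉ K, g i x = 0 := fun i x hx => by
    change σ x * (c i : V k → ℝ) x = 0
    rw [hc0 i x hx, mul_zero]
  have hloc : ∀ x, (∃ s : ℝ, ∀ i, g i =ᶠ[𝓝 x] fun y => s * (c i : V k → ℝ) y) := by
    intro x
    by_cases hx : x ∈ Ω
    · refine ⟨σ x, fun i => ?_⟩
      filter_upwards [hσ x hx] with y hy
      change σ y * _ = _
      rw [hy]
    · have hxK : x ∉ K := fun h => hx (hKΩ h)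
      refine ⟨0, fun i => ?_⟩
      filter_upwards [hK.isClosed.isOpen_compl.mem_nhds hxK] with y hy
      rw [hg0 i y hy, zero_mul]
  have hsm : ∀ i, ContDiff ℝ 1 (g i) := by
    intro i
    rw [contDiff_iff_contDiffAt]
    intro x
    obtain ⟨s, hs⟩ := hloc x
    refine ContDiffAt.congr_of_eventuallyEq ?_ (hs i)
    exact (contDiff_const.mul ((Cs_smooth (c i)).of_le ENat.LEInfty.out)).contDiffAt
  have hcs : ∀ i, HasCompactSupport (g i) := fun i => HasCompactSupport.intro hK (hg0 i)
  have hder : ∀ x, σ x * (tp k (dd k θ) : V k → ℝ) x = ∑ i, fderiv ℝ (g i) x (Pi.single i 1) := by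
    intro x
    have h1 : (tp k (dd k θ) : V k → ℝ) x = ∑ i, fderiv ℝ (c i : V k → ℝ) x (Pi.single i 1) := by
      rw [tp_dd, AddSubmonoidClass.coe_finsetSum, Finset.sum_apply]
      rfl
    rw [h1, Finset.mul_sum]
    refine Finset.sum_congr rfl fun i _ => ?_
    by_cases hx : x ∈ Ω
    · have h2 : g i =ᶠ[𝓝 x] fun y => σ x * (c i : V k → ℝ) y := by
        filter_upwards [hσ x hx] with y hy
        change σ y * _ = _
        rw [hy]
      rw [h2.fderiv_eq, fderiv_const_mul (Cs_diff (c i) x)]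
      rfl
    · have hxK : x ∉ K := fun h => hx (hKΩ h)
      have h2 : g i =ᶠ[𝓝 x] fun _ => 0 := by
        filter_upwards [hK.isClosed.isOpen_compl.mem_nhds hxK] with y hy
        exact hg0 i y hy
      have h3 : (c i : V k → ℝ) =ᶠ[𝓝 x] fun _ => 0 := by
        filter_upwards [hK.isClosed.isOpen_compl.mem_nhds hxK] with y hy
        exact hc0 i y hy
      rw [h2.fderiv_eq, h3.fderiv_eq]
      simp
  simp only [hder]
  rw [integral_finsetSum]
  · exact Finset.sum_eq_zero fun i _ => integral_pd_eq_zero (hsm i) (hcs i) _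
  · intro i _
    have h1 : Continuous fun x => fderiv ℝ (g i) x (Pi.single i 1) :=
      ((hsm i).continuous_fderiv one_ne_zero).clm_apply continuous_const
    exact h1.integrable_of_hasCompactSupport ((hcs i).fderiv_apply ℝ _)

end Pool.Agent.Lib.MP_ccbbf6_gt.L4.FR
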