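import Pool.Agent.Lib.MP_ccbbf6_gt.L4.FRt
import Pool.Agent.Lib.MP_ccbbf6_gt.L4.Str

/-!
# Level 4: the cut-off connection form `BB e` on `ℝ^n` and its number `eps e`
-/

set_option autoImplicit false

open Set Filter Topology Metric Real
open scoped ContDiff RealInnerProductSpace

noncomputable section

namespace Pool.Agent.Lib.MP_ccbbf6_gt.L4

open Geo FR

/-- the angle `ψ(r)`: `0` for `r ≤ 1`, `π / 2` for `2 ≤ r` -/
def psa (r : ℝ) : ℝ := π / 2 * Real.smoothTransition (r - 1)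

/-- the cut-off `sin ^ 2 ψ`: `0` for `r ≤ 1`, `1` for `2 ≤ r` -/
def chi (r : ℝ) : ℝ := sin (psa r) ^ 2

theorem psa_zero {r : ℝ} (h : r ≤ 1) : psa r = 0 := by
  unfold psa
  rw [Real.smoothTransition.zero_of_nonpos (by linarith), mul_zero]

theorem psa_one {r : ℝ} (h : 2 ≤ r) : psa r = π / 2 := by
  unfold psa
  rw [Real.smoothTransition.one_of_one_le (by linarith), mul_one]

theorem contDiff_psa : ContDiff ℝ ∞ psa :=
  contDiff_const.mul (Real.smoothTransition.contDiff.comp (contDiff_id.sub contDiff_const))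

theorem chi_zero {r : ℝ} (h : r ≤ 1) : chi r = 0 := by
  unfold chi
  rw [psa_zero h, sin_zero, zero_pow two_ne_zero]

theorem chi_one {r : ℝ} (h : 2 ≤ r) : chi r = 1 := by
  unfold chi
  rw [psa_one h, sin_pi_div_two, one_pow]

theorem contDiff_chi : ContDiff ℝ ∞ chi := (contDiff_psa.sin).pow 2

/-- `ℝ^n` as a Euclidean space -/
def toE {n : ℕ} (x : V n) : Eu n := WithLp.toLp 2 x

theorem contDiff_toE {n : ℕ} : ContDiff ℝ ∞ (toE : V n → Eu n) :=
  (PiLp.continuousLinearEquiv 2 ℝ (fun _ : Fin n => ℝ)).symm.contDiff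

/-- coefficients of the cut-off connection form -/
def bco {n : ℕ} (e : Eu n → Eu n) (i : Fin n) (x : V n) : ℝ := chi ‖toE x‖ / (2 * π * ‖toE x‖) * e (toE x) i

theorem contDiff_bco {n : ℕ} {e : Eu n → Eu n} (he : GCF e) (i : Fin n) : ContDiff ℝ ∞ (bco e i) := by
  rw [contDiff_iff_contDiffAt]
  intro x
  by_cases hx : toE x = 0
  · have hE : (bco e i) =ᶠ[𝓝 x] fun _ => 0 := by
      have h1 : ∀ᶠ y in 𝓝 x, ‖toE y‖ < 1 := by
        have h2 : Continuous fun y : V n => ‖toE y‖ := contDiff_toE.continuous.norm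
        exact h2.continuousAt.eventually (gt_mem_nhds (by simp only [hx, norm_zero]; exact one_pos))
      filter_upwards [h1] with y hy
      unfold bco
      rw [chi_zero hy.le]
      simp
    exact contDiffAt_const.congr_of_eventuallyEq hE
  · have h1 : ContDiffAt ℝ ∞ (fun y : V n => ‖toE y‖) x := by
      have h2 : ContDiffAt ℝ ∞ (fun v : Eu n => ‖v‖) (toE x) := contDiffAt_norm ℝ hx
      exact h2.comp x contDiff_toE.contDiffAt
    have h3 : ContDiffAt ℝ ∞ (fun y : V n => e (toE y) i) x := by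
      have h4 : ContDiffAt ℝ ∞ (fun y : V n => e (toE y)) x := (he.smooth _ hx).comp x contDiff_toE.contDiffAt
      exact (EuclideanSpace.proj i : Eu n →L[ℝ] ℝ).contDiff.contDiffAt.comp x h4
    have h5 : ContDiffAt ℝ ∞ (fun y : V n => chi ‖toE y‖) x := contDiff_chi.contDiffAt.comp x h1
    unfold bco
    refine (h5.div (contDiffAt_const.mul h1) ?_).mul h3
    have : 0 < ‖toE x‖ := norm_pos_iff.2 hx
    positivity

open Classical in
/-- the cut-off connection form `χ(|x|) ⟨e(x), dx⟩ / (2π|x|)` -/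
def BB {n : ℕ} (e : Eu n → Eu n) : Fm n :=
  ∑ i, fc n (if h : ContDiff ℝ ∞ (bco e i) then mkC (bco e i) h else 0) * dx i

theorem BB_eq {n : ℕ} {e : Eu n → Eu n} (he : GCF e) : BB e = ∑ i, fc n (mkC (bco e i) (contDiff_bco he i)) * dx i := by
  unfold BB
  refine Finset.sum_congr rfl fun i _ => ?_
  rw [dif_pos (contDiff_bco he i)]

/-- the Euler number of the fibration, `n = 2 m` -/
def eps {n : ℕ} (m : ℕ) (e : Eu n → Eu n) : ℝ := ∫ x : V n, topE n (ev x ((dd n (BB e)) ^ m))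

end Pool.Agent.Lib.MP_ccbbf6_gt.L4
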