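import Pool.Agent.Lib.MP_ccbbf6_gt.L4.E6
import Pool.Agent.Lib.MP_ccbbf6_gt.L4.F4a

/-!
# Level 4, F4: change of connection on `spR n`
-/

set_option autoImplicit false

open Set Filter Topology MeasureTheory
open scoped TensorProduct ContDiff RealInnerProductSpace

noncomputable section

namespace Pool.Agent.Lib.MP_ccbbf6_gt.L4

open FR Geo

variable {n k : ℕ}

/-- `d` is local -/
theorem dd_local {θ τ : Fm k} {x : V k} (h : ∀ᶠ z in 𝓝 x, ev z θ = ev z τ) :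
    ev x (dd k θ) = ev x (dd k τ) := by
  obtain ⟨s, hs1, hs2⟩ := exists_sq x h
  have h0 : pb s (θ - τ) = 0 := by
    refine ev_inj fun w => ?_
    rw [ev_pb, map_sub, hs2 w, sub_self, map_zero]
  have h1 : ev x (pb s (dd k (θ - τ))) = 0 := by
    rw [← pb_dd, h0, map_zero, map_zero]
  rw [ev_pb, tr_of_id hs1, hs1.self_of_nhds, ExteriorAlgebra.map_id] at h1
  have h2 : ev x (dd k (θ - τ)) = 0 := h1
  rw [map_sub, map_sub, sub_eq_zero] at h2
  exact h2

/-- the coefficient of `dx_i` of a covector -/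
def cfi (i : Fin n) : Ex n →ₗ[ℝ] ℝ :=
  (LinearMap.proj i : V n →ₗ[ℝ] ℝ).comp (ExteriorAlgebra.ιInv : Ex n →ₗ[ℝ] V n)

theorem cfi_ι (i : Fin n) (v : V n) : cfi i (ExteriorAlgebra.ι ℝ v) = v i := by
  change (ExteriorAlgebra.ιInv : Ex n →ₗ[ℝ] V n) (ExteriorAlgebra.ι ℝ v) i = v i
  rw [ExteriorAlgebra.ι_leftInverse v]

theorem vAt_zero (θ : Om (spR n)) : vAt (jR n) θ toE 0 = 0 := vAt_of_not θ not_locPl_zero_f4

theorem vAt_deg1 {b : Om (spR n)} (hb : Deg 1 b) (x : V n) :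
    ∃ v : V n, vAt (jR n) b toE x = ExteriorAlgebra.ι ℝ v := by
  by_cases hx : x = 0
  · subst hx
    exact ⟨0, by rw [vAt_zero, map_zero]⟩
  · obtain ⟨P, hP⟩ := locPl_toE_f4 hx
    have h1 := Dg_ev (hb n P) x
    rw [← vAt_eq jR_inj b P hP] at h1
    have h2 : vAt (jR n) b toE x ∈ (LinearMap.range (ExteriorAlgebra.ι ℝ (M := V n))) ^ 1 := h1
    rw [pow_one] at h2
    obtain ⟨v, hv⟩ := h2
    exact ⟨v, hv.symm⟩

theorem vAt_sub (θ τ : Om (spR n)) (x : V n) :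
    vAt (jR n) (θ - τ) toE x = vAt (jR n) θ toE x - vAt (jR n) τ toE x := by
  have h := vAt_add jR_inj (θ - τ) τ (p := toE) (z := x)
  rw [sub_add_cancel] at h
  rw [h, add_sub_cancel_right]

theorem vAt_algebraMap (c : ℝ) {x : V n} (hx : x ≠ 0) :
    vAt (jR n) (algebraMap ℝ (Om (spR n)) c) toE x = algebraMap ℝ (Ex n) c := by
  obtain ⟨P, hP⟩ := locPl_toE_f4 hx
  rw [vAt_eq jR_inj _ P hP]
  have h1 : Om.on (algebraMap ℝ (Om (spR n)) c) P = algebraMap ℝ (Fm n) c := rfl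
  rw [h1, AlgHom.commutes]

theorem vAt_one {x : V n} (hx : x ≠ 0) : vAt (jR n) (1 : Om (spR n)) toE x = 1 := by
  have := vAt_algebraMap (n := n) 1 hx
  rwa [map_one, map_one] at this

theorem vAt_pow (θ : Om (spR n)) (r : ℕ) {x : V n} (hx : x ≠ 0) :
    vAt (jR n) (θ ^ r) toE x = vAt (jR n) θ toE x ^ r := by
  induction r with
  | zero => rw [pow_zero, pow_zero, vAt_one hx]
  | succ r ih => rw [pow_succ, pow_succ, vAt_mul jR_inj, ih]

theorem vAt_s (θ : Om (spR n)) (x : V n) :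
    vAt (jR n) (sO _ θ) toE x = ivo n (vAt (jR n) θ toE x) := by
  by_cases hx : x = 0
  · subst hx
    rw [vAt_zero, vAt_zero, map_zero]
  · obtain ⟨P, hP⟩ := locPl_toE_f4 hx
    rw [vAt_eq jR_inj _ P hP, vAt_eq jR_inj _ P hP, on_s, ev_sg_f4]

/-! ### Cut-off functions -/

/-- the function `χ(|ξ|)` -/
def chO (χ : ℝ → ℝ) (hχ : ContDiff ℝ ∞ χ) : Om (spR n) :=
  fO (fun x : (spR n).pt => χ ‖x.1‖) fun _ p => hχ.comp
    ((show ContDiff ℝ ∞ fun u => (p.1 u).1 from p.2).norm ℝ fun u => (p.1 u).2)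

theorem chR_eq : chR n = chO chi contDiff_chi := rfl

variable {χ : ℝ → ℝ} (hχ : ContDiff ℝ ∞ χ)

theorem on_chO (P : (spR n).Plot k) : ∃ f : Cs k, Om.on (chO χ hχ) P = fc k f ∧
    ∀ z, (f : V k → ℝ) z = χ ‖(P.1 z).1‖ := ⟨_, rfl, fun _ => rfl⟩

theorem vAt_chO {x : V n} (hx : x ≠ 0) :
    vAt (jR n) (chO χ hχ) toE x = algebraMap ℝ (Ex n) (χ ‖toE x‖) := by
  obtain ⟨P, hP⟩ := locPl_toE_f4 hx
  obtain ⟨f, hf, hf'⟩ := on_chO hχ P
  have h0 : (P.1 x).1 = toE x := hP.self_of_nhds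
  rw [vAt_eq jR_inj _ P hP, hf, ev_fc, hf', h0]

theorem sO_chO : sO (spR n) (chO χ hχ) = chO χ hχ := Om_ext fun k P => by
  obtain ⟨f, hf, _⟩ := on_chO hχ P
  rw [on_s, hf, sg_fc]

theorem chO_comm (θ : Om (spR n)) : chO χ hχ * θ = θ * chO χ hχ := even_comm' (sO_chO hχ) θ

/-- the differential of the cut-off vanishes where the cut-off is constant -/
theorem vAt_dchO_zero {x : V n} {c : ℝ} (h : ∀ᶠ r in 𝓝 ‖toE x‖, χ r = c) :
    vAt (jR n) (dO _ (chO χ hχ)) toE x = 0 := by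
  by_cases hx : x = 0
  · subst hx
    exact vAt_zero _
  · obtain ⟨P, hP⟩ := locPl_toE_f4 hx
    obtain ⟨f, hf, hf'⟩ := on_chO hχ P
    rw [vAt_eq jR_inj _ P hP, on_d, hf]
    have h1 : ev x (dd n (fc n f)) = ev x (dd n (fc n (algebraMap ℝ (Cs n) c))) := by
      refine dd_local ?_
      have hc : ContinuousAt (fun z : V n => ‖toE z‖) x := contDiff_toE.continuous.norm.continuousAt
      filter_upwards [hc.eventually h, hP] with z hz hz'
      have h0 : (P.1 z).1 = toE z := hz'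
      rw [ev_fc, ev_fc, hf', h0, hz]
      rfl
    rw [h1]
    have h2 : dd n (fc n (algebraMap ℝ (Cs n) c)) = 0 := by
      rw [AlgHom.commutes, Algebra.algebraMap_eq_smul_one, map_smul, dd_one, smul_zero]
    rw [h2, map_zero]

/-- the differential of the cut-off is a covector -/
theorem vAt_dchO (x : V n) : ∃ w : V n, vAt (jR n) (dO _ (chO χ hχ)) toE x = ExteriorAlgebra.ι ℝ w := by
  by_cases hx : x = 0
  · subst hx
    exact ⟨0, by rw [vAt_zero, map_zero]⟩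
  · obtain ⟨P, hP⟩ := locPl_toE_f4 hx
    obtain ⟨f, hf, _⟩ := on_chO hχ P
    rw [vAt_eq jR_inj _ P hP, on_d, hf, ev_dd_fc]
    exact ⟨_, rfl⟩

/-- the differential of a power -/
theorem d_chO_pow (m : ℕ) : dO (spR n) (chO χ hχ ^ m) = (m : ℝ) • (chO χ hχ ^ (m - 1) * dO _ (chO χ hχ)) := by
  induction m with
  | zero => rw [pow_zero, d_one, Nat.cast_zero, zero_smul]
  | succ m ih =>
    have hs : sO (spR n) (chO χ hχ ^ m) = chO χ hχ ^ m := by rw [map_pow, sO_chO]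
    rw [pow_succ, d_mul, ih, hs, smul_mul_assoc, mul_assoc, ← chO_comm hχ (dO _ (chO χ hχ)), ← mul_assoc,
      Nat.add_sub_cancel]
    rcases Nat.eq_zero_or_pos m with h | h
    · subst h
      simp
    · have h1 : chO (n := n) χ hχ ^ (m - 1) * chO χ hχ = chO χ hχ ^ m := by
        rw [← pow_succ]
        congr 1
        omega
      rw [h1, Nat.cast_succ, add_smul, one_smul]

theorem chO_pow (m : ℕ) : chO (n := n) (fun r => χ r ^ m) (hχ.pow m) = chO χ hχ ^ m := Om_ext fun k P => by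
  rw [on_pow]
  change fc k _ = (fc k _) ^ m
  rw [← map_pow]
  rfl

/-! ### Change of the cut-off -/

section shift

variable {r0 r1 : ℝ} (h0 : 0 < r0) (hχ0 : ∀ r, r ≤ r0 → χ r = 0) (hχ1 : ∀ r, r1 ≤ r → χ r = 1)

/-- the integrand -/
def fch (Ξ : Om (spR n)) (x : V n) : ℝ := topE n (vAt (jR n) (dO _ (chO χ hχ) * Ξ) toE x)

include hχ0 in
theorem fch_zero_in (Ξ : Om (spR n)) {x : V n} (hx : ‖toE x‖ < r0) : fch hχ Ξ x = 0 := by
  unfold fch
  have h1 : ∀ᶠ r in 𝓝 ‖toE x‖, χ r = 0 := by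
    filter_upwards [gt_mem_nhds hx] with r hr
    exact hχ0 r hr.le
  rw [vAt_mul jR_inj, vAt_dchO_zero hχ h1, zero_mul, map_zero]

include hχ1 in
theorem fch_zero_out (Ξ : Om (spR n)) {x : V n} (hx : r1 < ‖toE x‖) : fch hχ Ξ x = 0 := by
  unfold fch
  have h1 : ∀ᶠ r in 𝓝 ‖toE x‖, χ r = 1 := by
    filter_upwards [lt_mem_nhds hx] with r hr
    exact hχ1 r hr.le
  rw [vAt_mul jR_inj, vAt_dchO_zero hχ h1, zero_mul, map_zero]

include h0 hχ0 in
theorem continuous_fch (Ξ : Om (spR n)) : Continuous (fch hχ Ξ) := by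
  rw [continuous_iff_continuousAt]
  intro x
  by_cases hx : x = 0
  · have h1 : ∀ᶠ z in 𝓝 x, ‖toE z‖ < r0 := by
      have hc : ContinuousAt (fun z : V n => ‖toE z‖) x := contDiff_toE.continuous.norm.continuousAt
      refine hc.eventually (gt_mem_nhds ?_)
      have : toE x = 0 := by rw [hx]; rfl
      change ‖toE x‖ < r0
      rw [this, norm_zero]
      exact h0
    refine (continuousAt_const (y := (0 : ℝ))).congr ?_
    filter_upwards [h1] with z hz
    exact (fch_zero_in hχ hχ0 Ξ hz).symm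
  · exact (contDiffAt_vAt jR_inj _ (locPl_toE_f4 hx) (topE n)).continuousAt

theorem norm_toE_gt {x : V n} {r : ℝ} (hx : r ^ 2 < EUL.sqn x) : r < ‖toE x‖ := by
  have h1 : EUL.sqn x = ‖toE x‖ ^ 2 := (EUL.norm_toE_sq x).symm
  rw [h1] at hx
  exact lt_of_pow_lt_pow_left₀ 2 (norm_nonneg _) hx

include hχ1 in
theorem hasCompactSupport_fch (Ξ : Om (spR n)) : HasCompactSupport (fch hχ Ξ) :=
  HasCompactSupport.intro (EUL.isCompact_sqn_le (r1 ^ 2)) fun _ hx =>
    fch_zero_out hχ hχ1 Ξ (norm_toE_gt (not_le.1 hx))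

include h0 hχ0 hχ1 in
theorem integrable_fch (Ξ : Om (spR n)) : Integrable (fch hχ Ξ) :=
  (continuous_fch hχ h0 hχ0 Ξ).integrable_of_hasCompactSupport (hasCompactSupport_fch hχ hχ1 Ξ)

include h0 hχ0 hχ1 in
/-- the integral only depends on the total step of the cut-off -/
theorem integral_fch_eq {χ' : ℝ → ℝ} (hχ' : ContDiff ℝ ∞ χ') (hχ0' : ∀ r, r ≤ r0 → χ' r = 0)
    (hχ1' : ∀ r, r1 ≤ r → χ' r = 1) (Ξ : Om (spR n))
    (hΞ : ∀ x, x ≠ 0 → topE n (vAt (jR n) (dO _ Ξ) toE x) = 0) :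
    ∫ x, fch hχ Ξ x = ∫ x, fch hχ' Ξ x := by
  have hkey : ∫ x, (fch hχ Ξ x - fch hχ' Ξ x) = 0 := by
    set Ω : Set (V n) := {x | x ≠ 0} with hΩ
    set K : Set (V n) := {x | r0 ^ 2 ≤ EUL.sqn x} ∩ {x | EUL.sqn x ≤ r1 ^ 2} with hK
    have hst := stokes_loc (σ := fun _ => 1) jR_inj ((chO χ hχ - chO χ' hχ') * Ξ) (p := toE)
      (Ω := Ω) (K := K) isOpen_ne
      ((EUL.isCompact_sqn_le (r1 ^ 2)).inter_left
        (isClosed_le continuous_const EUL.contDiff_sqn.continuous))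
      (by
        rintro x ⟨hx, _⟩ h
        rw [mem_ofPred_eq, h, EUL.sqn_zero] at hx
        nlinarith)
      (fun x _ => Eventually.of_forall fun _ => rfl) (fun x hx => locPl_toE_f4 hx)
      (fun x hx hxK => by
        have hx0 : x ≠ 0 := hx
        rw [vAt_mul jR_inj, vAt_sub, vAt_chO hχ hx0, vAt_chO hχ' hx0]
        have h1 : χ ‖toE x‖ = χ' ‖toE x‖ := by
          by_cases h2 : r0 ^ 2 ≤ EUL.sqn x
          · have h3 : ¬ EUL.sqn x ≤ r1 ^ 2 := fun h4 => hxK ⟨h2, h4⟩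
            have h5 := (norm_toE_gt (not_le.1 h3)).le
            rw [hχ1 _ h5, hχ1' _ h5]
          · have h3 : ‖toE x‖ ≤ r0 := by
              have h4 : ‖toE x‖ ^ 2 < r0 ^ 2 := by
                have h5 : ‖toE x‖ ^ 2 = EUL.sqn x := EUL.norm_toE_sq x
                rw [h5]
                exact not_le.1 h2
              exact (lt_of_pow_lt_pow_left₀ 2 h0.le h4).le
            rw [hχ0 _ h3, hχ0' _ h3]
        rw [h1, sub_self, zero_mul])
    have h1 : ∀ x ∈ Ω, (1 : ℝ) * topE n (vAt (jR n) (dO (spR n) ((chO χ hχ - chO χ' hχ') * Ξ)) toE x) =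
        fch hχ Ξ x - fch hχ' Ξ x := by
      intro x hx
      have hx0 : x ≠ 0 := hx
      have h2 : dO (spR n) ((chO χ hχ - chO χ' hχ') * Ξ) =
          dO _ (chO χ hχ) * Ξ - dO _ (chO χ' hχ') * Ξ + (chO χ hχ - chO χ' hχ') * dO _ Ξ := by
        rw [d_mul, map_sub, map_sub, sO_chO, sO_chO, sub_mul]
      rw [h2, vAt_add jR_inj, vAt_sub, map_add, map_sub, one_mul]
      have h3 : topE n (vAt (jR n) ((chO χ hχ - chO χ' hχ') * dO _ Ξ) toE x) = 0 := by
        rw [vAt_mul jR_inj, vAt_sub, vAt_chO hχ hx0, vAt_chO hχ' hx0, ← map_sub, ← Algebra.smul_def, map_smul,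
          hΞ x hx0, smul_zero]
      rw [h3, add_zero]
      rfl
    rw [setIntegral_congr_fun isOpen_ne.measurableSet h1] at hst
    rw [← hst]
    refine (setIntegral_eq_integral_of_forall_compl_eq_zero fun x hx => ?_).symm
    have hx0 : x = 0 := by
      by_contra h
      exact hx h
    have h2 : ∀ {χ : ℝ → ℝ} (hχ : ContDiff ℝ ∞ χ), fch hχ Ξ x = 0 := by
      intro χ hχ
      unfold fch
      rw [hx0, vAt_zero, map_zero]
    rw [h2 hχ, h2 hχ', sub_zero]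
  rw [integral_sub (integrable_fch hχ h0 hχ0 hχ1 Ξ) (integrable_fch hχ' h0 hχ0' hχ1' Ξ)] at hkey
  linarith

/-! ### The global form -/

/-- coefficients of `χ(|x|) b` -/
def gco (χ : ℝ → ℝ) (b : Om (spR n)) (i : Fin n) (x : V n) : ℝ := χ ‖toE x‖ * cfi i (vAt (jR n) b toE x)

include hχ h0 hχ0 in
theorem contDiff_gco (b : Om (spR n)) (i : Fin n) : ContDiff ℝ ∞ (gco χ b i) := by
  rw [contDiff_iff_contDiffAt]
  intro x
  by_cases hx : x = 0
  · have h1 : ∀ᶠ z in 𝓝 x, ‖toE z‖ < r0 := by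
      have hc : ContinuousAt (fun z : V n => ‖toE z‖) x := contDiff_toE.continuous.norm.continuousAt
      refine hc.eventually (gt_mem_nhds ?_)
      have : toE x = 0 := by rw [hx]; rfl
      change ‖toE x‖ < r0
      rw [this, norm_zero]
      exact h0
    refine (contDiffAt_const (c := (0 : ℝ))).congr_of_eventuallyEq ?_
    filter_upwards [h1] with z hz
    unfold gco
    rw [hχ0 _ hz.le, zero_mul]
  · have h2 : ContDiffAt ℝ ∞ (fun v : Eu n => ‖v‖) (toE x) := contDiffAt_norm ℝ (toE_ne hx)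
    have h1 : ContDiffAt ℝ ∞ (fun y : V n => ‖toE y‖) x := h2.comp x contDiff_toE.contDiffAt
    exact (hχ.contDiffAt.comp x h1).mul (contDiffAt_vAt jR_inj b (locPl_toE_f4 hx) (cfi i))

/-- the form `χ(|x|) b` on `ℝ^n` -/
def gl (b : Om (spR n)) : Fm n := EUL.one fun i => mkC (gco χ b i) (contDiff_gco hχ h0 hχ0 b i)

theorem ev_gl {b : Om (spR n)} (hb : Deg 1 b) (x : V n) :
    ev x (gl hχ h0 hχ0 b) = χ ‖toE x‖ • vAt (jR n) b toE x := by
  obtain ⟨v, hv⟩ := vAt_deg1 hb x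
  unfold gl
  rw [EUL.ev_one, hv, ← map_smul]
  congr 1
  funext i
  change χ ‖toE x‖ * cfi i (vAt (jR n) b toE x) = χ ‖toE x‖ * v i
  rw [hv, cfi_ι]

theorem ev_dd_gl {b : Om (spR n)} (hb : Deg 1 b) {x : V n} (hx : x ≠ 0) :
    ev x (dd n (gl hχ h0 hχ0 b)) = vAt (jR n) (dO _ (chO χ hχ * b)) toE x := by
  obtain ⟨P, hP⟩ := locPl_toE_f4 hx
  rw [vAt_eq jR_inj _ P hP, on_d]
  refine dd_local ?_
  filter_upwards [vAt_eventuallyEq jR_inj (chO χ hχ * b) P hP, isOpen_ne.mem_nhds hx] with z hz hz0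
  rw [← hz, ev_gl hχ h0 hχ0 hb, vAt_mul jR_inj, vAt_chO hχ hz0, Algebra.smul_def]

theorem ev_dd_gl_zero {b : Om (spR n)} (hb : Deg 1 b) : ev (0 : V n) (dd n (gl hχ h0 hχ0 b)) = 0 := by
  have h1 : ∀ᶠ z in 𝓝 (0 : V n), ‖toE z‖ < r0 := by
    have hc : ContinuousAt (fun z : V n => ‖toE z‖) 0 := contDiff_toE.continuous.norm.continuousAt
    refine hc.eventually (gt_mem_nhds ?_)
    have : toE (0 : V n) = 0 := rfl
    change ‖toE (0 : V n)‖ < r0
    rw [this, norm_zero]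
    exact h0
  have h2 : ev (0 : V n) (dd n (gl hχ h0 hχ0 b)) = ev (0 : V n) (dd n (0 : Fm n)) := by
    refine dd_local ?_
    filter_upwards [h1] with z hz
    rw [ev_gl hχ h0 hχ0 hb, hχ0 _ hz.le, zero_smul, map_zero]
  rw [h2, map_zero, map_zero]

include hχ1 in
theorem flat_gl {e : Eu n → Eu n} (he : GCF e) {b : Om (spR n)} (hb : Deg 1 b) (hrad : (nrmR n).pull b = b)
    {c : ℝ} (hc : iO (rotC he) b = algebraMap ℝ _ c) (hc' : iO (rotC he) (dO _ b) = 0) :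
    EUL.Flat (EUL.XE e) (c / (2 * Real.pi)) (r1 ^ 2) (gl hχ h0 hχ0 b) := by
  have hπ := Real.pi_pos
  have hx0 : ∀ {x : V n}, r1 ^ 2 < EUL.sqn x → x ≠ 0 := by
    intro x hx
    exact EUL.ne_zero_of_sqn ((sq_nonneg r1).trans_lt hx)
  have h1 : ∀ {x : V n}, r1 ^ 2 < EUL.sqn x → ev x (gl hχ h0 hχ0 b) = vAt (jR n) b toE x := by
    intro x hx
    rw [ev_gl hχ h0 hχ0 hb, hχ1 _ (norm_toE_gt hx).le, one_smul]
  have h2 : ∀ {x : V n}, r1 ^ 2 < EUL.sqn x → ev x (dd n (gl hχ h0 hχ0 b)) = vAt (jR n) (dO _ b) toE x := by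
    intro x hx
    obtain ⟨P, hP⟩ := locPl_toE_f4 (hx0 hx)
    rw [vAt_eq jR_inj _ P hP, on_d]
    refine dd_local ?_
    filter_upwards [vAt_eventuallyEq jR_inj b P hP, EUL.contDiff_sqn.continuous.continuousAt.eventually
      (lt_mem_nhds hx)] with z hz hz'
    rw [h1 hz', hz]
  have hrot : ∀ (θ : Om (spR n)) {x : V n}, x ≠ 0 → ctr (EUL.phi (EUL.XE e x)) (vAt (jR n) θ toE x) =
      (2 * Real.pi)⁻¹ • vAt (jR n) (iO (rotC he) θ) toE x := by
    intro θ x hx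
    rw [vAt_i he θ hx, smul_smul, inv_mul_cancel₀ (by positivity), one_smul]
  refine ⟨⟨_, rfl⟩, fun x hx => ?_, fun x hx => ?_, fun x hx => ?_, fun x hx => ?_⟩
  · rw [h1 hx]
    exact vAt_rad hrad (hx0 hx)
  · rw [h2 hx]
    refine vAt_rad ?_ (hx0 hx)
    rw [← pull_d, hrad]
  · rw [h1 hx, hrot b (hx0 hx), hc, vAt_algebraMap c (hx0 hx), Algebra.algebraMap_eq_smul_one,
      Algebra.algebraMap_eq_smul_one, smul_smul]
    congr 1
    ring
  · rw [h2 hx, hrot _ (hx0 hx), hc']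
    have h3 : vAt (jR n) (0 : Om (spR n)) toE x = 0 := by
      have := vAt_algebraMap (n := n) 0 (hx0 hx)
      rwa [map_zero, map_zero] at this
    rw [h3, smul_zero]

end shift

theorem flat_smul {X : V n → V n} {c R : ℝ} {B : Fm n} (t : ℝ) (h : EUL.Flat X c R B) :
    EUL.Flat X (t * c) R (t • B) := by
  refine ⟨?_, fun x hx => ?_, fun x hx => ?_, fun x hx => ?_, fun x hx => ?_⟩
  · obtain ⟨a, ha⟩ := h.deg
    refine ⟨fun i => t • a i, ?_⟩
    rw [ha]
    unfold EUL.one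
    rw [Finset.smul_sum]
    exact Finset.sum_congr rfl fun i _ => by rw [map_smul, smul_mul_assoc]
  · rw [map_smul, map_smul, h.eul x hx, smul_zero]
  · rw [map_smul, map_smul, map_smul, h.eul' x hx, smul_zero]
  · rw [map_smul, map_smul, h.rot x hx, Algebra.algebraMap_eq_smul_one, Algebra.algebraMap_eq_smul_one, smul_smul]
  · rw [map_smul, map_smul, map_smul, h.rot' x hx, smul_zero]

/-- **change of connection** -/
theorem JR_conn {m : ℕ} (_hn : n = 2 * m) (hm : 1 ≤ m) {e : Eu n → Eu n} (he : GCF e) {b : Om (spR n)}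
    (hb : Deg 1 b) (hrad : (nrmR n).pull b = b) {c : ℝ} (hc : iO (rotC he) b = algebraMap ℝ _ c)
    (hc' : iO (rotC he) (dO _ b) = 0) :
    JR n (dO _ b ^ (m - 1) * b) = c ^ m * eps m e := by
  have hπ := Real.pi_pos
  have h00 : (0 : ℝ) < 1 := one_pos
  have hz : ∀ r, r ≤ 1 → chi r = 0 := fun r hr => chi_zero hr
  have ho : ∀ r, 2 ≤ r → chi r = 1 := fun r hr => chi_one hr
  have hz' : ∀ r, r ≤ 1 → chi r ^ m = 0 := fun r hr => by rw [chi_zero hr, zero_pow (by omega)]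
  have ho' : ∀ r, 2 ≤ r → chi r ^ m = 1 := fun r hr => by rw [chi_one hr, one_pow]
  -- radial
  have hdb : (nrmR n).pull (dO _ b) = dO _ b := by rw [← pull_d, hrad]
  have hdm : ∀ x, x ≠ 0 → topE n (vAt (jR n) (dO _ b) toE x ^ m) = 0 := by
    intro x hx
    exact topE_eq_zero_of_ctr (EUL.phi_ne_zero hx) (EUL.ctr_pow_eq_zero (vAt_rad hdb hx) m)
  set Ξ : Om (spR n) := dO _ b ^ (m - 1) * b with hΞdef
  have hdd : ∀ r : ℕ, dO (spR n) (dO _ b ^ r) = 0 := by
    intro r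
    induction r with
    | zero => rw [pow_zero, d_one]
    | succ r ih => rw [pow_succ, d_mul, ih, d_d, zero_mul, mul_zero, add_zero]
  have hs2 : sO (spR n) (dO _ b) = dO _ b := by
    have := Deg_even (j := 1) (Deg_d hb)
    exact this
  have hdΞ : dO (spR n) Ξ = dO _ b ^ m := by
    rw [hΞdef, d_mul, hdd, zero_mul, zero_add, map_pow, hs2, ← pow_succ]
    congr 1
    omega
  have hΞ : ∀ x, x ≠ 0 → topE n (vAt (jR n) (dO _ Ξ) toE x) = 0 := by
    intro x hx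
    rw [hdΞ, vAt_pow _ _ hx]
    exact hdm x hx
  -- pointwise identity
  have hpt : ∀ x : V n, fch (contDiff_chi.pow m) Ξ x =
      (tp n ((dd n (gl contDiff_chi h00 hz b)) ^ m) : V n → ℝ) x := by
    intro x
    rw [tp_apply, map_pow]
    by_cases hx : x = 0
    · subst hx
      rw [ev_dd_gl_zero contDiff_chi h00 hz hb, zero_pow (by omega), map_zero]
      unfold fch
      rw [vAt_zero, map_zero]
    · obtain ⟨v, hv⟩ := vAt_deg1 hb x
      obtain ⟨w, hw⟩ := vAt_dchO (n := n) contDiff_chi x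
      set δ : Ex n := vAt (jR n) (dO _ b) toE x with hδ
      have hδs : ivo n δ = δ := by rw [hδ, ← vAt_s, hs2]
      have hδp : ivo n (δ ^ (m - 1)) = δ ^ (m - 1) := by rw [map_pow, hδs]
      have hL : ev x (dd n (gl contDiff_chi h00 hz b)) =
          ExteriorAlgebra.ι ℝ w * ExteriorAlgebra.ι ℝ v + chi ‖toE x‖ • δ := by
        rw [ev_dd_gl contDiff_chi h00 hz hb hx, d_mul, sO_chO, vAt_add jR_inj, vAt_mul jR_inj, vAt_mul jR_inj, hv, hw,
          vAt_chO contDiff_chi hx, Algebra.smul_def]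
      have hR : vAt (jR n) (dO _ (chO (fun r => chi r ^ m) (contDiff_chi.pow m)) * Ξ) toE x =
          ((m : ℝ) * chi ‖toE x‖ ^ (m - 1)) •
            (ExteriorAlgebra.ι ℝ w * ExteriorAlgebra.ι ℝ v * δ ^ (m - 1)) := by
        rw [chO_pow contDiff_chi m, d_chO_pow, vAt_mul jR_inj, vAt_smul jR_inj, vAt_mul jR_inj, vAt_pow _ _ hx, hw,
          vAt_chO contDiff_chi hx, hΞdef, vAt_mul jR_inj, vAt_pow _ _ hx, hv, ← hδ, ← map_pow, ← Algebra.smul_def,
          smul_smul, smul_mul_assoc]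
        congr 1
        rw [mul_assoc]
        congr 1
        rw [ι_swap, hδp]
      unfold fch
      rw [hR, hL]
      have hcomm : Commute (ExteriorAlgebra.ι ℝ w * ExteriorAlgebra.ι ℝ v) (chi ‖toE x‖ • δ) := ιι_comm _ _ _
      obtain ⟨q, rfl⟩ : ∃ q, m = q + 1 := ⟨m - 1, by omega⟩
      rw [add_pow_sq_zero hcomm (ιι_sq _ _) q, Nat.add_sub_cancel, map_add, map_smul]
      have h4 : topE n ((chi ‖toE x‖ • δ) ^ (q + 1)) = 0 := by
        rw [smul_pow, map_smul, hdm x hx, smul_zero]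
      rw [h4]
      rw [zero_add, smul_pow, mul_smul_comm, ← Nat.cast_smul_eq_nsmul ℝ, map_smul, map_smul, smul_smul]
  have h1 : JR n Ξ = ∫ x, fch contDiff_chi Ξ x := rfl
  have h2 := integral_fch_eq contDiff_chi h00 hz ho (contDiff_chi.pow m) hz' ho' Ξ hΞ
  rw [h1, h2]
  simp only [hpt]
  -- comparison
  have hf1 := (flat_gl contDiff_chi h00 hz ho he hb hrad hc hc').mono (show (2 : ℝ) ^ 2 ≤ 4 by norm_num)
  have hf2 : EUL.Flat (EUL.XE e) (c / (2 * Real.pi)) 4 (c • BB e) := by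
    have := flat_smul c (flat_BB he)
    rwa [mul_one_div] at this
  rw [hf1.compare hf2 (by norm_num) (fun x hx s => EUL.XE_ne_smul he (by linarith) s) m]
  unfold eps
  rw [← integral_const_mul]
  refine integral_congr_ae (Eventually.of_forall fun x => ?_)
  simp only
  rw [tp_apply, map_smul, smul_pow, map_smul, map_smul, smul_eq_mul]

end Pool.Agent.Lib.MP_ccbbf6_gt.L4
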