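import Pool.Agent.Lib.MP_ccbbf6_gt.L4.Cmp2

/-!
# Level 4, FUB, part 0: `L (d κ) = 0`, change of the form on the base (helper77)
-/

set_option autoImplicit false
set_option maxSynthPendingDepth 3

noncomputable section

namespace Pool.Agent.Lib.MP_ccbbf6_gt.L4.FR

open Finset

variable {X M : Space} {n m : ℕ}

lemma s_pull_even {f : SMap X M} {ω : Om M} (h : sO M ω = ω) : sO X (f.pull ω) = f.pull ω := by
  rw [pull_s, h]

/-- `L (d κ) = 0` -/
theorem F0_exact (c : Circ X) (I : Om X →ₗ[ℝ] ℝ) (hd : ∀ x, I (dO X x) = 0) (hi : ∀ x, iO c x = 0 → I x = 0)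
    {f0 f1 : SMap X M} (h0 : IMap c f0) (h1 : IMap c f1) {ω : Om M} (hω : dO M ω = 0) (h2 : sO M ω = ω)
    {β : Om X} (hβ : dO X β = f1.pull ω - f0.pull ω) (r : ℕ) {κ : Om M} (hκ : κ * ω = 0) :
    I (f0.pull (dO M κ) * (f1.pull ω ^ r * β)) = 0 := by
  have hs1 : sO X (f1.pull ω) = f1.pull ω := s_pull_even h2
  have hd1 : dO X (f1.pull ω) = 0 := by rw [pull_d, hω, map_zero]
  have hdp : dO X (f1.pull ω ^ r) = 0 := d_pow_zero hd1 r
  have hsp : sO X (f1.pull ω ^ r) = f1.pull ω ^ r := by rw [map_pow, hs1]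
  have hTh : dO X (f1.pull ω ^ r * β) = f1.pull ω ^ (r + 1) - f1.pull ω ^ r * f0.pull ω := by
    rw [d_mul, hdp, zero_mul, zero_add, hsp, hβ, mul_sub, pow_succ]
  have hκ' : sO X (f0.pull κ) * f0.pull ω = 0 := by
    rw [pull_s, ← map_mul]
    have h3 : sO M κ * ω = sO M (κ * ω) := by rw [map_mul, h2]
    rw [h3, hκ, map_zero, map_zero]
  have h4 := hd (f0.pull κ * (f1.pull ω ^ r * β))
  rw [d_mul, hTh, mul_sub, even_comm' hsp (f0.pull ω), ← mul_assoc (sO X (f0.pull κ)) (f0.pull ω), hκ', zero_mul,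
    sub_zero, map_add, pull_d] at h4
  have h5 : I (sO X (f0.pull κ) * f1.pull ω ^ (r + 1)) = 0 := by
    apply hi
    rw [pull_s]
    exact Bas_i c (Bas_mul c (Bas_pull c h0 _) (Bas_pow c (Bas_pull c h1 _) _))
  rw [h5, add_zero] at h4
  exact h4

/-- difference of powers is exact -/
theorem pow_sub_exact {ω A : Om M} (hω : dO M ω = 0) (h2 : sO M ω = ω) (hA : sO M A = -A) (m : ℕ) :
    dO M (A * ∑ i ∈ range m, (ω + dO M A) ^ i * ω ^ (m - 1 - i)) = (ω + dO M A) ^ m - ω ^ m := by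
  have hd' : dO M (ω + dO M A) = 0 := by rw [map_add, hω, d_d, add_zero]
  have hs' : sO M (ω + dO M A) = ω + dO M A := by rw [map_add, h2, s_d, hA, map_neg, neg_neg]
  have hS : dO M (∑ i ∈ range m, (ω + dO M A) ^ i * ω ^ (m - 1 - i)) = 0 := by
    rw [map_sum]
    refine sum_eq_zero fun i _ => ?_
    rw [d_mul, d_pow_zero hd', d_pow_zero hω, zero_mul, mul_zero, add_zero]
  have hc : Commute (ω + dO M A) ω := even_comm' hs' ω
  rw [d_mul, hS, mul_zero, add_zero]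
  have h := hc.mul_geom_sum₂ m
  rw [add_sub_cancel_left] at h
  exact h

theorem Deg_sum_zero {ω ω' A : Om M} (hM : DimLE M n) (hn : n = 2 * m) (h2 : Deg 2 ω) (h2' : Deg 2 ω') (hA : Deg 1 A) :
    (A * ∑ i ∈ range m, ω' ^ i * ω ^ (m - 1 - i)) * ω = 0 := by
  rw [mul_sum, sum_mul]
  refine sum_eq_zero fun i hi => ?_
  rw [mem_range] at hi
  have h := Deg_mul (Deg_mul hA (Deg_mul (Deg_pow h2' i) (Deg_pow h2 (m - 1 - i)))) h2
  exact Deg_big hM (by omega) h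

/-- change of the form on the base -/
theorem F0_change (c : Circ X) (I : Om X →ₗ[ℝ] ℝ) (hd : ∀ x, I (dO X x) = 0) (hi : ∀ x, iO c x = 0 → I x = 0)
    {f0 f1 : SMap X M} (h0 : IMap c f0) (h1 : IMap c f1) {ω : Om M} (hω : dO M ω = 0) (h2 : Deg 2 ω)
    {β : Om X} (hβ : dO X β = f1.pull ω - f0.pull ω) (r : ℕ) (hM : DimLE M n) (hn : n = 2 * m) {A : Om M} (hA : Deg 1 A) :
    I (f0.pull ((ω + dO M A) ^ m) * (f1.pull ω ^ r * β)) = I (f0.pull (ω ^ m) * (f1.pull ω ^ r * β)) := by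
  have hs : sO M ω = ω := Deg_even (j := 1) h2
  have hsA : sO M A = -A := Deg_odd (j := 0) hA
  have h2' : Deg 2 (ω + dO M A) := Deg_add h2 (Deg_d hA)
  have h := F0_exact c I hd hi h0 h1 hω hs hβ r (Deg_sum_zero hM hn h2 h2' hA)
  rw [pow_sub_exact hω hs hsA m, map_sub, sub_mul, map_sub] at h
  exact sub_eq_zero.1 h

end Pool.Agent.Lib.MP_ccbbf6_gt.L4.FR
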