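import Pool.Agent.Lib.MP_ccbbf6_gt.L4.FU2d

/-!
# Level 4, FUB, F3: the integral over the fibre at `p` is `JR` (helper55)
-/

set_option autoImplicit false
set_option maxSynthPendingDepth 3
set_option linter.unusedSectionVars false

open MeasureTheory Measure Set Filter Topology Metric Real
open scoped ContDiff RealInnerProductSpace

noncomputable section

namespace Pool.Agent.Lib.MP_ccbbf6_gt.L4

open Geo FR

variable {n : ℕ} {M : Type} [MetricSpace M] [CompactSpace M] (𝒜 : SDist n M)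

/-- differentials of functions with the same germ -/
lemma ev_dd_fc_congr {k : ℕ} {f g : Cs k} {x : V k} (h : (f : V k → ℝ) =ᶠ[𝓝 x] (g : V k → ℝ)) :
    ev x (dd k (fc k f)) = ev x (dd k (fc k g)) := by
  rw [ev_dd_fc, ev_dd_fc]
  congr 1
  funext i
  rw [pd_apply, pd_apply, h.fderiv_eq]

/-- the inclusion is a local plot of `ℝ^n ∖ 0` -/
lemma locPl_toE {x : V n} (h0 : toE x ≠ 0) : LocPl (jR n) toE x := by
  have hU : ∀ᶠ w in 𝓝 x, toE w ≠ 0 := contDiff_toE.continuous.continuousAt.eventually (isOpen_ne.mem_nhds h0)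
  obtain ⟨s, hs1, hs2⟩ := exists_sq x hU
  refine ⟨⟨fun w => ⟨toE (s w), hs2 w⟩, contDiff_toE.comp s.smooth⟩, ?_⟩
  filter_upwards [hs1] with w hw
  change toE (s w) = toE w
  rw [hw]

lemma not_locPl_zero {x : V n} (h0 : toE x = 0) : ¬ LocPl (jR n) toE x := by
  rintro ⟨P, hP⟩
  have h1 : jR n (P.1 x) = toE x := hP.self_of_nhds
  exact (P.1 x).2 (h1.trans h0)

lemma contDiff_norm_toE_comp {k : ℕ} (p : (spR n).Plot k) : ContDiff ℝ ∞ fun x => chi ‖(p.1 x).1‖ :=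
  contDiff_chi.comp ((show ContDiff ℝ ∞ fun u => (p.1 u).1 from p.2).norm ℝ fun u => (p.1 u).2)

/-- `dχ(|ξ|)` vanishes for `|ξ| > 2` -/
lemma vAt_far (θ : Om (spR n)) {x : V n} (h : 2 < ‖toE x‖) : vAt (jR n) (dO _ (chR n) * θ) toE x = 0 := by
  have h0 : toE x ≠ 0 := by
    intro h0
    rw [h0, norm_zero] at h
    linarith
  obtain ⟨s, hs⟩ := locPl_toE h0
  rw [vAt_eq jR_inj _ s hs, on_mul, _root_.map_mul, on_d, chR, on_fO]
  have h1 : ev x (dd n (fc n (mkC (fun w => chi ‖(s.1 w).1‖) (contDiff_norm_toE_comp s)))) = ev x (dd n (fc n 1)) := by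
    refine ev_dd_fc_congr ?_
    have c : Continuous fun w : V n => ‖toE w‖ := contDiff_toE.continuous.norm
    filter_upwards [hs, c.continuousAt.eventually (lt_mem_nhds h)] with w f1 f2
    change chi ‖(s.1 w).1‖ = 1
    have f3 : (s.1 w).1 = toE w := f1
    rw [f3, chi_one f2.le]
  have h2 : ev x (dd n (fc n (1 : Cs n))) = 0 := by rw [_root_.map_one, dd_one, _root_.map_zero]
  rw [h2] at h1
  rw [h1, zero_mul]

variable [MeasurableSpace M] [BorelSpace M]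

/-- the form `dχ(d) ∧ G^* Th` along `x ↦ (p, Ex x)` -/
theorem vAt_X0 (hB : Bl M) (p : M) (Th : Om (spG 𝒜)) {x : V n} (h0 : toE x ≠ 0) (h1 : ‖toE x‖ < π) :
    vAt (jW 𝒜) (X0 𝒜 hB Th) (Pex 𝒜 p) x = vAt (jR n) (dO _ (chR n) * (ER hB p).pull Th) toE x := by
  obtain ⟨P, hP⟩ := locPl_Pex 𝒜 hB p h0 h1
  obtain ⟨s, hs⟩ := locPl_toE h0
  have c : Continuous fun w : V n => ‖toE w‖ := contDiff_toE.continuous.norm
  have c1 : ∀ᶠ w in 𝓝 x, ‖toE w‖ < π := c.continuousAt.eventually (gt_mem_nhds h1)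
  rw [vAt_eq (jW_inj 𝒜) _ P hP, vAt_eq jR_inj _ s hs, X0, on_mul, on_mul, _root_.map_mul, _root_.map_mul, dchi, on_d, on_d,
    chR, chiW, on_fO, on_fO, on_pull, on_pull]
  have e1 : ev x (dd n (fc n (mkC (fun w => chi (dist (P.1 w).1.1 (P.1 w).1.2)) (contDiff_chi.comp (contDiff_distW 𝒜 hB P))))) =
      ev x (dd n (fc n (mkC (fun w => chi ‖(s.1 w).1‖) (contDiff_norm_toE_comp s)))) := by
    refine ev_dd_fc_congr ?_
    filter_upwards [hP, hs, c1] with w f1 f2 f3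
    change chi (dist (P.1 w).1.1 (P.1 w).1.2) = chi ‖(s.1 w).1‖
    have f4 : (P.1 w).1 = (p, 𝒜.Ex p (toE w)) := f1
    have f5 : (s.1 w).1 = toE w := f2
    rw [f4, f5]
    simp only
    rw [dist_Ex 𝒜 hB p f3.le]
  have e2 : ((GW hB).pl P).1 =ᶠ[𝓝 x] ((ER hB p).pl s).1 := by
    filter_upwards [hP, hs, c1] with w f1 f2 f3
    have f4 : (P.1 w).1 = (p, 𝒜.Ex p (toE w)) := f1
    have f5 : (s.1 w).1 = toE w := f2
    have f6 : toE w ≠ 0 := by rw [← f5]; exact (s.1 w).2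
    have f7 : 0 < ‖toE w‖ := norm_pos_iff.2 f6
    set cc : Gs M := gvg 𝒜 hB p (‖(s.1 w).1‖⁻¹ • (s.1 w).1) (normv (s.1 w).2) with hcc
    have g0 : cc.1 0 = p := (gv_spec 𝒜 hB p (normv (s.1 w).2)).2.1
    have g1 : cc.1 ‖toE w‖ = 𝒜.Ex p (toE w) := by
      change 𝒜.gv p (‖(s.1 w).1‖⁻¹ • (s.1 w).1) ‖toE w‖ = _
      rw [← Ex_smul 𝒜 hB p (normv (s.1 w).2), f5, smul_normv]
    have hz : 0 < dist (cc.1 0) (cc.1 ‖toE w‖) ∧ dist (cc.1 0) (cc.1 ‖toE w‖) < π := by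
      rw [dist_gs cc f7 f3]
      exact ⟨f7, f3⟩
    have g2 : P.1 w = ⟨(cc.1 0, cc.1 ‖toE w‖), hz⟩ := Subtype.ext (f4.trans (Prod.ext g0.symm g1.symm))
    change gdG hB 𝒜 (P.1 w) = cc
    rw [g2]
    exact gdG_eq hB cc f7 f3 _
  exact congrArg₂ (· * ·) e1 (ev_on_congr Th e2)

/-- `JR` as an integral over the ball in `Eu n` -/
lemma JR_eq (θ : Om (spR n)) :
    JR n θ = ∫ ξ in ball (0 : Eu n) π, topE n (vAt (jR n) (dO _ (chR n) * θ) toE (WithLp.ofLp ξ)) := by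
  unfold JR
  have h1 := (PiLp.volume_preserving_ofLp (Fin n)).integral_comp
    (toEL n).symm.toHomeomorph.measurableEmbedding (fun x : V n => topE n (vAt (jR n) (dO _ (chR n) * θ) toE x))
  rw [← h1]
  refine (setIntegral_eq_integral_of_forall_compl_eq_zero fun ξ hξ => ?_).symm
  rw [mem_ball_zero_iff, not_lt] at hξ
  rw [vAt_far θ (x := WithLp.ofLp ξ) (by
    have h2 : (toE (WithLp.ofLp ξ) : Eu n) = ξ := rfl
    rw [h2]
    linarith [Real.pi_gt_three]), _root_.map_zero]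

/-- **F3**: the integral over the fibre at `p`. -/
theorem HX_at (hB : Bl M) (hn : Even n) {p : M} {ν : Om (spM 𝒜)} {N : Fm n} (hν : OnBall 𝒜 p ν N)
    (hN : ev 0 N = tE n) (Th : Om (spG 𝒜)) :
    HX 𝒜 ((pW 𝒜).pull ν * X0 𝒜 hB Th) p = JR n ((ER hB p).pull Th) := by
  have hc : Continuous fun y => FW 𝒜 ((pW 𝒜).pull ν * X0 𝒜 hB Th) (p, y) :=
    (continuous_FW 𝒜 hB isClosed_C12 inW_C12 (supp_pX0 𝒜 hB ν Th)).comp (Continuous.prodMk_right p)
  unfold HX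
  rw [area_int 𝒜 hB p hc.aestronglyMeasurable, JR_eq]
  refine setIntegral_congr_fun measurableSet_ball fun ξ hξ => ?_
  rw [mem_ball_zero_iff] at hξ
  have h2 : (toE (WithLp.ofLp ξ) : Eu n) = ξ := rfl
  by_cases h0 : ξ = 0
  · rw [vAt_of_not _ (not_locPl_zero (by rw [h2]; exact h0)), _root_.map_zero]
    unfold FW
    rw [dens_eq_zero 𝒜 _ (z := (p, 𝒜.Ex p ξ)) (by
      rw [h0, Ex_zero 𝒜 hB]
      simp), mul_zero, mul_zero]
  · have h3 := dens_Ex 𝒜 hB hn hν hN (X0 𝒜 hB Th) (x := WithLp.ofLp ξ) h0 hξ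
    rw [vAt_X0 𝒜 hB p Th (x := WithLp.ofLp ξ) h0 hξ] at h3
    exact h3

end Pool.Agent.Lib.MP_ccbbf6_gt.L4
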