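import Pool.Agent.Lib.MP_ccbbf6_gt.L4.FU2e
import Pool.Agent.Lib.MP_ccbbf6_gt.L4.FU2f

/-!
# Level 4, FUB, F2 + F3: Fubini and concentration at `p` (helper55)
-/

set_option autoImplicit false
set_option maxSynthPendingDepth 3
set_option linter.unusedSectionVars false

open MeasureTheory Measure Set Filter Topology Metric Real
open scoped ContDiff RealInnerProductSpace

noncomputable section

namespace Pool.Agent.Lib.MP_ccbbf6_gt.L4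

open Geo FR

variable {n : ℕ} {M : Type} [MetricSpace M] [CompactSpace M] {𝒜 : SDist n M}

/-- the cut-off volume element -/
def nuN (n : ℕ) : Fm n := fc n (mkC (fun x : V n => EXT.ct ((11 / 5) ^ 2) ((5 / 2) ^ 2) (‖toE x‖ ^ 2))
  ((EXT.contDiff_ct _ _).comp (contDiff_toE.norm_sq ℝ))) * cf n (tE n)

lemma ev_nuN (x : V n) : ev x (nuN n) = EXT.ct ((11 / 5) ^ 2) ((5 / 2) ^ 2) (‖toE x‖ ^ 2) • tE n := by
  rw [nuN, _root_.map_mul, ev_fc, ev_cf, ← Algebra.smul_def]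
  rfl

lemma ev_nuN_one {x : V n} (h : ‖toE x‖ ≤ 11 / 5) : ev x (nuN n) = tE n := by
  rw [ev_nuN, EXT.ct_one (by norm_num) (by nlinarith [norm_nonneg (toE x)]), one_smul]

lemma suppLt_nuN : EXT.SuppLt (5 / 2) (nuN n) := by
  intro x hx
  have h1 : 5 / 2 ≤ ‖toE x‖ := hx
  rw [ev_nuN, EXT.ct_zero (by norm_num) (by nlinarith), zero_smul]

/-- the volume element at `p` exists -/
lemma exists_nu (hB : Bl M) (p : M) : ∃ ν : Om (spM 𝒜), OnBall 𝒜 p ν (nuN n) := by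
  have h1 : (5 / 2 : ℝ) < π := by linarith [Real.pi_gt_three]
  refine ⟨EXT.extO hB p (5 / 2) (by norm_num) h1 (nuN n), fun k P q hq => ?_⟩
  exact EXT.ext_ball hB (by norm_num) h1 suppLt_nuN P q hq

lemma fderiv_scl (c : ℝ) (x : V n) : (fderiv ℝ (scl n c : V n → V n) x).det = c ^ n := by
  have h : HasFDerivAt (scl n c : V n → V n) (c • ContinuousLinearMap.id ℝ (V n)) x :=
    (hasFDerivAt_id x).const_smul c
  rw [h.fderiv]
  change LinearMap.det (c • LinearMap.id : V n →ₗ[ℝ] V n) = c ^ n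
  rw [LinearMap.det_smul, Module.finrank_fin_fun, LinearMap.det_id, mul_one]

lemma tp_scl (T : Fm n) (c : ℝ) (x : V n) :
    (tp n (pb (scl n c) T) : V n → ℝ) x = c ^ n * (tp n T : V n → ℝ) (c • x) := by
  rw [tp_pb, fderiv_scl]
  rfl

/-- the forms `τ` are multiples of the volume element -/
lemma ev_T (hB : Bl M) {p : M} {τ : Om (spM 𝒜)} {N : Fm n} (hτ0 : Deg n τ) (hτ : OnBall 𝒜 p τ N) {x : V n}
    (hx : ‖toE x‖ < π) : ev x N = (tp n N : V n → ℝ) x • tE n := by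
  have c : Continuous fun w : V n => ‖toE w‖ := contDiff_toE.continuous.norm
  obtain ⟨s, hs1, hs2⟩ := exists_sq x (c.continuousAt.eventually (gt_mem_nhds hx))
  let P : (spM 𝒜).Plot n := ⟨fun w => 𝒜.Ex p (toE (s w)), fun w =>
    smAt_Ex hB p (contDiff_toE.comp s.smooth).contDiffAt⟩
  have h1 : Om.on τ P = pb s N := hτ n P s fun w => ⟨hs2 w, rfl⟩
  have h2 : Dg n (pb s N) := by rw [← h1]; exact hτ0 n P
  have h3 := eq_topE_smul (Dg_ev h2 x)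
  have h4 : ev x (pb s N) = ev x N := by
    rw [ev_pb, tr_of_id hs1, hs1.self_of_nhds, ExteriorAlgebra.map_id]
    rfl
  rw [h4] at h3
  rw [tp_apply]
  exact h3

lemma theta_self (p : M) (hB : Bl M) : 𝒜.theta p p = 1 := by
  have hF : ContDiffAt ℝ 2 (𝒜.F p p) (0, 0) :=
    (contDiffAt_F 𝒜 hB (by rw [dist_self]; exact Real.pi_pos)).of_le two_le_infty
  rw [sme_theta_eq 𝒜 hF, Mx_diag, Matrix.det_neg, Matrix.det_one, mul_one, abs_pow, abs_neg, abs_one, one_pow]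

variable [MeasurableSpace M] [BorelSpace M]

/-- **F2 + F3**: Fubini and concentration at `p` -/
theorem tendsto_TG (hB : Bl M) (hn : Even n) (p : M) (T : Fm n)
    (hT : ∀ x : V n, 2 < ‖toE x‖ → ev x T = 0) (τ : ℝ → Om (spM 𝒜)) (hτ0 : ∀ δ, 0 < δ → δ ≤ 1 → Deg n (τ δ))
    (hτ : ∀ δ, 0 < δ → δ ≤ 1 → ∀ (k : ℕ) (P : (spM 𝒜).Plot k) (q : FR.Sm k n),
      (∀ u, ‖toE (q u)‖ < π ∧ P.1 u = 𝒜.Ex p (toE (q u))) → Om.on (τ δ) P = pb q (pb (scl n δ⁻¹) T))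
    (Th : Om (spG 𝒜)) :
    ∃ s : ℝ, |s| = 1 ∧ Tendsto (fun δ => TG hB ((foot hB 0).pull (τ δ) * Th)) (𝓝[>] 0)
      (𝓝 (s * (∫ x, (tp n T : V n → ℝ) x) * JR n ((ER hB p).pull Th))) := by
  refine ⟨1, abs_one, ?_⟩
  rw [one_mul]
  obtain ⟨ν, hν⟩ := exists_nu (𝒜 := 𝒜) hB p
  set Ξ := (pW 𝒜).pull ν * X0 𝒜 hB Th with hΞ
  have hH : Continuous (HX 𝒜 Ξ) := continuous_HX 𝒜 hB (supp_pX0 𝒜 hB ν Th)
  set K : Eu n → ℝ := fun ξ => (𝒜.theta p (𝒜.Ex p ξ))⁻¹ * HX 𝒜 Ξ (𝒜.Ex p ξ) with hK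
  set t : Eu n → ℝ := fun ξ => (tp n T : V n → ℝ) (WithLp.ofLp ξ) with ht
  have hKc : ContinuousOn K (ball 0 π) :=
    (continuousOn_theta_inv 𝒜 hB p).mul (hH.comp (continuous_Ex 𝒜 hB p)).continuousOn
  have htc : Continuous t := (Cs_smooth (tp n T)).continuous.comp (toEL n).symm.continuous
  have ht0 : ∀ ξ, 2 < ‖ξ‖ → t ξ = 0 := by
    intro ξ hξ
    simp only [ht]
    rw [tp_apply, hT _ hξ, _root_.map_zero]
  have hlim := conc (by linarith [Real.pi_gt_three]) hKc htc ht0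
  have hK0 : K 0 = JR n ((ER hB p).pull Th) := by
    simp only [hK]
    rw [Ex_zero 𝒜 hB, theta_self p hB, inv_one, one_mul, hΞ]
    refine HX_at 𝒜 hB hn hν ?_ Th
    refine ev_nuN_one ?_
    have : toE (0 : V n) = 0 := rfl
    rw [this, norm_zero]
    norm_num
  have hint : ∫ ξ, t ξ = ∫ x, (tp n T : V n → ℝ) x :=
    (PiLp.volume_preserving_ofLp (Fin n)).integral_comp
      (toEL n).symm.toHomeomorph.measurableEmbedding (fun x : V n => (tp n T : V n → ℝ) x)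
  rw [hK0, hint, mul_comm] at hlim
  refine hlim.congr' ?_
  filter_upwards [Ioc_mem_nhdsGT (one_pos (α := ℝ))] with δ hδ
  have hb : OnBall 𝒜 p (τ δ) (pb (scl n δ⁻¹) T) := hτ δ hδ.1 hδ.2
  rw [TG_eq 𝒜 hB hn (hτ0 δ hδ.1 hδ.2), IW_area 𝒜 hB p]
  refine (setIntegral_congr_fun measurableSet_ball fun ξ hξ => ?_).symm
  rw [mem_ball_zero_iff] at hξ
  simp only [hK, ht]
  rw [mul_assoc]
  congr 1
  have hd : dist p (𝒜.Ex p ξ) < π := by rw [dist_Ex 𝒜 hB p hξ.le]; exact hξ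
  have hlg : lgV 𝒜 p (𝒜.Ex p ξ) = WithLp.ofLp ξ := by
    unfold lgV
    rw [EXT.lg_Ex 𝒜 hB p hξ]
  set x : V n := WithLp.ofLp ξ with hx
  have htx : toE x = ξ := rfl
  have key : ev (lgV 𝒜 p (𝒜.Ex p ξ)) (pb (scl n δ⁻¹) T) =
      (δ⁻¹ ^ n * (tp n T : V n → ℝ) (δ⁻¹ • x)) • ev (lgV 𝒜 p (𝒜.Ex p ξ)) (nuN n) := by
    rw [hlg, ev_T hB (hτ0 δ hδ.1 hδ.2) hb (x := x) (by rw [htx]; exact hξ), tp_scl]
    by_cases h : ‖toE x‖ ≤ 11 / 5
    · rw [ev_nuN_one h]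
    · push Not at h
      have h1 : 2 < ‖toE (δ⁻¹ • x)‖ := by
        have h2 : toE (δ⁻¹ • x) = δ⁻¹ • toE x := rfl
        rw [h2, norm_smul, norm_inv, Real.norm_of_nonneg hδ.1.le]
        have h3 : 1 ≤ δ⁻¹ := (one_le_inv₀ hδ.1).2 hδ.2
        nlinarith [norm_nonneg (toE x)]
      rw [tp_apply, hT _ h1, _root_.map_zero, mul_zero, zero_smul, zero_smul]
  have h1 : ∀ y, FW 𝒜 ((pW 𝒜).pull (τ δ) * X0 𝒜 hB Th) (𝒜.Ex p ξ, y) =
      (δ⁻¹ ^ n * (tp n T : V n → ℝ) (δ⁻¹ • x)) * FW 𝒜 Ξ (𝒜.Ex p ξ, y) := by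
    intro y
    unfold FW
    rw [dens_scale 𝒜 hB hb hν (X0 𝒜 hB Th) (z := (𝒜.Ex p ξ, y)) hd key]
    ring
  simp only [h1]
  rw [integral_const_mul]
  unfold HX
  have h2 : WithLp.ofLp (δ⁻¹ • ξ) = δ⁻¹ • x := rfl
  rw [h2]
  ring

end Pool.Agent.Lib.MP_ccbbf6_gt.L4
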