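import Pool.Agent.Lib.MP_ccbbf6_gt.L4.ExtB
import Pool.Agent.Lib.MP_ccbbf6_gt.L4.F4
import Pool.Agent.Lib.MP_ccbbf6_gt.L4.FU0
import Pool.Agent.Lib.MP_ccbbf6_gt.L4.FU2

/-!
# Level 4, FUB: `|TG (w₀^m w₁^(m-1) β)| = |c|^m eps(e)^2` (helper77)
-/

set_option autoImplicit false
set_option maxSynthPendingDepth 3

open Set Filter Topology Metric Real MeasureTheory
open scoped ContDiff RealInnerProductSpace

noncomputable section

namespace Pool.Agent.Lib.MP_ccbbf6_gt.L4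

open Geo FR

variable {n m : ℕ} {M : Type} [MetricSpace M] [CompactSpace M] {𝒜 : SDist n M}

/-- the form `ω` of helper13 -/
structure IsOmega (𝒜 : SDist n M) (p : M) (e : Eu n → Eu n) (om : Om (spM 𝒜)) : Prop where
  closed : dO _ om = 0
  deg : Deg 2 om
  ex : ∀ (k : ℕ) (P : (spM 𝒜).Plot k) (q : FR.Sm k n), (∀ u, ‖toE (q u)‖ < π ∧ P.1 u = 𝒜.Ex p (toE (q u))) →
    Om.on om P = pb q (dd n (BB e))

/-- the rotation as a circle action, period `1` -/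
def rhoC {ρ : ℝ → Gs M → Gs M} (hρ : Rot 𝒜 ρ) : Circ (spG 𝒜) where
  a := rhoF hρ
  zero := fun x => by
    change ρ (2 * π * 0) x = x
    rw [mul_zero, hρ.zero]
  add := fun x s t => by
    change ρ (2 * π * t) (ρ (2 * π * s) x) = ρ (2 * π * (s + t)) x
    rw [hρ.add, mul_add, add_comm]
  one := fun x s => by
    change ρ (2 * π * (s + 1)) x = ρ (2 * π * s) x
    have h1 : 2 * π * (s + 1) = 2 * π * s + (π + π) := by ring
    have h2 : ρ (π + π) x = x := by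
      rw [← hρ.add, hρ.pi, hρ.pi]
      refine Subtype.ext (funext fun t => ?_)
      change x.1 (- -t) = x.1 t
      rw [neg_neg]
    rw [h1, ← hρ.add, h2]

/-! ### Assembly -/

/-- contraction and equivariant maps -/
lemma i_pull {X Y : Space} (c : Circ X) (c' : Circ Y) (f : SMap X Y)
    (h : ∀ x s, f.1 (c.a.1 (x, s)) = c'.a.1 (f.1 x, s)) (θ : Om Y) : iO c (f.pull θ) = f.pull (iO c' θ) :=
  Om_ext fun k p => by
    rw [on_i, on_pull, on_pull, on_i]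
    have h1 : f.pl (c.op p) = c'.op (f.pl p) := Plot_ext fun z => h _ _
    rw [h1]

/-- forms of positive degree vanish on constant plots -/
lemma pull_const {X Y : Space} (f : SMap X Y) {y : Y.pt} (h : ∀ x, f.1 x = y) {j : ℕ} (hj : 0 < j) {θ : Om Y}
    (hθ : Deg j θ) : f.pull θ = 0 :=
  Om_ext fun k p => by
    rw [on_pull, on_zero]
    let z : FR.Sm k 0 := ⟨fun _ => 0, contDiff_const⟩
    let q : Y.Plot 0 := (f.pl p).cmp ⟨fun _ => 0, contDiff_const⟩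
    have h1 : f.pl p = q.cmp z := Plot_ext fun x => by
      change f.1 (p.1 x) = f.1 (p.1 0)
      rw [h, h]
    rw [h1, on_cmp, Dg_big hj (hθ 0 q), map_zero]

/-- `Kills` and `iO` -/
lemma kills_iff {ρ : ℝ → Gs M → Gs M} (hρ : Rot 𝒜 ρ) {Θ : Om (spG 𝒜)} (h : iO (rhoC hρ) Θ = 0) :
    Kills (rhoF hρ) Θ := fun k p => by
  have h1 := congrArg (fun θ => Om.on θ p) h
  exact h1

/-- **FUB.** -/
theorem fub [MeasurableSpace M] [BorelSpace M] (hB : Bl M) (hn : n = 2 * m) (hm : 1 ≤ m) (hM : DimLE (spM 𝒜) n)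
    {p : M} {e : Eu n → Eu n} (he : GCF e) {om : Om (spM 𝒜)} (hom : IsOmega 𝒜 p e om)
    {ρ : ℝ → Gs M → Gs M} (hρ : Rot 𝒜 ρ)
    (hρe : ∀ (v : Eu n) (hv : ‖v‖ = 1) (θ : ℝ), (ρ θ (gvg 𝒜 hB p v hv)).1 = 𝒜.gv p (cos θ • v + sin θ • e v))
    {β : Om (spG 𝒜)} (hβ1 : Deg 1 β) (hβ : dO _ β = (foot hB π).pull om - (foot hB 0).pull om) {c : ℝ}
    (hc : iO (rhoC hρ) β = algebraMap ℝ _ c) :
    |TG hB ((foot hB 0).pull om ^ m * ((foot hB π).pull om ^ (m - 1) * β))| = |c| ^ m * eps m e ^ 2 := by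
  obtain ⟨Th, hTh⟩ : ∃ Th, Th = (foot hB π).pull om ^ (m - 1) * β := ⟨_, rfl⟩
  have hf0 : IMap (rhoC hρ) (foot hB 0) := fun x s => hρ.foot _ _
  have hf1 : IMap (rhoC hρ) (foot hB π) := fun x s => hρ.top _ _
  -- the forms at scale `δ`
  obtain ⟨A, hA⟩ := exists_tau hB p he hom.ex m
  have hτ0 : ∀ δ, 0 < δ → δ ≤ 1 → Deg n ((om + dO _ (A δ)) ^ m) := by
    intro δ h0 h1 k P
    have h := Deg_pow (Deg_add hom.deg (Deg_d (hA δ h0 h1).1)) m k P
    have h2 : (1 + 1) * m = n := by omega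
    rwa [h2] at h
  have hL : ∀ δ, 0 < δ → δ ≤ 1 →
      TG hB ((foot hB 0).pull ((om + dO _ (A δ)) ^ m) * Th) = TG hB ((foot hB 0).pull (om ^ m) * Th) := by
    intro δ h0 h1
    rw [hTh]
    exact F0_change (rhoC hρ) (TG hB) (TG_d hB) (fun x hx => TG_rho hB hρ (kills_iff hρ hx)) hf0 hf1 hom.closed hom.deg hβ
      (m - 1) hM hn (hA δ h0 h1).1
  obtain ⟨s, hs, hlim⟩ := tendsto_TG hB (n := n) ⟨m, by omega⟩ p ((dd n (BB e)) ^ m)
    (fun x hx => T_supp hn he hx) (fun δ => (om + dO _ (A δ)) ^ m) hτ0 (fun δ h0 h1 => (hA δ h0 h1).2) Th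
  have h1 : TG hB ((foot hB 0).pull (om ^ m) * Th) =
      s * (∫ x, (tp n ((dd n (BB e)) ^ m) : V n → ℝ) x) * JR n ((ER hB p).pull Th) := by
    refine tendsto_nhds_unique (tendsto_const_nhds.congr' ?_) hlim
    filter_upwards [Ioc_mem_nhdsGT (zero_lt_one' ℝ)] with δ hδ
    exact (hL δ hδ.1 hδ.2).symm
  -- the fibre
  have hw0 : (ER hB p).pull ((foot hB 0).pull om) = 0 := by
    rw [← pull_comp]
    exact pull_const _ (fun x => ER_foot hB p x) two_pos hom.deg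
  have hdb : dO _ ((ER hB p).pull β) = (ER hB p).pull ((foot hB π).pull om) := by
    rw [pull_d, hβ, map_sub, hw0, sub_zero]
  have heq : ∀ x s, (ER (𝒜 := 𝒜) hB p).1 ((rotC he).a.1 (x, s)) = (rhoC hρ).a.1 ((ER hB p).1 x, s) := by
    intro x s
    refine Subtype.ext ?_
    change 𝒜.gv p (‖rotv e (2 * π * s) x.1‖⁻¹ • rotv e (2 * π * s) x.1) =
      (ρ (2 * π * s) (gvg 𝒜 hB p (‖x.1‖⁻¹ • x.1) (normv x.2))).1
    rw [hρe, he.norm_rotv, ← rotv_smul he _ _ (inv_pos.2 (norm_pos_iff.2 x.2)), rotv_unit _ (normv x.2)]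
  have h2 : JR n ((ER hB p).pull Th) = c ^ m * eps m e := by
    rw [hTh, map_mul, map_pow, ← hdb]
    refine JR_conn hn hm he (Deg_pull _ hβ1) ?_ ?_ ?_
    · rw [← pull_comp, ER_nrm]
    · rw [i_pull (rotC he) (rhoC hρ) (ER hB p) heq, hc, AlgHom.commutes]
    · rw [hdb, i_pull (rotC he) (rhoC hρ) (ER hB p) heq, Bas_i _ (Bas_pull _ hf1 om), map_zero]
  have h3 : (∫ x, (tp n ((dd n (BB e)) ^ m) : V n → ℝ) x) = eps m e := by
    unfold eps
    simp only [tp_apply]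
  rw [← hTh, ← map_pow, h1, h2, h3, abs_mul, abs_mul, hs, one_mul, abs_mul, abs_pow, ← sq_abs (eps m e)]
  ring

end Pool.Agent.Lib.MP_ccbbf6_gt.L4
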