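import Pool.Agent.Lib.MP_ccbbf6_gt.L4.Cmp
import Pool.Agent.Lib.MP_ccbbf6_gt.L4.FXb

/-!
# Level 4, comparison lemma for spaces with plots (helper56)
-/

set_option autoImplicit false
set_option maxSynthPendingDepth 3

noncomputable section

namespace Pool.Agent.Lib.MP_ccbbf6_gt.L4.FR

open Finset

variable {X M : Space} {k l n : ℕ} {i j : ℕ}

section ring

variable (c : Circ X)

/-- even closed horizontal forms -/
def Rb : Subalgebra ℝ (Om X) where
  carrier := {w | sO X w = w ∧ dO X w = 0 ∧ iO c w = 0}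
  mul_mem' := fun {a b} ha hb => by
    refine ⟨by rw [map_mul, ha.1, hb.1], ?_, ?_⟩
    · rw [d_mul, ha.2.1, hb.2.1, zero_mul, mul_zero, add_zero]
    · rw [i_mul, ha.2.2, hb.2.2, zero_mul, mul_zero, add_zero]
  add_mem' := fun {a b} ha hb => by
    refine ⟨by rw [map_add, ha.1, hb.1], ?_, ?_⟩
    · rw [map_add, ha.2.1, hb.2.1, add_zero]
    · rw [map_add, ha.2.2, hb.2.2, add_zero]
  algebraMap_mem' := fun r => by
    refine ⟨AlgHom.commutes _ _, ?_, ?_⟩
    · rw [Algebra.algebraMap_eq_smul_one, map_smul, d_one, smul_zero]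
    · rw [Algebra.algebraMap_eq_smul_one, map_smul, i_one, smul_zero]

instance : CommRing (Rb c) :=
  { (inferInstance : Ring (Rb c)) with
    mul_comm := fun a _ => Subtype.ext (even_comm' a.2.1 _) }

lemma Rb_smul (w : Rb c) (x : Om X) : w • x = (w : Om X) * x := rfl

/-- the calculus -/
def Cal (I : Om X →ₗ[ℝ] ℝ) (hd : ∀ x, I (dO X x) = 0) (hi : ∀ x, iO c x = 0 → I x = 0)
    (he : ∀ x, sO X x = x → I x = 0) : Calc (Rb c) (Om X) where
  d := { toFun := dO X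
         map_add' := fun x y => map_add _ x y
         map_smul' := fun w x => by
          rw [RingHom.id_apply, Rb_smul, Rb_smul, d_mul, w.2.2.1, w.2.1, zero_mul, zero_add] }
  ι := { toFun := iO c
         map_add' := fun x y => map_add _ x y
         map_smul' := fun w x => by
          rw [RingHom.id_apply, Rb_smul, Rb_smul, i_mul, w.2.2.2, w.2.1, zero_mul, zero_add] }
  I := I
  u := 1
  I_d := hd
  I_ι := hi
  ιι := i_i c
  stokes := fun x y e e' S hx hy => by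
    have hx' : dO X x = (e : Om X) := by
      have : dO X x = e • (1 : Om X) := hx
      rwa [Rb_smul, mul_one] at this
    have hy' : dO X y = (e' : Om X) := by
      have : dO X y = e' • (1 : Om X) := hy
      rwa [Rb_smul, mul_one] at this
    obtain ⟨z, hz⟩ : ∃ z, z = x - sO X x := ⟨_, rfl⟩
    have hdz : dO X z = (2 : ℝ) • (e : Om X) := by
      have h1 : dO X (sO X x) = -(e : Om X) := by
        rw [← neg_eq_iff_eq_neg, ← s_d, hx', e.2.1]
      rw [hz, map_sub, hx', h1, sub_neg_eq_add, two_smul]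
    have hsz : sO X z = -z := by
      rw [hz, map_sub, s_s, neg_sub]
    have h2 : I (dO X ((S : Om X) * (z * y))) = 0 := hd _
    rw [d_mul, S.2.2.1, zero_mul, zero_add, S.2.1, d_mul, hdz, hsz, hy', mul_add, map_add, smul_mul_assoc,
      mul_smul_comm, map_smul, neg_mul, mul_neg, map_neg] at h2
    have h3 : I ((S : Om X) * (z * (e' : Om X))) = I ((S : Om X) * ((e' : Om X) * x)) -
        I ((S : Om X) * ((e' : Om X) * sO X x)) := by
      rw [← even_comm' e'.2.1 z, hz, mul_sub, mul_sub, map_sub]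
    have h4 : I ((S : Om X) * ((e' : Om X) * x)) + I ((S : Om X) * ((e' : Om X) * sO X x)) = 0 := by
      rw [← map_add, ← mul_add, ← mul_add]
      refine he _ ?_
      rw [map_mul, map_mul, map_add, s_s, S.2.1, e'.2.1, add_comm (sO X x) x]
    have h5 : I ((S : Om X) * ((e : Om X) * y)) = I ((S : Om X) * ((e' : Om X) * x)) := by
      rw [smul_eq_mul] at h2
      linarith
    change I (((S * e : Rb c) : Om X) * y) = I (((S * e' : Rb c) : Om X) * x)
    have e1 : ((S * e : Rb c) : Om X) = (S : Om X) * (e : Om X) := rfl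
    have e2 : ((S * e' : Rb c) : Om X) = (S : Om X) * (e' : Om X) := rfl
    rw [e1, e2, mul_assoc, mul_assoc, h5]

end ring

/-! ### The forms of a homotopy -/

/-- `((x, s), r) ↦ (x, r s)` -/
def SS (X : Space) : SMap X.xR.xR X.xR :=
  ⟨fun z => (z.1.1, z.2 * z.1.2), fun _ p => ⟨p.2.1.1, p.2.2.mul p.2.1.2⟩⟩

lemma SS_one : (SS X).comp (jO X.xR 1) = SMap.id X.xR :=
  SMap_ext fun x => by
    change (x.1, 1 * x.2) = x
    rw [one_mul]
    rfl

lemma SS_zero : (SS X).comp (jO X.xR 0) = (jO X 0).comp (pO X) :=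
  SMap_ext fun x => by
    change (x.1, 0 * x.2) = (x.1, 0)
    rw [zero_mul]

lemma SS_up (t : ℝ) : ∀ x, ((SS X).comp (jO X t).up).1 x = (x.1, x.2 * t) := fun _ => rfl

variable (f : SMap X.xR M) (ω : Om M)

/-- `β^` -/
def bh : Om X.xR := KO X.xR ((SS X).pull (f.pull ω))

/-- `w_t` -/
def wt (t : ℝ) : Om X := (jO X t).pull (f.pull ω)

/-- `β_0` -/
def b0 : Om X := KO X (f.pull ω)

lemma bh_one : (jO X 1).pull (bh f ω) = b0 f ω := by
  unfold bh b0
  have h : (SS X).comp (jO X 1).up = SMap.id X.xR := SMap_ext fun x => by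
    rw [SS_up, mul_one]
    rfl
  rw [← K_up, ← pull_comp (SS X), h]
  rfl

lemma bh_zero : (jO X 0).pull (bh f ω) = 0 := by
  unfold bh
  have h : (SS X).comp (jO X 0).up = (jO X 0).comp (pO X) := SMap_ext fun x => by
    rw [SS_up, mul_zero]
    rfl
  rw [← K_up, ← pull_comp (SS X), h, pull_comp, K_p]

lemma d_bh (hω : dO M ω = 0) : dO X.xR (bh f ω) = f.pull ω - (pO X).pull (wt f ω 0) := by
  have h := d_K ((SS X).pull (f.pull ω))
  have h1 : dO X.xR.xR ((SS X).pull (f.pull ω)) = 0 := by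
    rw [pull_d, pull_d, hω, map_zero, map_zero]
  rw [h1, map_zero, add_zero] at h
  unfold bh wt
  rw [h, ← pull_comp (SS X), ← pull_comp (SS X), SS_one, SS_zero]
  rfl

lemma Deg_bh (h2 : Deg 2 ω) : Deg 1 (bh f ω) := Deg_K (Deg_pull _ (Deg_pull _ h2))

lemma Deg_b0 (h2 : Deg 2 ω) : Deg 1 (b0 f ω) := Deg_K (Deg_pull _ h2)

lemma Deg_wt (h2 : Deg 2 ω) (t : ℝ) : Deg 2 (wt f ω t) := Deg_pull _ (Deg_pull _ h2)

lemma d_wt (hω : dO M ω = 0) (t : ℝ) : dO X (wt f ω t) = 0 := by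
  unfold wt
  rw [pull_d, pull_d, hω, map_zero, map_zero]

lemma s_wt (h2 : Deg 2 ω) (t : ℝ) : sO X (wt f ω t) = wt f ω t := Deg_even (j := 1) (Deg_wt f ω h2 t)

/-- `H = ∑ (p^* w_0)^j (f^* ω)^(m - j)` -/
def HH (m : ℕ) : Om X.xR := ∑ j ∈ range (m + 1), (pO X).pull (wt f ω 0) ^ j * f.pull ω ^ (m - j)

/-- `Θ` -/
def TH (m : ℕ) : Om X.xR := bh f ω * HH f ω m

/-- `ζ_0` -/
def z0 (m : ℕ) : Om X := KO X (TH f ω m)

lemma s_fω (h2 : Deg 2 ω) : sO X.xR (f.pull ω) = f.pull ω := Deg_even (j := 1) (Deg_pull f h2)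

lemma s_HH (h2 : Deg 2 ω) (m : ℕ) : sO X.xR (HH f ω m) = HH f ω m := by
  unfold HH
  rw [map_sum]
  refine sum_congr rfl fun j _ => ?_
  rw [map_mul, map_pow, map_pow, s_fω f ω h2, pull_s, s_wt f ω h2]

lemma d_pow_zero {θ : Om X} (h : dO X θ = 0) (n : ℕ) : dO X (θ ^ n) = 0 := by
  induction n with
  | zero => rw [pow_zero, d_one]
  | succ n ih => rw [pow_succ, d_mul, ih, h, zero_mul, mul_zero, add_zero]

lemma d_HH (hω : dO M ω = 0) (m : ℕ) : dO X.xR (HH f ω m) = 0 := by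
  unfold HH
  rw [map_sum]
  refine sum_eq_zero fun j _ => ?_
  have h1 : dO X.xR ((pO X).pull (wt f ω 0)) = 0 := by rw [pull_d, d_wt f ω hω, map_zero]
  have h2 : dO X.xR (f.pull ω) = 0 := by rw [pull_d, hω, map_zero]
  rw [d_mul, d_pow_zero h1, d_pow_zero h2, zero_mul, mul_zero, add_zero]

lemma d_TH (hω : dO M ω = 0) (h2 : Deg 2 ω) {m : ℕ} (hp : ω ^ (m + 1) = 0) : dO X.xR (TH f ω m) = 0 := by
  unfold TH
  rw [d_mul, d_HH f ω hω, mul_zero, add_zero, d_bh f ω hω]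
  have hc : Commute ((pO X).pull (wt f ω 0)) (f.pull ω) := (even_comm' (s_fω f ω h2) _).symm
  have h3 := hc.mul_geom_sum₂ (m + 1)
  have h4 : (pO X).pull (wt f ω 0) ^ (m + 1) = 0 := by
    unfold wt
    rw [← map_pow, ← map_pow, ← map_pow, hp, map_zero, map_zero, map_zero]
  have h5 : f.pull ω ^ (m + 1) = 0 := by rw [← map_pow, hp, map_zero]
  rw [h4, h5, sub_zero] at h3
  rw [← neg_sub, neg_mul, neg_eq_zero]
  exact h3

lemma d_z0 (hω : dO M ω = 0) (h2 : Deg 2 ω) {m : ℕ} (hp : ω ^ (m + 1) = 0) :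
    dO X (z0 f ω m) = b0 f ω * ∑ j ∈ range (m + 1), wt f ω 0 ^ j * wt f ω 1 ^ (m - j) := by
  have h := d_K (TH f ω m)
  rw [d_TH f ω hω h2 hp, map_zero, add_zero] at h
  unfold z0
  rw [h]
  unfold TH
  rw [map_mul, map_mul, bh_one, bh_zero, zero_mul, sub_zero]
  congr 1
  unfold HH
  rw [map_sum]
  refine sum_congr rfl fun j _ => ?_
  rw [map_mul, map_pow, map_pow, j_p]
  rfl

variable (c : Circ X)

lemma wt_bas {t : ℝ} (h : IMap c (f.comp (jO X t))) : Bas c (wt f ω t) := Bas_pull c h ω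

lemma wt_mem {t : ℝ} (h : IMap c (f.comp (jO X t))) (hω : dO M ω = 0) (h2 : Deg 2 ω) : wt f ω t ∈ Rb c :=
  ⟨s_wt f ω h2 t, d_wt f ω hω t, Bas_i c (wt_bas f ω c h)⟩

/-- the data of the comparison lemma -/
theorem data (I : Om X →ₗ[ℝ] ℝ) (hd : ∀ x, I (dO X x) = 0) (hi : ∀ x, iO c x = 0 → I x = 0)
    (he : ∀ x, sO X x = x → I x = 0) (hω : dO M ω = 0) (h2 : Deg 2 ω) {m : ℕ} (hp : ω ^ (m + 1) = 0)
    (h0 : IMap c (f.comp (jO X 0))) (h1 : IMap c (f.comp (jO X 1))) {a : ℝ}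
    (ha : KO X (c.a.pull (b0 f ω)) = algebraMap ℝ (Om X) a) :
    Data (Cal c I hd hi he) m ⟨wt f ω 0, wt_mem f ω c h0 hω h2⟩ ⟨wt f ω 1, wt_mem f ω c h1 hω h2⟩ a
      (AO c (b0 f ω)) (AO c (z0 f ω m)) where
  p0 := by
    apply Subtype.ext
    change wt f ω 0 ^ (m + 1) = 0
    unfold wt
    rw [← map_pow, ← map_pow, hp, map_zero, map_zero]
  p1 := by
    apply Subtype.ext
    change wt f ω 1 ^ (m + 1) = 0
    unfold wt
    rw [← map_pow, ← map_pow, hp, map_zero, map_zero]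
  dβ := by
    change dO X (AO c (b0 f ω)) = (wt f ω 1 - wt f ω 0) * 1
    have h := d_K (f.pull ω)
    have h3 : dO X.xR (f.pull ω) = 0 := by rw [pull_d, hω, map_zero]
    rw [h3, map_zero, add_zero] at h
    rw [mul_one, A_d]
    unfold b0
    rw [h]
    exact A_bas c (Bas_sub c (wt_bas f ω c h1) (wt_bas f ω c h0))
  ιβ := by
    change iO c (AO c (b0 f ω)) = a • (1 : Om X)
    rw [i_A, ha, Algebra.algebraMap_eq_smul_one]
  dζ := by
    have hH : Bas c (∑ j ∈ range (m + 1), wt f ω 0 ^ j * wt f ω 1 ^ (m - j)) := by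
      refine Finset.sum_induction _ (Bas c) (fun _ _ h h' => Bas_add c h h') ?_ fun j _ => ?_
      · intro k p
        rw [on_zero, on_zero, map_zero]
      · exact Bas_mul c (Bas_pow c (wt_bas f ω c h0) _) (Bas_pow c (wt_bas f ω c h1) _)
    have hs : sO X (∑ j ∈ range (m + 1), wt f ω 0 ^ j * wt f ω 1 ^ (m - j)) =
        ∑ j ∈ range (m + 1), wt f ω 0 ^ j * wt f ω 1 ^ (m - j) := by
      rw [map_sum]
      refine sum_congr rfl fun j _ => ?_
      rw [map_mul, map_pow, map_pow, s_wt f ω h2, s_wt f ω h2]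
    have hh : ((hm m (⟨wt f ω 0, wt_mem f ω c h0 hω h2⟩ : Rb c) ⟨wt f ω 1, wt_mem f ω c h1 hω h2⟩ : Rb c) : Om X) =
        ∑ j ∈ range (m + 1), wt f ω 0 ^ j * wt f ω 1 ^ (m - j) := by
      unfold L4.hm
      rw [AddSubmonoidClass.coe_finsetSum]
      rfl
    change dO X (AO c (z0 f ω m)) = (L4.hm m _ _ : Rb c) • AO c (b0 f ω)
    rw [Rb_smul, hh, A_d, d_z0 f ω hω h2 hp, ← even_comm' hs, A_mul c hH]
  ιζ := by
    change iO c (dO X (AO c (z0 f ω m))) = -dO X (iO c (AO c (z0 f ω m)))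
    rw [cartan c (A_inv c _), neg_neg]

end Pool.Agent.Lib.MP_ccbbf6_gt.L4.FR
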