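import Pool.Agent.Lib.MP_ccbbf6_gt.L4.EB
import Pool.Agent.Lib.MP_ccbbf6_gt.L4.FRt

/-!
# Level 4, VOL1: the top coefficient of the powers of `∑ B i j du_i dv_j`
-/

set_option autoImplicit false
set_option maxSynthPendingDepth 3

noncomputable section

namespace Pool.Agent.Lib.MP_ccbbf6_gt.L4

open FR EUL

section alg

variable {R : Type*} [Ring R]

theorem vo_binom {x S : R} (hx : x * x = 0) (hc : x * S = S * x) (k : ℕ) :
    (x + S) ^ (k + 1) = S ^ (k + 1) + (k + 1) • (x * S ^ k) := by
  have hc' : ∀ j : ℕ, S ^ j * x = x * S ^ j := by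
    intro j
    have h1 : Commute x S := hc
    exact ((h1.pow_right j).eq).symm
  induction k with
  | zero =>
    rw [pow_zero, mul_one, zero_add, pow_one, pow_one, one_smul, add_comm]
  | succ k ih =>
    rw [pow_succ, ih, add_mul, mul_add, mul_add, smul_mul_assoc, smul_mul_assoc, mul_assoc x, hc' k, ← mul_assoc x x,
      hx, zero_mul, smul_zero, zero_add, hc' (k + 1), mul_assoc x, ← pow_succ, ← pow_succ, add_comm (x * S ^ (k + 1)),
      add_assoc, ← succ_nsmul']

theorem vo_list {ι : Type*} (ω : ι → R) (h0 : ∀ i, ω i * ω i = 0) (hc : ∀ i j, ω i * ω j = ω j * ω i) (t : List ι) :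
    (t.map ω).sum ^ (t.length + 1) = 0 ∧ (t.map ω).sum ^ t.length = t.length.factorial • (t.map ω).prod := by
  induction t with
  | nil => simp
  | cons a t ih =>
    obtain ⟨h1, h2⟩ := ih
    have h3 : ω a * (t.map ω).sum = (t.map ω).sum * ω a := by
      clear h1 h2
      induction t with
      | nil => simp
      | cons b t ih => rw [List.map_cons, List.sum_cons, mul_add, add_mul, ih, hc]
    rw [List.map_cons, List.sum_cons, List.prod_cons, List.length_cons]
    constructor
    · rw [vo_binom (h0 a) h3, h1, mul_zero, smul_zero, add_zero, pow_succ, h1, zero_mul]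
    · rw [vo_binom (h0 a) h3, h1, zero_add, h2, Nat.factorial_succ, mul_smul_comm, smul_smul]

end alg

variable {k n : ℕ}

theorem topE_list (l : List (Fin k)) (hl : l.length = k) (hn : l.Nodup) : |topE k (l.map ee).prod| = 1 := by
  set v : Fin k → V k := fun i => Pi.single (l.get (i.cast hl.symm)) 1 with hv
  have h1 : (l.map (ee (k := k))) = List.ofFn fun i : Fin k => ExteriorAlgebra.ι ℝ (v i) := by
    refine List.ext_getElem (by simp [hl]) fun i h1 h2 => ?_
    simp only [List.getElem_map, List.getElem_ofFn, hv, List.get_eq_getElem, Fin.cast_mk]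
    rfl
  have h2 : (l.map (ee (k := k))).prod = ExteriorAlgebra.ιMulti ℝ k v := by
    rw [h1, ExteriorAlgebra.ιMulti_apply]
  rw [h2, topE_ιMulti]
  set A := Matrix.of v with hA
  have h3 : A * A.transpose = 1 := by
    ext i j
    rw [Matrix.mul_apply, Matrix.one_apply]
    have h4 : ∀ a, A i a * A.transpose a j = if a = l.get (i.cast hl.symm) then A j a else 0 := by
      intro a
      rw [Matrix.transpose_apply]
      change (Pi.single (l.get (i.cast hl.symm)) (1 : ℝ) : V k) a * A j a = _
      rw [Pi.single_apply]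
      split_ifs <;> simp
    simp only [h4]
    rw [Finset.sum_ite_eq', if_pos (Finset.mem_univ _)]
    change (Pi.single (l.get (j.cast hl.symm)) (1 : ℝ) : V k) (l.get (i.cast hl.symm)) = _
    rw [Pi.single_apply]
    by_cases h : i = j
    · rw [if_pos h, if_pos (by rw [h])]
    · rw [if_neg h, if_neg]
      intro h5
      have h6 := (List.nodup_iff_injective_get.1 hn) h5
      apply h
      have h7 := congrArg Fin.val h6
      simp only [Fin.val_cast] at h7
      exact Fin.ext h7
  have h4 := congrArg Matrix.det h3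
  rw [Matrix.det_mul, Matrix.det_transpose, Matrix.det_one] at h4
  have h5 : |A.det| * |A.det| = 1 := by
    rw [← abs_mul, h4, abs_one]
  nlinarith [abs_nonneg A.det]

/-- `du_i` -/
def eu (i : Fin n) : Ex (n + n) := ee (Fin.castAdd n i)

/-- `dv_j` -/
def ev' (j : Fin n) : Ex (n + n) := ee (Fin.natAdd n j)

theorem ee_sq (i : Fin k) : ee i * ee i = 0 := by
  unfold ee
  exact ExteriorAlgebra.ι_sq_zero _

theorem vo_flat (t : List (Fin n)) : (t.map fun i => eu i * ev' i).prod =
    ((t.flatMap fun i => [Fin.castAdd n i, Fin.natAdd n i]).map (ee (k := n + n))).prod := by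
  induction t with
  | nil => simp
  | cons a t ih =>
    rw [List.map_cons, List.prod_cons, ih, List.flatMap_cons, List.map_append, List.prod_append]
    simp [eu, ev']

theorem vo_one : |topE (n + n) ((∑ i : Fin n, eu i * ev' i) ^ n)| = n.factorial := by
  have h0 : ∀ i : Fin n, (eu i * ev' i) * (eu i * ev' i) = 0 := by
    intro i
    have h1 : ev' i * eu i = -(eu i * ev' i) := ee_swap _ _
    rw [mul_assoc, ← mul_assoc (ev' i), h1, neg_mul, mul_neg, ← mul_assoc, ← mul_assoc]
    have h2 : eu i * eu i = 0 := ee_sq _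
    rw [h2, zero_mul, zero_mul, neg_zero]
  have hc : ∀ i j : Fin n, (eu i * ev' i) * (eu j * ev' j) = (eu j * ev' j) * (eu i * ev' i) :=
    fun i j => ι2_central _ _ _
  have h1 := (vo_list (fun i : Fin n => eu i * ev' i) h0 hc (List.finRange n)).2
  rw [List.length_finRange, ← Fin.sum_univ_def, vo_flat] at h1
  rw [h1, map_nsmul, nsmul_eq_mul, abs_mul, Nat.abs_cast, topE_list, mul_one]
  · rw [List.length_flatMap]
    simp
    ring
  · rw [List.nodup_flatMap]
    constructor
    · intro i _
      rw [List.nodup_cons]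
      refine ⟨?_, List.nodup_singleton _⟩
      rw [List.mem_singleton]
      intro h
      have := congrArg Fin.val h
      simp only [Fin.val_castAdd, Fin.val_natAdd] at this
      omega
    · refine (List.nodup_finRange n).imp ?_
      intro a b hab
      rw [Function.onFun, List.disjoint_left]
      intro c hc hc'
      simp only [List.mem_cons, List.not_mem_nil, or_false] at hc hc'
      rcases hc with rfl | rfl
      · rcases hc' with h | h
        · have := congrArg Fin.val h
          simp only [Fin.val_castAdd] at this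
          exact hab (Fin.ext this)
        · have := congrArg Fin.val h
          simp only [Fin.val_castAdd, Fin.val_natAdd] at this
          omega
      · rcases hc' with h | h
        · have := congrArg Fin.val h
          simp only [Fin.val_castAdd, Fin.val_natAdd] at this
          omega
        · have := congrArg Fin.val h
          simp only [Fin.val_natAdd] at this
          exact hab (Fin.ext (by omega))

/-- the two-form `∑ B i j du_i dv_j` -/
def Ob (B : Matrix (Fin n) (Fin n) ℝ) : Ex (n + n) := ∑ i, ∑ j, B i j • (eu i * ev' j)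

/-- block matrix -/
def Tb (B : Matrix (Fin n) (Fin n) ℝ) : Matrix (Fin (n + n)) (Fin (n + n)) ℝ :=
  (Matrix.fromBlocks 1 0 0 B.transpose).submatrix finSumFinEquiv.symm finSumFinEquiv.symm

theorem det_Tb (B : Matrix (Fin n) (Fin n) ℝ) : (Tb B).det = B.det := by
  unfold Tb
  rw [Matrix.det_submatrix_equiv_self, Matrix.det_fromBlocks_zero₂₁, Matrix.det_one, one_mul, Matrix.det_transpose]

theorem Tb_eu (B : Matrix (Fin n) (Fin n) ℝ) (i : Fin n) : ExteriorAlgebra.map (Matrix.toLin' (Tb B)) (eu i) = eu i := by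
  unfold eu ee
  rw [ExteriorAlgebra.map_apply_ι]
  congr 1
  funext a
  rw [Matrix.toLin'_apply, Matrix.mulVec_single_one]
  refine Fin.addCases (fun a => ?_) (fun a => ?_) a
  · simp [Tb, Matrix.col, Matrix.one_apply, Pi.single_apply]
  · simp only [Tb, Matrix.col, Matrix.submatrix_apply, finSumFinEquiv_symm_apply_castAdd,
      finSumFinEquiv_symm_apply_natAdd, Matrix.fromBlocks_apply₂₁, Matrix.zero_apply, Matrix.transpose_apply]
    rw [Pi.single_eq_of_ne]
    intro h
    have := congrArg Fin.val h
    simp only [Fin.val_castAdd, Fin.val_natAdd] at this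
    omega

theorem Tb_ev (B : Matrix (Fin n) (Fin n) ℝ) (i : Fin n) : ExteriorAlgebra.map (Matrix.toLin' (Tb B)) (ev' i) =
    ∑ j, B i j • ev' j := by
  have h1 : (∑ j, B i j • (ev' j : Ex (n + n))) =
      ExteriorAlgebra.ι ℝ (∑ j, B i j • (Pi.single (Fin.natAdd n j) (1 : ℝ) : V (n + n))) := by
    rw [map_sum]
    refine Finset.sum_congr rfl fun j _ => ?_
    rw [map_smul]
    rfl
  rw [h1]
  unfold ev' ee
  rw [ExteriorAlgebra.map_apply_ι]
  congr 1
  funext a
  rw [Matrix.toLin'_apply, Matrix.mulVec_single_one, Finset.sum_apply]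
  refine Fin.addCases (fun a => ?_) (fun a => ?_) a
  · simp only [Tb, Matrix.col, Matrix.submatrix_apply, finSumFinEquiv_symm_apply_castAdd,
      finSumFinEquiv_symm_apply_natAdd, Matrix.fromBlocks_apply₁₂, Matrix.zero_apply, Pi.smul_apply, smul_eq_mul,
      Matrix.transpose_apply]
    refine (Finset.sum_eq_zero fun j _ => ?_).symm
    rw [Pi.single_eq_of_ne, mul_zero]
    intro h
    have := congrArg Fin.val h
    simp only [Fin.val_castAdd, Fin.val_natAdd] at this
    omega
  · simp only [Tb, Matrix.col, Matrix.submatrix_apply, finSumFinEquiv_symm_apply_natAdd, Matrix.fromBlocks_apply₂₂,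
      Matrix.transpose_apply, Pi.smul_apply, smul_eq_mul]
    rw [Finset.sum_eq_single a]
    · rw [Pi.single_eq_same, mul_one]
    · intro j _ hj
      rw [Pi.single_eq_of_ne, mul_zero]
      intro h
      have := congrArg Fin.val h
      simp only [Fin.val_natAdd] at this
      exact hj (Fin.ext (by omega))
    · intro h
      exact absurd (Finset.mem_univ a) h

/-- **VOL1** -/
theorem topE_Ob (B : Matrix (Fin n) (Fin n) ℝ) :
    topE (n + n) (Ob B ^ n) = B.det * topE (n + n) ((∑ i : Fin n, eu i * ev' i) ^ n) := by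
  have h1 : Ob B = ExteriorAlgebra.map (Matrix.toLin' (Tb B)) (∑ i : Fin n, eu i * ev' i) := by
    unfold Ob
    rw [map_sum]
    refine Finset.sum_congr rfl fun i _ => ?_
    rw [map_mul, Tb_eu, Tb_ev, Finset.mul_sum]
    exact Finset.sum_congr rfl fun j _ => (mul_smul_comm _ _ _).symm
  rw [h1, ← map_pow, topE_map, LinearMap.det_toLin', det_Tb]

/-- the sign of the form `du_1 dv_1 ... du_n dv_n` -/
def sn (n : ℕ) : ℝ := topE (n + n) ((∑ i : Fin n, eu i * ev' i) ^ n) / n.factorial

theorem abs_sn (n : ℕ) : |sn n| = 1 := by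
  unfold sn
  rw [abs_div, vo_one, Nat.abs_cast, div_self (by positivity)]

theorem topE_Ob' (B : Matrix (Fin n) (Fin n) ℝ) : topE (n + n) (Ob B ^ n) = sn n * n.factorial * B.det := by
  rw [topE_Ob, sn]
  field_simp

/-- the algebra of VOL2 -/
theorem vol2_alg {m : ℕ} (p q : Fin (m + 1) → ℝ) (B : Matrix (Fin (m + 1)) (Fin (m + 1)) ℝ) {f : ℝ} (hf : 0 < f)
    (hB : B.det = 0) {X Y : Ex (m + 1 + (m + 1))} (hX : X = ∑ i, p i • eu i) (hY : Y = ∑ j, q j • ev' j) :
    topE (m + 1 + (m + 1)) ((X + Y) * (-X) * Ob B ^ m) =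
      sn (m + 1) * m.factorial * (Matrix.of fun i j => p i * q j + f * B i j).det / f ^ m := by
  obtain ⟨x, hx⟩ : ∃ x : V (m + 1 + (m + 1)), X = ExteriorAlgebra.ι ℝ x :=
    ⟨∑ i, p i • (Pi.single (Fin.castAdd (m + 1) i) (1 : ℝ)), by
      rw [hX, map_sum]
      refine Finset.sum_congr rfl fun i _ => ?_
      rw [map_smul]
      rfl⟩
  obtain ⟨y, hy⟩ : ∃ y : V (m + 1 + (m + 1)), Y = ExteriorAlgebra.ι ℝ y :=
    ⟨∑ i, q i • (Pi.single (Fin.natAdd (m + 1) i) (1 : ℝ)), by
      rw [hY, map_sum]
      refine Finset.sum_congr rfl fun i _ => ?_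
      rw [map_smul]
      rfl⟩
  have hXX : X * X = 0 := by
    rw [hx]
    exact ExteriorAlgebra.ι_sq_zero _
  have hYX : Y * X = -(X * Y) := by
    rw [hx, hy]
    exact eq_neg_of_add_eq_zero_left (ExteriorAlgebra.ι_add_mul_swap _ _)
  have h1 : (X + Y) * (-X) = X * Y := by
    rw [mul_neg, add_mul, hXX, zero_add, hYX, neg_neg]
  have h2 : X * Y * (X * Y) = 0 := by
    rw [mul_assoc, ← mul_assoc Y, hYX, neg_mul, mul_neg, ← mul_assoc, ← mul_assoc, hXX, zero_mul, zero_mul, neg_zero]
  have h3 : X * Y * (f • Ob B) = (f • Ob B) * (X * Y) := by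
    rw [hx, hy]
    exact ι2_central _ _ _
  have h4 : Ob (Matrix.of fun i j => p i * q j + f * B i j) = X * Y + f • Ob B := by
    unfold Ob
    rw [hX, hY, Finset.sum_mul_sum, Finset.smul_sum, ← Finset.sum_add_distrib]
    refine Finset.sum_congr rfl fun i _ => ?_
    rw [Finset.smul_sum, ← Finset.sum_add_distrib]
    refine Finset.sum_congr rfl fun j _ => ?_
    rw [Matrix.of_apply, add_smul, smul_mul_smul_comm, smul_smul]
  have h5 := topE_Ob' (Matrix.of fun i j => p i * q j + f * B i j)
  rw [h4, vo_binom h2 h3, map_add, smul_pow, map_smul, topE_Ob', hB, mul_zero, smul_zero, zero_add, smul_pow,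
    mul_smul_comm, map_nsmul, map_smul, smul_eq_mul, nsmul_eq_mul, Nat.factorial_succ] at h5
  rw [h1, eq_div_iff (by positivity)]
  push_cast at h5
  have h6 : ((m : ℝ) + 1) ≠ 0 := by positivity
  apply mul_left_cancel₀ h6
  linarith

end Pool.Agent.Lib.MP_ccbbf6_gt.L4
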