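import Pool.Agent.Lib.MP_ccbbf6_gt.Geo.Area2
import Pool.Agent.Lib.MP_ccbbf6_gt.Geo.MEe
import Pool.Agent.Lib.MP_ccbbf6_gt.L4.Eps

/-!
# Level 4: the integral of `χ'(d) / J`
-/

set_option autoImplicit false

open MeasureTheory Set Filter Topology Metric Real
open scoped ContDiff RealInnerProductSpace ENNReal NNReal

noncomputable section

namespace Pool.Agent.Lib.MP_ccbbf6_gt.L4

open Geo

theorem dchi_zero {r : ℝ} (h : r < 1 ∨ 2 < r) : deriv chi r = 0 := by
  rcases h with h | h
  · have h1 : chi =ᶠ[𝓝 r] fun _ => 0 := by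
      filter_upwards [gt_mem_nhds h] with s hs
      exact chi_zero (le_of_lt hs)
    rw [h1.deriv_eq, deriv_const]
  · have h1 : chi =ᶠ[𝓝 r] fun _ => 1 := by
      filter_upwards [lt_mem_nhds h] with s hs
      exact chi_one (le_of_lt hs)
    rw [h1.deriv_eq, deriv_const]

theorem dchi_cont : Continuous (deriv chi) := contDiff_chi.continuous_deriv (by simp)

theorem dchi_integral : ∫ r in Ioi (0 : ℝ), deriv chi r = 1 := by
  have h1 : ∫ r in Ioi (0 : ℝ), deriv chi r = ∫ r in Ioc (0 : ℝ) 3, deriv chi r := by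
    refine setIntegral_eq_of_subset_of_forall_sdiff_eq_zero measurableSet_Ioi Ioc_subset_Ioi_self fun r hr => ?_
    have h2 : 3 < r := by
      by_contra h
      exact hr.2 ⟨hr.1, not_lt.1 h⟩
    exact dchi_zero (Or.inr (by linarith))
  rw [h1, ← intervalIntegral.integral_of_le (by norm_num),
    intervalIntegral.integral_deriv_eq_sub (fun r _ => contDiff_chi.differentiable (by simp) r)
      (dchi_cont.intervalIntegrable _ _), chi_one (by norm_num), chi_zero (by norm_num), sub_zero]

variable {n : ℕ} {M : Type*} [MetricSpace M] [CompactSpace M] (𝒜 : SDist n M)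

theorem vol3_cont (hB : Bl M) (x : M) : Continuous fun y => deriv chi (dist x y) / 𝒜.J x y := by
  rw [continuous_iff_continuousAt]
  intro y
  by_cases h : 0 < dist x y ∧ dist x y < π
  · have hg := SDist.gj 𝒜 hB
    have h1 : ContinuousAt (fun z : M × M => 𝒜.J z.1 z.2) (x, y) := by
      refine hg.Jcont.continuousAt ?_
      refine IsOpen.mem_nhds ?_ h
      exact (isOpen_lt continuous_const continuous_dist).inter (isOpen_lt continuous_dist continuous_const)
    have h2 : ContinuousAt (fun y : M => 𝒜.J x y) y :=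
      ContinuousAt.comp (g := fun z : M × M => 𝒜.J z.1 z.2) (f := fun y : M => (x, y)) h1
        (continuousAt_const.prodMk continuousAt_id)
    exact (dchi_cont.comp (continuous_const.dist continuous_id)).continuousAt.div h2 (hg.Jpos x y h.1 h.2).ne'
  · have h1 : dist x y < 1 ∨ 2 < dist x y := by
      by_contra h2
      push Not at h2
      exact h ⟨by linarith [h2.1], by linarith [h2.2, Real.pi_gt_three]⟩
    have hd : ContinuousAt (fun y => dist x y) y := (continuous_const.dist continuous_id).continuousAt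
    have h3 : ∀ᶠ y' in 𝓝 y, dist x y' < 1 ∨ 2 < dist x y' := by
      rcases h1 with h1 | h1
      · filter_upwards [hd.eventually (gt_mem_nhds h1)] with y' hy'
        exact Or.inl hy'
      · filter_upwards [hd.eventually (lt_mem_nhds h1)] with y' hy'
        exact Or.inr hy'
    refine (continuousAt_const (y := (0 : ℝ))).congr ?_
    filter_upwards [h3] with y' hy'
    rw [dchi_zero hy', zero_div]

variable [MeasurableSpace M] [BorelSpace M]

/-- integrals in the exponential chart -/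
theorem vol3_area (hB : Bl M) (x : M) {f : M → ℝ} (hf : Continuous f) :
    ∫ y, f y ∂(μHE[n] : Measure M) = ∫ ξ in ball (0 : Eu n) π, (𝒜.theta x (𝒜.Ex x ξ))⁻¹ * f (𝒜.Ex x ξ) := by
  have hfin := finite_of_sdist 𝒜
  have hθc := continuousOn_theta_Ex 𝒜 hB x
  have hθp : ∀ ξ ∈ ball (0 : Eu n) π, 0 < 𝒜.theta x (𝒜.Ex x ξ) := fun ξ hξ =>
    theta_Ex_pos 𝒜 hB x (by simpa using hξ)
  have hi : ContinuousOn (fun ξ => (𝒜.theta x (𝒜.Ex x ξ))⁻¹) (ball (0 : Eu n) π) :=
    hθc.inv₀ fun ξ hξ => (hθp ξ hξ).ne'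
  have hEx : Continuous (𝒜.Ex x) := continuous_Ex 𝒜 hB x
  -- positive functions
  have key : ∀ g : M → ℝ, Continuous g → (∀ y, 0 ≤ g y) →
      ∫ y, g y ∂(μHE[n] : Measure M) = ∫ ξ in ball (0 : Eu n) π, (𝒜.theta x (𝒜.Ex x ξ))⁻¹ * g (𝒜.Ex x ξ) := by
    intro g hg hg0
    rw [integral_eq_lintegral_of_nonneg_ae (Eventually.of_forall hg0) hg.aestronglyMeasurable,
      integral_eq_lintegral_of_nonneg_ae, ar_area 𝒜 hB x (f := fun y => ENNReal.ofReal (g y))
        hg.measurable.ennreal_ofReal]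
    · congr 1
      refine setLIntegral_congr_fun measurableSet_ball fun ξ hξ => ?_
      rw [ENNReal.ofReal_mul (inv_nonneg.2 (hθp ξ hξ).le)]
    · rw [EventuallyLE, ae_restrict_iff' measurableSet_ball]
      exact Eventually.of_forall fun ξ hξ => mul_nonneg (inv_nonneg.2 (hθp ξ hξ).le) (hg0 _)
    · exact (hi.mul (hg.comp hEx).continuousOn).aestronglyMeasurable measurableSet_ball
  have hint : ∀ g : M → ℝ, Continuous g → Integrable g (μHE[n] : Measure M) := fun g hg =>
    hg.integrable_of_hasCompactSupport (HasCompactSupport.of_compactSpace _)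
  obtain ⟨C, hC⟩ : ∃ C : ℝ, ∀ y, |f y| ≤ C := by
    obtain ⟨C, hC⟩ := isCompact_univ.exists_bound_of_continuousOn (f := f) hf.continuousOn
    exact ⟨C, fun y => hC y (mem_univ _)⟩
  have hθint : IntegrableOn (fun ξ => (𝒜.theta x (𝒜.Ex x ξ))⁻¹) (ball (0 : Eu n) π) := by
    have h1 := ar_area 𝒜 hB x (f := fun _ => 1) measurable_const
    simp only [lintegral_const, one_mul, mul_one] at h1
    refine ⟨hi.aestronglyMeasurable measurableSet_ball, ?_⟩
    rw [hasFiniteIntegral_iff_ofReal]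
    · rw [← h1]
      exact measure_lt_top _ _
    · rw [EventuallyLE, ae_restrict_iff' measurableSet_ball]
      exact Eventually.of_forall fun ξ hξ => inv_nonneg.2 (hθp ξ hξ).le
  have h1 := key (fun y => f y + C) (hf.add continuous_const) fun y => by
    have := (abs_le.1 (hC y)).1
    linarith
  have h2 := key (fun _ => |C|) continuous_const fun _ => abs_nonneg _
  have hfE : IntegrableOn (fun ξ => (𝒜.theta x (𝒜.Ex x ξ))⁻¹ * f (𝒜.Ex x ξ)) (ball (0 : Eu n) π) := by
    refine Integrable.mono' (hθint.mul_const C) ((hi.mul (hf.comp hEx).continuousOn).aestronglyMeasurable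
      measurableSet_ball) ?_
    rw [ae_restrict_iff' measurableSet_ball]
    refine Eventually.of_forall fun ξ hξ => ?_
    rw [norm_mul, Real.norm_of_nonneg (inv_nonneg.2 (hθp ξ hξ).le)]
    exact mul_le_mul_of_nonneg_left (hC _) (inv_nonneg.2 (hθp ξ hξ).le)
  have h3 := key (fun _ => C) continuous_const fun _ => (abs_nonneg _).trans (hC x)
  rw [integral_add (hint f hf) (hint _ continuous_const)] at h1
  simp only [mul_add] at h1
  rw [integral_add hfE (hθint.mul_const C), h3] at h1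
  linarith

/-- **VOL3** -/
theorem vol3 (hn : 0 < n) (hB : Bl M) (x : M) : ∫ y, deriv chi (dist x y) / 𝒜.J x y ∂(μHE[n] : Measure M) =
    n * (volume (ball (0 : Eu n) 1)).toReal := by
  have : Nonempty (Fin n) := ⟨⟨0, hn⟩⟩
  have : Nontrivial (Eu n) := inferInstance
  rw [vol3_area 𝒜 hB x (vol3_cont 𝒜 hB x)]
  set g : ℝ → ℝ := fun r => deriv chi r / r ^ (n - 1) with hg
  have h1 : ∫ ξ in ball (0 : Eu n) π, (𝒜.theta x (𝒜.Ex x ξ))⁻¹ *
      (deriv chi (dist x (𝒜.Ex x ξ)) / 𝒜.J x (𝒜.Ex x ξ)) = ∫ ξ in ball (0 : Eu n) π, g ‖ξ‖ := by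
    refine setIntegral_congr_fun measurableSet_ball fun ξ hξ => ?_
    have hξ' : ‖ξ‖ < π := by simpa using hξ
    have hd := dist_Ex 𝒜 hB x hξ'.le
    have hθ := theta_Ex_pos 𝒜 hB x hξ'
    simp only [hg]
    rw [SDist.J, hd]
    by_cases h0 : ‖ξ‖ = 0
    · rw [h0, dchi_zero (Or.inl one_pos)]
      simp
    · field_simp
  have h2 : ∫ ξ in ball (0 : Eu n) π, g ‖ξ‖ = ∫ ξ : Eu n, g ‖ξ‖ := by
    refine setIntegral_eq_integral_of_forall_compl_eq_zero fun ξ hξ => ?_
    have hξ' : π ≤ ‖ξ‖ := by simpa using hξ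
    simp only [hg]
    rw [dchi_zero (Or.inr (by linarith [Real.pi_gt_three])), zero_div]
  rw [h1, h2, integral_fun_norm_addHaar (volume : Measure (Eu n)) g, finrank_euclideanSpace_fin]
  have h3 : ∫ y in Ioi (0 : ℝ), y ^ (n - 1) • g y = ∫ y in Ioi (0 : ℝ), deriv chi y := by
    refine setIntegral_congr_fun measurableSet_Ioi fun y hy => ?_
    have hy' : 0 < y := hy
    simp only [hg, smul_eq_mul]
    field_simp
  rw [h3, dchi_integral, smul_eq_mul, mul_one, nsmul_eq_mul]
  rfl

end Pool.Agent.Lib.MP_ccbbf6_gt.L4
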