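import Pool.Agent.Lib.MP_ccbbf6_gt.L4.FI7
import Pool.Agent.Lib.MP_ccbbf6_gt.L4.VOL3

/-!
# Level 4: the volume of `M` as an integral over the space of geodesics
-/

set_option autoImplicit false
set_option maxSynthPendingDepth 3

open MeasureTheory Measure Set Filter Topology Metric Real
open scoped ContDiff RealInnerProductSpace ENNReal NNReal

noncomputable section

namespace Pool.Agent.Lib.MP_ccbbf6_gt.L4

open Geo FR

variable {n : ℕ} {M : Type} [MetricSpace M] [CompactSpace M] {𝒜 : SDist n M} [MeasurableSpace M] [BorelSpace M]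

/-- **VOL**, from the value of the density -/
theorem vol_of_dens (hn : 0 < n) (hB : Bl M) {Θ : Om (spG 𝒜)} {C : ℝ}
    (h : ∀ z : M × M, 0 < dist z.1 z.2 → dist z.1 z.2 < π → FW 𝒜 (dchi 𝒜 hB * (GW hB).pull Θ) z =
      C * (deriv chi (dist z.1 z.2) / 𝒜.J z.1 z.2)) :
    TG hB Θ = C * (n * (volume (ball (0 : Eu n) 1)).toReal * ((μHE[n] : Measure M) univ).toReal) := by
  have := finite_of_sdist 𝒜
  rw [TG_apply, IW_eq]
  have hs : Supp 𝒜 (C12 M) (dchi 𝒜 hB * (GW hB).pull Θ) := (supp_dchi 𝒜 hB).mul_right _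
  have hi := integrable_FW 𝒜 hB isClosed_C12 inW_C12 hs
  have h1 : ∀ z : M × M, FW 𝒜 (dchi 𝒜 hB * (GW hB).pull Θ) z = C * (deriv chi (dist z.1 z.2) / 𝒜.J z.1 z.2) := by
    intro z
    by_cases hz : 0 < dist z.1 z.2 ∧ dist z.1 z.2 < π
    · exact h z hz.1 hz.2
    · unfold FW
      rw [dens_eq_zero 𝒜 _ hz, mul_zero, dchi_zero, zero_div, mul_zero]
      by_contra h2
      push Not at h2
      exact hz ⟨by linarith [h2.1], by linarith [h2.2, Real.pi_gt_three]⟩
  rw [integral_prod _ hi]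
  simp only [h1]
  have h2 : ∀ x : M, ∫ y, C * (deriv chi (dist x y) / 𝒜.J x y) ∂(μHE[n] : Measure M) =
      C * (n * (volume (ball (0 : Eu n) 1)).toReal) := by
    intro x
    rw [integral_const_mul, vol3 𝒜 hn hB x]
  simp only [h2]
  rw [integral_const, smul_eq_mul, measureReal_def]
  ring

end Pool.Agent.Lib.MP_ccbbf6_gt.L4
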