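import Pool.Agent.Lib.MP_ccbbf6_gt.L4.AL
import Pool.Agent.Lib.MP_ccbbf6_gt.L4.VO1
import Pool.Agent.Lib.MP_ccbbf6_gt.L4.VOL

/-!
# Level 4, VOL2: the density of `dχ ∧ G^*(A (dA)^(n-1))`
-/

set_option autoImplicit false
set_option maxSynthPendingDepth 3

open MeasureTheory Measure Set Filter Topology Metric Real
open scoped ContDiff RealInnerProductSpace ENNReal NNReal

noncomputable section

namespace Pool.Agent.Lib.MP_ccbbf6_gt.L4

open Geo FR EUL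

variable {n : ℕ} {M : Type} [MetricSpace M] [CompactSpace M] {𝒜 : SDist n M} {k : ℕ}

theorem alc_GW (hB : Bl M) (p : (spW 𝒜).Plot k) (i : Fin k) (u : V k) : alc ((GW hB).pl p) i u =
    -(2 * π)⁻¹ * fderiv ℝ (fun v => dist (p.1 v).1.1 (p.1 u).1.2) u (Pi.single i 1) := by
  rw [alc_eq hB]
  have h0 : ∀ v, 0 < dist (p.1 v).1.1 (p.1 v).1.2 := fun v => (p.1 v).2.1
  have hne : ∀ v, (p.1 v).1.1 ≠ (p.1 v).1.2 := fun v => dist_pos.1 (h0 v)
  have hg : ∀ v, (((GW hB).pl p).1 v : Gs M).1 = gd (p.1 v).1.1 (p.1 v).1.2 := fun v => rfl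
  have hx : ∀ v, (((GW hB).pl p).1 v : Gs M).1 0 = (p.1 v).1.1 := fun v => by
    rw [hg]
    exact (gd_spec 𝒜 hB (hne v)).2.1
  have hy : (((GW hB).pl p).1 u : Gs M).1 (0 + dist (p.1 u).1.1 (p.1 u).1.2) = (p.1 u).1.2 := by
    rw [hg, zero_add]
    exact (gd_spec 𝒜 hB (hne u)).2.2
  have h2 := D1_forward 𝒜 hB (((GW hB).pl p).1 u : Gs M).2 (s := 0) (h0 u) (p.1 u).2.2
    (fderiv ℝ (fun v => 𝒜.ψ (p.1 u).1.1 (p.1 v).1.1) u (Pi.single i 1))
  rw [hx, hy] at h2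
  have hX : SmAt 𝒜 (fun v => (p.1 v).1.1) u := p.2.1 u
  have h3 := al_fderiv hB hX (smAt_const (𝒜 := 𝒜) (p.1 u).1.2 u) (h0 u) (p.1 u).2.2 (Pi.single i 1)
  simp only [fderiv_fun_const] at h3
  have h4 : ((0 : V k → V k →L[ℝ] Eu n) u) (Pi.single i 1) = 0 := rfl
  rw [h4, map_zero, add_zero, h2] at h3
  rw [h3]
  simp only [hx]
  ring

section origin

variable {x y : M} {P : (spW 𝒜).Plot (n + n)}

/-- the coefficients of the contact form near the origin of the product chart -/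
theorem alc_near (hB : Bl M) (h0 : 0 < dist x y) (h1 : dist x y < π)
    (hP : (fun w => jW 𝒜 (P.1 w)) =ᶠ[𝓝 0] Pab 𝒜 x y) (i : Fin (n + n)) :
    alc ((GW hB).pl P) i =ᶠ[𝓝 0] fun w => -(2 * π)⁻¹ * fderiv ℝ (𝒜.f x y) (spl n w)
      ((spl n (Pi.single i 1)).1, 0) := by
  have hf : ∀ᶠ w in 𝓝 (0 : V (n + n)), DifferentiableAt ℝ (𝒜.f x y) (spl n w) := by
    have h2 := sm0_ev ((contDiffAt_f 𝒜 hB h0 h1).of_le two_le_infty)
    have h3 : Tendsto (spl n) (𝓝 0) (𝓝 ((0, 0) : Eu n × Eu n)) := by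
      have := (spl n).continuous.tendsto 0
      rwa [map_zero] at this
    exact h3.eventually h2
  filter_upwards [hP.eventually_nhds, hf] with w hw hfw
  rw [alc_GW]
  congr 1
  have hw0 : (P.1 w).1 = Pab 𝒜 x y w := hw.self_of_nhds
  have h2 : (fun v => dist (P.1 v).1.1 (P.1 w).1.2) =ᶠ[𝓝 w] fun v => 𝒜.f x y ((spl n v).1, (spl n w).2) := by
    filter_upwards [hw] with v hv
    have hv' : (P.1 v).1 = Pab 𝒜 x y v := hv
    rw [hv', hw0]
    rfl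
  rw [h2.fderiv_eq]
  have h3 : HasFDerivAt (fun v : V (n + n) => ((spl n v).1, (spl n w).2))
      (((ContinuousLinearMap.fst ℝ (Eu n) (Eu n)).comp (spl n : V (n + n) →L[ℝ] Eu n × Eu n)).prod
        (0 : V (n + n) →L[ℝ] Eu n)) w :=
    ((ContinuousLinearMap.fst ℝ (Eu n) (Eu n)).comp (spl n : V (n + n) →L[ℝ] Eu n × Eu n)).hasFDerivAt.prodMk
      (hasFDerivAt_const _ _)
  have h4 : HasFDerivAt (𝒜.f x y) (fderiv ℝ (𝒜.f x y) (spl n w)) ((spl n w).1, (spl n w).2) := hfw.hasFDerivAt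
  have h5 := HasFDerivAt.comp (f := fun v : V (n + n) => ((spl n v).1, (spl n w).2)) w h4 h3
  have h6 : (𝒜.f x y ∘ fun v : V (n + n) => ((spl n v).1, (spl n w).2)) =
      fun v => 𝒜.f x y ((spl n v).1, (spl n w).2) := rfl
  rw [h6] at h5
  rw [h5.fderiv]
  rfl

theorem pd_alc (hB : Bl M) (h0 : 0 < dist x y) (h1 : dist x y < π)
    (hP : (fun w => jW 𝒜 (P.1 w)) =ᶠ[𝓝 0] Pab 𝒜 x y) (i j : Fin (n + n)) :
    (pd j (mkC (alc ((GW hB).pl P) i) (alc_smooth hB _ i)) : V (n + n) → ℝ) 0 =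
      -(2 * π)⁻¹ * fderiv ℝ (fderiv ℝ (𝒜.f x y)) (0, 0) (spl n (Pi.single j 1)) ((spl n (Pi.single i 1)).1, 0) := by
  rw [pd_apply]
  change fderiv ℝ (alc ((GW hB).pl P) i) 0 (Pi.single j 1) = _
  rw [(alc_near hB h0 h1 hP i).fderiv_eq]
  have h2 : DifferentiableAt ℝ (fderiv ℝ (𝒜.f x y)) (spl n 0) := by
    rw [map_zero]
    exact sm0_d2 ((contDiffAt_f 𝒜 hB h0 h1).of_le two_le_infty)
  have h3 : HasFDerivAt (fun w => fderiv ℝ (𝒜.f x y) (spl n w))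
      ((fderiv ℝ (fderiv ℝ (𝒜.f x y)) (spl n 0)).comp (spl n : V (n + n) →L[ℝ] Eu n × Eu n)) 0 :=
    HasFDerivAt.comp (g := fderiv ℝ (𝒜.f x y)) (f := spl n) (0 : V (n + n)) h2.hasFDerivAt (spl n).hasFDerivAt
  have h4 := (h3.clm_apply (hasFDerivAt_const (((spl n (Pi.single i 1)).1, (0 : Eu n)) : Eu n × Eu n)
    (0 : V (n + n)))).const_mul (-(2 * π)⁻¹)
  rw [h4.fderiv, map_zero]
  simp
  rfl

theorem spl_cast (i : Fin n) : spl n (Pi.single (Fin.castAdd n i) 1) = (EuclideanSpace.single i (1 : ℝ), 0) := by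
  refine Prod.ext ?_ ?_
  · ext j
    rw [spl_fst]
    change (Pi.single (Fin.castAdd n i) (1 : ℝ) : V (n + n)) (Fin.castAdd n j) = (Pi.single i (1 : ℝ) : Fin n → ℝ) j
    rw [Pi.single_apply, Pi.single_apply]
    by_cases h : j = i
    · rw [if_pos h, if_pos (by rw [h])]
    · rw [if_neg h, if_neg]
      intro h2
      have := congrArg Fin.val h2
      simp only [Fin.val_castAdd] at this
      exact h (Fin.ext this)
  · ext j
    rw [spl_snd]
    change (Pi.single (Fin.castAdd n i) (1 : ℝ) : V (n + n)) (Fin.natAdd n j) = 0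
    rw [Pi.single_eq_of_ne]
    intro h2
    have := congrArg Fin.val h2
    simp only [Fin.val_castAdd, Fin.val_natAdd] at this
    omega

theorem spl_nat (i : Fin n) : spl n (Pi.single (Fin.natAdd n i) 1) = (0, EuclideanSpace.single i (1 : ℝ)) := by
  refine Prod.ext ?_ ?_
  · ext j
    rw [spl_fst]
    change (Pi.single (Fin.natAdd n i) (1 : ℝ) : V (n + n)) (Fin.castAdd n j) = 0
    rw [Pi.single_eq_of_ne]
    intro h2
    have := congrArg Fin.val h2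
    simp only [Fin.val_castAdd, Fin.val_natAdd] at this
    omega
  · ext j
    rw [spl_snd]
    change (Pi.single (Fin.natAdd n i) (1 : ℝ) : V (n + n)) (Fin.natAdd n j) = (Pi.single i (1 : ℝ) : Fin n → ℝ) j
    rw [Pi.single_apply, Pi.single_apply]
    by_cases h : j = i
    · rw [if_pos h, if_pos (by rw [h])]
    · rw [if_neg h, if_neg]
      intro h2
      have := congrArg Fin.val h2
      simp only [Fin.val_natAdd] at this
      exact h (Fin.ext (by omega))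

/-- the differential of the distance in the first variable -/
def vp (𝒜 : SDist n M) (x y : M) (i : Fin n) : ℝ := fderiv ℝ (𝒜.f x y) (0, 0) (EuclideanSpace.single i (1 : ℝ), 0)

/-- the differential of the distance in the second variable -/
def vq (𝒜 : SDist n M) (x y : M) (i : Fin n) : ℝ := fderiv ℝ (𝒜.f x y) (0, 0) (0, EuclideanSpace.single i (1 : ℝ))

/-- value of `dχ` -/
theorem ev_dchi (hB : Bl M) (h0 : 0 < dist x y) (h1 : dist x y < π)
    (hP : (fun w => jW 𝒜 (P.1 w)) =ᶠ[𝓝 0] Pab 𝒜 x y) :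
    ev 0 (Om.on (dchi 𝒜 hB) P) =
      deriv chi (dist x y) • ((∑ i, vp 𝒜 x y i • eu i) + ∑ j, vq 𝒜 x y j • (ev' j : Ex (n + n))) := by
  have hf : HasFDerivAt (𝒜.f x y) (fderiv ℝ (𝒜.f x y) (0, 0)) (spl n 0) := by
    rw [map_zero]
    exact ((contDiffAt_f 𝒜 hB h0 h1).differentiableAt (by simp)).hasFDerivAt
  have h2 : HasFDerivAt (fun w : V (n + n) => 𝒜.f x y (spl n w))
      ((fderiv ℝ (𝒜.f x y) (0, 0)).comp (spl n : V (n + n) →L[ℝ] Eu n × Eu n)) 0 :=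
    HasFDerivAt.comp (g := 𝒜.f x y) (f := spl n) (0 : V (n + n)) hf (spl n).hasFDerivAt
  have hc : HasDerivAt chi (deriv chi (dist x y)) (𝒜.f x y (spl n 0)) := by
    rw [map_zero]
    have h3 : 𝒜.f x y (0 : Eu n × Eu n) = dist x y := f_zero 𝒜 x y
    rw [h3]
    exact (contDiff_chi.differentiable (by simp) _).hasDerivAt
  have h3 := hc.comp_hasFDerivAt (0 : V (n + n)) h2
  have h4 : (fun w => chi (dist (P.1 w).1.1 (P.1 w).1.2)) =ᶠ[𝓝 0] chi ∘ fun w => 𝒜.f x y (spl n w) := by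
    filter_upwards [hP] with w hw
    have hw' : (P.1 w).1 = Pab 𝒜 x y w := hw
    rw [hw']
    rfl
  rw [dchi, on_d, chiW, on_fO, ev_dd_fc, ι_eq]
  have h5 : ∀ i : Fin (n + n), (pd i (mkC (fun w => chi (dist (P.1 w).1.1 (P.1 w).1.2))
      (contDiff_chi.comp (contDiff_distW 𝒜 hB P))) : V (n + n) → ℝ) 0 =
      deriv chi (dist x y) * fderiv ℝ (𝒜.f x y) (0, 0) (spl n (Pi.single i 1)) := by
    intro i
    rw [pd_apply]
    change fderiv ℝ (fun w => chi (dist (P.1 w).1.1 (P.1 w).1.2)) 0 (Pi.single i 1) = _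
    rw [h4.fderiv_eq, h3.fderiv]
    rfl
  have h6 : (∑ i : Fin (n + n), (pd i (mkC (fun w => chi (dist (P.1 w).1.1 (P.1 w).1.2))
      (contDiff_chi.comp (contDiff_distW 𝒜 hB P))) : V (n + n) → ℝ) 0 • (ee i : Ex (n + n))) =
      deriv chi (dist x y) • ∑ i : Fin (n + n), fderiv ℝ (𝒜.f x y) (0, 0) (spl n (Pi.single i 1)) • (ee i : Ex (n + n)) := by
    rw [Finset.smul_sum]
    refine Finset.sum_congr rfl fun i _ => ?_
    rw [h5, smul_smul]
  refine h6.trans ?_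
  rw [Fin.sum_univ_add]
  simp only [spl_cast, spl_nat]
  rfl

/-- value of the contact form -/
theorem ev_A0 (hB : Bl M) (h0 : 0 < dist x y) (h1 : dist x y < π)
    (hP : (fun w => jW 𝒜 (P.1 w)) =ᶠ[𝓝 0] Pab 𝒜 x y) :
    ev 0 (Om.on (AL hB 𝒜) ((GW hB).pl P)) = (2 * π)⁻¹ • (-∑ i, vp 𝒜 x y i • (eu i : Ex (n + n))) := by
  have h2 : ∀ i : Fin (n + n), alc ((GW hB).pl P) i 0 =
      -(2 * π)⁻¹ * fderiv ℝ (𝒜.f x y) (0, 0) ((spl n (Pi.single i 1)).1, 0) := by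
    intro i
    have h3 : alc ((GW hB).pl P) i 0 =
        -(2 * π)⁻¹ * fderiv ℝ (𝒜.f x y) (spl n 0) ((spl n (Pi.single i 1)).1, 0) :=
      (alc_near hB h0 h1 hP i).self_of_nhds
    rw [map_zero] at h3
    exact h3
  have h3 : Om.on (AL hB 𝒜) ((GW hB).pl P) =
      EUL.one fun i => mkC (alc ((GW hB).pl P) i) (alc_smooth hB ((GW hB).pl P) i) := rfl
  rw [h3, ev_one, ι_eq]
  simp only [mkC_apply, h2]
  rw [Fin.sum_univ_add]
  simp only [spl_cast, spl_nat]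
  have h4 : fderiv ℝ (𝒜.f x y) (0, 0) ((0 : Eu n), (0 : Eu n)) = 0 := map_zero _
  simp only [h4, mul_zero, zero_smul, Finset.sum_const_zero, add_zero]
  rw [smul_neg, Finset.smul_sum, ← Finset.sum_neg_distrib]
  refine Finset.sum_congr rfl fun i _ => ?_
  rw [smul_smul, ← neg_smul, ← neg_mul]
  rfl

/-- value of the differential of the contact form -/
theorem ev_dA0 (hB : Bl M) (h0 : 0 < dist x y) (h1 : dist x y < π)
    (hP : (fun w => jW 𝒜 (P.1 w)) =ᶠ[𝓝 0] Pab 𝒜 x y) :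
    ev 0 (Om.on (dO _ (AL hB 𝒜)) ((GW hB).pl P)) = (2 * π)⁻¹ • Ob (Mx (𝒜.f x y) (0, 0)) := by
  have h2 := pd_alc hB h0 h1 hP
  have h3 : Om.on (dO _ (AL hB 𝒜)) ((GW hB).pl P) = dd (n + n)
      (EUL.one fun i => mkC (alc ((GW hB).pl P) i) (alc_smooth hB ((GW hB).pl P) i)) := rfl
  have hs : ∀ a b, fderiv ℝ (fderiv ℝ (𝒜.f x y)) (0, 0) a b = fderiv ℝ (fderiv ℝ (𝒜.f x y)) (0, 0) b a :=
    sm0_symm (smc_two 𝒜 hB h0 h1)
  rw [h3, ev_dd_one]
  have h4 : ∀ i : Fin (n + n), ExteriorAlgebra.ι ℝ (fun j => (pd j (mkC (alc ((GW hB).pl P) i)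
      (alc_smooth hB ((GW hB).pl P) i)) : V (n + n) → ℝ) 0) * ee i = -(2 * π)⁻¹ •
      ∑ j, fderiv ℝ (fderiv ℝ (𝒜.f x y)) (0, 0) (spl n (Pi.single j 1)) ((spl n (Pi.single i 1)).1, 0) •
        ((ee j : Ex (n + n)) * ee i) := by
    intro i
    rw [ι_eq, Finset.sum_mul, Finset.smul_sum]
    refine Finset.sum_congr rfl fun j _ => ?_
    rw [h2, smul_smul, smul_mul_assoc]
  simp only [h4]
  rw [← Finset.smul_sum, Fin.sum_univ_add]
  simp only [spl_cast, spl_nat]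
  have h5 : ∀ w, fderiv ℝ (fderiv ℝ (𝒜.f x y)) (0, 0) w ((0 : Eu n), (0 : Eu n)) = 0 := fun w => map_zero _
  simp only [h5, zero_smul, Finset.sum_const_zero, add_zero]
  simp only [Fin.sum_univ_add, spl_cast, spl_nat]
  rw [Finset.sum_add_distrib]
  have h6 : ∑ i : Fin n, ∑ j : Fin n, fderiv ℝ (fderiv ℝ (𝒜.f x y)) (0, 0) (EuclideanSpace.single j (1 : ℝ), 0)
      (EuclideanSpace.single i (1 : ℝ), 0) • ((ee (Fin.castAdd n j) : Ex (n + n)) * ee (Fin.castAdd n i)) = 0 := by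
    set T := ∑ i : Fin n, ∑ j : Fin n, fderiv ℝ (fderiv ℝ (𝒜.f x y)) (0, 0) (EuclideanSpace.single j (1 : ℝ), 0)
      (EuclideanSpace.single i (1 : ℝ), 0) • ((ee (Fin.castAdd n j) : Ex (n + n)) * ee (Fin.castAdd n i)) with hT
    have h7 : T = -T := by
      conv_lhs => rw [hT, Finset.sum_comm]
      rw [hT, ← Finset.sum_neg_distrib]
      refine Finset.sum_congr rfl fun i _ => ?_
      rw [← Finset.sum_neg_distrib]
      refine Finset.sum_congr rfl fun j _ => ?_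
      rw [hs, ee_swap, smul_neg]
    have h8 : (2 : ℝ) • T = 0 := by
      rw [two_smul]
      nth_rewrite 2 [h7]
      exact add_neg_cancel T
    exact (smul_eq_zero.1 h8).resolve_left two_ne_zero
  rw [h6, zero_add, neg_smul, ← smul_neg]
  congr 1
  unfold Ob
  rw [← Finset.sum_neg_distrib]
  refine Finset.sum_congr rfl fun i _ => ?_
  rw [← Finset.sum_neg_distrib]
  refine Finset.sum_congr rfl fun j _ => ?_
  rw [ee_swap, smul_neg, neg_neg, hs]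
  rfl

/-- the kernel of the mixed second derivative of the distance -/
theorem det_B (hB : Bl M) (h0 : 0 < dist x y) (h1 : dist x y < π) : (Mx (𝒜.f x y) (0, 0)).det = 0 := by
  obtain ⟨hc, hc0, hc1⟩ := gd_spec 𝒜 hB (dist_pos.1 h0)
  have hv := (hc.exists_vel 𝒜 0).1
  have h2 : ∀ b, 𝒜.B x y (𝒜.vel (gd x y) 0) b = 0 := by
    intro b
    have h3 := B_vel 𝒜 hB hc (s := 0) (t := dist x y) h0.ne (by rw [zero_sub, abs_neg, abs_of_pos h0]; exact h1) b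
    rwa [hc0, hc1] at h3
  rw [← Matrix.exists_vecMul_eq_zero_iff]
  refine ⟨fun i => 𝒜.vel (gd x y) 0 i, ?_, ?_⟩
  · intro h3
    have h4 : 𝒜.vel (gd x y) 0 = 0 := by
      ext i
      exact congrFun h3 i
    rw [h4, norm_zero] at hv
    exact zero_ne_one hv
  · funext j
    have h5 := h2 (EuclideanSpace.single j 1)
    rw [sm0_expand (𝒜.vel (gd x y) 0), _root_.map_sum, _root_.sum_apply] at h5
    refine Eq.trans ?_ h5
    unfold Matrix.vecMul dotProduct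
    refine Finset.sum_congr rfl fun i _ => ?_
    rw [map_smul]
    change _ = 𝒜.vel (gd x y) 0 i * 𝒜.B x y _ _
    rw [smc_B_eq 𝒜 hB h0 h1]
    rfl

/-- the density -/
theorem dens_AdA {m : ℕ} {𝒜 : SDist (m + 1) M} (hB : Bl M) {z : M × M} (h0 : 0 < dist z.1 z.2) (h1 : dist z.1 z.2 < π) :
    dens 𝒜 (dchi 𝒜 hB * (GW hB).pull (AL hB 𝒜 * dO _ (AL hB 𝒜) ^ m)) z =
      sn (m + 1) * (m.factorial / (2 * π) ^ (m + 1)) *
        (deriv chi (dist z.1 z.2) * (Mx (𝒜.F z.1 z.2) (0, 0)).det / dist z.1 z.2 ^ m) := by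
  obtain ⟨x, y⟩ := z
  simp only at h0 h1 ⊢
  obtain ⟨P, hP⟩ := locPl_Pab 𝒜 (zero_mem_Dab 𝒜 h0 h1)
  unfold dens
  simp only
  rw [vAt_eq (jW_inj 𝒜) _ P hP, on_mul, on_pull, on_mul, on_pow, _root_.map_mul (ev 0), _root_.map_mul (ev 0), _root_.map_pow (ev 0), ev_dchi hB h0 h1 hP,
    ev_A0 hB h0 h1 hP, ev_dA0 hB h0 h1 hP, smul_pow, smul_mul_smul_comm, smul_mul_smul_comm, map_smul,
    ← mul_assoc (_ : Ex (m + 1 + (m + 1)))]
  have h2 := vol2_alg (vp 𝒜 x y) (vq 𝒜 x y) (Mx (𝒜.f x y) (0, 0)) h0 (det_B hB h0 h1) rfl rfl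
  rw [h2]
  have h3 : (Matrix.of fun i j => vp 𝒜 x y i * vq 𝒜 x y j + dist x y * Mx (𝒜.f x y) (0, 0) i j) =
      Mx (𝒜.F x y) (0, 0) := by
    ext i j
    have h4 := sm0_sq (smc_two 𝒜 hB h0 h1) (EuclideanSpace.single i (1 : ℝ), 0) (0, EuclideanSpace.single j (1 : ℝ))
    rw [f_zero] at h4
    exact h4.symm
  rw [h3, smul_eq_mul]
  have hpi : (2 * π) ≠ 0 := by positivity
  have hd : dist x y ≠ 0 := h0.ne'
  rw [pow_succ, inv_pow]
  field_simp

end origin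

/-- **VOL2** -/
theorem vol2 {m : ℕ} {𝒜 : SDist (m + 1) M} (hB : Bl M) {z : M × M} (h0 : 0 < dist z.1 z.2) (h1 : dist z.1 z.2 < π) :
    FW 𝒜 (dchi 𝒜 hB * (GW hB).pull (AL hB 𝒜 * dO _ (AL hB 𝒜) ^ m)) z =
      sn (m + 1) * (m.factorial / (2 * π) ^ (m + 1)) * (deriv chi (dist z.1 z.2) / 𝒜.J z.1 z.2) := by
  unfold FW sgW
  rw [dens_AdA hB h0 h1]
  have h2 := sme_theta_eq 𝒜 ((contDiffAt_F 𝒜 hB h1).of_le two_le_infty)
  rw [← sgn_mul_self] at h2
  have h3 : 𝒜.J z.1 z.2 = dist z.1 z.2 ^ m / 𝒜.theta z.1 z.2 := rfl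
  rw [h3, h2, div_div_eq_mul_div]
  ring

/-- **VOL** -/
theorem vol_AL [MeasurableSpace M] [BorelSpace M] (hn : 0 < n) (hB : Bl M) :
    TG hB (AL hB 𝒜 * dO _ (AL hB 𝒜) ^ (n - 1)) = sn n * ((n - 1).factorial / (2 * π) ^ n) *
      (n * (volume (ball (0 : Eu n) 1)).toReal * ((μHE[n] : Measure M) univ).toReal) := by
  obtain ⟨m, rfl⟩ : ∃ m, n = m + 1 := ⟨n - 1, by omega⟩
  exact vol_of_dens hn hB fun z h0 h1 => vol2 hB h0 h1

/-- **VOL** -/
theorem abs_TG_AL [MeasurableSpace M] [BorelSpace M] (hn : 0 < n) (hB : Bl M) :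
    |TG hB (AL hB 𝒜 * dO _ (AL hB 𝒜) ^ (n - 1))| = (n - 1).factorial / (2 * π) ^ n *
      (n * (volume (ball (0 : Eu n) 1)).toReal * ((μHE[n] : Measure M) univ).toReal) := by
  rw [vol_AL hn hB, abs_mul, abs_mul, abs_sn, one_mul, abs_of_nonneg (by positivity), abs_of_nonneg (by positivity)]

end Pool.Agent.Lib.MP_ccbbf6_gt.L4
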