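import Pool.Agent.Lib.MP_ccbbf6_gt.L4.FRc

/-!
# Level 4, forms on `R^k`, part d: degrees, Lie derivative, shifts (helper56)
-/

set_option autoImplicit false
set_option maxSynthPendingDepth 3

open scoped TensorProduct

noncomputable section

namespace Pool.Agent.Lib.MP_ccbbf6_gt.L4.FR

variable {k l n : ℕ}

/-! ### Degrees -/

/-- scaling of covectors by `2` -/
def s2 (k : ℕ) : Ex k →ₐ[ℝ] Ex k := ExteriorAlgebra.map ((2 : ℝ) • LinearMap.id)

lemma s2_ι (v : V k) : s2 k (ExteriorAlgebra.ι ℝ v) = (2 : ℝ) • ExteriorAlgebra.ι ℝ v := by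
  unfold s2
  rw [ExteriorAlgebra.map_apply_ι, LinearMap.smul_apply, LinearMap.id_apply, map_smul]

/-- scaling of forms by `2 ^ degree` -/
def Sc (k : ℕ) : Fm k →ₐ[ℝ] Fm k :=
  (Algebra.TensorProduct.map (AlgHom.id ℝ (Cs k)) (s2 k) : Cs k ⊗[ℝ] Ex k →ₐ[ℝ] Cs k ⊗[ℝ] Ex k)

lemma Sc_tm (f : Cs k) (a : Ex k) : Sc k (tm f a) = tm f (s2 k a) := rfl

lemma Sc_fc (f : Cs k) : Sc k (fc k f) = fc k f := by rw [fc_apply, Sc_tm, map_one]

lemma Sc_dx (i : Fin k) : Sc k (dx i) = (2 : ℝ) • dx i := by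
  rw [dx, cf_apply, Sc_tm, ee, s2_ι, tm_smul_right]

lemma Sc_dd (x : Fm k) : Sc k (dd k x) = (2 : ℝ) • dd k (Sc k x) := by
  induction x using Fm_tind with
  | hf f a =>
    rw [dd_tm, map_sum, Sc_tm, dd_tm, Finset.smul_sum]
    refine Finset.sum_congr rfl fun i _ => ?_
    rw [Sc_tm, map_mul, ee, s2_ι, smul_mul_assoc, tm_smul_right]
  | ha x y hx hy => rw [map_add, map_add, hx, hy, map_add, map_add, smul_add]

lemma Sc_pb (g : Sm k l) (x : Fm l) : Sc k (pb g x) = pb g (Sc l x) := by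
  induction x using Fm_ind with
  | hf f => rw [pb_fc, Sc_fc, Sc_fc, pb_fc]
  | hd i => rw [pb_dx, Sc_dd, Sc_fc, Sc_dx, map_smul, pb_dx]
  | hm x y hx hy => rw [map_mul, map_mul, hx, hy, map_mul, map_mul]
  | ha x y hx hy => rw [map_add, map_add, hx, hy, map_add, map_add]

lemma ctr_s2 (φ : V k →ₗ[ℝ] ℝ) (a : Ex k) : ctr φ (s2 k a) = (2 : ℝ) • s2 k (ctr φ a) := by
  induction a using CliffordAlgebra.left_induction with
  | algebraMap r =>
    rw [AlgHom.commutes, ctr_algebraMap, map_zero, smul_zero]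
  | add x y hx hy => rw [map_add, map_add, hx, hy, map_add, map_add, smul_add]
  | ι_mul x v hx =>
    change ctr φ (s2 k (ExteriorAlgebra.ι ℝ v * x)) = (2 : ℝ) • s2 k (ctr φ (ExteriorAlgebra.ι ℝ v * x))
    rw [map_mul, s2_ι, smul_mul_assoc, map_smul, ctr_ι_mul, hx, ctr_ι_mul, map_sub, map_smul, map_mul, s2_ι,
      smul_mul_assoc, mul_smul_comm]

lemma Sc_cn (φ : V k →ₗ[ℝ] ℝ) (x : Fm k) : cn φ (Sc k x) = (2 : ℝ) • Sc k (cn φ x) := by
  induction x using Fm_tind with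
  | hf f a => rw [Sc_tm, cn_tm, ctr_s2, cn_tm, Sc_tm, tm_smul_right]
  | ha x y hx hy => rw [map_add, map_add, hx, hy, map_add, map_add, smul_add]

lemma kil_s2 (a : Ex (k + 1)) : kil k (s2 (k + 1) a) = s2 k (kil k a) := by
  induction a using ExteriorAlgebra.induction with
  | algebraMap r => simp only [AlgHom.commutes]
  | ι v => rw [s2_ι, map_smul, kil_ι, s2_ι]
  | mul a b hA hB => simp only [map_mul, hA, hB]
  | add a b hA hB => simp only [map_add, hA, hB]

lemma kil_ivo (a : Ex (k + 1)) : kil k (ivo (k + 1) a) = ivo k (kil k a) := by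
  induction a using ExteriorAlgebra.induction with
  | algebraMap r => simp only [AlgHom.commutes]
  | ι v => rw [ivo_ι, map_neg, kil_ι, ivo_ι]
  | mul a b hA hB => simp only [map_mul, hA, hB]
  | add a b hA hB => simp only [map_add, hA, hB]

lemma Q0_Sc (x : Fm (k + 1)) : Q0 k (Sc (k + 1) x) = Sc k (Q0 k x) := by
  induction x using Fm_tind with
  | hf f a => rw [Sc_tm, Q0_tm, kil_s2, Q0_tm, Sc_tm]
  | ha x y hx hy => rw [map_add, map_add, hx, hy, map_add, map_add]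

lemma Q0_sg (x : Fm (k + 1)) : Q0 k (sg (k + 1) x) = sg k (Q0 k x) := by
  induction x using Fm_tind with
  | hf f a => rw [sg_tm, Q0_tm, kil_ivo, Q0_tm, sg_tm]
  | ha x y hx hy => rw [map_add, map_add, hx, hy, map_add, map_add]

/-- homogeneous of degree `j` -/
def Dg (j : ℕ) (x : Fm k) : Prop := Sc k x = (2 : ℝ) ^ j • x ∧ sg k x = (-1 : ℝ) ^ j • x

variable {i j : ℕ} {x y : Fm k}

lemma Dg_add (hx : Dg j x) (hy : Dg j y) : Dg j (x + y) :=
  ⟨by rw [map_add, hx.1, hy.1, smul_add], by rw [map_add, hx.2, hy.2, smul_add]⟩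

lemma Dg_sub (hx : Dg j x) (hy : Dg j y) : Dg j (x - y) :=
  ⟨by rw [map_sub, hx.1, hy.1, smul_sub], by rw [map_sub, hx.2, hy.2, smul_sub]⟩

lemma Dg_neg (hx : Dg j x) : Dg j (-x) :=
  ⟨by rw [map_neg, hx.1, smul_neg], by rw [map_neg, hx.2, smul_neg]⟩

lemma Dg_zero : Dg j (0 : Fm k) := ⟨by rw [map_zero, smul_zero], by rw [map_zero, smul_zero]⟩

lemma Dg_smul (r : ℝ) (hx : Dg j x) : Dg j (r • x) :=
  ⟨by rw [map_smul, hx.1, smul_comm], by rw [map_smul, hx.2, smul_comm]⟩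

lemma Dg_mul (hx : Dg i x) (hy : Dg j y) : Dg (i + j) (x * y) :=
  ⟨by rw [map_mul, hx.1, hy.1, smul_mul_smul_comm, pow_add],
   by rw [map_mul, hx.2, hy.2, smul_mul_smul_comm, pow_add]⟩

lemma Dg_one : Dg 0 (1 : Fm k) := ⟨by rw [map_one, pow_zero, one_smul], by rw [map_one, pow_zero, one_smul]⟩

lemma Dg_fc (f : Cs k) : Dg 0 (fc k f) :=
  ⟨by rw [Sc_fc, pow_zero, one_smul], by rw [sg_fc, pow_zero, one_smul]⟩

lemma Dg_dx (i : Fin k) : Dg 1 (dx i) :=
  ⟨by rw [Sc_dx, pow_one], by rw [sg_dx, pow_one, neg_smul, one_smul]⟩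

lemma Dg_pow (hx : Dg i x) (n : ℕ) : Dg (i * n) (x ^ n) := by
  induction n with
  | zero => rw [pow_zero, mul_zero]; exact Dg_one
  | succ n ih => rw [pow_succ, mul_add, mul_one]; exact Dg_mul ih hx

lemma Dg_pb (g : Sm k l) {x : Fm l} (hx : Dg j x) : Dg j (pb g x) :=
  ⟨by rw [Sc_pb, hx.1, map_smul], by rw [pb_sg, hx.2, map_smul]⟩

lemma Dg_dd (hx : Dg j x) : Dg (j + 1) (dd k x) :=
  ⟨by rw [Sc_dd, hx.1, map_smul, smul_smul, pow_succ'],
   by rw [sg_dd, hx.2, map_smul, pow_succ', neg_one_mul, neg_smul]⟩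

lemma Dg_cn (φ : V k →ₗ[ℝ] ℝ) (hx : Dg (j + 1) x) : Dg j (cn φ x) := by
  constructor
  · have h := Sc_cn φ x
    rw [hx.1, map_smul, pow_succ', mul_smul] at h
    exact (smul_right_injective _ (two_ne_zero (α := ℝ)) h).symm
  · rw [sg_cn, hx.2, map_smul, pow_succ', neg_one_mul, neg_smul, neg_neg]

lemma Dg_Q0 {x : Fm (k + 1)} (hx : Dg j x) : Dg j (Q0 k x) :=
  ⟨by rw [← Q0_Sc, hx.1, map_smul], by rw [← Q0_sg, hx.2, map_smul]⟩

lemma Dg_KK {x : Fm (k + 1)} (hx : Dg (j + 1) x) : Dg j (KK k x) := Dg_Q0 (Dg_cn _ hx)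

/-- even forms are central -/
lemma even_comm (hx : sg k x = x) (y : Fm k) : x * y = y * x := by
  induction y using Fm_ind with
  | hf f => rw [fc_comm]
  | hd i =>
    have h : ∀ x : Fm k, dx i * x = sg k x * dx i := by
      intro x
      induction x using Fm_tind with
      | hf f a =>
        rw [dx, cf_apply, tm_mul, sg_tm, tm_mul, one_mul, mul_one, ee, ι_swap]
      | ha x y hx hy => rw [mul_add, hx, hy, map_add, add_mul]
    rw [h, hx]
  | hm y z hy hz => rw [← mul_assoc, hy, mul_assoc, hz, mul_assoc]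
  | ha y z hy hz => rw [mul_add, hy, hz, add_mul]

/-! ### Values of homogeneous forms -/

lemma ev_Sc (p : V k) (x : Fm k) : ev p (Sc k x) = s2 k (ev p x) := by
  induction x using Fm_tind with
  | hf f a => rw [Sc_tm, ev_tm, ev_tm, map_smul]
  | ha x y hx hy => simp only [map_add, hx, hy]

lemma s2_mem {i : ℕ} {a : Ex k} (ha : a ∈ ⋀[ℝ]^i (V k)) : s2 k a = (2 : ℝ) ^ i • a := by
  rw [← ExteriorAlgebra.ιMulti_span_fixedDegree] at ha
  induction ha using Submodule.span_induction with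
  | mem x hx =>
    obtain ⟨v, rfl⟩ := hx
    unfold s2
    rw [ExteriorAlgebra.map_apply_ιMulti]
    have h : (⇑((2 : ℝ) • LinearMap.id : V k →ₗ[ℝ] V k)) ∘ v = fun j => (fun _ => (2 : ℝ)) j • v j := rfl
    rw [h]
    have h2 := (ExteriorAlgebra.ιMulti ℝ i (M := V k)).map_smul_univ (fun _ => (2 : ℝ)) v
    rw [h2, Finset.prod_const, Finset.card_univ, Fintype.card_fin]
  | zero => rw [map_zero, smul_zero]
  | add x y _ _ hx hy => rw [map_add, hx, hy, smul_add]
  | smul r x _ hx => rw [map_smul, hx, smul_comm]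

lemma mem_of_s2 {j : ℕ} {a : Ex k} (ha : s2 k a = (2 : ℝ) ^ j • a) : a ∈ ⋀[ℝ]^j (V k) := by
  classical
  let 𝒜 : ℕ → Submodule ℝ (Ex k) := fun i => ⋀[ℝ]^i (V k)
  have hp : ∀ (i : ℕ) (b : Ex k), (DirectSum.decompose 𝒜 (s2 k b) i : Ex k) =
      (2 : ℝ) ^ i • (DirectSum.decompose 𝒜 b i : Ex k) := by
    intro i b
    induction b using DirectSum.Decomposition.inductionOn 𝒜 with
    | zero => simp
    | @homogeneous i' c =>
      rw [s2_mem c.2, DirectSum.decompose_smul, DirectSum.smul_apply, Submodule.coe_smul]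
      by_cases h : i' = i
      · subst h
        rfl
      · rw [DirectSum.decompose_of_mem_ne 𝒜 c.2 h, smul_zero, smul_zero]
    | add b c hb hc =>
      rw [map_add, DirectSum.decompose_add, DirectSum.decompose_add, DirectSum.add_apply, DirectSum.add_apply,
        Submodule.coe_add, Submodule.coe_add, hb, hc, smul_add]
  have hz : ∀ i, i ≠ j → (DirectSum.decompose 𝒜 a i : Ex k) = 0 := by
    intro i hi
    have h1 := hp i a
    rw [ha, DirectSum.decompose_smul, DirectSum.smul_apply, Submodule.coe_smul] at h1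
    have h2 : ((2 : ℝ) ^ j - (2 : ℝ) ^ i) • (DirectSum.decompose 𝒜 a i : Ex k) = 0 := by
      rw [sub_smul, sub_eq_zero]
      exact h1
    rcases smul_eq_zero.1 h2 with h3 | h3
    · exfalso
      apply hi
      exact (pow_right_injective₀ (by norm_num : (0 : ℝ) < 2) (by norm_num) (sub_eq_zero.1 h3)).symm
    · exact h3
  have hs := DirectSum.sum_support_decompose 𝒜 a
  rw [← hs]
  refine Submodule.sum_mem _ fun i hi => ?_
  by_cases h : i = j
  · subst h
    exact (DirectSum.decompose 𝒜 a i).2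
  · rw [hz i h]
    exact Submodule.zero_mem _

lemma Dg_ev (hx : Dg j x) (p : V k) : ev p x ∈ ⋀[ℝ]^j (V k) := by
  apply mem_of_s2
  rw [← ev_Sc, hx.1, map_smul]

lemma ext_zero {j : ℕ} (hj : k < j) {a : Ex k} (ha : a ∈ ⋀[ℝ]^j (V k)) : a = 0 := by
  rw [← ExteriorAlgebra.ιMulti_span_fixedDegree] at ha
  induction ha using Submodule.span_induction with
  | mem x hx =>
    obtain ⟨v, rfl⟩ := hx
    refine AlternatingMap.map_linearDependent _ v fun h => ?_
    have h1 := h.fintype_card_le_finrank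
    rw [Fintype.card_fin, Module.finrank_fin_fun] at h1
    omega
  | zero => rfl
  | add x y _ _ hx hy => rw [hx, hy, add_zero]
  | smul r x _ hx => rw [hx, smul_zero]

/-- forms of degree `> k` on `R^k` vanish -/
lemma Dg_big (hj : k < j) (hx : Dg j x) : x = 0 := ev_inj fun p => ext_zero hj (Dg_ev hx p)

/-- the function part -/
def fn (k : ℕ) : Fm k →ₗ[ℝ] Cs k :=
  (TensorProduct.lift ((LinearMap.lsmul ℝ (Cs k)).flip.compl₂
    (ExteriorAlgebra.algebraMapInv (R := ℝ) (M := V k)).toLinearMap) : Cs k ⊗[ℝ] Ex k →ₗ[ℝ] Cs k)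

lemma fn_tm (f : Cs k) (a : Ex k) : fn k (tm f a) = ExteriorAlgebra.algebraMapInv a • f := rfl

lemma fn_fc (f : Cs k) : fn k (fc k f) = f := by
  rw [fc_apply, fn_tm, map_one, one_smul]

lemma fn_apply (x : Fm k) (p : V k) : (fn k x : V k → ℝ) p = ExteriorAlgebra.algebraMapInv (ev p x) := by
  induction x using Fm_tind with
  | hf f a =>
    rw [fn_tm, ev_tm, map_smul]
    change _ * (f : V k → ℝ) p = (f : V k → ℝ) p * _
    exact mul_comm _ _
  | ha x y hx hy =>
    rw [map_add, map_add, map_add, ← hx, ← hy]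
    rfl

lemma Dg_fn (hx : Dg 0 x) : fc k (fn k x) = x := by
  refine ev_ext fun p => ?_
  have h1 : ev p x ∈ (LinearMap.range (ExteriorAlgebra.ι ℝ (M := V k))) ^ 0 := Dg_ev hx p
  rw [pow_zero, Submodule.mem_one] at h1
  obtain ⟨r, hr⟩ := h1
  rw [ev_fc, fn_apply, ← hr]
  congr 1
  exact ExteriorAlgebra.algebraMap_leftInverse (V k) r

/-! ### Lie derivative along `∂_s` -/

/-- derivative of the coefficients in the last variable -/
def Ls (k : ℕ) : Fm (k + 1) →ₗ[ℝ] Fm (k + 1) := tmap (pd (Fin.last k)) LinearMap.id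

lemma Ls_tm (f : Cs (k + 1)) (a : Ex (k + 1)) : Ls k (tm f a) = tm (pd (Fin.last k) f) a := rfl

lemma dd_cs (x : Fm (k + 1)) : dd (k + 1) (cs k x) + cs k (dd (k + 1) x) = Ls k x := by
  induction x using Fm_tind with
  | hf f a =>
    rw [cs, cn_tm, dd_tm, dd_tm, map_sum, ← Finset.sum_add_distrib, Ls_tm, Finset.sum_eq_single (Fin.last k)]
    · rw [cn_tm, ee, ctr_ι_mul, lst_apply, Pi.single_eq_same, one_smul, ← tm_add_right]
      congr 1
      abel
    · intro i _ hi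
      rw [cn_tm, ee, ctr_ι_mul, lst_apply, Pi.single_eq_of_ne hi.symm, zero_smul, zero_sub, tm_neg_right]
      exact add_neg_cancel _
    · intro h
      exact absurd (Finset.mem_univ _) h
  | ha x y hx hy =>
    simp only [map_add]
    rw [← hx, ← hy]
    abel

lemma hasDerivAt_ev (φ : Ex k →ₗ[ℝ] ℝ) (p : V k) (x : Fm (k + 1)) (s : ℝ) :
    HasDerivAt (fun s => φ (ev p (pb (sl k s) x))) (φ (ev p (pb (sl k s) (Ls k x)))) s := by
  induction x using Fm_tind with
  | hf f a =>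
    have h1 : ∀ (f : Cs (k + 1)) (s : ℝ), φ (ev p (pb (sl k s) (tm f a))) =
        (f : V (k + 1) → ℝ) (Fin.snoc p s) * φ (kil k a) := by
      intro f s
      rw [pb_sl, ev_tm, map_smul]
      rfl
    rw [Ls_tm]
    simp only [h1]
    exact ((Cs_diff f _).hasFDerivAt.comp_hasDerivAt s (hasDerivAt_snoc p s)).mul_const _
  | ha x y hx hy =>
    simp only [map_add]
    exact hx.add hy

/-- a form is zero if all functionals of its values vanish -/
lemma ev_fun_inj {θ : Fm k} (h : ∀ (φ : Ex k →ₗ[ℝ] ℝ) (p : V k), φ (ev p θ) = 0) : θ = 0 := by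
  exact ev_inj fun p => (Module.forall_dual_apply_eq_zero_iff ℝ (ev p θ)).1 fun φ => h φ p

/-- Cartan formula for an invariant form -/
lemma Ls_zero {x : Fm (k + 1)} (h : ∀ s, pb (sl k s) x = pb (sl k 0) x) (s : ℝ) : pb (sl k s) (Ls k x) = 0 := by
  refine ev_fun_inj fun φ p => ?_
  have h1 := hasDerivAt_ev φ p x s
  have h2 : (fun s => φ (ev p (pb (sl k s) x))) = fun _ => φ (ev p (pb (sl k 0) x)) := by
    funext t
    rw [h t]
  rw [h2] at h1
  exact h1.unique (hasDerivAt_const _ _)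

/-! ### `Q0` and `d`, integral formula -/

lemma dd_Q0 (x : Fm (k + 1)) : dd k (Q0 k x) = Q0 k (dd (k + 1) x) := by
  induction x using Fm_tind with
  | hf f a =>
    rw [Q0_tm, dd_tm, dd_tm, map_sum, Fin.sum_univ_castSucc, Q0_tm, map_mul (kil k), kil_last, zero_mul,
      tm_zero_right, add_zero]
    refine Finset.sum_congr rfl fun i _ => ?_
    rw [Q0_tm, map_mul (kil k), kil_ee, Int_pd]
  | ha x y hx hy => rw [map_add, map_add, hx, hy, map_add, map_add]

lemma cont_ev (φ : Ex k →ₗ[ℝ] ℝ) (p : V k) (x : Fm (k + 1)) :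
    Continuous fun s => φ (ev p (pb (sl k s) x)) :=
  continuous_iff_continuousAt.2 fun s => (hasDerivAt_ev φ p x s).continuousAt

lemma ev_Q0 (φ : Ex k →ₗ[ℝ] ℝ) (p : V k) (x : Fm (k + 1)) :
    φ (ev p (Q0 k x)) = ∫ s in (0 : ℝ)..1, φ (ev p (pb (sl k s) x)) := by
  induction x using Fm_tind with
  | hf f a =>
    have h1 : ∀ (f : Cs (k + 1)) (s : ℝ), φ (ev p (pb (sl k s) (tm f a))) =
        (f : V (k + 1) → ℝ) (Fin.snoc p s) * φ (kil k a) := by
      intro f s
      rw [pb_sl, ev_tm, map_smul]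
      rfl
    rw [Q0_tm, ev_tm, map_smul, Int_apply, smul_eq_mul]
    simp only [h1]
    rw [intervalIntegral.integral_mul_const]
  | ha x y hx hy =>
    simp only [map_add]
    rw [intervalIntegral.integral_add ((cont_ev φ p x).intervalIntegrable _ _)
      ((cont_ev φ p y).intervalIntegrable _ _), hx, hy]

/-- translation of the last variable -/
def ts (k : ℕ) (t : ℝ) : Sm (k + 1) (k + 1) :=
  ⟨fun z => Fin.snoc (pr k z) (z (Fin.last k) + t),
    contDiff_snoc.comp ((pr k).smooth.prodMk ((contDiff_apply ℝ ℝ (Fin.last k)).add contDiff_const))⟩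

lemma ts_sl (t s : ℝ) : (ts k t).comp (sl k s) = sl k (s + t) := by
  refine Sm.ext fun x => ?_
  change (Fin.snoc (pr k (Fin.snoc x s)) ((Fin.snoc x s : V (k + 1)) (Fin.last k) + t) : V (k + 1)) = Fin.snoc x (s + t)
  rw [pr_snoc, Fin.snoc_last]

/-- the average of a periodic form does not change under translation -/
lemma Q0_ts {x : Fm (k + 1)} (h : pb (ts k 1) x = x) (t : ℝ) : Q0 k (pb (ts k t) x) = Q0 k x := by
  rw [← sub_eq_zero]
  refine ev_fun_inj fun φ p => ?_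
  rw [map_sub, map_sub, ev_Q0, ev_Q0, sub_eq_zero]
  obtain ⟨F, hF⟩ : ∃ F : ℝ → ℝ, ∀ s, F s = φ (ev p (pb (sl k s) x)) := ⟨_, fun _ => rfl⟩
  have h1 : ∀ s, φ (ev p (pb (sl k s) (pb (ts k t) x))) = F (s + t) := by
    intro s
    rw [← pb_comp, ts_sl, hF]
  have hper : Function.Periodic F 1 := by
    intro s
    rw [hF, hF, ← ts_sl, pb_comp, h]
  simp only [h1]
  simp only [← hF]
  rw [intervalIntegral.integral_comp_add_right]
  have h2 := hper.intervalIntegral_add_eq t 0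
  rw [zero_add] at h2
  rw [zero_add, add_comm 1 t, h2]

/-! ### The shift `(x, s, t) ↦ (x, s + t)` -/

/-- `(x, s, t) ↦ (x, s + t)` -/
def sh (k : ℕ) : Sm (k + 1 + 1) (k + 1) :=
  ⟨fun z => Fin.snoc (pr k (pr (k + 1) z)) (z (Fin.last k).castSucc + z (Fin.last (k + 1))),
    contDiff_snoc.comp (((pr k).smooth.comp (pr (k + 1)).smooth).prodMk
      ((contDiff_apply ℝ ℝ (Fin.last k).castSucc).add (contDiff_apply ℝ ℝ (Fin.last (k + 1)))))⟩

lemma sh_sl (t : ℝ) : (sh k).comp (sl (k + 1) t) = ts k t := by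
  refine Sm.ext fun x => ?_
  change (Fin.snoc (pr k (pr (k + 1) (Fin.snoc x t))) ((Fin.snoc x t : V (k + 1 + 1)) (Fin.last k).castSucc +
    (Fin.snoc x t : V (k + 1 + 1)) (Fin.last (k + 1))) : V (k + 1)) = Fin.snoc (pr k x) (x (Fin.last k) + t)
  rw [pr_snoc, Fin.snoc_last, Fin.snoc_castSucc]

lemma ts_zero : ts k 0 = Sm.id (k + 1) := by
  refine Sm.ext fun z => ?_
  change (Fin.snoc (pr k z) (z (Fin.last k) + 0) : V (k + 1)) = z
  rw [add_zero, snoc_pr]

lemma sh_up (t : ℝ) : (sh k).comp (sl k t).up = ts k t := by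
  refine Sm.ext fun z => ?_
  change (Fin.snoc (pr k (pr (k + 1) (Fin.snoc (Fin.snoc (pr k z) t : V (k + 1)) (z (Fin.last k)))))
    ((Fin.snoc (Fin.snoc (pr k z) t : V (k + 1)) (z (Fin.last k)) : V (k + 1 + 1)) (Fin.last k).castSucc +
    (Fin.snoc (Fin.snoc (pr k z) t : V (k + 1)) (z (Fin.last k)) : V (k + 1 + 1)) (Fin.last (k + 1))) : V (k + 1)) =
    Fin.snoc (pr k z) (z (Fin.last k) + t)
  rw [pr_snoc, pr_snoc, Fin.snoc_last, Fin.snoc_castSucc, Fin.snoc_last, add_comm t]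

lemma cp_sh_castSucc (i : Fin k) : (sh k).cp i.castSucc = co i.castSucc.castSucc := by
  apply Cs_ext
  intro z
  exact Fin.snoc_castSucc (α := fun _ => ℝ) _ _ i

lemma cp_sh_last : (sh k).cp (Fin.last k) = co (Fin.last k).castSucc + co (Fin.last (k + 1)) := by
  apply Cs_ext
  intro z
  exact Fin.snoc_last (α := fun _ => ℝ) _ _

/-- contraction with a constant field along `sh` -/
lemma cn_sh (φ : V (k + 1 + 1) →ₗ[ℝ] ℝ) (h0 : ∀ i : Fin k, φ (Pi.single i.castSucc.castSucc 1) = 0)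
    (h1 : φ (Pi.single (Fin.last k).castSucc 1) + φ (Pi.single (Fin.last (k + 1)) 1) = 1) (x : Fm (k + 1)) :
    cn φ (pb (sh k) x) = pb (sh k) (cs k x) := by
  induction x using Fm_ind with
  | hf f => rw [pb_fc, cs, cn_fc, cn_fc, map_zero]
  | hd j =>
    refine Fin.lastCases ?_ (fun i => ?_) j
    · rw [pb_dx, cp_sh_last, map_add, map_add, fc_pd_co, fc_pd_co, map_add, cn_dx, cn_dx, ← map_add, h1, cs,
        cn_dx, lst_apply, Pi.single_eq_same, AlgHom.commutes]
    · rw [pb_dx, cp_sh_castSucc, fc_pd_co, cn_dx, h0, cs, cn_dx, lst_apply,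
        Pi.single_eq_of_ne (Fin.castSucc_lt_last i).ne', map_zero, map_zero, map_zero]
  | hm x y hx hy =>
    rw [cs] at hx hy
    rw [map_mul, cs, cn_mul, cn_mul, map_add, map_mul, map_mul, hx, hy, pb_sg]
  | ha x y hx hy => rw [map_add, map_add, hx, hy, map_add, map_add]

/-- contraction with the last variable -/
lemma cs_sh (x : Fm (k + 1)) : cs (k + 1) (pb (sh k) x) = pb (sh k) (cs k x) := by
  refine cn_sh _ (fun i => ?_) ?_ x
  · rw [lst_apply, Pi.single_eq_of_ne (Fin.castSucc_lt_last _).ne']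
  · rw [lst_apply, lst_apply, Pi.single_eq_of_ne (Fin.castSucc_lt_last _).ne', Pi.single_eq_same, zero_add]

/-- the last but one coordinate -/
def lst' (k : ℕ) : V (k + 1 + 1) →ₗ[ℝ] ℝ := LinearMap.proj (Fin.last k).castSucc

lemma lst'_apply (v : V (k + 1 + 1)) : lst' k v = v (Fin.last k).castSucc := rfl

lemma cn_sh' (x : Fm (k + 1)) : cn (lst' k) (pb (sh k) x) = pb (sh k) (cs k x) := by
  refine cn_sh _ (fun i => ?_) ?_ x
  · rw [lst'_apply, Pi.single_eq_of_ne]
    intro h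
    exact (Fin.castSucc_lt_last i).ne' (Fin.castSucc_injective _ h)
  · rw [lst'_apply, lst'_apply, Pi.single_eq_same, Pi.single_eq_of_ne (Fin.castSucc_lt_last _).ne, add_zero]

lemma ctr_kil (φ : V k →ₗ[ℝ] ℝ) (a : Ex (k + 1)) : ctr φ (kil k a) = kil k (ctr (φ.comp (ini k)) a) := by
  induction a using CliffordAlgebra.left_induction with
  | algebraMap r =>
    rw [AlgHom.commutes, ctr_algebraMap, ctr_algebraMap, map_zero]
  | add x y hx hy => rw [map_add, map_add, hx, hy, map_add, map_add]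
  | ι_mul x v hx =>
    change ctr φ (kil k (ExteriorAlgebra.ι ℝ v * x)) = kil k (ctr (φ.comp (ini k)) (ExteriorAlgebra.ι ℝ v * x))
    rw [map_mul, kil_ι, ctr_ι_mul, hx, ctr_ι_mul, map_sub, map_smul, map_mul, kil_ι]
    rfl

lemma cn_Q0 (φ : V k →ₗ[ℝ] ℝ) (x : Fm (k + 1)) : cn φ (Q0 k x) = Q0 k (cn (φ.comp (ini k)) x) := by
  induction x using Fm_tind with
  | hf f a => rw [Q0_tm, cn_tm, cn_tm, Q0_tm, ctr_kil]
  | ha x y hx hy => rw [map_add, map_add, hx, hy, map_add, map_add]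

end Pool.Agent.Lib.MP_ccbbf6_gt.L4.FR
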