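import Pool.Agent.Lib.MP_ccbbf6_gt.L4.SM4

/-!
# L4 smoothing block, file 5 (helper95): the smooth filling
-/

set_option autoImplicit false

open Set Filter Topology Metric Real
open scoped ContDiff RealInnerProductSpace Interval

noncomputable section

namespace Pool.Agent.Lib.MP_ccbbf6_gt.L4

open Geo

variable {n : ℕ} {M : Type*} [MetricSpace M] {𝒜 : SDist n M}

/-- plot-smooth maps `Gs M × ℝ → M` -/
def SmM2 (𝒜 : SDist n M) (f : Gs M → ℝ → M) : Prop :=
  ∀ (E : Type) [NormedAddCommGroup E] [NormedSpace ℝ E] (σ : E → Gs M), SmG 𝒜 σ →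
    Sm 𝒜 (fun z : E × ℝ => f (σ z.1) z.2)

/-- uniform neighbourhood for the retraction -/
theorem Emb.uniform [CompactSpace M] (e : Emb n 𝒜) {ε : ℝ} (hε : 0 < ε) :
    ∃ δ : ℝ, 0 < δ ∧ ∀ x y, dist y (e.i x) < δ → y ∈ e.U ∧ dist (e.r y) x < ε := by
  have hic : Continuous e.i := continuous_iff_continuousAt.2 fun x => SmFA.continuousAt (𝒜 := 𝒜) (e.smooth_i x)
  have hrc : ContinuousOn e.r e.U := fun y hy => (e.smooth_r y hy).1.continuousWithinAt
  set O : Set (EuclideanSpace ℝ (Fin e.q) × M) := (e.U ×ˢ univ) ∩ {z | dist (e.r z.1) z.2 < ε} with hO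
  have hOo : IsOpen O := by
    have h1 : ContinuousOn (fun z : EuclideanSpace ℝ (Fin e.q) × M => dist (e.r z.1) z.2) (e.U ×ˢ univ) := by
      exact continuous_dist.comp_continuousOn ((hrc.comp continuousOn_fst (fun z hz => hz.1)).prodMk continuousOn_snd)
    have h2 := h1.isOpen_inter_preimage (e.isOpen.prod isOpen_univ) (isOpen_Iio (a := ε))
    exact h2
  set Γ : Set (EuclideanSpace ℝ (Fin e.q) × M) := range fun x => (e.i x, x) with hΓ
  have hΓc : IsCompact Γ := isCompact_range (hic.prodMk continuous_id)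
  have hΓO : Γ ⊆ O := by
    rintro _ ⟨x, rfl⟩
    refine ⟨⟨e.mem x, trivial⟩, ?_⟩
    show dist (e.r (e.i x)) x < ε
    rw [e.left, dist_self]
    exact hε
  obtain ⟨δ, hδ, hsub⟩ := hΓc.exists_thickening_subset_open hOo hΓO
  refine ⟨δ, hδ, fun x y hxy => ?_⟩
  have h1 : (y, x) ∈ thickening δ Γ := by
    rw [mem_thickening_iff]
    refine ⟨(e.i x, x), ⟨x, rfl⟩, ?_⟩
    rw [Prod.dist_eq]
    simp only [dist_self]
    exact max_lt hxy hδ
  have h2 := hsub h1
  exact ⟨h2.1.1, h2.2⟩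

/-- the reparametrisation of the homotopy -/
def thet (s : ℝ) : ℝ := Real.smoothTransition (3 * s - 1)

theorem thet_mem (s : ℝ) : thet s ∈ Icc (0 : ℝ) 1 :=
  ⟨Real.smoothTransition.nonneg _, Real.smoothTransition.le_one _⟩

theorem thet_zero {s : ℝ} (h : s ≤ 1 / 3) : thet s = 0 := Real.smoothTransition.zero_of_nonpos (by linarith)

theorem thet_one {s : ℝ} (h : 2 / 3 ≤ s) : thet s = 1 := Real.smoothTransition.one_of_one_le (by linarith)

theorem thet_continuous : Continuous thet := Real.smoothTransition.continuous.comp (by fun_prop)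

/-- **Smooth filling.** -/
theorem smooth_filling [CompactSpace M] [Nonempty M] (hB : Bl M) {f₀ Z : C(Gs M, M)} (H : ContinuousMap.Homotopy f₀ Z)
    (h0 : ∀ c, f₀ c = c.1 0) (hZ : ∀ t c, Z (shift t c) = Z c) {ε : ℝ} (hε : 0 < ε) :
    ∃ f : Gs M → ℝ → M, SmM2 𝒜 f ∧ (∀ c, ∀ s ≤ 1 / 4, f c s = c.1 0) ∧
      (∀ c t, ∀ s, 3 / 4 ≤ s → f (shift t c) s = f c 1) ∧
      ∀ c s, dist (f c s) (H (⟨thet s, thet_mem s⟩, c)) < ε := by
  obtain ⟨e⟩ := exists_emb 𝒜
  have his : ∀ x, SmFA 𝒜 e.i x := e.smooth_i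
  have hic : Continuous e.i := continuous_iff_continuousAt.2 fun x => (his x).continuousAt
  obtain ⟨δ, hδ, hδr⟩ := e.uniform hε
  -- the continuous map to approximate
  set Φ : Gs M → ℝ → EuclideanSpace ℝ (Fin e.q) := fun c s => e.i (H (⟨thet s, thet_mem s⟩, c)) with hΦ
  have hΦc : Continuous (fun z : Gs M × ℝ => Φ z.1 z.2) := by
    refine hic.comp (H.continuous.comp ?_)
    exact ((thet_continuous.comp continuous_snd).subtype_mk _).prodMk continuous_fst
  obtain ⟨B, hB1, -, hB2⟩ := exists_smooth_near 𝒜 hB hΦc (half_pos hδ)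
  obtain ⟨A0, hA1, hA3, hA2⟩ := exists_smooth_near 𝒜 hB (Φ := fun c _ => e.i (Z c))
    ((hic.comp (Z.continuous.comp continuous_fst))) (half_pos hδ)
  -- the invariant end
  set a : Gs M → EuclideanSpace ℝ (Fin e.q) := fun c => A0 c 0 with ha
  have haS : SmP 𝒜 a := by
    intro E _ _ σ hσ
    exact (hA1 E σ hσ).comp (contDiff_id.prodMk contDiff_const : ContDiff ℝ ∞ fun u : E => (u, (0 : ℝ)))
  have hac : Continuous a := hA3 0 (by simp)
  set A : Gs M → EuclideanSpace ℝ (Fin e.q) := avg a with hA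
  have hAS : SmP 𝒜 A := smP_avg hB haS
  have hAinv : ∀ t c, A (shift t c) = A c := fun t c => avg_shift 𝒜 hB a t c
  have hAZ : ∀ c, ‖A c - e.i (Z c)‖ ≤ δ / 2 := by
    intro c
    refine norm_avg_sub_le hac (fun t => ?_)
    have h1 := hA2 (shift t c) 0 (by simp)
    rw [hZ] at h1
    exact h1.le
  -- cut-offs
  obtain ⟨χ₀, hχ₀⟩ : ∃ χ₀ : ℝ → ℝ, χ₀ = fun s => 1 - Real.smoothTransition (12 * s - 3) := ⟨_, rfl⟩
  obtain ⟨χ₁, hχ₁⟩ : ∃ χ₁ : ℝ → ℝ, χ₁ = fun s => Real.smoothTransition (12 * s - 8) := ⟨_, rfl⟩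
  have hχ₀s : ContDiff ℝ ∞ χ₀ := by
    rw [hχ₀]
    exact contDiff_const.sub (Real.smoothTransition.contDiff.comp (by fun_prop))
  have hχ₁s : ContDiff ℝ ∞ χ₁ := by
    rw [hχ₁]
    exact Real.smoothTransition.contDiff.comp (by fun_prop)
  have hχ₀0 : ∀ s, 0 ≤ χ₀ s := fun s => by
    rw [hχ₀]
    exact sub_nonneg.2 (Real.smoothTransition.le_one _)
  have hχ₁0 : ∀ s, 0 ≤ χ₁ s := fun s => by
    rw [hχ₁]
    exact Real.smoothTransition.nonneg _
  have hχ₀1 : ∀ s, s ≤ 1 / 4 → χ₀ s = 1 := fun s hs => by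
    rw [hχ₀]
    simp only
    rw [Real.smoothTransition.zero_of_nonpos (by linarith), sub_zero]
  have hχ₀2 : ∀ s, 1 / 3 ≤ s → χ₀ s = 0 := fun s hs => by
    rw [hχ₀]
    simp only
    rw [Real.smoothTransition.one_of_one_le (by linarith), sub_self]
  have hχ₁1 : ∀ s, 3 / 4 ≤ s → χ₁ s = 1 := fun s hs => by
    rw [hχ₁]
    exact Real.smoothTransition.one_of_one_le (by linarith)
  have hχ₁2 : ∀ s, s ≤ 2 / 3 → χ₁ s = 0 := fun s hs => by
    rw [hχ₁]
    exact Real.smoothTransition.zero_of_nonpos (by linarith)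
  have hχ01 : ∀ s, χ₀ s ≤ 1 := fun s => by
    rw [hχ₀]
    have := Real.smoothTransition.nonneg (12 * s - 3)
    simp only
    linarith
  have hχ11 : ∀ s, χ₁ s ≤ 1 := fun s => by
    rw [hχ₁]
    exact Real.smoothTransition.le_one _
  have hχ : ∀ s, 0 ≤ 1 - χ₀ s - χ₁ s := by
    intro s
    rcases le_total s (1 / 2) with hs | hs
    · rw [hχ₁2 s (by linarith), sub_zero]
      linarith [hχ01 s]
    · rw [hχ₀2 s (by linarith), sub_zero]
      linarith [hχ11 s]
  -- the map to Euclidean space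
  set G : Gs M → ℝ → EuclideanSpace ℝ (Fin e.q) :=
    fun c s => χ₀ s • e.i (c.1 0) + χ₁ s • A c + (1 - χ₀ s - χ₁ s) • B c s with hG
  have hG0 : ∀ c s, s ≤ 1 / 4 → G c s = e.i (c.1 0) := by
    intro c s hs
    simp only [hG, hχ₀1 s hs, hχ₁2 s (by linarith)]
    simp
  have hG1 : ∀ c s, 3 / 4 ≤ s → G c s = A c := by
    intro c s hs
    simp only [hG, hχ₀2 s (by linarith), hχ₁1 s hs]
    simp
  have hclose : ∀ c s, ‖G c s - Φ c s‖ ≤ δ / 2 := by
    intro c s
    have t0 : ‖χ₀ s • (e.i (c.1 0) - Φ c s)‖ ≤ χ₀ s * (δ / 2) := by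
      rcases le_total s (1 / 3) with hs | hs
      · have h1 : Φ c s = e.i (c.1 0) := by
          simp only [hΦ]
          have h2 : (⟨thet s, thet_mem s⟩ : unitInterval) = 0 := Subtype.ext (thet_zero hs)
          rw [h2, H.apply_zero, h0]
        rw [h1, sub_self, smul_zero, norm_zero]
        exact mul_nonneg (hχ₀0 s) (by linarith)
      · rw [hχ₀2 s hs, zero_smul, norm_zero, zero_mul]
    have t1 : ‖χ₁ s • (A c - Φ c s)‖ ≤ χ₁ s * (δ / 2) := by
      rcases le_total s (2 / 3) with hs | hs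
      · rw [hχ₁2 s hs, zero_smul, norm_zero, zero_mul]
      · have h1 : Φ c s = e.i (Z c) := by
          simp only [hΦ]
          have h2 : (⟨thet s, thet_mem s⟩ : unitInterval) = 1 := Subtype.ext (thet_one hs)
          rw [h2, H.apply_one]
        rw [h1, norm_smul, Real.norm_eq_abs, abs_of_nonneg (hχ₁0 s)]
        exact mul_le_mul_of_nonneg_left (hAZ c) (hχ₁0 s)
    have t2 : ‖(1 - χ₀ s - χ₁ s) • (B c s - Φ c s)‖ ≤ (1 - χ₀ s - χ₁ s) * (δ / 2) := by
      rw [norm_smul, Real.norm_eq_abs, abs_of_nonneg (hχ s)]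
      rcases le_total s 0 with hs | hs
      · rw [hχ₀1 s (by linarith), hχ₁2 s (by linarith)]
        simp
      · rcases le_total s 1 with hs' | hs'
        · exact mul_le_mul_of_nonneg_left (hB2 c s ⟨hs, hs'⟩).le (hχ s)
        · rw [hχ₀2 s (by linarith), hχ₁1 s (by linarith)]
          simp
    have hsum : G c s - Φ c s = χ₀ s • (e.i (c.1 0) - Φ c s) + χ₁ s • (A c - Φ c s) +
        (1 - χ₀ s - χ₁ s) • (B c s - Φ c s) := by
      simp only [hG]
      module
    rw [hsum]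
    refine (norm_add_le _ _).trans ((add_le_add ((norm_add_le _ _).trans (add_le_add t0 t1)) t2).trans (le_of_eq ?_))
    ring
  have hU : ∀ c s, G c s ∈ e.U ∧ dist (e.r (G c s)) (H (⟨thet s, thet_mem s⟩, c)) < ε := by
    intro c s
    refine hδr _ _ ?_
    rw [dist_eq_norm]
    exact (hclose c s).trans_lt (half_lt_self hδ)
  refine ⟨fun c s => e.r (G c s), ?_, ?_, ?_, fun c s => (hU c s).2⟩
  · intro E _ _ σ hσ z
    have h1 : ContDiff ℝ ∞ (fun z : E × ℝ => G (σ z.1) z.2) := by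
      have k1 : ContDiff ℝ ∞ (fun z : E × ℝ => e.i ((σ z.1).1 0)) := (smP_ev hB his 0 E σ hσ).comp contDiff_fst
      have k2 : ContDiff ℝ ∞ (fun z : E × ℝ => A (σ z.1)) := (hAS E σ hσ).comp contDiff_fst
      have k3 : ContDiff ℝ ∞ (fun z : E × ℝ => B (σ z.1) z.2) := hB1 E σ hσ
      have k4 : ContDiff ℝ ∞ (fun z : E × ℝ => χ₀ z.2) := hχ₀s.comp contDiff_snd
      have k5 : ContDiff ℝ ∞ (fun z : E × ℝ => χ₁ z.2) := hχ₁s.comp contDiff_snd
      exact ((k4.smul k1).add (k5.smul k2)).add (((contDiff_const.sub k4).sub k5).smul k3)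
    have h2 : SmAt 𝒜 e.r (G (σ z.1) z.2) := e.smooth_r _ (hU _ _).1
    exact SmAt.comp (g := e.r) (f := fun z : E × ℝ => G (σ z.1) z.2) h2 h1.contDiffAt
  · intro c s hs
    simp only [hG0 c s hs, e.left]
  · intro c t s hs
    simp only [hG1 _ s hs, hG1 _ 1 (by norm_num), hAinv]

end Pool.Agent.Lib.MP_ccbbf6_gt.L4
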