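import Pool.Agent.Lib.MP_ccbbf6_gt.Geo.KAc

/-!
# Level 4, OMs: the planes `V_x` are smooth across the cut locus of `p` (helper13)

`cutp p x` is the point at distance `π` from `p` on the geodesics from `p` through `x ≠ p`, `V_x` the linear space
whose unit vectors are the directions at `p` of the geodesics from `p` to `cutp p x`.  Near a cut point `q` of `p`
every `a ∈ V_q` extends to a smooth section `s x ∈ V_x` (coordinates `ψ q`), `P_(V_q) (s x) = a`.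
-/

set_option autoImplicit false
set_option linter.unusedSectionVars false

open Set Filter Topology Metric Real
open scoped ContDiff RealInnerProductSpace

noncomputable section

namespace Pool.Agent.Lib.MP_ccbbf6_gt.L4

open Geo

open Classical in
/-- the point at distance `π` from `p` on the geodesics from `p` through `x`, `x ≠ p` -/
def cutp {M : Type*} [MetricSpace M] (p x : M) : M := if dist p x = π then x else gd p x π

variable {n : ℕ} {M : Type*} [MetricSpace M] [CompactSpace M] (𝒜 : SDist n M)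

theorem gv_dist (hB : Bl M) (p : M) {v : Eu n} (hv : ‖v‖ = 1) {r : ℝ} (h0 : 0 ≤ r) (h1 : r ≤ π) :
    dist p (𝒜.gv p v r) = r := by
  obtain ⟨hc, hc0, -⟩ := gv_spec 𝒜 hB p hv
  have e : |(0 : ℝ) - r| = r := by rw [zero_sub, abs_neg, abs_of_nonneg h0]
  have h := hc 0 r (by rw [e]; exact h1)
  rwa [hc0, e] at h

theorem cutp_gv (hB : Bl M) (p : M) {v : Eu n} (hv : ‖v‖ = 1) {r : ℝ} (h0 : 0 < r) (h1 : r ≤ π) :
    cutp p (𝒜.gv p v r) = 𝒜.gv p v π := by
  obtain ⟨hc, hc0, -⟩ := gv_spec 𝒜 hB p hv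
  have hd := gv_dist 𝒜 hB p hv h0.le h1
  unfold cutp
  by_cases h : r = π
  · rw [if_pos (by rw [hd, h]), h]
  · rw [if_neg (by rw [hd]; exact h)]
    have h2 := gd_eq 𝒜 hc (s := 0) h0 (lt_of_le_of_ne h1 h)
    rw [hc0, zero_add] at h2
    rw [h2]
    show 𝒜.gv p v (0 + π) = _
    rw [zero_add]

theorem exists_dir (hB : Bl M) {p x : M} (h : x ≠ p) : ∃ v : Eu n, ‖v‖ = 1 ∧ 𝒜.gv p v (dist p x) = x := by
  obtain ⟨ξ, h1, h2⟩ := Ex_surj 𝒜 hB p x
  have h0 : ξ ≠ 0 := by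
    rintro rfl
    rw [norm_zero] at h1
    exact h (dist_eq_zero.mp h1.symm).symm
  obtain ⟨h3, h4⟩ := exa_polar h0
  refine ⟨‖ξ‖⁻¹ • ξ, h3, ?_⟩
  rw [← h1, ← Ex_smul 𝒜 hB p h3, h4, h2]

theorem dist_cutp (hB : Bl M) {p x : M} (h : x ≠ p) (𝒜 : SDist n M) :
    dist p (cutp p x) = π ∧ dist (cutp p x) x = π - dist p x := by
  obtain ⟨v, hv, hx⟩ := exists_dir 𝒜 hB h
  have h0 : 0 < dist p x := dist_pos.mpr h.symm
  have h1 := cutp_gv 𝒜 hB p hv h0 (hB.diam p x)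
  rw [hx] at h1
  rw [h1]
  refine ⟨gv_dist 𝒜 hB p hv pi_pos.le le_rfl, ?_⟩
  obtain ⟨hc, hc0, -⟩ := gv_spec 𝒜 hB p hv
  have hd := hB.diam p x
  have e : |π - dist p x| = π - dist p x := abs_of_nonneg (by linarith)
  have h2 := hc π (dist p x) (by rw [e]; linarith)
  rwa [hx, e] at h2

/-- `V_x` is the fibre over the cut point -/
theorem mem_V_iff {p q : M} {V : Submodule ℝ (Eu n)} (hV : 𝒜.Lam p q = {v | v ∈ V ∧ ‖v‖ = 1}) (hB : Bl M)
    {w : Eu n} (hw : w ≠ 0) : w ∈ V ↔ 𝒜.Ex p (rad π w) = q := by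
  rw [kc_Ex 𝒜 hB p hw]
  have hr : ‖w‖⁻¹ ≠ 0 := inv_ne_zero (norm_ne_zero_iff.mpr hw)
  constructor
  · intro hwV
    have h1 : ‖w‖⁻¹ • w ∈ 𝒜.Lam p q := by
      rw [hV]
      exact ⟨V.smul_mem _ hwV, norm_normalize hw⟩
    exact h1.2
  · intro hE
    have h1 : ‖w‖⁻¹ • w ∈ 𝒜.Lam p q := ⟨norm_normalize hw, hE⟩
    rw [hV] at h1
    exact (V.smul_mem_iff hr).mp h1.1

/-- the kernel of the derivative of `w ↦ exp (π w / |w|)` -/
theorem ker_X_eq (hB : Bl M) {κ : ℕ} (hk : 𝒜.HK κ) {p q : M} {V : Submodule ℝ (Eu n)}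
    (hV : 𝒜.Lam p q = {v | v ∈ V ∧ ‖v‖ = 1}) {v : Eu n} (hvV : v ∈ V) (hne : v ≠ 0) :
    V = LinearMap.ker (fderiv ℝ (𝒜.X p q π) v : Eu n →ₗ[ℝ] Eu n) := by
  have hfib : ∀ w : Eu n, w ≠ 0 → (w ∈ V ↔ 𝒜.Ex p (rad π w) = q) := fun w hw => mem_V_iff 𝒜 hV hB hw
  have hmemp : 𝒜.Ex p (rad π v) ∈ (𝒜.ψ q).source := by
    rw [(hfib v hne).mp hvV]
    exact 𝒜.mem q
  have hcontE := continuousAt_Exrad 𝒜 hB p π hne
  have hnear : ∀ᶠ w in 𝓝 v, w ≠ 0 ∧ 𝒜.Ex p (rad π w) ∈ (𝒜.ψ q).source := by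
    filter_upwards [isOpen_ne.mem_nhds hne, hcontE.eventually ((𝒜.ψ q).open_source.mem_nhds hmemp)] with w h1 h2
    exact ⟨h1, h2⟩
  have hC : ContDiffAt ℝ ∞ (𝒜.X p q π) v := contDiffAt_X 𝒜 hB p q π hne hmemp
  have hdiff : HasFDerivAt (𝒜.X p q π) (fderiv ℝ (𝒜.X p q π) v) v := (hC.differentiableAt (by simp)).hasFDerivAt
  have hX0 : 𝒜.X p q π v = 0 := by
    unfold SDist.X
    rw [(hfib v hne).mp hvV, 𝒜.zero]
  have hrank : ∀ᶠ w in 𝓝 v,
      Module.finrank ℝ (LinearMap.ker (fderiv ℝ (𝒜.X p q π) w : Eu n →ₗ[ℝ] Eu n)) = κ + 1 := by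
    filter_upwards [hnear] with w hw
    exact finrank_ker_near 𝒜 hB hk hw.1 hw.2
  ext a
  rw [LinearMap.mem_ker]
  constructor
  · intro ha
    have hline : HasDerivAt (fun τ : ℝ => v + τ • a) a 0 := by
      have h1 := ((hasDerivAt_id (0 : ℝ)).smul_const a).const_add v
      rwa [one_smul] at h1
    have hline0 : (fun τ : ℝ => v + τ • a) 0 = v := by simp
    have hd' : HasFDerivAt (𝒜.X p q π) (fderiv ℝ (𝒜.X p q π) v) ((fun τ : ℝ => v + τ • a) 0) := by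
      rw [hline0]; exact hdiff
    have h2 := hd'.comp_hasDerivAt (0 : ℝ) hline
    have h3 : HasDerivAt (𝒜.X p q π ∘ fun τ : ℝ => v + τ • a) 0 0 := by
      refine (hasDerivAt_const (0 : ℝ) (0 : Eu n)).congr_of_eventuallyEq ?_
      have h4 : Tendsto (fun τ : ℝ => v + τ • a) (𝓝 0) (𝓝 v) := by
        have := hline.continuousAt.tendsto
        rwa [zero_smul, add_zero] at this
      filter_upwards [h4.eventually hnear] with τ hτ
      show 𝒜.X p q π (v + τ • a) = 0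
      unfold SDist.X
      rw [(hfib _ hτ.1).mp (V.add_mem hvV (V.smul_mem _ ha)), 𝒜.zero]
    exact h2.unique h3
  · intro ha
    have ha' : fderiv ℝ (𝒜.X p q π) v a = 0 := ha
    obtain ⟨g, hg0, hg1, hg2⟩ := const_rank_curve (hC.of_le (by simp)) hrank ha'
    have hgt : Tendsto g (𝓝 0) (𝓝 v) := by
      have := hg1.continuousAt.tendsto
      rwa [hg0] at this
    have hgV : ∀ᶠ τ in 𝓝 (0 : ℝ), g τ ∈ V := by
      filter_upwards [hgt.eventually hnear, hg2] with τ h1 h2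
      rw [hfib _ h1.1]
      rw [hX0] at h2
      apply (𝒜.ψ q).injOn h1.2 (𝒜.mem q)
      rw [𝒜.zero]
      exact h2
    have hsl := hasDerivAt_iff_tendsto_slope.mp hg1
    have hclosed : IsClosed (V : Set (Eu n)) := V.closed_of_finiteDimensional
    refine hclosed.mem_of_tendsto hsl ?_
    filter_upwards [nhdsWithin_le_nhds hgV] with τ hτ
    rw [slope_def_module, hg0]
    exact V.smul_mem _ (V.sub_mem hτ hvV)

/-! ## existence and continuity of the section -/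

theorem tendsto_cutp (hB : Bl M) {p q : M} (h : dist p q = π) (𝒜 : SDist n M) :
    Tendsto (fun z => cutp p ((𝒜.ψ q).symm z)) (𝓝 0) (𝓝 q) := by
  have h1 : Tendsto (𝒜.ψ q).symm (𝓝 0) (𝓝 q) := by
    have := (continuousAt_symm 𝒜 q).tendsto
    rwa [symm_zero] at this
  have h2 : Tendsto (fun z => π - dist p ((𝒜.ψ q).symm z) + dist ((𝒜.ψ q).symm z) q) (𝓝 0) (𝓝 0) := by
    have h3 : Tendsto (fun z => π - dist p ((𝒜.ψ q).symm z) + dist ((𝒜.ψ q).symm z) q) (𝓝 0)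
        (𝓝 (π - dist p q + dist q q)) :=
      ((tendsto_const_nhds.sub (tendsto_const_nhds.dist h1)).add (h1.dist tendsto_const_nhds))
    rwa [h, sub_self, dist_self, add_zero] at h3
  have hne : ∀ᶠ z in 𝓝 (0 : Eu n), (𝒜.ψ q).symm z ≠ p := by
    have hqp : q ≠ p := by
      rintro rfl
      rw [dist_self] at h
      exact pi_pos.ne h
    exact h1.eventually_ne hqp
  rw [tendsto_iff_dist_tendsto_zero]
  refine squeeze_zero' (Eventually.of_forall fun _ => dist_nonneg) ?_ h2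
  filter_upwards [hne] with z hz
  refine (dist_triangle _ ((𝒜.ψ q).symm z) _).trans ?_
  rw [(dist_cutp hB hz 𝒜).2]

/-- the spheres `Lam` are continuous: avoiding a compact set of directions -/
theorem eventually_avoid (hB : Bl M) {p q : M} (h : dist p q = π) {K : Set (Eu n)} (hK : IsCompact K)
    (hK0 : ∀ w ∈ K, w ≠ 0) (hKq : ∀ w ∈ K, 𝒜.Ex p (rad π w) ≠ q) :
    ∀ᶠ z in 𝓝 (0 : Eu n), ∀ w ∈ K, 𝒜.Ex p (rad π w) ≠ cutp p ((𝒜.ψ q).symm z) := by
  have hcont : ContinuousOn (fun w => 𝒜.Ex p (rad π w)) K := fun w hw =>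
    (continuousAt_Exrad 𝒜 hB p π (hK0 w hw)).continuousWithinAt
  have himg := (hK.image_of_continuousOn hcont).isClosed
  have hq : q ∉ (fun w => 𝒜.Ex p (rad π w)) '' K := by
    rintro ⟨w, hw, hwq⟩
    exact hKq w hw hwq
  filter_upwards [(tendsto_cutp hB h 𝒜).eventually (himg.isOpen_compl.mem_nhds hq)] with z hz w hw he
  exact hz ⟨w, hw, he⟩

theorem exists_lift (hB : Bl M) {κ : ℕ} (hk : 𝒜.HK κ) {p q : M} (h : dist p q = π) {V : Submodule ℝ (Eu n)}
    (hV : 𝒜.Lam p q = {v | v ∈ V ∧ ‖v‖ = 1}) (hVk : Module.finrank ℝ V = κ + 1) {a : Eu n} (ha : a ∈ V)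
    (ha0 : a ≠ 0) :
    ∃ s : Eu n → Eu n, Tendsto s (𝓝 0) (𝓝 a) ∧ s 0 = a ∧ ∀ᶠ z in 𝓝 (0 : Eu n), s z ≠ 0 ∧
      𝒜.Ex p (rad π (s z)) = cutp p ((𝒜.ψ q).symm z) ∧ V.starProjection (s z) = a := by
  classical
  have hPV : ∀ w ∈ V, V.starProjection w = w := fun w hw => Submodule.starProjection_eq_self_iff.mpr hw
  -- `P` is injective on the unit vectors of `V_z`
  have h1 : ∀ᶠ z in 𝓝 (0 : Eu n), ∀ w : Eu n, ‖w‖ = 1 → 𝒜.Ex p (rad π w) = cutp p ((𝒜.ψ q).symm z) →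
      1 / 2 < ‖V.starProjection w‖ := by
    have hK : IsCompact ({w : Eu n | ‖w‖ = 1} ∩ {w | ‖V.starProjection w‖ ≤ 1 / 2}) := by
      refine IsCompact.inter_right ?_ (isClosed_le (by fun_prop) continuous_const)
      have := isCompact_sphere (0 : Eu n) 1
      have e : {w : Eu n | ‖w‖ = 1} = sphere (0 : Eu n) 1 := by
        ext w
        simp
      rwa [e]
    have := eventually_avoid 𝒜 hB h hK (fun w hw => kc_ne hw.1) (fun w hw he => by
      have h2 := (mem_V_iff 𝒜 hV hB (kc_ne hw.1)).mpr he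
      have h3 : ‖V.starProjection w‖ ≤ 1 / 2 := hw.2
      rw [hPV w h2] at h3
      have h4 : ‖w‖ = 1 := hw.1
      linarith)
    filter_upwards [this] with z hz w hw he
    by_contra hcon
    exact hz w ⟨hw, not_lt.mp hcon⟩ he
  -- existence
  have hne : ∀ᶠ z in 𝓝 (0 : Eu n), (𝒜.ψ q).symm z ≠ p := by
    have h2 : Tendsto (𝒜.ψ q).symm (𝓝 0) (𝓝 q) := by
      have := (continuousAt_symm 𝒜 q).tendsto
      rwa [symm_zero] at this
    refine h2.eventually_ne ?_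
    rintro rfl
    rw [dist_self] at h
    exact pi_pos.ne h
  have h2 : ∀ᶠ z in 𝓝 (0 : Eu n), ∃ w : Eu n, w ≠ 0 ∧ 𝒜.Ex p (rad π w) = cutp p ((𝒜.ψ q).symm z) ∧
      V.starProjection w = a ∧ ‖w‖ ≤ 2 * ‖a‖ := by
    filter_upwards [h1, hne] with z hz hzp
    obtain ⟨hd, -⟩ := dist_cutp hB hzp 𝒜
    obtain ⟨W, hW, hWk⟩ := finrank_Lam 𝒜 hB hk (q := p) (p := cutp p ((𝒜.ψ q).symm z)) (by rw [dist_comm, hd])
    have hbound : ∀ w ∈ W, ‖w‖ ≤ 2 * ‖V.starProjection w‖ := by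
      intro w hw
      by_cases hw0 : w = 0
      · rw [hw0]
        simp
      · have hr : 0 < ‖w‖ := norm_pos_iff.mpr hw0
        have h3 : ‖w‖⁻¹ • w ∈ W := W.smul_mem _ hw
        have h4 := (mem_V_iff 𝒜 hW hB (kc_ne (norm_normalize hw0))).mp h3
        have h5 := hz _ (norm_normalize hw0) h4
        rw [map_smul, norm_smul, norm_inv, norm_norm, lt_inv_mul_iff₀ hr] at h5
        linarith
    let f : W →ₗ[ℝ] V :=
      ((V.starProjection : Eu n →ₗ[ℝ] Eu n).comp W.subtype).codRestrict V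
        (fun w => Submodule.starProjection_apply_mem V _)
    have hfa : ∀ w : W, (f w : Eu n) = V.starProjection w := fun w => rfl
    have hinj : Function.Injective f := by
      rw [← LinearMap.ker_eq_bot, LinearMap.ker_eq_bot']
      intro w hw
      have h3 : V.starProjection (w : Eu n) = 0 := by rw [← hfa, hw]; rfl
      have h4 := hbound w w.2
      rw [h3, norm_zero, mul_zero] at h4
      exact Subtype.ext (norm_le_zero_iff.mp h4)
    have hsurj : Function.Surjective f :=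
      (LinearMap.injective_iff_surjective_of_finrank_eq_finrank (by rw [hWk, hVk])).mp hinj
    obtain ⟨w, hw⟩ := hsurj ⟨a, ha⟩
    have hwa : V.starProjection (w : Eu n) = a := by rw [← hfa, hw]
    have hw0 : (w : Eu n) ≠ 0 := by
      intro h0
      rw [h0, map_zero] at hwa
      exact ha0 hwa.symm
    refine ⟨w, hw0, (mem_V_iff 𝒜 hW hB hw0).mp w.2, hwa, ?_⟩
    have := hbound w w.2
    rwa [hwa] at this
  -- choice
  obtain ⟨s, hs⟩ : ∃ s : Eu n → Eu n, ∀ z, (∃ w : Eu n, w ≠ 0 ∧ 𝒜.Ex p (rad π w) = cutp p ((𝒜.ψ q).symm z) ∧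
      V.starProjection w = a ∧ ‖w‖ ≤ 2 * ‖a‖) → s z ≠ 0 ∧ 𝒜.Ex p (rad π (s z)) = cutp p ((𝒜.ψ q).symm z) ∧
      V.starProjection (s z) = a ∧ ‖s z‖ ≤ 2 * ‖a‖ := by
    have hex : ∀ z : Eu n, ∃ w' : Eu n, (∃ w : Eu n, w ≠ 0 ∧ 𝒜.Ex p (rad π w) = cutp p ((𝒜.ψ q).symm z) ∧
        V.starProjection w = a ∧ ‖w‖ ≤ 2 * ‖a‖) → w' ≠ 0 ∧ 𝒜.Ex p (rad π w') = cutp p ((𝒜.ψ q).symm z) ∧
        V.starProjection w' = a ∧ ‖w'‖ ≤ 2 * ‖a‖ := by
      intro z
      by_cases hz : ∃ w : Eu n, w ≠ 0 ∧ 𝒜.Ex p (rad π w) = cutp p ((𝒜.ψ q).symm z) ∧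
        V.starProjection w = a ∧ ‖w‖ ≤ 2 * ‖a‖
      · exact ⟨hz.choose, fun _ => hz.choose_spec⟩
      · exact ⟨a, fun hz' => absurd hz' hz⟩
    choose s hs using hex
    exact ⟨s, hs⟩
  have h3 : ∀ᶠ z in 𝓝 (0 : Eu n), s z ≠ 0 ∧ 𝒜.Ex p (rad π (s z)) = cutp p ((𝒜.ψ q).symm z) ∧
      V.starProjection (s z) = a ∧ ‖s z‖ ≤ 2 * ‖a‖ := by
    filter_upwards [h2] with z hz
    exact hs z hz
  refine ⟨s, ?_, ?_, ?_⟩
  · rw [Metric.tendsto_nhds]
    intro ε hε
    have hK : IsCompact (closedBall (0 : Eu n) (2 * ‖a‖) ∩ ({w | V.starProjection w = a} ∩ {w | ε ≤ ‖w - a‖})) := by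
      refine (isCompact_closedBall _ _).inter_right (IsClosed.inter ?_ ?_)
      · exact isClosed_eq (by fun_prop) continuous_const
      · exact isClosed_le continuous_const (by fun_prop)
    have h4 := eventually_avoid 𝒜 hB h hK (fun w hw h0 => by
      have h5 : V.starProjection w = a := hw.2.1
      rw [h0, map_zero] at h5
      exact ha0 h5.symm) (fun w hw he => by
      have h5 : V.starProjection w = a := hw.2.1
      have hw0 : w ≠ 0 := by
        rintro rfl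
        rw [map_zero] at h5
        exact ha0 h5.symm
      have h6 := (mem_V_iff 𝒜 hV hB hw0).mpr he
      rw [hPV w h6] at h5
      have h7 : ε ≤ ‖w - a‖ := hw.2.2
      rw [h5, sub_self, norm_zero] at h7
      linarith)
    filter_upwards [h3, h4] with z hz hz'
    by_contra hcon
    rw [dist_eq_norm, not_lt] at hcon
    refine hz' (s z) ⟨?_, hz.2.2.1, hcon⟩ hz.2.1
    rw [mem_closedBall_zero_iff]
    exact hz.2.2.2
  · obtain ⟨h4, h5, h6, -⟩ := h3.self_of_nhds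
    have e : cutp p ((𝒜.ψ q).symm 0) = q := by
      rw [symm_zero]
      unfold cutp
      rw [if_pos h]
    rw [e] at h5
    have h7 := (mem_V_iff 𝒜 hV hB h4).mpr h5
    rw [hPV _ h7] at h6
    exact h6
  · filter_upwards [h3] with z hz
    exact ⟨hz.1, hz.2.1, hz.2.2.1⟩

/-! ## smoothness of the section -/

/-- `D_u (d(exp (π u / |u|), x) ^ 2 / 2)` -/
def omPhi (F : Eu n × Eu n → ℝ) (X : Eu n → Eu n) (y : Eu n × Eu n) : Eu n →L[ℝ] ℝ :=
  (fderiv ℝ F (X y.1, y.2)).comp ((ContinuousLinearMap.inl ℝ (Eu n) (Eu n)).comp (fderiv ℝ X y.1))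

theorem contDiffAt_omPhi {F : Eu n × Eu n → ℝ} {X : Eu n → Eu n} {a : Eu n} (hF : ContDiffAt ℝ ∞ F (0, 0))
    (hX : ContDiffAt ℝ ∞ X a) (h0 : X a = 0) : ContDiffAt ℝ ∞ (omPhi F X) (a, 0) := by
  have hX1 : ContDiffAt ℝ ∞ (fun y : Eu n × Eu n => X y.1) (a, 0) :=
    ContDiffAt.comp (g := X) (f := fun y : Eu n × Eu n => y.1) (a, (0 : Eu n)) hX contDiffAt_fst
  have hX2 : ContDiffAt ℝ ∞ (fun y : Eu n × Eu n => fderiv ℝ X y.1) (a, 0) :=
    ContDiffAt.comp (g := fderiv ℝ X) (f := fun y : Eu n × Eu n => y.1) (a, (0 : Eu n))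
      (hX.fderiv_right (by simp)) contDiffAt_fst
  have hF1 : ContDiffAt ℝ ∞ (fderiv ℝ F) (0, 0) := hF.fderiv_right (by simp)
  have hF2 : ContDiffAt ℝ ∞ (fun y : Eu n × Eu n => fderiv ℝ F (X y.1, y.2)) (a, 0) := by
    refine ContDiffAt.comp (g := fderiv ℝ F) (f := fun y : Eu n × Eu n => (X y.1, y.2)) (a, (0 : Eu n)) ?_
      (hX1.prodMk contDiffAt_snd)
    show ContDiffAt ℝ ∞ (fderiv ℝ F) (X a, 0)
    rw [h0]
    exact hF1
  exact hF2.clm_comp (contDiffAt_const.clm_comp hX2)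

theorem fderiv_omPhi {F : Eu n × Eu n → ℝ} {X : Eu n → Eu n} {a : Eu n} (hF : ContDiffAt ℝ ∞ F (0, 0))
    (hX : ContDiffAt ℝ ∞ X a) (h0 : X a = 0) (hF0 : fderiv ℝ F (0, 0) = 0) (h k b : Eu n) :
    fderiv ℝ (omPhi F X) (a, 0) (h, k) b =
      fderiv ℝ (fderiv ℝ F) (0, 0) (fderiv ℝ X a h, k) (fderiv ℝ X a b, 0) := by
  have hXd : HasFDerivAt X (fderiv ℝ X a) a := (hX.differentiableAt (by simp)).hasFDerivAt
  have hX1 : HasFDerivAt (fun y : Eu n × Eu n => (X y.1, y.2))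
      (((fderiv ℝ X a).comp (ContinuousLinearMap.fst ℝ (Eu n) (Eu n))).prod (ContinuousLinearMap.snd ℝ (Eu n) (Eu n)))
      (a, 0) :=
    (HasFDerivAt.comp (a, (0 : Eu n)) hXd hasFDerivAt_fst).prodMk hasFDerivAt_snd
  have hF1 : DifferentiableAt ℝ (fderiv ℝ F) (0, 0) := (hF.fderiv_right (m := ∞) (by simp)).differentiableAt (by simp)
  have hF2 : HasFDerivAt (fderiv ℝ F) (fderiv ℝ (fderiv ℝ F) (0, 0)) ((fun y : Eu n × Eu n => (X y.1, y.2)) (a, 0)) := by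
    show HasFDerivAt (fderiv ℝ F) (fderiv ℝ (fderiv ℝ F) (0, 0)) (X a, 0)
    rw [h0]
    exact hF1.hasFDerivAt
  have hc : HasFDerivAt (fun y : Eu n × Eu n => fderiv ℝ F (X y.1, y.2)) _ (a, 0) := HasFDerivAt.comp (a, (0 : Eu n)) hF2 hX1
  have hd : DifferentiableAt ℝ (fun y : Eu n × Eu n =>
      (ContinuousLinearMap.inl ℝ (Eu n) (Eu n)).comp (fderiv ℝ X y.1)) (a, 0) := by
    have hX2 : ContDiffAt ℝ ∞ (fun y : Eu n × Eu n => fderiv ℝ X y.1) (a, 0) :=
      ContDiffAt.comp (g := fderiv ℝ X) (f := fun y : Eu n × Eu n => y.1) (a, (0 : Eu n))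
        (hX.fderiv_right (by simp)) contDiffAt_fst
    have h3 : ContDiffAt ℝ ∞ (fun y : Eu n × Eu n =>
      (ContinuousLinearMap.inl ℝ (Eu n) (Eu n)).comp (fderiv ℝ X y.1)) (a, 0) := contDiffAt_const.clm_comp hX2
    exact h3.differentiableAt (by simp)
  have hcd := hc.clm_comp hd.hasFDerivAt
  have e : omPhi F X = fun y => (fderiv ℝ F (X y.1, y.2)).comp
      ((ContinuousLinearMap.inl ℝ (Eu n) (Eu n)).comp (fderiv ℝ X y.1)) := rfl
  rw [e, hcd.fderiv]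
  simp only [_root_.add_apply, ContinuousLinearMap.comp_apply, ContinuousLinearMap.compL_apply,
    ContinuousLinearMap.flip_apply, ContinuousLinearMap.prod_apply, ContinuousLinearMap.coe_fst',
    ContinuousLinearMap.coe_snd', ContinuousLinearMap.inl_apply]
  rw [h0, hF0]
  simp

theorem exists_riesz : ∃ T : (Eu n →L[ℝ] ℝ) →L[ℝ] Eu n, ∀ φ b, ⟪T φ, b⟫ = φ b := by
  let T0 : (Eu n →L[ℝ] ℝ) →ₗ[ℝ] Eu n :=
    { toFun := fun φ => (InnerProductSpace.toDual ℝ (Eu n)).symm φ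
      map_add' := fun x y => map_add _ x y
      map_smul' := fun c x => by simp }
  exact ⟨LinearMap.toContinuousLinearMap T0, fun φ b => InnerProductSpace.toDual_symm_apply⟩

/-- every `a ∈ V_q` extends to a smooth section -/
theorem exists_section (hB : Bl M) {κ : ℕ} (hk : 𝒜.HK κ) {p q : M} (h : dist p q = π) {V : Submodule ℝ (Eu n)}
    (hV : 𝒜.Lam p q = {v | v ∈ V ∧ ‖v‖ = 1}) (hVk : Module.finrank ℝ V = κ + 1) {a : Eu n} (ha : a ∈ V)
    (ha0 : a ≠ 0) :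
    ∃ s : Eu n → Eu n, ContDiffAt ℝ ∞ s 0 ∧ s 0 = a ∧ ∀ᶠ z in 𝓝 (0 : Eu n), s z ≠ 0 ∧
      𝒜.Ex p (rad π (s z)) = cutp p ((𝒜.ψ q).symm z) := by
  obtain ⟨s, hs1, hs2, hs3⟩ := exists_lift 𝒜 hB hk h hV hVk ha ha0
  refine ⟨s, ?_, hs2, ?_⟩
  swap
  · filter_upwards [hs3] with z hz
    exact ⟨hz.1, hz.2.1⟩
  have hPV : ∀ w ∈ V, V.starProjection w = w := fun w hw => Submodule.starProjection_eq_self_iff.mpr hw
  have hEa : 𝒜.Ex p (rad π a) = q := (mem_V_iff 𝒜 hV hB ha0).mp ha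
  have hmem : 𝒜.Ex p (rad π a) ∈ (𝒜.ψ q).source := by
    rw [hEa]
    exact 𝒜.mem q
  have hX : ContDiffAt ℝ ∞ (𝒜.X p q π) a := contDiffAt_X 𝒜 hB p q π ha0 hmem
  have hX0 : 𝒜.X p q π a = 0 := by
    unfold SDist.X
    rw [hEa, 𝒜.zero]
  have hker := ker_X_eq 𝒜 hB hk hV ha ha0
  have hF := (F_diag_eventually 𝒜 q).self_of_nhds
  obtain ⟨F, hFdef⟩ : ∃ F, F = 𝒜.F q q := ⟨_, rfl⟩
  obtain ⟨X, hXdef⟩ : ∃ X, X = 𝒜.X p q π := ⟨_, rfl⟩
  rw [← hFdef] at hF
  rw [← hXdef] at hX hX0 hker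
  have hF0 : fderiv ℝ F (0, 0) = 0 := by rw [hFdef]; exact DF_diag 𝒜 q
  have hPhi := contDiffAt_omPhi hF hX hX0
  obtain ⟨T, hT⟩ := exists_riesz (n := n)
  obtain ⟨Ψ, hΨ⟩ : ∃ Ψ : Eu n × Eu n → Eu n × Eu n, Ψ = fun y =>
    (T (omPhi F X y) + V.starProjection (y.1 - a), y.2) := ⟨_, rfl⟩
  have hD : ContDiffAt ℝ ∞ (fun y : Eu n × Eu n => T (omPhi F X y)) (a, 0) :=
    T.contDiff.contDiffAt.comp (a, (0 : Eu n)) hPhi
  have hP : ContDiffAt ℝ ∞ (fun y : Eu n × Eu n => V.starProjection (y.1 - a)) (a, 0) :=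
    V.starProjection.contDiff.contDiffAt.comp (a, (0 : Eu n)) (contDiffAt_fst.sub contDiffAt_const)
  have hΨc : ContDiffAt ℝ ∞ Ψ (a, 0) := by
    rw [hΨ]
    exact (hD.add hP).prodMk contDiffAt_snd
  have hinj : Function.Injective (fderiv ℝ Ψ (a, 0)) := by
    have hPhid : HasFDerivAt (omPhi F X) (fderiv ℝ (omPhi F X) (a, 0)) (a, 0) :=
      (hPhi.differentiableAt (by simp)).hasFDerivAt
    have hD' : HasFDerivAt (fun y : Eu n × Eu n => T (omPhi F X y)) (T.comp (fderiv ℝ (omPhi F X) (a, 0))) (a, 0) :=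
      T.hasFDerivAt.comp (a, (0 : Eu n)) hPhid
    have hP' : HasFDerivAt (fun y : Eu n × Eu n => V.starProjection (y.1 - a))
        (V.starProjection.comp (ContinuousLinearMap.fst ℝ (Eu n) (Eu n))) (a, 0) := by
      have h1 : HasFDerivAt (fun y : Eu n × Eu n => y.1 - a) (ContinuousLinearMap.fst ℝ (Eu n) (Eu n)) (a, 0) :=
        hasFDerivAt_fst.sub_const a
      exact V.starProjection.hasFDerivAt.comp (a, (0 : Eu n)) h1
    have hΨ' : HasFDerivAt Ψ ((T.comp (fderiv ℝ (omPhi F X) (a, 0)) +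
        V.starProjection.comp (ContinuousLinearMap.fst ℝ (Eu n) (Eu n))).prod
        (ContinuousLinearMap.snd ℝ (Eu n) (Eu n))) (a, 0) := by
      rw [hΨ]
      exact (hD'.add hP').prodMk hasFDerivAt_snd
    rw [hΨ'.fderiv]
    rw [injective_iff_map_eq_zero]
    rintro ⟨y, k⟩ hy
    simp only [ContinuousLinearMap.prod_apply, _root_.add_apply, ContinuousLinearMap.comp_apply,
      ContinuousLinearMap.coe_fst', ContinuousLinearMap.coe_snd', Prod.mk_eq_zero] at hy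
    obtain ⟨hy1, hy2⟩ := hy
    subst hy2
    have h1 : ⟪T (fderiv ℝ (omPhi F X) (a, 0) (y, 0)) + V.starProjection y, y⟫ = 0 := by
      have : T (fderiv ℝ (omPhi F X) (a, 0) (y, 0)) + V.starProjection y = 0 := hy1
      rw [this, inner_zero_left]
    rw [inner_add_left, hT, fderiv_omPhi hF hX hX0 hF0, hFdef, D2F_diag] at h1
    simp only [sub_zero] at h1
    have h2 : ⟪V.starProjection y, y⟫ = ‖V.starProjection y‖ ^ 2 := by
      rw [← real_inner_self_eq_norm_sq]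
      have h3 := Submodule.starProjection_inner_eq_zero (K := V) y (V.starProjection y)
        (Submodule.starProjection_apply_mem V y)
      rw [inner_sub_left, real_inner_comm] at h3
      linarith
    rw [real_inner_self_eq_norm_sq, h2] at h1
    have h3 : fderiv ℝ X a y = 0 := by
      have : ‖fderiv ℝ X a y‖ ^ 2 = 0 := by nlinarith [sq_nonneg ‖fderiv ℝ X a y‖, sq_nonneg ‖V.starProjection y‖]
      exact norm_eq_zero.mp (pow_eq_zero_iff (two_ne_zero)|>.mp this)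
    have h4 : V.starProjection y = 0 := by
      have : ‖V.starProjection y‖ ^ 2 = 0 := by nlinarith [sq_nonneg ‖fderiv ℝ X a y‖, sq_nonneg ‖V.starProjection y‖]
      exact norm_eq_zero.mp (pow_eq_zero_iff (two_ne_zero)|>.mp this)
    have h5 : y ∈ V := by
      rw [hker]
      exact h3
    rw [hPV y h5] at h4
    rw [h4]
    rfl
  -- the critical point equation
  have hcrit : ∀ᶠ z in 𝓝 (0 : Eu n), Ψ (s z, z) = (0, z) := by
    have t1 : Tendsto (fun z => cutp p ((𝒜.ψ q).symm z)) (𝓝 0) (𝓝 q) := tendsto_cutp hB h 𝒜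
    have t2 : Tendsto (fun z => (X (s z), z)) (𝓝 0) (𝓝 ((0 : Eu n), (0 : Eu n))) := by
      have h1 := hX.continuousAt.tendsto.comp hs1
      rw [hX0] at h1
      exact h1.prodMk_nhds tendsto_id
    have t3 : Tendsto (𝒜.ψ q).symm (𝓝 0) (𝓝 q) := by
      have := (continuousAt_symm 𝒜 q).tendsto
      rwa [symm_zero] at this
    have hqp : q ≠ p := by
      rintro rfl
      rw [dist_self] at h
      exact pi_pos.ne h
    filter_upwards [hs3, t1.eventually ((𝒜.ψ q).open_source.mem_nhds (𝒜.mem q)),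
      t2.eventually (F_diag_eventually 𝒜 q), t3.eventually_ne hqp] with z hz h1 h2 h3
    rw [hΨ]
    show (T (omPhi F X (s z, z)) + V.starProjection (s z - a), z) = (0, z)
    have h4 : V.starProjection (s z - a) = 0 := by
      rw [map_sub, hz.2.2, hPV a ha, sub_self]
    have hmz : 𝒜.Ex p (rad π (s z)) ∈ (𝒜.ψ q).source := by rw [hz.2.1]; exact h1
    have hXz : ContDiffAt ℝ ∞ X (s z) := by
      rw [hXdef]
      exact contDiffAt_X 𝒜 hB p q π hz.1 hmz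
    have hFz : DifferentiableAt ℝ F (X (s z), z) := by
      rw [hFdef]
      exact h2.differentiableAt (by simp)
    have h5 : omPhi F X (s z, z) = fderiv ℝ (fun u => F (X u, z)) (s z) := by
      have hXd := (hXz.differentiableAt (by simp)).hasFDerivAt
      have h6 : HasFDerivAt (fun u => (X u, z)) ((ContinuousLinearMap.inl ℝ (Eu n) (Eu n)).comp (fderiv ℝ X (s z))) (s z) :=
        (hasFDerivAt_prodMk_left (X (s z)) z).comp (s z) hXd
      have h7 : HasFDerivAt (fun u => F (X u, z)) _ (s z) := HasFDerivAt.comp (s z) hFz.hasFDerivAt h6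
      rw [h7.fderiv]
      rfl
    have h8 : IsLocalMin (fun u => F (X u, z)) (s z) := by
      have hval : ∀ u, 𝒜.Ex p (rad π u) ∈ (𝒜.ψ q).source →
          F (X u, z) = dist (𝒜.Ex p (rad π u)) ((𝒜.ψ q).symm z) ^ 2 / 2 := by
        intro u hu
        rw [hFdef, hXdef]
        unfold SDist.F SDist.f SDist.X
        simp only
        rw [(𝒜.ψ q).left_inv hu]
      have hev : ∀ᶠ u in 𝓝 (s z), 𝒜.Ex p (rad π u) ∈ (𝒜.ψ q).source ∧ u ≠ 0 :=
        ((continuousAt_Exrad 𝒜 hB p π hz.1).eventually ((𝒜.ψ q).open_source.mem_nhds hmz)).and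
          (isOpen_ne.mem_nhds hz.1)
      filter_upwards [hev] with u hu
      rw [hval u hu.1, hval (s z) hmz, hz.2.1, (dist_cutp hB h3 𝒜).2]
      have h9 : dist p (𝒜.Ex p (rad π u)) = π := by
        rw [dist_comm, kc_dist' 𝒜 hB p hu.2 (by rw [abs_of_pos pi_pos]), abs_of_pos pi_pos]
      have h10 := dist_triangle p ((𝒜.ψ q).symm z) (𝒜.Ex p (rad π u))
      have h11 := hB.diam p ((𝒜.ψ q).symm z)
      rw [h9, dist_comm ((𝒜.ψ q).symm z)] at h10
      have h12 : (π - dist p ((𝒜.ψ q).symm z)) ^ 2 ≤ dist (𝒜.Ex p (rad π u)) ((𝒜.ψ q).symm z) ^ 2 :=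
        pow_le_pow_left₀ (by linarith) (by linarith) 2
      linarith
    rw [h5, h8.fderiv_eq_zero, h4, map_zero, add_zero]
  have hg0 : (fun z : Eu n => (s z, z)) 0 = (a, 0) := by
    show (s 0, (0 : Eu n)) = (a, 0)
    rw [hs2]
  have hgc : ContinuousAt (fun z : Eu n => (s z, z)) 0 := by
    have h1 : ContinuousAt s 0 := by
      rw [ContinuousAt, hs2]
      exact hs1
    exact h1.prodMk continuousAt_id
  have hfin := exb_lift (Ψ := Ψ) (g := fun z : Eu n => (s z, z)) (z := 0) (by rw [hs2]; exact hΨc)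
    (by rw [hs2]; exact hinj) hgc (by
      have h1 : ContDiffAt ℝ ∞ (fun z : Eu n => ((0 : Eu n), z)) 0 := contDiffAt_const.prodMk contDiffAt_id
      refine h1.congr_of_eventuallyEq ?_
      filter_upwards [hcrit] with z hz
      exact hz)
  exact contDiffAt_fst.comp (0 : Eu n) hfin

end Pool.Agent.Lib.MP_ccbbf6_gt.L4
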