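import Pool.Agent.Lib.MP_ccbbf6_gt.L4.OMa
import Pool.Agent.Lib.MP_ccbbf6_gt.L4.OMs

/-!
# Level 4, OMp: the smooth map from `M` to the complex lines of `C^(n+1)` (helper13)

`κ = 1`.  For `x = gv p v r`, `0 ≤ r ≤ π`, the line of `x` is spanned by `(cos ψ(r), sin ψ(r) (v - i e(v)) / √2)`.
-/

set_option autoImplicit false
set_option linter.unusedSectionVars false

open Set Filter Topology Metric Real
open scoped ContDiff RealInnerProductSpace

noncomputable section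

namespace Pool.Agent.Lib.MP_ccbbf6_gt.L4

open Geo

variable {n : ℕ} {M : Type*} [MetricSpace M] (𝒜 : SDist n M)

/-- a smooth choice of the unit normal in the planes `V_v` at `p` -/
structure EData (p : M) (e : Eu n → Eu n) : Prop where
  smooth : ∀ v : Eu n, ‖v‖ = 1 → ContDiffAt ℝ ∞ e v
  norm : ∀ v : Eu n, ‖v‖ = 1 → ‖e v‖ = 1
  orth : ∀ v : Eu n, ‖v‖ = 1 → ⟪v, e v⟫ = 0
  rot : ∀ v : Eu n, ‖v‖ = 1 → ∀ t : ℝ, e (cos t • v + sin t • e v) = -sin t • v + cos t • e v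
  cut : ∀ v : Eu n, ‖v‖ = 1 → 𝒜.gv p (e v) π = 𝒜.gv p v π

open Classical in
/-- a direction at `p` of `x` -/
def SDist.dirOf (p x : M) : Eu n := if h : ∃ v : Eu n, ‖v‖ = 1 ∧ 𝒜.gv p v (dist p x) = x then h.choose else 0

/-- the line of `x` as a projection -/
def SDist.Psi (p : M) (e : Eu n → Eu n) (x : M) : Ec n →L[ℝ] Ec n :=
  prj (cz (cos (stp (dist p x))) (sin (stp (dist p x))) (SDist.dirOf 𝒜 p x) (e (SDist.dirOf 𝒜 p x)))

variable {𝒜} {p : M} {e : Eu n → Eu n}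

theorem EData.op (h : EData 𝒜 p e) {v : Eu n} (hv : ‖v‖ = 1) : OP v (e v) := ⟨hv, h.norm v hv, h.orth v hv⟩

theorem EData.mem (h : EData 𝒜 p e) {v : Eu n} (hv : ‖v‖ = 1) : e v ∈ 𝒜.Lam p (𝒜.gv p v π) :=
  ⟨h.norm v hv, h.cut v hv⟩

variable [CompactSpace M]

/-- two directions with the same end point at distance `π` differ by a rotation -/
theorem EData.rotation (h : EData 𝒜 p e) (hB : Bl M) (hk : 𝒜.HK 1) {v w : Eu n} (hv : ‖v‖ = 1) (hw : ‖w‖ = 1)
    (hvw : 𝒜.gv p w π = 𝒜.gv p v π) : ∃ t : ℝ, w = cos t • v + sin t • e v := by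
  have hd : dist p (𝒜.gv p v π) = π := gv_dist 𝒜 hB p hv pi_pos.le le_rfl
  obtain ⟨V, hV, hVk⟩ := finrank_Lam 𝒜 hB hk (q := p) (p := 𝒜.gv p v π) (by rw [dist_comm, hd])
  have hmem : ∀ {u : Eu n}, ‖u‖ = 1 → 𝒜.gv p u π = 𝒜.gv p v π → u ∈ V := by
    intro u hu huv
    have h1 : u ∈ 𝒜.Lam p (𝒜.gv p v π) := ⟨hu, huv⟩
    rw [hV] at h1
    exact h1.1
  have h1 := hmem hv rfl
  have h2 := hmem (h.norm v hv) (h.cut v hv)
  have h3 := hmem hw hvw
  have hop := h.op hv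
  -- `V` is spanned by `v` and `e v`
  have hli : LinearIndependent ℝ ![(⟨v, h1⟩ : V), ⟨e v, h2⟩] := by
    rw [LinearIndependent.pair_iff]
    intro a b hab
    have hab' : a • v + b • e v = 0 := congrArg Subtype.val hab
    constructor
    · have := congrArg (fun x => ⟪v, x⟫) hab'
      simp only [inner_add_right, real_inner_smul_right, hop.vv, hop.vw, inner_zero_right] at this
      linarith
    · have := congrArg (fun x => ⟪e v, x⟫) hab'
      simp only [inner_add_right, real_inner_smul_right, hop.ww, real_inner_comm v (e v), hop.vw,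
        inner_zero_right] at this
      linarith
  have hspan : Submodule.span ℝ (Set.range ![(⟨v, h1⟩ : V), ⟨e v, h2⟩]) = ⊤ := by
    apply Submodule.eq_top_of_finrank_eq
    rw [hVk, finrank_span_eq_card hli]
    simp
  have h4 : (⟨w, h3⟩ : V) ∈ Submodule.span ℝ (Set.range ![(⟨v, h1⟩ : V), ⟨e v, h2⟩]) := by
    rw [hspan]
    trivial
  rw [Matrix.range_cons, Matrix.range_cons, Matrix.range_empty, Set.union_empty, Set.singleton_union,
    Submodule.mem_span_pair] at h4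
  obtain ⟨a, b, hab⟩ := h4
  have hab' : a • v + b • e v = w := congrArg Subtype.val hab
  have hn : a ^ 2 + b ^ 2 = 1 := by
    have h5 : ⟪w, w⟫ = 1 := by rw [real_inner_self_eq_norm_sq, hw, one_pow]
    rw [← hab'] at h5
    simp only [inner_add_right, inner_add_left, real_inner_smul_right, real_inner_smul_left, hop.vv, hop.ww,
      real_inner_comm v (e v), hop.vw] at h5
    linarith
  obtain ⟨t, ht1, ht2⟩ : ∃ t : ℝ, cos t = a ∧ sin t = b := by
    have h6 : ‖(⟨a, b⟩ : ℂ)‖ = 1 := by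
      rw [Complex.norm_def, Complex.normSq_mk, show a * a + b * b = 1 by nlinarith, Real.sqrt_one]
    refine ⟨Complex.arg ⟨a, b⟩, ?_, ?_⟩
    · rw [Complex.cos_arg (by rw [← norm_ne_zero_iff, h6]; exact one_ne_zero), h6, div_one]
    · rw [Complex.sin_arg, h6, div_one]
  exact ⟨t, by rw [ht1, ht2, hab']⟩

theorem cz_rotate (h : EData 𝒜 p e) {v : Eu n} (hv : ‖v‖ = 1) (t : ℝ) :
    cz 0 1 (cos t • v + sin t • e v) (e (cos t • v + sin t • e v)) = Complex.exp (Complex.I * t) • cz 0 1 v (e v) := by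
  rw [h.rot v hv, cz_rot]

theorem prj_eq (h : EData 𝒜 p e) (hB : Bl M) (hk : 𝒜.HK 1) {v w : Eu n} (hv : ‖v‖ = 1) (hw : ‖w‖ = 1)
    (hvw : 𝒜.gv p w π = 𝒜.gv p v π) : prj (cz 0 1 w (e w)) = prj (cz 0 1 v (e v)) := by
  obtain ⟨t, rfl⟩ := h.rotation hB hk hv hw hvw
  rw [cz_rotate h hv, prj_smul]
  rw [mul_comm, Complex.norm_exp_ofReal_mul_I]

theorem dirOf_spec (hB : Bl M) {x : M} (hx : x ≠ p) :
    ‖SDist.dirOf 𝒜 p x‖ = 1 ∧ 𝒜.gv p (SDist.dirOf 𝒜 p x) (dist p x) = x := by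
  have h := exists_dir 𝒜 hB hx
  unfold SDist.dirOf
  rw [dif_pos h]
  exact h.choose_spec

theorem gv_inj (hB : Bl M) {v w : Eu n} (hv : ‖v‖ = 1) (hw : ‖w‖ = 1) {r : ℝ} (h0 : 0 < r) (h1 : r < π)
    (h : 𝒜.gv p v r = 𝒜.gv p w r) : v = w := by
  rw [← Ex_smul 𝒜 hB p hv, ← Ex_smul 𝒜 hB p hw] at h
  have h2 := Ex_injOn 𝒜 hB p (by rw [mem_ball_zero_iff, norm_smul, hv, mul_one, Real.norm_of_nonneg h0.le]; exact h1)
    (by rw [mem_ball_zero_iff, norm_smul, hw, mul_one, Real.norm_of_nonneg h0.le]; exact h1) h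
  exact smul_right_injective _ h0.ne' h2

/-- polar coordinates -/
theorem Psi_gv (h : EData 𝒜 p e) (hB : Bl M) (hk : 𝒜.HK 1) {v : Eu n} (hv : ‖v‖ = 1) {r : ℝ} (h0 : 0 ≤ r)
    (h1 : r ≤ π) : SDist.Psi 𝒜 p e (𝒜.gv p v r) = prj (cz (cos (stp r)) (sin (stp r)) v (e v)) := by
  have hd := gv_dist 𝒜 hB p hv h0 h1
  unfold SDist.Psi
  rw [hd]
  by_cases hr1 : r ≤ 1
  · rw [stp_le hr1, Real.sin_zero, Real.cos_zero]
    congr 1
    ext j
    refine Fin.cases ?_ (fun j => ?_) j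
    · rw [cz_zero, cz_zero]
    · rw [cz_succ, cz_succ, Complex.ofReal_zero, zero_mul, zero_mul]
  · have hr0 : 0 < r := by linarith
    have hx : 𝒜.gv p v r ≠ p := by
      intro h2
      rw [h2, dist_self] at hd
      exact hr0.ne hd
    obtain ⟨h3, h4⟩ := dirOf_spec (𝒜 := 𝒜) (p := p) hB hx
    rw [hd] at h4
    by_cases hrπ : r = π
    · subst hrπ
      rw [stp_ge (by linarith [pi_gt_three]), Real.sin_pi_div_two, Real.cos_pi_div_two]
      exact prj_eq h hB hk hv h3 h4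
    · rw [gv_inj hB h3 hv hr0 (lt_of_le_of_ne h1 hrπ) h4]

theorem Psi_line (h : EData 𝒜 p e) (hB : Bl M) (x : M) : ∃ z : Ec n, Line (SDist.Psi 𝒜 p e x) z := by
  refine ⟨_, line_prj (norm_cz (by rw [add_comm]; exact Real.sin_sq_add_cos_sq _) ?_)⟩
  by_cases hx : x = p
  · left
    rw [hx, dist_self, stp_le (by norm_num), Real.sin_zero]
  · right
    exact h.op (dirOf_spec hB hx).1

end Pool.Agent.Lib.MP_ccbbf6_gt.L4
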