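import Pool.Agent.Lib.MP_ccbbf6_gt.Geo.Ifc
import Pool.Agent.Lib.MP_ccbbf6_gt.L4.PO1a

/-!
# PO4a: one variable lemmas and metric speed (Level 4, push-off)
-/

set_option autoImplicit false
set_option linter.unusedSectionVars false

open Set Filter Topology Metric Real
open scoped ContDiff RealInnerProductSpace

noncomputable section

namespace Pool.Agent.Lib.MP_ccbbf6_gt.L4

open Geo

namespace PO

theorem lower_bound {Q : Type*} [NormedAddCommGroup Q] [NormedSpace ℝ Q] {h : ℝ × Q → ℝ} {y0 : Q}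
    (hh : ContDiffAt ℝ ∞ h (0, y0)) (h0 : ∀ᶠ y in 𝓝 y0, h (0, y) = 0) {D : ℝ}
    (hD : HasDerivAt (fun θ => h (θ, y0)) D 0) (hpos : 0 < D) :
    ∀ᶠ z : ℝ × Q in 𝓝 (0, y0), 0 ≤ z.1 → D / 2 * z.1 ≤ h z := by
  have e1 : ∀ᶠ z in 𝓝 ((0 : ℝ), y0), DifferentiableAt ℝ h z := eventually_diff hh
  have hc : ContinuousAt (fun z => fderiv ℝ h z ((1 : ℝ), (0 : Q))) (0, y0) :=
    ((hh.fderiv_right (m := ∞) (by simp)).continuousAt).clm_apply continuousAt_const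
  have hv : fderiv ℝ h (0, y0) ((1 : ℝ), (0 : Q)) = D := by
    have h1 : HasDerivAt (fun θ : ℝ => (θ, y0)) ((1 : ℝ), (0 : Q)) 0 := (hasDerivAt_id 0).prodMk (hasDerivAt_const 0 y0)
    have h2 := HasFDerivAt.comp_hasDerivAt (l := h) (f := fun θ : ℝ => (θ, y0)) 0
      (hh.differentiableAt (by simp)).hasFDerivAt h1
    exact h2.unique hD
  have e2 : ∀ᶠ z in 𝓝 ((0 : ℝ), y0), D / 2 < fderiv ℝ h z ((1 : ℝ), (0 : Q)) := by
    refine hc.eventually (lt_mem_nhds ?_)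
    show D / 2 < fderiv ℝ h (0, y0) ((1 : ℝ), (0 : Q))
    rw [hv]; linarith
  have e3 : ∀ᶠ z : ℝ × Q in 𝓝 ((0 : ℝ), y0), h (0, z.2) = 0 := (continuous_snd.tendsto ((0 : ℝ), y0)).eventually h0
  obtain ⟨ε, hε, hball⟩ := Metric.eventually_nhds_iff.mp (e1.and e2)
  filter_upwards [e3, Metric.ball_mem_nhds _ hε] with z hz hzb hz0
  obtain ⟨θ, y⟩ := z
  simp only at hz hz0
  rw [mem_ball, Prod.dist_eq, max_lt_iff] at hzb
  simp only at hzb
  have hin : ∀ t ∈ Icc (0 : ℝ) θ, DifferentiableAt ℝ h (t, y) ∧ D / 2 < fderiv ℝ h (t, y) ((1 : ℝ), (0 : Q)) := by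
    intro t ht
    refine hball ?_
    rw [Prod.dist_eq, max_lt_iff]
    refine ⟨?_, hzb.2⟩
    rw [Real.dist_eq, sub_zero, abs_of_nonneg ht.1]
    have := hzb.1
    rw [Real.dist_eq, sub_zero, abs_of_nonneg hz0] at this
    exact lt_of_le_of_lt ht.2 this
  have hder : ∀ t ∈ Icc (0 : ℝ) θ, HasDerivAt (fun t => h (t, y)) (fderiv ℝ h (t, y) ((1 : ℝ), (0 : Q))) t := by
    intro t ht
    have h1 : HasDerivAt (fun θ : ℝ => (θ, y)) ((1 : ℝ), (0 : Q)) t := (hasDerivAt_id t).prodMk (hasDerivAt_const t y)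
    exact HasFDerivAt.comp_hasDerivAt (l := h) (f := fun θ : ℝ => (θ, y)) t (hin t ht).1.hasFDerivAt h1
  have key := Convex.mul_sub_le_image_sub_of_le_deriv (convex_Icc (0 : ℝ) θ) (f := fun t => h (t, y))
    (fun t ht => (hder t ht).continuousAt.continuousWithinAt)
    (fun t ht => (hder t (interior_subset ht)).differentiableAt.differentiableWithinAt) (C := D / 2)
    (fun t ht => by rw [(hder t (interior_subset ht)).deriv]; exact (hin t (interior_subset ht)).2.le)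
    0 ⟨le_refl _, hz0⟩ θ ⟨hz0, le_refl _⟩ hz0
  rw [hz, sub_zero, sub_zero] at key
  exact key

theorem upper_bound {Q G : Type*} [NormedAddCommGroup Q] [NormedSpace ℝ Q] [NormedAddCommGroup G] [NormedSpace ℝ G]
    {h : ℝ × Q → G} {y0 : Q} (hh : ContDiffAt ℝ ∞ h (0, y0)) (h0 : ∀ᶠ y in 𝓝 y0, h (0, y) = 0) :
    ∃ K : ℝ, 0 ≤ K ∧ ∀ᶠ z : ℝ × Q in 𝓝 (0, y0), ‖h z‖ ≤ K * |z.1| := by
  have h1 : ContDiffAt ℝ 1 h (0, y0) := hh.of_le (by simp)
  obtain ⟨K, t, ht, hL⟩ := h1.exists_lipschitzOnWith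
  refine ⟨K, K.2, ?_⟩
  have e3 : ∀ᶠ z : ℝ × Q in 𝓝 ((0 : ℝ), y0), h (0, z.2) = 0 := (continuous_snd.tendsto ((0 : ℝ), y0)).eventually h0
  have e4 : ∀ᶠ z : ℝ × Q in 𝓝 ((0 : ℝ), y0), ((0 : ℝ), z.2) ∈ t := by
    have hc : ContinuousAt (fun z : ℝ × Q => ((0 : ℝ), z.2)) (0, y0) := by fun_prop
    exact hc.eventually ht
  filter_upwards [ht, e3, e4] with z z1 z2 z3
  have h2 := hL.dist_le_mul z z1 _ z3
  rw [z2, dist_zero_right, Prod.dist_eq, dist_self, Real.dist_eq, sub_zero] at h2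
  simpa using h2

/-- Lipschitz from the pointwise speed -/
theorem lip_of_speed {M : Type*} [MetricSpace M] {α : ℝ → M} {lam : ℝ}
    (h : ∀ t, ∀ μ, lam < μ → ∀ᶠ s in 𝓝 t, dist (α s) (α t) ≤ μ * |s - t|) (s t : ℝ) :
    dist (α s) (α t) ≤ lam * |s - t| := by
  have hcont : Continuous α := by
    rw [continuous_iff_continuousAt]
    intro t
    rw [Metric.continuousAt_iff']
    intro ε hε
    have h1 := h t (|lam| + 1) (by linarith [le_abs_self lam])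
    have h2 : ∀ᶠ s in 𝓝 t, (|lam| + 1) * |s - t| < ε := by
      have hc : ContinuousAt (fun s : ℝ => (|lam| + 1) * |s - t|) t := by fun_prop
      refine hc.eventually (gt_mem_nhds ?_)
      simpa using hε
    filter_upwards [h1, h2] with s h3 h4
    exact lt_of_le_of_lt h3 h4
  have key : ∀ a b : ℝ, a ≤ b → dist (α b) (α a) ≤ lam * (b - a) := by
    intro a b hab
    refine le_of_forall_gt_imp_ge_of_dense fun w hw => ?_
    rcases eq_or_lt_of_le hab with h0 | h0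
    · subst h0
      simp only [sub_self, mul_zero] at hw
      rw [dist_self]
      exact hw.le
    · -- choose `μ`
      obtain ⟨μ, hμ1, hμ2⟩ : ∃ μ, lam < μ ∧ μ * (b - a) ≤ w := by
        refine ⟨w / (b - a), ?_, ?_⟩
        · rw [lt_div_iff₀ (by linarith)]; exact hw
        · rw [div_mul_cancel₀ _ (by linarith)]
      refine le_trans ?_ hμ2
      have hcl : IsClosed {t : ℝ | dist (α t) (α a) ≤ μ * (t - a)} :=
        isClosed_le (hcont.dist continuous_const) (by fun_prop)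
      have hsub := IsClosed.Icc_subset_of_forall_exists_gt (a := a) (b := b) (s := {t : ℝ | dist (α t) (α a) ≤ μ * (t - a)})
        (hcl.inter isClosed_Icc) (by show dist (α a) (α a) ≤ μ * (a - a); simp) ?_
      · exact hsub ⟨hab, le_refl b⟩
      · rintro x ⟨hx, hxI⟩ y hy
        have hx' : dist (α x) (α a) ≤ μ * (x - a) := hx
        have hxy : x < y := hy
        obtain ⟨ε, hε, hb⟩ := Metric.eventually_nhds_iff.mp (h x μ hμ1)
        refine ⟨x + min (ε / 2) (y - x), ?_, ?_⟩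
        · have h1 : 0 < min (ε / 2) (y - x) := lt_min (by linarith) (by linarith)
          have h2 := @hb (x + min (ε / 2) (y - x)) (by
            rw [Real.dist_eq, add_sub_cancel_left, abs_of_pos h1]
            linarith [min_le_left (ε / 2) (y - x)])
          rw [add_sub_cancel_left, abs_of_pos h1] at h2
          show dist (α (x + min (ε / 2) (y - x))) (α a) ≤ μ * (x + min (ε / 2) (y - x) - a)
          calc dist (α (x + min (ε / 2) (y - x))) (α a)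
              ≤ dist (α (x + min (ε / 2) (y - x))) (α x) + dist (α x) (α a) := dist_triangle _ _ _
            _ ≤ μ * min (ε / 2) (y - x) + μ * (x - a) := add_le_add h2 hx'
            _ = _ := by ring
        · have h1 : 0 < min (ε / 2) (y - x) := lt_min (by linarith) (by linarith)
          exact ⟨by linarith, by linarith [min_le_right (ε / 2) (y - x)]⟩
  rcases le_total s t with h1 | h1
  · rw [dist_comm, abs_sub_comm, abs_of_nonneg (by linarith)]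
    exact key s t h1
  · rw [abs_of_nonneg (by linarith)]
    exact key t s h1

end PO

variable {n : ℕ} {M : Type*} [MetricSpace M] {𝒜 : SDist n M}

/-- `|(ψ ∘ α)'|` is the metric speed (upper bound) -/
theorem speed_upper {α : ℝ → M} {t0 : ℝ} {v : Eu n} (hc : ContinuousAt α t0)
    (hv : HasDerivAt (fun t => 𝒜.ψ (α t0) (α t)) v t0) {μ : ℝ} (hμ : ‖v‖ < μ) :
    ∀ᶠ t in 𝓝 t0, dist (α t) (α t0) ≤ μ * |t - t0| := by
  obtain ⟨δ, hδ0, hδ⟩ : ∃ δ : ℝ, 0 < δ ∧ (1 + δ) * (‖v‖ + δ) ≤ μ := by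
    have hcont : ContinuousAt (fun δ : ℝ => (1 + δ) * (‖v‖ + δ)) 0 := by fun_prop
    have h1 : ∀ᶠ δ in 𝓝 (0 : ℝ), (1 + δ) * (‖v‖ + δ) < μ := hcont.eventually (gt_mem_nhds (by simpa using hμ))
    have h2 : ∀ᶠ δ in 𝓝[>] (0 : ℝ), (1 + δ) * (‖v‖ + δ) < μ := nhdsWithin_le_nhds h1
    obtain ⟨δ, h3, h4⟩ := (h2.and self_mem_nhdsWithin).exists
    exact ⟨δ, h4, h3.le⟩
  set x := α t0 with hx
  have h1 : ∀ᶠ t in 𝓝 t0, α t ∈ (𝒜.ψ x).source := hc.eventually ((𝒜.ψ x).open_source.mem_nhds (𝒜.mem x))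
  have h2 : Tendsto (fun t => (𝒜.ψ x (α t), (0 : Eu n))) (𝓝 t0) (𝓝 ((0 : Eu n), (0 : Eu n))) := by
    have h3 := hv.continuousAt.tendsto
    rw [← hx, 𝒜.zero] at h3
    exact h3.prodMk_nhds tendsto_const_nhds
  have h3 := h2.eventually (𝒜.metric x δ hδ0)
  have h4 : ∀ᶠ t in 𝓝 t0, ‖𝒜.ψ x (α t) - (t - t0) • v‖ ≤ δ * ‖t - t0‖ := by
    have h5 := (hasDerivAt_iff_isLittleO.mp hv).def hδ0
    filter_upwards [h5] with t ht
    rw [← hx, 𝒜.zero, sub_zero] at ht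
    exact ht
  filter_upwards [h1, h3, h4] with t t1 t2 t3
  have e1 : (𝒜.ψ x).symm 0 = x := by
    have := (𝒜.ψ x).left_inv (𝒜.mem x)
    rwa [𝒜.zero x] at this
  simp only [(𝒜.ψ x).left_inv t1, e1, sub_zero] at t2
  have t4 : ‖𝒜.ψ x (α t)‖ ≤ (‖v‖ + δ) * |t - t0| := by
    have := norm_le_norm_add_norm_sub' (𝒜.ψ x (α t)) ((t - t0) • v)
    rw [norm_smul] at this
    rw [Real.norm_eq_abs] at this t3
    linarith
  have t5 := (abs_le.mp t2).2
  calc dist (α t) x ≤ (1 + δ) * ‖𝒜.ψ x (α t)‖ := by linarith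
    _ ≤ (1 + δ) * ((‖v‖ + δ) * |t - t0|) := mul_le_mul_of_nonneg_left t4 (by linarith)
    _ = ((1 + δ) * (‖v‖ + δ)) * |t - t0| := by ring
    _ ≤ μ * |t - t0| := mul_le_mul_of_nonneg_right hδ (abs_nonneg _)

/-- comparison of the speed in the centered chart and in a fixed chart -/
theorem speed_compare (p : M) : ∀ᶠ x in 𝓝 p, ∀ (α : ℝ → M) (v w : Eu n), ContinuousAt α 0 → α 0 = x →
    HasDerivAt (fun t => 𝒜.ψ x (α t)) v 0 → HasDerivAt (fun t => 𝒜.ψ p (α t)) w 0 → ‖v‖ ≤ 2 * ‖w‖ := by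
  obtain ⟨r, hr, hball⟩ := Metric.eventually_nhds_iff.mp (𝒜.metric p (1 / 3) (by norm_num))
  have h1 : ∀ᶠ x in 𝓝 p, x ∈ (𝒜.ψ p).source := (𝒜.ψ p).open_source.mem_nhds (𝒜.mem p)
  have h2 : ∀ᶠ x in 𝓝 p, dist (𝒜.ψ p x) 0 < r := by
    have hc : ContinuousAt (fun x => dist (𝒜.ψ p x) 0) p := ((𝒜.ψ p).continuousAt (𝒜.mem p)).dist continuousAt_const
    refine hc.eventually (gt_mem_nhds ?_)
    show dist (𝒜.ψ p p) 0 < r
    rw [𝒜.zero, dist_self]; exact hr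
  filter_upwards [h1, h2] with x hx1 hx2 α v w hα hα0 hv hw
  have e1 : (𝒜.ψ x).symm 0 = x := by
    have := (𝒜.ψ x).left_inv (𝒜.mem x)
    rwa [𝒜.zero x] at this
  have a1 : ∀ᶠ t in 𝓝 (0 : ℝ), α t ∈ (𝒜.ψ x).source :=
    hα.eventually ((𝒜.ψ x).open_source.mem_nhds (by rw [hα0]; exact 𝒜.mem x))
  have a2 : ∀ᶠ t in 𝓝 (0 : ℝ), α t ∈ (𝒜.ψ p).source :=
    hα.eventually ((𝒜.ψ p).open_source.mem_nhds (by rw [hα0]; exact hx1))
  have a3 : ∀ᶠ t in 𝓝 (0 : ℝ), |dist (α t) x - ‖𝒜.ψ x (α t)‖| ≤ 1 / 3 * ‖𝒜.ψ x (α t)‖ := by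
    have h3 : Tendsto (fun t => (𝒜.ψ x (α t), (0 : Eu n))) (𝓝 0) (𝓝 ((0 : Eu n), (0 : Eu n))) := by
      have h4 := hv.continuousAt.tendsto
      rw [hα0, 𝒜.zero] at h4
      exact h4.prodMk_nhds tendsto_const_nhds
    filter_upwards [a1, h3.eventually (𝒜.metric x (1 / 3) (by norm_num))] with t t1 t2
    simp only [(𝒜.ψ x).left_inv t1, e1, sub_zero] at t2
    exact t2
  have a4 : ∀ᶠ t in 𝓝 (0 : ℝ), |dist (α t) x - ‖𝒜.ψ p (α t) - 𝒜.ψ p x‖| ≤ 1 / 3 * ‖𝒜.ψ p (α t) - 𝒜.ψ p x‖ := by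
    have h3 : ContinuousAt (fun t => dist (𝒜.ψ p (α t)) 0) 0 := hw.continuousAt.dist continuousAt_const
    have h4 : ∀ᶠ t in 𝓝 (0 : ℝ), dist (𝒜.ψ p (α t)) 0 < r := h3.eventually (gt_mem_nhds (by simp only [hα0]; exact hx2))
    filter_upwards [a2, h4] with t t1 t2
    have h5 := @hball (𝒜.ψ p (α t), 𝒜.ψ p x) (by rw [Prod.dist_eq]; exact max_lt t2 hx2)
    simp only [(𝒜.ψ p).left_inv t1, (𝒜.ψ p).left_inv hx1] at h5
    exact h5
  have a5 : ∀ᶠ t in 𝓝 (0 : ℝ), ‖𝒜.ψ x (α t)‖ ≤ 2 * ‖𝒜.ψ p (α t) - 𝒜.ψ p x‖ := by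
    filter_upwards [a3, a4] with t t3 t4
    have b1 := (abs_le.mp t3).1
    have b2 := (abs_le.mp t4).2
    linarith
  have s1 := (hasDerivAt_iff_tendsto_slope.mp hv).norm
  have s2 := (hasDerivAt_iff_tendsto_slope.mp hw).norm.const_mul 2
  refine le_of_tendsto_of_tendsto s1 s2 ?_
  filter_upwards [nhdsWithin_le_nhds a5] with t ht
  rw [slope_def_module, slope_def_module, norm_smul, norm_smul, hα0, 𝒜.zero, sub_zero (𝒜.ψ x (α t))]
  calc ‖(t - 0)⁻¹‖ * ‖𝒜.ψ x (α t)‖ ≤ ‖(t - 0)⁻¹‖ * (2 * ‖𝒜.ψ p (α t) - 𝒜.ψ p x‖) :=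
        mul_le_mul_of_nonneg_left ht (norm_nonneg _)
    _ = 2 * (‖(t - 0)⁻¹‖ * ‖𝒜.ψ p (α t) - 𝒜.ψ p x‖) := by ring

end Pool.Agent.Lib.MP_ccbbf6_gt.L4
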