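import Pool.Agent.Lib.MP_ccbbf6_gt.L4.CO2

/-!
# CO3: the exact equivariant collapse
-/

set_option autoImplicit false
set_option linter.unusedSectionVars false

open Set Filter Topology Metric Real
open scoped unitInterval

noncomputable section

namespace Pool.Agent.Lib.MP_ccbbf6_gt.L4.CO

variable {M : Type*} [MetricSpace M] {N : Type*} [TopologicalSpace N]
variable {G : M → M → ℝ → M} {φ : ℝ → N → N}

/-- the operation as a homotopy -/
theorem op_homotopic (hG : Seg G) (hφ : CircAct φ) {lam : ℝ} (h0 : 0 ≤ lam) (h1 : lam < 1) (C : C(N, M))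
    (hL : ∀ v, Lip lam (fun t => C (φ t v))) {z : N → ℂ} (hz : Continuous z) {s : N → ℝ} (hs : Continuous s)
    (hs0 : ∀ v, 0 ≤ s v) (hs1 : ∀ v, s v ≤ 1) (hsz : ∀ v, z v = 0 → s v = 0) :
    ∃ C' : C(N, M), C.Homotopic C' ∧ ∀ v, C' v = DD G (fun t => C (φ t v)) (z v).arg (s v) 0 := by
  have hc1 := continuous_op hG hφ.cont h0 h1 C.continuous hL hz hs hs0 hs1 hsz
  refine ⟨⟨_, hc1⟩, ⟨?_⟩, fun v => rfl⟩
  -- the homotopy
  have hφ' : Continuous (fun p : ℝ × (I × N) => (((p.2.1, φ p.1 p.2.2)) : I × N)) :=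
    (continuous_fst.comp continuous_snd).prodMk
      (hφ.cont.comp (continuous_fst.prodMk (continuous_snd.comp continuous_snd)))
  have hc2 := continuous_op (N := I × N) (φ := fun t p => (p.1, φ t p.2)) hG hφ' h0 h1
    (C := fun p => C p.2) (C.continuous.comp continuous_snd) (fun v => hL v.2) (z := fun p => z p.2)
    (hz.comp continuous_snd) (s := fun p => (p.1 : ℝ) * s p.2)
    ((continuous_subtype_val.comp continuous_fst).mul (hs.comp continuous_snd))
    (fun p => mul_nonneg p.1.2.1 (hs0 _)) (fun p => mul_le_one₀ p.1.2.2 (hs0 _) (hs1 _))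
    (fun p hp => by rw [hsz _ hp, mul_zero])
  exact
    { toFun := fun p => DD G (fun t => C (φ t p.2)) (z p.2).arg ((p.1 : ℝ) * s p.2) 0
      continuous_toFun := hc2
      map_zero_left := fun v => by
        show DD G (fun t => C (φ t v)) (z v).arg (((0 : I) : ℝ) * s v) 0 = C v
        rw [Set.Icc.coe_zero, zero_mul, DD_zero, hφ.zero]
      map_one_left := fun v => by
        show DD G (fun t => C (φ t v)) (z v).arg (((1 : I) : ℝ) * s v) 0 = _
        rw [Set.Icc.coe_one, one_mul]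
        rfl }

/-- equivariant functions -/
def Eqv (φ : ℝ → N → N) (z : N → ℂ) : Prop := ∀ (t : ℝ) (v : N), z (φ t v) = Complex.exp (t * Complex.I) * z v

theorem Eqv.norm {z : N → ℂ} (h : Eqv φ z) (t : ℝ) (v : N) : ‖z (φ t v)‖ = ‖z v‖ := by
  rw [h t v, norm_mul, Complex.norm_exp_ofReal_mul_I, one_mul]

/-- the value of a loop is constant along the orbit of `v` -/
def Cst (φ : ℝ → N → N) (C : N → M) (v : N) : Prop := ∀ t, C (φ t v) = C v

theorem step (hG : Seg G) (hφ : CircAct φ) {lam : ℝ} (h0 : 0 ≤ lam) (h1 : lam < 1) (C : C(N, M))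
    (hL : ∀ v, Lip lam (fun t => C (φ t v))) {z : N → ℂ} (hz : Continuous z) (hze : Eqv φ z) {δ : ℝ} (hδ : 0 < δ) :
    ∃ C' : C(N, M), C.Homotopic C' ∧ (∀ v, Lip lam (fun t => C' (φ t v))) ∧ (∀ v, Cst φ C v → Cst φ C' v) ∧
      ∀ v, δ ≤ ‖z v‖ → Cst φ C' v := by
  -- the strength
  obtain ⟨s, hsd⟩ : ∃ s : N → ℝ, s = fun v => min 1 (‖z v‖ / δ) := ⟨_, rfl⟩
  have hsc : Continuous s := by rw [hsd]; exact continuous_const.min (hz.norm.div_const δ)
  have hs0 : ∀ v, 0 ≤ s v := fun v => by rw [hsd]; exact le_min zero_le_one (by positivity)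
  have hs1 : ∀ v, s v ≤ 1 := fun v => by rw [hsd]; exact min_le_left _ _
  have hsz : ∀ v, z v = 0 → s v = 0 := fun v hv => by
    rw [hsd]
    simp [hv]
  have hsi : ∀ t v, s (φ t v) = s v := fun t v => by
    rw [hsd]
    simp only [hze.norm t v]
  obtain ⟨C1, hC1, e1⟩ := op_homotopic hG hφ h0 h1 C hL hz hsc hs0 hs1 hsz
  have l1 : ∀ v t, C1 (φ t v) = DD G (fun r => C (φ r v)) (z v).arg (s v) t := fun v t => by
    rw [e1, op_loop hφ C hze hsi hsz]
  have l1' : ∀ v, (fun t => C1 (φ t v)) = DD G (fun r => C (φ r v)) (z v).arg (s v) := fun v => funext (l1 v)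
  have hL1 : ∀ v, Lip lam (fun t => C1 (φ t v)) := fun v => by
    rw [l1']
    exact DD_lip hG h0 h1 (hL v) _ (hs0 v) (hs1 v)
  -- second operation
  have hze2 : Eqv φ (fun v => Complex.I * z v) := fun t v => by
    show Complex.I * z (φ t v) = _ * (Complex.I * z v)
    rw [hze t v]
    ring
  have hsz2 : ∀ v, Complex.I * z v = 0 → s v = 0 := fun v hv =>
    hsz v ((mul_eq_zero.mp hv).resolve_left Complex.I_ne_zero)
  obtain ⟨C2, hC2, e2⟩ := op_homotopic hG hφ h0 h1 C1 hL1 (z := fun v => Complex.I * z v)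
    (continuous_const.mul hz) hsc hs0 hs1 hsz2
  have l2 : ∀ v t, C2 (φ t v) = DD G (fun r => C1 (φ r v)) (Complex.I * z v).arg (s v) t := fun v t => by
    rw [e2, op_loop hφ C1 (z := fun v => Complex.I * z v) hze2 hsi hsz2]
  have l2' : ∀ v, (fun t => C2 (φ t v)) = DD G (fun r => C1 (φ r v)) (Complex.I * z v).arg (s v) := fun v =>
    funext (l2 v)
  have hper : ∀ v t, C (φ (t + 2 * π) v) = C (φ t v) := fun v t => by rw [hφ.add, hφ.per]
  refine ⟨C2, hC1.trans hC2, fun v => ?_, fun v hv t => ?_, fun v hv t => ?_⟩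
  · rw [l2']
    exact DD_lip hG h0 h1 (hL1 v) _ (hs0 v) (hs1 v)
  · have k1 : ∀ t, C1 (φ t v) = C v := fun t => by
      rw [l1]
      exact DD_const hG (fun r => hv r) _ t
    have k2 : ∀ t, C2 (φ t v) = C v := fun t => by
      rw [l2]
      exact DD_const hG k1 _ t
    rw [k2 t, ← k2 0, hφ.zero]
  · have hz0 : z v ≠ 0 := fun h => by
      rw [h, norm_zero] at hv
      linarith
    have hsv : s v = 1 := by
      rw [hsd]
      exact min_eq_left (by rw [le_div_iff₀ hδ, one_mul]; exact hv)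
    obtain ⟨k, hk⟩ := arg_mul_int Complex.I_ne_zero hz0
    have k2 : ∀ t, C2 (φ t v) = G (C (φ (-(z v).arg) v)) (C (φ (-(z v).arg + π) v)) (1 / 2) := fun t => by
      have h5 : (Complex.I * z v).arg = (z v).arg + π / 2 + k * (2 * π) := by
        rw [hk, Complex.arg_I]
        ring
      rw [l2, l1', hsv, h5, DD_int2]
      exact DD_collapse hG h1 (hL v) (hper v) (z v).arg t
    rw [k2 t, ← k2 0, hφ.zero]

theorem steps (hG : Seg G) (hφ : CircAct φ) {lam : ℝ} (h0 : 0 ≤ lam) (h1 : lam < 1) {δ : ℝ} (hδ : 0 < δ) :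
    ∀ (zs : List (N → ℂ)) (_ : ∀ z ∈ zs, Continuous z ∧ Eqv φ z) (C : C(N, M))
    (_ : ∀ v, Lip lam (fun t => C (φ t v))),
    ∃ C' : C(N, M), C.Homotopic C' ∧ (∀ v, Lip lam (fun t => C' (φ t v))) ∧ (∀ v, Cst φ C v → Cst φ C' v) ∧
      ∀ v, (∃ z ∈ zs, δ ≤ ‖z v‖) → Cst φ C' v := by
  intro zs
  induction zs with
  | nil =>
    intro _ C hL
    refine ⟨C, ContinuousMap.Homotopic.refl C, hL, fun v hv => hv, fun v hv => ?_⟩
    obtain ⟨z, hz, _⟩ := hv
    simp at hz
  | cons z zs ih =>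
    intro hzs C hL
    obtain ⟨hz1, hz2⟩ := hzs z (by simp)
    obtain ⟨C1, a1, a2, a3, a4⟩ := step hG hφ h0 h1 C hL hz1 hz2 hδ
    obtain ⟨C2, b1, b2, b3, b4⟩ := ih (fun z' hz' => hzs z' (by simp [hz'])) C1 a2
    refine ⟨C2, a1.trans b1, b2, fun v hv => b3 v (a3 v hv), fun v hv => ?_⟩
    obtain ⟨z', hz', hd⟩ := hv
    rcases List.mem_cons.mp hz' with h | h
    · rw [h] at hd
      exact b3 v (a4 v hd)
    · exact b4 v ⟨z', h, hd⟩

/-- first Fourier coefficient along the orbits -/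
def four (φ : ℝ → N → N) (h : N → ℝ) (v : N) : ℂ :=
  ∫ t in (0 : ℝ)..(2 * π), (h (φ t v) : ℂ) * Complex.exp (-(t * Complex.I))

theorem four_cont (hφ : CircAct φ) {h : N → ℝ} (hh : Continuous h) : Continuous (four φ h) := by
  unfold four
  refine intervalIntegral.continuous_parametric_intervalIntegral_of_continuous' ?_ 0 (2 * π)
  have h1 : Continuous (fun p : N × ℝ => h (φ p.2 p.1)) :=
    hh.comp (hφ.cont.comp (continuous_snd.prodMk continuous_fst))
  exact (Complex.continuous_ofReal.comp h1).mul (Complex.continuous_exp.comp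
    ((Complex.continuous_ofReal.comp continuous_snd).mul continuous_const).neg)

theorem four_eqv (hφ : CircAct φ) (h : N → ℝ) : Eqv φ (four φ h) := by
  intro r v
  have hper : Function.Periodic (fun t : ℝ => (h (φ t v) : ℂ) * Complex.exp (-(t * Complex.I))) (2 * π) := by
    intro t
    have h1 : Complex.exp (-(((t + 2 * π : ℝ) : ℂ) * Complex.I)) = Complex.exp (-(t * Complex.I)) := by
      have h2 : -(((t + 2 * π : ℝ) : ℂ) * Complex.I) = -(t * Complex.I) - 2 * π * Complex.I := by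
        push_cast
        ring
      rw [h2, Complex.exp_sub, Complex.exp_two_pi_mul_I, div_one]
    simp only [h1, hφ.add, hφ.per]
  have h2 : four φ h (φ r v) = ∫ t in (0 : ℝ)..(2 * π),
      Complex.exp (r * Complex.I) * ((fun t : ℝ => (h (φ t v) : ℂ) * Complex.exp (-(t * Complex.I))) (t + r)) := by
    unfold four
    refine intervalIntegral.integral_congr fun t _ => ?_
    simp only [← hφ.add]
    have h3 : Complex.exp (-(t * Complex.I))
        = Complex.exp (r * Complex.I) * Complex.exp (-(((t + r : ℝ) : ℂ) * Complex.I)) := by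
      rw [← Complex.exp_add]
      congr 1
      push_cast
      ring
    rw [h3]
    ring
  rw [h2, intervalIntegral.integral_const_mul]
  congr 1
  have h4 := hper.intervalIntegral_add_eq r 0
  have h5 := intervalIntegral.integral_comp_add_right
    (fun t : ℝ => (h (φ t v) : ℂ) * Complex.exp (-(t * Complex.I))) r (a := 0) (b := 2 * π)
  unfold four
  rw [h5]
  rw [zero_add] at h4
  rw [zero_add, add_comm (2 * π) r, h4]

theorem exists_four [CompactSpace N] [T2Space N] (hφ : CircAct φ) (v : N) :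
    ∃ h : C(N, ℝ), four φ h v ≠ 0 := by
  have hp := Real.pi_pos
  have hcv : Continuous (fun t : ℝ => φ t v) := hφ.cont.comp (continuous_id.prodMk continuous_const)
  have hF : IsClosed ((fun t : ℝ => φ t v) '' Icc (π / 2) (3 * π / 2)) :=
    (isCompact_Icc.image hcv).isClosed
  have hdis : Disjoint ((fun t : ℝ => φ t v) '' Icc (π / 2) (3 * π / 2)) {v} := by
    rw [Set.disjoint_singleton_right]
    rintro ⟨t, ht, h⟩
    exact hφ.free t v (by linarith [ht.1]) (by linarith [ht.2]) h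
  obtain ⟨f, hf0, hf1, hf⟩ := exists_continuous_zero_one_of_isClosed hF isClosed_singleton hdis
  refine ⟨f, fun hz => ?_⟩
  have hre : (four φ f v).re = ∫ t in (0 : ℝ)..(2 * π), f (φ t v) * Real.cos t := by
    unfold four
    have h1 : (∫ t in (0 : ℝ)..(2 * π), (f (φ t v) : ℂ) * Complex.exp (-(t * Complex.I))).re
        = Complex.reCLM (∫ t in (0 : ℝ)..(2 * π), (f (φ t v) : ℂ) * Complex.exp (-(t * Complex.I))) := rfl
    rw [h1, ← ContinuousLinearMap.intervalIntegral_comp_comm]
    · refine intervalIntegral.integral_congr fun t _ => ?_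
      simp only [Complex.reCLM_apply]
      have h2 : -((t : ℂ) * Complex.I) = ((-t : ℝ) : ℂ) * Complex.I := by push_cast; ring
      rw [h2, Complex.exp_mul_I, ← Complex.ofReal_cos, ← Complex.ofReal_sin]
      simp only [Complex.mul_re, Complex.add_re, Complex.ofReal_re, Complex.ofReal_im, Complex.I_re, Complex.I_im,
        Complex.mul_im, Complex.add_im]
      rw [Real.cos_neg]
      ring
    · refine Continuous.intervalIntegrable ?_ _ _
      exact (Complex.continuous_ofReal.comp (f.continuous.comp hcv)).mul (Complex.continuous_exp.comp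
        ((Complex.continuous_ofReal.comp continuous_id).mul continuous_const).neg)
  have hpos : 0 < ∫ t in (0 : ℝ)..(2 * π), f (φ t v) * Real.cos t := by
    refine intervalIntegral.integral_pos (by positivity)
      ((f.continuous.comp hcv).mul Real.continuous_cos).continuousOn ?_ ⟨0, ⟨le_rfl, by positivity⟩, ?_⟩
    · intro t ht
      by_cases h1 : t ∈ Icc (π / 2) (3 * π / 2)
      · have h2 : f (φ t v) = 0 := hf0 ⟨t, h1, rfl⟩
        rw [h2, zero_mul]
      · have h2 : 0 ≤ Real.cos t := by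
          rw [mem_Icc, not_and_or, not_le, not_le] at h1
          rcases h1 with h1 | h1
          · exact Real.cos_nonneg_of_mem_Icc ⟨by linarith [ht.1], h1.le⟩
          · rw [← Real.cos_sub_two_pi]
            exact Real.cos_nonneg_of_mem_Icc ⟨by linarith, by linarith [ht.2]⟩
        exact mul_nonneg (hf _).1 h2
    · have h2 : f (φ 0 v) = 1 := by
        rw [hφ.zero]
        exact hf1 rfl
      rw [h2, Real.cos_zero, mul_one]
      exact one_pos
  rw [← hre, hz] at hpos
  simp at hpos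

/-- THE EXACT EQUIVARIANT COLLAPSE: a map with `lam`-Lipschitz loops, `lam < 1`, is homotopic to a flow invariant map -/
theorem collapse [CompactSpace N] [T2Space N] (hG : Seg G) (hφ : CircAct φ) {lam : ℝ} (h0 : 0 ≤ lam) (h1 : lam < 1)
    (C : C(N, M)) (hL : ∀ v, Lip lam (fun t => C (φ t v))) :
    ∃ Z : C(N, M), C.Homotopic Z ∧ ∀ t v, Z (φ t v) = Z v := by
  classical
  -- a finite family of equivariant functions without common zero
  choose h hh using fun v : N => exists_four hφ v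
  obtain ⟨T, hT⟩ := isCompact_univ.elim_finite_subcover (fun w : N => {v : N | four φ (h w) v ≠ 0})
    (fun w => isOpen_ne_fun (four_cont hφ (h w).continuous) continuous_const)
    (fun v _ => mem_iUnion.mpr ⟨v, hh v⟩)
  obtain ⟨F, hF⟩ : ∃ F : N → ℝ, F = fun v => ∑ w ∈ T, ‖four φ (h w) v‖ := ⟨_, rfl⟩
  have hFc : Continuous F := by
    rw [hF]
    exact continuous_finsetSum _ fun w _ => (four_cont hφ (h w).continuous).norm
  have hFpos : ∀ v, 0 < F v := fun v => by
    obtain ⟨w, hw⟩ := mem_iUnion.mp (hT (mem_univ v))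
    obtain ⟨hw1, hw2⟩ := mem_iUnion.mp hw
    rw [hF]
    exact Finset.sum_pos' (fun w _ => norm_nonneg _) ⟨w, hw1, norm_pos_iff.mpr hw2⟩
  rcases isEmpty_or_nonempty N with hN | hN
  · exact ⟨C, ContinuousMap.Homotopic.refl C, fun t v => (hN.false v).elim⟩
  obtain ⟨v₀, -, hv₀⟩ := isCompact_univ.exists_isMinOn (univ_nonempty (α := N)) hFc.continuousOn
  have hmin : ∀ v, F v₀ ≤ F v := fun v => hv₀ (mem_univ v)
  obtain ⟨δ, hδ⟩ : ∃ δ, δ = F v₀ / (T.card + 1) := ⟨_, rfl⟩
  have hδ0 : 0 < δ := by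
    rw [hδ]
    have := hFpos v₀
    positivity
  obtain ⟨Z, hZ1, -, -, hZ4⟩ := steps hG hφ h0 h1 hδ0 (T.toList.map fun w => four φ (h w))
    (by
      intro z hz
      obtain ⟨w, -, rfl⟩ := List.mem_map.mp hz
      exact ⟨four_cont hφ (h w).continuous, four_eqv hφ _⟩) C hL
  refine ⟨Z, hZ1, fun t v => hZ4 v ?_ t⟩
  by_contra hcon
  push Not at hcon
  have h2 : ∀ w ∈ T, ‖four φ (h w) v‖ < δ := fun w hw =>
    hcon _ (List.mem_map.mpr ⟨w, Finset.mem_toList.mpr hw, rfl⟩)
  have h3 : F v ≤ T.card * δ := by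
    rw [hF]
    calc _ ≤ ∑ _w ∈ T, δ := Finset.sum_le_sum fun w hw => (h2 w hw).le
      _ = T.card * δ := by rw [Finset.sum_const, nsmul_eq_mul]
  have h4 : F v₀ ≤ T.card * δ := (hmin v).trans h3
  have h5 : F v₀ = (T.card + 1) * δ := by rw [hδ]; field_simp
  nlinarith

end Pool.Agent.Lib.MP_ccbbf6_gt.L4.CO
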