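import Pool.Agent.Lib.MP_ccbbf6_gt.Geo.CZa
import Pool.Agent.Lib.MP_ccbbf6_gt.L4.CO3
import Pool.Agent.Lib.MP_ccbbf6_gt.L4.Def

/-!
# CO0: segments and the circle action of the geodesic flow (Level 4)
-/

set_option autoImplicit false
set_option linter.unusedSectionVars false

open Set Filter Topology Metric Real
open scoped ContDiff RealInnerProductSpace

noncomputable section

namespace Pool.Agent.Lib.MP_ccbbf6_gt.L4

open Geo

section top

variable {M : Type*} [MetricSpace M]

theorem continuous_ev : Continuous (fun z : ℝ × Gs M => z.2.1 z.1) := by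
  rw [continuous_iff_continuousAt]
  rintro ⟨r, c⟩
  rw [Metric.continuousAt_iff']
  intro ε he
  have h1 : ContinuousAt (fun z : ℝ × Gs M => z.2.1 r) (r, c) := by
    have : Continuous (fun z : ℝ × Gs M => z.2.1 r) :=
      (continuous_apply r).comp (continuous_subtype_val.comp continuous_snd)
    exact this.continuousAt
  have h2 : ContinuousAt (fun z : ℝ × Gs M => |z.1 - r|) (r, c) := by fun_prop
  have h3 := (Metric.continuousAt_iff'.mp h1) (ε / 2) (by linarith)
  have h4 : ∀ᶠ z : ℝ × Gs M in 𝓝 (r, c), |z.1 - r| < ε / 2 := by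
    have : |(r, c).1 - r| < ε / 2 := by simp; linarith
    exact h2.eventually (gt_mem_nhds this)
  filter_upwards [h3, h4] with z hz hz'
  calc dist (z.2.1 z.1) (c.1 r) ≤ dist (z.2.1 z.1) (z.2.1 r) + dist (z.2.1 r) (c.1 r) := dist_triangle _ _ _
    _ ≤ |z.1 - r| + dist (z.2.1 r) (c.1 r) := by linarith [z.2.2.dist_le z.1 r]
    _ < ε := by linarith

theorem continuous_shift : Continuous (fun z : ℝ × Gs M => shift z.1 z.2) := by
  refine Continuous.subtype_mk (continuous_pi fun t => ?_) _
  exact continuous_ev.comp (f := fun z : ℝ × Gs M => (t + z.1, z.2)) (by fun_prop)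

theorem continuous_rev : Continuous (fun c : Gs M => rev c) := by
  refine Continuous.subtype_mk (continuous_pi fun t => ?_) _
  exact (continuous_apply (-t)).comp continuous_subtype_val

instance compactSpace_Gs [CompactSpace M] : CompactSpace (Gs M) :=
  isCompact_iff_compactSpace.mp isClosed_isGeo.isCompact

theorem shift_zero (c : Gs M) : shift 0 c = c := by
  apply Subtype.ext
  funext t
  simp [shift]

theorem shift_add (s t : ℝ) (c : Gs M) : shift (s + t) c = shift s (shift t c) := by
  apply Subtype.ext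
  funext r
  change c.1 (r + (s + t)) = c.1 (r + s + t)
  rw [add_assoc]

end top

variable {n : ℕ} {M : Type*} [MetricSpace M] [CompactSpace M] (𝒜 : SDist n M)

include 𝒜 in
theorem shift_per (hB : Bl M) (c : Gs M) : shift (2 * π) c = c := by
  apply Subtype.ext
  funext t
  exact c.2.closed 𝒜 hB t

include 𝒜 in
/-- the geodesic flow is a free circle action -/
theorem circAct_shift (hB : Bl M) : CO.CircAct (shift : ℝ → Gs M → Gs M) where
  cont := continuous_shift
  zero := shift_zero
  add := shift_add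
  per := shift_per 𝒜 hB
  free := by
    intro t c h0 h1 h
    have h2 : c.1 t = c.1 0 := by
      have h3 : (shift t c).1 0 = c.1 0 := by rw [h]
      simpa [shift] using h3
    rcases le_or_gt t π with h4 | h4
    · have h5 := c.2 t 0 (by rw [sub_zero, abs_of_pos h0]; exact h4)
      rw [h2, dist_self, sub_zero, abs_of_pos h0] at h5
      linarith
    · have h5 := c.2 (t - 2 * π) 0 (by rw [sub_zero, abs_of_neg (by linarith)]; linarith)
      have h6 := c.2.closed 𝒜 hB (t - 2 * π)
      rw [sub_add_cancel] at h6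
      rw [← h6, h2, dist_self, sub_zero, abs_of_neg (by linarith)] at h5
      linarith

open Classical in
/-- the segment from `x` to `y` -/
def seg {M : Type*} [MetricSpace M] (x y : M) (t : ℝ) : M := if x = y then x else gd x y (t * dist x y)

theorem seg_self {M : Type*} [MetricSpace M] (x : M) (t : ℝ) : seg x x t = x := by simp [seg]

theorem seg_ne {M : Type*} [MetricSpace M] {x y : M} (h : x ≠ y) (t : ℝ) : seg x y t = gd x y (t * dist x y) := by
  simp [seg, h]

include 𝒜 in
theorem dist_seg (hB : Bl M) (x y : M) (s t : ℝ) : dist (seg x y s) (seg x y t) ≤ |s - t| * dist x y := by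
  by_cases h : x = y
  · subst h
    simp [seg_self]
  · rw [seg_ne h, seg_ne h]
    refine ((gd_spec 𝒜 hB h).1.dist_le _ _).trans ?_
    rw [← sub_mul, abs_mul, abs_of_nonneg dist_nonneg]

include 𝒜 in
theorem seg_zero (hB : Bl M) (x y : M) : seg x y 0 = x := by
  by_cases h : x = y
  · subst h
    simp [seg_self]
  · rw [seg_ne h, zero_mul, (gd_spec 𝒜 hB h).2.1]

include 𝒜 in
theorem seg_one (hB : Bl M) (x y : M) : seg x y 1 = y := by
  by_cases h : x = y
  · subst h
    simp [seg_self]
  · rw [seg_ne h, one_mul, (gd_spec 𝒜 hB h).2.2]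

include 𝒜 in
theorem seg_symm (hB : Bl M) {x y : M} (h : dist x y < π) (t : ℝ) : seg y x t = seg x y (1 - t) := by
  by_cases h0 : x = y
  · subst h0
    simp [seg_self]
  · have hd : 0 < dist x y := dist_pos.mpr h0
    obtain ⟨h1, h2, h3⟩ := gd_spec 𝒜 hB h0
    rw [seg_ne h0, seg_ne (Ne.symm h0)]
    set c := gd x y
    have hg : IsGeo (fun r => c (-r + dist x y)) := by
      have h4 := (h1.shift (dist x y)).rev
      exact h4
    have h5 := gd_eq 𝒜 hg (s := 0) (t := dist x y) hd h
    simp only [neg_zero, zero_add, neg_add_cancel, h2, h3] at h5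
    rw [h5, dist_comm y x]
    exact congrArg c (by ring)

include 𝒜 in
/-- the segments -/
theorem seg_Seg (hB : Bl M) : CO.Seg (seg : M → M → ℝ → M) where
  zero := fun x y _ => seg_zero 𝒜 hB x y
  one := fun x y _ => seg_one 𝒜 hB x y
  lip := fun x y _ s _ t _ => dist_seg 𝒜 hB x y s t
  symm := fun x y h t _ => seg_symm 𝒜 hB h t
  cont := by
    rintro ⟨⟨x, y⟩, t⟩ ⟨hz, -⟩
    simp only at hz
    refine ContinuousAt.continuousWithinAt ?_
    by_cases h : x = y
    · subst h
      rw [Metric.continuousAt_iff']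
      intro ε he
      simp only [seg_self]
      have hc : Continuous (fun z : (M × M) × ℝ => |z.2| * dist z.1.1 z.1.2 + dist z.1.1 x) := by fun_prop
      have h1 : (fun z : (M × M) × ℝ => |z.2| * dist z.1.1 z.1.2 + dist z.1.1 x) ((x, x), t) < ε := by simpa using he
      filter_upwards [hc.continuousAt.eventually (gt_mem_nhds h1)] with z hz
      refine lt_of_le_of_lt ?_ hz
      have h2 := dist_seg 𝒜 hB z.1.1 z.1.2 z.2 0
      rw [seg_zero 𝒜 hB, sub_zero] at h2
      linarith [dist_triangle (seg z.1.1 z.1.2 z.2) z.1.1 x]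
    · have hd : 0 < dist x y := dist_pos.mpr h
      have hdc : Continuous (fun z : (M × M) × ℝ => dist z.1.1 z.1.2) := by fun_prop
      have ho : IsOpen {z : (M × M) × ℝ | 0 < dist z.1.1 z.1.2 ∧ dist z.1.1 z.1.2 < π} :=
        (isOpen_lt continuous_const hdc).inter (isOpen_lt hdc continuous_const)
      have h1 : ContinuousAt (fun z : (M × M) × ℝ => gd z.1.1 z.1.2 z.2) ((x, y), t * dist x y) :=
        (continuousOn_gd 𝒜 hB).continuousAt (ho.mem_nhds ⟨hd, hz⟩)
      have h2 : ContinuousAt (fun z : (M × M) × ℝ => (((z.1.1, z.1.2), z.2 * dist z.1.1 z.1.2) : (M × M) × ℝ)) ((x, y), t) := by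
        fun_prop
      have h3 : ContinuousAt (fun z : (M × M) × ℝ => gd z.1.1 z.1.2 (z.2 * dist z.1.1 z.1.2)) ((x, y), t) :=
        ContinuousAt.comp (g := fun z : (M × M) × ℝ => gd z.1.1 z.1.2 z.2) (f := fun z : (M × M) × ℝ =>
          (((z.1.1, z.1.2), z.2 * dist z.1.1 z.1.2) : (M × M) × ℝ)) h1 h2
      refine h3.congr ?_
      have h4 : ∀ᶠ z : (M × M) × ℝ in 𝓝 ((x, y), t), 0 < dist z.1.1 z.1.2 := by
        have hc : Continuous (fun z : (M × M) × ℝ => dist z.1.1 z.1.2) := by fun_prop
        exact hc.continuousAt.eventually (lt_mem_nhds hd)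
      filter_upwards [h4] with z hz'
      rw [seg_ne (dist_pos.mp hz')]

include 𝒜 in
/-- **The exact collapse**: if `C` is homotopic to the foot map and the loops of `C` along the geodesic flow are
`lam`-Lipschitz, `lam < 1`, then the foot map is homotopic to a map which is constant along the geodesics. -/
theorem collapse_foot (hB : Bl M) {lam : ℝ} (h0 : 0 ≤ lam) (h1 : lam < 1) (C : C(Gs M, M))
    (hL : ∀ c, CO.Lip lam (fun t => C (shift t c))) :
    ∃ Z : C(Gs M, M), C.Homotopic Z ∧ ∀ t c, Z (shift t c) = Z c :=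
  CO.collapse (seg_Seg 𝒜 hB) (circAct_shift 𝒜 hB) h0 h1 C hL

end Pool.Agent.Lib.MP_ccbbf6_gt.L4
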