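import Pool.Agent.Lib.MP_ccbbf6_gt.L4.Def

/-!
# PO0: definitions for the push-off (Level 4)
-/

set_option autoImplicit false
set_option linter.unusedSectionVars false

open Set Filter Topology Metric Real
open scoped ContDiff RealInnerProductSpace

noncomputable section

namespace Pool.Agent.Lib.MP_ccbbf6_gt.L4

open Geo

variable {n : ℕ} {M : Type*} [MetricSpace M] (𝒜 : SDist n M)

/-- the direction orthogonal to `c` at `c 0` -/
def ee (ρ : ℝ → Gs M → Gs M) (c : Gs M) : Eu n := 𝒜.vel (ρ (π / 2) c).1 0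

/-- the derivative at time `0` of the rotation about `c b` -/
def JJ (ρ : ℝ → Gs M → Gs M) (c : Gs M) (b : ℝ) : Eu n :=
  deriv (fun τ => 𝒜.ψ (c.1 0) ((ρ τ (shift b c)).1 (-b))) 0

end Pool.Agent.Lib.MP_ccbbf6_gt.L4
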