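import Pool.Agent.Lib.MP_ccbbf6_gt.Geo.KAb
import Pool.Agent.Lib.MP_ccbbf6_gt.Geo.KAc
import Pool.Agent.Lib.MP_ccbbf6_gt.L4.CO0
import Pool.Agent.Lib.MP_ccbbf6_gt.L4.PO0
import Pool.Agent.Lib.MP_ccbbf6_gt.L4.Str

/-!
# PS: the sign lemma (Level 4, push-off) (helper95)
-/

set_option autoImplicit false
set_option linter.unusedSectionVars false

open Set Filter Topology Metric Real Asymptotics
open scoped ContDiff RealInnerProductSpace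

noncomputable section

namespace Pool.Agent.Lib.MP_ccbbf6_gt.L4

open Geo

section Cal

variable {V : Type*} [NormedAddCommGroup V] [NormedSpace ℝ V]

/-- second derivative test along a curve -/
theorem ps_min {G : V → ℝ} (h : ContDiffAt ℝ 2 G 0) (h1 : fderiv ℝ G 0 = 0) {y : ℝ → V} {J : V}
    (hy : HasDerivAt y J 0) (hy0 : y 0 = 0) (hG : ∀ᶠ τ in 𝓝 (0 : ℝ), G 0 ≤ G (y τ)) :
    0 ≤ fderiv ℝ (fderiv ℝ G) 0 J J := by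
  have h' : ContDiffAt ℝ 2 (fun x => G x - G 0) 0 := h.sub contDiffAt_const
  have hf : fderiv ℝ (fun x => G x - G 0) = fderiv ℝ G := by
    funext x
    rw [fderiv_sub_const]
  have hT := sm0_taylor h' (sub_self _) (by rw [hf]; exact h1)
  rw [hf] at hT
  set D := fderiv ℝ (fderiv ℝ G) 0 with hD
  have hyt : Tendsto y (𝓝[≠] 0) (𝓝 0) := by
    have := hy.continuousAt.tendsto
    rw [hy0] at this
    exact this.mono_left nhdsWithin_le_nhds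
  have hs : Tendsto (fun τ : ℝ => τ⁻¹ • y τ) (𝓝[≠] 0) (𝓝 J) := by
    have := hasDerivAt_iff_tendsto_slope.mp hy
    refine this.congr fun τ => ?_
    rw [slope_def_module, hy0, sub_zero, sub_zero]
  -- the quotient of the remainder
  have h2 : Tendsto (fun τ : ℝ => (τ ^ 2)⁻¹ * (G (y τ) - G 0 - D (y τ) (y τ) / 2)) (𝓝[≠] 0) (𝓝 0) := by
    have h3 := hT.comp_tendsto hyt
    have h4 : (fun τ : ℝ => (τ ^ 2)⁻¹ * (G (y τ) - G 0 - D (y τ) (y τ) / 2)) =o[𝓝[≠] 0]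
        fun τ : ℝ => (τ ^ 2)⁻¹ * ‖y τ‖ ^ 2 := (isBigO_refl _ _).mul_isLittleO h3
    have h5 : (fun τ : ℝ => (τ ^ 2)⁻¹ * ‖y τ‖ ^ 2) =O[𝓝[≠] 0] fun _ => (1 : ℝ) := by
      have h6 : Tendsto (fun τ : ℝ => ‖τ⁻¹ • y τ‖ ^ 2) (𝓝[≠] 0) (𝓝 (‖J‖ ^ 2)) := hs.norm.pow 2
      have h7 : (fun τ : ℝ => (τ ^ 2)⁻¹ * ‖y τ‖ ^ 2) = fun τ : ℝ => ‖τ⁻¹ • y τ‖ ^ 2 := by
        funext τ
        rw [norm_smul, mul_pow, norm_inv, Real.norm_eq_abs, inv_pow, sq_abs]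
      rw [h7]
      exact h6.isBigO_one ℝ
    exact (h4.trans_isBigO h5).tendsto_zero_of_tendsto tendsto_const_nhds
  have h8 : Tendsto (fun τ : ℝ => D (τ⁻¹ • y τ) (τ⁻¹ • y τ) / 2) (𝓝[≠] 0) (𝓝 (D J J / 2)) := by
    have hc : Continuous (fun w : V => D w w / 2) := by fun_prop
    exact (hc.tendsto J).comp hs
  have h9 := h2.add h8
  rw [zero_add] at h9
  have h10 : ∀ᶠ τ in 𝓝[≠] (0 : ℝ), 0 ≤ (τ ^ 2)⁻¹ * (G (y τ) - G 0 - D (y τ) (y τ) / 2) +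
      D (τ⁻¹ • y τ) (τ⁻¹ • y τ) / 2 := by
    filter_upwards [nhdsWithin_le_nhds hG] with τ hτ
    simp only [map_smul, FunLike.coe_smul, Pi.smul_apply, smul_eq_mul]
    have e : (τ ^ 2)⁻¹ * (G (y τ) - G 0 - D (y τ) (y τ) / 2) + τ⁻¹ * (τ⁻¹ * D (y τ) (y τ)) / 2 =
        (τ ^ 2)⁻¹ * (G (y τ) - G 0) := by ring
    rw [e]
    exact mul_nonneg (by positivity) (sub_nonneg.2 hτ)
  have h11 := ge_of_tendsto h9 h10
  linarith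

end Cal

variable {n : ℕ} {M : Type*} [MetricSpace M] [CompactSpace M] (𝒜 : SDist n M)

variable {ρ : ℝ → Gs M → Gs M}

/-! ## smoothness -/

theorem ps_foot0 (hR : Rot 𝒜 ρ) (c : Gs M) (b : ℝ) : (ρ 0 (shift b c)).1 (-b) = c.1 0 := by
  rw [hR.zero]
  change c.1 (-b + b) = c.1 0
  rw [neg_add_cancel]

theorem ps_sm3 (hB : Bl M) (hR : Rot 𝒜 ρ) (c : Gs M) :
    Sm 𝒜 (fun z : ℝ × ℝ × ℝ => (ρ z.2.2 (shift z.1 c)).1 (-z.2.1)) := by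
  have h0 : SmG 𝒜 (fun _ : ℝ => c) := ⟨sm_const _, sm_const _⟩
  have h1 : SmG 𝒜 (fun b : ℝ => shift b c) := h0.shift hB (r := fun b => b) contDiff_id
  have h2 := hR.smooth ℝ _ h1
  have h3 : SmG 𝒜 (fun z : ℝ × ℝ × ℝ => ρ z.2.2 (shift z.1 c)) :=
    h2.comp (f := fun z : ℝ × ℝ × ℝ => (z.2.2, z.1)) (by fun_prop)
  exact h3.ev' hB (t := fun z => -z.2.1) (by fun_prop)

theorem ps_sm4 (hB : Bl M) (hR : Rot 𝒜 ρ) (c : Gs M) :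
    Sm 𝒜 (fun z : (ℝ × ℝ) × ℝ => (ρ z.2 (shift z.1.1 (ρ z.1.2 c))).1 (-z.1.1)) := by
  have h0 : SmG 𝒜 (fun _ : ℝ => c) := ⟨sm_const _, sm_const _⟩
  have h1 : SmG 𝒜 (fun z : ℝ × ℝ => ρ z.1 c) := hR.smooth ℝ _ h0
  have h2 : SmG 𝒜 (fun z : ℝ × ℝ => ρ z.2 c) := h1.comp (f := fun z : ℝ × ℝ => (z.2, z.1)) (by fun_prop)
  have h3 : SmG 𝒜 (fun z : ℝ × ℝ => shift z.1 (ρ z.2 c)) := h2.shift hB (r := fun z => z.1) (by fun_prop)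
  have h4 := hR.smooth (ℝ × ℝ) _ h3
  have h5 : SmG 𝒜 (fun z : (ℝ × ℝ) × ℝ => ρ z.2 (shift z.1.1 (ρ z.1.2 c))) :=
    h4.comp (f := fun z : (ℝ × ℝ) × ℝ => (z.2, z.1)) (by fun_prop)
  exact h5.ev' hB (t := fun z => -z.1.1) (by fun_prop)

/-- the two parameter family in the chart at `c 0` is smooth at `τ = 0` (all `b`, also `b = 0` and `b = π`) -/
theorem ps_smooth (hB : Bl M) (hR : Rot 𝒜 ρ) (c : Gs M) (b : ℝ) :
    ContDiffAt ℝ ∞ (fun z : ℝ × ℝ => 𝒜.ψ (c.1 0) ((ρ z.2 (shift z.1 c)).1 (-z.1))) (b, 0) := by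
  have h := (ps_sm3 𝒜 hB hR c).comp (f := fun z : ℝ × ℝ => (z.1, z.1, z.2)) (by fun_prop) (b, 0)
  have h1 := h.2
  simp only [ps_foot0 𝒜 hR c b] at h1
  exact h1

theorem ps_JJ (hB : Bl M) (hR : Rot 𝒜 ρ) (c : Gs M) (b : ℝ) :
    HasDerivAt (fun τ => 𝒜.ψ (c.1 0) ((ρ τ (shift b c)).1 (-b)))
      (fderiv ℝ (fun z : ℝ × ℝ => 𝒜.ψ (c.1 0) ((ρ z.2 (shift z.1 c)).1 (-z.1))) (b, 0) (0, 1)) 0 := by
  have h := (ps_smooth 𝒜 hB hR c b).differentiableAt (by simp)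
  have h1 : HasDerivAt (fun τ : ℝ => (b, τ)) ((0 : ℝ), (1 : ℝ)) 0 := (hasDerivAt_const 0 b).prodMk (hasDerivAt_id 0)
  exact HasFDerivAt.comp_hasDerivAt (f := fun τ : ℝ => (b, τ)) 0 h.hasFDerivAt h1

theorem ps_JJ_eq (hB : Bl M) (hR : Rot 𝒜 ρ) (c : Gs M) (b : ℝ) : JJ 𝒜 ρ c b =
    fderiv ℝ (fun z : ℝ × ℝ => 𝒜.ψ (c.1 0) ((ρ z.2 (shift z.1 c)).1 (-z.1))) (b, 0) (0, 1) :=
  (ps_JJ 𝒜 hB hR c b).deriv

theorem ps_hasDerivAt (hB : Bl M) (hR : Rot 𝒜 ρ) (c : Gs M) (b : ℝ) :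
    HasDerivAt (fun τ => 𝒜.ψ (c.1 0) ((ρ τ (shift b c)).1 (-b))) (JJ 𝒜 ρ c b) 0 := by
  rw [ps_JJ_eq 𝒜 hB hR]
  exact ps_JJ 𝒜 hB hR c b

theorem ps_tendsto (hB : Bl M) (hR : Rot 𝒜 ρ) (c : Gs M) (b : ℝ) :
    Tendsto (fun τ => 𝒜.ψ (c.1 0) ((ρ τ (shift b c)).1 (-b))) (𝓝 0) (𝓝 0) := by
  have h := (ps_hasDerivAt 𝒜 hB hR c b).continuousAt.tendsto
  rwa [ps_foot0 𝒜 hR, 𝒜.zero] at h

theorem ps_mem (hB : Bl M) (hR : Rot 𝒜 ρ) (c : Gs M) (b : ℝ) :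
    ∀ᶠ τ in 𝓝 (0 : ℝ), (ρ τ (shift b c)).1 (-b) ∈ (𝒜.ψ (c.1 0)).source := by
  have h := ((ps_sm3 𝒜 hB hR c).comp (f := fun τ : ℝ => (b, b, τ)) (by fun_prop)).continuous
  have h1 := h.continuousAt (x := (0 : ℝ))
  have h2 : (𝒜.ψ (c.1 0)).source ∈ 𝓝 ((ρ 0 (shift b c)).1 (-b)) := by
    rw [ps_foot0 𝒜 hR]
    exact (𝒜.ψ _).open_source.mem_nhds (𝒜.mem _)
  exact h1.eventually h2

/-! ## distances -/

theorem ps_dist1 (hR : Rot 𝒜 ρ) (c : Gs M) {b : ℝ} (h0 : 0 < b) (h1 : b < π) (τ : ℝ) :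
    dist ((ρ τ (shift b c)).1 (-b)) (c.1 b) = b := by
  have h2 := (ρ τ (shift b c)).2 (-b) 0 (by rw [sub_zero, abs_neg, abs_of_pos h0]; exact h1.le)
  rw [sub_zero, abs_neg, abs_of_pos h0, hR.foot] at h2
  have h3 : (shift b c).1 0 = c.1 b := by
    change c.1 (0 + b) = c.1 b
    rw [zero_add]
  rwa [h3] at h2

theorem ps_dist2 (hB : Bl M) (hR : Rot 𝒜 ρ) (c : Gs M) {b : ℝ} (h0 : 0 < b) (h1 : b < π) (τ : ℝ) :
    dist ((ρ τ (shift b c)).1 (-b)) (c.1 (b - π)) = π - b := by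
  have h4 := (ρ τ (shift b c)).2.closed 𝒜 hB (-π)
  have h5 : -π + 2 * π = π := by ring
  rw [h5, hR.top] at h4
  have h2 := (ρ τ (shift b c)).2 (-b) (-π) (by rw [abs_of_pos (by linarith)]; linarith)
  rw [abs_of_pos (by linarith), ← h4] at h2
  have h3 : (shift b c).1 π = c.1 (b - π) := by
    change c.1 (π + b) = c.1 (b - π)
    have h6 : π + b = b - π + 2 * π := by ring
    rw [h6, c.2.closed 𝒜 hB (b - π)]
  rw [h3] at h2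
  rw [h2]
  ring

/-- a point of `c` at distance less than `π` from `c 0` -/
theorem ps_pos (c : Gs M) {t : ℝ} (h0 : t ≠ 0) (h1 : |t| < π) : 0 < dist (c.1 0) (c.1 t) ∧ dist (c.1 0) (c.1 t) < π := by
  rw [c.2 0 t (by rw [zero_sub, abs_neg]; exact h1.le), zero_sub, abs_neg]
  exact ⟨abs_pos.2 h0, h1⟩

theorem ps_D1 (p q : M) : 𝒜.D1 p q = fderiv ℝ (𝒜.sgd p q) 0 := by
  unfold SDist.D1
  rw [sg_eq]

/-- Gauss lemma -/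
theorem ps_gauss (hB : Bl M) (hR : Rot 𝒜 ρ) (c : Gs M) {b : ℝ} (h0 : 0 < b) (h1 : b < π) :
    ⟪𝒜.vel c.1 0, JJ 𝒜 ρ c b⟫ = 0 := by
  obtain ⟨hp, hp'⟩ := ps_pos c h0.ne' (by rw [abs_of_pos h0]; exact h1)
  have h2 := ((sg_smooth 𝒜 hB hp hp').differentiableAt (by norm_num)).hasFDerivAt
  have h3 := HasFDerivAt.comp_hasDerivAt_of_eq (0 : ℝ) h2 (ps_hasDerivAt 𝒜 hB hR c b)
    (by rw [ps_foot0 𝒜 hR, 𝒜.zero])
  have h4 : HasDerivAt (𝒜.sgd (c.1 0) (c.1 b) ∘ fun τ => 𝒜.ψ (c.1 0) ((ρ τ (shift b c)).1 (-b))) 0 0 := by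
    refine (hasDerivAt_const (0 : ℝ) b).congr_of_eventuallyEq ?_
    filter_upwards [ps_mem 𝒜 hB hR c b] with τ hτ
    change dist ((𝒜.ψ (c.1 0)).symm (𝒜.ψ (c.1 0) ((ρ τ (shift b c)).1 (-b)))) (c.1 b) = b
    rw [(𝒜.ψ (c.1 0)).left_inv hτ]
    exact ps_dist1 𝒜 hR c h0 h1 τ
  have h5 := h3.unique h4
  have h6 := D1_forward 𝒜 hB c.2 (s := 0) h0 h1 (JJ 𝒜 ρ c b)
  rw [zero_add, ps_D1, h5] at h6
  linarith

/-- the field `J` is in the kernel -/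
theorem ps_F1 (hB : Bl M) (hR : Rot 𝒜 ρ) (c : Gs M) {b : ℝ} (h0 : 0 < b) (h1 : b < π) (e : Eu n) :
    𝒜.H (c.1 0) (c.1 b) (JJ 𝒜 ρ c b) e + 𝒜.H (c.1 0) (c.1 (b - π)) (JJ 𝒜 ρ c b) e = 0 := by
  obtain ⟨hp, hp'⟩ := ps_pos c h0.ne' (by rw [abs_of_pos h0]; exact h1)
  obtain ⟨hq, hq'⟩ := ps_pos c (t := b - π) (by linarith) (by rw [abs_of_neg (by linarith)]; linarith)
  have s1 := sg_smooth 𝒜 hB hp hp'
  have s2 := sg_smooth 𝒜 hB hq hq'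
  have hJ := ps_hasDerivAt 𝒜 hB hR c b
  have hz : 𝒜.ψ (c.1 0) ((ρ 0 (shift b c)).1 (-b)) = 0 := by rw [ps_foot0 𝒜 hR, 𝒜.zero]
  have k1 := HasFDerivAt.comp_hasDerivAt_of_eq (0 : ℝ) (sm0_d2 s1).hasFDerivAt hJ hz.symm
  have k2 := HasFDerivAt.comp_hasDerivAt_of_eq (0 : ℝ) (sm0_d2 s2).hasFDerivAt hJ hz.symm
  have k3 := k1.add k2
  have ht := ps_tendsto 𝒜 hB hR c b
  have k4 : HasDerivAt (fun τ => fderiv ℝ (𝒜.sgd (c.1 0) (c.1 b)) (𝒜.ψ (c.1 0) ((ρ τ (shift b c)).1 (-b))) +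
      fderiv ℝ (𝒜.sgd (c.1 0) (c.1 (b - π))) (𝒜.ψ (c.1 0) ((ρ τ (shift b c)).1 (-b)))) (0 : Eu n →L[ℝ] ℝ) 0 := by
    refine (hasDerivAt_const (0 : ℝ) (0 : Eu n →L[ℝ] ℝ)).congr_of_eventuallyEq ?_
    filter_upwards [ps_mem 𝒜 hB hR c b, ht.eventually (sm0_ev s1), ht.eventually (sm0_ev s2)] with τ hτ e1 e2
    refine sg_opp 𝒜 hτ e1 e2 ?_
    rw [dist_comm, ps_dist1 𝒜 hR c h0 h1, ps_dist2 𝒜 hB hR c h0 h1,
      c.2 b (b - π) (by rw [sub_sub_cancel, abs_of_pos Real.pi_pos]), sub_sub_cancel, abs_of_pos Real.pi_pos]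
    ring
  have k5 := congrArg (fun T : Eu n →L[ℝ] ℝ => T e) (k3.unique k4)
  rw [sg_H, sg_H]
  exact k5

theorem ps_B (hB : Bl M) (hR : Rot 𝒜 ρ) (c : Gs M) {b : ℝ} (h0 : 0 < b) (h1 : b < π) (e : Eu n) :
    𝒜.B (c.1 0) (c.1 b) (JJ 𝒜 ρ c b) e = ⟪ee 𝒜 ρ (shift b c), e⟫ := by
  obtain ⟨hp, hp'⟩ := ps_pos c h0.ne' (by rw [abs_of_pos h0]; exact h1)
  have hf := smc_two 𝒜 hB hp hp'
  have hJ := ps_hasDerivAt 𝒜 hB hR c b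
  have hz : 𝒜.ψ (c.1 0) ((ρ 0 (shift b c)).1 (-b)) = 0 := by rw [ps_foot0 𝒜 hR, 𝒜.zero]
  have hJ2 := hJ.prodMk (hasDerivAt_const (0 : ℝ) (0 : Eu n))
  have k1 := HasFDerivAt.comp_hasDerivAt_of_eq (0 : ℝ) (sm0_d2 hf).hasFDerivAt hJ2 (by rw [hz])
  have k2 := k1.clm_apply (hasDerivAt_const (0 : ℝ) ((0, e) : Eu n × Eu n))
  have ht := ps_tendsto 𝒜 hB hR c b
  have ht2 : Tendsto (fun τ => (𝒜.ψ (c.1 0) ((ρ τ (shift b c)).1 (-b)), (0 : Eu n))) (𝓝 0) (𝓝 ((0 : Eu n), (0 : Eu n))) :=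
    ht.prodMk_nhds tendsto_const_nhds
  have k3 : HasDerivAt (fun τ => fderiv ℝ (𝒜.f (c.1 0) (c.1 b)) (𝒜.ψ (c.1 0) ((ρ τ (shift b c)).1 (-b)), 0) (0, e))
      ⟪ee 𝒜 ρ (shift b c), e⟫ 0 := by
    have k4 : HasDerivAt (fun τ => cos τ * ⟪𝒜.vel (shift b c).1 0, e⟫ + sin τ * ⟪ee 𝒜 ρ (shift b c), e⟫)
        (-sin 0 * ⟪𝒜.vel (shift b c).1 0, e⟫ + cos 0 * ⟪ee 𝒜 ρ (shift b c), e⟫) 0 :=
      ((hasDerivAt_cos 0).mul_const _).add ((hasDerivAt_sin 0).mul_const _)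
    rw [sin_zero, cos_zero, neg_zero, zero_mul, zero_add, one_mul] at k4
    refine k4.congr_of_eventuallyEq ?_
    filter_upwards [ps_mem 𝒜 hB hR c b, ht2.eventually (sm0_ev hf)] with τ hτ e1
    have e2 : fderiv ℝ (𝒜.f (c.1 0) (c.1 b)) (𝒜.ψ (c.1 0) ((ρ τ (shift b c)).1 (-b)), 0) (0, e) =
        fderiv ℝ (fun v => 𝒜.f (c.1 0) (c.1 b) (𝒜.ψ (c.1 0) ((ρ τ (shift b c)).1 (-b)), v)) 0 e := by
      rw [sm0_fderiv_snd e1]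
      rfl
    rw [e2, hh_D1, (𝒜.ψ (c.1 0)).left_inv hτ]
    have e3 := D1_backward 𝒜 hB (ρ τ (shift b c)).2 (s := 0) h0 h1 e
    have e4 : (ρ τ (shift b c)).1 0 = c.1 b := by
      rw [hR.foot]
      change c.1 (0 + b) = c.1 b
      rw [zero_add]
    rw [zero_sub, e4] at e3
    rw [e3, hR.vel, inner_add_left, real_inner_smul_left, real_inner_smul_left]
    rfl
  have k5 := k2.unique k3
  rw [map_zero, add_zero] at k5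
  rw [smc_B_eq 𝒜 hB hp hp']
  exact k5

theorem ps_ee_norm (c : Gs M) : ‖ee 𝒜 ρ c‖ = 1 := (IsGeo.exists_vel 𝒜 (ρ (π / 2) c).2 0).1

theorem ps_ne (hB : Bl M) (hR : Rot 𝒜 ρ) (c : Gs M) {b : ℝ} (h0 : 0 < b) (h1 : b < π) : JJ 𝒜 ρ c b ≠ 0 := by
  intro h
  have h2 := ps_B 𝒜 hB hR c h0 h1 (ee 𝒜 ρ (shift b c))
  rw [h, map_zero, real_inner_self_eq_norm_sq, ps_ee_norm] at h2
  simp at h2

theorem ps_H_lt (hB : Bl M) {c : ℝ → M} (hc : IsGeo c) {s y r : ℝ} (h1 : s < y) (h2 : y < r) (h3 : r < s + π)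
    {a : Eu n} (ha : ⟪𝒜.vel c s, a⟫ = 0) (ha0 : a ≠ 0) : 𝒜.H (c s) (c r) a a < 𝒜.H (c s) (c y) a a := by
  have hpi := Real.pi_pos
  have hd : ∀ x ∈ Icc y r, HasDerivAt (fun x => 𝒜.H (c s) (c x) a a)
      (-∑ j : Fin n, 𝒜.B (c s) (c x) a (EuclideanSpace.single j 1) * 𝒜.B (c s) (c x) a (EuclideanSpace.single j 1)) x :=
    fun x hx => hasDerivAt_H 𝒜 hB hc (by linarith [hx.1]) (by linarith [hx.2]) a a
  have hmono : StrictAntiOn (fun x => 𝒜.H (c s) (c x) a a) (Icc y r) := by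
    refine strictAntiOn_of_deriv_neg (convex_Icc y r) (fun x hx => (hd x hx).continuousAt.continuousWithinAt) ?_
    intro x hx
    rw [interior_Icc] at hx
    rw [(hd x ⟨hx.1.le, hx.2.le⟩).deriv, neg_lt_zero]
    obtain ⟨j, hj⟩ := exists_B_ne 𝒜 hB hc (s := s) (t := x) (by linarith [hx.1] : s < x).ne
      (abs_sub_lt_pi (by linarith [hx.1]) (by linarith [hx.2])) ha ha0
    exact Finset.sum_pos' (fun i _ => mul_self_nonneg _) ⟨j, Finset.mem_univ j, mul_self_pos.2 hj⟩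
  exact hmono ⟨le_rfl, h2.le⟩ ⟨h2.le, le_rfl⟩ h2

/-! ## the differential of the exponential map at distance `π` -/

/-- the line `v + τ a` in the chart -/
theorem ps_line (hB : Bl M) {q : M} {v : Eu n} (hv : ‖v‖ = 1) (a : Eu n) :
    HasDerivAt (fun τ : ℝ => 𝒜.X q (𝒜.gv q v π) π (v + τ • a)) (fderiv ℝ (𝒜.X q (𝒜.gv q v π) π) v a) 0 := by
  have hline : HasDerivAt (fun τ : ℝ => v + τ • a) a 0 := by
    have h1 := ((hasDerivAt_id (0 : ℝ)).smul_const a).const_add v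
    rwa [one_smul] at h1
  exact HasFDerivAt.comp_hasDerivAt_of_eq (0 : ℝ) (hasFDerivAt_X 𝒜 (q := q) hv hB π) hline (by simp)

/-- the point on the line -/
theorem ps_line_pt (hB : Bl M) {q : M} {v : Eu n} (hv : ‖v‖ = 1) (a : Eu n) :
    ∀ᶠ τ in 𝓝 (0 : ℝ), dist q ((𝒜.ψ (𝒜.gv q v π)).symm (𝒜.X q (𝒜.gv q v π) π (v + τ • a))) = π := by
  have h4 : Tendsto (fun τ : ℝ => v + τ • a) (𝓝 0) (𝓝 v) := by
    have hc : Continuous (fun τ : ℝ => v + τ • a) := by fun_prop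
    have := hc.tendsto 0
    rwa [zero_smul, add_zero] at this
  filter_upwards [h4.eventually (symm_X 𝒜 (q := q) hv hB π)] with τ hτ
  rw [hτ.2, dist_comm, kc_dist' 𝒜 hB q hτ.1 (by rw [abs_of_pos Real.pi_pos]), abs_of_pos Real.pi_pos]

/-- the range of the differential is orthogonal to all geodesics from `gv q v π` to `q` -/
theorem ps_range (hB : Bl M) {q : M} {v : Eu n} (hv : ‖v‖ = 1) (a : Eu n) {h : ℝ → M} (hh : IsGeo h)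
    (h0 : h 0 = 𝒜.gv q v π) (hπ : h π = q) : ⟪𝒜.vel h 0, fderiv ℝ (𝒜.X q (𝒜.gv q v π) π) v a⟫ = 0 := by
  have hpi := Real.pi_pos
  have d1 : dist (h 0) (h (π / 2)) = π / 2 := by
    rw [hh 0 (π / 2) (by rw [zero_sub, abs_neg, abs_of_pos (by positivity)]; linarith), zero_sub, abs_neg,
      abs_of_pos (by positivity)]
  have d2 : dist (h (π / 2)) (h π) = π / 2 := by
    rw [hh (π / 2) π (by rw [abs_of_neg (by linarith)]; linarith), abs_of_neg (by linarith)]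
    ring
  rw [h0] at d1
  rw [hπ] at d2
  have s1 := sg_smooth 𝒜 hB (p := 𝒜.gv q v π) (q := h (π / 2)) (by rw [d1]; positivity) (by rw [d1]; linarith)
  have k1 := HasFDerivAt.comp_hasDerivAt_of_eq (0 : ℝ) (s1.differentiableAt (by norm_num)).hasFDerivAt
    (ps_line 𝒜 hB (q := q) hv a) (by simp only [zero_smul, add_zero]; exact (X_self 𝒜 hv hB π).symm)
  have k2 : IsLocalMin (𝒜.sgd (𝒜.gv q v π) (h (π / 2)) ∘ fun τ : ℝ => 𝒜.X q (𝒜.gv q v π) π (v + τ • a)) 0 := by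
    change ∀ᶠ τ in 𝓝 (0 : ℝ), _
    filter_upwards [ps_line_pt 𝒜 hB (q := q) hv a] with τ hτ
    simp only [Function.comp_apply, zero_smul, add_zero]
    rw [X_self 𝒜 hv hB]
    unfold SDist.sgd
    rw [symm_zero, d1]
    have := dist_triangle q (h (π / 2)) ((𝒜.ψ (𝒜.gv q v π)).symm (𝒜.X q (𝒜.gv q v π) π (v + τ • a)))
    rw [hτ, dist_comm q, d2] at this
    rw [dist_comm]
    linarith
  have k3 := k2.hasDerivAt_eq_zero k1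
  have k4 := D1_forward 𝒜 hB hh (s := 0) (t := π / 2) (by positivity) (by linarith)
    (fderiv ℝ (𝒜.X q (𝒜.gv q v π) π) v a)
  rw [zero_add, h0, ps_D1, k3] at k4
  linarith

theorem ps_ee_orth (hR : Rot 𝒜 ρ) (c : Gs M) : ⟪𝒜.vel c.1 0, ee 𝒜 ρ c⟫ = 0 := hR.orth c

/-- vectors orthogonal to `c` and `ee c` are in the range of the differential -/
theorem ps_mem_range (hB : Bl M) (hK : 𝒜.HK 1) (hR : Rot 𝒜 ρ) (c : Gs M) {q : M} {v : Eu n} (hv : ‖v‖ = 1)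
    (hp : 𝒜.gv q v π = c.1 0) (hq : c.1 π = q) {J : Eu n} (h1 : ⟪𝒜.vel c.1 0, J⟫ = 0) (h2 : ⟪ee 𝒜 ρ c, J⟫ = 0) :
    ∃ a, fderiv ℝ (𝒜.X q (𝒜.gv q v π) π) v a = J := by
  obtain ⟨D, hD⟩ : ∃ D : Eu n →ₗ[ℝ] Eu n, D = (fderiv ℝ (𝒜.X q (𝒜.gv q v π) π) v : Eu n →L[ℝ] Eu n) := ⟨_, rfl⟩
  have hDa : ∀ a, D a = fderiv ℝ (𝒜.X q (𝒜.gv q v π) π) v a := fun a => by rw [hD]; rfl
  have hker : Module.finrank ℝ (LinearMap.ker D) = 2 := by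
    rw [hD]
    exact finrank_ker_X 𝒜 hB hK (q := q) hv
  have hvel : ‖𝒜.vel c.1 0‖ = 1 := (IsGeo.exists_vel 𝒜 c.2 0).1
  have hee : ‖ee 𝒜 ρ c‖ = 1 := ps_ee_norm 𝒜 c
  have horth := ps_ee_orth 𝒜 hR c
  have hon : Orthonormal ℝ ![𝒜.vel c.1 0, ee 𝒜 ρ c] := by
    rw [orthonormal_iff_ite]
    intro i j
    fin_cases i <;> fin_cases j <;>
      simp [horth, hvel, hee, real_inner_comm (𝒜.vel c.1 0) (ee 𝒜 ρ c)]
  have hspan : Module.finrank ℝ (Submodule.span ℝ (range ![𝒜.vel c.1 0, ee 𝒜 ρ c])) = 2 := by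
    rw [finrank_span_eq_card hon.linearIndependent, Fintype.card_fin]
  have hrange : LinearMap.range D = (Submodule.span ℝ (range ![𝒜.vel c.1 0, ee 𝒜 ρ c]))ᗮ := by
    apply Submodule.eq_of_le_of_finrank_eq
    · rintro _ ⟨a, rfl⟩
      rw [Submodule.mem_orthogonal]
      intro u hu
      refine Submodule.span_induction (p := fun u _ => ⟪u, D a⟫ = 0) ?_ (inner_zero_left _) ?_ ?_ hu
      · rintro _ ⟨i, rfl⟩
        rw [hDa]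
        fin_cases i
        · exact ps_range 𝒜 hB hv a c.2 hp.symm hq
        · refine ps_range 𝒜 hB hv a (ρ (π / 2) c).2 ?_ ?_
          · rw [hR.foot]
            exact hp.symm
          · rw [hR.top]
            exact hq
      · intro x y _ _ hx hy
        rw [inner_add_left, hx, hy, add_zero]
      · intro t x _ hx
        rw [real_inner_smul_left, hx, mul_zero]
    · have e1 := LinearMap.finrank_range_add_finrank_ker D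
      have e2 := (Submodule.span ℝ (range ![𝒜.vel c.1 0, ee 𝒜 ρ c])).finrank_add_finrank_orthogonal
      omega
  have hJ : J ∈ LinearMap.range D := by
    rw [hrange, Submodule.mem_orthogonal]
    intro u hu
    refine Submodule.span_induction (p := fun u _ => ⟪u, J⟫ = 0) ?_ (inner_zero_left _) ?_ ?_ hu
    · rintro _ ⟨i, rfl⟩
      fin_cases i
      · exact h1
      · exact h2
    · intro x y _ _ hx hy
      rw [inner_add_left, hx, hy, add_zero]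
    · intro t x _ hx
      rw [real_inner_smul_left, hx, mul_zero]
  obtain ⟨a, ha⟩ := hJ
  exact ⟨a, by rw [← hDa]; exact ha⟩

theorem ps_ne_zero (hB : Bl M) (hK : 𝒜.HK 1) (hR : Rot 𝒜 ρ) (c : Gs M) {b : ℝ} (h0 : 0 < b) (h1 : b < π) :
    ⟪ee 𝒜 ρ c, JJ 𝒜 ρ c b⟫ ≠ 0 := by
  intro hcon
  have hpi := Real.pi_pos
  have hg := ps_gauss 𝒜 hB hR c h0 h1
  have hne := ps_ne 𝒜 hB hR c h0 h1
  have hF1 := ps_F1 𝒜 hB hR c h0 h1 (JJ 𝒜 ρ c b)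
  obtain ⟨b', hb1, hb2⟩ := exists_between h1
  have hF2 := ps_H_lt 𝒜 hB c.2 (s := 0) h0 hb1 (by linarith) hg hne
  -- the data at `q`
  set g : Gs M := shift (-π) (rev c) with hgdef
  have hgt : ∀ t, g.1 t = c.1 (π - t) := by
    intro t
    change c.1 (-(t + -π)) = c.1 (π - t)
    have e : -(t + -π) = π - t := by ring
    rw [e]
  have hg0 : g.1 0 = c.1 π := by rw [hgt, sub_zero]
  have hgπ : g.1 π = c.1 0 := by rw [hgt, sub_self]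
  set v := 𝒜.vel g.1 0 with hvdef
  have hv : ‖v‖ = 1 := (IsGeo.exists_vel 𝒜 g.2 0).1
  have hgv := gv_eq 𝒜 g.2 0
  rw [hg0] at hgv
  have hp : 𝒜.gv (c.1 π) v π = c.1 0 := by
    rw [hvdef, hgv]
    simp only [zero_add]
    exact hgπ
  obtain ⟨a, ha⟩ := ps_mem_range 𝒜 hB hK hR c hv hp rfl hg hcon
  have hl := ps_line 𝒜 hB (q := c.1 π) hv a
  have hpt := ps_line_pt 𝒜 hB (q := c.1 π) hv a
  have hX0 := X_self 𝒜 (q := c.1 π) hv hB π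
  rw [ha] at hl
  rw [hp] at hl hpt hX0
  -- the function
  have d1 : dist (c.1 0) (c.1 b') = b' := by
    rw [c.2 0 b' (by rw [zero_sub, abs_neg, abs_of_pos (by linarith)]; linarith), zero_sub, abs_neg,
      abs_of_pos (by linarith)]
  have d2 : dist (c.1 0) (c.1 (b - π)) = π - b := by
    rw [c.2 0 (b - π) (by rw [abs_of_pos (by linarith)]; linarith), abs_of_pos (by linarith)]
    ring
  have d3 : dist (c.1 π) (c.1 b') = π - b' := by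
    rw [c.2 π b' (by rw [abs_of_pos (by linarith)]; linarith), abs_of_pos (by linarith)]
  have d4 : dist (c.1 π) (c.1 (b - π)) = b := by
    have e : c.1 π = c.1 (-π) := by
      have := c.2.closed 𝒜 hB (-π)
      have e : -π + 2 * π = π := by ring
      rwa [e] at this
    rw [e, c.2 (-π) (b - π) (by rw [abs_of_neg (by linarith)]; linarith), abs_of_neg (by linarith)]
    ring
  have s1 := sg_smooth 𝒜 hB (p := c.1 0) (q := c.1 b') (by rw [d1]; linarith) (by rw [d1]; linarith)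
  have s2 := sg_smooth 𝒜 hB (p := c.1 0) (q := c.1 (b - π)) (by rw [d2]; linarith) (by rw [d2]; linarith)
  have hD : fderiv ℝ (fun u => 𝒜.sgd (c.1 0) (c.1 b') u + 𝒜.sgd (c.1 0) (c.1 (b - π)) u) 0 = 0 := by
    rw [fderiv_fun_add (s1.differentiableAt (by norm_num)) (s2.differentiableAt (by norm_num)), ← ps_D1, ← ps_D1]
    refine ContinuousLinearMap.ext fun w => ?_
    have e1 := D1_forward 𝒜 hB c.2 (s := 0) (t := b') (by linarith) (by linarith) w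
    have e2 := D1_backward 𝒜 hB c.2 (s := 0) (t := π - b) (by linarith) (by linarith) w
    rw [zero_add] at e1
    rw [zero_sub, neg_sub] at e2
    simp only [add_apply, zero_apply]
    rw [e1, e2]
    ring
  have hmin := ps_min (s1.add s2) hD hl (by simp only [zero_smul, add_zero]; exact hX0) (by
    filter_upwards [hpt] with τ hτ
    unfold SDist.sgd
    rw [symm_zero, d1, d2]
    have t1 := dist_triangle (c.1 π) (c.1 b') ((𝒜.ψ (c.1 0)).symm (𝒜.X (c.1 π) (c.1 0) π (v + τ • a)))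
    have t2 := dist_triangle (c.1 π) (c.1 (b - π)) ((𝒜.ψ (c.1 0)).symm (𝒜.X (c.1 π) (c.1 0) π (v + τ • a)))
    rw [hτ, d3, dist_comm (c.1 b')] at t1
    rw [hτ, d4, dist_comm (c.1 (b - π))] at t2
    linarith)
  rw [sg_add s1 s2, ← sg_H, ← sg_H] at hmin
  linarith

/-! ## the derivative at `b = 0` -/

theorem ps_JJ_zero (hB : Bl M) (hR : Rot 𝒜 ρ) (c : Gs M) : JJ 𝒜 ρ c 0 = 0 := by
  have h : (fun τ => 𝒜.ψ (c.1 0) ((ρ τ (shift 0 c)).1 (-0))) = fun _ => (0 : Eu n) := by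
    funext τ
    rw [neg_zero, hR.foot, shift_zero, 𝒜.zero]
  unfold JJ
  rw [h, deriv_const]

/-- the derivative in `b` at `b = 0` -/
theorem ps_db (hB : Bl M) (hR : Rot 𝒜 ρ) (c : Gs M) (τ : ℝ) :
    fderiv ℝ (fun z : ℝ × ℝ => 𝒜.ψ (c.1 0) ((ρ z.2 (shift z.1 c)).1 (-z.1))) (0, τ) (1, 0) =
      𝒜.vel c.1 0 - 𝒜.vel (ρ τ c).1 0 := by
  have e0 : (ρ τ (shift 0 c)).1 (-0) = c.1 0 := by rw [neg_zero, hR.foot, shift_zero]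
  have h3 := (ps_sm3 𝒜 hB hR c (0, 0, τ)).2
  simp only [e0] at h3
  have h3' := (h3.differentiableAt (by simp)).hasFDerivAt
  obtain ⟨Y, hY⟩ : ∃ Y : ℝ × ℝ × ℝ → Eu n, Y = fun z : ℝ × ℝ × ℝ => 𝒜.ψ (c.1 0) ((ρ z.2.2 (shift z.1 c)).1 (-z.2.1)) :=
    ⟨_, rfl⟩
  rw [← hY] at h3'
  have h4 : HasFDerivAt (fun z : ℝ × ℝ => ((z.1, z.1, z.2) : ℝ × ℝ × ℝ))
      ((ContinuousLinearMap.fst ℝ ℝ ℝ).prod ((ContinuousLinearMap.fst ℝ ℝ ℝ).prod (ContinuousLinearMap.snd ℝ ℝ ℝ))) (0, τ) :=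
    ContinuousLinearMap.hasFDerivAt ((ContinuousLinearMap.fst ℝ ℝ ℝ).prod
      ((ContinuousLinearMap.fst ℝ ℝ ℝ).prod (ContinuousLinearMap.snd ℝ ℝ ℝ)))
  have h5 : HasFDerivAt (fun z : ℝ × ℝ => Y (z.1, z.1, z.2)) _ (0, τ) :=
    HasFDerivAt.comp (g := Y) (f := fun z : ℝ × ℝ => ((z.1, z.1, z.2) : ℝ × ℝ × ℝ)) ((0 : ℝ), τ) h3' h4
  have h6 : (fun z : ℝ × ℝ => 𝒜.ψ (c.1 0) ((ρ z.2 (shift z.1 c)).1 (-z.1))) = fun z : ℝ × ℝ => Y (z.1, z.1, z.2) := by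
    rw [hY]
  rw [h6, h5.fderiv]
  have h7 : ((fderiv ℝ Y (0, 0, τ)).comp ((ContinuousLinearMap.fst ℝ ℝ ℝ).prod
      ((ContinuousLinearMap.fst ℝ ℝ ℝ).prod (ContinuousLinearMap.snd ℝ ℝ ℝ)))) ((1, 0) : ℝ × ℝ) =
      fderiv ℝ Y (0, 0, τ) (1, 0, 0) + fderiv ℝ Y (0, 0, τ) (0, 1, 0) := by
    rw [← map_add]
    simp
  rw [h7]
  -- first variable
  have l1 : HasDerivAt (fun b : ℝ => ((b, 0, τ) : ℝ × ℝ × ℝ)) ((1, 0, 0) : ℝ × ℝ × ℝ) 0 :=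
    (hasDerivAt_id (0 : ℝ)).prodMk ((hasDerivAt_const (0 : ℝ) (0 : ℝ)).prodMk (hasDerivAt_const (0 : ℝ) τ))
  have l2 : HasDerivAt (fun b : ℝ => ((0, b, τ) : ℝ × ℝ × ℝ)) ((0, 1, 0) : ℝ × ℝ × ℝ) 0 :=
    (hasDerivAt_const (0 : ℝ) (0 : ℝ)).prodMk ((hasDerivAt_id (0 : ℝ)).prodMk (hasDerivAt_const (0 : ℝ) τ))
  have m1 : HasDerivAt (fun b : ℝ => Y (b, 0, τ)) (fderiv ℝ Y (0, 0, τ) (1, 0, 0)) 0 :=
    HasFDerivAt.comp_hasDerivAt (f := fun b : ℝ => ((b, 0, τ) : ℝ × ℝ × ℝ)) 0 h3' l1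
  have m2 : HasDerivAt (fun b : ℝ => Y (0, b, τ)) (fderiv ℝ Y (0, 0, τ) (0, 1, 0)) 0 :=
    HasFDerivAt.comp_hasDerivAt (f := fun b : ℝ => ((0, b, τ) : ℝ × ℝ × ℝ)) 0 h3' l2
  have n1 : (fun b : ℝ => Y (b, 0, τ)) = fun b : ℝ => 𝒜.ψ (c.1 0) (c.1 b) := by
    rw [hY]
    funext b
    simp only [neg_zero]
    rw [hR.foot]
    change 𝒜.ψ (c.1 0) (c.1 (0 + b)) = _
    rw [zero_add]
  have n2 : (fun b : ℝ => Y (0, b, τ)) = fun b : ℝ => 𝒜.ψ (c.1 0) ((ρ τ c).1 (-b)) := by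
    rw [hY]
    funext b
    simp only [shift_zero]
  rw [n1] at m1
  rw [n2] at m2
  have p1 : HasDerivAt (fun b : ℝ => 𝒜.ψ (c.1 0) (c.1 b)) (𝒜.vel c.1 0) 0 := (IsGeo.exists_vel 𝒜 c.2 0).2
  have p2 : HasDerivAt (fun b : ℝ => 𝒜.ψ (c.1 0) ((ρ τ c).1 b)) (𝒜.vel (ρ τ c).1 0) (-0) := by
    have := (IsGeo.exists_vel 𝒜 (ρ τ c).2 0).2
    unfold SDist.IsVel at this
    rw [hR.foot] at this
    rwa [neg_zero]
  have p3 : HasDerivAt (fun b : ℝ => 𝒜.ψ (c.1 0) ((ρ τ c).1 (-b))) (-𝒜.vel (ρ τ c).1 0) 0 := by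
    have := HasDerivAt.scomp (0 : ℝ) p2 (hasDerivAt_neg (0 : ℝ))
    rwa [neg_one_smul] at this
  rw [m1.unique p1, m2.unique p3]
  abel

theorem ps_g_deriv (hB : Bl M) (hR : Rot 𝒜 ρ) (c : Gs M) :
    HasDerivAt (fun b => ⟪ee 𝒜 ρ c, JJ 𝒜 ρ c b⟫) (-1) 0 := by
  have hs := ps_smooth 𝒜 hB hR c 0
  obtain ⟨Y, hY⟩ : ∃ Y : ℝ × ℝ → Eu n, Y = fun z : ℝ × ℝ => 𝒜.ψ (c.1 0) ((ρ z.2 (shift z.1 c)).1 (-z.1)) := ⟨_, rfl⟩
  have h1 : ∀ b, JJ 𝒜 ρ c b = fderiv ℝ Y (b, 0) (0, 1) := by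
    intro b
    rw [hY]
    exact ps_JJ_eq 𝒜 hB hR c b
  have h2 : ∀ τ, fderiv ℝ Y (0, τ) (1, 0) = 𝒜.vel c.1 0 - 𝒜.vel (ρ τ c).1 0 := by
    intro τ
    rw [hY]
    exact ps_db 𝒜 hB hR c τ
  rw [← hY] at hs
  have hs2 : ContDiffAt ℝ 2 Y (0, 0) := hs.of_le two_le_infty
  have hd : HasFDerivAt (fderiv ℝ Y) (fderiv ℝ (fderiv ℝ Y) (0, 0)) (0, 0) :=
    ((hs2.fderiv_right (m := 1) (by norm_num)).differentiableAt (by norm_num)).hasFDerivAt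
  have l1 : HasDerivAt (fun b : ℝ => ((b, 0) : ℝ × ℝ)) ((1, 0) : ℝ × ℝ) 0 :=
    (hasDerivAt_id (0 : ℝ)).prodMk (hasDerivAt_const (0 : ℝ) (0 : ℝ))
  have l2 : HasDerivAt (fun τ : ℝ => ((0, τ) : ℝ × ℝ)) ((0, 1) : ℝ × ℝ) 0 :=
    (hasDerivAt_const (0 : ℝ) (0 : ℝ)).prodMk (hasDerivAt_id (0 : ℝ))
  have k1 : HasDerivAt (fun b : ℝ => fderiv ℝ Y (b, 0)) (fderiv ℝ (fderiv ℝ Y) (0, 0) (1, 0)) 0 :=
    HasFDerivAt.comp_hasDerivAt (f := fun b : ℝ => ((b, 0) : ℝ × ℝ)) 0 hd l1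
  have k2 : HasDerivAt (fun τ : ℝ => fderiv ℝ Y (0, τ)) (fderiv ℝ (fderiv ℝ Y) (0, 0) (0, 1)) 0 :=
    HasFDerivAt.comp_hasDerivAt (f := fun τ : ℝ => ((0, τ) : ℝ × ℝ)) 0 hd l2
  have k1' := k1.clm_apply (hasDerivAt_const (0 : ℝ) ((0, 1) : ℝ × ℝ))
  have k2' := k2.clm_apply (hasDerivAt_const (0 : ℝ) ((1, 0) : ℝ × ℝ))
  rw [map_zero, add_zero] at k1' k2'
  have k3 : HasDerivAt (fun τ : ℝ => fderiv ℝ Y (0, τ) (1, 0)) (-ee 𝒜 ρ c) 0 := by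
    have k4 : HasDerivAt (fun τ => 𝒜.vel c.1 0 - (cos τ • 𝒜.vel c.1 0 + sin τ • ee 𝒜 ρ c))
        (-((-sin 0) • 𝒜.vel c.1 0 + cos 0 • ee 𝒜 ρ c)) 0 :=
      (((hasDerivAt_cos 0).smul_const _).add ((hasDerivAt_sin 0).smul_const _)).const_sub _
    rw [sin_zero, cos_zero, neg_zero, zero_smul, zero_add, one_smul] at k4
    refine k4.congr_of_eventuallyEq (Eventually.of_forall fun τ => ?_)
    simp only
    rw [h2, hR.vel]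
    rfl
  have k5 := k2'.unique k3
  have hsym : fderiv ℝ (fderiv ℝ Y) (0, 0) (1, 0) (0, 1) = fderiv ℝ (fderiv ℝ Y) (0, 0) (0, 1) (1, 0) :=
    (hs2.isSymmSndFDerivAt (by simp)).eq (1, 0) (0, 1)
  rw [hsym, k5] at k1'
  have k6 := (hasDerivAt_const (0 : ℝ) (ee 𝒜 ρ c)).inner ℝ k1'
  simp only [inner_zero_left, add_zero, inner_neg_right, real_inner_self_eq_norm_sq, ps_ee_norm] at k6
  have k7 : (fun b => ⟪ee 𝒜 ρ c, JJ 𝒜 ρ c b⟫) = fun b => ⟪ee 𝒜 ρ c, fderiv ℝ Y (b, 0) (0, 1)⟫ := by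
    funext b
    rw [h1]
  rw [k7]
  refine k6.congr_deriv ?_
  norm_num

theorem ps_cont0 (hB : Bl M) (hR : Rot 𝒜 ρ) (c : Gs M) : Continuous (fun b => ⟪ee 𝒜 ρ c, JJ 𝒜 ρ c b⟫) := by
  rw [continuous_iff_continuousAt]
  intro b
  have h1 : ∀ b, JJ 𝒜 ρ c b = fderiv ℝ (fun z : ℝ × ℝ => 𝒜.ψ (c.1 0) ((ρ z.2 (shift z.1 c)).1 (-z.1))) (b, 0) (0, 1) :=
    ps_JJ_eq 𝒜 hB hR c
  simp only [h1]
  have h2 := (ps_smooth 𝒜 hB hR c b).fderiv_right (m := 1) (by norm_cast)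
  have h3 : ContinuousAt (fun b : ℝ => ((b, 0) : ℝ × ℝ)) b := by fun_prop
  have h4 : ContinuousAt (fun b : ℝ => fderiv ℝ (fun z : ℝ × ℝ => 𝒜.ψ (c.1 0) ((ρ z.2 (shift z.1 c)).1 (-z.1))) (b, 0)) b :=
    ContinuousAt.comp (f := fun b : ℝ => ((b, 0) : ℝ × ℝ)) h2.continuousAt h3
  exact continuousAt_const.inner (h4.clm_apply continuousAt_const)

/-- the sign lemma -/
theorem ps_sign (hB : Bl M) (hK : 𝒜.HK 1) (hR : Rot 𝒜 ρ) (c : Gs M) {b : ℝ} (h0 : 0 < b) (h1 : b < π) :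
    ⟪ee 𝒜 ρ c, JJ 𝒜 ρ c b⟫ < 0 := by
  have hc := ps_cont0 𝒜 hB hR c
  have hd := ps_g_deriv 𝒜 hB hR c
  -- a negative value near `0`
  have h2 : ∃ x, 0 < x ∧ x < π ∧ ⟪ee 𝒜 ρ c, JJ 𝒜 ρ c x⟫ < 0 := by
    have h3 := hasDerivAt_iff_tendsto_slope.mp hd
    have h4 : Tendsto (slope (fun b => ⟪ee 𝒜 ρ c, JJ 𝒜 ρ c b⟫) 0) (𝓝[>] 0) (𝓝 (-1)) :=
      h3.mono_left (nhdsWithin_mono _ fun x hx => (ne_of_gt hx : x ≠ 0))
    have h5 := h4.eventually (gt_mem_nhds (by norm_num : (-1 : ℝ) < 0))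
    have h6 : ∀ᶠ x in 𝓝[>] (0 : ℝ), x < π := nhdsWithin_le_nhds (gt_mem_nhds Real.pi_pos)
    obtain ⟨x, hx⟩ := (h5.and (h6.and self_mem_nhdsWithin)).exists
    obtain ⟨hx1, hx2, hx3⟩ := hx
    have hx3 : 0 < x := hx3
    refine ⟨x, hx3, hx2, ?_⟩
    rw [slope_def_field, ps_JJ_zero 𝒜 hB hR, inner_zero_right, sub_zero, sub_zero] at hx1
    by_contra hcon
    push Not at hcon
    exact absurd hx1 (not_lt.2 (div_nonneg hcon hx3.le))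
  obtain ⟨x, hx0, hx1, hx2⟩ := h2
  by_contra hcon
  push Not at hcon
  have hmem : (0 : ℝ) ∈ Icc ⟪ee 𝒜 ρ c, JJ 𝒜 ρ c x⟫ ⟪ee 𝒜 ρ c, JJ 𝒜 ρ c b⟫ := ⟨hx2.le, hcon⟩
  have hpre : IsPreconnected (Ioo (0 : ℝ) π) := isPreconnected_Ioo
  obtain ⟨y, hy, hy0⟩ := hpre.intermediate_value (f := fun b => ⟪ee 𝒜 ρ c, JJ 𝒜 ρ c b⟫) ⟨hx0, hx1⟩ ⟨h0, h1⟩
    hc.continuousOn hmem
  exact ps_ne_zero 𝒜 hB hK hR c hy.1 hy.2 hy0

/-- continuity along the rotation -/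
theorem ps_cont (hB : Bl M) (hR : Rot 𝒜 ρ) (c : Gs M) :
    Continuous (fun z : ℝ × ℝ => ⟪ee 𝒜 ρ (ρ z.2 c), JJ 𝒜 ρ (ρ z.2 c) z.1⟫) := by
  rw [continuous_iff_continuousAt]
  rintro ⟨b, τ⟩
  have h1 : ∀ z : ℝ × ℝ, ee 𝒜 ρ (ρ z.2 c) = cos (π / 2 + z.2) • 𝒜.vel c.1 0 + sin (π / 2 + z.2) • ee 𝒜 ρ c := by
    intro z
    unfold ee
    rw [hR.add, hR.vel]
  -- the three parameter family
  have hsm : ∀ z : ℝ × ℝ, ContDiffAt ℝ ∞ (fun w : (ℝ × ℝ) × ℝ =>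
      𝒜.ψ (c.1 0) ((ρ w.2 (shift w.1.1 (ρ w.1.2 c))).1 (-w.1.1))) (z, 0) := by
    intro z
    have h := (ps_sm4 𝒜 hB hR c (z, 0)).2
    have e : (ρ 0 (shift z.1 (ρ z.2 c))).1 (-z.1) = c.1 0 := by
      rw [ps_foot0 𝒜 hR, hR.foot]
    simp only [e] at h
    exact h
  obtain ⟨Y, hY⟩ : ∃ Y : (ℝ × ℝ) × ℝ → Eu n, Y = fun w : (ℝ × ℝ) × ℝ =>
      𝒜.ψ (c.1 0) ((ρ w.2 (shift w.1.1 (ρ w.1.2 c))).1 (-w.1.1)) := ⟨_, rfl⟩
  rw [← hY] at hsm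
  have h2 : ∀ z : ℝ × ℝ, JJ 𝒜 ρ (ρ z.2 c) z.1 = fderiv ℝ Y (z, 0) (0, 1) := by
    intro z
    have l1 : HasDerivAt (fun σ : ℝ => ((z, σ) : (ℝ × ℝ) × ℝ)) ((0, 1) : (ℝ × ℝ) × ℝ) 0 :=
      (hasDerivAt_const (0 : ℝ) z).prodMk (hasDerivAt_id (0 : ℝ))
    have l2 : HasDerivAt (fun σ : ℝ => Y (z, σ)) (fderiv ℝ Y (z, 0) (0, 1)) 0 :=
      HasFDerivAt.comp_hasDerivAt (f := fun σ : ℝ => ((z, σ) : (ℝ × ℝ) × ℝ)) 0
        ((hsm z).differentiableAt (by simp)).hasFDerivAt l1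
    unfold JJ
    rw [← l2.deriv, hR.foot, hY]
  simp only [h1, h2]
  have h3 := (hsm (b, τ)).fderiv_right (m := 1) (by norm_cast)
  have h4 : ContinuousAt (fun z : ℝ × ℝ => ((z, 0) : (ℝ × ℝ) × ℝ)) (b, τ) := by fun_prop
  have h5 : ContinuousAt (fun z : ℝ × ℝ => fderiv ℝ Y (z, 0)) (b, τ) :=
    ContinuousAt.comp (f := fun z : ℝ × ℝ => ((z, 0) : (ℝ × ℝ) × ℝ)) h3.continuousAt h4
  have h6 : ContinuousAt (fun z : ℝ × ℝ => cos (π / 2 + z.2) • 𝒜.vel c.1 0 + sin (π / 2 + z.2) • ee 𝒜 ρ c) (b, τ) := by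
    fun_prop
  exact h6.inner (h5.clm_apply continuousAt_const)

end Pool.Agent.Lib.MP_ccbbf6_gt.L4
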