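import Pool.Agent.Lib.MP_ccbbf6_gt.LitDefs

/-!
# Level 4: the volume of the model and the final arithmetic
-/

set_option autoImplicit false

open MeasureTheory Set Metric Real
open scoped ENNReal

noncomputable section

namespace Pool.Agent.Lib.MP_ccbbf6_gt.L4

theorem mv_integral (k : ℕ) : ∫ t in (0 : ℝ)..π, Real.sin t * (2 * Real.sin (t / 2)) ^ k = 2 ^ (k + 2) / (k + 2) := by
  have h1 : ∀ t : ℝ, Real.sin t * (2 * Real.sin (t / 2)) ^ k =
      (fun u : ℝ => u ^ (k + 1)) ((fun t : ℝ => 2 * Real.sin (t / 2)) t) * Real.cos (t / 2) := by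
    intro t
    have h2 : Real.sin t = 2 * Real.sin (t / 2) * Real.cos (t / 2) := by
      rw [← Real.sin_two_mul]
      ring_nf
    simp only [h2]
    ring
  have h3 : ∀ t ∈ uIcc (0 : ℝ) π, HasDerivAt (fun t : ℝ => 2 * Real.sin (t / 2)) (Real.cos (t / 2)) t := by
    intro t _
    have h4 := (((hasDerivAt_id t).div_const 2).sin).const_mul 2
    have h5 : (2 : ℝ) * (Real.cos (id t / 2) * (1 / 2)) = Real.cos (t / 2) := by
      simp only [id]
      ring
    rw [h5] at h4
    exact h4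
  have h6 : ∫ t in (0 : ℝ)..π, Real.sin t * (2 * Real.sin (t / 2)) ^ k =
      ∫ t in (0 : ℝ)..π, ((fun u : ℝ => u ^ (k + 1)) ∘ (fun t : ℝ => 2 * Real.sin (t / 2))) t * Real.cos (t / 2) :=
    intervalIntegral.integral_congr fun t _ => h1 t
  rw [h6, intervalIntegral.integral_comp_mul_deriv h3 (by fun_prop) (by fun_prop)]
  simp only [zero_div, Real.sin_zero, mul_zero, Real.sin_pi_div_two, mul_one]
  rw [integral_pow]
  push_cast
  have : (k : ℝ) + 1 + 1 = k + 2 := by ring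
  rw [this, zero_pow (by omega), sub_zero]

/-- the volume of the model with spheres of dimension two -/
theorem modelVolume_one {n : ℕ} (hn : 2 ≤ n) : Blaschke.modelVolume n 1 =
    2 ^ n * volume (ball (0 : EuclideanSpace ℝ (Fin n)) 1) := by
  obtain ⟨k, rfl⟩ : ∃ k, n = k + 2 := ⟨n - 2, by omega⟩
  unfold Blaschke.modelVolume
  have h1 : ∫ t in (0 : ℝ)..π, Real.sin t ^ 1 * (2 * Real.sin (t / 2)) ^ (k + 2 - 1 - 1) =
      (2 : ℝ) ^ (k + 2) / ((k : ℝ) + 2) := by
    rw [← mv_integral k]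
    simp only [pow_one]
    rfl
  rw [h1]
  have h2 : ((k + 2 : ℕ) : ℝ≥0∞) * volume (ball (0 : EuclideanSpace ℝ (Fin (k + 2))) 1) *
      ENNReal.ofReal ((2 : ℝ) ^ (k + 2) / ((k : ℝ) + 2)) =
      (ENNReal.ofReal ((2 : ℝ) ^ (k + 2) / ((k : ℝ) + 2)) * ((k + 2 : ℕ) : ℝ≥0∞)) *
        volume (ball (0 : EuclideanSpace ℝ (Fin (k + 2))) 1) := by ring
  rw [h2]
  congr 1
  have h3 : ((k + 2 : ℕ) : ℝ≥0∞) = ENNReal.ofReal ((k : ℝ) + 2) := by
    rw [← ENNReal.ofReal_natCast]
    push_cast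
    rfl
  rw [h3, ← ENNReal.ofReal_mul (by positivity), div_mul_cancel₀ _ (by positivity), ENNReal.ofReal_pow (by norm_num)]
  norm_num

/-- the volume of the unit ball in even dimension -/
theorem ball_even (m : ℕ) (hm : 0 < m) : volume (ball (0 : EuclideanSpace ℝ (Fin (2 * m))) 1) =
    ENNReal.ofReal (π ^ m / m.factorial) := by
  have : Nonempty (Fin (2 * m)) := ⟨⟨0, by omega⟩⟩
  rw [EuclideanSpace.volume_ball]
  simp only [ENNReal.ofReal_one, one_pow, one_mul, Fintype.card_fin]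
  congr 1
  have h1 : ((2 * m : ℕ) : ℝ) / 2 + 1 = m + 1 := by
    push_cast
    ring
  rw [h1, Real.Gamma_nat_eq_factorial, pow_mul, Real.sq_sqrt Real.pi_pos.le]

/-- the final arithmetic -/
theorem final_real {m : ℕ} (hm : 0 < m) {V : ℝ}
    (h : ((2 * m - 1).factorial : ℝ) * (2 * m) * (volume (ball (0 : EuclideanSpace ℝ (Fin (2 * m))) 1)).toReal * V /
      (2 * π) ^ (2 * m) ≤ (2 * m).choose m) :
    V ≤ 2 ^ (2 * m) * (volume (ball (0 : EuclideanSpace ℝ (Fin (2 * m))) 1)).toReal := by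
  rw [ball_even m hm, ENNReal.toReal_ofReal (by positivity)] at h ⊢
  have h1 : ((2 * m - 1).factorial : ℝ) * (2 * m) = (2 * m).factorial := by
    obtain ⟨k, hk⟩ : ∃ k, 2 * m = k + 1 := ⟨2 * m - 1, by omega⟩
    have h2 : (2 * (m : ℝ)) = ((k + 1 : ℕ) : ℝ) := by
      rw [← hk]
      push_cast
      rfl
    rw [h2, hk, Nat.factorial_succ, Nat.add_sub_cancel]
    push_cast
    ring
  have h3 : ((2 * m).choose m : ℝ) * (m.factorial * m.factorial) = (2 * m).factorial := by
    have h4 := Nat.choose_mul_factorial_mul_factorial (show m ≤ 2 * m by omega)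
    rw [show 2 * m - m = m by omega] at h4
    rw [← h4]
    push_cast
    ring
  rw [h1] at h
  have h5 : (0 : ℝ) < (2 * m).factorial := by positivity
  have h6 : (0 : ℝ) < m.factorial := by positivity
  have h7 : (0 : ℝ) < π := Real.pi_pos
  rw [div_le_iff₀ (by positivity)] at h
  have h8 : ((2 * m).choose m : ℝ) = (2 * m).factorial / (m.factorial * m.factorial) := by
    rw [← h3]
    field_simp
  rw [h8] at h
  have h9 : (2 * π) ^ (2 * m) = 2 ^ (2 * m) * π ^ m * π ^ m := by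
    rw [mul_pow, mul_assoc, ← pow_add]
    congr 2
    omega
  rw [h9] at h
  have h10 : ((2 * m).factorial : ℝ) * (π ^ m / m.factorial) * V ≤
      ((2 * m).factorial : ℝ) * (π ^ m / m.factorial) * (2 ^ (2 * m) * (π ^ m / m.factorial)) := by
    refine h.trans (le_of_eq ?_)
    field_simp
  exact le_of_mul_le_mul_left h10 (by positivity)

/-- the final comparison -/
theorem final_ennreal {m : ℕ} (hm : 0 < m) {V : ℝ≥0∞} (hV : V ≠ ⊤)
    (h : ((2 * m - 1).factorial : ℝ) * (2 * m) * (volume (ball (0 : EuclideanSpace ℝ (Fin (2 * m))) 1)).toReal *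
      V.toReal / (2 * π) ^ (2 * m) ≤ (2 * m).choose m) : V ≤ Blaschke.modelVolume (2 * m) 1 := by
  have h1 := final_real hm h
  rw [modelVolume_one (by omega)]
  have h2 : volume (ball (0 : EuclideanSpace ℝ (Fin (2 * m))) 1) ≠ ⊤ := measure_ball_lt_top.ne
  rw [← ENNReal.ofReal_toReal hV, ← ENNReal.ofReal_toReal h2]
  have h3 : (2 : ℝ≥0∞) ^ (2 * m) = ENNReal.ofReal (2 ^ (2 * m)) := by
    rw [ENNReal.ofReal_pow (by norm_num)]
    norm_num
  rw [h3, ← ENNReal.ofReal_mul (by positivity)]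
  exact ENNReal.ofReal_le_ofReal h1

end Pool.Agent.Lib.MP_ccbbf6_gt.L4
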