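import Pool.Agent.Lib.MP_ccbbf6_gt.L4.PO4
import Pool.Agent.Lib.MP_ccbbf6_gt.L4.SM5

/-!
# PO5: the push-off and the filling (Level 4)
-/

set_option autoImplicit false
set_option linter.unusedSectionVars false

open Set Filter Topology Metric Real
open scoped ContDiff RealInnerProductSpace

noncomputable section

namespace Pool.Agent.Lib.MP_ccbbf6_gt.L4

open Geo

variable {n : ℕ} {M : Type*} [MetricSpace M] [CompactSpace M] {𝒜 : SDist n M}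

section

variable [Nonempty (Gs M)] {e : Emb n 𝒜} {Ξ : ℝ → ℝ → e.Q → e.Q} {χ : e.Q → ℝ} {ρ : ℝ → Gs M → Gs M}
variable (hB : Bl M) (hR : Rot 𝒜 ρ) (h : PFlow e ρ χ Ξ)

include hB hR h

theorem continuous_CC : Continuous (fun z : ℝ × Gs M => CC e Ξ z.1 z.2) := by
  rw [continuous_iff_continuousAt]
  rintro ⟨θ, c⟩
  have h1 : ContinuousAt (fun y : e.Q => (e.RR y).1 (-π)) (Ξ π θ (e.EE c)) :=
    ((e.smG_RR hB (Xi_mem hB hR h Real.pi_pos.le θ c)).ev hB (t := fun _ => -π) contDiffAt_const).1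
  have h2 : Continuous (fun z : ℝ × Gs M => Ξ π z.1 (e.EE z.2)) := by
    have h3 : Continuous (fun z : ℝ × Gs M => (((π, z.1), e.EE z.2) : (ℝ × ℝ) × e.Q)) :=
      (continuous_const.prodMk continuous_fst).prodMk (e.continuous_EE.comp continuous_snd)
    exact h.smooth.continuous.comp h3
  exact ContinuousAt.comp (g := fun y : e.Q => (e.RR y).1 (-π)) (f := fun z : ℝ × Gs M => Ξ π z.1 (e.EE z.2)) h1
    h2.continuousAt

/-- uniform estimate of the speed -/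
theorem speed_uniform (hK : 𝒜.HK 1) : ∃ θ : ℝ, 0 < θ ∧ ∃ lam : ℝ, 0 ≤ lam ∧ lam < 1 ∧ ∀ c : Gs M,
    ‖deriv (fun s => 𝒜.ψ (CC e Ξ θ c) (CC e Ξ θ (shift s c))) 0‖ ≤ lam := by
  choose m hm ε hε hloc using speed_local hB hR h hK
  obtain ⟨t, ht⟩ := CompactSpace.elim_nhds_subcover (fun c0 : Gs M => {c | ∀ θ : ℝ, 0 < θ → θ < ε c0 →
    ‖deriv (fun s => 𝒜.ψ (CC e Ξ θ c) (CC e Ξ θ (shift s c))) 0‖ ^ 2 ≤ 1 - m c0 * (θ * sin θ)}) hloc
  have h1 : ∀ᶠ θ in 𝓝[>] (0 : ℝ), (∀ c0 ∈ t, θ < ε c0) ∧ (∀ c0 ∈ t, θ < m c0) ∧ θ < π := by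
    refine ((Filter.eventually_all_finset t).mpr fun c0 _ => nhdsWithin_le_nhds (gt_mem_nhds (hε c0))).and
      (((Filter.eventually_all_finset t).mpr fun c0 _ => nhdsWithin_le_nhds (gt_mem_nhds (hm c0))).and
      (nhdsWithin_le_nhds (gt_mem_nhds Real.pi_pos)))
  obtain ⟨θ, ⟨hθ1, hθ2, hθ3⟩, hθ0⟩ := (h1.and self_mem_nhdsWithin).exists
  have hθ0' : 0 < θ := hθ0
  have hs : 0 < sin θ := sin_pos_of_pos_of_lt_pi hθ0' hθ3
  refine ⟨θ, hθ0', √(1 - θ * (θ * sin θ)), Real.sqrt_nonneg _, ?_, fun c => ?_⟩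
  · rw [Real.sqrt_lt' one_pos, one_pow]
    have : 0 < θ * (θ * sin θ) := by positivity
    linarith
  · have hc : c ∈ ⋃ x ∈ t, {c | ∀ θ : ℝ, 0 < θ → θ < ε x →
        ‖deriv (fun s => 𝒜.ψ (CC e Ξ θ c) (CC e Ξ θ (shift s c))) 0‖ ^ 2 ≤ 1 - m x * (θ * sin θ)} := by
      rw [ht]; trivial
    simp only [mem_iUnion] at hc
    obtain ⟨c0, hc0, hin⟩ := hc
    have h2 := hin θ hθ0' (hθ1 c0 hc0)
    have h3 : ‖deriv (fun s => 𝒜.ψ (CC e Ξ θ c) (CC e Ξ θ (shift s c))) 0‖ ^ 2 ≤ 1 - θ * (θ * sin θ) := by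
      refine h2.trans ?_
      have : θ * (θ * sin θ) ≤ m c0 * (θ * sin θ) := mul_le_mul_of_nonneg_right (hθ2 c0 hc0).le (by positivity)
      linarith
    have h4 := Real.abs_le_sqrt h3
    rwa [abs_of_nonneg (norm_nonneg _)] at h4

theorem lip_CC {θ lam : ℝ} (hl : ∀ c : Gs M, ‖deriv (fun s => 𝒜.ψ (CC e Ξ θ c) (CC e Ξ θ (shift s c))) 0‖ ≤ lam)
    (c : Gs M) : CO.Lip lam (fun t => CC e Ξ θ (shift t c)) := by
  refine PO.lip_of_speed (α := fun t => CC e Ξ θ (shift t c)) fun t μ hμ => ?_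
  have hsm : SmAt 𝒜 (fun t : ℝ => CC e Ξ θ (shift t c)) t :=
    smooth_CC hB hR h ((smGAt_const c t).shift hB (r := fun s => s) contDiffAt_id) (θ := fun _ => θ) contDiffAt_const
  have hsm0 : SmAt 𝒜 (fun s : ℝ => CC e Ξ θ (shift s (shift t c))) 0 :=
    smooth_CC hB hR h ((smGAt_const (shift t c) (0 : ℝ)).shift hB (r := fun s => s) contDiffAt_id) (θ := fun _ => θ)
      contDiffAt_const
  have h1 : HasDerivAt (fun s => 𝒜.ψ (CC e Ξ θ (shift t c)) (CC e Ξ θ (shift s (shift t c))))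
      (deriv (fun s => 𝒜.ψ (CC e Ξ θ (shift t c)) (CC e Ξ θ (shift s (shift t c)))) 0) (t - t) := by
    have h2 := hsm0.2
    simp only [shift_zero] at h2
    rw [sub_self]
    exact (h2.differentiableAt (by simp)).hasDerivAt
  have h3 := h1.comp_sub_const t t
  have h4 : (fun x => 𝒜.ψ (CC e Ξ θ (shift t c)) (CC e Ξ θ (shift (x - t) (shift t c)))) =
      fun x => 𝒜.ψ (CC e Ξ θ (shift t c)) (CC e Ξ θ (shift x c)) := by
    funext x
    rw [← shift_add, sub_add_cancel]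
  rw [h4] at h3
  exact speed_upper (𝒜 := 𝒜) (α := fun t => CC e Ξ θ (shift t c)) hsm.1 h3 (lt_of_le_of_lt (hl _) hμ)

end

/-- the foot map -/
def footC (M : Type*) [MetricSpace M] : C(Gs M, M) := ⟨fun c => c.1 0, (continuous_apply 0).comp continuous_subtype_val⟩

/-- **The push-off.** -/
theorem push_off [Nonempty (Gs M)] {ρ : ℝ → Gs M → Gs M} (hB : Bl M) (hK : 𝒜.HK 1) (hR : Rot 𝒜 ρ) :
    ∃ C : C(Gs M, M), (footC M).Homotopic C ∧ ∃ lam : ℝ, 0 ≤ lam ∧ lam < 1 ∧ ∀ c, CO.Lip lam (fun t => C (shift t c)) := by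
  have : Nonempty M := ⟨(Classical.arbitrary (Gs M)).1 0⟩
  obtain ⟨e⟩ := exists_emb 𝒜
  obtain ⟨χ, Ξ, h⟩ := exists_pflow e hB hR
  obtain ⟨θ, hθ, lam, h0, h1, hl⟩ := speed_uniform hB hR h hK
  have hc := continuous_CC hB hR h
  refine ⟨⟨fun c => CC e Ξ θ c, hc.comp (f := fun c : Gs M => ((θ, c) : ℝ × Gs M)) (by fun_prop)⟩, ⟨?_⟩, lam, h0, h1,
    lip_CC hB hR h hl⟩
  exact
    { toFun := fun z => CC e Ξ ((z.1 : ℝ) * θ) z.2
      continuous_toFun := hc.comp (f := fun z : unitInterval × Gs M => (((z.1 : ℝ) * θ, z.2) : ℝ × Gs M)) (by fun_prop)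
      map_zero_left := fun c => by
        show CC e Ξ (((0 : unitInterval) : ℝ) * θ) c = c.1 0
        rw [Set.Icc.coe_zero, zero_mul, CC_zero hB hR h]
      map_one_left := fun c => by
        show CC e Ξ (((1 : unitInterval) : ℝ) * θ) c = CC e Ξ θ c
        rw [Set.Icc.coe_one, one_mul] }

/-- **The filling.** -/
theorem exists_fill {ρ : ℝ → Gs M → Gs M} (hB : Bl M) (hK : 𝒜.HK 1) (hR : Rot 𝒜 ρ) :
    ∃ f : Gs M → ℝ → M, Fill 𝒜 f := by
  rcases isEmpty_or_nonempty (Gs M) with hE | hE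
  · exact ⟨fun c => hE.elim c, fun E _ _ σ _ => hE.elim (σ 0), fun c => hE.elim c, fun c => hE.elim c, fun c => hE.elim c⟩
  · have : Nonempty M := ⟨(Classical.arbitrary (Gs M)).1 0⟩
    obtain ⟨C, ⟨H1⟩, lam, h0, h1, hL⟩ := push_off hB hK hR
    obtain ⟨Z, ⟨H2⟩, hZ⟩ := collapse_foot 𝒜 hB h0 h1 C hL
    obtain ⟨f, f1, f2, f3, -⟩ := smooth_filling hB (H1.trans H2) (fun c => rfl) hZ one_pos
    refine ⟨f, f1, f2, fun c s hs => ?_, fun c t => ?_⟩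
    · have := f3 c 0 s hs
      rwa [shift_zero] at this
    · exact f3 c t 1 (by norm_num)

end Pool.Agent.Lib.MP_ccbbf6_gt.L4
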