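import Pool.Agent.Lib.MP_ccbbf6_gt.L4.AsmIn
import Pool.Agent.Lib.MP_ccbbf6_gt.L4.MV
import Pool.Agent.Lib.MP_ccbbf6_gt.L4.PO5

/-!
# Level 4: assembly
-/

set_option autoImplicit false
set_option maxSynthPendingDepth 3

open Set Filter Topology Metric Real MeasureTheory
open scoped ContDiff RealInnerProductSpace

noncomputable section

namespace Pool.Agent.Lib.MP_ccbbf6_gt.L4

open Geo FR ORI

variable {n : ℕ} {M : Type} [MetricSpace M] [CompactSpace M] {𝒜 : SDist n M}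

/-- the homotopy from `foot 0` to the left end of the cylinder -/
def fLft (hB : Bl M) {f : Gs M → ℝ → M} (hf : Fill 𝒜 f) : SMap (spG 𝒜).xR (spM 𝒜) :=
  ⟨fun z => f (rev (M := M) z.1) z.2, fun k p => by
    have h1 : Sm 𝒜 (fun u => f (rev (M := M) (p.1 u).1) (p.1 u).2) :=
      (hf.smooth (V k) _ (SmG.rev hB p.2.1)).comp (f := fun u => (u, (p.1 u).2)) (contDiff_id.prodMk p.2.2)
    exact h1⟩

theorem abs_eps {e : Eu n → Eu n} {m : ℕ} (hm : 1 ≤ m) (hn : n = 2 * m) (he : GCF e) : eps m e ^ 2 ≤ 1 := by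
  obtain ⟨k, hk⟩ := eul hm hn he
  have h0 : k ≠ 0 := by
    intro h
    rw [h, Int.cast_zero, zero_mul] at hk
    exact zero_ne_one hk
  have h1 : (1 : ℝ) ≤ |(k : ℝ)| := by
    have := Int.one_le_abs h0
    exact_mod_cast this
  have h2 : |(k : ℝ)| * |eps m e| = 1 := by rw [← abs_mul, hk, abs_one]
  have h3 : |eps m e| ≤ 1 := by
    nlinarith [abs_nonneg (eps m e)]
  rw [← sq_abs]
  exact pow_le_one₀ (abs_nonneg _) h3

theorem kills_phi {hB : Bl M} {Θ : Om (spG 𝒜)} (h : iO (circPhi hB 𝒜) Θ = 0) : Kills (phiF hB) Θ := by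
  intro k p
  have h1 := on_i (circPhi hB 𝒜) Θ p
  rw [h, on_zero] at h1
  exact h1.symm

/-- **Level 4**: the volume of a Blaschke manifold with `κ = 1`. -/
theorem main [MeasurableSpace M] [BorelSpace M] (hn : 2 ≤ n) (hB : Bl M) (hK : 𝒜.HK 1) [Nonempty M] :
    (μHE[n] : Measure M) univ ≤ Blaschke.modelVolume n 1 := by
  obtain ⟨p⟩ := ‹Nonempty M›
  obtain ⟨e, he, hep⟩ := exists_gcf (𝒜 := 𝒜) hn hB hK p
  obtain ⟨m, hm⟩ := eul_even he
  have hnm : n = 2 * m := by omega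
  have hm1 : 1 ≤ m := by omega
  obtain ⟨om, hom, hint⟩ := in_omega (𝒜 := 𝒜) hB hK p he hep
  obtain ⟨ρ, hρ, hρe, b, hb1, hb⟩ := in_rho hn hB hK p he hep hom
  obtain ⟨f, hf⟩ := exists_fill hB hK hρ
  have hM : DimLE (spM 𝒜) n := in_dim
  have hp : om ^ (m + 1) = 0 := Deg_big hM (by omega : n < 2 * (m + 1)) (Deg_pow hom.deg (m + 1))
  -- the ends
  have f0 : IMap (circPhi hB 𝒜) ((fPhi hB hf).comp (jO _ 0)) := by
    intro x s
    change two (M := M) f (shift (2 * π * s) x) 0 = two (M := M) f x 0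
    rw [two_left hf _ (by norm_num), two_left hf _ (by norm_num), rev_shift, mul_zero, sub_zero, hf.inv]
  have f1 : IMap (circPhi hB 𝒜) ((fPhi hB hf).comp (jO _ 1)) := by
    intro x s
    change two (M := M) f (shift (2 * π * s) x) 1 = two (M := M) f x 1
    have h2 : (2 : ℝ) * 1 - 1 = 1 := by norm_num
    rw [two_right hf _ (by norm_num), two_right hf _ (by norm_num), h2, hf.inv]
  have g0 : IMap (rhoC hρ) ((fRho hB).comp (jO _ 0)) := by
    intro x s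
    change (ρ (2 * π * s) x).1 (π * 0) = (x : Gs M).1 (π * 0)
    rw [mul_zero, hρ.foot]
  have g1 : IMap (rhoC hρ) ((fRho hB).comp (jO _ 1)) := by
    intro x s
    change (ρ (2 * π * s) x).1 (π * 1) = (x : Gs M).1 (π * 1)
    rw [mul_one, hρ.top]
  have F0 : (fLft hB hf).comp (jO _ 0) = (fRho hB).comp (jO _ 0) := by
    refine SMap_ext fun c => ?_
    change f (rev (M := M) c) 0 = (c : Gs M).1 (π * 0)
    rw [hf.zero _ _ (by norm_num), mul_zero]
    change (c : Gs M).1 (-0) = _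
    rw [neg_zero]
  have F1 : (fLft hB hf).comp (jO _ 1) = (fPhi hB hf).comp (jO _ 0) := by
    refine SMap_ext fun c => ?_
    change f (rev (M := M) c) 1 = two (M := M) f c 0
    rw [two_left hf _ (by norm_num), mul_zero, sub_zero]
  -- the number of the geodesic flow
  obtain ⟨v, hv⟩ : ∃ v : Eu n, ‖v‖ = 1 := by
    refine ⟨EuclideanSpace.single ⟨0, by omega⟩ 1, ?_⟩
    simp
  obtain ⟨c, hc⟩ : ∃ c : Gs M, c.1 0 = p := ⟨gvg 𝒜 hB p v hv, (gv_spec 𝒜 hB p hv).2.1⟩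
  obtain ⟨y, hy⟩ : ∃ y : (spG 𝒜).Plot 0, ∀ x, y.1 x = c := ⟨⟨fun _ => c, smG_const c⟩, fun _ => rfl⟩
  obtain ⟨a, ha1, ha⟩ : ∃ a : ℝ, 1 ≤ |a| ∧ ar (circPhi hB 𝒜) (fPhi hB hf) om = algebraMap ℝ (Om (spG 𝒜)) a := by
    refine ⟨_, ?_, ar_const (in_con hn hB) (circPhi hB 𝒜) (fPhi hB hf) hom.closed hom.deg f0 f1 y⟩
    rw [abs_neg]
    have h1 : cyp (circPhi hB 𝒜) (fPhi hB hf) y = cylP hB hf c := by
      refine Plot_ext fun u => ?_
      change two (M := M) f (shift (2 * π * u 0) (y.1 _)) (u 1) = two (M := M) f (shift (2 * π * u 0) c) (u 1)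
      rw [hy]
    rw [h1]
    exact area_cyl_ge hB hf om hρ (fun c hc => hint f hf c hc) hc
  have ha0 : a ≠ 0 := by
    intro h
    rw [h, abs_zero] at ha1
    linarith
  have hb0 : b ≠ 0 := by
    intro h
    rw [h, abs_zero] at hb1
    exact zero_ne_one hb1
  -- comparison
  have hcmp := comparison_N (TG hB) (TG_d hB) (fun x hx => TG_even hB hx) hom.closed hom.deg hp
    (circPhi hB 𝒜) (rhoC hρ) (fun x hx => TG_phi hB (kills_phi hx)) (fun x hx => TG_rho hB hρ (kills_iff hρ hx)) hm1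
    (fPhi hB hf) (fRho hB) (fLft hB hf) f0 f1 g0 g1 F0 F1 ha0 hb0 ha hb (AL_i hB) (Deg_odd (j := 0) (AL_deg hB)) (AL_id hB)
  -- the right side
  have hw0 : wt (fRho hB) om 0 = (foot hB 0).pull om := by
    have h1 : (fRho (𝒜 := 𝒜) hB).comp (jO _ 0) = foot hB 0 := SMap_ext fun c => by
      change (c : Gs M).1 (π * 0) = (c : Gs M).1 0
      rw [mul_zero]
    unfold wt
    rw [← pull_comp, h1]
  have hw1 : wt (fRho hB) om 1 = (foot hB π).pull om := by
    have h1 : (fRho (𝒜 := 𝒜) hB).comp (jO _ 1) = foot hB π := SMap_ext fun c => by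
      change (c : Gs M).1 (π * 1) = (c : Gs M).1 π
      rw [mul_one]
    unfold wt
    rw [← pull_comp, h1]
  have hβ1 : Deg 1 (AO (rhoC hρ) (b0 (fRho hB) om)) := Deg_A _ (Deg_b0 _ _ hom.deg)
  have D := data (fRho hB) om (rhoC hρ) (TG hB) (TG_d hB) (fun x hx => TG_rho hB hρ (kills_iff hρ hx))
    (fun x hx => TG_even hB hx) hom.closed hom.deg hp g0 g1 hb
  have hβ : dO _ (AO (rhoC hρ) (b0 (fRho hB) om)) = (foot hB π).pull om - (foot hB 0).pull om := by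
    have h1 : dO _ (AO (rhoC hρ) (b0 (fRho hB) om)) = (wt (fRho hB) om 1 - wt (fRho hB) om 0) * 1 := D.dβ
    rw [h1, mul_one, hw0, hw1]
  have hc' : iO (rhoC hρ) (AO (rhoC hρ) (b0 (fRho hB) om)) = algebraMap ℝ _ b := by
    rw [i_A]
    exact hb
  have hfub := fub hB hnm hm1 hM he hom hρ hρe hβ1 hβ hc'
  rw [hw0, hw1, mul_assoc ((foot hB 0).pull om ^ m)] at hcmp
  -- the volume
  obtain ⟨s, hs, hvol⟩ := in_vol (𝒜 := 𝒜) hB hn
  have hV := vol_of_dens (by omega) hB hvol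
  have hfin : (μHE[n] : Measure M) univ ≠ ⊤ := by
    have := finite_of_sdist 𝒜
    exact measure_ne_top _ _
  subst hnm
  refine final_ennreal (by omega) hfin ?_
  have h1 : |a| ^ (2 * m) * |TG hB (dO _ (AL hB 𝒜) ^ (2 * m - 1) * AL hB 𝒜)| = (2 * m).choose m * eps m e ^ 2 := by
    have h2 := congrArg abs hcmp
    rw [abs_mul, abs_mul, hfub, abs_mul, abs_pow, abs_pow, abs_neg, abs_one, one_pow, one_mul, hb1, one_pow, one_mul,
      Nat.abs_cast] at h2
    exact h2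
  have h3 : |TG hB (dO _ (AL hB 𝒜) ^ (2 * m - 1) * AL hB 𝒜)| ≤ (2 * m).choose m := by
    have h4 : (1 : ℝ) ≤ |a| ^ (2 * m) := one_le_pow₀ ha1
    have h5 := abs_eps hm1 rfl he
    have h6 : (0 : ℝ) ≤ (2 * m).choose m := Nat.cast_nonneg _
    have h7 := abs_nonneg (TG hB (dO _ (AL hB 𝒜) ^ (2 * m - 1) * AL hB 𝒜))
    nlinarith
  rw [hV, abs_mul, abs_mul, hs, one_mul] at h3
  refine le_trans (le_of_eq ?_) h3
  have h8 : (0 : ℝ) ≤ ((2 * m : ℕ) : ℝ) * (volume (ball (0 : Eu (2 * m)) 1)).toReal * ((μHE[2 * m] : Measure M) univ).toReal :=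
    by positivity
  rw [abs_of_nonneg h8, abs_of_nonneg (by positivity)]
  push_cast
  ring

end Pool.Agent.Lib.MP_ccbbf6_gt.L4
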