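import Pool.Agent.Lib.MP_ccbbf6_gt.L4.Cmp4
import Pool.Agent.Lib.MP_ccbbf6_gt.L4.FU1

/-!
# Level 4: `spG` is connected by plots, `spM` has dimension at most `n` (helper56)
-/

set_option autoImplicit false
set_option maxSynthPendingDepth 3

open Set Filter Topology Metric Real
open scoped ContDiff RealInnerProductSpace

noncomputable section

namespace Pool.Agent.Lib.MP_ccbbf6_gt.L4

open Geo FR

variable {n : ℕ}

lemma exists_perp (hn : 2 ≤ n) (v : Eu n) : ∃ x : Eu n, x ≠ 0 ∧ ⟪v, x⟫ = 0 := by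
  by_cases hv : v = 0
  · subst hv
    have hnt : Nontrivial (Eu n) := by
      apply Module.nontrivial_of_finrank_pos (R := ℝ)
      rw [finrank_euclideanSpace_fin]
      omega
    obtain ⟨x, hx⟩ := exists_ne (0 : Eu n)
    exact ⟨x, hx, inner_zero_left _⟩
  · by_contra hcon
    push Not at hcon
    have h1 : ∀ x : Eu n, x ∈ Submodule.span ℝ {v} := by
      intro x
      by_contra hx
      have h2 : x - (⟪v, x⟫ / ⟪v, v⟫) • v ≠ 0 := by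
        intro h3
        apply hx
        rw [sub_eq_zero.1 h3]
        exact Submodule.smul_mem _ _ (Submodule.mem_span_singleton_self v)
      apply hcon _ h2
      rw [inner_sub_right, inner_smul_right, div_mul_cancel₀, sub_self]
      exact inner_self_ne_zero.2 hv
    have h2 : Submodule.span ℝ {v} = ⊤ := Submodule.eq_top_iff'.2 h1
    have h3 := finrank_span_singleton (K := ℝ) hv
    rw [h2, finrank_top, finrank_euclideanSpace_fin] at h3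
    omega

lemma exists_circle (hn : 2 ≤ n) {v v' : Eu n} (hv : ‖v‖ = 1) (hv' : ‖v'‖ = 1) :
    ∃ (w : Eu n) (t : ℝ), ‖w‖ = 1 ∧ ⟪v, w⟫ = 0 ∧ v' = cos t • v + sin t • w := by
  obtain ⟨c, hc⟩ : ∃ c, c = ⟪v, v'⟫ := ⟨_, rfl⟩
  obtain ⟨u, hu⟩ : ∃ u, u = v' - c • v := ⟨_, rfl⟩
  have hvv : ⟪v, v⟫ = 1 := by rw [real_inner_self_eq_norm_sq, hv, one_pow]
  have hort : ⟪v, u⟫ = 0 := by
    rw [hu, inner_sub_right, inner_smul_right, hvv, mul_one, ← hc, sub_self]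
  have hnu : ‖u‖ ^ 2 = 1 - c ^ 2 := by
    rw [hu, norm_sub_sq_real, hv', inner_smul_right, real_inner_comm, ← hc, norm_smul, hv, Real.norm_eq_abs, mul_one,
      sq_abs]
    ring
  have hc1 : |c| ≤ 1 := by
    rw [hc]
    calc |⟪v, v'⟫| ≤ ‖v‖ * ‖v'‖ := abs_real_inner_le_norm v v'
      _ = 1 := by rw [hv, hv', one_mul]
  have hcos : cos (arccos c) = c := cos_arccos (abs_le.1 hc1).1 (abs_le.1 hc1).2
  have hsin : sin (arccos c) = ‖u‖ := by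
    rw [sin_arccos, ← hnu, Real.sqrt_sq (norm_nonneg _)]
  by_cases h0 : u = 0
  · obtain ⟨x, hx, hx'⟩ := exists_perp hn v
    refine ⟨‖x‖⁻¹ • x, arccos c, normv hx, ?_, ?_⟩
    · rw [inner_smul_right, hx', mul_zero]
    · rw [hcos, hsin, h0, norm_zero, zero_smul, add_zero]
      rw [hu] at h0
      exact sub_eq_zero.1 h0
  · refine ⟨‖u‖⁻¹ • u, arccos c, normv h0, ?_, ?_⟩
    · rw [inner_smul_right, hort, mul_zero]
    · rw [hcos, hsin, smul_normv, hu]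
      abel

lemma circle_norm {v w : Eu n} (hv : ‖v‖ = 1) (hw : ‖w‖ = 1) (h : ⟪v, w⟫ = 0) (t : ℝ) :
    ‖cos t • v + sin t • w‖ = 1 := by
  have h1 : ‖cos t • v + sin t • w‖ ^ 2 = 1 := by
    rw [norm_add_sq_real, inner_smul_left, inner_smul_right, h, norm_smul, norm_smul, hv, hw, mul_one, mul_one,
      Real.norm_eq_abs, Real.norm_eq_abs, sq_abs, sq_abs]
    simp only [mul_zero, add_zero]
    exact cos_sq_add_sin_sq t
  have h2 := norm_nonneg (cos t • v + sin t • w)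
  nlinarith

variable {M : Type} [MetricSpace M] [CompactSpace M] {𝒜 : SDist n M}

/-- great circle of directions, as a plot -/
def circP (hB : Bl M) (p : M) {v w : Eu n} (hv : ‖v‖ = 1) (hw : ‖w‖ = 1) (h : ⟪v, w⟫ = 0) : (spG 𝒜).Plot 1 :=
  ⟨fun u => gvg 𝒜 hB p (cos (u 0) • v + sin (u 0) • w) (circle_norm hv hw h (u 0)), by
    have hq : ContDiff ℝ ∞ fun u : V 1 => cos (u 0) • v + sin (u 0) • w :=
      ((contDiff_apply ℝ ℝ (0 : Fin 1)).cos.smul contDiff_const).add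
        ((contDiff_apply ℝ ℝ (0 : Fin 1)).sin.smul contDiff_const)
    have h1 : ∀ t : ℝ, Sm 𝒜 fun u : V 1 => 𝒜.gv p (cos (u 0) • v + sin (u 0) • w) t := by
      intro t u
      have h2 : (fun u : V 1 => 𝒜.gv p (cos (u 0) • v + sin (u 0) • w) t) =
          fun u => 𝒜.Ex p (t • (cos (u 0) • v + sin (u 0) • w)) := by
        funext u
        rw [Ex_smul 𝒜 hB p (circle_norm hv hw h (u 0))]
      rw [h2]
      exact smAt_Ex hB p (hq.const_smul t).contDiffAt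
    exact ⟨h1 0, h1 (π / 2)⟩⟩

/-- shift, as a plot -/
def shP (hB : Bl M) (c : Gs M) : (spG 𝒜).Plot 1 :=
  ⟨fun u => shift (u 0) c, SmG.shift hB (σ := fun _ : V 1 => c) ⟨sm_const _, sm_const _⟩
    (contDiff_apply ℝ ℝ (0 : Fin 1))⟩

lemma gvg_self (hB : Bl M) (c : Gs M) {p : M} (hp : c.1 0 = p) :
    gvg 𝒜 hB p (𝒜.vel c.1 0) (IsGeo.exists_vel 𝒜 c.2 0).1 = c := by
  subst hp
  refine Subtype.ext ?_
  change 𝒜.gv (c.1 0) (𝒜.vel c.1 0) = c.1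
  rw [gv_eq 𝒜 c.2 0]
  funext t
  rw [zero_add]

/-- the space of geodesics is connected by plots -/
theorem con_spG (hn : 2 ≤ n) (hB : Bl M) : Con (spG 𝒜) := by
  intro P hP c c' hc
  change Gs M at c c'
  change Gs M → Prop at P
  have hrot : ∀ c c' : Gs M, c.1 0 = c'.1 0 → P c → P c' := by
    intro c c' h0 hc
    have hv := (IsGeo.exists_vel 𝒜 c.2 0).1
    have hv' := (IsGeo.exists_vel 𝒜 c'.2 0).1
    obtain ⟨w, t, hw, hort, ht⟩ := exists_circle hn hv hv'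
    have h1 := hP (circP hB (c'.1 0) hv hw hort) (fun _ => 0) (fun _ => t)
    have e0 : (circP (𝒜 := 𝒜) hB (c'.1 0) hv hw hort).1 (fun _ => 0) = c := by
      refine Eq.trans (Subtype.ext ?_) (gvg_self (𝒜 := 𝒜) hB c h0)
      change 𝒜.gv (c'.1 0) (cos 0 • 𝒜.vel c.1 0 + sin 0 • w) = 𝒜.gv (c'.1 0) (𝒜.vel c.1 0)
      rw [cos_zero, sin_zero, one_smul, zero_smul, add_zero]
    have e1 : (circP (𝒜 := 𝒜) hB (c'.1 0) hv hw hort).1 (fun _ => t) = c' := by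
      refine Eq.trans (Subtype.ext ?_) (gvg_self (𝒜 := 𝒜) hB c' rfl)
      change 𝒜.gv (c'.1 0) (cos t • 𝒜.vel c.1 0 + sin t • w) = 𝒜.gv (c'.1 0) (𝒜.vel c'.1 0)
      rw [← ht]
    rw [e0, e1] at h1
    exact h1 hc
  by_cases hxx : c.1 0 = c'.1 0
  · exact hrot c c' hxx hc
  obtain ⟨ξ, h1, h2⟩ := Ex_surj 𝒜 hB (c.1 0) (c'.1 0)
  have hξ : ξ ≠ 0 := by
    intro h
    rw [h, norm_zero] at h1
    exact hxx (dist_eq_zero.1 h1.symm)
  have hg : P (gvg 𝒜 hB (c.1 0) (‖ξ‖⁻¹ • ξ) (normv hξ)) :=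
    hrot c _ (gv_spec 𝒜 hB (c.1 0) (normv hξ)).2.1.symm hc
  have hs := hP (shP hB (gvg 𝒜 hB (c.1 0) (‖ξ‖⁻¹ • ξ) (normv hξ))) (fun _ => 0) (fun _ => ‖ξ‖)
  have e0 : (shP (𝒜 := 𝒜) hB (gvg 𝒜 hB (c.1 0) (‖ξ‖⁻¹ • ξ) (normv hξ))).1 (fun _ => 0) =
      gvg 𝒜 hB (c.1 0) (‖ξ‖⁻¹ • ξ) (normv hξ) := by
    refine Subtype.ext ?_
    funext t
    change 𝒜.gv (c.1 0) (‖ξ‖⁻¹ • ξ) (t + 0) = 𝒜.gv (c.1 0) (‖ξ‖⁻¹ • ξ) t
    rw [add_zero]
  rw [e0] at hs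
  refine hrot _ c' ?_ (hs hg)
  change 𝒜.gv (c.1 0) (‖ξ‖⁻¹ • ξ) (0 + ‖ξ‖) = c'.1 0
  rw [zero_add, ← Ex_smul 𝒜 hB (c.1 0) (normv hξ), smul_normv, h2]

/-- the manifold has dimension at most `n` -/
theorem dimLE_spM : DimLE (spM 𝒜) n := by
  intro k p x
  have hp : Sm 𝒜 p.1 := p.2
  have hE : ContDiff ℝ ∞ (toE : V n → Eu n) := contDiff_toE
  have h0 : toE (0 : V n) = 0 := rfl
  have hT : toE ⁻¹' (𝒜.ψ (p.1 x)).target ∈ 𝓝 (0 : V n) := by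
    refine hE.continuous.continuousAt.preimage_mem_nhds ?_
    rw [h0]
    refine (𝒜.ψ (p.1 x)).open_target.mem_nhds ?_
    have := (𝒜.ψ (p.1 x)).map_source (𝒜.mem (p.1 x))
    rwa [𝒜.zero] at this
  obtain ⟨s, hs1, hs2⟩ := exists_sq (0 : V n) hT
  obtain ⟨oE, hoE⟩ : ∃ oE : Eu n → V n, oE = fun v => WithLp.ofLp v := ⟨_, rfl⟩
  have hoE' : ContDiff ℝ ∞ oE := by
    rw [hoE]
    exact (PiLp.continuousLinearEquiv 2 ℝ (fun _ : Fin n => ℝ)).contDiff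
  have htoE : ∀ v, toE (oE v) = v := fun v => by rw [hoE]; rfl
  have hoE0 : oE 0 = 0 := by rw [hoE]; rfl
  have hU : {y : V k | p.1 y ∈ (𝒜.ψ (p.1 x)).source ∧ s (oE (𝒜.ψ (p.1 x) (p.1 y))) = oE (𝒜.ψ (p.1 x) (p.1 y))} ∈ 𝓝 x := by
    have hc : ContinuousAt (fun y => oE (𝒜.ψ (p.1 x) (p.1 y))) x :=
      hoE'.continuous.continuousAt.comp (hp x).2.continuousAt
    have hc0 : oE (𝒜.ψ (p.1 x) (p.1 x)) = 0 := by rw [𝒜.zero, hoE0]
    refine Filter.inter_mem ((hp x).1.eventually ((𝒜.ψ (p.1 x)).open_source.mem_nhds (𝒜.mem _))) ?_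
    have h1 : ∀ᶠ w in 𝓝 (oE (𝒜.ψ (p.1 x) (p.1 x))), s w = w := by
      rw [hc0]
      exact hs1
    exact hc.eventually h1
  obtain ⟨h, hh1, hh2⟩ := exists_sq x hU
  refine ⟨h, ⟨fun v => (𝒜.ψ (p.1 x)).symm (toE (s v)), fun v => smAt_symm
    (hE.contDiffAt.comp v s.smooth.contDiffAt) (hs2 v)⟩, ⟨fun y => oE (𝒜.ψ (p.1 x) (p.1 (h y))), ?_⟩, hh1, ?_⟩
  · rw [contDiff_iff_contDiffAt]
    intro y
    have h3 := (hp (h y)).chart (hh2 y).1
    exact hoE'.contDiffAt.comp y (h3.comp y h.smooth.contDiffAt)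
  · refine Plot_ext fun y => ?_
    change p.1 (h y) = (𝒜.ψ (p.1 x)).symm (toE (s (oE (𝒜.ψ (p.1 x) (p.1 (h y))))))
    rw [(hh2 y).2, htoE, (𝒜.ψ (p.1 x)).left_inv (hh2 y).1]

end Pool.Agent.Lib.MP_ccbbf6_gt.L4
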