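import Pool.Agent.Lib.MP_ccbbf6_gt.L4.Cmp2
import Pool.Agent.Lib.MP_ccbbf6_gt.L4.FRt

/-!
# Level 4, orientation: the period of the tautological rotation, general part
-/

set_option autoImplicit false
set_option maxSynthPendingDepth 3

open Set Filter Topology MeasureTheory
open scoped TensorProduct ContDiff

noncomputable section

namespace Pool.Agent.Lib.MP_ccbbf6_gt.L4.ORI

open FR

variable {X M : Space} {k l : ℕ}

/-! ### The period -/

/-- the integral over the cylinders of the orbits -/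
def kap (c : Circ X) (f : SMap X.xR M) (om : Om M) : Om X := KO X (c.a.pull (b0 f om))

lemma d_kap {c : Circ X} {f : SMap X.xR M} {om : Om M} (hom : dO M om = 0) (h0 : IMap c (f.comp (jO X 0)))
    (h1 : IMap c (f.comp (jO X 1))) : dO X (kap c f om) = 0 := by
  unfold kap
  rw [← i_A, cartan c (A_inv c _), A_d]
  have h := d_K (f.pull om)
  have h3 : dO X.xR (f.pull om) = 0 := by rw [pull_d, hom, map_zero]
  rw [h3, map_zero, add_zero] at h
  unfold b0
  rw [h]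
  have h4 : Bas c ((jO X 1).pull (f.pull om) - (jO X 0).pull (f.pull om)) :=
    Bas_sub c (wt_bas f om c h1) (wt_bas f om c h0)
  rw [A_bas c h4, Bas_i c h4, neg_zero]

lemma Deg_kap {c : Circ X} {f : SMap X.xR M} {om : Om M} (h2 : Deg 2 om) : Deg 0 (kap c f om) :=
  Deg_K (Deg_pull _ (Deg_K (Deg_pull _ h2)))

/-! ### The function of a form of degree `0` -/

lemma inv_map (A : V l →ₗ[ℝ] V k) (y : Ex l) :
    ExteriorAlgebra.algebraMapInv (ExteriorAlgebra.map A y) = ExteriorAlgebra.algebraMapInv y := by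
  induction y using ExteriorAlgebra.induction with
  | algebraMap r => rw [AlgHom.commutes, AlgHom.commutes, AlgHom.commutes]
  | ι v =>
    rw [ExteriorAlgebra.map_apply_ι]
    simp [ExteriorAlgebra.algebraMapInv]
  | mul a b ha hb => simp only [map_mul, ha, hb]
  | add a b ha hb => simp only [map_add, ha, hb]

lemma fn_pb (g : FR.Sm k l) (x : Fm l) : fn k (pb g x) = g.pull (fn l x) := by
  refine Cs_ext fun y => ?_
  rw [fn_apply, ev_pb, inv_map, FR.Sm.pull_apply, fn_apply]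

lemma fn_const {x : Fm k} (h0 : Dg 0 x) (hd : dd k x = 0) (s t : V k) :
    (fn k x : V k → ℝ) s = (fn k x : V k → ℝ) t := by
  have h1 : ∀ s i, fderiv ℝ (fn k x : V k → ℝ) s (Pi.single i 1) = 0 := by
    intro s i
    have h2 : ev s (dd k (fc k (fn k x))) = 0 := by rw [Dg_fn h0, hd, map_zero]
    rw [ev_dd_fc] at h2
    have h3 := (ExteriorAlgebra.ι_inj ℝ _ 0).1 (h2.trans (map_zero _).symm)
    exact congrFun h3 i
  refine is_const_of_fderiv_eq_zero (𝕜 := ℝ) (Cs_diff _) (fun s => ?_) s t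
  refine ContinuousLinearMap.ext fun v => ?_
  have h5 : v = ∑ i, v i • (Pi.single i (1 : ℝ) : V k) := by
    ext a
    simp [Finset.sum_apply, Pi.single_apply]
  rw [h5, map_sum]
  refine (Finset.sum_eq_zero fun i _ => ?_).trans (by simp)
  rw [map_smul, h1, smul_zero]

/-- the value of a form of degree `0` -/
def vl (θ : Om X) (P : X.Plot 0) : ℝ := (fn 0 (Om.on θ P) : V 0 → ℝ) 0

/-- the constant plot -/
def cst {k : ℕ} (q : X.Plot k) (x : V k) : X.Plot 0 := q.cmp ⟨fun _ => x, contDiff_const⟩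

lemma vl_cst (θ : Om X) (q : X.Plot k) (x : V k) : vl θ (cst q x) = (fn k (Om.on θ q) : V k → ℝ) x := by
  unfold vl cst
  rw [on_cmp, fn_pb]
  rfl

lemma vl_const {θ : Om X} (h0 : Deg 0 θ) (hd : dO X θ = 0) (q : X.Plot k) (s t : V k) :
    vl θ (cst q s) = vl θ (cst q t) := by
  rw [vl_cst, vl_cst]
  refine fn_const (h0 k q) ?_ s t
  rw [← on_d, hd, on_zero]

lemma eq_alg {θ : Om X} (h0 : Deg 0 θ) {b : ℝ} (h : ∀ (k : ℕ) (q : X.Plot k) (x : V k), vl θ (cst q x) = b) :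
    θ = algebraMap ℝ (Om X) b := by
  refine Om_ext fun k q => ?_
  have h1 : Om.on (algebraMap ℝ (Om X) b) q = algebraMap ℝ (Fm k) b := rfl
  rw [h1, ← Dg_fn (h0 k q)]
  have h2 : fn k (Om.on θ q) = algebraMap ℝ (Cs k) b := Cs_ext fun x => by
    rw [← vl_cst, h]
    rfl
  rw [h2, AlgHom.commutes]

/-! ### Double fibre integral -/

lemma top_two (a : Ex 2) (ha : a ∈ ⋀[ℝ]^2 (V 2)) : a = topE 2 a • (ee 0 * ee 1) := by
  have hi : (ee 0 * ee 1 : Ex 2) = ExteriorAlgebra.ιMulti ℝ 2 (fun i : Fin 2 => (Pi.single i 1 : V 2)) := by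
    rw [ExteriorAlgebra.ιMulti_apply]
    simp [List.ofFn_succ, ee]
  rw [hi]
  rw [← ExteriorAlgebra.ιMulti_span_fixedDegree] at ha
  induction ha using Submodule.span_induction with
  | mem x hx =>
    obtain ⟨v, rfl⟩ := hx
    rw [topE_ιMulti]
    have h : ExteriorAlgebra.ιMulti ℝ 2 (M := V 2) =
        (LinearMap.toSpanSingleton ℝ (Ex 2)
          (ExteriorAlgebra.ιMulti ℝ 2 (fun i : Fin 2 => (Pi.single i 1 : V 2)))).compAlternatingMap
          (Matrix.detRowAlternating : (V 2) [⋀^Fin 2]→ₗ[ℝ] ℝ) := by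
      refine Module.Basis.ext_alternating (Pi.basisFun ℝ (Fin 2)) fun σ hσ => ?_
      obtain ⟨τ, hτ⟩ : ∃ τ : Equiv.Perm (Fin 2), ⇑τ = σ :=
        ⟨Equiv.ofBijective σ ⟨hσ, Finite.surjective_of_injective hσ⟩, rfl⟩
      subst hτ
      have h1 : (fun i => (Pi.basisFun ℝ (Fin 2)) (τ i)) = (fun i : Fin 2 => (Pi.single i 1 : V 2)) ∘ τ := by
        funext i
        simp
      rw [h1, AlternatingMap.map_perm, LinearMap.compAlternatingMap_apply, AlternatingMap.map_perm]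
      have h2 : (Matrix.detRowAlternating : (V 2) [⋀^Fin 2]→ₗ[ℝ] ℝ) (fun i : Fin 2 => (Pi.single i 1 : V 2)) = 1 := by
        have h3 : (fun i : Fin 2 => (Pi.single i 1 : V 2)) = (1 : Matrix (Fin 2) (Fin 2) ℝ) := by
          funext i j
          simp [Matrix.one_apply, Pi.single_apply, eq_comm]
        change Matrix.det (fun i : Fin 2 => (Pi.single i 1 : V 2)) = 1
        rw [h3, Matrix.det_one]
      rw [h2, LinearMap.toSpanSingleton_apply, smul_assoc, one_smul]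
    exact congrArg (fun f : (V 2) [⋀^Fin 2]→ₗ[ℝ] Ex 2 => f v) h
  | zero => rw [map_zero, zero_smul]
  | add x y _ _ hx hy => rw [map_add, add_smul, ← hx, ← hy]
  | smul r x _ hx => rw [map_smul, smul_assoc, ← hx]

lemma Dg_two {x : Fm 2} (hx : Dg 2 x) : x = tm (tp 2 x) (ee 0 * ee 1) := by
  refine ev_ext fun p => ?_
  rw [ev_tm, tp_apply]
  exact top_two _ (Dg_ev hx p)

lemma ctr_ee (φ : V k →ₗ[ℝ] ℝ) (i : Fin k) : ctr φ (ee i) = algebraMap ℝ (Ex k) (φ (Pi.single i 1)) := by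
  have h := ctr_ι_mul φ (Pi.single i (1 : ℝ)) 1
  rw [mul_one, ctr_one, mul_zero, sub_zero] at h
  unfold ee
  rw [h, Algebra.algebraMap_eq_smul_one]

lemma KK_KKd (g : Cs 2) (y : V 0) : (fn 0 (KK 0 (KK 1 (tm g (ee 0 * ee 1)))) : V 0 → ℝ) y =
    -∫ s in (0 : ℝ)..1, ∫ t in (0 : ℝ)..1, (g : V 2 → ℝ) ![s, t] := by
  have h1 : ctr (lst 1) (ee 0 * ee 1 : Ex 2) = -ee 0 := by
    have h2 := ctr_ι_mul (lst 1) (Pi.single 0 (1 : ℝ) : V 2) (ee 1)
    have h3 : lst 1 (Pi.single 0 (1 : ℝ) : V 2) = 0 := by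
      rw [lst_apply]
      simp
    have h4 : lst 1 (Pi.single 1 (1 : ℝ) : V 2) = 1 := by
      rw [lst_apply]
      simp
    rw [h3, zero_smul, ctr_ee, h4, map_one, mul_one, zero_sub] at h2
    exact h2
  have h2 : KK 1 (tm g (ee 0 * ee 1)) = tm (Int 1 g) (-ee 0) := by
    rw [KK_apply, cs, cn_tm, Q0_tm, h1, map_neg]
    have h3 : kil 1 (ee 0) = ee 0 := kil_ee (k := 1) 0
    rw [h3]
  have h3 : KK 0 (tm (Int 1 g) (-ee 0)) = tm (Int 0 (Int 1 g)) (-1) := by
    rw [KK_apply, cs, cn_tm, Q0_tm, map_neg, ctr_ee, lst_apply]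
    have h4 : (Pi.single 0 (1 : ℝ) : V 1) (Fin.last 0) = 1 := by simp
    rw [h4, map_one, map_neg, map_one]
  rw [h2, h3, fn_tm, map_neg, map_one, neg_smul, one_smul]
  change -(Int 0 (Int 1 g) : V 0 → ℝ) y = _
  rw [Int_apply]
  congr 1
  refine intervalIntegral.integral_congr fun s _ => ?_
  change (Int 1 g : V 1 → ℝ) (Fin.snoc y s) = ∫ t in (0 : ℝ)..1, (g : V 2 → ℝ) ![s, t]
  rw [Int_apply]
  refine intervalIntegral.integral_congr fun t _ => ?_
  change (g : V 2 → ℝ) (Fin.snoc (Fin.snoc y s) t) = (g : V 2 → ℝ) ![s, t]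
  refine congrArg (g : V 2 → ℝ) (funext fun i => ?_)
  fin_cases i
  · exact (Fin.snoc_castSucc (α := fun _ => ℝ) _ _ (0 : Fin 1)).trans (Fin.snoc_last (α := fun _ => ℝ) _ _)
  · exact Fin.snoc_last (α := fun _ => ℝ) _ _

/-- the cylinder of an orbit -/
def cypD (c : Circ X) (f : SMap X.xR M) (P : X.Plot 0) : M.Plot 2 := f.pl (c.a.pl P.up).up

lemma vl_kap {c : Circ X} {f : SMap X.xR M} {om : Om M} (h2 : Deg 2 om) (P : X.Plot 0) :
    vl (kap c f om) P = -∫ s in (0 : ℝ)..1, ∫ t in (0 : ℝ)..1, (tp 2 (Om.on om (cypD c f P)) : V 2 → ℝ) ![s, t] := by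
  have h1 : Om.on (kap c f om) P = KK 0 (KK 1 (Om.on om (cypD c f P))) := rfl
  unfold vl
  rw [h1]
  have h3 := Dg_two (h2 2 (cypD c f P))
  rw [h3, KK_KKd, ← h3]

/-- the reflection -/
def rfl2 : FR.Sm 2 2 := ⟨fun u => ![1 - u 0, u 1], by
  refine contDiff_pi.2 fun i => ?_
  fin_cases i
  · exact contDiff_const.sub (contDiff_apply ℝ ℝ (0 : Fin 2))
  · exact contDiff_apply ℝ ℝ (1 : Fin 2)⟩

lemma det_rfl2 (u : V 2) : (fderiv ℝ (rfl2 : V 2 → V 2) u).det = -1 := by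
  have h1 : ∀ v : V 2, fderiv ℝ (rfl2 : V 2 → V 2) u v = ![-v 0, v 1] := by
    intro v
    have h2 : HasFDerivAt (rfl2 : V 2 → V 2) (ContinuousLinearMap.pi
        ![-(ContinuousLinearMap.proj (R := ℝ) (φ := fun _ : Fin 2 => ℝ) 0),
          ContinuousLinearMap.proj (R := ℝ) (φ := fun _ : Fin 2 => ℝ) 1]) u := by
      refine hasFDerivAt_pi'.2 fun i => ?_
      fin_cases i
      · exact (hasFDerivAt_apply (𝕜 := ℝ) (0 : Fin 2) u).const_sub 1
      · exact hasFDerivAt_apply (𝕜 := ℝ) (1 : Fin 2) u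
    rw [h2.fderiv]
    funext i
    fin_cases i <;> rfl
  have h3 : LinearMap.toMatrix' (fderiv ℝ (rfl2 : V 2 → V 2) u : V 2 →ₗ[ℝ] V 2) = !![-1, 0; 0, 1] := by
    ext i j
    rw [LinearMap.toMatrix'_apply]
    change fderiv ℝ (rfl2 : V 2 → V 2) u (Pi.single j 1) i = _
    rw [h1]
    fin_cases i <;> fin_cases j <;> simp
  change LinearMap.det (fderiv ℝ (rfl2 : V 2 → V 2) u : V 2 →ₗ[ℝ] V 2) = -1
  rw [← LinearMap.det_toMatrix', h3, Matrix.det_fin_two_of]
  norm_num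

/-- reversing the orbit changes the sign -/
lemma vl_kap_neg {c : Circ X} {f : SMap X.xR M} {om : Om M} (h2 : Deg 2 om) {P P' : X.Plot 0}
    (h : cypD c f P' = (cypD c f P).cmp rfl2) : vl (kap c f om) P' = -vl (kap c f om) P := by
  rw [vl_kap h2, vl_kap h2, h, on_cmp]
  congr 1
  obtain ⟨G, hG⟩ : ∃ G : ℝ → ℝ, G = fun s => ∫ t in (0 : ℝ)..1, (tp 2 (Om.on om (cypD c f P)) : V 2 → ℝ) ![s, t] := ⟨_, rfl⟩
  have h3 : ∀ s : ℝ, ∫ t in (0 : ℝ)..1, (tp 2 (pb rfl2 (Om.on om (cypD c f P))) : V 2 → ℝ) ![s, t] = -G (1 - s) := by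
    intro s
    rw [hG]
    change _ = -∫ t in (0 : ℝ)..1, (tp 2 (Om.on om (cypD c f P)) : V 2 → ℝ) ![1 - s, t]
    rw [← intervalIntegral.integral_neg]
    refine intervalIntegral.integral_congr fun t _ => ?_
    rw [tp_pb, det_rfl2, neg_one_mul]
    rfl
  simp only [h3]
  rw [intervalIntegral.integral_neg, intervalIntegral.integral_comp_sub_left (fun s => G s) 1, sub_self, sub_zero, hG]

end Pool.Agent.Lib.MP_ccbbf6_gt.L4.ORI
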