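import Pool.Agent.Lib.MP_ccbbf6_gt.L4.FXb
import Pool.Agent.Lib.MP_ccbbf6_gt.L4.OriE
import Pool.Agent.Lib.MP_ccbbf6_gt.L4.Sp

/-!
# Level 4, orientation: the space of oriented planes and its tautological rotation
-/

set_option autoImplicit false
set_option linter.unusedSectionVars false

open Set Filter Topology Metric Real Module
open scoped ContDiff RealInnerProductSpace

noncomputable section

namespace Pool.Agent.Lib.MP_ccbbf6_gt.L4.ORI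

open Geo FR

section rr

variable {n : ℕ} {M : Type*} [MetricSpace M] [CompactSpace M] (𝒜 : SDist n M)

/-- the direction at the angle `θ` -/
def wr (c c' : Gs M) (θ : ℝ) : Eu n := cos θ • 𝒜.vel c.1 0 + sin θ • 𝒜.vel c'.1 0

/-- rotation of `c` towards `c'` -/
def rr (hB : Bl M) (θ : ℝ) (c c' : Gs M) : Gs M := gw 𝒜 hB c (wr 𝒜 c c' θ)

theorem wr_eq (c c' : Gs M) (θ : ℝ) : wr 𝒜 c c' θ = arc (𝒜.vel c.1 0) (𝒜.vel c'.1 0) θ := rfl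

variable {𝒜} {c c' : Gs M}

theorem norm_wr (h : Dp 𝒜 c c') (θ : ℝ) : ‖wr 𝒜 c c' θ‖ = 1 := by
  rw [wr_eq]
  exact norm_arc (vel_norm 𝒜 c) (vel_norm 𝒜 c') h.2.2 θ

theorem wr_ne (h : Dp 𝒜 c c') (θ : ℝ) : wr 𝒜 c c' θ ≠ 0 := kc_ne (norm_wr h θ)

theorem rr_foot (hB : Bl M) (θ : ℝ) (c c' : Gs M) : (rr 𝒜 hB θ c c').1 0 = c.1 0 := gw_zero 𝒜 hB _ _

theorem rr_vel (hB : Bl M) (h : Dp 𝒜 c c') (θ : ℝ) : 𝒜.vel (rr 𝒜 hB θ c c').1 0 = wr 𝒜 c c' θ := by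
  unfold rr
  rw [gw_vel 𝒜 hB _ (wr_ne h θ), nrm_of_norm (norm_wr h θ)]

theorem wr_mem (hB : Bl M) (h : Dp 𝒜 c c') (θ : ℝ) : wr 𝒜 c c' θ ∈ 𝒜.PV (c.1 0) (𝒜.vel c.1 0) :=
  Submodule.add_mem _ (Submodule.smul_mem _ _ (mem_PV_self 𝒜 hB _ _))
    (Submodule.smul_mem _ _ (mem_PV_of_top 𝒜 hB h.1 h.2.1))

theorem rr_top (hB : Bl M) (h : Dp 𝒜 c c') (θ : ℝ) : (rr 𝒜 hB θ c c').1 π = c.1 π :=
  top_of_mem 𝒜 hB c (wr_ne h θ) (wr_mem hB h θ)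

theorem rr_Dp (hB : Bl M) (h : Dp 𝒜 c c') (θ : ℝ) : Dp 𝒜 (rr 𝒜 hB θ c c') (rr 𝒜 hB (θ + π / 2) c c') := by
  refine ⟨by rw [rr_foot, rr_foot], by rw [rr_top hB h, rr_top hB h], ?_⟩
  rw [rr_vel hB h, rr_vel hB h, wr_eq, wr_eq, inner_arc (vel_norm 𝒜 c) (vel_norm 𝒜 c') h.2.2, sub_add_cancel_left, cos_neg,
    cos_pi_div_two]

theorem rr_zero (hB : Bl M) (h : Dp 𝒜 c c') : rr 𝒜 hB 0 c c' = c :=
  eq_of_vel' 𝒜 (rr_foot hB _ _ _) (by rw [rr_vel hB h, wr_eq, arc_zero])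

theorem rr_half (hB : Bl M) (h : Dp 𝒜 c c') : rr 𝒜 hB (π / 2) c c' = c' :=
  eq_of_vel' 𝒜 (by rw [rr_foot, h.1]) (by
    rw [rr_vel hB h]
    unfold wr
    rw [cos_pi_div_two, sin_pi_div_two, zero_smul, one_smul, zero_add])

theorem rr_add (hB : Bl M) (h : Dp 𝒜 c c') (a b : ℝ) :
    rr 𝒜 hB a (rr 𝒜 hB b c c') (rr 𝒜 hB (b + π / 2) c c') = rr 𝒜 hB (a + b) c c' := by
  refine eq_of_vel' 𝒜 (by rw [rr_foot, rr_foot, rr_foot]) ?_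
  rw [rr_vel hB (rr_Dp hB h b), rr_vel hB h]
  unfold wr
  rw [rr_vel hB h, rr_vel hB h]
  unfold wr
  rw [cos_add_pi_div_two, sin_add_pi_div_two, cos_add, sin_add]
  module

theorem rr_per (hB : Bl M) (θ : ℝ) (c c' : Gs M) : rr 𝒜 hB (θ + 2 * π) c c' = rr 𝒜 hB θ c c' := by
  unfold rr wr
  rw [cos_add_two_pi, sin_add_two_pi]

theorem vel_rev' (c : Gs M) : 𝒜.vel (rev c).1 0 = -𝒜.vel c.1 0 := by
  show 𝒜.vel (fun t => c.1 (-t)) 0 = _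
  rw [vel_rev 𝒜 c.2 0, neg_zero]

theorem rr_pi (hB : Bl M) (h : Dp 𝒜 c c') : rr 𝒜 hB π c c' = rev c := by
  refine eq_of_vel' 𝒜 ?_ ?_
  · rw [rr_foot]
    show c.1 0 = c.1 (-0)
    rw [neg_zero]
  · rw [rr_vel hB h, wr_eq, arc_pi, vel_rev']

theorem rev_rev (c : Gs M) : rev (rev c) = c := Subtype.ext (funext fun t => by
  show c.1 (-(-t)) = c.1 t
  rw [neg_neg])

theorem Dp.rev_right (hB : Bl M) (h : Dp 𝒜 c c') : Dp 𝒜 c (rev c') := by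
  refine ⟨?_, ?_, ?_⟩
  · show c'.1 (-0) = c.1 0
    rw [neg_zero, h.1]
  · have h1 := rr_top hB h (-(π / 2))
    have h2 : rr 𝒜 hB (-(π / 2)) c c' = rev c' := by
      refine eq_of_vel' 𝒜 ?_ ?_
      · rw [rr_foot]
        show c.1 0 = c'.1 (-0)
        rw [neg_zero, h.1]
      · rw [rr_vel hB h, vel_rev']
        unfold wr
        rw [cos_neg, sin_neg, cos_pi_div_two, sin_pi_div_two, zero_smul, neg_smul, one_smul, zero_add]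
    rwa [h2] at h1
  · rw [vel_rev', inner_neg_right, h.2.2, neg_zero]

theorem rr_rev (hB : Bl M) (h : Dp 𝒜 c c') (θ : ℝ) : rr 𝒜 hB θ c (rev c') = rr 𝒜 hB (-θ) c c' := by
  refine eq_of_vel' 𝒜 (by rw [rr_foot, rr_foot]) ?_
  rw [rr_vel hB (h.rev_right hB), rr_vel hB h]
  unfold wr
  rw [vel_rev', cos_neg, sin_neg, smul_neg, neg_smul]

/-- existence of a perpendicular geodesic -/
theorem exists_Dp (hB : Bl M) (hk : 𝒜.HK 1) (c : Gs M) : ∃ c', Dp 𝒜 c c' := by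
  obtain ⟨a, ha, ha1, hva, -⟩ := exists_perp (finrank_PV 𝒜 hB hk (c.1 0) (vel_ne 𝒜 c)) (vel_ne 𝒜 c)
    (mem_PV_self 𝒜 hB _ _)
  refine ⟨gw 𝒜 hB c a, gw_zero 𝒜 hB _ _, top_of_mem 𝒜 hB c (kc_ne ha1) ha, ?_⟩
  rw [gw_vel 𝒜 hB c (kc_ne ha1), nrm_of_norm ha1, hva]

/-- uniqueness up to the orientation -/
theorem Dp_pm (hB : Bl M) (hk : 𝒜.HK 1) {c'' : Gs M} (h : Dp 𝒜 c c') (h' : Dp 𝒜 c c'') : c'' = c' ∨ c'' = rev c' := by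
  have h1 := perp_pm (finrank_PV 𝒜 hB hk (c.1 0) (vel_ne 𝒜 c)) (vel_ne 𝒜 c) (mem_PV_self 𝒜 hB _ _)
    (mem_PV_of_top 𝒜 hB h.1 h.2.1) (vel_norm 𝒜 c') h.2.2 (mem_PV_of_top 𝒜 hB h'.1 h'.2.1) (vel_norm 𝒜 c'') h'.2.2
  obtain ⟨t, ht⟩ : ∃ t, t = ⟪𝒜.vel c'.1 0, 𝒜.vel c''.1 0⟫ := ⟨_, rfl⟩
  rw [← ht] at h1
  have h2 := vel_norm 𝒜 c''
  rw [h1, norm_smul, vel_norm, mul_one, Real.norm_eq_abs] at h2
  rcases abs_eq (zero_le_one' ℝ) |>.mp h2 with h3 | h3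
  · left
    exact eq_of_vel' 𝒜 (by rw [h.1, h'.1]) (by rw [h1, h3, one_smul])
  · right
    refine eq_of_vel' 𝒜 ?_ (by rw [h1, h3, vel_rev', neg_one_smul])
    show c''.1 0 = c'.1 (-0)
    rw [neg_zero, h.1, h'.1]

theorem rev_ne_self (c : Gs M) (𝒜 : SDist n M) : rev c ≠ c := by
  intro h
  have h1 : 𝒜.vel (rev c).1 0 = 𝒜.vel c.1 0 := by rw [h]
  rw [vel_rev'] at h1
  have h2 : (2 : ℝ) • 𝒜.vel c.1 0 = 0 := by
    rw [two_smul]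
    nth_rewrite 1 [← h1]
    exact neg_add_cancel _
  exact vel_ne 𝒜 c ((smul_eq_zero.mp h2).resolve_left two_ne_zero)

/-- smoothness of the rotation -/
theorem smGA_rr {E : Type*} [NormedAddCommGroup E] [NormedSpace ℝ E] (hB : Bl M) {σ σ' : E → Gs M} {θ : E → ℝ} {u : E}
    (h : SmGA 𝒜 σ u) (h' : SmGA 𝒜 σ' u) (hD : ∀ᶠ v in 𝓝 u, Dp 𝒜 (σ v) (σ' v)) (hθ : ContDiffAt ℝ ∞ θ u) :
    SmGA 𝒜 (fun v => rr 𝒜 hB (θ v) (σ v) (σ' v)) u := by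
  obtain ⟨p, hp⟩ : ∃ p, p = (σ u).1 0 := ⟨_, rfl⟩
  have hps : (σ u).1 0 ∈ (𝒜.ψ p).source := by rw [hp]; exact 𝒜.mem _
  have hps' : (σ' u).1 0 ∈ (𝒜.ψ p).source := by rw [hD.self_of_nhds.1]; exact hps
  refine smGA_gw hB h.1 hps ?_ (wr_ne hD.self_of_nhds _)
  have h1 := h.smV hB hps
  have h2 : SmV 𝒜 p (fun v => (σ v).1 0) (fun v => 𝒜.vel (σ' v).1 0) u := by
    have h3 := h'.smV hB hps'
    unfold SmV at h3 ⊢
    refine h3.congr_of_eventuallyEq ?_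
    filter_upwards [hD] with v hv
    rw [hv.1]
  exact (h1.smul (contDiff_cos.contDiffAt.comp u hθ)).add (h2.smul (contDiff_sin.contDiffAt.comp u hθ))

end rr

section space

variable {n : ℕ} {M : Type} [MetricSpace M] [CompactSpace M] (𝒜 : SDist n M)

/-- oriented planes with a unit vector: pairs of perpendicular geodesics in the same plane -/
def spD : Space where
  pt := {z : Gs M × Gs M // Dp 𝒜 z.1 z.2}
  Pl _ := {p | SmG 𝒜 (fun u => (p u).1.1) ∧ SmG 𝒜 (fun u => (p u).1.2)}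
  pre := fun {_ _ p} hp g => ⟨SmG.comp (σ := fun u => (p u).1.1) hp.1 g.smooth,
    SmG.comp (σ := fun u => (p u).1.2) hp.2 g.smooth⟩

variable {𝒜}

/-- the rotation as a map -/
def aD (hB : Bl M) (z : (spD 𝒜).pt) (θ : ℝ) : (spD 𝒜).pt :=
  ⟨(rr 𝒜 hB θ z.1.1 z.1.2, rr 𝒜 hB (θ + π / 2) z.1.1 z.1.2), rr_Dp hB z.2 θ⟩

theorem smG_rr (hB : Bl M) {k : ℕ} (p : (spD 𝒜).Plot k) {θ : V k → ℝ} (hθ : ContDiff ℝ ∞ θ) :
    SmG 𝒜 (fun u => rr 𝒜 hB (θ u) (p.1 u).1.1 (p.1 u).1.2) :=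
  smG_of fun u => smGA_rr hB (p.2.1.at u) (p.2.2.at u) (Eventually.of_forall fun v => (p.1 v).2) hθ.contDiffAt

/-- the tautological rotation, period `1` -/
def circD (hB : Bl M) : Circ (spD 𝒜) where
  a := ⟨fun z => aD hB z.1 (2 * π * z.2), fun k p =>
    ⟨smG_rr hB (⟨fun u => (p.1 u).1, p.2.1⟩ : (spD 𝒜).Plot k) (contDiff_const.mul p.2.2),
      smG_rr hB (⟨fun u => (p.1 u).1, p.2.1⟩ : (spD 𝒜).Plot k) ((contDiff_const.mul p.2.2).add contDiff_const)⟩⟩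
  zero := fun z => Subtype.ext (Prod.ext (by
    show rr 𝒜 hB (2 * π * 0) z.1.1 z.1.2 = z.1.1
    rw [mul_zero, rr_zero hB z.2]) (by
    show rr 𝒜 hB (2 * π * 0 + π / 2) z.1.1 z.1.2 = z.1.2
    rw [mul_zero, zero_add, rr_half hB z.2]))
  add := fun z s t => Subtype.ext (Prod.ext (by
    show rr 𝒜 hB (2 * π * t) (rr 𝒜 hB (2 * π * s) z.1.1 z.1.2) (rr 𝒜 hB (2 * π * s + π / 2) z.1.1 z.1.2) =
      rr 𝒜 hB (2 * π * (s + t)) z.1.1 z.1.2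
    rw [rr_add hB z.2]
    ring_nf) (by
    show rr 𝒜 hB (2 * π * t + π / 2) (rr 𝒜 hB (2 * π * s) z.1.1 z.1.2) (rr 𝒜 hB (2 * π * s + π / 2) z.1.1 z.1.2) =
      rr 𝒜 hB (2 * π * (s + t) + π / 2) z.1.1 z.1.2
    rw [rr_add hB z.2]
    ring_nf))
  one := fun z t => Subtype.ext (Prod.ext (by
    show rr 𝒜 hB (2 * π * (t + 1)) z.1.1 z.1.2 = rr 𝒜 hB (2 * π * t) z.1.1 z.1.2
    rw [mul_add, mul_one, rr_per]) (by
    show rr 𝒜 hB (2 * π * (t + 1) + π / 2) z.1.1 z.1.2 = rr 𝒜 hB (2 * π * t + π / 2) z.1.1 z.1.2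
    rw [show 2 * π * (t + 1) + π / 2 = 2 * π * t + π / 2 + 2 * π by ring, rr_per]))

/-- the homotopy from the foot to the top -/
def fD (hB : Bl M) : SMap (spD 𝒜).xR (spM 𝒜) := ⟨fun z => z.1.1.1.1 (π * z.2), fun _ p =>
  SmG.ev' hB p.2.1.1 (contDiff_const.mul p.2.2)⟩

end space

end Pool.Agent.Lib.MP_ccbbf6_gt.L4.ORI
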