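import Pool.Agent.Lib.MP_ccbbf6_gt.L4.Eps
import Pool.Agent.Lib.MP_ccbbf6_gt.L4.FI2
import Pool.Agent.Lib.MP_ccbbf6_gt.L4.OriF

/-!
# Level 4, orientation: the space of geodesics is connected; the base value of the period
-/

set_option autoImplicit false
set_option linter.unusedSectionVars false
set_option maxSynthPendingDepth 3

open Set Filter Topology Metric Real Module MeasureTheory
open scoped ContDiff RealInnerProductSpace

noncomputable section

namespace Pool.Agent.Lib.MP_ccbbf6_gt.L4.ORI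

open Geo FR

variable {n : ℕ} {M : Type} [MetricSpace M] [CompactSpace M] {𝒜 : SDist n M}

/-! ### Connectedness -/

section con

theorem gw_self (hB : Bl M) (c : Gs M) : gw 𝒜 hB c (𝒜.vel c.1 0) = c :=
  eq_of_vel' 𝒜 (gw_zero 𝒜 hB c _) (by rw [gw_vel 𝒜 hB c (vel_ne 𝒜 c), nrm_of_norm (vel_norm 𝒜 c)])

theorem gw_foot (hB : Bl M) {c c' : Gs M} (h : c'.1 0 = c.1 0) : gw 𝒜 hB c (𝒜.vel c'.1 0) = c' :=
  eq_of_vel' 𝒜 (by rw [gw_zero, h]) (by rw [gw_vel 𝒜 hB c (vel_ne 𝒜 c'), nrm_of_norm (vel_norm 𝒜 c')])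

/-- the smooth path from `0` to `1` -/
def st (s : V 1) : ℝ := Real.smoothTransition (s 0)

theorem contDiff_st : ContDiff ℝ ∞ st := Real.smoothTransition.contDiff.comp (contDiff_apply ℝ ℝ (0 : Fin 1))

theorem st_zero : st (fun _ => 0) = 0 := Real.smoothTransition.zero_of_nonpos le_rfl

theorem st_one : st (fun _ => 1) = 1 := Real.smoothTransition.one_of_one_le le_rfl

theorem con_seg (hB : Bl M) {P : Gs M → Prop}
    (hP : ∀ (q : (spG 𝒜).Plot 1) (s t : V 1), P (q.1 s) → P (q.1 t)) (c : Gs M) {v w : Eu n}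
    (h : ∀ r : ℝ, 0 ≤ r → r ≤ 1 → v + r • (w - v) ≠ 0) (hv : P (gw 𝒜 hB c v)) : P (gw 𝒜 hB c w) := by
  let q : (spG 𝒜).Plot 1 := ⟨fun s => gw 𝒜 hB c (v + st s • (w - v)), smG_of fun s => by
    refine smGA_gw (c := fun _ => c) (p := c.1 0) hB (smAt_const _ _) (𝒜.mem _) ?_
      (h _ (Real.smoothTransition.nonneg _) (Real.smoothTransition.le_one _))
    have h1 : ContDiffAt ℝ ∞ (fun s : V 1 => v + st s • (w - v)) s :=
      (contDiff_const.add (contDiff_st.smul contDiff_const)).contDiffAt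
    exact (CC 𝒜 (c.1 0) (c.1 0)).contDiff.contDiffAt.comp s h1⟩
  have h1 := hP q (fun _ => 0) (fun _ => 1)
  have e0 : q.1 (fun _ => 0) = gw 𝒜 hB c v := by
    show gw 𝒜 hB c (v + st (fun _ => 0) • (w - v)) = _
    rw [st_zero, zero_smul, add_zero]
  have e1 : q.1 (fun _ => 1) = gw 𝒜 hB c w := by
    show gw 𝒜 hB c (v + st (fun _ => 1) • (w - v)) = _
    rw [st_one, one_smul, add_sub_cancel]
  rw [e0, e1] at h1
  exact h1 hv

theorem exists_orth (hn : 2 ≤ n) (v : Eu n) : ∃ u : Eu n, u ≠ 0 ∧ ⟪v, u⟫ = 0 := by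
  by_contra h
  push Not at h
  have h1 : (ℝ ∙ v)ᗮ = ⊥ := by
    rw [Submodule.eq_bot_iff]
    intro u hu
    by_contra h2
    exact h u h2 (Submodule.mem_orthogonal_singleton_iff_inner_right.1 hu)
  have h2 := Submodule.finrank_add_finrank_orthogonal (ℝ ∙ v)
  rw [h1, finrank_bot, add_zero, finrank_euclideanSpace, Fintype.card_fin] at h2
  have h3 : finrank ℝ (ℝ ∙ v) ≤ 1 := by
    have h4 := finrank_span_le_card (R := ℝ) ({v} : Set (Eu n))
    simpa using h4
  omega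

theorem seg_orth {v u : Eu n} (hv : v ≠ 0) (hu : u ≠ 0) (h : ⟪v, u⟫ = 0) (r : ℝ) : v + r • (u - v) ≠ 0 := by
  intro h1
  have h2 : ⟪v, v + r • (u - v)⟫ = 0 := by rw [h1, inner_zero_right]
  rw [inner_add_right, real_inner_smul_right, inner_sub_right, h, zero_sub, real_inner_self_eq_norm_sq] at h2
  have h3 : ‖v‖ ^ 2 ≠ 0 := pow_ne_zero 2 (norm_ne_zero_iff.2 hv)
  have h4 : r = 1 := by
    have h5 : ‖v‖ ^ 2 * (1 - r) = 0 := by linarith
    rcases mul_eq_zero.1 h5 with h6 | h6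
    · exact absurd h6 h3
    · linarith
  rw [h4, one_smul, add_sub_cancel] at h1
  exact hu h1

theorem con_foot (hB : Bl M) (hn : 2 ≤ n) {P : Gs M → Prop}
    (hP : ∀ (q : (spG 𝒜).Plot 1) (s t : V 1), P (q.1 s) → P (q.1 t)) {c c' : Gs M} (h : c'.1 0 = c.1 0) (hc : P c) :
    P c' := by
  rw [← gw_foot (𝒜 := 𝒜) hB h]
  have h0 : P (gw 𝒜 hB c (𝒜.vel c.1 0)) := by rw [gw_self]; exact hc
  obtain ⟨v, hv⟩ : ∃ v, v = 𝒜.vel c.1 0 := ⟨_, rfl⟩
  obtain ⟨w, hw⟩ : ∃ w, w = 𝒜.vel c'.1 0 := ⟨_, rfl⟩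
  have hv1 : ‖v‖ = 1 := by rw [hv]; exact vel_norm 𝒜 c
  have hw1 : ‖w‖ = 1 := by rw [hw]; exact vel_norm 𝒜 c'
  have hv0 : v ≠ 0 := by rw [hv]; exact vel_ne 𝒜 c
  have hw0 : w ≠ 0 := by rw [hw]; exact vel_ne 𝒜 c'
  rw [← hv] at h0
  rw [← hw]
  by_cases hvw : v + w = 0
  · obtain ⟨u, hu, hvu⟩ := exists_orth hn v
    have hw' : w = -v := by rw [eq_neg_iff_add_eq_zero, add_comm]; exact hvw
    refine con_seg hB hP c (v := u) (fun r _ _ => ?_) (con_seg hB hP c (fun r _ _ => seg_orth hv0 hu hvu r) h0)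
    refine seg_orth hu hw0 ?_ r
    rw [hw', inner_neg_right, real_inner_comm, hvu, neg_zero]
  · refine con_seg hB hP c (fun r h1 h2 h3 => ?_) h0
    have h4 : (1 - r) • v = -(r • w) := by
      rw [eq_neg_iff_add_eq_zero, ← h3]
      module
    have h5 : 1 - r = r := by
      have h6 := congrArg norm h4
      rwa [norm_neg, norm_smul, norm_smul, hv1, hw1, mul_one, mul_one, Real.norm_of_nonneg (by linarith),
        Real.norm_of_nonneg h1] at h6
    have h6 : r = 1 / 2 := by linarith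
    apply hvw
    rw [h6] at h4
    have h7 : (1 / 2 : ℝ) • (v + w) = 0 := by
      rw [smul_add]
      have h8 : (1 - 1 / 2 : ℝ) = 1 / 2 := by norm_num
      rw [h8] at h4
      rw [h4]
      exact neg_add_cancel _
    exact (smul_eq_zero.1 h7).resolve_left (by norm_num)

/-- the space of geodesics is connected along plots -/
theorem con_spG (hB : Bl M) (hn : 2 ≤ n) (P : Gs M → Prop)
    (hP : ∀ (q : (spG 𝒜).Plot 1) (s t : V 1), P (q.1 s) → P (q.1 t)) (y y' : Gs M) (hy : P y) : P y' := by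
  by_cases h : y'.1 0 = y.1 0
  · exact con_foot hB hn hP h hy
  obtain ⟨h1, h2, h3⟩ := gd_spec 𝒜 hB (Ne.symm h)
  obtain ⟨a, ha⟩ : ∃ a, a = dist (y.1 0) (y'.1 0) := ⟨_, rfl⟩
  rw [← ha] at h3
  let c : Gs M := ⟨gd (y.1 0) (y'.1 0), h1⟩
  have hc : P c := con_foot hB hn hP (c := y) h2 hy
  let q : (spG 𝒜).Plot 1 := ⟨fun s => shift (s 0 * a) c,
    SmG.shift hB (σ := fun _ : V 1 => c) ⟨sm_const _, sm_const _⟩ ((contDiff_apply ℝ ℝ (0 : Fin 1)).mul contDiff_const)⟩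
  have h4 := hP q (fun _ => 0) (fun _ => 1)
  have e0 : q.1 (fun _ => 0) = c := Subtype.ext (funext fun t => by
    show c.1 (t + 0 * a) = c.1 t
    rw [zero_mul, add_zero])
  have e1 : q.1 (fun _ => 1) = shift a c := by
    show shift (1 * a) c = _
    rw [one_mul]
  rw [e0, e1] at h4
  refine con_foot hB hn hP (c := shift a c) ?_ (h4 hc)
  show y'.1 0 = gd (y.1 0) (y'.1 0) (0 + a)
  rw [zero_add, h3]

end con

/-! ### The base value -/

section base

variable {e : Eu n → Eu n}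

/-- the pair of perpendicular geodesics at `p` -/
theorem Dp_gvg (hB : Bl M) {p : M} (he : GCF e) (hge : ∀ v, ‖v‖ = 1 → 𝒜.gv p (e v) π = 𝒜.gv p v π) {v : Eu n}
    (hv : ‖v‖ = 1) (hv' : ‖e v‖ = 1) : Dp 𝒜 (gvg 𝒜 hB p v hv) (gvg 𝒜 hB p (e v) hv') := by
  refine ⟨?_, hge v hv, ?_⟩
  · rw [(gvg_vel 𝒜 hB p _ hv).1, (gvg_vel 𝒜 hB p _ hv').1]
  · rw [(gvg_vel 𝒜 hB p _ hv).2, (gvg_vel 𝒜 hB p _ hv').2]
    exact he.orth v

theorem rr_gvg (hB : Bl M) {p : M} (he : GCF e) (hge : ∀ v, ‖v‖ = 1 → 𝒜.gv p (e v) π = 𝒜.gv p v π) {v : Eu n}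
    (hv : ‖v‖ = 1) (hv' : ‖e v‖ = 1) (θ : ℝ) :
    (rr 𝒜 hB θ (gvg 𝒜 hB p v hv) (gvg 𝒜 hB p (e v) hv')).1 = 𝒜.gv p (cos θ • v + sin θ • e v) := by
  refine (exa_gv_unique 𝒜 (rr 𝒜 hB θ _ _).2 ?_ ?_).symm
  · rw [rr_foot, (gvg_vel 𝒜 hB p _ hv).1]
  · rw [rr_vel hB (Dp_gvg hB he hge hv hv')]
    unfold wr
    rw [(gvg_vel 𝒜 hB p _ hv).2, (gvg_vel 𝒜 hB p _ hv').2]

/-- the constant plot -/
def ptP (z : (spD 𝒜).pt) : (spD 𝒜).Plot 0 := ⟨fun _ => z, ⟨sm_const _, sm_const _⟩, ⟨sm_const _, sm_const _⟩⟩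

/-- polar coordinates along the circle of `v` -/
def qq (_he : GCF e) (v : Eu n) : FR.Sm 2 n := ⟨fun u i => (π * u 1) * (cos (2 * π * u 0) * v i + sin (2 * π * u 0) * e v i), by
  refine contDiff_pi.2 fun i => ?_
  have h0 : ContDiff ℝ ∞ fun u : V 2 => u 0 := contDiff_apply ℝ ℝ (0 : Fin 2)
  have h1 : ContDiff ℝ ∞ fun u : V 2 => u 1 := contDiff_apply ℝ ℝ (1 : Fin 2)
  exact (contDiff_const.mul h1).mul (((contDiff_const.mul h0).cos.mul contDiff_const).add
    ((contDiff_const.mul h0).sin.mul contDiff_const))⟩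

theorem toE_qq (he : GCF e) (v : Eu n) (u : V 2) :
    toE (qq he v u) = (π * u 1) • (cos (2 * π * u 0) • v + sin (2 * π * u 0) • e v) := by
  ext i
  rfl

theorem norm_cs (he : GCF e) {v : Eu n} (hv : ‖v‖ = 1) (θ : ℝ) : ‖cos θ • v + sin θ • e v‖ = 1 :=
  norm_arc hv (he.norm v (kc_ne hv)) (he.orth v) θ

theorem norm_qq (he : GCF e) {v : Eu n} (hv : ‖v‖ = 1) (u : V 2) : ‖toE (qq he v u)‖ = π * |u 1| := by
  rw [toE_qq, norm_smul, norm_cs he hv, mul_one, Real.norm_eq_abs, abs_mul, abs_of_pos Real.pi_pos]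

/-- the cut-off along the radius -/
def chr (t : ℝ) : ℝ := chi (π * |t|)

theorem contDiff_chr : ContDiff ℝ ∞ chr := by
  rw [contDiff_iff_contDiffAt]
  intro t
  by_cases ht : t = 0
  · have h1 : chr =ᶠ[𝓝 t] fun _ => 0 := by
      have h2 : Continuous fun t : ℝ => π * |t| := by fun_prop
      have h3 : π * |t| < 1 := by rw [ht, abs_zero, mul_zero]; exact one_pos
      filter_upwards [h2.continuousAt.eventually (gt_mem_nhds h3)] with s hs
      exact chi_zero hs.le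
    exact contDiffAt_const.congr_of_eventuallyEq h1
  · exact contDiff_chi.contDiffAt.comp t (contDiffAt_const.mul (contDiffAt_abs ht))

/-- the cut-off as a function of two variables -/
def chf : Cs 2 := mkC (fun u => chr (u 1)) (contDiff_chr.comp (contDiff_apply ℝ ℝ (1 : Fin 2)))

theorem GCF_neg (he : GCF e) {w : Eu n} (hw : ‖w‖ = 1) : e (-w) = -e w := by
  have h := he.rot w hw π
  rw [cos_pi, sin_pi, zero_smul, neg_zero, zero_smul, add_zero, zero_add, neg_one_smul, neg_one_smul] at h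
  exact h

theorem hasFDerivAt_qq (he : GCF e) (v : Eu n) (u : V 2) (h : V 2) :
    toE (fderiv ℝ (qq he v : V 2 → V n) u h) =
      (π * h 1) • (cos (2 * π * u 0) • v + sin (2 * π * u 0) • e v) +
      (π * u 1 * (2 * π * h 0)) • (-sin (2 * π * u 0) • v + cos (2 * π * u 0) • e v) := by
  have hd : ∀ i, HasFDerivAt (fun u : V 2 => (qq he v u) i)
      ((π * u 1) • ((v i) • (-(sin (2 * π * u 0)) • ((2 * π) • (ContinuousLinearMap.proj (R := ℝ) (φ := fun _ : Fin 2 => ℝ) 0))) +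
        (e v i) • (cos (2 * π * u 0) • ((2 * π) • (ContinuousLinearMap.proj (R := ℝ) (φ := fun _ : Fin 2 => ℝ) 0)))) +
        (cos (2 * π * u 0) * v i + sin (2 * π * u 0) * e v i) •
          (π • (ContinuousLinearMap.proj (R := ℝ) (φ := fun _ : Fin 2 => ℝ) 1))) u := by
    intro i
    have h0 : HasFDerivAt (fun u : V 2 => 2 * π * u 0)
        ((2 * π) • (ContinuousLinearMap.proj (R := ℝ) (φ := fun _ : Fin 2 => ℝ) 0)) u :=
      (hasFDerivAt_apply (𝕜 := ℝ) (0 : Fin 2) u).const_mul (2 * π)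
    have h1 : HasFDerivAt (fun u : V 2 => π * u 1)
        (π • (ContinuousLinearMap.proj (R := ℝ) (φ := fun _ : Fin 2 => ℝ) 1)) u :=
      (hasFDerivAt_apply (𝕜 := ℝ) (1 : Fin 2) u).const_mul π
    exact h1.mul ((h0.cos.mul_const (v i)).add (h0.sin.mul_const (e v i)))
  have h2 := hasFDerivAt_pi.2 hd
  have h3 : HasFDerivAt (qq he v : V 2 → V n) _ u := h2
  rw [h3.fderiv]
  ext i
  simp only [toE, ContinuousLinearMap.coe_pi', add_apply, smul_apply,
    ContinuousLinearMap.proj_apply, PiLp.add_apply, PiLp.smul_apply, smul_eq_mul]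
  ring

/-- the cut-off connection form in polar coordinates -/
theorem pb_BB (he : GCF e) {v : Eu n} (hv : ‖v‖ = 1) : pb (qq he v) (BB e) = fc 2 chf * dx 0 := by
  refine ev_ext fun u => ?_
  obtain ⟨w, hw⟩ : ∃ w, w = cos (2 * π * u 0) • v + sin (2 * π * u 0) • e v := ⟨_, rfl⟩
  have hw1 : ‖w‖ = 1 := by rw [hw]; exact norm_cs he hv _
  have hew : e w = -sin (2 * π * u 0) • v + cos (2 * π * u 0) • e v := by rw [hw, he.rot v hv]
  have hx : toE (qq he v u) = (π * u 1) • w := by rw [toE_qq, hw]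
  have hD : ∀ h : V 2, toE (fderiv ℝ (qq he v : V 2 → V n) u h) = (π * h 1) • w + (π * u 1 * (2 * π * h 0)) • e w := by
    intro h
    rw [hasFDerivAt_qq, ← hew, ← hw]
  have h1 : ev (qq he v u) (BB e) = ExteriorAlgebra.ι ℝ (fun i => bco e i (qq he v u)) := by
    rw [BB_eq he, map_sum, ι_eq]
    refine Finset.sum_congr rfl fun i _ => ?_
    rw [map_mul, ev_fc, dx, ev_cf, Algebra.smul_def]
    rfl
  have h2 : ev u (fc 2 chf * dx 0) = ExteriorAlgebra.ι ℝ (chr (u 1) • (Pi.single 0 1 : V 2)) := by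
    rw [map_mul, ev_fc, dx, ev_cf, ← Algebra.smul_def, map_smul]
    rfl
  rw [ev_pb, h1, h2, ExteriorAlgebra.map_apply_ι, tr_eq]
  congr 1
  -- the pairing with a vector
  have key : ∀ h : V 2, ∑ j, bco e j (qq he v u) * (fderiv ℝ (qq he v : V 2 → V n) u h) j = chr (u 1) * h 0 := by
    intro h
    have h3 : ∑ j, bco e j (qq he v u) * (fderiv ℝ (qq he v : V 2 → V n) u h) j =
        chi ‖toE (qq he v u)‖ / (2 * π * ‖toE (qq he v u)‖) * ⟪e (toE (qq he v u)), toE (fderiv ℝ (qq he v : V 2 → V n) u h)⟫ := by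
      rw [PiLp.inner_apply, Finset.mul_sum]
      refine Finset.sum_congr rfl fun j _ => ?_
      unfold bco
      simp only [RCLike.inner_apply, conj_trivial]
      show _ = _ * (toE (fderiv ℝ (qq he v : V 2 → V n) u h) j * _)
      have h4 : toE (fderiv ℝ (qq he v : V 2 → V n) u h) j = (fderiv ℝ (qq he v : V 2 → V n) u h) j := rfl
      rw [h4]
      ring
    rw [h3, hD, norm_qq he hv, hx, inner_add_right, real_inner_smul_right, real_inner_smul_right]
    have hpi := Real.pi_pos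
    have hwe : ⟪w, e w⟫ = 0 := he.orth w
    have hee : ⟪e w, e w⟫ = 1 := by
      rw [real_inner_self_eq_norm_sq, he.norm w (kc_ne hw1), one_pow]
    rcases lt_trichotomy (u 1) 0 with hu | hu | hu
    · have h5 : e ((π * u 1) • w) = -e w := by
        have h6 : (π * u 1) • w = (-(π * u 1)) • (-w) := by rw [smul_neg, neg_smul, neg_neg]
        rw [h6, he.hom _ _ (by nlinarith), GCF_neg he hw1]
      rw [h5, inner_neg_left, inner_neg_left, real_inner_comm, hwe, hee, abs_of_neg hu]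
      unfold chr
      rw [abs_of_neg hu]
      have : u 1 ≠ 0 := hu.ne
      field_simp
      ring
    · rw [hu]
      unfold chr
      rw [abs_zero, mul_zero, chi_zero zero_le_one]
      simp
    · have h5 : e ((π * u 1) • w) = e w := he.hom _ _ (by positivity)
      rw [h5, real_inner_comm, hwe, hee, abs_of_pos hu]
      unfold chr
      rw [abs_of_pos hu]
      have : u 1 ≠ 0 := hu.ne'
      field_simp
      ring
  funext i
  rw [trL_apply, key]
  rw [Pi.smul_apply, smul_eq_mul]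
  congr 1
  simp only [Pi.single_apply]
  exact if_congr (Iff.intro Eq.symm Eq.symm) rfl rfl

end base

end Pool.Agent.Lib.MP_ccbbf6_gt.L4.ORI
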