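import Pool.Agent.Lib.MP_ccbbf6_gt.L4.OriG
import Pool.Agent.Lib.MP_ccbbf6_gt.L4.OriH
import Pool.Agent.Lib.MP_ccbbf6_gt.L4.OriI

/-!
# Level 4, orientation: the rotation and its period
-/

set_option autoImplicit false
set_option linter.unusedSectionVars false
set_option maxSynthPendingDepth 3

open Set Filter Topology Metric Real Module MeasureTheory
open scoped ContDiff RealInnerProductSpace

noncomputable section

namespace Pool.Agent.Lib.MP_ccbbf6_gt.L4.ORI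

open Geo FR

variable {n : ℕ} {M : Type} [MetricSpace M] [CompactSpace M] {𝒜 : SDist n M} {e : Eu n → Eu n}

theorem tp_dd_chf : tp 2 (dd 2 (fc 2 chf * dx 0)) = -pd 1 chf := by
  have h1 : (fc 2 chf * dx 0 : Fm 2) = tm chf (ee 0) := by rw [tm_eq]; rfl
  have h2 : (ee 0 * ee 0 : Ex 2) = 0 := ExteriorAlgebra.ι_sq_zero _
  have h3 : topE 2 (ee 0 * ee 1) = 1 := by
    have hi : (ee 0 * ee 1 : Ex 2) = ExteriorAlgebra.ιMulti ℝ 2 (fun i : Fin 2 => (Pi.single i 1 : V 2)) := by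
      rw [ExteriorAlgebra.ιMulti_apply]
      simp [List.ofFn_succ, ee]
    rw [hi, topE_ιMulti]
    have h4 : Matrix.of (fun i : Fin 2 => (Pi.single i 1 : V 2)) = (1 : Matrix (Fin 2) (Fin 2) ℝ) := by
      ext i j
      simp [Matrix.one_apply, Pi.single_apply, eq_comm]
    rw [h4, Matrix.det_one]
  have h4 : (ee 1 * ee 0 : Ex 2) = -(ee 0 * ee 1) := ee_swap 1 0
  rw [h1, dd_tm, Fin.sum_univ_two, h2, tm_zero_right, zero_add, h4, tm_neg_right, map_neg]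
  congr 1
  show cof (topE 2) (tm (pd 1 chf) (ee 0 * ee 1)) = _
  rw [cof_tm, h3, one_smul]

theorem pd_chf (s t : ℝ) : (pd 1 chf : V 2 → ℝ) ![s, t] = deriv chr t := by
  rw [pd_apply]
  have h1 : HasFDerivAt (chf : V 2 → ℝ) (deriv chr t • ContinuousLinearMap.proj (R := ℝ) (φ := fun _ : Fin 2 => ℝ) 1) ![s, t] := by
    have h2 : HasDerivAt chr (deriv chr t) ((![s, t] : V 2) 1) :=
      ((contDiff_chr.differentiable (by simp)) t).hasDerivAt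
    exact HasDerivAt.comp_hasFDerivAt (h₂ := chr) (f := fun u : V 2 => u 1) (![s, t] : V 2) h2
      (hasFDerivAt_apply (𝕜 := ℝ) (1 : Fin 2) _)
  rw [h1.fderiv]
  simp

theorem cyp_gvg (hB : Bl M) {p : M} (he : GCF e) (hge : ∀ v, ‖v‖ = 1 → 𝒜.gv p (e v) π = 𝒜.gv p v π) {v : Eu n}
    (hv : ‖v‖ = 1) (hv' : ‖e v‖ = 1) (u : V 2) :
    (cypD (circD hB) (fD hB) (ptP ⟨(gvg 𝒜 hB p v hv, gvg 𝒜 hB p (e v) hv'), Dp_gvg hB he hge hv hv'⟩)).1 u =
      𝒜.Ex p (toE (qq he v u)) := by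
  rw [toE_qq, Ex_smul 𝒜 hB p (norm_cs he hv _), ← rr_gvg hB he hge hv hv']
  rfl

/-- the base value -/
theorem base_value (hB : Bl M) {p : M} (he : GCF e) (hge : ∀ v, ‖v‖ = 1 → 𝒜.gv p (e v) π = 𝒜.gv p v π)
    {om : Om (spM 𝒜)} (h2 : Deg 2 om) (hex : ∀ (k : ℕ) (P : (spM 𝒜).Plot k) (q : FR.Sm k n),
      (∀ u, ‖toE (q u)‖ < π ∧ P.1 u = 𝒜.Ex p (toE (q u))) → Om.on om P = pb q (dd n (BB e))) {v : Eu n}
    (hv : ‖v‖ = 1) (hv' : ‖e v‖ = 1) :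
    vl (kap (circD hB) (fD hB) om) (ptP ⟨(gvg 𝒜 hB p v hv, gvg 𝒜 hB p (e v) hv'), Dp_gvg hB he hge hv hv'⟩) = 1 := by
  rw [vl_kap h2]
  obtain ⟨F, hF⟩ : ∃ F, F = cypD (circD hB) (fD hB)
    (ptP ⟨(gvg 𝒜 hB p v hv, gvg 𝒜 hB p (e v) hv'), Dp_gvg hB he hge hv hv'⟩) := ⟨_, rfl⟩
  have hFu : ∀ u, F.1 u = 𝒜.Ex p (toE (qq he v u)) := fun u => by rw [hF]; exact cyp_gvg hB he hge hv hv' u
  rw [← hF]
  have key : ∀ z : V 2, |z 1| < 1 → (tp 2 (Om.on om F) : V 2 → ℝ) z = -(pd 1 chf : V 2 → ℝ) z := by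
    intro z hz
    have hU : {u : V 2 | |u 1| < 1} ∈ 𝓝 z := by
      have h1 : Continuous fun u : V 2 => |u 1| := (continuous_apply (1 : Fin 2)).abs
      exact h1.continuousAt.eventually (gt_mem_nhds hz)
    obtain ⟨s, hs1, hs2⟩ := exists_sq z hU
    have h3 : Om.on om (F.cmp s) = pb ((qq he v).comp s) (dd n (BB e)) := by
      refine hex 2 (F.cmp s) ((qq he v).comp s) fun u => ⟨?_, hFu (s u)⟩
      show ‖toE (qq he v (s u))‖ < π
      rw [norm_qq he hv]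
      have h4 : |s u 1| < 1 := hs2 u
      nlinarith [Real.pi_pos]
    have hid : ∀ y : Fm 2, ev z (pb s y) = ev z y := by
      intro y
      rw [ev_pb, tr_of_id hs1, hs1.self_of_nhds, ExteriorAlgebra.map_id]
      rfl
    have h4 : ev z (Om.on om F) = ev z (dd 2 (fc 2 chf * dx 0)) := by
      rw [← hid (Om.on om F), ← on_cmp, h3, pb_comp, hid, ← pb_dd, pb_BB he hv]
    rw [tp_apply, h4, ← tp_apply, tp_dd_chf]
    rfl
  have hin : ∀ s : ℝ, ∫ t in (0 : ℝ)..1, (tp 2 (Om.on om F) : V 2 → ℝ) ![s, t] = -1 := by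
    intro s
    have h3 : ∫ t in (0 : ℝ)..1, (tp 2 (Om.on om F) : V 2 → ℝ) ![s, t] = ∫ t in (0 : ℝ)..1, -deriv chr t := by
      rw [intervalIntegral.integral_of_le zero_le_one, intervalIntegral.integral_of_le zero_le_one,
        integral_Ioc_eq_integral_Ioo, integral_Ioc_eq_integral_Ioo]
      refine setIntegral_congr_fun measurableSet_Ioo fun t ht => ?_
      show (tp 2 (Om.on om F) : V 2 → ℝ) ![s, t] = -deriv chr t
      rw [key ![s, t] (by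
        show |t| < 1
        rw [abs_of_pos ht.1]
        exact ht.2), pd_chf]
    rw [h3, intervalIntegral.integral_neg, intervalIntegral.integral_deriv_eq_sub]
    · unfold chr
      rw [abs_one, mul_one, abs_zero, mul_zero, chi_zero zero_le_one, chi_one (by linarith [Real.pi_gt_three]), sub_zero]
    · intro t _
      exact (contDiff_chr.differentiable (by simp)) t
    · exact (contDiff_chr.continuous_deriv (by simp)).intervalIntegrable _ _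
  simp only [hin]
  simp

theorem iD_zero (hB : Bl M) : IMap (circD (𝒜 := 𝒜) hB) ((fD hB).comp (jO (spD 𝒜) 0)) := by
  intro z s
  show (rr 𝒜 hB (2 * π * s) z.1.1 z.1.2).1 (π * 0) = z.1.1.1 (π * 0)
  rw [mul_zero, rr_foot]

theorem iD_one (hB : Bl M) : IMap (circD (𝒜 := 𝒜) hB) ((fD hB).comp (jO (spD 𝒜) 1)) := by
  intro z s
  show (rr 𝒜 hB (2 * π * s) z.1.1 z.1.2).1 (π * 1) = z.1.1.1 (π * 1)
  rw [mul_one, rr_top hB z.2]

theorem cyp_rev (hB : Bl M) {c c' : Gs M} (h : Dp 𝒜 c c') (h' : Dp 𝒜 c (rev c')) :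
    cypD (circD hB) (fD hB) (ptP ⟨(c, rev c'), h'⟩) = (cypD (circD hB) (fD hB) (ptP ⟨(c, c'), h⟩)).cmp rfl2 := by
  refine Plot_ext fun u => ?_
  show (rr 𝒜 hB (2 * π * u 0) c (rev c')).1 (π * u 1) = (rr 𝒜 hB (2 * π * (1 - u 0)) c c').1 (π * u 1)
  have h1 : 2 * π * (1 - u 0) = -(2 * π * u 0) + 2 * π := by ring
  rw [rr_rev hB h, h1, rr_per]

/-- **ORI2.** -/
theorem exists_rho (hn : 2 ≤ n) (hB : Bl M) (hk : 𝒜.HK 1) {p : M} (he : GCF e)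
    (hge : ∀ v, ‖v‖ = 1 → 𝒜.gv p (e v) π = 𝒜.gv p v π) {om : Om (spM 𝒜)} (hcl : dO _ om = 0) (h2 : Deg 2 om)
    (hex : ∀ (k : ℕ) (P : (spM 𝒜).Plot k) (q : FR.Sm k n),
      (∀ u, ‖toE (q u)‖ < π ∧ P.1 u = 𝒜.Ex p (toE (q u))) → Om.on om P = pb q (dd n (BB e))) :
    ∃ ρ, ∃ hρ : Rot 𝒜 ρ,
      (∀ (v : Eu n) (hv : ‖v‖ = 1) (θ : ℝ), (ρ θ (gvg 𝒜 hB p v hv)).1 = 𝒜.gv p (cos θ • v + sin θ • e v)) ∧
      KO _ ((rhoF hρ).pull (KO _ ((fRho hB).pull om))) = algebraMap ℝ (Om (spG 𝒜)) 1 := by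
  obtain ⟨v₀, hv₀⟩ : ∃ v : Eu n, ‖v‖ = 1 :=
    ⟨EuclideanSpace.single (⟨0, by omega⟩ : Fin n) (1 : ℝ), by rw [PiLp.norm_single, norm_one]⟩
  have hev : ∀ v : Eu n, ‖v‖ = 1 → ‖e v‖ = 1 := fun v hv => he.norm v (kc_ne hv)
  have hdeg : Deg 0 (kap (circD hB) (fD (𝒜 := 𝒜) hB) om) := Deg_kap h2
  have hd : dO _ (kap (circD hB) (fD (𝒜 := 𝒜) hB) om) = 0 := d_kap hcl (iD_zero hB) (iD_one hB)
  have hΦ : ∀ (q : (spD 𝒜).Plot 1) (s t : V 1), vl (kap (circD hB) (fD hB) om) (ptP (q.1 s)) =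
      vl (kap (circD hB) (fD hB) om) (ptP (q.1 t)) := fun q s t => vl_const hdeg hd q s t
  obtain ⟨ρ, hρ, hb, hrr⟩ := exists_rot hB hk (Φ := fun z => vl (kap (circD hB) (fD hB) om) (ptP z)) hΦ
    (fun c c' h h' => vl_kap_neg h2 (cyp_rev hB h h')) (con_spG hB hn) one_ne_zero
    (Dp_gvg hB he hge hv₀ (hev v₀ hv₀)) (base_value hB he hge h2 hex hv₀ (hev v₀ hv₀))
  refine ⟨ρ, hρ, ?_, ?_⟩
  · intro v hv θ
    rw [hrr _ _ (Dp_gvg hB he hge hv (hev v hv)) (base_value hB he hge h2 hex hv (hev v hv)), rr_gvg hB he hge hv]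
  · let j : SMap (spG 𝒜) (spD 𝒜) := ⟨fun c => ⟨(c, ρ (π / 2) c), (hb c).choose⟩, fun k q => ⟨q.2,
      SmG.comp (f := fun u : V k => (π / 2, u)) (hρ.smooth (V k) q.1 q.2) (contDiff_const.prodMk contDiff_id)⟩⟩
    have hρj : ∀ θ c, ρ θ c = rr 𝒜 hB θ c (ρ (π / 2) c) := fun θ c => hrr c _ (hb c).choose (hb c).choose_spec θ
    have e1 : (circD hB).a.comp j.up = j.comp (rhoF hρ) := by
      refine SMap_ext fun z => Subtype.ext (Prod.ext ?_ ?_)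
      · show rr 𝒜 hB (2 * π * z.2) z.1 (ρ (π / 2) z.1) = ρ (2 * π * z.2) z.1
        rw [hρj (2 * π * z.2)]
      · show rr 𝒜 hB (2 * π * z.2 + π / 2) z.1 (ρ (π / 2) z.1) = ρ (π / 2) (ρ (2 * π * z.2) z.1)
        rw [hρ.add, ← hρj, add_comm]
    have e2 : (fD hB).comp j.up = fRho hB := SMap_ext fun z => rfl
    have e3 : j.pull (kap (circD hB) (fD hB) om) = KO _ ((rhoF hρ).pull (KO _ ((fRho hB).pull om))) := by
      unfold kap b0
      rw [← K_up, ← pull_comp, e1, pull_comp, ← K_up, ← pull_comp, e2]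
    rw [← e3]
    refine eq_alg (Deg_pull j hdeg) fun k q x => ?_
    exact (hb (q.1 x)).choose_spec

end Pool.Agent.Lib.MP_ccbbf6_gt.L4.ORI
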