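import Pool.Agent.Lib.MP_ccbbf6_gt.L4.CEb
import Pool.Agent.Lib.MP_ccbbf6_gt.L4.ConG
import Pool.Agent.Lib.MP_ccbbf6_gt.L4.FUB
import Pool.Agent.Lib.MP_ccbbf6_gt.L4.OriJ
import Pool.Agent.Lib.MP_ccbbf6_gt.L4.VO2

/-!
# Level 4: inputs of the assembly
-/

set_option autoImplicit false
set_option maxSynthPendingDepth 3

open Set Filter Topology Metric Real MeasureTheory
open scoped ContDiff RealInnerProductSpace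

noncomputable section

namespace Pool.Agent.Lib.MP_ccbbf6_gt.L4

open Geo FR

variable {n : ℕ} {M : Type} [MetricSpace M] [CompactSpace M] {𝒜 : SDist n M}

/-- OMf + CEb (helper13) -/
theorem in_omega (hB : Bl M) (hK : 𝒜.HK 1) (p : M) {e : Eu n → Eu n} (he : GCF e)
    (hep : ∀ v, ‖v‖ = 1 → 𝒜.gv p (e v) π = 𝒜.gv p v π) :
    ∃ om : Om (spM 𝒜), IsOmega 𝒜 p e om ∧ ∀ (f : Gs M → ℝ → M) (hf : Fill 𝒜 f) (c : Gs M), c.1 0 = p →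
      ∃ k : ℤ, area om (discP hB hf c) = k + 1 / 2 := by
  obtain ⟨om, h1, h2, h3, h4⟩ := exists_omega hB hK p he hep
  exact ⟨om, ⟨h1, h2, h3⟩, h4⟩

/-- ORI2 (helper93) -/
theorem in_rho (hn : 2 ≤ n) (hB : Bl M) (hK : 𝒜.HK 1) (p : M) {e : Eu n → Eu n} (he : GCF e)
    (hep : ∀ v, ‖v‖ = 1 → 𝒜.gv p (e v) π = 𝒜.gv p v π) {om : Om (spM 𝒜)} (hom : IsOmega 𝒜 p e om) :
    ∃ (ρ : ℝ → Gs M → Gs M) (hρ : Rot 𝒜 ρ), (∀ (v : Eu n) (hv : ‖v‖ = 1) (θ : ℝ),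
      (ρ θ (gvg 𝒜 hB p v hv)).1 = 𝒜.gv p (cos θ • v + sin θ • e v)) ∧
      ∃ b : ℝ, |b| = 1 ∧ ar (rhoC hρ) (fRho hB) om = algebraMap ℝ (Om (spG 𝒜)) b := by
  obtain ⟨ρ, hρ, h1, h2⟩ := ORI.exists_rho hn hB hK he hep hom.closed hom.deg hom.ex
  exact ⟨ρ, hρ, h1, 1, abs_one, h2⟩

/-- VOL2 (helper44) -/
theorem in_vol [MeasurableSpace M] [BorelSpace M] (hB : Bl M) (hn : 2 ≤ n) : ∃ s : ℝ, |s| = 1 ∧
    ∀ z : M × M, 0 < dist z.1 z.2 → dist z.1 z.2 < π →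
      FW 𝒜 (dchi 𝒜 hB * (GW hB).pull (dO _ (AL hB 𝒜) ^ (n - 1) * AL hB 𝒜)) z =
        (s * ((n - 1).factorial / (2 * π) ^ n)) * (deriv chi (dist z.1 z.2) / 𝒜.J z.1 z.2) := by
  obtain ⟨m, rfl⟩ : ∃ m, n = m + 1 := ⟨n - 1, by omega⟩
  refine ⟨sn (m + 1), abs_sn _, fun z h0 h1 => ?_⟩
  have h2 : sO _ (dO _ (AL hB 𝒜) ^ (m + 1 - 1)) = dO _ (AL hB 𝒜) ^ (m + 1 - 1) := by
    rw [map_pow, Deg_even (j := 1) (Deg_d (AL_deg hB))]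
  rw [even_comm' h2]
  exact vol2 hB h0 h1

/-- helper56 -/
theorem in_con (hn : 2 ≤ n) (hB : Bl M) : Con (spG 𝒜) := con_spG hn hB

/-- helper56 -/
theorem in_dim : DimLE (spM 𝒜) n := dimLE_spM

end Pool.Agent.Lib.MP_ccbbf6_gt.L4
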