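import Pool.Agent.Lib.MP_ccbbf6_gt.ML

/-!
# Level 4, CEa: lifts of maps to the space of complex lines and the integral of the curvature form (helper13)

`Line P z`: `P` is the orthogonal projection on the complex line of the unit vector `z`.
-/

set_option autoImplicit false

open Set Filter Topology Metric Real MeasureTheory
open scoped ContDiff ComplexConjugate

noncomputable section

namespace Pool.Agent.Lib.MP_ccbbf6_gt.L4

variable {E : Type*} [NormedAddCommGroup E] [InnerProductSpace ℂ E]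


/-- `P` is the projection on the line of the unit vector `z` -/
def Line (P : E →L[ℝ] E) (z : E) : Prop := ‖z‖ = 1 ∧ ∀ w, P w = (inner ℂ z w) • z

theorem inner_self_one {z : E} (h : ‖z‖ = 1) : (inner ℂ z z) = 1 := by
  rw [inner_self_eq_norm_sq_to_K, h]
  simp

theorem Line.self {P : E →L[ℝ] E} {z : E} (h : Line P z) : P z = z := by
  rw [h.2, inner_self_one h.1, one_smul]

theorem Line.of_fix {P : E →L[ℝ] E} {z y : E} (h : Line P z) (hy : ‖y‖ = 1) (hP : P y = y) : Line P y := by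
  refine ⟨hy, fun w => ?_⟩
  have h1 : y = (inner ℂ z y) • z := by
    have := h.2 y
    rwa [hP] at this
  have h2 : conj ((inner ℂ z y)) * (inner ℂ z y) = 1 := by
    have h3 := inner_self_one hy
    conv_lhs at h3 => rw [h1]
    rw [inner_smul_left, inner_smul_right, inner_self_one h.1, mul_one] at h3
    exact h3
  rw [h.2 w]
  conv_rhs => rw [h1]
  rw [inner_smul_left, smul_smul]
  congr 1
  calc (inner ℂ z w) = (conj ((inner ℂ z y)) * (inner ℂ z y)) * (inner ℂ z w) := by rw [h2, one_mul]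
    _ = _ := by ring

theorem Line.eq_smul {P : E →L[ℝ] E} {z y : E} (h : Line P z) (hy : Line P y) : y = (inner ℂ z y) • z := by
  have h1 := h.2 y
  rwa [hy.self] at h1

theorem Line.norm_inner {P : E →L[ℝ] E} {z y : E} (h : Line P z) (hy : Line P y) : ‖(inner ℂ z y)‖ = 1 := by
  have h1 := congrArg norm (h.eq_smul hy)
  rw [norm_smul, hy.1, h.1, mul_one] at h1
  exact h1.symm

/-- normalised projection -/
theorem Line.normalize {P : E →L[ℝ] E} {z y : E} (h : Line P z) (hy : P y ≠ 0) : Line P (‖P y‖⁻¹ • P y) := by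
  refine h.of_fix ?_ ?_
  · rw [norm_smul, norm_inv, norm_norm, inv_mul_cancel₀ (norm_ne_zero_iff.mpr hy)]
  · rw [map_smul]
    congr 1
    rw [h.2 y, h.2 ((inner ℂ z y) • z), inner_smul_right, inner_self_one h.1, mul_one]

/-! ## calculus -/

section Calculus

variable {G : Type*} [NormedAddCommGroup G] [NormedSpace ℝ G]

/-- for a family of unit vectors `Re ⟪z, ∂z⟫ = 0` -/
theorem re_inner_fderiv {z : G → E} {x : G} (hz : DifferentiableAt ℝ z x) (h1 : ∀ᶠ y in 𝓝 x, ‖z y‖ = 1) (v : G) :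
    ((inner ℂ (z x) (fderiv ℝ z x v))).re = 0 := by
  have h2 : HasFDerivAt (fun y => (inner ℂ (z y) (z y))) (0 : G →L[ℝ] ℂ) x := by
    refine (hasFDerivAt_const (1 : ℂ) x).congr_of_eventuallyEq ?_
    filter_upwards [h1] with y hy
    exact inner_self_one hy
  have h3 := (hz.hasFDerivAt.inner ℂ hz.hasFDerivAt).unique h2
  have h4 := congrArg (fun L : G →L[ℝ] ℂ => L v) h3
  simp only [ContinuousLinearMap.comp_apply, ContinuousLinearMap.prod_apply, fderivInnerCLM_apply,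
    _root_.zero_apply] at h4
  have h5 := congrArg Complex.re h4
  rw [Complex.add_re, ← inner_conj_symm (fderiv ℝ z x v) (z x), Complex.conj_re, Complex.zero_re] at h5
  linarith

/-- derivative of `Im ⟪z, ∂_b z⟫` -/
theorem fderiv_im_inner {z : G → E} {x : G} (hz : ContDiffAt ℝ ∞ z x) (a b : G) :
    fderiv ℝ (fun y => ((inner ℂ (z y) (fderiv ℝ z y b))).im) x a =
      ((inner ℂ (z x) (fderiv ℝ (fderiv ℝ z) x a b))).im + ((inner ℂ (fderiv ℝ z x a) (fderiv ℝ z x b))).im := by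
  have hz1 : HasFDerivAt z (fderiv ℝ z x) x := (hz.differentiableAt (by simp)).hasFDerivAt
  have hz2 : HasFDerivAt (fderiv ℝ z) (fderiv ℝ (fderiv ℝ z) x) x :=
    ((hz.fderiv_right (m := ∞) (by simp)).differentiableAt (by simp)).hasFDerivAt
  have hz3 : HasFDerivAt (fun y => fderiv ℝ z y b) ((fderiv ℝ (fderiv ℝ z) x).flip b) x := by
    have := hz2.clm_apply (hasFDerivAt_const b x)
    simpa using this
  have h1 := Complex.imCLM.hasFDerivAt.comp x (hz1.inner ℂ hz3)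
  have h2 : HasFDerivAt (fun y => ((inner ℂ (z y) (fderiv ℝ z y b))).im) _ x := h1
  rw [h2.fderiv]
  simp only [ContinuousLinearMap.comp_apply, ContinuousLinearMap.prod_apply, fderivInnerCLM_apply,
    ContinuousLinearMap.flip_apply, Complex.imCLM_apply, Complex.add_im]

theorem curl_im_inner {z : G → E} {x : G} (hz : ContDiffAt ℝ ∞ z x) (a b : G) :
    fderiv ℝ (fun y => ((inner ℂ (z y) (fderiv ℝ z y b))).im) x a - fderiv ℝ (fun y => ((inner ℂ (z y) (fderiv ℝ z y a))).im) x b =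
      2 * ((inner ℂ (fderiv ℝ z x a) (fderiv ℝ z x b))).im := by
  rw [fderiv_im_inner hz, fderiv_im_inner hz]
  have hsym : fderiv ℝ (fderiv ℝ z) x a b = fderiv ℝ (fderiv ℝ z) x b a :=
    ((hz.of_le (m := 2) (WithTop.coe_le_coe.2 le_top)).isSymmSndFDerivAt (by simp)).eq a b
  rw [hsym, ← inner_conj_symm (fderiv ℝ z x b) (fderiv ℝ z x a), Complex.conj_im]
  ring

/-- the curvature in terms of the projections and of a lift -/
theorem im_inner_proj {F : G → E →L[ℝ] E} {z : G → E} {x : G} (hF : DifferentiableAt ℝ F x)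
    (hz : DifferentiableAt ℝ z x) (hL : ∀ᶠ y in 𝓝 x, Line (F y) (z y)) (a b : G) :
    ((inner ℂ (fderiv ℝ F x a (z x)) (fderiv ℝ F x b (z x)))).im = ((inner ℂ (fderiv ℝ z x a) (fderiv ℝ z x b))).im := by
  have hx := hL.self_of_nhds
  have hre := re_inner_fderiv hz (hL.mono fun y hy => hy.1)
  have h1 : ∀ v, fderiv ℝ F x v (z x) = fderiv ℝ z x v - (inner ℂ (z x) (fderiv ℝ z x v)) • z x := by
    intro v
    have h2 : HasFDerivAt (fun y => F y (z y)) _ x := hF.hasFDerivAt.clm_apply hz.hasFDerivAt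
    have h3 : HasFDerivAt (fun y => F y (z y)) (fderiv ℝ z x) x := by
      refine hz.hasFDerivAt.congr_of_eventuallyEq ?_
      filter_upwards [hL] with y hy
      exact hy.self
    have h4 := congrArg (fun L : G →L[ℝ] E => L v) (h2.unique h3)
    simp only [_root_.add_apply, ContinuousLinearMap.comp_apply, ContinuousLinearMap.flip_apply] at h4
    rw [hx.2] at h4
    rw [eq_sub_iff_add_eq']
    exact h4
  rw [h1, h1]
  have e1 := hre a
  have e2 := hre b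
  have h0 := inner_self_one hx.1
  have hα' : (inner ℂ (fderiv ℝ z x a) (z x)) = conj ((inner ℂ (z x) (fderiv ℝ z x a))) := by rw [inner_conj_symm]
  rw [inner_sub_left, inner_sub_right, inner_sub_right, inner_smul_left, inner_smul_left, inner_smul_right,
    inner_smul_right, h0, hα']
  simp only [Complex.sub_im, Complex.mul_im, Complex.mul_re, Complex.conj_re, Complex.conj_im, e1, e2, Complex.one_im,
    Complex.one_re]
  ring

end Calculus

/-! ## one strip -/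

section Strip

variable {F : ℝ × ℝ → E →L[ℝ] E} {Ω : ℝ × ℝ → ℝ}

/-- the density of the curvature form is `Ω` -/
def IsDens (F : ℝ × ℝ → E →L[ℝ] E) (Ω : ℝ × ℝ → ℝ) : Prop :=
  ∀ x z, Line (F x) z → Ω x = (1 / π) * ((inner ℂ (fderiv ℝ F x (1, 0) z) (fderiv ℝ F x (0, 1) z))).im

theorem contDiffAt_im_inner {G : Type*} [NormedAddCommGroup G] [NormedSpace ℝ G] {z : G → E} {x : G}
    (hz : ContDiffAt ℝ ∞ z x) (b : G) : ContDiffAt ℝ ∞ (fun y => ((inner ℂ (z y) (fderiv ℝ z y b))).im) x := by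
  have h1 : ContDiffAt ℝ ∞ (fun y => fderiv ℝ z y b) x := (hz.fderiv_right (m := ∞) (by simp)).clm_apply contDiffAt_const
  exact Complex.imCLM.contDiff.contDiffAt.comp x (hz.inner ℂ h1)

theorem strip (hF : ContDiff ℝ ∞ F) (hI : ∀ x, ∃ z, Line (F x) z) (hΩc : Continuous Ω) (hΩ : IsDens F Ω)
    {T s₀ s₁ : ℝ} (hper : ∀ θ s, F (θ + T, s) = F (θ, s)) {z₀ : ℝ → E}
    (hz₀ : ContDiff ℝ ∞ z₀) (hL : ∀ θ, Line (F (θ, s₀)) (z₀ θ)) (hp : ∀ θ, z₀ (θ + T) = z₀ θ)
    (hne : ∀ θ, ∀ s ∈ uIcc s₀ s₁, F (θ, s) (z₀ θ) ≠ 0) :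
    ∃ z₁ : ℝ → E, ContDiff ℝ ∞ z₁ ∧ (∀ θ, Line (F (θ, s₁)) (z₁ θ)) ∧ (∀ θ, z₁ (θ + T) = z₁ θ) ∧
      ∫ θ in (0 : ℝ)..T, ∫ s in s₀..s₁, Ω (θ, s) =
        (1 / (2 * π)) * ((∫ θ in (0 : ℝ)..T, ((inner ℂ (z₀ θ) (deriv z₀ θ))).im) - ∫ θ in (0 : ℝ)..T, ((inner ℂ (z₁ θ) (deriv z₁ θ))).im) := by
  obtain ⟨W, hW⟩ : ∃ W : ℝ × ℝ → E, W = fun x => F x (z₀ x.1) := ⟨_, rfl⟩
  obtain ⟨Z, hZ⟩ : ∃ Z : ℝ × ℝ → E, Z = fun x => ‖W x‖⁻¹ • W x := ⟨_, rfl⟩
  have hWc : ContDiff ℝ ∞ W := by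
    rw [hW]
    exact hF.clm_apply (hz₀.comp contDiff_fst)
  have hZat : ∀ x, W x ≠ 0 → ContDiffAt ℝ ∞ Z x := by
    intro x hx
    rw [hZ]
    exact ((hWc.contDiffAt.norm ℂ hx).inv (norm_ne_zero_iff.mpr hx)).smul hWc.contDiffAt
  have hZL : ∀ x, W x ≠ 0 → Line (F x) (Z x) := by
    intro x hx
    obtain ⟨z, hz⟩ := hI x
    rw [hZ]
    rw [hW] at hx ⊢
    exact hz.normalize hx
  have hZev : ∀ x, W x ≠ 0 → ∀ᶠ y in 𝓝 x, Line (F y) (Z y) := by
    intro x hx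
    filter_upwards [hWc.continuous.continuousAt.eventually_ne hx] with y hy
    exact hZL y hy
  have hWne : ∀ x : ℝ × ℝ, x.2 ∈ uIcc s₀ s₁ → W x ≠ 0 := by
    intro x hx
    rw [hW]
    exact hne x.1 x.2 hx
  have hWper : ∀ θ s, W (θ + T, s) = W (θ, s) := by
    intro θ s
    rw [hW]
    show F (θ + T, s) (z₀ (θ + T)) = F (θ, s) (z₀ θ)
    rw [hper, hp]
  have hZper : ∀ θ s, Z (θ + T, s) = Z (θ, s) := by
    intro θ s
    rw [hZ]
    show ‖W (θ + T, s)‖⁻¹ • W (θ + T, s) = ‖W (θ, s)‖⁻¹ • W (θ, s)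
    rw [hWper]
  have hZ0 : ∀ θ, Z (θ, s₀) = z₀ θ := by
    intro θ
    have h1 : W (θ, s₀) = z₀ θ := by
      rw [hW]
      exact (hL θ).self
    rw [hZ]
    show ‖W (θ, s₀)‖⁻¹ • W (θ, s₀) = z₀ θ
    rw [h1, (hL θ).1, inv_one, one_smul]
  -- the coefficients
  obtain ⟨f, hf⟩ : ∃ f : ℝ × ℝ → ℝ, f = fun y => (1 / (2 * π)) * ((inner ℂ (Z y) (fderiv ℝ Z y (0, 1)))).im := ⟨_, rfl⟩
  obtain ⟨g, hg⟩ : ∃ g : ℝ × ℝ → ℝ, g = fun y => -((1 / (2 * π)) * ((inner ℂ (Z y) (fderiv ℝ Z y (1, 0)))).im) := ⟨_, rfl⟩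
  have hfat : ∀ x, W x ≠ 0 → ContDiffAt ℝ ∞ f x := by
    intro x hx
    rw [hf]
    exact contDiffAt_const.mul (contDiffAt_im_inner (hZat x hx) _)
  have hgat : ∀ x, W x ≠ 0 → ContDiffAt ℝ ∞ g x := by
    intro x hx
    rw [hg]
    exact (contDiffAt_const.mul (contDiffAt_im_inner (hZat x hx) _)).neg
  have hcurl : ∀ x, W x ≠ 0 → fderiv ℝ f x (1, 0) + fderiv ℝ g x (0, 1) = Ω x := by
    intro x hx
    have hZx := hZat x hx
    have e1 : fderiv ℝ f x (1, 0) = (1 / (2 * π)) * fderiv ℝ (fun y => ((inner ℂ (Z y) (fderiv ℝ Z y (0, 1)))).im) x (1, 0) := by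
      rw [hf, fderiv_const_mul ((contDiffAt_im_inner hZx _).differentiableAt (by simp))]
      rfl
    have e2 : fderiv ℝ g x (0, 1) = -((1 / (2 * π)) * fderiv ℝ (fun y => ((inner ℂ (Z y) (fderiv ℝ Z y (1, 0)))).im) x (0, 1)) := by
      rw [hg, fderiv_fun_neg, fderiv_const_mul ((contDiffAt_im_inner hZx _).differentiableAt (by simp))]
      rfl
    have e3 := curl_im_inner hZx ((1, 0) : ℝ × ℝ) (0, 1)
    have e4 := im_inner_proj (hF.contDiffAt.differentiableAt (by simp)) (hZx.differentiableAt (by simp)) (hZev x hx)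
      ((1, 0) : ℝ × ℝ) (0, 1)
    rw [e1, e2, hΩ x (Z x) (hZL x hx), e4]
    have : (1 / (2 * π)) * fderiv ℝ (fun y => ((inner ℂ (Z y) (fderiv ℝ Z y (0, 1)))).im) x (1, 0) +
        -((1 / (2 * π)) * fderiv ℝ (fun y => ((inner ℂ (Z y) (fderiv ℝ Z y (1, 0)))).im) x (0, 1)) =
        (1 / (2 * π)) * (fderiv ℝ (fun y => ((inner ℂ (Z y) (fderiv ℝ Z y (0, 1)))).im) x (1, 0) -
          fderiv ℝ (fun y => ((inner ℂ (Z y) (fderiv ℝ Z y (1, 0)))).im) x (0, 1)) := by ring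
    rw [this, e3]
    field_simp
  have hrect : ∀ x ∈ uIcc 0 T ×ˢ uIcc s₀ s₁, W x ≠ 0 := fun x hx => hWne x hx.2
  have hin : ∀ x ∈ Ioo (min 0 T) (max 0 T) ×ˢ Ioo (min s₀ s₁) (max s₀ s₁), W x ≠ 0 := by
    intro x hx
    refine hWne x ?_
    rw [uIcc]
    exact Ioo_subset_Icc_self hx.2
  have hdiv := integral2_divergence_prod_of_hasFDerivAt f g (fderiv ℝ f) (fderiv ℝ g) 0 s₀ T s₁
    (fun x hx => (hfat x (hrect x hx)).continuousAt.continuousWithinAt)
    (fun x hx => (hgat x (hrect x hx)).continuousAt.continuousWithinAt)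
    (fun x hx => ((hfat x (hin x hx)).differentiableAt (by simp)).hasFDerivAt)
    (fun x hx => ((hgat x (hin x hx)).differentiableAt (by simp)).hasFDerivAt) (by
      have h1 : IntegrableOn Ω (uIcc 0 T ×ˢ uIcc s₀ s₁) :=
        hΩc.continuousOn.integrableOn_compact (isCompact_uIcc.prod isCompact_uIcc)
      refine h1.congr_fun (fun x hx => (hcurl x (hrect x hx)).symm) (measurableSet_uIcc.prod measurableSet_uIcc))
  have hper' : ∀ θ s, fderiv ℝ Z (θ + T, s) = fderiv ℝ Z (θ, s) := by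
    intro θ s
    have h1 : Z = fun x => Z (x + (T, 0)) := by
      funext x
      obtain ⟨a, b⟩ := x
      show Z (a, b) = Z (a + T, b + 0)
      rw [add_zero, hZper]
    conv_rhs => rw [h1]
    rw [fderiv_comp_add_right]
    congr 1
    ext <;> simp
  have hfper : ∀ s, f (T, s) = f (0, s) := by
    intro s
    rw [hf]
    show (1 / (2 * π)) * ((inner ℂ (Z (T, s)) (fderiv ℝ Z (T, s) (0, 1)))).im = (1 / (2 * π)) * ((inner ℂ (Z (0, s)) (fderiv ℝ Z (0, s) (0, 1)))).im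
    have h1 := hZper 0 s
    have h2 := hper' 0 s
    rw [zero_add] at h1 h2
    rw [h1, h2]
  -- the edges
  have hedge : ∀ s ∈ uIcc s₀ s₁, ∀ θ, g (θ, s) = -((1 / (2 * π)) * ((inner ℂ (Z (θ, s)) (deriv (fun θ => Z (θ, s)) θ))).im) := by
    intro s hs θ
    have h1 : HasDerivAt (fun θ => Z (θ, s)) (fderiv ℝ Z (θ, s) (1, 0)) θ := by
      have h2 := ((hZat (θ, s) (hWne _ hs)).differentiableAt (by simp)).hasFDerivAt
      have h3 : HasDerivAt (fun θ : ℝ => (θ, s)) (1, 0) θ := (hasDerivAt_id θ).prodMk (hasDerivAt_const θ s)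
      exact h2.comp_hasDerivAt θ h3
    rw [hg, h1.deriv]
  refine ⟨fun θ => Z (θ, s₁), ?_, fun θ => hZL _ (hWne _ right_mem_uIcc), fun θ => hZper θ s₁, ?_⟩
  · rw [contDiff_iff_contDiffAt]
    intro θ
    exact (hZat (θ, s₁) (hWne _ right_mem_uIcc)).comp θ (contDiffAt_id.prodMk contDiffAt_const)
  · have h1 : ∫ θ in (0 : ℝ)..T, ∫ s in s₀..s₁, Ω (θ, s) =
        ∫ θ in (0 : ℝ)..T, ∫ s in s₀..s₁, fderiv ℝ f (θ, s) (1, 0) + fderiv ℝ g (θ, s) (0, 1) := by
      refine intervalIntegral.integral_congr fun θ _ => ?_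
      refine intervalIntegral.integral_congr fun s hs => ?_
      exact (hcurl (θ, s) (hWne _ hs)).symm
    have h2 : ∫ θ in (0 : ℝ)..T, g (θ, s₁) =
        -((1 / (2 * π)) * ∫ θ in (0 : ℝ)..T, ((inner ℂ (Z (θ, s₁)) (deriv (fun θ => Z (θ, s₁)) θ))).im) := by
      rw [← intervalIntegral.integral_const_mul, ← intervalIntegral.integral_neg]
      exact intervalIntegral.integral_congr fun θ _ => hedge s₁ right_mem_uIcc θ
    have h3 : ∫ θ in (0 : ℝ)..T, g (θ, s₀) = -((1 / (2 * π)) * ∫ θ in (0 : ℝ)..T, ((inner ℂ (z₀ θ) (deriv z₀ θ))).im) := by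
      rw [← intervalIntegral.integral_const_mul, ← intervalIntegral.integral_neg]
      refine intervalIntegral.integral_congr fun θ _ => ?_
      have h4 := hedge s₀ left_mem_uIcc θ
      have h5 : (fun θ => Z (θ, s₀)) = z₀ := funext hZ0
      rw [h5, hZ0] at h4
      exact h4
    have h4 : ∫ s in s₀..s₁, f (T, s) = ∫ s in s₀..s₁, f (0, s) :=
      intervalIntegral.integral_congr fun s _ => hfper s
    rw [h1, hdiv, h2, h3, h4]
    ring

/-- Lemma L: a cylinder with a constant end -/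
theorem cylinder (hF : ContDiff ℝ ∞ F) (hI : ∀ x, ∃ z, Line (F x) z) (hΩc : Continuous Ω) (hΩ : IsDens F Ω)
    {T S : ℝ} (hT : 0 < T) (hS : 0 ≤ S) (hper : ∀ θ s, F (θ + T, s) = F (θ, s)) (hconst : ∀ θ, F (θ, 0) = F (0, 0)) :
    ∃ z : ℝ → E, ContDiff ℝ ∞ z ∧ (∀ θ, Line (F (θ, S)) (z θ)) ∧ (∀ θ, z (θ + T) = z θ) ∧
      ∫ θ in (0 : ℝ)..T, ∫ s in (0 : ℝ)..S, Ω (θ, s) = -((1 / (2 * π)) * ∫ θ in (0 : ℝ)..T, ((inner ℂ (z θ) (deriv z θ))).im) := by
  -- uniform continuity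
  obtain ⟨δ, hδ, hu⟩ : ∃ δ : ℝ, 0 < δ ∧ ∀ θ : ℝ, ∀ s ∈ Icc 0 S, ∀ s' ∈ Icc 0 S, |s - s'| < δ →
      ‖F (θ, s) - F (θ, s')‖ < 1 := by
    have hK : IsCompact (Icc (0 : ℝ) T ×ˢ Icc (0 : ℝ) S) := isCompact_Icc.prod isCompact_Icc
    have h1 := hK.uniformContinuousOn_of_continuous hF.continuous.continuousOn
    rw [Metric.uniformContinuousOn_iff] at h1
    obtain ⟨δ, hδ, h2⟩ := h1 1 one_pos
    refine ⟨δ, hδ, fun θ s hs s' hs' hss => ?_⟩
    have hP : Function.Periodic (fun θ : ℝ => fun s : ℝ => F (θ, s)) T := by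
      intro θ
      funext s
      exact hper θ s
    obtain ⟨y, hy, hyθ⟩ := hP.exists_mem_Ico₀ hT θ
    have e1 : F (θ, s) = F (y, s) := congrFun hyθ s
    have e2 : F (θ, s') = F (y, s') := congrFun hyθ s'
    rw [e1, e2, ← dist_eq_norm]
    refine h2 (y, s) ⟨Ico_subset_Icc_self hy, hs⟩ (y, s') ⟨Ico_subset_Icc_self hy, hs'⟩ ?_
    rw [Prod.dist_eq, dist_self, Real.dist_eq]
    exact max_lt hδ hss
  obtain ⟨N, hN⟩ := exists_nat_gt (S / δ)
  have hN0 : 0 < (N : ℝ) := lt_of_le_of_lt (div_nonneg hS hδ.le) hN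
  have hstep : S / N < δ := by
    rw [div_lt_iff₀ hδ] at hN
    rw [div_lt_iff₀ hN0]
    linarith
  have hcont : ∀ a b : ℝ, Continuous fun θ : ℝ => ∫ s in a..b, Ω (θ, s) := fun a b =>
    intervalIntegral.continuous_parametric_intervalIntegral_of_continuous' (f := fun θ s => Ω (θ, s)) hΩc a b
  have key : ∀ k : ℕ, k ≤ N → ∃ z : ℝ → E, ContDiff ℝ ∞ z ∧ (∀ θ, Line (F (θ, k * (S / N))) (z θ)) ∧
      (∀ θ, z (θ + T) = z θ) ∧ ∫ θ in (0 : ℝ)..T, ∫ s in (0 : ℝ)..(k * (S / N)), Ω (θ, s) =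
        -((1 / (2 * π)) * ∫ θ in (0 : ℝ)..T, ((inner ℂ (z θ) (deriv z θ))).im) := by
    intro k
    induction k with
    | zero =>
      intro _
      obtain ⟨z, hz⟩ := hI (0, 0)
      refine ⟨fun _ => z, contDiff_const, fun θ => ?_, fun _ => rfl, ?_⟩
      · rw [Nat.cast_zero, zero_mul, hconst]
        exact hz
      · rw [Nat.cast_zero, zero_mul]
        simp
    | succ k ih =>
      intro hk
      obtain ⟨z, hz1, hz2, hz3, hz4⟩ := ih (by omega)
      have hSN : 0 ≤ S / N := div_nonneg hS hN0.le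
      have hkN : ((k : ℝ) + 1) * (S / N) ≤ S := by
        have h1 : ((k : ℝ) + 1) ≤ N := by exact_mod_cast hk
        calc ((k : ℝ) + 1) * (S / N) ≤ N * (S / N) := mul_le_mul_of_nonneg_right h1 hSN
          _ = S := by field_simp
      have hle : (k : ℝ) * (S / N) ≤ ((k : ℝ) + 1) * (S / N) := by nlinarith
      have h0k : 0 ≤ (k : ℝ) * (S / N) := by positivity
      have hcast : ((k + 1 : ℕ) : ℝ) = (k : ℝ) + 1 := by push_cast; ring
      rw [hcast]
      obtain ⟨z', h1, h2, h3, h4⟩ := strip hF hI hΩc hΩ (s₀ := (k : ℝ) * (S / N)) (s₁ := ((k : ℝ) + 1) * (S / N)) hper hz1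
        hz2 hz3 (fun θ s hs h0 => by
          rw [uIcc_of_le hle] at hs
          have hs1 : s ∈ Icc 0 S := ⟨h0k.trans hs.1, hs.2.trans hkN⟩
          have hs2 : (k : ℝ) * (S / N) ∈ Icc 0 S := ⟨h0k, hle.trans hkN⟩
          have h5 := hu θ _ hs2 s hs1 (by
            rw [abs_sub_comm, abs_of_nonneg (by linarith [hs.1])]
            calc s - k * (S / N) ≤ ((k : ℝ) + 1) * (S / N) - k * (S / N) := by linarith [hs.2]
              _ = S / N := by ring
              _ < δ := hstep)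
          have h6 := (F (θ, (k : ℝ) * (S / N)) - F (θ, s)).le_opNorm (z θ)
          rw [_root_.sub_apply, h0, sub_zero, (hz2 θ).self, (hz2 θ).1, mul_one] at h6
          linarith)
      refine ⟨z', h1, h2, h3, ?_⟩
      have h5 : ∫ θ in (0 : ℝ)..T, ∫ s in (0 : ℝ)..(((k : ℝ) + 1) * (S / N)), Ω (θ, s) =
          (∫ θ in (0 : ℝ)..T, ∫ s in (0 : ℝ)..(k * (S / N)), Ω (θ, s)) +
            ∫ θ in (0 : ℝ)..T, ∫ s in (k * (S / N))..(((k : ℝ) + 1) * (S / N)), Ω (θ, s) := by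
        rw [← intervalIntegral.integral_add ((hcont _ _).intervalIntegrable _ _) ((hcont _ _).intervalIntegrable _ _)]
        refine intervalIntegral.integral_congr fun θ _ => ?_
        have hc : Continuous fun s : ℝ => Ω (θ, s) := hΩc.comp (by fun_prop)
        exact (intervalIntegral.integral_add_adjacent_intervals (hc.intervalIntegrable _ _)
          (hc.intervalIntegrable _ _)).symm
      rw [h5, hz4, h4]
      ring
  obtain ⟨z, h1, h2, h3, h4⟩ := key N le_rfl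
  have e : (N : ℝ) * (S / N) = S := by field_simp
  rw [e] at h2 h4
  exact ⟨z, h1, h2, h3, h4⟩

/-- the ratio of two lifts -/
theorem ratio {P : ℝ → E →L[ℝ] E} {y z : ℝ → E} (hy : ContDiff ℝ ∞ y) (hz : ContDiff ℝ ∞ z) {T : ℝ} (hT : 0 ≤ T)
    (hyL : ∀ θ ∈ Icc 0 T, Line (P θ) (y θ)) (hzL : ∀ θ ∈ Icc 0 T, Line (P θ) (z θ)) :
    (inner ℂ (y T) (z T)) = (inner ℂ (y 0) (z 0)) * Complex.exp (Complex.I * (∫ θ in (0 : ℝ)..T,
      (((inner ℂ (z θ) (deriv z θ))).im - ((inner ℂ (y θ) (deriv y θ))).im) : ℝ)) := by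
  obtain ⟨u, hu⟩ : ∃ u : ℝ → ℝ, u = fun θ => ((inner ℂ (z θ) (deriv z θ))).im - ((inner ℂ (y θ) (deriv y θ))).im := ⟨_, rfl⟩
  have hyd : ∀ θ, HasDerivAt y (deriv y θ) θ := fun θ => (hy.differentiable (by simp) θ).hasDerivAt
  have hzd : ∀ θ, HasDerivAt z (deriv z θ) θ := fun θ => (hz.differentiable (by simp) θ).hasDerivAt
  have hyc : Continuous (deriv y) := hy.continuous_deriv (by simp)
  have hzc : Continuous (deriv z) := hz.continuous_deriv (by simp)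
  have huc : Continuous u := by
    rw [hu]
    exact (Complex.continuous_im.comp (hz.continuous.inner hzc)).sub (Complex.continuous_im.comp (hy.continuous.inner hyc))
  obtain ⟨U, hU⟩ : ∃ U : ℝ → ℝ, U = fun θ => ∫ t in (0 : ℝ)..θ, u t := ⟨_, rfl⟩
  have hUd : ∀ θ, HasDerivAt U (u θ) θ := by
    intro θ
    rw [hU]
    exact intervalIntegral.integral_hasDerivAt_right (huc.intervalIntegrable _ _)
      (huc.stronglyMeasurableAtFilter _ _) huc.continuousAt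
  obtain ⟨h, hh⟩ : ∃ h : ℝ → ℂ, h = fun θ => (inner ℂ (y θ) (z θ)) * Complex.exp (-(Complex.I * (U θ : ℂ))) := ⟨_, rfl⟩
  have hre : ∀ {w : ℝ → E}, ContDiff ℝ ∞ w → (∀ t ∈ Icc 0 T, ‖w t‖ = 1) → ∀ θ ∈ Ico 0 T,
      ((inner ℂ (w θ) (deriv w θ))).re = 0 := by
    intro w hw hw1 θ hθ
    have hT0 : (0 : ℝ) ≠ T := (lt_of_le_of_lt hθ.1 hθ.2).ne
    have hRc : Continuous fun t => ((inner ℂ (w t) (deriv w t))).re :=
      Complex.continuous_re.comp (hw.continuous.inner (hw.continuous_deriv (by simp)))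
    have h4 : Ioo 0 T ⊆ {t | ((inner ℂ (w t) (deriv w t))).re = 0} := by
      intro t ht
      have h5 := re_inner_fderiv (z := w) (x := t) (hw.differentiable (by simp) t) (by
        filter_upwards [Icc_mem_nhds ht.1 ht.2] with t' ht'
        exact hw1 t' ht') 1
      rwa [fderiv_eq_smul_deriv, one_smul] at h5
    have h5 := (isClosed_eq hRc continuous_const).closure_subset_iff.mpr h4
    rw [closure_Ioo hT0] at h5
    exact h5 ⟨hθ.1, hθ.2.le⟩
  have hhd : ∀ θ ∈ Ico 0 T, HasDerivAt h 0 θ := by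
    intro θ hθ
    have hθ' : θ ∈ Icc 0 T := ⟨hθ.1, hθ.2.le⟩
    have hyθ := hyL θ hθ'
    have hzθ := hzL θ hθ'
    have h1 : HasDerivAt (fun θ => (inner ℂ (y θ) (z θ))) ((inner ℂ (y θ) (deriv z θ)) + (inner ℂ (deriv y θ) (z θ))) θ := (hyd θ).inner ℂ (hzd θ)
    have h2 : HasDerivAt (fun θ => Complex.exp (-(Complex.I * (U θ : ℂ))))
        (Complex.exp (-(Complex.I * (U θ : ℂ))) * (-(Complex.I * (u θ : ℂ)))) θ :=
      (((hUd θ).ofReal_comp.const_mul Complex.I).neg).cexp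
    have h3 := h1.mul h2
    rw [hh]
    refine h3.congr_deriv ?_
    -- `z = g y`
    have g1 : ‖(inner ℂ (y θ) (z θ))‖ = 1 := hyθ.norm_inner hzθ
    have g2 := hyθ.eq_smul hzθ
    have hy0 := hre hy (fun t ht => (hyL t ht).1) θ hθ
    have hz0 := hre hz (fun t ht => (hzL t ht).1) θ hθ
    obtain ⟨g, hg⟩ : ∃ g, g = (inner ℂ (y θ) (z θ)) := ⟨_, rfl⟩
    rw [← hg] at g1 g2
    have hgg : g * conj g = 1 := by
      rw [Complex.mul_conj, Complex.normSq_eq_norm_sq, g1]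
      simp
    have e1 : (inner ℂ (deriv y θ) (z θ)) = g * conj ((inner ℂ (y θ) (deriv y θ))) := by
      rw [g2, inner_smul_right, inner_conj_symm]
    have e2 : (inner ℂ (y θ) (deriv z θ)) = g * (inner ℂ (z θ) (deriv z θ)) := by
      have : (inner ℂ (z θ) (deriv z θ)) = conj g * (inner ℂ (y θ) (deriv z θ)) := by
        conv_lhs => rw [g2]
        rw [inner_smul_left]
      rw [this, ← mul_assoc, hgg, one_mul]
    have e3 : (inner ℂ (y θ) (deriv y θ)) = Complex.I * (((inner ℂ (y θ) (deriv y θ))).im : ℂ) := by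
      apply Complex.ext <;> simp [hy0]
    have e4 : (inner ℂ (z θ) (deriv z θ)) = Complex.I * (((inner ℂ (z θ) (deriv z θ))).im : ℂ) := by
      apply Complex.ext <;> simp [hz0]
    have e5 : (inner ℂ (y θ) (deriv z θ)) + (inner ℂ (deriv y θ) (z θ)) = g * (Complex.I * (u θ : ℂ)) := by
      rw [e1, e2, e4, e3, hu]
      simp only [map_mul, Complex.conj_I, Complex.conj_ofReal]
      push_cast
      ring
    rw [e5, ← hg]
    ring
  have hhc : Continuous h := by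
    rw [hh]
    have hUc : Continuous U := continuous_iff_continuousAt.2 fun θ => (hUd θ).continuousAt
    exact (hy.continuous.inner hz.continuous).mul
      (Complex.continuous_exp.comp (continuous_const.mul (Complex.continuous_ofReal.comp hUc)).neg)
  have hconst : h T = h 0 := by
    exact constant_of_has_deriv_right_zero hhc.continuousOn (fun x hx => (hhd x hx).hasDerivWithinAt) T ⟨hT, le_rfl⟩
  have hU0 : U 0 = 0 := by
    rw [hU]
    simp
  rw [hh] at hconst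
  simp only [hU0] at hconst
  have hUT : (∫ θ in (0 : ℝ)..T, (((inner ℂ (z θ) (deriv z θ))).im - ((inner ℂ (y θ) (deriv y θ))).im) : ℝ) = U T := by
    rw [hU, hu]
  rw [hUT]
  have h5 : (inner ℂ (y T) (z T)) = ((inner ℂ (y T) (z T)) * Complex.exp (-(Complex.I * (U T : ℂ)))) * Complex.exp (Complex.I * (U T : ℂ)) := by
    rw [mul_assoc, ← Complex.exp_add, neg_add_cancel, Complex.exp_zero, mul_one]
  rw [h5, hconst]
  simp

/-- the integral over a cylinder with a constant end, by the holonomy of the other end -/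
theorem cylinder_hol (hF : ContDiff ℝ ∞ F) (hI : ∀ x, ∃ z, Line (F x) z) (hΩc : Continuous Ω) (hΩ : IsDens F Ω)
    {T S : ℝ} (hT : 0 < T) (hS : 0 ≤ S) (hper : ∀ θ s, F (θ + T, s) = F (θ, s)) (hconst : ∀ θ, F (θ, 0) = F (0, 0))
    {y : ℝ → E} (hy : ContDiff ℝ ∞ y) (hyL : ∀ θ ∈ Icc 0 T, Line (F (θ, S)) (y θ))
    (hy0 : ∀ θ ∈ Icc 0 T, ((inner ℂ (y θ) (deriv y θ))).im = 0) {c : ℂ} (hyT : y T = c • y 0) :
    Complex.exp (2 * π * Complex.I * (∫ θ in (0 : ℝ)..T, ∫ s in (0 : ℝ)..S, Ω (θ, s) : ℝ)) = c := by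
  obtain ⟨z, hz, hzL, hzp, hzi⟩ := cylinder hF hI hΩc hΩ hT hS hper hconst
  have h1 := ratio (P := fun θ => F (θ, S)) hy hz hT.le hyL (fun θ _ => hzL θ)
  have h2 : z T = z 0 := by
    have := hzp 0
    rwa [zero_add] at this
  have h3 : ∫ θ in (0 : ℝ)..T, (((inner ℂ (z θ) (deriv z θ))).im - ((inner ℂ (y θ) (deriv y θ))).im) =
      ∫ θ in (0 : ℝ)..T, ((inner ℂ (z θ) (deriv z θ))).im := by
    refine intervalIntegral.integral_congr fun θ hθ => ?_
    rw [uIcc_of_le hT.le] at hθ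
    show ((inner ℂ (z θ) (deriv z θ))).im - ((inner ℂ (y θ) (deriv y θ))).im = ((inner ℂ (z θ) (deriv z θ))).im
    rw [hy0 θ hθ, sub_zero]
  have hne : (inner ℂ (y 0) (z 0)) ≠ 0 := by
    intro h0
    have h4 := (hyL 0 ⟨le_rfl, hT.le⟩).norm_inner (hzL 0)
    rw [h0, norm_zero] at h4
    exact zero_ne_one h4
  rw [h2, hyT, inner_smul_left, h3] at h1
  have h4 : conj c = Complex.exp (Complex.I * (∫ θ in (0 : ℝ)..T, ((inner ℂ (z θ) (deriv z θ))).im : ℝ)) := by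
    apply mul_right_cancel₀ hne
    rw [h1]
    ring
  rw [hzi]
  obtain ⟨J, hJ⟩ : ∃ J : ℝ, J = ∫ θ in (0 : ℝ)..T, ((inner ℂ (z θ) (deriv z θ))).im := ⟨_, rfl⟩
  rw [← hJ] at h4 ⊢
  have h5 : c = conj (Complex.exp (Complex.I * (J : ℂ))) := by rw [← h4, Complex.conj_conj]
  rw [h5, ← Complex.exp_conj]
  congr 1
  simp only [map_mul, Complex.conj_I, Complex.conj_ofReal]
  have hπ : (π : ℂ) ≠ 0 := by exact_mod_cast Real.pi_ne_zero
  push_cast
  field_simp

/-- a cylinder with two constant ends -/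
theorem cylinder_int (hF : ContDiff ℝ ∞ F) (hI : ∀ x, ∃ z, Line (F x) z) (hΩc : Continuous Ω) (hΩ : IsDens F Ω)
    {T S : ℝ} (hT : 0 < T) (hS : 0 ≤ S) (hper : ∀ θ s, F (θ + T, s) = F (θ, s)) (hconst : ∀ θ, F (θ, 0) = F (0, 0))
    (hconst' : ∀ θ, F (θ, S) = F (0, S)) : ∃ k : ℤ, ∫ θ in (0 : ℝ)..T, ∫ s in (0 : ℝ)..S, Ω (θ, s) = k := by
  obtain ⟨w, hw⟩ := hI (0, S)
  have h1 := cylinder_hol hF hI hΩc hΩ hT hS hper hconst (y := fun _ => w) contDiff_const
    (fun θ _ => by rw [hconst']; exact hw) (fun θ _ => by simp) (c := 1) (by rw [one_smul])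
  rw [Complex.exp_eq_one_iff] at h1
  obtain ⟨k, hk⟩ := h1
  refine ⟨k, ?_⟩
  have hπ : (π : ℂ) ≠ 0 := by exact_mod_cast Real.pi_ne_zero
  have h2 : (2 * π * Complex.I : ℂ) ≠ 0 := mul_ne_zero (mul_ne_zero two_ne_zero hπ) Complex.I_ne_zero
  rw [mul_comm (k : ℂ)] at hk
  have h3 := mul_left_cancel₀ h2 hk
  exact_mod_cast h3

/-- a cylinder with a constant end whose other end has a parallel lift `y` with `y T = - y 0` -/
theorem cylinder_half (hF : ContDiff ℝ ∞ F) (hI : ∀ x, ∃ z, Line (F x) z) (hΩc : Continuous Ω) (hΩ : IsDens F Ω)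
    {T S : ℝ} (hT : 0 < T) (hS : 0 ≤ S) (hper : ∀ θ s, F (θ + T, s) = F (θ, s)) (hconst : ∀ θ, F (θ, 0) = F (0, 0))
    {y : ℝ → E} (hy : ContDiff ℝ ∞ y) (hyL : ∀ θ ∈ Icc 0 T, Line (F (θ, S)) (y θ))
    (hy0 : ∀ θ ∈ Icc 0 T, ((inner ℂ (y θ) (deriv y θ))).im = 0) (hyT : y T = -y 0) :
    ∃ k : ℤ, ∫ θ in (0 : ℝ)..T, ∫ s in (0 : ℝ)..S, Ω (θ, s) = 1 / 2 + k := by
  have h1 := cylinder_hol hF hI hΩc hΩ hT hS hper hconst hy hyL hy0 (c := -1) (by rw [hyT, neg_smul, one_smul])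
  obtain ⟨J, hJ⟩ : ∃ J : ℝ, J = ∫ θ in (0 : ℝ)..T, ∫ s in (0 : ℝ)..S, Ω (θ, s) := ⟨_, rfl⟩
  rw [← hJ] at h1 ⊢
  rw [← Complex.exp_pi_mul_I, Complex.exp_eq_exp_iff_exists_int] at h1
  obtain ⟨k, hk⟩ := h1
  refine ⟨k, ?_⟩
  have hπ : (π : ℂ) ≠ 0 := by exact_mod_cast Real.pi_ne_zero
  have h2 : (2 * π * Complex.I : ℂ) ≠ 0 := mul_ne_zero (mul_ne_zero two_ne_zero hπ) Complex.I_ne_zero
  have h3 : (2 * π * Complex.I : ℂ) * (J : ℂ) = 2 * π * Complex.I * (1 / 2 + k) := by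
    rw [hk]
    ring
  have h4 := mul_left_cancel₀ h2 h3
  have h5 : ((J : ℝ) : ℂ) = ((1 / 2 + k : ℝ) : ℂ) := by
    rw [h4]
    push_cast
    ring
  exact_mod_cast h5

end Strip

end Pool.Agent.Lib.MP_ccbbf6_gt.L4
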