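import Pool.Agent.Lib.MP_ccbbf6_gt.L4.Def
import Pool.Agent.Lib.MP_ccbbf6_gt.L4.OMp

/-!
# Level 4, OMq: the map from `M` to the complex lines is smooth (helper13)
-/

set_option autoImplicit false
set_option linter.unusedSectionVars false

open Set Filter Topology Metric Real
open scoped ContDiff RealInnerProductSpace

noncomputable section

namespace Pool.Agent.Lib.MP_ccbbf6_gt.L4

open Geo

variable {n : ℕ} {M : Type*} [MetricSpace M] [CompactSpace M] {𝒜 : SDist n M} {p : M} {e : Eu n → Eu n}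

theorem tendsto_symm (q : M) : Tendsto (𝒜.ψ q).symm (𝓝 0) (𝓝 q) := by
  have := (continuousAt_symm 𝒜 q).tendsto
  rwa [symm_zero] at this

/-- the logarithm is smooth -/
theorem exists_log (hB : Bl M) {q : M} (hq : dist p q < π) : ∃ lg : Eu n → Eu n, ContDiffAt ℝ ∞ lg 0 ∧
    ∀ᶠ z in 𝓝 (0 : Eu n), ‖lg z‖ = dist p ((𝒜.ψ q).symm z) ∧ 𝒜.Ex p (lg z) = (𝒜.ψ q).symm z := by
  have hF := contDiffAt_F 𝒜 hB hq
  have h0z : ContDiffAt ℝ ∞ (fun z : Eu n => ((0 : Eu n), z)) 0 := contDiffAt_const.prodMk contDiffAt_id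
  refine ⟨fun z => -gr1 (𝒜.F p q) (0, z), ?_, ?_⟩
  · exact (ContDiffAt.comp (g := gr1 (𝒜.F p q)) (f := fun z : Eu n => ((0 : Eu n), z)) (0 : Eu n) (contDiffAt_gr1 hF) h0z).neg
  · have h1 : ∀ᶠ y in 𝓝 ((0, 0) : Eu n × Eu n), DifferentiableAt ℝ (𝒜.F p q) y := by
      filter_upwards [(hF.of_le two_le_infty).eventually (by simp)] with y hy
      exact hy.differentiableAt (by norm_num)
    have h2 : Tendsto (fun z : Eu n => ((0 : Eu n), z)) (𝓝 0) (𝓝 (0, 0)) := h0z.continuousAt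
    have h3 : ∀ᶠ z in 𝓝 (0 : Eu n), z ∈ (𝒜.ψ q).target :=
      (𝒜.ψ q).open_target.mem_nhds (zero_mem_target 𝒜 q)
    have h4 : ∀ᶠ z in 𝓝 (0 : Eu n), dist p ((𝒜.ψ q).symm z) < π :=
      (tendsto_const_nhds.dist (tendsto_symm (𝒜 := 𝒜) q)).eventually_lt_const hq
    filter_upwards [h2.eventually h1, h3, h4] with z hz1 hz2 hz3
    obtain ⟨ξ, hξ1, hξ2⟩ := Ex_surj 𝒜 hB p ((𝒜.ψ q).symm z)
    have hx : (𝒜.ψ q).symm z ∈ (𝒜.ψ q).source := (𝒜.ψ q).map_target hz2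
    have key : gr1 (𝒜.F p q) (0, z) = -ξ := by
      refine ext_inner_right ℝ fun a => ?_
      rw [inner_gr1, inner_neg_left, ← fderiv_F_Ex 𝒜 hB p (by rw [hξ1]; exact hz3) a, hξ2]
      have e1 : (fun u => 𝒜.F p ((𝒜.ψ q).symm z) (u, 0)) = fun u => 𝒜.F p q (u, z) := by
        funext u
        rw [← exc_F_shift 𝒜 (p := p) hx u, (𝒜.ψ q).right_inv hz2]
      rw [e1, exc_partial1 hz1]
    rw [key, neg_neg]
    exact ⟨hξ1, hξ2⟩

theorem Psi_smooth0 (h : EData 𝒜 p e) (hB : Bl M) (hk : 𝒜.HK 1) (q : M) :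
    ContDiffAt ℝ ∞ (fun z => SDist.Psi 𝒜 p e ((𝒜.ψ q).symm z)) 0 := by
  have hdt : Tendsto (fun z => dist p ((𝒜.ψ q).symm z)) (𝓝 0) (𝓝 (dist p q)) :=
    tendsto_const_nhds.dist (tendsto_symm q)
  rcases lt_or_ge (dist p q) 1 with h1 | h1
  · -- near `p`
    refine (contDiffAt_const (c := prj (cz 1 0 (0 : Eu n) 0))).congr_of_eventuallyEq ?_
    filter_upwards [hdt.eventually_lt_const h1] with z hz
    unfold SDist.Psi
    rw [stp_le hz.le, Real.sin_zero, Real.cos_zero]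
    congr 1
    ext j
    refine Fin.cases ?_ (fun j => ?_) j
    · rw [cz_zero, cz_zero]
    · rw [cz_succ, cz_succ, Complex.ofReal_zero, zero_mul, zero_mul]
  rcases lt_or_ge (dist p q) π with h2 | h2
  · -- off the cut locus
    obtain ⟨lg, hlg, hev⟩ := exists_log (𝒜 := 𝒜) hB h2
    obtain ⟨h3, h4⟩ := hev.self_of_nhds
    rw [symm_zero] at h3 h4
    have hne : lg 0 ≠ 0 := by
      intro h0
      rw [h0, norm_zero] at h3
      linarith
    have hr : ContDiffAt ℝ ∞ (fun z => ‖lg z‖) 0 := hlg.norm ℝ hne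
    have hv : ContDiffAt ℝ ∞ (fun z => ‖lg z‖⁻¹ • lg z) 0 := (hr.inv (norm_ne_zero_iff.mpr hne)).smul hlg
    have hs : ContDiffAt ℝ ∞ (fun z => stp ‖lg z‖) 0 := contDiff_stp.contDiffAt.comp (0 : Eu n) hr
    have hev2 : ContDiffAt ℝ ∞ (fun z => e (‖lg z‖⁻¹ • lg z)) 0 :=
      ContDiffAt.comp (g := e) (0 : Eu n) (h.smooth _ (norm_normalize hne)) hv
    have hcz : ContDiffAt ℝ ∞ (fun z => cz (cos (stp ‖lg z‖)) (sin (stp ‖lg z‖)) (‖lg z‖⁻¹ • lg z)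
        (e (‖lg z‖⁻¹ • lg z))) 0 := contDiffAt_cz hs.cos hs.sin hv hev2
    refine (contDiff_prj.contDiffAt.comp (0 : Eu n) hcz).congr_of_eventuallyEq ?_
    filter_upwards [hev, hlg.continuousAt.eventually_ne hne, hdt.eventually_lt_const h2] with z hz1 hz2 hz3
    have hnz := norm_normalize hz2
    have hx : (𝒜.ψ q).symm z = 𝒜.gv p (‖lg z‖⁻¹ • lg z) ‖lg z‖ := by
      rw [← Ex_smul 𝒜 hB p hnz, (exa_polar hz2).2, hz1.2]
    rw [hx, Psi_gv h hB hk hnz (norm_nonneg _) (by rw [hz1.1]; exact hz3.le)]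
    rfl
  · -- at the cut locus
    have hd : dist p q = π := le_antisymm (hB.diam p q) h2
    obtain ⟨V, hV, hVk⟩ := finrank_Lam 𝒜 hB hk (q := p) (p := q) (by rw [dist_comm, hd])
    have hqp : q ≠ p := by
      rintro rfl
      rw [dist_self] at hd
      exact pi_pos.ne hd
    obtain ⟨a, ha1, ha2⟩ := exists_dir 𝒜 hB hqp
    rw [hd] at ha2
    have haV : a ∈ V := by
      have h3 : a ∈ 𝒜.Lam p q := ⟨ha1, ha2⟩
      rw [hV] at h3
      exact h3.1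
    obtain ⟨s, hs1, hs2, hs3⟩ := exists_section 𝒜 hB hk hd hV hVk haV (kc_ne ha1)
    have hne : s 0 ≠ 0 := by rw [hs2]; exact kc_ne ha1
    have hv : ContDiffAt ℝ ∞ (fun z => ‖s z‖⁻¹ • s z) 0 :=
      ((hs1.norm ℝ hne).inv (norm_ne_zero_iff.mpr hne)).smul hs1
    have hev2 : ContDiffAt ℝ ∞ (fun z => e (‖s z‖⁻¹ • s z)) 0 :=
      ContDiffAt.comp (g := e) (0 : Eu n) (h.smooth _ (norm_normalize hne)) hv
    have hcz : ContDiffAt ℝ ∞ (fun z => cz 0 1 (‖s z‖⁻¹ • s z) (e (‖s z‖⁻¹ • s z))) 0 :=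
      contDiffAt_cz contDiffAt_const contDiffAt_const hv hev2
    refine (contDiff_prj.contDiffAt.comp (0 : Eu n) hcz).congr_of_eventuallyEq ?_
    have hgt : ∀ᶠ z in 𝓝 (0 : Eu n), 2 < dist p ((𝒜.ψ q).symm z) := by
      refine hdt.eventually_const_lt ?_
      rw [hd]
      linarith [pi_gt_three]
    filter_upwards [hs3, hgt] with z hz1 hz2
    have hxp : (𝒜.ψ q).symm z ≠ p := by
      intro h0
      rw [h0, dist_self] at hz2
      linarith
    obtain ⟨v, hv1, hv2⟩ := exists_dir 𝒜 hB hxp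
    have hnz := norm_normalize hz1.1
    have h5 := hz1.2
    rw [kc_Ex 𝒜 hB p hz1.1] at h5
    have h6 := cutp_gv 𝒜 hB p hv1 (r := dist p ((𝒜.ψ q).symm z)) (by linarith) (hB.diam _ _)
    rw [hv2] at h6
    have h7 := Psi_gv h hB hk hv1 (r := dist p ((𝒜.ψ q).symm z)) dist_nonneg (hB.diam _ _)
    rw [hv2, stp_ge hz2.le, Real.sin_pi_div_two, Real.cos_pi_div_two] at h7
    rw [h7]
    exact prj_eq h hB hk hnz hv1 (by rw [h5, h6])

/-- the line map is smooth -/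
theorem Psi_smooth (h : EData 𝒜 p e) (hB : Bl M) (hk : 𝒜.HK 1) {G : Type*} [NormedAddCommGroup G] [NormedSpace ℝ G]
    {g : G → M} {u : G} (hg : SmAt 𝒜 g u) : ContDiffAt ℝ ∞ (fun v => SDist.Psi 𝒜 p e (g v)) u := by
  have h1 := Psi_smooth0 h hB hk (g u)
  have h0 : 𝒜.ψ (g u) (g u) = 0 := 𝒜.zero _
  rw [← h0] at h1
  have h2 := ContDiffAt.comp (g := fun z => SDist.Psi 𝒜 p e ((𝒜.ψ (g u)).symm z)) (f := fun v => 𝒜.ψ (g u) (g v)) u h1 hg.2
  refine h2.congr_of_eventuallyEq ?_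
  filter_upwards [hg.1.eventually ((𝒜.ψ (g u)).open_source.mem_nhds (𝒜.mem _))] with v hv
  show _ = SDist.Psi 𝒜 p e ((𝒜.ψ (g u)).symm (𝒜.ψ (g u) (g v)))
  rw [(𝒜.ψ (g u)).left_inv hv]

end Pool.Agent.Lib.MP_ccbbf6_gt.L4
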