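import Pool.Agent.Lib.MP_ccbbf6_gt.L4.CEa
import Pool.Agent.Lib.MP_ccbbf6_gt.L4.FRd
import Pool.Agent.Lib.MP_ccbbf6_gt.L4.FRt

/-!
# Level 4, OMw: the curvature form of a smooth family of complex lines over `R^k` (helper13)
-/

set_option autoImplicit false
set_option maxSynthPendingDepth 3

open Set Filter Topology Metric Real
open scoped ContDiff ComplexConjugate

noncomputable section

namespace Pool.Agent.Lib.MP_ccbbf6_gt.L4

open FR

variable {E : Type*} [NormedAddCommGroup E] [InnerProductSpace ℂ E] {k l : ℕ}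


/-- smooth families of lines -/
structure LF (F : V k → E →L[ℝ] E) : Prop where
  smooth : ContDiff ℝ ∞ F
  line : ∀ u, ∃ z, Line (F u) z

theorem LF.comp {F : V l → E →L[ℝ] E} (h : LF F) (g : Sm k l) : LF (fun u => F (g u)) :=
  ⟨h.smooth.comp g.smooth, fun u => h.line (g u)⟩

open Classical in
/-- the curvature -/
def wf (F : V k → E →L[ℝ] E) (u a b : V k) : ℝ :=
  if h : ∃ z, Line (F u) z then (1 / π) * ((inner ℂ (fderiv ℝ F u a h.choose) (fderiv ℝ F u b h.choose))).im else 0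

theorem fderiv_csmul {F : V k → E →L[ℝ] E} (hF : LF F) (u a : V k) (c : ℂ) (w : E) :
    fderiv ℝ F u a (c • w) = c • fderiv ℝ F u a w := by
  have h1 : HasFDerivAt F (fderiv ℝ F u) u := (hF.smooth.contDiffAt.differentiableAt (by simp)).hasFDerivAt
  have h2 : HasFDerivAt (fun y => F y (c • w)) ((fderiv ℝ F u).flip (c • w)) u := by
    simpa using h1.clm_apply (hasFDerivAt_const (c • w) u)
  have h3 : HasFDerivAt (fun y => F y w) ((fderiv ℝ F u).flip w) u := by
    simpa using h1.clm_apply (hasFDerivAt_const w u)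
  have h4 : HasFDerivAt (fun y => c • F y w) (c • (fderiv ℝ F u).flip w) u := h3.const_smul c
  have h5 : (fun y => F y (c • w)) = fun y => c • F y w := by
    funext y
    obtain ⟨z, hz⟩ := hF.line y
    rw [hz.2, hz.2, inner_smul_right, smul_smul]
  rw [h5] at h2
  have h6 := congrArg (fun L : V k →L[ℝ] E => L a) (h2.unique h4)
  simpa using h6

theorem wf_eq {F : V k → E →L[ℝ] E} (hF : LF F) {u : V k} {z : E} (hz : Line (F u) z) (a b : V k) :
    wf F u a b = (1 / π) * ((inner ℂ (fderiv ℝ F u a z) (fderiv ℝ F u b z))).im := by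
  have h : ∃ z, Line (F u) z := ⟨z, hz⟩
  unfold wf
  rw [dif_pos h]
  obtain ⟨w, hw⟩ : ∃ w, w = h.choose := ⟨_, rfl⟩
  have hwL : Line (F u) w := by rw [hw]; exact h.choose_spec
  rw [← hw]
  have h1 := hwL.eq_smul hz
  have h2 := hwL.norm_inner hz
  rw [h1, fderiv_csmul hF, fderiv_csmul hF, inner_smul_left, inner_smul_right, ← mul_assoc, mul_comm (conj _),
    Complex.mul_conj, Complex.normSq_eq_norm_sq, h2]
  simp

theorem exists_local_lift {F : V k → E →L[ℝ] E} (hF : LF F) (u₀ : V k) : ∃ z : V k → E,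
    ∀ᶠ u in 𝓝 u₀, ContDiffAt ℝ ∞ z u ∧ Line (F u) (z u) := by
  obtain ⟨z₀, hz₀⟩ := hF.line u₀
  have hW : ContDiff ℝ ∞ fun u => F u z₀ := hF.smooth.clm_apply contDiff_const
  have hne : F u₀ z₀ ≠ 0 := by
    rw [hz₀.self]
    intro h0
    have := hz₀.1
    rw [h0, norm_zero] at this
    exact zero_ne_one this
  refine ⟨fun u => ‖F u z₀‖⁻¹ • F u z₀, ?_⟩
  filter_upwards [hW.continuous.continuousAt.eventually_ne hne] with u hu
  refine ⟨((hW.contDiffAt.norm ℂ hu).inv (norm_ne_zero_iff.mpr hu)).smul hW.contDiffAt, ?_⟩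
  obtain ⟨z, hz⟩ := hF.line u
  exact hz.normalize hu

theorem wf_local {F : V k → E →L[ℝ] E} (hF : LF F) {u₀ : V k} {z : V k → E}
    (hz : ∀ᶠ u in 𝓝 u₀, ContDiffAt ℝ ∞ z u ∧ Line (F u) (z u)) :
    ∀ᶠ u in 𝓝 u₀, ∀ a b, wf F u a b = (1 / π) * ((inner ℂ (fderiv ℝ z u a) (fderiv ℝ z u b))).im := by
  filter_upwards [eventually_eventually_nhds.2 hz] with u hu a b
  have h0 := hu.self_of_nhds
  rw [wf_eq hF h0.2, im_inner_proj (hF.smooth.contDiffAt.differentiableAt (by simp)) (h0.1.differentiableAt (by simp))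
    (hu.mono fun y hy => hy.2)]

theorem contDiffAt_im_fderiv {z : V k → E} {u : V k} (hz : ContDiffAt ℝ ∞ z u) (a b : V k) :
    ContDiffAt ℝ ∞ (fun u => ((inner ℂ (fderiv ℝ z u a) (fderiv ℝ z u b))).im) u := by
  have h1 : ∀ c : V k, ContDiffAt ℝ ∞ (fun y => fderiv ℝ z y c) u := fun c =>
    (hz.fderiv_right (m := ∞) (by simp)).clm_apply contDiffAt_const
  exact Complex.imCLM.contDiff.contDiffAt.comp u ((h1 a).inner ℂ (h1 b))

theorem contDiff_wf {F : V k → E →L[ℝ] E} (hF : LF F) (a b : V k) : ContDiff ℝ ∞ fun u => wf F u a b := by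
  rw [contDiff_iff_contDiffAt]
  intro u₀
  obtain ⟨z, hz⟩ := exists_local_lift hF u₀
  have h1 : ContDiffAt ℝ ∞ (fun u => (1 / π) * ((inner ℂ (fderiv ℝ z u a) (fderiv ℝ z u b))).im) u₀ :=
    contDiffAt_const.mul (contDiffAt_im_fderiv hz.self_of_nhds.1 a b)
  refine h1.congr_of_eventuallyEq ?_
  filter_upwards [wf_local hF hz] with u hu
  exact hu a b

/-- the basis vectors -/
def bv (i : Fin k) : V k := Pi.single i 1

/-- the curvature form -/
def om2 (F : V k → E →L[ℝ] E) (hF : LF F) : Fm k :=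
  (1 / 2 : ℝ) • ∑ i, ∑ j, fc k (mkC (fun u => wf F u (bv i) (bv j)) (contDiff_wf hF _ _)) * (dx i * dx j)

theorem ev_dx (x : V k) (i : Fin k) : ev x (dx i) = ee i := ev_cf x _

theorem ev_om2 {F : V k → E →L[ℝ] E} (hF : LF F) (u : V k) :
    ev u (om2 F hF) = (1 / 2 : ℝ) • ∑ i, ∑ j, wf F u (bv i) (bv j) • (ee i * ee j) := by
  unfold om2
  simp only [map_smul, map_sum, map_mul, ev_fc, ev_dx, mkC_apply, ← Algebra.smul_def]

/-- the symplectic form -/
def Bi : E →ₗ[ℝ] E →ₗ[ℝ] ℝ :=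
  LinearMap.mk₂ ℝ (fun x y => (1 / π) * ((inner ℂ x y)).im)
    (fun x y w => by rw [inner_add_left, Complex.add_im]; ring)
    (fun c x y => by
      rw [← Complex.coe_smul, inner_smul_left, Complex.conj_ofReal, Complex.im_ofReal_mul, smul_eq_mul]; ring)
    (fun x y w => by rw [inner_add_right, Complex.add_im]; ring)
    (fun c x y => by rw [← Complex.coe_smul, inner_smul_right, Complex.im_ofReal_mul, smul_eq_mul]; ring)

theorem Bi_apply (x y : E) : Bi x y = (1 / π) * ((inner ℂ x y)).im := rfl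

/-- a form of degree two from a linear map -/
def t2 (L : V k → E) : Ex k := (1 / 2 : ℝ) • ∑ i, ∑ j, Bi (L (bv i)) (L (bv j)) • (ee i * ee j)

theorem ev_om2_eq {F : V k → E →L[ℝ] E} (hF : LF F) {u : V k} {z : E} (hz : Line (F u) z) :
    ev u (om2 F hF) = t2 (fun a => fderiv ℝ F u a z) := by
  rw [ev_om2]
  unfold t2
  simp only [wf_eq hF hz, Bi_apply]

theorem sum_four {α β A : Type*} [Fintype α] [Fintype β] [AddCommMonoid A] (f : α → α → β → β → A) :
    ∑ m, ∑ i, ∑ a, ∑ b, f m i a b = ∑ a, ∑ b, ∑ i, ∑ m, f m i a b := by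
  calc ∑ m, ∑ i, ∑ a, ∑ b, f m i a b = ∑ i, ∑ m, ∑ a, ∑ b, f m i a b := Finset.sum_comm
    _ = ∑ i, ∑ a, ∑ m, ∑ b, f m i a b := Finset.sum_congr rfl fun i _ => Finset.sum_comm
    _ = ∑ a, ∑ i, ∑ m, ∑ b, f m i a b := Finset.sum_comm
    _ = ∑ a, ∑ i, ∑ b, ∑ m, f m i a b :=
      Finset.sum_congr rfl fun a _ => Finset.sum_congr rfl fun i _ => Finset.sum_comm
    _ = ∑ a, ∑ b, ∑ i, ∑ m, f m i a b := Finset.sum_congr rfl fun a _ => Finset.sum_comm

theorem map_t2 (g : Sm k l) (x : V k) (L : V l →ₗ[ℝ] E) :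
    ExteriorAlgebra.map (tr g x) (t2 (fun a => L a)) = t2 (fun a => L (fderiv ℝ (g : V k → V l) x a)) := by
  have h1 : ∀ j : Fin l, ExteriorAlgebra.map (tr g x) (ee j) = ∑ i, (pd i (g.cp j) : V k → ℝ) x • ee i := by
    intro j
    unfold ee
    rw [ExteriorAlgebra.map_apply_ι, ι_eq]
    refine Finset.sum_congr rfl fun i _ => ?_
    congr 1
    change ∑ j', (Pi.single j (1 : ℝ) : V l) j' * (pd i (g.cp j') : V k → ℝ) x = _
    rw [Finset.sum_eq_single j]
    · rw [Pi.single_eq_same, one_mul]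
    · intro b _ hb
      rw [Pi.single_eq_of_ne hb, zero_mul]
    · intro h
      exact absurd (Finset.mem_univ j) h
  have h2 : ∀ i : Fin k, L (fderiv ℝ (g : V k → V l) x (bv i)) = ∑ j, (pd i (g.cp j) : V k → ℝ) x • L (bv j) := by
    intro i
    have h3 : fderiv ℝ (g : V k → V l) x (bv i) = ∑ j, (pd i (g.cp j) : V k → ℝ) x • bv j := by
      ext m
      have h4 : fderiv ℝ (g : V k → V l) x (bv i) m = (pd i (g.cp m) : V k → ℝ) x := by
        rw [pd_apply]
        change _ = fderiv ℝ (fun x => g x m) x (Pi.single i 1)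
        rw [fderiv_apply (g.diff x)]
        rfl
      rw [h4, Finset.sum_apply, Finset.sum_eq_single m]
      · simp [bv]
      · intro b _ hb
        simp [bv, Pi.single_eq_of_ne hb.symm]
      · intro h
        exact absurd (Finset.mem_univ m) h
    rw [h3, map_sum]
    simp only [map_smul]
  unfold t2
  rw [map_smul, map_sum]
  congr 1
  simp only [map_sum, map_smul, map_mul, h1, h2, Finset.sum_mul_sum, LinearMap.sum_apply, LinearMap.smul_apply,
    Finset.smul_sum, Finset.sum_smul, smul_mul_smul_comm, smul_smul, smul_eq_mul]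
  rw [sum_four]
  refine Finset.sum_congr rfl fun a _ => Finset.sum_congr rfl fun b _ => Finset.sum_congr rfl fun i _ => ?_
  rw [← Finset.sum_smul]
  congr 1
  rw [Finset.mul_sum]
  exact Finset.sum_congr rfl fun m _ => by ring

/-- naturality -/
theorem om2_comp {F : V l → E →L[ℝ] E} (hF : LF F) (g : Sm k l) :
    om2 (fun u => F (g u)) (hF.comp g) = pb g (om2 F hF) := by
  refine ev_ext fun x => ?_
  obtain ⟨z, hz⟩ := hF.line (g x)
  rw [ev_pb, ev_om2_eq hF hz, ev_om2_eq (hF.comp g) (z := z) hz]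
  have h1 := map_t2 g x (((fderiv ℝ F (g x)).flip z : V l →L[ℝ] E) : V l →ₗ[ℝ] E)
  refine Eq.trans ?_ h1.symm
  congr 1
  funext a
  have h2 : HasFDerivAt (fun u => F (g u)) ((fderiv ℝ F (g x)).comp (fderiv ℝ (g : V k → V l) x)) x :=
    HasFDerivAt.comp x (hF.smooth.contDiffAt.differentiableAt (by simp)).hasFDerivAt (g.diff x).hasFDerivAt
  rw [h2.fderiv]
  rfl

/-- the degree -/
theorem Dg_om2 {F : V k → E →L[ℝ] E} (hF : LF F) : Dg 2 (om2 F hF) := by
  unfold om2
  refine Dg_smul _ ?_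
  have hsum : ∀ {ι : Type} (s : Finset ι) (f : ι → Fm k), (∀ i ∈ s, Dg 2 (f i)) → Dg 2 (∑ i ∈ s, f i) := by
    intro ι s f h
    classical
    induction s using Finset.induction_on with
    | empty => rw [Finset.sum_empty]; exact Dg_zero
    | insert a s ha ih =>
      rw [Finset.sum_insert ha]
      exact Dg_add (h a (Finset.mem_insert_self a s)) (ih fun i hi => h i (Finset.mem_insert_of_mem hi))
  refine hsum _ _ fun i _ => hsum _ _ fun j _ => ?_
  have h1 := Dg_mul (Dg_fc (mkC (fun u => wf F u (bv i) (bv j)) (contDiff_wf hF _ _))) (Dg_mul (Dg_dx i) (Dg_dx j))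
  exact h1

/-! ### closedness -/

theorem ee_triple1 (c : Fin k → Fin k → Fin k → ℝ) (hc : ∀ a b j, c a b j = c b a j) :
    ∑ i, ∑ j, ∑ a, c a i j • (ee a * (ee i * ee j)) = 0 := by
  apply eq_zero_of_eq_neg
  have h1 : ∑ i, ∑ j, ∑ a, c a i j • (ee a * (ee i * ee j)) = ∑ i, ∑ j, ∑ a, c i a j • (ee i * (ee a * ee j)) := by
    calc ∑ i, ∑ j, ∑ a, c a i j • (ee a * (ee i * ee j))
        = ∑ i, ∑ a, ∑ j, c a i j • (ee a * (ee i * ee j)) := Finset.sum_congr rfl fun i _ => Finset.sum_comm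
      _ = ∑ a, ∑ i, ∑ j, c a i j • (ee a * (ee i * ee j)) := Finset.sum_comm
      _ = ∑ i, ∑ a, ∑ j, c i a j • (ee i * (ee a * ee j)) := rfl
      _ = _ := Finset.sum_congr rfl fun i _ => Finset.sum_comm
  conv_lhs => rw [h1]
  rw [← Finset.sum_neg_distrib]
  refine Finset.sum_congr rfl fun i _ => ?_
  rw [← Finset.sum_neg_distrib]
  refine Finset.sum_congr rfl fun j _ => ?_
  rw [← Finset.sum_neg_distrib]
  refine Finset.sum_congr rfl fun a _ => ?_
  rw [hc i a j, ← smul_neg, ← mul_assoc, ← mul_assoc, ee_swap i a, neg_mul]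

theorem ee_triple2 (c : Fin k → Fin k → Fin k → ℝ) (hc : ∀ a i b, c a i b = c b i a) :
    ∑ i, ∑ j, ∑ a, c a i j • (ee a * (ee i * ee j)) = 0 := by
  apply eq_zero_of_eq_neg
  have h1 : ∑ i, ∑ j, ∑ a, c a i j • (ee a * (ee i * ee j)) = ∑ i, ∑ j, ∑ a, c j i a • (ee j * (ee i * ee a)) :=
    Finset.sum_congr rfl fun i _ => Finset.sum_comm
  conv_lhs => rw [h1]
  rw [← Finset.sum_neg_distrib]
  refine Finset.sum_congr rfl fun i _ => ?_
  rw [← Finset.sum_neg_distrib]
  refine Finset.sum_congr rfl fun j _ => ?_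
  rw [← Finset.sum_neg_distrib]
  refine Finset.sum_congr rfl fun a _ => ?_
  rw [hc j i a, ← smul_neg]
  congr 1
  calc ee j * (ee i * ee a) = ee j * ee i * ee a := by rw [mul_assoc]
    _ = -(ee i * ee j) * ee a := by rw [ee_swap j i]
    _ = -(ee i * (ee j * ee a)) := by rw [neg_mul, mul_assoc]
    _ = ee i * (ee a * ee j) := by rw [ee_swap j a, mul_neg, neg_neg]
    _ = ee i * ee a * ee j := by rw [mul_assoc]
    _ = -(ee a * ee i) * ee j := by rw [ee_swap i a]
    _ = -(ee a * (ee i * ee j)) := by rw [neg_mul, mul_assoc]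

theorem dd_term (f : Cs k) (i j : Fin k) (u : V k) :
    ev u (dd k (fc k f * (dx i * dx j))) = ∑ a, (fderiv ℝ (f : V k → ℝ) u (bv a)) • (ee a * (ee i * ee j)) := by
  rw [dd_mul, dd_mul (dx i) (dx j), dd_dx, dd_dx, zero_mul, mul_zero, add_zero, mul_zero, add_zero, dd_fc, Finset.sum_mul,
    map_sum]
  refine Finset.sum_congr rfl fun a _ => ?_
  rw [map_mul, map_mul, ev_fc, ev_dx, map_mul, ev_dx, ev_dx, ← Algebra.smul_def, smul_mul_assoc, pd_apply]
  rfl

theorem dd_om2 {F : V k → E →L[ℝ] E} (hF : LF F) : dd k (om2 F hF) = 0 := by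
  refine ev_inj fun u => ?_
  obtain ⟨z, hz⟩ := exists_local_lift hF u
  have hzu := hz.self_of_nhds.1
  have hloc := wf_local hF hz
  unfold om2
  rw [map_smul, map_smul, map_sum, map_sum]
  simp only [map_sum, dd_term]
  have hd : ∀ a i j : Fin k, fderiv ℝ (mkC (fun u => wf F u (bv i) (bv j)) (contDiff_wf hF _ _) : V k → ℝ) u (bv a) =
      Bi (fderiv ℝ (fderiv ℝ z) u (bv a) (bv i)) (fderiv ℝ z u (bv j)) +
        Bi (fderiv ℝ z u (bv i)) (fderiv ℝ (fderiv ℝ z) u (bv a) (bv j)) := by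
    intro a i j
    have h1 : (mkC (fun u => wf F u (bv i) (bv j)) (contDiff_wf hF _ _) : V k → ℝ) =ᶠ[𝓝 u]
        fun u => (1 / π) * ((inner ℂ (fderiv ℝ z u (bv i)) (fderiv ℝ z u (bv j)))).im := by
      filter_upwards [hloc] with y hy
      exact hy _ _
    rw [h1.fderiv_eq]
    have hz2 : HasFDerivAt (fderiv ℝ z) (fderiv ℝ (fderiv ℝ z) u) u :=
      ((hzu.fderiv_right (m := ∞) (by simp)).differentiableAt (by simp)).hasFDerivAt
    have hz3 : ∀ b : V k, HasFDerivAt (fun y => fderiv ℝ z y b) ((fderiv ℝ (fderiv ℝ z) u).flip b) u := by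
      intro b
      simpa using hz2.clm_apply (hasFDerivAt_const b u)
    have h2 : HasFDerivAt (fun y => ((inner ℂ (fderiv ℝ z y (bv i)) (fderiv ℝ z y (bv j)))).im) _ u :=
      Complex.imCLM.hasFDerivAt.comp u ((hz3 (bv i)).inner ℂ (hz3 (bv j)))
    rw [(h2.const_mul (1 / π)).fderiv]
    simp only [_root_.smul_apply, ContinuousLinearMap.comp_apply, ContinuousLinearMap.prod_apply, fderivInnerCLM_apply,
      ContinuousLinearMap.flip_apply, Complex.imCLM_apply, Complex.add_im, Bi_apply, smul_eq_mul]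
    ring
  simp only [hd, add_smul, Finset.sum_add_distrib]
  have hsym : ∀ a b, fderiv ℝ (fderiv ℝ z) u a b = fderiv ℝ (fderiv ℝ z) u b a := fun a b =>
    ((hzu.of_le (m := 2) (WithTop.coe_le_coe.2 le_top)).isSymmSndFDerivAt (by simp)).eq a b
  rw [ee_triple1 (fun a i j => Bi (fderiv ℝ (fderiv ℝ z) u (bv a) (bv i)) (fderiv ℝ z u (bv j)))
      (fun a b j => by rw [hsym]),
    ee_triple2 (fun a i j => Bi (fderiv ℝ z u (bv i)) (fderiv ℝ (fderiv ℝ z) u (bv a) (bv j)))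
      (fun a i b => by rw [hsym]), add_zero, smul_zero]

/-! ### a global lift -/

theorem contDiff_im_lift {z : V k → E} (hz : ContDiff ℝ ∞ z) (b : V k) :
    ContDiff ℝ ∞ fun u => (1 / (2 * π)) * ((inner ℂ (z u) (fderiv ℝ z u b))).im :=
  contDiff_const.mul (contDiff_iff_contDiffAt.2 fun _ => contDiffAt_im_inner hz.contDiffAt b)

/-- the connection form of a lift -/
def lam (z : V k → E) (hz : ContDiff ℝ ∞ z) : Fm k :=
  ∑ j, fc k (mkC (fun u => (1 / (2 * π)) * ((inner ℂ (z u) (fderiv ℝ z u (bv j)))).im) (contDiff_im_lift hz _)) * dx j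

theorem om2_lift {F : V k → E →L[ℝ] E} (hF : LF F) {z : V k → E} (hz : ContDiff ℝ ∞ z) (hL : ∀ u, Line (F u) (z u)) :
    om2 F hF = dd k (lam z hz) := by
  refine ev_ext fun u => ?_
  have hloc := (wf_local hF (u₀ := u) (z := z) (Eventually.of_forall fun u => ⟨hz.contDiffAt, hL u⟩)).self_of_nhds
  rw [ev_om2]
  unfold lam
  rw [map_sum, map_sum]
  have h1 : ∀ j : Fin k, ev u (dd k (fc k (mkC (fun u => (1 / (2 * π)) * ((inner ℂ (z u) (fderiv ℝ z u (bv j)))).im)
      (contDiff_im_lift hz _)) * dx j)) =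
      ∑ i, ((1 / (2 * π)) * fderiv ℝ (fun u => ((inner ℂ (z u) (fderiv ℝ z u (bv j)))).im) u (bv i)) • (ee i * ee j) := by
    intro j
    rw [dd_mul, dd_dx, mul_zero, add_zero, dd_fc, Finset.sum_mul, map_sum]
    refine Finset.sum_congr rfl fun i _ => ?_
    rw [map_mul, map_mul, ev_fc, ev_dx, ev_dx, ← Algebra.smul_def, smul_mul_assoc, pd_apply]
    congr 1
    have h2 : DifferentiableAt ℝ (fun u => ((inner ℂ (z u) (fderiv ℝ z u (bv j)))).im) u :=
      (contDiffAt_im_inner hz.contDiffAt _).differentiableAt (by simp)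
    change fderiv ℝ (fun u => (1 / (2 * π)) * ((inner ℂ (z u) (fderiv ℝ z u (bv j)))).im) u (bv i) = _
    rw [fderiv_const_mul h2]
    rfl
  simp only [h1]
  obtain ⟨c, hc⟩ : ∃ c : Fin k → Fin k → ℝ, c = fun i j =>
    (1 / (2 * π)) * fderiv ℝ (fun u => ((inner ℂ (z u) (fderiv ℝ z u (bv j)))).im) u (bv i) := ⟨_, rfl⟩
  have h3 : ∀ i j, wf F u (bv i) (bv j) = c i j - c j i := by
    intro i j
    rw [hloc, hc]
    have := curl_im_inner (hz.contDiffAt (x := u)) (bv i) (bv j)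
    have h4 : (1 / π) * ((inner ℂ (fderiv ℝ z u (bv i)) (fderiv ℝ z u (bv j)))).im =
        (1 / (2 * π)) * (2 * ((inner ℂ (fderiv ℝ z u (bv i)) (fderiv ℝ z u (bv j)))).im) := by
      field_simp
    rw [h4, ← this]
    ring
  have h5 : ∀ i j, (1 / (2 * π)) * fderiv ℝ (fun u => ((inner ℂ (z u) (fderiv ℝ z u (bv j)))).im) u (bv i) = c i j := by
    intro i j
    rw [hc]
  simp only [h3, h5, sub_smul, Finset.sum_sub_distrib]
  have h6 : ∑ j, ∑ i, c i j • (ee i * ee j) = ∑ i, ∑ j, c i j • (ee i * ee j) := Finset.sum_comm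
  have h7 : ∑ i : Fin k, ∑ j, c j i • (ee i * ee j) = -∑ i, ∑ j, c i j • (ee i * ee j) := by
    rw [Finset.sum_comm, ← Finset.sum_neg_distrib]
    refine Finset.sum_congr rfl fun i _ => ?_
    rw [← Finset.sum_neg_distrib]
    refine Finset.sum_congr rfl fun j _ => ?_
    rw [ee_swap j i, smul_neg]
  rw [h6, h7, sub_neg_eq_add, ← two_smul ℝ, smul_smul]
  norm_num

/-! ### dimension two -/

theorem topE_two : topE 2 (ee 0 * ee 1) = 1 := by
  have h1 : ee (0 : Fin 2) * ee 1 = ExteriorAlgebra.ιMulti ℝ 2 ![bv 0, bv 1] := by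
    rw [ExteriorAlgebra.ιMulti_apply]
    simp [ee, bv]
  rw [h1, topE_ιMulti, Matrix.det_fin_two]
  simp [bv]

theorem topE_om2 {F : V 2 → E →L[ℝ] E} (hF : LF F) (u : V 2) : topE 2 (ev u (om2 F hF)) = wf F u (bv 0) (bv 1) := by
  obtain ⟨z, hz⟩ := hF.line u
  have h00 : ∀ i : Fin 2, ee i * ee i = 0 := fun i => ExteriorAlgebra.ι_sq_zero _
  have h10 : ee (1 : Fin 2) * ee 0 = -(ee 0 * ee 1) := ee_swap 1 0
  have hanti : wf F u (bv 1) (bv 0) = -wf F u (bv 0) (bv 1) := by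
    rw [wf_eq hF hz, wf_eq hF hz, ← inner_conj_symm, Complex.conj_im]
    ring
  rw [ev_om2]
  simp only [Fin.sum_univ_two, h00, h10, hanti, smul_zero, zero_add, add_zero, smul_neg, neg_smul, neg_neg, map_smul,
    map_add, topE_two, smul_eq_mul]
  ring


end Pool.Agent.Lib.MP_ccbbf6_gt.L4
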