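import Pool.Agent.Lib.MP_ccbbf6_gt.L4.Eps
import Pool.Agent.Lib.MP_ccbbf6_gt.L4.FXb
import Pool.Agent.Lib.MP_ccbbf6_gt.L4.OMq
import Pool.Agent.Lib.MP_ccbbf6_gt.L4.OMw
import Pool.Agent.Lib.MP_ccbbf6_gt.L4.Sp

/-!
# Level 4, OMf: the closed form `ω` on `M` (helper13)
-/

set_option autoImplicit false
set_option linter.unusedSectionVars false
set_option maxSynthPendingDepth 3

open Set Filter Topology Metric Real
open scoped ContDiff RealInnerProductSpace

noncomputable section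

namespace Pool.Agent.Lib.MP_ccbbf6_gt.L4

open Geo FR


/-! ### the lift over the tangent space -/

section Lift

variable {n : ℕ} {e : Eu n → Eu n}

theorem stp_eq (r : ℝ) : stp r = psa r := rfl

theorem cz_scale (a b : ℝ) (v w : Eu n) : cz a b v w = cz a 1 (b • v) (b • w) := by
  ext j
  refine Fin.cases ?_ (fun j => ?_) j
  · rw [cz_zero, cz_zero]
  · rw [cz_succ, cz_succ]
    simp only [PiLp.smul_apply, smul_eq_mul]
    push_cast
    ring

/-- `cz` as a linear map -/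
def czL (n : ℕ) : (ℝ × Eu n × Eu n) →L[ℝ] Ec n :=
  LinearMap.toContinuousLinearMap
    { toFun := fun y => cz y.1 1 y.2.1 y.2.2
      map_add' := fun x y => by
        ext j
        refine Fin.cases ?_ (fun j => ?_) j
        · rw [PiLp.add_apply, cz_zero, cz_zero, cz_zero]
          simp
        · rw [PiLp.add_apply, cz_succ, cz_succ, cz_succ]
          simp only [Prod.fst_add, Prod.snd_add, PiLp.add_apply]
          push_cast
          ring
      map_smul' := fun c y => by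
        ext j
        refine Fin.cases ?_ (fun j => ?_) j
        · rw [RingHom.id_apply, PiLp.smul_apply, cz_zero, cz_zero]
          simp
        · rw [RingHom.id_apply, PiLp.smul_apply, cz_succ, cz_succ]
          simp only [Prod.smul_fst, Prod.smul_snd, PiLp.smul_apply, smul_eq_mul, Complex.real_smul]
          push_cast
          ring }

theorem czL_apply (a : ℝ) (v w : Eu n) : czL n (a, v, w) = cz a 1 v w := rfl

/-- the lift `(cos ψ, sin ψ (v - i e(v)) / √2)`, `v = x / |x|` -/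
def zf (e : Eu n → Eu n) (x : Eu n) : Ec n := cz (cos (stp ‖x‖)) (sin (stp ‖x‖)) (‖x‖⁻¹ • x) (e (‖x‖⁻¹ • x))

theorem zf_near {x : Eu n} (h : ‖x‖ ≤ 1) : zf e x = cz 1 0 0 0 := by
  unfold zf
  rw [stp_le h, Real.cos_zero, Real.sin_zero]
  ext j
  refine Fin.cases ?_ (fun j => ?_) j
  · rw [cz_zero, cz_zero]
  · rw [cz_succ, cz_succ, Complex.ofReal_zero, zero_mul, zero_mul]

theorem contDiff_zf (he : GCF e) : ContDiff ℝ ∞ (zf e) := by
  rw [contDiff_iff_contDiffAt]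
  intro x
  by_cases hx : x = 0
  · refine (contDiffAt_const (c := cz 1 0 (0 : Eu n) 0)).congr_of_eventuallyEq ?_
    have h1 : ∀ᶠ y : Eu n in 𝓝 x, ‖y‖ < 1 := by
      rw [hx]
      have := (continuous_norm (E := Eu n)).tendsto 0
      rw [norm_zero] at this
      exact this.eventually_lt_const one_pos
    filter_upwards [h1] with y hy
    exact zf_near hy.le
  · have hn : ContDiffAt ℝ ∞ (fun y : Eu n => ‖y‖) x := contDiffAt_norm ℝ hx
    have hv : ContDiffAt ℝ ∞ (fun y : Eu n => ‖y‖⁻¹ • y) x := (hn.inv (norm_ne_zero_iff.mpr hx)).smul contDiffAt_id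
    have hs : ContDiffAt ℝ ∞ (fun y : Eu n => stp ‖y‖) x := contDiff_stp.contDiffAt.comp x hn
    have hv0 : ‖x‖⁻¹ • x ≠ 0 := smul_ne_zero (inv_ne_zero (norm_ne_zero_iff.mpr hx)) hx
    exact contDiffAt_cz hs.cos hs.sin hv (ContDiffAt.comp (g := e) x (he.smooth _ hv0) hv)

theorem norm_zf (he : GCF e) (x : Eu n) : ‖zf e x‖ = 1 := by
  refine norm_cz (by rw [add_comm]; exact Real.sin_sq_add_cos_sq _) ?_
  by_cases hx : x = 0
  · left
    rw [hx, norm_zero, stp_le zero_le_one, Real.sin_zero]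
  · right
    have h1 := norm_normalize hx
    exact ⟨h1, he.norm _ (kc_ne h1), he.orth _⟩

theorem im_zf (he : GCF e) (x h : Eu n) : ((inner ℂ (zf e x) (fderiv ℝ (zf e) x h))).im = chi ‖x‖ / ‖x‖ * ⟪e x, h⟫ := by
  by_cases hx : x = 0
  · have h1 : zf e =ᶠ[𝓝 x] fun _ => cz 1 0 (0 : Eu n) 0 := by
      have h1 : ∀ᶠ y : Eu n in 𝓝 x, ‖y‖ < 1 := by
        rw [hx]
        have := (continuous_norm (E := Eu n)).tendsto 0
        rw [norm_zero] at this
        exact this.eventually_lt_const one_pos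
      filter_upwards [h1] with y hy
      exact zf_near hy.le
    rw [h1.fderiv_eq, fderiv_fun_const, hx, norm_zero, chi_zero zero_le_one]
    simp
  · have hx0 : ‖x‖ ≠ 0 := norm_ne_zero_iff.mpr hx
    have hpos : 0 < ‖x‖ := norm_pos_iff.mpr hx
    have hn : ContDiffAt ℝ ∞ (fun y : Eu n => ‖y‖) x := contDiffAt_norm ℝ hx
    have hs : ContDiffAt ℝ ∞ (fun y : Eu n => stp ‖y‖) x := contDiff_stp.contDiffAt.comp x hn
    have hf : ContDiffAt ℝ ∞ (fun y : Eu n => sin (stp ‖y‖) * ‖y‖⁻¹) x := hs.sin.mul (hn.inv hx0)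
    have ha' : HasFDerivAt (fun y : Eu n => cos (stp ‖y‖)) (fderiv ℝ (fun y : Eu n => cos (stp ‖y‖)) x) x :=
      (hs.cos.differentiableAt (by simp)).hasFDerivAt
    have hb' : HasFDerivAt (fun y : Eu n => sin (stp ‖y‖)) (fderiv ℝ (fun y : Eu n => sin (stp ‖y‖)) x) x :=
      (hs.sin.differentiableAt (by simp)).hasFDerivAt
    have hf' : HasFDerivAt (fun y : Eu n => sin (stp ‖y‖) * ‖y‖⁻¹)
        (fderiv ℝ (fun y : Eu n => sin (stp ‖y‖) * ‖y‖⁻¹) x) x := (hf.differentiableAt (by simp)).hasFDerivAt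
    have he' : HasFDerivAt e (fderiv ℝ e x) x := ((he.smooth x hx).differentiableAt (by simp)).hasFDerivAt
    have hV := hf'.smul (hasFDerivAt_id x)
    have hW := hb'.smul he'
    have hz : HasFDerivAt (fun y : Eu n => czL n (cos (stp ‖y‖), (sin (stp ‖y‖) * ‖y‖⁻¹) • y, sin (stp ‖y‖) • e y)) _ x :=
      (czL n).hasFDerivAt.comp x (ha'.prodMk (hV.prodMk hW))
    have hzf : zf e =ᶠ[𝓝 x] fun y : Eu n => czL n (cos (stp ‖y‖), (sin (stp ‖y‖) * ‖y‖⁻¹) • y, sin (stp ‖y‖) • e y) := by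
      filter_upwards [isOpen_ne.mem_nhds hx] with y hy
      have hy0 : 0 < ‖y‖⁻¹ := inv_pos.mpr (norm_pos_iff.mpr hy)
      rw [czL_apply]
      unfold zf
      rw [cz_scale, he.hom y _ hy0, smul_smul]
    have hz2 := hz.congr_of_eventuallyEq hzf
    rw [hz2.fderiv]
    -- the relation `⟪x, e x⟫ = 0`
    have horth : ⟪h, e x⟫ + ⟪x, fderiv ℝ e x h⟫ = 0 := by
      have h1 : HasFDerivAt (fun y : Eu n => ⟪y, e y⟫) _ x := (hasFDerivAt_id x).inner ℝ he'
      have h2 : HasFDerivAt (fun y : Eu n => ⟪y, e y⟫) (0 : Eu n →L[ℝ] ℝ) x := by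
        refine (hasFDerivAt_const (0 : ℝ) x).congr_of_eventuallyEq ?_
        exact Eventually.of_forall fun y => he.orth y
      have h3 := congrArg (fun L : Eu n →L[ℝ] ℝ => L h) (h1.unique h2)
      simp only [ContinuousLinearMap.comp_apply, ContinuousLinearMap.prod_apply, fderivInnerCLM_apply,
        _root_.zero_apply, id_eq, ContinuousLinearMap.id_apply] at h3
      linarith
    have hxe : ⟪x, e x⟫ = 0 := he.orth x
    have hex : ⟪e x, x⟫ = 0 := by rw [real_inner_comm]; exact hxe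
    obtain ⟨A, hA⟩ : ∃ A : Eu n →L[ℝ] ℝ, A = fderiv ℝ (fun y : Eu n => cos (stp ‖y‖)) x := ⟨_, rfl⟩
    obtain ⟨B, hB⟩ : ∃ B : Eu n →L[ℝ] ℝ, B = fderiv ℝ (fun y : Eu n => sin (stp ‖y‖)) x := ⟨_, rfl⟩
    obtain ⟨C, hC⟩ : ∃ C : Eu n →L[ℝ] ℝ, C = fderiv ℝ (fun y : Eu n => sin (stp ‖y‖) * ‖y‖⁻¹) x := ⟨_, rfl⟩
    rw [← hA, ← hB, ← hC]
    simp only [ContinuousLinearMap.comp_apply, ContinuousLinearMap.prod_apply, _root_.add_apply, _root_.smul_apply,
      ContinuousLinearMap.smulRight_apply, id_eq, ContinuousLinearMap.id_apply]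
    rw [czL_apply]
    have hzx : zf e x = cz (cos (stp ‖x‖)) (sin (stp ‖x‖)) (‖x‖⁻¹ • x) (e x) := by
      unfold zf
      rw [he.hom x _ (inv_pos.mpr hpos)]
    rw [hzx, inner_cz, Complex.add_im, Complex.ofReal_im, Complex.mul_im, Complex.I_re, Complex.I_im, Complex.ofReal_re,
      Complex.ofReal_im]
    simp only [inner_add_right, inner_add_left, real_inner_smul_left, real_inner_smul_right, hex, hxe]
    unfold chi
    rw [← stp_eq]
    have h5 : ⟪x, fderiv ℝ e x h⟫ = -⟪e x, h⟫ := by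
      have := real_inner_comm h (e x)
      linarith
    rw [h5]
    field_simp
    ring

end Lift

section Omega

variable {n : ℕ} {M : Type} [MetricSpace M] [CompactSpace M] {𝒜 : SDist n M} {p : M} {e : Eu n → Eu n}

theorem EData.of_gcf (he : GCF e) (hep : ∀ v, ‖v‖ = 1 → 𝒜.gv p (e v) π = 𝒜.gv p v π) : EData 𝒜 p e :=
  ⟨fun v hv => he.smooth v (kc_ne hv), fun v hv => he.norm v (kc_ne hv), fun v _ => he.orth v, he.rot, hep⟩

theorem lf_plot (h : EData 𝒜 p e) (hB : Bl M) (hk : 𝒜.HK 1) {k : ℕ} (P : (spM 𝒜).Plot k) :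
    LF (fun u => SDist.Psi 𝒜 p e (P.1 u)) :=
  ⟨contDiff_iff_contDiffAt.2 fun u => Psi_smooth h hB hk (P.2 u), fun u => Psi_line h hB _⟩

/-- the closed form -/
def omega (h : EData 𝒜 p e) (hB : Bl M) (hk : 𝒜.HK 1) : Om (spM 𝒜) :=
  mkO (fun k P => om2 (fun u => SDist.Psi 𝒜 p e (P.1 u)) (lf_plot h hB hk P))
    (fun k l P g => om2_comp (lf_plot h hB hk P) g)

theorem on_omega (h : EData 𝒜 p e) (hB : Bl M) (hk : 𝒜.HK 1) {k : ℕ} (P : (spM 𝒜).Plot k) :
    Om.on (omega h hB hk) P = om2 (fun u => SDist.Psi 𝒜 p e (P.1 u)) (lf_plot h hB hk P) := rfl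

theorem omega_closed (h : EData 𝒜 p e) (hB : Bl M) (hk : 𝒜.HK 1) : dO _ (omega h hB hk) = 0 :=
  Om_ext fun k P => by rw [on_d, on_omega, dd_om2, on_zero]

theorem omega_deg (h : EData 𝒜 p e) (hB : Bl M) (hk : 𝒜.HK 1) : Deg 2 (omega h hB hk) := fun k P => by
  rw [on_omega]
  exact Dg_om2 _

theorem Psi_Ex (h : EData 𝒜 p e) (hB : Bl M) (hk : 𝒜.HK 1) {x : Eu n} (hx : ‖x‖ ≤ π) :
    SDist.Psi 𝒜 p e (𝒜.Ex p x) = prj (zf e x) := by
  by_cases h0 : x = 0
  · have h1 : 𝒜.Ex p x = p := by rw [h0]; exact Ex_zero 𝒜 hB p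
    rw [h1, zf_near (by rw [h0, norm_zero]; exact zero_le_one)]
    unfold SDist.Psi
    rw [dist_self, stp_le zero_le_one, Real.sin_zero, Real.cos_zero]
    congr 1
    ext j
    refine Fin.cases ?_ (fun j => ?_) j
    · rw [cz_zero, cz_zero]
    · rw [cz_succ, cz_succ, Complex.ofReal_zero, zero_mul, zero_mul]
  · have h1 := norm_normalize h0
    have h2 : 𝒜.Ex p x = 𝒜.gv p (‖x‖⁻¹ • x) ‖x‖ := by
      rw [← Ex_smul 𝒜 hB p h1, (exa_polar h0).2]
    rw [h2, Psi_gv h hB hk h1 (norm_nonneg _) hx]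
    rfl

theorem map_tr_ee {k l : ℕ} (g : FR.Sm k l) (x : V k) (j : Fin l) :
    ExteriorAlgebra.map (tr g x) (ee j) = ∑ i, (pd i (g.cp j) : V k → ℝ) x • ee i := by
  unfold ee
  rw [ExteriorAlgebra.map_apply_ι, ι_eq]
  refine Finset.sum_congr rfl fun i _ => ?_
  congr 1
  change ∑ j', (Pi.single j (1 : ℝ) : V l) j' * (pd i (g.cp j') : V k → ℝ) x = _
  rw [Finset.sum_eq_single j]
  · rw [Pi.single_eq_same, one_mul]
  · intro b _ hb
    rw [Pi.single_eq_of_ne hb, zero_mul]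
  · intro h
    exact absurd (Finset.mem_univ j) h

theorem ev_fc_dx {k : ℕ} (f : Cs k) (j : Fin k) (u : V k) : ev u (fc k f * dx j) = (f : V k → ℝ) u • ee j := by
  rw [map_mul, ev_fc, ev_dx, ← Algebra.smul_def]

theorem lam_zf (he : GCF e) {k : ℕ} (q : FR.Sm k n) (hz : ContDiff ℝ ∞ (fun u : V k => zf e (toE (q u)))) :
    lam (fun u : V k => zf e (toE (q u))) hz = pb q (BB e) := by
  refine ev_ext fun u => ?_
  unfold lam
  rw [ev_pb, BB_eq he]
  simp only [map_sum, ev_fc_dx, mkC_apply, map_smul, map_tr_ee, Finset.smul_sum, smul_smul]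
  rw [Finset.sum_comm]
  refine Finset.sum_congr rfl fun j _ => ?_
  rw [← Finset.sum_smul]
  congr 1
  have h1 : HasFDerivAt (fun u : V k => zf e (toE (q u))) ((fderiv ℝ (zf e) (toE (q u))).comp
      (((PiLp.continuousLinearEquiv 2 ℝ (fun _ : Fin n => ℝ)).symm : V n →L[ℝ] Eu n).comp
        (fderiv ℝ (q : V k → V n) u))) u := by
    refine HasFDerivAt.comp (g := zf e) u ((contDiff_zf he).contDiffAt.differentiableAt (by simp)).hasFDerivAt ?_
    exact ((PiLp.continuousLinearEquiv 2 ℝ (fun _ : Fin n => ℝ)).symm : V n →L[ℝ] Eu n).hasFDerivAt.comp u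
      (q.diff u).hasFDerivAt
  rw [h1.fderiv, ContinuousLinearMap.comp_apply, im_zf he, real_inner_sum]
  have h2 : ∀ i : Fin n, (((PiLp.continuousLinearEquiv 2 ℝ (fun _ : Fin n => ℝ)).symm : V n →L[ℝ] Eu n).comp
        (fderiv ℝ (q : V k → V n) u)) (bv j) i = (pd j (q.cp i) : V k → ℝ) u := by
    intro i
    change fderiv ℝ (q : V k → V n) u (bv j) i = _
    rw [pd_apply]
    change _ = fderiv ℝ (fun x => q x i) u (Pi.single j 1)
    rw [fderiv_apply (q.diff u)]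
    rfl
  simp only [h2]
  rw [Finset.mul_sum, Finset.mul_sum]
  refine Finset.sum_congr rfl fun i _ => ?_
  unfold bco
  by_cases hx : ‖toE (q u)‖ = 0
  · rw [hx]; simp
  · field_simp

theorem omega_ex (he : GCF e) (h : EData 𝒜 p e) (hB : Bl M) (hk : 𝒜.HK 1) (k : ℕ) (P : (spM 𝒜).Plot k)
    (q : FR.Sm k n) (hq : ∀ u, ‖toE (q u)‖ < π ∧ P.1 u = 𝒜.Ex p (toE (q u))) :
    Om.on (omega h hB hk) P = pb q (dd n (BB e)) := by
  have hz : ContDiff ℝ ∞ (fun u : V k => zf e (toE (q u))) := (contDiff_zf he).comp (contDiff_toE.comp q.smooth)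
  have hL : ∀ u, Line (SDist.Psi 𝒜 p e (P.1 u)) (zf e (toE (q u))) := fun u => by
    rw [(hq u).2, Psi_Ex h hB hk (hq u).1.le]
    exact line_prj (norm_zf he _)
  rw [on_omega, om2_lift _ hz hL, lam_zf he, pb_dd]

end Omega

end Pool.Agent.Lib.MP_ccbbf6_gt.L4
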