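import Pool.Agent.Lib.MP_ccbbf6_gt.L4.DPH
import Pool.Agent.Lib.MP_ccbbf6_gt.L4.OMf

/-!
# Level 4, CEb: the disc of a geodesic through `p` has half integer area (helper13)
-/

set_option autoImplicit false
set_option linter.unusedSectionVars false
set_option maxSynthPendingDepth 3

open Set Filter Topology Metric Real
open scoped ContDiff RealInnerProductSpace

noncomputable section

namespace Pool.Agent.Lib.MP_ccbbf6_gt.L4

open Geo FR


/-! ### the parallel lift over a closed geodesic -/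

section Lift

variable {n : ℕ}

/-- the angle along the closed geodesic -/
def ang (t : ℝ) : ℝ := stp t - stp (2 * π - t) + π / 2

theorem contDiff_ang : ContDiff ℝ ∞ ang :=
  (contDiff_stp.sub (contDiff_stp.comp (contDiff_const.sub contDiff_id))).add contDiff_const

theorem ang_le {t : ℝ} (h : t ≤ π) : ang t = stp t := by
  unfold ang
  rw [stp_ge (r := 2 * π - t) (by linarith [pi_gt_three])]
  ring

theorem ang_ge {t : ℝ} (h : π ≤ t) : ang t = π - stp (2 * π - t) := by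
  unfold ang
  rw [stp_ge (r := t) (by linarith [pi_gt_three])]
  ring

/-- the lift -/
def yl (v w : Eu n) (t : ℝ) : Ec n := cos (ang t) • cz 1 0 0 0 + sin (ang t) • cz 0 1 v w

theorem yl_eq (v w : Eu n) (t : ℝ) : yl v w t = cz (cos (ang t)) (sin (ang t)) v w := by
  unfold yl
  ext j
  refine Fin.cases ?_ (fun j => ?_) j
  · rw [PiLp.add_apply, PiLp.smul_apply, PiLp.smul_apply, cz_zero, cz_zero, cz_zero]
    simp
  · rw [PiLp.add_apply, PiLp.smul_apply, PiLp.smul_apply, cz_succ, cz_succ, cz_succ]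
    simp only [Complex.real_smul]
    push_cast
    ring

theorem contDiff_yl (v w : Eu n) : ContDiff ℝ ∞ (yl v w) :=
  (contDiff_ang.cos.smul contDiff_const).add (contDiff_ang.sin.smul contDiff_const)

theorem im_yl {v w : Eu n} (t : ℝ) : ((inner ℂ (yl v w t) (deriv (yl v w) t))).im = 0 := by
  have ha : HasDerivAt ang (deriv ang t) t := (contDiff_ang.contDiffAt.differentiableAt (by simp)).hasDerivAt
  have h1 : HasDerivAt (yl v w) ((-sin (ang t) * deriv ang t) • cz 1 0 0 0 + (cos (ang t) * deriv ang t) • cz 0 1 v w) t :=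
    (ha.cos.smul_const _).add (ha.sin.smul_const _)
  rw [h1.deriv]
  unfold yl
  simp only [← Complex.coe_smul, inner_add_left, inner_add_right, inner_smul_left, inner_smul_right, inner_cz,
    Complex.conj_ofReal]
  simp only [inner_zero_left, inner_zero_right, real_inner_comm v w]
  simp [Complex.add_im, Complex.mul_im, Complex.mul_re]
  refine Or.inr (Or.inr ?_)
  rw [← Complex.ofReal_pow, ← Complex.ofReal_pow, Complex.ofReal_im, Complex.ofReal_im, add_zero]

theorem yl_zero (v w : Eu n) : yl v w 0 = cz 1 0 0 0 := by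
  unfold yl
  rw [ang_le pi_pos.le, stp_le zero_le_one, Real.cos_zero, Real.sin_zero, one_smul, zero_smul, add_zero]

theorem yl_end (v w : Eu n) : yl v w (2 * π) = -cz 1 0 0 0 := by
  unfold yl
  rw [ang_ge (by linarith [pi_pos]), sub_self, stp_le zero_le_one, sub_zero, Real.cos_pi, Real.sin_pi, zero_smul,
    add_zero, neg_smul, one_smul]

end Lift

section Disc

variable {n : ℕ} {M : Type} [MetricSpace M] [CompactSpace M] {𝒜 : SDist n M} {p : M} {e : Eu n → Eu n}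

theorem EData.neg (h : EData 𝒜 p e) {v : Eu n} (hv : ‖v‖ = 1) : e (-v) = -e v := by
  have h1 := h.rot v hv π
  rw [Real.cos_pi, Real.sin_pi, zero_smul, add_zero, neg_zero, zero_smul, zero_add, neg_smul, neg_smul, one_smul,
    one_smul] at h1
  exact h1

theorem line_geo (h : EData 𝒜 p e) (hB : Bl M) (hk : 𝒜.HK 1) {v : Eu n} (hv : ‖v‖ = 1) {t : ℝ}
    (ht : t ∈ Icc 0 (2 * π)) : Line (SDist.Psi 𝒜 p e (𝒜.gv p v t)) (yl v (e v) t) := by
  rcases le_total t π with h1 | h1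
  · rw [Psi_gv h hB hk hv ht.1 h1, yl_eq, ang_le h1]
    exact line_prj (norm_cz (by rw [add_comm]; exact Real.sin_sq_add_cos_sq _) (Or.inr (h.op hv)))
  · have hv' : ‖-v‖ = 1 := by rw [norm_neg, hv]
    have h2 : 𝒜.gv p v t = 𝒜.gv p (-v) (2 * π - t) := by
      rw [gv_neg 𝒜 hB p hv]
      have h3 := IsGeo.closed 𝒜 hB (gv_spec 𝒜 hB p hv).1 (-(2 * π - t))
      rw [← h3]
      congr 1
      ring
    rw [h2, Psi_gv h hB hk hv' (by linarith [ht.2]) (by linarith), yl_eq, ang_ge h1, Real.cos_pi_sub, Real.sin_pi_sub,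
      h.neg hv]
    have h4 : cz (cos (stp (2 * π - t))) (sin (stp (2 * π - t))) (-v) (-e v) =
        (-1 : ℂ) • cz (-cos (stp (2 * π - t))) (sin (stp (2 * π - t))) v (e v) := by
      ext j
      refine Fin.cases ?_ (fun j => ?_) j
      · rw [PiLp.smul_apply, cz_zero, cz_zero]
        simp
      · rw [PiLp.smul_apply, cz_succ, cz_succ, PiLp.neg_apply, PiLp.neg_apply, smul_eq_mul]
        push_cast
        ring
    rw [h4, prj_smul (by simp)]
    exact line_prj (norm_cz (by rw [neg_sq, add_comm]; exact Real.sin_sq_add_cos_sq _) (Or.inr (h.op hv)))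

/-- `(θ, s) ↦ (θ, 1 - s)` as a linear map plus a constant -/
def flipL : ℝ × ℝ →L[ℝ] V 2 := ContinuousLinearMap.pi ![ContinuousLinearMap.fst ℝ ℝ ℝ, -ContinuousLinearMap.snd ℝ ℝ ℝ]

theorem flip_eq (x : ℝ × ℝ) : (![x.1, 1 - x.2] : V 2) = flipL x + ![0, 1] := by
  funext i
  fin_cases i
  · change x.1 = x.1 + 0
    rw [add_zero]
  · change 1 - x.2 = -x.2 + 1
    ring

theorem flipL_one : flipL (1, 0) = bv 0 := by
  funext i
  fin_cases i
  · change (1 : ℝ) = (Pi.single 0 1 : V 2) 0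
    rw [Pi.single_eq_same]
  · change -(0 : ℝ) = (Pi.single 0 1 : V 2) 1
    rw [Pi.single_eq_of_ne (by decide), neg_zero]

theorem flipL_two : flipL (0, 1) = -bv 1 := by
  funext i
  fin_cases i
  · change (0 : ℝ) = -(Pi.single 1 1 : V 2) 0
    rw [Pi.single_eq_of_ne (by decide), neg_zero]
  · change -(1 : ℝ) = -(Pi.single 1 1 : V 2) 1
    rw [Pi.single_eq_same]

theorem area_disc_half (h : EData 𝒜 p e) (hB : Bl M) (hk : 𝒜.HK 1) {f : Gs M → ℝ → M} (hf : Fill 𝒜 f) (c : Gs M)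
    (hc : c.1 0 = p) : ∃ k : ℤ, area (omega h hB hk) (discP hB hf c) = k + 1 / 2 := by
  -- the direction
  obtain ⟨v, hv, hcv⟩ : ∃ v : Eu n, ‖v‖ = 1 ∧ c.1 = 𝒜.gv p v := by
    refine ⟨𝒜.vel c.1 0, (IsGeo.exists_vel 𝒜 c.2 0).1, ?_⟩
    exact (exa_gv_unique 𝒜 c.2 hc rfl).symm
  obtain ⟨F₀, hF₀⟩ : ∃ F₀ : V 2 → Ec n →L[ℝ] Ec n, F₀ = fun u => SDist.Psi 𝒜 p e ((discP hB hf c).1 u) := ⟨_, rfl⟩
  have hLF : LF F₀ := by rw [hF₀]; exact lf_plot h hB hk _
  obtain ⟨F, hF⟩ : ∃ F : ℝ × ℝ → Ec n →L[ℝ] Ec n, F = fun x => F₀ ![x.1, 1 - x.2] := ⟨_, rfl⟩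
  obtain ⟨Ω, hΩ⟩ : ∃ Ω : ℝ × ℝ → ℝ, Ω = fun x => -wf F₀ ![x.1, 1 - x.2] (bv 0) (bv 1) := ⟨_, rfl⟩
  have hFv : ∀ θ s, F (θ, s) = SDist.Psi 𝒜 p e (f (shift (2 * π * θ) c) (1 - s)) := by
    intro θ s
    rw [hF, hF₀]
    rfl
  have hg : ContDiff ℝ ∞ fun x : ℝ × ℝ => (![x.1, 1 - x.2] : V 2) := by
    have : (fun x : ℝ × ℝ => (![x.1, 1 - x.2] : V 2)) = fun x => flipL x + ![0, 1] := funext flip_eq
    rw [this]
    exact flipL.contDiff.add contDiff_const
  have hFs : ContDiff ℝ ∞ F := by rw [hF]; exact hLF.smooth.comp hg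
  have hI : ∀ x, ∃ z, Line (F x) z := fun x => by rw [hF]; exact hLF.line _
  have hΩc : Continuous Ω := by
    rw [hΩ]
    exact ((contDiff_wf hLF (bv 0) (bv 1)).continuous.comp hg.continuous).neg
  have hD : IsDens F Ω := by
    intro x z hz
    have h1 : HasFDerivAt F ((fderiv ℝ F₀ ![x.1, 1 - x.2]).comp flipL) x := by
      rw [hF]
      refine HasFDerivAt.comp (g := F₀) x (hLF.smooth.contDiffAt.differentiableAt (by simp)).hasFDerivAt ?_
      have : (fun x : ℝ × ℝ => (![x.1, 1 - x.2] : V 2)) = fun x => flipL x + ![0, 1] := funext flip_eq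
      rw [this]
      exact flipL.hasFDerivAt.add_const _
    have hz' : Line (F₀ ![x.1, 1 - x.2]) z := by rw [hF] at hz; exact hz
    rw [hΩ, h1.fderiv]
    show -wf F₀ ![x.1, 1 - x.2] (bv 0) (bv 1) = _
    rw [wf_eq hLF hz', ContinuousLinearMap.comp_apply, ContinuousLinearMap.comp_apply, flipL_one, flipL_two, map_neg]
    simp
  have hper : ∀ θ s, F (θ + 1, s) = F (θ, s) := by
    intro θ s
    rw [hFv, hFv]
    have e1 : 2 * π * (θ + 1) = 2 * π * θ + 2 * π := by ring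
    rw [e1, shift_period 𝒜 hB]
  have hconst : ∀ θ, F (θ, 0) = F (0, 0) := by
    intro θ
    rw [hFv, hFv, sub_zero, hf.inv, hf.inv]
  obtain ⟨y, hy⟩ : ∃ y : ℝ → Ec n, y = fun θ => yl v (e v) (2 * π * θ) := ⟨_, rfl⟩
  have hys : ContDiff ℝ ∞ y := by
    rw [hy]
    exact (contDiff_yl v (e v)).comp (contDiff_const.mul contDiff_id)
  have hyL : ∀ θ ∈ Icc (0 : ℝ) 1, Line (F (θ, 1)) (y θ) := by
    intro θ hθ
    rw [hFv, sub_self, hf.zero _ _ (by norm_num), hy]
    have e1 : (shift (2 * π * θ) c).1 0 = 𝒜.gv p v (2 * π * θ) := by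
      rw [← hcv]
      show c.1 (0 + 2 * π * θ) = _
      rw [zero_add]
    rw [e1]
    refine line_geo h hB hk hv ⟨?_, ?_⟩
    · have := pi_pos
      have := hθ.1
      positivity
    · nlinarith [pi_pos, hθ.2]
  have hy0 : ∀ θ ∈ Icc (0 : ℝ) 1, ((inner ℂ (y θ) (deriv y θ))).im = 0 := by
    intro θ _
    have h1 : HasDerivAt y ((2 * π) • deriv (yl v (e v)) (2 * π * θ)) θ := by
      rw [hy]
      have h2 : HasDerivAt (yl v (e v)) (deriv (yl v (e v)) (2 * π * θ)) (2 * π * θ) :=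
        ((contDiff_yl v (e v)).contDiffAt.differentiableAt (by simp)).hasDerivAt
      have h3 : HasDerivAt (fun θ : ℝ => 2 * π * θ) (2 * π) θ := by
        simpa using (hasDerivAt_id θ).const_mul (2 * π)
      exact h2.scomp θ h3
    rw [h1.deriv, hy]
    show ((inner ℂ (yl v (e v) (2 * π * θ)) ((2 * π) • deriv (yl v (e v)) (2 * π * θ)))).im = 0
    rw [← Complex.coe_smul, inner_smul_right, Complex.im_ofReal_mul, im_yl, mul_zero]
  have hyT : y 1 = -y 0 := by
    rw [hy]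
    show yl v (e v) (2 * π * 1) = -yl v (e v) (2 * π * 0)
    rw [mul_one, mul_zero, yl_zero, yl_end]
  obtain ⟨k, hk1⟩ := cylinder_half hFs hI hΩc hD one_pos zero_le_one hper hconst hys hyL hy0 hyT
  refine ⟨-k - 1, ?_⟩
  have h5 : area (omega h hB hk) (discP hB hf c) = -∫ θ in (0 : ℝ)..1, ∫ s in (0 : ℝ)..1, Ω (θ, s) := by
    unfold area
    rw [← intervalIntegral.integral_neg]
    refine intervalIntegral.integral_congr fun t _ => ?_
    show ∫ s in (0 : ℝ)..1, topE 2 (ev ![t, s] (Om.on (omega h hB hk) (discP hB hf c))) = -∫ s in (0 : ℝ)..1, Ω (t, s)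
    have h6 : ∀ s, topE 2 (ev ![t, s] (Om.on (omega h hB hk) (discP hB hf c))) = -Ω (t, 1 - s) := by
      intro s
      rw [on_omega, topE_om2, hΩ, hF₀]
      show _ = - -wf _ ![t, 1 - (1 - s)] _ _
      rw [neg_neg, sub_sub_cancel]
    simp only [h6]
    rw [intervalIntegral.integral_neg, intervalIntegral.integral_comp_sub_left (fun s => Ω (t, s)) 1]
    norm_num
  rw [h5, hk1]
  push_cast
  ring

/-- **the form `ω`** -/
theorem exists_omega (hB : Bl M) (hK : 𝒜.HK 1) (p : M) {e : Eu n → Eu n} (he : GCF e)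
    (hep : ∀ v, ‖v‖ = 1 → 𝒜.gv p (e v) π = 𝒜.gv p v π) :
    ∃ om : Om (spM 𝒜), dO _ om = 0 ∧ Deg 2 om ∧ (∀ (k : ℕ) (P : (spM 𝒜).Plot k) (q : FR.Sm k n),
        (∀ u, ‖toE (q u)‖ < π ∧ P.1 u = 𝒜.Ex p (toE (q u))) → Om.on om P = pb q (dd n (BB e))) ∧
      ∀ (f : Gs M → ℝ → M) (hf : Fill 𝒜 f) (c : Gs M), c.1 0 = p →
        ∃ k : ℤ, area om (discP hB hf c) = k + 1 / 2 :=
  ⟨omega (EData.of_gcf he hep) hB hK, omega_closed _ hB hK, omega_deg _ hB hK,
    fun k P q hq => omega_ex he _ hB hK k P q hq, fun _ hf c hc => area_disc_half _ hB hK hf c hc⟩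

end Disc

end Pool.Agent.Lib.MP_ccbbf6_gt.L4

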