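import Pool.Agent.Lib.MP_ccbbf6_gt.ML

/-!
# CO1: the elementary operation on loops (Level 4, exact collapse), definitions and loop part

`DD G c θ s t`: on each cell `[b, b + π)`, `b ∈ -θ + π ℤ`, the loop `c` is replaced by the segment from `c b` to `c (b + s π)` on `[b, b + s π]`.
-/

set_option autoImplicit false
set_option linter.unusedSectionVars false

open Set Filter Topology Metric Real

noncomputable section

namespace Pool.Agent.Lib.MP_ccbbf6_gt.L4.CO

variable {M : Type*} [MetricSpace M]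

/-- segments between points at distance `< π` -/
structure Seg (G : M → M → ℝ → M) : Prop where
  zero : ∀ x y, dist x y < π → G x y 0 = x
  one : ∀ x y, dist x y < π → G x y 1 = y
  lip : ∀ x y, dist x y < π → ∀ s ∈ Icc (0 : ℝ) 1, ∀ t ∈ Icc (0 : ℝ) 1, dist (G x y s) (G x y t) ≤ |s - t| * dist x y
  symm : ∀ x y, dist x y < π → ∀ t ∈ Icc (0 : ℝ) 1, G y x t = G x y (1 - t)
  cont : ContinuousOn (fun z : (M × M) × ℝ => G z.1.1 z.1.2 z.2) {z | dist z.1.1 z.1.2 < π ∧ z.2 ∈ Icc (0 : ℝ) 1}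

/-- time since the last partition point, in `[0, π)` -/
def el (θ : ℝ) : ℝ := π * Int.fract (θ / π)

/-- the elementary operation on loops -/
def DD (G : M → M → ℝ → M) (c : ℝ → M) (θ s t : ℝ) : M :=
  if el (θ + t) < s * π then G (c (t - el (θ + t))) (c (t - el (θ + t) + s * π)) (el (θ + t) / (s * π)) else c t

theorem el_nonneg (θ : ℝ) : 0 ≤ el θ := mul_nonneg Real.pi_pos.le (Int.fract_nonneg _)

theorem el_lt (θ : ℝ) : el θ < π := by
  have h := Int.fract_lt_one (θ / π)
  have := Real.pi_pos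
  unfold el
  nlinarith

theorem el_add_int (θ : ℝ) (k : ℤ) : el (θ + k * π) = el θ := by
  have := Real.pi_pos.ne'
  unfold el
  rw [add_div, mul_div_assoc, div_self this, mul_one, Int.fract_add_intCast]

theorem el_self {θ : ℝ} (h0 : 0 ≤ θ) (h1 : θ < π) : el θ = θ := by
  have hp := Real.pi_pos
  unfold el
  rw [Int.fract_eq_self.mpr ⟨by positivity, by rw [div_lt_one hp]; exact h1⟩]
  field_simp

/-- `θ = el θ + k π` -/
theorem el_spec (θ : ℝ) : ∃ k : ℤ, θ = el θ + k * π := by
  refine ⟨⌊θ / π⌋, ?_⟩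
  have hp := Real.pi_pos.ne'
  have h := Int.fract_add_floor (θ / π)
  have h2 : θ = π * (θ / π) := by field_simp
  conv_lhs => rw [h2, ← h]
  unfold el
  ring

variable {G : M → M → ℝ → M}

theorem DD_zero (c : ℝ → M) (θ t : ℝ) : DD G c θ 0 t = c t := by
  unfold DD
  rw [if_neg]
  rw [zero_mul]
  exact not_lt.mpr (el_nonneg _)

/-- translation equivariance -/
theorem DD_shift (c : ℝ → M) (θ s r t : ℝ) : DD G (fun x => c (x + r)) (θ + r) s t = DD G c θ s (t + r) := by
  unfold DD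
  have h1 : θ + r + t = θ + (t + r) := by ring
  have h2 : t - el (θ + (t + r)) + r = t + r - el (θ + (t + r)) := by ring
  have h3 : t - el (θ + (t + r)) + s * π + r = t + r - el (θ + (t + r)) + s * π := by ring
  simp only [h1, h2, h3]

theorem DD_int (c : ℝ → M) (θ s t : ℝ) (k : ℤ) : DD G c (θ + k * π) s t = DD G c θ s t := by
  unfold DD
  have h1 : θ + k * π + t = θ + t + k * π := by ring
  simp only [h1, el_add_int]

/-- in the cell of `b`: `c` on `[b + s π, b + π]` -/
theorem DD_late {c : ℝ → M} {θ s : ℝ} {k : ℤ} {u : ℝ} (hs0 : 0 ≤ s) (hu0 : s * π ≤ u) (hu1 : u < π) :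
    DD G c θ s (-θ + k * π + u) = c (-θ + k * π + u) := by
  unfold DD
  have hp := Real.pi_pos
  have h1 : θ + (-θ + k * π + u) = u + k * π := by ring
  have h2 : 0 ≤ u := le_trans (by positivity) hu0
  rw [h1, el_add_int, el_self h2 hu1, if_neg (not_lt.mpr hu0)]

theorem DD_early {c : ℝ → M} {θ s : ℝ} {k : ℤ} {u : ℝ} (hs1 : s ≤ 1) (hu0 : 0 ≤ u) (hu1 : u < s * π) :
    DD G c θ s (-θ + k * π + u) = G (c (-θ + k * π)) (c (-θ + k * π + s * π)) (u / (s * π)) := by
  unfold DD
  have hp := Real.pi_pos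
  have h1 : θ + (-θ + k * π + u) = u + k * π := by ring
  have h2 : u < π := lt_of_lt_of_le hu1 (by nlinarith)
  have h3 : -θ + k * π + u - u = -θ + k * π := by ring
  rw [h1, el_add_int, el_self hu0 h2, if_pos hu1, h3]

/-- loops with Lipschitz constant `lam` -/
def Lip (lam : ℝ) (c : ℝ → M) : Prop := ∀ s t, dist (c s) (c t) ≤ lam * |s - t|

theorem Seg.const (hG : Seg G) (x : M) {t : ℝ} (ht : t ∈ Icc (0 : ℝ) 1) : G x x t = x := by
  have hp := Real.pi_pos
  have h0 : dist x x < π := by rw [dist_self]; exact hp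
  have h1 := hG.lip x x h0 t ht 0 ⟨le_rfl, zero_le_one⟩
  rw [dist_self, mul_zero, hG.zero x x h0] at h1
  exact dist_le_zero.mp h1

theorem Lip.dist_lt {lam : ℝ} (h1 : lam < 1) {c : ℝ → M} (hc : Lip lam c) (b : ℝ) {s : ℝ} (hs0 : 0 ≤ s) (hs1 : s ≤ 1) :
    dist (c b) (c (b + s * π)) < π := by
  have hp := Real.pi_pos
  have h2 := hc b (b + s * π)
  have h3 : |b - (b + s * π)| = s * π := by
    rw [sub_add_cancel_left, abs_neg, abs_of_nonneg (by positivity)]
  rw [h3] at h2
  rcases hs0.eq_or_lt with h | h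
  · rw [← h, zero_mul, mul_zero] at h2
    rw [← h, zero_mul]
    exact lt_of_le_of_lt h2 hp
  · have h4 : lam * (s * π) < s * π := by
      have : 0 < s * π := by positivity
      nlinarith
    have h5 : s * π ≤ π := by nlinarith
    linarith

/-- the early formula is valid on the closed interval -/
theorem DD_early' (hG : Seg G) {lam : ℝ} (h1 : lam < 1) {c : ℝ → M} (hc : Lip lam c) {θ s : ℝ} {k : ℤ} {u : ℝ}
    (hs0 : 0 < s) (hs1 : s ≤ 1) (hu0 : 0 ≤ u) (hu1 : u ≤ s * π) :
    DD G c θ s (-θ + k * π + u) = G (c (-θ + k * π)) (c (-θ + k * π + s * π)) (u / (s * π)) := by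
  have hp := Real.pi_pos
  rcases hu1.eq_or_lt with h | h
  · have hd := Lip.dist_lt h1 hc (-θ + k * π) hs0.le hs1
    have hne : s * π ≠ 0 := by positivity
    rw [h, div_self hne, hG.one _ _ hd]
    rcases hs1.eq_or_lt with h2 | h2
    · have h3 : -θ + (k : ℝ) * π + s * π = -θ + ((k + 1 : ℤ) : ℝ) * π + 0 := by
        rw [h2]; push_cast; ring
      rw [h3, DD_early hs1 le_rfl (by positivity), zero_div, hG.zero _ _ (Lip.dist_lt h1 hc _ hs0.le hs1), add_zero]
    · exact DD_late hs0.le le_rfl (by nlinarith)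
  · exact DD_early hs1 hu0 h

theorem DD_late' (hG : Seg G) {lam : ℝ} (h1 : lam < 1) {c : ℝ → M} (hc : Lip lam c) {θ s : ℝ} {k : ℤ} {u : ℝ}
    (hs0 : 0 < s) (hs1 : s ≤ 1) (hu0 : s * π ≤ u) (hu1 : u ≤ π) :
    DD G c θ s (-θ + k * π + u) = c (-θ + k * π + u) := by
  have hp := Real.pi_pos
  rcases hu1.eq_or_lt with h | h
  · have h3 : -θ + (k : ℝ) * π + u = -θ + ((k + 1 : ℤ) : ℝ) * π + 0 := by
      rw [h]; push_cast; ring
    rw [h3, DD_early hs1 le_rfl (by positivity), zero_div, hG.zero _ _ (Lip.dist_lt h1 hc _ hs0.le hs1), add_zero]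
  · exact DD_late hs0.le hu0 h

/-- gluing of the Lipschitz estimates on the cells -/
theorem lip_glue {f : ℝ → M} {lam θ : ℝ}
    (h : ∀ k : ℤ, ∀ u ∈ Icc (0 : ℝ) π, ∀ u' ∈ Icc (0 : ℝ) π, u ≤ u' →
      dist (f (-θ + k * π + u)) (f (-θ + k * π + u')) ≤ lam * (u' - u)) : Lip lam f := by
  have hp := Real.pi_pos
  have key : ∀ x y : ℝ, x ≤ y → dist (f x) (f y) ≤ lam * (y - x) := by
    intro x y hxy
    obtain ⟨k, hk⟩ := el_spec (θ + x)
    have hx : x = -θ + k * π + el (θ + x) := by linarith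
    have h0 := el_nonneg (θ + x)
    have h1 := (el_lt (θ + x)).le
    have step : ∀ m : ℕ, ∀ y : ℝ, x ≤ y → y ≤ -θ + k * π + π + m * π → dist (f x) (f y) ≤ lam * (y - x) := by
      intro m
      induction m with
      | zero =>
        intro y hxy hy
        have h2 : y = -θ + k * π + (y - (-θ + k * π)) := by ring
        have h3 := h k (el (θ + x)) ⟨h0, h1⟩ (y - (-θ + k * π))
          ⟨by linarith, by push_cast at hy; linarith⟩ (by linarith)
        rw [← h2, ← hx] at h3
        have h4 : y - (-θ + k * π) - el (θ + x) = y - x := by linarith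
        rwa [h4] at h3
      | succ m ih =>
        intro y hxy hy
        by_cases hym : y ≤ -θ + k * π + π + m * π
        · exact ih y hxy hym
        · push Not at hym
          have h2 : -θ + (k : ℝ) * π + π + m * π = -θ + ((k + m + 1 : ℤ) : ℝ) * π + 0 := by push_cast; ring
          have h3 : y = -θ + ((k + m + 1 : ℤ) : ℝ) * π + (y - (-θ + k * π + π + m * π)) := by push_cast; ring
          have h4 := h (k + m + 1) 0 ⟨le_rfl, hp.le⟩ (y - (-θ + k * π + π + m * π))
            ⟨by linarith, by push_cast at hy; linarith⟩ (by linarith)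
          rw [← h3, ← h2] at h4
          have hm : (0 : ℝ) ≤ m * π := by positivity
          have h5 := ih (-θ + k * π + π + m * π) (by linarith) le_rfl
          calc dist (f x) (f y) ≤ dist (f x) (f (-θ + k * π + π + m * π)) + dist (f (-θ + k * π + π + m * π)) (f y) :=
                dist_triangle _ _ _
            _ ≤ lam * (-θ + k * π + π + m * π - x) + lam * (y - (-θ + k * π + π + m * π) - 0) := add_le_add h5 h4
            _ = lam * (y - x) := by ring
    obtain ⟨m, hm⟩ := exists_nat_ge ((y - (-θ + k * π + π)) / π)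
    rw [div_le_iff₀ hp] at hm
    exact step m y hxy (by linarith)
  intro x y
  rcases le_total x y with hxy | hxy
  · rw [abs_sub_comm, abs_of_nonneg (sub_nonneg.mpr hxy)]
    exact key x y hxy
  · rw [dist_comm, abs_of_nonneg (sub_nonneg.mpr hxy)]
    exact key y x hxy

/-- the operation does not increase the Lipschitz constant -/
theorem DD_lip (hG : Seg G) {lam : ℝ} (h0 : 0 ≤ lam) (h1 : lam < 1) {c : ℝ → M} (hc : Lip lam c) (θ : ℝ) {s : ℝ}
    (hs0 : 0 ≤ s) (hs1 : s ≤ 1) : Lip lam (DD G c θ s) := by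
  have hp := Real.pi_pos
  rcases hs0.eq_or_lt with h | hs
  · rw [← h]
    have : DD G c θ 0 = c := funext fun t => DD_zero c θ t
    rw [this]
    exact hc
  have hsp : 0 < s * π := by positivity
  refine lip_glue (θ := θ) fun k => ?_
  -- early part
  have hE : ∀ u u' : ℝ, 0 ≤ u → u ≤ u' → u' ≤ s * π →
      dist (DD G c θ s (-θ + k * π + u)) (DD G c θ s (-θ + k * π + u')) ≤ lam * (u' - u) := by
    intro u u' hu huu hu'
    rw [DD_early' hG h1 hc hs hs1 hu (huu.trans hu'), DD_early' hG h1 hc hs hs1 (hu.trans huu) hu']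
    have hd := Lip.dist_lt h1 hc (-θ + k * π) hs.le hs1
    have h2 := hG.lip _ _ hd (u / (s * π)) ⟨by positivity, by rw [div_le_one hsp]; linarith⟩ (u' / (s * π))
      ⟨div_nonneg (by linarith) hsp.le, by rw [div_le_one hsp]; exact hu'⟩
    have h3 := hc (-θ + k * π) (-θ + k * π + s * π)
    rw [sub_add_cancel_left, abs_neg, abs_of_pos hsp] at h3
    have h4 : |u / (s * π) - u' / (s * π)| = (u' - u) / (s * π) := by
      rw [← sub_div, abs_div, abs_of_pos hsp, abs_sub_comm, abs_of_nonneg (sub_nonneg.mpr huu)]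
    rw [h4] at h2
    calc _ ≤ (u' - u) / (s * π) * dist (c (-θ + k * π)) (c (-θ + k * π + s * π)) := h2
      _ ≤ (u' - u) / (s * π) * (lam * (s * π)) :=
          mul_le_mul_of_nonneg_left h3 (div_nonneg (sub_nonneg.mpr huu) hsp.le)
      _ = lam * (u' - u) := by field_simp
  -- late part
  have hL : ∀ u u' : ℝ, s * π ≤ u → u ≤ u' → u' ≤ π →
      dist (DD G c θ s (-θ + k * π + u)) (DD G c θ s (-θ + k * π + u')) ≤ lam * (u' - u) := by
    intro u u' hu huu hu'
    rw [DD_late' hG h1 hc hs hs1 hu (huu.trans hu'), DD_late' hG h1 hc hs hs1 (hu.trans huu) hu']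
    have h2 := hc (-θ + k * π + u) (-θ + k * π + u')
    have h3 : |-θ + (k : ℝ) * π + u - (-θ + k * π + u')| = u' - u := by
      rw [abs_sub_comm, abs_of_nonneg (by linarith)]
      ring
    rwa [h3] at h2
  intro u hu u' hu' huu
  by_cases c1 : u' ≤ s * π
  · exact hE u u' hu.1 huu c1
  push Not at c1
  by_cases c2 : s * π ≤ u
  · exact hL u u' c2 huu hu'.2
  push Not at c2
  have h2 := hE u (s * π) hu.1 c2.le le_rfl
  have h3 := hL (s * π) u' le_rfl c1.le hu'.2
  calc _ ≤ _ := dist_triangle _ (DD G c θ s (-θ + k * π + s * π)) _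
    _ ≤ lam * (s * π - u) + lam * (u' - s * π) := add_le_add h2 h3
    _ = lam * (u' - u) := by ring

theorem DD_per {c : ℝ → M} (hc : ∀ t, c (t + 2 * π) = c t) (θ s t : ℝ) :
    DD G c θ s (t + 2 * π) = DD G c θ s t := by
  rw [← DD_shift]
  have h1 : (fun x => c (x + 2 * π)) = c := funext hc
  have h2 : θ + 2 * π = θ + ((2 : ℤ) : ℝ) * π := by push_cast; ring
  rw [h1, h2, DD_int]

/-- a constant loop stays constant -/
theorem DD_const (hG : Seg G) {c : ℝ → M} {x : M} (hc : ∀ t, c t = x) (θ : ℝ) {s : ℝ} (t : ℝ) :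
    DD G c θ s t = x := by
  unfold DD
  split_ifs with h
  · rw [hc, hc]
    have h0 := el_nonneg (θ + t)
    have h1 : 0 < s * π := lt_of_le_of_lt h0 h
    exact hG.const x ⟨by positivity, by rw [div_le_one h1]; exact h.le⟩
  · exact hc t

/-- after an operation of strength `1` the loop runs forth and back -/
theorem DD_mid (hG : Seg G) {lam : ℝ} (h1 : lam < 1) {c : ℝ → M} (hc : Lip lam c)
    (hp : ∀ t, c (t + 2 * π) = c t) (θ : ℝ) (k : ℤ) :
    DD G c θ 1 (-θ + k * π + π / 2) = G (c (-θ)) (c (-θ + π)) (1 / 2) := by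
  have hpi := Real.pi_pos
  have hper : ∀ (x : ℝ) (j : ℤ), c (x + j * (2 * π)) = c x := by
    intro x j
    have : Function.Periodic c (2 * π) := hp
    exact this.int_mul j x
  rw [DD_early le_rfl (by positivity) (by linarith)]
  have h2 : π / 2 / (1 * π) = 1 / 2 := by field_simp
  rw [h2, one_mul]
  rcases Int.even_or_odd' k with ⟨j, hj | hj⟩
  · have h3 : -θ + (k : ℝ) * π = -θ + j * (2 * π) := by rw [hj]; push_cast; ring
    have h4 : -θ + (k : ℝ) * π + π = (-θ + π) + j * (2 * π) := by rw [hj]; push_cast; ring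
    rw [h4, h3, hper, hper]
  · have h3 : -θ + (k : ℝ) * π = (-θ + π) + j * (2 * π) := by rw [hj]; push_cast; ring
    have h4 : -θ + (k : ℝ) * π + π = -θ + ((j + 1 : ℤ) : ℝ) * (2 * π) := by rw [hj]; push_cast; ring
    rw [h4, h3, hper, hper]
    have h5 := Lip.dist_lt h1 hc (-θ) zero_le_one le_rfl
    rw [one_mul] at h5
    rw [hG.symm _ _ h5 (1 / 2) ⟨by norm_num, by norm_num⟩]
    norm_num

/-- EXACT COLLAPSE: two operations of strength `1` with offsets differing by `π / 2` make the loop constant -/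
theorem DD_collapse (hG : Seg G) {lam : ℝ} (h1 : lam < 1) {c : ℝ → M} (hc : Lip lam c)
    (hp : ∀ t, c (t + 2 * π) = c t) (θ t : ℝ) :
    DD G (DD G c θ 1) (θ + π / 2) 1 t = G (c (-θ)) (c (-θ + π)) (1 / 2) := by
  have hpi := Real.pi_pos
  obtain ⟨k, hk⟩ := el_spec (θ + π / 2 + t)
  have h0 := el_nonneg (θ + π / 2 + t)
  have h2 := el_lt (θ + π / 2 + t)
  have ht : t = -(θ + π / 2) + k * π + el (θ + π / 2 + t) := by linarith
  obtain ⟨u, hu⟩ : ∃ u, u = el (θ + π / 2 + t) := ⟨_, rfl⟩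
  rw [← hu] at h0 h2 ht
  rw [ht, DD_early le_rfl h0 (by linarith)]
  have h3 : -(θ + π / 2) + (k : ℝ) * π = -θ + ((k - 1 : ℤ) : ℝ) * π + π / 2 := by push_cast; ring
  have h4 : -(θ + π / 2) + (k : ℝ) * π + 1 * π = -θ + (k : ℝ) * π + π / 2 := by ring
  rw [h4, h3, DD_mid hG h1 hc hp, DD_mid hG h1 hc hp]
  exact hG.const _ ⟨by positivity, by rw [one_mul, div_le_one hpi]; exact h2.le⟩

end Pool.Agent.Lib.MP_ccbbf6_gt.L4.CO
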