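import Pool.Agent.Lib.MP_ccbbf6_gt.L4.CO1

/-!
# CO2: the elementary operation on maps `N → M` (continuity, homotopy, equivariance)
-/

set_option autoImplicit false
set_option linter.unusedSectionVars false

open Set Filter Topology Metric Real

noncomputable section

namespace Pool.Agent.Lib.MP_ccbbf6_gt.L4.CO

variable {M : Type*} [MetricSpace M] {N : Type*} [TopologicalSpace N]

/-- a free continuous flow of period `2 π` -/
structure CircAct (φ : ℝ → N → N) : Prop where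
  cont : Continuous (fun z : ℝ × N => φ z.1 z.2)
  zero : ∀ v, φ 0 v = v
  add : ∀ s t v, φ (s + t) v = φ s (φ t v)
  per : ∀ v, φ (2 * π) v = v
  free : ∀ t v, 0 < t → t < 2 * π → φ t v ≠ v

variable {G : M → M → ℝ → M} {φ : ℝ → N → N}

theorem DD_near (hG : Seg G) {lam : ℝ} (h0 : 0 ≤ lam) (h1 : lam < 1) {c : ℝ → M} (hc : Lip lam c) (θ : ℝ) {s : ℝ}
    (hs0 : 0 ≤ s) (hs1 : s ≤ 1) (t : ℝ) : dist (DD G c θ s t) (c t) ≤ 2 * lam * (s * π) := by
  have hp := Real.pi_pos
  have hsp : 0 ≤ s * π := by positivity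
  unfold DD
  split_ifs with h
  · have he := el_nonneg (θ + t)
    obtain ⟨u, hu⟩ : ∃ u, u = el (θ + t) := ⟨_, rfl⟩
    rw [← hu] at h he ⊢
    have hsp' : 0 < s * π := lt_of_le_of_lt he h
    have hd := Lip.dist_lt h1 hc (t - u) hs0 hs1
    have h2 := hG.lip _ _ hd (u / (s * π)) ⟨by positivity, by rw [div_le_one hsp']; exact h.le⟩ 0 ⟨le_rfl, zero_le_one⟩
    rw [hG.zero _ _ hd, sub_zero, abs_of_nonneg (by positivity)] at h2
    have h3 := hc (t - u) (t - u + s * π)
    rw [sub_add_cancel_left, abs_neg, abs_of_pos hsp'] at h3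
    have h4 := hc (t - u) t
    have h5 : |t - u - t| = u := by
      rw [sub_sub_cancel_left, abs_neg, abs_of_nonneg he]
    rw [h5] at h4
    have h6 : u / (s * π) ≤ 1 := by rw [div_le_one hsp']; exact h.le
    have h7 : u / (s * π) * dist (c (t - u)) (c (t - u + s * π)) ≤ 1 * (lam * (s * π)) :=
      mul_le_mul h6 h3 dist_nonneg zero_le_one
    have h8 : lam * u ≤ lam * (s * π) := mul_le_mul_of_nonneg_left h.le h0
    calc _ ≤ _ := dist_triangle _ (c (t - u)) _
      _ ≤ 1 * (lam * (s * π)) + lam * (s * π) := add_le_add (h2.trans h7) (h4.trans h8)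
      _ = 2 * lam * (s * π) := by ring
  · rw [dist_self]
    positivity

/-- the operation depends continuously on the offset (at positive strength) -/
theorem continuousAt_core (hG : Seg G) (hφ : Continuous (fun z : ℝ × N => φ z.1 z.2)) {lam : ℝ} (h1 : lam < 1)
    {C : N → M} (hC : Continuous C) (hL : ∀ v, Lip lam (fun t => C (φ t v))) {θ s : N → ℝ} {v₀ : N}
    (hθ : ContinuousAt θ v₀) (hs : ContinuousAt s v₀) (hs0 : ∀ v, 0 ≤ s v) (hs1 : ∀ v, s v ≤ 1) (hpos : 0 < s v₀) :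
    ContinuousAt (fun v => DD G (fun t => C (φ t v)) (θ v) (s v) 0) v₀ := by
  have hp := Real.pi_pos
  have hF : Continuous (fun z : ℝ × N => C (φ z.1 z.2)) := hC.comp hφ
  unfold ContinuousAt
  rw [tendsto_iff_ultrafilter]
  intro g hg
  have hg' : Tendsto (fun v : N => v) g (𝓝 v₀) := hg
  change Tendsto (fun v => DD G (fun t => C (φ t v)) (θ v) (s v) 0) g (𝓝 (DD G (fun t => C (φ t v₀)) (θ v₀) (s v₀) 0))
  have hθg : Tendsto θ g (𝓝 (θ v₀)) := hθ.tendsto.comp hg'
  have hsg : Tendsto s g (𝓝 (s v₀)) := hs.tendsto.comp hg'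
  -- limit of the elapsed time
  obtain ⟨e, he, hlim⟩ : ∃ e ∈ Icc (0 : ℝ) π, Tendsto (fun v => el (θ v)) g (𝓝 e) := by
    have h2 : ((g.map fun v => el (θ v) : Ultrafilter ℝ) : Filter ℝ) ≤ 𝓟 (Icc 0 π) := by
      rw [Filter.le_principal_iff, Ultrafilter.coe_map, Filter.mem_map]
      exact Filter.univ_mem' fun v => ⟨el_nonneg _, (el_lt _).le⟩
    obtain ⟨e, he, h3⟩ := isCompact_Icc.ultrafilter_le_nhds _ h2
    exact ⟨e, he, h3⟩
  obtain ⟨k, hk⟩ : ∃ k : ℤ, θ v₀ = e + k * π := by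
    have h2 : Tendsto (fun v => (θ v - el (θ v)) / π) g (𝓝 ((θ v₀ - e) / π)) := (hθg.sub hlim).div_const π
    have h3 : (θ v₀ - e) / π ∈ range (fun k : ℤ => (k : ℝ)) := by
      refine Int.isClosedEmbedding_coe_real.isClosed_range.mem_of_tendsto h2 (Filter.Eventually.of_forall fun v => ?_)
      obtain ⟨k, hk⟩ := el_spec (θ v)
      refine ⟨k, ?_⟩
      have h4 : θ v - el (θ v) = k * π := by linarith
      simp only [h4]
      field_simp
    obtain ⟨k, hk⟩ := h3
    refine ⟨k, ?_⟩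
    have h4 : (k : ℝ) = (θ v₀ - e) / π := hk
    rw [h4]
    field_simp
    ring
  have h00 : (0 : ℝ) = -(θ v₀) + k * π + e := by rw [hk]; ring
  rcases Ultrafilter.em g (fun v => el (θ v) < s v * π) with hA | hB
  · -- early branch
    have hle : e ≤ s v₀ * π := le_of_tendsto_of_tendsto hlim (hsg.mul_const π) (hA.mono fun v hv => hv.le)
    have hval : DD G (fun t => C (φ t v₀)) (θ v₀) (s v₀) 0
        = G (C (φ (-e) v₀)) (C (φ (-e + s v₀ * π) v₀)) (e / (s v₀ * π)) := by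
      have h2 := DD_early' hG h1 (hL v₀) (θ := θ v₀) (s := s v₀) (k := k) (u := e) hpos (hs1 v₀) he.1 hle
      rw [← h00] at h2
      rw [h2]
      have h3 : -(θ v₀) + (k : ℝ) * π = -e := by rw [hk]; ring
      rw [h3]
    rw [hval]
    have ha : Tendsto (fun v => C (φ (-(el (θ v))) v)) g (𝓝 (C (φ (-e) v₀))) :=
      (hF.tendsto (-e, v₀)).comp (hlim.neg.prodMk_nhds hg')
    have hb : Tendsto (fun v => C (φ (-(el (θ v)) + s v * π) v)) g (𝓝 (C (φ (-e + s v₀ * π) v₀))) :=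
      (hF.tendsto (-e + s v₀ * π, v₀)).comp ((hlim.neg.add (hsg.mul_const π)).prodMk_nhds hg')
    have hc : Tendsto (fun v => el (θ v) / (s v * π)) g (𝓝 (e / (s v₀ * π))) :=
      hlim.div (hsg.mul_const π) (by positivity)
    have hd := Lip.dist_lt h1 (hL v₀) (-e) hpos.le (hs1 v₀)
    have hcont := hG.cont ((C (φ (-e) v₀), C (φ (-e + s v₀ * π) v₀)), e / (s v₀ * π))
      ⟨hd, ⟨div_nonneg he.1 (by positivity), by rw [div_le_one (by positivity)]; exact hle⟩⟩
    have hmem : ∀ᶠ v in (g : Filter N), ((C (φ (-(el (θ v))) v), C (φ (-(el (θ v)) + s v * π) v)), el (θ v) / (s v * π)) ∈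
        {z : (M × M) × ℝ | dist z.1.1 z.1.2 < π ∧ z.2 ∈ Icc (0 : ℝ) 1} := by
      filter_upwards [hA] with v hv
      have hsv : 0 < s v * π := lt_of_le_of_lt (el_nonneg _) hv
      exact ⟨Lip.dist_lt h1 (hL v) _ (hs0 v) (hs1 v),
        ⟨div_nonneg (el_nonneg _) hsv.le, by rw [div_le_one hsv]; exact hv.le⟩⟩
    have h3 := hcont.tendsto.comp (tendsto_nhdsWithin_iff.mpr ⟨(ha.prodMk_nhds hb).prodMk_nhds hc, hmem⟩)
    refine h3.congr' ?_
    filter_upwards [hA] with v hv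
    simp only [Function.comp_apply]
    unfold DD
    rw [add_zero, if_pos hv, zero_sub]
  · -- late branch
    have hle : s v₀ * π ≤ e := le_of_tendsto_of_tendsto (hsg.mul_const π) hlim (hB.mono fun v hv => not_lt.mp hv)
    have hval : DD G (fun t => C (φ t v₀)) (θ v₀) (s v₀) 0 = C (φ 0 v₀) := by
      have h2 := DD_late' hG h1 (hL v₀) (θ := θ v₀) (s := s v₀) (k := k) (u := e) hpos (hs1 v₀) hle he.2
      rwa [← h00] at h2
    rw [hval]
    have h3 : Tendsto (fun v => C (φ 0 v)) g (𝓝 (C (φ 0 v₀))) :=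
      (hF.tendsto ((0 : ℝ), v₀)).comp ((tendsto_const_nhds (x := (0 : ℝ))).prodMk_nhds hg')
    refine h3.congr' ?_
    filter_upwards [hB] with v hv
    unfold DD
    rw [add_zero, if_neg hv]

theorem arg_mul_int {x y : ℂ} (hx : x ≠ 0) (hy : y ≠ 0) : ∃ k : ℤ, (x * y).arg = x.arg + y.arg + k * (2 * π) := by
  have h := Complex.arg_mul_coe_angle hx hy
  have h2 : (((x * y).arg : ℝ) : Real.Angle) = ((x.arg + y.arg : ℝ) : Real.Angle) := by
    rw [h, Real.Angle.coe_add]
  obtain ⟨k, hk⟩ := Real.Angle.angle_eq_iff_two_pi_dvd_sub.mp h2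
  exact ⟨k, by linarith⟩

theorem DD_int2 (c : ℝ → M) (θ s t : ℝ) (k : ℤ) : DD G c (θ + k * (2 * π)) s t = DD G c θ s t := by
  have h : θ + (k : ℝ) * (2 * π) = θ + ((2 * k : ℤ) : ℝ) * π := by push_cast; ring
  rw [h, DD_int]

/-- continuity of the operation on maps -/
theorem continuous_op (hG : Seg G) (hφ : Continuous (fun z : ℝ × N => φ z.1 z.2)) {lam : ℝ}
    (h0 : 0 ≤ lam) (h1 : lam < 1) {C : N → M} (hC : Continuous C) (hL : ∀ v, Lip lam (fun t => C (φ t v)))
    {z : N → ℂ} (hz : Continuous z) {s : N → ℝ} (hs : Continuous s) (hs0 : ∀ v, 0 ≤ s v) (hs1 : ∀ v, s v ≤ 1)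
    (hsz : ∀ v, z v = 0 → s v = 0) :
    Continuous (fun v => DD G (fun t => C (φ t v)) (z v).arg (s v) 0) := by
  have hp := Real.pi_pos
  rw [continuous_iff_continuousAt]
  intro v₀
  by_cases hv : s v₀ = 0
  · -- strength zero
    have hF : Continuous (fun v => C (φ 0 v)) := hC.comp (hφ.comp (continuous_const.prodMk continuous_id))
    have hval : DD G (fun t => C (φ t v₀)) (z v₀).arg (s v₀) 0 = C (φ 0 v₀) := by rw [hv, DD_zero]
    change Tendsto _ _ (𝓝 (DD G (fun t => C (φ t v₀)) (z v₀).arg (s v₀) 0))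
    rw [hval, tendsto_iff_dist_tendsto_zero]
    have h2 : Tendsto (fun v => 2 * lam * (s v * π) + dist (C (φ 0 v)) (C (φ 0 v₀))) (𝓝 v₀) (𝓝 0) := by
      have h3 : Tendsto (fun v => 2 * lam * (s v * π)) (𝓝 v₀) (𝓝 (2 * lam * (s v₀ * π))) :=
        ((hs.mul continuous_const).tendsto v₀).const_mul (2 * lam)
      have h4 : Tendsto (fun v => dist (C (φ 0 v)) (C (φ 0 v₀))) (𝓝 v₀) (𝓝 0) :=
        tendsto_iff_dist_tendsto_zero.mp (hF.tendsto v₀)
      rw [hv, zero_mul, mul_zero] at h3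
      have := h3.add h4
      rwa [add_zero] at this
    refine squeeze_zero (fun _ => dist_nonneg) (fun v => ?_) h2
    exact (dist_triangle _ (C (φ 0 v)) _).trans
      (add_le_add (DD_near hG h0 h1 (hL v) _ (hs0 v) (hs1 v) 0) le_rfl)
  · have hpos : 0 < s v₀ := lt_of_le_of_ne (hs0 v₀) (Ne.symm hv)
    have hz0 : z v₀ ≠ 0 := fun h => hv (hsz v₀ h)
    have hev : ∀ᶠ v in 𝓝 v₀, z v ≠ 0 := hz.continuousAt.eventually_ne hz0
    have hθ : ContinuousAt (fun v => (z v₀).arg + (z v / z v₀).arg) v₀ := by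
      refine continuousAt_const.add ?_
      have h2 : ContinuousAt (fun v => z v / z v₀) v₀ := hz.continuousAt.div_const _
      refine ContinuousAt.comp (g := Complex.arg) ?_ h2
      refine Complex.continuousAt_arg ?_
      rw [div_self hz0]
      exact Complex.one_mem_slitPlane
    have h3 := continuousAt_core hG hφ h1 hC hL hθ hs.continuousAt hs0 hs1 hpos
    refine h3.congr ?_
    filter_upwards [hev] with v hv'
    obtain ⟨k, hk⟩ := arg_mul_int hz0 (div_ne_zero hv' hz0)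
    rw [mul_div_cancel₀ _ hz0] at hk
    rw [hk, DD_int2]

/-- the new loops -/
theorem op_loop (hφ : CircAct φ) (C : N → M) {z : N → ℂ} (hz : ∀ t v, z (φ t v) = Complex.exp (t * Complex.I) * z v)
    {s : N → ℝ} (hs : ∀ t v, s (φ t v) = s v) (hsz : ∀ v, z v = 0 → s v = 0) (t : ℝ) (v : N) :
    DD G (fun r => C (φ r (φ t v))) (z (φ t v)).arg (s (φ t v)) 0 = DD G (fun r => C (φ r v)) (z v).arg (s v) t := by
  have h1 : (fun r => C (φ r (φ t v))) = fun r => C (φ (r + t) v) := by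
    funext r
    rw [hφ.add]
  rw [h1, hs]
  by_cases h0 : z v = 0
  · rw [hsz v h0, DD_zero, DD_zero, zero_add]
  · have he : Complex.exp (t * Complex.I) ≠ 0 := Complex.exp_ne_zero _
    obtain ⟨k, hk⟩ := arg_mul_int he h0
    obtain ⟨j, hj⟩ : ∃ j : ℤ, (Complex.exp (t * Complex.I)).arg = t + j * (2 * π) := by
      refine ⟨-toIocDiv Real.two_pi_pos (-π) t, ?_⟩
      rw [Complex.arg_exp_mul_I, toIocMod, zsmul_eq_mul]
      push_cast
      ring
    have h3 : (z (φ t v)).arg = (z v).arg + t + ((k + j : ℤ) : ℝ) * (2 * π) := by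
      rw [hz, hk]
      push_cast
      linarith
    have h4 := DD_shift (G := G) (fun r => C (φ r v)) (z v).arg (s v) t 0
    rw [zero_add] at h4
    rw [h3, DD_int2, ← h4]

end Pool.Agent.Lib.MP_ccbbf6_gt.L4.CO
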