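import Pool.Agent.Lib.MP_ccbbf6_gt.Cls.Br
import Pool.Agent.Lib.MP_ccbbf6_gt.Cls.Main2
import Pool.Agent.Lib.MP_ccbbf6_gt.Geo.ASM
import Pool.Agent.Lib.MP_ccbbf6_gt.L4.Asm4

/-!
# Level 4: `κ = 1` implies `M = ℂP^m`
-/

set_option autoImplicit false

open MeasureTheory Set Filter Topology Metric Real Module
open scoped ContDiff RealInnerProductSpace ENNReal

noncomputable section

namespace Pool.Agent.Lib.MP_ccbbf6_gt.L4

open Geo

/-- the identification of `ℝ²` with `ℂ¹` -/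
def cp1 : EuclideanSpace ℝ (Fin 2) →ₗ[ℝ] (Fin 1 → ℂ) where
  toFun v := fun _ => ⟨v 0, v 1⟩
  map_add' v w := by
    funext i
    exact Complex.ext rfl rfl
  map_smul' r v := by
    funext i
    refine Complex.ext ?_ ?_
    · simp
    · simp

theorem nsq_cp1 (v : EuclideanSpace ℝ (Fin 2)) : Blaschke.nsq (cp1 v) = ‖v‖ ^ 2 := by
  rw [Blaschke.nsq, Fin.sum_univ_one, EuclideanSpace.real_norm_sq_eq, Fin.sum_univ_two, Complex.sq_norm,
    Complex.normSq_apply]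
  change v 0 * v 0 + v 1 * v 1 = _
  ring

theorem cp1_surj : Function.Surjective cp1 := by
  intro z
  refine ⟨!₂[(z 0).re, (z 0).im], ?_⟩
  funext i
  rw [Subsingleton.elim i 0]
  exact Complex.ext rfl rfl

theorem norm_herm_cp1 (v w : EuclideanSpace ℝ (Fin 2)) : ‖Blaschke.herm (cp1 v) (cp1 w)‖ ^ 2 = ‖v‖ ^ 2 * ‖w‖ ^ 2 := by
  rw [← nsq_cp1, ← nsq_cp1, Blaschke.nsq, Blaschke.nsq, Blaschke.herm, Fin.sum_univ_one, Fin.sum_univ_one,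
    Fin.sum_univ_one, norm_mul, norm_star, mul_pow]

/-- `S² = ℂP¹` -/
theorem isProj_two {M : Type*} [MetricSpace M] {e : EuclideanSpace ℝ (Fin 2) → M}
    {V : EuclideanSpace ℝ (Fin 2) → Submodule ℝ (EuclideanSpace ℝ (Fin 2))}
    (hd : ∀ x y : M, dist x y ≤ π) (hs : ∀ x, ∃ ξ, ‖ξ‖ ≤ π ∧ e ξ = x) (hD : Blaschke.DistForm (Cl.NN V) e)
    (hk : ∀ v, v ≠ 0 → finrank ℝ (V v) = 2) : Blaschke.IsProj ℂ 1 M := by
  refine Blaschke.isProj_of Blaschke.rePart_complex two_pos hd hs hD cp1 cp1_surj nsq_cp1 fun v w _ _ => ?_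
  rw [norm_herm_cp1, Cl.NN_of_finrank (fun v hv => by rw [hk v hv, finrank_euclideanSpace_fin]) v w]

/-- **`κ = 1` implies `M = ℂP^m`.** -/
theorem isProj_of_one {n : ℕ} {M : Type} [MetricSpace M] [CompactSpace M] [Nonempty M]
    (hn : 2 ≤ n) (𝒜 : SDist n M) (hB : Bl M) (h1 : 𝒜.HK 1) : ∃ m : ℕ, n = 2 * m ∧ Blaschke.IsProj ℂ m M := by
  borelize M
  have hk : 𝒜.HasKappa 1 := h1
  have hn0 : 0 < n := by omega
  have := finite_of_sdist 𝒜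
  have := openPos_of_sdist 𝒜
  have hP := polar 𝒜 hn0 hB
  have hlow : Blaschke.modelVolume n 1 ≤ μHE[n] (univ : Set M) :=
    𝒜.volume_ge_polar hn0 hB hP fun t ht c hc => line_ineq 𝒜 hn hB hk ht hc
  have heq : μHE[n] (univ : Set M) = Blaschke.modelVolume n 1 := le_antisymm (L4.main hn hB h1) hlow
  have hG : ∀ c : ℝ → M, IsGeo c → ∃ V, 𝒜.Gram c V := by
    obtain ⟨N, rfl⟩ : ∃ N, n = N + 1 := ⟨n - 1, by omega⟩
    refine gram_of_J 𝒜 hB (κ := 1) (N := N) rfl (fun c hc L hL => thm1 𝒜 rfl hB hk hc hL) fun p q h0 h1 => ?_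
    exact 𝒜.J_eq_polar hn0 hB hP (fun t ht c hc => line_ineq 𝒜 hn hB hk ht hc) heq h0 h1
  obtain ⟨p⟩ : Nonempty M := inferInstance
  have hs : ∀ q, ∃ ξ, ‖ξ‖ ≤ π ∧ 𝒜.Ex p ξ = q := by
    intro q
    obtain ⟨ξ, h3, h4⟩ := Ex_surj 𝒜 hB p q
    exact ⟨ξ, h3.trans_le (hB.diam p q), h4⟩
  rcases hn.eq_or_lt with h2 | h2
  · subst h2
    exact ⟨1, rfl, isProj_two hB.diam hs (distForm_PV 𝒜 hB h1 hG p) fun v hv => finrank_PV 𝒜 hB h1 p hv⟩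
  · have h3 := Cl.isModel_of_distForm hn hB.diam hs (distForm_PV 𝒜 hB h1 hG p) (by omega) (part_PV 𝒜 hB h1 hG p)
      fun v hv => finrank_PV 𝒜 hB h1 p hv
    rcases h3 with ⟨h4, -⟩ | ⟨h4, -⟩ | ⟨-, h4⟩ | ⟨h4, -⟩ | ⟨h4, -⟩
    · omega
    · omega
    · exact h4
    · omega
    · omega

end Pool.Agent.Lib.MP_ccbbf6_gt.L4
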