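import Pool.Agent.Lib.MP_ccbbf6_gt.ML

/-!
# Level 4, comparison lemma: the algebra (helper56)

`R` = commutative ring of closed basic even forms, `Λ` = forms, `d`, `ι` (contraction with the generator of the
circle action) `R`-linear, `I` = integral over the closed manifold, `u` = the constant form `1`.
-/

set_option autoImplicit false

open Finset

namespace Pool.Agent.Lib.MP_ccbbf6_gt.L4

/-- Abstract Cartan calculus. -/
structure Calc (R Λ : Type*) [CommRing R] [Algebra ℝ R] [AddCommGroup Λ] [Module ℝ Λ] [Module R Λ] where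
  d : Λ →ₗ[R] Λ
  ι : Λ →ₗ[R] Λ
  I : Λ →ₗ[ℝ] ℝ
  u : Λ
  I_d : ∀ x, I (d x) = 0
  I_ι : ∀ x, ι x = 0 → I x = 0
  ιι : ∀ x, ι (ι x) = 0
  /-- `∫ S (dx ∧ y - x ∧ dy) = 0` for odd `x`, `y` -/
  stokes : ∀ (x y : Λ) (e e' S : R), d x = e • u → d y = e' • u → I ((S * e) • y) = I ((S * e') • x)

section

variable {R Λ : Type*} [CommRing R] [Algebra ℝ R] [AddCommGroup Λ] [Module ℝ Λ] [Module R Λ]
  [IsScalarTower ℝ R Λ] (K : Calc R Λ)

/-- `h_m(a, b) = ∑ a ^ j b ^ (m - j)` -/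
def hm (m : ℕ) (a b : R) : R := ∑ j ∈ range (m + 1), a ^ j * b ^ (m - j)

/-- `Q = ∑_(j ≤ m) a ^ j h_(m-1-j)(a, b)` with `(b - a) Q = h_m - (m + 1) a ^ m` -/
def Qm (m : ℕ) (a b : R) : R := ∑ j ∈ range (m + 1), a ^ j * ∑ i ∈ range (m - j), b ^ i * a ^ (m - j - 1 - i)

omit [Algebra ℝ R] in
lemma Qm_spec (m : ℕ) (a b : R) : (b - a) * Qm m a b = hm m a b - (m + 1 : ℕ) * a ^ m := by
  have h : ∀ j ∈ range (m + 1), (b - a) * (a ^ j * ∑ i ∈ range (m - j), b ^ i * a ^ (m - j - 1 - i)) =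
      a ^ j * b ^ (m - j) - a ^ m := by
    intro j hj
    have h1 := Commute.geom_sum₂_mul (Commute.all b a) (m - j)
    have h2 : a ^ j * a ^ (m - j) = a ^ m := by
      rw [← pow_add]
      congr 1
      have := mem_range.1 hj
      omega
    calc (b - a) * (a ^ j * ∑ i ∈ range (m - j), b ^ i * a ^ (m - j - 1 - i))
        = a ^ j * ((∑ i ∈ range (m - j), b ^ i * a ^ (m - j - 1 - i)) * (b - a)) := by ring
      _ = a ^ j * (b ^ (m - j) - a ^ (m - j)) := by rw [h1]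
      _ = _ := by rw [mul_sub, h2]
  unfold Qm hm
  rw [mul_sum, sum_congr rfl h, sum_sub_distrib, sum_const, card_range, nsmul_eq_mul]

omit [Algebra ℝ R] in
lemma hm_mul_left {m : ℕ} (hm1 : 1 ≤ m) {a b : R} (ha : a ^ (m + 1) = 0) :
    a ^ (m - 1) * hm m a b = a ^ (m - 1) * b ^ m + a ^ m * b ^ (m - 1) := by
  obtain ⟨k, rfl⟩ : ∃ k, m = k + 1 := ⟨m - 1, by omega⟩
  unfold hm
  rw [mul_sum, sum_range_succ' _ (k + 1), sum_range_succ' _ k]
  have h0 : ∑ j ∈ range k, a ^ (k + 1 - 1) * (a ^ (j + 1 + 1) * b ^ (k + 1 - (j + 1 + 1))) = 0 := by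
    refine sum_eq_zero fun j _ => ?_
    rw [← mul_assoc, ← pow_add]
    have h1 : k + 1 - 1 + (j + 1 + 1) = (k + 1 + 1) + j := by omega
    rw [h1, pow_add, ha, zero_mul, zero_mul]
  rw [h0]
  simp only [Nat.add_sub_cancel, zero_add, pow_zero, one_mul, tsub_zero, pow_one]
  ring

omit [Algebra ℝ R] in
lemma Qm_mul {m : ℕ} (hm1 : 1 ≤ m) {a b : R} (ha : a ^ (m + 1) = 0) :
    a ^ m * Qm m a b = a ^ m * b ^ (m - 1) := by
  obtain ⟨k, rfl⟩ : ∃ k, m = k + 1 := ⟨m - 1, by omega⟩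
  have hz : ∀ (n : ℕ) (x : R), a ^ (k + 1) * (a ^ (n + 1) * x) = 0 := by
    intro n x
    rw [← mul_assoc, ← pow_add]
    have h1 : k + 1 + (n + 1) = (k + 1 + 1) + n := by omega
    rw [h1, pow_add, ha, zero_mul, zero_mul]
  unfold Qm
  rw [mul_sum, sum_range_succ' _ (k + 1)]
  rw [sum_eq_zero (fun j _ => hz j _), zero_add, pow_zero, one_mul, tsub_zero, sum_range_succ]
  have h2 : a ^ (k + 1) * ∑ i ∈ range k, b ^ i * a ^ (k + 1 - 1 - i) = 0 := by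
    rw [mul_sum]
    refine sum_eq_zero fun i hi => ?_
    have h3 : k + 1 - 1 - i = (k - 1 - i) + 1 := by
      have := mem_range.1 hi
      omega
    rw [h3, mul_comm (b ^ i)]
    exact hz _ _
  rw [mul_add, h2, zero_add]
  simp

omit [IsScalarTower ℝ R Λ] in
lemma Calc.I_smul (r : ℝ) (x : Λ) : K.I (r • x) = r * K.I x := by
  rw [LinearMap.map_smul, smul_eq_mul]

/-- The data produced by a homotopy of maps to `M` between two invariant maps. -/
structure Data (m : ℕ) (w0 w1 : R) (c : ℝ) (β ζ : Λ) : Prop where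
  p0 : w0 ^ (m + 1) = 0
  p1 : w1 ^ (m + 1) = 0
  dβ : K.d β = (w1 - w0) • K.u
  ιβ : K.ι β = c • K.u
  dζ : K.d ζ = hm m w0 w1 • β
  ιζ : K.ι (K.d ζ) = -K.d (K.ι ζ)

variable {K} {m : ℕ} {w0 w1 : R} {c : ℝ} {β ζ : Λ}

omit [IsScalarTower ℝ R Λ] in
lemma Data.two (D : Data K m w0 w1 c β ζ) (hm1 : 1 ≤ m) :
    K.I ((w0 ^ (m - 1) * w1 ^ m) • β) = -K.I ((w0 ^ m * w1 ^ (m - 1)) • β) := by
  have h1 : K.I (w0 ^ (m - 1) • K.d ζ) = 0 := by
    rw [← map_smul, K.I_d]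
  rw [D.dζ, smul_smul, hm_mul_left hm1 D.p0, add_smul, map_add] at h1
  linarith

lemma Data.one (D : Data K m w0 w1 c β ζ) (hm1 : 1 ≤ m) (hc : c ≠ 0) {s : Λ} (hs : K.d s = w0 ^ m • K.u) :
    ((m : ℝ) + 1) * K.I (w0 ^ m • s) = -K.I ((w0 ^ m * w1 ^ (m - 1)) • β) := by
  -- the primitive
  obtain ⟨ξ, hξ⟩ : ∃ ξ, ξ = (-c⁻¹) • K.ι ζ := ⟨_, rfl⟩
  have hreal : ∀ (r : ℝ) (x : Λ), K.d (r • x) = r • K.d x := by
    intro r x
    rw [← algebraMap_smul R r x, map_smul, algebraMap_smul]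
  have hrealι : ∀ (r : ℝ) (x : Λ), K.ι (r • x) = r • K.ι x := by
    intro r x
    rw [← algebraMap_smul R r x, map_smul, algebraMap_smul]
  have hdξ : K.d ξ = hm m w0 w1 • K.u := by
    have h1 := D.ιζ
    rw [D.dζ, map_smul, D.ιβ] at h1
    rw [hξ, hreal]
    have h2 : K.d (K.ι ζ) = -(hm m w0 w1 • c • K.u) := by rw [h1, neg_neg]
    rw [h2, smul_neg, neg_smul, neg_neg, smul_comm (hm m w0 w1) c K.u, smul_smul, inv_mul_cancel₀ hc,
      one_smul]
  have hιξ : K.ι ξ = 0 := by rw [hξ, hrealι, K.ιι, smul_zero]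
  have hx : K.d (ξ - Qm m w0 w1 • β) = ((m + 1 : ℕ) * w0 ^ m : R) • K.u := by
    rw [map_sub, hdξ, map_smul, D.dβ, smul_smul, ← sub_smul]
    congr 1
    rw [mul_comm (Qm m w0 w1), Qm_spec]
    ring
  have h3 := K.stokes s (ξ - Qm m w0 w1 • β) (w0 ^ m) ((m + 1 : ℕ) * w0 ^ m) 1 hs hx
  rw [one_mul, one_mul, smul_sub, map_sub, smul_smul, Qm_mul hm1 D.p0] at h3
  have h4 : K.I (w0 ^ m • ξ) = 0 := K.I_ι _ (by rw [map_smul, hιξ, smul_zero])
  rw [h4, zero_sub] at h3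
  have h5 : (((m + 1 : ℕ) : R) * w0 ^ m) • s = ((m : ℝ) + 1) • (w0 ^ m • s) := by
    rw [mul_smul, ← algebraMap_smul R ((m : ℝ) + 1)]
    congr 1
    simp
  rw [h5, K.I_smul] at h3
  exact h3.symm

lemma Data.three (D : Data K m w0 w1 c β ζ) (hm1 : 1 ≤ m) :
    K.I ((w1 - w0) ^ (2 * m - 1) • β) =
      (-1) ^ m * ((2 * m).choose m : ℝ) * K.I ((w0 ^ m * w1 ^ (m - 1)) • β) := by
  obtain ⟨k, rfl⟩ : ∃ k, m = k + 1 := ⟨m - 1, by omega⟩
  have e1 : 2 * (k + 1) - 1 = 2 * k + 1 := by omega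
  rw [e1]
  have hexp : (w1 - w0) ^ (2 * k + 1) =
      ((-1) ^ k * ((2 * k + 1).choose k : R)) * (w0 ^ k * w1 ^ (k + 1)) +
      ((-1) ^ (k + 1) * ((2 * k + 1).choose (k + 1) : R)) * (w0 ^ (k + 1) * w1 ^ k) := by
    have h1 : w1 - w0 = -w0 + w1 := by ring
    rw [h1, add_pow]
    have h2 : ∀ j ∈ range (2 * k + 1 + 1), j ≠ k → j ≠ k + 1 →
        (-w0) ^ j * w1 ^ (2 * k + 1 - j) * ((2 * k + 1).choose j : R) = 0 := by
      intro j hj h3 h4
      rcases lt_or_ge j k with h5 | h5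
      · have h6 : 2 * k + 1 - j = (k + 1 + 1) + (k - 1 - j) := by omega
        rw [h6, pow_add, D.p1]
        ring
      · have h6 : j = (k + 1 + 1) + (j - (k + 2)) := by omega
        rw [neg_pow, h6, pow_add w0, D.p0]
        ring
    rw [← sum_subset (s₁ := ({k, k + 1} : Finset ℕ)) (s₂ := range (2 * k + 1 + 1))]
    · rw [sum_pair (by omega)]
      have h7 : 2 * k + 1 - k = k + 1 := by omega
      have h8 : 2 * k + 1 - (k + 1) = k := by omega
      rw [h7, h8, neg_pow, neg_pow w0 (k + 1)]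
      ring
    · intro j hj
      simp only [mem_insert, mem_singleton] at hj
      rw [mem_range]
      omega
    · intro j hj hj'
      simp only [mem_insert, mem_singleton, not_or] at hj'
      exact h2 j hj hj'.1 hj'.2
  have hch : (2 * (k + 1)).choose (k + 1) = (2 * k + 1).choose k + (2 * k + 1).choose (k + 1) := by
    have : 2 * (k + 1) = (2 * k + 1) + 1 := by ring
    rw [this, Nat.choose_succ_succ]
  have hsym : (2 * k + 1).choose k = (2 * k + 1).choose (k + 1) := by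
    refine Nat.choose_symm_of_eq_add ?_
    omega
  have hcast : ∀ (a : ℕ) (b : ℕ) (x : R), (((-1) ^ a * (b : R)) * x) • β
      = (((-1) ^ a * (b : ℝ)) : ℝ) • (x • β) := by
    intro a b x
    rw [mul_smul, ← algebraMap_smul R ((-1) ^ a * (b : ℝ))]
    congr 1
    simp
  have htwo := D.two hm1
  rw [Nat.add_sub_cancel] at htwo
  rw [hexp, add_smul, map_add, hcast, hcast, K.I_smul, K.I_smul, htwo, hch,
    Nat.add_sub_cancel, ← hsym]
  push_cast
  ring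

omit [IsScalarTower ℝ R Λ] in
/-- change of connection -/
lemma Calc.connection (K : Calc R Λ) {A A' : Λ} {e e' : R} (hA : K.ι A = K.u) (hA' : K.ι A' = K.u)
    (hd : K.d A = e • K.u) (hd' : K.d A' = e' • K.u) (N : ℕ) : K.I (e' ^ N • A') = K.I (e ^ N • A) := by
  have hτ : K.ι (A' - A) = 0 := by rw [map_sub, hA, hA', sub_self]
  have hdτ : K.d (A' - A) = (e' - e) • K.u := by rw [map_sub, hd, hd', sub_smul]
  have h0 : ∀ r : R, K.I (r • (A' - A)) = 0 := fun r => K.I_ι _ (by rw [map_smul, hτ, smul_zero])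
  have h1 := Commute.geom_sum₂_mul (Commute.all e' e) N
  have h2 := K.stokes (A' - A) A (e' - e) e (∑ i ∈ range N, e' ^ i * e ^ (N - 1 - i)) hdτ hd
  rw [h1, h0, sub_smul, map_sub] at h2
  have h3 := h0 (e' ^ N)
  rw [smul_sub, map_sub] at h3
  linarith

/-- **Comparison lemma**, algebraic form. -/
theorem Data.comparison (D : Data K m w0 w1 c β ζ) (hm1 : 1 ≤ m) (hc : c ≠ 0) {s A : Λ} {e : R}
    (hs : K.d s = w0 ^ m • K.u) (hA : K.ι A = K.u) (hd : K.d A = e • K.u) :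
    c ^ (2 * m) * K.I (e ^ (2 * m - 1) • A) =
      (-1) ^ (m + 1) * ((m : ℝ) + 1) * ((2 * m).choose m : ℝ) * K.I (w0 ^ m • s) := by
  have hreal : ∀ (r : ℝ) (x : Λ), K.d (r • x) = r • K.d x := by
    intro r x
    rw [← algebraMap_smul R r x, map_smul, algebraMap_smul]
  have hrealι : ∀ (r : ℝ) (x : Λ), K.ι (r • x) = r • K.ι x := by
    intro r x
    rw [← algebraMap_smul R r x, map_smul, algebraMap_smul]
  have h1 : K.ι (c⁻¹ • β) = K.u := by
    rw [hrealι, D.ιβ, smul_smul, inv_mul_cancel₀ hc, one_smul]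
  have h2 : K.d (c⁻¹ • β) = (algebraMap ℝ R c⁻¹ * (w1 - w0)) • K.u := by
    rw [hreal, D.dβ, mul_smul, algebraMap_smul]
  have h3 := K.connection h1 hA h2 hd (2 * m - 1)
  rw [h3, mul_pow, ← map_pow, mul_smul, algebraMap_smul, smul_comm ((w1 - w0) ^ (2 * m - 1)) c⁻¹ β,
    smul_smul, K.I_smul, D.three hm1]
  have h4 := D.one hm1 hc hs
  have h5 : c ^ (2 * m) * (c⁻¹ ^ (2 * m - 1) * c⁻¹) = 1 := by
    rw [← pow_succ]
    have : 2 * m - 1 + 1 = 2 * m := by omega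
    rw [this, inv_pow, mul_inv_cancel₀ (pow_ne_zero _ hc)]
  calc c ^ (2 * m) * (c⁻¹ ^ (2 * m - 1) * c⁻¹ *
        ((-1) ^ m * ((2 * m).choose m : ℝ) * K.I ((w0 ^ m * w1 ^ (m - 1)) • β)))
      = (c ^ (2 * m) * (c⁻¹ ^ (2 * m - 1) * c⁻¹)) *
        ((-1) ^ m * ((2 * m).choose m : ℝ) * K.I ((w0 ^ m * w1 ^ (m - 1)) • β)) := by ring
    _ = (-1) ^ m * ((2 * m).choose m : ℝ) * K.I ((w0 ^ m * w1 ^ (m - 1)) • β) := by rw [h5, one_mul]
    _ = (-1) ^ (m + 1) * ((2 * m).choose m : ℝ) * (-K.I ((w0 ^ m * w1 ^ (m - 1)) • β)) := by ring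
    _ = _ := by rw [← h4]; ring

end

end Pool.Agent.Lib.MP_ccbbf6_gt.L4
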