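import Pool.Agent.Lib.MP_ccbbf6_gt.L4.Cmp2

/-!
# Level 4, comparison of two circle actions (helper56)
-/

set_option autoImplicit false
set_option maxSynthPendingDepth 3

noncomputable section

namespace Pool.Agent.Lib.MP_ccbbf6_gt.L4

section

variable {R Λ : Type*} [CommRing R] [Algebra ℝ R] [AddCommGroup Λ] [Module ℝ Λ] [Module R Λ]
  [IsScalarTower ℝ R Λ] {K : Calc R Λ} {m : ℕ} {w0 w1 : R} {c : ℝ} {β ζ : Λ}

/-- a primitive of `w_0^m` -/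
lemma Data.prim (D : Data K m w0 w1 c β ζ) (hc : c ≠ 0) : ∃ s, K.d s = w0 ^ m • K.u := by
  have hreal : ∀ (r : ℝ) (x : Λ), K.d (r • x) = r • K.d x := by
    intro r x
    rw [← algebraMap_smul R r x, map_smul, algebraMap_smul]
  have hdξ : K.d ((-c⁻¹) • K.ι ζ) = hm m w0 w1 • K.u := by
    have h1 := D.ιζ
    rw [D.dζ, map_smul, D.ιβ] at h1
    rw [hreal]
    have h2 : K.d (K.ι ζ) = -(hm m w0 w1 • c • K.u) := by rw [h1, neg_neg]
    rw [h2, smul_neg, neg_smul, neg_neg, smul_comm (hm m w0 w1) c K.u, smul_smul, inv_mul_cancel₀ hc,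
      one_smul]
  have hx : K.d ((-c⁻¹) • K.ι ζ - Qm m w0 w1 • β) = ((m + 1 : ℕ) * w0 ^ m : R) • K.u := by
    rw [map_sub, hdξ, map_smul, D.dβ, smul_smul, ← sub_smul]
    congr 1
    rw [mul_comm (Qm m w0 w1), Qm_spec]
    ring
  refine ⟨((m : ℝ) + 1)⁻¹ • ((-c⁻¹) • K.ι ζ - Qm m w0 w1 • β), ?_⟩
  rw [hreal, hx, mul_smul]
  have h3 : (((m + 1 : ℕ) : R)) • (w0 ^ m • K.u) = ((m : ℝ) + 1) • (w0 ^ m • K.u) := by
    rw [← algebraMap_smul R ((m : ℝ) + 1)]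
    congr 1
    simp
  rw [h3, smul_smul, inv_mul_cancel₀ (by positivity), one_smul]

end

namespace FR

variable {X M : Space} (I : Om X →ₗ[ℝ] ℝ) (hd : ∀ x, I (dO X x) = 0) (he : ∀ x, sO X x = x → I x = 0)
  {ω : Om M} (hω : dO M ω = 0) (h2 : Deg 2 ω) {m : ℕ} (hp : ω ^ (m + 1) = 0)

include hd he hω h2 hp

/-- comparison lemma for one circle action -/
theorem comparison_one (c : Circ X) (hi : ∀ x, iO c x = 0 → I x = 0) (hm1 : 1 ≤ m) (f : SMap X.xR M)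
    (h0 : IMap c (f.comp (jO X 0))) (h1 : IMap c (f.comp (jO X 1))) {a : ℝ} (ha0 : a ≠ 0)
    (ha : KO X (c.a.pull (KO X (f.pull ω))) = algebraMap ℝ (Om X) a) {s A : Om X}
    (hs : dO X s = wt f ω 0 ^ m) (hA : iO c A = 1) (hA1 : sO X A = -A) (hA2 : iO c (dO X A) = 0) :
    a ^ (2 * m) * I (dO X A ^ (2 * m - 1) * A) =
      (-1) ^ (m + 1) * ((m : ℝ) + 1) * ((2 * m).choose m : ℝ) * I (wt f ω 0 ^ m * s) := by
  have D := data f ω c I hd hi he hω h2 hp h0 h1 ha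
  have hmem : dO X A ∈ Rb c := ⟨by rw [s_d, hA1, map_neg, neg_neg], d_d A, hA2⟩
  have hs' : (Cal c I hd hi he).d s =
      (⟨wt f ω 0, wt_mem f ω c h0 hω h2⟩ : Rb c) ^ m • (Cal c I hd hi he).u := by
    change dO X s = ((⟨wt f ω 0, wt_mem f ω c h0 hω h2⟩ ^ m : Rb c) : Om X) * 1
    rw [hs, mul_one]
    rfl
  have hd' : (Cal c I hd hi he).d A = (⟨dO X A, hmem⟩ : Rb c) • (Cal c I hd hi he).u := by
    change dO X A = dO X A * 1
    rw [mul_one]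
  have h3 := D.comparison hm1 ha0 hs' hA hd'
  have e1 : (Cal c I hd hi he).I ((⟨dO X A, hmem⟩ : Rb c) ^ (2 * m - 1) • A) =
      I (dO X A ^ (2 * m - 1) * A) := by
    change I ((((⟨dO X A, hmem⟩ : Rb c) ^ (2 * m - 1) : Rb c) : Om X) * A) = _
    rw [SubmonoidClass.coe_pow]
  have e2 : (Cal c I hd hi he).I ((⟨wt f ω 0, wt_mem f ω c h0 hω h2⟩ : Rb c) ^ m • s) =
      I (wt f ω 0 ^ m * s) := by
    change I ((((⟨wt f ω 0, wt_mem f ω c h0 hω h2⟩ : Rb c) ^ m : Rb c) : Om X) * s) = _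
    rw [SubmonoidClass.coe_pow]
  rw [e1, e2] at h3
  exact h3

theorem exists_prim (c : Circ X) (hi : ∀ x, iO c x = 0 → I x = 0) (f : SMap X.xR M)
    (h0 : IMap c (f.comp (jO X 0))) (h1 : IMap c (f.comp (jO X 1))) {a : ℝ} (ha0 : a ≠ 0)
    (ha : KO X (c.a.pull (KO X (f.pull ω))) = algebraMap ℝ (Om X) a) : ∃ s, dO X s = wt f ω 0 ^ m := by
  have D := data f ω c I hd hi he hω h2 hp h0 h1 ha
  obtain ⟨s, hs⟩ := D.prim ha0
  refine ⟨s, ?_⟩
  have h3 : dO X s = ((⟨wt f ω 0, wt_mem f ω c h0 hω h2⟩ ^ m : Rb c) : Om X) * 1 := hs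
  rw [h3, mul_one]
  rfl

omit hω h2 hp in
/-- independence of the primitive -/
lemma prim_indep {w s s' : Om X} (hw : sO X w = w) (hs : dO X s = w) (hs' : dO X s' = w) :
    I (w * s) = I (w * s') := by
  obtain ⟨z, hz⟩ : ∃ z, z = s - s' := ⟨_, rfl⟩
  have hdz : dO X z = 0 := by rw [hz, map_sub, hs, hs', sub_self]
  have h1 : I (dO X (z * s)) = 0 := hd _
  rw [d_mul, hdz, zero_mul, zero_add, hs, ← even_comm' hw] at h1
  have h3 : I (w * (z + sO X z)) = 0 := he _ (by rw [map_mul, map_add, s_s, hw, add_comm])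
  rw [mul_add, map_add, h1, add_zero, hz, mul_sub, map_sub] at h3
  linarith

omit he in
/-- homotopy invariance -/
lemma hopf_htpy (hm1 : 1 ≤ m) (F : SMap X.xR M) {s0 : Om X} (hs : dO X s0 = wt F ω 0 ^ m) :
    ∃ s1, dO X s1 = wt F ω 1 ^ m ∧ I (wt F ω 1 ^ m * s1) = I (wt F ω 0 ^ m * s0) := by
  have hcl : dO M (ω ^ m) = 0 := d_pow_zero hω m
  have hb := d_bh F (ω ^ m) hcl
  have hw0 : wt F (ω ^ m) 0 = wt F ω 0 ^ m := by
    unfold wt
    rw [map_pow, map_pow]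
  have hw1 : (jO X 1).pull (F.pull (ω ^ m)) = wt F ω 1 ^ m := by
    unfold wt
    rw [map_pow, map_pow]
  obtain ⟨t, ht⟩ : ∃ t, t = (pO X).pull s0 + bh F (ω ^ m) := ⟨_, rfl⟩
  have hdt : dO X.xR t = F.pull (ω ^ m) := by
    rw [ht, map_add, pull_d, hs, hb, hw0]
    abel
  have ht0 : (jO X 0).pull t = s0 := by
    rw [ht, map_add, j_p, bh_zero, add_zero]
  refine ⟨(jO X 1).pull t, ?_, ?_⟩
  · rw [pull_d, hdt, hw1]
  · have hev : sO X.xR (F.pull (ω ^ m)) = F.pull (ω ^ m) := by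
      rw [pull_s, map_pow, Deg_even (j := 1) h2]
    have hz : dO X.xR (F.pull (ω ^ m) * t) = 0 := by
      rw [d_mul, pull_d, hcl, map_zero, zero_mul, zero_add, hev, hdt, ← map_mul, ← pow_add]
      have h4 : m + m = (m + 1) + (m - 1) := by omega
      rw [h4, pow_add, hp, zero_mul, map_zero]
    have h5 := d_K (F.pull (ω ^ m) * t)
    rw [hz, map_zero, add_zero, map_mul (jO X 1).pull, map_mul (jO X 0).pull, ht0, hw1] at h5
    have h6 : (jO X 0).pull (F.pull (ω ^ m)) = wt F ω 0 ^ m := hw0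
    rw [h6] at h5
    have h7 := hd (KO X (F.pull (ω ^ m) * t))
    rw [h5, map_sub] at h7
    linarith

/-- **Comparison of two circle actions.** -/
theorem comparison_two (φ ρ : Circ X) (hφ : ∀ x, iO φ x = 0 → I x = 0) (hρ : ∀ x, iO ρ x = 0 → I x = 0)
    (hm1 : 1 ≤ m) (f g F : SMap X.xR M)
    (f0 : IMap φ (f.comp (jO X 0))) (f1 : IMap φ (f.comp (jO X 1)))
    (g0 : IMap ρ (g.comp (jO X 0))) (g1 : IMap ρ (g.comp (jO X 1)))
    (F0 : F.comp (jO X 0) = g.comp (jO X 0)) (F1 : F.comp (jO X 1) = f.comp (jO X 0))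
    {a b : ℝ} (ha0 : a ≠ 0) (hb0 : b ≠ 0)
    (ha : KO X (φ.a.pull (KO X (f.pull ω))) = algebraMap ℝ (Om X) a)
    (hb : KO X (ρ.a.pull (KO X (g.pull ω))) = algebraMap ℝ (Om X) b) {A B : Om X}
    (hA : iO φ A = 1) (hA1 : sO X A = -A) (hA2 : iO φ (dO X A) = 0)
    (hB : iO ρ B = 1) (hB1 : sO X B = -B) (hB2 : iO ρ (dO X B) = 0) :
    a ^ (2 * m) * I (dO X A ^ (2 * m - 1) * A) = b ^ (2 * m) * I (dO X B ^ (2 * m - 1) * B) := by
  obtain ⟨s, hs⟩ := exists_prim I hd he hω h2 hp ρ hρ g g0 g1 hb0 hb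
  have hg : wt g ω 0 = wt F ω 0 := by
    unfold wt
    rw [← pull_comp, ← pull_comp, F0]
  have hf : wt F ω 1 = wt f ω 0 := by
    unfold wt
    rw [← pull_comp, ← pull_comp, F1]
  have hs0 : dO X s = wt F ω 0 ^ m := by rw [hs, hg]
  obtain ⟨s1, hs1, hI⟩ := hopf_htpy I hd hω h2 hp hm1 F hs0
  rw [hf] at hs1 hI
  rw [comparison_one I hd he hω h2 hp φ hφ hm1 f f0 f1 ha0 ha hs1 hA hA1 hA2,
    comparison_one I hd he hω h2 hp ρ hρ hm1 g g0 g1 hb0 hb hs hB hB1 hB2, hI, hg]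

end FR

end Pool.Agent.Lib.MP_ccbbf6_gt.L4
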