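import Pool.Agent.Lib.MP_ccbbf6_gt.L4.Cmp3
import Pool.Agent.Lib.MP_ccbbf6_gt.L4.FRt

/-!
# Level 4, areas of cylinders, closed functions, the final form of the comparison (helper56)
-/

set_option autoImplicit false
set_option maxSynthPendingDepth 3

noncomputable section

namespace Pool.Agent.Lib.MP_ccbbf6_gt.L4.FR

variable {X M : Space} {k l n : ℕ}

/-! ### The double integral -/

/-- contraction with both variables -/
def cc2 : Ex 2 →ₗ[ℝ] Ex 0 :=
  (kil 0).toLinearMap.comp ((ctr (lst 0)).comp ((kil 1).toLinearMap.comp (ctr (lst 1))))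

lemma cc2_apply (a : Ex 2) : cc2 a = kil 0 (ctr (lst 0) (kil 1 (ctr (lst 1) a))) := rfl

lemma ctr_ι (φ : V k →ₗ[ℝ] ℝ) (v : V k) : ctr φ (ExteriorAlgebra.ι ℝ v) = algebraMap ℝ (Ex k) (φ v) := by
  have h := ctr_ι_mul φ v 1
  rw [mul_one, ctr_one, mul_zero, sub_zero] at h
  rw [h, Algebra.algebraMap_eq_smul_one]

lemma cc2_eq (a : Ex 2) : cc2 a = -topE 2 a • (1 : Ex 0) := by
  have h : cc2 = -((topE 2).smulRight (1 : Ex 0)) := by
    refine ExteriorAlgebra.lhom_ext fun i => ?_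
    ext v
    change cc2 (ExteriorAlgebra.ιMulti ℝ i v) = -(topE 2 (ExteriorAlgebra.ιMulti ℝ i v) • (1 : Ex 0))
    rcases lt_or_ge 2 i with hi | hi
    · rw [ιMulti_eq_zero hi, map_zero, map_zero, zero_smul, neg_zero]
    interval_cases i
    · rw [topE_ιMulti_ne (by norm_num), zero_smul, neg_zero, ExteriorAlgebra.ιMulti_zero_apply, cc2_apply, ctr_one,
        map_zero, map_zero, map_zero]
    · rw [topE_ιMulti_ne (by norm_num), zero_smul, neg_zero, ExteriorAlgebra.ιMulti_succ_apply,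
        ExteriorAlgebra.ιMulti_zero_apply, mul_one, cc2_apply, ctr_ι, AlgHom.commutes, ctr_algebraMap, map_zero]
    · rw [topE_ιMulti, Matrix.det_fin_two, ExteriorAlgebra.ιMulti_succ_apply, ExteriorAlgebra.ιMulti_succ_apply,
        ExteriorAlgebra.ιMulti_zero_apply, mul_one, cc2_apply, ctr_ι_mul, ctr_ι, map_sub, map_smul, kil_ι, map_mul,
        kil_ι, AlgHom.commutes, map_sub, map_smul, ctr_ι, ← Algebra.commutes, ← Algebra.smul_def, map_smul, ctr_ι]
      simp only [Algebra.algebraMap_eq_smul_one, map_smul, map_one, smul_smul, ← sub_smul, ← neg_smul]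
      congr 1
      change v 0 1 * v 1 0 - v 1 1 * v 0 0 = -(v 0 0 * v 1 1 - v 0 1 * v 1 0)
      ring
  rw [h]
  change -(topE 2 a • (1 : Ex 0)) = _
  rw [neg_smul]

/-- the integral of a two-form over the unit square -/
def sqI (θ : Fm 2) : ℝ := ∫ t in (0 : ℝ)..1, ∫ r in (0 : ℝ)..1, topE 2 (ev ![t, r] θ)

lemma snoc_snoc (x : V 0) (t r : ℝ) : (Fin.snoc (Fin.snoc x t : V 1) r : V 2) = ![t, r] := by
  funext i
  fin_cases i <;> rfl

lemma cont_top (θ : Fm (k + 1)) (L : Ex (k + 1) →ₗ[ℝ] ℝ) : Continuous fun z => L (ev z θ) := by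
  induction θ using Fm_tind with
  | hf f a =>
    simp only [ev_tm, map_smul, smul_eq_mul]
    exact (Cs_smooth f).continuous.mul continuous_const
  | ha x y hx hy =>
    simp only [map_add]
    exact hx.add hy

lemma cont_pair : Continuous fun z : ℝ × ℝ => (![z.1, z.2] : V 2) := by
  rw [continuous_pi_iff]
  intro i
  fin_cases i
  · exact continuous_fst
  · exact continuous_snd

lemma sq_add {G H : V 2 → ℝ} (hG : Continuous G) (hH : Continuous H) :
    ∫ t in (0 : ℝ)..1, ∫ r in (0 : ℝ)..1, (G ![t, r] + H ![t, r]) =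
      (∫ t in (0 : ℝ)..1, ∫ r in (0 : ℝ)..1, G ![t, r]) + ∫ t in (0 : ℝ)..1, ∫ r in (0 : ℝ)..1, H ![t, r] := by
  have hc : ∀ {G : V 2 → ℝ}, Continuous G → Continuous fun z : ℝ × ℝ => G ![z.1, z.2] :=
    fun hG => hG.comp cont_pair
  have hc1 : ∀ {G : V 2 → ℝ}, Continuous G → ∀ t : ℝ, Continuous fun r : ℝ => G ![t, r] :=
    fun hG t => (hc hG).comp (by fun_prop : Continuous fun r : ℝ => (t, r))
  have hc2 : ∀ {G : V 2 → ℝ}, Continuous G → Continuous fun t : ℝ => ∫ r in (0 : ℝ)..1, G ![t, r] := fun hG =>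
    intervalIntegral.continuous_parametric_intervalIntegral_of_continuous' (hc hG) 0 1
  rw [← intervalIntegral.integral_add ((hc2 hG).intervalIntegrable _ _) ((hc2 hH).intervalIntegrable _ _)]
  congr 1
  funext t
  rw [← intervalIntegral.integral_add ((hc1 hG t).intervalIntegrable _ _) ((hc1 hH t).intervalIntegrable _ _)]

lemma sqI_add (x y : Fm 2) : sqI (x + y) = sqI x + sqI y := by
  have h := sq_add (cont_top x (topE 2)) (cont_top y (topE 2))
  unfold sqI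
  rw [← h]
  simp only [map_add]

lemma sqI_tm (f : Cs 2) (a : Ex 2) :
    sqI (tm f a) = (∫ t in (0 : ℝ)..1, ∫ r in (0 : ℝ)..1, (f : V 2 → ℝ) ![t, r]) * topE 2 a := by
  unfold sqI
  simp only [ev_tm, map_smul, smul_eq_mul, intervalIntegral.integral_mul_const]

lemma tm_const (J r : ℝ) : tm (algebraMap ℝ (Cs k) J) (r • (1 : Ex k)) = algebraMap ℝ (Fm k) (r * J) := by
  rw [tm_smul_right, ← fc_apply, (fc k).commutes, Algebra.algebraMap_eq_smul_one, Algebra.algebraMap_eq_smul_one,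
    smul_smul]

lemma Int_Int (f : Cs 2) :
    Int 0 (Int 1 f) = algebraMap ℝ (Cs 0) (∫ t in (0 : ℝ)..1, ∫ r in (0 : ℝ)..1, (f : V 2 → ℝ) ![t, r]) := by
  apply Cs_ext
  intro x
  rw [Int_apply]
  simp only [Int_apply, snoc_snoc]
  rfl

lemma KK_KK_tm (f : Cs 2) (a : Ex 2) : KK 0 (KK 1 (tm f a)) = tm (Int 0 (Int 1 f)) (cc2 a) := rfl

lemma KK_KK (θ : Fm 2) : KK 0 (KK 1 θ) = algebraMap ℝ (Fm 0) (-sqI θ) := by
  induction θ using Fm_tind with
  | hf f a =>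
    rw [KK_KK_tm, Int_Int, cc2_eq, tm_const, sqI_tm, neg_mul, mul_comm]
  | ha x y hx hy =>
    rw [(KK 1).map_add, (KK 0).map_add, hx, hy, sqI_add, neg_add, (algebraMap ℝ (Fm 0)).map_add]

/-! ### Functions -/

/-- constant map -/
def pt0 (x : V l) : Sm 0 l := ⟨fun _ => x, contDiff_const⟩

/-- value of the function part at a point -/
def val (θ : Om X) (p : X.Plot 0) : ℝ := (fn 0 (Om.on θ p) : V 0 → ℝ) 0

lemma on_val {θ : Om X} (h : Deg 0 θ) (p : X.Plot 0) : Om.on θ p = algebraMap ℝ (Fm 0) (val θ p) := by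
  rw [← Dg_fn (h 0 p), ← (fc 0).commutes]
  congr 1
  apply Cs_ext
  intro x
  rw [Subsingleton.elim x 0]
  rfl

lemma val_cmp {θ : Om X} (h : Deg 0 θ) (q : X.Plot k) (x : V k) :
    val θ (q.cmp (pt0 x)) = (fn k (Om.on θ q) : V k → ℝ) x := by
  unfold val
  rw [on_cmp, ← Dg_fn (h k q), pb_fc, fn_fc, fn_fc]
  rfl

lemma eq_const {θ : Om X} (h : Deg 0 θ) {a : ℝ} (ha : ∀ p : X.Plot 0, val θ p = a) :
    θ = algebraMap ℝ (Om X) a := by
  refine Om_ext fun k q => ?_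
  have h1 : Om.on (algebraMap ℝ (Om X) a) q = algebraMap ℝ (Fm k) a := rfl
  rw [h1, ← Dg_fn (h k q), ← (fc k).commutes]
  congr 1
  apply Cs_ext
  intro x
  rw [← val_cmp h q x, ha]
  rfl

/-- closed functions are constant along plots -/
lemma val_plot {θ : Om X} (h : Deg 0 θ) (hd : dO X θ = 0) (q : X.Plot 1) (s t : V 1) :
    val θ (q.cmp (pt0 s)) = val θ (q.cmp (pt0 t)) := by
  rw [val_cmp h, val_cmp h]
  obtain ⟨f, hf⟩ : ∃ f, f = fn 1 (Om.on θ q) := ⟨_, rfl⟩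
  rw [← hf]
  have h1 : dd 1 (fc 1 f) = 0 := by
    rw [hf, Dg_fn (h 1 q), ← on_d, hd, on_zero]
  have h2 : pd 0 f = 0 := by
    rw [dd_fc, Fin.sum_univ_one] at h1
    apply Cs_ext
    intro x
    have h3 := congrArg (ev x) h1
    rw [map_mul, ev_fc, dx, ev_cf, ← Algebra.smul_def, map_zero] at h3
    rcases smul_eq_zero.1 h3 with h4 | h4
    · exact h4
    · exfalso
      rw [ee, ExteriorAlgebra.ι_eq_zero_iff] at h4
      have h5 := congrFun h4 0
      rw [Pi.single_eq_same] at h5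
      exact one_ne_zero h5
  refine is_const_of_fderiv_eq_zero (𝕜 := ℝ) (Cs_diff f) (fun x => ?_) s t
  ext v
  have h3 : v = v 0 • (Pi.single 0 (1 : ℝ) : V 1) := by
    funext i
    rw [Subsingleton.elim i 0]
    simp
  rw [h3, map_smul]
  have h4 : fderiv ℝ (f : V 1 → ℝ) x (Pi.single 0 1) = (pd 0 f : V 1 → ℝ) x := rfl
  rw [h4, h2]
  simp

/-- connected by plots -/
def Con (X : Space) : Prop := ∀ P : X.pt → Prop, (∀ (q : X.Plot 1) (s t : V 1), P (q.1 s) → P (q.1 t)) →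
  ∀ y y', P y → P y'

lemma closed_const (hC : Con X) {θ : Om X} (h : Deg 0 θ) (hd : dO X θ = 0) (p : X.Plot 0) :
    θ = algebraMap ℝ (Om X) (val θ p) := by
  refine eq_const h fun p' => ?_
  have h1 := hC (fun y => ∀ p' : X.Plot 0, p'.1 0 = y → val θ p' = val θ p) (fun q s t hs p' hp' => ?_)
    (p.1 0) (p'.1 0) (fun p' hp' => ?_)
  · exact h1 p' rfl
  · have h2 : p' = q.cmp (pt0 t) := Plot_ext fun x => by
      rw [Subsingleton.elim x 0, hp']
      rfl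
    rw [h2, val_plot h hd q t s]
    exact hs _ rfl
  · have h2 : p' = p := Plot_ext fun x => by rw [Subsingleton.elim x 0, hp']
    rw [h2]

/-! ### The area function of a homotopy -/

/-- area of the cylinders -/
def ar (c : Circ X) (f : SMap X.xR M) (ω : Om M) : Om X := KO X (c.a.pull (KO X (f.pull ω)))

/-- the cylinder `(t, r) ↦ f (a_t y, r)` -/
def cyp (c : Circ X) (f : SMap X.xR M) (y : X.Plot 0) : M.Plot 2 := f.pl (c.a.pl y.up).up

lemma Deg_ar (c : Circ X) (f : SMap X.xR M) {ω : Om M} (h : Deg 2 ω) : Deg 0 (ar c f ω) :=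
  Deg_K (Deg_pull _ (Deg_K (Deg_pull _ h)))

lemma val_ar (c : Circ X) (f : SMap X.xR M) {ω : Om M} (y : X.Plot 0) :
    val (ar c f ω) y = -sqI (Om.on ω (cyp c f y)) := by
  have h1 : Om.on (ar c f ω) y = KK 0 (KK 1 (Om.on ω (cyp c f y))) := rfl
  unfold val
  rw [h1, KK_KK, ← (fc 0).commutes, fn_fc]
  rfl

lemma d_ar (c : Circ X) (f : SMap X.xR M) {ω : Om M} (hω : dO M ω = 0)
    (h0 : IMap c (f.comp (jO X 0))) (h1 : IMap c (f.comp (jO X 1))) : dO X (ar c f ω) = 0 := by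
  have h := d_K (f.pull ω)
  have h3 : dO X.xR (f.pull ω) = 0 := by rw [pull_d, hω, map_zero]
  rw [h3, map_zero, add_zero] at h
  unfold ar
  rw [← i_A, cartan c (A_inv c _), A_d, h]
  have hb : Bas c ((jO X 1).pull (f.pull ω) - (jO X 0).pull (f.pull ω)) :=
    Bas_sub c (Bas_pull c h1 ω) (Bas_pull c h0 ω)
  rw [A_bas c hb, Bas_i c hb, neg_zero]

/-- the area function is constant -/
theorem ar_eq (c : Circ X) (f : SMap X.xR M) {ω : Om M} (h2 : Deg 2 ω) {a : ℝ}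
    (ha : ∀ y : X.Plot 0, sqI (Om.on ω (cyp c f y)) = a) : ar c f ω = algebraMap ℝ (Om X) (-a) :=
  eq_const (Deg_ar c f h2) fun p => by rw [val_ar, ha]

theorem ar_const (hC : Con X) (c : Circ X) (f : SMap X.xR M) {ω : Om M} (hω : dO M ω = 0) (h2 : Deg 2 ω)
    (h0 : IMap c (f.comp (jO X 0))) (h1 : IMap c (f.comp (jO X 1))) (y : X.Plot 0) :
    ar c f ω = algebraMap ℝ (Om X) (-sqI (Om.on ω (cyp c f y))) := by
  rw [← val_ar]
  exact closed_const hC (Deg_ar c f h2) (d_ar c f hω h0 h1) y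

/-! ### The final form of the comparison -/

/-- **Comparison**, in the form used for the volume. -/
theorem comparison_N (I : Om X →ₗ[ℝ] ℝ) (hd : ∀ x, I (dO X x) = 0) (he : ∀ x, sO X x = x → I x = 0)
    {ω : Om M} (hω : dO M ω = 0) (h2 : Deg 2 ω) {m : ℕ} (hp : ω ^ (m + 1) = 0)
    (φ ρ : Circ X) (hφ : ∀ x, iO φ x = 0 → I x = 0) (hρ : ∀ x, iO ρ x = 0 → I x = 0)
    (hm1 : 1 ≤ m) (f g F : SMap X.xR M)
    (f0 : IMap φ (f.comp (jO X 0))) (f1 : IMap φ (f.comp (jO X 1)))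
    (g0 : IMap ρ (g.comp (jO X 0))) (g1 : IMap ρ (g.comp (jO X 1)))
    (F0 : F.comp (jO X 0) = g.comp (jO X 0)) (F1 : F.comp (jO X 1) = f.comp (jO X 0))
    {a b : ℝ} (ha0 : a ≠ 0) (hb0 : b ≠ 0)
    (ha : ar φ f ω = algebraMap ℝ (Om X) a) (hb : ar ρ g ω = algebraMap ℝ (Om X) b) {A : Om X}
    (hA : iO φ A = 1) (hA1 : sO X A = -A) (hA2 : iO φ (dO X A) = 0) :
    a ^ (2 * m) * I (dO X A ^ (2 * m - 1) * A) = (-1) ^ m * ((2 * m).choose m : ℝ) *
      I (wt g ω 0 ^ m * wt g ω 1 ^ (m - 1) * AO ρ (b0 g ω)) := by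
  obtain ⟨s, hs⟩ := exists_prim I hd he hω h2 hp ρ hρ g g0 g1 hb0 hb
  have hg : wt g ω 0 = wt F ω 0 := by
    unfold wt
    rw [← pull_comp, ← pull_comp, F0]
  have hf : wt F ω 1 = wt f ω 0 := by
    unfold wt
    rw [← pull_comp, ← pull_comp, F1]
  have hs0 : dO X s = wt F ω 0 ^ m := by rw [hs, hg]
  obtain ⟨s1, hs1, hI⟩ := hopf_htpy I hd hω h2 hp hm1 F hs0
  rw [hf] at hs1 hI
  have D := data g ω ρ I hd hρ he hω h2 hp g0 g1 hb
  have hs' : (Cal ρ I hd hρ he).d s =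
      (⟨wt g ω 0, wt_mem g ω ρ g0 hω h2⟩ : Rb ρ) ^ m • (Cal ρ I hd hρ he).u := by
    change dO X s = ((⟨wt g ω 0, wt_mem g ω ρ g0 hω h2⟩ ^ m : Rb ρ) : Om X) * 1
    rw [hs, mul_one]
    rfl
  have h5 := D.one hm1 hb0 hs'
  have h6 : ((m : ℝ) + 1) * I (wt g ω 0 ^ m * s) =
      -I (wt g ω 0 ^ m * wt g ω 1 ^ (m - 1) * AO ρ (b0 g ω)) := h5
  rw [comparison_one I hd he hω h2 hp φ hφ hm1 f f0 f1 ha0 ha hs1 hA hA1 hA2, hI, ← hg]
  calc (-1) ^ (m + 1) * ((m : ℝ) + 1) * ((2 * m).choose m : ℝ) * I (wt g ω 0 ^ m * s)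
      = (-1) ^ (m + 1) * ((2 * m).choose m : ℝ) * (((m : ℝ) + 1) * I (wt g ω 0 ^ m * s)) := by ring
    _ = _ := by rw [h6]; ring

end Pool.Agent.Lib.MP_ccbbf6_gt.L4.FR
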