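import Pool.Agent.Lib.MP_ccbbf6_gt.Geo.CZa
import Pool.Agent.Lib.MP_ccbbf6_gt.L4.FI2
import Pool.Agent.Lib.MP_ccbbf6_gt.L4.Sp

/-!
# Level 4, block DPHI: the number of the geodesic flow is odd
-/

set_option autoImplicit false

open Set Filter Topology Metric Real
open scoped ContDiff RealInnerProductSpace

noncomputable section

namespace Pool.Agent.Lib.MP_ccbbf6_gt.L4

open Geo FR

/-! ### Affine maps of the plane -/

/-- `(t, s) ↦ (a t + b, a' s + b')` -/
def aff (a b a' b' : ℝ) : FR.Sm 2 2 := ⟨fun u => ![a * u 0 + b, a' * u 1 + b'], by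
  rw [contDiff_pi]
  intro i
  fin_cases i
  · exact (contDiff_const.mul (contDiff_apply ℝ ℝ (0 : Fin 2))).add contDiff_const
  · exact (contDiff_const.mul (contDiff_apply ℝ ℝ (1 : Fin 2))).add contDiff_const⟩

theorem aff_det (a b a' b' : ℝ) (x : V 2) : (fderiv ℝ (aff a b a' b' : V 2 → V 2) x).det = a * a' := by
  have h : HasFDerivAt (aff a b a' b' : V 2 → V 2)
      (ContinuousLinearMap.pi ![a • ContinuousLinearMap.proj (R := ℝ) (φ := fun _ : Fin 2 => ℝ) 0,
        a' • ContinuousLinearMap.proj (R := ℝ) (φ := fun _ : Fin 2 => ℝ) 1]) x := by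
    rw [hasFDerivAt_pi']
    intro i
    fin_cases i
    · exact ((hasFDerivAt_apply (𝕜 := ℝ) (0 : Fin 2) x).const_mul a).add_const b
    · exact ((hasFDerivAt_apply (𝕜 := ℝ) (1 : Fin 2) x).const_mul a').add_const b'
  rw [h.fderiv, ContinuousLinearMap.det, ← LinearMap.det_toMatrix', Matrix.det_fin_two]
  simp [LinearMap.toMatrix'_apply]

theorem tp_aff (a b a' b' : ℝ) (θ : Fm 2) (x : V 2) :
    topE 2 (ev x (pb (aff a b a' b') θ)) = a * a' * topE 2 (ev (aff a b a' b' x) θ) := by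
  have h := tp_pb (aff a b a' b') θ x
  rw [tp_apply, tp_apply, aff_det] at h
  exact h

theorem continuous_top {k : ℕ} (θ : Fm k) : Continuous fun x => topE k (ev x θ) := (contDiff_coef (topE k) θ).continuous

variable {n : ℕ} {M : Type} [MetricSpace M] [CompactSpace M] {𝒜 : SDist n M}

/-- constant families -/
theorem smG_const (c : Gs M) {E : Type*} [NormedAddCommGroup E] [NormedSpace ℝ E] : SmG 𝒜 (fun _ : E => c) :=
  ⟨sm_const _, sm_const _⟩

theorem rev_shift (r : ℝ) (c : Gs M) : rev (shift r c) = shift (-r) (rev c) :=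
  Subtype.ext (funext fun t => by
    change c.1 (-t + r) = c.1 (-(t + -r))
    rw [neg_add, neg_neg])

theorem shift_period (𝒜 : SDist n M) (hB : Bl M) (c : Gs M) (r : ℝ) : shift (r + 2 * π) c = shift r c :=
  Subtype.ext (funext fun t => by
    change c.1 (t + (r + 2 * π)) = c.1 (t + r)
    rw [← add_assoc, IsGeo.closed 𝒜 hB c.2])

/-- the disc of a geodesic -/
def discP (hB : Bl M) {f : Gs M → ℝ → M} (hf : Fill 𝒜 f) (c : Gs M) : (spM 𝒜).Plot 2 :=
  ⟨fun u => f (shift (2 * π * u 0) c) (u 1), by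
    have h1 : SmG 𝒜 (fun u : V 2 => shift (2 * π * u 0) c) :=
      SmG.shift hB (smG_const c) (contDiff_const.mul (contDiff_apply ℝ ℝ (0 : Fin 2)))
    exact (hf.smooth (V 2) _ h1).comp (f := fun u : V 2 => (u, u 1)) (contDiff_id.prodMk (contDiff_apply ℝ ℝ (1 : Fin 2)))⟩

/-- the cylinder of a geodesic -/
def cylP (hB : Bl M) {f : Gs M → ℝ → M} (hf : Fill 𝒜 f) (c : Gs M) : (spM 𝒜).Plot 2 :=
  ⟨fun u => two (M := M) f (shift (2 * π * u 0) c) (u 1),
    sm_two (𝒜 := 𝒜) hB hf (SmG.shift hB (smG_const c) (contDiff_const.mul (contDiff_apply ℝ ℝ (0 : Fin 2))))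
      (contDiff_apply ℝ ℝ (1 : Fin 2))⟩

/-- the value of a form on the unit square -/
def area (om : Om (spM 𝒜)) (P : (spM 𝒜).Plot 2) : ℝ :=
  ∫ t in (0 : ℝ)..1, ∫ s in (0 : ℝ)..1, topE 2 (ev ![t, s] (Om.on om P))

variable (hB : Bl M) {f : Gs M → ℝ → M} (hf : Fill 𝒜 f) (om : Om (spM 𝒜))

theorem two_right (hf : Fill 𝒜 f) (c : Gs M) {s : ℝ} (hs : 3 / 8 ≤ s) : two f c s = f c (2 * s - 1) := by
  unfold two
  split_ifs with h
  · rw [hf.zero _ _ (by linarith), hf.zero _ _ (by linarith)]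
    simp [rev]
  · rfl

theorem two_left (hf : Fill 𝒜 f) (c : Gs M) {s : ℝ} (hs : s ≤ 5 / 8) : two f c s = f (rev c) (1 - 2 * s) := by
  unfold two
  split_ifs with h
  · rfl
  · rw [hf.zero _ _ (by linarith), hf.zero _ _ (by linarith)]
    simp [rev]

theorem cyl_right (c : Gs M) {t s : ℝ} (hs : 3 / 8 < s) :
    topE 2 (ev ![t, s] (Om.on om (cylP hB hf c))) = 2 * topE 2 (ev ![t, 2 * s - 1] (Om.on om (discP hB hf c))) := by
  have h1 : ev ![t, s] (Om.on om (cylP hB hf c)) = ev ![t, s] (Om.on om ((discP hB hf c).cmp (aff 1 0 2 (-1)))) := by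
    apply ev_on_congr
    have h2 : ∀ᶠ u : V 2 in 𝓝 ![t, s], 3 / 8 < u 1 :=
      (continuous_apply (1 : Fin 2)).continuousAt.eventually (lt_mem_nhds (by exact hs))
    filter_upwards [h2] with u hu
    change two f (shift (2 * π * u 0) c) (u 1) = f (shift (2 * π * (1 * u 0 + 0)) c) (2 * u 1 + -1)
    rw [two_right hf _ hu.le, one_mul, add_zero, sub_eq_add_neg]
  rw [h1, on_cmp, tp_aff, one_mul]
  congr 4
  funext i
  fin_cases i
  · change 1 * t + 0 = t
    rw [one_mul, add_zero]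
  · change 2 * s + -1 = 2 * s - 1
    rw [sub_eq_add_neg]

theorem cyl_left (c : Gs M) {t s : ℝ} (hs : s < 5 / 8) :
    topE 2 (ev ![t, s] (Om.on om (cylP hB hf c))) =
      2 * topE 2 (ev ![-t, 1 - 2 * s] (Om.on om (discP hB hf (rev c)))) := by
  have h1 : ev ![t, s] (Om.on om (cylP hB hf c)) =
      ev ![t, s] (Om.on om ((discP hB hf (rev c)).cmp (aff (-1) 0 (-2) 1))) := by
    apply ev_on_congr
    have h2 : ∀ᶠ u : V 2 in 𝓝 ![t, s], u 1 < 5 / 8 :=
      (continuous_apply (1 : Fin 2)).continuousAt.eventually (gt_mem_nhds (by exact hs))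
    filter_upwards [h2] with u hu
    change two f (shift (2 * π * u 0) c) (u 1) = f (shift (2 * π * (-1 * u 0 + 0)) (rev c)) (-2 * u 1 + 1)
    rw [two_left hf _ hu.le, rev_shift]
    congr 2
    · ring
    · ring
  rw [h1, on_cmp, tp_aff]
  congr 1
  · norm_num
  congr 3
  funext i
  fin_cases i
  · change -1 * t + 0 = -t
    ring
  · change -2 * s + 1 = 1 - 2 * s
    ring

theorem disc_period (c : Gs M) (t s : ℝ) :
    topE 2 (ev ![t + 1, s] (Om.on om (discP hB hf c))) = topE 2 (ev ![t, s] (Om.on om (discP hB hf c))) := by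
  have h1 : (discP hB hf c).cmp (aff 1 1 1 0) = discP hB hf c := by
    refine Plot_ext fun u => ?_
    change f (shift (2 * π * (1 * u 0 + 1)) c) (1 * u 1 + 0) = f (shift (2 * π * u 0) c) (u 1)
    have e : 2 * π * (1 * u 0 + 1) = 2 * π * u 0 + 2 * π := by ring
    rw [e, shift_period 𝒜 hB, one_mul, add_zero]
  have h2 := tp_aff 1 1 1 0 (Om.on om (discP hB hf c)) ![t, s]
  rw [← on_cmp, h1, one_mul, one_mul] at h2
  have e : (aff 1 1 1 0 : V 2 → V 2) ![t, s] = ![t + 1, s] := by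
    funext i
    fin_cases i
    · change 1 * t + 1 = t + 1
      ring
    · change 1 * s + 0 = s
      ring
  rw [e] at h2
  exact h2.symm

theorem continuous_vec : Continuous fun z : ℝ × ℝ => (![z.1, z.2] : V 2) := by
  refine continuous_pi fun i => ?_
  fin_cases i
  · exact continuous_fst
  · exact continuous_snd

/-- the cylinder is the sum of two discs: the integrals -/
theorem int_cyl {C D D' : ℝ → ℝ → ℝ} (cC : Continuous fun z : ℝ × ℝ => C z.1 z.2)
    (cD : Continuous fun z : ℝ × ℝ => D z.1 z.2) (cD' : Continuous fun z : ℝ × ℝ => D' z.1 z.2)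
    (hl : ∀ t s : ℝ, s < 5 / 8 → C t s = 2 * D' (-t) (1 - 2 * s))
    (hr : ∀ t s : ℝ, 3 / 8 < s → C t s = 2 * D t (2 * s - 1)) (per : ∀ t s, D' (t + 1) s = D' t s) :
    ∫ t in (0 : ℝ)..1, ∫ s in (0 : ℝ)..1, C t s = (∫ t in (0 : ℝ)..1, ∫ s in (0 : ℝ)..1, D t s) +
      ∫ t in (0 : ℝ)..1, ∫ s in (0 : ℝ)..1, D' t s := by
  have h1 : ∀ t, ∫ s in (0 : ℝ)..1, C t s = (∫ s in (0 : ℝ)..1, D t s) + ∫ s in (0 : ℝ)..1, D' (-t) s := by
    intro t
    have cCt : Continuous fun s => C t s := cC.comp (continuous_const.prodMk continuous_id)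
    rw [← intervalIntegral.integral_add_adjacent_intervals (a := (0 : ℝ)) (b := 1 / 2) (c := 1)
      (cCt.intervalIntegrable _ _) (cCt.intervalIntegrable _ _)]
    have e1 : ∫ s in (0 : ℝ)..(1 / 2), C t s = ∫ s in (0 : ℝ)..1, D' (-t) s := by
      have e2 : ∫ s in (0 : ℝ)..(1 / 2), C t s = ∫ s in (0 : ℝ)..(1 / 2), 2 * D' (-t) (1 - 2 * s) := by
        refine intervalIntegral.integral_congr fun s hs => ?_
        rw [uIcc_of_le (by norm_num)] at hs
        exact hl t s (by linarith [hs.2])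
      rw [e2, intervalIntegral.integral_const_mul, intervalIntegral.integral_comp_sub_mul (D' (-t)) two_ne_zero 1]
      have e3 : (1 : ℝ) - 2 * (1 / 2) = 0 := by norm_num
      have e4 : (1 : ℝ) - 2 * 0 = 1 := by norm_num
      rw [e3, e4, smul_eq_mul, ← mul_assoc, mul_inv_cancel₀ two_ne_zero, one_mul]
    have e3 : ∫ s in (1 / 2 : ℝ)..1, C t s = ∫ s in (0 : ℝ)..1, D t s := by
      have e2 : ∫ s in (1 / 2 : ℝ)..1, C t s = ∫ s in (1 / 2 : ℝ)..1, 2 * D t (2 * s - 1) := by
        refine intervalIntegral.integral_congr fun s hs => ?_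
        rw [uIcc_of_le (by norm_num)] at hs
        exact hr t s (by linarith [hs.1])
      rw [e2, intervalIntegral.integral_const_mul, intervalIntegral.integral_comp_mul_sub (D t) two_ne_zero 1]
      have e3 : (2 : ℝ) * (1 / 2) - 1 = 0 := by norm_num
      have e4 : (2 : ℝ) * 1 - 1 = 1 := by norm_num
      rw [e3, e4, smul_eq_mul, ← mul_assoc, mul_inv_cancel₀ two_ne_zero, one_mul]
    rw [e1, e3, add_comm]
  have cG : Continuous fun t => ∫ s in (0 : ℝ)..1, D t s :=
    intervalIntegral.continuous_parametric_intervalIntegral_of_continuous' cD 0 1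
  have cG' : Continuous fun t => ∫ s in (0 : ℝ)..1, D' t s :=
    intervalIntegral.continuous_parametric_intervalIntegral_of_continuous' cD' 0 1
  simp only [h1]
  have cN : Continuous fun t => ∫ s in (0 : ℝ)..1, D' (-t) s := cG'.comp continuous_neg
  rw [intervalIntegral.integral_add (cG.intervalIntegrable _ _) (cN.intervalIntegrable _ _)]
  congr 1
  have e4 := intervalIntegral.integral_comp_neg (fun t => ∫ s in (0 : ℝ)..1, D' t s) (a := 0) (b := 1)
  rw [e4]
  have per' : Function.Periodic (fun t => ∫ s in (0 : ℝ)..1, D' t s) 1 := by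
    intro t
    simp only [per]
  have h5 := per'.intervalIntegral_add_eq (-1) 0
  rw [neg_add_cancel, zero_add] at h5
  rw [neg_zero, h5]

/-- the cylinder is the sum of two discs -/
theorem area_cyl (c : Gs M) : area om (cylP hB hf c) = area om (discP hB hf c) + area om (discP hB hf (rev c)) :=
  int_cyl (C := fun t s => topE 2 (ev ![t, s] (Om.on om (cylP hB hf c))))
    (D := fun t s => topE 2 (ev ![t, s] (Om.on om (discP hB hf c))))
    (D' := fun t s => topE 2 (ev ![t, s] (Om.on om (discP hB hf (rev c)))))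
    ((continuous_top _).comp continuous_vec) ((continuous_top _).comp continuous_vec)
    ((continuous_top _).comp continuous_vec) (fun t s hs => cyl_left hB hf om c hs)
    (fun t s hs => cyl_right hB hf om c hs) (fun t s => disc_period hB hf om (rev c) t s)

/-- the area of a disc is continuous along the rotation -/
theorem continuous_area {ρ : ℝ → Gs M → Gs M} (hρ : Rot 𝒜 ρ) (c : Gs M) :
    Continuous fun θ => area om (discP hB hf (ρ θ c)) := by
  -- the plot with the parameter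
  set P : (spM 𝒜).Plot 3 := ⟨fun u => f (shift (2 * π * u 0) (ρ (u 2) c)) (u 1), by
    have h0 : SmG 𝒜 (fun u : V 3 => ρ (u 2) c) :=
      (hρ.smooth (V 3) (fun _ => c) (smG_const c)).comp (f := fun u : V 3 => (u 2, u))
        ((contDiff_apply ℝ ℝ (2 : Fin 3)).prodMk contDiff_id)
    have h1 : SmG 𝒜 (fun u : V 3 => shift (2 * π * u 0) (ρ (u 2) c)) :=
      SmG.shift hB h0 (contDiff_const.mul (contDiff_apply ℝ ℝ (0 : Fin 3)))
    exact (hf.smooth (V 3) _ h1).comp (f := fun u : V 3 => (u, u 1))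
      (contDiff_id.prodMk (contDiff_apply ℝ ℝ (1 : Fin 3)))⟩ with hP
  have gsm : ∀ θ : ℝ, ContDiff ℝ ∞ (fun u : V 2 => (![u 0, u 1, θ] : V 3)) := by
    intro θ
    rw [contDiff_pi]
    intro i
    fin_cases i
    · exact contDiff_apply ℝ ℝ (0 : Fin 2)
    · exact contDiff_apply ℝ ℝ (1 : Fin 2)
    · exact contDiff_const
  set g : ℝ → FR.Sm 2 3 := fun θ => ⟨fun u => ![u 0, u 1, θ], gsm θ⟩ with hg
  have e1 : ∀ θ, discP hB hf (ρ θ c) = P.cmp (g θ) := fun θ => Plot_ext fun u => rfl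
  obtain ⟨L, hL⟩ : ∃ L : Ex 3 →ₗ[ℝ] ℝ, ∀ (θ : ℝ) (x : V 2) (η : Fm 3),
      topE 2 (ev x (pb (g θ) η)) = L (ev (g θ x) η) := by
    refine ⟨(topE 2).comp (ExteriorAlgebra.map (tr (g 0) 0)).toLinearMap, fun θ x η => ?_⟩
    rw [ev_pb]
    have e2 : tr (g θ) x = tr (g 0) 0 := by
      rw [tr_eq, tr_eq]
      congr 1
      have h : ∀ (θ : ℝ) (x : V 2), HasFDerivAt (g θ : V 2 → V 3)
          (ContinuousLinearMap.pi ![ContinuousLinearMap.proj (R := ℝ) (φ := fun _ : Fin 2 => ℝ) 0,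
            ContinuousLinearMap.proj (R := ℝ) (φ := fun _ : Fin 2 => ℝ) 1, 0]) x := by
        intro θ x
        rw [hasFDerivAt_pi']
        intro i
        fin_cases i
        · exact hasFDerivAt_apply (𝕜 := ℝ) (0 : Fin 2) x
        · exact hasFDerivAt_apply (𝕜 := ℝ) (1 : Fin 2) x
        · exact hasFDerivAt_const θ x
      rw [(h θ x).fderiv, (h 0 0).fderiv]
    rw [e2]
    rfl
  have hc : Continuous fun z : (ℝ × ℝ) × ℝ => L (ev ![z.1.2, z.2, z.1.1] (Om.on om P)) := by
    have h1 : Continuous fun x : V 3 => L (ev x (Om.on om P)) := (contDiff_coef L _).continuous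
    refine h1.comp (continuous_pi fun i => ?_)
    fin_cases i
    · exact continuous_fst.snd
    · exact continuous_snd
    · exact continuous_fst.fst
  have h2 : ∀ θ t s : ℝ, topE 2 (ev ![t, s] (Om.on om (discP hB hf (ρ θ c)))) =
      L (ev ![t, s, θ] (Om.on om P)) := by
    intro θ t s
    rw [e1, on_cmp, hL]
    rfl
  unfold area
  simp only [h2]
  have h3 : Continuous fun z : ℝ × ℝ => ∫ s in (0 : ℝ)..1, L (ev ![z.2, s, z.1] (Om.on om P)) :=
    intervalIntegral.continuous_parametric_intervalIntegral_of_continuous'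
      (f := fun (z : ℝ × ℝ) s => L (ev ![z.2, s, z.1] (Om.on om P))) hc 0 1
  exact intervalIntegral.continuous_parametric_intervalIntegral_of_continuous'
    (f := fun θ t => ∫ s in (0 : ℝ)..1, L (ev ![t, s, θ] (Om.on om P))) h3 0 1

/-- **the number of the geodesic flow is odd** -/
theorem area_cyl_odd {ρ : ℝ → Gs M → Gs M} (hρ : Rot 𝒜 ρ) {p0 : M}
    (hint : ∀ c : Gs M, c.1 0 = p0 → ∃ k : ℤ, area om (discP hB hf c) = k + 1 / 2) {c : Gs M} (hc : c.1 0 = p0) :
    ∃ k : ℤ, area om (cylP hB hf c) = 2 * k + 1 := by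
  have hcont := continuous_area hB hf om hρ c
  have hfoot : ∀ θ, (ρ θ c).1 0 = p0 := fun θ => by rw [hρ.foot, hc]
  choose k hk using fun θ => hint (ρ θ c) (hfoot θ)
  have hkc : Continuous k := by
    have h1 : Continuous fun θ => ((k θ : ℤ) : ℝ) := by
      have : (fun θ => ((k θ : ℤ) : ℝ)) = fun θ => area om (discP hB hf (ρ θ c)) - 1 / 2 := by
        funext θ
        rw [hk θ]
        ring
      rw [this]
      exact hcont.sub continuous_const
    exact Int.isClosedEmbedding_coe_real.isEmbedding.continuous_iff.2 h1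
  have hconst : k π = k 0 := (PreconnectedSpace.constant inferInstance hkc).trans rfl
  refine ⟨k 0, ?_⟩
  have h2 := hk π
  have h3 := hk 0
  rw [hρ.pi, hconst] at h2
  rw [hρ.zero] at h3
  rw [area_cyl, h2, h3]
  ring

theorem area_cyl_ge {ρ : ℝ → Gs M → Gs M} (hρ : Rot 𝒜 ρ) {p0 : M}
    (hint : ∀ c : Gs M, c.1 0 = p0 → ∃ k : ℤ, area om (discP hB hf c) = k + 1 / 2) {c : Gs M} (hc : c.1 0 = p0) :
    1 ≤ |area om (cylP hB hf c)| := by
  obtain ⟨k, hk⟩ := area_cyl_odd hB hf om hρ hint hc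
  rw [hk]
  have h1 : (2 * k + 1 : ℤ) ≠ 0 := by omega
  have h2 : (1 : ℤ) ≤ |2 * k + 1| := Int.one_le_abs h1
  have h3 : ((1 : ℤ) : ℝ) ≤ ((|2 * k + 1| : ℤ) : ℝ) := by exact_mod_cast h2
  push_cast at h3
  exact h3

end Pool.Agent.Lib.MP_ccbbf6_gt.L4
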