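import Pool.Agent.Lib.MP_ccbbf6_gt.ML

/-!
# The degree of a proper smooth map of a finite dimensional space is an integer

`DEG.deg_int`: for `H : E → E` smooth and proper there is an integer `k` with
`∫ f (H x) det (DH x) dx = k ∫ f` for all smooth `f` with compact support.
-/

set_option autoImplicit false

open Set Filter Topology Metric MeasureTheory
open scoped ContDiff

noncomputable section

namespace Pool.Agent.Lib.MP_ccbbf6_gt.L4.DEG

/-! ## interpolation -/

theorem exists_weights (d : ℕ) (K : ℝ) : ∃ c v : ℕ → ℝ, (∀ j, K < v j) ∧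
    ∀ p : Polynomial ℝ, p.natDegree ≤ d → p.eval 0 = ∑ j ∈ Finset.range (d + 1), c j * p.eval (v j) := by
  classical
  set v : ℕ → ℝ := fun j => |K| + 1 + j with hv
  refine ⟨fun j => (Lagrange.basis (Finset.range (d + 1)) v j).eval 0, v, fun j => ?_, fun p hp => ?_⟩
  · have := le_abs_self K
    have h2 : (0 : ℝ) ≤ j := Nat.cast_nonneg j
    simp only [hv]; linarith
  · have hinj : Set.InjOn v (Finset.range (d + 1)) := by
      intro a _ b _ h
      simpa [hv] using h
    have hdeg : p.degree < (Finset.range (d + 1)).card := by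
      rw [Finset.card_range]
      exact lt_of_le_of_lt Polynomial.degree_le_natDegree (by exact_mod_cast Nat.lt_succ_of_le hp)
    have h := Lagrange.eq_interpolate hinj hdeg
    conv_lhs => rw [h]
    rw [Lagrange.interpolate_apply, Polynomial.eval_finsetSum]
    refine Finset.sum_congr rfl fun j _ => ?_
    rw [Polynomial.eval_mul, Polynomial.eval_C, mul_comm]

section lin

variable {E : Type*} [NormedAddCommGroup E] [NormedSpace ℝ E] [FiniteDimensional ℝ E]

theorem det_ne_zero_of_lt {A : E →L[ℝ] E} {τ : ℝ} (h : ‖A‖ < τ) : (τ • ContinuousLinearMap.id ℝ E + A).det ≠ 0 := by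
  intro h0
  have hker : LinearMap.ker (τ • ContinuousLinearMap.id ℝ E + A : E →L[ℝ] E).toLinearMap = ⊥ := by
    rw [LinearMap.ker_eq_bot']
    intro v hv
    have h1 : τ • v = - A v := by
      have : τ • v + A v = 0 := by simpa using hv
      exact eq_neg_of_add_eq_zero_left this
    have h2 : τ * ‖v‖ ≤ ‖A‖ * ‖v‖ := by
      calc τ * ‖v‖ ≤ |τ| * ‖v‖ := mul_le_mul_of_nonneg_right (le_abs_self τ) (norm_nonneg v)
        _ = ‖τ • v‖ := by rw [norm_smul, Real.norm_eq_abs]
        _ = ‖A v‖ := by rw [h1, norm_neg]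
        _ ≤ _ := A.le_opNorm v
    by_contra hne
    have h3 : 0 < ‖v‖ := norm_pos_iff.2 hne
    nlinarith
  have hunit : IsUnit (τ • ContinuousLinearMap.id ℝ E + A : E →L[ℝ] E).toLinearMap :=
    (LinearMap.isUnit_iff_ker_eq_bot _).2 hker
  have h2 := LinearMap.isUnit_iff_isUnit_det _ |>.1 hunit
  exact h2.ne_zero h0

omit [FiniteDimensional ℝ E] in
theorem continuous_det : Continuous fun A : E →L[ℝ] E => A.det := ContinuousLinearMap.continuous_det

theorem det_pos_of_lt {A : E →L[ℝ] E} {τ : ℝ} (h : ‖A‖ < τ) : 0 < (τ • ContinuousLinearMap.id ℝ E + A).det := by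
  by_contra hneg
  have hne := det_ne_zero_of_lt h
  have hlt : (τ • ContinuousLinearMap.id ℝ E + A).det < 0 := lt_of_le_of_ne (not_lt.1 hneg) hne
  have hτ : 0 < τ := lt_of_le_of_lt (norm_nonneg A) h
  set φ : ℝ → ℝ := fun s => (τ • ContinuousLinearMap.id ℝ E + s • A).det with hφ
  have hcont : Continuous φ := continuous_det.comp (by fun_prop)
  have h0 : 0 < φ 0 := by
    have : φ 0 = τ ^ Module.finrank ℝ E := by
      simp only [hφ, zero_smul, add_zero, ContinuousLinearMap.det]
      have : ((τ • ContinuousLinearMap.id ℝ E : E →L[ℝ] E) : E →ₗ[ℝ] E) = τ • LinearMap.id := by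
        ext; simp
      rw [this, LinearMap.det_smul, LinearMap.det_id, mul_one]
    rw [this]; positivity
  have h1 : φ 1 < 0 := by simpa [hφ] using hlt
  obtain ⟨s, hs, hs0⟩ := intermediate_value_Icc' (zero_le_one' ℝ) hcont.continuousOn
    (show (0 : ℝ) ∈ Icc (φ 1) (φ 0) from ⟨h1.le, h0.le⟩)
  refine det_ne_zero_of_lt (A := s • A) (τ := τ) ?_ hs0
  rw [norm_smul, Real.norm_eq_abs, abs_of_nonneg hs.1]
  exact lt_of_le_of_lt (mul_le_of_le_one_left (norm_nonneg A) hs.2) h

theorem det_poly (A : E →L[ℝ] E) : ∃ p : Polynomial ℝ, p.natDegree ≤ Module.finrank ℝ E ∧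
    ∀ τ : ℝ, p.eval τ = (τ • ContinuousLinearMap.id ℝ E + A).det := by
  refine ⟨(-(A : E →ₗ[ℝ] E)).charpoly, (LinearMap.charpoly_natDegree _).le, fun τ => ?_⟩
  rw [LinearMap.eval_charpoly, ContinuousLinearMap.det]
  congr 1
  ext x
  simp [Algebra.algebraMap_eq_smul_one]

theorem det_add_smulRight (ℓ : E →L[ℝ] ℝ) (v : E) :
    (ContinuousLinearMap.id ℝ E + ℓ.smulRight v).det = 1 + ℓ v := by
  have := LinearMap.transvection.det (f := (ℓ : E →ₗ[ℝ] ℝ)) (v := v)
  rw [ContinuousLinearMap.det]
  have h2 : ((ContinuousLinearMap.id ℝ E + ℓ.smulRight v : E →L[ℝ] E) : E →ₗ[ℝ] E) = LinearMap.transvection (ℓ : E →ₗ[ℝ] ℝ) v := by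
    ext x; simp [LinearMap.transvection]
  rw [h2, this]; rfl

end lin

/-! ## `∫ det Dζ = 0` for `ζ` with compact support -/

section meas

variable {E : Type*} [NormedAddCommGroup E] [NormedSpace ℝ E] [FiniteDimensional ℝ E]
  [MeasurableSpace E] [BorelSpace E] (μ : Measure E) [μ.IsAddHaarMeasure]

omit [MeasurableSpace E] [BorelSpace E] in
theorem bij_of_lip {ζ : E → E} {K : NNReal} (hK : LipschitzWith K ζ) {τ : ℝ} (hτ : (K : ℝ) < τ) :
    Function.Bijective fun x => τ • x + ζ x := by
  have hτ0 : 0 < τ := lt_of_le_of_lt K.2 hτ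
  constructor
  · intro x y hxy
    by_contra hne
    have h1 : τ • (x - y) = -(ζ x - ζ y) := by
      have : τ • x + ζ x = τ • y + ζ y := hxy
      rw [smul_sub, neg_sub, sub_eq_sub_iff_add_eq_add, this, add_comm]
    have h2 : τ * ‖x - y‖ ≤ K * ‖x - y‖ := by
      calc τ * ‖x - y‖ = ‖τ • (x - y)‖ := by rw [norm_smul, Real.norm_eq_abs, abs_of_pos hτ0]
        _ = ‖ζ x - ζ y‖ := by rw [h1, norm_neg]
        _ ≤ _ := by simpa [dist_eq_norm] using hK.dist_le_mul x y
    have h3 : 0 < ‖x - y‖ := norm_pos_iff.2 (sub_ne_zero.2 hne)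
    nlinarith
  · intro y
    set T : E → E := fun x => τ⁻¹ • (y - ζ x) with hT
    have hTl : LipschitzWith (Real.toNNReal (τ⁻¹ * K)) T := by
      refine LipschitzWith.of_dist_le_mul fun a b => ?_
      rw [Real.coe_toNNReal _ (by positivity), dist_eq_norm, hT]
      have : τ⁻¹ • (y - ζ a) - τ⁻¹ • (y - ζ b) = -(τ⁻¹ • (ζ a - ζ b)) := by
        rw [← smul_sub, ← smul_neg]; congr 1; abel
      show ‖τ⁻¹ • (y - ζ a) - τ⁻¹ • (y - ζ b)‖ ≤ _
      rw [this, norm_neg, norm_smul, Real.norm_eq_abs, abs_of_pos (inv_pos.2 hτ0), mul_assoc]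
      exact mul_le_mul_of_nonneg_left (by simpa [dist_eq_norm] using hK.dist_le_mul a b) (inv_pos.2 hτ0).le
    have hc : ContractingWith (Real.toNNReal (τ⁻¹ * K)) T := by
      refine ⟨?_, hTl⟩
      rw [← NNReal.coe_lt_coe, Real.coe_toNNReal _ (by positivity), NNReal.coe_one, inv_mul_lt_iff₀ hτ0, mul_one]
      exact hτ
    have hfix := hc.fixedPoint_isFixedPt
    set x := hc.fixedPoint
    refine ⟨x, ?_⟩
    have h1 : τ⁻¹ • (y - ζ x) = x := hfix
    have h2 : τ • x = y - ζ x := by rw [← h1, smul_smul, mul_inv_cancel₀ hτ0.ne', one_smul, h1]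
    show τ • x + ζ x = y
    rw [h2]; abel

theorem integral_det_closedBall {ζ : E → E} (hζ : ContDiff ℝ ∞ ζ) {K : NNReal} (hK : LipschitzWith K ζ)
    {R : ℝ} (hR : 0 ≤ R) (hsupp : ∀ x, R < ‖x‖ → ζ x = 0) {τ : ℝ} (hτ : (K : ℝ) < τ) :
    ∫ x in closedBall (0 : E) R, (τ • ContinuousLinearMap.id ℝ E + fderiv ℝ ζ x).det ∂μ
      = τ ^ Module.finrank ℝ E * μ.real (closedBall (0 : E) R) := by
  have hτ0 : 0 < τ := lt_of_le_of_lt K.2 hτ
  have hd : ∀ x, HasFDerivAt (fun x => τ • x + ζ x) (τ • ContinuousLinearMap.id ℝ E + fderiv ℝ ζ x) x := fun x =>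
    ((hasFDerivAt_id x).const_smul τ).add (hζ.differentiable (by simp) x).hasFDerivAt
  have hbij := bij_of_lip hK hτ
  have himg : (fun x => τ • x + ζ x) '' closedBall (0 : E) R = closedBall (0 : E) (τ * R) := by
    apply Subset.antisymm
    · rintro _ ⟨x, hx, rfl⟩
      by_contra hn
      set y := τ • x + ζ x with hy
      have hy1 : τ * R < ‖y‖ := by simpa [mem_closedBall, dist_eq_norm] using hn
      have hy2 : R < ‖τ⁻¹ • y‖ := by
        rw [norm_smul, Real.norm_eq_abs, abs_of_pos (inv_pos.2 hτ0), lt_inv_mul_iff₀ hτ0]; exact hy1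
      have hy3 : τ • (τ⁻¹ • y) + ζ (τ⁻¹ • y) = τ • x + ζ x := by
        rw [hsupp _ hy2, smul_smul, mul_inv_cancel₀ hτ0.ne', one_smul, add_zero]
      have := hbij.1 hy3
      rw [this] at hy2
      have hx' : ‖x‖ ≤ R := by simpa [mem_closedBall, dist_eq_norm] using hx
      linarith
    · intro y hy
      obtain ⟨x, hx⟩ := hbij.2 y
      refine ⟨x, ?_, hx⟩
      by_contra hn
      have hx1 : R < ‖x‖ := by simpa [mem_closedBall, dist_eq_norm] using hn
      have hx2 : τ • x = y := by rw [← hx]; simp [hsupp x hx1]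
      have hy' : ‖y‖ ≤ τ * R := by simpa [mem_closedBall, dist_eq_norm] using hy
      rw [← hx2, norm_smul, Real.norm_eq_abs, abs_of_pos hτ0] at hy'
      nlinarith
  have h1 := integral_image_eq_integral_abs_det_fderiv_smul μ (s := closedBall (0 : E) R) measurableSet_closedBall
    (fun x _ => (hd x).hasFDerivWithinAt) (hbij.1.injOn) (fun _ => (1 : ℝ))
  rw [himg] at h1
  have h2 : ∫ x in closedBall (0 : E) R, (τ • ContinuousLinearMap.id ℝ E + fderiv ℝ ζ x).det ∂μ
      = ∫ x in closedBall (0 : E) R, |(τ • ContinuousLinearMap.id ℝ E + fderiv ℝ ζ x).det| • (1 : ℝ) ∂μ := by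
    congr 1
    ext x
    rw [smul_eq_mul, mul_one, abs_of_pos]
    exact det_pos_of_lt (lt_of_le_of_lt (norm_fderiv_le_of_lipschitz ℝ hK) hτ)
  rw [h2, ← h1]
  rw [setIntegral_const, smul_eq_mul, mul_one, Measure.addHaar_real_closedBall' μ _ (by positivity),
    Measure.addHaar_real_closedBall' μ (0 : E) hR, mul_pow, mul_assoc]

theorem integral_det_eq_zero [Nontrivial E] {ζ : E → E} (hζ : ContDiff ℝ ∞ ζ) (hc : HasCompactSupport ζ) :
    ∫ x, (fderiv ℝ ζ x).det ∂μ = 0 := by
  obtain ⟨K, hK⟩ := hζ.lipschitzWith_of_hasCompactSupport hc (by simp)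
  obtain ⟨R, hR0, hR⟩ : ∃ R : ℝ, 0 ≤ R ∧ tsupport ζ ⊆ closedBall 0 R := by
    obtain ⟨R, hR⟩ := hc.isBounded.subset_closedBall (0 : E)
    exact ⟨max R 0, le_max_right _ _, hR.trans (closedBall_subset_closedBall (le_max_left _ _))⟩
  have hsupp : ∀ x, R < ‖x‖ → ζ x = 0 := by
    intro x hx
    by_contra hne
    have := hR (subset_tsupport ζ hne)
    rw [mem_closedBall, dist_zero_right] at this
    linarith
  have hdet0 : ∀ x, x ∉ closedBall (0 : E) R → (fderiv ℝ ζ x).det = 0 := by
    intro x hx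
    have h1 : x ∉ tsupport ζ := fun h => hx (hR h)
    have h2 : fderiv ℝ ζ x = 0 := by
      have := (notMem_tsupport_iff_eventuallyEq.1 h1).fderiv_eq (𝕜 := ℝ)
      rw [this]; simp
    rw [h2, ContinuousLinearMap.det]
    have : ((0 : E →L[ℝ] E) : E →ₗ[ℝ] E) = 0 := rfl
    rw [this, LinearMap.det_zero, zero_pow (Module.finrank_pos).ne']
  rw [← setIntegral_eq_integral_of_forall_compl_eq_zero (s := closedBall (0 : E) R) hdet0]
  obtain ⟨c, v, hv, hp⟩ := exists_weights (Module.finrank ℝ E) K
  have hcd : Continuous (fderiv ℝ ζ) := hζ.continuous_fderiv (by simp)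
  have hpt : ∀ x, (fderiv ℝ ζ x).det = ∑ j ∈ Finset.range (Module.finrank ℝ E + 1), c j * (v j • ContinuousLinearMap.id ℝ E + fderiv ℝ ζ x).det := by
    intro x
    obtain ⟨p, hpd, hpe⟩ := det_poly (fderiv ℝ ζ x)
    have h := hp p hpd
    rw [hpe] at h
    simp only [zero_smul, zero_add] at h
    rw [h]
    exact Finset.sum_congr rfl fun j _ => by rw [hpe]
  simp_rw [hpt]
  rw [integral_finsetSum]
  · simp_rw [integral_const_mul]
    rw [Finset.sum_congr rfl fun j _ => by rw [integral_det_closedBall μ hζ hK hR0 hsupp (hv j)]]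
    have h2 := hp (Polynomial.X ^ Module.finrank ℝ E) (by simp)
    simp only [Polynomial.eval_pow, Polynomial.eval_X] at h2
    rw [zero_pow (Module.finrank_pos).ne'] at h2
    calc ∑ j ∈ Finset.range (Module.finrank ℝ E + 1), c j * (v j ^ Module.finrank ℝ E * μ.real (closedBall (0 : E) R))
        = (∑ j ∈ Finset.range (Module.finrank ℝ E + 1), c j * v j ^ Module.finrank ℝ E) * μ.real (closedBall (0 : E) R) := by
          rw [Finset.sum_mul]; exact Finset.sum_congr rfl fun j _ => by ring
      _ = 0 := by rw [← h2, zero_mul]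
  · intro j _
    refine (Continuous.continuousOn ?_).integrableOn_compact (isCompact_closedBall _ _)
    exact continuous_const.mul (continuous_det.comp (by fun_prop))

end meas

/-! ## invariance -/

section inv

variable {E : Type*} [NormedAddCommGroup E] [NormedSpace ℝ E] [FiniteDimensional ℝ E]
  [MeasurableSpace E] [BorelSpace E] (μ : Measure E) [μ.IsAddHaarMeasure]

omit [FiniteDimensional ℝ E] [MeasurableSpace E] [BorelSpace E] in
theorem fderiv_eq_zero_of_notMem {ζ : E → E} {x : E} (h : x ∉ tsupport ζ) : fderiv ℝ ζ x = 0 := by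
  have := (notMem_tsupport_iff_eventuallyEq.1 h).fderiv_eq (𝕜 := ℝ)
  rw [this]; simp

omit [MeasurableSpace E] [BorelSpace E] in
theorem det_zero' [Nontrivial E] : (0 : E →L[ℝ] E).det = 0 := by
  rw [ContinuousLinearMap.det]
  have : ((0 : E →L[ℝ] E) : E →ₗ[ℝ] E) = 0 := rfl
  rw [this, LinearMap.det_zero, zero_pow (Module.finrank_pos).ne']

theorem integrable_det [Nontrivial E] {ζ : E → E} (hζ : ContDiff ℝ ∞ ζ) (hc : HasCompactSupport ζ) :
    Integrable (fun x => (fderiv ℝ ζ x).det) μ := by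
  refine Continuous.integrable_of_hasCompactSupport (continuous_det.comp (hζ.continuous_fderiv (by simp))) ?_
  refine hc.mono' fun x hx => ?_
  by_contra h
  exact hx (by simp only [fderiv_eq_zero_of_notMem h, det_zero'])

theorem integral_det_sub [Nontrivial E] {H η : E → E} (hH : ContDiff ℝ ∞ H) (hη : ContDiff ℝ ∞ η)
    (hc : HasCompactSupport η) :
    ∫ x, ((fderiv ℝ (fun y => H y + η y) x).det - (fderiv ℝ H x).det) ∂μ = 0 := by
  obtain ⟨R, hR0, hR⟩ : ∃ R : ℝ, 0 < R ∧ tsupport η ⊆ ball 0 R := by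
    obtain ⟨R, hR⟩ := hc.isBounded.subset_ball (0 : E)
    exact ⟨max R 1, lt_of_lt_of_le one_pos (le_max_right _ _), hR.trans (ball_subset_ball (le_max_left _ _))⟩
  let b : ContDiffBump (0 : E) := ⟨R, R + 1, hR0, by linarith⟩
  set ζ : E → E := fun x => b x • H x with hζd
  have hζ : ContDiff ℝ ∞ ζ := b.contDiff.smul hH
  have hζc : HasCompactSupport ζ := b.hasCompactSupport.smul_right
  have heq : ∀ x, (fderiv ℝ (fun y => H y + η y) x).det - (fderiv ℝ H x).det
      = (fderiv ℝ (fun y => ζ y + η y) x).det - (fderiv ℝ ζ x).det := by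
    intro x
    by_cases hx : x ∈ ball (0 : E) R
    · have h1 : ∀ᶠ y in 𝓝 x, ζ y = H y := by
        filter_upwards [isOpen_ball.mem_nhds hx] with y hy
        rw [hζd]
        show b y • H y = H y
        rw [b.one_of_mem_closedBall (ball_subset_closedBall hy), one_smul]
      have h2 : fderiv ℝ ζ x = fderiv ℝ H x := Filter.EventuallyEq.fderiv_eq h1
      have h3 : fderiv ℝ (fun y => ζ y + η y) x = fderiv ℝ (fun y => H y + η y) x := by
        refine Filter.EventuallyEq.fderiv_eq ?_
        filter_upwards [h1] with y hy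
        rw [hy]
      rw [h2, h3]
    · have h0 : fderiv ℝ η x = 0 := fderiv_eq_zero_of_notMem fun h => hx (hR h)
      have hηd : DifferentiableAt ℝ η x := hη.differentiable (by simp) x
      rw [show (fun y => H y + η y) = H + η from rfl, show (fun y => ζ y + η y) = ζ + η from rfl,
        fderiv_add (hH.differentiable (by simp) x) hηd, fderiv_add (hζ.differentiable (by simp) x) hηd, h0]
      simp
  simp_rw [heq]
  have hsum : HasCompactSupport fun y => ζ y + η y := hζc.add hc
  have hsumd : ContDiff ℝ ∞ fun y => ζ y + η y := hζ.add hη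
  rw [integral_sub (integrable_det μ hsumd hsum) (integrable_det μ hζ hζc), integral_det_eq_zero μ hsumd hsum,
    integral_det_eq_zero μ hζ hζc, sub_zero]

variable {H : E → E} (hH : ContDiff ℝ ∞ H) (hp : IsProperMap H)

omit [FiniteDimensional ℝ E] [MeasurableSpace E] [BorelSpace E] [NormedSpace ℝ E] in
include hp in
theorem hcs_comp {F : Type*} [Zero F] {g : E → F} (hg : HasCompactSupport g) : HasCompactSupport fun x => g (H x) := by
  refine HasCompactSupport.of_support_subset_isCompact (hp.isCompact_preimage hg) fun x hx => ?_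
  exact subset_tsupport g hx

include hH hp in
/-- `D(∂_v g) = 0` -/
theorem integral_deriv_eq_zero {g : E → ℝ} (hg : ContDiff ℝ ∞ g) (hgc : HasCompactSupport g) (v : E) :
    ∫ x, fderiv ℝ g (H x) v * (fderiv ℝ H x).det ∂μ = 0 := by
  cases subsingleton_or_nontrivial E
  · have : ∀ x, fderiv ℝ g (H x) v * (fderiv ℝ H x).det = 0 := fun x => by
      rw [Subsingleton.elim v 0, map_zero, zero_mul]
    simp_rw [this]; simp
  · have hη : ContDiff ℝ ∞ fun x => g (H x) • v := (hg.comp hH).smul contDiff_const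
    have hηc : HasCompactSupport fun x => g (H x) • v := (hcs_comp hp hgc).smul_right
    have h := integral_det_sub μ hH hη hηc
    rw [← h]
    congr 1
    ext x
    have hd1 : HasFDerivAt H (fderiv ℝ H x) x := (hH.differentiable (by simp) x).hasFDerivAt
    have hd2 : HasFDerivAt g (fderiv ℝ g (H x)) (H x) := (hg.differentiable (by simp) _).hasFDerivAt
    have hd3 : HasFDerivAt (fun y => H y + g (H y) • v) (fderiv ℝ H x + ((fderiv ℝ g (H x)).comp (fderiv ℝ H x)).smulRight v) x :=
      hd1.add ((hd2.comp x hd1).smul_const v)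
    rw [hd3.fderiv]
    have hfac : fderiv ℝ H x + ((fderiv ℝ g (H x)).comp (fderiv ℝ H x)).smulRight v
        = (ContinuousLinearMap.id ℝ E + (fderiv ℝ g (H x)).smulRight v).comp (fderiv ℝ H x) := by
      ext w; simp
    rw [hfac]
    have hdet : ((ContinuousLinearMap.id ℝ E + (fderiv ℝ g (H x)).smulRight v).comp (fderiv ℝ H x)).det
        = (ContinuousLinearMap.id ℝ E + (fderiv ℝ g (H x)).smulRight v).det * (fderiv ℝ H x).det := by
      simp only [ContinuousLinearMap.det]
      exact LinearMap.det_comp _ _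
    rw [hdet, det_add_smulRight]
    ring

omit [FiniteDimensional ℝ E] [MeasurableSpace E] [BorelSpace E] in
theorem continuous_detH (hH : ContDiff ℝ ∞ H) : Continuous fun x => (fderiv ℝ H x).det :=
  continuous_det.comp (hH.continuous_fderiv (by simp))

include hH hp in
theorem integrable_comp {f : E → ℝ} (hf : Continuous f) (hfc : HasCompactSupport f) :
    Integrable (fun x => f (H x) * (fderiv ℝ H x).det) μ := by
  refine Continuous.integrable_of_hasCompactSupport ((hf.comp hH.continuous).mul (continuous_detH hH)) ?_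
  exact (hcs_comp hp hfc).mul_right

include hH hp in
/-- translation invariance -/
theorem integral_translate {f : E → ℝ} (hf : ContDiff ℝ ∞ f) (hfc : HasCompactSupport f) (v : E) :
    ∫ x, f (H x - v) * (fderiv ℝ H x).det ∂μ = ∫ x, f (H x) * (fderiv ℝ H x).det ∂μ := by
  have hft : ∀ t : ℝ, ContDiff ℝ ∞ fun y => f (y - t • v) := fun t => hf.comp (contDiff_id.sub contDiff_const)
  have hftc : ∀ t : ℝ, HasCompactSupport fun y => f (y - t • v) := fun t =>
    hfc.comp_homeomorph (Homeomorph.subRight (t • v))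
  have hfd : Continuous (fderiv ℝ f) := hf.continuous_fderiv (by simp)
  obtain ⟨C, hC⟩ := (hfc.fderiv ℝ).exists_bound_of_continuous hfd
  obtain ⟨R, hR⟩ := hfc.isBounded.subset_closedBall (0 : E)
  have key : ∀ t₀ : ℝ, HasDerivAt (fun t : ℝ => ∫ x, f (H x - t • v) * (fderiv ℝ H x).det ∂μ) 0 t₀ := by
    intro t₀
    set S : Set E := H ⁻¹' closedBall (0 : E) (R + (|t₀| + 1) * ‖v‖) with hS
    have hScpt : IsCompact S := hp.isCompact_preimage (isCompact_closedBall _ _)
    have hbd : Integrable (S.indicator fun a => C * ‖v‖ * |(fderiv ℝ H a).det|) μ := by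
      rw [integrable_indicator_iff hScpt.measurableSet]
      exact (continuous_const.mul (continuous_detH hH).abs).continuousOn.integrableOn_compact hScpt
    have h := hasDerivAt_integral_of_dominated_loc_of_deriv_le (μ := μ) (𝕜 := ℝ) (x₀ := t₀) (s := ball t₀ 1)
      (F := fun t x => f (H x - t • v) * (fderiv ℝ H x).det)
      (F' := fun t x => fderiv ℝ f (H x - t • v) (-v) * (fderiv ℝ H x).det)
      (bound := S.indicator fun a => C * ‖v‖ * |(fderiv ℝ H a).det|)
      (ball_mem_nhds _ one_pos)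
      (Eventually.of_forall fun t => (integrable_comp μ hH hp (hft t).continuous (hftc t)).aestronglyMeasurable)
      (integrable_comp μ hH hp (hft t₀).continuous (hftc t₀))
      (Continuous.aestronglyMeasurable
        (((hfd.comp (hH.continuous.sub continuous_const)).clm_apply continuous_const).mul (continuous_detH hH)))
      (Eventually.of_forall fun a t ht => ?_) hbd
      (Eventually.of_forall fun a t ht => ?_)
    · have h0 : ∫ x, fderiv ℝ f (H x - t₀ • v) (-v) * (fderiv ℝ H x).det ∂μ = 0 := by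
        have h2 := integral_deriv_eq_zero μ hH hp (hft t₀) (hftc t₀) (-v)
        rw [← h2]
        congr 1
        ext x
        congr 1
        have hd : HasFDerivAt (fun y => f (y - t₀ • v)) (fderiv ℝ f (H x - t₀ • v)) (H x) := by
          have h3 : HasFDerivAt f (fderiv ℝ f (H x - t₀ • v)) (H x - t₀ • v) :=
            (hf.differentiable (by simp) _).hasFDerivAt
          have h5 := h3.comp (H x) ((hasFDerivAt_id (𝕜 := ℝ) (H x)).sub_const (t₀ • v))
          rwa [ContinuousLinearMap.comp_id] at h5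
        rw [hd.fderiv]
      rw [← h0]
      exact h.2
    · show ‖fderiv ℝ f (H a - t • v) (-v) * (fderiv ℝ H a).det‖ ≤ _
      by_cases ha : a ∈ S
      · rw [indicator_of_mem ha, norm_mul, Real.norm_eq_abs (ContinuousLinearMap.det _)]
        refine mul_le_mul_of_nonneg_right ?_ (abs_nonneg _)
        calc ‖fderiv ℝ f (H a - t • v) (-v)‖ ≤ ‖fderiv ℝ f (H a - t • v)‖ * ‖-v‖ := ContinuousLinearMap.le_opNorm _ _
          _ ≤ C * ‖v‖ := by rw [norm_neg]; exact mul_le_mul_of_nonneg_right (hC _) (norm_nonneg v)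
      · rw [indicator_of_notMem ha]
        have h1 : H a - t • v ∉ tsupport f := by
          intro hmem
          apply ha
          have h2 := hR hmem
          rw [mem_closedBall, dist_zero_right] at h2
          rw [hS, mem_preimage, mem_closedBall, dist_zero_right]
          have h3 : |t| ≤ |t₀| + 1 := by
            have h4 : |t - t₀| < 1 := by simpa [Real.dist_eq] using ht
            have h5 := abs_sub_abs_le_abs_sub t t₀
            linarith
          calc ‖H a‖ = ‖(H a - t • v) + t • v‖ := by rw [sub_add_cancel]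
            _ ≤ ‖H a - t • v‖ + ‖t • v‖ := norm_add_le _ _
            _ ≤ R + (|t₀| + 1) * ‖v‖ := by
              rw [norm_smul, Real.norm_eq_abs]
              exact add_le_add h2 (mul_le_mul_of_nonneg_right h3 (norm_nonneg v))
        have h2 : fderiv ℝ f (H a - t • v) = 0 := by
          have := (notMem_tsupport_iff_eventuallyEq.1 h1).fderiv_eq (𝕜 := ℝ)
          rw [this]; simp
        rw [h2]; simp
    · have h3 : HasFDerivAt f (fderiv ℝ f (H a - t • v)) (H a - t • v) :=
        (hf.differentiable (by simp) _).hasFDerivAt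
      have h4 : HasDerivAt (fun t : ℝ => H a - t • v) (-v) t := by
        have := ((hasDerivAt_id t).smul_const v).const_sub (H a)
        simpa using this
      exact (h3.comp_hasDerivAt t h4).mul_const _
  have hconst := is_const_of_deriv_eq_zero (f := fun t : ℝ => ∫ x, f (H x - t • v) * (fderiv ℝ H x).det ∂μ)
    (fun t => (key t).differentiableAt) (fun t => (key t).deriv) 1 0
  simpa using hconst

include hH hp in
theorem integral_mul_comm {f g : E → ℝ} (hf : ContDiff ℝ ∞ f) (hfc : HasCompactSupport f)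
    (hg : ContDiff ℝ ∞ g) (hgc : HasCompactSupport g) :
    (∫ x, f (H x) * (fderiv ℝ H x).det ∂μ) * ∫ y, g y ∂μ = (∫ x, g (H x) * (fderiv ℝ H x).det ∂μ) * ∫ y, f y ∂μ := by
  have aux : ∀ f g : E → ℝ, ContDiff ℝ ∞ f → HasCompactSupport f → ContDiff ℝ ∞ g → HasCompactSupport g →
      (∫ x, f (H x) * (fderiv ℝ H x).det ∂μ) * ∫ y, g y ∂μ
        = ∫ x, (∫ y, g y * f (H x - y) ∂μ) * (fderiv ℝ H x).det ∂μ := by
    intro f g hf hfc hg hgc
    have hint : Integrable (Function.uncurry fun (y : E) (x : E) => g y * (f (H x - y) * (fderiv ℝ H x).det)) (μ.prod μ) := by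
      refine Continuous.integrable_of_hasCompactSupport ?_ ?_
      · refine (hg.continuous.comp continuous_fst).mul ((hf.continuous.comp ?_).mul ((continuous_detH hH).comp continuous_snd))
        exact (hH.continuous.comp continuous_snd).sub continuous_fst
      · have hcp : IsCompact ((tsupport g) ×ˢ (H ⁻¹' ((fun p : E × E => p.1 + p.2) '' ((tsupport f) ×ˢ (tsupport g))))) :=
          hgc.prod (hp.isCompact_preimage ((hfc.prod hgc).image continuous_add))
        refine HasCompactSupport.of_support_subset_isCompact hcp ?_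
        rintro ⟨y, x⟩ hxy
        simp only [Function.mem_support, Function.uncurry_apply_pair] at hxy
        have h1 : y ∈ tsupport g := subset_tsupport g fun h => hxy (by rw [h, zero_mul])
        have h2 : H x - y ∈ tsupport f := subset_tsupport f fun h => hxy (by rw [h, zero_mul, mul_zero])
        exact ⟨h1, (H x - y, y), ⟨h2, h1⟩, by simp⟩
    calc (∫ x, f (H x) * (fderiv ℝ H x).det ∂μ) * ∫ y, g y ∂μ
        = ∫ y, g y * ∫ x, f (H x - y) * (fderiv ℝ H x).det ∂μ ∂μ := by
          rw [mul_comm, ← integral_mul_const]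
          congr 1
          ext y
          rw [integral_translate μ hH hp hf hfc y]
      _ = ∫ y, ∫ x, g y * (f (H x - y) * (fderiv ℝ H x).det) ∂μ ∂μ := by
          congr 1; ext y; rw [integral_const_mul]
      _ = ∫ x, ∫ y, g y * (f (H x - y) * (fderiv ℝ H x).det) ∂μ ∂μ := integral_integral_swap hint
      _ = _ := by
          congr 1
          ext x
          rw [← integral_mul_const]
          congr 1
          ext y
          ring
  rw [aux f g hf hfc hg hgc, aux g f hg hgc hf hfc]
  congr 1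
  ext x
  congr 1
  rw [← integral_sub_left_eq_self _ μ (H x)]
  congr 1
  ext y
  rw [sub_sub_cancel, mul_comm]

include hH hp in
/-- a map which is not onto has degree zero -/
theorem integral_eq_zero_of_not_surj {y₀ : E} (hy₀ : y₀ ∉ range H) {g : E → ℝ} (hg : ContDiff ℝ ∞ g)
    (hgc : HasCompactSupport g) : ∫ x, g (H x) * (fderiv ℝ H x).det ∂μ = 0 := by
  have hcl : IsClosed (range H) := hp.isClosedMap.isClosed_range
  obtain ⟨f, hfs, hfc, hf, hf01, hf1⟩ := exists_contDiff_tsupport_subset (n := ⊤) (hcl.isOpen_compl.mem_nhds hy₀)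
  have hpos : 0 < ∫ y, f y ∂μ := by
    have h0 : 0 ≤ f := fun y => (hf01 (mem_range_self y)).1
    rw [integral_pos_iff_support_of_nonneg h0 (hf.continuous.integrable_of_hasCompactSupport hfc)]
    exact (hf.continuous.isOpen_support).measure_pos μ ⟨y₀, by simp [hf1]⟩
  have h := integral_mul_comm μ hH hp hg hgc hf hfc
  have h2 : ∀ x, f (H x) = 0 := by
    intro x
    by_contra hne
    exact hfs (subset_tsupport f hne) (mem_range_self x)
  simp_rw [h2] at h
  simp only [zero_mul, integral_zero] at h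
  exact (mul_eq_zero.1 h).resolve_right hpos.ne'

include hH hp in
/-- **the degree is an integer** -/
theorem deg_int_proper : ∃ k : ℤ, ∀ g : E → ℝ, ContDiff ℝ ∞ g → HasCompactSupport g →
    ∫ x, g (H x) * (fderiv ℝ H x).det ∂μ = k * ∫ y, g y ∂μ := by
  classical
  -- a regular value
  obtain ⟨y₀, hy₀⟩ : ∃ y₀ : E, ∀ x, H x = y₀ → (fderiv ℝ H x).det ≠ 0 := by
    by_contra hcon
    push Not at hcon
    have h0 : μ (H '' {x | (fderiv ℝ H x).det = 0}) = 0 :=
      addHaar_image_eq_zero_of_det_fderivWithin_eq_zero μ (f' := fderiv ℝ H)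
        (fun x _ => (hH.differentiable (by simp) x).hasFDerivAt.hasFDerivWithinAt) (fun x hx => hx)
    have h1 : H '' {x | (fderiv ℝ H x).det = 0} = univ := by
      refine eq_univ_of_forall fun y => ?_
      obtain ⟨x, hx, hx0⟩ := hcon y
      exact ⟨x, hx0, hx⟩
    rw [h1] at h0
    exact (isOpen_univ.measure_pos μ univ_nonempty).ne' h0
  have hPc : IsCompact (H ⁻¹' {y₀}) := hp.isCompact_preimage isCompact_singleton
  have hdc : Continuous fun x => (fderiv ℝ H x).det := continuous_detH hH
  -- local inverse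
  have hloc : ∀ x, (fderiv ℝ H x).det ≠ 0 → (∀ U ∈ 𝓝 x, H '' U ∈ 𝓝 (H x)) ∧
      ∃ U : Set E, IsOpen U ∧ x ∈ U ∧ InjOn H U ∧ ∀ y ∈ U, 0 < (fderiv ℝ H y).det * (fderiv ℝ H x).det := by
    intro x hx
    set A : E ≃L[ℝ] E := (fderiv ℝ H x).toContinuousLinearEquivOfDetNeZero hx with hA
    have hAe : (A : E →L[ℝ] E) = fderiv ℝ H x := by ext v; rfl
    have hs : HasStrictFDerivAt H (A : E →L[ℝ] E) x := by
      rw [hAe]
      exact (hH.contDiffAt).hasStrictFDerivAt (by simp)
    refine ⟨fun U hU => ?_, ?_⟩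
    · have h := hs.map_nhds_eq_of_equiv
      rw [← h]
      exact image_mem_map hU
    · let e := hs.toOpenPartialHomeomorph H
      refine ⟨e.source ∩ {y | 0 < (fderiv ℝ H y).det * (fderiv ℝ H x).det}, ?_, ⟨?_, ?_⟩, ?_, fun y hy => hy.2⟩
      · exact e.open_source.inter (isOpen_lt continuous_const (hdc.mul continuous_const))
      · exact hs.mem_toOpenPartialHomeomorph_source
      · exact mul_self_pos.2 hx
      · intro a ha b hb hab
        exact e.injOn ha.1 hb.1 hab
  have hreg : ∀ x ∈ H ⁻¹' {y₀}, (fderiv ℝ H x).det ≠ 0 := fun x hx => hy₀ x hx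
  choose! U hUo hUm hUi hUs using fun x hx => (hloc x (hreg x hx)).2
  -- finiteness
  have hfin : (H ⁻¹' {y₀}).Finite := by
    obtain ⟨t, htP, htc⟩ := hPc.elim_nhds_subcover U (fun x hx => (hUo x hx).mem_nhds (hUm x hx))
    refine (t.finite_toSet).subset fun z hz => ?_
    obtain ⟨x, hxt, hzx⟩ := mem_iUnion₂.1 (htc hz)
    have hxP := htP x hxt
    have : z = x := hUi x hxP hzx (hUm x hxP) ((show H z = y₀ from hz).trans (show H x = y₀ from hxP).symm)
    rw [this]; exact hxt
  obtain ⟨V, hV, hVd⟩ := hfin.t2_separation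
  set P : Finset E := hfin.toFinset with hP
  have hPm : ∀ x, x ∈ P ↔ H x = y₀ := fun x => by rw [hP, Set.Finite.mem_toFinset]; rfl
  set W : E → Set E := fun x => U x ∩ V x with hW
  have hWo : ∀ x ∈ P, IsOpen (W x) := fun x hx => (hUo x ((hPm x).1 hx)).inter (hV x).2
  have hWm : ∀ x ∈ P, x ∈ W x := fun x hx => ⟨hUm x ((hPm x).1 hx), (hV x).1⟩
  have hWi : ∀ x ∈ P, InjOn H (W x) := fun x hx => (hUi x ((hPm x).1 hx)).mono inter_subset_left
  have hWd : (P : Set E).PairwiseDisjoint W := by
    intro a ha b hb hab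
    have := hVd (show a ∈ H ⁻¹' {y₀} from (hPm a).1 ha) (show b ∈ H ⁻¹' {y₀} from (hPm b).1 hb) hab
    exact this.mono inter_subset_right inter_subset_right
  have hWU : IsOpen (⋃ x ∈ P, W x) := isOpen_biUnion hWo
  -- the good neighbourhood
  have hN1 : (H '' (⋃ x ∈ P, W x)ᶜ)ᶜ ∈ 𝓝 y₀ := by
    refine (hp.isClosedMap _ hWU.isClosed_compl).isOpen_compl.mem_nhds ?_
    rintro ⟨x, hx, hxy⟩
    exact hx (mem_iUnion₂.2 ⟨x, (hPm x).2 hxy, hWm x ((hPm x).2 hxy)⟩)
  have hN2 : (⋂ x ∈ P, H '' W x) ∈ 𝓝 y₀ := by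
    rw [Filter.biInter_finset_mem]
    intro x hx
    have h := (hloc x (hreg x ((hPm x).1 hx))).1 (W x) ((hWo x hx).mem_nhds (hWm x hx))
    rwa [(hPm x).1 hx] at h
  obtain ⟨f, hfs, hfc, hf, hf01, hf1⟩ := exists_contDiff_tsupport_subset (n := ⊤) (Filter.inter_mem hN1 hN2)
  have hpos : 0 < ∫ y, f y ∂μ := by
    have h0 : 0 ≤ f := fun y => (hf01 (mem_range_self y)).1
    rw [integral_pos_iff_support_of_nonneg h0 (hf.continuous.integrable_of_hasCompactSupport hfc)]
    exact (hf.continuous.isOpen_support).measure_pos μ ⟨y₀, by simp [hf1]⟩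
  -- the value on `f`
  have hint := integrable_comp μ hH hp hf.continuous hfc
  have hval : ∫ x, f (H x) * (fderiv ℝ H x).det ∂μ
      = ∑ x ∈ P, ∫ z in W x, f (H z) * (fderiv ℝ H z).det ∂μ := by
    rw [← integral_biUnion_finset P (fun x hx => (hWo x hx).measurableSet) hWd (fun x _ => hint.integrableOn),
      setIntegral_eq_integral_of_forall_compl_eq_zero]
    intro x hx
    have : f (H x) = 0 := by
      by_contra hne
      exact (hfs (subset_tsupport f hne)).1 ⟨x, hx, rfl⟩
    rw [this, zero_mul]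
  have hpiece : ∀ x ∈ P, ∫ z in W x, f (H z) * (fderiv ℝ H z).det ∂μ
      = (if 0 < (fderiv ℝ H x).det then (1 : ℤ) else -1 : ℤ) * ∫ y, f y ∂μ := by
    intro x hx
    have h1 := integral_image_eq_integral_abs_det_fderiv_smul μ (f' := fderiv ℝ H) (hWo x hx).measurableSet
      (fun z _ => (hH.differentiable (by simp) z).hasFDerivAt.hasFDerivWithinAt) (hWi x hx) f
    have h2 : ∫ y in H '' W x, f y ∂μ = ∫ y, f y ∂μ := by
      refine setIntegral_eq_integral_of_forall_compl_eq_zero fun y hy => ?_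
      by_contra hne
      exact hy (mem_iInter₂.1 (hfs (subset_tsupport f hne)).2 x hx)
    rw [← h2, h1, ← integral_const_mul]
    refine setIntegral_congr_fun (hWo x hx).measurableSet fun z hz => ?_
    have hs := hUs x ((hPm x).1 hx) z hz.1
    simp only [smul_eq_mul]
    split_ifs with hpos'
    · have : 0 < (fderiv ℝ H z).det := by
        by_contra hn
        nlinarith [not_lt.1 hn]
      rw [abs_of_pos this]; push_cast; ring
    · have hx0 := hreg x ((hPm x).1 hx)
      have hx1 : (fderiv ℝ H x).det < 0 := lt_of_le_of_ne (not_lt.1 hpos') hx0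
      have : (fderiv ℝ H z).det < 0 := by
        by_contra hn
        nlinarith [not_lt.1 hn]
      rw [abs_of_neg this]; push_cast; ring
  rw [Finset.sum_congr rfl hpiece, ← Finset.sum_mul] at hval
  refine ⟨∑ x ∈ P, (if 0 < (fderiv ℝ H x).det then (1 : ℤ) else -1 : ℤ), fun g hg hgc => ?_⟩
  have h := integral_mul_comm μ hH hp hg hgc hf hfc
  rw [hval] at h
  push_cast at h ⊢
  refine mul_right_cancel₀ hpos.ne' ?_
  rw [h]; ring

end inv

/-- **the degree of a proper smooth map is an integer** -/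
theorem deg_int {n : ℕ} (H : EuclideanSpace ℝ (Fin n) → EuclideanSpace ℝ (Fin n)) (hH : ContDiff ℝ ∞ H)
    (hp : Tendsto H (cocompact _) (cocompact _)) :
    ∃ k : ℤ, ∀ f : EuclideanSpace ℝ (Fin n) → ℝ, ContDiff ℝ ∞ f → HasCompactSupport f →
      ∫ x, f (H x) * (fderiv ℝ H x).det = k * ∫ y, f y :=
  deg_int_proper volume hH (isProperMap_iff_tendsto_cocompact.2 ⟨hH.continuous, hp⟩)

/-- **the degree of a proper smooth map is an integer** -/
theorem deg_int' {n : ℕ} (H : (Fin n → ℝ) → (Fin n → ℝ)) (hH : ContDiff ℝ ∞ H)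
    (hp : Tendsto H (cocompact _) (cocompact _)) :
    ∃ k : ℤ, ∀ f : (Fin n → ℝ) → ℝ, ContDiff ℝ ∞ f → HasCompactSupport f →
      ∫ x, f (H x) * (fderiv ℝ H x).det = k * ∫ y, f y :=
  deg_int_proper volume hH (isProperMap_iff_tendsto_cocompact.2 ⟨hH.continuous, hp⟩)

end Pool.Agent.Lib.MP_ccbbf6_gt.L4.DEG
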