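import Pool.Agent.Lib.MP_ccbbf6_gt.L4.FRt

/-!
# Level 4, block EUL, E4: the top power of the standard connection form (algebra)
-/

set_option autoImplicit false
set_option maxSynthPendingDepth 3

open Set Filter Topology MeasureTheory
open scoped TensorProduct ContDiff

noncomputable section

namespace Pool.Agent.Lib.MP_ccbbf6_gt.L4.FR

/-! ### powers of sums of commuting elements with square zero -/

section alg

variable {R : Type*} [Ring R]

lemma add_pow_sq_zero {a T : R} (hc : Commute a T) (ha : a * a = 0) (k : ℕ) :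
    (a + T) ^ (k + 1) = T ^ (k + 1) + (k + 1) • (a * T ^ k) := by
  induction k with
  | zero => simp [add_comm]
  | succ k ih =>
    rw [pow_succ, ih]
    have h1 : a * T ^ k * a = 0 := by
      rw [mul_assoc, ← (hc.pow_right k).eq, ← mul_assoc, ha, zero_mul]
    have h2 : T ^ (k + 1) * a = a * T ^ (k + 1) := ((hc.pow_right (k + 1)).eq).symm
    have h3 : a * T ^ k * T = a * T ^ (k + 1) := by rw [mul_assoc, ← pow_succ]
    calc (T ^ (k + 1) + (k + 1) • (a * T ^ k)) * (a + T)
        = T ^ (k + 1) * a + T ^ (k + 1) * T + ((k + 1) • (a * T ^ k * a) + (k + 1) • (a * T ^ k * T)) := by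
          rw [add_mul, mul_add, mul_add, smul_mul_assoc, smul_mul_assoc]
      _ = T ^ (k + 1 + 1) + (k + 1 + 1) • (a * T ^ (k + 1)) := by
          rw [h1, h2, h3, ← pow_succ, smul_zero, zero_add]
          rw [add_smul (k + 1) 1, one_smul]
          abel

lemma list_sum_pow : ∀ (l : List R), l.Pairwise Commute → (∀ a ∈ l, a * a = 0) →
    l.sum ^ l.length = l.length.factorial • l.prod ∧ l.sum ^ (l.length + 1) = 0
  | [], _, _ => by simp
  | a :: l, hp, hs => by
    obtain ⟨h1, h2⟩ := list_sum_pow l (List.pairwise_cons.1 hp).2 fun b hb => hs b (List.mem_cons_of_mem _ hb)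
    have hc : Commute a l.sum := by
      refine Commute.list_sum_right _ _ fun b hb => (List.pairwise_cons.1 hp).1 b hb
    have ha := hs a List.mem_cons_self
    rw [List.sum_cons, List.length_cons, add_pow_sq_zero hc ha, add_pow_sq_zero hc ha, List.prod_cons,
      Nat.factorial_succ]
    constructor
    · rw [h2, h1, zero_add, mul_smul_comm, smul_smul]
    · rw [pow_succ _ (l.length + 1), h2, zero_mul, mul_zero, smul_zero, add_zero]

end alg

variable {k m : ℕ}

/-- a product of two covectors is central -/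
lemma ιι_comm (v w : V k) (a : Ex k) : (ExteriorAlgebra.ι ℝ v * ExteriorAlgebra.ι ℝ w) * a =
    a * (ExteriorAlgebra.ι ℝ v * ExteriorAlgebra.ι ℝ w) := by
  rw [mul_assoc, ι_swap w a, ← mul_assoc, ι_swap v (ivo k a), ivo_ivo, mul_assoc]

lemma ιι_sq (v w : V k) : (ExteriorAlgebra.ι ℝ v * ExteriorAlgebra.ι ℝ w) *
    (ExteriorAlgebra.ι ℝ v * ExteriorAlgebra.ι ℝ w) = 0 := by
  rw [← mul_assoc, ιι_comm v w, ← mul_assoc (ExteriorAlgebra.ι ℝ v), ExteriorAlgebra.ι_sq_zero, zero_mul, zero_mul]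

/-- the index of the `b`-th real coordinate of the `j`-th complex coordinate -/
def ix (j : Fin m) (b : Fin 2) : Fin (m * 2) := finProdFinEquiv (j, b)

lemma ix_val (j : Fin m) (b : Fin 2) : (ix j b : ℕ) = b + 2 * j := rfl

/-- the standard symplectic form -/
def W (m : ℕ) : Ex (m * 2) := ∑ j : Fin m, ee (ix j 0) * ee (ix j 1)

/-- the covector `ι_x W` -/
def Jc (x : V (m * 2)) : V (m * 2) := fun i =>
  if (finProdFinEquiv.symm i).2 = 0 then - x (ix (finProdFinEquiv.symm i).1 1) else x (ix (finProdFinEquiv.symm i).1 0)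

lemma Jc_zero (x : V (m * 2)) (j : Fin m) : Jc x (ix j 0) = - x (ix j 1) := by
  simp [Jc, ix]

lemma Jc_one (x : V (m * 2)) (j : Fin m) : Jc x (ix j 1) = x (ix j 0) := by
  simp [Jc, ix]

lemma sum_ix {A : Type*} [AddCommMonoid A] (f : Fin (m * 2) → A) : ∑ i, f i = ∑ j : Fin m, (f (ix j 0) + f (ix j 1)) := by
  rw [← finProdFinEquiv.sum_comp, Fintype.sum_prod_type]
  exact Finset.sum_congr rfl fun j _ => by rw [Fin.sum_univ_two]; rfl

lemma topE_W : topE (m * 2) (W m ^ m) = m.factorial := by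
  have h1 : W m = (List.ofFn fun j : Fin m => ee (ix j 0) * ee (ix j 1)).sum := by
    rw [List.sum_ofFn]; rfl
  have h2 := (list_sum_pow (List.ofFn fun j : Fin m => ee (ix j 0) * ee (ix j 1)) ?_ ?_).1
  · rw [List.length_ofFn, ← h1] at h2
    rw [h2, map_nsmul]
    have h3 : (List.ofFn fun j : Fin m => ee (ix j 0) * ee (ix j 1)).prod = (List.ofFn fun i : Fin (m * 2) => ee i).prod := by
      rw [List.ofFn_mul, List.prod_flatten, List.map_ofFn]
      congr 1
      congr 1
      funext j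
      simp only [Function.comp_apply, List.ofFn_succ, List.ofFn_zero, List.prod_cons, List.prod_nil, mul_one]
      congr 2
      · apply Fin.ext; simp [ix_val, mul_comm]
      · apply Fin.ext; simp [ix_val, mul_comm, add_comm]
    have h4 : (List.ofFn fun i : Fin (m * 2) => ee i).prod = ExteriorAlgebra.ιMulti ℝ (m * 2) fun i => (Pi.single i 1 : V (m * 2)) := by
      rw [ExteriorAlgebra.ιMulti_apply]; rfl
    rw [h3, h4, topE_ιMulti]
    have h5 : Matrix.of (fun i => (Pi.single i 1 : V (m * 2))) = (1 : Matrix (Fin (m * 2)) (Fin (m * 2)) ℝ) := by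
      ext i j
      rw [Matrix.of_apply, Matrix.one_apply, Pi.single_apply]
      simp [eq_comm]
    rw [h5, Matrix.det_one]
    simp
  · rw [List.pairwise_ofFn]
    intro i j _
    exact ιι_comm _ _ _
  · intro a ha
    obtain ⟨j, rfl⟩ := List.mem_ofFn.1 ha |> fun h => h
    exact ιι_sq _ _

/-- the Euler covector pairing -/
def pr2 (x : V k) : V k →ₗ[ℝ] ℝ where
  toFun v := ∑ i, x i * v i
  map_add' v w := by simp only [Pi.add_apply, mul_add, Finset.sum_add_distrib]
  map_smul' r v := by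
    simp only [Pi.smul_apply, smul_eq_mul, RingHom.id_apply, Finset.mul_sum]
    exact Finset.sum_congr rfl fun i _ => by ring

lemma pr2_single (x : V k) (i : Fin k) : pr2 x (Pi.single i 1) = x i := by
  change ∑ j, x j * (Pi.single i (1 : ℝ) : V k) j = x i
  rw [Finset.sum_eq_single i]
  · simp
  · intro b _ hb; rw [Pi.single_eq_of_ne hb, mul_zero]
  · intro h; exact absurd (Finset.mem_univ i) h

lemma ctr_W (x : V (m * 2)) : ctr (pr2 x) (W m) = ExteriorAlgebra.ι ℝ (Jc x) := by
  rw [W, map_sum, ι_eq, sum_ix]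
  refine Finset.sum_congr rfl fun j _ => ?_
  rw [ee, ee, ctr_ι_mul, pr2_single]
  have h := ctr_ι_mul (pr2 x) (Pi.single (ix j 1) 1 : V (m * 2)) 1
  rw [mul_one, ctr_one, mul_zero, sub_zero, pr2_single] at h
  rw [h, Jc_zero, Jc_one, mul_smul_comm, mul_one]
  simp only [neg_smul]
  abel

lemma W_comm (a : Ex (m * 2)) : Commute (W m) a := by
  rw [W]
  exact Commute.sum_left _ _ _ fun j _ => ιι_comm _ _ _

lemma ivo_W : ivo (m * 2) (W m) = W m := by
  rw [W, map_sum]
  refine Finset.sum_congr rfl fun j _ => ?_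
  rw [map_mul, ee, ee, ivo_ι, ivo_ι, neg_mul_neg]

lemma ctr_W_pow (x : V (m * 2)) (k : ℕ) :
    ctr (pr2 x) (W m ^ (k + 1)) = (k + 1) • (ExteriorAlgebra.ι ℝ (Jc x) * W m ^ k) := by
  induction k with
  | zero => simp [ctr_W]
  | succ k ih =>
    rw [pow_succ', ctr_mul, ih, ctr_W, ivo_W, mul_smul_comm, ← mul_assoc, (W_comm _).eq, mul_assoc, ← pow_succ',
      add_smul (k + 1) 1, one_smul, add_comm]

/-- **top coefficient of the standard curvature** -/
lemma topE_std (x : V (m * 2)) (hm : 0 < m) (α β : ℝ) :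
    topE (m * 2) ((α • (ExteriorAlgebra.ι ℝ x * ExteriorAlgebra.ι ℝ (Jc x)) + β • W m) ^ m)
      = m.factorial * (β ^ (m - 1) * (β + α * ∑ i, x i * x i)) := by
  obtain ⟨k, rfl⟩ : ∃ k, m = k + 1 := ⟨m - 1, by omega⟩
  have hc : Commute (α • (ExteriorAlgebra.ι ℝ x * ExteriorAlgebra.ι ℝ (Jc x))) (β • W (k + 1)) :=
    ((W_comm _).symm.smul_right β).smul_left α
  have hs : (α • (ExteriorAlgebra.ι ℝ x * ExteriorAlgebra.ι ℝ (Jc x))) * (α • (ExteriorAlgebra.ι ℝ x * ExteriorAlgebra.ι ℝ (Jc x))) = 0 := by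
    rw [smul_mul_smul_comm, ιι_sq, smul_zero]
  rw [add_pow_sq_zero hc hs, smul_pow, smul_pow, map_add, map_smul, topE_W, smul_mul_smul_comm, map_nsmul, map_smul]
  have h1 := topE_ι_mul (pr2 x) x (W (k + 1) ^ (k + 1))
  rw [topE_W, ctr_W_pow, mul_smul_comm, map_nsmul, ← mul_assoc] at h1
  have h2 : pr2 x x = ∑ i, x i * x i := rfl
  rw [h2] at h1
  simp only [smul_eq_mul, nsmul_eq_mul, Nat.add_sub_cancel] at h1 ⊢
  linear_combination (-(α * β ^ k)) * h1

end Pool.Agent.Lib.MP_ccbbf6_gt.L4.FR
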