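import Pool.Agent.Lib.MP_ccbbf6_gt.L4.EB
import Pool.Agent.Lib.MP_ccbbf6_gt.L4.Eq4a

/-!
# Level 4, block EUL, E4: the standard value
-/

set_option autoImplicit false
set_option maxSynthPendingDepth 3

open Set Filter Topology MeasureTheory Metric
open scoped TensorProduct ContDiff

noncomputable section

namespace Pool.Agent.Lib.MP_ccbbf6_gt.L4.EUL

open FR

variable {k m : ℕ}

/-- index of the real part of the `j`-th coordinate -/
abbrev i0 (j : Fin m) : Fin (m * 2) := finProdFinEquiv (j, 0)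

/-- index of the imaginary part of the `j`-th coordinate -/
abbrev i1 (j : Fin m) : Fin (m * 2) := finProdFinEquiv (j, 1)

lemma norm_toLp_sq (x : V k) : ‖(WithLp.toLp 2 x : EuclideanSpace ℝ (Fin k))‖ ^ 2 = sqn x := by
  rw [EuclideanSpace.norm_sq_eq]
  exact Finset.sum_congr rfl fun i _ => by rw [Real.norm_eq_abs, sq_abs]

/-- polar coordinates for radial functions -/
lemma integral_sqn (hm : 0 < m) (F : ℝ → ℝ) : ∫ x : V (m * 2), F (sqn x) =
    (2 * m) * (Real.pi ^ m / m.factorial) * ∫ r in Ioi (0 : ℝ), r ^ (2 * m - 1) * F (r ^ 2) := by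
  have : Nonempty (Fin (m * 2)) := ⟨⟨0, by omega⟩⟩
  have : Nontrivial (EuclideanSpace ℝ (Fin (m * 2))) := by
    apply Module.nontrivial_of_finrank_pos (R := ℝ)
    rw [finrank_euclideanSpace_fin]; omega
  have h1 := (PiLp.volume_preserving_toLp (Fin (m * 2))).integral_comp (MeasurableEquiv.toLp 2 _).measurableEmbedding
    (fun y : EuclideanSpace ℝ (Fin (m * 2)) => F (‖y‖ ^ 2))
  simp only [norm_toLp_sq] at h1
  rw [h1, integral_fun_norm_addHaar (volume : Measure (EuclideanSpace ℝ (Fin (m * 2)))) (fun r => F (r ^ 2)),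
    finrank_euclideanSpace_fin, measureReal_def,
    InnerProductSpace.volume_ball_of_dim_even (k := m) (by rw [finrank_euclideanSpace_fin, mul_comm])]
  simp only [ENNReal.ofReal_one, one_pow, one_mul]
  rw [ENNReal.toReal_ofReal (by positivity), nsmul_eq_mul, smul_eq_mul, mul_comm m 2]
  simp only [smul_eq_mul]
  push_cast
  ring

section std

variable {c : ℝ → ℝ} (hc : ContDiff ℝ ∞ c)

include hc in
lemma contDiff_c : ContDiff ℝ ∞ fun x : V k => c (sqn x) := hc.comp contDiff_sqn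

include hc in
lemma pd_c (i : Fin k) (x : V k) :
    (pd i (mkC (fun x => c (sqn x)) (contDiff_c hc)) : V k → ℝ) x = 2 * deriv c (sqn x) * x i := by
  rw [pd_apply]
  have h1 : HasFDerivAt (sqn : V k → ℝ) (∑ j, (2 * x j) • ContinuousLinearMap.proj (R := ℝ) (φ := fun _ : Fin k => ℝ) j) x := by
    refine HasFDerivAt.fun_sum fun j _ => ?_
    have h2 : HasFDerivAt (fun y : V k => y j) (ContinuousLinearMap.proj (R := ℝ) (φ := fun _ : Fin k => ℝ) j) x := (ContinuousLinearMap.proj (R := ℝ) (φ := fun _ : Fin k => ℝ) j).hasFDerivAt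
    have h3 := h2.pow 2
    simpa using h3
  have h2 : HasDerivAt c (deriv c (sqn x)) (sqn x) := (hc.differentiable (by simp) _).hasDerivAt
  have h3 := h2.comp_hasFDerivAt x h1
  change fderiv ℝ (fun x => c (sqn x)) x (Pi.single i 1) = _
  have h4 : fderiv ℝ (fun x : V k => c (sqn x)) x = deriv c (sqn x) • ∑ j, (2 * x j) • ContinuousLinearMap.proj (R := ℝ) (φ := fun _ : Fin k => ℝ) j := h3.fderiv
  rw [h4]
  simp only [_root_.smul_apply, _root_.sum_apply, ContinuousLinearMap.proj_apply, smul_eq_mul]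
  rw [Finset.sum_eq_single i]
  · rw [Pi.single_eq_same]; ring
  · intro b _ hb; rw [Pi.single_eq_of_ne hb, mul_zero]
  · intro h; exact absurd (Finset.mem_univ i) h

/-- the form `∑ x dy - y dx` -/
def lam (m : ℕ) : Fm (m * 2) := ∑ j : Fin m, (fc _ (co (i0 j)) * dx (i1 j) - fc _ (co (i1 j)) * dx (i0 j))

lemma ev_lam (x : V (m * 2)) : ev x (lam m) = ExteriorAlgebra.ι ℝ (Jc x) := by
  rw [lam, map_sum, ι_eq, sum_ix]
  refine Finset.sum_congr rfl fun j _ => ?_
  rw [map_sub, map_mul, map_mul, ev_fc, ev_fc, dx, dx, ev_cf, ev_cf, Jc_zero, Jc_one, ← Algebra.smul_def,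
    ← Algebra.smul_def]
  change x (ix j 0) • ee (ix j 1) - x (ix j 1) • ee (ix j 0) = _
  simp only [neg_smul]
  abel

lemma ev_dd_lam (x : V (m * 2)) : ev x (dd _ (lam m)) = (2 : ℝ) • W m := by
  rw [lam, map_sum, map_sum, W, Finset.smul_sum]
  refine Finset.sum_congr rfl fun j _ => ?_
  rw [map_sub, dd_mul, dd_mul, dd_dx, dd_dx, mul_zero, mul_zero, add_zero, add_zero, fc_pd_co, fc_pd_co,
    dx_swap (i1 j) (i0 j), sub_neg_eq_add, map_add, map_mul, dx, dx, ev_cf, ev_cf, two_smul]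
  rfl

include hc in
lemma ev_dd_std (x : V (m * 2)) : ev x (dd _ (fc _ (mkC (fun x => c (sqn x)) (contDiff_c hc)) * lam m)) =
    (2 * deriv c (sqn x)) • (ExteriorAlgebra.ι ℝ x * ExteriorAlgebra.ι ℝ (Jc x)) + (2 * c (sqn x)) • W m := by
  rw [dd_mul, sg_fc, map_add, map_mul, map_mul, ev_dd_fc, ev_fc, ev_lam, ev_dd_lam, ← Algebra.smul_def, smul_smul]
  congr 1
  · rw [← smul_mul_assoc, ← map_smul]
    congr 2
    funext i
    rw [pd_c hc]
    rfl
  · congr 1
    change c (sqn x) * 2 = _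
    ring

include hc in
/-- the density of the top power -/
lemma tp_std (hm : 0 < m) (x : V (m * 2)) :
    (tp (m * 2) ((dd _ (fc _ (mkC (fun x => c (sqn x)) (contDiff_c hc)) * lam m)) ^ m) : V (m * 2) → ℝ) x
      = m.factorial * ((2 * c (sqn x)) ^ (m - 1) * (2 * c (sqn x) + 2 * deriv c (sqn x) * sqn x)) := by
  rw [tp_apply, map_pow, ev_dd_std hc, topE_std x hm]
  have : ∑ i, x i * x i = sqn x := Finset.sum_congr rfl fun i _ => by ring
  rw [this]

include hc in
/-- **the standard value** -/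
theorem std_value (hm : 0 < m) {s₁ : ℝ} (hs₁ : 0 < s₁) (h : ∀ s, s₁ ≤ s → c s = 1 / (2 * Real.pi * s)) {B0 : Fm (m * 2)}
    (hB : B0 = ∑ j : Fin m, fc _ (mkC (fun x => c (sqn x)) (contDiff_c hc)) *
      (fc _ (co (i0 j)) * dx (i1 j) - fc _ (co (i1 j)) * dx (i0 j))) :
    ∫ x, (tp (m * 2) ((dd _ B0) ^ m) : V (m * 2) → ℝ) x = 1 := by
  have hB' : B0 = fc _ (mkC (fun x => c (sqn x)) (contDiff_c hc)) * lam m := by rw [hB, lam, Finset.mul_sum]
  rw [hB']
  simp_rw [tp_std hc hm]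
  rw [integral_sqn hm (fun s => m.factorial * ((2 * c s) ^ (m - 1) * (2 * c s + 2 * deriv c s * s)))]
  obtain ⟨k, rfl⟩ : ∃ k, m = k + 1 := ⟨m - 1, by omega⟩
  set g : ℝ → ℝ := fun r => r ^ (2 * (k + 1) - 1) * ((k + 1).factorial * ((2 * c (r ^ 2)) ^ (k + 1 - 1) *
    (2 * c (r ^ 2) + 2 * deriv c (r ^ 2) * r ^ 2))) with hg
  set R : ℝ := s₁ + 1 with hR
  have hR0 : 0 ≤ R := by rw [hR]; linarith
  have hgz : ∀ r, R < r → g r = 0 := by
    intro r hr
    have hr2 : s₁ < r ^ 2 := by nlinarith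
    have hr0 : 0 < r ^ 2 := by linarith
    have hev : c =ᶠ[𝓝 (r ^ 2)] fun s => 1 / (2 * Real.pi * s) := by
      filter_upwards [isOpen_Ioi.mem_nhds (show r ^ 2 ∈ Ioi s₁ from hr2)] with s hs
      exact h s (le_of_lt hs)
    have hd : deriv c (r ^ 2) = -(1 / (2 * Real.pi * (r ^ 2) ^ 2)) := by
      rw [hev.deriv_eq]
      have h1 : HasDerivAt (fun s : ℝ => 1 / (2 * Real.pi * s)) (-(1 / (2 * Real.pi * (r ^ 2) ^ 2))) (r ^ 2) := by
        have h2 := (hasDerivAt_inv hr0.ne').const_mul (1 / (2 * Real.pi))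
        have h3 : (fun s : ℝ => 1 / (2 * Real.pi) * s⁻¹) = fun s : ℝ => 1 / (2 * Real.pi * s) := by
          funext s; rw [← div_eq_mul_inv, div_div]
        rw [h3] at h2
        refine h2.congr_deriv ?_
        rw [one_div, one_div, mul_inv]; ring
      exact h1.deriv
    have hcv : c (r ^ 2) = 1 / (2 * Real.pi * r ^ 2) := h _ hr2.le
    have h4 : 2 * c (r ^ 2) + 2 * deriv c (r ^ 2) * r ^ 2 = 0 := by
      rw [hd, hcv]
      field_simp
      ring
    simp only [hg, h4, mul_zero]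
  have hder : ∀ r, HasDerivAt (fun r => (k + 1).factorial * 2 ^ k / (k + 1) * (r ^ 2 * c (r ^ 2)) ^ (k + 1)) (g r) r := by
    intro r
    have h1 : HasDerivAt (fun r : ℝ => r ^ 2) (2 * r) r := by simpa using hasDerivAt_pow 2 r
    have h2 : HasDerivAt (fun r : ℝ => c (r ^ 2)) (deriv c (r ^ 2) * (2 * r)) r :=
      HasDerivAt.comp r ((hc.differentiable (by simp) _).hasDerivAt) h1
    have h3 := ((h1.mul h2).pow (k + 1)).const_mul (((k + 1).factorial * 2 ^ k / (k + 1) : ℝ))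
    refine HasDerivAt.congr_deriv (f := fun r : ℝ => (k + 1).factorial * 2 ^ k / (k + 1) * (r ^ 2 * c (r ^ 2)) ^ (k + 1)) h3 ?_
    simp only [hg, Nat.add_sub_cancel, Pi.mul_apply]
    rw [show 2 * (k + 1) - 1 = 2 * k + 1 by omega]
    push_cast
    field_simp
    ring
  have hgc : Continuous g := by
    have h1 : Continuous c := hc.continuous
    have h2 : Continuous (deriv c) := hc.continuous_deriv (by simp)
    simp only [hg]
    fun_prop
  have hint : ∫ r in Ioi (0 : ℝ), g r = (k + 1).factorial * 2 ^ k / (k + 1) * (1 / (2 * Real.pi)) ^ (k + 1) := by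
    have h1 : ∫ r in Ioi (0 : ℝ), g r = ∫ r in Ioc (0 : ℝ) R, g r := by
      rw [← Ioc_union_Ioi_eq_Ioi hR0]
      rw [setIntegral_eq_of_subset_of_forall_sdiff_eq_zero (measurableSet_Ioc.union measurableSet_Ioi) subset_union_left]
      intro x hx
      rcases hx.1 with h2 | h2
      · exact absurd h2 hx.2
      · exact hgz x h2
    rw [h1, ← intervalIntegral.integral_of_le hR0, intervalIntegral.integral_eq_sub_of_hasDerivAt (fun r _ => hder r)
      (hgc.intervalIntegrable _ _)]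
    have h2 : R ^ 2 * c (R ^ 2) = 1 / (2 * Real.pi) := by
      have h3 : s₁ ≤ R ^ 2 := by rw [hR]; nlinarith
      have h4 : 0 < R ^ 2 := by linarith
      rw [h _ h3, mul_one_div, mul_comm (2 * Real.pi), ← div_div, div_self h4.ne']
    rw [h2]
    simp
  change _ * _ * ∫ r in Ioi (0 : ℝ), g r = 1
  rw [hint]
  have hfac : ((k + 1).factorial : ℝ) ≠ 0 := by positivity
  have hpi := Real.pi_ne_zero
  rw [div_pow, mul_pow, one_pow]
  push_cast
  have hk : (k : ℝ) + 1 ≠ 0 := by positivity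
  field_simp
  ring

include hc in
/-- the standard value, for a one-form given by its coefficients -/
theorem std_value_one (hm : 0 < m) {s₁ : ℝ} (hs₁ : 0 < s₁) (h : ∀ s, s₁ ≤ s → c s = 1 / (2 * Real.pi * s))
    {a : Fin (m * 2) → Cs (m * 2)} (ha1 : ∀ (j : Fin m) x, (a (i1 j) : V (m * 2) → ℝ) x = c (sqn x) * x (i0 j))
    (ha0 : ∀ (j : Fin m) x, (a (i0 j) : V (m * 2) → ℝ) x = - c (sqn x) * x (i1 j)) :
    ∫ x, (tp (m * 2) ((dd _ (one a)) ^ m) : V (m * 2) → ℝ) x = 1 := by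
  refine std_value hc hm hs₁ h ?_
  unfold one
  rw [sum_ix]
  refine Finset.sum_congr rfl fun j _ => ?_
  have h1 : a (i1 j) = mkC (fun x => c (sqn x)) (contDiff_c hc) * co (i0 j) := Cs_ext fun x => ha1 j x
  have h0 : a (i0 j) = -(mkC (fun x => c (sqn x)) (contDiff_c hc) * co (i1 j)) := Cs_ext fun x => by
    rw [ha0]
    change -c (sqn x) * x (i1 j) = -(c (sqn x) * x (i1 j))
    ring
  change fc _ (a (i0 j)) * dx (i0 j) + fc _ (a (i1 j)) * dx (i1 j) = _
  rw [h0, h1, map_neg, map_mul, map_mul, mul_sub, ← mul_assoc, ← mul_assoc, neg_mul]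
  abel

end std

end Pool.Agent.Lib.MP_ccbbf6_gt.L4.EUL
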