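import Pool.Agent.Lib.MP_ccbbf6_gt.L4.ES
import Pool.Agent.Lib.MP_ccbbf6_gt.L4.Str

/-!
# Level 4, block EUL: the one-form of a great circle fibration is flat at infinity
-/

set_option autoImplicit false

open Set Filter Topology MeasureTheory
open scoped TensorProduct ContDiff RealInnerProductSpace

noncomputable section

namespace Pool.Agent.Lib.MP_ccbbf6_gt.L4.EUL

open FR Geo

variable {n : ℕ}

/-- from `R^n` to the euclidean space -/
def toE (x : V n) : Eu n := WithLp.toLp 2 x

theorem toE_apply (x : V n) (i : Fin n) : toE x i = x i := rfl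

theorem norm_toE_sq (x : V n) : ‖toE x‖ ^ 2 = sqn x := by
  rw [EuclideanSpace.norm_sq_eq]
  unfold sqn
  exact Finset.sum_congr rfl fun i _ => by rw [Real.norm_eq_abs, sq_abs]; rfl

theorem norm_toE (x : V n) : ‖toE x‖ = Real.sqrt (sqn x) := by
  rw [← norm_toE_sq, Real.sqrt_sq (norm_nonneg _)]

theorem inner_toE (x : V n) (v : Eu n) : ⟪toE x, v⟫ = ∑ i, x i * v i := by
  rw [PiLp.inner_apply]
  exact Finset.sum_congr rfl fun i _ => by
    simp [toE_apply, mul_comm]

/-- the vector field of a great circle fibration -/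
def XE (e : Eu n → Eu n) (x : V n) : V n := fun i => Real.sqrt (sqn x) * e (toE x) i

section

variable {e : Eu n → Eu n}

theorem sum_e_sq (he : GCF e) {x : V n} (hx : 0 < sqn x) : ∑ i, e (toE x) i ^ 2 = 1 := by
  have h0 : toE x ≠ 0 := by
    intro h
    have := norm_toE_sq x
    rw [h, norm_zero] at this
    norm_num at this
    linarith
  have h1 := he.norm _ h0
  have h2 := EuclideanSpace.norm_sq_eq (e (toE x))
  rw [h1] at h2
  rw [← one_pow 2, h2]
  exact Finset.sum_congr rfl fun i _ => by rw [Real.norm_eq_abs, sq_abs]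

theorem sum_x_e (he : GCF e) (x : V n) : ∑ i, x i * e (toE x) i = 0 := by
  rw [← inner_toE, he.orth]

theorem sqn_rot (he : GCF e) {x : V n} (hx : 0 < sqn x) (a b : ℝ) (hab : a ^ 2 + b ^ 2 = 1) :
    sqn (a • x + b • XE e x) = sqn x := by
  have h1 := sum_e_sq he hx
  have h2 := sum_x_e he x
  have h3 := Real.sq_sqrt hx.le
  have h4 : sqn (a • x + b • XE e x) = a ^ 2 * sqn x +
      2 * a * b * Real.sqrt (sqn x) * ∑ i, x i * e (toE x) i +
      b ^ 2 * Real.sqrt (sqn x) ^ 2 * ∑ i, e (toE x) i ^ 2 := by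
    conv_lhs => unfold sqn
    conv_rhs => enter [1, 1, 2]; unfold sqn
    rw [Finset.mul_sum, Finset.mul_sum, Finset.mul_sum, ← Finset.sum_add_distrib,
      ← Finset.sum_add_distrib]
    refine Finset.sum_congr rfl fun i _ => ?_
    simp only [Pi.add_apply, Pi.smul_apply, smul_eq_mul, XE]
    ring
  rw [h4, h1, h2, h3]
  linear_combination (sqn x) * hab

/-- the rotation of `e` -/
theorem e_rot' (he : GCF e) {x : V n} (hx : 0 < sqn x) (t : ℝ) :
    e (toE (Real.cos t • x + Real.sin t • XE e x)) =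
      -Real.sin t • ((Real.sqrt (sqn x))⁻¹ • toE x) + Real.cos t • e (toE x) := by
  have hs : 0 < Real.sqrt (sqn x) := Real.sqrt_pos.2 hx
  set v : Eu n := (Real.sqrt (sqn x))⁻¹ • toE x with hv
  have hv1 : ‖v‖ = 1 := by
    rw [hv, norm_smul, norm_inv, norm_toE, Real.norm_of_nonneg hs.le, inv_mul_cancel₀ hs.ne']
  have hev : e v = e (toE x) := he.hom _ _ (inv_pos.2 hs)
  have h1 : toE (Real.cos t • x + Real.sin t • XE e x) =
      Real.sqrt (sqn x) • (Real.cos t • v + Real.sin t • e v) := by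
    rw [hev]
    ext i
    change Real.cos t * x i + Real.sin t * (Real.sqrt (sqn x) * e (toE x) i) =
      Real.sqrt (sqn x) * (Real.cos t * ((Real.sqrt (sqn x))⁻¹ * x i) + Real.sin t * e (toE x) i)
    field_simp
  rw [h1, he.hom _ _ hs, he.rot v hv1 t, hev]

/-- **the one-form of a great circle fibration is flat at infinity** -/
theorem flat_e (he : GCF e) {b : Fin n → Cs n} {R : ℝ} (hR : 0 ≤ R)
    (hb : ∀ x, R < sqn x → ∀ i, (b i : V n → ℝ) x = e (toE x) i / (2 * Real.pi * Real.sqrt (sqn x))) :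
    Flat (XE e) (1 / (2 * Real.pi)) R (one b) := by
  have hπ := Real.pi_pos
  have hopen : ∀ x, R < sqn x → ∀ᶠ y : V n in 𝓝 x, R < sqn y := fun x hx =>
    contDiff_sqn.continuous.continuousAt.eventually (isOpen_Ioi.mem_nhds hx)
  -- the functions
  set F1 : Cs n := ∑ i, co i * b i with hF1
  set SQ : Cs n := ∑ i, co i * co i with hSQ
  set F2 : Cs n := (∑ i, b i * b i) * SQ with hF2
  have hSQa : ∀ x, (SQ : V n → ℝ) x = sqn x := by
    intro x
    rw [hSQ, AddSubmonoidClass.coe_finsetSum, Finset.sum_apply]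
    unfold sqn
    exact Finset.sum_congr rfl fun i _ => (pow_two _).symm
  have hbb : ∀ x, R < sqn x → ((∑ i, b i * b i : Cs n) : V n → ℝ) x =
      1 / (4 * Real.pi ^ 2 * sqn x) := by
    intro x hx
    have hx0 : 0 < sqn x := hR.trans_lt hx
    rw [AddSubmonoidClass.coe_finsetSum, Finset.sum_apply]
    have h1 : ∀ i, ((b i * b i : Cs n) : V n → ℝ) x =
        e (toE x) i ^ 2 * (1 / (4 * Real.pi ^ 2 * sqn x)) := by
      intro i
      change (b i : V n → ℝ) x * (b i : V n → ℝ) x = _
      rw [hb x hx i]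
      have h3 := Real.sq_sqrt hx0.le
      have h4 : Real.sqrt (sqn x) ≠ 0 := (Real.sqrt_pos.2 hx0).ne'
      rw [div_mul_div_comm]
      have h5 : 2 * Real.pi * Real.sqrt (sqn x) * (2 * Real.pi * Real.sqrt (sqn x)) =
          4 * Real.pi ^ 2 * sqn x := by
        linear_combination (4 * Real.pi ^ 2) * h3
      rw [h5]
      ring
    simp only [h1]
    rw [← Finset.sum_mul, sum_e_sq he hx0, one_mul]
  have hF1a : ∀ x, R < sqn x → (F1 : V n → ℝ) x = 0 := by
    intro x hx
    rw [hF1, AddSubmonoidClass.coe_finsetSum, Finset.sum_apply]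
    have h1 : ∀ i, ((co i * b i : Cs n) : V n → ℝ) x =
        x i * e (toE x) i * (1 / (2 * Real.pi * Real.sqrt (sqn x))) := by
      intro i
      change x i * (b i : V n → ℝ) x = _
      rw [hb x hx i]
      ring
    simp only [h1]
    rw [← Finset.sum_mul, sum_x_e he, zero_mul]
  have hF2a : ∀ x, R < sqn x → (F2 : V n → ℝ) x = 1 / (4 * Real.pi ^ 2) := by
    intro x hx
    have hx0 : 0 < sqn x := hR.trans_lt hx
    change ((∑ i, b i * b i : Cs n) : V n → ℝ) x * (SQ : V n → ℝ) x = _
    rw [hbb x hx, hSQa]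
    field_simp
  have hpd : ∀ (F : Cs n) (c : ℝ), (∀ x, R < sqn x → (F : V n → ℝ) x = c) → ∀ x, R < sqn x → ∀ j,
      (pd j F : V n → ℝ) x = 0 := by
    intro F c hF x hx j
    rw [pd_apply]
    have h1 : (F : V n → ℝ) =ᶠ[𝓝 x] fun _ => c := by
      filter_upwards [hopen x hx] with y hy
      exact hF y hy
    rw [h1.fderiv_eq, fderiv_fun_const]
    rfl
  have hpdSQ : ∀ j x, (pd j SQ : V n → ℝ) x = 2 * x j := by
    intro j x
    have h1 : pd j SQ = co j + co j := by
      rw [hSQ, map_sum, Finset.sum_eq_single j]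
      · rw [pd_mul, pd_co, if_pos rfl, one_mul, mul_one]
      · intro i _ hi
        rw [pd_mul, pd_co, if_neg (Ne.symm hi), zero_mul, mul_zero, add_zero]
      · intro h
        exact absurd (Finset.mem_univ j) h
    rw [h1]
    change x j + x j = _
    ring
  -- first identity
  have hid1 : ∀ x, R < sqn x → ∀ j, (b j : V n → ℝ) x + ∑ i, x i * (pd j (b i) : V n → ℝ) x = 0 := by
    intro x hx j
    have h1 := hpd F1 0 hF1a x hx j
    have h2 : pd j F1 = b j + ∑ i, co i * pd j (b i) := by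
      rw [hF1, map_sum]
      simp only [pd_mul, pd_co]
      rw [Finset.sum_add_distrib, Finset.sum_eq_single j]
      · rw [if_pos rfl, one_mul]
      · intro i _ hi
        rw [if_neg (Ne.symm hi), zero_mul]
      · intro h
        exact absurd (Finset.mem_univ j) h
    rw [h2] at h1
    have h3 : ((b j + ∑ i, co i * pd j (b i) : Cs n) : V n → ℝ) x = (b j : V n → ℝ) x +
        ∑ i, x i * (pd j (b i) : V n → ℝ) x := by
      change (b j : V n → ℝ) x + ((∑ i, co i * pd j (b i) : Cs n) : V n → ℝ) x = _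
      rw [AddSubmonoidClass.coe_finsetSum, Finset.sum_apply]
      rfl
    rw [h3] at h1
    exact h1
  -- second identity
  have hid2 : ∀ x, R < sqn x → ∀ j, ∑ i, (b i : V n → ℝ) x * (pd j (b i) : V n → ℝ) x =
      -(x j / (4 * Real.pi ^ 2 * sqn x ^ 2)) := by
    intro x hx j
    have hx0 : 0 < sqn x := hR.trans_lt hx
    have h1 := hpd F2 _ hF2a x hx j
    have h2 : pd j (∑ i, b i * b i) = ∑ i, (b i * pd j (b i) + b i * pd j (b i)) := by
      rw [map_sum]
      refine Finset.sum_congr rfl fun i _ => ?_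
      rw [pd_mul, mul_comm (pd j (b i))]
    have h3 : (pd j (∑ i, b i * b i) : V n → ℝ) x =
        2 * ∑ i, (b i : V n → ℝ) x * (pd j (b i) : V n → ℝ) x := by
      rw [h2, AddSubmonoidClass.coe_finsetSum, Finset.sum_apply, Finset.mul_sum]
      refine Finset.sum_congr rfl fun i _ => ?_
      change (b i : V n → ℝ) x * (pd j (b i) : V n → ℝ) x + (b i : V n → ℝ) x * (pd j (b i) : V n → ℝ) x = _
      ring
    rw [hF2, pd_mul] at h1
    have h4 : (pd j (∑ i, b i * b i) : V n → ℝ) x * (SQ : V n → ℝ) x +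
        ((∑ i, b i * b i : Cs n) : V n → ℝ) x * (pd j SQ : V n → ℝ) x = 0 := h1
    rw [h3, hSQa, hbb x hx, hpdSQ] at h4
    field_simp at h4 ⊢
    linarith
  -- the Euler derivative
  have hid3 : ∀ x, R < sqn x → ∀ j, fderiv ℝ (b j : V n → ℝ) x x = -(b j : V n → ℝ) x := by
    intro x hx j
    have hx0 : 0 < sqn x := hR.trans_lt hx
    have h1 : HasDerivAt (fun t : ℝ => (b j : V n → ℝ) (t • x)) (fderiv ℝ (b j : V n → ℝ) x x) 1 := by
      have h2 : HasDerivAt (fun t : ℝ => t • x) x 1 := by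
        simpa using (hasDerivAt_id (1 : ℝ)).smul_const x
      have h3 : HasFDerivAt (b j : V n → ℝ) (fderiv ℝ (b j : V n → ℝ) x) ((1 : ℝ) • x) := by
        rw [one_smul]
        exact (Cs_diff (b j) x).hasFDerivAt
      exact h3.comp_hasDerivAt 1 h2
    have h4 : (fun t : ℝ => (b j : V n → ℝ) (t • x)) =ᶠ[𝓝 1] fun t => t⁻¹ * (b j : V n → ℝ) x := by
      have hc : Continuous fun t : ℝ => sqn (t • x) :=
        contDiff_sqn.continuous.comp (continuous_id.smul continuous_const)
      have h5 : ∀ᶠ t : ℝ in 𝓝 1, R < sqn (t • x) :=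
        hc.continuousAt.eventually (isOpen_Ioi.mem_nhds (by
          change R < sqn ((1 : ℝ) • x)
          rw [one_smul]; exact hx))
      have h6 : ∀ᶠ t : ℝ in 𝓝 1, 0 < t := isOpen_Ioi.mem_nhds (show (0 : ℝ) < 1 from one_pos)
      filter_upwards [h5, h6] with t ht ht0
      rw [hb _ ht, hb x hx]
      have h7 : e (toE (t • x)) = e (toE x) := he.hom _ _ ht0
      rw [h7, sqn_smul, Real.sqrt_mul (sq_nonneg t), Real.sqrt_sq ht0.le]
      have h8 : Real.sqrt (sqn x) ≠ 0 := (Real.sqrt_pos.2 hx0).ne'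
      field_simp
    have h5 : HasDerivAt (fun t : ℝ => t⁻¹ * (b j : V n → ℝ) x) (-(b j : V n → ℝ) x) 1 := by
      have := (hasDerivAt_inv (one_ne_zero (α := ℝ))).mul_const ((b j : V n → ℝ) x)
      simpa using this
    exact (h1.congr_of_eventuallyEq h4.symm).unique h5
  -- the derivative along the fibres
  have hid4 : ∀ x, R < sqn x → ∀ j, fderiv ℝ (b j : V n → ℝ) x (XE e x) =
      -(x j / (2 * Real.pi * sqn x)) := by
    intro x hx j
    have hx0 : 0 < sqn x := hR.trans_lt hx
    have hs : 0 < Real.sqrt (sqn x) := Real.sqrt_pos.2 hx0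
    have h1 : HasDerivAt (fun t : ℝ => (b j : V n → ℝ) (Real.cos t • x + Real.sin t • XE e x))
        (fderiv ℝ (b j : V n → ℝ) x (XE e x)) 0 := by
      have h2 : HasDerivAt (fun t : ℝ => Real.cos t • x + Real.sin t • XE e x) (XE e x) 0 := by
        have h3 := ((Real.hasDerivAt_cos 0).smul_const x).add ((Real.hasDerivAt_sin 0).smul_const (XE e x))
        have h4 : (-Real.sin 0) • x + Real.cos 0 • XE e x = XE e x := by simp
        rw [h4] at h3
        exact h3
      have h3 : HasFDerivAt (b j : V n → ℝ) (fderiv ℝ (b j : V n → ℝ) x)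
          (Real.cos 0 • x + Real.sin 0 • XE e x) := by
        rw [Real.cos_zero, Real.sin_zero, one_smul, zero_smul, add_zero]
        exact (Cs_diff (b j) x).hasFDerivAt
      exact h3.comp_hasDerivAt 0 h2
    have h4 : (fun t : ℝ => (b j : V n → ℝ) (Real.cos t • x + Real.sin t • XE e x)) = fun t =>
        (-Real.sin t * ((Real.sqrt (sqn x))⁻¹ * x j) + Real.cos t * e (toE x) j) /
          (2 * Real.pi * Real.sqrt (sqn x)) := by
      funext t
      have h5 := sqn_rot he hx0 (Real.cos t) (Real.sin t) (Real.cos_sq_add_sin_sq t)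
      rw [hb _ (by rw [h5]; exact hx), h5, e_rot' he hx0 t]
      rfl
    have h5 : HasDerivAt (fun t : ℝ =>
        (-Real.sin t * ((Real.sqrt (sqn x))⁻¹ * x j) + Real.cos t * e (toE x) j) /
          (2 * Real.pi * Real.sqrt (sqn x)))
        ((-(1 : ℝ) * ((Real.sqrt (sqn x))⁻¹ * x j)) / (2 * Real.pi * Real.sqrt (sqn x))) 0 := by
      have h6 := (((Real.hasDerivAt_sin 0).neg.mul_const ((Real.sqrt (sqn x))⁻¹ * x j)).add
        ((Real.hasDerivAt_cos 0).mul_const (e (toE x) j))).div_const (2 * Real.pi * Real.sqrt (sqn x))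
      simpa using h6
    rw [h4] at h1
    rw [h1.unique h5]
    have h7 := Real.sq_sqrt hx0.le
    have h8 : 2 * Real.pi * sqn x = 2 * Real.pi * Real.sqrt (sqn x) ^ 2 := by rw [h7]
    rw [h8]
    field_simp
  refine ⟨⟨b, rfl⟩, fun x hx => ?_, fun x hx => ?_, fun x hx => ?_, fun x hx => ?_⟩
  · rw [ctr_ev_one]
    have h1 : ∑ i, x i * (b i : V n → ℝ) x = (F1 : V n → ℝ) x := by
      rw [hF1, AddSubmonoidClass.coe_finsetSum, Finset.sum_apply]
      rfl
    rw [h1, hF1a x hx, map_zero]
  · rw [ctr_ev_dd_one]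
    have h1 : (fun j => fderiv ℝ (b j : V n → ℝ) x x - ∑ i, x i * (pd j (b i) : V n → ℝ) x) = 0 := by
      funext j
      rw [hid3 x hx j]
      have := hid1 x hx j
      simp only [Pi.zero_apply]
      linarith
    rw [h1, map_zero]
  · rw [ctr_ev_one]
    have hx0 : 0 < sqn x := hR.trans_lt hx
    have h1 : ∑ i, XE e x i * (b i : V n → ℝ) x = 1 / (2 * Real.pi) := by
      have h2 : ∀ i, XE e x i * (b i : V n → ℝ) x = e (toE x) i ^ 2 * (1 / (2 * Real.pi)) := by
        intro i
        rw [hb x hx i]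
        have hs : Real.sqrt (sqn x) ≠ 0 := (Real.sqrt_pos.2 hx0).ne'
        simp only [XE]
        field_simp
      simp only [h2]
      rw [← Finset.sum_mul, sum_e_sq he hx0, one_mul]
    rw [h1]
  · rw [ctr_ev_dd_one]
    have hx0 : 0 < sqn x := hR.trans_lt hx
    have h1 : (fun j => fderiv ℝ (b j : V n → ℝ) x (XE e x) -
        ∑ i, XE e x i * (pd j (b i) : V n → ℝ) x) = 0 := by
      funext j
      rw [hid4 x hx j]
      have h2 : ∀ i, XE e x i * (pd j (b i) : V n → ℝ) x =
          2 * Real.pi * sqn x * ((b i : V n → ℝ) x * (pd j (b i) : V n → ℝ) x) := by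
        intro i
        rw [hb x hx i]
        have hs : Real.sqrt (sqn x) ≠ 0 := (Real.sqrt_pos.2 hx0).ne'
        have h7 := Real.sq_sqrt hx0.le
        simp only [XE]
        field_simp
        rw [h7]
        ring
      simp only [h2]
      rw [← Finset.mul_sum, hid2 x hx j]
      simp only [Pi.zero_apply]
      field_simp
      ring
    rw [h1, map_zero]

end

end Pool.Agent.Lib.MP_ccbbf6_gt.L4.EUL
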