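import Pool.Agent.Lib.MP_ccbbf6_gt.ML
import Pool.Agent.Lib.MP_ccbbf6_gt.L4.Str

/-!
# Level 4, block EUL: the equivariant map from the Hopf sphere to a great circle fibration (joins)
-/

set_option autoImplicit false

open scoped ContDiff RealInnerProductSpace
open Complex (I)

noncomputable section

namespace Pool.Agent.Lib.MP_ccbbf6_gt.L4

open Geo

variable {n : ℕ} {e : EuclideanSpace ℝ (Fin n) → EuclideanSpace ℝ (Fin n)}


/-- an equivariant map `ℂ^m \ 0 → S^(n-1)` -/
structure EqM (e : EuclideanSpace ℝ (Fin n) → EuclideanSpace ℝ (Fin n)) (m : ℕ)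
    (g : (Fin m → ℂ) → EuclideanSpace ℝ (Fin n)) : Prop where
  smooth : ∀ z, z ≠ 0 → ContDiffAt ℝ ∞ g z
  norm : ∀ z, z ≠ 0 → ‖g z‖ = 1
  homog : ∀ (z : Fin m → ℂ) (r : ℝ), 0 < r → g (r • z) = g z
  equiv : ∀ z, z ≠ 0 → ∀ t : ℝ, g (Complex.exp (t * I) • z) =
    Real.cos t • g z + Real.sin t • e (g z)

/-- the sum of the squares of the moduli -/
def nsq {m : ℕ} (z : Fin m → ℂ) : ℝ := ∑ i, Complex.normSq (z i)

theorem nsq_nonneg {m : ℕ} (z : Fin m → ℂ) : 0 ≤ nsq z :=
  Finset.sum_nonneg fun _ _ => Complex.normSq_nonneg _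

theorem nsq_pos {m : ℕ} {z : Fin m → ℂ} (h : z ≠ 0) : 0 < nsq z := by
  obtain ⟨i, hi⟩ := Function.ne_iff.1 h
  exact Finset.sum_pos' (fun _ _ => Complex.normSq_nonneg _)
    ⟨i, Finset.mem_univ i, Complex.normSq_pos.2 hi⟩

theorem nsq_eq_zero {m : ℕ} {z : Fin m → ℂ} (h : nsq z = 0) : z = 0 := by
  by_contra hz
  exact (nsq_pos hz).ne' h

theorem nsq_smul {m : ℕ} (c : ℂ) (z : Fin m → ℂ) : nsq (c • z) = Complex.normSq c * nsq z := by
  unfold nsq
  rw [Finset.mul_sum]
  exact Finset.sum_congr rfl fun i _ => by simp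

theorem nsq_smul_real {m : ℕ} (r : ℝ) (z : Fin m → ℂ) : nsq (r • z) = r ^ 2 * nsq z := by
  have : r • z = ((r : ℂ)) • z := by funext i; simp
  rw [this, nsq_smul, Complex.normSq_ofReal]
  ring

theorem contDiff_normSq : ContDiff ℝ ∞ fun z : ℂ => Complex.normSq z := by
  have : (fun z : ℂ => Complex.normSq z) = fun z => Complex.reCLM z * Complex.reCLM z +
      Complex.imCLM z * Complex.imCLM z := by
    funext z; simp [Complex.normSq_apply]
  rw [this]
  exact (Complex.reCLM.contDiff.mul Complex.reCLM.contDiff).add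
    (Complex.imCLM.contDiff.mul Complex.imCLM.contDiff)

theorem contDiff_nsq {m : ℕ} : ContDiff ℝ ∞ fun z : Fin m → ℂ => nsq z := by
  unfold nsq
  exact ContDiff.sum fun i _ => contDiff_normSq.comp (contDiff_apply ℝ ℂ i)

/-- `ρ_{arg w} v` -/
def rotw (e : EuclideanSpace ℝ (Fin n) → EuclideanSpace ℝ (Fin n)) (w : ℂ)
    (v : EuclideanSpace ℝ (Fin n)) : EuclideanSpace ℝ (Fin n) :=
  (w.re / ‖w‖) • v + (w.im / ‖w‖) • e v

theorem GCF.norm_rot (h : GCF e) {v : (EuclideanSpace ℝ (Fin n))} (hv : ‖v‖ = 1) (a b : ℝ) (hab : a ^ 2 + b ^ 2 = 1) :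
    ‖a • v + b • e v‖ = 1 := by
  have hv0 : v ≠ 0 := by intro h0; rw [h0, norm_zero] at hv; norm_num at hv
  have h1 : ‖a • v + b • e v‖ ^ 2 = 1 := by
    rw [norm_add_sq_real, norm_smul, norm_smul, inner_smul_left, inner_smul_right, h.orth v,
      hv, h.norm v hv0]
    simp only [Real.norm_eq_abs, mul_one, sq_abs, mul_zero, add_zero]
    exact hab
  have h2 : 0 ≤ ‖a • v + b • e v‖ := norm_nonneg _
  nlinarith

theorem rotw_exp (v : (EuclideanSpace ℝ (Fin n))) (t : ℝ) : rotw e (Complex.exp (t * I)) v =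
    Real.cos t • v + Real.sin t • e v := by
  unfold rotw
  rw [Complex.norm_exp_ofReal_mul_I, Complex.exp_ofReal_mul_I_re, Complex.exp_ofReal_mul_I_im]
  simp

theorem rotw_real (r : ℝ) (hr : 0 < r) (w : ℂ) (v : (EuclideanSpace ℝ (Fin n))) : rotw e (r * w) v = rotw e w v := by
  unfold rotw
  rw [norm_mul, Complex.norm_real, Real.norm_of_nonneg hr.le, Complex.re_ofReal_mul,
    Complex.im_ofReal_mul, mul_div_mul_left _ _ hr.ne', mul_div_mul_left _ _ hr.ne']

/-- every nonzero complex number is `|w| e^{iθ}` -/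
theorem exists_polar (w : ℂ) (_hw : w ≠ 0) : ∃ θ : ℝ, w = (‖w‖ : ℂ) * Complex.exp (θ * I) :=
  ⟨Complex.arg w, (Complex.norm_mul_exp_arg_mul_I w).symm⟩

theorem GCF.e_rot (h : GCF e) {v : (EuclideanSpace ℝ (Fin n))} (hv : ‖v‖ = 1) (t : ℝ) :
    e (Real.cos t • v + Real.sin t • e v) = -Real.sin t • v + Real.cos t • e v := h.rot v hv t

theorem GCF.rot_rot (h : GCF e) {v : (EuclideanSpace ℝ (Fin n))} (hv : ‖v‖ = 1) (s t : ℝ) :
    Real.cos t • (Real.cos s • v + Real.sin s • e v) +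
      Real.sin t • e (Real.cos s • v + Real.sin s • e v) =
      Real.cos (s + t) • v + Real.sin (s + t) • e v := by
  rw [h.rot v hv s, Real.cos_add, Real.sin_add]
  module

theorem GCF.rotw_mul (h : GCF e) {v : (EuclideanSpace ℝ (Fin n))} (hv : ‖v‖ = 1) (w : ℂ) (hw : w ≠ 0) (t : ℝ) :
    rotw e (Complex.exp (t * I) * w) v =
      Real.cos t • rotw e w v + Real.sin t • e (rotw e w v) := by
  obtain ⟨s, hs⟩ := exists_polar w hw
  have hpos : 0 < ‖w‖ := norm_pos_iff.2 hw
  have e1 : Complex.exp (t * I) * w = (‖w‖ : ℂ) * Complex.exp (((s + t : ℝ) : ℂ) * I) := by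
    conv_lhs => rw [hs]
    have : Complex.exp (((s + t : ℝ) : ℂ) * I) = Complex.exp (s * I) * Complex.exp (t * I) := by
      rw [← Complex.exp_add]; congr 1; push_cast; ring
    rw [this]; ring
  have e2 : rotw e w v = Real.cos s • v + Real.sin s • e v := by
    conv_lhs => rw [hs]
    rw [rotw_real _ hpos, rotw_exp]
  rw [e1, rotw_real _ hpos, rotw_exp, e2, h.rot_rot hv]

theorem GCF.rotw_norm (h : GCF e) {v : (EuclideanSpace ℝ (Fin n))} (hv : ‖v‖ = 1) (w : ℂ) (hw : w ≠ 0) :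
    ‖rotw e w v‖ = 1 := by
  unfold rotw
  refine h.norm_rot hv _ _ ?_
  have hpos : 0 < ‖w‖ := norm_pos_iff.2 hw
  have : w.re ^ 2 + w.im ^ 2 = ‖w‖ ^ 2 := by
    rw [← Complex.normSq_eq_norm_sq, Complex.normSq_apply]; ring
  field_simp
  exact this

theorem GCF.rotw_smooth (h : GCF e) {w : ℂ} (hw : w ≠ 0) {v : (EuclideanSpace ℝ (Fin n))} (hv : v ≠ 0) :
    ContDiffAt ℝ ∞ (fun z : ℂ × (EuclideanSpace ℝ (Fin n)) => rotw e z.1 z.2) (w, v) := by
  unfold rotw
  have h1 : ContDiffAt ℝ ∞ (fun z : ℂ × (EuclideanSpace ℝ (Fin n)) => z.1) (w, v) := contDiffAt_fst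
  have h2 : ContDiffAt ℝ ∞ (fun z : ℂ × (EuclideanSpace ℝ (Fin n)) => z.2) (w, v) := contDiffAt_snd
  have hn : ContDiffAt ℝ ∞ (fun z : ℂ × (EuclideanSpace ℝ (Fin n)) => ‖z.1‖) (w, v) := h1.norm ℝ hw
  have hr : ContDiffAt ℝ ∞ (fun z : ℂ × (EuclideanSpace ℝ (Fin n)) => z.1.re) (w, v) :=
    Complex.reCLM.contDiff.contDiffAt.comp (w, v) h1
  have hi : ContDiffAt ℝ ∞ (fun z : ℂ × (EuclideanSpace ℝ (Fin n)) => z.1.im) (w, v) :=
    Complex.imCLM.contDiff.contDiffAt.comp (w, v) h1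
  have he : ContDiffAt ℝ ∞ (fun z : ℂ × (EuclideanSpace ℝ (Fin n)) => e z.2) (w, v) :=
    ContDiffAt.comp (g := e) (w, v) (h.smooth v hv) h2
  have hne : ‖(w, v).1‖ ≠ 0 := norm_ne_zero_iff.2 hw
  exact ((hr.div hn hne).smul h2).add ((hi.div hn hne).smul he)

/-- the base case -/
theorem EqM.one (h : GCF e) {v : (EuclideanSpace ℝ (Fin n))} (hv : ‖v‖ = 1) :
    EqM e 1 (fun z => rotw e (z 0) v) := by
  have hv0 : v ≠ 0 := by intro h0; rw [h0, norm_zero] at hv; norm_num at hv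
  have h0 : ∀ z : Fin 1 → ℂ, z ≠ 0 → z 0 ≠ 0 := by
    intro z hz h0
    exact hz (by funext i; rw [Subsingleton.elim i 0]; exact h0)
  refine ⟨fun z hz => ?_, fun z hz => h.rotw_norm hv _ (h0 z hz), fun z r hr => ?_, fun z hz t => ?_⟩
  · exact ContDiffAt.comp (g := fun y : ℂ × (EuclideanSpace ℝ (Fin n)) => rotw e y.1 y.2) (f := fun z : Fin 1 → ℂ => (z 0, v))
      z (h.rotw_smooth (h0 z hz) hv0) ((contDiff_apply ℝ ℂ (0 : Fin 1)).contDiffAt.prodMk contDiffAt_const)
  · have : (r • z) 0 = (r : ℂ) * z 0 := by simp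
    simp only [this]
    exact rotw_real r hr _ _
  · have : (Complex.exp (t * I) • z) 0 = Complex.exp (t * I) * z 0 := by simp
    simp only [this]
    exact h.rotw_mul hv _ (h0 z hz) t

/-- the cut-off of the join -/
def lamc (s : ℝ) : ℝ := Real.smoothTransition (2 * s - 1)

theorem contDiff_lamc : ContDiff ℝ ∞ lamc :=
  Real.smoothTransition.contDiff.comp ((contDiff_const.mul contDiff_id).sub contDiff_const)

theorem lamc_zero {s : ℝ} (h : s ≤ 1 / 2) : lamc s = 0 :=
  Real.smoothTransition.zero_of_nonpos (by linarith)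

theorem lamc_one {s : ℝ} (h : 1 ≤ s) : lamc s = 1 :=
  Real.smoothTransition.one_of_one_le (by linarith)

theorem lamc_mem (s : ℝ) : 0 ≤ lamc s ∧ lamc s ≤ 1 :=
  ⟨Real.smoothTransition.nonneg _, Real.smoothTransition.le_one _⟩

theorem smooth_cut {j : ℕ} {g : (Fin j → ℂ) → (EuclideanSpace ℝ (Fin n))} (hg : ∀ z, z ≠ 0 → ContDiffAt ℝ ∞ g z)
    {c : ℝ → ℝ} (hc : ContDiff ℝ ∞ c) (h0 : ∀ s, s ≤ 1 / 2 → c s = 0) :
    ContDiff ℝ ∞ fun z : Fin j → ℂ => c (nsq z) • g z := by
  rw [contDiff_iff_contDiffAt]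
  intro z
  by_cases hz : z = 0
  · have hn : nsq z < 1 / 2 := by rw [hz]; unfold nsq; simp
    have ev : ∀ᶠ y in nhds z, nsq y < 1 / 2 :=
      (contDiff_nsq.continuous.continuousAt).eventually (isOpen_Iio.mem_nhds hn)
    refine (contDiffAt_const (c := (0 : (EuclideanSpace ℝ (Fin n))))).congr_of_eventuallyEq ?_
    filter_upwards [ev] with y hy
    rw [h0 _ hy.le, zero_smul]
  · exact ((hc.contDiffAt).comp z contDiff_nsq.contDiffAt).smul (hg z hz)

/-- an unit vector outside the image -/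
theorem exists_not_mem {j : ℕ} {g : (Fin j → ℂ) → (EuclideanSpace ℝ (Fin n))} (hg : EqM e j g) (hj : 2 * j < n) :
    ∃ x : (EuclideanSpace ℝ (Fin n)), ‖x‖ = 1 ∧ ∀ z, z ≠ 0 → g z ≠ x := by
  have hc : ContDiff ℝ ∞ fun s : ℝ => lamc s * s := contDiff_lamc.mul contDiff_id
  have hH := smooth_cut hg.smooth hc (fun s hs => by rw [lamc_zero hs, zero_mul])
  have hd := ContDiff.dense_compl_range_of_finrank_lt_finrank (hH.of_le (by simp)) (by
    rw [Module.finrank_pi_fintype]
    simp only [Complex.finrank_real_complex, Finset.sum_const, Finset.card_univ, Fintype.card_fin,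
      finrank_euclideanSpace, smul_eq_mul]
    omega)
  have hn : 0 < n := by omega
  have : Nontrivial (EuclideanSpace ℝ (Fin n)) := by
    have : Nonempty (Fin n) := ⟨⟨0, hn⟩⟩
    infer_instance
  obtain ⟨y0, hy0⟩ := exists_norm_eq (EuclideanSpace ℝ (Fin n)) (show (0 : ℝ) ≤ 2 by norm_num)
  obtain ⟨x, hx, hxr⟩ := hd.exists_dist_lt y0 one_pos
  have hx1 : 1 ≤ ‖x‖ := by
    have := norm_sub_norm_le y0 x
    rw [dist_eq_norm] at hxr
    linarith
  have hx0 : 0 < ‖x‖ := by linarith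
  refine ⟨‖x‖⁻¹ • x, by rw [norm_smul, norm_inv, norm_norm, inv_mul_cancel₀ hx0.ne'], ?_⟩
  intro z hz hgz
  apply hx
  have hp := nsq_pos hz
  refine ⟨(Real.sqrt (‖x‖ / nsq z)) • z, ?_⟩
  have hs : 0 < Real.sqrt (‖x‖ / nsq z) := Real.sqrt_pos.2 (by positivity)
  have hq : nsq ((Real.sqrt (‖x‖ / nsq z)) • z) = ‖x‖ := by
    rw [nsq_smul_real, Real.sq_sqrt (by positivity)]
    field_simp
  simp only [hq, lamc_one hx1, one_mul]
  rw [hg.homog z _ hs, hgz, smul_smul, mul_inv_cancel₀ hx0.ne', one_smul]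

/-- the join step -/
theorem EqM.succ (h : GCF e) {j : ℕ} {g : (Fin j → ℂ) → (EuclideanSpace ℝ (Fin n))} (hg : EqM e j g) (hj : 2 * j < n) :
    ∃ g', EqM e (j + 1) g' := by
  obtain ⟨x, hx1, hx⟩ := exists_not_mem hg hj
  -- the map on the affine chart
  set G : (Fin j → ℂ) → (EuclideanSpace ℝ (Fin n)) := fun z => (lamc (nsq z)) • g z - (1 - lamc (nsq z)) • x with hG
  have hGs : ContDiff ℝ ∞ G := (smooth_cut hg.smooth contDiff_lamc (fun s hs => lamc_zero hs)).sub
    ((contDiff_const.sub (contDiff_lamc.comp contDiff_nsq)).smul contDiff_const)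
  have hG0 : ∀ z, G z ≠ 0 := by
    intro z h0
    have h1 := sub_eq_zero.1 h0
    by_cases hz : z = 0
    · have hn : nsq z = 0 := by rw [hz]; unfold nsq; simp
      rw [hn, lamc_zero (by norm_num), zero_smul, sub_zero, one_smul] at h1
      rw [← h1, norm_zero] at hx1
      norm_num at hx1
    · obtain ⟨h2, h3⟩ := lamc_mem (nsq z)
      have h4 : ‖lamc (nsq z) • g z‖ = ‖(1 - lamc (nsq z)) • x‖ := by rw [h1]
      rw [norm_smul, norm_smul, hg.norm z hz, hx1, Real.norm_of_nonneg h2,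
        Real.norm_of_nonneg (by linarith), mul_one, mul_one] at h4
      have h5 : lamc (nsq z) = 1 / 2 := by linarith
      rw [h5] at h1
      norm_num at h1
      exact hx z hz h1
  set N : (Fin j → ℂ) → (EuclideanSpace ℝ (Fin n)) := fun z => ‖G z‖⁻¹ • G z with hN
  have hNs : ContDiff ℝ ∞ N := by
    rw [contDiff_iff_contDiffAt]
    intro z
    exact ((hGs.contDiffAt.norm ℝ (hG0 z)).inv (norm_ne_zero_iff.2 (hG0 z))).smul hGs.contDiffAt
  have hN1 : ∀ z, ‖N z‖ = 1 := by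
    intro z
    simp only [hN]
    rw [norm_smul, norm_inv, norm_norm, inv_mul_cancel₀ (norm_ne_zero_iff.2 (hG0 z))]
  have hNg : ∀ z, 1 ≤ nsq z → N z = g z := by
    intro z hz
    have hz0 : z ≠ 0 := by
      intro h0
      have : nsq z = 0 := by rw [h0]; unfold nsq; simp
      linarith
    simp only [hN, hG, lamc_one hz, one_smul, sub_self, zero_smul, sub_zero, hg.norm z hz0, inv_one]
  -- the join
  let tl : (Fin (j + 1) → ℂ) → (Fin j → ℂ) := fun u i => u i.succ
  have htl : ContDiff ℝ ∞ tl := contDiff_pi.2 fun i => contDiff_apply ℝ ℂ i.succ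
  have hhd : ContDiff ℝ ∞ (fun u : Fin (j + 1) → ℂ => u 0) := contDiff_apply ℝ ℂ 0
  let g' : (Fin (j + 1) → ℂ) → (EuclideanSpace ℝ (Fin n)) := fun u =>
    if u 0 = 0 then g (tl u) else rotw e (u 0) (N ((u 0)⁻¹ • tl u))
  have htl0 : ∀ u : Fin (j + 1) → ℂ, u ≠ 0 → u 0 = 0 → tl u ≠ 0 := by
    intro u hu h0 ht
    apply hu
    funext i
    refine Fin.cases h0 (fun i => ?_) i
    exact congrFun ht i
  refine ⟨g', ⟨fun u hu => ?_, fun u hu => ?_, fun u r hr => ?_, fun u hu t => ?_⟩⟩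
  · by_cases h0 : u 0 = 0
    · -- near the zero of the last coordinate
      have hpos : 0 < nsq (tl u) := nsq_pos (htl0 u hu h0)
      have ev : ∀ᶠ y : Fin (j + 1) → ℂ in nhds u, Complex.normSq (y 0) < nsq (tl y) := by
        have hc1 : Continuous fun y : Fin (j + 1) → ℂ => nsq (tl y) - Complex.normSq (y 0) :=
          (contDiff_nsq.continuous.comp htl.continuous).sub
            (contDiff_normSq.continuous.comp hhd.continuous)
        have : 0 < nsq (tl u) - Complex.normSq (u 0) := by rw [h0, Complex.normSq_zero, sub_zero]; exact hpos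
        filter_upwards [hc1.continuousAt.eventually (isOpen_Ioi.mem_nhds this)] with y hy
        linarith
      have hcomp : ContDiffAt ℝ ∞ (fun y => g (tl y)) u :=
        ContDiffAt.comp (g := g) u (hg.smooth _ (htl0 u hu h0)) htl.contDiffAt
      refine hcomp.congr_of_eventuallyEq ?_
      filter_upwards [ev] with y hy
      by_cases hy0 : y 0 = 0
      · simp only [g', hy0, if_true]
      · simp only [g', hy0, if_false]
        have hnp : 0 < Complex.normSq (y 0) := Complex.normSq_pos.2 hy0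
        have h1 : 1 ≤ nsq ((y 0)⁻¹ • tl y) := by
          rw [nsq_smul, Complex.normSq_inv]
          rw [inv_mul_eq_div, le_div_iff₀ hnp]
          linarith
        rw [hNg _ h1]
        have hne : (y 0)⁻¹ • tl y ≠ 0 := by
          intro h0
          rw [h0] at h1
          have : nsq (0 : Fin j → ℂ) = 0 := by unfold nsq; simp
          linarith
        obtain ⟨s, hs⟩ := exists_polar (y 0) hy0
        have hpn : 0 < ‖y 0‖ := norm_pos_iff.2 hy0
        have e1 : rotw e (y 0) (g ((y 0)⁻¹ • tl y)) =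
            g (Complex.exp (s * I) • ((y 0)⁻¹ • tl y)) := by
          rw [hg.equiv _ hne s]
          conv_lhs => rw [hs]
          rw [rotw_real _ hpn, rotw_exp]
          conv_lhs => rw [← hs]
        rw [e1]
        have e2 : Complex.exp (s * I) • ((y 0)⁻¹ • tl y) = (‖y 0‖⁻¹ : ℝ) • tl y := by
          have e3 : Complex.exp (s * I) * (y 0)⁻¹ = ((‖y 0‖⁻¹ : ℝ) : ℂ) := by
            have hn0 : (‖y 0‖ : ℂ) ≠ 0 := by
              rw [Ne, Complex.ofReal_eq_zero]; exact hpn.ne'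
            have : y 0 = (‖y 0‖ : ℂ) * Complex.exp (s * I) := hs
            rw [mul_inv_eq_iff_eq_mul₀ hy0]
            conv_rhs => rw [this]
            push_cast
            rw [norm_mul, Complex.norm_real, norm_norm, Complex.norm_exp_ofReal_mul_I, mul_one]
            rw [← mul_assoc, inv_mul_cancel₀ hn0, one_mul]
          rw [smul_smul, e3]
          funext i
          simp
        rw [e2, hg.homog _ _ (inv_pos.2 hpn)]
    · have ev : ∀ᶠ y : Fin (j + 1) → ℂ in nhds u, y 0 ≠ 0 :=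
        hhd.continuous.continuousAt.eventually (isOpen_ne.mem_nhds h0)
      have hinv : ContDiffAt ℝ ∞ (fun y : Fin (j + 1) → ℂ => (y 0)⁻¹) u := by
        have hi : ContDiffAt ℝ ∞ (fun w : ℂ => w⁻¹) (u 0) := contDiffAt_inv ℝ h0
        exact ContDiffAt.comp (g := fun w : ℂ => w⁻¹) u hi hhd.contDiffAt
      have hz : ContDiffAt ℝ ∞ (fun y : Fin (j + 1) → ℂ => (y 0)⁻¹ • tl y) u :=
        hinv.smul htl.contDiffAt
      have hcomp : ContDiffAt ℝ ∞ (fun y : Fin (j + 1) → ℂ => rotw e (y 0) (N ((y 0)⁻¹ • tl y))) u :=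
        ContDiffAt.comp (g := fun y : ℂ × (EuclideanSpace ℝ (Fin n)) => rotw e y.1 y.2)
          (f := fun y : Fin (j + 1) → ℂ => (y 0, N ((y 0)⁻¹ • tl y))) u
          (h.rotw_smooth h0 (by
            intro h0
            have := hN1 ((u 0)⁻¹ • tl u)
            rw [h0, norm_zero] at this
            norm_num at this))
          (hhd.contDiffAt.prodMk (ContDiffAt.comp (g := N) u hNs.contDiffAt hz))
      refine hcomp.congr_of_eventuallyEq ?_
      filter_upwards [ev] with y hy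
      simp only [g', hy, if_false]
  · by_cases h0 : u 0 = 0
    · simp only [g', h0, if_true]
      exact hg.norm _ (htl0 u hu h0)
    · simp only [g', h0, if_false]
      exact h.rotw_norm (hN1 _) _ h0
  · have e0 : (r • u) 0 = (r : ℂ) * u 0 := by simp
    have hr0 : (r : ℂ) ≠ 0 := by rw [Ne, Complex.ofReal_eq_zero]; exact hr.ne'
    have e1 : tl (r • u) = r • tl u := rfl
    by_cases h0 : u 0 = 0
    · have h1 : (r • u) 0 = 0 := by rw [e0, h0, mul_zero]
      simp only [g', h0, h1, if_true, e1]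
      exact hg.homog _ _ hr
    · have h1 : (r • u) 0 ≠ 0 := by rw [e0]; exact mul_ne_zero hr0 h0
      simp only [g', h0, h1, if_false, e1]
      rw [e0, rotw_real _ hr]
      congr 2
      funext i
      simp only [Pi.smul_apply, smul_eq_mul, Complex.real_smul]
      field_simp
  · have e0 : (Complex.exp (t * I) • u) 0 = Complex.exp (t * I) * u 0 := by simp
    have e1 : tl (Complex.exp (t * I) • u) = Complex.exp (t * I) • tl u := rfl
    by_cases h0 : u 0 = 0
    · have h1 : (Complex.exp (t * I) • u) 0 = 0 := by rw [e0, h0, mul_zero]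
      simp only [g', h0, h1, if_true, e1]
      exact hg.equiv _ (htl0 u hu h0) t
    · have h1 : (Complex.exp (t * I) • u) 0 ≠ 0 := by
        rw [e0]; exact mul_ne_zero (Complex.exp_ne_zero _) h0
      simp only [g', h0, h1, if_false, e1]
      have e2 : ((Complex.exp (t * I) • u) 0)⁻¹ • Complex.exp (t * I) • tl u = (u 0)⁻¹ • tl u := by
        rw [e0, smul_smul]
        congr 1
        have := Complex.exp_ne_zero (t * I)
        field_simp
      rw [e2, e0]
      exact h.rotw_mul (hN1 _) _ h0 t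

/-- **JOIN**: equivariant maps from `ℂ^m \ 0` exist for `2m < n + 2` -/
theorem exists_eqM (h : GCF e) {m : ℕ} (hm : 1 ≤ m) (hmn : 2 * m < n + 2) : ∃ g, EqM e m g := by
  induction m, hm using Nat.le_induction with
  | base =>
    have : Nonempty (Fin n) := ⟨⟨0, by omega⟩⟩
    obtain ⟨v, hv⟩ := exists_norm_eq (EuclideanSpace ℝ (Fin n)) (show (0 : ℝ) ≤ 1 by norm_num)
    exact ⟨_, EqM.one h hv⟩
  | succ j hj ih =>
    obtain ⟨g, hg⟩ := ih (by omega)
    exact hg.succ h (by omega)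

end Pool.Agent.Lib.MP_ccbbf6_gt.L4
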