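import Pool.Agent.Lib.MP_ccbbf6_gt.L4.E4
import Pool.Agent.Lib.MP_ccbbf6_gt.L4.EF
import Pool.Agent.Lib.MP_ccbbf6_gt.L4.EJ

/-!
# Level 4, block EUL: the Hopf fibration and the equivariant map as smooth maps of `R^k`
-/

set_option autoImplicit false

open Set Filter Topology MeasureTheory
open scoped TensorProduct ContDiff RealInnerProductSpace
open Complex (I)

noncomputable section

namespace Pool.Agent.Lib.MP_ccbbf6_gt.L4.EUL

open FR Geo

variable {m n : ℕ}

theorem sum_i01 {M : Type*} [AddCommMonoid M] (f : Fin (m * 2) → M) :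
    ∑ i, f i = ∑ j : Fin m, (f (i0 j) + f (i1 j)) := by
  rw [← (finProdFinEquiv (m := m) (n := 2)).sum_comp, Fintype.sum_prod_type]
  refine Finset.sum_congr rfl fun j _ => ?_
  rw [Fin.sum_univ_two]

theorem cases_i01 (i : Fin (m * 2)) : (∃ j, i = i0 j) ∨ ∃ j, i = i1 j := by
  obtain ⟨p, rfl⟩ := (finProdFinEquiv (m := m) (n := 2)).surjective i
  obtain ⟨j, b⟩ := p
  fin_cases b
  · exact Or.inl ⟨j, rfl⟩
  · exact Or.inr ⟨j, rfl⟩

/-- complex coordinates -/
def toC (x : V (m * 2)) : Fin m → ℂ := fun j => ⟨x (i0 j), x (i1 j)⟩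

theorem contDiff_toC : ContDiff ℝ ∞ (toC : V (m * 2) → Fin m → ℂ) := by
  refine contDiff_pi.2 fun j => ?_
  have h : (fun x : V (m * 2) => toC x j) = fun x => Complex.equivRealProdCLM.symm (x (i0 j), x (i1 j)) := by
    funext x
    rfl
  rw [h]
  exact Complex.equivRealProdCLM.symm.contDiff.comp
    ((contDiff_apply ℝ ℝ (i0 j)).prodMk (contDiff_apply ℝ ℝ (i1 j)))

theorem nsq_toC (x : V (m * 2)) : nsq (toC x) = sqn x := by
  unfold nsq sqn
  rw [sum_i01]
  refine Finset.sum_congr rfl fun j _ => ?_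
  rw [Complex.normSq_apply]
  simp only [toC]
  ring

/-- multiplication by `i` -/
def JJ (x : V (m * 2)) : V (m * 2) := fun i =>
  if (finProdFinEquiv.symm i : Fin m × Fin 2).2 = 0 then -x (i1 (finProdFinEquiv.symm i : Fin m × Fin 2).1)
  else x (i0 (finProdFinEquiv.symm i : Fin m × Fin 2).1)

theorem JJ_i0 (x : V (m * 2)) (j : Fin m) : JJ x (i0 j) = -x (i1 j) := by
  unfold JJ
  rw [Equiv.symm_apply_apply]
  simp

theorem JJ_i1 (x : V (m * 2)) (j : Fin m) : JJ x (i1 j) = x (i0 j) := by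
  unfold JJ
  rw [Equiv.symm_apply_apply]
  simp

theorem ext_i01 {x y : V (m * 2)} (h0 : ∀ j, x (i0 j) = y (i0 j)) (h1 : ∀ j, x (i1 j) = y (i1 j)) :
    x = y := by
  funext i
  rcases cases_i01 i with ⟨j, rfl⟩ | ⟨j, rfl⟩
  · exact h0 j
  · exact h1 j

theorem JJ_add (x y : V (m * 2)) : JJ (x + y) = JJ x + JJ y :=
  ext_i01 (fun j => by simp only [Pi.add_apply, JJ_i0]; ring)
    (fun j => by simp only [Pi.add_apply, JJ_i1])

theorem JJ_smul (r : ℝ) (x : V (m * 2)) : JJ (r • x) = r • JJ x :=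
  ext_i01 (fun j => by simp only [Pi.smul_apply, smul_eq_mul, JJ_i0]; ring)
    (fun j => by simp only [Pi.smul_apply, smul_eq_mul, JJ_i1])

theorem JJ_JJ (x : V (m * 2)) : JJ (JJ x) = -x :=
  ext_i01 (fun j => by simp only [Pi.neg_apply, JJ_i0, JJ_i1])
    (fun j => by simp only [Pi.neg_apply, JJ_i0, JJ_i1])

theorem sqn_JJ (x : V (m * 2)) : sqn (JJ x) = sqn x := by
  unfold sqn
  rw [sum_i01, sum_i01]
  refine Finset.sum_congr rfl fun j _ => ?_
  rw [JJ_i0, JJ_i1]
  ring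

theorem sum_x_JJ (x : V (m * 2)) : ∑ i, x i * JJ x i = 0 := by
  rw [sum_i01]
  refine Finset.sum_eq_zero fun j _ => ?_
  rw [JJ_i0, JJ_i1]
  ring

/-- as a linear map of the euclidean space -/
def JE (m : ℕ) : Eu (m * 2) →ₗ[ℝ] Eu (m * 2) where
  toFun v := toE (JJ v.ofLp)
  map_add' v w := by
    rw [WithLp.ofLp_add, JJ_add]
    rfl
  map_smul' r v := by
    rw [WithLp.ofLp_smul, JJ_smul]
    rfl

theorem JE_apply (v : Eu (m * 2)) : JE m v = toE (JJ v.ofLp) := rfl

theorem JE_toE (x : V (m * 2)) : JE m (toE x) = toE (JJ x) := rfl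

theorem norm_JE (v : Eu (m * 2)) : ‖JE m v‖ = ‖v‖ := by
  rw [JE_apply, norm_toE, sqn_JJ, ← norm_toE]
  rfl

theorem JE_JE (v : Eu (m * 2)) : JE m (JE m v) = -v := by
  change toE (JJ (JJ v.ofLp)) = _
  rw [JJ_JJ]
  rfl

/-- the Hopf fibration -/
def estd (m : ℕ) (v : Eu (m * 2)) : Eu (m * 2) := ‖v‖⁻¹ • JE m v

theorem gcf_estd (m : ℕ) : GCF (estd m) := by
  refine ⟨fun v hv => ?_, fun v r hr => ?_, fun v hv => ?_, fun v => ?_, fun v hv θ => ?_⟩
  · unfold estd
    have h1 : ContDiffAt ℝ ∞ (fun v : Eu (m * 2) => ‖v‖⁻¹) v :=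
      (contDiffAt_norm ℝ hv).inv (norm_ne_zero_iff.2 hv)
    have h2 : ContDiffAt ℝ ∞ (fun v : Eu (m * 2) => JE m v) v :=
      (LinearMap.toContinuousLinearMap (JE m)).contDiff.contDiffAt
    exact h1.smul h2
  · unfold estd
    rw [norm_smul, Real.norm_of_nonneg hr.le, map_smul, smul_smul, mul_inv, mul_comm r⁻¹, mul_assoc,
      inv_mul_cancel₀ hr.ne', mul_one]
  · unfold estd
    rw [norm_smul, norm_inv, norm_norm, norm_JE, inv_mul_cancel₀ (norm_ne_zero_iff.2 hv)]
  · unfold estd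
    rw [inner_smul_right]
    have h1 : ⟪v, JE m v⟫ = 0 := by
      have h2 := inner_toE v.ofLp (JE m v)
      have h3 : ∑ i, v.ofLp i * (JE m v) i = 0 := sum_x_JJ v.ofLp
      rw [h3] at h2
      exact h2
    rw [h1, mul_zero]
  · have hv0 : v ≠ 0 := by
      intro h0
      rw [h0, norm_zero] at hv
      norm_num at hv
    have hest : estd m v = JE m v := by
      unfold estd
      rw [hv, inv_one, one_smul]
    rw [hest]
    have h1 : ‖Real.cos θ • v + Real.sin θ • JE m v‖ = 1 := by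
      have h2 : ⟪v, JE m v⟫ = 0 := by
        have h2 := inner_toE v.ofLp (JE m v)
        have h3 : ∑ i, v.ofLp i * (JE m v) i = 0 := sum_x_JJ v.ofLp
        rw [h3] at h2
        exact h2
      have h3 : ‖Real.cos θ • v + Real.sin θ • JE m v‖ ^ 2 = 1 := by
        rw [norm_add_sq_real, norm_smul, norm_smul, inner_smul_left, inner_smul_right, h2, norm_JE, hv]
        simp only [Real.norm_eq_abs, mul_one, sq_abs, mul_zero, add_zero]
        exact Real.cos_sq_add_sin_sq θ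
      have h4 : 0 ≤ ‖Real.cos θ • v + Real.sin θ • JE m v‖ := norm_nonneg _
      nlinarith
    unfold estd
    rw [h1, inv_one, one_smul, map_add, map_smul, map_smul, JE_JE]
    module

theorem XE_estd {x : V (m * 2)} (hx : 0 < sqn x) : XE (estd m) x = JJ x := by
  have hs : Real.sqrt (sqn x) ≠ 0 := (Real.sqrt_pos.2 hx).ne'
  funext i
  change Real.sqrt (sqn x) * (‖toE x‖⁻¹ * JJ x i) = JJ x i
  rw [norm_toE, ← mul_assoc, mul_inv_cancel₀ hs, one_mul]

/-- the vector field is independent of the radial one -/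
theorem XE_ne_smul {e : Eu n → Eu n} (he : GCF e) {x : V n} (hx : 0 < sqn x) (s : ℝ) : XE e x ≠ s • x := by
  intro h
  have h1 := sum_e_sq he hx
  have h2 := sum_x_e he x
  have hs : 0 < Real.sqrt (sqn x) := Real.sqrt_pos.2 hx
  have h3 : ∑ i, XE e x i * e (toE x) i = Real.sqrt (sqn x) * ∑ i, e (toE x) i ^ 2 := by
    rw [Finset.mul_sum]
    refine Finset.sum_congr rfl fun i _ => ?_
    simp only [XE]
    ring
  have h4 : ∑ i, XE e x i * e (toE x) i = s * ∑ i, x i * e (toE x) i := by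
    rw [Finset.mul_sum, h]
    refine Finset.sum_congr rfl fun i _ => ?_
    simp only [Pi.smul_apply, smul_eq_mul]
    ring
  rw [h1] at h3
  rw [h2] at h4
  linarith

theorem toC_smul (r : ℝ) (x : V (m * 2)) : toC (r • x) = r • toC x := by
  funext j
  apply Complex.ext <;> simp [toC]

theorem toC_rot (t : ℝ) (x : V (m * 2)) :
    toC (Real.cos t • x + Real.sin t • JJ x) = Complex.exp (t * I) • toC x := by
  funext j
  apply Complex.ext
  · simp only [toC, Pi.add_apply, Pi.smul_apply, smul_eq_mul, JJ_i0, Complex.mul_re,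
      Complex.exp_ofReal_mul_I_re, Complex.exp_ofReal_mul_I_im]
    ring
  · simp only [toC, Pi.add_apply, Pi.smul_apply, smul_eq_mul, JJ_i1, Complex.mul_im,
      Complex.exp_ofReal_mul_I_re, Complex.exp_ofReal_mul_I_im]

/-- cut-off of the square root -/
theorem contDiff_cut {f : ℝ → ℝ} (hf : ∀ s, 0 < s → ContDiffAt ℝ ∞ f s) :
    ContDiff ℝ ∞ fun s : ℝ => lamc s * f s := by
  rw [contDiff_iff_contDiffAt]
  intro s
  by_cases hs : 0 < s
  · exact contDiff_lamc.contDiffAt.mul (hf s hs)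
  · have h1 : (fun s : ℝ => lamc s * f s) =ᶠ[𝓝 s] fun _ => 0 := by
      have h2 : ∀ᶠ y : ℝ in 𝓝 s, y < 1 / 2 := isOpen_Iio.mem_nhds (show s < 1 / 2 by linarith)
      filter_upwards [h2] with y hy
      rw [lamc_zero hy.le, zero_mul]
    exact contDiffAt_const.congr_of_eventuallyEq h1

theorem contDiff_lamsqrt : ContDiff ℝ ∞ fun s : ℝ => lamc s * Real.sqrt s :=
  contDiff_cut fun _ hs => Real.contDiffAt_sqrt hs.ne'

variable {e : Eu n → Eu n}

/-- the equivariant map, extended by homogeneity -/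
def Gt {g : (Fin m → ℂ) → Eu n} (hg : EqM e m g) : FR.Sm (m * 2) n :=
  ⟨fun x => ((lamc (nsq (toC x)) * Real.sqrt (nsq (toC x))) • g (toC x)).ofLp, by
    have h1 := smooth_cut hg.smooth contDiff_lamsqrt (fun s hs => by rw [lamc_zero hs, zero_mul])
    have h2 : ContDiff ℝ ∞ fun v : Eu n => v.ofLp := (EuclideanSpace.equiv (Fin n) ℝ).contDiff
    exact h2.comp (h1.comp contDiff_toC)⟩

theorem Gt_apply {g : (Fin m → ℂ) → Eu n} (hg : EqM e m g) {x : V (m * 2)} (hx : 1 ≤ sqn x) :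
    Gt hg x = (Real.sqrt (sqn x) • g (toC x)).ofLp := by
  change ((lamc (nsq (toC x)) * Real.sqrt (nsq (toC x))) • g (toC x)).ofLp = _
  rw [nsq_toC, lamc_one hx, one_mul]

theorem toE_Gt {g : (Fin m → ℂ) → Eu n} (hg : EqM e m g) {x : V (m * 2)} (hx : 1 ≤ sqn x) :
    toE (Gt hg x) = Real.sqrt (sqn x) • g (toC x) := by
  rw [Gt_apply hg hx]
  rfl

theorem toC_ne_zero {x : V (m * 2)} (hx : 0 < sqn x) : toC x ≠ 0 := by
  intro h0
  rw [← nsq_toC, h0] at hx
  have : nsq (0 : Fin m → ℂ) = 0 := by unfold nsq; simp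
  linarith

theorem sqn_Gt {g : (Fin m → ℂ) → Eu n} (hg : EqM e m g) {x : V (m * 2)} (hx : 1 ≤ sqn x) :
    sqn (Gt hg x) = sqn x := by
  have h0 : 0 < sqn x := by linarith
  rw [← norm_toE_sq, toE_Gt hg hx, norm_smul, hg.norm _ (toC_ne_zero h0), mul_one, Real.norm_eq_abs, sq_abs,
    Real.sq_sqrt h0.le]

theorem Gt_eul {g : (Fin m → ℂ) → Eu n} (hg : EqM e m g) {x : V (m * 2)} (hx : 1 < sqn x) :
    fderiv ℝ (Gt hg : V (m * 2) → V n) x x = Gt hg x := by
  have h1 : HasDerivAt (fun t : ℝ => Gt hg (t • x)) (fderiv ℝ (Gt hg : V (m * 2) → V n) x x) 1 := by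
    have h2 : HasDerivAt (fun t : ℝ => t • x) x 1 := by
      simpa using (hasDerivAt_id (1 : ℝ)).smul_const x
    have h3 : HasFDerivAt (Gt hg : V (m * 2) → V n) (fderiv ℝ (Gt hg : V (m * 2) → V n) x) ((1 : ℝ) • x) := by
      rw [one_smul]
      exact ((Gt hg).diff x).hasFDerivAt
    exact h3.comp_hasDerivAt 1 h2
  have h4 : (fun t : ℝ => Gt hg (t • x)) =ᶠ[𝓝 1] fun t => t • Gt hg x := by
    have hc : Continuous fun t : ℝ => sqn (t • x) :=
      contDiff_sqn.continuous.comp (continuous_id.smul continuous_const)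
    have h5 : ∀ᶠ t : ℝ in 𝓝 1, 1 < sqn (t • x) :=
      hc.continuousAt.eventually (isOpen_Ioi.mem_nhds (by
        change 1 < sqn ((1 : ℝ) • x)
        rw [one_smul]; exact hx))
    have h6 : ∀ᶠ t : ℝ in 𝓝 1, 0 < t := isOpen_Ioi.mem_nhds (show (0 : ℝ) < 1 from one_pos)
    filter_upwards [h5, h6] with t ht ht0
    rw [Gt_apply hg ht.le, Gt_apply hg hx.le, sqn_smul, Real.sqrt_mul (sq_nonneg t),
      Real.sqrt_sq ht0.le, toC_smul, hg.homog _ _ ht0]
    rw [mul_smul]
    rfl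
  have h5 : HasDerivAt (fun t : ℝ => t • Gt hg x) (Gt hg x) 1 := by
    simpa using (hasDerivAt_id (1 : ℝ)).smul_const (Gt hg x)
  exact (h1.congr_of_eventuallyEq h4.symm).unique h5

theorem Gt_rot (he : GCF e) {g : (Fin m → ℂ) → Eu n} (hg : EqM e m g) {x : V (m * 2)} (hx : 1 < sqn x) :
    fderiv ℝ (Gt hg : V (m * 2) → V n) x (XE (estd m) x) = XE e (Gt hg x) := by
  have hx0 : 0 < sqn x := by linarith
  have hs : 0 < Real.sqrt (sqn x) := Real.sqrt_pos.2 hx0
  have h1 : HasDerivAt (fun t : ℝ => Gt hg (Real.cos t • x + Real.sin t • XE (estd m) x))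
      (fderiv ℝ (Gt hg : V (m * 2) → V n) x (XE (estd m) x)) 0 := by
    have h2 : HasDerivAt (fun t : ℝ => Real.cos t • x + Real.sin t • XE (estd m) x) (XE (estd m) x) 0 := by
      have h3 := ((Real.hasDerivAt_cos 0).smul_const x).add
        ((Real.hasDerivAt_sin 0).smul_const (XE (estd m) x))
      have h4 : (-Real.sin 0) • x + Real.cos 0 • XE (estd m) x = XE (estd m) x := by simp
      rw [h4] at h3
      exact h3
    have h3 : HasFDerivAt (Gt hg : V (m * 2) → V n) (fderiv ℝ (Gt hg : V (m * 2) → V n) x)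
        (Real.cos 0 • x + Real.sin 0 • XE (estd m) x) := by
      rw [Real.cos_zero, Real.sin_zero, one_smul, zero_smul, add_zero]
      exact ((Gt hg).diff x).hasFDerivAt
    exact h3.comp_hasDerivAt 0 h2
  have h4 : (fun t : ℝ => Gt hg (Real.cos t • x + Real.sin t • XE (estd m) x)) = fun t =>
      Real.cos t • (Real.sqrt (sqn x) • g (toC x)).ofLp +
        Real.sin t • (Real.sqrt (sqn x) • e (g (toC x))).ofLp := by
    funext t
    have h5 := sqn_rot (gcf_estd m) hx0 (Real.cos t) (Real.sin t) (Real.cos_sq_add_sin_sq t)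
    rw [Gt_apply hg (by rw [h5]; exact hx.le), h5, XE_estd hx0, toC_rot, hg.equiv _ (toC_ne_zero hx0)]
    funext i
    change Real.sqrt (sqn x) * (Real.cos t * g (toC x) i + Real.sin t * e (g (toC x)) i) =
      Real.cos t * (Real.sqrt (sqn x) * g (toC x) i) + Real.sin t * (Real.sqrt (sqn x) * e (g (toC x)) i)
    ring
  have h5 : HasDerivAt (fun t : ℝ => Real.cos t • (Real.sqrt (sqn x) • g (toC x)).ofLp +
      Real.sin t • (Real.sqrt (sqn x) • e (g (toC x))).ofLp)
      ((Real.sqrt (sqn x) • e (g (toC x))).ofLp) 0 := by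
    have h3 := ((Real.hasDerivAt_cos 0).smul_const ((Real.sqrt (sqn x) • g (toC x)).ofLp)).add
      ((Real.hasDerivAt_sin 0).smul_const ((Real.sqrt (sqn x) • e (g (toC x))).ofLp))
    have h4 : (-Real.sin 0) • (Real.sqrt (sqn x) • g (toC x)).ofLp +
        Real.cos 0 • (Real.sqrt (sqn x) • e (g (toC x))).ofLp =
        (Real.sqrt (sqn x) • e (g (toC x))).ofLp := by simp
    rw [h4] at h3
    exact h3
  rw [h4] at h1
  rw [h1.unique h5]
  funext i
  change Real.sqrt (sqn x) * e (g (toC x)) i = Real.sqrt (sqn (Gt hg x)) * e (toE (Gt hg x)) i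
  rw [sqn_Gt hg hx.le, toE_Gt hg hx.le, he.hom _ _ hs]

end Pool.Agent.Lib.MP_ccbbf6_gt.L4.EUL
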