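import Pool.Agent.Lib.MP_ccbbf6_gt.L4.Deg
import Pool.Agent.Lib.MP_ccbbf6_gt.L4.EG

/-!
# Level 4, block EUL: the integral of the top power of the curvature of a great circle fibration
-/

set_option autoImplicit false

open Set Filter Topology MeasureTheory
open scoped TensorProduct ContDiff RealInnerProductSpace

noncomputable section

namespace Pool.Agent.Lib.MP_ccbbf6_gt.L4.EUL

open FR Geo

variable {m n : ℕ}

/-- the coefficient of the standard form -/
def cstd (s : ℝ) : ℝ := lamc s * (2 * Real.pi * s)⁻¹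

theorem contDiff_cstd : ContDiff ℝ ∞ cstd := by
  refine contDiff_cut fun s hs => ?_
  have : (2 * Real.pi * s) ≠ 0 := by have := Real.pi_pos; positivity
  exact (contDiffAt_const.mul contDiffAt_id).inv this

theorem cstd_eq {s : ℝ} (hs : 1 ≤ s) : cstd s = 1 / (2 * Real.pi * s) := by
  unfold cstd
  rw [lamc_one hs, one_mul, one_div]

theorem contDiff_JJ (i : Fin (m * 2)) : ContDiff ℝ ∞ fun x : V (m * 2) => JJ x i := by
  rcases cases_i01 i with ⟨j, rfl⟩ | ⟨j, rfl⟩
  · simp only [JJ_i0]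
    exact (contDiff_apply ℝ ℝ (i1 j)).neg
  · simp only [JJ_i1]
    exact contDiff_apply ℝ ℝ (i0 j)

/-- the coefficients of the standard form -/
def astd (m : ℕ) (i : Fin (m * 2)) : Cs (m * 2) :=
  mkC (fun x => cstd (sqn x) * JJ x i) ((contDiff_cstd.comp contDiff_sqn).mul (contDiff_JJ i))

theorem astd_apply (i : Fin (m * 2)) (x : V (m * 2)) :
    (astd m i : V (m * 2) → ℝ) x = cstd (sqn x) * JJ x i := rfl

theorem flat_std (m : ℕ) : Flat (XE (estd m)) (1 / (2 * Real.pi)) 1 (one (astd m)) := by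
  refine flat_e (gcf_estd m) zero_le_one fun x hx i => ?_
  have hx0 : 0 < sqn x := by linarith
  have hs : 0 < Real.sqrt (sqn x) := Real.sqrt_pos.2 hx0
  have h7 := Real.sq_sqrt hx0.le
  rw [astd_apply, cstd_eq hx.le]
  change _ = (‖toE x‖⁻¹ * JJ x i) / _
  rw [norm_toE]
  have h8 : 2 * Real.pi * sqn x = 2 * Real.pi * Real.sqrt (sqn x) ^ 2 := by rw [h7]
  rw [h8]
  have := Real.pi_pos
  field_simp

variable {e : Eu n → Eu n}

theorem tendsto_Gt {g : (Fin m → ℂ) → Eu n} (hg : EqM e m g) :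
    Tendsto (Gt hg : V (m * 2) → V n) (cocompact _) (cocompact _) := by
  intro s hs
  obtain ⟨K, hK, hKs⟩ := mem_cocompact.1 hs
  obtain ⟨C, hC⟩ := hK.exists_bound_of_continuousOn (contDiff_sqn (k := n)).continuous.continuousOn
  refine mem_cocompact.2 ⟨{x | sqn x ≤ max C 1}, isCompact_sqn_le _, fun x hx => ?_⟩
  have hx' : max C 1 < sqn x := not_le.1 hx
  refine hKs fun hxK => ?_
  have h1 := hC _ hxK
  rw [sqn_Gt hg ((le_max_right C 1).trans hx'.le)] at h1
  have h2 := le_max_left C 1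
  have h3 := Real.le_norm_self (sqn x)
  linarith

/-- the standard value -/
theorem std_integral (hm : 1 ≤ m) :
    ∫ x, (tp (m * 2) ((dd (m * 2) (one (astd m))) ^ m) : V (m * 2) → ℝ) x = 1 := by
  refine std_value_one contDiff_cstd hm one_pos (fun s hs => cstd_eq hs) (fun j x => ?_) (fun j x => ?_)
  · rw [astd_apply, JJ_i1]
  · rw [astd_apply, JJ_i0]
    ring

/-- the integral of the pullback -/
theorem pull_integral (he : GCF e) (hm : 1 ≤ m) {g : (Fin m → ℂ) → Eu n} (hg : EqM e m g)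
    {b : Fin n → Cs n} {R : ℝ} (hR : 0 ≤ R)
    (hb : ∀ x, R < sqn x → ∀ i, (b i : V n → ℝ) x = e (toE x) i / (2 * Real.pi * Real.sqrt (sqn x))) :
    ∫ x, (tp (m * 2) (FR.pb (Gt hg) ((dd n (one b)) ^ m)) : V (m * 2) → ℝ) x = 1 := by
  have h1 : Flat (XE (estd m)) (1 / (2 * Real.pi)) (max R 1) (FR.pb (Gt hg) (one b)) := by
    refine (flat_e he hR hb).pb (fun x hx => ?_) (fun x hx => ?_) (fun x hx => ?_)
    · have h1 : 1 < sqn x := (le_max_right R 1).trans_lt hx
      rw [sqn_Gt hg h1.le]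
      exact (le_max_left R 1).trans_lt hx
    · exact Gt_eul hg ((le_max_right R 1).trans_lt hx)
    · exact Gt_rot he hg ((le_max_right R 1).trans_lt hx)
  have h2 : Flat (XE (estd m)) (1 / (2 * Real.pi)) (max R 1) (one (astd m)) :=
    (flat_std m).mono (le_max_right R 1)
  have h3 := h1.compare h2 (hR.trans (le_max_left R 1))
    (fun x hx s => XE_ne_smul (gcf_estd m) (lt_of_lt_of_le one_pos
      ((le_max_right R 1).trans hx.le)) s) m
  rw [pb_dd, ← map_pow] at h3
  rw [h3]
  exact std_integral hm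

/-- **the integral of the top power of the curvature of a great circle fibration** -/
theorem euler_integral (he : GCF e) (hn : 1 ≤ n) {b : Fin n → Cs n}
    {R : ℝ} (hR : 0 ≤ R)
    (hb : ∀ x, R < sqn x → ∀ i, (b i : V n → ℝ) x = e (toE x) i / (2 * Real.pi * Real.sqrt (sqn x))) :
    ∃ m, n = m * 2 ∧ ∃ k : ℤ, k * ∫ x, (tp n ((dd n (one b)) ^ m) : V n → ℝ) x = 1 := by
  rcases Nat.even_or_odd' n with ⟨m, hm | hm⟩
  · have hm' : n = m * 2 := by omega
    refine ⟨m, hm', ?_⟩
    subst hm'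
    obtain ⟨g, hg⟩ := exists_eqM he (m := m) (by omega) (by omega)
    obtain ⟨k, hk⟩ := DEG.deg_int' (Gt hg) (Gt hg).smooth (tendsto_Gt hg)
    refine ⟨k, ?_⟩
    have h1 := pull_integral he (show 1 ≤ m by omega) hg hR hb
    simp only [tp_pb] at h1
    have h2 := hk _ (Cs_smooth (tp (m * 2) ((dd (m * 2) (one b)) ^ m)))
      ((flat_e he hR hb).hasCompactSupport hR m)
    rw [← h2, ← h1]
    refine integral_congr_ae (Eventually.of_forall fun x => ?_)
    exact mul_comm _ _
  · exfalso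
    obtain ⟨g, hg⟩ := exists_eqM he (m := m + 1) (by omega) (by omega)
    have h1 := pull_integral he (show 1 ≤ m + 1 by omega) hg hR hb
    simp only [tp_pb_eq_zero (Gt hg) (show n < (m + 1) * 2 by omega)] at h1
    rw [integral_zero] at h1
    norm_num at h1

end Pool.Agent.Lib.MP_ccbbf6_gt.L4.EUL
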