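import Pool.Agent.Lib.MP_ccbbf6_gt.L4.E5
import Pool.Agent.Lib.MP_ccbbf6_gt.L4.Eps

/-!
# Level 4, block EUL: the Euler number of a great circle fibration is a unit of `ℤ` up to inversion
-/

set_option autoImplicit false

open Set Filter Topology MeasureTheory
open scoped TensorProduct ContDiff RealInnerProductSpace

noncomputable section

namespace Pool.Agent.Lib.MP_ccbbf6_gt.L4

open FR Geo

variable {n : ℕ} {e : Eu n → Eu n}

theorem BB_one (he : GCF e) : BB e = EUL.one fun i => mkC (bco e i) (contDiff_bco he i) := BB_eq he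

theorem bco_far (_he : GCF e) {x : V n} (hx : 4 < EUL.sqn x) (i : Fin n) :
    bco e i x = e (EUL.toE x) i / (2 * Real.pi * Real.sqrt (EUL.sqn x)) := by
  have h0 : ‖toE x‖ = Real.sqrt (EUL.sqn x) := EUL.norm_toE x
  have h1 : 2 ≤ ‖toE x‖ := by
    rw [h0]
    exact Real.le_sqrt_of_sq_le (by norm_num; exact hx.le)
  unfold bco
  rw [chi_one h1, h0, div_mul_eq_mul_div, one_mul]
  rfl

/-- the form `BB e` is flat at infinity -/
theorem flat_BB (he : GCF e) : EUL.Flat (EUL.XE e) (1 / (2 * Real.pi)) 4 (BB e) := by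
  rw [BB_one he]
  exact EUL.flat_e he (by norm_num) fun x hx i => bco_far he hx i

theorem eul' (he : GCF e) (hn : 1 ≤ n) : ∃ m, n = m * 2 ∧ ∃ k : ℤ, k * eps m e = 1 := by
  obtain ⟨m, hm, k, hk⟩ := EUL.euler_integral he hn (b := fun i => mkC (bco e i) (contDiff_bco he i)) (R := 4)
    (by norm_num) fun x hx i => bco_far he hx i
  refine ⟨m, hm, k, ?_⟩
  rw [← BB_one he] at hk
  rw [← hk]
  unfold eps
  congr 2
  funext x
  exact (tp_apply _ _).symm

/-- a great circle fibration lives in an even dimension -/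
theorem eul_even (he : GCF e) : Even n := by
  rcases Nat.eq_zero_or_pos n with h | h
  · rw [h]
    exact Even.zero
  · obtain ⟨m, hm, _⟩ := eul' he h
    exact ⟨m, by omega⟩

/-- **the Euler number**: `1 / eps` is an integer -/
theorem eul {m : ℕ} (hm : 1 ≤ m) (hn : n = 2 * m) (he : GCF e) : ∃ k : ℤ, k * eps m e = 1 := by
  obtain ⟨m', hm', k, hk⟩ := eul' he (by omega)
  obtain rfl : m = m' := by omega
  exact ⟨k, hk⟩

end Pool.Agent.Lib.MP_ccbbf6_gt.L4
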