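import Pool.Agent.Lib.MP_ccbbf6_gt.L4.FRc

/-!
# Level 4, block EUL: basic lemmas on one-forms of `R^k`
-/

set_option autoImplicit false

open Set Filter Topology MeasureTheory
open scoped TensorProduct ContDiff

noncomputable section

namespace Pool.Agent.Lib.MP_ccbbf6_gt.L4.EUL

open FR

variable {k l : ℕ}

/-- the square of the euclidean norm -/
def sqn (x : V k) : ℝ := ∑ i, x i ^ 2

theorem contDiff_sqn : ContDiff ℝ ∞ fun x : V k => sqn x := by
  unfold sqn
  exact ContDiff.sum fun i _ => (contDiff_apply ℝ ℝ i).pow 2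

theorem sqn_nonneg (x : V k) : 0 ≤ sqn x := Finset.sum_nonneg fun _ _ => sq_nonneg _

theorem sqn_zero : sqn (0 : V k) = 0 := by simp [sqn]

theorem sqn_smul (r : ℝ) (x : V k) : sqn (r • x) = r ^ 2 * sqn x := by
  unfold sqn
  rw [Finset.mul_sum]
  exact Finset.sum_congr rfl fun i _ => by rw [Pi.smul_apply, smul_eq_mul, mul_pow]

theorem ne_zero_of_sqn {x : V k} (h : 0 < sqn x) : x ≠ 0 := by
  intro h0
  rw [h0, sqn_zero] at h
  exact lt_irrefl _ h

/-- the linear form on covectors given by a vector -/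
def phi (u : V k) : V k →ₗ[ℝ] ℝ where
  toFun v := ∑ i, u i * v i
  map_add' v w := by
    rw [← Finset.sum_add_distrib]
    exact Finset.sum_congr rfl fun i _ => by rw [Pi.add_apply, mul_add]
  map_smul' r v := by
    rw [RingHom.id_apply, smul_eq_mul, Finset.mul_sum]
    exact Finset.sum_congr rfl fun i _ => by rw [Pi.smul_apply, smul_eq_mul]; ring

theorem phi_apply (u v : V k) : phi u v = ∑ i, u i * v i := rfl

theorem phi_single (u : V k) (i : Fin k) : phi u (Pi.single i 1) = u i := by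
  rw [phi_apply, Finset.sum_eq_single i]
  · rw [Pi.single_eq_same, mul_one]
  · intro j _ hj
    rw [Pi.single_eq_of_ne hj, mul_zero]
  · intro h
    exact absurd (Finset.mem_univ i) h

theorem phi_ne_zero {u : V k} (h : u ≠ 0) : phi u ≠ 0 := by
  intro h0
  apply h
  funext i
  rw [← phi_single u i, h0]
  rfl

theorem phi_add (u v : V k) : phi (u + v) = phi u + phi v := by
  ext i
  simp [phi_single]

theorem phi_smul (r : ℝ) (u : V k) : phi (r • u) = r • phi u := by
  ext i
  simp [phi_single]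

/-- a vector is the sum of its coordinates -/
theorem vec_eq (u : V k) : u = ∑ j, u j • (Pi.single j (1 : ℝ) : V k) := by
  ext a
  simp [Finset.sum_apply, Pi.single_apply]

/-- the value of `df` on a vector -/
theorem phi_grad (f : Cs k) (x u : V k) :
    phi u (fun j => (pd j f : V k → ℝ) x) = fderiv ℝ (f : V k → ℝ) x u := by
  conv_rhs => rw [vec_eq u]
  rw [phi_apply, map_sum]
  refine Finset.sum_congr rfl fun i _ => ?_
  rw [map_smul, smul_eq_mul, pd_apply]

/-! ### Contractions -/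

theorem ctr_ι (φ : V k →ₗ[ℝ] ℝ) (v : V k) :
    ctr φ (ExteriorAlgebra.ι ℝ v) = algebraMap ℝ (Ex k) (φ v) := by
  have h := ctr_ι_mul φ v 1
  rw [mul_one, ctr_one, mul_zero, sub_zero] at h
  rw [h, Algebra.algebraMap_eq_smul_one]

theorem ctr_add (φ ψ : V k →ₗ[ℝ] ℝ) (a : Ex k) : ctr (φ + ψ) a = ctr φ a + ctr ψ a :=
  LinearMap.congr_fun ((CliffordAlgebra.contractLeft (Q := (0 : QuadraticForm ℝ (V k)))).map_add φ ψ) a

theorem ctr_smul (c : ℝ) (φ : V k →ₗ[ℝ] ℝ) (a : Ex k) : ctr (c • φ) a = c • ctr φ a :=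
  LinearMap.congr_fun ((CliffordAlgebra.contractLeft (Q := (0 : QuadraticForm ℝ (V k)))).map_smul c φ) a

theorem ctr_mul_eq_zero {φ : V k →ₗ[ℝ] ℝ} {a b : Ex k} (ha : ctr φ a = 0) (hb : ctr φ b = 0) :
    ctr φ (a * b) = 0 := by
  rw [ctr_mul, ha, hb, zero_mul, mul_zero, add_zero]

theorem ctr_pow_eq_zero {φ : V k →ₗ[ℝ] ℝ} {a : Ex k} (ha : ctr φ a = 0) (r : ℕ) :
    ctr φ (a ^ r) = 0 := by
  induction r with
  | zero => rw [pow_zero, ctr_one]
  | succ r ih => rw [pow_succ]; exact ctr_mul_eq_zero ih ha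

/-! ### Even elements are central -/

theorem ι2_central (v w : V k) (a : Ex k) :
    ExteriorAlgebra.ι ℝ v * ExteriorAlgebra.ι ℝ w * a =
      a * (ExteriorAlgebra.ι ℝ v * ExteriorAlgebra.ι ℝ w) := by
  rw [mul_assoc, ι_swap w a, ← mul_assoc, ι_swap v, ivo_ivo, mul_assoc]

theorem dx2_central (i j : Fin k) (x : Fm k) : dx i * dx j * x = x * (dx i * dx j) := by
  have h1 : dx i * dx j = tm (1 : Cs k) (ee i * ee j) := by
    rw [dx, dx, cf_apply, cf_apply, tm_mul, one_mul]
  rw [h1]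
  induction x using Fm_tind with
  | hf f a =>
    rw [tm_mul, tm_mul, one_mul, mul_one]
    unfold ee
    rw [ι2_central]
  | ha x y hx hy => rw [mul_add, add_mul, hx, hy]

/-- the one-form with given coefficients -/
def one (a : Fin k → Cs k) : Fm k := ∑ i, fc k (a i) * dx i

theorem dd_one' (a : Fin k → Cs k) :
    dd k (one a) = ∑ i, ∑ j, fc k (pd j (a i)) * (dx j * dx i) := by
  unfold one
  rw [map_sum]
  refine Finset.sum_congr rfl fun i _ => ?_
  rw [dd_mul, dd_dx, mul_zero, add_zero, dd_fc, Finset.sum_mul]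
  exact Finset.sum_congr rfl fun j _ => mul_assoc _ _ _

/-- the differential of a one-form is central -/
theorem dd_one_central (a : Fin k → Cs k) (x : Fm k) : dd k (one a) * x = x * dd k (one a) := by
  rw [dd_one', Finset.sum_mul, Finset.mul_sum]
  refine Finset.sum_congr rfl fun i _ => ?_
  rw [Finset.sum_mul, Finset.mul_sum]
  refine Finset.sum_congr rfl fun j _ => ?_
  rw [mul_assoc, dx2_central, ← mul_assoc, fc_comm, mul_assoc]

theorem sg_one (a : Fin k → Cs k) : sg k (one a) = -one a := by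
  unfold one
  rw [map_sum, ← Finset.sum_neg_distrib]
  refine Finset.sum_congr rfl fun i _ => ?_
  rw [map_mul, sg_fc, sg_dx, mul_neg]

theorem sg_dd_one (a : Fin k → Cs k) : sg k (dd k (one a)) = dd k (one a) := by
  rw [sg_dd, sg_one, map_neg, neg_neg]

theorem one_sub (a b : Fin k → Cs k) : one a - one b = one (fun i => a i - b i) := by
  unfold one
  rw [← Finset.sum_sub_distrib]
  refine Finset.sum_congr rfl fun i _ => ?_
  rw [map_sub, sub_mul]

/-! ### Values -/

theorem ev_one (a : Fin k → Cs k) (x : V k) :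
    ev x (one a) = ExteriorAlgebra.ι ℝ (fun i => (a i : V k → ℝ) x) := by
  unfold one
  rw [map_sum, ι_eq]
  refine Finset.sum_congr rfl fun i _ => ?_
  rw [map_mul, ev_fc, dx, ev_cf, Algebra.smul_def]

theorem ev_dd_one (a : Fin k → Cs k) (x : V k) :
    ev x (dd k (one a)) =
      ∑ i, ExteriorAlgebra.ι ℝ (fun j => (pd j (a i) : V k → ℝ) x) * ee i := by
  unfold one
  rw [map_sum, map_sum]
  refine Finset.sum_congr rfl fun i _ => ?_
  rw [dd_mul, dd_dx, mul_zero, add_zero, map_mul, ev_dd_fc, dx, ev_cf]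

/-- contraction of the value of a one-form -/
theorem ctr_ev_one (a : Fin k → Cs k) (x u : V k) :
    ctr (phi u) (ev x (one a)) = algebraMap ℝ (Ex k) (∑ i, u i * (a i : V k → ℝ) x) := by
  rw [ev_one, ctr_ι, phi_apply]

/-- contraction of the value of the differential of a one-form -/
theorem ctr_ev_dd_one (a : Fin k → Cs k) (x u : V k) :
    ctr (phi u) (ev x (dd k (one a))) = ExteriorAlgebra.ι ℝ (fun j =>
      fderiv ℝ (a j : V k → ℝ) x u - ∑ i, u i * (pd j (a i) : V k → ℝ) x) := by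
  rw [ev_dd_one, map_sum]
  have h1 : ∀ i, ctr (phi u) (ExteriorAlgebra.ι ℝ (fun j => (pd j (a i) : V k → ℝ) x) * ee i) =
      (fderiv ℝ (a i : V k → ℝ) x u) • ee i -
        u i • ExteriorAlgebra.ι ℝ (fun j => (pd j (a i) : V k → ℝ) x) := by
    intro i
    rw [ctr_ι_mul, phi_grad]
    unfold ee
    rw [ctr_ι, phi_single, ← Algebra.commutes, ← Algebra.smul_def]
  simp only [h1]
  rw [Finset.sum_sub_distrib]
  have h2 : ∑ i, u i • ExteriorAlgebra.ι ℝ (fun j => (pd j (a i) : V k → ℝ) x) =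
      ExteriorAlgebra.ι ℝ (fun j => ∑ i, u i * (pd j (a i) : V k → ℝ) x) := by
    rw [← Finset.sum_congr rfl (fun i _ => map_smul (ExteriorAlgebra.ι ℝ) (u i) _), ← map_sum]
    congr 1
    funext j
    rw [Finset.sum_apply]
    rfl
  rw [h2, ι_eq (fun j => fderiv ℝ (a j : V k → ℝ) x u - _), ι_eq (fun j => ∑ i, u i * _),
    ← Finset.sum_sub_distrib]
  refine Finset.sum_congr rfl fun i _ => ?_
  rw [sub_smul]

end Pool.Agent.Lib.MP_ccbbf6_gt.L4.EUL
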