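import Pool.Agent.Lib.MP_ccbbf6_gt.L4.EB
import Pool.Agent.Lib.MP_ccbbf6_gt.L4.FRt

/-!
# Level 4, block EUL: forms which are flat at infinity; comparison of integrals; pullback
-/

set_option autoImplicit false

open Set Filter Topology MeasureTheory
open scoped TensorProduct ContDiff

noncomputable section

namespace Pool.Agent.Lib.MP_ccbbf6_gt.L4.EUL

open FR

variable {k l : ℕ}

/-- a one-form which is a connection form (for the vector field `X` and the Euler field) near infinity -/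
structure Flat (X : V k → V k) (c R : ℝ) (B : Fm k) : Prop where
  deg : ∃ a : Fin k → Cs k, B = one a
  eul : ∀ x, R < sqn x → ctr (phi x) (ev x B) = 0
  eul' : ∀ x, R < sqn x → ctr (phi x) (ev x (dd k B)) = 0
  rot : ∀ x, R < sqn x → ctr (phi (X x)) (ev x B) = algebraMap ℝ (Ex k) c
  rot' : ∀ x, R < sqn x → ctr (phi (X x)) (ev x (dd k B)) = 0

theorem Flat.mono {X : V k → V k} {c R R' : ℝ} {B : Fm k} (h : Flat X c R B) (hR : R ≤ R') :
    Flat X c R' B :=
  ⟨h.deg, fun x hx => h.eul x (hR.trans_lt hx), fun x hx => h.eul' x (hR.trans_lt hx),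
    fun x hx => h.rot x (hR.trans_lt hx), fun x hx => h.rot' x (hR.trans_lt hx)⟩

theorem norm_sq_le_sqn (x : V k) : ‖x‖ ^ 2 ≤ sqn x := by
  have h0 := sqn_nonneg x
  have h1 : ‖x‖ ≤ Real.sqrt (sqn x) := by
    refine (pi_norm_le_iff_of_nonneg (Real.sqrt_nonneg _)).2 fun i => ?_
    rw [Real.norm_eq_abs]
    refine Real.abs_le_sqrt ?_
    exact Finset.single_le_sum (f := fun i => x i ^ 2) (fun _ _ => sq_nonneg _) (Finset.mem_univ i)
  have h2 := Real.sq_sqrt h0
  nlinarith [norm_nonneg x, Real.sqrt_nonneg (sqn x)]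

theorem isCompact_sqn_le (R : ℝ) : IsCompact {x : V k | sqn x ≤ R} := by
  refine Metric.isCompact_of_isClosed_isBounded
    (isClosed_le contDiff_sqn.continuous continuous_const) ?_
  refine (Metric.isBounded_iff_subset_closedBall 0).2 ⟨Real.sqrt R, fun x hx => ?_⟩
  rw [mem_closedBall_zero_iff]
  refine Real.le_sqrt_of_sq_le ?_
  exact (norm_sq_le_sqn x).trans hx

/-- the integral of a form whose top coefficient has compact support -/
theorem integral_tp_dd_eq_zero {ξ : Fm k} {K : Set (V k)} (hK : IsCompact K)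
    (h : ∀ x ∉ K, ∀ i, topE k (ee i * ev x ξ) = 0) :
    ∫ x, (tp k (dd k ξ) : V k → ℝ) x = 0 := by
  set c : Fin k → Cs k := fun i => cof ((topE k).comp (LinearMap.mulLeft ℝ (ee i))) ξ with hc
  have hc0 : ∀ i, ∀ x ∉ K, (c i : V k → ℝ) x = 0 := by
    intro i x hx
    rw [hc, cof_apply]
    exact h x hx i
  have hcs : ∀ i, HasCompactSupport (c i : V k → ℝ) := fun i => HasCompactSupport.intro hK (hc0 i)
  have h1 : ∀ x, (tp k (dd k ξ) : V k → ℝ) x = ∑ i, fderiv ℝ (c i : V k → ℝ) x (Pi.single i 1) := by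
    intro x
    rw [tp_dd, AddSubmonoidClass.coe_finsetSum, Finset.sum_apply]
    rfl
  simp only [h1]
  have h0 : ∀ i, ContDiff ℝ 1 (c i : V k → ℝ) := fun i => (Cs_smooth (c i)).of_le ENat.LEInfty.out
  rw [integral_finsetSum]
  · exact Finset.sum_eq_zero fun i _ => integral_pd_eq_zero (h0 i) (hcs i) _
  · intro i _
    have h2 : Continuous fun x => fderiv ℝ (c i : V k → ℝ) x (Pi.single i 1) :=
      ((h0 i).continuous_fderiv one_ne_zero).clm_apply continuous_const
    exact h2.integrable_of_hasCompactSupport ((hcs i).fderiv_apply ℝ _)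

theorem dd_pow_eq_zero {a : Fm k} (ha : dd k a = 0) (r : ℕ) : dd k (a ^ r) = 0 := by
  induction r with
  | zero => rw [pow_zero, dd_one]
  | succ r ih => rw [pow_succ, dd_mul, ih, ha, zero_mul, mul_zero, add_zero]

/-- the top power has compact support -/
theorem Flat.tp_eq_zero {X : V k → V k} {c R : ℝ} {B : Fm k} (h : Flat X c R B) (hR : 0 ≤ R) {r : ℕ}
    {x : V k} (hx : R < sqn x) : (tp k ((dd k B) ^ r) : V k → ℝ) x = 0 := by
  rw [tp_apply, map_pow]
  exact topE_eq_zero_of_ctr (phi_ne_zero (ne_zero_of_sqn (hR.trans_lt hx)))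
    (ctr_pow_eq_zero (h.eul' x hx) r)

theorem Flat.hasCompactSupport {X : V k → V k} {c R : ℝ} {B : Fm k} (h : Flat X c R B) (hR : 0 ≤ R)
    (r : ℕ) : HasCompactSupport (tp k ((dd k B) ^ r) : V k → ℝ) := by
  refine HasCompactSupport.intro (isCompact_sqn_le R) fun x hx => h.tp_eq_zero hR ?_
  exact not_le.1 hx

/-- **comparison** -/
theorem Flat.compare {X : V k → V k} {c R : ℝ} {B B' : Fm k} (h : Flat X c R B) (h' : Flat X c R B')
    (hR : 0 ≤ R) (hX : ∀ x, R < sqn x → ∀ s : ℝ, X x ≠ s • x) (m : ℕ) :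
    ∫ x, (tp k ((dd k B) ^ m) : V k → ℝ) x = ∫ x, (tp k ((dd k B') ^ m) : V k → ℝ) x := by
  obtain ⟨a, ha⟩ := h.deg
  obtain ⟨a', ha'⟩ := h'.deg
  have hcomm : Commute (dd k B) (dd k B') := by
    rw [ha]
    exact dd_one_central a _
  set S : Fm k := ∑ i ∈ Finset.range m, (dd k B) ^ i * (dd k B') ^ (m - 1 - i) with hS
  have hgeom : (dd k B - dd k B') * S = (dd k B) ^ m - (dd k B') ^ m := hcomm.mul_geom_sum₂ m
  have hdS : dd k S = 0 := by
    rw [hS, map_sum]
    refine Finset.sum_eq_zero fun i _ => ?_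
    rw [dd_mul, dd_pow_eq_zero (dd_dd B), dd_pow_eq_zero (dd_dd B'), zero_mul, mul_zero, add_zero]
  have hdξ : dd k ((B - B') * S) = (dd k B) ^ m - (dd k B') ^ m := by
    rw [dd_mul, hdS, mul_zero, add_zero, map_sub, hgeom]
  have hz : ∫ x, (tp k (dd k ((B - B') * S)) : V k → ℝ) x = 0 := by
    refine integral_tp_dd_eq_zero (isCompact_sqn_le R) fun x hx i => ?_
    have hx' : R < sqn x := not_le.1 hx
    -- a combination of the two vector fields with vanishing `i`-th coordinate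
    obtain ⟨α, β, hu0, hui⟩ : ∃ α β : ℝ, α • x + β • X x ≠ 0 ∧ (α • x + β • X x) i = 0 := by
      by_cases hxi : x i = 0
      · refine ⟨1, 0, ?_, by simp [hxi]⟩
        rw [one_smul, zero_smul, add_zero]
        exact ne_zero_of_sqn (hR.trans_lt hx')
      · refine ⟨-(X x i / x i), 1, fun h0 => ?_, ?_⟩
        · apply hX x hx' (X x i / x i)
          rw [one_smul, neg_smul, neg_add_eq_zero] at h0
          exact h0.symm
        · simp only [Pi.add_apply, Pi.smul_apply, smul_eq_mul, one_mul]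
          field_simp
          ring
    set u : V k := α • x + β • X x with hu
    have hφ : ∀ y : Ex k, ctr (phi x) y = 0 → ctr (phi (X x)) y = 0 → ctr (phi u) y = 0 := by
      intro y h1 h2
      rw [hu, phi_add, phi_smul, phi_smul, ctr_add, ctr_smul, ctr_smul, h1, h2, smul_zero, smul_zero,
        add_zero]
    have hb : ctr (phi u) (ev x (B - B')) = 0 := by
      refine hφ _ ?_ ?_
      · rw [map_sub, map_sub, h.eul x hx', h'.eul x hx', sub_zero]
      · rw [map_sub, map_sub, h.rot x hx', h'.rot x hx', sub_self]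
    have hd : ctr (phi u) (ev x (dd k B)) = 0 := hφ _ (h.eul' x hx') (h.rot' x hx')
    have hd' : ctr (phi u) (ev x (dd k B')) = 0 := hφ _ (h'.eul' x hx') (h'.rot' x hx')
    have hSx : ctr (phi u) (ev x S) = 0 := by
      rw [hS, map_sum, map_sum]
      refine Finset.sum_eq_zero fun j _ => ?_
      rw [map_mul, map_pow, map_pow]
      exact ctr_mul_eq_zero (ctr_pow_eq_zero hd _) (ctr_pow_eq_zero hd' _)
    refine topE_eq_zero_of_ctr (phi_ne_zero hu0) ?_
    have h1 : ctr (phi u) (ev x ((B - B') * S)) = 0 := by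
      rw [map_mul]
      exact ctr_mul_eq_zero hb hSx
    unfold ee
    rw [ctr_ι_mul, h1, mul_zero, sub_zero, phi_single, hui, zero_smul]
  have hi : ∀ {B : Fm k}, Flat X c R B → Integrable (tp k ((dd k B) ^ m) : V k → ℝ) := fun hB =>
    (Cs_smooth _).continuous.integrable_of_hasCompactSupport (hB.hasCompactSupport hR m)
  rw [hdξ, map_sub] at hz
  have h2 : ∫ x, (tp k ((dd k B) ^ m) : V k → ℝ) x - (tp k ((dd k B') ^ m) : V k → ℝ) x = 0 := hz
  rw [integral_sub (hi h) (hi h')] at h2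
  linarith

/-! ### Pullback -/

theorem phi_tr (g : Sm k l) (x u : V k) : (phi u).comp (tr g x) = phi (fderiv ℝ (g : V k → V l) x u) := by
  ext j
  change phi u (tr g x (Pi.single j 1)) = phi (fderiv ℝ (g : V k → V l) x u) (Pi.single j 1)
  rw [phi_single]
  have h1 : tr g x (Pi.single j 1) = fun i => (pd i (g.cp j) : V k → ℝ) x := by
    funext i
    change ∑ j', (Pi.single j (1 : ℝ) : V l) j' * (pd i (g.cp j') : V k → ℝ) x = _
    rw [Finset.sum_eq_single j]
    · rw [Pi.single_eq_same, one_mul]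
    · intro b _ hb
      rw [Pi.single_eq_of_ne hb, zero_mul]
    · intro h
      exact absurd (Finset.mem_univ j) h
  rw [h1, phi_grad]
  change fderiv ℝ (fun y => g y j) x u = _
  rw [(hasFDerivAt_pi'.1 (g.diff x).hasFDerivAt j).fderiv]
  rfl

theorem ctr_ev_pb (g : Sm k l) (x u : V k) (θ : Fm l) :
    ctr (phi u) (ev x (pb g θ)) =
      ExteriorAlgebra.map (tr g x) (ctr (phi (fderiv ℝ (g : V k → V l) x u)) (ev (g x) θ)) := by
  rw [ev_pb, ctr_map, phi_tr]

theorem pb_one (g : Sm k l) (a : Fin l → Cs l) :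
    pb g (one a) = one fun i => ∑ j, g.pull (a j) * pd i (g.cp j) := by
  unfold one
  rw [map_sum]
  simp only [map_mul, pb_fc, pb_dx, dd_fc, map_sum, Finset.mul_sum, Finset.sum_mul]
  rw [Finset.sum_comm]
  refine Finset.sum_congr rfl fun i _ => Finset.sum_congr rfl fun j _ => ?_
  rw [mul_assoc]

/-- **naturality** -/
theorem Flat.pb {g : Sm k l} {X : V k → V k} {Y : V l → V l} {c R R' : ℝ} {B : Fm l}
    (h : Flat Y c R B) (hR : ∀ x, R' < sqn x → R < sqn (g x))
    (hE : ∀ x, R' < sqn x → fderiv ℝ (g : V k → V l) x x = g x)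
    (hX : ∀ x, R' < sqn x → fderiv ℝ (g : V k → V l) x (X x) = Y (g x)) :
    Flat X c R' (FR.pb g B) := by
  refine ⟨?_, fun x hx => ?_, fun x hx => ?_, fun x hx => ?_, fun x hx => ?_⟩
  · obtain ⟨a, ha⟩ := h.deg
    rw [ha, pb_one]
    exact ⟨_, rfl⟩
  · rw [ctr_ev_pb, hE x hx, h.eul _ (hR x hx), map_zero]
  · rw [pb_dd, ctr_ev_pb, hE x hx, h.eul' _ (hR x hx), map_zero]
  · rw [ctr_ev_pb, hX x hx, h.rot _ (hR x hx), AlgHom.commutes]
  · rw [pb_dd, ctr_ev_pb, hX x hx, h.rot' _ (hR x hx), map_zero]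

/-- forms pulled back from a space of lower dimension have no top coefficient -/
theorem tp_pb_eq_zero (g : Sm k l) (hkl : l < k) (θ : Fm l) (x : V k) :
    (tp k (FR.pb g θ) : V k → ℝ) x = 0 := by
  obtain ⟨u, hu, hu0⟩ : ∃ u : V k, fderiv ℝ (g : V k → V l) x u = 0 ∧ u ≠ 0 := by
    by_contra hcon
    push Not at hcon
    have hinj : Function.Injective (fderiv ℝ (g : V k → V l) x : V k →ₗ[ℝ] V l) := by
      rw [← LinearMap.ker_eq_bot, LinearMap.ker_eq_bot']
      exact fun u hu => hcon u hu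
    have := LinearMap.finrank_le_finrank_of_injective hinj
    rw [Module.finrank_fin_fun, Module.finrank_fin_fun] at this
    omega
  rw [tp_apply]
  refine topE_eq_zero_of_ctr (phi_ne_zero hu0) ?_
  rw [ctr_ev_pb, hu]
  have h0 : phi (0 : V l) = 0 := by ext i; simp [phi_single]
  have h1 : ctr (0 : V l →ₗ[ℝ] ℝ) (ev (g x) θ) = 0 := by
    have := ctr_smul 0 (0 : V l →ₗ[ℝ] ℝ) (ev (g x) θ)
    rwa [zero_smul, zero_smul] at this
  rw [h0, h1, map_zero]

end Pool.Agent.Lib.MP_ccbbf6_gt.L4.EUL
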