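import Pool.Agent.Lib.MP_ccbbf6_gt.Cls.PolA
import Pool.Agent.Lib.MP_ccbbf6_gt.L4.OMs

/-!
# EvA: the projections onto the subspaces `PV p v` depend smoothly on `v` (helper67)
-/

set_option autoImplicit false

open Set Filter Topology Metric Real
open scoped ContDiff RealInnerProductSpace

noncomputable section

namespace Pool.Agent.Lib.MP_ccbbf6_gt.L4.EV

section abs

variable {E : Type*} [NormedAddCommGroup E] [InnerProductSpace ℝ E] [FiniteDimensional ℝ E]
  {F : Type*} [NormedAddCommGroup F] [NormedSpace ℝ F]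

/-- The orthogonal projection onto the range of `C`, where `C` vanishes on the orthogonal complement of `K` and is injective
on `K`. -/
theorem proj_formula (K W : Submodule ℝ E) (hd : Module.finrank ℝ W = Module.finrank ℝ K) (C D : E →L[ℝ] E)
    (hC : ∀ x, C x ∈ W) (hCK : C * K.starProjection = C)
    (hD : D * (star C * C + (1 - K.starProjection)) = 1) :
    W.starProjection = C * D * star C := by
  have hPP : K.starProjection * K.starProjection = K.starProjection := K.isIdempotentElem_starProjection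
  have h1 : C * (1 - K.starProjection) = 0 := by rw [mul_sub, mul_one, hCK, sub_self]
  have h2 : (star C * C + (1 - K.starProjection)) * (1 - K.starProjection) = 1 - K.starProjection := by
    rw [add_mul, mul_assoc, h1, mul_zero, zero_add, mul_sub, mul_one, sub_mul, one_mul, hPP, sub_self, sub_zero]
  have h3 : D * (1 - K.starProjection) = 1 - K.starProjection := by
    nth_rewrite 1 [← h2]
    rw [← mul_assoc, hD, one_mul]
  have h4 : C * D * star C * C = C := by
    have h5 : C * D * star C * C = C * (D * (star C * C + (1 - K.starProjection))) - C * (D * (1 - K.starProjection)) := by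
      noncomm_ring
    rw [h5, hD, h3, h1, mul_one, sub_zero]
  have hinj : Function.Injective ((C : E →ₗ[ℝ] E).domRestrict K) := by
    rw [← LinearMap.ker_eq_bot, LinearMap.ker_eq_bot']
    intro x hx
    have hx' : C (x : E) = 0 := hx
    have h6 : (D * (star C * C + (1 - K.starProjection))) (x : E) = x := by rw [hD]; rfl
    have h7 : (star C * C + (1 - K.starProjection)) (x : E) = 0 := by
      change star C (C (x : E)) + ((x : E) - K.starProjection (x : E)) = 0
      rw [hx', map_zero, K.starProjection_eq_self_iff.2 x.2, sub_self, add_zero]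
    rw [mul_apply_eq_comp, h7, map_zero] at h6
    exact Subtype.ext h6.symm
  have hrange : K.map (C : E →ₗ[ℝ] E) = W := by
    apply Submodule.eq_of_le_of_finrank_eq
    · rintro _ ⟨x, -, rfl⟩
      exact hC x
    · rw [hd, ← LinearMap.range_domRestrict, LinearMap.finrank_range_of_inj hinj]
  ext x
  have h8 : x = W.starProjection x + (x - W.starProjection x) := by abel
  have hz : star C (x - W.starProjection x) = 0 := by
    refine ext_inner_right ℝ fun y => ?_
    rw [ContinuousLinearMap.star_eq_adjoint, ContinuousLinearMap.adjoint_inner_left, inner_zero_left]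
    exact W.starProjection_inner_eq_zero x _ (hC y)
  have hw : (C * D * star C) (W.starProjection x) = W.starProjection x := by
    have h9 : W.starProjection x ∈ K.map (C : E →ₗ[ℝ] E) := by
      rw [hrange]
      exact W.starProjection_apply_mem x
    obtain ⟨y, -, hy⟩ := h9
    have hy' : C y = W.starProjection x := hy
    rw [← hy']
    change (C * D * star C * C) y = C y
    rw [h4]
  nth_rewrite 2 [h8]
  rw [map_add, hw, mul_apply_eq_comp, hz, map_zero, add_zero]

/-- A family of subspaces of constant dimension with smooth local sections has a smooth projection. -/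
theorem contDiffAt_proj (V : F → Submodule ℝ E) {k : ℕ} {x₀ : F} (hk : ∀ᶠ x in 𝓝 x₀, Module.finrank ℝ (V x) = k)
    (hs : ∀ a ∈ V x₀, ∃ s : F → E, ContDiffAt ℝ ∞ s x₀ ∧ s x₀ = a ∧ ∀ᶠ x in 𝓝 x₀, s x ∈ V x) :
    ContDiffAt ℝ ∞ (fun x => (V x).starProjection) x₀ := by
  obtain ⟨P, hP⟩ : ∃ P, P = (V x₀).starProjection := ⟨_, rfl⟩
  obtain ⟨b, hb⟩ : ∃ b : OrthonormalBasis (Fin (Module.finrank ℝ (V x₀))) ℝ (V x₀), b = stdOrthonormalBasis ℝ (V x₀) :=
    ⟨_, rfl⟩
  choose s hs1 hs2 hs3 using fun i => hs (b i : E) (b i).2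
  let C : F → (E →L[ℝ] E) := fun x => ∑ i, ContinuousLinearMap.smulRightL ℝ E E (innerSL ℝ (b i : E)) (s i x)
  have hCx : ∀ x y, C x y = ∑ i, ⟪(b i : E), y⟫ • s i x := by
    intro x y
    simp only [C, FunLike.coe_sum, Finset.sum_apply]
    rfl
  have hC : ContDiffAt ℝ ∞ C x₀ := by
    refine ContDiffAt.sum fun i _ => ?_
    exact (ContinuousLinearMap.contDiff _).contDiffAt.comp x₀ (hs1 i)
  have hPx : ∀ y, P y = ∑ i, ⟪(b i : E), y⟫ • (b i : E) := by
    intro y
    rw [hP, b.starProjection_eq_sum_rankOne]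
    simp only [FunLike.coe_sum, Finset.sum_apply]
    rfl
  have hC0 : C x₀ = P := by
    ext y
    rw [hCx, hPx]
    simp only [hs2]
  have hCP : ∀ x, C x * P = C x := by
    intro x
    ext y
    rw [mul_apply_eq_comp, hCx, hCx]
    refine Finset.sum_congr rfl fun i _ => ?_
    rw [hP, ← Submodule.inner_starProjection_left_eq_right, Submodule.starProjection_eq_self_iff.2 (b i).2]
  have hPP : P * P = P := by rw [hP]; exact (V x₀).isIdempotentElem_starProjection
  have hPs : star P = P := by rw [hP]; exact isSelfAdjoint_starProjection (V x₀)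
  let G : F → (E →L[ℝ] E) := fun x => star (C x) * C x + (1 - P)
  have hstar : ContDiffAt ℝ ∞ (fun x => star (C x)) x₀ :=
    ((starL' ℝ : (E →L[ℝ] E) ≃L[ℝ] (E →L[ℝ] E)) : (E →L[ℝ] E) →L[ℝ] (E →L[ℝ] E)).contDiff.contDiffAt.comp x₀ hC
  have hG : ContDiffAt ℝ ∞ G x₀ := (hstar.mul hC).add contDiffAt_const
  have hG0 : G x₀ = 1 := by
    simp only [G, hC0, hPs, hPP]
    abel
  have hD : ContDiffAt ℝ ∞ (fun x => Ring.inverse (G x)) x₀ := by
    have h1 : ContDiffAt ℝ ∞ (Ring.inverse : (E →L[ℝ] E) → (E →L[ℝ] E)) (G x₀) := by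
      rw [hG0]
      exact contDiffAt_ringInverse ℝ (1 : (E →L[ℝ] E)ˣ)
    exact h1.comp x₀ hG
  have hU : ∀ᶠ x in 𝓝 x₀, IsUnit (G x) := by
    refine hG.continuousAt.eventually ?_
    rw [hG0]
    exact Units.isOpen.mem_nhds isUnit_one
  refine ((hC.mul hD).mul hstar).congr_of_eventuallyEq ?_
  filter_upwards [hk, hU, Filter.eventually_all.2 hs3] with x h1 h2 h3
  refine proj_formula (V x₀) (V x) (h1.trans hk.self_of_nhds.symm) (C x) _ (fun y => ?_) ?_ ?_
  · rw [hCx]
    exact Submodule.sum_mem _ fun i _ => Submodule.smul_mem _ _ (h3 i)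
  · rw [← hP]
    exact hCP x
  · rw [← hP]
    exact Ring.inverse_mul_cancel _ h2

end abs

end Pool.Agent.Lib.MP_ccbbf6_gt.L4.EV

namespace Pool.Agent.Lib.MP_ccbbf6_gt.Geo

open L4.EV

variable {n : ℕ} {M : Type*} [MetricSpace M] [CompactSpace M] (𝒜 : SDist n M)

/-- smooth sections of `PV` -/
theorem exists_section_PV (hB : Bl M) {κ : ℕ} (hk : 𝒜.HK κ) (p : M) {v : Eu n} (hv : v ≠ 0) {a : Eu n}
    (ha : a ∈ 𝒜.PV p v) : ∃ s : Eu n → Eu n, ContDiffAt ℝ ∞ s v ∧ s v = a ∧ ∀ᶠ x in 𝓝 v, s x ∈ 𝒜.PV p x := by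
  rcases eq_or_ne a 0 with rfl | ha0
  · exact ⟨fun _ => 0, contDiffAt_const, rfl, Eventually.of_forall fun x => Submodule.zero_mem _⟩
  obtain ⟨q, hq⟩ : ∃ q, q = 𝒜.Ex p (rad π v) := ⟨_, rfl⟩
  have hd : dist p q = π := by
    rw [hq, dist_comm]
    exact dist_rad 𝒜 hB p hv
  have hV : 𝒜.Lam p q = {w | w ∈ 𝒜.PV p v ∧ ‖w‖ = 1} := by
    rw [hq]
    exact PV_spec 𝒜 hB p hv
  obtain ⟨s, h1, h2, h3⟩ := L4.exists_section 𝒜 hB hk hd hV (finrank_PV 𝒜 hB hk p hv) ha ha0
  have hsrc : 𝒜.Ex p (rad π v) ∈ (𝒜.ψ q).source := by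
    rw [← hq]
    exact 𝒜.mem q
  have hX : ContDiffAt ℝ ∞ (𝒜.X p q π) v := contDiffAt_X 𝒜 hB p q π hv hsrc
  have hX0 : 𝒜.X p q π v = 0 := by
    unfold SDist.X
    rw [← hq, 𝒜.zero]
  refine ⟨fun x => s (𝒜.X p q π x), ?_, ?_, ?_⟩
  · refine ContDiffAt.comp v ?_ hX
    rw [hX0]
    exact h1
  · change s (𝒜.X p q π v) = a
    rw [hX0, h2]
  · have h4 : Tendsto (𝒜.X p q π) (𝓝 v) (𝓝 0) := by
      have := hX.continuousAt.tendsto
      rwa [hX0] at this
    have h5 : ∀ᶠ x in 𝓝 v, 𝒜.Ex p (rad π x) ∈ (𝒜.ψ q).source :=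
      (continuousAt_Exrad 𝒜 hB p π hv).preimage_mem_nhds ((𝒜.ψ q).open_source.mem_nhds hsrc)
    filter_upwards [h4.eventually h3, h5, isOpen_ne.mem_nhds hv] with x hx hxs hx0
    obtain ⟨hx1, hx2⟩ := hx
    have h6 : (𝒜.ψ q).symm (𝒜.X p q π x) = 𝒜.Ex p (rad π x) := by
      unfold SDist.X
      exact (𝒜.ψ q).left_inv hxs
    rw [mem_PV_iff 𝒜 hB p hx0 hx1, hx2, h6]
    unfold L4.cutp
    rw [if_pos]
    rw [dist_comm]
    exact dist_rad 𝒜 hB p hx0

/-- **The projection onto `PV p v` is a smooth function of `v`.** -/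
theorem contDiffAt_PV (hB : Bl M) {κ : ℕ} (hk : 𝒜.HK κ) (p : M) {v : Eu n} (hv : v ≠ 0) :
    ContDiffAt ℝ ∞ (fun v => (𝒜.PV p v).starProjection) v :=
  contDiffAt_proj (𝒜.PV p) (k := κ + 1)
    (by filter_upwards [isOpen_ne.mem_nhds hv] with x hx using finrank_PV 𝒜 hB hk p hx)
    fun a ha => exists_section_PV 𝒜 hB hk p hv ha

end Pool.Agent.Lib.MP_ccbbf6_gt.Geo
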