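import Pool.Agent.Lib.MP_ccbbf6_gt.L4.Deg

/-!
# EvB: the degree of homogeneous maps `E → E`, smooth and nonzero away from zero (helper67)
-/

set_option autoImplicit false

open Set Filter Topology Metric MeasureTheory
open scoped ContDiff RealInnerProductSpace

noncomputable section

namespace Pool.Agent.Lib.MP_ccbbf6_gt.L4.EV

variable {E : Type*} [NormedAddCommGroup E] [InnerProductSpace ℝ E]

/-- positively homogeneous of degree one, smooth and nonzero away from zero -/
structure Hg (f : E → E) : Prop where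
  smooth : ∀ x, x ≠ 0 → ContDiffAt ℝ ∞ f x
  ne : ∀ x, x ≠ 0 → f x ≠ 0
  hom : ∀ r : ℝ, 0 < r → ∀ x, f (r • x) = r • f x

/-- the segments from `f x` to `g x` avoid zero -/
def Near (f g : E → E) : Prop := ∀ x, x ≠ 0 → ∀ s ∈ Icc (0 : ℝ) 1, (1 - s) • f x + s • g x ≠ 0

/-- a smooth radial function: `0` near `0`, `1` for `1 ≤ ‖x‖` -/
def ro (x : E) : ℝ := Real.smoothTransition (2 * ‖x‖ ^ 2 - 1)

theorem ro_one {x : E} (h : 1 ≤ ‖x‖) : ro x = 1 := Real.smoothTransition.one_of_one_le (by nlinarith)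

theorem ro_nonneg (x : E) : 0 ≤ ro x := Real.smoothTransition.nonneg _

theorem ro_le_one (x : E) : ro x ≤ 1 := Real.smoothTransition.le_one _

theorem contDiff_ro : ContDiff ℝ ∞ (ro : E → ℝ) :=
  Real.smoothTransition.contDiff.comp ((contDiff_const.mul (contDiff_norm_sq ℝ)).sub contDiff_const)

theorem ro_zero_nhds : ∀ᶠ x in 𝓝 (0 : E), ro x = 0 := by
  have h : ∀ᶠ x in 𝓝 (0 : E), ‖x‖ < 1 / 2 := by
    have := (continuous_norm (E := E)).tendsto 0
    rw [norm_zero] at this
    exact this.eventually (gt_mem_nhds (by norm_num))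
  filter_upwards [h] with x hx
  exact Real.smoothTransition.zero_of_nonpos (by nlinarith [norm_nonneg x])

/-- the cut-off map -/
def cut (f : E → E) (x : E) : E := ro x • f x

theorem Hg.contDiff_cut {f : E → E} (hf : Hg f) : ContDiff ℝ ∞ (cut f) := by
  rw [contDiff_iff_contDiffAt]
  intro x
  rcases eq_or_ne x 0 with rfl | hx
  · refine (contDiffAt_const (c := (0 : E))).congr_of_eventuallyEq ?_
    filter_upwards [ro_zero_nhds (E := E)] with x hx
    rw [cut, hx, zero_smul]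
  · exact contDiff_ro.contDiffAt.smul (hf.smooth x hx)

theorem Hg.norm_ge [FiniteDimensional ℝ E] [Nontrivial E] {f g : E → E} (hf : Hg f) (hg : Hg g) (h : Near f g) :
    ∃ c : ℝ, 0 < c ∧ ∀ x, 1 ≤ ‖x‖ → ∀ s ∈ Icc (0 : ℝ) 1, c * ‖x‖ ≤ ‖(1 - s) • cut f x + s • cut g x‖ := by
  have hK : IsCompact (sphere (0 : E) 1 ×ˢ Icc (0 : ℝ) 1) := (isCompact_sphere _ _).prod isCompact_Icc
  have hne : (sphere (0 : E) 1 ×ˢ Icc (0 : ℝ) 1).Nonempty :=
    (NormedSpace.sphere_nonempty.2 zero_le_one).prod ⟨0, by simp⟩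
  have h0 : ∀ x ∈ sphere (0 : E) 1, x ≠ 0 := by
    intro x hx h0
    rw [h0, mem_sphere, dist_self] at hx
    exact zero_ne_one hx
  have hcf : ContinuousOn f (sphere (0 : E) 1) := fun x hx => ((hf.smooth x (h0 x hx)).continuousAt).continuousWithinAt
  have hcg : ContinuousOn g (sphere (0 : E) 1) := fun x hx => ((hg.smooth x (h0 x hx)).continuousAt).continuousWithinAt
  have hcont : ContinuousOn (fun z : E × ℝ => ‖(1 - z.2) • f z.1 + z.2 • g z.1‖) (sphere (0 : E) 1 ×ˢ Icc (0 : ℝ) 1) := by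
    have e1 : ContinuousOn (fun z : E × ℝ => f z.1) (sphere (0 : E) 1 ×ˢ Icc (0 : ℝ) 1) :=
      hcf.comp continuousOn_fst fun z hz => hz.1
    have e2 : ContinuousOn (fun z : E × ℝ => g z.1) (sphere (0 : E) 1 ×ˢ Icc (0 : ℝ) 1) :=
      hcg.comp continuousOn_fst fun z hz => hz.1
    exact (((continuousOn_const.sub continuousOn_snd).smul e1).add (continuousOn_snd.smul e2)).norm
  obtain ⟨z, hz, hmin⟩ := hK.exists_isMinOn hne hcont
  refine ⟨_, norm_pos_iff.2 (h z.1 (h0 _ hz.1) z.2 hz.2), fun x hx s hs => ?_⟩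
  have hx0 : 0 < ‖x‖ := by linarith
  obtain ⟨u, hu⟩ : ∃ u, u = ‖x‖⁻¹ • x := ⟨_, rfl⟩
  have hxu : x = ‖x‖ • u := by rw [hu, smul_smul, mul_inv_cancel₀ hx0.ne', one_smul]
  have hun : ‖u‖ = 1 := by rw [hu, norm_smul, norm_inv, norm_norm, inv_mul_cancel₀ hx0.ne']
  have h1 := hmin (show (u, s) ∈ sphere (0 : E) 1 ×ˢ Icc (0 : ℝ) 1 from ⟨by simpa using hun, hs⟩)
  have h2 : (1 - s) • cut f x + s • cut g x = ‖x‖ • ((1 - s) • f u + s • g u) := by
    unfold cut
    rw [ro_one hx, one_smul, one_smul]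
    have e1 : f x = ‖x‖ • f u := by rw [← hf.hom _ hx0, ← hxu]
    have e2 : g x = ‖x‖ • g u := by rw [← hg.hom _ hx0, ← hxu]
    rw [e1, e2]
    module
  rw [h2, norm_smul, norm_norm, mul_comm]
  exact mul_le_mul_of_nonneg_left h1 hx0.le

section measure

variable [FiniteDimensional ℝ E] [MeasurableSpace E] [BorelSpace E] (μ : Measure E) [μ.IsAddHaarMeasure]

/-- the degree of `F` is `k` -/
def HasDeg (F : E → E) (k : ℤ) : Prop := ∀ g : E → ℝ, ContDiff ℝ ∞ g → HasCompactSupport g →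
  ∫ x, g (F x) * (fderiv ℝ F x).det ∂μ = k * ∫ y, g y ∂μ

theorem HasDeg.unique {F : E → E} {k k' : ℤ} (h : HasDeg μ F k) (h' : HasDeg μ F k') : k = k' := by
  let b : ContDiffBump (0 : E) := ⟨1, 2, one_pos, one_lt_two⟩
  have h1 := h b b.contDiff b.hasCompactSupport
  have h2 := h' b b.contDiff b.hasCompactSupport
  have h3 : 0 < ∫ y, b y ∂μ := b.integral_pos
  rw [h1] at h2
  exact_mod_cast mul_right_cancel₀ h3.ne' h2

theorem exists_hasDeg {F : E → E} (hF : ContDiff ℝ ∞ F) {c : ℝ} (hc : 0 < c) (h : ∀ x, 1 ≤ ‖x‖ → c * ‖x‖ ≤ ‖F x‖) :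
    ∃ k, HasDeg μ F k := by
  refine DEG.deg_int_proper μ hF (isProperMap_iff_tendsto_cocompact.2 ⟨hF.continuous, ?_⟩)
  rw [← Metric.cobounded_eq_cocompact, ← comap_norm_atTop, tendsto_comap_iff]
  have h1 : Tendsto (fun x : E => ‖x‖) (comap norm atTop) atTop := tendsto_comap
  refine tendsto_atTop_mono' _ ?_ (h1.const_mul_atTop hc)
  filter_upwards [h1.eventually (eventually_ge_atTop 1)] with x hx
  exact h x hx

theorem hasDeg_segment {F₀ F₁ : E → E} (h₀ : ContDiff ℝ ∞ F₀) (h₁ : ContDiff ℝ ∞ F₁) {c : ℝ} (hc : 0 < c)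
    (h : ∀ x, 1 ≤ ‖x‖ → ∀ s ∈ Icc (0 : ℝ) 1, c * ‖x‖ ≤ ‖(1 - s) • F₀ x + s • F₁ x‖) {k₀ k₁ : ℤ}
    (hk₀ : HasDeg μ F₀ k₀) (hk₁ : HasDeg μ F₁ k₁) : k₀ = k₁ := by
  let b : ContDiffBump (0 : E) := ⟨1, 2, one_pos, one_lt_two⟩
  have hbpos : 0 < ∫ y, b y ∂μ := b.integral_pos
  let F : ℝ → E → E := fun s x => (1 - s) • F₀ x + s • F₁ x
  have hFs : ∀ s, ContDiff ℝ ∞ (F s) := fun s => (contDiff_const.smul h₀).add (contDiff_const.smul h₁)
  have hdF : ∀ s x, fderiv ℝ (F s) x = (1 - s) • fderiv ℝ F₀ x + s • fderiv ℝ F₁ x := by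
    intro s x
    have d0 : HasFDerivAt F₀ (fderiv ℝ F₀ x) x := (h₀.differentiable (by simp) x).hasFDerivAt
    have d1 : HasFDerivAt F₁ (fderiv ℝ F₁ x) x := (h₁.differentiable (by simp) x).hasFDerivAt
    exact ((d0.const_smul (1 - s)).add (d1.const_smul s)).fderiv
  let I : ℝ → ℝ := fun s => ∫ x, b (F s x) * (fderiv ℝ (F s) x).det ∂μ
  have hI : ContinuousOn I (Icc 0 1) := by
    refine continuousOn_integral_of_compact_support (isCompact_closedBall (0 : E) (max 1 (2 / c)))
      (Continuous.continuousOn ?_) ?_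
    · have e1 : Continuous fun z : ℝ × E => F z.1 z.2 :=
        ((continuous_const.sub continuous_fst).smul (h₀.continuous.comp continuous_snd)).add
          (continuous_fst.smul (h₁.continuous.comp continuous_snd))
      have e2 : Continuous fun z : ℝ × E => (fderiv ℝ (F z.1) z.2).det := by
        simp only [hdF]
        exact DEG.continuous_det.comp (((continuous_const.sub continuous_fst).smul
          ((h₀.continuous_fderiv (by simp)).comp continuous_snd)).add
          (continuous_fst.smul ((h₁.continuous_fderiv (by simp)).comp continuous_snd)))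
      exact (b.continuous.comp e1).mul e2
    · intro s x hs hx
      rw [mem_closedBall, dist_zero_right, not_le, max_lt_iff] at hx
      have h2 : 2 < ‖F s x‖ := by
        refine lt_of_lt_of_le ?_ (h x hx.1.le s hs)
        have := hx.2
        rwa [div_lt_iff₀ hc, mul_comm] at this
      have h3 : b (F s x) = 0 := b.zero_of_le_dist (by rw [dist_zero_right]; exact h2.le)
      rw [h3, zero_mul]
  have hdeg : ∀ s ∈ Icc (0 : ℝ) 1, ∃ k : ℤ, I s = k * ∫ y, b y ∂μ := by
    intro s hs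
    obtain ⟨k, hk⟩ := exists_hasDeg μ (hFs s) hc fun x hx => h x hx s hs
    exact ⟨k, hk b b.contDiff b.hasCompactSupport⟩
  have hF0 : F 0 = F₀ := by
    funext x
    simp [F]
  have hF1 : F 1 = F₁ := by
    funext x
    simp [F]
  have hI0 : I 0 = k₀ * ∫ y, b y ∂μ := by
    have := hk₀ b b.contDiff b.hasCompactSupport
    simp only [I, hF0]
    exact this
  have hI1 : I 1 = k₁ * ∫ y, b y ∂μ := by
    have := hk₁ b b.contDiff b.hasCompactSupport
    simp only [I, hF1]
    exact this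
  rcases lt_trichotomy k₀ k₁ with hlt | heq | hlt
  · exfalso
    have h4 : ((k₀ : ℝ) + 1 / 2) * ∫ y, b y ∂μ ∈ Icc (I 0) (I 1) := by
      rw [hI0, hI1]
      have : (k₀ : ℝ) + 1 ≤ k₁ := by exact_mod_cast hlt
      constructor <;> nlinarith
    obtain ⟨s, hs, hsI⟩ := intermediate_value_Icc zero_le_one hI h4
    obtain ⟨k, hk⟩ := hdeg s hs
    rw [hk] at hsI
    have h5 := mul_right_cancel₀ hbpos.ne' hsI
    have h6 : (2 * k : ℝ) = 2 * k₀ + 1 := by linarith
    have h7 : 2 * k = 2 * k₀ + 1 := by exact_mod_cast h6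
    omega
  · exact heq
  · exfalso
    have h4 : ((k₁ : ℝ) + 1 / 2) * ∫ y, b y ∂μ ∈ Icc (I 1) (I 0) := by
      rw [hI0, hI1]
      have : (k₁ : ℝ) + 1 ≤ k₀ := by exact_mod_cast hlt
      constructor <;> nlinarith
    obtain ⟨s, hs, hsI⟩ := intermediate_value_Icc' zero_le_one hI h4
    obtain ⟨k, hk⟩ := hdeg s hs
    rw [hk] at hsI
    have h5 := mul_right_cancel₀ hbpos.ne' hsI
    have h6 : (2 * k : ℝ) = 2 * k₁ + 1 := by linarith
    have h7 : 2 * k = 2 * k₁ + 1 := by exact_mod_cast h6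
    omega

theorem det_neg' (A : E →L[ℝ] E) : (-A).det = (-1) ^ Module.finrank ℝ E * A.det := by
  have h1 : ((-A : E →L[ℝ] E) : E →ₗ[ℝ] E) = (-1 : ℝ) • (A : E →ₗ[ℝ] E) := by
    ext x
    simp
  unfold ContinuousLinearMap.det
  rw [h1, LinearMap.det_smul]

theorem HasDeg.neg {F : E → E} {k : ℤ} (h : HasDeg μ F k) : HasDeg μ (fun x => -F x) ((-1) ^ Module.finrank ℝ E * k) := by
  intro g hg hgc
  have hg' : ContDiff ℝ ∞ fun y => g (-y) := hg.comp contDiff_neg
  have hgc' : HasCompactSupport fun y => g (-y) := hgc.comp_homeomorph (Homeomorph.neg E)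
  have h1 := h _ hg' hgc'
  have h2 : ∀ x, g (-F x) * (fderiv ℝ (fun x => -F x) x).det =
      (-1) ^ Module.finrank ℝ E * (g (-F x) * (fderiv ℝ F x).det) := by
    intro x
    rw [fderiv_fun_neg, det_neg']
    ring
  simp_rw [h2]
  rw [integral_const_mul, h1, integral_neg_eq_self (fun y => g y) μ]
  push_cast
  ring

theorem hasDeg_id [Nontrivial E] {k : ℤ} (h : HasDeg μ (cut fun x : E => x) k) : k = 1 := by
  obtain ⟨c, hc⟩ := exists_norm_eq E (show (0 : ℝ) ≤ 4 by norm_num)
  let b : ContDiffBump (c : E) := ⟨1, 2, one_pos, one_lt_two⟩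
  have h1 := h b b.contDiff b.hasCompactSupport
  have hpos : 0 < ∫ y, b y ∂μ := b.integral_pos
  have h2 : ∀ x : E, b (cut (fun x : E => x) x) * (fderiv ℝ (cut fun x : E => x) x).det = b x := by
    intro x
    rcases le_or_gt ‖x‖ 1 with hx | hx
    · have h3 : ∀ y : E, ‖y‖ ≤ 1 → b y = 0 := by
        intro y hy
        refine b.zero_of_le_dist ?_
        have h4 : dist c 0 ≤ dist y c + dist y 0 := by
          rw [dist_comm y c]
          exact dist_triangle _ _ _
        rw [dist_zero_right, dist_zero_right, hc] at h4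
        change (2 : ℝ) ≤ dist y c
        linarith
      have h5 : ‖cut (fun x : E => x) x‖ ≤ 1 := by
        unfold cut
        rw [norm_smul, Real.norm_of_nonneg (ro_nonneg x)]
        nlinarith [ro_nonneg x, ro_le_one x, norm_nonneg x]
      rw [h3 _ h5, h3 _ hx, zero_mul]
    · have h4 : (cut fun x : E => x) =ᶠ[𝓝 x] fun x => x := by
        filter_upwards [continuous_norm.continuousAt.preimage_mem_nhds (Ioi_mem_nhds hx)] with y hy
        unfold cut
        rw [ro_one (le_of_lt hy), one_smul]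
      rw [h4.fderiv_eq, h4.eq_of_nhds, fderiv_fun_id]
      unfold ContinuousLinearMap.det
      simp
  simp_rw [h2] at h1
  have h3 : (1 : ℝ) * ∫ y, b y ∂μ = k * ∫ y, b y ∂μ := by rw [one_mul]; exact h1
  exact_mod_cast (mul_right_cancel₀ hpos.ne' h3).symm

end measure

/-- **The degree of homogeneous maps.** -/
theorem exists_deg [FiniteDimensional ℝ E] [Nontrivial E] : ∃ d : (E → E) → ℤ,
    (∀ f g, Hg f → Hg g → Near f g → d f = d g) ∧
    (∀ f, Hg f → d (fun x => -f x) = (-1) ^ Module.finrank ℝ E * d f) ∧ d (fun x => x) = 1 := by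
  classical
  borelize E
  let μ : Measure E := Measure.addHaar
  have hself : ∀ f : E → E, Hg f → Near f f := by
    intro f hf x hx s _
    have : (1 - s) • f x + s • f x = f x := by module
    rw [this]
    exact hf.ne x hx
  have hex : ∀ f : E → E, Hg f → ∃ k, HasDeg μ (cut f) k := by
    intro f hf
    obtain ⟨c, hc, h⟩ := hf.norm_ge hf (hself f hf)
    refine exists_hasDeg μ hf.contDiff_cut hc fun x hx => ?_
    have := h x hx 0 (by simp)
    simpa using this
  have hid : Hg fun x : E => x := ⟨fun x _ => contDiffAt_id, fun x hx => hx, fun r _ x => rfl⟩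
  refine ⟨fun f => if h : Hg f then Classical.choose (hex f h) else 0, ?_, ?_, ?_⟩
  · intro f g hf hg hfg
    simp only [dif_pos hf, dif_pos hg]
    obtain ⟨c, hc, h⟩ := hf.norm_ge hg hfg
    exact hasDeg_segment μ hf.contDiff_cut hg.contDiff_cut hc h (Classical.choose_spec (hex f hf))
      (Classical.choose_spec (hex g hg))
  · intro f hf
    have hnf : Hg fun x => -f x := ⟨fun x hx => (hf.smooth x hx).neg, fun x hx => neg_ne_zero.2 (hf.ne x hx),
      fun r hr x => by rw [hf.hom r hr, smul_neg]⟩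
    simp only [dif_pos hf, dif_pos hnf]
    have h1 := Classical.choose_spec (hex _ hnf)
    have h2 := (Classical.choose_spec (hex f hf)).neg
    have h3 : (cut fun x => -f x) = fun x => -cut f x := by
      funext x
      unfold cut
      rw [smul_neg]
    rw [← h3] at h2
    exact h1.unique μ h2
  · simp only [dif_pos hid]
    exact hasDeg_id μ (Classical.choose_spec (hex _ hid))

end Pool.Agent.Lib.MP_ccbbf6_gt.L4.EV
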