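import Pool.Agent.Lib.MP_ccbbf6_gt.L4.FXb
import Pool.Agent.Lib.MP_ccbbf6_gt.L4.Sp

/-!
# Level 4, block FUB, F1: the inverse exponential map and extension by zero
-/

set_option autoImplicit false

open Set Filter Topology Metric Real
open scoped ContDiff RealInnerProductSpace

noncomputable section

namespace Pool.Agent.Lib.MP_ccbbf6_gt.L4.EXT

open Geo FR

section lg

variable {n : ℕ} {M : Type*} [MetricSpace M] [CompactSpace M] (𝒜 : SDist n M)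

/-- the inverse of the exponential map of `p` on the ball of radius `π` -/
def lg (p q : M) : Eu n := -(InnerProductSpace.toDual ℝ (Eu n)).symm (fderiv ℝ (fun u => 𝒜.F p q (u, 0)) 0)

omit [CompactSpace M] in
theorem inner_lg (p q : M) (a : Eu n) : ⟪lg 𝒜 p q, a⟫ = - fderiv ℝ (fun u => 𝒜.F p q (u, 0)) 0 a := by
  rw [lg, inner_neg_left, InnerProductSpace.toDual_symm_apply]

theorem lg_Ex (hB : Bl M) (p : M) {ξ : Eu n} (h : ‖ξ‖ < π) : lg 𝒜 p (𝒜.Ex p ξ) = ξ := by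
  refine ext_inner_right ℝ fun a => ?_
  rw [inner_lg, fderiv_F_Ex 𝒜 hB p h, neg_neg]

theorem norm_lg (hB : Bl M) {p q : M} (h : dist p q < π) : ‖lg 𝒜 p q‖ = dist p q := by
  obtain ⟨ξ, h1, h2⟩ := Ex_surj 𝒜 hB p q
  rw [← h2, lg_Ex 𝒜 hB p (by rw [h1]; exact h), h2, h1]

theorem Ex_lg (hB : Bl M) {p q : M} (h : dist p q < π) : 𝒜.Ex p (lg 𝒜 p q) = q := by
  obtain ⟨ξ, h1, h2⟩ := Ex_surj 𝒜 hB p q
  conv_rhs => rw [← h2]
  rw [← h2, lg_Ex 𝒜 hB p (by rw [h1]; exact h)]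

variable {E : Type*} [NormedAddCommGroup E] [NormedSpace ℝ E]

theorem contDiffAt_lg (hB : Bl M) (p : M) {g : E → M} {u : E} (hg : SmAt 𝒜 g u) (h : dist p (g u) < π) :
    ContDiffAt ℝ ∞ (fun v => lg 𝒜 p (g v)) u := by
  have hG : ContDiffAt ℝ ∞ (𝒜.F p (g u)) (0, 0) := contDiffAt_F 𝒜 hB h
  have hk : ContDiffAt ℝ ∞ (fun v => 𝒜.ψ (g u) (g v)) u := hg.2
  have hk0 : 𝒜.ψ (g u) (g u) = 0 := 𝒜.zero _
  have hz : ContDiffAt ℝ ∞ (fun v => ((0 : Eu n), 𝒜.ψ (g u) (g v))) u := contDiffAt_const.prodMk hk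
  have hz0 : (fun v => ((0 : Eu n), 𝒜.ψ (g u) (g v))) u = (0, 0) := by simp only [hk0]
  have h1 : ∀ᶠ v in 𝓝 u, fderiv ℝ (fun u' => 𝒜.F p (g v) (u', 0)) 0 =
      (fderiv ℝ (𝒜.F p (g u)) (0, 𝒜.ψ (g u) (g v))).comp (ContinuousLinearMap.inl ℝ (Eu n) (Eu n)) := by
    have h2 : ∀ᶠ z in 𝓝 ((0, 0) : Eu n × Eu n), DifferentiableAt ℝ (𝒜.F p (g u)) z := by
      have h3 : ∀ᶠ z in 𝓝 ((0, 0) : Eu n × Eu n), ContDiffAt ℝ 1 (𝒜.F p (g u)) z :=
        (hG.of_le (by exact_mod_cast le_top)).eventually (by simp)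
      exact h3.mono fun z hz => hz.differentiableAt (by simp)
    have h4 := hz.continuousAt
    rw [ContinuousAt, hk0] at h4
    filter_upwards [h4.eventually h2, hg.1.eventually ((𝒜.ψ (g u)).open_source.mem_nhds (𝒜.mem _))] with v hv hv'
    have h5 : (fun u' => 𝒜.F p (g v) (u', 0)) = fun u' => 𝒜.F p (g u) (u', 𝒜.ψ (g u) (g v)) := by
      funext u'
      unfold SDist.F SDist.f
      simp only
      rw [exc_symm_zero, (𝒜.ψ (g u)).left_inv hv']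
    rw [h5]
    exact (HasFDerivAt.comp (g := 𝒜.F p (g u)) (0 : Eu n) hv.hasFDerivAt
      (hasFDerivAt_prodMk_left (0 : Eu n) (𝒜.ψ (g u) (g v)))).fderiv
  have h6 : ContDiffAt ℝ ∞ (fun z => fderiv ℝ (𝒜.F p (g u)) z) (0, 0) := hG.fderiv_right (m := ∞) (by simp)
  rw [← hz0] at h6
  have h7 : ContDiffAt ℝ ∞ (fun v => fderiv ℝ (𝒜.F p (g u)) (0, 𝒜.ψ (g u) (g v))) u :=
    ContDiffAt.comp (g := fun z => fderiv ℝ (𝒜.F p (g u)) z) u h6 hz
  have h8 : ContDiffAt ℝ ∞ (fun v => (fderiv ℝ (𝒜.F p (g u)) (0, 𝒜.ψ (g u) (g v))).comp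
      (ContinuousLinearMap.inl ℝ (Eu n) (Eu n))) u :=
    h7.clm_comp contDiffAt_const
  have h9 : ContDiffAt ℝ ∞ (fun v => fderiv ℝ (fun u' => 𝒜.F p (g v) (u', 0)) 0) u := h8.congr_of_eventuallyEq h1
  exact ((InnerProductSpace.toDual ℝ (Eu n)).symm.contDiff.contDiffAt.comp u h9).neg

omit [CompactSpace M] [NormedSpace ℝ E] in
theorem eventually_dist_lt {p : M} {g : E → M} {u : E} (hg : ContinuousAt g u) {r : ℝ} (h : dist p (g u) < r) :
    ∀ᶠ v in 𝓝 u, dist p (g v) < r :=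
  (continuousAt_const.dist hg).eventually (gt_mem_nhds h)

omit [CompactSpace M] [NormedSpace ℝ E] in
theorem eventually_lt_dist {p : M} {g : E → M} {u : E} (hg : ContinuousAt g u) {r : ℝ} (h : r < dist p (g u)) :
    ∀ᶠ v in 𝓝 u, r < dist p (g v) :=
  (continuousAt_const.dist hg).eventually (lt_mem_nhds h)

theorem contDiffAt_dist_sq (hB : Bl M) (p : M) {g : E → M} {u : E} (hg : SmAt 𝒜 g u) (h : dist p (g u) < π) :
    ContDiffAt ℝ ∞ (fun v => dist p (g v) ^ 2) u := by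
  have h1 : ContDiffAt ℝ ∞ (fun v => ‖lg 𝒜 p (g v)‖ ^ 2) u := (contDiffAt_lg 𝒜 hB p hg h).norm_sq ℝ
  refine h1.congr_of_eventuallyEq ?_
  filter_upwards [eventually_dist_lt hg.1 h] with v hv
  rw [norm_lg 𝒜 hB hv]

/-- a smooth cut-off: `1` for `s ≤ a`, `0` for `b ≤ s` -/
def ct (a b s : ℝ) : ℝ := 1 - Real.smoothTransition ((s - a) / (b - a))

theorem ct_one {a b s : ℝ} (hab : a < b) (h : s ≤ a) : ct a b s = 1 := by
  rw [ct, Real.smoothTransition.zero_of_nonpos (div_nonpos_of_nonpos_of_nonneg (by linarith) (by linarith)), sub_zero]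

theorem ct_zero {a b s : ℝ} (hab : a < b) (h : b ≤ s) : ct a b s = 0 := by
  rw [ct, Real.smoothTransition.one_of_one_le ((one_le_div (by linarith)).2 (by linarith)), sub_self]

theorem contDiff_ct (a b : ℝ) : ContDiff ℝ ∞ (ct a b) :=
  contDiff_const.sub (Real.smoothTransition.contDiff.comp ((contDiff_id.sub contDiff_const).div_const _))

theorem contDiff_cut (hB : Bl M) (p : M) {g : E → M} (hg : Sm 𝒜 g) {a b : ℝ} (ha : 0 ≤ a) (hab : a < b) (hb : b < π) :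
    ContDiff ℝ ∞ (fun v => ct (a ^ 2) (b ^ 2) (dist p (g v) ^ 2)) := by
  rw [contDiff_iff_contDiffAt]
  intro u
  rcases lt_or_ge (dist p (g u)) π with h | h
  · exact (contDiff_ct _ _).contDiffAt.comp u (contDiffAt_dist_sq 𝒜 hB p (hg u) h)
  · have h1 : (fun v => ct (a ^ 2) (b ^ 2) (dist p (g v) ^ 2)) =ᶠ[𝓝 u] fun _ => 0 := by
      filter_upwards [eventually_lt_dist (hg u).1 (lt_of_lt_of_le hb h)] with v hv
      exact ct_zero (by nlinarith) (by nlinarith)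
    exact contDiffAt_const.congr_of_eventuallyEq h1

theorem contDiff_cut_lg (hB : Bl M) (p : M) {g : E → M} (hg : Sm 𝒜 g) {a b : ℝ} (ha : 0 ≤ a) (hab : a < b) (hb : b < π) :
    ContDiff ℝ ∞ (fun v => ct (a ^ 2) (b ^ 2) (dist p (g v) ^ 2) • lg 𝒜 p (g v)) := by
  rw [contDiff_iff_contDiffAt]
  intro u
  rcases lt_or_ge (dist p (g u)) π with h | h
  · exact (contDiff_cut 𝒜 hB p hg ha hab hb).contDiffAt.smul (contDiffAt_lg 𝒜 hB p (hg u) h)
  · have h1 : (fun v => ct (a ^ 2) (b ^ 2) (dist p (g v) ^ 2) • lg 𝒜 p (g v)) =ᶠ[𝓝 u] fun _ => 0 := by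
      filter_upwards [eventually_lt_dist (hg u).1 (lt_of_lt_of_le hb h)] with v hv
      rw [ct_zero (by nlinarith) (by nlinarith), zero_smul]
    exact contDiffAt_const.congr_of_eventuallyEq h1

end lg

/-! ### Extension by zero -/

section ext

variable {n : ℕ} {M : Type} [MetricSpace M] [CompactSpace M] {𝒜 : SDist n M} (hB : Bl M) (p₀ : M) (r₁ : ℝ)

/-- first radius -/
def rr2 (r₁ : ℝ) : ℝ := (2 * r₁ + π) / 3

/-- second radius -/
def rr3 (r₁ : ℝ) : ℝ := (r₁ + 2 * π) / 3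

variable {r₁} in
theorem rr_lt (h1 : r₁ < π) : r₁ < rr2 r₁ ∧ rr2 r₁ < rr3 r₁ ∧ rr3 r₁ < π := by
  unfold rr2 rr3
  refine ⟨?_, ?_, ?_⟩ <;> linarith

variable {k l : ℕ}

/-- the function `q` with `p = Ex q`, cut off -/
def qf (h0 : 0 ≤ r₁) (h1 : r₁ < π) (p : (spM 𝒜).Plot k) : FR.Sm k n :=
  ⟨fun u => WithLp.ofLp (ct (rr2 r₁ ^ 2) (rr3 r₁ ^ 2) (dist p₀ (p.1 u) ^ 2) • lg 𝒜 p₀ (p.1 u)), by
    have h2 := rr_lt h1
    exact (PiLp.continuousLinearEquiv 2 ℝ (fun _ : Fin n => ℝ)).contDiff.comp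
      (contDiff_cut_lg 𝒜 hB p₀ p.2 (a := rr2 r₁) (b := rr3 r₁) (by linarith) h2.2.1 h2.2.2)⟩

/-- the cut-off function on a plot -/
def zf (h0 : 0 ≤ r₁) (h1 : r₁ < π) (p : (spM 𝒜).Plot k) : Cs k :=
  mkC (fun u => ct (r₁ ^ 2) (rr2 r₁ ^ 2) (dist p₀ (p.1 u) ^ 2)) (by
    have h2 := rr_lt h1
    exact contDiff_cut 𝒜 hB p₀ p.2 h0 h2.1 (h2.2.1.trans h2.2.2))

/-- extension by zero -/
def extO (h0 : 0 ≤ r₁) (h1 : r₁ < π) (a : Fm n) : Om (spM 𝒜) :=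
  mkO (fun k p => fc k (zf hB p₀ r₁ h0 h1 p) * pb (qf hB p₀ r₁ h0 h1 p) a) (fun k l p g => by
    rw [map_mul, pb_fc, ← pb_comp]
    rfl)

variable {p₀ r₁} (h0 : 0 ≤ r₁) (h1 : r₁ < π)

theorem on_ext (a : Fm n) (p : (spM 𝒜).Plot k) :
    Om.on (extO hB p₀ r₁ h0 h1 a) p = fc k (zf hB p₀ r₁ h0 h1 p) * pb (qf hB p₀ r₁ h0 h1 p) a := rfl

theorem ev_ext_eq (a : Fm n) (p : (spM 𝒜).Plot k) (u : V k) : ev u (Om.on (extO hB p₀ r₁ h0 h1 a) p) =
    ct (r₁ ^ 2) (rr2 r₁ ^ 2) (dist p₀ (p.1 u) ^ 2) • ExteriorAlgebra.map (tr (qf hB p₀ r₁ h0 h1 p) u)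
      (ev (qf hB p₀ r₁ h0 h1 p u) a) := by
  rw [on_ext, map_mul, ev_fc, ev_pb, ← Algebra.smul_def]
  rfl

/-- the support of `a` is in the ball of radius `r₁` -/
def SuppLt (r₁ : ℝ) (a : Fm n) : Prop := ∀ x : V n, r₁ ≤ ‖(WithLp.toLp 2 x : Eu n)‖ → ev x a = 0

include hB in
theorem norm_qf (p : (spM 𝒜).Plot k) {u : V k} (h : dist p₀ (p.1 u) ≤ rr2 r₁) :
    (WithLp.toLp 2 (qf hB p₀ r₁ h0 h1 p u) : Eu n) = lg 𝒜 p₀ (p.1 u) := by
  have h2 := rr_lt h1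
  change ct (rr2 r₁ ^ 2) (rr3 r₁ ^ 2) (dist p₀ (p.1 u) ^ 2) • lg 𝒜 p₀ (p.1 u) = _
  have h3 : 0 ≤ dist p₀ (p.1 u) := dist_nonneg
  rw [ct_one (by nlinarith) (by nlinarith), one_smul]

include hB in
/-- the extension vanishes off the ball of radius `r₁` -/
theorem ev_ext_zero {a : Fm n} (ha : SuppLt r₁ a) (p : (spM 𝒜).Plot k) {u : V k} (h : r₁ ≤ dist p₀ (p.1 u)) :
    ev u (Om.on (extO hB p₀ r₁ h0 h1 a) p) = 0 := by
  have h2 := rr_lt h1
  rw [ev_ext_eq]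
  rcases le_or_gt (dist p₀ (p.1 u)) (rr2 r₁) with h3 | h3
  · have h4 : ev (qf hB p₀ r₁ h0 h1 p u) a = 0 := by
      refine ha _ ?_
      rw [norm_qf hB h0 h1 p h3, norm_lg 𝒜 hB (by linarith)]
      exact h
    rw [h4, map_zero, smul_zero]
  · rw [ct_zero (by nlinarith) (by nlinarith), zero_smul]

/-- the value of the extension on a plot which avoids the support -/
theorem ext_avoid {a : Fm n} (ha : SuppLt r₁ a) (p : (spM 𝒜).Plot k) (h : ∀ u, r₁ ≤ dist p₀ (p.1 u)) :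
    Om.on (extO hB p₀ r₁ h0 h1 a) p = 0 := ev_inj fun u => ev_ext_zero hB h0 h1 ha p (h u)

/-- the transpose of the derivative only depends on the germ -/
theorem tr_congr {q q' : FR.Sm k l} {u : V k} (h : ∀ᶠ v in 𝓝 u, q v = q' v) : tr q u = tr q' u := by
  refine LinearMap.ext fun v => funext fun i => ?_
  change ∑ j, v j * fderiv ℝ (fun y => q y j) u (Pi.single i 1) = ∑ j, v j * fderiv ℝ (fun y => q' y j) u (Pi.single i 1)
  refine Finset.sum_congr rfl fun j _ => ?_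
  have h2 : (fun y => q y j) =ᶠ[𝓝 u] fun y => q' y j := by
    filter_upwards [h] with y hy
    rw [hy]
  rw [h2.fderiv_eq]

/-- **the value of the extension on a plot of the open ball** -/
theorem ext_ball {a : Fm n} (ha : SuppLt r₁ a) (p : (spM 𝒜).Plot k) (q : FR.Sm k n)
    (h : ∀ u, ‖(WithLp.toLp 2 (q u) : Eu n)‖ < π ∧ p.1 u = 𝒜.Ex p₀ (WithLp.toLp 2 (q u))) :
    Om.on (extO hB p₀ r₁ h0 h1 a) p = pb q a := by
  have h2 := rr_lt h1
  have hd : ∀ u, dist p₀ (p.1 u) = ‖(WithLp.toLp 2 (q u) : Eu n)‖ := fun u => by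
    rw [(h u).2, dist_Ex 𝒜 hB p₀ (h u).1.le]
  refine ev_ext fun u => ?_
  rcases le_or_gt r₁ (dist p₀ (p.1 u)) with h3 | h3
  · rw [ev_ext_zero hB h0 h1 ha p h3, ev_pb, ha _ (by rw [← hd]; exact h3), map_zero]
  · rw [ev_ext_eq, ev_pb]
    have h4 : ∀ᶠ v in 𝓝 u, qf hB p₀ r₁ h0 h1 p v = q v := by
      have h5 : ContinuousAt (X := V k) (Y := M) p.1 u := (p.2 u).1
      filter_upwards [eventually_dist_lt h5 (h3.trans h2.1)] with v hv
      have h6 := norm_qf hB h0 h1 p hv.le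
      have h7 : lg 𝒜 p₀ (p.1 v) = WithLp.toLp 2 (q v) := by
        rw [(h v).2, lg_Ex 𝒜 hB p₀ (h v).1]
      rw [h7] at h6
      exact congrArg WithLp.ofLp h6
    have h8 : 0 ≤ dist p₀ (p.1 u) := dist_nonneg
    rw [ct_one (by nlinarith [h2.1]) (by nlinarith), one_smul, tr_congr h4, h4.self_of_nhds]

variable (p₀ r₁) in
theorem ext_add (a b : Fm n) : extO (𝒜 := 𝒜) hB p₀ r₁ h0 h1 (a + b) = extO hB p₀ r₁ h0 h1 a + extO hB p₀ r₁ h0 h1 b :=
  Om_ext fun k p => by rw [on_ext, on_add, on_ext, on_ext, map_add, mul_add]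

theorem ext_smul (r : ℝ) (a : Fm n) : extO (𝒜 := 𝒜) hB p₀ r₁ h0 h1 (r • a) = r • extO hB p₀ r₁ h0 h1 a :=
  Om_ext fun k p => by rw [on_ext, on_smul, on_ext, map_smul, mul_smul_comm]

/-- **the differential of the extension** -/
theorem d_ext {a : Fm n} (ha : SuppLt r₁ a) :
    dO (spM 𝒜) (extO hB p₀ r₁ h0 h1 a) = extO hB p₀ r₁ h0 h1 (dd n a) := by
  have h2 := rr_lt h1
  refine Om_ext fun k p => ?_
  rw [on_d, on_ext, on_ext, dd_mul, pb_dd, sg_fc]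
  have h3 : dd k (fc k (zf hB p₀ r₁ h0 h1 p)) * pb (qf hB p₀ r₁ h0 h1 p) a = 0 := by
    refine ev_inj fun u => ?_
    rw [map_mul]
    have hc : ContinuousAt (X := V k) (Y := M) p.1 u := (p.2 u).1
    have key : ∀ c : ℝ, ((zf hB p₀ r₁ h0 h1 p : V k → ℝ) =ᶠ[𝓝 u] fun _ => c) → ev u (dd k (fc k (zf hB p₀ r₁ h0 h1 p))) = 0 := by
      intro c hcz
      rw [ev_dd_fc]
      have h5 : (fun i => (pd i (zf hB p₀ r₁ h0 h1 p) : V k → ℝ) u) = 0 := by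
        funext i
        rw [pd_apply, hcz.fderiv_eq]
        simp
      rw [h5, map_zero]
    have h8 : ∀ v, 0 ≤ dist p₀ (p.1 v) := fun v => dist_nonneg
    rcases lt_or_ge (dist p₀ (p.1 u)) r₁ with h4 | h4
    · rw [key 1 ?_, zero_mul]
      filter_upwards [eventually_dist_lt hc h4] with v hv
      exact ct_one (by nlinarith [h2.1]) (by nlinarith [h8 v])
    · rcases lt_or_ge (rr2 r₁) (dist p₀ (p.1 u)) with h5 | h5
      · rw [key 0 ?_, zero_mul]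
        filter_upwards [eventually_lt_dist hc h5] with v hv
        exact ct_zero (by nlinarith [h2.1]) (by nlinarith [h8 v])
      · have h6 : ev (qf hB p₀ r₁ h0 h1 p u) a = 0 := by
          refine ha _ ?_
          rw [norm_qf hB h0 h1 p h5, norm_lg 𝒜 hB (by linarith)]
          exact h4
        rw [ev_pb, h6, map_zero, mul_zero]
  rw [h3, zero_add]

/-- **the product of extensions** -/
theorem ext_mul {a : Fm n} (ha : SuppLt r₁ a) (b : Fm n) :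
    extO (𝒜 := 𝒜) hB p₀ r₁ h0 h1 (a * b) = extO hB p₀ r₁ h0 h1 a * extO hB p₀ r₁ h0 h1 b := by
  have h2 := rr_lt h1
  refine Om_ext fun k p => ev_ext fun u => ?_
  rw [on_mul, map_mul, ev_ext_eq, ev_ext_eq, ev_ext_eq, map_mul, map_mul, smul_mul_smul_comm]
  have h8 : 0 ≤ dist p₀ (p.1 u) := dist_nonneg
  rcases le_or_gt (dist p₀ (p.1 u)) r₁ with h4 | h4
  · rw [ct_one (by nlinarith [h2.1]) (by nlinarith), one_mul]
  · rcases lt_or_ge (rr2 r₁) (dist p₀ (p.1 u)) with h5 | h5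
    · rw [ct_zero (by nlinarith [h2.1]) (by nlinarith), zero_mul]
    · have h6 : ev (qf hB p₀ r₁ h0 h1 p u) a = 0 := by
        refine ha _ ?_
        rw [norm_qf hB h0 h1 p h5, norm_lg 𝒜 hB (by linarith)]
        exact h4.le
      rw [h6, map_zero, zero_mul, smul_zero, smul_zero]

theorem deg_ext {j : ℕ} {a : Fm n} (h : Dg j a) : Deg j (extO (𝒜 := 𝒜) hB p₀ r₁ h0 h1 a) := fun k p => by
  rw [on_ext]
  have := Dg_mul (Dg_fc (zf hB p₀ r₁ h0 h1 p)) (Dg_pb (qf hB p₀ r₁ h0 h1 p) h)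
  rwa [zero_add] at this

end ext

end Pool.Agent.Lib.MP_ccbbf6_gt.L4.EXT
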