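import Pool.Agent.Lib.MP_ccbbf6_gt.L4.E6
import Pool.Agent.Lib.MP_ccbbf6_gt.L4.ExtA
import Pool.Agent.Lib.MP_ccbbf6_gt.L4.FU1

/-!
# Level 4, block FUB, F1: concentration of `ω ^ m` at `p`
-/

set_option autoImplicit false
set_option maxSynthPendingDepth 3

open Set Filter Topology Metric Real MeasureTheory
open scoped ContDiff RealInnerProductSpace

noncomputable section

namespace Pool.Agent.Lib.MP_ccbbf6_gt.L4

open Geo FR

/-! ### top degree -/

namespace FR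

variable {n : ℕ}

/-- the linear form `ιMulti v` is a multiple of the one of the standard basis -/
lemma ιMulti_top (v : Fin n → V n) : ExteriorAlgebra.ιMulti ℝ n v =
    Matrix.det (Matrix.of v) • ExteriorAlgebra.ιMulti ℝ n (fun i => (Pi.single i 1 : V n)) := by
  rw [← sub_eq_zero, ← Module.forall_dual_apply_eq_zero_iff ℝ]
  intro L
  rw [map_sub, map_smul, sub_eq_zero]
  set f : (V n) [⋀^Fin n]→ₗ[ℝ] ℝ := L.compAlternatingMap (ExteriorAlgebra.ιMulti ℝ n) with hf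
  have h1 := AlternatingMap.eq_smul_basis_det (Pi.basisFun ℝ (Fin n)) f
  have h2 : f v = f (Pi.basisFun ℝ (Fin n)) * (Pi.basisFun ℝ (Fin n)).det v := by
    conv_lhs => rw [h1]
    rw [AlternatingMap.smul_apply, smul_eq_mul]
  have h3 : (Pi.basisFun ℝ (Fin n)).det v = Matrix.det (Matrix.of v) := by
    rw [Pi.basisFun_det_apply]
  have h4 : (Pi.basisFun ℝ (Fin n) : Fin n → V n) = fun i => (Pi.single i 1 : V n) := by
    funext i
    rw [Pi.basisFun_apply]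
  rw [h3, h4] at h2
  change f v = _ • f _
  rw [h2, smul_eq_mul, mul_comm]

/-- an element of top degree with top coefficient zero is zero -/
lemma eq_zero_of_topE {a : Ex n} (ha : a ∈ ⋀[ℝ]^n (V n)) (h : topE n a = 0) : a = 0 := by
  have key : a = topE n a • ExteriorAlgebra.ιMulti ℝ n (fun i => (Pi.single i 1 : V n)) := by
    rw [← ExteriorAlgebra.ιMulti_span_fixedDegree] at ha
    clear h
    induction ha using Submodule.span_induction with
    | mem x hx =>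
      obtain ⟨v, rfl⟩ := hx
      rw [topE_ιMulti]
      exact ιMulti_top v
    | zero => rw [map_zero, zero_smul]
    | add x y _ _ hx hy => rw [map_add, add_smul, ← hx, ← hy]
    | smul r x _ hx => rw [map_smul, smul_eq_mul, mul_smul, ← hx]
  rw [key, h, zero_smul]

end FR

variable {n m : ℕ} {e : Eu n → Eu n}

/-- `BB e` is a form of degree one -/
theorem Dg_BB (he : GCF e) : Dg 1 (BB e) := by
  rw [BB_eq he]
  refine Finset.sum_induction _ (fun x => Dg 1 x) (fun a b ha hb => Dg_add ha hb) Dg_zero fun i _ => ?_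
  have := Dg_mul (Dg_fc (mkC (bco e i) (contDiff_bco he i))) (Dg_dx i)
  rwa [zero_add] at this

/-- the top form `(d BB)^m` vanishes for `2 < |x|` -/
theorem T_supp (hn : n = 2 * m) (he : GCF e) {x : V n} (hx : 2 < ‖toE x‖) : ev x ((dd n (BB e)) ^ m) = 0 := by
  have h1 : Dg n ((dd n (BB e)) ^ m) := by
    have := Dg_pow (Dg_dd (Dg_BB he)) m
    rwa [← hn] at this
  refine FR.eq_zero_of_topE (Dg_ev h1 x) ?_
  have h2 : 4 < EUL.sqn x := by
    have h3 : ‖toE x‖ ^ 2 = EUL.sqn x := EUL.norm_toE_sq x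
    rw [← h3]
    nlinarith
  have h4 := (flat_BB he).tp_eq_zero (by norm_num) (r := m) h2
  rwa [tp_apply] at h4

theorem toE_smul (r : ℝ) (x : V n) : toE (r • x) = r • toE x := rfl

/-- the values of `BB e` far away do not change under scaling -/
theorem ev_scl_BB (he : GCF e) {δ : ℝ} (h0 : 0 < δ) (h1 : δ ≤ 1) {x : V n} (hx : 2 ≤ ‖toE x‖) :
    ev x (pb (scl n δ⁻¹) (BB e)) = ev x (BB e) := by
  have hδ : 1 ≤ δ⁻¹ := (one_le_inv₀ h0).2 h1
  have hx0 : 0 < ‖toE x‖ := by linarith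
  rw [ev_pb, BB_one he, EUL.ev_one, EUL.ev_one, ExteriorAlgebra.map_apply_ι]
  congr 1
  funext i
  change ∑ j, bco e j (δ⁻¹ • x) * fderiv ℝ (fun y : V n => (δ⁻¹ • y) j) x (Pi.single i 1) = bco e i x
  have h2 : ∀ j, fderiv ℝ (fun y : V n => (δ⁻¹ • y) j) x (Pi.single i 1) = δ⁻¹ * (Pi.single i (1 : ℝ) : V n) j := by
    intro j
    have h3 : HasFDerivAt (fun y : V n => (δ⁻¹ • y) j)
        (δ⁻¹ • ContinuousLinearMap.proj (R := ℝ) (φ := fun _ : Fin n => ℝ) j) x :=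
      (δ⁻¹ • ContinuousLinearMap.proj (R := ℝ) (φ := fun _ : Fin n => ℝ) j).hasFDerivAt
    rw [h3.fderiv]
    rfl
  simp only [h2]
  rw [Finset.sum_eq_single i]
  · rw [Pi.single_eq_same, mul_one]
    unfold bco
    rw [toE_smul, he.hom _ _ (by positivity), norm_smul, Real.norm_of_nonneg (by positivity), chi_one hx,
      chi_one (by nlinarith)]
    field_simp
  · intro b _ hb
    rw [Pi.single_eq_of_ne hb, mul_zero, mul_zero]
  · intro h
    exact absurd (Finset.mem_univ i) h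

variable {M : Type} [MetricSpace M] [CompactSpace M] {𝒜 : SDist n M}

/-- F1: extension of a form with compact support in the ball -/
theorem exists_ext (hB : Bl M) (p : M) {R : ℝ} (hR : R < π) (a : Fm n) (ha : ∀ x : V n, R < ‖toE x‖ → ev x a = 0) :
    ∃ A : Om (spM 𝒜), (∀ j, Dg j a → Deg j A) ∧ ∀ (k : ℕ) (P : (spM 𝒜).Plot k) (q : FR.Sm k n),
      (∀ u, ‖toE (q u)‖ < π ∧ P.1 u = 𝒜.Ex p (toE (q u))) → Om.on A P = pb q a := by
  set r₁ : ℝ := (max R 0 + π) / 2 with hr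
  have hm : max R 0 < π := max_lt hR Real.pi_pos
  have hm0 : 0 ≤ max R 0 := le_max_right _ _
  have h0 : 0 ≤ r₁ := by rw [hr]; linarith [Real.pi_pos]
  have h1 : r₁ < π := by rw [hr]; linarith
  have h2 : R < r₁ := by
    have := le_max_left R 0
    rw [hr]; linarith
  refine ⟨EXT.extO hB p r₁ h0 h1 a, fun j hj => EXT.deg_ext hB h0 h1 hj, fun k P q h => ?_⟩
  exact EXT.ext_ball hB h0 h1 (fun x hx => ha x (h2.trans_le hx)) P q h

/-- **concentration of `ω ^ m` at `p`** -/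
theorem exists_tau (hB : Bl M) (p : M) (he : GCF e) {om : Om (spM 𝒜)}
    (ex : ∀ (k : ℕ) (P : (spM 𝒜).Plot k) (q : FR.Sm k n), (∀ u, ‖toE (q u)‖ < π ∧ P.1 u = 𝒜.Ex p (toE (q u))) →
      Om.on om P = pb q (dd n (BB e))) (m : ℕ) :
    ∃ A : ℝ → Om (spM 𝒜), ∀ δ, 0 < δ → δ ≤ 1 → Deg 1 (A δ) ∧ ∀ (k : ℕ) (P : (spM 𝒜).Plot k) (q : FR.Sm k n),
      (∀ u, ‖toE (q u)‖ < π ∧ P.1 u = 𝒜.Ex p (toE (q u))) →
        Om.on ((om + dO _ (A δ)) ^ m) P = pb q (pb (scl n δ⁻¹) ((dd n (BB e)) ^ m)) := by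
  classical
  have key : ∀ δ : ℝ, ∃ A : Om (spM 𝒜), 0 < δ → δ ≤ 1 → Deg 1 A ∧ ∀ (k : ℕ) (P : (spM 𝒜).Plot k) (q : FR.Sm k n),
      (∀ u, ‖toE (q u)‖ < π ∧ P.1 u = 𝒜.Ex p (toE (q u))) →
        Om.on ((om + dO _ A) ^ m) P = pb q (pb (scl n δ⁻¹) ((dd n (BB e)) ^ m)) := by
    intro δ
    by_cases hδ : 0 < δ ∧ δ ≤ 1
    · obtain ⟨A, hA1, hA2⟩ := exists_ext (𝒜 := 𝒜) hB p (R := 2) (by linarith [Real.pi_gt_three])
        (pb (scl n δ⁻¹) (BB e) - BB e) (fun x hx => by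
          rw [map_sub, ev_scl_BB he hδ.1 hδ.2 hx.le, sub_self])
      refine ⟨A, fun _ _ => ⟨hA1 1 (Dg_sub (Dg_pb _ (Dg_BB he)) (Dg_BB he)), fun k P q h => ?_⟩⟩
      rw [on_pow, on_add, on_d, ex k P q h, hA2 k P q h, map_pow (pb (scl n δ⁻¹)), map_pow (pb q)]
      congr 1
      rw [pb_dd, ← map_add, map_sub, pb_dd]
      congr 1
      abel
    · exact ⟨0, fun a b => absurd ⟨a, b⟩ hδ⟩
  choose A hA using key
  exact ⟨A, hA⟩

end Pool.Agent.Lib.MP_ccbbf6_gt.L4
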