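import Pool.Agent.Lib.MP_ccbbf6_gt.Geo.Area1
import Pool.Agent.Lib.MP_ccbbf6_gt.Geo.SM0

/-!
# L4/FI0: integration over `M` and `M × M` in the charts `ψ a` (helper5)
-/

set_option autoImplicit false
set_option linter.unusedSectionVars false

open MeasureTheory Measure Set Filter Topology Metric
open scoped ENNReal NNReal ContDiff

noncomputable section

namespace Pool.Agent.Lib.MP_ccbbf6_gt.L4

open Geo

variable {n : ℕ} {M : Type*} [MetricSpace M] (𝒜 : SDist n M)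

/-- derivative at `u` of the transition from the chart at `a` to the chart centered at `x = (ψ a)⁻¹ u` -/
def Tr (a : M) (u : Eu n) : Eu n →L[ℝ] Eu n :=
  fderiv ℝ (fun u' => 𝒜.ψ ((𝒜.ψ a).symm u) ((𝒜.ψ a).symm u')) u

lemma contDiffAt_Tr {a : M} {u : Eu n} (hu : u ∈ (𝒜.ψ a).target) :
    ContDiffAt ℝ ∞ (fun u' => 𝒜.ψ ((𝒜.ψ a).symm u) ((𝒜.ψ a).symm u')) u := by
  have h1 : (𝒜.ψ a).symm u ∈ (𝒜.ψ a).source := (𝒜.ψ a).map_target hu
  have h2 := 𝒜.trans a ((𝒜.ψ a).symm u) _ h1 (𝒜.mem _)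
  rwa [(𝒜.ψ a).right_inv hu] at h2

lemma hasFDerivAt_Tr {a : M} {u : Eu n} (hu : u ∈ (𝒜.ψ a).target) :
    HasFDerivAt (fun u' => 𝒜.ψ ((𝒜.ψ a).symm u) ((𝒜.ψ a).symm u')) (Tr 𝒜 a u) u :=
  ((contDiffAt_Tr 𝒜 hu).differentiableAt (by simp)).hasFDerivAt

/-- the transition in the other direction -/
lemma hasFDerivAt_Tr_inv {a : M} {u : Eu n} (hu : u ∈ (𝒜.ψ a).target) :
    HasFDerivAt (fun w => 𝒜.ψ a ((𝒜.ψ ((𝒜.ψ a).symm u)).symm w)) (ar_T 𝒜 a ((𝒜.ψ a).symm u)) 0 :=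
  ar_hasFDerivAt_T 𝒜 ((𝒜.ψ a).map_target hu)

lemma ar_T_comp_Tr {a : M} {u : Eu n} (hu : u ∈ (𝒜.ψ a).target) :
    (ar_T 𝒜 a ((𝒜.ψ a).symm u)).comp (Tr 𝒜 a u) = ContinuousLinearMap.id ℝ (Eu n) := by
  set x := (𝒜.ψ a).symm u with hx
  have hxs : x ∈ (𝒜.ψ a).source := (𝒜.ψ a).map_target hu
  have h1 : HasFDerivAt (fun w => 𝒜.ψ a ((𝒜.ψ x).symm w)) (ar_T 𝒜 a x) (𝒜.ψ x ((𝒜.ψ a).symm u)) := by
    rw [← hx, 𝒜.zero]; exact hasFDerivAt_Tr_inv 𝒜 hu
  have h2 := h1.comp u (hasFDerivAt_Tr 𝒜 hu)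
  have h3 : (fun w => 𝒜.ψ a ((𝒜.ψ x).symm w)) ∘ (fun u' => 𝒜.ψ x ((𝒜.ψ a).symm u')) =ᶠ[𝓝 u] id := by
    have hc : ContinuousAt (𝒜.ψ a).symm u := (𝒜.ψ a).symm.continuousAt hu
    have h4 : ∀ᶠ u' in 𝓝 u, (𝒜.ψ a).symm u' ∈ (𝒜.ψ x).source :=
      hc.eventually ((𝒜.ψ x).open_source.mem_nhds (𝒜.mem x))
    filter_upwards [h4, (𝒜.ψ a).open_target.mem_nhds hu] with u' h5 h6
    simp only [Function.comp_apply, id_eq]
    rw [(𝒜.ψ x).left_inv h5, (𝒜.ψ a).right_inv h6]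
  exact (h2.congr_of_eventuallyEq h3.symm).unique (hasFDerivAt_id u)

lemma det_Tr_ne_zero {a : M} {u : Eu n} (hu : u ∈ (𝒜.ψ a).target) : (Tr 𝒜 a u).det ≠ 0 := by
  intro h
  have h1 := congrArg ContinuousLinearMap.det (ar_T_comp_Tr 𝒜 hu)
  have h2 : ((ar_T 𝒜 a ((𝒜.ψ a).symm u)).comp (Tr 𝒜 a u)).det =
      (ar_T 𝒜 a ((𝒜.ψ a).symm u)).det * (Tr 𝒜 a u).det := LinearMap.det_comp _ _
  rw [h2, h, mul_zero] at h1
  have h3 : (ContinuousLinearMap.id ℝ (Eu n)).det = 1 := LinearMap.det_id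
  rw [h3] at h1
  exact zero_ne_one h1

/-- the determinant of a matrix of the interface -/
lemma det_mt (L : Eu n →L[ℝ] Eu n) : (mt L).det = L.det := by
  have h : mt L = LinearMap.toMatrix (EuclideanSpace.basisFun (Fin n) ℝ).toBasis
      (EuclideanSpace.basisFun (Fin n) ℝ).toBasis (L : Eu n →ₗ[ℝ] Eu n) := by
    ext i j
    rw [LinearMap.toMatrix_apply]
    simp [Geo.mt]
  rw [h, LinearMap.det_toMatrix]

lemma tendsto_absdet_ar_T {a x₀ : M} (h0 : x₀ ∈ (𝒜.ψ a).source) :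
    Tendsto (fun x => |(ar_T 𝒜 a x).det|) (𝓝 x₀) (𝓝 |(ar_T 𝒜 a x₀).det|) := by
  -- transition from the chart at `x₀` to the chart at `a`
  set τ : Eu n → Eu n := fun u => 𝒜.ψ a ((𝒜.ψ x₀).symm u) with hτ
  have hτc : ContDiffAt ℝ ∞ τ 0 := by
    have := 𝒜.trans x₀ a x₀ (𝒜.mem x₀) h0
    rwa [𝒜.zero] at this
  have hτ1 : ∀ᶠ w in 𝓝 (0 : Eu n), DifferentiableAt ℝ τ w :=
    ((hτc.of_le two_le_infty).eventually (by simp)).mono fun w hw => hw.differentiableAt (by norm_num)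
  have hcont : ContinuousAt (fderiv ℝ τ) 0 := (hτc.fderiv_right (m := 0) (by simp)).continuousAt
  have hT0 : fderiv ℝ τ 0 = ar_T 𝒜 a x₀ := rfl
  have hψ := tendsto_ψ 𝒜 x₀
  have hkey : ∀ᶠ x in 𝓝 x₀, ar_T 𝒜 a x = (fderiv ℝ τ (𝒜.ψ x₀ x)).comp (ar_T 𝒜 x₀ x) := by
    filter_upwards [hψ.eventually hτ1, (𝒜.ψ x₀).open_source.mem_nhds (𝒜.mem x₀)] with x h1 h2
    have h3 : HasFDerivAt (fun u => 𝒜.ψ x₀ ((𝒜.ψ x).symm u)) (ar_T 𝒜 x₀ x) 0 := ar_hasFDerivAt_T 𝒜 h2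
    have h4 : HasFDerivAt τ (fderiv ℝ τ (𝒜.ψ x₀ x)) (𝒜.ψ x₀ ((𝒜.ψ x).symm 0)) := by
      rw [ar_symm_zero]; exact h1.hasFDerivAt
    have h5 := h4.comp 0 h3
    have h6 : (τ ∘ fun u => 𝒜.ψ x₀ ((𝒜.ψ x).symm u)) =ᶠ[𝓝 0] fun u => 𝒜.ψ a ((𝒜.ψ x).symm u) := by
      have h7 : ∀ᶠ u in 𝓝 (0 : Eu n), (𝒜.ψ x).symm u ∈ (𝒜.ψ x₀).source :=
        (ar_tendsto 𝒜 x).eventually ((𝒜.ψ x₀).open_source.mem_nhds h2)
      filter_upwards [h7] with u hu
      simp only [hτ, Function.comp_apply]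
      rw [(𝒜.ψ x₀).left_inv hu]
    exact (h5.congr_of_eventuallyEq h6.symm).fderiv
  have h1 : Tendsto (fun x => |(fderiv ℝ τ (𝒜.ψ x₀ x)).det|) (𝓝 x₀) (𝓝 |(ar_T 𝒜 a x₀).det|) := by
    have h2 : Tendsto (fun x => fderiv ℝ τ (𝒜.ψ x₀ x)) (𝓝 x₀) (𝓝 (ar_T 𝒜 a x₀)) := by
      rw [← hT0]; exact hcont.tendsto.comp hψ
    exact (continuous_abs.comp ContinuousLinearMap.continuous_det).continuousAt.tendsto.comp h2
  have h2 : Tendsto (fun x => |(ar_T 𝒜 x₀ x).det|) (𝓝 x₀) (𝓝 1) := by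
    have := tendsto_det_ch 𝒜 x₀
    simp only [det_mt] at this
    exact this
  have h3 := h1.mul h2
  rw [mul_one] at h3
  refine h3.congr' ?_
  filter_upwards [hkey] with x hx
  rw [hx, ← abs_mul]
  congr 1
  exact (LinearMap.det_comp _ _).symm

lemma det_Tr {a : M} {u : Eu n} (hu : u ∈ (𝒜.ψ a).target) :
    (Tr 𝒜 a u).det = ((ar_T 𝒜 a ((𝒜.ψ a).symm u)).det)⁻¹ := by
  have h1 := congrArg ContinuousLinearMap.det (ar_T_comp_Tr 𝒜 hu)
  have h2 : ((ar_T 𝒜 a ((𝒜.ψ a).symm u)).comp (Tr 𝒜 a u)).det =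
      (ar_T 𝒜 a ((𝒜.ψ a).symm u)).det * (Tr 𝒜 a u).det := LinearMap.det_comp _ _
  have h3 : (ContinuousLinearMap.id ℝ (Eu n)).det = 1 := LinearMap.det_id
  rw [h2, h3] at h1
  exact eq_inv_of_mul_eq_one_right h1

lemma det_ar_T_ne_zero {a x : M} (hx : x ∈ (𝒜.ψ a).source) : (ar_T 𝒜 a x).det ≠ 0 := by
  have hu : 𝒜.ψ a x ∈ (𝒜.ψ a).target := (𝒜.ψ a).map_source hx
  have h := det_Tr_ne_zero 𝒜 hu
  rw [det_Tr 𝒜 hu, (𝒜.ψ a).left_inv hx] at h
  exact fun h' => h (by rw [h', inv_zero])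

/-- the density of the Riemannian measure in the chart at `a` is continuous -/
lemma continuousOn_absdet_Tr (a : M) :
    ContinuousOn (fun u => |(Tr 𝒜 a u).det|) (𝒜.ψ a).target := by
  intro u hu
  refine ContinuousAt.continuousWithinAt ?_
  have hx : (𝒜.ψ a).symm u ∈ (𝒜.ψ a).source := (𝒜.ψ a).map_target hu
  have hc : Tendsto (𝒜.ψ a).symm (𝓝 u) (𝓝 ((𝒜.ψ a).symm u)) := (𝒜.ψ a).symm.continuousAt hu
  have h1 := ((tendsto_absdet_ar_T 𝒜 hx).comp hc).inv₀ (abs_ne_zero.2 (det_ar_T_ne_zero 𝒜 hx))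
  have h2 : |(Tr 𝒜 a u).det| = (|(ar_T 𝒜 a ((𝒜.ψ a).symm u)).det|)⁻¹ := by rw [det_Tr 𝒜 hu, abs_inv]
  rw [ContinuousAt, h2]
  refine h1.congr' ?_
  filter_upwards [(𝒜.ψ a).open_target.mem_nhds hu] with u' hu'
  simp only [Function.comp_apply]
  rw [det_Tr 𝒜 hu', abs_inv]

variable [MeasurableSpace M] [BorelSpace M] [SecondCountableTopology M]

/-- the Riemannian measure in a chart -/
lemma map_chart (a : M) :
    (((volume.restrict (𝒜.ψ a).target).withDensity fun u => ENNReal.ofReal |(Tr 𝒜 a u).det|).map (𝒜.ψ a).symm)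
      = (μHE[n] : Measure M).restrict (𝒜.ψ a).source := by
  set S := (𝒜.ψ a).target with hS
  have hSm : MeasurableSet S := (𝒜.ψ a).open_target.measurableSet
  have hcont : ContinuousOn (𝒜.ψ a).symm S := (𝒜.ψ a).continuousOn_symm
  have hinj : InjOn (𝒜.ψ a).symm S := (𝒜.ψ a).symm.injOn
  have hderiv : ∀ u ∈ S, HasFDerivWithinAt (fun u' => 𝒜.ψ ((𝒜.ψ a).symm u) ((𝒜.ψ a).symm u')) (Tr 𝒜 a u) S u :=
    fun u hu => (hasFDerivAt_Tr 𝒜 hu).hasFDerivWithinAt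
  have hhyp := ar_areaHyp 𝒜 hcont hderiv
  have hJ : AEMeasurable (fun u => ENNReal.ofReal |(Tr 𝒜 a u).det|) (volume.restrict S) :=
    ((continuousOn_absdet_Tr 𝒜 a).aemeasurable hSm).ennreal_ofReal
  have himg : (𝒜.ψ a).symm '' S = (𝒜.ψ a).source := (𝒜.ψ a).symm.image_source_eq_target
  have hFm : AEMeasurable (𝒜.ψ a).symm (volume.restrict S) := hcont.aemeasurable hSm
  have hFm2 : AEMeasurable (𝒜.ψ a).symm ((volume.restrict S).withDensity fun u => ENNReal.ofReal |(Tr 𝒜 a u).det|) :=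
    hFm.mono_ac (withDensity_absolutelyContinuous _ _)
  refine Measure.ext fun B hB => ?_
  have h1 := lintegral_image_eq hSm hcont hinj hhyp hJ (g := B.indicator 1) (measurable_one.indicator hB)
  rw [himg] at h1
  rw [lintegral_indicator_one hB] at h1
  rw [h1, Measure.map_apply_of_aemeasurable hFm2 hB]
  have h2 : ∫⁻ p in S, ENNReal.ofReal |(Tr 𝒜 a p).det| * B.indicator 1 ((𝒜.ψ a).symm p) =
      ∫⁻ p, B.indicator 1 ((𝒜.ψ a).symm p)
        ∂((volume.restrict S).withDensity fun u => ENNReal.ofReal |(Tr 𝒜 a u).det|) := by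
    rw [lintegral_withDensity_eq_lintegral_mul₀' hJ]
    · rfl
    · exact ((measurable_one.indicator hB).comp_aemeasurable hFm2)
  rw [h2, ← lintegral_map' (measurable_one.indicator hB).aemeasurable hFm2, lintegral_indicator_one hB,
    Measure.map_apply_of_aemeasurable hFm2 hB]

/-- the inverse of the chart at `a`, extended by a constant -/
def gm (a : M) : Eu n → M := by
  classical exact (𝒜.ψ a).target.piecewise (𝒜.ψ a).symm fun _ => a

/-- the density of the Riemannian measure in the chart at `a`, extended by zero -/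
def Dn (a : M) : Eu n → ℝ := (𝒜.ψ a).target.indicator fun u => |(Tr 𝒜 a u).det|

omit [MeasurableSpace M] [BorelSpace M] [SecondCountableTopology M] in
lemma gm_eq {a : M} {u : Eu n} (hu : u ∈ (𝒜.ψ a).target) : gm 𝒜 a u = (𝒜.ψ a).symm u := by
  classical exact Set.piecewise_eq_of_mem _ _ _ hu

omit [MeasurableSpace M] [BorelSpace M] [SecondCountableTopology M] in
lemma Dn_eq {a : M} {u : Eu n} (hu : u ∈ (𝒜.ψ a).target) : Dn 𝒜 a u = |(Tr 𝒜 a u).det| := indicator_of_mem hu _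

omit [MeasurableSpace M] [BorelSpace M] [SecondCountableTopology M] in
lemma Dn_eq_zero {a : M} {u : Eu n} (hu : u ∉ (𝒜.ψ a).target) : Dn 𝒜 a u = 0 := indicator_of_notMem hu _

omit [MeasurableSpace M] [BorelSpace M] [SecondCountableTopology M] in
lemma Dn_nonneg (a : M) (u : Eu n) : 0 ≤ Dn 𝒜 a u := indicator_nonneg (fun _ _ => abs_nonneg _) u

omit [SecondCountableTopology M] in
lemma measurable_gm (a : M) : Measurable (gm 𝒜 a) := by
  classical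
  exact ContinuousOn.measurable_piecewise (𝒜.ψ a).continuousOn_symm continuousOn_const
    (𝒜.ψ a).open_target.measurableSet

omit [MeasurableSpace M] [BorelSpace M] [SecondCountableTopology M] in
lemma measurable_Dn (a : M) : Measurable (Dn 𝒜 a) := by
  classical
  have h := ContinuousOn.measurable_piecewise (continuousOn_absdet_Tr 𝒜 a)
    (continuousOn_const (c := (0 : ℝ)) (s := (𝒜.ψ a).targetᶜ)) (𝒜.ψ a).open_target.measurableSet
  have e : Dn 𝒜 a = (𝒜.ψ a).target.piecewise (fun u => |(Tr 𝒜 a u).det|) fun _ => 0 := by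
    funext u
    by_cases hu : u ∈ (𝒜.ψ a).target
    · rw [Dn_eq 𝒜 hu, Set.piecewise_eq_of_mem _ _ _ hu]
    · rw [Dn_eq_zero 𝒜 hu, Set.piecewise_eq_of_notMem _ _ _ hu]
  rw [e]
  exact h

lemma map_gm (a : M) :
    ((volume : Measure (Eu n)).withDensity fun u => ENNReal.ofReal (Dn 𝒜 a u)).map (gm 𝒜 a)
      = (μHE[n] : Measure M).restrict (𝒜.ψ a).source := by
  have hSm : MeasurableSet (𝒜.ψ a).target := (𝒜.ψ a).open_target.measurableSet
  have h1 : (fun u => ENNReal.ofReal (Dn 𝒜 a u)) =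
      (𝒜.ψ a).target.indicator fun u => ENNReal.ofReal |(Tr 𝒜 a u).det| := by
    funext u
    by_cases hu : u ∈ (𝒜.ψ a).target
    · rw [Dn_eq 𝒜 hu, indicator_of_mem hu]
    · rw [Dn_eq_zero 𝒜 hu, indicator_of_notMem hu, ENNReal.ofReal_zero]
  rw [h1, withDensity_indicator hSm, ← map_chart 𝒜 a]
  refine Measure.map_congr ?_
  have h2 : ∀ᵐ u ∂((volume.restrict (𝒜.ψ a).target).withDensity fun u => ENNReal.ofReal |(Tr 𝒜 a u).det|),
      u ∈ (𝒜.ψ a).target := (withDensity_absolutelyContinuous _ _).ae_le (ae_restrict_mem hSm)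
  filter_upwards [h2] with u hu
  exact gm_eq 𝒜 hu

/-- **Integration over `M × M` in a product of charts.** -/
theorem integral_prod_chart [SFinite (μHE[n] : Measure M)] (a b : M) {f : M × M → ℝ}
    (hf : AEStronglyMeasurable f ((μHE[n] : Measure M).prod μHE[n]))
    (h0 : ∀ z : M × M, f z ≠ 0 → z.1 ∈ (𝒜.ψ a).source ∧ z.2 ∈ (𝒜.ψ b).source) :
    ∫ z, f z ∂((μHE[n] : Measure M).prod μHE[n]) =
      ∫ w : Eu n × Eu n, Dn 𝒜 a w.1 * Dn 𝒜 b w.2 * f (gm 𝒜 a w.1, gm 𝒜 b w.2) := by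
  have h1 : ∫ z, f z ∂((μHE[n] : Measure M).prod μHE[n]) =
      ∫ z in (𝒜.ψ a).source ×ˢ (𝒜.ψ b).source, f z ∂((μHE[n] : Measure M).prod μHE[n]) := by
    refine (setIntegral_eq_integral_of_forall_compl_eq_zero fun z hz => ?_).symm
    by_contra h
    exact hz (h0 z h)
  have hma := measurable_gm 𝒜 a
  have hmb := measurable_gm 𝒜 b
  have hda : Measurable fun u => ENNReal.ofReal (Dn 𝒜 a u) := (measurable_Dn 𝒜 a).ennreal_ofReal
  have hdb : Measurable fun u => ENNReal.ofReal (Dn 𝒜 b u) := (measurable_Dn 𝒜 b).ennreal_ofReal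
  have h2 : ((μHE[n] : Measure M).prod μHE[n]).restrict ((𝒜.ψ a).source ×ˢ (𝒜.ψ b).source) =
      (((volume : Measure (Eu n)).prod volume).withDensity
        fun z => ENNReal.ofReal (Dn 𝒜 a z.1) * ENNReal.ofReal (Dn 𝒜 b z.2)).map
          (Prod.map (gm 𝒜 a) (gm 𝒜 b)) := by
    rw [← Measure.prod_restrict, ← map_gm, ← map_gm, Measure.map_prod_map _ _ hma hmb, prod_withDensity hda hdb]
  have hres : AEStronglyMeasurable f (((μHE[n] : Measure M).prod μHE[n]).restrict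
      ((𝒜.ψ a).source ×ˢ (𝒜.ψ b).source)) := hf.restrict
  rw [h2] at hres
  rw [h1, h2, integral_map (hma.prodMap hmb).aemeasurable hres,
    integral_withDensity_eq_integral_toReal_smul]
  · refine integral_congr_ae (Eventually.of_forall fun w => ?_)
    simp only [ENNReal.toReal_mul, ENNReal.toReal_ofReal (Dn_nonneg 𝒜 _ _), smul_eq_mul, Prod.map]
  · exact (hda.comp measurable_fst).mul (hdb.comp measurable_snd)
  · exact Eventually.of_forall fun w => ENNReal.mul_lt_top ENNReal.ofReal_lt_top ENNReal.ofReal_lt_top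

end Pool.Agent.Lib.MP_ccbbf6_gt.L4
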