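import Pool.Agent.Lib.MP_ccbbf6_gt.Geo.SM0

/-!
# L4/FI1: a finite smooth partition of unity subordinate to the charts `ψ a` (helper5)
-/

set_option autoImplicit false
set_option linter.unusedSectionVars false

open Set Filter Topology Metric
open scoped ContDiff

noncomputable section

namespace Pool.Agent.Lib.MP_ccbbf6_gt.L4

open Geo

variable {n : ℕ} {M : Type*} [MetricSpace M] (𝒜 : SDist n M)

/-- smooth functions on `M` -/
def SmFI (f : M → ℝ) : Prop := ∀ y, ContDiffAt ℝ ∞ (fun u => f ((𝒜.ψ y).symm u)) 0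

variable {𝒜}

lemma SmFI.continuous {f : M → ℝ} (hf : SmFI 𝒜 f) : Continuous f := by
  refine continuous_iff_continuousAt.2 fun y => ?_
  have h1 : ContinuousAt (fun u => f ((𝒜.ψ y).symm u)) (𝒜.ψ y y) := by
    rw [𝒜.zero]; exact (hf y).continuousAt
  have h2 : ContinuousAt (fun x => f ((𝒜.ψ y).symm (𝒜.ψ y x))) y :=
    ContinuousAt.comp (f := 𝒜.ψ y) (g := fun u => f ((𝒜.ψ y).symm u)) h1 ((𝒜.ψ y).continuousAt (𝒜.mem y))
  refine h2.congr ?_
  filter_upwards [(𝒜.ψ y).open_source.mem_nhds (𝒜.mem y)] with x hx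
  rw [(𝒜.ψ y).left_inv hx]

/-- a smooth function is smooth in all charts -/
lemma SmFI.chart {f : M → ℝ} (hf : SmFI 𝒜 f) {a : M} {u : Eu n} (hu : u ∈ (𝒜.ψ a).target) :
    ContDiffAt ℝ ∞ (fun u' => f ((𝒜.ψ a).symm u')) u := by
  set x := (𝒜.ψ a).symm u with hx
  have hxs : x ∈ (𝒜.ψ a).source := (𝒜.ψ a).map_target hu
  have h1 : ContDiffAt ℝ ∞ (fun u' => 𝒜.ψ x ((𝒜.ψ a).symm u')) u := by
    have := 𝒜.trans a x x hxs (𝒜.mem x)
    rwa [hx, (𝒜.ψ a).right_inv hu, ← hx] at this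
  have h2 : ContDiffAt ℝ ∞ (fun w => f ((𝒜.ψ x).symm w)) (𝒜.ψ x ((𝒜.ψ a).symm u)) := by
    rw [← hx, 𝒜.zero]; exact hf x
  have h3 := h2.comp u h1
  refine h3.congr_of_eventuallyEq ?_
  have hc : ContinuousAt (𝒜.ψ a).symm u := (𝒜.ψ a).symm.continuousAt hu
  filter_upwards [hc.eventually ((𝒜.ψ x).open_source.mem_nhds (𝒜.mem x))] with u' hu'
  simp only [Function.comp_apply]
  rw [(𝒜.ψ x).left_inv hu']

/-- a smooth function of one chart, extended by zero -/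
lemma smF_of_chart {a : M} {g : Eu n → ℝ} {K : Set M} (hK : IsClosed K) (hKs : K ⊆ (𝒜.ψ a).source)
    (hg : ∀ u ∈ (𝒜.ψ a).target, ContDiffAt ℝ ∞ g u) {f : M → ℝ} (h1 : ∀ y ∈ (𝒜.ψ a).source, f y = g (𝒜.ψ a y))
    (h2 : ∀ y ∉ K, f y = 0) : SmFI 𝒜 f := by
  intro y
  have ht : Tendsto (𝒜.ψ y).symm (𝓝 0) (𝓝 y) := by
    have := continuousAt_symm 𝒜 y
    rwa [ContinuousAt, symm_zero] at this
  by_cases hy : y ∈ (𝒜.ψ a).source
  · have h3 : ContDiffAt ℝ ∞ (fun u => 𝒜.ψ a ((𝒜.ψ y).symm u)) 0 := contDiffAt_ch 𝒜 hy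
    have h4 : ContDiffAt ℝ ∞ g (𝒜.ψ a ((𝒜.ψ y).symm 0)) := by
      rw [symm_zero]; exact hg _ ((𝒜.ψ a).map_source hy)
    refine (h4.comp 0 h3).congr_of_eventuallyEq ?_
    filter_upwards [ht.eventually ((𝒜.ψ a).open_source.mem_nhds hy)] with u hu
    simp only [Function.comp_apply]
    rw [h1 _ hu]
  · have hyK : y ∉ K := fun h => hy (hKs h)
    have h3 : (fun u => f ((𝒜.ψ y).symm u)) =ᶠ[𝓝 0] fun _ => 0 := by
      filter_upwards [ht.eventually (hK.isOpen_compl.mem_nhds hyK)] with u hu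
      exact h2 _ hu
    exact contDiffAt_const.congr_of_eventuallyEq h3

variable (𝒜)

/-- bump functions of the charts -/
lemma exists_bump (a : M) : ∃ (U K : Set M) (f : M → ℝ), IsOpen U ∧ a ∈ U ∧ IsCompact K ∧ K ⊆ (𝒜.ψ a).source ∧
    SmFI 𝒜 f ∧ (∀ y, 0 ≤ f y) ∧ (∀ y ∈ U, f y = 1) ∧ ∀ y ∉ K, f y = 0 := by
  classical
  obtain ⟨r, hr, hball⟩ := Metric.nhds_basis_closedBall.mem_iff.1
    ((𝒜.ψ a).open_target.mem_nhds (zero_mem_target 𝒜 a))
  let β : ContDiffBump (0 : Eu n) := ⟨r / 4, r / 2, by linarith, by linarith⟩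
  set K : Set M := (𝒜.ψ a).symm '' closedBall 0 (r / 2) with hK
  have hsub : closedBall (0 : Eu n) (r / 2) ⊆ (𝒜.ψ a).target :=
    (closedBall_subset_closedBall (by linarith)).trans hball
  have hKc : IsCompact K := (isCompact_closedBall (0 : Eu n) (r / 2)).image_of_continuousOn
    ((𝒜.ψ a).continuousOn_symm.mono hsub)
  have hKs : K ⊆ (𝒜.ψ a).source := by
    rintro _ ⟨u, hu, rfl⟩
    exact (𝒜.ψ a).map_target (hsub hu)
  set f : M → ℝ := fun y => if y ∈ (𝒜.ψ a).source then β (𝒜.ψ a y) else 0 with hf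
  have hf0 : ∀ y ∉ K, f y = 0 := by
    intro y hy
    by_cases hys : y ∈ (𝒜.ψ a).source
    · have h1 : f y = β (𝒜.ψ a y) := if_pos hys
      rw [h1]
      refine β.zero_of_le_dist ?_
      by_contra h
      push Not at h
      refine hy ⟨𝒜.ψ a y, ?_, (𝒜.ψ a).left_inv hys⟩
      exact mem_closedBall.2 h.le
    · exact if_neg hys
  refine ⟨(𝒜.ψ a).source ∩ 𝒜.ψ a ⁻¹' (ball 0 (r / 4)), K, f, (𝒜.ψ a).isOpen_inter_preimage isOpen_ball,
    ⟨𝒜.mem a, by rw [mem_preimage, 𝒜.zero]; exact mem_ball_self (by linarith)⟩, hKc, hKs, ?_, ?_, ?_, hf0⟩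
  · exact smF_of_chart hKc.isClosed hKs (fun u _ => β.contDiff.contDiffAt) (fun y hy => if_pos hy) hf0
  · intro y
    by_cases hys : y ∈ (𝒜.ψ a).source
    · have h1 : f y = β (𝒜.ψ a y) := if_pos hys
      rw [h1]; exact β.nonneg
    · have h1 : f y = 0 := if_neg hys
      rw [h1]
  · rintro y ⟨hys, hy⟩
    have h1 : f y = β (𝒜.ψ a y) := if_pos hys
    rw [h1]
    exact β.one_of_mem_closedBall (ball_subset_closedBall hy)

/-- **Partition of unity.** -/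
theorem exists_pou [CompactSpace M] : ∃ (s : Finset M) (b : M → M → ℝ), (∀ a ∈ s, SmFI 𝒜 (b a)) ∧
    (∀ a ∈ s, ∃ K, IsCompact K ∧ K ⊆ (𝒜.ψ a).source ∧ ∀ y ∉ K, b a y = 0) ∧
    (∀ y, ∑ a ∈ s, b a y = 1) := by
  classical
  choose U K f hU haU hK hKs hf hf0 hf1 hfK using exists_bump 𝒜
  obtain ⟨s, hs⟩ := isCompact_univ.elim_nhds_subcover U fun a _ => (hU a).mem_nhds (haU a)
  have hcov : ∀ y, ∃ a ∈ s, y ∈ U a := by
    intro y
    have := hs.2 (mem_univ y)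
    simpa using this
  set S : M → ℝ := fun y => ∑ a ∈ s, f a y with hS
  have hSpos : ∀ y, 0 < S y := by
    intro y
    obtain ⟨a, ha, hy⟩ := hcov y
    have h1 : f a y ≤ S y := Finset.single_le_sum (f := fun a => f a y) (fun a _ => hf0 a y) ha
    rw [hf1 a y hy] at h1
    linarith
  have hSs : SmFI 𝒜 S := by
    intro y
    exact ContDiffAt.sum fun a _ => hf a y
  refine ⟨s, fun a y => f a y / S y, fun a _ y => ?_, fun a _ => ⟨K a, hK a, hKs a, fun y hy => ?_⟩, fun y => ?_⟩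
  · exact (hf a y).div (hSs y) (hSpos _).ne'
  · change f a y / S y = 0
    rw [hfK a y hy, zero_div]
  · rw [← Finset.sum_div]
    exact div_self (hSpos y).ne'

end Pool.Agent.Lib.MP_ccbbf6_gt.L4
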