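import Pool.Agent.Lib.MP_ccbbf6_gt.L4.FI2
import Pool.Agent.Lib.MP_ccbbf6_gt.L4.Sp

/-!
# Level 4, FI3: forms on `W = {0 < d(x, y) < π}` in the charts, the density `dens`, the sign `sgW` (helper5)
-/

set_option autoImplicit false
set_option maxSynthPendingDepth 3
set_option linter.unusedSectionVars false

open MeasureTheory Measure Set Filter Topology Metric Real
open scoped ContDiff

noncomputable section

namespace Pool.Agent.Lib.MP_ccbbf6_gt.L4

open Geo FR

/-! ### Splitting `V (n + n)` -/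

/-- splitting of coordinates -/
def splL (n : ℕ) : V (n + n) ≃ₗ[ℝ] Eu n × Eu n where
  toFun w := (WithLp.toLp 2 fun i => w (Fin.castAdd n i), WithLp.toLp 2 fun i => w (Fin.natAdd n i))
  invFun z := Fin.append (WithLp.ofLp z.1) (WithLp.ofLp z.2)
  left_inv w := Fin.append_castAdd_natAdd
  right_inv z := by
    refine Prod.ext ?_ ?_
    · ext i
      exact Fin.append_left _ _ i
    · ext i
      exact Fin.append_right _ _ i
  map_add' _ _ := rfl
  map_smul' _ _ := rfl

/-- splitting of coordinates -/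
def spl (n : ℕ) : V (n + n) ≃L[ℝ] Eu n × Eu n := (splL n).toContinuousLinearEquiv

lemma spl_fst (n : ℕ) (w : V (n + n)) (i : Fin n) : (spl n w).1 i = w (Fin.castAdd n i) := rfl

lemma spl_snd (n : ℕ) (w : V (n + n)) (i : Fin n) : (spl n w).2 i = w (Fin.natAdd n i) := rfl

lemma spl_symm_apply (n : ℕ) (z : Eu n × Eu n) :
    (spl n).symm z = Fin.append (WithLp.ofLp z.1) (WithLp.ofLp z.2) := rfl

lemma mp_spl_symm (n : ℕ) : MeasurePreserving (spl n).symm (volume : Measure (Eu n × Eu n)) volume := by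
  have h1 : MeasurePreserving (Prod.map (WithLp.ofLp : Eu n → (Fin n → ℝ)) (WithLp.ofLp : Eu n → (Fin n → ℝ)))
      (volume : Measure (Eu n × Eu n)) volume :=
    (PiLp.volume_preserving_ofLp (Fin n)).prod (PiLp.volume_preserving_ofLp (Fin n))
  have h2 := volume_measurePreserving_sumPiEquivProdPi_symm (fun _ : Fin n ⊕ Fin n => ℝ)
  have h3 := volume_measurePreserving_piCongrLeft (fun _ : Fin (n + n) => ℝ) (finSumFinEquiv (m := n) (n := n))
  have h4 := (h3.comp h2).comp h1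
  have h5 : ((MeasurableEquiv.piCongrLeft (fun _ : Fin (n + n) => ℝ) (finSumFinEquiv (m := n) (n := n))) ∘
      (MeasurableEquiv.sumPiEquivProdPi fun _ : Fin n ⊕ Fin n => ℝ).symm) ∘
      (Prod.map (WithLp.ofLp : Eu n → (Fin n → ℝ)) (WithLp.ofLp : Eu n → (Fin n → ℝ))) = (spl n).symm := by
    funext z
    funext i
    rw [spl_symm_apply]
    refine Fin.addCases (fun i => ?_) (fun i => ?_) i
    · rw [Fin.append_left]
      have h6 := Equiv.piCongrLeft_apply_apply (P := fun _ : Fin (n + n) => ℝ) (finSumFinEquiv (m := n) (n := n))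
        ((MeasurableEquiv.sumPiEquivProdPi fun _ : Fin n ⊕ Fin n => ℝ).symm
          (Prod.map (WithLp.ofLp : Eu n → (Fin n → ℝ)) (WithLp.ofLp : Eu n → (Fin n → ℝ)) z)) (Sum.inl i)
      exact h6
    · rw [Fin.append_right]
      have h6 := Equiv.piCongrLeft_apply_apply (P := fun _ : Fin (n + n) => ℝ) (finSumFinEquiv (m := n) (n := n))
        ((MeasurableEquiv.sumPiEquivProdPi fun _ : Fin n ⊕ Fin n => ℝ).symm
          (Prod.map (WithLp.ofLp : Eu n → (Fin n → ℝ)) (WithLp.ofLp : Eu n → (Fin n → ℝ)) z)) (Sum.inr i)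
      exact h6
  rw [h5] at h4
  exact h4

/-- integrals in the split coordinates -/
lemma integral_spl (n : ℕ) (f : Eu n × Eu n → ℝ) : ∫ z : Eu n × Eu n, f z = ∫ w : V (n + n), f (spl n w) := by
  have h := (mp_spl_symm n).integral_comp (spl n).symm.toHomeomorph.measurableEmbedding (fun w => f (spl n w))
  rw [← h]
  simp


variable {n : ℕ}

/-- a pair of linear maps in the split coordinates -/
def cj (A B : Eu n →L[ℝ] Eu n) : V (n + n) →L[ℝ] V (n + n) :=
  ((spl n).symm : Eu n × Eu n →L[ℝ] V (n + n)).comp ((A.prodMap B).comp (spl n : V (n + n) →L[ℝ] Eu n × Eu n))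

lemma det_cj (A B : Eu n →L[ℝ] Eu n) : (cj A B).det = A.det * B.det := by
  have h1 := LinearMap.det_conj ((A.prodMap B : Eu n × Eu n →L[ℝ] Eu n × Eu n) : Eu n × Eu n →ₗ[ℝ] Eu n × Eu n)
    (spl n).symm.toLinearEquiv
  have h2 := LinearMap.det_prodMap (A : Eu n →ₗ[ℝ] Eu n) (B : Eu n →ₗ[ℝ] Eu n)
  exact h1.trans h2

/-! ### The charts of `W` -/

variable {M : Type} [MetricSpace M] [CompactSpace M] (𝒜 : SDist n M)

/-- the embedding of `W` -/
def jW : (spW 𝒜).pt → M × M := Subtype.val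

lemma jW_inj : Function.Injective (jW 𝒜) := Subtype.val_injective

/-- product chart -/
def Pab (a b : M) (w : V (n + n)) : M × M := ((𝒜.ψ a).symm (spl n w).1, (𝒜.ψ b).symm (spl n w).2)

/-- domain of the product chart of `W` -/
def Dab (a b : M) : Set (V (n + n)) := {w | ((spl n w).1 ∈ (𝒜.ψ a).target ∧ (spl n w).2 ∈ (𝒜.ψ b).target) ∧
  0 < dist (Pab 𝒜 a b w).1 (Pab 𝒜 a b w).2 ∧ dist (Pab 𝒜 a b w).1 (Pab 𝒜 a b w).2 < π}

/-- the density of a form on `W` at `(x, y)`: the coefficient of `du dv` in the charts centered at `x` and `y` -/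
def dens (Ξ : Om (spW 𝒜)) (z : M × M) : ℝ := topE (n + n) (vAt (jW 𝒜) Ξ (Pab 𝒜 z.1 z.2) 0)

/-- the sign function -/
def sgn (t : ℝ) : ℝ := t / |t|

/-- the sign of the mixed second derivative of `d ^ 2 / 2` -/
def sgW (z : M × M) : ℝ := sgn (Mx (𝒜.F z.1 z.2) (0, 0)).det

/-- integral of a form over `W` -/
def IW [MeasurableSpace M] [BorelSpace M] (Ξ : Om (spW 𝒜)) : ℝ :=
  ∫ z, sgW 𝒜 z * dens 𝒜 Ξ z ∂((μHE[n] : Measure M).prod μHE[n])

end Pool.Agent.Lib.MP_ccbbf6_gt.L4
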