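import Pool.Agent.Lib.MP_ccbbf6_gt.L4.FI0
import Pool.Agent.Lib.MP_ccbbf6_gt.L4.FI3

/-!
# Level 4, FI4: the density of a form on `W`, its continuity, Stokes on `W` (helper5)
-/

set_option autoImplicit false
set_option maxSynthPendingDepth 3
set_option linter.unusedSectionVars false

open MeasureTheory Measure Set Filter Topology Metric Real
open scoped ContDiff

noncomputable section

namespace Pool.Agent.Lib.MP_ccbbf6_gt.L4

open Geo FR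

/-! ### The sign function -/

lemma sgn_mul (a b : ℝ) : sgn (a * b) = sgn a * sgn b := by
  unfold sgn
  rw [abs_mul, mul_div_mul_comm]

lemma sgn_mul_self (a : ℝ) : sgn a * a = |a| := by
  unfold sgn
  rcases eq_or_ne a 0 with h | h
  · rw [h]; simp
  · rw [div_mul_eq_mul_div, div_eq_iff (abs_ne_zero.2 h), abs_mul_abs_self]

lemma sgn_of_pos {a : ℝ} (h : 0 < a) : sgn a = 1 := by
  unfold sgn
  rw [abs_of_pos h, div_self h.ne']

lemma sgn_of_neg {a : ℝ} (h : a < 0) : sgn a = -1 := by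
  unfold sgn
  rw [abs_of_neg h, div_neg, div_self h.ne]

lemma sgn_eventually {E : Type*} [TopologicalSpace E] {f : E → ℝ} {z : E} (hf : ContinuousAt f z) (h0 : f z ≠ 0) :
    ∀ᶠ y in 𝓝 z, sgn (f y) = sgn (f z) := by
  rcases lt_or_gt_of_ne h0 with h | h
  · filter_upwards [hf.eventually (gt_mem_nhds h)] with y hy
    rw [sgn_of_neg hy, sgn_of_neg h]
  · filter_upwards [hf.eventually (lt_mem_nhds h)] with y hy
    rw [sgn_of_pos hy, sgn_of_pos h]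

variable {n : ℕ} {M : Type} [MetricSpace M] [CompactSpace M] (𝒜 : SDist n M)

/-- a family of pairs of points which is smooth near `z` is a local plot of `W` -/
lemma locPl_W {k : ℕ} {q : V k → M × M} {z : V k} (h : ∀ᶠ z' in 𝓝 z, SmAt 𝒜 (fun w => (q w).1) z' ∧
    SmAt 𝒜 (fun w => (q w).2) z' ∧ 0 < dist (q z').1 (q z').2 ∧ dist (q z').1 (q z').2 < π) :
    LocPl (jW 𝒜) q z := by
  obtain ⟨s, hs1, hs2⟩ := exists_sq z h
  refine ⟨⟨fun w => ⟨q (s w), (hs2 w).2.2⟩, ?_, ?_⟩, ?_⟩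
  · intro w
    exact SmAt.comp (g := fun w => (q w).1) (f := (s : V k → V k)) (hs2 w).1 s.smooth.contDiffAt
  · intro w
    exact SmAt.comp (g := fun w => (q w).2) (f := (s : V k → V k)) (hs2 w).2.1 s.smooth.contDiffAt
  · filter_upwards [hs1] with w hw
    change q (s w) = q w
    rw [hw]

lemma continuousAt_Pab {a b : M} {w : V (n + n)} (h1 : (spl n w).1 ∈ (𝒜.ψ a).target)
    (h2 : (spl n w).2 ∈ (𝒜.ψ b).target) : ContinuousAt (Pab 𝒜 a b) w := by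
  have h3 : ContinuousAt (fun w => (spl n w).1) w := (continuous_fst.comp (spl n).continuous).continuousAt
  have h4 : ContinuousAt (fun w => (spl n w).2) w := (continuous_snd.comp (spl n).continuous).continuousAt
  exact (ContinuousAt.comp (g := (𝒜.ψ a).symm) (f := fun w => (spl n w).1) ((𝒜.ψ a).continuousAt_symm h1) h3).prodMk
    (ContinuousAt.comp (g := (𝒜.ψ b).symm) (f := fun w => (spl n w).2) ((𝒜.ψ b).continuousAt_symm h2) h4)

lemma isOpen_Dab (a b : M) : IsOpen (Dab 𝒜 a b) := by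
  rw [isOpen_iff_mem_nhds]
  rintro w ⟨⟨h1, h2⟩, h3, h4⟩
  have hc := continuousAt_Pab 𝒜 h1 h2
  have hd : ContinuousAt (fun w => dist (Pab 𝒜 a b w).1 (Pab 𝒜 a b w).2) w :=
    (continuous_dist.continuousAt (x := Pab 𝒜 a b w)).comp hc
  have h5 : ContinuousAt (fun w => (spl n w).1) w := (continuous_fst.comp (spl n).continuous).continuousAt
  have h6 : ContinuousAt (fun w => (spl n w).2) w := (continuous_snd.comp (spl n).continuous).continuousAt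
  filter_upwards [h5.eventually ((𝒜.ψ a).open_target.mem_nhds h1), h6.eventually ((𝒜.ψ b).open_target.mem_nhds h2),
    hd.eventually (lt_mem_nhds h3), hd.eventually (gt_mem_nhds h4)] with w' e1 e2 e3 e4
  exact ⟨⟨e1, e2⟩, e3, e4⟩

lemma locPl_Pab {a b : M} {w : V (n + n)} (hw : w ∈ Dab 𝒜 a b) : LocPl (jW 𝒜) (Pab 𝒜 a b) w := by
  refine locPl_W 𝒜 ?_
  filter_upwards [(isOpen_Dab 𝒜 a b).mem_nhds hw] with w' hw'
  refine ⟨?_, ?_, hw'.2.1, hw'.2.2⟩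
  · exact smAt_symm (𝒜 := 𝒜) (f := fun w => (spl n w).1) (contDiff_fst.comp (spl n).contDiff).contDiffAt hw'.1.1
  · exact smAt_symm (𝒜 := 𝒜) (f := fun w => (spl n w).2) (contDiff_snd.comp (spl n).contDiff).contDiffAt hw'.1.2

lemma Pab_zero (x y : M) : Pab 𝒜 x y 0 = (x, y) := by
  unfold Pab
  rw [map_zero]
  exact Prod.ext (symm_zero 𝒜 x) (symm_zero 𝒜 y)

lemma zero_mem_Dab {x y : M} (h0 : 0 < dist x y) (h1 : dist x y < π) : (0 : V (n + n)) ∈ Dab 𝒜 x y := by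
  refine ⟨⟨?_, ?_⟩, ?_, ?_⟩
  · rw [map_zero]; exact zero_mem_target 𝒜 x
  · rw [map_zero]; exact zero_mem_target 𝒜 y
  · rw [Pab_zero]; exact h0
  · rw [Pab_zero]; exact h1

/-- if `(x, y)` is not in `W`, the density is zero -/
lemma dens_eq_zero (Ξ : Om (spW 𝒜)) {z : M × M} (hz : ¬ (0 < dist z.1 z.2 ∧ dist z.1 z.2 < π)) : dens 𝒜 Ξ z = 0 := by
  unfold dens
  rw [vAt_of_not, map_zero]
  rintro ⟨P, hP⟩
  have h1 : jW 𝒜 (P.1 0) = z := by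
    have := hP.self_of_nhds
    rw [Pab_zero] at this
    exact this
  have h2 := (P.1 0).2
  change 0 < dist (jW 𝒜 (P.1 0)).1 (jW 𝒜 (P.1 0)).2 ∧ dist (jW 𝒜 (P.1 0)).1 (jW 𝒜 (P.1 0)).2 < π at h2
  rw [h1] at h2
  exact hz h2

/-- transition between two charts of `W` -/
theorem topE_Pab (Ξ : Om (spW 𝒜)) {a b : M} {w : V (n + n)} (hw : w ∈ Dab 𝒜 a b) :
    topE (n + n) (vAt (jW 𝒜) Ξ (Pab 𝒜 a b) w) =
      (Tr 𝒜 a (spl n w).1).det * (Tr 𝒜 b (spl n w).2).det * dens 𝒜 Ξ (Pab 𝒜 a b w) := by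
  obtain ⟨⟨h1, h2⟩, h3, h4⟩ := hw
  set x := (𝒜.ψ a).symm (spl n w).1 with hx
  set y := (𝒜.ψ b).symm (spl n w).2 with hy
  have hxa : x ∈ (𝒜.ψ a).source := (𝒜.ψ a).map_target h1
  have hyb : y ∈ (𝒜.ψ b).source := (𝒜.ψ b).map_target h2
  have hxy : Pab 𝒜 a b w = (x, y) := rfl
  rw [hxy] at h3 h4
  set g : V (n + n) → V (n + n) := fun w' => (spl n).symm (𝒜.ψ x ((𝒜.ψ a).symm (spl n w').1),
    𝒜.ψ y ((𝒜.ψ b).symm (spl n w').2)) with hg
  have hgw : g w = 0 := by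
    rw [hg]
    simp only
    rw [← hx, ← hy, 𝒜.zero, 𝒜.zero]
    exact map_zero _
  have c1 : ContinuousAt (fun w => (spl n w).1) w := (continuous_fst.comp (spl n).continuous).continuousAt
  have c2 : ContinuousAt (fun w => (spl n w).2) w := (continuous_snd.comp (spl n).continuous).continuousAt
  have e1 : ∀ᶠ w' in 𝓝 w, (spl n w').1 ∈ (𝒜.ψ a).target ∧ (𝒜.ψ a).symm (spl n w').1 ∈ (𝒜.ψ x).source := by
    refine (c1.eventually ((𝒜.ψ a).open_target.mem_nhds h1)).and ?_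
    have := ContinuousAt.comp (g := (𝒜.ψ a).symm) (f := fun w => (spl n w).1) ((𝒜.ψ a).continuousAt_symm h1) c1
    exact this.eventually ((𝒜.ψ x).open_source.mem_nhds (𝒜.mem x))
  have e2 : ∀ᶠ w' in 𝓝 w, (spl n w').2 ∈ (𝒜.ψ b).target ∧ (𝒜.ψ b).symm (spl n w').2 ∈ (𝒜.ψ y).source := by
    refine (c2.eventually ((𝒜.ψ b).open_target.mem_nhds h2)).and ?_
    have := ContinuousAt.comp (g := (𝒜.ψ b).symm) (f := fun w => (spl n w).2) ((𝒜.ψ b).continuousAt_symm h2) c2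
    exact this.eventually ((𝒜.ψ y).open_source.mem_nhds (𝒜.mem y))
  have hsm : ∀ᶠ w' in 𝓝 w, ContDiffAt ℝ ∞ g w' := by
    filter_upwards [e1, e2] with w' f1 f2
    have t1 := 𝒜.trans a x _ ((𝒜.ψ a).map_target f1.1) f1.2
    have t2 := 𝒜.trans b y _ ((𝒜.ψ b).map_target f2.1) f2.2
    rw [(𝒜.ψ a).right_inv f1.1] at t1
    rw [(𝒜.ψ b).right_inv f2.1] at t2
    have t3 : ContDiffAt ℝ ∞ (fun w => (spl n w).1) w' := (contDiff_fst.comp (spl n).contDiff).contDiffAt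
    have t4 : ContDiffAt ℝ ∞ (fun w => (spl n w).2) w' := (contDiff_snd.comp (spl n).contDiff).contDiffAt
    exact (spl n).symm.contDiff.contDiffAt.comp w' ((ContDiffAt.comp (g := fun u => 𝒜.ψ x ((𝒜.ψ a).symm u)) w' t1 t3).prodMk
      (ContDiffAt.comp (g := fun u => 𝒜.ψ y ((𝒜.ψ b).symm u)) w' t2 t4))
  have hP : Pab 𝒜 a b =ᶠ[𝓝 w] fun w' => Pab 𝒜 x y (g w') := by
    filter_upwards [e1, e2] with w' f1 f2
    unfold Pab
    simp only [hg, ContinuousLinearEquiv.apply_symm_apply]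
    rw [(𝒜.ψ x).left_inv f1.2, (𝒜.ψ y).left_inv f2.2]
  have hL : LocPl (jW 𝒜) (Pab 𝒜 x y) (g w) := by
    rw [hgw]
    exact locPl_Pab 𝒜 (zero_mem_Dab 𝒜 h3 h4)
  have hder : HasFDerivAt g (cj (Tr 𝒜 a (spl n w).1) (Tr 𝒜 b (spl n w).2)) w := by
    have t1 := hasFDerivAt_Tr 𝒜 h1
    have t2 := hasFDerivAt_Tr 𝒜 h2
    have t3 := (HasFDerivAt.prodMap (spl n w) t1 t2).comp w (spl n).hasFDerivAt
    exact (spl n).symm.hasFDerivAt.comp w t3
  have hv := (vAt_comp (jW_inj 𝒜) Ξ hsm hL).2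
  rw [vAt_congr (jW_inj 𝒜) Ξ hP, hv, topE_map, det_trL, hder.fderiv, det_cj, hgw, hxy]
  rfl

/-- matrix of the mixed second derivative in two charts -/
lemma Mx_Pab (hB : Bl M) {a b : M} {w : V (n + n)} (hw : w ∈ Dab 𝒜 a b) :
    (Mx (𝒜.F a b) (spl n w)).det = (Tr 𝒜 a (spl n w).1).det *
      (Mx (𝒜.F (Pab 𝒜 a b w).1 (Pab 𝒜 a b w).2) (0, 0)).det * (Tr 𝒜 b (spl n w).2).det := by
  obtain ⟨⟨h1, h2⟩, h3, h4⟩ := hw
  set x := (𝒜.ψ a).symm (spl n w).1 with hx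
  set y := (𝒜.ψ b).symm (spl n w).2 with hy
  have hxy : Pab 𝒜 a b w = (x, y) := rfl
  rw [hxy] at h3 h4 ⊢
  simp only at h3 h4 ⊢
  have hF : ContDiffAt ℝ 2 (𝒜.F x y) (0, 0) := (contDiffAt_F 𝒜 hB h4).of_le two_le_infty
  have c1 : ContinuousAt (fun u => (𝒜.ψ a).symm u) (spl n w).1 := (𝒜.ψ a).continuousAt_symm h1
  have c2 : ContinuousAt (fun u => (𝒜.ψ b).symm u) (spl n w).2 := (𝒜.ψ b).continuousAt_symm h2
  have e1 : ∀ᶠ u in 𝓝 (spl n w).1, (𝒜.ψ a).symm u ∈ (𝒜.ψ x).source :=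
    c1.eventually ((𝒜.ψ x).open_source.mem_nhds (𝒜.mem x))
  have e2 : ∀ᶠ u in 𝓝 (spl n w).2, (𝒜.ψ b).symm u ∈ (𝒜.ψ y).source :=
    c2.eventually ((𝒜.ψ y).open_source.mem_nhds (𝒜.mem y))
  have hch : 𝒜.F a b =ᶠ[𝓝 ((spl n w).1, (spl n w).2)] fun z => 𝒜.F x y (𝒜.ψ x ((𝒜.ψ a).symm z.1),
      𝒜.ψ y ((𝒜.ψ b).symm z.2)) := by
    filter_upwards [(continuous_fst.continuousAt (x := ((spl n w).1, (spl n w).2))).eventually e1,
      (continuous_snd.continuousAt (x := ((spl n w).1, (spl n w).2))).eventually e2] with z f1 f2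
    unfold SDist.F SDist.f
    simp only
    rw [(𝒜.ψ x).left_inv f1, (𝒜.ψ y).left_inv f2]
  have h5 := sm0_chain (G' := 𝒜.F a b) (G := 𝒜.F x y) (φ := fun u => 𝒜.ψ x ((𝒜.ψ a).symm u))
    (χ := fun u => 𝒜.ψ y ((𝒜.ψ b).symm u)) (u := (spl n w).1) (v := (spl n w).2)
    (by simp only [← hx, ← hy, 𝒜.zero]; exact hF) ((contDiffAt_Tr 𝒜 h1).of_le two_le_infty)
    ((contDiffAt_Tr 𝒜 h2).of_le two_le_infty) hch
  have h6 := Mx_eq (G' := 𝒜.F a b) (G := 𝒜.F x y) (z' := spl n w) (z := (0, 0)) (L := Tr 𝒜 a (spl n w).1)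
    (L' := Tr 𝒜 b (spl n w).2) (by
      intro c d
      have := h5 c d
      simp only [← hx, ← hy, 𝒜.zero] at this
      exact this)
  rw [h6, Matrix.det_mul, Matrix.det_mul, Matrix.det_transpose, det_mt, det_mt]

/-- the sign in a product chart -/
def sab (a b : M) (w : V (n + n)) : ℝ := sgn (Mx (𝒜.F a b) (spl n w)).det

lemma sab_eq (hB : Bl M) {a b : M} {w : V (n + n)} (hw : w ∈ Dab 𝒜 a b) :
    sab 𝒜 a b w = sgn (Tr 𝒜 a (spl n w).1).det * sgn (Tr 𝒜 b (spl n w).2).det * sgW 𝒜 (Pab 𝒜 a b w) := by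
  unfold sab sgW
  rw [Mx_Pab 𝒜 hB hw, sgn_mul, sgn_mul]
  ring

/-- the integrand in a product chart -/
theorem dens_Pab (hB : Bl M) (Ξ : Om (spW 𝒜)) {a b : M} {w : V (n + n)} (hw : w ∈ Dab 𝒜 a b) :
    |(Tr 𝒜 a (spl n w).1).det| * |(Tr 𝒜 b (spl n w).2).det| * (sgW 𝒜 (Pab 𝒜 a b w) * dens 𝒜 Ξ (Pab 𝒜 a b w)) =
      sab 𝒜 a b w * topE (n + n) (vAt (jW 𝒜) Ξ (Pab 𝒜 a b) w) := by
  rw [topE_Pab 𝒜 Ξ hw, sab_eq 𝒜 hB hw, ← sgn_mul_self (Tr 𝒜 a (spl n w).1).det, ← sgn_mul_self (Tr 𝒜 b (spl n w).2).det]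
  ring

lemma det_Mx_ne_zero (hB : Bl M) {x y : M} (h1 : dist x y < π) : (Mx (𝒜.F x y) (0, 0)).det ≠ 0 := by
  have h2 := theta_pos 𝒜 hB h1
  rw [sme_theta_eq 𝒜 ((contDiffAt_F 𝒜 hB h1).of_le two_le_infty)] at h2
  exact abs_pos.1 h2

lemma sab_eventually (hB : Bl M) {a b : M} {w : V (n + n)} (hw : w ∈ Dab 𝒜 a b) :
    ∀ᶠ w' in 𝓝 w, sab 𝒜 a b w' = sab 𝒜 a b w := by
  have h1 : ContDiffAt ℝ 2 (𝒜.F a b) (spl n w) := by
    have h2 := (contDiffAt_F_iff 𝒜 (p := (Pab 𝒜 a b w).1) (q := (Pab 𝒜 a b w).2) (r := a) (r' := b)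
      ((𝒜.ψ a).map_target hw.1.1) ((𝒜.ψ b).map_target hw.1.2)).2 (contDiffAt_F 𝒜 hB hw.2.2)
    have h3 : (𝒜.ψ a (Pab 𝒜 a b w).1, 𝒜.ψ b (Pab 𝒜 a b w).2) = spl n w :=
      Prod.ext ((𝒜.ψ a).right_inv hw.1.1) ((𝒜.ψ b).right_inv hw.1.2)
    rw [h3] at h2
    exact h2.of_le two_le_infty
  refine sgn_eventually (f := fun w => (Mx (𝒜.F a b) (spl n w)).det) ?_ ?_
  · have h2 : ContinuousAt (fun w => Mx (𝒜.F a b) (spl n w)) w :=
      ContinuousAt.comp (g := Mx (𝒜.F a b)) (continuousAt_Mx h1) (spl n).continuous.continuousAt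
    exact ContinuousAt.comp (g := fun A : Matrix (Fin n) (Fin n) ℝ => A.det)
      (continuous_id.matrix_det).continuousAt h2
  · rw [Mx_Pab 𝒜 hB hw]
    exact mul_ne_zero (mul_ne_zero (det_Tr_ne_zero 𝒜 hw.1.1) (det_Mx_ne_zero 𝒜 hB hw.2.2)) (det_Tr_ne_zero 𝒜 hw.1.2)

/-- the integrand -/
def FW (Ξ : Om (spW 𝒜)) (z : M × M) : ℝ := sgW 𝒜 z * dens 𝒜 Ξ z

/-- the integrand is continuous on `W` -/
theorem continuousAt_FW (hB : Bl M) (Ξ : Om (spW 𝒜)) {z : M × M} (h0 : 0 < dist z.1 z.2) (h1 : dist z.1 z.2 < π) :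
    ContinuousAt (FW 𝒜 Ξ) z := by
  obtain ⟨x, y⟩ := z
  simp only at h0 h1
  have h00 := zero_mem_Dab 𝒜 h0 h1
  -- in the chart
  have h2 : ContinuousAt (fun w => sab 𝒜 x y 0 * topE (n + n) (vAt (jW 𝒜) Ξ (Pab 𝒜 x y) w) /
      (|(Tr 𝒜 x (spl n w).1).det| * |(Tr 𝒜 y (spl n w).2).det|)) 0 := by
    have c1 : ContinuousAt (fun w : V (n + n) => |(Tr 𝒜 x (spl n w).1).det|) 0 := by
      have t1 := (continuousOn_absdet_Tr 𝒜 x).continuousAt ((𝒜.ψ x).open_target.mem_nhds h00.1.1)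
      exact ContinuousAt.comp (g := fun u => |(Tr 𝒜 x u).det|) (f := fun w : V (n + n) => (spl n w).1) t1
        (continuous_fst.comp (spl n).continuous).continuousAt
    have c2 : ContinuousAt (fun w : V (n + n) => |(Tr 𝒜 y (spl n w).2).det|) 0 := by
      have t1 := (continuousOn_absdet_Tr 𝒜 y).continuousAt ((𝒜.ψ y).open_target.mem_nhds h00.1.2)
      exact ContinuousAt.comp (g := fun u => |(Tr 𝒜 y u).det|) (f := fun w : V (n + n) => (spl n w).2) t1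
        (continuous_snd.comp (spl n).continuous).continuousAt
    have c3 : ContinuousAt (fun w : V (n + n) => topE (n + n) (vAt (jW 𝒜) Ξ (Pab 𝒜 x y) w)) 0 :=
      (contDiffAt_vAt (jW_inj 𝒜) Ξ (locPl_Pab 𝒜 h00) (topE (n + n))).continuousAt
    refine (continuousAt_const.mul c3).div (c1.mul c2) ?_
    exact mul_ne_zero (abs_ne_zero.2 (det_Tr_ne_zero 𝒜 h00.1.1)) (abs_ne_zero.2 (det_Tr_ne_zero 𝒜 h00.1.2))
  have h3 : ContinuousAt (fun w => FW 𝒜 Ξ (Pab 𝒜 x y w)) 0 := by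
    refine h2.congr ?_
    filter_upwards [(isOpen_Dab 𝒜 x y).mem_nhds h00, sab_eventually 𝒜 hB h00] with w hw hs
    have h4 := dens_Pab 𝒜 hB Ξ hw
    have h5 : |(Tr 𝒜 x (spl n w).1).det| * |(Tr 𝒜 y (spl n w).2).det| ≠ 0 :=
      mul_ne_zero (abs_ne_zero.2 (det_Tr_ne_zero 𝒜 hw.1.1)) (abs_ne_zero.2 (det_Tr_ne_zero 𝒜 hw.1.2))
    rw [← hs, div_eq_iff h5, ← h4]
    unfold FW
    ring
  -- back to `M × M`
  set κ : M × M → V (n + n) := fun z' => (spl n).symm (𝒜.ψ x z'.1, 𝒜.ψ y z'.2) with hκ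
  have hκ0 : κ (x, y) = 0 := by
    rw [hκ]
    simp only
    rw [𝒜.zero, 𝒜.zero]
    exact map_zero _
  have hκc : ContinuousAt κ (x, y) := by
    have t1 : ContinuousAt (fun z' : M × M => 𝒜.ψ x z'.1) (x, y) :=
      ContinuousAt.comp (g := 𝒜.ψ x) ((𝒜.ψ x).continuousAt (𝒜.mem x)) continuous_fst.continuousAt
    have t2 : ContinuousAt (fun z' : M × M => 𝒜.ψ y z'.2) (x, y) :=
      ContinuousAt.comp (g := 𝒜.ψ y) ((𝒜.ψ y).continuousAt (𝒜.mem y)) continuous_snd.continuousAt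
    exact (spl n).symm.continuous.continuousAt.comp (t1.prodMk t2)
  have h6 : ContinuousAt (fun z' => FW 𝒜 Ξ (Pab 𝒜 x y (κ z'))) (x, y) := by
    rw [← hκ0] at h3
    exact ContinuousAt.comp (g := fun w => FW 𝒜 Ξ (Pab 𝒜 x y w)) h3 hκc
  refine h6.congr ?_
  have t1 : ∀ᶠ z' : M × M in 𝓝 (x, y), z'.1 ∈ (𝒜.ψ x).source :=
    (continuous_fst.continuousAt (x := (x, y))).eventually ((𝒜.ψ x).open_source.mem_nhds (𝒜.mem x))
  have t2 : ∀ᶠ z' : M × M in 𝓝 (x, y), z'.2 ∈ (𝒜.ψ y).source :=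
    (continuous_snd.continuousAt (x := (x, y))).eventually ((𝒜.ψ y).open_source.mem_nhds (𝒜.mem y))
  filter_upwards [t1, t2] with z' f1 f2
  have h7 : Pab 𝒜 x y (κ z') = z' := by
    unfold Pab
    simp only [hκ, ContinuousLinearEquiv.apply_symm_apply]
    rw [(𝒜.ψ x).left_inv f1, (𝒜.ψ y).left_inv f2]
  rw [h7]

end Pool.Agent.Lib.MP_ccbbf6_gt.L4
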