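import Pool.Agent.Lib.MP_ccbbf6_gt.Geo.Area2
import Pool.Agent.Lib.MP_ccbbf6_gt.L4.FI1
import Pool.Agent.Lib.MP_ccbbf6_gt.L4.FI4

/-!
# Level 4, FI5: supports, integrability, Stokes on `W` (helper5)
-/

set_option autoImplicit false
set_option maxSynthPendingDepth 3
set_option linter.unusedSectionVars false

open MeasureTheory Measure Set Filter Topology Metric Real
open scoped ContDiff

noncomputable section

namespace Pool.Agent.Lib.MP_ccbbf6_gt.L4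

open Geo FR

/-! ### General facts on forms -/

section general

variable {X : Space} {k : ℕ}

/-- the value of a form on a plot, as a linear map -/
def onL (p : X.Plot k) : Om X →ₗ[ℝ] Fm k where
  toFun θ := Om.on θ p
  map_add' _ _ := rfl
  map_smul' _ _ := rfl

lemma on_sum {ι : Type*} (s : Finset ι) (θ : ι → Om X) (p : X.Plot k) :
    Om.on (∑ i ∈ s, θ i) p = ∑ i ∈ s, Om.on (θ i) p := map_sum (onL p) θ s

/-- `dθ` vanishes where `θ` vanishes near the point -/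
lemma ev_dd_of_zero {θ : Fm k} {z : V k} (h : ∀ᶠ z' in 𝓝 z, ev z' θ = 0) : ev z (dd k θ) = 0 := by
  obtain ⟨s, hs1, hs2⟩ := exists_sq z h
  have h1 : pb s θ = 0 := ev_inj fun w => by rw [ev_pb, hs2 w, map_zero]
  have h2 : ev z (pb s (dd k θ)) = ev z (dd k θ) := by
    rw [ev_pb, tr_of_id hs1, hs1.self_of_nhds, ExteriorAlgebra.map_id]
    rfl
  rw [← h2, ← pb_dd, h1, map_zero, map_zero]

end general

variable {n : ℕ} {M : Type} [MetricSpace M] [CompactSpace M] (𝒜 : SDist n M)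

/-! ### Supports -/

/-- the form vanishes outside `C` -/
def Supp (C : Set (M × M)) (Ξ : Om (spW 𝒜)) : Prop :=
  ∀ (k : ℕ) (p : (spW 𝒜).Plot k) (z : V k), jW 𝒜 (p.1 z) ∉ C → ev z (Om.on Ξ p) = 0

variable {𝒜}

lemma Supp.mono {C C' : Set (M × M)} {Ξ : Om (spW 𝒜)} (h : Supp 𝒜 C Ξ) (hC : C ⊆ C') : Supp 𝒜 C' Ξ :=
  fun k p z hz => h k p z fun hz' => hz (hC hz')

lemma Supp.add {C : Set (M × M)} {Ξ Ξ' : Om (spW 𝒜)} (h : Supp 𝒜 C Ξ) (h' : Supp 𝒜 C Ξ') : Supp 𝒜 C (Ξ + Ξ') :=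
  fun k p z hz => by rw [on_add, map_add, h k p z hz, h' k p z hz, add_zero]

lemma Supp.smul {C : Set (M × M)} {Ξ : Om (spW 𝒜)} (r : ℝ) (h : Supp 𝒜 C Ξ) : Supp 𝒜 C (r • Ξ) :=
  fun k p z hz => by rw [on_smul, map_smul, h k p z hz, smul_zero]

lemma Supp.mul_left {C : Set (M × M)} {Ξ : Om (spW 𝒜)} (Θ : Om (spW 𝒜)) (h : Supp 𝒜 C Ξ) : Supp 𝒜 C (Θ * Ξ) :=
  fun k p z hz => by rw [on_mul, map_mul, h k p z hz, mul_zero]

lemma Supp.mul_right {C : Set (M × M)} {Ξ : Om (spW 𝒜)} (Θ : Om (spW 𝒜)) (h : Supp 𝒜 C Ξ) : Supp 𝒜 C (Ξ * Θ) :=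
  fun k p z hz => by rw [on_mul, map_mul, h k p z hz, zero_mul]

lemma Supp.inter {C C' : Set (M × M)} {Ξ Ξ' : Om (spW 𝒜)} (h : Supp 𝒜 C Ξ) (h' : Supp 𝒜 C' Ξ') :
    Supp 𝒜 (C ∩ C') (Ξ * Ξ') := by
  intro k p z hz
  rw [on_mul, map_mul]
  by_cases h1 : jW 𝒜 (p.1 z) ∈ C
  · rw [h' k p z fun h2 => hz ⟨h1, h2⟩, mul_zero]
  · rw [h k p z h1, zero_mul]

lemma plot_continuous {k : ℕ} (p : (spW 𝒜).Plot k) : Continuous fun w => jW 𝒜 (p.1 w) :=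
  (Sm.continuous p.2.1).prodMk (Sm.continuous p.2.2)

lemma Supp.d {C : Set (M × M)} (hC : IsClosed C) {Ξ : Om (spW 𝒜)} (h : Supp 𝒜 C Ξ) : Supp 𝒜 C (dO _ Ξ) := by
  intro k p z hz
  rw [on_d]
  refine ev_dd_of_zero ?_
  filter_upwards [(plot_continuous p).continuousAt.eventually (hC.isOpen_compl.mem_nhds hz)] with z' hz'
  exact h k p z' hz'

lemma Supp.fO {C : Set (M × M)} {f : (spW 𝒜).pt → ℝ} (hf : ∀ (k : ℕ) (p : (spW 𝒜).Plot k), ContDiff ℝ ∞ fun x => f (p.1 x))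
    (h : ∀ z, jW 𝒜 z ∉ C → f z = 0) : Supp 𝒜 C (FR.fO f hf) := by
  intro k p z hz
  rw [ev_fO, h _ hz, map_zero]

lemma Supp.vAt {C : Set (M × M)} {Ξ : Om (spW 𝒜)} (h : Supp 𝒜 C Ξ) {k : ℕ} {p : V k → M × M} {z : V k} (hz : p z ∉ C) :
    FR.vAt (jW 𝒜) Ξ p z = 0 := by
  by_cases hp : LocPl (jW 𝒜) p z
  · obtain ⟨P, hP⟩ := hp
    rw [vAt_eq (jW_inj 𝒜) Ξ P hP]
    refine h k P z ?_
    have h1 : jW 𝒜 (P.1 z) = p z := hP.self_of_nhds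
    rw [h1]
    exact hz
  · exact vAt_of_not _ hp

lemma Supp.dens {C : Set (M × M)} {Ξ : Om (spW 𝒜)} (h : Supp 𝒜 C Ξ) {z : M × M} (hz : z ∉ C) : L4.dens 𝒜 Ξ z = 0 := by
  unfold L4.dens
  rw [h.vAt (by rw [Pab_zero]; exact hz), map_zero]

variable (𝒜)

lemma dens_add (Ξ Ξ' : Om (spW 𝒜)) (z : M × M) : dens 𝒜 (Ξ + Ξ') z = dens 𝒜 Ξ z + dens 𝒜 Ξ' z := by
  unfold dens
  rw [vAt_add (jW_inj 𝒜), map_add]

lemma dens_smul (r : ℝ) (Ξ : Om (spW 𝒜)) (z : M × M) : dens 𝒜 (r • Ξ) z = r * dens 𝒜 Ξ z := by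
  unfold dens
  rw [vAt_smul (jW_inj 𝒜), map_smul, smul_eq_mul]

lemma FW_add (Ξ Ξ' : Om (spW 𝒜)) (z : M × M) : FW 𝒜 (Ξ + Ξ') z = FW 𝒜 Ξ z + FW 𝒜 Ξ' z := by
  unfold FW
  rw [dens_add, mul_add]

lemma FW_smul (r : ℝ) (Ξ : Om (spW 𝒜)) (z : M × M) : FW 𝒜 (r • Ξ) z = r * FW 𝒜 Ξ z := by
  unfold FW
  rw [dens_smul]
  ring

/-- `C ⊆ W` -/
def InW (C : Set (M × M)) : Prop := ∀ z ∈ C, 0 < dist z.1 z.2 ∧ dist z.1 z.2 < π

/-- the integrand is continuous on `M × M` for forms with support in a closed subset of `W` -/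
theorem continuous_FW (hB : Bl M) {C : Set (M × M)} (hC : IsClosed C) (hCW : InW C) {Ξ : Om (spW 𝒜)}
    (h : Supp 𝒜 C Ξ) : Continuous (FW 𝒜 Ξ) := by
  rw [continuous_iff_continuousAt]
  intro z
  by_cases hz : z ∈ C
  · exact continuousAt_FW 𝒜 hB Ξ (hCW z hz).1 (hCW z hz).2
  · have h1 : FW 𝒜 Ξ =ᶠ[𝓝 z] fun _ => 0 := by
      filter_upwards [hC.isOpen_compl.mem_nhds hz] with z' hz'
      unfold FW
      rw [h.dens hz', mul_zero]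
    exact continuousAt_const.congr h1.symm

section measure

variable [MeasurableSpace M] [BorelSpace M]

lemma integrable_FW (hB : Bl M) {C : Set (M × M)} (hC : IsClosed C) (hCW : InW C) {Ξ : Om (spW 𝒜)}
    (h : Supp 𝒜 C Ξ) : Integrable (FW 𝒜 Ξ) ((μHE[n] : Measure M).prod μHE[n]) := by
  have := finite_of_sdist 𝒜
  exact (continuous_FW 𝒜 hB hC hCW h).integrable_of_hasCompactSupport (HasCompactSupport.of_compactSpace _)

lemma IW_eq (Ξ : Om (spW 𝒜)) : IW 𝒜 Ξ = ∫ z, FW 𝒜 Ξ z ∂((μHE[n] : Measure M).prod μHE[n]) := rfl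

lemma IW_add (hB : Bl M) {C : Set (M × M)} (hC : IsClosed C) (hCW : InW C) {Ξ Ξ' : Om (spW 𝒜)}
    (h : Supp 𝒜 C Ξ) (h' : Supp 𝒜 C Ξ') : IW 𝒜 (Ξ + Ξ') = IW 𝒜 Ξ + IW 𝒜 Ξ' := by
  rw [IW_eq, IW_eq, IW_eq, ← integral_add (integrable_FW 𝒜 hB hC hCW h) (integrable_FW 𝒜 hB hC hCW h')]
  simp only [FW_add]

lemma IW_smul (r : ℝ) (Ξ : Om (spW 𝒜)) : IW 𝒜 (r • Ξ) = r * IW 𝒜 Ξ := by
  rw [IW_eq, IW_eq, ← integral_const_mul]
  simp only [FW_smul]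

lemma IW_zero : IW 𝒜 (0 : Om (spW 𝒜)) = 0 := by
  have := IW_smul 𝒜 0 (0 : Om (spW 𝒜))
  rwa [zero_smul, zero_mul] at this

lemma Supp_zero (C : Set (M × M)) : Supp 𝒜 C 0 := fun k p z _ => by rw [on_zero, map_zero]

lemma Supp_sum {C : Set (M × M)} {ι : Type*} (s : Finset ι) {Ξ : ι → Om (spW 𝒜)} (h : ∀ i ∈ s, Supp 𝒜 C (Ξ i)) :
    Supp 𝒜 C (∑ i ∈ s, Ξ i) := by
  classical
  induction s using Finset.induction_on with
  | empty => rw [Finset.sum_empty]; exact Supp_zero 𝒜 C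
  | insert a s ha ih =>
    rw [Finset.sum_insert ha]
    exact (h a (Finset.mem_insert_self a s)).add (ih fun i hi => h i (Finset.mem_insert_of_mem hi))

lemma IW_sum (hB : Bl M) {C : Set (M × M)} (hC : IsClosed C) (hCW : InW C) {ι : Type*} (s : Finset ι)
    {Ξ : ι → Om (spW 𝒜)} (h : ∀ i ∈ s, Supp 𝒜 C (Ξ i)) : IW 𝒜 (∑ i ∈ s, Ξ i) = ∑ i ∈ s, IW 𝒜 (Ξ i) := by
  classical
  induction s using Finset.induction_on with
  | empty => rw [Finset.sum_empty, Finset.sum_empty]; exact IW_zero 𝒜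
  | insert a s ha ih =>
    rw [Finset.sum_insert ha, Finset.sum_insert ha,
      IW_add 𝒜 hB hC hCW (h a (Finset.mem_insert_self a s)) (Supp_sum 𝒜 s fun i hi => h i (Finset.mem_insert_of_mem hi)),
      ih fun i hi => h i (Finset.mem_insert_of_mem hi)]

/-- the integral over `W` in a product chart -/
theorem IW_chart (hB : Bl M) {C : Set (M × M)} (hC : IsClosed C) (hCW : InW C) {Ξ : Om (spW 𝒜)} (h : Supp 𝒜 C Ξ)
    {a b : M} (hab : ∀ z ∈ C, z.1 ∈ (𝒜.ψ a).source ∧ z.2 ∈ (𝒜.ψ b).source) :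
    IW 𝒜 Ξ = ∫ w in Dab 𝒜 a b, sab 𝒜 a b w * topE (n + n) (vAt (jW 𝒜) Ξ (Pab 𝒜 a b) w) := by
  have := finite_of_sdist 𝒜
  rw [IW_eq, integral_prod_chart 𝒜 a b (continuous_FW 𝒜 hB hC hCW h).aestronglyMeasurable, integral_spl,
    ← integral_indicator (isOpen_Dab 𝒜 a b).measurableSet]
  · refine integral_congr_ae (Eventually.of_forall fun w => ?_)
    simp only
    by_cases h1 : (spl n w).1 ∈ (𝒜.ψ a).target
    · by_cases h2 : (spl n w).2 ∈ (𝒜.ψ b).target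
      · rw [Dn_eq 𝒜 h1, Dn_eq 𝒜 h2, gm_eq 𝒜 h1, gm_eq 𝒜 h2]
        change _ * FW 𝒜 Ξ (Pab 𝒜 a b w) = _
        by_cases h3 : 0 < dist (Pab 𝒜 a b w).1 (Pab 𝒜 a b w).2 ∧ dist (Pab 𝒜 a b w).1 (Pab 𝒜 a b w).2 < π
        · have hw : w ∈ Dab 𝒜 a b := ⟨⟨h1, h2⟩, h3⟩
          rw [indicator_of_mem hw, ← dens_Pab 𝒜 hB Ξ hw]
          rfl
        · have hw : w ∉ Dab 𝒜 a b := fun hw => h3 hw.2
          rw [indicator_of_notMem hw]
          unfold FW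
          rw [dens_eq_zero 𝒜 Ξ h3, mul_zero, mul_zero]
      · have hw : w ∉ Dab 𝒜 a b := fun hw => h2 hw.1.2
        rw [indicator_of_notMem hw, Dn_eq_zero 𝒜 h2, mul_zero, zero_mul]
    · have hw : w ∉ Dab 𝒜 a b := fun hw => h1 hw.1.1
      rw [indicator_of_notMem hw, Dn_eq_zero 𝒜 h1, zero_mul, zero_mul]
  · intro z hz
    refine hab z ?_
    by_contra hzC
    apply hz
    unfold FW
    rw [h.dens hzC, mul_zero]

/-- Stokes for forms with support in a product of charts -/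
theorem IW_d_chart (hB : Bl M) {C : Set (M × M)} (hC : IsClosed C) (hCW : InW C) {Ξ : Om (spW 𝒜)} (h : Supp 𝒜 C Ξ)
    {a b : M} (hab : ∀ z ∈ C, z.1 ∈ (𝒜.ψ a).source ∧ z.2 ∈ (𝒜.ψ b).source) : IW 𝒜 (dO _ Ξ) = 0 := by
  rw [IW_chart 𝒜 hB hC hCW (h.d hC) hab]
  set κ : M × M → V (n + n) := fun z' => (spl n).symm (𝒜.ψ a z'.1, 𝒜.ψ b z'.2) with hκ
  have hκc : ContinuousOn κ C := by
    intro z hz
    refine ContinuousAt.continuousWithinAt ?_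
    have t1 : ContinuousAt (fun z' : M × M => 𝒜.ψ a z'.1) z :=
      ContinuousAt.comp (g := 𝒜.ψ a) (f := Prod.fst) ((𝒜.ψ a).continuousAt (hab z hz).1) continuous_fst.continuousAt
    have t2 : ContinuousAt (fun z' : M × M => 𝒜.ψ b z'.2) z :=
      ContinuousAt.comp (g := 𝒜.ψ b) (f := Prod.snd) ((𝒜.ψ b).continuousAt (hab z hz).2) continuous_snd.continuousAt
    exact (spl n).symm.continuous.continuousAt.comp (t1.prodMk t2)
  have hPκ : ∀ z ∈ C, Pab 𝒜 a b (κ z) = z := by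
    intro z hz
    unfold Pab
    simp only [hκ, ContinuousLinearEquiv.apply_symm_apply]
    rw [(𝒜.ψ a).left_inv (hab z hz).1, (𝒜.ψ b).left_inv (hab z hz).2]
  refine stokes_loc (jW_inj 𝒜) Ξ (isOpen_Dab 𝒜 a b) (K := κ '' C) (hC.isCompact.image_of_continuousOn hκc) ?_
    (fun w hw => sab_eventually 𝒜 hB hw) (fun w hw => locPl_Pab 𝒜 hw) ?_
  · rintro _ ⟨z, hz, rfl⟩
    refine ⟨⟨?_, ?_⟩, ?_⟩
    · simp only [hκ, ContinuousLinearEquiv.apply_symm_apply]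
      exact (𝒜.ψ a).map_source (hab z hz).1
    · simp only [hκ, ContinuousLinearEquiv.apply_symm_apply]
      exact (𝒜.ψ b).map_source (hab z hz).2
    · rw [hPκ z hz]
      exact hCW z hz
  · intro w hw hwK
    refine h.vAt fun hC' => hwK ⟨_, hC', ?_⟩
    have h1 : 𝒜.ψ a (Pab 𝒜 a b w).1 = (spl n w).1 := (𝒜.ψ a).right_inv hw.1.1
    have h2 : 𝒜.ψ b (Pab 𝒜 a b w).2 = (spl n w).2 := (𝒜.ψ b).right_inv hw.1.2
    simp only [hκ, h1, h2]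
    exact (spl n).symm_apply_apply w

/-- smooth functions along smooth families -/
lemma SmFI.comp_smAt {f : M → ℝ} (hf : SmFI 𝒜 f) {E : Type*} [NormedAddCommGroup E] [NormedSpace ℝ E] {g : E → M} {u : E}
    (hg : SmAt 𝒜 g u) : ContDiffAt ℝ ∞ (fun v => f (g v)) u := by
  have h1 : ContDiffAt ℝ ∞ (fun w => f ((𝒜.ψ (g u)).symm w)) (𝒜.ψ (g u) (g u)) := by
    rw [𝒜.zero]; exact hf (g u)
  have h2 := ContDiffAt.comp (g := fun w => f ((𝒜.ψ (g u)).symm w)) (f := fun v => 𝒜.ψ (g u) (g v)) u h1 hg.2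
  refine h2.congr_of_eventuallyEq ?_
  filter_upwards [hg.1.eventually ((𝒜.ψ (g u)).open_source.mem_nhds (𝒜.mem _))] with v hv
  simp only [Function.comp_apply]
  rw [(𝒜.ψ (g u)).left_inv hv]

/-- **Stokes on `W`.** -/
theorem IW_d (hB : Bl M) {C : Set (M × M)} (hC : IsClosed C) (hCW : InW C) {Ξ : Om (spW 𝒜)} (h : Supp 𝒜 C Ξ) :
    IW 𝒜 (dO _ Ξ) = 0 := by
  classical
  obtain ⟨s, b, hb1, hb2, hb3⟩ := exists_pou 𝒜
  have hsm : ∀ i : s × s, ∀ (k : ℕ) (p : (spW 𝒜).Plot k),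
      ContDiff ℝ ∞ fun x => (fun z : (spW 𝒜).pt => b i.1 z.1.1 * b i.2 z.1.2) (p.1 x) := by
    intro i k p
    rw [contDiff_iff_contDiffAt]
    intro x
    exact (SmFI.comp_smAt 𝒜 (hb1 i.1 i.1.2) (p.2.1 x)).mul (SmFI.comp_smAt 𝒜 (hb1 i.2 i.2.2) (p.2.2 x))
  set β : s × s → Om (spW 𝒜) := fun i => FR.fO (fun z : (spW 𝒜).pt => b i.1 z.1.1 * b i.2 z.1.2) (hsm i) with hβ
  have h1 : ∑ i, β i = 1 := by
    refine Om_ext fun k p => ev_ext fun x => ?_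
    rw [on_sum, _root_.map_sum, on_one, map_one]
    simp only [hβ, ev_fO]
    rw [← _root_.map_sum, Fintype.sum_prod_type]
    have h2 : ∑ x_1 : s, ∑ x_2 : s, b x_1 (p.1 x).1.1 * b x_2 (p.1 x).1.2 = 1 := by
      rw [← Finset.sum_mul_sum]
      have h3 : ∀ y, ∑ a : s, b a y = 1 := by
        intro y
        rw [Finset.sum_coe_sort s fun a => b a y]
        exact hb3 y
      rw [h3, h3, mul_one]
    rw [h2, map_one]
  have h2 : dO _ Ξ = ∑ i, dO _ (β i * Ξ) := by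
    rw [← _root_.map_sum, ← Finset.sum_mul, h1, one_mul]
  rw [h2, IW_sum 𝒜 hB hC hCW _ fun i _ => (h.mul_left (β i)).d hC]
  refine Finset.sum_eq_zero fun i _ => ?_
  obtain ⟨K1, hK1, hK1s, hK10⟩ := hb2 i.1 i.1.2
  obtain ⟨K2, hK2, hK2s, hK20⟩ := hb2 i.2 i.2.2
  have h3 : Supp 𝒜 (K1 ×ˢ K2) (β i) := by
    refine Supp.fO _ fun z hz => ?_
    change b i.1 (jW 𝒜 z).1 * b i.2 (jW 𝒜 z).2 = 0
    by_cases h4 : (jW 𝒜 z).1 ∈ K1
    · rw [hK20 _ fun h5 => hz ⟨h4, h5⟩, mul_zero]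
    · rw [hK10 _ h4, zero_mul]
  have h4 : Supp 𝒜 ((K1 ×ˢ K2) ∩ C) (β i * Ξ) := h3.inter h
  exact IW_d_chart 𝒜 hB ((hK1.isClosed.prod hK2.isClosed).inter hC) (fun z hz => hCW z hz.2) h4
    (a := i.1) (b := i.2) fun z hz => ⟨hK1s hz.1.1, hK2s hz.1.2⟩

end measure

end Pool.Agent.Lib.MP_ccbbf6_gt.L4
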