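import Pool.Agent.Lib.MP_ccbbf6_gt.L4.FI4

/-!
# Level 4, FI6: the functional `TG` on forms on the space of geodesics (helper5)

* `TG hB : Om (spG 𝒜) →ₗ[ℝ] ℝ`, `TG Θ = ∫_W dχ(d(x, y)) ∧ G^*Θ`;
* `TG_d`: `TG (dΘ) = 0`;
* `TG_of_kills`: `TG Θ = 0` if the contraction of `Θ` with a flow which moves the points vanishes;
* `TG_even`: `TG Θ = 0` if `Θ` is even.
-/

set_option autoImplicit false
set_option maxSynthPendingDepth 3
set_option linter.unusedSectionVars false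

open MeasureTheory Measure Set Filter Topology Metric Real
open scoped ContDiff

noncomputable section

namespace Pool.Agent.Lib.MP_ccbbf6_gt.L4

open Geo FR

/-! ### Contractions at a point -/

section general

variable {X Y : Space} {k : ℕ}

lemma ev_cn (φ : V k →ₗ[ℝ] ℝ) (z : V k) (x : Fm k) : ev z (cn φ x) = ctr φ (ev z x) := by
  induction x using Fm_tind with
  | hf f a =>
    have h : cn φ (tm f a) = tm f (ctr φ a) := rfl
    rw [h, ev_tm, ev_tm, _root_.map_smul]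
  | ha x y hx hy => rw [_root_.map_add, _root_.map_add, hx, hy, _root_.map_add, _root_.map_add]

lemma ev_sg (z : V k) (x : Fm k) : ev z (sg k x) = ivo k (ev z x) := by
  induction x using Fm_tind with
  | hf f a => rw [sg_tm, ev_tm, ev_tm, _root_.map_smul]
  | ha x y hx hy => rw [_root_.map_add, _root_.map_add, hx, hy, _root_.map_add, _root_.map_add]

/-- the contraction of `Θ` with the velocity of `a : X × ℝ → X` at time `0` vanishes -/
def Kills (a : SMap X.xR X) (Θ : Om X) : Prop :=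
  ∀ (k : ℕ) (p : X.Plot k), pb (sl k 0) (cs k (Om.on (a.pull Θ) p.up)) = 0

/-- linear form given by a vector -/
def dotF (x : V k) : V k →ₗ[ℝ] ℝ where
  toFun v := ∑ j, v j * x j
  map_add' v w := by
    rw [← Finset.sum_add_distrib]
    exact Finset.sum_congr rfl fun j _ => add_mul _ _ _
  map_smul' r v := by
    rw [RingHom.id_apply, smul_eq_mul, Finset.mul_sum]
    exact Finset.sum_congr rfl fun j _ => mul_assoc _ _ _

lemma dotF_ne_zero {x : V k} (hx : x ≠ 0) : dotF x ≠ 0 := by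
  obtain ⟨j, hj⟩ : ∃ j, x j ≠ 0 := by
    by_contra h
    push Not at h
    exact hx (funext h)
  intro h
  have h1 : dotF x (Pi.single j 1) = 0 := by rw [h]; rfl
  apply hj
  have h2 : dotF x (Pi.single j 1) = x j := by
    change ∑ i, (Pi.single j (1 : ℝ) : V k) i * x i = x j
    rw [Finset.sum_eq_single j]
    · rw [Pi.single_eq_same, one_mul]
    · intro b _ hb
      rw [Pi.single_eq_of_ne hb, zero_mul]
    · intro h
      exact absurd (Finset.mem_univ j) h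
  rw [← h2, h1]

/-- the contraction of a form with the velocity of a flow, in a plot -/
lemma ev_flow (a : SMap X.xR X) (p : X.Plot k) (z : V k) {h : V (k + 1) → V k}
    (hs : ∀ᶠ z' in 𝓝 (Fin.snoc z 0 : V (k + 1)), ContDiffAt ℝ ∞ h z')
    (h0 : ∀ᶠ w in 𝓝 z, h (Fin.snoc w 0) = w)
    (h1 : ∀ᶠ z' in 𝓝 (Fin.snoc z 0 : V (k + 1)), a.1 (p.up.1 z') = p.1 (h z')) (Θ : Om X) :
    ev z (pb (sl k 0) (cs k (Om.on (a.pull Θ) p.up))) =
      ctr (dotF (fderiv ℝ h (Fin.snoc z 0) (Pi.single (Fin.last k) 1))) (ev z (Om.on Θ p)) := by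
  obtain ⟨g, hg⟩ := exists_glob hs
  have hsl : sl k 0 z = Fin.snoc z 0 := rfl
  have hc : ContinuousAt (fun w : V k => (Fin.snoc w 0 : V (k + 1))) z := (sl k 0).smooth.continuous.continuousAt
  have e1 : (a.pl p.up).1 =ᶠ[𝓝 (Fin.snoc z 0 : V (k + 1))] (p.cmp g).1 := by
    filter_upwards [h1, hg] with z' h2 h3
    change a.1 (p.up.1 z') = p.1 (g z')
    rw [h2, h3]
  have e2 : g (Fin.snoc z 0) = z := by rw [hg.self_of_nhds]; exact h0.self_of_nhds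
  have e3 : ((g.comp (sl k 0) : FR.Sm k k) : V k → V k) =ᶠ[𝓝 z] fun w => w := by
    filter_upwards [h0, hc.eventually hg] with w h2 h3
    change g (Fin.snoc w 0) = w
    rw [h3, h2]
  have e4 : (tr (sl k 0) z).comp (tr g (Fin.snoc z 0)) = LinearMap.id := by
    rw [tr_eq, tr_eq, ← trL_comp]
    have h5 : (fderiv ℝ (g : V (k + 1) → V k) (Fin.snoc z 0)).comp (fderiv ℝ (sl k 0 : V k → V (k + 1)) z) =
        ContinuousLinearMap.id ℝ (V k) := by
      have h6 := fderiv_comp (g := (g : V (k + 1) → V k)) (f := (sl k 0 : V k → V (k + 1))) z (g.diff _) ((sl k 0).diff z)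
      rw [hsl] at h6
      rw [← h6]
      have h7 : ((g : V (k + 1) → V k) ∘ (sl k 0 : V k → V (k + 1))) =ᶠ[𝓝 z] fun w => w := e3
      rw [h7.fderiv_eq, fderiv_fun_id]
    rw [h5, trL_id]
  have e5 : (lst k).comp (tr g (Fin.snoc z 0)) = dotF (fderiv ℝ h (Fin.snoc z 0) (Pi.single (Fin.last k) 1)) := by
    rw [tr_eq, hg.fderiv_eq]
    refine LinearMap.ext fun v => ?_
    rw [LinearMap.comp_apply, lst_apply, trL_apply]
    rfl
  rw [ev_pb, hsl, on_pull, cs, ev_cn, ev_on_congr Θ e1, on_cmp, ev_pb, e2, ctr_map, e5]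
  have h8 := ExteriorAlgebra.map_comp_map (R := ℝ) (tr g (Fin.snoc z 0)) (tr (sl k 0) z)
  rw [e4] at h8
  have h9 := congrArg (fun F => F (ctr (dotF (fderiv ℝ h (Fin.snoc z 0) (Pi.single (Fin.last k) 1))) (ev z (Om.on Θ p)))) h8
  simp only [AlgHom.comp_apply, ExteriorAlgebra.map_id, AlgHom.id_apply] at h9
  exact h9

end general

variable {n : ℕ} {M : Type} [MetricSpace M] [CompactSpace M] (𝒜 : SDist n M)

/-- the density of a form killed by a flow with nonzero velocity vanishes -/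
theorem dens_of_kills (B : SMap (spW 𝒜).xR (spW 𝒜)) (hB0 : ∀ z, B.1 (z, 0) = z) (z : (spW 𝒜).pt)
    (hX : deriv (fun s => 𝒜.ψ z.1.1 (B.1 (z, s)).1.1) 0 ≠ 0 ∨ deriv (fun s => 𝒜.ψ z.1.2 (B.1 (z, s)).1.2) 0 ≠ 0)
    {Ξ : Om (spW 𝒜)} (h : Kills B Ξ) : dens 𝒜 Ξ z.1 = 0 := by
  obtain ⟨P, hP⟩ := locPl_Pab 𝒜 (zero_mem_Dab 𝒜 z.2.1 z.2.2)
  have hP0 : P.1 0 = z := by
    refine Subtype.ext ?_
    have h1 : jW 𝒜 (P.1 0) = Pab 𝒜 z.1.1 z.1.2 0 := hP.self_of_nhds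
    rw [Pab_zero] at h1
    exact h1
  -- the family `B (P w, s)`
  set Q := B.pl P.up with hQ
  have hQ1 : ∀ (w : V (n + n)) (s : ℝ), Q.1 (Fin.snoc w s) = B.1 (P.1 w, s) := by
    intro w s
    change B.1 (P.1 (pr (n + n) (Fin.snoc w s)), (Fin.snoc w s : V (n + n + 1)) (Fin.last (n + n))) = _
    rw [pr_snoc, Fin.snoc_last]
  have hQ0 : Q.1 (Fin.snoc 0 0) = z := by rw [hQ1, hB0, hP0]
  set o : V (n + n + 1) := Fin.snoc (0 : V (n + n)) 0 with ho
  set h' : V (n + n + 1) → V (n + n) := fun z' => (spl n).symm (𝒜.ψ z.1.1 (Q.1 z').1.1, 𝒜.ψ z.1.2 (Q.1 z').1.2) with hh'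
  have c1 : ∀ᶠ z' in 𝓝 o, (Q.1 z').1.1 ∈ (𝒜.ψ z.1.1).source := by
    have t1 : ContinuousAt (fun z' => (Q.1 z').1.1) o := (Sm.continuous Q.2.1).continuousAt
    refine t1.eventually ((𝒜.ψ z.1.1).open_source.mem_nhds ?_)
    change (Q.1 (Fin.snoc 0 0)).1.1 ∈ _
    rw [hQ0]
    exact 𝒜.mem _
  have c2 : ∀ᶠ z' in 𝓝 o, (Q.1 z').1.2 ∈ (𝒜.ψ z.1.2).source := by
    have t1 : ContinuousAt (fun z' => (Q.1 z').1.2) o := (Sm.continuous Q.2.2).continuousAt
    refine t1.eventually ((𝒜.ψ z.1.2).open_source.mem_nhds ?_)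
    change (Q.1 (Fin.snoc 0 0)).1.2 ∈ _
    rw [hQ0]
    exact 𝒜.mem _
  have hs : ∀ᶠ z' in 𝓝 o, ContDiffAt ℝ ∞ h' z' := by
    filter_upwards [c1, c2] with z' f1 f2
    have t1 : ContDiffAt ℝ ∞ (fun v => 𝒜.ψ z.1.1 (Q.1 v).1.1) z' := (Q.2.1 z').chart f1
    have t2 : ContDiffAt ℝ ∞ (fun v => 𝒜.ψ z.1.2 (Q.1 v).1.2) z' := (Q.2.2 z').chart f2
    exact (spl n).symm.contDiff.contDiffAt.comp z' (t1.prodMk t2)
  have hP' : ∀ᶠ w in 𝓝 (0 : V (n + n)), jW 𝒜 (P.1 w) = Pab 𝒜 z.1.1 z.1.2 w := hP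
  have h0 : ∀ᶠ w in 𝓝 (0 : V (n + n)), h' (Fin.snoc w 0) = w := by
    filter_upwards [hP', (isOpen_Dab 𝒜 z.1.1 z.1.2).mem_nhds (zero_mem_Dab 𝒜 z.2.1 z.2.2)] with w f1 f2
    simp only [hh', hQ1, hB0]
    have t1 : (P.1 w).1 = Pab 𝒜 z.1.1 z.1.2 w := f1
    rw [t1]
    have t2 : 𝒜.ψ z.1.1 (Pab 𝒜 z.1.1 z.1.2 w).1 = (spl n w).1 := (𝒜.ψ z.1.1).right_inv f2.1.1
    have t3 : 𝒜.ψ z.1.2 (Pab 𝒜 z.1.1 z.1.2 w).2 = (spl n w).2 := (𝒜.ψ z.1.2).right_inv f2.1.2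
    rw [t2, t3]
    exact (spl n).symm_apply_apply w
  have hh0 : h' o = 0 := h0.self_of_nhds
  have h1 : ∀ᶠ z' in 𝓝 o, B.1 (P.up.1 z') = P.1 (h' z') := by
    have t1 : ContinuousAt h' o := hs.self_of_nhds.continuousAt
    rw [ContinuousAt, hh0] at t1
    filter_upwards [c1, c2, t1.eventually hP'] with z' f1 f2 f3
    refine Subtype.ext ?_
    change (Q.1 z').1 = jW 𝒜 (P.1 (h' z'))
    rw [f3]
    unfold Pab
    simp only [hh', ContinuousLinearEquiv.apply_symm_apply]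
    rw [(𝒜.ψ z.1.1).left_inv f1, (𝒜.ψ z.1.2).left_inv f2]
  have key := ev_flow B P 0 hs h0 h1 Ξ
  rw [h (n + n) P, _root_.map_zero] at key
  have hX0 : fderiv ℝ h' o (Pi.single (Fin.last (n + n)) 1) ≠ 0 := by
    intro hz0
    have d1 : HasDerivAt (fun s : ℝ => h' (Fin.snoc 0 s)) 0 0 := by
      have t1 : HasFDerivAt h' (fderiv ℝ h' o) (Fin.snoc (0 : V (n + n)) 0) :=
        (hs.self_of_nhds.differentiableAt (by simp)).hasFDerivAt
      have t2 := t1.comp_hasDerivAt (0 : ℝ) (hasDerivAt_snoc (0 : V (n + n)) 0)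
      rw [hz0] at t2
      exact t2
    have d2 : HasDerivAt (fun s : ℝ => spl n (h' (Fin.snoc 0 s))) 0 0 := by
      have t3 := ((spl n).hasFDerivAt (x := h' (Fin.snoc 0 0))).comp_hasDerivAt (0 : ℝ) d1
      rw [_root_.map_zero] at t3
      exact t3
    have d3 : (fun s : ℝ => spl n (h' (Fin.snoc 0 s))) =
        fun s => (𝒜.ψ z.1.1 (B.1 (z, s)).1.1, 𝒜.ψ z.1.2 (B.1 (z, s)).1.2) := by
      funext s
      simp only [hh', ContinuousLinearEquiv.apply_symm_apply, hQ1, hP0]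
    rw [d3] at d2
    have d4 : HasDerivAt (fun s => 𝒜.ψ z.1.1 (B.1 (z, s)).1.1) 0 0 :=
      (ContinuousLinearMap.fst ℝ (Eu n) (Eu n)).hasFDerivAt.comp_hasDerivAt (0 : ℝ) d2
    have d5 : HasDerivAt (fun s => 𝒜.ψ z.1.2 (B.1 (z, s)).1.2) 0 0 :=
      (ContinuousLinearMap.snd ℝ (Eu n) (Eu n)).hasFDerivAt.comp_hasDerivAt (0 : ℝ) d2
    rcases hX with hX | hX
    · exact hX d4.deriv
    · exact hX d5.deriv
  unfold dens
  rw [vAt_eq (jW_inj 𝒜) Ξ P hP]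
  exact topE_eq_zero_of_ctr (dotF_ne_zero hX0) key.symm

end Pool.Agent.Lib.MP_ccbbf6_gt.L4
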