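import Pool.Agent.Lib.MP_ccbbf6_gt.L4.Eps
import Pool.Agent.Lib.MP_ccbbf6_gt.L4.FI5
import Pool.Agent.Lib.MP_ccbbf6_gt.L4.FI6

/-!
# Level 4, FI7: the functional `TG` on forms on the space of geodesics (helper5)

* `TG hB : Om (spG 𝒜) →ₗ[ℝ] ℝ`, `TG Θ = ∫_W dχ(d(x, y)) ∧ G^*Θ`;
* `TG_d`: `TG (dΘ) = 0`;
* `TG_of_kills`: `TG Θ = 0` if the contraction of `Θ` with a flow which moves the points vanishes;
* `TG_phi`, `TG_rho`: the geodesic flow and the rotation;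
* `TG_even`: `TG Θ = 0` if `Θ` is even.
-/

set_option autoImplicit false
set_option maxSynthPendingDepth 3
set_option linter.unusedSectionVars false

open MeasureTheory Measure Set Filter Topology Metric Real
open scoped ContDiff RealInnerProductSpace

noncomputable section

namespace Pool.Agent.Lib.MP_ccbbf6_gt.L4

open Geo FR

variable {n : ℕ} {M : Type} [MetricSpace M] [CompactSpace M] (𝒜 : SDist n M)

/-- the distance along smooth families -/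
lemma contDiffAt_dist (hB : Bl M) {E : Type*} [NormedAddCommGroup E] [NormedSpace ℝ E] {x y : E → M} {u : E}
    (hx : SmAt 𝒜 x u) (hy : SmAt 𝒜 y u) (h0 : 0 < dist (x u) (y u)) (h1 : dist (x u) (y u) < π) :
    ContDiffAt ℝ ∞ (fun v => dist (x v) (y v)) u := by
  have h2 : ContDiffAt ℝ ∞ (𝒜.f (x u) (y u)) (𝒜.ψ (x u) (x u), 𝒜.ψ (y u) (y u)) := by
    rw [𝒜.zero, 𝒜.zero]
    exact contDiffAt_f 𝒜 hB h0 h1
  have h3 := ContDiffAt.comp (g := 𝒜.f (x u) (y u)) (f := fun v => (𝒜.ψ (x u) (x v), 𝒜.ψ (y u) (y v))) u h2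
    (hx.2.prodMk hy.2)
  refine h3.congr_of_eventuallyEq ?_
  filter_upwards [hx.1.eventually ((𝒜.ψ (x u)).open_source.mem_nhds (𝒜.mem _)),
    hy.1.eventually ((𝒜.ψ (y u)).open_source.mem_nhds (𝒜.mem _))] with v f1 f2
  simp only [Function.comp_apply]
  unfold SDist.f
  simp only
  rw [(𝒜.ψ (x u)).left_inv f1, (𝒜.ψ (y u)).left_inv f2]

/-- the distance is smooth on the plots of `W` -/
lemma contDiff_distW (hB : Bl M) {k : ℕ} (p : (spW 𝒜).Plot k) : ContDiff ℝ ∞ fun x => dist (p.1 x).1.1 (p.1 x).1.2 :=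
  contDiff_iff_contDiffAt.2 fun x => contDiffAt_dist 𝒜 hB (p.2.1 x) (p.2.2 x) (p.1 x).2.1 (p.1 x).2.2

/-- `χ(d(x, y))` -/
def chiW (hB : Bl M) : Om (spW 𝒜) := fO (fun z : (spW 𝒜).pt => chi (dist z.1.1 z.1.2))
  fun _ p => contDiff_chi.comp (contDiff_distW 𝒜 hB p)

/-- `dχ(d(x, y))` -/
def dchi (hB : Bl M) : Om (spW 𝒜) := dO _ (chiW 𝒜 hB)

/-- the support of `dchi` -/
def C12 (M : Type) [MetricSpace M] : Set (M × M) := {z | 1 ≤ dist z.1 z.2 ∧ dist z.1 z.2 ≤ 2}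

lemma isClosed_C12 : IsClosed (C12 M) :=
  (isClosed_le continuous_const continuous_dist).inter (isClosed_le continuous_dist continuous_const)

lemma inW_C12 : InW (C12 M) := fun z hz => ⟨by linarith [hz.1], by linarith [hz.2, Real.pi_gt_three]⟩

lemma supp_dchi (hB : Bl M) : Supp 𝒜 (C12 M) (dchi 𝒜 hB) := by
  intro k p z hz
  have hd : ContinuousAt (fun w => dist (p.1 w).1.1 (p.1 w).1.2) z := (contDiff_distW 𝒜 hB p).continuous.continuousAt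
  have hz' : dist (p.1 z).1.1 (p.1 z).1.2 < 1 ∨ 2 < dist (p.1 z).1.1 (p.1 z).1.2 := by
    by_contra h
    push Not at h
    exact hz h
  rcases hz' with h | h
  · refine ev_dd_of_zero ?_
    filter_upwards [hd.eventually (gt_mem_nhds h)] with w hw
    rw [chiW, ev_fO, chi_zero (le_of_lt hw), _root_.map_zero]
  · have h1 : Om.on (dchi 𝒜 hB) p = dd k (Om.on (chiW 𝒜 hB - 1) p) := by
      rw [dchi, on_d, on_sub, on_one, _root_.map_sub, dd_one, sub_zero]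
    rw [h1]
    refine ev_dd_of_zero ?_
    filter_upwards [hd.eventually (lt_mem_nhds h)] with w hw
    rw [on_sub, on_one, _root_.map_sub, chiW, ev_fO, chi_one (le_of_lt hw), _root_.map_one, _root_.map_one, sub_self]

lemma sO_fO {X : Space} (f : X.pt → ℝ) (hf : ∀ (k : ℕ) (p : X.Plot k), ContDiff ℝ ∞ fun x => f (p.1 x)) :
    sO X (fO f hf) = fO f hf := Om_ext fun k p => by rw [on_s, on_fO, sg_fc]

lemma sO_dchi (hB : Bl M) : sO _ (dchi 𝒜 hB) = -dchi 𝒜 hB := by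
  rw [dchi, s_d, chiW, sO_fO]

lemma d_dchi (hB : Bl M) : dO _ (dchi 𝒜 hB) = 0 := d_d _

variable {𝒜}

section measure

variable [MeasurableSpace M] [BorelSpace M]

/-- **The functional `TG`.** -/
def TG (hB : Bl M) : Om (spG 𝒜) →ₗ[ℝ] ℝ where
  toFun Θ := IW 𝒜 (dchi 𝒜 hB * (GW hB).pull Θ)
  map_add' Θ Θ' := by
    rw [_root_.map_add, mul_add, IW_add 𝒜 hB isClosed_C12 inW_C12 ((supp_dchi 𝒜 hB).mul_right _)
      ((supp_dchi 𝒜 hB).mul_right _)]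
  map_smul' r Θ := by
    rw [_root_.map_smul, mul_smul_comm, IW_smul, RingHom.id_apply, smul_eq_mul]

lemma TG_apply (hB : Bl M) (Θ : Om (spG 𝒜)) : TG hB Θ = IW 𝒜 (dchi 𝒜 hB * (GW hB).pull Θ) := rfl

/-- **Stokes for `TG`.** -/
theorem TG_d (hB : Bl M) (Θ : Om (spG 𝒜)) : TG hB (dO _ Θ) = 0 := by
  rw [TG_apply]
  have h1 : dchi 𝒜 hB * (GW hB).pull (dO _ Θ) = (-1 : ℝ) • dO _ (dchi 𝒜 hB * (GW hB).pull Θ) := by
    rw [d_mul, d_dchi, zero_mul, zero_add, sO_dchi, pull_d, neg_mul, neg_one_smul, neg_neg]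
  rw [h1, IW_smul, IW_d 𝒜 hB isClosed_C12 inW_C12 ((supp_dchi 𝒜 hB).mul_right _), mul_zero]

lemma IW_of_dens (Ξ : Om (spW 𝒜)) (h : ∀ z : (spW 𝒜).pt, dens 𝒜 Ξ z.1 = 0) : IW 𝒜 Ξ = 0 := by
  rw [IW_eq]
  have h1 : ∀ z, FW 𝒜 Ξ z = 0 := by
    intro z
    unfold FW
    by_cases hz : 0 < dist z.1 z.2 ∧ dist z.1 z.2 < π
    · rw [h ⟨z, hz⟩, mul_zero]
    · rw [dens_eq_zero 𝒜 Ξ hz, mul_zero]
  simp only [h1, integral_zero]

/-- **`TG` vanishes on even forms.** -/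
theorem TG_even (hB : Bl M) {Θ : Om (spG 𝒜)} (h : sO _ Θ = Θ) : TG hB Θ = 0 := by
  rw [TG_apply]
  refine IW_of_dens _ fun z => ?_
  obtain ⟨P, hP⟩ := locPl_Pab 𝒜 (zero_mem_Dab 𝒜 z.2.1 z.2.2)
  unfold dens
  rw [vAt_eq (jW_inj 𝒜) _ P hP]
  have h1 : sO _ (dchi 𝒜 hB * (GW hB).pull Θ) = -(dchi 𝒜 hB * (GW hB).pull Θ) := by
    rw [_root_.map_mul, sO_dchi, pull_s, h, neg_mul]
  have h2 := congrArg (fun Ξ : Om (spW 𝒜) => ev 0 (Om.on Ξ P)) h1
  simp only [on_s, on_neg, ev_sg, _root_.map_neg] at h2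
  have h3 := congrArg (topE (n + n)) h2
  rw [topE_ivo, _root_.map_neg] at h3
  have h4 : (-1 : ℝ) ^ (n + n) = 1 := Even.neg_one_pow ⟨n, rfl⟩
  rw [h4, one_mul] at h3
  linarith

/-- the parameters of a geodesic -/
lemma gdG_eq (hB : Bl M) (c : Gs M) {r : ℝ} (h0 : 0 < r) (h1 : r < π)
    (hz : 0 < dist (c.1 0) (c.1 r) ∧ dist (c.1 0) (c.1 r) < π) : gdG hB 𝒜 ⟨(c.1 0, c.1 r), hz⟩ = c := by
  refine Subtype.ext ?_
  change gd (c.1 0) (c.1 r) = c.1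
  have h2 := gd_eq 𝒜 c.2 (s := 0) h0 h1
  rw [zero_add] at h2
  rw [h2]
  funext t
  rw [zero_add]

lemma dist_gs (c : Gs M) {r : ℝ} (h0 : 0 < r) (h1 : r < π) : dist (c.1 0) (c.1 r) = r := by
  rw [c.2 0 r (by rw [zero_sub, abs_neg, abs_of_pos h0]; exact h1.le), zero_sub, abs_neg, abs_of_pos h0]

lemma gdG_spec (hB : Bl M) (z : (spW 𝒜).pt) : (gdG hB 𝒜 z).1 0 = z.1.1 ∧ (gdG hB 𝒜 z).1 (dist z.1.1 z.1.2) = z.1.2 := by
  have h : z.1.1 ≠ z.1.2 := by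
    intro h
    have h2 := z.2.1
    rw [h, dist_self] at h2
    exact lt_irrefl _ h2
  exact (gd_spec 𝒜 hB h).2

/-- the lift of a flow on the geodesics to `W` -/
def liftW (hB : Bl M) (a : SMap (spG 𝒜).xR (spG 𝒜)) : SMap (spW 𝒜).xR (spW 𝒜) :=
  ⟨fun q => ⟨((show Gs M from a.1 (gdG hB 𝒜 q.1, q.2)).1 0,
      (show Gs M from a.1 (gdG hB 𝒜 q.1, q.2)).1 (dist q.1.1.1 q.1.1.2)), by
      simp only
      rw [dist_gs _ q.1.2.1 q.1.2.2]
      exact q.1.2⟩, by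
    intro k p
    have h1 := (a.comp (GW hB).up).2 k p
    constructor
    · exact SmG.ev' (M := M) hB (σ := fun u => a.1 (gdG hB 𝒜 (p.1 u).1, (p.1 u).2)) h1 contDiff_const
    · exact SmG.ev' (M := M) hB (σ := fun u => a.1 (gdG hB 𝒜 (p.1 u).1, (p.1 u).2)) h1
        (contDiff_distW 𝒜 hB ((pO (spW 𝒜)).pl p))⟩

lemma liftW_dist (hB : Bl M) (a : SMap (spG 𝒜).xR (spG 𝒜)) (q : (spW 𝒜).xR.pt) :
    dist ((liftW hB a).1 q).1.1 ((liftW hB a).1 q).1.2 = dist q.1.1.1 q.1.1.2 := dist_gs _ q.1.2.1 q.1.2.2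

lemma GW_liftW (hB : Bl M) (a : SMap (spG 𝒜).xR (spG 𝒜)) :
    (GW hB).comp (liftW hB a) = a.comp (GW hB).up := by
  refine SMap_ext fun q => ?_
  exact gdG_eq (𝒜 := 𝒜) hB (show Gs M from a.1 (gdG hB 𝒜 q.1, q.2)) q.1.2.1 q.1.2.2 _

lemma kills_liftW (hB : Bl M) (a : SMap (spG 𝒜).xR (spG 𝒜)) {Θ : Om (spG 𝒜)} (h : Kills a Θ) :
    Kills (liftW hB a) (dchi 𝒜 hB * (GW hB).pull Θ) := by
  intro k p
  have h1 : (liftW hB a).pull (dchi 𝒜 hB) = (pO (spW 𝒜)).pull (dchi 𝒜 hB) := by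
    have h2 : (liftW hB a).pull (chiW 𝒜 hB) = (pO (spW 𝒜)).pull (chiW 𝒜 hB) := by
      refine Om_ext fun k p => ev_ext fun x => ?_
      rw [on_pull, on_pull, chiW, ev_fO, ev_fO]
      have h3 := liftW_dist hB a (p.1 x)
      change algebraMap ℝ _ (chi (dist ((liftW hB a).1 (p.1 x)).1.1 ((liftW hB a).1 (p.1 x)).1.2)) =
        algebraMap ℝ _ (chi (dist (p.1 x).1.1.1 (p.1 x).1.1.2))
      rw [h3]
    rw [dchi, ← pull_d, ← pull_d, h2]
  rw [_root_.map_mul, on_mul, h1, on_p, cs, cn_mul, ← cs, cs_pr, zero_mul, zero_add, _root_.map_mul]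
  have h4 : Om.on ((liftW hB a).pull ((GW hB).pull Θ)) p.up = Om.on (a.pull Θ) ((GW hB).pl p).up := by
    rw [← pull_comp, GW_liftW]
    rfl
  rw [h4, h k ((GW hB).pl p), mul_zero]

/-- **`TG` vanishes on forms killed by a flow.** -/
theorem TG_of_kills (hB : Bl M) (a : SMap (spG 𝒜).xR (spG 𝒜)) (ha : ∀ c, a.1 (c, 0) = c)
    (hX : ∀ (c : Gs M) (r : ℝ), 0 < r → r < π →
      deriv (fun s => 𝒜.ψ (c.1 0) ((show Gs M from a.1 (c, s)).1 0)) 0 ≠ 0 ∨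
      deriv (fun s => 𝒜.ψ (c.1 r) ((show Gs M from a.1 (c, s)).1 r)) 0 ≠ 0)
    {Θ : Om (spG 𝒜)} (h : Kills a Θ) : TG hB Θ = 0 := by
  rw [TG_apply]
  refine IW_of_dens _ fun z => ?_
  refine dens_of_kills 𝒜 (liftW hB a) (fun z => ?_) z ?_ (kills_liftW hB a h)
  · refine Subtype.ext (Prod.ext ?_ ?_)
    · change (show Gs M from a.1 (gdG hB 𝒜 z, 0)).1 0 = z.1.1
      rw [ha]
      exact (gdG_spec hB z).1
    · change (show Gs M from a.1 (gdG hB 𝒜 z, 0)).1 (dist z.1.1 z.1.2) = z.1.2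
      rw [ha]
      exact (gdG_spec hB z).2
  · have h1 := hX (gdG hB 𝒜 z) (dist z.1.1 z.1.2) z.2.1 z.2.2
    rw [(gdG_spec hB z).1, (gdG_spec hB z).2] at h1
    exact h1

/-- **The geodesic flow.** -/
theorem TG_phi (hB : Bl M) {Θ : Om (spG 𝒜)} (h : Kills (phiF hB) Θ) : TG hB Θ = 0 := by
  refine TG_of_kills hB (phiF hB) (fun c => ?_) (fun c r _ _ => Or.inl ?_) h
  · change shift (2 * π * 0) c = c
    refine Subtype.ext (funext fun t => ?_)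
    change c.1 (t + 2 * π * 0) = c.1 t
    rw [mul_zero, add_zero]
  · change deriv (fun s => 𝒜.ψ (c.1 0) (c.1 (0 + 2 * π * s))) 0 ≠ 0
    have h1 := (IsGeo.exists_vel 𝒜 c.2 0)
    have h2 : HasDerivAt (fun t => 𝒜.ψ (c.1 0) (c.1 t)) (𝒜.vel c.1 0) (0 + 2 * π * 0) := by
      rw [mul_zero, add_zero]
      exact h1.2
    have h3 : HasDerivAt (fun s : ℝ => 0 + 2 * π * s) (2 * π * 1) 0 := ((hasDerivAt_id (0 : ℝ)).const_mul (2 * π)).const_add 0
    have h4 := HasDerivAt.scomp (0 : ℝ) h2 h3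
    have h5 : deriv (fun s => 𝒜.ψ (c.1 0) (c.1 (0 + 2 * π * s))) 0 = (2 * π * 1) • 𝒜.vel c.1 0 := h4.deriv
    rw [h5]
    refine smul_ne_zero (by positivity) ?_
    intro h6
    rw [h6, norm_zero] at h1
    exact zero_ne_one h1.1

/-- **The rotation.** -/
theorem TG_rho (hB : Bl M) {ρ : ℝ → Gs M → Gs M} (hρ : Rot 𝒜 ρ) {Θ : Om (spG 𝒜)} (h : Kills (rhoF hρ) Θ) :
    TG hB Θ = 0 := by
  refine TG_of_kills hB (rhoF hρ) (fun c => ?_) (fun c r h0 h1 => Or.inr ?_) h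
  · change ρ (2 * π * 0) c = c
    rw [mul_zero, hρ.zero]
  · change deriv (fun s => 𝒜.ψ (c.1 r) ((ρ (2 * π * s) c).1 r)) 0 ≠ 0
    set e := 𝒜.vel (ρ (π / 2) c).1 0 with he
    set v := 𝒜.vel c.1 0 with hv
    have hv1 : ‖v‖ = 1 := (IsGeo.exists_vel 𝒜 c.2 0).1
    have he1 : ‖e‖ = 1 := (IsGeo.exists_vel 𝒜 (ρ (π / 2) c).2 0).1
    have key : ∀ s : ℝ, (ρ (2 * π * s) c).1 r =
        𝒜.Ex (c.1 0) (r • (cos (2 * π * s) • v + sin (2 * π * s) • e)) := by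
      intro s
      have t1 := hρ.vel (2 * π * s) c
      have t2 : ‖cos (2 * π * s) • v + sin (2 * π * s) • e‖ = 1 := by
        rw [← t1]
        exact (IsGeo.exists_vel 𝒜 (ρ (2 * π * s) c).2 0).1
      have t3 := gv_eq 𝒜 (ρ (2 * π * s) c).2 0
      rw [Ex_smul 𝒜 hB _ t2, ← t1, ← hρ.foot (2 * π * s) c, t3]
      simp only [zero_add]
    have key0 : c.1 r = 𝒜.Ex (c.1 0) (r • v) := by
      have := key 0
      rw [mul_zero, hρ.zero, cos_zero, sin_zero, zero_smul, add_zero, one_smul] at this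
      exact this
    have hn : ‖r • v‖ < π := by rw [norm_smul, hv1, mul_one, Real.norm_of_nonneg h0.le]; exact h1
    set L := fderiv ℝ (fun η => 𝒜.ψ (𝒜.Ex (c.1 0) (r • v)) (𝒜.Ex (c.1 0) η)) (r • v) with hL
    have hLd : HasFDerivAt (fun η => 𝒜.ψ (𝒜.Ex (c.1 0) (r • v)) (𝒜.Ex (c.1 0) η)) L (r • v) :=
      ((contDiffAt_Ex 𝒜 hB (c.1 0) (r • v) (𝒜.mem _)).differentiableAt (by simp)).hasFDerivAt
    have hγ : HasDerivAt (fun s : ℝ => r • (cos (2 * π * s) • v + sin (2 * π * s) • e)) (r • ((2 * π) • e)) 0 := by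
      have t1 : HasDerivAt (fun s : ℝ => 2 * π * s) (2 * π) 0 := by
        have := (hasDerivAt_id (0 : ℝ)).const_mul (2 * π)
        rwa [mul_one] at this
      have t2 := ((t1.cos.smul_const v).add (t1.sin.smul_const e)).const_smul r
      rw [mul_zero, sin_zero, cos_zero, neg_zero, zero_mul, zero_smul, zero_add, one_mul] at t2
      exact t2
    have hcomp : HasDerivAt (fun s => 𝒜.ψ (c.1 r) ((ρ (2 * π * s) c).1 r)) (L (r • ((2 * π) • e))) 0 := by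
      have t1 : HasFDerivAt (fun η => 𝒜.ψ (𝒜.Ex (c.1 0) (r • v)) (𝒜.Ex (c.1 0) η)) L
          ((fun s : ℝ => r • (cos (2 * π * s) • v + sin (2 * π * s) • e)) 0) := by
        simp only [mul_zero, cos_zero, sin_zero, zero_smul, add_zero, one_smul]
        exact hLd
      have t2 := t1.comp_hasDerivAt (0 : ℝ) hγ
      simp only [key, key0]
      exact t2
    rw [hcomp.deriv]
    intro h0'
    have hb := BF_Ex 𝒜 hB (c.1 0) hn (r • ((2 * π) • e)) (r • ((2 * π) • e))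
    rw [← hL, h0', _root_.map_zero] at hb
    have h2 : ‖r • ((2 * π) • e)‖ ^ 2 = 0 := by
      rw [← real_inner_self_eq_norm_sq]
      linarith
    have h3 : ‖r • ((2 * π) • e)‖ = r * (2 * π) := by
      rw [norm_smul, norm_smul, he1, Real.norm_of_nonneg h0.le, Real.norm_of_nonneg (by positivity), mul_one]
    rw [h3] at h2
    have : 0 < r * (2 * π) := by positivity
    exact absurd h2 (by positivity)

end measure

end Pool.Agent.Lib.MP_ccbbf6_gt.L4
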