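import Pool.Agent.Lib.MP_ccbbf6_gt.ML

/-!
# Level 4, forms on `R^k`, part a: the ring of smooth functions (helper56)
-/

set_option autoImplicit false
set_option maxSynthPendingDepth 3

open Set Filter Topology MeasureTheory
open scoped ContDiff

noncomputable section

namespace Pool.Agent.Lib.MP_ccbbf6_gt.L4.FR

/-- `R^k` -/
abbrev V (k : ℕ) := Fin k → ℝ

/-- smooth functions on `R^k` -/
def Cs (k : ℕ) : Subalgebra ℝ (V k → ℝ) where
  carrier := {f | ContDiff ℝ ∞ f}
  mul_mem' := fun {f g} hf hg => (show ContDiff ℝ ∞ f from hf).mul (show ContDiff ℝ ∞ g from hg)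
  add_mem' := fun {f g} hf hg => (show ContDiff ℝ ∞ f from hf).add (show ContDiff ℝ ∞ g from hg)
  algebraMap_mem' := fun r => (contDiff_const : ContDiff ℝ ∞ fun _ : V k => r)

instance (priority := 3000) CsCommRing (k : ℕ) : CommRing (Cs k) := (Cs k).toCommRing

instance (priority := 3000) CsRing (k : ℕ) : Ring (Cs k) := (CsCommRing k).toRing

instance (priority := 3000) CsCommSemiring (k : ℕ) : CommSemiring (Cs k) := (CsCommRing k).toCommSemiring

instance (priority := 3000) CsSemiring (k : ℕ) : Semiring (Cs k) := (CsCommSemiring k).toSemiring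

instance (priority := 3000) CsNAS (k : ℕ) : NonAssocSemiring (Cs k) := (CsSemiring k).toNonAssocSemiring

instance (priority := 3000) CsNUNAS (k : ℕ) : NonUnitalNonAssocSemiring (Cs k) := (CsNAS k).toNonUnitalNonAssocSemiring

instance (priority := 3000) CsACG (k : ℕ) : AddCommGroup (Cs k) := (CsRing k).toAddCommGroup

instance (priority := 3000) CsACM (k : ℕ) : AddCommMonoid (Cs k) := (CsNUNAS k).toAddCommMonoid

instance (priority := 3000) CsMonoid (k : ℕ) : Monoid (Cs k) := (CsSemiring k).toMonoid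

instance (priority := 3000) CsMul (k : ℕ) : Mul (Cs k) := (CsNUNAS k).toMul

instance (priority := 3000) CsAdd (k : ℕ) : Add (Cs k) := (CsACM k).toAdd

instance (priority := 3000) CsZero (k : ℕ) : Zero (Cs k) := (CsACM k).toZero

instance (priority := 3000) CsOne (k : ℕ) : One (Cs k) := (CsNAS k).toOne

instance (priority := 3000) CsNeg (k : ℕ) : Neg (Cs k) := (CsRing k).toNeg

instance (priority := 3000) CsSub (k : ℕ) : Sub (Cs k) := (CsRing k).toSub

instance (priority := 3000) CsNPow (k : ℕ) : NPow (Cs k) := (CsMonoid k).toNPow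

instance (priority := 3000) CsPow (k : ℕ) : Pow (Cs k) ℕ := @NPow.toPow (Cs k) (CsNPow k)

instance (priority := 3000) CsAlgebra (k : ℕ) : Algebra ℝ (Cs k) := (Cs k).algebra

instance (priority := 3000) CsModule (k : ℕ) : Module ℝ (Cs k) := (CsAlgebra k).toModule

instance (priority := 3000) CsSMul (k : ℕ) : SMul ℝ (Cs k) := (CsAlgebra k).toSMul

variable {k l n : ℕ}

lemma Cs_smooth (f : Cs k) : ContDiff ℝ ∞ (f : V k → ℝ) := f.2

lemma Cs_diff (f : Cs k) : Differentiable ℝ (f : V k → ℝ) := (Cs_smooth f).differentiable (by simp)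

lemma Cs_ext {f g : Cs k} (h : ∀ x, (f : V k → ℝ) x = (g : V k → ℝ) x) : f = g :=
  Subtype.ext (funext h)

/-- constructor -/
def mkC (f : V k → ℝ) (hf : ContDiff ℝ ∞ f) : Cs k := ⟨f, hf⟩

@[simp] lemma mkC_apply (f : V k → ℝ) (hf : ContDiff ℝ ∞ f) (x : V k) : (mkC f hf : V k → ℝ) x = f x := rfl

/-- partial derivative -/
def pd (i : Fin k) : Cs k →ₗ[ℝ] Cs k where
  toFun f := mkC (fun x => fderiv ℝ (f : V k → ℝ) x (Pi.single i 1))
    (((Cs_smooth f).fderiv_right (m := ∞) (by simp)).clm_apply contDiff_const)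
  map_add' f g := by
    apply Cs_ext
    intro x
    change fderiv ℝ ((f : V k → ℝ) + (g : V k → ℝ)) x _ = fderiv ℝ (f : V k → ℝ) x _ +
      fderiv ℝ (g : V k → ℝ) x _
    rw [fderiv_add (Cs_diff f x) (Cs_diff g x)]
    rfl
  map_smul' r f := by
    apply Cs_ext
    intro x
    change fderiv ℝ (r • (f : V k → ℝ)) x _ = r • fderiv ℝ (f : V k → ℝ) x _
    rw [fderiv_const_smul (Cs_diff f x)]
    rfl

lemma pd_apply (i : Fin k) (f : Cs k) (x : V k) :
    (pd i f : V k → ℝ) x = fderiv ℝ (f : V k → ℝ) x (Pi.single i 1) := rfl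

lemma pd_mul (i : Fin k) (f g : Cs k) : pd i (f * g) = pd i f * g + f * pd i g := by
  apply Cs_ext
  intro x
  change fderiv ℝ ((f : V k → ℝ) * (g : V k → ℝ)) x _ = fderiv ℝ (f : V k → ℝ) x _ *
      (g : V k → ℝ) x + (f : V k → ℝ) x * fderiv ℝ (g : V k → ℝ) x _
  rw [fderiv_mul (Cs_diff f x) (Cs_diff g x)]
  simp only [_root_.add_apply, _root_.smul_apply, smul_eq_mul]
  ring

lemma pd_const (i : Fin k) (r : ℝ) : pd i (algebraMap ℝ (Cs k) r) = 0 := by
  apply Cs_ext
  intro x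
  change fderiv ℝ (fun _ : V k => r) x _ = 0
  rw [fderiv_fun_const]
  rfl

lemma pd_one (i : Fin k) : pd i (1 : Cs k) = 0 := by
  have := pd_const i 1
  rwa [map_one] at this

lemma pd_comm (i j : Fin k) (f : Cs k) : pd i (pd j f) = pd j (pd i f) := by
  apply Cs_ext
  intro x
  have h2 : ContDiff ℝ 1 (fderiv ℝ (f : V k → ℝ)) :=
    ((Cs_smooth f).fderiv_right (m := ∞) (by simp)).of_le ENat.LEInfty.out
  have h3 : DifferentiableAt ℝ (fderiv ℝ (f : V k → ℝ)) x := h2.differentiable one_ne_zero x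
  have h4 : ∀ v w : V k, fderiv ℝ (fun y => fderiv ℝ (f : V k → ℝ) y v) x w =
      fderiv ℝ (fderiv ℝ (f : V k → ℝ)) x w v := by
    intro v w
    have h5 := h3.hasFDerivAt.clm_apply (hasFDerivAt_const v x)
    rw [HasFDerivAt.fderiv h5]
    simp
  have hsymm : IsSymmSndFDerivAt ℝ (f : V k → ℝ) x :=
    ((Cs_smooth f).of_le (m := 2) ENat.LEInfty.out).contDiffAt.isSymmSndFDerivAt (by simp)
  change fderiv ℝ (fun y => fderiv ℝ (f : V k → ℝ) y (Pi.single j 1)) x (Pi.single i 1) =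
    fderiv ℝ (fun y => fderiv ℝ (f : V k → ℝ) y (Pi.single i 1)) x (Pi.single j 1)
  rw [h4, h4]
  exact hsymm _ _

/-- coordinate function -/
def co (j : Fin k) : Cs k := mkC (fun x => x j) (contDiff_apply ℝ ℝ j)

/-- smooth maps -/
def Sm (k l : ℕ) := {g : V k → V l // ContDiff ℝ ∞ g}

instance : CoeFun (Sm k l) fun _ => V k → V l := ⟨fun g => g.1⟩

lemma Sm.smooth (g : Sm k l) : ContDiff ℝ ∞ (g : V k → V l) := g.2

lemma Sm.diff (g : Sm k l) : Differentiable ℝ (g : V k → V l) := g.smooth.differentiable (by simp)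

lemma Sm.ext {g h : Sm k l} (e : ∀ x, g x = h x) : g = h := Subtype.ext (funext e)

def Sm.id (k : ℕ) : Sm k k := ⟨fun x => x, contDiff_id⟩

def Sm.comp (g : Sm l n) (h : Sm k l) : Sm k n := ⟨fun x => g (h x), g.smooth.comp h.smooth⟩

/-- components of a smooth map -/
def Sm.cp (g : Sm k l) (j : Fin l) : Cs k := mkC (fun x => g x j) ((contDiff_pi.1 g.smooth) j)

/-- composition with a smooth map -/
def Sm.pull (g : Sm k l) : Cs l →ₐ[ℝ] Cs k where
  toFun f := mkC (fun x => (f : V l → ℝ) (g x)) ((Cs_smooth f).comp g.smooth)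
  map_one' := rfl
  map_mul' _ _ := rfl
  map_zero' := rfl
  map_add' _ _ := rfl
  commutes' _ := rfl

lemma Sm.pull_apply (g : Sm k l) (f : Cs l) (x : V k) :
    (g.pull f : V k → ℝ) x = (f : V l → ℝ) (g x) := rfl

lemma Sm.pull_co (g : Sm k l) (j : Fin l) : g.pull (co j) = g.cp j := rfl

lemma Sm.pull_cp (g : Sm l n) (h : Sm k l) (j : Fin n) : h.pull (g.cp j) = (g.comp h).cp j := rfl

lemma Sm.pull_comp (g : Sm l n) (h : Sm k l) (f : Cs n) :
    (g.comp h).pull f = h.pull (g.pull f) := rfl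

lemma Sm.pull_id (f : Cs k) : (Sm.id k).pull f = f := rfl

/-- chain rule -/
lemma pd_pull (g : Sm k l) (f : Cs l) (i : Fin k) :
    pd i (g.pull f) = ∑ j, g.pull (pd j f) * pd i (g.cp j) := by
  apply Cs_ext
  intro x
  have h1 : fderiv ℝ (fun y => (f : V l → ℝ) (g y)) x =
      (fderiv ℝ (f : V l → ℝ) (g x)).comp (fderiv ℝ (g : V k → V l) x) :=
    fderiv_comp (g := (f : V l → ℝ)) (f := (g : V k → V l)) x (Cs_diff f _) (g.diff x)
  have h2 : ∀ j, fderiv ℝ (fun y => g y j) x (Pi.single i 1) =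
      fderiv ℝ (g : V k → V l) x (Pi.single i 1) j := by
    intro j
    have h3 := hasFDerivAt_pi'.1 (g.diff x).hasFDerivAt j
    rw [h3.fderiv]
    rfl
  change fderiv ℝ (fun y => (f : V l → ℝ) (g y)) x (Pi.single i 1) = _
  rw [h1]
  have h4 : ((∑ j, g.pull (pd j f) * pd i (g.cp j) : Cs k) : V k → ℝ) x =
      ∑ j, fderiv ℝ (f : V l → ℝ) (g x) (Pi.single j 1) *
        fderiv ℝ (fun y => g y j) x (Pi.single i 1) := by
    rw [AddSubmonoidClass.coe_finsetSum, Finset.sum_apply]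
    rfl
  rw [h4]
  simp only [h2, ContinuousLinearMap.comp_apply]
  obtain ⟨w, hw⟩ : ∃ w, w = fderiv ℝ (g : V k → V l) x (Pi.single i 1) := ⟨_, rfl⟩
  rw [← hw]
  have h5 : w = ∑ j, w j • (Pi.single j (1 : ℝ) : V l) := by
    ext a
    simp [Finset.sum_apply, Pi.single_apply]
  conv_lhs => rw [h5]
  rw [map_sum]
  refine Finset.sum_congr rfl fun j _ => ?_
  rw [map_smul, smul_eq_mul, mul_comm]

lemma pd_co (i j : Fin k) : pd i (co j) = if i = j then 1 else 0 := by
  apply Cs_ext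
  intro x
  change fderiv ℝ (fun y : V k => y j) x (Pi.single i 1) = _
  rw [(hasFDerivAt_apply (𝕜 := ℝ) j x).fderiv]
  by_cases h : i = j
  · subst h
    simp
  · simp [h, Ne.symm h]

/-! ### Integration over the last variable -/

/-- the map `(x, s) ↦ snoc x s` -/
lemma contDiff_snoc : ContDiff ℝ ∞ fun z : V k × ℝ => (Fin.snoc z.1 z.2 : V (k + 1)) := by
  rw [contDiff_pi]
  intro j
  refine Fin.lastCases ?_ (fun i => ?_) j
  · simp only [Fin.snoc_last]
    exact contDiff_snd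
  · simp only [Fin.snoc_castSucc]
    exact (contDiff_apply ℝ ℝ i).comp contDiff_fst

section param

variable {E F : Type} [NormedAddCommGroup E] [NormedSpace ℝ E] [FiniteDimensional ℝ E]
  [NormedAddCommGroup F] [NormedSpace ℝ F] [CompleteSpace F]

omit [CompleteSpace F] in
lemma hasFDerivAt_param {f : E → ℝ → F} (hf : ContDiff ℝ 1 (Function.uncurry f)) (x : E) :
    HasFDerivAt (fun y => ∫ s in (0 : ℝ)..1, f y s)
      (∫ s in (0 : ℝ)..1, (fderiv ℝ (Function.uncurry f) (x, s)).comp (ContinuousLinearMap.inl ℝ E ℝ)) x := by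
  have hc : Continuous fun z : E × ℝ =>
      (fderiv ℝ (Function.uncurry f) z).comp (ContinuousLinearMap.inl ℝ E ℝ) :=
    (hf.continuous_fderiv one_ne_zero).clm_comp continuous_const
  have hd : ∀ (y : E) (s : ℝ), HasFDerivAt (fun y => f y s)
      ((fderiv ℝ (Function.uncurry f) (y, s)).comp (ContinuousLinearMap.inl ℝ E ℝ)) y := by
    intro y s
    have h1 := (hf.differentiable one_ne_zero (y, s)).hasFDerivAt
    exact h1.comp (f := fun y => (y, s)) y (hasFDerivAt_prodMk_left y s)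
  obtain ⟨C, hC⟩ : ∃ C, ∀ y ∈ Metric.closedBall x 1, ∀ s ∈ Icc (0 : ℝ) 1,
      ‖(fderiv ℝ (Function.uncurry f) (y, s)).comp (ContinuousLinearMap.inl ℝ E ℝ)‖ ≤ C := by
    have hK : IsCompact (Metric.closedBall x 1 ×ˢ Icc (0 : ℝ) 1) :=
      (isCompact_closedBall x 1).prod isCompact_Icc
    obtain ⟨C, hC⟩ := hK.exists_bound_of_continuousOn hc.continuousOn
    exact ⟨C, fun y hy s hs => hC (y, s) ⟨hy, hs⟩⟩
  have hfc : Continuous (Function.uncurry f) := hf.continuous
  have hfy : ∀ y, Continuous (f y) := fun y => hfc.comp (by fun_prop : Continuous fun s : ℝ => (y, s))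
  refine intervalIntegral.hasFDerivAt_integral_of_dominated_of_fderiv_le (bound := fun _ => C)
    (F' := fun y s => (fderiv ℝ (Function.uncurry f) (y, s)).comp (ContinuousLinearMap.inl ℝ E ℝ))
    (Metric.closedBall_mem_nhds x one_pos)
    (Filter.Eventually.of_forall fun y => (hfy y).aestronglyMeasurable) ((hfy x).intervalIntegrable _ _)
    (hc.comp (by fun_prop : Continuous fun s : ℝ => (x, s))).aestronglyMeasurable ?_
    intervalIntegrable_const ?_
  · refine Filter.Eventually.of_forall fun s hs y hy => hC y hy s ?_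
    rw [uIoc_of_le zero_le_one] at hs
    exact ⟨hs.1.le, hs.2⟩
  · exact Filter.Eventually.of_forall fun s _ y _ => hd y s

end param

lemma contDiff_param_nat {E : Type} [NormedAddCommGroup E] [NormedSpace ℝ E] [FiniteDimensional ℝ E] (n : ℕ) :
    ∀ {F : Type} [NormedAddCommGroup F] [NormedSpace ℝ F] [CompleteSpace F] (f : E → ℝ → F),
      ContDiff ℝ n (Function.uncurry f) → ContDiff ℝ n fun y => ∫ s in (0 : ℝ)..1, f y s := by
  induction n with
  | zero =>
    intro F _ _ _ f hf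
    rw [Nat.cast_zero, contDiff_zero] at hf ⊢
    exact intervalIntegral.continuous_parametric_intervalIntegral_of_continuous' hf 0 1
  | succ n ih =>
    intro F _ _ _ f hf
    have hf1 : ContDiff ℝ 1 (Function.uncurry f) := hf.of_le (by exact_mod_cast Nat.succ_le_succ n.zero_le)
    rw [Nat.cast_succ] at hf ⊢
    rw [contDiff_succ_iff_hasFDerivAt]
    refine ⟨fun x => ∫ s in (0 : ℝ)..1, (fderiv ℝ (Function.uncurry f) (x, s)).comp
      (ContinuousLinearMap.inl ℝ E ℝ), ?_, fun x => hasFDerivAt_param hf1 x⟩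
    refine ih (fun x s => (fderiv ℝ (Function.uncurry f) (x, s)).comp (ContinuousLinearMap.inl ℝ E ℝ)) ?_
    exact (hf.fderiv_right le_rfl).clm_comp contDiff_const

lemma contDiff_param {E : Type} [NormedAddCommGroup E] [NormedSpace ℝ E] [FiniteDimensional ℝ E]
    {F : Type} [NormedAddCommGroup F] [NormedSpace ℝ F] [CompleteSpace F] {f : E → ℝ → F}
    (hf : ContDiff ℝ ∞ (Function.uncurry f)) : ContDiff ℝ ∞ fun y => ∫ s in (0 : ℝ)..1, f y s :=
  contDiff_infty.2 fun n => contDiff_param_nat n f (hf.of_le (by exact_mod_cast le_top))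

/-- slice `x ↦ (x, c)` -/
def sl (k : ℕ) (c : ℝ) : Sm k (k + 1) :=
  ⟨fun x => Fin.snoc x c, contDiff_snoc.comp (contDiff_id.prodMk contDiff_const)⟩

/-- projection `(x, s) ↦ x` -/
def pr (k : ℕ) : Sm (k + 1) k :=
  ⟨fun z i => z i.castSucc, contDiff_pi.2 fun i => contDiff_apply ℝ ℝ i.castSucc⟩

/-- `g × id` -/
def Sm.up (g : Sm k l) : Sm (k + 1) (l + 1) :=
  ⟨fun z => Fin.snoc (g (pr k z)) (z (Fin.last k)),
    contDiff_snoc.comp ((g.smooth.comp (pr k).smooth).prodMk (contDiff_apply ℝ ℝ (Fin.last k)))⟩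

lemma pr_snoc (x : V k) (s : ℝ) : pr k (Fin.snoc x s) = x := by
  funext i
  exact Fin.snoc_castSucc (α := fun _ => ℝ) s x i

lemma up_snoc (g : Sm k l) (x : V k) (s : ℝ) : g.up (Fin.snoc x s) = Fin.snoc (g x) s := by
  change (Fin.snoc (g (pr k (Fin.snoc x s))) ((Fin.snoc x s : V (k + 1)) (Fin.last k)) : V (l + 1)) = _
  rw [pr_snoc, Fin.snoc_last]

lemma sl_apply (c : ℝ) (x : V k) : sl k c x = Fin.snoc x c := rfl

lemma up_sl (g : Sm k l) (c : ℝ) : g.up.comp (sl k c) = (sl l c).comp g :=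
  Sm.ext fun x => up_snoc g x c

lemma pr_up (g : Sm k l) : (pr l).comp g.up = g.comp (pr k) :=
  Sm.ext fun _ => pr_snoc _ _

lemma pr_sl (c : ℝ) : (pr k).comp (sl k c) = Sm.id k :=
  Sm.ext fun _ => pr_snoc _ _

lemma up_comp (g : Sm l n) (h : Sm k l) : (g.comp h).up = g.up.comp h.up := by
  refine Sm.ext fun z => ?_
  change _ = g.up (Fin.snoc _ _)
  rw [up_snoc]
  rfl

lemma snoc_pr (z : V (k + 1)) : (Fin.snoc (pr k z) (z (Fin.last k)) : V (k + 1)) = z :=
  Fin.snoc_init_self (α := fun _ => ℝ) z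

lemma up_id : (Sm.id k).up = Sm.id (k + 1) := Sm.ext fun z => snoc_pr z

lemma Cs_snoc (f : Cs (k + 1)) : ContDiff ℝ ∞ fun z : V k × ℝ => (f : V (k + 1) → ℝ) (Fin.snoc z.1 z.2) :=
  (Cs_smooth f).comp contDiff_snoc

/-- integral over the last variable in `[0, 1]` -/
def Int (k : ℕ) : Cs (k + 1) →ₗ[ℝ] Cs k where
  toFun f := mkC (fun x => ∫ s in (0 : ℝ)..1, (f : V (k + 1) → ℝ) (Fin.snoc x s))
    (contDiff_param (f := fun x s => (f : V (k + 1) → ℝ) (Fin.snoc x s)) (Cs_snoc f))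
  map_add' f g := by
    apply Cs_ext
    intro x
    have h : ∀ f : Cs (k + 1), Continuous fun s : ℝ => (f : V (k + 1) → ℝ) (Fin.snoc x s) :=
      fun f => (Cs_snoc f).continuous.comp (by fun_prop : Continuous fun s : ℝ => (x, s))
    exact intervalIntegral.integral_add ((h f).intervalIntegrable _ _) ((h g).intervalIntegrable _ _)
  map_smul' r f := by
    apply Cs_ext
    intro x
    exact intervalIntegral.integral_smul r _

lemma Int_apply (f : Cs (k + 1)) (x : V k) :
    (Int k f : V k → ℝ) x = ∫ s in (0 : ℝ)..1, (f : V (k + 1) → ℝ) (Fin.snoc x s) := rfl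

lemma Int_pull (g : Sm k l) (f : Cs (l + 1)) : Int k (g.up.pull f) = g.pull (Int l f) := by
  apply Cs_ext
  intro x
  rw [Sm.pull_apply, Int_apply, Int_apply]
  congr 1
  funext s
  rw [Sm.pull_apply, up_snoc]

lemma Int_mul (g : Cs k) (f : Cs (k + 1)) : Int k ((pr k).pull g * f) = g * Int k f := by
  apply Cs_ext
  intro x
  change ∫ s in (0 : ℝ)..1, (g : V k → ℝ) (pr k (Fin.snoc x s)) * (f : V (k + 1) → ℝ) (Fin.snoc x s) =
    (g : V k → ℝ) x * ∫ s in (0 : ℝ)..1, (f : V (k + 1) → ℝ) (Fin.snoc x s)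
  rw [← intervalIntegral.integral_const_mul]
  congr 1
  funext s
  rw [pr_snoc]

lemma Int_pr (g : Cs k) : Int k ((pr k).pull g) = g := by
  have h := Int_mul g 1
  rw [mul_one] at h
  rw [h]
  have h1 : Int k 1 = 1 := by
    apply Cs_ext
    intro x
    change ∫ s in (0 : ℝ)..1, (1 : ℝ) = 1
    simp
  rw [h1, mul_one]

lemma hasDerivAt_snoc (x : V k) (s : ℝ) :
    HasDerivAt (fun s : ℝ => (Fin.snoc x s : V (k + 1))) (Pi.single (Fin.last k) 1) s := by
  rw [hasDerivAt_pi]
  intro j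
  refine Fin.lastCases ?_ (fun i => ?_) j
  · simp only [Fin.snoc_last, Pi.single_eq_same]
    exact hasDerivAt_id s
  · simp only [Fin.snoc_castSucc]
    rw [Pi.single_eq_of_ne (Fin.castSucc_lt_last i).ne]
    exact hasDerivAt_const s _

lemma Int_last (f : Cs (k + 1)) : Int k (pd (Fin.last k) f) = (sl k 1).pull f - (sl k 0).pull f := by
  apply Cs_ext
  intro x
  change ∫ s in (0 : ℝ)..1, fderiv ℝ (f : V (k + 1) → ℝ) (Fin.snoc x s) (Pi.single (Fin.last k) 1) =
    (f : V (k + 1) → ℝ) (Fin.snoc x 1) - (f : V (k + 1) → ℝ) (Fin.snoc x 0)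
  refine intervalIntegral.integral_eq_sub_of_hasDerivAt (f := fun s => (f : V (k + 1) → ℝ) (Fin.snoc x s))
    (fun s _ => ?_) ?_
  · exact (Cs_diff f _).hasFDerivAt.comp_hasDerivAt s (hasDerivAt_snoc x s)
  · have h : Continuous fun s : ℝ => (pd (Fin.last k) f : V (k + 1) → ℝ) (Fin.snoc x s) :=
      (Cs_snoc _).continuous.comp (by fun_prop : Continuous fun s : ℝ => (x, s))
    exact h.intervalIntegrable _ _

lemma hasFDerivAt_snoc (x : V k) (s : ℝ) (i : Fin k) :
    fderiv ℝ (fun y : V k => (Fin.snoc y s : V (k + 1))) x (Pi.single i 1) = Pi.single i.castSucc 1 := by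
  have hd : DifferentiableAt ℝ (fun y : V k => (Fin.snoc y s : V (k + 1))) x := (sl k s).diff x
  funext j
  have h1 : fderiv ℝ (fun y : V k => (Fin.snoc y s : V (k + 1))) x (Pi.single i 1) j =
      fderiv ℝ (fun y : V k => (Fin.snoc y s : V (k + 1)) j) x (Pi.single i 1) := by
    rw [(hasFDerivAt_pi'.1 hd.hasFDerivAt j).fderiv]
    rfl
  rw [h1]
  refine Fin.lastCases ?_ (fun a => ?_) j
  · simp only [Fin.snoc_last]
    rw [fderiv_fun_const, Pi.single_eq_of_ne (Fin.castSucc_lt_last i).ne']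
    rfl
  · simp only [Fin.snoc_castSucc]
    rw [(hasFDerivAt_apply (𝕜 := ℝ) a x).fderiv]
    change (Pi.single i (1 : ℝ) : V k) a = _
    by_cases h : a = i
    · subst h
      simp
    · rw [Pi.single_eq_of_ne h, Pi.single_eq_of_ne]
      intro h2
      exact h (Fin.castSucc_injective _ h2)

lemma Int_pd (i : Fin k) (f : Cs (k + 1)) : pd i (Int k f) = Int k (pd i.castSucc f) := by
  apply Cs_ext
  intro x
  change fderiv ℝ (fun x => ∫ s in (0 : ℝ)..1, (f : V (k + 1) → ℝ) (Fin.snoc x s)) x (Pi.single i 1) =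
    ∫ s in (0 : ℝ)..1, fderiv ℝ (f : V (k + 1) → ℝ) (Fin.snoc x s) (Pi.single i.castSucc 1)
  have hf : ContDiff ℝ ∞ (Function.uncurry fun (x : V k) (s : ℝ) => (f : V (k + 1) → ℝ) (Fin.snoc x s)) :=
    Cs_snoc f
  rw [(hasFDerivAt_param (hf.of_le ENat.LEInfty.out) x).fderiv]
  have hc : Continuous fun s : ℝ =>
      (fderiv ℝ (Function.uncurry fun (x : V k) (s : ℝ) => (f : V (k + 1) → ℝ) (Fin.snoc x s)) (x, s)).comp
        (ContinuousLinearMap.inl ℝ (V k) ℝ) :=
    ((hf.continuous_fderiv (by simp)).comp (by fun_prop : Continuous fun s : ℝ => (x, s))).clm_comp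
      continuous_const
  rw [ContinuousLinearMap.intervalIntegral_apply (hc.intervalIntegrable _ _)]
  congr 1
  funext s
  have h1 := (hf.differentiable (by simp) (x, s)).hasFDerivAt
  have h2 : HasFDerivAt (fun y => (f : V (k + 1) → ℝ) (Fin.snoc y s))
      ((fderiv ℝ (Function.uncurry fun (x : V k) (s : ℝ) => (f : V (k + 1) → ℝ) (Fin.snoc x s)) (x, s)).comp
        (ContinuousLinearMap.inl ℝ (V k) ℝ)) x :=
    h1.comp (f := fun y => (y, s)) x (hasFDerivAt_prodMk_left x s)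
  have h3 : HasFDerivAt (fun y => (f : V (k + 1) → ℝ) (Fin.snoc y s))
      ((fderiv ℝ (f : V (k + 1) → ℝ) (Fin.snoc x s)).comp
        (fderiv ℝ (fun y : V k => (Fin.snoc y s : V (k + 1))) x)) x :=
    (Cs_diff f _).hasFDerivAt.comp x ((sl k s).diff x).hasFDerivAt
  rw [h2.unique h3, ContinuousLinearMap.comp_apply, hasFDerivAt_snoc]

end Pool.Agent.Lib.MP_ccbbf6_gt.L4.FR
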