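import Pool.Agent.Lib.MP_ccbbf6_gt.L4.FRa

/-!
# Level 4, forms on `R^k`, part b: the algebra of forms, exterior derivative, pullback (helper56)
-/

set_option autoImplicit false
set_option maxSynthPendingDepth 3

open scoped TensorProduct

noncomputable section

namespace Pool.Agent.Lib.MP_ccbbf6_gt.L4.FR

variable {k l n : ℕ}

/-- exterior algebra of `R^k` (dual of `R^k` identified with `R^k`) -/
abbrev Ex (k : ℕ) := ExteriorAlgebra ℝ (V k)

/-- forms on `R^k` -/
def Fm (k : ℕ) : Type := Cs k ⊗[ℝ] Ex k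

instance : Ring (Fm k) := inferInstanceAs (Ring (Cs k ⊗[ℝ] Ex k))
instance : Algebra ℝ (Fm k) := inferInstanceAs (Algebra ℝ (Cs k ⊗[ℝ] Ex k))

/-- pure tensors -/
def tm (f : Cs k) (a : Ex k) : Fm k := f ⊗ₜ[ℝ] a

/-- functions as forms -/
def fc (k : ℕ) : Cs k →ₐ[ℝ] Fm k :=
  (Algebra.TensorProduct.includeLeft : Cs k →ₐ[ℝ] Cs k ⊗[ℝ] Ex k)

/-- constant forms -/
def cf (k : ℕ) : Ex k →ₐ[ℝ] Fm k :=
  (Algebra.TensorProduct.includeRight : Ex k →ₐ[ℝ] Cs k ⊗[ℝ] Ex k)

lemma fc_apply (f : Cs k) : fc k f = tm f 1 := rfl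

lemma cf_apply (a : Ex k) : cf k a = tm 1 a := rfl

lemma tm_mul (f g : Cs k) (a b : Ex k) : tm f a * tm g b = tm (f * g) (a * b) :=
  Algebra.TensorProduct.tmul_mul_tmul f g a b

lemma tm_eq (f : Cs k) (a : Ex k) : tm f a = fc k f * cf k a := by
  rw [fc_apply, cf_apply, tm_mul, mul_one, one_mul]

lemma Fm_tind {P : Fm k → Prop} (hf : ∀ f a, P (tm f a)) (ha : ∀ x y, P x → P y → P (x + y)) (x : Fm k) :
    P x := by
  refine TensorProduct.induction_on (motive := fun x : Cs k ⊗[ℝ] Ex k => P (show Fm k from x)) x ?_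
    (fun f a => hf f a) (fun x y hx hy => ha x y hx hy)
  have h0 := hf 0 0
  have h1 : tm (0 : Cs k) (0 : Ex k) = 0 := TensorProduct.zero_tmul _ _
  rwa [h1] at h0

lemma fc_comm (f : Cs k) (x : Fm k) : fc k f * x = x * fc k f := by
  induction x using Fm_tind with
  | hf g a =>
    rw [fc_apply, tm_mul, tm_mul, mul_comm, one_mul, mul_one]
  | ha x y hx hy => rw [mul_add, add_mul, hx, hy]

/-- covector `dx_i` -/
def ee (i : Fin k) : Ex k := ExteriorAlgebra.ι ℝ (Pi.single i 1)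

/-- `dx_i` as a form -/
def dx (i : Fin k) : Fm k := cf k (ee i)

lemma ee_swap (i j : Fin k) : ee i * ee j = -(ee j * ee i) :=
  eq_neg_of_add_eq_zero_left (ExteriorAlgebra.ι_add_mul_swap _ _)

lemma ι_eq (v : V k) : ExteriorAlgebra.ι ℝ v = ∑ i, v i • ee i := by
  have h5 : v = ∑ j, v j • (Pi.single j (1 : ℝ) : V k) := by
    ext a
    simp [Finset.sum_apply, Pi.single_apply]
  conv_lhs => rw [h5]
  rw [map_sum]
  refine Finset.sum_congr rfl fun j _ => ?_
  rw [map_smul]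
  rfl

/-- induction principle -/
lemma Fm_ind {P : Fm k → Prop} (hf : ∀ f, P (fc k f)) (hd : ∀ i, P (dx i))
    (hm : ∀ x y, P x → P y → P (x * y)) (ha : ∀ x y, P x → P y → P (x + y)) (x : Fm k) : P x := by
  have h1 : ∀ a : Ex k, P (cf k a) := by
    intro a
    induction a using ExteriorAlgebra.induction with
    | algebraMap r =>
      have h2 : cf k (algebraMap ℝ (Ex k) r) = fc k (algebraMap ℝ (Cs k) r) := by
        rw [AlgHom.commutes, AlgHom.commutes]
      rw [h2]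
      exact hf _
    | ι v =>
      rw [ι_eq, map_sum]
      refine Finset.sum_induction _ P ha ?_ ?_
      · have := hf 0
        rwa [map_zero] at this
      · intro i _
        rw [map_smul]
        have h3 : v i • cf k (ee i) = fc k (algebraMap ℝ (Cs k) (v i)) * dx i := by
          rw [AlgHom.commutes, Algebra.smul_def]
          rfl
        rw [h3]
        exact hm _ _ (hf _) (hd i)
    | mul a b hA hB =>
      rw [map_mul]
      exact hm _ _ hA hB
    | add a b hA hB =>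
      rw [map_add]
      exact ha _ _ hA hB
  refine TensorProduct.induction_on (motive := fun x : Cs k ⊗[ℝ] Ex k => P (show Fm k from x)) x ?_ ?_ ?_
  · have := hf 0
    rw [map_zero] at this
    exact this
  · intro g a
    have h2 := hm _ _ (hf g) (h1 a)
    rw [← tm_eq] at h2
    exact h2
  · intro x y hx hy
    exact ha _ _ hx hy

/-- linear maps agree if they agree on pure tensors -/
lemma Fm_ext {W : Type*} [AddCommGroup W] [Module ℝ W] {A B : Fm k →ₗ[ℝ] W}
    (h : ∀ f a, A (tm f a) = B (tm f a)) : A = B :=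
  TensorProduct.ext' (g := (A : Cs k ⊗[ℝ] Ex k →ₗ[ℝ] W)) (h := (B : Cs k ⊗[ℝ] Ex k →ₗ[ℝ] W)) h

/-- tensor product of two linear maps on forms -/
def tmap (A : Cs k →ₗ[ℝ] Cs l) (B : Ex k →ₗ[ℝ] Ex l) : Fm k →ₗ[ℝ] Fm l :=
  (TensorProduct.map A B : Cs k ⊗[ℝ] Ex k →ₗ[ℝ] Cs l ⊗[ℝ] Ex l)

lemma tmap_tm (A : Cs k →ₗ[ℝ] Cs l) (B : Ex k →ₗ[ℝ] Ex l) (f : Cs k) (a : Ex k) :
    tmap A B (tm f a) = tm (A f) (B a) := rfl

lemma tm_add_left (f g : Cs k) (a : Ex k) : tm (f + g) a = tm f a + tm g a := TensorProduct.add_tmul _ _ _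
lemma tm_add_right (f : Cs k) (a b : Ex k) : tm f (a + b) = tm f a + tm f b := TensorProduct.tmul_add _ _ _
lemma tm_sub_left (f g : Cs k) (a : Ex k) : tm (f - g) a = tm f a - tm g a := TensorProduct.sub_tmul _ _ _
lemma tm_sub_right (f : Cs k) (a b : Ex k) : tm f (a - b) = tm f a - tm f b := TensorProduct.tmul_sub _ _ _
lemma tm_neg_right (f : Cs k) (a : Ex k) : tm f (-a) = -tm f a := TensorProduct.tmul_neg _ _
lemma tm_zero_left (a : Ex k) : tm (0 : Cs k) a = 0 := TensorProduct.zero_tmul _ _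
lemma tm_zero_right (f : Cs k) : tm f (0 : Ex k) = 0 := TensorProduct.tmul_zero _ _
lemma tm_smul_right (r : ℝ) (f : Cs k) (a : Ex k) : tm f (r • a) = r • tm f a := TensorProduct.tmul_smul _ _ _
lemma tm_smul_left (r : ℝ) (f : Cs k) (a : Ex k) : tm (r • f) a = r • tm f a := rfl

/-- exterior derivative -/
def dd (k : ℕ) : Fm k →ₗ[ℝ] Fm k := ∑ i, tmap (pd i) (LinearMap.mulLeft ℝ (ee i))

lemma dd_tm (f : Cs k) (a : Ex k) : dd k (tm f a) = ∑ i, tm (pd i f) (ee i * a) := by
  unfold dd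
  rw [LinearMap.sum_apply]
  rfl

/-- grading involution -/
def sg (k : ℕ) : Fm k →ₐ[ℝ] Fm k :=
  (Algebra.TensorProduct.map (AlgHom.id ℝ (Cs k)) (CliffordAlgebra.involute (Q := (0 : QuadraticForm ℝ (V k)))) :
    Cs k ⊗[ℝ] Ex k →ₐ[ℝ] Cs k ⊗[ℝ] Ex k)

/-- grading involution of the exterior algebra -/
def ivo (k : ℕ) : Ex k →ₐ[ℝ] Ex k := CliffordAlgebra.involute (Q := (0 : QuadraticForm ℝ (V k)))

lemma ivo_ι (v : V k) : ivo k (ExteriorAlgebra.ι ℝ v) = -ExteriorAlgebra.ι ℝ v :=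
  CliffordAlgebra.involute_ι (Q := (0 : QuadraticForm ℝ (V k))) v

lemma ivo_ivo (a : Ex k) : ivo k (ivo k a) = a :=
  CliffordAlgebra.involute_involute (Q := (0 : QuadraticForm ℝ (V k))) a

lemma sg_tm (f : Cs k) (a : Ex k) : sg k (tm f a) = tm f (ivo k a) := rfl

lemma sg_sg (x : Fm k) : sg k (sg k x) = x := by
  induction x using Fm_tind with
  | hf f a => rw [sg_tm, sg_tm, ivo_ivo]
  | ha x y hx hy => rw [map_add, map_add, hx, hy]

lemma sg_fc (f : Cs k) : sg k (fc k f) = fc k f := by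
  rw [fc_apply, sg_tm, map_one]

lemma sg_dx (i : Fin k) : sg k (dx i) = -dx i := by
  change sg k (tm 1 (ee i)) = -tm 1 (ee i)
  rw [sg_tm, ee, ivo_ι, tm_neg_right]

lemma ι_swap (v : V k) (a : Ex k) : ExteriorAlgebra.ι ℝ v * a = ivo k a * ExteriorAlgebra.ι ℝ v := by
  induction a using ExteriorAlgebra.induction with
  | algebraMap r => rw [AlgHom.commutes, Algebra.commutes]
  | ι w => rw [ivo_ι, neg_mul]; exact eq_neg_of_add_eq_zero_left (ExteriorAlgebra.ι_add_mul_swap _ _)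
  | mul a b hA hB => rw [← mul_assoc, hA, mul_assoc, hB, map_mul, mul_assoc]
  | add a b hA hB => rw [mul_add, hA, hB, map_add, add_mul]

/-- graded Leibniz rule -/
lemma dd_mul (x y : Fm k) : dd k (x * y) = dd k x * y + sg k x * dd k y := by
  induction x using Fm_tind with
  | hf f a =>
    induction y using Fm_tind with
    | hf g b =>
      rw [tm_mul, dd_tm, dd_tm, dd_tm, Finset.sum_mul, sg_tm, Finset.mul_sum, ← Finset.sum_add_distrib]
      refine Finset.sum_congr rfl fun i _ => ?_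
      rw [tm_mul, tm_mul, pd_mul, tm_add_left]
      have h1 : ivo k a * (ee i * b) = ee i * (a * b) := by
        rw [← mul_assoc, ← mul_assoc]
        unfold ee
        rw [ι_swap]
      rw [h1, mul_assoc]
    | ha y y' hy hy' =>
      rw [mul_add, map_add, hy, hy', map_add, mul_add, mul_add]
      abel
  | ha x x' hx hx' =>
    rw [add_mul, map_add, hx, hx', map_add, map_add, add_mul, add_mul]
    abel

lemma dd_fc (f : Cs k) : dd k (fc k f) = ∑ i, fc k (pd i f) * dx i := by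
  rw [fc_apply, dd_tm]
  refine Finset.sum_congr rfl fun i _ => ?_
  rw [mul_one]
  exact tm_eq _ _

lemma dd_cf (a : Ex k) : dd k (cf k a) = 0 := by
  rw [cf_apply, dd_tm]
  refine Finset.sum_eq_zero fun i _ => ?_
  rw [pd_one, tm_zero_left]

lemma dd_dx (i : Fin k) : dd k (dx i) = 0 := dd_cf _

lemma eq_zero_of_eq_neg {W : Type*} [AddCommGroup W] [Module ℝ W] {x : W} (h : x = -x) : x = 0 := by
  have h3 : (2 : ℝ) • x = 0 := by
    rw [two_smul]
    nth_rewrite 1 [h]
    exact neg_add_cancel _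
  calc x = (2 : ℝ)⁻¹ • (2 : ℝ) • x := (inv_smul_smul₀ two_ne_zero _).symm
    _ = 0 := by rw [h3, smul_zero]

lemma dd_dd (x : Fm k) : dd k (dd k x) = 0 := by
  induction x using Fm_tind with
  | hf f a =>
    rw [dd_tm, map_sum]
    have h1 : ∀ i, dd k (tm (pd i f) (ee i * a)) = ∑ j, tm (pd j (pd i f)) (ee j * ee i * a) := by
      intro i
      rw [dd_tm]
      refine Finset.sum_congr rfl fun j _ => ?_
      rw [mul_assoc]
    simp only [h1]
    have h2 : ∑ i, ∑ j, tm (pd j (pd i f)) (ee j * ee i * a) =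
        -∑ i, ∑ j, tm (pd j (pd i f)) (ee j * ee i * a) := by
      conv_lhs => rw [Finset.sum_comm]
      rw [← Finset.sum_neg_distrib]
      refine Finset.sum_congr rfl fun i _ => ?_
      rw [← Finset.sum_neg_distrib]
      refine Finset.sum_congr rfl fun j _ => ?_
      rw [pd_comm i j, ee_swap i j, neg_mul, tm_neg_right]
    exact eq_zero_of_eq_neg h2
  | ha x y hx hy => rw [map_add, map_add, hx, hy, add_zero]

lemma dd_one : dd k (1 : Fm k) = 0 := by
  have := dd_cf (k := k) 1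
  rwa [map_one] at this

lemma sg_dd (x : Fm k) : sg k (dd k x) = -dd k (sg k x) := by
  induction x using Fm_tind with
  | hf f a =>
    rw [dd_tm, map_sum, sg_tm, dd_tm, ← Finset.sum_neg_distrib]
    refine Finset.sum_congr rfl fun i _ => ?_
    rw [sg_tm, map_mul, ee, ivo_ι, neg_mul, tm_neg_right]
  | ha x y hx hy => rw [map_add, map_add, hx, hy, map_add, map_add, neg_add]

/-! ### Pullback -/

lemma dx_swap (i j : Fin k) : dx i * dx j = -(dx j * dx i) := by
  unfold dx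
  rw [← map_mul, ← map_mul, ee_swap, map_neg]

/-- `∑ a_i dx_i` has square zero -/
lemma sq_zero (a : Fin k → Cs k) : (∑ i, fc k (a i) * dx i) * (∑ i, fc k (a i) * dx i) = 0 := by
  apply eq_zero_of_eq_neg
  rw [Finset.sum_mul_sum]
  conv_lhs => rw [Finset.sum_comm]
  rw [← Finset.sum_neg_distrib]
  refine Finset.sum_congr rfl fun i _ => ?_
  rw [← Finset.sum_neg_distrib]
  refine Finset.sum_congr rfl fun j _ => ?_
  have h1 : ∀ i j, fc k (a i) * dx i * (fc k (a j) * dx j) = fc k (a i * a j) * (dx i * dx j) := by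
    intro i j
    rw [mul_assoc, ← mul_assoc (dx i), ← fc_comm, map_mul]
    simp only [mul_assoc]
  rw [h1, h1, dx_swap j i, mul_comm (a j), mul_neg]

/-- the linear map `dx_j ↦ d(g_j)` -/
def pbl (g : Sm k l) : V l →ₗ[ℝ] Fm k where
  toFun v := ∑ j, v j • dd k (fc k (g.cp j))
  map_add' v w := by
    rw [← Finset.sum_add_distrib]
    exact Finset.sum_congr rfl fun j _ => add_smul _ _ _
  map_smul' r v := by
    rw [RingHom.id_apply, Finset.smul_sum]
    exact Finset.sum_congr rfl fun j _ => mul_smul _ _ _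

lemma pbl_apply (g : Sm k l) (v : V l) : pbl g v = ∑ j, v j • dd k (fc k (g.cp j)) := rfl

lemma pbl_eq (g : Sm k l) (v : V l) : pbl g v = ∑ i, fc k (∑ j, v j • pd i (g.cp j)) * dx i := by
  rw [pbl_apply]
  simp only [dd_fc, Finset.smul_sum]
  rw [Finset.sum_comm]
  refine Finset.sum_congr rfl fun i _ => ?_
  rw [map_sum, Finset.sum_mul]
  refine Finset.sum_congr rfl fun j _ => ?_
  rw [map_smul, smul_mul_assoc]

/-- pullback of forms -/
def pb (g : Sm k l) : Fm l →ₐ[ℝ] Fm k :=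
  (Algebra.TensorProduct.lift ((fc k).comp g.pull)
    (ExteriorAlgebra.lift ℝ ⟨pbl g, fun v => by rw [pbl_eq]; exact sq_zero _⟩)
    (fun f a => fc_comm _ _) : Cs l ⊗[ℝ] Ex l →ₐ[ℝ] Fm k)

lemma pb_fc (g : Sm k l) (f : Cs l) : pb g (fc l f) = fc k (g.pull f) := by
  change Algebra.TensorProduct.lift _ _ _ (f ⊗ₜ[ℝ] (1 : Ex l)) = _
  rw [Algebra.TensorProduct.lift_tmul, map_one, mul_one]
  rfl

lemma pb_ι (g : Sm k l) (v : V l) : pb g (cf l (ExteriorAlgebra.ι ℝ v)) = pbl g v := by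
  change Algebra.TensorProduct.lift _ _ _ ((1 : Cs l) ⊗ₜ[ℝ] (ExteriorAlgebra.ι ℝ v)) = _
  rw [Algebra.TensorProduct.lift_tmul, map_one, one_mul, ExteriorAlgebra.lift_ι_apply]

lemma pb_dx (g : Sm k l) (j : Fin l) : pb g (dx j) = dd k (fc k (g.cp j)) := by
  unfold dx ee
  rw [pb_ι, pbl_apply, Finset.sum_eq_single j]
  · simp
  · intro i _ hi
    rw [Pi.single_eq_of_ne hi, zero_smul]
  · intro h
    exact absurd (Finset.mem_univ j) h

lemma pb_sg (g : Sm k l) (x : Fm l) : sg k (pb g x) = pb g (sg l x) := by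
  induction x using Fm_ind with
  | hf f => rw [pb_fc, sg_fc, sg_fc, pb_fc]
  | hd i => rw [pb_dx, sg_dd, sg_fc, sg_dx, map_neg, pb_dx]
  | hm x y hx hy => rw [map_mul, map_mul, hx, hy, map_mul, map_mul]
  | ha x y hx hy => rw [map_add, map_add, hx, hy, map_add, map_add]

/-- pullback commutes with `d` -/
lemma pb_dd (g : Sm k l) (x : Fm l) : dd k (pb g x) = pb g (dd l x) := by
  induction x using Fm_ind with
  | hf f =>
    rw [pb_fc, dd_fc, dd_fc, map_sum]
    simp only [map_mul, pb_fc, pb_dx, dd_fc, pd_pull, map_sum, Finset.sum_mul, Finset.mul_sum]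
    rw [Finset.sum_comm]
    refine Finset.sum_congr rfl fun j _ => Finset.sum_congr rfl fun i _ => ?_
    rw [mul_assoc]
  | hd i => rw [pb_dx, dd_dd, dd_dx, map_zero]
  | hm x y hx hy => rw [map_mul, dd_mul, hx, hy, pb_sg, dd_mul, map_add, map_mul, map_mul]
  | ha x y hx hy => rw [map_add, map_add, hx, hy, map_add, map_add]

lemma pb_comp (g : Sm l n) (h : Sm k l) (x : Fm n) : pb (g.comp h) x = pb h (pb g x) := by
  induction x using Fm_ind with
  | hf f => rw [pb_fc, pb_fc, pb_fc]; rfl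
  | hd i => rw [pb_dx, pb_dx, ← pb_dd, pb_fc]; rfl
  | hm x y hx hy => rw [map_mul, hx, hy, map_mul, map_mul]
  | ha x y hx hy => rw [map_add, hx, hy, map_add, map_add]

lemma fc_pd_co (i : Fin k) : dd k (fc k (co i)) = dx i := by
  rw [dd_fc, Finset.sum_eq_single i]
  · rw [pd_co, if_pos rfl, map_one, one_mul]
  · intro j _ hj
    rw [pd_co, if_neg hj, map_zero, zero_mul]
  · intro h
    exact absurd (Finset.mem_univ i) h

lemma pb_id (x : Fm k) : pb (Sm.id k) x = x := by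
  induction x using Fm_ind with
  | hf f => rw [pb_fc]; rfl
  | hd i => rw [pb_dx]; exact fc_pd_co i
  | hm x y hx hy => rw [map_mul, hx, hy]
  | ha x y hx hy => rw [map_add, hx, hy]

end Pool.Agent.Lib.MP_ccbbf6_gt.L4.FR
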