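import Pool.Agent.Lib.MP_ccbbf6_gt.L4.FRb

/-!
# Level 4, forms on `R^k`, part c: contraction with `∂_s`, the operator `K`, evaluation at a point (helper56)
-/

set_option autoImplicit false
set_option maxSynthPendingDepth 3

open scoped TensorProduct

noncomputable section

namespace Pool.Agent.Lib.MP_ccbbf6_gt.L4.FR

variable {k l n : ℕ}

/-- contraction of the exterior algebra with a linear form on covectors -/
def ctr (φ : V k →ₗ[ℝ] ℝ) : Ex k →ₗ[ℝ] Ex k := CliffordAlgebra.contractLeft (Q := (0 : QuadraticForm ℝ (V k))) φ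

lemma ctr_ι_mul (φ : V k →ₗ[ℝ] ℝ) (v : V k) (a : Ex k) :
    ctr φ (ExteriorAlgebra.ι ℝ v * a) = φ v • a - ExteriorAlgebra.ι ℝ v * ctr φ a :=
  CliffordAlgebra.contractLeft_ι_mul (Q := (0 : QuadraticForm ℝ (V k))) φ v a

lemma ctr_ctr (φ : V k →ₗ[ℝ] ℝ) (a : Ex k) : ctr φ (ctr φ a) = 0 :=
  CliffordAlgebra.contractLeft_contractLeft (Q := (0 : QuadraticForm ℝ (V k))) φ a

lemma ctr_algebraMap (φ : V k →ₗ[ℝ] ℝ) (r : ℝ) : ctr φ (algebraMap ℝ (Ex k) r) = 0 :=
  CliffordAlgebra.contractLeft_algebraMap (Q := (0 : QuadraticForm ℝ (V k))) φ r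

lemma ctr_one (φ : V k →ₗ[ℝ] ℝ) : ctr φ (1 : Ex k) = 0 := by
  have := ctr_algebraMap φ 1
  rwa [map_one] at this

lemma ctr_mul (φ : V k →ₗ[ℝ] ℝ) (a b : Ex k) : ctr φ (a * b) = ctr φ a * b + ivo k a * ctr φ b := by
  induction a using CliffordAlgebra.left_induction with
  | algebraMap r =>
    rw [ctr_algebraMap, AlgHom.commutes, zero_mul, zero_add, ← Algebra.smul_def, ← Algebra.smul_def, map_smul]
  | add x y hx hy => rw [add_mul, map_add, hx, hy, map_add, map_add, add_mul, add_mul]; abel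
  | ι_mul x v hx =>
    change ctr φ (ExteriorAlgebra.ι ℝ v * x * b) = ctr φ (ExteriorAlgebra.ι ℝ v * x) * b +
      ivo k (ExteriorAlgebra.ι ℝ v * x) * ctr φ b
    rw [mul_assoc, ctr_ι_mul, ctr_ι_mul, hx, map_mul, ivo_ι, sub_mul, mul_add, smul_mul_assoc]
    simp only [neg_mul, mul_assoc]
    abel

/-- contraction with the constant vector field given by `φ` -/
def cn (φ : V k →ₗ[ℝ] ℝ) : Fm k →ₗ[ℝ] Fm k := tmap LinearMap.id (ctr φ)

lemma cn_tm (φ : V k →ₗ[ℝ] ℝ) (f : Cs k) (a : Ex k) : cn φ (tm f a) = tm f (ctr φ a) := rfl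

lemma cn_cn (φ : V k →ₗ[ℝ] ℝ) (x : Fm k) : cn φ (cn φ x) = 0 := by
  induction x using Fm_tind with
  | hf f a => rw [cn_tm, cn_tm, ctr_ctr, tm_zero_right]
  | ha x y hx hy => rw [map_add, map_add, hx, hy, add_zero]

lemma cn_fc (φ : V k →ₗ[ℝ] ℝ) (f : Cs k) : cn φ (fc k f) = 0 := by
  rw [fc_apply, cn_tm, ctr_one, tm_zero_right]

lemma cn_dx (φ : V k →ₗ[ℝ] ℝ) (i : Fin k) : cn φ (dx i) = algebraMap ℝ (Fm k) (φ (Pi.single i 1)) := by
  unfold dx ee
  rw [cf_apply, cn_tm]
  have h := ctr_ι_mul φ (Pi.single i (1 : ℝ)) 1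
  rw [mul_one, ctr_one, mul_zero, sub_zero] at h
  rw [h, tm_smul_right, Algebra.algebraMap_eq_smul_one]
  rfl

/-- contraction is an antiderivation -/
lemma cn_mul (φ : V k →ₗ[ℝ] ℝ) (x y : Fm k) : cn φ (x * y) = cn φ x * y + sg k x * cn φ y := by
  induction x using Fm_tind with
  | hf f a =>
    induction y using Fm_tind with
    | hf g b => rw [tm_mul, cn_tm, cn_tm, cn_tm, sg_tm, tm_mul, tm_mul, ctr_mul, tm_add_right]
    | ha y y' hy hy' =>
      rw [mul_add, map_add, hy, hy', map_add, mul_add, mul_add]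
      abel
  | ha x x' hx hx' =>
    rw [add_mul, map_add, hx, hx', map_add, map_add, add_mul, add_mul]
    abel

lemma sg_cn (φ : V k →ₗ[ℝ] ℝ) (x : Fm k) : sg k (cn φ x) = -cn φ (sg k x) := by
  induction x using Fm_ind with
  | hf f => rw [cn_fc, sg_fc, cn_fc, map_zero, neg_zero]
  | hd i => rw [sg_dx, map_neg, cn_dx, AlgHom.commutes, neg_neg]
  | hm x y hx hy =>
    rw [cn_mul, map_add, map_mul, map_mul, hx, hy, map_mul, cn_mul]
    rw [neg_add, neg_mul, mul_neg]
  | ha x y hx hy => rw [map_add, map_add, hx, hy, map_add, map_add, neg_add]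

/-- the last coordinate of covectors = the vector field `∂_s` -/
def lst (k : ℕ) : V (k + 1) →ₗ[ℝ] ℝ := LinearMap.proj (Fin.last k)

lemma lst_apply (v : V (k + 1)) : lst k v = v (Fin.last k) := rfl

/-- contraction with `∂_s` -/
def cs (k : ℕ) : Fm (k + 1) →ₗ[ℝ] Fm (k + 1) := cn (lst k)

/-- forget the last coordinate -/
def ini (k : ℕ) : V (k + 1) →ₗ[ℝ] V k where
  toFun v i := v i.castSucc
  map_add' _ _ := rfl
  map_smul' _ _ := rfl

/-- covectors: kill `ds` -/
def kil (k : ℕ) : Ex (k + 1) →ₐ[ℝ] Ex k := ExteriorAlgebra.map (ini k)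

lemma kil_ι (v : V (k + 1)) : kil k (ExteriorAlgebra.ι ℝ v) = ExteriorAlgebra.ι ℝ (ini k v) :=
  ExteriorAlgebra.map_apply_ι _ _

lemma ini_single (i : Fin k) : ini k (Pi.single i.castSucc 1) = Pi.single i 1 := by
  funext j
  change (Pi.single i.castSucc (1 : ℝ) : V (k + 1)) j.castSucc = _
  by_cases h : j = i
  · subst h
    simp
  · rw [Pi.single_eq_of_ne h, Pi.single_eq_of_ne]
    intro h2
    exact h (Fin.castSucc_injective _ h2)

lemma ini_last : ini k (Pi.single (Fin.last k) 1) = 0 := by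
  funext j
  change (Pi.single (Fin.last k) (1 : ℝ) : V (k + 1)) j.castSucc = _
  rw [Pi.single_eq_of_ne (Fin.castSucc_lt_last j).ne]
  rfl

lemma kil_ee (i : Fin k) : kil k (ee i.castSucc) = ee i := by
  unfold ee
  rw [kil_ι, ini_single]

lemma kil_last : kil k (ee (Fin.last k)) = 0 := by
  unfold ee
  rw [kil_ι, ini_last, map_zero]

/-- integration of the coefficients, killing `ds` -/
def Q0 (k : ℕ) : Fm (k + 1) →ₗ[ℝ] Fm k := tmap (Int k) (kil k).toLinearMap

lemma Q0_tm (f : Cs (k + 1)) (a : Ex (k + 1)) : Q0 k (tm f a) = tm (Int k f) (kil k a) := rfl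

/-- fibre integration over `[0, 1]` -/
def KK (k : ℕ) : Fm (k + 1) →ₗ[ℝ] Fm k := (Q0 k).comp (cs k)

lemma KK_apply (x : Fm (k + 1)) : KK k x = Q0 k (cs k x) := rfl

lemma cp_sl_castSucc (c : ℝ) (i : Fin k) : (sl k c).cp i.castSucc = co i := by
  apply Cs_ext
  intro x
  exact Fin.snoc_castSucc (α := fun _ => ℝ) c x i

lemma cp_sl_last (c : ℝ) : (sl k c).cp (Fin.last k) = algebraMap ℝ (Cs k) c := by
  apply Cs_ext
  intro x
  exact Fin.snoc_last (α := fun _ => ℝ) c x

lemma pb_sl (c : ℝ) (f : Cs (k + 1)) (a : Ex (k + 1)) :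
    pb (sl k c) (tm f a) = tm ((sl k c).pull f) (kil k a) := by
  rw [tm_eq, map_mul, pb_fc, tm_eq]
  congr 1
  induction a using ExteriorAlgebra.induction with
  | algebraMap r => rw [AlgHom.commutes, AlgHom.commutes, AlgHom.commutes, AlgHom.commutes]
  | ι v =>
    rw [pb_ι, pbl_apply, Fin.sum_univ_castSucc, cp_sl_last, kil_ι, ι_eq, map_sum]
    have h1 : dd k (fc k (algebraMap ℝ (Cs k) c)) = 0 := by
      rw [AlgHom.commutes, Algebra.algebraMap_eq_smul_one, map_smul, dd_one, smul_zero]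
    rw [h1, smul_zero, add_zero]
    refine Finset.sum_congr rfl fun i _ => ?_
    rw [cp_sl_castSucc, fc_pd_co, map_smul]
    rfl
  | mul a b hA hB => simp only [map_mul, hA, hB]
  | add a b hA hB => simp only [map_add, hA, hB]

/-- `d K + K d = j_1^* - j_0^*` -/
theorem dd_KK (x : Fm (k + 1)) :
    dd k (KK k x) + KK k (dd (k + 1) x) = pb (sl k 1) x - pb (sl k 0) x := by
  induction x using Fm_tind with
  | hf f a =>
    have h1 : dd k (KK k (tm f a)) =
        ∑ i : Fin k, tm (Int k (pd i.castSucc f)) (ee i * kil k (ctr (lst k) a)) := by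
      rw [KK_apply, cs, cn_tm, Q0_tm, dd_tm]
      refine Finset.sum_congr rfl fun i _ => ?_
      rw [Int_pd]
    have h2 : KK k (dd (k + 1) (tm f a)) = tm (Int k (pd (Fin.last k) f)) (kil k a) -
        ∑ i : Fin k, tm (Int k (pd i.castSucc f)) (ee i * kil k (ctr (lst k) a)) := by
      have h3 : ∀ j : Fin (k + 1), KK k (tm (pd j f) (ee j * a)) =
          tm (Int k (pd j f)) (lst k (Pi.single j 1) • kil k a - kil k (ee j) * kil k (ctr (lst k) a)) := by
        intro j
        rw [KK_apply, cs, cn_tm, Q0_tm]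
        congr 1
        rw [ee, ctr_ι_mul, map_sub, map_smul, map_mul]
      rw [dd_tm, map_sum]
      simp only [h3]
      rw [Fin.sum_univ_castSucc, kil_last, zero_mul, sub_zero, lst_apply, Pi.single_eq_same, one_smul,
        add_comm, sub_eq_add_neg, ← Finset.sum_neg_distrib]
      congr 1
      refine Finset.sum_congr rfl fun i _ => ?_
      rw [lst_apply, Pi.single_eq_of_ne (Fin.castSucc_lt_last i).ne', zero_smul, zero_sub, tm_neg_right,
        kil_ee]
    rw [h1, h2, pb_sl, pb_sl, Int_last, tm_sub_left]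
    abel
  | ha x y hx hy =>
    simp only [map_add]
    rw [show dd k (KK k x) + dd k (KK k y) + (KK k (dd (k + 1) x) + KK k (dd (k + 1) y)) =
      (dd k (KK k x) + KK k (dd (k + 1) x)) + (dd k (KK k y) + KK k (dd (k + 1) y)) by abel, hx, hy]
    abel

/-! ### Linearity and naturality of `K` -/

lemma cp_pr (i : Fin k) : (pr k).cp i = co i.castSucc := rfl

lemma pb_pr_dx (i : Fin k) : pb (pr k) (dx i) = dx i.castSucc := by
  rw [pb_dx, cp_pr, fc_pd_co]

lemma Q0_mul (z : Fm k) (y : Fm (k + 1)) : Q0 k (pb (pr k) z * y) = z * Q0 k y := by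
  induction z using Fm_ind generalizing y with
  | hf f =>
    induction y using Fm_tind with
    | hf g a => rw [pb_fc, fc_apply, tm_mul, Q0_tm, Q0_tm, Int_mul, fc_apply, tm_mul, one_mul, one_mul]
    | ha y y' hy hy' => rw [mul_add, map_add, hy, hy', map_add, mul_add]
  | hd i =>
    induction y using Fm_tind with
    | hf g a =>
      rw [pb_pr_dx, dx, cf_apply, tm_mul, Q0_tm, Q0_tm, dx, cf_apply, tm_mul, one_mul, one_mul, map_mul, kil_ee]
    | ha y y' hy hy' => rw [mul_add, map_add, hy, hy', map_add, mul_add]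
  | hm x x' hx hx' => rw [map_mul (pb (pr k)), mul_assoc, hx, hx', mul_assoc]
  | ha x x' hx hx' => rw [map_add (pb (pr k)), add_mul, map_add, hx, hx', add_mul]

lemma Q0_last (y : Fm (k + 1)) : Q0 k (dx (Fin.last k) * y) = 0 := by
  induction y using Fm_tind with
  | hf g a => rw [dx, cf_apply, tm_mul, Q0_tm, map_mul (kil k), kil_last, zero_mul, tm_zero_right]
  | ha y y' hy hy' => rw [mul_add, map_add, hy, hy', add_zero]

lemma cs_pr (z : Fm k) : cs k (pb (pr k) z) = 0 := by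
  induction z using Fm_ind with
  | hf f => rw [pb_fc, cs, cn_fc]
  | hd i =>
    rw [pb_pr_dx, cs, cn_dx, lst_apply, Pi.single_eq_of_ne (Fin.castSucc_lt_last i).ne', map_zero]
  | hm x y hx hy =>
    rw [map_mul, cs, cn_mul]
    rw [cs] at hx hy
    rw [hx, hy, zero_mul, mul_zero, add_zero]
  | ha x y hx hy => rw [map_add, map_add, hx, hy, add_zero]

/-- `K` is linear over forms on the base -/
lemma KK_mul (z : Fm k) (y : Fm (k + 1)) : KK k (pb (pr k) z * y) = sg k z * KK k y := by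
  rw [KK_apply, cs, cn_mul]
  have h := cs_pr z
  rw [cs] at h
  rw [h, zero_mul, zero_add, pb_sg, Q0_mul, KK_apply, cs]

lemma KK_pr (z : Fm k) : KK k (pb (pr k) z) = 0 := by
  rw [KK_apply, cs_pr, map_zero]

lemma cp_up_castSucc (g : Sm k l) (j : Fin l) : g.up.cp j.castSucc = (pr k).pull (g.cp j) := by
  apply Cs_ext
  intro z
  exact Fin.snoc_castSucc (α := fun _ => ℝ) _ _ j

lemma cp_up_last (g : Sm k l) : g.up.cp (Fin.last l) = co (Fin.last k) := by
  apply Cs_ext
  intro z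
  exact Fin.snoc_last (α := fun _ => ℝ) _ _

/-- contraction with `∂_s` is natural -/
lemma cs_up (g : Sm k l) (x : Fm (l + 1)) : cs k (pb g.up x) = pb g.up (cs l x) := by
  induction x using Fm_ind with
  | hf f => rw [pb_fc, cs, cs, cn_fc, cn_fc, map_zero]
  | hd j =>
    refine Fin.lastCases ?_ (fun i => ?_) j
    · rw [pb_dx, cp_up_last, fc_pd_co, cs, cs, cn_dx, cn_dx, AlgHom.commutes, lst_apply, lst_apply,
        Pi.single_eq_same, Pi.single_eq_same]
    · rw [pb_dx, cp_up_castSucc, ← pb_fc, pb_dd, cs_pr, cs, cn_dx, lst_apply,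
        Pi.single_eq_of_ne (Fin.castSucc_lt_last i).ne', map_zero, map_zero]
  | hm x y hx hy =>
    rw [cs] at hx hy
    rw [map_mul, cs, cs, cn_mul, cn_mul, map_add, map_mul, map_mul, hx, hy, pb_sg]
    rfl
  | ha x y hx hy => rw [map_add, map_add, hx, hy, map_add, map_add]

lemma Q0_ind (g : Sm k l) (f : Cs (k + 1)) (a : Ex (l + 1)) :
    Q0 k (fc (k + 1) f * pb g.up (cf (l + 1) a)) = fc k (Int k f) * pb g (cf l (kil l a)) := by
  induction a using CliffordAlgebra.left_induction with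
  | algebraMap r =>
    change Q0 k (fc (k + 1) f * pb g.up (cf (l + 1) (algebraMap ℝ (Ex (l + 1)) r))) =
      fc k (Int k f) * pb g (cf l (kil l (algebraMap ℝ (Ex (l + 1)) r)))
    simp only [AlgHom.commutes]
    rw [Algebra.algebraMap_eq_smul_one, mul_smul_comm, mul_one, map_smul, Algebra.algebraMap_eq_smul_one,
      mul_smul_comm, mul_one, fc_apply, Q0_tm, map_one, fc_apply]
  | add x y hx hy => simp only [map_add, mul_add, hx, hy]
  | ι_mul x v hx =>
    change Q0 k (fc (k + 1) f * pb g.up (cf (l + 1) (ExteriorAlgebra.ι ℝ v * x))) =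
      fc k (Int k f) * pb g (cf l (kil l (ExteriorAlgebra.ι ℝ v * x)))
    have h1 : pb g.up (cf (l + 1) (ExteriorAlgebra.ι ℝ v)) =
        pb (pr k) (pb g (cf l (ExteriorAlgebra.ι ℝ (ini l v)))) + v (Fin.last l) • dx (Fin.last k) := by
      rw [pb_ι, pb_ι, pbl_apply, pbl_apply, Fin.sum_univ_castSucc, cp_up_last, fc_pd_co, map_sum]
      congr 1
      refine Finset.sum_congr rfl fun i _ => ?_
      rw [cp_up_castSucc, map_smul, ← pb_dd, pb_fc]
      rfl
    rw [map_mul (cf (l + 1)), map_mul (pb g.up), h1, ← mul_assoc, fc_comm, mul_assoc, add_mul, map_add, Q0_mul,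
      smul_mul_assoc, map_smul, Q0_last, smul_zero, add_zero, hx, map_mul (kil l), map_mul (cf l),
      map_mul (pb g), kil_ι, ← mul_assoc, ← mul_assoc, fc_comm]

lemma Q0_up (g : Sm k l) (x : Fm (l + 1)) : Q0 k (pb g.up x) = pb g (Q0 l x) := by
  induction x using Fm_tind with
  | hf f a =>
    rw [Q0_tm, tm_eq, tm_eq, map_mul (pb g.up), map_mul (pb g), pb_fc, pb_fc, Q0_ind, Int_pull]
  | ha x y hx hy => rw [map_add, map_add, hx, hy, map_add, map_add]

/-- `K` is natural -/
lemma KK_up (g : Sm k l) (x : Fm (l + 1)) : KK k (pb g.up x) = pb g (KK l x) := by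
  rw [KK_apply, cs_up, Q0_up, KK_apply]

lemma cs_cs (x : Fm (k + 1)) : cs k (cs k x) = 0 := cn_cn _ x

/-! ### Evaluation at a point -/

/-- evaluation at a point -/
def ev (x : V k) : Fm k →ₐ[ℝ] Ex k :=
  (Algebra.TensorProduct.lift
    ((Algebra.ofId ℝ (Ex k)).comp ((Pi.evalAlgHom ℝ (fun _ : V k => ℝ) x).comp (Cs k).val))
    (AlgHom.id ℝ (Ex k)) (fun f a => Algebra.commutes (R := ℝ) ((f : V k → ℝ) x) a) : Cs k ⊗[ℝ] Ex k →ₐ[ℝ] Ex k)

lemma ev_tm (x : V k) (f : Cs k) (a : Ex k) : ev x (tm f a) = (f : V k → ℝ) x • a := by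
  change algebraMap ℝ (Ex k) ((f : V k → ℝ) x) * a = _
  rw [Algebra.smul_def]

lemma ev_fc (x : V k) (f : Cs k) : ev x (fc k f) = algebraMap ℝ (Ex k) ((f : V k → ℝ) x) := by
  rw [fc_apply, ev_tm, Algebra.algebraMap_eq_smul_one]

lemma ev_cf (x : V k) (a : Ex k) : ev x (cf k a) = a := by
  rw [cf_apply, ev_tm]
  exact one_smul _ _

/-- a form is zero if all its values are zero -/
lemma ev_inj {θ : Fm k} (h : ∀ x, ev x θ = 0) : θ = 0 := by
  classical
  let b := Module.Basis.ofVectorSpace ℝ (Ex k)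
  let E := TensorProduct.equivFinsuppOfBasisRight (M := Cs k) b
  have h1 : ∀ (θ : Fm k) (x : V k) (i), b.repr (ev x θ) i = ((E θ i : Cs k) : V k → ℝ) x := by
    intro θ x i
    induction θ using Fm_tind with
    | hf f a =>
      rw [ev_tm, map_smul, Finsupp.smul_apply]
      have h2 : E (tm f a) i = b.repr a i • f :=
        TensorProduct.equivFinsuppOfBasisRight_apply_tmul_apply b f a i
      rw [h2]
      change (f : V k → ℝ) x * b.repr a i = b.repr a i * (f : V k → ℝ) x
      exact mul_comm _ _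
    | ha y z hy hz =>
      rw [map_add, map_add, Finsupp.add_apply, hy, hz]
      have h3 : E (y + z) = E y + E z := E.map_add y z
      rw [h3]
      rfl
  have h4 : E θ = 0 := by
    ext i : 1
    apply Cs_ext
    intro x
    rw [← h1, h x, map_zero]
    rfl
  exact E.map_eq_zero_iff.1 h4

lemma ev_ext {θ τ : Fm k} (h : ∀ x, ev x θ = ev x τ) : θ = τ := by
  rw [← sub_eq_zero]
  exact ev_inj fun x => by rw [map_sub, h, sub_self]

/-- transpose of the derivative of `g` at `x` -/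
def tr (g : Sm k l) (x : V k) : V l →ₗ[ℝ] V k where
  toFun v i := ∑ j, v j * (pd i (g.cp j) : V k → ℝ) x
  map_add' v w := by
    funext i
    change ∑ j, (v j + w j) * _ = ∑ j, _ + ∑ j, _
    rw [← Finset.sum_add_distrib]
    exact Finset.sum_congr rfl fun j _ => add_mul _ _ _
  map_smul' r v := by
    funext i
    change ∑ j, (r * v j) * _ = r * ∑ j, _
    rw [Finset.mul_sum]
    exact Finset.sum_congr rfl fun j _ => mul_assoc _ _ _

lemma ev_dd_fc (f : Cs k) (x : V k) :
    ev x (dd k (fc k f)) = ExteriorAlgebra.ι ℝ (fun i => (pd i f : V k → ℝ) x) := by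
  rw [dd_fc, map_sum, ι_eq]
  refine Finset.sum_congr rfl fun i _ => ?_
  rw [map_mul, ev_fc, dx, ev_cf, Algebra.smul_def]

/-- value of a pullback -/
lemma ev_pb (g : Sm k l) (x : V k) (θ : Fm l) :
    ev x (pb g θ) = ExteriorAlgebra.map (tr g x) (ev (g x) θ) := by
  induction θ using Fm_ind with
  | hf f => rw [pb_fc, ev_fc, ev_fc, AlgHom.commutes, Sm.pull_apply]
  | hd j =>
    rw [pb_dx, ev_dd_fc, dx, ev_cf, ee, ExteriorAlgebra.map_apply_ι]
    congr 1
    funext i
    change _ = ∑ j', (Pi.single j (1 : ℝ) : V l) j' * (pd i (g.cp j') : V k → ℝ) x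
    rw [Finset.sum_eq_single j]
    · rw [Pi.single_eq_same, one_mul]
    · intro b _ hb
      rw [Pi.single_eq_of_ne hb, zero_mul]
    · intro h
      exact absurd (Finset.mem_univ j) h
  | hm x y hx hy => simp only [map_mul, hx, hy]
  | ha x y hx hy => simp only [map_add, hx, hy]

end Pool.Agent.Lib.MP_ccbbf6_gt.L4.FR
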