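import Pool.Agent.Lib.MP_ccbbf6_gt.L4.FRt

/-!
# Level 4, FUB, F2: algebra of the top coefficient (helper55)
-/

set_option autoImplicit false
set_option maxSynthPendingDepth 3

open Set Filter Topology MeasureTheory
open scoped TensorProduct ContDiff

noncomputable section

namespace Pool.Agent.Lib.MP_ccbbf6_gt.L4.FR

variable {k l n : ℕ}

/-- the top element of the exterior algebra -/
def tE (n : ℕ) : Ex n := ExteriorAlgebra.ιMulti ℝ n fun i : Fin n => (Pi.single i (1 : ℝ) : V n)

lemma of_single (n : ℕ) : Matrix.of (fun i : Fin n => (Pi.single i (1 : ℝ) : V n)) = 1 := by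
  ext i j
  rw [Matrix.of_apply, Matrix.one_apply, Pi.single_apply]
  simp [eq_comm]

lemma topE_tE (n : ℕ) : topE n (tE n) = 1 := by
  unfold tE
  rw [topE_ιMulti, of_single, Matrix.det_one]

/-- a product of `n` covectors in `R^n` -/
lemma ιMulti_eq_tE (v : Fin n → V n) : ExteriorAlgebra.ιMulti ℝ n v = Matrix.det (Matrix.of v) • tE n := by
  have h : (ExteriorAlgebra.ιMulti ℝ n : (V n) [⋀^Fin n]→ₗ[ℝ] Ex n) =
      (LinearMap.toSpanSingleton ℝ (Ex n) (tE n)).compAlternatingMap
        (Matrix.detRowAlternating : (V n) [⋀^Fin n]→ₗ[ℝ] ℝ) := by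
    refine Module.Basis.ext_alternating (Pi.basisFun ℝ (Fin n)) fun σ hσ => ?_
    have hb : Function.Bijective σ := (Finite.injective_iff_bijective).1 hσ
    obtain ⟨e, he⟩ : ∃ e : Equiv.Perm (Fin n), ⇑e = σ := ⟨Equiv.ofBijective σ hb, rfl⟩
    have h1 : (fun i => (Pi.basisFun ℝ (Fin n)) (σ i)) = (fun i : Fin n => (Pi.single i (1 : ℝ) : V n)) ∘ e := by
      funext i
      rw [← he]
      simp
    rw [h1]
    rw [AlternatingMap.map_perm]
    change _ = (LinearMap.toSpanSingleton ℝ (Ex n) (tE n)) ((Matrix.detRowAlternating : (V n) [⋀^Fin n]→ₗ[ℝ] ℝ)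
      ((fun i : Fin n => (Pi.single i (1 : ℝ) : V n)) ∘ e))
    rw [AlternatingMap.map_perm]
    have h2 : (Matrix.detRowAlternating : (V n) [⋀^Fin n]→ₗ[ℝ] ℝ) (fun i : Fin n => (Pi.single i (1 : ℝ) : V n)) = 1 := by
      have := of_single n
      change Matrix.det (Matrix.of (fun i : Fin n => (Pi.single i (1 : ℝ) : V n))) = 1
      rw [this, Matrix.det_one]
    rw [h2, LinearMap.toSpanSingleton_apply]
    change Equiv.Perm.sign e • tE n = _
    rcases Int.units_eq_one_or (Equiv.Perm.sign e) with h3 | h3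
    · rw [h3, one_smul, one_smul, one_smul]
    · rw [h3]
      simp
  have h4 := congrArg (fun f : (V n) [⋀^Fin n]→ₗ[ℝ] Ex n => f v) h
  simp only [LinearMap.compAlternatingMap_apply, LinearMap.toSpanSingleton_apply] at h4
  rw [h4]
  rfl

/-- elements of degree `n` in `R^n` -/
lemma eq_topE_smul {a : Ex n} (ha : a ∈ ⋀[ℝ]^n (V n)) : a = topE n a • tE n := by
  rw [← ExteriorAlgebra.ιMulti_span_fixedDegree] at ha
  induction ha using Submodule.span_induction with
  | mem x hx =>
    obtain ⟨v, rfl⟩ := hx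
    rw [topE_ιMulti, ← ιMulti_eq_tE]
  | zero => rw [map_zero, zero_smul]
  | add x y _ _ hx hy => rw [map_add, add_smul, ← hx, ← hy]
  | smul r x _ hx => rw [map_smul, smul_eq_mul, mul_smul, ← hx]

/-- projection on the last coordinates (covectors) -/
def A2 (n : ℕ) : V (n + n) →ₗ[ℝ] V n where
  toFun v i := v (Fin.natAdd n i)
  map_add' _ _ := rfl
  map_smul' _ _ := rfl

/-- inclusion in the first coordinates (covectors) -/
def A1 (n : ℕ) : V n →ₗ[ℝ] V (n + n) where
  toFun v := Fin.append v 0
  map_add' v w := by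
    funext i
    refine Fin.addCases (fun i => ?_) (fun i => ?_) i
    · rw [Pi.add_apply, Fin.append_left, Fin.append_left, Fin.append_left, Pi.add_apply]
    · rw [Pi.add_apply, Fin.append_right, Fin.append_right, Fin.append_right, Pi.zero_apply, add_zero]
  map_smul' r v := by
    funext i
    refine Fin.addCases (fun i => ?_) (fun i => ?_) i
    · rw [Pi.smul_apply, Fin.append_left, Fin.append_left, Pi.smul_apply, RingHom.id_apply]
    · rw [Pi.smul_apply, Fin.append_right, Fin.append_right, Pi.zero_apply, smul_zero]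

lemma ιMulti_mul {W : Type*} [AddCommGroup W] [Module ℝ W] {a b : ℕ} (u : Fin a → W) (w : Fin b → W) :
    ExteriorAlgebra.ιMulti ℝ a u * ExteriorAlgebra.ιMulti ℝ b w = ExteriorAlgebra.ιMulti ℝ (a + b) (Fin.append u w) := by
  rw [ExteriorAlgebra.ιMulti_apply, ExteriorAlgebra.ιMulti_apply, ExteriorAlgebra.ιMulti_apply, ← List.prod_append]
  congr 1
  have h : (fun i => ExteriorAlgebra.ι ℝ (Fin.append u w i)) =
      Fin.append (fun i => ExteriorAlgebra.ι ℝ (u i)) (fun i => ExteriorAlgebra.ι ℝ (w i)) := by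
    funext i
    refine Fin.addCases (fun i => ?_) (fun i => ?_) i
    · rw [Fin.append_left, Fin.append_left]
    · rw [Fin.append_right, Fin.append_right]
  rw [h, List.ofFn_fin_append]

/-- the top coefficient of a product with the top element of the first block -/
theorem topE_block (η : Ex (n + n)) :
    topE (n + n) (ExteriorAlgebra.map (A1 n) (tE n) * η) = topE n (ExteriorAlgebra.map (A2 n) η) := by
  have h : (topE (n + n)).comp (LinearMap.mulLeft ℝ (ExteriorAlgebra.map (A1 n) (tE n))) =
      (topE n).comp (ExteriorAlgebra.map (A2 n)).toLinearMap := by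
    refine ExteriorAlgebra.lhom_ext fun i => ?_
    ext w
    change topE (n + n) (ExteriorAlgebra.map (A1 n) (tE n) * ExteriorAlgebra.ιMulti ℝ i w) =
      topE n (ExteriorAlgebra.map (A2 n) (ExteriorAlgebra.ιMulti ℝ i w))
    rw [tE, ExteriorAlgebra.map_apply_ιMulti, ExteriorAlgebra.map_apply_ιMulti, ιMulti_mul]
    by_cases hi : i = n
    · subst hi
      rw [topE_ιMulti, topE_ιMulti]
      set B : Matrix (Fin i ⊕ Fin i) (Fin i ⊕ Fin i) ℝ := Matrix.fromBlocks 1 0
        (Matrix.of fun a b => w a (Fin.castAdd i b)) (Matrix.of fun a b => w a (Fin.natAdd i b)) with hB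
      have h1 : Matrix.of (Fin.append ((A1 i) ∘ fun j : Fin i => (Pi.single j (1 : ℝ) : V i)) w) =
          B.submatrix finSumFinEquiv.symm finSumFinEquiv.symm := by
        ext a b
        rw [Matrix.submatrix_apply, Matrix.of_apply]
        refine Fin.addCases (fun a => ?_) (fun a => ?_) a
        · rw [Fin.append_left, finSumFinEquiv_symm_apply_castAdd]
          refine Fin.addCases (fun b => ?_) (fun b => ?_) b
          · rw [finSumFinEquiv_symm_apply_castAdd, hB, Matrix.fromBlocks_apply₁₁, Matrix.one_apply]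
            change Fin.append (Pi.single a (1 : ℝ) : V i) 0 (Fin.castAdd i b) = _
            rw [Fin.append_left, Pi.single_apply]
            simp [eq_comm]
          · rw [finSumFinEquiv_symm_apply_natAdd, hB, Matrix.fromBlocks_apply₁₂]
            change Fin.append (Pi.single a (1 : ℝ) : V i) 0 (Fin.natAdd i b) = _
            rw [Fin.append_right]
            rfl
        · rw [Fin.append_right, finSumFinEquiv_symm_apply_natAdd]
          refine Fin.addCases (fun b => ?_) (fun b => ?_) b
          · rw [finSumFinEquiv_symm_apply_castAdd, hB, Matrix.fromBlocks_apply₂₁]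
            rfl
          · rw [finSumFinEquiv_symm_apply_natAdd, hB, Matrix.fromBlocks_apply₂₂]
            rfl
      rw [h1, Matrix.det_submatrix_equiv_self, hB, Matrix.det_fromBlocks_zero₁₂, Matrix.det_one, one_mul]
      rfl
    · rw [topE_ιMulti_ne (by omega), topE_ιMulti_ne hi]
  exact LinearMap.congr_fun h η

end Pool.Agent.Lib.MP_ccbbf6_gt.L4.FR
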