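import Pool.Agent.Lib.MP_ccbbf6_gt.Geo.Area2

/-!
# Level 4, FUB, F2: the area formula for Bochner integrals (helper55)
-/

set_option autoImplicit false

open MeasureTheory Measure Set Filter Topology Metric Real
open scoped ENNReal ContDiff

noncomputable section

namespace Pool.Agent.Lib.MP_ccbbf6_gt.L4

open Geo

variable {n : ℕ} {M : Type*} [MetricSpace M] [CompactSpace M] (𝒜 : SDist n M)

/-- the Riemannian density in the exponential chart is continuous -/
lemma continuousOn_theta_inv (hB : Bl M) (p : M) :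
    ContinuousOn (fun ξ => (𝒜.theta p (𝒜.Ex p ξ))⁻¹) (ball (0 : Eu n) π) := by
  have h1 : ContinuousOn (fun ξ => 𝒜.theta p (𝒜.Ex p ξ)) (ball (0 : Eu n) π) := by
    refine (tendsto_theta 𝒜 hB).comp (f := fun ξ => (p, 𝒜.Ex p ξ))
      (continuousOn_const.prodMk (continuous_Ex 𝒜 hB p).continuousOn) fun ξ hξ => ?_
    have h2 := mem_ball_zero_iff.1 hξ
    change dist p (𝒜.Ex p ξ) < π
    rw [dist_Ex 𝒜 hB p h2.le]; exact h2
  refine h1.inv₀ fun ξ hξ => ?_
  have h2 := mem_ball_zero_iff.1 hξ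
  exact (theta_pos 𝒜 hB (by rw [dist_Ex 𝒜 hB p h2.le]; exact h2)).ne'

lemma theta_nonneg (p q : M) : 0 ≤ 𝒜.theta p q := abs_nonneg _

variable [MeasurableSpace M] [BorelSpace M]

lemma map_Ex (hB : Bl M) (p : M) :
    ((volume.restrict (ball (0 : Eu n) π)).withDensity fun ξ => ENNReal.ofReal ((𝒜.theta p (𝒜.Ex p ξ))⁻¹)).map (𝒜.Ex p) =
      (μHE[n] : Measure M) := by
  have hm : Measurable (𝒜.Ex p) := (continuous_Ex 𝒜 hB p).measurable
  refine Measure.ext fun B hBm => ?_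
  have h1 := ar_area 𝒜 hB p (f := B.indicator 1) (measurable_one.indicator hBm)
  rw [lintegral_indicator_one hBm] at h1
  rw [h1, Measure.map_apply hm hBm, withDensity_apply _ (hm hBm), ← lintegral_indicator (hm hBm)]
  refine lintegral_congr fun ξ => ?_
  by_cases h : 𝒜.Ex p ξ ∈ B
  · rw [indicator_of_mem (show ξ ∈ 𝒜.Ex p ⁻¹' B from h), indicator_of_mem h, Pi.one_apply, mul_one]
  · rw [indicator_of_notMem (show ξ ∉ 𝒜.Ex p ⁻¹' B from h), indicator_of_notMem h, mul_zero]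

/-- **The area formula in the exponential chart.** -/
theorem area_int (hB : Bl M) (p : M) {f : M → ℝ} (hf : AEStronglyMeasurable f (μHE[n] : Measure M)) :
    ∫ x, f x ∂(μHE[n] : Measure M) =
      ∫ ξ in ball (0 : Eu n) π, (𝒜.theta p (𝒜.Ex p ξ))⁻¹ * f (𝒜.Ex p ξ) := by
  have hm : Measurable (𝒜.Ex p) := (continuous_Ex 𝒜 hB p).measurable
  have hd : AEMeasurable (fun ξ => ENNReal.ofReal ((𝒜.theta p (𝒜.Ex p ξ))⁻¹)) (volume.restrict (ball (0 : Eu n) π)) :=
    ((continuousOn_theta_inv 𝒜 hB p).aemeasurable measurableSet_ball).ennreal_ofReal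
  have h0 := map_Ex 𝒜 hB p
  rw [← h0] at hf
  conv_lhs => rw [← h0]
  rw [integral_map hm.aemeasurable hf, integral_withDensity_eq_integral_toReal_smul₀ hd
    (Eventually.of_forall fun ξ => ENNReal.ofReal_lt_top)]
  refine integral_congr_ae (Eventually.of_forall fun ξ => ?_)
  simp only [smul_eq_mul]
  rw [ENNReal.toReal_ofReal (inv_nonneg.2 (theta_nonneg 𝒜 _ _))]

end Pool.Agent.Lib.MP_ccbbf6_gt.L4
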