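import Pool.Agent.Lib.MP_ccbbf6_gt.L4.ExtA
import Pool.Agent.Lib.MP_ccbbf6_gt.L4.FI7
import Pool.Agent.Lib.MP_ccbbf6_gt.L4.FU2b

/-!
# Level 4, FUB, F2: values of a form in the exponential chart, comparison of the densities (helper55)
-/

set_option autoImplicit false
set_option maxSynthPendingDepth 3
set_option linter.unusedSectionVars false

open MeasureTheory Measure Set Filter Topology Metric Real
open scoped ContDiff RealInnerProductSpace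

noncomputable section

namespace Pool.Agent.Lib.MP_ccbbf6_gt.L4

open Geo FR

variable {n : ℕ} {M : Type} [MetricSpace M] [CompactSpace M] (𝒜 : SDist n M)

/-- `ν` is given by `N` in the exponential chart of `p` -/
def OnBall (p : M) (ν : Om (spM 𝒜)) (N : Fm n) : Prop := ∀ (k : ℕ) (P : (spM 𝒜).Plot k) (q : FR.Sm k n),
  (∀ u, ‖toE (q u)‖ < π ∧ P.1 u = 𝒜.Ex p (toE (q u))) → Om.on ν P = pb q N

/-- logarithm at `p`, as a vector of `V n` -/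
def lgV (p q : M) : V n := WithLp.ofLp (EXT.lg 𝒜 p q)

lemma toE_lgV (p q : M) : toE (lgV 𝒜 p q) = EXT.lg 𝒜 p q := rfl

lemma contDiffAt_lgV (hB : Bl M) (p : M) {E : Type*} [NormedAddCommGroup E] [NormedSpace ℝ E] {g : E → M} {u : E}
    (hg : SmAt 𝒜 g u) (h : dist p (g u) < π) : ContDiffAt ℝ ∞ (fun v => lgV 𝒜 p (g v)) u :=
  (PiLp.continuousLinearEquiv 2 ℝ (fun _ : Fin n => ℝ)).contDiff.contDiffAt.comp u (EXT.contDiffAt_lg 𝒜 hB p hg h)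

/-- the value of a form at a point of a plot in the ball -/
theorem ev_onBall (hB : Bl M) {p : M} {ν : Om (spM 𝒜)} {N : Fm n} (h : OnBall 𝒜 p ν N) {k : ℕ} (P : (spM 𝒜).Plot k)
    {z : V k} (hz : dist p (P.1 z) < π) :
    ev z (Om.on ν P) = ExteriorAlgebra.map (trL (fderiv ℝ (fun u => lgV 𝒜 p (P.1 u)) z))
      (ev (lgV 𝒜 p (P.1 z)) N) := by
  have hPc : ContinuousAt (X := V k) (Y := M) P.1 z := (P.2 z).1
  have hU : ∀ᶠ w in 𝓝 z, dist p (P.1 w) < π := EXT.eventually_dist_lt hPc hz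
  obtain ⟨s, hs1, hs2⟩ := exists_sq z hU
  set q : FR.Sm k n := ⟨fun w => lgV 𝒜 p (P.1 (s w)), contDiff_iff_contDiffAt.2 fun w => by
    have h1 : SmAt (M := M) 𝒜 (fun w => P.1 (s w)) w :=
      SmAt.comp (M := M) (g := P.1) (f := (s : V k → V k)) (P.2 (s w)) s.smooth.contDiffAt
    exact contDiffAt_lgV 𝒜 hB p h1 (hs2 w)⟩ with hq
  have h1 : Om.on ν (P.cmp s) = pb q N := by
    refine h k (P.cmp s) q fun u => ?_
    have h2 : toE (q u) = EXT.lg 𝒜 p (P.1 (s u)) := rfl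
    rw [h2, EXT.norm_lg 𝒜 hB (hs2 u), EXT.Ex_lg 𝒜 hB (hs2 u)]
    exact ⟨hs2 u, rfl⟩
  have h2 : ev z (Om.on ν (P.cmp s)) = ev z (Om.on ν P) := by
    refine ev_on_congr ν ?_
    filter_upwards [hs1] with w hw
    change P.1 (s w) = P.1 w
    rw [hw]
  have h3 : (q : V k → V n) =ᶠ[𝓝 z] fun u => lgV 𝒜 p (P.1 u) := by
    filter_upwards [hs1] with w hw
    change lgV 𝒜 p (P.1 (s w)) = _
    rw [hw]
  rw [← h2, h1, ev_pb, tr_eq, h3.fderiv_eq, h3.self_of_nhds]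

/-- projection of `W` to the first point -/
def pW : SMap (spW 𝒜) (spM 𝒜) := ⟨fun z => z.1.1, fun _ p => p.2.1⟩

/-- comparison of densities -/
theorem dens_scale (hB : Bl M) {p : M} {σ ν : Om (spM 𝒜)} {S N : Fm n} (hσ : OnBall 𝒜 p σ S) (hν : OnBall 𝒜 p ν N)
    (Ξ : Om (spW 𝒜)) {z : M × M} (hz : dist p z.1 < π) {t : ℝ}
    (ht : ev (lgV 𝒜 p z.1) S = t • ev (lgV 𝒜 p z.1) N) :
    dens 𝒜 ((pW 𝒜).pull σ * Ξ) z = t * dens 𝒜 ((pW 𝒜).pull ν * Ξ) z := by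
  by_cases hW : 0 < dist z.1 z.2 ∧ dist z.1 z.2 < π
  · obtain ⟨P, hP⟩ := locPl_Pab 𝒜 (zero_mem_Dab 𝒜 hW.1 hW.2)
    have hP0 : (P.1 0).1 = z := by
      have h1 : jW 𝒜 (P.1 0) = Pab 𝒜 z.1 z.2 0 := hP.self_of_nhds
      rw [Pab_zero] at h1
      exact h1
    unfold dens
    rw [vAt_eq (jW_inj 𝒜) _ P hP, vAt_eq (jW_inj 𝒜) _ P hP, on_mul, on_mul, _root_.map_mul (ev (0 : V (n + n))),
      _root_.map_mul (ev (0 : V (n + n))), on_pull, on_pull]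
    have h2 : ((pW 𝒜).pl P).1 0 = z.1 := by
      change (P.1 0).1.1 = z.1
      rw [hP0]
    have h3 : dist p (((pW 𝒜).pl P).1 0) < π := by rw [h2]; exact hz
    rw [ev_onBall 𝒜 hB hσ _ h3, ev_onBall 𝒜 hB hν _ h3, h2, ht, _root_.map_smul, smul_mul_assoc, _root_.map_smul,
      smul_eq_mul]
  · rw [dens_eq_zero 𝒜 _ hW, dens_eq_zero 𝒜 _ hW, mul_zero]

/-- the form `dχ(d) ∧ G^* Th` on `W` -/
def X0 (hB : Bl M) (Th : Om (spG 𝒜)) : Om (spW 𝒜) := dchi 𝒜 hB * (GW hB).pull Th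

lemma supp_X0 (hB : Bl M) (Th : Om (spG 𝒜)) : Supp 𝒜 (C12 M) (X0 𝒜 hB Th) := (supp_dchi 𝒜 hB).mul_right _

lemma supp_pX0 (hB : Bl M) (τ : Om (spM 𝒜)) (Th : Om (spG 𝒜)) :
    Supp 𝒜 (C12 M) ((pW 𝒜).pull τ * X0 𝒜 hB Th) := (supp_X0 𝒜 hB Th).mul_left _

variable [MeasurableSpace M] [BorelSpace M]

/-- `TG` of a product -/
theorem TG_eq (hB : Bl M) {τ : Om (spM 𝒜)} (hn : Even n) (hτ : Deg n τ) (Th : Om (spG 𝒜)) :
    TG hB ((foot hB 0).pull τ * Th) = IW 𝒜 ((pW 𝒜).pull τ * X0 𝒜 hB Th) := by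
  obtain ⟨r, hr⟩ := hn
  have h1 : sO _ τ = τ := Deg_even (j := r) (by rw [two_mul, ← hr]; exact hτ)
  have h2 : sO _ ((pW 𝒜).pull τ) = (pW 𝒜).pull τ := by rw [pull_s, h1]
  have h3 : (GW hB).pull ((foot hB 0).pull τ) = (pW 𝒜).pull τ := by
    rw [← pull_comp]
    have h4 : (foot hB 0).comp (GW hB) = pW 𝒜 := SMap_ext fun z => (gdG_spec hB z).1
    rw [h4]
  rw [TG_apply, _root_.map_mul, h3, X0, ← mul_assoc, ← mul_assoc, even_comm' h2]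

/-- Fubini and the area formula at `p` -/
theorem IW_area (hB : Bl M) (p : M) (τ : Om (spM 𝒜)) (Th : Om (spG 𝒜)) :
    IW 𝒜 ((pW 𝒜).pull τ * X0 𝒜 hB Th) = ∫ ξ in ball (0 : Eu n) π, (𝒜.theta p (𝒜.Ex p ξ))⁻¹ *
      ∫ y, FW 𝒜 ((pW 𝒜).pull τ * X0 𝒜 hB Th) (𝒜.Ex p ξ, y) ∂(μHE[n] : Measure M) := by
  have := finite_of_sdist 𝒜
  have hint := integrable_FW 𝒜 hB isClosed_C12 inW_C12 (supp_pX0 𝒜 hB τ Th)
  rw [IW_eq, integral_prod _ hint, area_int 𝒜 hB p hint.integral_prod_left.aestronglyMeasurable]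

/-- the integral over the fibres -/
def HX (Ξ : Om (spW 𝒜)) (x : M) : ℝ := ∫ y, FW 𝒜 Ξ (x, y) ∂(μHE[n] : Measure M)

lemma continuous_HX (hB : Bl M) {Ξ : Om (spW 𝒜)} (h : Supp 𝒜 (C12 M) Ξ) : Continuous (HX 𝒜 Ξ) := by
  have := finite_of_sdist 𝒜
  have h1 : Continuous (Function.uncurry fun (x y : M) => FW 𝒜 Ξ (x, y)) := continuous_FW 𝒜 hB isClosed_C12 inW_C12 h
  have h2 := continuous_parametric_integral_of_continuous (μ := (μHE[n] : Measure M)) h1 (isCompact_univ (X := M))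
  simp only [Measure.restrict_univ] at h2
  exact h2

end Pool.Agent.Lib.MP_ccbbf6_gt.L4
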