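import Pool.Agent.Lib.MP_ccbbf6_gt.Geo.CZ2
import Pool.Agent.Lib.MP_ccbbf6_gt.L4.FU1
import Pool.Agent.Lib.MP_ccbbf6_gt.L4.FU2a
import Pool.Agent.Lib.MP_ccbbf6_gt.L4.FU2c

/-!
# Level 4, FUB, F3: the fibre at `p` (helper55)
-/

set_option autoImplicit false
set_option maxSynthPendingDepth 3
set_option linter.unusedSectionVars false

open MeasureTheory Measure Set Filter Topology Metric Real
open scoped ContDiff RealInnerProductSpace

noncomputable section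

namespace Pool.Agent.Lib.MP_ccbbf6_gt.L4

open Geo FR

variable {n : ℕ} {M : Type} [MetricSpace M] [CompactSpace M] (𝒜 : SDist n M)

/-- `toE` as a continuous linear equivalence -/
def toEL (n : ℕ) : V n ≃L[ℝ] Eu n := (PiLp.continuousLinearEquiv 2 ℝ (fun _ : Fin n => ℝ)).symm

lemma toEL_apply (x : V n) : toEL n x = toE x := rfl

lemma toEL_symm_apply (x : Eu n) : (toEL n).symm x = WithLp.ofLp x := rfl

lemma lg_self (hB : Bl M) (p : M) : EXT.lg 𝒜 p p = 0 := by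
  have h := EXT.lg_Ex 𝒜 hB p (ξ := 0) (by rw [norm_zero]; exact Real.pi_pos)
  rwa [Ex_zero 𝒜 hB] at h

/-- the derivative of the logarithm at `p` in the chart -/
lemma hasFDerivAt_lg_symm (hB : Bl M) (p : M) :
    HasFDerivAt (fun u : Eu n => EXT.lg 𝒜 p ((𝒜.ψ p).symm u)) (ContinuousLinearMap.id ℝ (Eu n)) 0 := by
  have h0 : (0 : Eu n) ∈ (𝒜.ψ p).target := zero_mem_target 𝒜 p
  have hs : (𝒜.ψ p).symm 0 = p := symm_zero' 𝒜 p
  have h1 : ContDiffAt ℝ ∞ (fun u : Eu n => EXT.lg 𝒜 p ((𝒜.ψ p).symm u)) 0 := by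
    refine EXT.contDiffAt_lg 𝒜 hB p (g := fun u => (𝒜.ψ p).symm u) (smAt_symm (f := fun u => u) contDiffAt_id h0) ?_
    simp only [hs, dist_self]
    exact Real.pi_pos
  have h2 : HasFDerivAt (fun u : Eu n => EXT.lg 𝒜 p ((𝒜.ψ p).symm u))
      (fderiv ℝ (fun u : Eu n => EXT.lg 𝒜 p ((𝒜.ψ p).symm u)) 0) 0 := (h1.differentiableAt (by simp)).hasFDerivAt
  have hmem : 𝒜.Ex p 0 ∈ (𝒜.ψ p).source := by rw [Ex_zero 𝒜 hB]; exact 𝒜.mem p
  have h3 : HasFDerivAt (fun η => 𝒜.ψ p (𝒜.Ex p η)) (fderiv ℝ (fun η => 𝒜.ψ p (𝒜.Ex p η)) 0) 0 :=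
    ((contDiffAt_Ex 𝒜 hB p 0 hmem).differentiableAt (by simp)).hasFDerivAt
  have h4 : fderiv ℝ (fun η => 𝒜.ψ p (𝒜.Ex p η)) 0 = ContinuousLinearMap.id ℝ (Eu n) :=
    ContinuousLinearMap.ext fun v => fderiv_Ex_zero 𝒜 hB p v
  rw [h4] at h3
  have h5 : (fun η => 𝒜.ψ p (𝒜.Ex p η)) 0 = 0 := by
    simp only
    rw [Ex_zero 𝒜 hB, 𝒜.zero]
  rw [← h5] at h2
  have h6 := h2.comp (0 : Eu n) h3
  have h7 : ((fun u : Eu n => EXT.lg 𝒜 p ((𝒜.ψ p).symm u)) ∘ fun η => 𝒜.ψ p (𝒜.Ex p η)) =ᶠ[𝓝 0] fun η => η := by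
    have e1 : ∀ᶠ η in 𝓝 (0 : Eu n), 𝒜.Ex p η ∈ (𝒜.ψ p).source :=
      (continuous_Ex 𝒜 hB p).continuousAt.eventually ((𝒜.ψ p).open_source.mem_nhds hmem)
    have e2 : ∀ᶠ η : Eu n in 𝓝 0, ‖η‖ < π :=
      continuous_norm.continuousAt.eventually (gt_mem_nhds (by simp only [norm_zero]; exact Real.pi_pos))
    filter_upwards [e1, e2] with η f1 f2
    simp only [Function.comp_apply]
    rw [(𝒜.ψ p).left_inv f1, EXT.lg_Ex 𝒜 hB p f2]
  have h8 := (h6.congr_of_eventuallyEq h7.symm).unique (hasFDerivAt_id (0 : Eu n))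
  rw [ContinuousLinearMap.comp_id] at h8
  rw [h8, h5] at h2
  exact h2

/-- transpose of the projection to the first coordinates -/
lemma trL_fst (n : ℕ) : trL (((toEL n).symm : Eu n →L[ℝ] V n).comp ((ContinuousLinearMap.fst ℝ (Eu n) (Eu n)).comp
    (spl n : V (n + n) →L[ℝ] Eu n × Eu n))) = A1 n := by
  refine LinearMap.ext fun v => funext fun i => ?_
  rw [trL_apply]
  change ∑ j, v j * (Pi.single i (1 : ℝ) : V (n + n)) (Fin.castAdd n j) = Fin.append v 0 i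
  refine Fin.addCases (fun i => ?_) (fun i => ?_) i
  · rw [Fin.append_left, Finset.sum_eq_single i]
    · rw [Pi.single_eq_same, mul_one]
    · intro j _ hj
      rw [Pi.single_eq_of_ne (by simpa using hj), mul_zero]
    · intro h
      exact absurd (Finset.mem_univ i) h
  · rw [Fin.append_right]
    refine Finset.sum_eq_zero fun j _ => ?_
    rw [Pi.single_eq_of_ne, mul_zero]
    intro h
    have := congrArg Fin.val h
    simp only [Fin.val_castAdd, Fin.val_natAdd] at this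
    omega

/-- transpose of the inclusion in the last coordinates -/
lemma trL_snd (B : V n →L[ℝ] V n) : trL (((spl n).symm : Eu n × Eu n →L[ℝ] V (n + n)).comp
    ((ContinuousLinearMap.inr ℝ (Eu n) (Eu n)).comp ((toEL n : V n →L[ℝ] Eu n).comp B))) = (trL B).comp (A2 n) := by
  refine LinearMap.ext fun v => funext fun i => ?_
  rw [trL_apply, LinearMap.comp_apply, trL_apply, Fin.sum_univ_add]
  have h1 : ∀ j : Fin n, (((spl n).symm : Eu n × Eu n →L[ℝ] V (n + n)).comp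
    ((ContinuousLinearMap.inr ℝ (Eu n) (Eu n)).comp ((toEL n : V n →L[ℝ] Eu n).comp B))) (Pi.single i 1) (Fin.castAdd n j) =
      0 := by
    intro j
    change Fin.append (WithLp.ofLp (0 : Eu n)) (B (Pi.single i 1)) (Fin.castAdd n j) = 0
    rw [Fin.append_left]
    rfl
  have h2 : ∀ j : Fin n, (((spl n).symm : Eu n × Eu n →L[ℝ] V (n + n)).comp
    ((ContinuousLinearMap.inr ℝ (Eu n) (Eu n)).comp ((toEL n : V n →L[ℝ] Eu n).comp B))) (Pi.single i 1) (Fin.natAdd n j) =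
      B (Pi.single i 1) j := by
    intro j
    change Fin.append (WithLp.ofLp (0 : Eu n)) (B (Pi.single i 1)) (Fin.natAdd n j) = _
    rw [Fin.append_right]
  simp only [h1, h2, mul_zero, Finset.sum_const_zero, zero_add]
  rfl

/-- derivative of the exponential map in the chart at the image -/
def DX (p : M) (ξ : Eu n) : Eu n →L[ℝ] Eu n := fderiv ℝ (fun η => 𝒜.ψ (𝒜.Ex p ξ) (𝒜.Ex p η)) ξ

lemma hasFDerivAt_DX (hB : Bl M) (p : M) (ξ : Eu n) :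
    HasFDerivAt (fun η => 𝒜.ψ (𝒜.Ex p ξ) (𝒜.Ex p η)) (DX 𝒜 p ξ) ξ :=
  ((contDiffAt_Ex 𝒜 hB p ξ (𝒜.mem _)).differentiableAt (by simp)).hasFDerivAt

/-- the sign and the density -/
lemma sgW_theta (hB : Bl M) (hn : Even n) (p : M) {ξ : Eu n} (h : ‖ξ‖ < π) :
    (𝒜.theta p (𝒜.Ex p ξ))⁻¹ * sgW 𝒜 (p, 𝒜.Ex p ξ) = (DX 𝒜 p ξ).det := by
  have hd : dist p (𝒜.Ex p ξ) < π := by rw [dist_Ex 𝒜 hB p h.le]; exact h
  have hF : ContDiffAt ℝ 2 (𝒜.F p (𝒜.Ex p ξ)) (0, 0) := (contDiffAt_F 𝒜 hB hd).of_le two_le_infty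
  have h1 : Mx (𝒜.F p (𝒜.Ex p ξ)) (0, 0) * mt (DX 𝒜 p ξ) = -1 := by
    ext i j
    have h2 := BF_Ex 𝒜 hB p h (EuclideanSpace.single i 1) (EuclideanSpace.single j 1)
    have h3 : fderiv ℝ (fun η => 𝒜.ψ (𝒜.Ex p ξ) (𝒜.Ex p η)) ξ (EuclideanSpace.single j 1) =
        ∑ k, (mt (DX 𝒜 p ξ)) k j • EuclideanSpace.single k (1 : ℝ) := by
      exact sm0_expand _
    rw [h3, _root_.map_sum] at h2
    have h4 : ∀ k, 𝒜.BF p (𝒜.Ex p ξ) (EuclideanSpace.single i 1) (EuclideanSpace.single k 1) =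
        Mx (𝒜.F p (𝒜.Ex p ξ)) (0, 0) i k := by
      intro k
      rw [sme_BF 𝒜 hF]
      rfl
    rw [Matrix.mul_apply]
    have h5 : ∑ k, Mx (𝒜.F p (𝒜.Ex p ξ)) (0, 0) i k * mt (DX 𝒜 p ξ) k j =
        ∑ k, 𝒜.BF p (𝒜.Ex p ξ) (EuclideanSpace.single i 1) (mt (DX 𝒜 p ξ) k j • EuclideanSpace.single k (1 : ℝ)) := by
      refine Finset.sum_congr rfl fun k _ => ?_
      rw [map_smul, smul_eq_mul, h4]
      ring
    rw [h5, h2, EuclideanSpace.inner_single_left, Matrix.neg_apply, Matrix.one_apply]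
    simp only [map_one, one_mul, PiLp.single_apply]
  have h2 := congrArg Matrix.det h1
  rw [Matrix.det_mul, det_mt, Matrix.det_neg, Matrix.det_one, Fintype.card_fin, hn.neg_one_pow, mul_one] at h2
  rw [sme_theta_eq 𝒜 hF]
  change _ * sgn (Mx (𝒜.F p (𝒜.Ex p ξ)) (0, 0)).det = _
  have h3 : (Mx (𝒜.F p (𝒜.Ex p ξ)) (0, 0)).det ≠ 0 := by
    intro h4
    rw [h4, zero_mul] at h2
    exact zero_ne_one h2
  have h5 : (DX 𝒜 p ξ).det = ((Mx (𝒜.F p (𝒜.Ex p ξ)) (0, 0)).det)⁻¹ := eq_inv_of_mul_eq_one_right h2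
  rw [h5]
  unfold sgn
  set a := (Mx (𝒜.F p (𝒜.Ex p ξ)) (0, 0)).det with ha
  have h6 : |a| ≠ 0 := abs_ne_zero.2 h3
  have h7 : |a| * |a| = a * a := abs_mul_abs_self a
  field_simp
  nlinarith [h7]

/-- the local plot `x ↦ (p, Ex x)` of `W` -/
def Pex (p : M) (x : V n) : M × M := (p, 𝒜.Ex p (toE x))

lemma locPl_Pex (hB : Bl M) (p : M) {x : V n} (h0 : toE x ≠ 0) (h1 : ‖toE x‖ < π) : LocPl (jW 𝒜) (Pex 𝒜 p) x := by
  refine locPl_W 𝒜 ?_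
  have c : Continuous fun x : V n => ‖toE x‖ := contDiff_toE.continuous.norm
  filter_upwards [c.continuousAt.eventually (lt_mem_nhds (norm_pos_iff.2 h0)),
    c.continuousAt.eventually (gt_mem_nhds h1)] with w f1 f2
  refine ⟨smAt_const p w, smAt_Ex hB p contDiff_toE.contDiffAt, ?_⟩
  change 0 < dist p (𝒜.Ex p (toE w)) ∧ dist p (𝒜.Ex p (toE w)) < π
  rw [dist_Ex 𝒜 hB p f2.le]
  exact ⟨f1, f2⟩

/-- the density of `pr₁^* ν ∧ Ξ` at `(p, y)` when `ν` is the volume element at `p` -/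
theorem dens_at (hB : Bl M) {p : M} {ν : Om (spM 𝒜)} {N : Fm n} (hν : OnBall 𝒜 p ν N) (hN : ev 0 N = tE n)
    (Ξ : Om (spW 𝒜)) {y : M} (h0 : 0 < dist p y) (h1 : dist p y < π) :
    dens 𝒜 ((pW 𝒜).pull ν * Ξ) (p, y) =
      topE n (ExteriorAlgebra.map (A2 n) (vAt (jW 𝒜) Ξ (Pab 𝒜 p y) 0)) := by
  obtain ⟨P, hP⟩ := locPl_Pab 𝒜 (zero_mem_Dab 𝒜 h0 h1)
  have hP0 : (P.1 0).1 = (p, y) := by
    have h1 : jW 𝒜 (P.1 0) = Pab 𝒜 p y 0 := hP.self_of_nhds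
    rw [Pab_zero] at h1
    exact h1
  unfold dens
  simp only
  rw [vAt_eq (jW_inj 𝒜) _ P hP, vAt_eq (jW_inj 𝒜) _ P hP, on_mul, _root_.map_mul (ev (0 : V (n + n))), on_pull]
  have h2 : ((pW 𝒜).pl P).1 0 = p := by
    change (P.1 0).1.1 = p
    rw [hP0]
  have h3 : dist p (((pW 𝒜).pl P).1 0) < π := by rw [h2, dist_self]; exact Real.pi_pos
  rw [ev_onBall 𝒜 hB hν _ h3, h2]
  have h4 : lgV 𝒜 p p = 0 := by
    unfold lgV
    rw [lg_self 𝒜 hB]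
    rfl
  rw [h4, hN]
  have h5 : (fun u => lgV 𝒜 p (((pW 𝒜).pl P).1 u)) =ᶠ[𝓝 0]
      fun u => (toEL n).symm (EXT.lg 𝒜 p ((𝒜.ψ p).symm (spl n u).1)) := by
    filter_upwards [hP] with w hw
    have h6 : ((pW 𝒜).pl P).1 w = (𝒜.ψ p).symm (spl n w).1 := congrArg Prod.fst hw
    rw [h6]
    rfl
  have h6 : HasFDerivAt (fun u : V (n + n) => (spl n u).1) ((ContinuousLinearMap.fst ℝ (Eu n) (Eu n)).comp
      (spl n : V (n + n) →L[ℝ] Eu n × Eu n)) 0 :=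
    ((ContinuousLinearMap.fst ℝ (Eu n) (Eu n)).comp (spl n : V (n + n) →L[ℝ] Eu n × Eu n)).hasFDerivAt
  have h7 : HasFDerivAt (fun u : Eu n => EXT.lg 𝒜 p ((𝒜.ψ p).symm u)) (ContinuousLinearMap.id ℝ (Eu n))
      ((fun u : V (n + n) => (spl n u).1) 0) := by
    simp only [_root_.map_zero, Prod.fst_zero]
    exact hasFDerivAt_lg_symm 𝒜 hB p
  have h8 := h7.comp (0 : V (n + n)) h6
  rw [ContinuousLinearMap.id_comp] at h8
  have h9 : HasFDerivAt (fun u => (toEL n).symm (EXT.lg 𝒜 p ((𝒜.ψ p).symm (spl n u).1)))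
      (((toEL n).symm : Eu n →L[ℝ] V n).comp ((ContinuousLinearMap.fst ℝ (Eu n) (Eu n)).comp
        (spl n : V (n + n) →L[ℝ] Eu n × Eu n))) 0 :=
    ((toEL n).symm.hasFDerivAt (x := EXT.lg 𝒜 p ((𝒜.ψ p).symm (spl n 0).1))).comp (0 : V (n + n)) h8
  rw [h5.fderiv_eq, h9.fderiv, trL_fst, topE_block]

/-- **the density at `(p, Ex ξ)`** -/
theorem dens_Ex (hB : Bl M) (hn : Even n) {p : M} {ν : Om (spM 𝒜)} {N : Fm n} (hν : OnBall 𝒜 p ν N)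
    (hN : ev 0 N = tE n) (Ξ : Om (spW 𝒜)) {x : V n} (h0 : toE x ≠ 0) (h1 : ‖toE x‖ < π) :
    (𝒜.theta p (𝒜.Ex p (toE x)))⁻¹ * FW 𝒜 ((pW 𝒜).pull ν * Ξ) (p, 𝒜.Ex p (toE x)) =
      topE n (vAt (jW 𝒜) Ξ (Pex 𝒜 p) x) := by
  set y := 𝒜.Ex p (toE x) with hy
  have hd : dist p y = ‖toE x‖ := dist_Ex 𝒜 hB p h1.le
  have hd0 : 0 < dist p y := by rw [hd]; exact norm_pos_iff.2 h0
  have hd1 : dist p y < π := by rw [hd]; exact h1
  unfold FW
  rw [← mul_assoc, sgW_theta 𝒜 hB hn p h1, dens_at 𝒜 hB hν hN Ξ hd0 hd1]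
  -- the other side
  set g : V n → V (n + n) := fun x' => (spl n).symm (0, 𝒜.ψ y (𝒜.Ex p (toE x'))) with hg
  have hc : Continuous fun x' : V n => 𝒜.Ex p (toE x') := (continuous_Ex 𝒜 hB p).comp contDiff_toE.continuous
  have e1 : ∀ᶠ x' in 𝓝 x, 𝒜.Ex p (toE x') ∈ (𝒜.ψ y).source :=
    hc.continuousAt.eventually ((𝒜.ψ y).open_source.mem_nhds (𝒜.mem y))
  have hgs : ∀ᶠ x' in 𝓝 x, ContDiffAt ℝ ∞ g x' := by
    filter_upwards [e1] with x' hx'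
    have t1 : ContDiffAt ℝ ∞ (fun x' : V n => 𝒜.ψ y (𝒜.Ex p (toE x'))) x' :=
      ContDiffAt.comp (g := fun η => 𝒜.ψ y (𝒜.Ex p η)) (f := (toE : V n → Eu n)) x'
        (contDiffAt_Ex 𝒜 hB p (toE x') hx') contDiff_toE.contDiffAt
    exact (spl n).symm.contDiff.contDiffAt.comp x' (contDiffAt_const.prodMk t1)
  have hgx : g x = 0 := by
    simp only [hg]
    rw [← hy, 𝒜.zero]
    exact (spl n).symm.map_zero
  have hL : LocPl (jW 𝒜) (Pab 𝒜 p y) (g x) := by rw [hgx]; exact locPl_Pab 𝒜 (zero_mem_Dab 𝒜 hd0 hd1)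
  have hPg : Pex 𝒜 p =ᶠ[𝓝 x] fun x' => Pab 𝒜 p y (g x') := by
    filter_upwards [e1] with x' hx'
    unfold Pab Pex
    simp only [hg, ContinuousLinearEquiv.apply_symm_apply]
    rw [(𝒜.ψ y).left_inv hx', symm_zero' 𝒜 p]
  set B : V n →L[ℝ] V n := ((toEL n).symm : Eu n →L[ℝ] V n).comp ((DX 𝒜 p (toE x)).comp (toEL n : V n →L[ℝ] Eu n)) with hBdef
  have hder : HasFDerivAt g (((spl n).symm : Eu n × Eu n →L[ℝ] V (n + n)).comp
      ((ContinuousLinearMap.inr ℝ (Eu n) (Eu n)).comp ((toEL n : V n →L[ℝ] Eu n).comp B))) x := by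
    have t1 : HasFDerivAt (fun x' : V n => 𝒜.ψ y (𝒜.Ex p (toE x'))) ((DX 𝒜 p (toE x)).comp (toEL n : V n →L[ℝ] Eu n)) x :=
      (hasFDerivAt_DX 𝒜 hB p (toE x)).comp x (toEL n).hasFDerivAt
    have t2 : HasFDerivAt (fun x' : V n => ((0 : Eu n), 𝒜.ψ y (𝒜.Ex p (toE x'))))
        ((0 : V n →L[ℝ] Eu n).prod ((DX 𝒜 p (toE x)).comp (toEL n : V n →L[ℝ] Eu n))) x :=
      (hasFDerivAt_const (0 : Eu n) x).prodMk t1
    have t3 := ((spl n).symm.hasFDerivAt (x := ((0 : Eu n), 𝒜.ψ y (𝒜.Ex p (toE x))))).comp x t2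
    have t4 : ((spl n).symm : Eu n × Eu n →L[ℝ] V (n + n)).comp
      ((ContinuousLinearMap.inr ℝ (Eu n) (Eu n)).comp ((toEL n : V n →L[ℝ] Eu n).comp B)) =
        ((spl n).symm : Eu n × Eu n →L[ℝ] V (n + n)).comp
          ((0 : V n →L[ℝ] Eu n).prod ((DX 𝒜 p (toE x)).comp (toEL n : V n →L[ℝ] Eu n))) := rfl
    rw [t4]
    exact t3
  have hdet : B.det = (DX 𝒜 p (toE x)).det := by
    exact LinearMap.det_conj (DX 𝒜 p (toE x) : Eu n →ₗ[ℝ] Eu n) (toEL n).symm.toLinearEquiv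
  rw [vAt_congr (jW_inj 𝒜) Ξ hPg, (vAt_comp (jW_inj 𝒜) Ξ hgs hL).2, hder.fderiv, hgx, trL_snd]
  have h5 := ExteriorAlgebra.map_comp_map (R := ℝ) (A2 n) (trL B)
  have h6 := congrArg (fun F => F (vAt (jW 𝒜) Ξ (Pab 𝒜 p y) 0)) h5
  simp only [AlgHom.comp_apply] at h6
  rw [← h6, topE_map, det_trL, hdet]

end Pool.Agent.Lib.MP_ccbbf6_gt.L4
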