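import Pool.Agent.Lib.MP_ccbbf6_gt.ML

/-!
# Level 4, FUB, F2: concentration at a point (helper55)
-/

set_option autoImplicit false

open MeasureTheory Measure Set Filter Topology Metric Real

noncomputable section

namespace Pool.Agent.Lib.MP_ccbbf6_gt.L4

variable {n : ℕ}

lemma conc_meas {K : EuclideanSpace ℝ (Fin n) → ℝ} {r : ℝ} (hK : ContinuousOn K (ball 0 r)) :
    Measurable ((ball (0 : EuclideanSpace ℝ (Fin n)) r).indicator K) := by
  classical
  have h := ContinuousOn.measurable_piecewise hK (continuousOn_const (c := (0 : ℝ))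
    (s := (ball (0 : EuclideanSpace ℝ (Fin n)) r)ᶜ)) measurableSet_ball
  have e : (ball (0 : EuclideanSpace ℝ (Fin n)) r).indicator K =
      (ball (0 : EuclideanSpace ℝ (Fin n)) r).piecewise K fun _ => 0 := by
    funext u
    by_cases hu : u ∈ ball (0 : EuclideanSpace ℝ (Fin n)) r
    · rw [indicator_of_mem hu, Set.piecewise_eq_of_mem _ _ _ hu]
    · rw [indicator_of_notMem hu, Set.piecewise_eq_of_notMem _ _ _ hu]
  rw [e]
  exact h

/-- **Concentration at the origin.** -/
theorem conc {K t : EuclideanSpace ℝ (Fin n) → ℝ} {r : ℝ} (hr : 2 < r) (hK : ContinuousOn K (ball 0 r))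
    (ht : Continuous t) (ht0 : ∀ x, 2 < ‖x‖ → t x = 0) :
    Tendsto (fun δ : ℝ => ∫ ξ in ball (0 : EuclideanSpace ℝ (Fin n)) r, K ξ * (δ⁻¹ ^ n * t (δ⁻¹ • ξ))) (𝓝[>] 0)
      (𝓝 (K 0 * ∫ x, t x)) := by
  set B := ball (0 : EuclideanSpace ℝ (Fin n)) r with hB
  have hKm := conc_meas hK
  have e1 : ∀ δ : ℝ, 0 < δ → ∫ ξ in B, K ξ * (δ⁻¹ ^ n * t (δ⁻¹ • ξ)) = ∫ x, B.indicator K (δ • x) * t x := by
    intro δ hδ
    have h1 : ∫ ξ in B, K ξ * (δ⁻¹ ^ n * t (δ⁻¹ • ξ)) = ∫ ξ, B.indicator K ξ * (δ⁻¹ ^ n * t (δ⁻¹ • ξ)) := by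
      rw [← integral_indicator measurableSet_ball]
      refine integral_congr_ae (Eventually.of_forall fun ξ => ?_)
      simp only
      by_cases h : ξ ∈ B
      · rw [indicator_of_mem h, indicator_of_mem h]
      · rw [indicator_of_notMem h, indicator_of_notMem h, zero_mul]
    have h2 := Measure.integral_comp_smul (volume : Measure (EuclideanSpace ℝ (Fin n)))
      (fun ξ => B.indicator K ξ * (δ⁻¹ ^ n * t (δ⁻¹ • ξ))) δ
    rw [finrank_euclideanSpace_fin, abs_inv, abs_of_pos (by positivity), smul_eq_mul] at h2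
    have h3 : δ ^ n ≠ 0 := by positivity
    have h4 : ∀ x : EuclideanSpace ℝ (Fin n), B.indicator K (δ • x) * (δ⁻¹ ^ n * t (δ⁻¹ • δ • x)) =
        (δ ^ n)⁻¹ * (B.indicator K (δ • x) * t x) := by
      intro x
      rw [smul_smul, inv_mul_cancel₀ hδ.ne', one_smul, inv_pow]
      ring
    simp only [h4] at h2
    rw [integral_const_mul] at h2
    rw [h1]
    have h5 : (δ ^ n)⁻¹ ≠ 0 := inv_ne_zero h3
    exact (mul_left_cancel₀ h5 h2).symm
  have e2 : Tendsto (fun δ : ℝ => ∫ x, B.indicator K (δ • x) * t x) (𝓝[>] 0) (𝓝 (∫ x, K 0 * t x)) := by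
    obtain ⟨C, hC⟩ := (isCompact_closedBall (0 : EuclideanSpace ℝ (Fin n)) 2).exists_bound_of_continuousOn
      (hK.mono (closedBall_subset_ball hr))
    have hcs : HasCompactSupport t := HasCompactSupport.intro (isCompact_closedBall (0 : EuclideanSpace ℝ (Fin n)) 2)
      fun x hx => ht0 x (by rwa [mem_closedBall_zero_iff, not_le] at hx)
    refine tendsto_integral_filter_of_dominated_convergence (fun x => C * ‖t x‖) ?_ ?_ ?_ ?_
    · refine Eventually.of_forall fun δ => ?_
      exact ((hKm.comp (measurable_const_smul δ)).aestronglyMeasurable).mul ht.aestronglyMeasurable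
    · have h1 : ∀ᶠ δ : ℝ in 𝓝[>] 0, δ ∈ Ioo (0 : ℝ) 1 := Ioo_mem_nhdsGT one_pos
      filter_upwards [h1] with δ hδ
      refine Eventually.of_forall fun x => ?_
      by_cases hx : 2 < ‖x‖
      · rw [ht0 x hx, mul_zero, norm_zero, mul_zero]
      · rw [not_lt] at hx
        have h2 : ‖δ • x‖ ≤ 2 := by
          rw [norm_smul, Real.norm_of_nonneg hδ.1.le]
          nlinarith [hδ.1, hδ.2, norm_nonneg x]
        have h3 : δ • x ∈ B := by
          rw [hB, mem_ball_zero_iff]
          linarith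
        rw [indicator_of_mem h3, norm_mul]
        exact mul_le_mul_of_nonneg_right (hC _ (mem_closedBall_zero_iff.2 h2)) (norm_nonneg _)
    · exact (ht.norm.integrable_of_hasCompactSupport hcs.norm).const_mul C
    · refine Eventually.of_forall fun x => ?_
      have h0 : (0 : EuclideanSpace ℝ (Fin n)) ∈ B := mem_ball_self (by linarith)
      have h1 : ContinuousAt K 0 := hK.continuousAt (isOpen_ball.mem_nhds h0)
      have h2 : Tendsto (fun δ : ℝ => δ • x) (𝓝[>] 0) (𝓝 0) := by
        have h3 : Continuous fun δ : ℝ => δ • x := by fun_prop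
        have h4 := h3.tendsto 0
        rw [zero_smul] at h4
        exact h4.mono_left nhdsWithin_le_nhds
      have h3 : Tendsto (fun δ : ℝ => B.indicator K (δ • x)) (𝓝[>] 0) (𝓝 (K 0)) := by
        refine (h1.tendsto.comp h2).congr' ?_
        filter_upwards [h2.eventually (isOpen_ball.mem_nhds h0)] with δ hδ
        rw [Function.comp_apply, indicator_of_mem (show δ • x ∈ B from hδ)]
      exact h3.mul_const _
  rw [integral_const_mul] at e2
  refine e2.congr' ?_
  filter_upwards [self_mem_nhdsWithin] with δ hδ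
  exact (e1 δ hδ).symm

end Pool.Agent.Lib.MP_ccbbf6_gt.L4
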