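import Pool.Agent.Lib.MP_ccbbf6_gt.L4.CEa

/-!
# Level 4, OMa: the unit vectors `z = (a, b (v - i e(v)) / √2)` (helper13)
-/

set_option autoImplicit false

open Set Filter Topology Metric Real MeasureTheory
open scoped ContDiff ComplexConjugate RealInnerProductSpace

noncomputable section

namespace Pool.Agent.Lib.MP_ccbbf6_gt.L4

variable {n : ℕ}


/-- the complex space -/
abbrev Ec (n : ℕ) := EuclideanSpace ℂ (Fin (n + 1))

/-- `(a, b (v - i w) / √2)` -/
def cz (a b : ℝ) (v w : EuclideanSpace ℝ (Fin n)) : Ec n :=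
  WithLp.toLp 2 (Fin.cons (a : ℂ) fun j => (b : ℂ) * (((v j : ℂ) - Complex.I * (w j : ℂ)) / (√2 : ℝ)))

theorem cz_zero (a b : ℝ) (v w : EuclideanSpace ℝ (Fin n)) : cz a b v w 0 = a := rfl

theorem cz_succ (a b : ℝ) (v w : EuclideanSpace ℝ (Fin n)) (j : Fin n) :
    cz a b v w j.succ = (b : ℂ) * (((v j : ℂ) - Complex.I * (w j : ℂ)) / (√2 : ℝ)) := rfl

theorem real_inner_sum (v w : EuclideanSpace ℝ (Fin n)) : ⟪v, w⟫ = ∑ j, v j * w j := by
  rw [EuclideanSpace.inner_eq_star_dotProduct]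
  simp [dotProduct, mul_comm]

theorem inner_cz (a b : ℝ) (v w : EuclideanSpace ℝ (Fin n)) (a' b' : ℝ) (v' w' : EuclideanSpace ℝ (Fin n)) :
    (inner ℂ (cz a b v w) (cz a' b' v' w')) = (a * a' + b * b' * (⟪v, v'⟫ + ⟪w, w'⟫) / 2 : ℝ) +
      (b * b' * (⟪w, v'⟫ - ⟪v, w'⟫) / 2 : ℝ) * Complex.I := by
  have h2 : ((√2 : ℝ) : ℂ) * ((√2 : ℝ) : ℂ) = 2 := by
    rw [← Complex.ofReal_mul, Real.mul_self_sqrt (by norm_num)]
    norm_num
  have h2' : ((√2 : ℝ) : ℂ) ≠ 0 := by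
    intro h
    rw [h, zero_mul] at h2
    norm_num at h2
  rw [EuclideanSpace.inner_eq_star_dotProduct]
  simp only [dotProduct, Fin.sum_univ_succ, cz_zero, cz_succ, Pi.star_apply, RCLike.star_def]
  have h3 : ∀ j : Fin n, ((b' : ℂ) * (((v' j : ℂ) - Complex.I * (w' j : ℂ)) / (√2 : ℝ))) *
      (starRingEnd ℂ) ((b : ℂ) * (((v j : ℂ) - Complex.I * (w j : ℂ)) / (√2 : ℝ))) =
      ((b * b' / 2 * (v j * v' j) + b * b' / 2 * (w j * w' j) : ℝ) : ℂ) +
        ((b * b' / 2 * (w j * v' j) - b * b' / 2 * (v j * w' j) : ℝ) : ℂ) * Complex.I := by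
    intro j
    simp only [map_mul, map_sub, map_div₀, Complex.conj_ofReal, Complex.conj_I]
    have : ((b' : ℂ) * (((v' j : ℂ) - Complex.I * (w' j : ℂ)) / (√2 : ℝ))) *
        ((b : ℂ) * (((v j : ℂ) - (-Complex.I) * (w j : ℂ)) / (√2 : ℝ))) =
        (b : ℂ) * b' * (((v' j : ℂ) - Complex.I * (w' j : ℂ)) * ((v j : ℂ) + Complex.I * (w j : ℂ))) /
          (((√2 : ℝ) : ℂ) * ((√2 : ℝ) : ℂ)) := by
      field_simp
      ring
    rw [this, h2]
    push_cast
    linear_combination (-(b : ℂ) * b' * w' j * w j / 2) * Complex.I_sq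
  rw [Finset.sum_congr rfl fun j _ => h3 j, Finset.sum_add_distrib, ← Finset.sum_mul, ← Complex.ofReal_sum,
    ← Complex.ofReal_sum, Finset.sum_add_distrib, Finset.sum_sub_distrib, ← Finset.mul_sum, ← Finset.mul_sum,
    ← Finset.mul_sum, ← Finset.mul_sum, real_inner_sum, real_inner_sum, real_inner_sum, real_inner_sum]
  simp only [Complex.conj_ofReal]
  push_cast
  ring

/-- orthonormal pair -/
structure OP (v w : EuclideanSpace ℝ (Fin n)) : Prop where
  nv : ‖v‖ = 1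
  nw : ‖w‖ = 1
  vw : ⟪v, w⟫ = 0

theorem OP.vv {v w : EuclideanSpace ℝ (Fin n)} (h : OP v w) : ⟪v, v⟫ = 1 := by
  rw [real_inner_self_eq_norm_sq, h.nv, one_pow]

theorem OP.ww {v w : EuclideanSpace ℝ (Fin n)} (h : OP v w) : ⟪w, w⟫ = 1 := by
  rw [real_inner_self_eq_norm_sq, h.nw, one_pow]

theorem norm_cz {a b : ℝ} (hab : a ^ 2 + b ^ 2 = 1) {v w : EuclideanSpace ℝ (Fin n)} (h : b = 0 ∨ OP v w) :
    ‖cz a b v w‖ = 1 := by
  have h1 := inner_self_eq_norm_sq_to_K (𝕜 := ℂ) (cz a b v w)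
  rw [inner_cz] at h1
  have h2 : ((a * a + b * b * (⟪v, v⟫ + ⟪w, w⟫) / 2 : ℝ) : ℂ) + (b * b * (⟪w, v⟫ - ⟪v, w⟫) / 2 : ℝ) * Complex.I = 1 := by
    rcases h with h | h
    · subst h
      have : (a : ℂ) * a = 1 := by
        rw [← Complex.ofReal_mul, show a * a = 1 by nlinarith, Complex.ofReal_one]
      simp [this]
    · rw [h.vv, h.ww, real_inner_comm v w]
      simp only [sub_self, mul_zero, zero_div, Complex.ofReal_zero, zero_mul, add_zero]
      norm_cast
      nlinarith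
  rw [h2] at h1
  have h3 : ‖cz a b v w‖ ^ 2 = 1 := by
    have h4 : ((‖cz a b v w‖ ^ 2 : ℝ) : ℂ) = ((1 : ℝ) : ℂ) := by
      push_cast
      exact h1.symm
    exact Complex.ofReal_injective h4
  nlinarith [norm_nonneg (cz a b v w), sq_nonneg (‖cz a b v w‖ - 1)]

/-- rotation -/
theorem cz_rot (t : ℝ) (v w : EuclideanSpace ℝ (Fin n)) :
    cz 0 1 (Real.cos t • v + Real.sin t • w) (-Real.sin t • v + Real.cos t • w) =
      Complex.exp (Complex.I * t) • cz 0 1 v w := by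
  ext j
  refine Fin.cases ?_ (fun j => ?_) j
  · rw [PiLp.smul_apply, cz_zero, cz_zero]
    simp
  · rw [PiLp.smul_apply, cz_succ, cz_succ, mul_comm Complex.I (t : ℂ), Complex.exp_mul_I]
    simp only [PiLp.add_apply, PiLp.smul_apply, smul_eq_mul]
    push_cast
    linear_combination (Complex.sin t * w j * (1 / ((√2 : ℝ) : ℂ))) * Complex.I_sq

/-- the real linear projection on the complex line of `z` -/
def prj {E : Type*} [NormedAddCommGroup E] [InnerProductSpace ℂ E] (z : E) : E →L[ℝ] E :=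
  ((innerSL ℂ z).restrictScalars ℝ).smulRight z

section Prj

variable {E : Type*} [NormedAddCommGroup E] [InnerProductSpace ℂ E]

theorem prj_apply (z w : E) : prj z w = (inner ℂ z w) • z := rfl

theorem line_prj {z : E} (h : ‖z‖ = 1) : Line (prj z) z := ⟨h, fun _ => rfl⟩

theorem prj_smul {z : E} {c : ℂ} (hc : ‖c‖ = 1) : prj (c • z) = prj z := by
  ext w
  rw [prj_apply, prj_apply, inner_smul_left, smul_smul]
  congr 1
  have h : conj c * c = 1 := by
    rw [mul_comm, Complex.mul_conj, Complex.normSq_eq_norm_sq, hc]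
    simp
  calc conj c * (inner ℂ z w) * c = (conj c * c) * (inner ℂ z w) := by ring
    _ = _ := by rw [h, one_mul]

theorem contDiff_prj [FiniteDimensional ℝ E] : ContDiff ℝ ∞ (prj : E → E →L[ℝ] E) := by
  rw [contDiff_clm_apply_iff]
  intro w
  have h : (fun z : E => prj z w) = fun z => (inner ℂ z w) • z := rfl
  rw [h]
  exact (contDiff_id.inner ℂ contDiff_const).smul contDiff_id

end Prj

/-- smoothness of `cz` -/
theorem contDiffAt_cz {G : Type*} [NormedAddCommGroup G] [NormedSpace ℝ G] {a b : G → ℝ}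
    {v w : G → EuclideanSpace ℝ (Fin n)} {x : G} (ha : ContDiffAt ℝ ∞ a x) (hb : ContDiffAt ℝ ∞ b x)
    (hv : ContDiffAt ℝ ∞ v x) (hw : ContDiffAt ℝ ∞ w x) :
    ContDiffAt ℝ ∞ (fun y => cz (a y) (b y) (v y) (w y)) x := by
  refine contDiffAt_piLp' 2 fun j => ?_
  have hof : ∀ {f : G → ℝ}, ContDiffAt ℝ ∞ f x → ContDiffAt ℝ ∞ (fun y => (f y : ℂ)) x := fun hf =>
    Complex.ofRealCLM.contDiff.contDiffAt.comp x hf
  refine Fin.cases ?_ (fun j => ?_) j
  · exact hof ha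
  · have hvj : ContDiffAt ℝ ∞ (fun y => v y j) x := (contDiffAt_euclidean.1 hv) j
    have hwj : ContDiffAt ℝ ∞ (fun y => w y j) x := (contDiffAt_euclidean.1 hw) j
    have h1 : ContDiffAt ℝ ∞ (fun y => (b y : ℂ) * (((v y j : ℂ) - Complex.I * (w y j : ℂ)) / (√2 : ℝ))) x :=
      (hof hb).mul (((hof hvj).sub (contDiffAt_const.mul (hof hwj))).div_const _)
    exact h1

/-- the step `ψ` : `0` for `r ≤ 1`, `π / 2` for `r ≥ 2` -/
def stp (r : ℝ) : ℝ := π / 2 * Real.smoothTransition (r - 1)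

theorem stp_le {r : ℝ} (h : r ≤ 1) : stp r = 0 := by
  unfold stp
  rw [Real.smoothTransition.zero_of_nonpos (by linarith), mul_zero]

theorem stp_ge {r : ℝ} (h : 2 ≤ r) : stp r = π / 2 := by
  unfold stp
  rw [Real.smoothTransition.one_of_one_le (by linarith), mul_one]

theorem contDiff_stp : ContDiff ℝ ∞ stp :=
  contDiff_const.mul (Real.smoothTransition.contDiff.comp (contDiff_id.sub contDiff_const))

end Pool.Agent.Lib.MP_ccbbf6_gt.L4
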