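import Pool.Agent.Lib.MP_ccbbf6_gt.Cls.PolA
import Pool.Agent.Lib.MP_ccbbf6_gt.L4.OMs
import Pool.Agent.Lib.MP_ccbbf6_gt.L4.OriA

/-!
# Level 4, orientation: the oriented great circle fibration `e` of the unit sphere of the tangent space at `p`
-/

set_option autoImplicit false

open Set Filter Topology Metric Real Module
open scoped ContDiff RealInnerProductSpace

noncomputable section

namespace Pool.Agent.Lib.MP_ccbbf6_gt.L4.ORI

open Geo

variable {n : ℕ} {M : Type*} [MetricSpace M] [CompactSpace M] (𝒜 : SDist n M)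

/-- smooth local kernel vectors -/
theorem smooth_kernel {A : Eu n → Eu n →L[ℝ] Eu n} {v a : Eu n} (hA : ContDiffAt ℝ ∞ A v) (hv : v ≠ 0)
    (hva : ⟪v, a⟫ = 0) (ha : ‖a‖ = 1)
    (hker : ∀ x, A v x = 0 → ∃ s t : ℝ, x = s • v + t • a) {V : Eu n → Submodule ℝ (Eu n)}
    (hV : ∀ᶠ w in 𝓝 v, finrank ℝ (V w) = 2 ∧ w ∈ V w ∧ ∀ x ∈ V w, A w x = 0) (haV : A v a = 0) :
    ∃ k : Eu n → Eu n, ContDiffAt ℝ ∞ k v ∧ k v = a ∧
      ∀ᶠ w in 𝓝 v, k w ∈ V w ∧ ⟪w, k w⟫ = 0 ∧ ‖k w‖ = 1 := by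
  have haa : ⟪a, a⟫ = 1 := by rw [real_inner_self_eq_norm_sq, ha]; norm_num
  have hvv : ⟪v, v⟫ ≠ 0 := by rw [real_inner_self_eq_norm_sq]; exact pow_ne_zero 2 (norm_ne_zero_iff.mpr hv)
  -- the operator
  let R : Eu n →L[ℝ] Eu n := (innerSL ℝ a).smulRight a + (innerSL ℝ v).smulRight v
  let T : Eu n → Eu n →L[ℝ] Eu n := fun w => (ContinuousLinearMap.adjoint (A v)).comp (A w) + R
  have hTapp : ∀ w x, T w x = ContinuousLinearMap.adjoint (A v) (A w x) + (⟪a, x⟫ • a + ⟪v, x⟫ • v) := fun w x => rfl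
  have hTc : ContDiffAt ℝ ∞ T v := (contDiffAt_const.clm_comp hA).add contDiffAt_const
  have hinj : Function.Injective (T v) := by
    rw [injective_iff_map_eq_zero]
    intro x hx
    have h1 : ⟪T v x, x⟫ = ‖A v x‖ ^ 2 + ⟪a, x⟫ ^ 2 + ⟪v, x⟫ ^ 2 := by
      rw [hTapp, inner_add_left, inner_add_left, real_inner_smul_left, real_inner_smul_left,
        ContinuousLinearMap.adjoint_inner_left, real_inner_self_eq_norm_sq]
      ring
    rw [hx, inner_zero_left] at h1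
    have h2 : ‖A v x‖ ^ 2 = 0 := by nlinarith [sq_nonneg ‖A v x‖, sq_nonneg ⟪a, x⟫, sq_nonneg ⟪v, x⟫]
    have h3 : ⟪a, x⟫ = 0 := by
      have : ⟪a, x⟫ ^ 2 = 0 := by nlinarith [sq_nonneg ‖A v x‖, sq_nonneg ⟪a, x⟫, sq_nonneg ⟪v, x⟫]
      exact pow_eq_zero_iff two_ne_zero |>.mp this
    have h4 : ⟪v, x⟫ = 0 := by
      have : ⟪v, x⟫ ^ 2 = 0 := by nlinarith [sq_nonneg ‖A v x‖, sq_nonneg ⟪a, x⟫, sq_nonneg ⟪v, x⟫]
      exact pow_eq_zero_iff two_ne_zero |>.mp this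
    have h5 : A v x = 0 := norm_eq_zero.mp (pow_eq_zero_iff two_ne_zero |>.mp h2)
    obtain ⟨s, t, rfl⟩ := hker x h5
    rw [inner_add_right, real_inner_smul_right, real_inner_smul_right, real_inner_comm, hva, haa] at h3
    rw [inner_add_right, real_inner_smul_right, real_inner_smul_right, hva] at h4
    have ht : t = 0 := by linarith
    have hs : s = 0 := by
      have : s * ⟪v, v⟫ = 0 := by linarith
      exact (mul_eq_zero.mp this).resolve_right hvv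
    rw [hs, ht, zero_smul, zero_smul, add_zero]
  let e : Eu n ≃L[ℝ] Eu n := (LinearEquiv.ofInjectiveEndo (T v : Eu n →ₗ[ℝ] Eu n) hinj).toContinuousLinearEquiv
  have he : (e : Eu n →L[ℝ] Eu n) = T v := by ext1 x; rfl
  have hinv : ContDiffAt ℝ ∞ (fun w => ContinuousLinearMap.inverse (T w)) v := by
    have h1 : ContDiffAt ℝ ∞ ContinuousLinearMap.inverse (T v) := by
      rw [← he]; exact contDiffAt_map_inverse e
    exact h1.comp v hTc
  let k1 : Eu n → Eu n := fun w => ContinuousLinearMap.inverse (T w) a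
  have hk1 : ContDiffAt ℝ ∞ k1 v := hinv.clm_apply contDiffAt_const
  have hTa : T v a = a := by
    rw [hTapp, haV, map_zero, haa, hva, one_smul, zero_smul, add_zero, zero_add]
  have hk1v : k1 v = a := by
    show ContinuousLinearMap.inverse (T v) a = a
    rw [← he, ContinuousLinearMap.inverse_equiv]
    apply e.injective
    rw [ContinuousLinearEquiv.coe_coe, e.apply_symm_apply]
    show a = (e : Eu n →L[ℝ] Eu n) a
    rw [he, hTa]
  -- `T w` is invertible near `v`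
  have hev : ∀ᶠ w in 𝓝 v, ∃ e' : Eu n ≃L[ℝ] Eu n, (e' : Eu n →L[ℝ] Eu n) = T w := by
    have h1 : range ((↑) : (Eu n ≃L[ℝ] Eu n) → Eu n →L[ℝ] Eu n) ∈ 𝓝 (T v) := by
      rw [← he]; exact ContinuousLinearEquiv.nhds e
    filter_upwards [hTc.continuousAt.eventually h1] with w hw
    obtain ⟨e', he'⟩ := hw
    exact ⟨e', he'⟩
  have hmem : ∀ᶠ w in 𝓝 v, k1 w ∈ V w := by
    filter_upwards [hev, hV] with w hw hVw
    obtain ⟨e', he'⟩ := hw
    obtain ⟨h2, -, h4⟩ := hVw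
    -- the map `V w → ℝ²`
    let f : V w →ₗ[ℝ] ℝ × ℝ := ((innerSL ℝ a : Eu n →ₗ[ℝ] ℝ).comp (V w).subtype).prod
      ((innerSL ℝ v : Eu n →ₗ[ℝ] ℝ).comp (V w).subtype)
    have hf : ∀ x : V w, f x = (⟪a, (x : Eu n)⟫, ⟪v, (x : Eu n)⟫) := fun x => rfl
    have hfi : Function.Injective f := by
      rw [injective_iff_map_eq_zero]
      intro x hx
      rw [hf, Prod.mk_eq_zero] at hx
      have h5 : T w x = 0 := by
        rw [hTapp, h4 _ x.2, map_zero, hx.1, hx.2, zero_smul, zero_smul, add_zero, add_zero]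
      rw [← he'] at h5
      have h6 : (x : Eu n) = 0 := e'.injective (by
        show (e' : Eu n →L[ℝ] Eu n) x = e' 0
        rw [h5, map_zero])
      exact Subtype.ext h6
    have hfs : Function.Surjective f := by
      refine (LinearMap.injective_iff_surjective_of_finrank_eq_finrank ?_).mp hfi
      rw [h2, Module.finrank_prod, Module.finrank_self]
    obtain ⟨x, hx⟩ := hfs (1, 0)
    rw [hf, Prod.mk.injEq] at hx
    have h5 : T w x = a := by
      rw [hTapp, h4 _ x.2, map_zero, hx.1, hx.2, one_smul, zero_smul, add_zero, zero_add]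
    have h6 : k1 w = x := by
      show ContinuousLinearMap.inverse (T w) a = x
      rw [← h5, ← he', ContinuousLinearMap.inverse_equiv]
      exact e'.symm_apply_apply _
    rw [h6]
    exact x.2
  -- make it orthogonal and normalise
  let k2 : Eu n → Eu n := fun w => k1 w - (⟪w, k1 w⟫ / ⟪w, w⟫) • w
  have hk2 : ContDiffAt ℝ ∞ k2 v :=
    hk1.sub (((contDiffAt_id.inner ℝ hk1).div (contDiffAt_id.inner ℝ contDiffAt_id) hvv).smul contDiffAt_id)
  have hk2v : k2 v = a := by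
    show k1 v - (⟪v, k1 v⟫ / ⟪v, v⟫) • v = a
    rw [hk1v, hva, zero_div, zero_smul, sub_zero]
  have ha0 : a ≠ 0 := by
    intro h
    rw [h, norm_zero] at ha
    exact zero_ne_one ha
  have hk2ne : ∀ᶠ w in 𝓝 v, k2 w ≠ 0 := by
    refine hk2.continuousAt.eventually_ne ?_
    rw [hk2v]; exact ha0
  refine ⟨fun w => nrm (k2 w), ?_, ?_, ?_⟩
  · unfold nrm
    have h1 : k2 v ≠ 0 := by rw [hk2v]; exact ha0
    exact ((hk2.norm ℝ h1).inv (norm_ne_zero_iff.mpr h1)).smul hk2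
  · show nrm (k2 v) = a
    rw [hk2v, nrm_of_norm ha]
  · filter_upwards [hk2ne, hmem, hV, isOpen_ne.mem_nhds hv] with w h1 h2 h3 h4
    have h5 : k2 w ∈ V w := (V w).sub_mem h2 ((V w).smul_mem _ h3.2.1)
    have h4' : w ≠ 0 := h4
    have hww : ⟪w, w⟫ ≠ 0 := by rw [real_inner_self_eq_norm_sq]; exact pow_ne_zero 2 (norm_ne_zero_iff.mpr h4')
    have h6 : ⟪w, k2 w⟫ = 0 := by
      show ⟪w, k1 w - (⟪w, k1 w⟫ / ⟪w, w⟫) • w⟫ = 0
      rw [inner_sub_right, real_inner_smul_right, div_mul_cancel₀ _ hww, sub_self]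
    refine ⟨(V w).smul_mem _ h5, ?_, norm_nrm h1⟩
    show ⟪w, ‖k2 w‖⁻¹ • k2 w⟫ = 0
    rw [real_inner_smul_right, h6, mul_zero]

/-- the orthogonal line in a plane -/
theorem exists_perp {V : Submodule ℝ (Eu n)} (hV : finrank ℝ V = 2) {v : Eu n} (hv : v ≠ 0) (hvV : v ∈ V) :
    ∃ a ∈ V, ‖a‖ = 1 ∧ ⟪v, a⟫ = 0 ∧ ∀ x ∈ V, ∃ s t : ℝ, x = s • v + t • a := by
  -- a vector of `V` which is not a multiple of `v`
  have h1 : ∃ x ∈ V, x ∉ (ℝ ∙ v) := by
    by_contra h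
    push Not at h
    have h2 := Submodule.finrank_mono (show V ≤ ℝ ∙ v from fun x hx => h x hx)
    rw [hV, finrank_span_singleton hv] at h2
    omega
  obtain ⟨x, hx, hxv⟩ := h1
  have hvv : ⟪v, v⟫ ≠ 0 := by rw [real_inner_self_eq_norm_sq]; exact pow_ne_zero 2 (norm_ne_zero_iff.mpr hv)
  obtain ⟨y, hy⟩ : ∃ y, y = x - (⟪v, x⟫ / ⟪v, v⟫) • v := ⟨_, rfl⟩
  have hy0 : y ≠ 0 := by
    intro h
    rw [h] at hy
    apply hxv
    rw [Submodule.mem_span_singleton]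
    exact ⟨⟪v, x⟫ / ⟪v, v⟫, (sub_eq_zero.mp hy.symm).symm⟩
  have hyV : y ∈ V := by rw [hy]; exact V.sub_mem hx (V.smul_mem _ hvV)
  have hvy : ⟪v, y⟫ = 0 := by
    rw [hy, inner_sub_right, real_inner_smul_right, div_mul_cancel₀ _ hvv, sub_self]
  have hva : ⟪v, nrm y⟫ = 0 := by unfold nrm; rw [real_inner_smul_right, hvy, mul_zero]
  have haV : nrm y ∈ V := V.smul_mem _ hyV
  refine ⟨nrm y, haV, norm_nrm hy0, hva, ?_⟩
  have hli : LinearIndependent ℝ ![v, nrm y] := by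
    rw [LinearIndependent.pair_iff]
    intro s t hst
    have h2 : ⟪v, s • v + t • nrm y⟫ = 0 := by rw [hst, inner_zero_right]
    have h3 : ⟪nrm y, s • v + t • nrm y⟫ = 0 := by rw [hst, inner_zero_right]
    have h4 : ⟪nrm y, nrm y⟫ = 1 := by rw [real_inner_self_eq_norm_sq, norm_nrm hy0]; norm_num
    rw [inner_add_right, real_inner_smul_right, real_inner_smul_right, hva] at h2
    rw [inner_add_right, real_inner_smul_right, real_inner_smul_right, real_inner_comm, hva, h4] at h3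
    constructor
    · have : s * ⟪v, v⟫ = 0 := by linarith
      exact (mul_eq_zero.mp this).resolve_right hvv
    · linarith
  intro z hz
  have hspan : Submodule.span ℝ (range ![v, nrm y]) = V := by
    apply Submodule.eq_of_le_of_finrank_eq
    · rw [Submodule.span_le]
      rintro _ ⟨i, rfl⟩
      fin_cases i
      · exact hvV
      · exact haV
    · rw [finrank_span_eq_card hli, hV, Fintype.card_fin]
  rw [← hspan, Matrix.range_cons, Matrix.range_cons, Matrix.range_empty, union_empty, singleton_union,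
    Submodule.mem_span_pair] at hz
  obtain ⟨s, t, h⟩ := hz
  exact ⟨s, t, h.symm⟩

/-- the smooth local choice of the perpendicular direction -/
theorem local_perp (hB : Bl M) (hk : 𝒜.HK 1) (p : M) {v a : Eu n} (hv : v ≠ 0) (ha : a ∈ 𝒜.PV p v) (ha1 : ‖a‖ = 1)
    (hva : ⟪v, a⟫ = 0) : ∃ k : Eu n → Eu n, ContDiffAt ℝ ∞ k v ∧ k v = a ∧
      ∀ᶠ w in 𝓝 v, k w ∈ 𝒜.PV p w ∧ ⟪w, k w⟫ = 0 ∧ ‖k w‖ = 1 := by
  obtain ⟨q, hq⟩ : ∃ q, q = 𝒜.Ex p (rad π v) := ⟨_, rfl⟩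
  have hmemq : 𝒜.Ex p (rad π v) ∈ (𝒜.ψ q).source := by rw [← hq]; exact 𝒜.mem q
  have hX : ContDiffAt ℝ ∞ (𝒜.X p q π) v := contDiffAt_X 𝒜 hB p q π hv hmemq
  have hA : ContDiffAt ℝ ∞ (fderiv ℝ (𝒜.X p q π)) v := hX.fderiv_right (by simp)
  have hfin : ∀ w : Eu n, w ≠ 0 → finrank ℝ (𝒜.PV p w) = 2 := fun w hw => finrank_PV 𝒜 hB hk p hw
  -- the kernel
  have hcont := continuousAt_Exrad 𝒜 hB p π hv
  have hkerv : ∀ x, fderiv ℝ (𝒜.X p q π) v x = 0 ↔ x ∈ 𝒜.PV p v := by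
    intro x
    have h1 := ker_X_eq 𝒜 hB hk (p := p) (q := q) (V := 𝒜.PV p v) (by rw [hq]; exact PV_spec 𝒜 hB p hv)
      (mem_PV_self 𝒜 hB p v) hv
    conv_rhs => rw [h1]
    rw [LinearMap.mem_ker]
    rfl
  have hkerw : ∀ᶠ w in 𝓝 v, finrank ℝ (𝒜.PV p w) = 2 ∧ w ∈ 𝒜.PV p w ∧
      ∀ x ∈ 𝒜.PV p w, fderiv ℝ (𝒜.X p q π) w x = 0 := by
    filter_upwards [isOpen_ne.mem_nhds hv, hcont.eventually ((𝒜.ψ q).open_source.mem_nhds hmemq)] with w hw hwq
    have hw' : w ≠ 0 := hw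
    refine ⟨hfin w hw', mem_PV_self 𝒜 hB p w, fun x hx => ?_⟩
    -- `X` is constant along the line in `PV`
    have hXw : ContDiffAt ℝ ∞ (𝒜.X p q π) w := contDiffAt_X 𝒜 hB p q π hw' hwq
    have hd : HasFDerivAt (𝒜.X p q π) (fderiv ℝ (𝒜.X p q π) w) w := (hXw.differentiableAt (by simp)).hasFDerivAt
    have hline : HasDerivAt (fun τ : ℝ => w + τ • x) x 0 := by
      have h1 := ((hasDerivAt_id (0 : ℝ)).smul_const x).const_add w
      rwa [one_smul] at h1
    have hline0 : (fun τ : ℝ => w + τ • x) 0 = w := by simp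
    have hd' : HasFDerivAt (𝒜.X p q π) (fderiv ℝ (𝒜.X p q π) w) ((fun τ : ℝ => w + τ • x) 0) := by
      rw [hline0]; exact hd
    have h2 := hd'.comp_hasDerivAt (0 : ℝ) hline
    have h3 : HasDerivAt (𝒜.X p q π ∘ fun τ : ℝ => w + τ • x) 0 0 := by
      refine (hasDerivAt_const (0 : ℝ) (𝒜.X p q π w)).congr_of_eventuallyEq ?_
      have h4 : Tendsto (fun τ : ℝ => w + τ • x) (𝓝 0) (𝓝 w) := by
        have := hline.continuousAt.tendsto
        rwa [zero_smul, add_zero] at this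
      filter_upwards [h4.eventually (isOpen_ne.mem_nhds hw')] with τ hτ
      show 𝒜.X p q π (w + τ • x) = 𝒜.X p q π w
      unfold SDist.X
      rw [(mem_PV_iff 𝒜 hB p hw' hτ).1
        ((𝒜.PV p w).add_mem (mem_PV_self 𝒜 hB p w) ((𝒜.PV p w).smul_mem _ hx))]
    exact h2.unique h3
  obtain ⟨b, hbV, hb1, hvb, hb⟩ := exists_perp (hfin v hv) hv (mem_PV_self 𝒜 hB p v)
  have hba : ∃ t : ℝ, b = t • a := by
    obtain ⟨s, t, h⟩ := hb a ha
    have h1 : ⟪v, a⟫ = s * ⟪v, v⟫ := by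
      rw [h, inner_add_right, real_inner_smul_right, real_inner_smul_right, hvb]; ring
    have hvv : ⟪v, v⟫ ≠ 0 := by rw [real_inner_self_eq_norm_sq]; exact pow_ne_zero 2 (norm_ne_zero_iff.mpr hv)
    have hs : s = 0 := by
      rw [hva] at h1
      exact (mul_eq_zero.mp h1.symm).resolve_right hvv
    rw [hs, zero_smul, zero_add] at h
    have ht : t ≠ 0 := by
      rintro rfl
      rw [zero_smul] at h
      rw [h, norm_zero] at ha1
      exact zero_ne_one ha1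
    exact ⟨t⁻¹, by rw [h, smul_smul, inv_mul_cancel₀ ht, one_smul]⟩
  obtain ⟨t0, ht0⟩ := hba
  refine smooth_kernel hA hv hva ha1 (fun x hx => ?_) hkerw ((hkerv a).2 ha)
  obtain ⟨s, t, h⟩ := hb x ((hkerv x).1 hx)
  exact ⟨s, t * t0, by rw [h, ht0, smul_smul]⟩

end Pool.Agent.Lib.MP_ccbbf6_gt.L4.ORI
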