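import Pool.Agent.Lib.MP_ccbbf6_gt.L4.OriB
import Pool.Agent.Lib.MP_ccbbf6_gt.L4.Str

/-!
# Level 4, ORI1: the oriented great circle fibration of the unit sphere of the tangent space at `p`
-/

set_option autoImplicit false

open Set Filter Topology Metric Real Module
open scoped ContDiff RealInnerProductSpace

noncomputable section

namespace Pool.Agent.Lib.MP_ccbbf6_gt.L4.ORI

open Geo

variable {n : ℕ} {M : Type*} [MetricSpace M] [CompactSpace M] (𝒜 : SDist n M)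

/-- two unit vectors in a plane orthogonal to the same vector agree up to the sign -/
theorem perp_pm {V : Submodule ℝ (Eu n)} (hV : finrank ℝ V = 2) {v a b : Eu n} (hv : v ≠ 0) (hvV : v ∈ V) (ha : a ∈ V)
    (ha1 : ‖a‖ = 1) (hva : ⟪v, a⟫ = 0) (hb : b ∈ V) (hb1 : ‖b‖ = 1) (hvb : ⟪v, b⟫ = 0) : b = ⟪a, b⟫ • a := by
  obtain ⟨c, hcV, hc1, hvc, hc⟩ := exists_perp hV hv hvV
  have hvv : ⟪v, v⟫ ≠ 0 := by rw [real_inner_self_eq_norm_sq]; exact pow_ne_zero 2 (norm_ne_zero_iff.mpr hv)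
  have key : ∀ x ∈ V, ⟪v, x⟫ = 0 → ∃ t : ℝ, x = t • c := by
    intro x hx hvx
    obtain ⟨s, t, h⟩ := hc x hx
    have h1 : ⟪v, x⟫ = s * ⟪v, v⟫ := by
      rw [h, inner_add_right, real_inner_smul_right, real_inner_smul_right, hvc]; ring
    have hs : s = 0 := by
      rw [hvx] at h1
      exact (mul_eq_zero.mp h1.symm).resolve_right hvv
    exact ⟨t, by rw [h, hs, zero_smul, zero_add]⟩
  obtain ⟨s, hs⟩ := key a ha hva
  obtain ⟨t, ht⟩ := key b hb hvb
  have hcc : ⟪c, c⟫ = 1 := by rw [real_inner_self_eq_norm_sq, hc1]; norm_num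
  have h1 : ⟪a, a⟫ = 1 := by rw [real_inner_self_eq_norm_sq, ha1]; norm_num
  rw [hs, real_inner_smul_left, real_inner_smul_right, hcc] at h1
  rw [hs, ht, real_inner_smul_left, real_inner_smul_right, hcc, smul_smul]
  congr 1
  linear_combination (-t) * h1

open Classical in
/-- a unit vector of `V v` orthogonal to `v` -/
def px (V : Eu n → Submodule ℝ (Eu n)) (v : Eu n) : Eu n :=
  if h : ∃ a ∈ V v, ‖a‖ = 1 ∧ ⟪v, a⟫ = 0 then h.choose else 0

/-- the projection on the line orthogonal to `v` in `V v` -/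
def pp (V : Eu n → Submodule ℝ (Eu n)) (v : Eu n) : Eu n →L[ℝ] Eu n := (innerSL ℝ (px V v)).smulRight (px V v)

theorem px_spec {V : Submodule ℝ (Eu n)} {W : Eu n → Submodule ℝ (Eu n)} (hV : finrank ℝ V = 2) {v : Eu n}
    (hv : v ≠ 0) (hvV : v ∈ V) (hW : W v = V) : px W v ∈ W v ∧ ‖px W v‖ = 1 ∧ ⟪v, px W v⟫ = 0 := by
  have h : ∃ a ∈ W v, ‖a‖ = 1 ∧ ⟪v, a⟫ = 0 := by
    obtain ⟨a, h1, h2, h3, -⟩ := exists_perp hV hv hvV
    exact ⟨a, by rw [hW]; exact h1, h2, h3⟩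
  unfold px
  rw [dif_pos h]
  exact h.choose_spec

theorem pp_eq {W : Eu n → Submodule ℝ (Eu n)} {v a : Eu n} (hV : finrank ℝ (W v) = 2) (hv : v ≠ 0) (hvV : v ∈ W v)
    (ha : a ∈ W v) (ha1 : ‖a‖ = 1) (hva : ⟪v, a⟫ = 0) : pp W v = (innerSL ℝ a).smulRight a := by
  obtain ⟨h1, h2, h3⟩ := px_spec hV hv hvV rfl
  have h4 := perp_pm hV hv hvV h1 h2 h3 ha ha1 hva
  ext1 x
  show ⟪px W v, x⟫ • px W v = ⟪a, x⟫ • a
  have h5 : ⟪a, a⟫ = 1 := by rw [real_inner_self_eq_norm_sq, ha1]; norm_num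
  obtain ⟨t, ht⟩ : ∃ t, t = ⟪px W v, a⟫ := ⟨_, rfl⟩
  rw [← ht] at h4
  have h6 : ⟪px W v, px W v⟫ = 1 := by rw [real_inner_self_eq_norm_sq, h2]; norm_num
  have h7 : t * t = 1 := by
    rw [h4, real_inner_smul_left, real_inner_smul_right, h6] at h5
    linarith
  rw [h4, real_inner_smul_left, smul_smul]
  congr 1
  linear_combination (-⟪px W v, x⟫) * h7

/-- rotation of a quarter turn in the plane -/
def rot2 : Eu 2 →L[ℝ] Eu 2 :=
  LinearMap.toContinuousLinearMap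
    { toFun := fun v => !₂[-v 1, v 0]
      map_add' := fun x y => by ext i; fin_cases i <;> simp [add_comm]
      map_smul' := fun r x => by ext i; fin_cases i <;> simp }

theorem rot2_apply (v : Eu 2) : rot2 v = !₂[-v 1, v 0] := rfl

theorem inner2 (v w : Eu 2) : ⟪v, w⟫ = v 0 * w 0 + v 1 * w 1 := by
  rw [PiLp.inner_apply, Fin.sum_univ_two]
  simp only [RCLike.inner_apply, conj_trivial]
  ring

theorem norm2 (v : Eu 2) : ‖v‖ ^ 2 = v 0 ^ 2 + v 1 ^ 2 := by
  rw [← real_inner_self_eq_norm_sq, inner2]; ring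

theorem inner_rot2 (v : Eu 2) : ⟪v, rot2 v⟫ = 0 := by
  rw [inner2, rot2_apply]; simp; ring

theorem norm_rot2 (v : Eu 2) : ‖rot2 v‖ = ‖v‖ := by
  have h : ‖rot2 v‖ ^ 2 = ‖v‖ ^ 2 := by
    rw [norm2, norm2, rot2_apply]; simp; ring
  exact (sq_eq_sq₀ (norm_nonneg _) (norm_nonneg _)).mp h

/-- a continuous unit section of the line field -/
theorem exists_sec {W : Eu n → Submodule ℝ (Eu n)} (hn : 2 ≤ n) (hV : ∀ v, v ≠ 0 → finrank ℝ (W v) = 2)
    (hself : ∀ v, v ∈ W v) (hc : ContinuousOn (pp W) (sphere 0 1)) :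
    ∃ e : Eu n → Eu n, ContinuousOn e (sphere 0 1) ∧ ∀ v, ‖v‖ = 1 → e v ∈ W v ∧ ‖e v‖ = 1 ∧ ⟪v, e v⟫ = 0 := by
  have hne : ∀ v : Eu n, ‖v‖ = 1 → v ≠ 0 := by
    intro v hv h
    rw [h, norm_zero] at hv
    exact zero_ne_one hv
  rcases (show n = 2 ∨ 3 ≤ n by omega) with h2 | h3
  · subst h2
    refine ⟨rot2, rot2.continuous.continuousOn, fun v hv => ⟨?_, by rw [norm_rot2, hv], inner_rot2 v⟩⟩
    have h1 : W v = ⊤ := Submodule.eq_top_of_finrank_eq (by rw [hV v (hne v hv), finrank_euclideanSpace_fin])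
    rw [h1]
    exact Submodule.mem_top
  · have hP : LineP (pp W) := fun v hv => by
      obtain ⟨h1, h2, h4⟩ := px_spec (hV v (hne v hv)) (hne v hv) (hself v) rfl
      exact ⟨px W v, h2, fun x => rfl⟩
    obtain ⟨e, he, he2⟩ := exists_section (by rw [finrank_euclideanSpace_fin]; exact h3) hP hc
    refine ⟨e, he, fun v hv => ?_⟩
    obtain ⟨h1, h2, h4⟩ := px_spec (hV v (hne v hv)) (hne v hv) (hself v) rfl
    obtain ⟨h5, h6⟩ := he2 v hv
    have h7 : e v = ⟪px W v, e v⟫ • px W v := h6.symm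
    refine ⟨?_, h5, ?_⟩
    · rw [h7]; exact (W v).smul_mem _ h1
    · rw [h7, real_inner_smul_right, h4, mul_zero]

/-- from the local smooth choices to a smooth section -/
theorem exists_gcf' {W : Eu n → Submodule ℝ (Eu n)} (hn : 2 ≤ n) (hV : ∀ v, v ≠ 0 → finrank ℝ (W v) = 2)
    (hself : ∀ v, v ∈ W v) (hsame : ∀ v w, w ∈ W v → w ≠ 0 → W w = W v)
    (hloc : ∀ v a : Eu n, v ≠ 0 → a ∈ W v → ‖a‖ = 1 → ⟪v, a⟫ = 0 → ∃ k : Eu n → Eu n, ContDiffAt ℝ ∞ k v ∧ k v = a ∧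
      ∀ᶠ w in 𝓝 v, k w ∈ W w ∧ ⟪w, k w⟫ = 0 ∧ ‖k w‖ = 1) :
    ∃ e : Eu n → Eu n, GCF e ∧ ∀ v, v ≠ 0 → e v ∈ W v := by
  have hne : ∀ v : Eu n, ‖v‖ = 1 → v ≠ 0 := by
    intro v hv h
    rw [h, norm_zero] at hv
    exact zero_ne_one hv
  -- continuity of the projection
  have hc : ContinuousOn (pp W) (sphere 0 1) := by
    intro v hv
    rw [mem_sphere_zero_iff_norm] at hv
    obtain ⟨h1, h2, h4⟩ := px_spec (hV v (hne v hv)) (hne v hv) (hself v) rfl
    obtain ⟨k, hk1, hk2, hk3⟩ := hloc v _ (hne v hv) h1 h2 h4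
    refine ContinuousAt.continuousWithinAt ?_
    have h5 : ContinuousAt (fun w => (innerSL ℝ (k w)).smulRight (k w)) v := by
      have h6 : ContinuousAt k v := hk1.continuousAt
      have h7 : Continuous fun x : Eu n => (innerSL ℝ x).smulRight x := by
        have : (fun x : Eu n => (innerSL ℝ x).smulRight x) =
            fun x => ContinuousLinearMap.smulRightL ℝ (Eu n) (Eu n) (innerSL ℝ x) x := rfl
        rw [this]
        fun_prop
      exact ContinuousAt.comp (g := fun x : Eu n => (innerSL ℝ x).smulRight x) h7.continuousAt h6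
    refine h5.congr ?_
    filter_upwards [hk3, isOpen_ne.mem_nhds (hne v hv)] with w h6 h7
    have h7' : w ≠ 0 := h7
    exact (pp_eq (hV w h7') h7' (hself w) h6.1 h6.2.2 h6.2.1).symm
  obtain ⟨e0, he0, he1⟩ := exists_sec hn hV hself hc
  have hnn : ∀ v : Eu n, v ≠ 0 → ‖nrm v‖ = 1 := fun v hv => norm_nrm hv
  have hWn : ∀ v : Eu n, v ≠ 0 → W (nrm v) = W v := by
    intro v hv
    refine hsame _ _ ((W v).smul_mem _ (hself v)) ?_
    intro h
    have := norm_nrm hv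
    rw [h, norm_zero] at this
    exact zero_ne_one this
  -- near unit vectors `e0` is the local choice
  have hkey : ∀ v : Eu n, v ≠ 0 → ContDiffAt ℝ ∞ (fun w => e0 (nrm w)) v := by
    intro v hv
    obtain ⟨h1, h2, h3⟩ := he1 (nrm v) (hnn v hv)
    have hnv : nrm v ≠ 0 := hne _ (hnn v hv)
    obtain ⟨k, hk1, hk2, hk3⟩ := hloc (nrm v) _ hnv h1 h2 h3
    have hnc : ContDiffAt ℝ ∞ (nrm : Eu n → Eu n) v := by
      unfold nrm
      exact ((contDiffAt_norm ℝ hv).inv (norm_ne_zero_iff.mpr hv)).smul contDiffAt_id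
    have h4 : ContDiffAt ℝ ∞ (fun w => k (nrm w)) v := ContDiffAt.comp (g := k) v hk1 hnc
    refine h4.congr_of_eventuallyEq ?_
    -- the sign
    have hcont : ContinuousAt (fun w => ⟪e0 (nrm w), k (nrm w)⟫) v := by
      have h5 : ContinuousWithinAt e0 (sphere 0 1) (nrm v) := he0 _ (by rw [mem_sphere_zero_iff_norm]; exact hnn v hv)
      have h6 : Tendsto (nrm : Eu n → Eu n) (𝓝 v) (𝓝[sphere 0 1] (nrm v)) := by
        refine tendsto_nhdsWithin_iff.mpr ⟨hnc.continuousAt, ?_⟩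
        filter_upwards [isOpen_ne.mem_nhds hv] with w hw
        rw [mem_sphere_zero_iff_norm]
        exact hnn w hw
      have h7 : ContinuousAt (fun w => e0 (nrm w)) v := h5.tendsto.comp h6
      exact h7.inner h4.continuousAt
    have hpos : 0 < ⟪e0 (nrm v), k (nrm v)⟫ := by
      rw [hk2, real_inner_self_eq_norm_sq, h2]; norm_num
    filter_upwards [hcont.eventually (lt_mem_nhds hpos), hnc.continuousAt.eventually hk3, isOpen_ne.mem_nhds hv]
      with w h5 h6 h7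
    have hnw := hnn w h7
    obtain ⟨h8, h9, h10⟩ := he1 (nrm w) hnw
    have hnw0 := hne _ hnw
    have h11 := perp_pm (hV _ hnw0) hnw0 (hself _) h6.1 h6.2.2 h6.2.1 h8 h9 h10
    rw [real_inner_comm] at h5
    have h12 : ⟪k (nrm w), e0 (nrm w)⟫ = 1 := by
      have h13 := h9
      rw [h11, norm_smul, h6.2.2, mul_one, Real.norm_eq_abs, abs_of_pos h5] at h13
      exact h13
    rw [h12, one_smul] at h11
    exact h11
  refine ⟨fun w => e0 (nrm w), ⟨hkey, ?_, ?_, ?_, ?_⟩, ?_⟩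
  · intro v r hr
    show e0 (nrm (r • v)) = e0 (nrm v)
    unfold nrm
    rw [norm_smul, Real.norm_of_nonneg hr.le, mul_inv, smul_smul, mul_right_comm, inv_mul_cancel₀ hr.ne', one_mul]
  · intro v hv
    exact (he1 _ (hnn v hv)).2.1
  · intro v
    show ⟪v, e0 (nrm v)⟫ = 0
    by_cases hv : v = 0
    · rw [hv, inner_zero_left]
    · have h1 := (he1 _ (hnn v hv)).2.2
      unfold nrm at h1 ⊢
      rw [real_inner_smul_left] at h1
      exact (mul_eq_zero.mp h1).resolve_left (inv_ne_zero (norm_ne_zero_iff.mpr hv))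
  · intro v hv θ
    have hv0 := hne v hv
    have hnv : nrm v = v := nrm_of_norm hv
    obtain ⟨h1, h2, h3⟩ := he1 v hv
    show e0 (nrm (cos θ • v + sin θ • e0 (nrm v))) = -sin θ • v + cos θ • e0 (nrm v)
    rw [hnv]
    -- the two curves
    have hγ : ∀ t, ‖arc v (e0 v) t‖ = 1 := fun t => norm_arc hv h2 h3 t
    have hγV : ∀ t, arc v (e0 v) t ∈ W v := fun t =>
      (W v).add_mem ((W v).smul_mem _ (hself v)) ((W v).smul_mem _ h1)
    have hWγ : ∀ t, W (arc v (e0 v) t) = W v := fun t => hsame _ _ (hγV t) (hne _ (hγ t))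
    have hδ : ∀ t, arc v (e0 v) (t + π / 2) = -sin t • v + cos t • e0 v := by
      intro t
      unfold arc
      rw [cos_add_pi_div_two, sin_add_pi_div_two]
    have hperp : ∀ t, ⟪arc v (e0 v) t, arc v (e0 v) (t + π / 2)⟫ = 0 := by
      intro t
      rw [inner_arc hv h2 h3, sub_add_cancel_left, cos_neg, cos_pi_div_two]
    have hval : ∀ t, e0 (arc v (e0 v) t) = ⟪arc v (e0 v) (t + π / 2), e0 (arc v (e0 v) t)⟫ •
        arc v (e0 v) (t + π / 2) := by
      intro t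
      obtain ⟨h4, h5, h6⟩ := he1 _ (hγ t)
      rw [hWγ] at h4
      exact perp_pm (hV v hv0) (hne _ (hγ t)) (hγV t) (hγV _) (hγ _) (hperp t) h4 h5 h6
    have hval2 : ∀ t, ⟪arc v (e0 v) (t + π / 2), e0 (arc v (e0 v) t)⟫ = 1 ∨
        ⟪arc v (e0 v) (t + π / 2), e0 (arc v (e0 v) t)⟫ = -1 := by
      intro t
      have h4 := (he1 _ (hγ t)).2.1
      rw [hval t, norm_smul, hγ, mul_one, Real.norm_eq_abs] at h4
      rcases abs_cases ⟪arc v (e0 v) (t + π / 2), e0 (arc v (e0 v) t)⟫ with h | h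
      · left; linarith
      · right; linarith
    have hcont : Continuous fun t => ⟪arc v (e0 v) (t + π / 2), e0 (arc v (e0 v) t)⟫ := by
      have h4 : Continuous fun t => arc v (e0 v) t := by unfold arc; fun_prop
      have h5 : Continuous fun t => e0 (arc v (e0 v) t) :=
        he0.comp_continuous h4 fun t => by rw [mem_sphere_zero_iff_norm]; exact hγ t
      have h6 : Continuous fun t => arc v (e0 v) (t + π / 2) := by unfold arc; fun_prop
      exact h6.inner h5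
    have h0 : ⟪arc v (e0 v) (0 + π / 2), e0 (arc v (e0 v) 0)⟫ = 1 := by
      rw [hδ, arc_zero, sin_zero, cos_zero, neg_zero, zero_smul, zero_add, one_smul, real_inner_self_eq_norm_sq, h2]
      norm_num
    have hall : ∀ t, ⟪arc v (e0 v) (t + π / 2), e0 (arc v (e0 v) t)⟫ = 1 := by
      intro t
      rcases hval2 t with h | h
      · exact h
      · exfalso
        have hord := (isPreconnected_univ.image _ hcont.continuousOn).ordConnected
        have hA : (-1 : ℝ) ∈ (fun t => ⟪arc v (e0 v) (t + π / 2), e0 (arc v (e0 v) t)⟫) '' univ := ⟨t, mem_univ _, h⟩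
        have hB : (1 : ℝ) ∈ (fun t => ⟪arc v (e0 v) (t + π / 2), e0 (arc v (e0 v) t)⟫) '' univ := ⟨0, mem_univ _, h0⟩
        obtain ⟨s, -, hs⟩ := hord.out hA hB (show (0 : ℝ) ∈ Icc (-1) 1 from ⟨by norm_num, by norm_num⟩)
        rcases hval2 s with h | h
        · simp only [h] at hs; norm_num at hs
        · simp only [h] at hs; norm_num at hs
    have h7 := hval θ
    rw [hall θ, one_smul, hδ] at h7
    have h8 : nrm (cos θ • v + sin θ • e0 v) = arc v (e0 v) θ := nrm_of_norm (hγ θ)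
    rw [h8]
    exact h7
  · intro v hv
    have h1 := (he1 _ (hnn v hv)).1
    rwa [hWn v hv] at h1

/-- ORI1: the oriented great circle fibration at `p` -/
theorem exists_gcf (hn : 2 ≤ n) (hB : Bl M) (hk : 𝒜.HK 1) (p : M) : ∃ e : Eu n → Eu n, GCF e ∧
    ∀ v, ‖v‖ = 1 → 𝒜.gv p (e v) π = 𝒜.gv p v π := by
  obtain ⟨e, he, h⟩ := exists_gcf' (W := 𝒜.PV p) hn (fun v hv => finrank_PV 𝒜 hB hk p hv) (mem_PV_self 𝒜 hB p)
    (fun v w h1 h2 => PV_eq_of_mem 𝒜 hB p h1 h2)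
    (fun v a hv ha ha1 hva => local_perp 𝒜 hB hk p hv ha ha1 hva)
  refine ⟨e, he, fun v hv => ?_⟩
  have hv0 : v ≠ 0 := by
    intro h
    rw [h, norm_zero] at hv
    exact zero_ne_one hv
  have h1 : ‖e v‖ = 1 := he.norm v hv0
  have h2 : e v ≠ 0 := by
    intro h
    rw [h, norm_zero] at h1
    exact zero_ne_one h1
  have h3 := (mem_PV_iff 𝒜 hB p hv0 h2).1 (h v hv0)
  rwa [kc_gv 𝒜 h1 hB, kc_gv 𝒜 hv hB] at h3

end Pool.Agent.Lib.MP_ccbbf6_gt.L4.ORI
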