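import Pool.Agent.Lib.MP_ccbbf6_gt.L4.OriF

/-!
# Level 4, orientation: the global choice of the orientation by an invariant of oriented planes
-/

set_option autoImplicit false
set_option linter.unusedSectionVars false

open Set Filter Topology Metric Real Module
open scoped ContDiff RealInnerProductSpace

noncomputable section

namespace Pool.Agent.Lib.MP_ccbbf6_gt.L4.ORI

open Geo FR

variable {n : ℕ} {M : Type} [MetricSpace M] [CompactSpace M] {𝒜 : SDist n M}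

/-- a function which is constant along the plots is constant along smooth families near a point -/
theorem const_near {Φ : (spD 𝒜).pt → ℝ} (hΦ : ∀ (q : (spD 𝒜).Plot 1) (s t : V 1), Φ (q.1 s) = Φ (q.1 t))
    {E : Type*} [NormedAddCommGroup E] [NormedSpace ℝ E] {σ σ' : E → Gs M} {u₀ : E}
    (h : ∀ᶠ u in 𝓝 u₀, SmGA 𝒜 σ u ∧ SmGA 𝒜 σ' u ∧ Dp 𝒜 (σ u) (σ' u)) :
    ∀ᶠ u in 𝓝 u₀, ∀ hD : Dp 𝒜 (σ u) (σ' u), Φ ⟨(σ u, σ' u), hD⟩ = Φ ⟨(σ u₀, σ' u₀), h.self_of_nhds.2.2⟩ := by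
  obtain ⟨δ, hδ, hball⟩ := Metric.eventually_nhds_iff_ball.mp h
  filter_upwards [Metric.ball_mem_nhds u₀ hδ] with u hu hD
  -- the path
  let γ : V 1 → E := fun s => u₀ + Real.smoothTransition (s 0) • (u - u₀)
  have hγ : ContDiff ℝ ∞ γ := by
    have h1 : ContDiff ℝ ∞ fun s : V 1 => Real.smoothTransition (s 0) :=
      Real.smoothTransition.contDiff.comp (contDiff_apply ℝ ℝ (0 : Fin 1))
    exact contDiff_const.add (h1.smul contDiff_const)
  have hγb : ∀ s, γ s ∈ ball u₀ δ := by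
    intro s
    rw [mem_ball, dist_eq_norm]
    show ‖u₀ + Real.smoothTransition (s 0) • (u - u₀) - u₀‖ < δ
    rw [add_sub_cancel_left, norm_smul, Real.norm_of_nonneg (Real.smoothTransition.nonneg _)]
    rw [mem_ball, dist_eq_norm] at hu
    have h1 := Real.smoothTransition.le_one (s 0)
    have h2 := Real.smoothTransition.nonneg (s 0)
    have h3 := norm_nonneg (u - u₀)
    nlinarith
  let q : (spD 𝒜).Plot 1 := ⟨fun s => ⟨(σ (γ s), σ' (γ s)), (hball _ (hγb s)).2.2⟩,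
    smG_of fun s => (hball _ (hγb s)).1.comp (σ := σ) hγ.contDiffAt,
    smG_of fun s => (hball _ (hγb s)).2.1.comp (σ := σ') hγ.contDiffAt⟩
  have h1 := hΦ q (fun _ => 1) (fun _ => 0)
  have e1 : γ (fun _ => 1) = u := by
    show u₀ + Real.smoothTransition 1 • (u - u₀) = u
    rw [Real.smoothTransition.one_of_one_le le_rfl, one_smul, add_sub_cancel]
  have e0 : γ (fun _ => 0) = u₀ := by
    show u₀ + Real.smoothTransition 0 • (u - u₀) = u₀
    rw [Real.smoothTransition.zero_of_nonpos le_rfl, zero_smul, add_zero]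
  have q1 : q.1 (fun _ => 1) = ⟨(σ u, σ' u), hD⟩ := Subtype.ext (by
    show (σ (γ fun _ => 1), σ' (γ fun _ => 1)) = (σ u, σ' u)
    rw [e1])
  have q0 : q.1 (fun _ => 0) = ⟨(σ u₀, σ' u₀), h.self_of_nhds.2.2⟩ := Subtype.ext (by
    show (σ (γ fun _ => 0), σ' (γ fun _ => 0)) = (σ u₀, σ' u₀)
    rw [e0])
  rw [q1, q0] at h1
  exact h1

/-- the global choice -/
theorem exists_rot (hB : Bl M) (hk : 𝒜.HK 1) {Φ : (spD 𝒜).pt → ℝ}
    (hΦ : ∀ (q : (spD 𝒜).Plot 1) (s t : V 1), Φ (q.1 s) = Φ (q.1 t))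
    (hneg : ∀ (c c' : Gs M) (h : Dp 𝒜 c c') (h' : Dp 𝒜 c (rev c')), Φ ⟨(c, rev c'), h'⟩ = -Φ ⟨(c, c'), h⟩)
    (hcon : ∀ P : Gs M → Prop, (∀ (q : (spG 𝒜).Plot 1) (s t : V 1), P (q.1 s) → P (q.1 t)) → ∀ y y', P y → P y')
    {b : ℝ} (hb : b ≠ 0) {c₀ c₀' : Gs M} (h₀ : Dp 𝒜 c₀ c₀') (hΦ₀ : Φ ⟨(c₀, c₀'), h₀⟩ = b) :
    ∃ ρ : ℝ → Gs M → Gs M, Rot 𝒜 ρ ∧ (∀ c, ∃ h : Dp 𝒜 c (ρ (π / 2) c), Φ ⟨(c, ρ (π / 2) c), h⟩ = b) ∧
      (∀ c c' (h : Dp 𝒜 c c'), Φ ⟨(c, c'), h⟩ = b → ∀ θ, ρ θ c = rr 𝒜 hB θ c c') := by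
  -- the absolute value is constant
  have habs : ∀ c c' (h : Dp 𝒜 c c'), |Φ ⟨(c, c'), h⟩| = |b| := by
    have key := hcon (fun c => ∀ c' (h : Dp 𝒜 c c'), |Φ ⟨(c, c'), h⟩| = |b|) ?_ c₀
    · intro c
      refine key c ?_
      intro c' h
      rcases Dp_pm hB hk h₀ h with h1 | h1
      · subst h1; rw [hΦ₀]
      · subst h1; rw [hneg c₀ c₀' h₀, hΦ₀, abs_neg]
    · intro q s t hs
      -- the function along the plot
      obtain ⟨g, hg⟩ : ∃ g : V 1 → ℝ, ∀ s c' (h : Dp 𝒜 (q.1 s) c'), |Φ ⟨(q.1 s, c'), h⟩| = g s := by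
        have h1 : ∀ s, ∃ r : ℝ, ∀ c' (h : Dp 𝒜 (q.1 s) c'), |Φ ⟨(q.1 s, c'), h⟩| = r := by
          intro s
          obtain ⟨c', hc'⟩ := exists_Dp hB hk (q.1 s)
          refine ⟨|Φ ⟨(q.1 s, c'), hc'⟩|, fun c'' h => ?_⟩
          rcases Dp_pm hB hk hc' h with h1 | h1
          · subst h1; rfl
          · subst h1; rw [hneg _ c' hc', abs_neg]
        choose g hg using h1
        exact ⟨g, hg⟩
      have hloc : IsLocallyConstant g := by
        rw [IsLocallyConstant.iff_eventually_eq]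
        intro s₀
        obtain ⟨c', hc'⟩ := exists_Dp hB hk (q.1 s₀)
        obtain ⟨σ', h1, h2⟩ := local_D hB hk (σ := q.1) q.2 s₀ hc'
        have h3 : ∀ᶠ u in 𝓝 s₀, SmGA 𝒜 q.1 u ∧ SmGA 𝒜 σ' u ∧ Dp 𝒜 (q.1 u) (σ' u) := by
          filter_upwards [h2] with u hu
          exact ⟨SmG.at q.2 u, hu.1, hu.2⟩
        filter_upwards [const_near hΦ h3, h3] with u h4 h5
        rw [← hg u (σ' u) h5.2.2, ← hg s₀ (σ' s₀) h3.self_of_nhds.2.2, h4 h5.2.2]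
      have hconst : g s = g t := hloc.apply_eq_of_preconnectedSpace s t
      intro c' h
      obtain ⟨d, hd⟩ := exists_Dp hB hk (q.1 s)
      rw [hg t c' h, ← hconst, ← hg s d hd, hs d hd]
  -- the choice
  have hex : ∀ c : Gs M, ∃ c', ∃ h : Dp 𝒜 c c', Φ ⟨(c, c'), h⟩ = b := by
    intro c
    obtain ⟨c', hc'⟩ := exists_Dp hB hk c
    rcases abs_eq_abs.mp (habs c c' hc') with h1 | h1
    · exact ⟨c', hc', h1⟩
    · exact ⟨rev c', hc'.rev_right hB, by rw [hneg c c' hc', h1, neg_neg]⟩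
  choose e he hΦe using hex
  have huniq : ∀ c c' (h : Dp 𝒜 c c'), Φ ⟨(c, c'), h⟩ = b → c' = e c := by
    intro c c' h h1
    rcases Dp_pm hB hk (he c) h with h2 | h2
    · exact h2
    · subst h2
      rw [hneg c (e c) (he c), hΦe] at h1
      exfalso
      apply hb
      linarith
  have hsm : ∀ {E : Type} [NormedAddCommGroup E] [NormedSpace ℝ E] (σ : E → Gs M), SmG 𝒜 σ → ∀ u,
      SmGA 𝒜 (fun v => e (σ v)) u := by
    intro E _ _ σ hσ u₀
    obtain ⟨σ', h1, h2⟩ := local_D hB hk hσ u₀ (he (σ u₀))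
    have h3 : ∀ᶠ u in 𝓝 u₀, SmGA 𝒜 σ u ∧ SmGA 𝒜 σ' u ∧ Dp 𝒜 (σ u) (σ' u) := by
      filter_upwards [h2] with u hu
      exact ⟨SmG.at hσ u, hu.1, hu.2⟩
    refine h2.self_of_nhds.1.congr ?_
    filter_upwards [const_near hΦ h3, h3] with u h4 h5
    refine (huniq (σ u) (σ' u) h5.2.2 ?_).symm
    rw [h4 h5.2.2]
    have h6 : ∀ (c' : Gs M) (h : Dp 𝒜 (σ u₀) c'), c' = e (σ u₀) → Φ ⟨(σ u₀, c'), h⟩ = b := by
      intro c' h h7
      subst h7
      exact hΦe _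
    exact h6 _ _ h1
  -- invariance under the rotation
  have hinv : ∀ c (θ : ℝ), e (rr 𝒜 hB θ c (e c)) = rr 𝒜 hB (θ + π / 2) c (e c) := by
    intro c θ
    refine (huniq _ _ (rr_Dp hB (he c) θ) ?_).symm
    let q : (spD 𝒜).Plot 1 := ⟨fun s => aD hB ⟨(c, e c), he c⟩ (s 0 * θ), by
      constructor
      · exact smG_of fun u => smGA_rr hB ⟨smAt_const _ _, smAt_const _ _⟩ ⟨smAt_const _ _, smAt_const _ _⟩
          (Eventually.of_forall fun _ => he c) ((contDiff_apply ℝ ℝ (0 : Fin 1)).mul contDiff_const).contDiffAt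
      · exact smG_of fun u => smGA_rr hB ⟨smAt_const _ _, smAt_const _ _⟩ ⟨smAt_const _ _, smAt_const _ _⟩
          (Eventually.of_forall fun _ => he c)
          (((contDiff_apply ℝ ℝ (0 : Fin 1)).mul contDiff_const).add contDiff_const).contDiffAt⟩
    have h1 := hΦ q (fun _ => 1) (fun _ => 0)
    have e1 : q.1 (fun _ => 1) = ⟨(rr 𝒜 hB θ c (e c), rr 𝒜 hB (θ + π / 2) c (e c)), rr_Dp hB (he c) θ⟩ :=
      Subtype.ext (by
        show (rr 𝒜 hB (1 * θ) c (e c), rr 𝒜 hB (1 * θ + π / 2) c (e c)) = _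
        rw [one_mul])
    have e0 : q.1 (fun _ => 0) = ⟨(c, e c), he c⟩ := Subtype.ext (by
        show (rr 𝒜 hB (0 * θ) c (e c), rr 𝒜 hB (0 * θ + π / 2) c (e c)) = _
        rw [zero_mul, zero_add, rr_zero hB (he c), rr_half hB (he c)])
    rw [e1, e0, hΦe] at h1
    exact h1
  refine ⟨fun θ c => rr 𝒜 hB θ c (e c), ?_, ?_, ?_⟩
  · refine ⟨?_, ?_, ?_, ?_, ?_, ?_, ?_, ?_⟩
    · intro E _ _ σ hσ
      refine smG_of fun z => ?_
      exact smGA_rr hB ((SmG.at hσ z.2).comp (f := Prod.snd) contDiffAt_snd)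
        ((hsm σ hσ z.2).comp (f := Prod.snd) contDiffAt_snd) (Eventually.of_forall fun v => he _) contDiffAt_fst
    · exact fun c => rr_zero hB (he c)
    · intro a b c
      show rr 𝒜 hB a (rr 𝒜 hB b c (e c)) (e (rr 𝒜 hB b c (e c))) = rr 𝒜 hB (a + b) c (e c)
      rw [hinv, rr_add hB (he c)]
    · exact fun θ c => rr_foot hB _ _ _
    · exact fun θ c => rr_top hB (he c) θ
    · exact fun c => rr_pi hB (he c)
    · intro c
      show ⟪𝒜.vel c.1 0, 𝒜.vel (rr 𝒜 hB (π / 2) c (e c)).1 0⟫ = 0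
      rw [rr_half hB (he c)]
      exact (he c).2.2
    · intro θ c
      show 𝒜.vel (rr 𝒜 hB θ c (e c)).1 0 = cos θ • 𝒜.vel c.1 0 + sin θ • 𝒜.vel (rr 𝒜 hB (π / 2) c (e c)).1 0
      rw [rr_vel hB (he c), rr_half hB (he c)]
      rfl
  · intro c
    have h1 : rr 𝒜 hB (π / 2) c (e c) = e c := rr_half hB (he c)
    refine ⟨by
      show Dp 𝒜 c (rr 𝒜 hB (π / 2) c (e c))
      rw [h1]; exact he c, ?_⟩
    have h2 : ∀ (c' : Gs M) (h : Dp 𝒜 c c'), c' = e c → Φ ⟨(c, c'), h⟩ = b := by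
      intro c' h h7
      subst h7
      exact hΦe _
    exact h2 _ _ h1
  · intro c c' h h1 θ
    show rr 𝒜 hB θ c (e c) = rr 𝒜 hB θ c c'
    rw [huniq c c' h h1]

end Pool.Agent.Lib.MP_ccbbf6_gt.L4.ORI
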