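import Pool.Agent.Lib.MP_ccbbf6_gt.Flow.Open
import Pool.Agent.Lib.MP_ccbbf6_gt.L4.CO0
import Pool.Agent.Lib.MP_ccbbf6_gt.L4.PO1
import Pool.Agent.Lib.MP_ccbbf6_gt.L4.PO1a

/-!
# PO2: the flow of the geodesic field plus `sin θ` times the rotation field (Level 4, push-off)
-/

set_option autoImplicit false
set_option linter.unusedSectionVars false

open Set Filter Topology Metric Real
open scoped ContDiff RealInnerProductSpace

noncomputable section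

namespace Pool.Agent.Lib.MP_ccbbf6_gt.L4

open Geo

theorem PO.two_var {G : Type*} [NormedAddCommGroup G] [NormedSpace ℝ G] {g : ℝ × ℝ → G} {A B : G}
    (hg : DifferentiableAt ℝ g (0, 0)) (h1 : HasDerivAt (fun s => g (s, 0)) A 0)
    (h2 : HasDerivAt (fun t => g (0, t)) B 0) (k : ℝ) : HasDerivAt (fun s => g (s, k * s)) (A + k • B) 0 := by
  have e1 : HasDerivAt (fun s : ℝ => (s, (0 : ℝ))) ((1 : ℝ), (0 : ℝ)) 0 := (hasDerivAt_id 0).prodMk (hasDerivAt_const 0 0)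
  have e2 : HasDerivAt (fun s : ℝ => ((0 : ℝ), s)) ((0 : ℝ), (1 : ℝ)) 0 := (hasDerivAt_const 0 0).prodMk (hasDerivAt_id 0)
  have e3 : HasDerivAt (fun s : ℝ => (s, k * s)) ((1 : ℝ), k) 0 := by
    have := (hasDerivAt_id (0 : ℝ)).prodMk ((hasDerivAt_id (0 : ℝ)).const_mul k)
    simpa using this
  have f1 := HasFDerivAt.comp_hasDerivAt (l := g) (f := fun s : ℝ => (s, (0 : ℝ))) 0 hg.hasFDerivAt e1
  have f2 := HasFDerivAt.comp_hasDerivAt (l := g) (f := fun s : ℝ => ((0 : ℝ), s)) 0 hg.hasFDerivAt e2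
  have hg' : HasFDerivAt g (fderiv ℝ g (0, 0)) (0, k * 0) := by rw [mul_zero]; exact hg.hasFDerivAt
  have f3 := HasFDerivAt.comp_hasDerivAt (l := g) (f := fun s : ℝ => (s, k * s)) 0 hg' e3
  have a1 : fderiv ℝ g (0, 0) (1, 0) = A := f1.unique h1
  have a2 : fderiv ℝ g (0, 0) (0, 1) = B := f2.unique h2
  have a3 : ((1 : ℝ), k) = (1, 0) + k • ((0 : ℝ), (1 : ℝ)) := by ext <;> simp
  rw [a3, map_add, map_smul, a1, a2] at f3
  exact f3

variable {n : ℕ} {M : Type*} [MetricSpace M] [CompactSpace M] {𝒜 : SDist n M}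

theorem smGAt_const {E : Type*} [NormedAddCommGroup E] [NormedSpace ℝ E] (c : Gs M) (u : E) :
    SmGAt 𝒜 (fun _ : E => c) u := ⟨smAt_const _ _, smAt_const _ _⟩

section

variable [Nonempty (Gs M)] (e : Emb n 𝒜)

/-- the geodesic field -/
def Emb.FA (y : e.Q) : e.Q := deriv (fun s => e.EE (shift s (e.RR y))) 0

/-- the rotation field -/
def Emb.FB (ρ : ℝ → Gs M → Gs M) (y : e.Q) : e.Q := deriv (fun s => e.EE (ρ s (e.RR y))) 0

theorem Emb.smooth_FA (hB : Bl M) {y : e.Q} (hy : y ∈ e.UU) : ContDiffAt ℝ ∞ e.FA y := by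
  have h1 : SmGAt 𝒜 (fun z : e.Q × ℝ => e.RR z.1) (y, 0) :=
    SmGAt.comp (σ := e.RR) (f := fun z : e.Q × ℝ => z.1) (v := (y, 0)) (e.smG_RR hB hy) contDiffAt_fst
  have h2 := h1.shift hB (r := fun z : e.Q × ℝ => z.2) contDiffAt_snd
  exact PO.contDiffAt_deriv2' (g := fun z : e.Q × ℝ => e.EE (shift z.2 (e.RR z.1))) (e.smooth_EE h2)

variable {ρ : ℝ → Gs M → Gs M}

theorem Emb.smooth_FB (hB : Bl M) (hR : Rot 𝒜 ρ) {y : e.Q} (hy : y ∈ e.UU) : ContDiffAt ℝ ∞ (e.FB ρ) y := by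
  have h1 : SmGAt 𝒜 (fun z : e.Q × ℝ => e.RR z.1) (y, 0) :=
    SmGAt.comp (σ := e.RR) (f := fun z : e.Q × ℝ => z.1) (v := (y, 0)) (e.smG_RR hB hy) contDiffAt_fst
  have h2 := h1.rot e hB hR (θ := fun z : e.Q × ℝ => z.2) contDiffAt_snd
  exact PO.contDiffAt_deriv2' (g := fun z : e.Q × ℝ => e.EE (ρ z.2 (e.RR z.1))) (e.smooth_EE h2)

/-- the image of the curve `shift s (ρ (k s) c)` -/
theorem Emb.curve (hB : Bl M) (hR : Rot 𝒜 ρ) (c : Gs M) (k : ℝ) :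
    HasDerivAt (fun s => e.EE (shift s (ρ (k * s) c))) (e.FA (e.EE c) + k • e.FB ρ (e.EE c)) 0 := by
  have h1 : ∀ z : ℝ × ℝ, SmGAt 𝒜 (fun z : ℝ × ℝ => shift z.1 (ρ z.2 c)) z := fun z =>
    ((smGAt_const c z).rot e hB hR (θ := fun z : ℝ × ℝ => z.2) contDiffAt_snd).shift hB contDiffAt_fst
  have h2 := e.smooth_EE (h1 (0, 0))
  have h3 : DifferentiableAt ℝ (fun z : ℝ × ℝ => e.EE (shift z.1 (ρ z.2 c))) (0, 0) := h2.differentiableAt (by simp)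
  refine PO.two_var (g := fun z : ℝ × ℝ => e.EE (shift z.1 (ρ z.2 c))) h3 ?_ ?_ k
  · have h4 : ContDiffAt ℝ ∞ (fun s : ℝ => e.EE (shift s c)) 0 :=
      e.smooth_EE ((smGAt_const c (0 : ℝ)).shift hB (r := fun s => s) contDiffAt_id)
    have h5 := (h4.differentiableAt (by simp)).hasDerivAt
    simp only [hR.zero]
    unfold Emb.FA
    simp only [e.RR_EE hB]
    exact h5
  · have h4 : ContDiffAt ℝ ∞ (fun s : ℝ => e.EE (ρ s c)) 0 :=
      e.smooth_EE ((smGAt_const c (0 : ℝ)).rot e hB hR (θ := fun s => s) contDiffAt_id)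
    have h5 := (h4.differentiableAt (by simp)).hasDerivAt
    simp only [shift_zero]
    unfold Emb.FB
    simp only [e.RR_EE hB]
    exact h5

/-- derivative of a function on the ambient space along the curve -/
theorem Emb.dir (hB : Bl M) (hR : Rot 𝒜 ρ) (c : Gs M) (k : ℝ) {G : Type*} [NormedAddCommGroup G] [NormedSpace ℝ G]
    {h : e.Q → G} (hh : DifferentiableAt ℝ h (e.EE c)) :
    HasDerivAt (fun s => h (e.EE (shift s (ρ (k * s) c)))) (fderiv ℝ h (e.EE c) (e.FA (e.EE c) + k • e.FB ρ (e.EE c))) 0 := by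
  have h0 : e.EE (shift 0 (ρ (k * 0) c)) = e.EE c := by rw [mul_zero, hR.zero, shift_zero]
  have h1 : HasFDerivAt h (fderiv ℝ h (e.EE c)) (e.EE (shift 0 (ρ (k * 0) c))) := by rw [h0]; exact hh.hasFDerivAt
  exact HasFDerivAt.comp_hasDerivAt (l := h) (f := fun s => e.EE (shift s (ρ (k * s) c))) 0 h1 (e.curve hB hR c k)

/-- the projection -/
def Emb.PP (y : e.Q) : e.Q := e.EE (e.RR y)

theorem Emb.smooth_PP (hB : Bl M) {y : e.Q} (hy : y ∈ e.UU) : ContDiffAt ℝ ∞ e.PP y := e.smooth_EE (e.smG_RR hB hy)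

theorem Emb.PP_EE (hB : Bl M) (c : Gs M) : e.PP (e.EE c) = e.EE c := by
  unfold Emb.PP
  rw [e.RR_EE hB]

theorem Emb.FA_PP (hB : Bl M) (y : e.Q) : e.FA (e.PP y) = e.FA y := by
  unfold Emb.FA Emb.PP
  rw [e.RR_EE hB]

theorem Emb.FB_PP (hB : Bl M) (y : e.Q) : e.FB ρ (e.PP y) = e.FB ρ y := by
  unfold Emb.FB Emb.PP
  rw [e.RR_EE hB]

theorem Emb.D_PP (hB : Bl M) (hR : Rot 𝒜 ρ) (c : Gs M) (k : ℝ) :
    fderiv ℝ e.PP (e.EE c) (e.FA (e.EE c) + k • e.FB ρ (e.EE c)) = e.FA (e.EE c) + k • e.FB ρ (e.EE c) := by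
  have h1 : DifferentiableAt ℝ e.PP (e.EE c) := (e.smooth_PP hB (e.EE_mem c)).differentiableAt (by simp)
  have h2 := e.dir hB hR c k h1
  simp only [e.PP_EE hB] at h2
  exact h2.unique (e.curve hB hR c k)

variable (ρ)

/-- the flow in the ambient space -/
structure PFlow (χ : e.Q → ℝ) (Ξ : ℝ → ℝ → e.Q → e.Q) : Prop where
  smooth : ContDiff ℝ ∞ (fun z : (ℝ × ℝ) × e.Q => Ξ z.1.1 z.1.2 z.2)
  zero : ∀ θ y, Ξ 0 θ y = y
  add : ∀ s t θ y, Ξ (s + t) θ y = Ξ s θ (Ξ t θ y)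
  der : ∀ t θ y, HasDerivAt (fun s => Ξ s θ y) (χ (Ξ t θ y) • (e.FA (Ξ t θ y) + sin θ • e.FB ρ (Ξ t θ y))) t
  one : ∀ c, χ (e.EE c) = 1
  bdd : ∃ C, ∀ θ y, ‖χ y • (e.FA y + sin θ • e.FB ρ y)‖ ≤ C

variable {ρ}

theorem exists_pflow (hB : Bl M) (hR : Rot 𝒜 ρ) : ∃ (χ : e.Q → ℝ) (Ξ : ℝ → ℝ → e.Q → e.Q), PFlow e ρ χ Ξ := by
  obtain ⟨χ, hχ, hχ1, hχc, hχs⟩ := PO.exists_cut (isCompact_range e.continuous_EE) e.isOpen_UU
    (range_subset_iff.mpr e.EE_mem)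
  have hA : ContDiff ℝ ∞ (fun y => χ y • e.FA y) := PO.contDiff_cut hχ fun y hy => e.smooth_FA hB (hχs hy)
  have hBB : ContDiff ℝ ∞ (fun y => χ y • e.FB ρ y) := PO.contDiff_cut hχ fun y hy => e.smooth_FB hB hR (hχs hy)
  obtain ⟨CA, hCA⟩ := PO.bounded_cut hχ hχc fun y hy => e.smooth_FA hB (hχs hy)
  obtain ⟨CB, hCB⟩ := PO.bounded_cut hχ hχc fun y hy => e.smooth_FB hB hR (hχs hy)
  have hbd : ∀ θ y, ‖χ y • (e.FA y + sin θ • e.FB ρ y)‖ ≤ CA + CB := by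
    intro θ y
    have h1 : χ y • (e.FA y + sin θ • e.FB ρ y) = χ y • e.FA y + sin θ • (χ y • e.FB ρ y) := by
      rw [smul_add, smul_comm]
    rw [h1]
    refine (norm_add_le _ _).trans (add_le_add (hCA y) ?_)
    rw [norm_smul]
    calc ‖sin θ‖ * ‖χ y • e.FB ρ y‖ ≤ 1 * ‖χ y • e.FB ρ y‖ :=
          mul_le_mul_of_nonneg_right (by rw [Real.norm_eq_abs]; exact abs_sin_le_one θ) (norm_nonneg _)
      _ ≤ CB := by rw [one_mul]; exact hCB y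
  let G : ℝ × e.Q → ℝ × e.Q := fun z => (0, χ z.2 • e.FA z.2 + sin z.1 • (χ z.2 • e.FB ρ z.2))
  have hG : ContDiff ℝ ∞ G := by
    refine contDiff_const.prodMk ((hA.comp contDiff_snd).add ?_)
    exact (Real.contDiff_sin.comp contDiff_fst).smul (hBB.comp contDiff_snd)
  have hGe : ∀ θ y, G (θ, y) = (0, χ y • (e.FA y + sin θ • e.FB ρ y)) := by
    intro θ y
    simp only [G]
    rw [smul_add, smul_comm (sin θ)]
  have hGb : ∀ z, ‖G z‖ ≤ CA + CB := by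
    rintro ⟨θ, y⟩
    rw [hGe, Prod.norm_mk, norm_zero]
    exact max_le ((norm_nonneg _).trans (hbd θ y)) (hbd θ y)
  obtain ⟨Φ, hΦ, hΦ0, hΦd, hΦa⟩ := Pool.Agent.BL.Flow.exists_flow_of_bounded (n := (⊤ : ℕ∞)) (by simp) hG hGb
  have hfst : ∀ t z, (Φ t z).1 = z.1 := by
    intro t z
    have h1 : ∀ t, HasDerivAt (fun s => (Φ s z).1) 0 t := fun t => (hΦd t z).fst
    have h2 := is_const_of_deriv_eq_zero (f := fun s => (Φ s z).1) (fun t => (h1 t).differentiableAt)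
      (fun t => (h1 t).deriv) t 0
    simp only [hΦ0] at h2
    exact h2
  have heq : ∀ t θ y, Φ t (θ, y) = (θ, (Φ t (θ, y)).2) := fun t θ y => Prod.ext (hfst t (θ, y)) rfl
  refine ⟨χ, fun t θ y => (Φ t (θ, y)).2, ⟨?_, ?_, ?_, ?_, ?_, ⟨_, hbd⟩⟩⟩
  · have h1 : ContDiff ℝ ∞ (fun z : (ℝ × ℝ) × e.Q => (z.1.1, (z.1.2, z.2))) := by fun_prop
    exact (hΦ.comp h1).snd
  · intro θ y
    simp only [hΦ0]
  · intro s t θ y
    show (Φ (s + t) (θ, y)).2 = (Φ s (θ, (Φ t (θ, y)).2)).2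
    rw [hΦa]
    exact congrArg (fun z => (Φ s z).2) (heq t θ y)
  · intro t θ y
    have h1 := (hΦd t (θ, y)).snd
    rw [heq t θ y, hGe] at h1
    exact h1
  · intro c
    exact hχ1 _ ⟨c, rfl⟩

variable {e} {χ : e.Q → ℝ} {Ξ : ℝ → ℝ → e.Q → e.Q}

/-- a solution starting on the image stays there for a while -/
theorem PFlow.inv_loc (hB : Bl M) (hR : Rot 𝒜 ρ) (h : PFlow e ρ χ Ξ) (θ : ℝ) (c : Gs M) :
    ∃ ε > 0, ∀ t ∈ Icc (0 : ℝ) ε, Ξ t θ (e.EE c) = e.PP (Ξ t θ (e.EE c)) := by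
  set y0 := e.EE c with hy0
  have hy0U : y0 ∈ e.UU := e.EE_mem c
  have hP := e.smooth_PP hB hy0U
  have hP1 : ContDiffAt ℝ 1 (fderiv ℝ e.PP) y0 := (hP.fderiv_right (m := ∞) (by simp)).of_le (by simp)
  obtain ⟨K, N, hN, hLip⟩ := hP1.exists_lipschitzOnWith
  obtain ⟨C, hC⟩ := h.bdd
  have hPP0 : e.PP y0 = y0 := e.PP_EE hB c
  have hPN : ∀ᶠ y in 𝓝 y0, e.PP y ∈ N := by
    have : e.PP y0 = y0 := hPP0
    exact hP.continuousAt.eventually (by rw [this]; exact hN)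
  have hyc : ∀ t, ContinuousAt (fun s => Ξ s θ y0) t := fun t => (h.der t θ y0).continuousAt
  have hev : ∀ᶠ t in 𝓝 (0 : ℝ), Ξ t θ y0 ∈ e.UU ∧ Ξ t θ y0 ∈ N ∧ e.PP (Ξ t θ y0) ∈ N := by
    have h0 : Ξ 0 θ y0 = y0 := h.zero θ y0
    have h1 : Tendsto (fun s => Ξ s θ y0) (𝓝 0) (𝓝 y0) := by
      have := (hyc 0).tendsto
      rwa [h0] at this
    filter_upwards [h1.eventually (e.isOpen_UU.mem_nhds hy0U), h1.eventually hN, h1.eventually hPN] with t a b c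
    exact ⟨a, b, c⟩
  obtain ⟨ε, hε, hball⟩ := Metric.eventually_nhds_iff.mp hev
  have hI : ∀ t ∈ Icc (0 : ℝ) (ε / 2), Ξ t θ y0 ∈ e.UU ∧ Ξ t θ y0 ∈ N ∧ e.PP (Ξ t θ y0) ∈ N := by
    intro t ht
    refine hball ?_
    rw [Real.dist_eq, sub_zero, abs_of_nonneg ht.1]
    linarith [ht.2]
  refine ⟨ε / 2, by positivity, ?_⟩
  let f : ℝ → e.Q := fun t => Ξ t θ y0 - e.PP (Ξ t θ y0)
  let F : e.Q → e.Q := fun y => χ y • (e.FA y + sin θ • e.FB ρ y)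
  have hd : ∀ t ∈ Icc (0 : ℝ) (ε / 2), HasDerivAt f (F (Ξ t θ y0) - fderiv ℝ e.PP (Ξ t θ y0) (F (Ξ t θ y0))) t := by
    intro t ht
    have h1 : HasFDerivAt e.PP (fderiv ℝ e.PP (Ξ t θ y0)) (Ξ t θ y0) :=
      ((e.smooth_PP hB (hI t ht).1).differentiableAt (by simp)).hasFDerivAt
    exact (h.der t θ y0).sub (HasFDerivAt.comp_hasDerivAt (l := e.PP) (f := fun s => Ξ s θ y0) t h1 (h.der t θ y0))
  have hz := eq_zero_of_abs_deriv_le_mul_abs_self_of_eq_zero_right (f := f)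
    (f' := fun t => F (Ξ t θ y0) - fderiv ℝ e.PP (Ξ t θ y0) (F (Ξ t θ y0))) (K := K * C) (a := 0) (b := ε / 2)
    (fun t ht => (hd t ht).continuousAt.continuousWithinAt)
    (fun t ht => (hd t ⟨ht.1, ht.2.le⟩).hasDerivWithinAt)
    (by simp only [f, h.zero, hPP0, sub_self]) ?_
  · intro t ht
    have := hz t ht
    simp only [f] at this
    exact sub_eq_zero.mp this
  · intro t ht
    obtain ⟨h1, h2, h3⟩ := hI t ⟨ht.1, ht.2.le⟩
    set y := Ξ t θ y0 with hy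
    have e1 : F y = fderiv ℝ e.PP (e.PP y) (F y) := by
      have h4 := e.D_PP hB hR (e.RR y) (sin θ)
      have h5 : e.EE (e.RR y) = e.PP y := rfl
      rw [h5, e.FA_PP hB, e.FB_PP hB] at h4
      simp only [F]
      rw [map_smul, h4]
    have e2 : F y - fderiv ℝ e.PP y (F y) = (fderiv ℝ e.PP (e.PP y) - fderiv ℝ e.PP y) (F y) := by
      rw [sub_apply, ← e1]
    have e3 : ‖fderiv ℝ e.PP (e.PP y) - fderiv ℝ e.PP y‖ ≤ K * ‖y - e.PP y‖ := by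
      have h6 := hLip.dist_le_mul (e.PP y) h3 y h2
      rwa [dist_eq_norm, dist_eq_norm, norm_sub_rev (e.PP y) y] at h6
    have hCy : ‖F y‖ ≤ C := hC θ y
    rw [e2]
    calc ‖(fderiv ℝ e.PP (e.PP y) - fderiv ℝ e.PP y) (F y)‖ ≤ ‖fderiv ℝ e.PP (e.PP y) - fderiv ℝ e.PP y‖ * ‖F y‖ :=
          ContinuousLinearMap.le_opNorm _ _
      _ ≤ (K * ‖y - e.PP y‖) * C := mul_le_mul e3 hCy (norm_nonneg _) (by positivity)
      _ = K * C * ‖f t‖ := by simp only [f]; rw [← hy]; ring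

/-- the image of `Gs M` is invariant -/
theorem PFlow.inv (hB : Bl M) (hR : Rot 𝒜 ρ) (h : PFlow e ρ χ Ξ) (θ : ℝ) (c : Gs M) {T : ℝ} (hT : 0 ≤ T) :
    Ξ T θ (e.EE c) ∈ range e.EE := by
  have hcl : IsClosed (range e.EE) := (isCompact_range e.continuous_EE).isClosed
  have hcont : Continuous (fun t => Ξ t θ (e.EE c)) :=
    continuous_iff_continuousAt.2 fun t => (h.der t θ (e.EE c)).continuousAt
  have key := IsClosed.Icc_subset_of_forall_exists_gt (a := 0) (b := T) (s := {t | Ξ t θ (e.EE c) ∈ range e.EE})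
    ((hcl.preimage hcont).inter isClosed_Icc) (by show Ξ 0 θ (e.EE c) ∈ range e.EE; rw [h.zero]; exact ⟨c, rfl⟩) ?_
  · exact key ⟨hT, le_refl T⟩
  · rintro x ⟨⟨c', hc'⟩, -⟩ y hy
    obtain ⟨ε, hε, hin⟩ := h.inv_loc hB hR θ c'
    have hxy : x < y := hy
    refine ⟨x + min ε (y - x), ?_, ?_⟩
    · have h1 : 0 ≤ min ε (y - x) := le_min hε.le (by linarith)
      have h2 := hin (min ε (y - x)) ⟨h1, min_le_left _ _⟩
      show Ξ (x + min ε (y - x)) θ (e.EE c) ∈ range e.EE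
      rw [add_comm, h.add, ← hc', h2]
      exact ⟨_, rfl⟩
    · have h1 : 0 < min ε (y - x) := lt_min hε (by linarith)
      exact ⟨by linarith, by linarith [min_le_right ε (y - x)]⟩

end

end Pool.Agent.Lib.MP_ccbbf6_gt.L4
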