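import Pool.Agent.Lib.MP_ccbbf6_gt.L4.PO2

/-!
# PO3: the flow on `Gs M`, transport formula, speed formula (Level 4, push-off)
-/

set_option autoImplicit false
set_option linter.unusedSectionVars false

open Set Filter Topology Metric Real
open scoped ContDiff RealInnerProductSpace

noncomputable section

namespace Pool.Agent.Lib.MP_ccbbf6_gt.L4

open Geo

variable {n : ℕ} {M : Type*} [MetricSpace M] [CompactSpace M] {𝒜 : SDist n M} [Nonempty (Gs M)]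

section defs

variable (e : Emb n 𝒜) (Ξ : ℝ → ℝ → e.Q → e.Q)

/-- the flow on `Gs M` -/
def Th (t θ : ℝ) (c : Gs M) : Gs M := e.RR (Ξ t θ (e.EE c))

/-- the push-off, lifted to `Gs M` -/
def Psi (θ : ℝ) (c : Gs M) : Gs M := shift (-π) (Th e Ξ π θ c)

/-- the push-off -/
def CC (θ : ℝ) (c : Gs M) : M := (Th e Ξ π θ c).1 (-π)

theorem Psi_zero (θ : ℝ) (c : Gs M) : (Psi e Ξ θ c).1 0 = CC e Ξ θ c := by
  show (Th e Ξ π θ c).1 (0 + -π) = (Th e Ξ π θ c).1 (-π)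
  rw [zero_add]

end defs

variable {e : Emb n 𝒜} {Ξ : ℝ → ℝ → e.Q → e.Q} {χ : e.Q → ℝ} {ρ : ℝ → Gs M → Gs M}
variable (hB : Bl M) (hR : Rot 𝒜 ρ) (h : PFlow e ρ χ Ξ)

include hB hR h

theorem EE_Th {t : ℝ} (ht : 0 ≤ t) (θ : ℝ) (c : Gs M) : e.EE (Th e Ξ t θ c) = Ξ t θ (e.EE c) := by
  obtain ⟨c', hc'⟩ := h.inv hB hR θ c ht
  unfold Th
  rw [← hc', e.RR_EE hB]

theorem Xi_mem {t : ℝ} (ht : 0 ≤ t) (θ : ℝ) (c : Gs M) : Ξ t θ (e.EE c) ∈ e.UU := by
  rw [← EE_Th hB hR h ht]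
  exact e.EE_mem _

theorem Th_add {s t : ℝ} (ht : 0 ≤ t) (θ : ℝ) (c : Gs M) : Th e Ξ (s + t) θ c = Th e Ξ s θ (Th e Ξ t θ c) := by
  have h1 := EE_Th hB hR h ht θ c
  unfold Th at h1 ⊢
  rw [h1, h.add]

omit hR in
theorem Th_time_zero (θ : ℝ) (c : Gs M) : Th e Ξ 0 θ c = c := by
  unfold Th
  rw [h.zero, e.RR_EE hB]

theorem smooth_Th {E : Type*} [NormedAddCommGroup E] [NormedSpace ℝ E] {σ : E → Gs M} {u : E} (hσ : SmGAt 𝒜 σ u)
    {t θ : E → ℝ} (ht : ContDiffAt ℝ ∞ t u) (hθ : ContDiffAt ℝ ∞ θ u) (h0 : 0 ≤ t u) :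
    SmGAt 𝒜 (fun v => Th e Ξ (t v) (θ v) (σ v)) u := by
  have h1 : ContDiffAt ℝ ∞ (fun v => Ξ (t v) (θ v) (e.EE (σ v))) u :=
    ContDiffAt.comp (g := fun z : (ℝ × ℝ) × e.Q => Ξ z.1.1 z.1.2 z.2) (f := fun v => ((t v, θ v), e.EE (σ v))) u
      h.smooth.contDiffAt ((ht.prodMk hθ).prodMk (e.smooth_EE hσ))
  exact SmGAt.comp (σ := e.RR) (f := fun v => Ξ (t v) (θ v) (e.EE (σ v))) (v := u)
    (e.smG_RR hB (Xi_mem hB hR h h0 (θ u) (σ u))) h1

/-- the curve `Ξ s θ (EE c)` at `s = 0` -/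
theorem flow_curve (θ : ℝ) (c : Gs M) :
    HasDerivAt (fun s => Ξ s θ (e.EE c)) (e.FA (e.EE c) + sin θ • e.FB ρ (e.EE c)) 0 := by
  have h1 := h.der 0 θ (e.EE c)
  rw [h.zero, h.one, one_smul] at h1
  exact h1

/-- **transport formula** -/
theorem transport {F : Type*} [NormedAddCommGroup F] [NormedSpace ℝ F] {f : M → F} {θ a b : ℝ} {c : Gs M} (hb : 0 ≤ b)
    (hf : SmFA 𝒜 f ((Th e Ξ b θ c).1 (a - b))) :
    HasDerivAt (fun b' => f ((Th e Ξ b' θ c).1 (a - b')))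
      (sin θ • deriv (fun τ => f ((ρ τ (Th e Ξ b θ c)).1 (a - b))) 0) b := by
  set cb := Th e Ξ b θ c with hcb
  have hz : Ξ b θ (e.EE c) = e.EE cb := (EE_Th hB hR h hb θ c).symm
  let W : ℝ × e.Q → F := fun w => f ((e.RR w.2).1 (a - (b + w.1)))
  have hW : ContDiffAt ℝ ∞ W (0, e.EE cb) := by
    have h1 : SmGAt 𝒜 (fun w : ℝ × e.Q => e.RR w.2) (0, e.EE cb) :=
      SmGAt.comp (σ := e.RR) (f := fun w : ℝ × e.Q => w.2) (v := (0, e.EE cb)) (e.smG_RR hB (e.EE_mem cb)) contDiffAt_snd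
    have h2 := h1.ev hB (t := fun w : ℝ × e.Q => a - (b + w.1)) (contDiffAt_const.sub (contDiffAt_const.add contDiffAt_fst))
    refine SmFA.comp_to (𝒜 := 𝒜) (g := f) (r := fun w : ℝ × e.Q => (e.RR w.2).1 (a - (b + w.1))) ?_ h2
    simp only [e.RR_EE hB, add_zero]
    exact hf
  have hWd : HasFDerivAt W (fderiv ℝ W (0, e.EE cb)) (0, e.EE cb) := (hW.differentiableAt (by simp)).hasFDerivAt
  -- first curve
  have c1 : HasDerivAt (fun s : ℝ => (s, Ξ s θ (e.EE cb))) ((1 : ℝ), e.FA (e.EE cb) + sin θ • e.FB ρ (e.EE cb)) 0 :=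
    (hasDerivAt_id 0).prodMk (flow_curve hB hR h θ cb)
  have d1 : HasDerivAt (fun s => W (s, Ξ s θ (e.EE cb)))
      (fderiv ℝ W (0, e.EE cb) (1, e.FA (e.EE cb) + sin θ • e.FB ρ (e.EE cb))) 0 := by
    refine HasFDerivAt.comp_hasDerivAt (l := W) (f := fun s : ℝ => (s, Ξ s θ (e.EE cb))) 0 ?_ c1
    rw [h.zero]
    exact hWd
  -- second curve
  have c2 : HasDerivAt (fun s : ℝ => (s, e.EE (shift s (ρ (sin θ * s) cb))))
      ((1 : ℝ), e.FA (e.EE cb) + sin θ • e.FB ρ (e.EE cb)) 0 :=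
    (hasDerivAt_id 0).prodMk (e.curve hB hR cb (sin θ))
  have d2 : HasDerivAt (fun s => W (s, e.EE (shift s (ρ (sin θ * s) cb))))
      (fderiv ℝ W (0, e.EE cb) (1, e.FA (e.EE cb) + sin θ • e.FB ρ (e.EE cb))) 0 := by
    refine HasFDerivAt.comp_hasDerivAt (l := W) (f := fun s : ℝ => (s, e.EE (shift s (ρ (sin θ * s) cb)))) 0 ?_ c2
    rw [mul_zero, hR.zero, shift_zero]
    exact hWd
  have e2 : (fun s => W (s, e.EE (shift s (ρ (sin θ * s) cb)))) = fun s => f ((ρ (sin θ * s) cb).1 (a - b)) := by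
    funext s
    simp only [W, e.RR_EE hB]
    show f ((ρ (sin θ * s) cb).1 (a - (b + s) + s)) = _
    rw [show a - (b + s) + s = a - b by ring]
  rw [e2] at d2
  have hg : DifferentiableAt ℝ (fun τ => f ((ρ τ cb).1 (a - b))) 0 := by
    have h1 := ((smGAt_const cb (0 : ℝ)).rot e hB hR (θ := fun s => s) contDiffAt_id).ev hB (t := fun _ => a - b)
      contDiffAt_const
    have h2 : ContDiffAt ℝ ∞ (fun τ : ℝ => f ((ρ τ cb).1 (a - b))) 0 := by
      refine SmFA.comp_to (𝒜 := 𝒜) (g := f) (r := fun τ : ℝ => (ρ τ cb).1 (a - b)) ?_ h1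
      simp only [hR.zero]
      exact hf
    exact h2.differentiableAt (by simp)
  have d3 : HasDerivAt (fun s => f ((ρ (sin θ * s) cb).1 (a - b))) (sin θ • deriv (fun τ => f ((ρ τ cb).1 (a - b))) 0) 0 := by
    have h1 : HasDerivAt (fun s : ℝ => sin θ * s) (sin θ) 0 := by
      simpa using (hasDerivAt_id (0 : ℝ)).const_mul (sin θ)
    have h2 : HasDerivAt (fun τ => f ((ρ τ cb).1 (a - b))) (deriv (fun τ => f ((ρ τ cb).1 (a - b))) 0) (sin θ * 0) := by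
      rw [mul_zero]
      exact hg.hasDerivAt
    exact h2.scomp (0 : ℝ) h1
  rw [d2.unique d3] at d1
  have e1 : (fun s => W (s, Ξ s θ (e.EE cb))) = fun s => f ((Th e Ξ (s + b) θ c).1 (a - (s + b))) := by
    funext s
    simp only [W]
    rw [Th_add hB hR h hb, ← hcb, add_comm s b]
    rfl
  rw [e1] at d1
  have d4 : HasDerivAt (fun s => f ((Th e Ξ (s + b) θ c).1 (a - (s + b))))
      (sin θ • deriv (fun τ => f ((ρ τ cb).1 (a - b))) 0) (b - b) := by rw [sub_self]; exact d1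
  have d5 := d4.comp_sub_const b b
  simpa using d5

/-- for `θ = 0` the flow is the geodesic flow -/
theorem Th_zero {b : ℝ} (hb : 0 ≤ b) (c : Gs M) : Th e Ξ b 0 c = shift b c := by
  have key : ∀ a : ℝ, (Th e Ξ b 0 c).1 (a - b) = c.1 a := by
    intro a
    have h1 : ∀ b' : ℝ, 0 ≤ b' → HasDerivAt (fun b' => e.i ((Th e Ξ b' 0 c).1 (a - b'))) 0 b' := by
      intro b' hb'
      have h2 := transport hB hR h (f := e.i) (θ := 0) (a := a) (b := b') (c := c) hb' (e.smooth_i _)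
      rwa [sin_zero, zero_smul] at h2
    have h3 := constant_of_has_deriv_right_zero (f := fun b' => e.i ((Th e Ξ b' 0 c).1 (a - b'))) (a := 0) (b := b)
      (fun x hx => (h1 x hx.1).continuousAt.continuousWithinAt) (fun x hx => (h1 x hx.1).hasDerivWithinAt) b ⟨hb, le_refl b⟩
    simp only [Th_time_zero hB h, sub_zero] at h3
    have h4 := congrArg e.r h3
    rwa [e.left, e.left] at h4
  apply Subtype.ext
  funext t
  have h5 := key (t + b)
  rw [add_sub_cancel_right] at h5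
  exact h5

theorem CC_zero (c : Gs M) : CC e Ξ 0 c = c.1 0 := by
  unfold CC
  rw [Th_zero hB hR h Real.pi_pos.le]
  show c.1 (-π + π) = c.1 0
  rw [neg_add_cancel]

theorem Psi_theta_zero (c : Gs M) : Psi e Ξ 0 c = c := by
  unfold Psi
  rw [Th_zero hB hR h Real.pi_pos.le, ← shift_add, neg_add_cancel, shift_zero]

theorem smooth_CC {E : Type*} [NormedAddCommGroup E] [NormedSpace ℝ E] {σ : E → Gs M} {u : E} (hσ : SmGAt 𝒜 σ u)
    {θ : E → ℝ} (hθ : ContDiffAt ℝ ∞ θ u) : SmAt 𝒜 (fun v => CC e Ξ (θ v) (σ v)) u :=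
  (smooth_Th hB hR h hσ (t := fun _ => π) contDiffAt_const hθ Real.pi_pos.le).ev hB (t := fun _ => -π) contDiffAt_const

theorem smooth_Psi {E : Type*} [NormedAddCommGroup E] [NormedSpace ℝ E] {σ : E → Gs M} {u : E} (hσ : SmGAt 𝒜 σ u)
    {θ : E → ℝ} (hθ : ContDiffAt ℝ ∞ θ u) : SmGAt 𝒜 (fun v => Psi e Ξ (θ v) (σ v)) u :=
  (smooth_Th hB hR h hσ (t := fun _ => π) contDiffAt_const hθ Real.pi_pos.le).shift hB (r := fun _ => -π) contDiffAt_const

/-- **speed formula** -/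
theorem speed_formula (θ : ℝ) (c : Gs M) :
    deriv (fun s => 𝒜.ψ (CC e Ξ θ c) (CC e Ξ θ (shift s c))) 0 =
      𝒜.vel (Psi e Ξ θ c).1 0 - sin θ • deriv (fun τ => 𝒜.ψ (CC e Ξ θ c) (CC e Ξ θ (ρ τ c))) 0 := by
  set x := CC e Ξ θ c with hx
  set c' := Th e Ξ π θ c with hc'
  have hπ := Real.pi_pos.le
  have hz : Ξ π θ (e.EE c) = e.EE c' := (EE_Th hB hR h hπ θ c).symm
  have hxc : c'.1 (-π) = x := rfl
  let H : e.Q → Eu n := fun y => 𝒜.ψ x ((e.RR y).1 (-π))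
  have hH : ContDiffAt ℝ ∞ H (e.EE c') := by
    have h1 := (e.smG_RR hB (e.EE_mem c')).ev hB (t := fun _ => -π) contDiffAt_const
    have h2 := h1.2
    simp only [e.RR_EE hB, hxc] at h2
    exact h2
  let K : e.Q → Eu n := fun y => H (Ξ π θ y)
  have hK : ContDiffAt ℝ ∞ K (e.EE c) := by
    have h1 : ContDiffAt ℝ ∞ (fun y => Ξ π θ y) (e.EE c) :=
      ContDiffAt.comp (g := fun z : (ℝ × ℝ) × e.Q => Ξ z.1.1 z.1.2 z.2) (f := fun y : e.Q => ((π, θ), y)) (e.EE c)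
        h.smooth.contDiffAt (contDiffAt_const.prodMk contDiffAt_id)
    refine ContDiffAt.comp (g := H) (f := fun y => Ξ π θ y) (e.EE c) ?_ h1
    rw [hz]
    exact hH
  have hKd := hK.differentiableAt (by simp : (∞ : WithTop ℕ∞) ≠ 0)
  have hHd := hH.differentiableAt (by simp : (∞ : WithTop ℕ∞) ≠ 0)
  -- (b) invariance of the field under the flow
  have hb : fderiv ℝ K (e.EE c) (e.FA (e.EE c) + sin θ • e.FB ρ (e.EE c)) =
      fderiv ℝ H (e.EE c') (e.FA (e.EE c') + sin θ • e.FB ρ (e.EE c')) := by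
    have h1 : HasDerivAt (fun s => K (Ξ s θ (e.EE c))) (fderiv ℝ K (e.EE c) (e.FA (e.EE c) + sin θ • e.FB ρ (e.EE c))) 0 := by
      refine HasFDerivAt.comp_hasDerivAt (l := K) (f := fun s => Ξ s θ (e.EE c)) 0 ?_ (flow_curve hB hR h θ c)
      rw [h.zero]
      exact hKd.hasFDerivAt
    have h2 : HasDerivAt (fun s => H (Ξ s θ (e.EE c'))) (fderiv ℝ H (e.EE c') (e.FA (e.EE c') + sin θ • e.FB ρ (e.EE c'))) 0 := by
      refine HasFDerivAt.comp_hasDerivAt (l := H) (f := fun s => Ξ s θ (e.EE c')) 0 ?_ (flow_curve hB hR h θ c')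
      rw [h.zero]
      exact hHd.hasFDerivAt
    have h3 : (fun s => K (Ξ s θ (e.EE c))) = fun s => H (Ξ s θ (e.EE c')) := by
      funext s
      simp only [K]
      rw [← h.add, add_comm, h.add, hz]
    rw [h3] at h1
    exact h1.unique h2
  -- (a) the curve through `c`
  have ha : HasDerivAt (fun s => 𝒜.ψ x (CC e Ξ θ (shift s (ρ (sin θ * s) c))))
      (fderiv ℝ K (e.EE c) (e.FA (e.EE c) + sin θ • e.FB ρ (e.EE c))) 0 := e.dir hB hR c (sin θ) hKd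
  -- (c) the curve through `c'`
  have hc : HasDerivAt (fun s => 𝒜.ψ x ((ρ (sin θ * s) c').1 (s - π)))
      (fderiv ℝ H (e.EE c') (e.FA (e.EE c') + sin θ • e.FB ρ (e.EE c'))) 0 := by
    have h1 := e.dir hB hR c' (sin θ) hHd
    have h2 : (fun s => H (e.EE (shift s (ρ (sin θ * s) c')))) = fun s => 𝒜.ψ x ((ρ (sin θ * s) c').1 (s - π)) := by
      funext s
      simp only [H, e.RR_EE hB]
      show 𝒜.ψ x ((ρ (sin θ * s) c').1 (-π + s)) = _
      rw [show -π + s = s - π by ring]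
    rwa [h2] at h1
  -- the derivative is the velocity
  have hv : HasDerivAt (fun s => 𝒜.ψ x ((ρ (sin θ * s) c').1 (s - π))) (𝒜.vel (Psi e Ξ θ c).1 0 + sin θ • (0 : Eu n)) 0 := by
    have h1 : SmAt 𝒜 (fun z : ℝ × ℝ => (ρ z.2 c').1 (z.1 - π)) (0, 0) :=
      ((smGAt_const c' ((0 : ℝ), (0 : ℝ))).rot e hB hR (θ := fun z : ℝ × ℝ => z.2) contDiffAt_snd).ev hB
        (t := fun z : ℝ × ℝ => z.1 - π) (contDiffAt_fst.sub contDiffAt_const)
    have h2 : ContDiffAt ℝ ∞ (fun z : ℝ × ℝ => 𝒜.ψ x ((ρ z.2 c').1 (z.1 - π))) (0, 0) := by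
      have h3 := h1.2
      simp only [hR.zero, zero_sub, hxc] at h3
      exact h3
    refine PO.two_var (g := fun z : ℝ × ℝ => 𝒜.ψ x ((ρ z.2 c').1 (z.1 - π))) (h2.differentiableAt (by simp)) ?_ ?_ (sin θ)
    · simp only [hR.zero]
      have h4 := (IsGeo.exists_vel 𝒜 c'.2 (-π)).2
      have h5 : 𝒜.vel (Psi e Ξ θ c).1 0 = 𝒜.vel c'.1 (-π) := by
        have h6 := vel_shift 𝒜 (c := c'.1) (-π) 0
        rw [zero_add] at h6
        exact h6
      rw [h5]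
      have h7 : HasDerivAt (fun t => 𝒜.ψ (c'.1 (-π)) (c'.1 t)) (𝒜.vel c'.1 (-π)) (0 - π) := by
        rw [zero_sub]; exact h4
      exact h7.comp_sub_const 0 π
    · have h4 : ∀ t : ℝ, (ρ t c').1 (0 - π) = x := by
        intro t
        have h5 := (ρ t c').2.closed 𝒜 hB (-π)
        have h6 := c'.2.closed 𝒜 hB (-π)
        rw [show -π + 2 * π = π by ring] at h5 h6
        rw [zero_sub, ← h5, hR.top, h6, hxc]
      simp only [h4]
      exact hasDerivAt_const _ _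
  -- (d) two variables through `c`
  have hd : HasDerivAt (fun s => 𝒜.ψ x (CC e Ξ θ (shift s (ρ (sin θ * s) c))))
      (deriv (fun s => 𝒜.ψ x (CC e Ξ θ (shift s c))) 0 + sin θ • deriv (fun τ => 𝒜.ψ x (CC e Ξ θ (ρ τ c))) 0) 0 := by
    have h1 : SmAt 𝒜 (fun z : ℝ × ℝ => CC e Ξ θ (shift z.1 (ρ z.2 c))) (0, 0) :=
      smooth_CC hB hR h (((smGAt_const c ((0 : ℝ), (0 : ℝ))).rot e hB hR (θ := fun z : ℝ × ℝ => z.2)
        contDiffAt_snd).shift hB contDiffAt_fst) (θ := fun _ => θ) contDiffAt_const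
    have h2 : ContDiffAt ℝ ∞ (fun z : ℝ × ℝ => 𝒜.ψ x (CC e Ξ θ (shift z.1 (ρ z.2 c)))) (0, 0) := by
      have h3 := h1.2
      simp only [hR.zero, shift_zero, ← hx] at h3
      exact h3
    have h4 : DifferentiableAt ℝ (fun z : ℝ × ℝ => 𝒜.ψ x (CC e Ξ θ (shift z.1 (ρ z.2 c)))) (0, 0) :=
      h2.differentiableAt (by simp)
    refine PO.two_var (g := fun z : ℝ × ℝ => 𝒜.ψ x (CC e Ξ θ (shift z.1 (ρ z.2 c)))) h4 ?_ ?_ (sin θ)
    · simp only [hR.zero]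
      have h5 : DifferentiableAt ℝ (fun s : ℝ => 𝒜.ψ x (CC e Ξ θ (shift s c))) 0 := by
        have h6 : HasDerivAt (fun s : ℝ => (s, (0 : ℝ))) ((1 : ℝ), (0 : ℝ)) 0 := (hasDerivAt_id 0).prodMk (hasDerivAt_const 0 0)
        have h7 := HasFDerivAt.comp_hasDerivAt (l := fun z : ℝ × ℝ => 𝒜.ψ x (CC e Ξ θ (shift z.1 (ρ z.2 c))))
          (f := fun s : ℝ => (s, (0 : ℝ))) 0 h4.hasFDerivAt h6
        simp only [Function.comp_def, hR.zero] at h7
        exact h7.differentiableAt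
      exact h5.hasDerivAt
    · simp only [shift_zero]
      have h5 : DifferentiableAt ℝ (fun s : ℝ => 𝒜.ψ x (CC e Ξ θ (ρ s c))) 0 := by
        have h6 : HasDerivAt (fun s : ℝ => ((0 : ℝ), s)) ((0 : ℝ), (1 : ℝ)) 0 := (hasDerivAt_const 0 0).prodMk (hasDerivAt_id 0)
        have h7 := HasFDerivAt.comp_hasDerivAt (l := fun z : ℝ × ℝ => 𝒜.ψ x (CC e Ξ θ (shift z.1 (ρ z.2 c))))
          (f := fun s : ℝ => ((0 : ℝ), s)) 0 h4.hasFDerivAt h6
        simp only [Function.comp_def, shift_zero] at h7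
        exact h7.differentiableAt
      exact h5.hasDerivAt
  have h1 := ha.unique hd
  have h2 := hc.unique hv
  rw [hb, h2, smul_zero, add_zero] at h1
  rw [h1, add_sub_cancel_right]

end Pool.Agent.Lib.MP_ccbbf6_gt.L4
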