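import Pool.Agent.Lib.MP_ccbbf6_gt.L4.PO3
import Pool.Agent.Lib.MP_ccbbf6_gt.L4.PO4a
import Pool.Agent.Lib.MP_ccbbf6_gt.L4.PS

/-!
# PO4: the expansion of the speed (Level 4, push-off)
-/

set_option autoImplicit false
set_option linter.unusedSectionVars false

open Set Filter Topology Metric Real
open scoped ContDiff RealInnerProductSpace

noncomputable section

namespace Pool.Agent.Lib.MP_ccbbf6_gt.L4

open Geo

theorem PO.hasDerivAt_sin_mul {I : ℝ → ℝ} (hI : ContinuousAt I 0) : HasDerivAt (fun t => sin t * I t) (I 0) 0 := by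
  rw [hasDerivAt_iff_tendsto_slope]
  have h1 : Tendsto (slope sin 0) (𝓝[≠] 0) (𝓝 1) := by
    have := hasDerivAt_iff_tendsto_slope.mp (Real.hasDerivAt_sin 0)
    rwa [cos_zero] at this
  have h2 := h1.mul (hI.tendsto.mono_left nhdsWithin_le_nhds)
  rw [one_mul] at h2
  refine h2.congr fun t => ?_
  rw [slope_def_field, slope_def_field, sin_zero]
  ring

variable {n : ℕ} {M : Type*} [MetricSpace M] [CompactSpace M] {𝒜 : SDist n M}

/-- the distance of two smooth maps is smooth -/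
theorem SmAt.dist (hB : Bl M) {E : Type*} [NormedAddCommGroup E] [NormedSpace ℝ E] {x y : E → M} {u : E}
    (hx : SmAt 𝒜 x u) (hy : SmAt 𝒜 y u) (h0 : 0 < Dist.dist (x u) (y u)) (h1 : Dist.dist (x u) (y u) < π) :
    ContDiffAt ℝ ∞ (fun v => Dist.dist (x v) (y v)) u := by
  have h2 := contDiffAt_f 𝒜 hB h0 h1
  have h3 : ContDiffAt ℝ ∞ (fun v => (𝒜.ψ (x u) (x v), 𝒜.ψ (y u) (y v))) u := hx.2.prodMk hy.2
  have h4 : ContDiffAt ℝ ∞ (fun v => 𝒜.f (x u) (y u) (𝒜.ψ (x u) (x v), 𝒜.ψ (y u) (y v))) u := by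
    refine ContDiffAt.comp (g := 𝒜.f (x u) (y u)) (f := fun v => (𝒜.ψ (x u) (x v), 𝒜.ψ (y u) (y v))) u ?_ h3
    rw [𝒜.zero, 𝒜.zero]
    exact h2
  refine h4.congr_of_eventuallyEq ?_
  filter_upwards [hx.1.eventually ((𝒜.ψ (x u)).open_source.mem_nhds (𝒜.mem _)),
    hy.1.eventually ((𝒜.ψ (y u)).open_source.mem_nhds (𝒜.mem _))] with v hv hv'
  unfold SDist.f
  rw [(𝒜.ψ (x u)).left_inv hv, (𝒜.ψ (y u)).left_inv hv']

theorem smF_dist (hB : Bl M) {q x : M} (h0 : 0 < dist q x) (h1 : dist q x < π) : SmFA 𝒜 (fun y => dist q y) x := by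
  have hs : SmAt 𝒜 (fun u => (𝒜.ψ x).symm u) 0 := smAt_symm (𝒜 := 𝒜) (p := x) (f := fun u => u) contDiffAt_id (sm_zero_mem 𝒜 x)
  have e1 : (𝒜.ψ x).symm 0 = x := sm_symm_zero 𝒜 x
  exact SmAt.dist hB (x := fun _ => q) (y := fun u => (𝒜.ψ x).symm u) (smAt_const q 0) hs (by rw [e1]; exact h0)
    (by rw [e1]; exact h1)

theorem dist_neg_one (c : Gs M) : dist (c.1 (-1)) (c.1 0) = 1 := by
  rw [c.2 (-1) 0 (by rw [sub_zero, abs_neg, abs_one]; linarith [Real.pi_gt_three]), sub_zero, abs_neg, abs_one]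

/-- derivative of the distance to `c (-1)` -/
theorem dist_deriv (hB : Bl M) {c : Gs M} {α : ℝ → M} {v : Eu n} (hα : ContinuousAt α 0) (hα0 : α 0 = c.1 0)
    (hv : HasDerivAt (fun t => 𝒜.ψ (c.1 0) (α t)) v 0) :
    HasDerivAt (fun t => dist (c.1 (-1)) (α t)) ⟪𝒜.vel c.1 0, v⟫ 0 := by
  have hp3 := Real.pi_gt_three
  have hd := dist_neg_one c
  have hf : ContDiffAt ℝ ∞ (𝒜.f (c.1 0) (c.1 (-1))) (0, 0) :=
    contDiffAt_f 𝒜 hB (by rw [dist_comm, hd]; norm_num) (by rw [dist_comm, hd]; linarith)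
  have h1 : ContDiffAt ℝ ∞ (fun u => 𝒜.f (c.1 0) (c.1 (-1)) (u, 0)) 0 :=
    ContDiffAt.comp (g := 𝒜.f (c.1 0) (c.1 (-1))) (f := fun u : Eu n => (u, (0 : Eu n))) 0 hf
      (contDiffAt_id.prodMk contDiffAt_const)
  have h2 : HasFDerivAt (fun u => 𝒜.f (c.1 0) (c.1 (-1)) (u, 0)) (𝒜.D1 (c.1 0) (c.1 (-1))) 0 :=
    (h1.differentiableAt (by simp)).hasFDerivAt
  have h3 : HasDerivAt (fun t => 𝒜.f (c.1 0) (c.1 (-1)) (𝒜.ψ (c.1 0) (α t), 0)) (𝒜.D1 (c.1 0) (c.1 (-1)) v) 0 := by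
    refine HasFDerivAt.comp_hasDerivAt (l := fun u => 𝒜.f (c.1 0) (c.1 (-1)) (u, 0)) (f := fun t => 𝒜.ψ (c.1 0) (α t)) 0 ?_ hv
    rw [hα0, 𝒜.zero]
    exact h2
  have h4 : 𝒜.D1 (c.1 0) (c.1 (-1)) v = ⟪𝒜.vel c.1 0, v⟫ := by
    have := D1_backward 𝒜 hB c.2 (s := 0) (t := 1) one_pos (by linarith) v
    rwa [zero_sub] at this
  rw [h4] at h3
  refine h3.congr_of_eventuallyEq ?_
  filter_upwards [hα.eventually ((𝒜.ψ (c.1 0)).open_source.mem_nhds (by rw [hα0]; exact 𝒜.mem _))] with t ht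
  unfold SDist.f
  rw [(𝒜.ψ (c.1 0)).left_inv ht, sm_symm_zero, dist_comm]

variable [Nonempty (Gs M)] {e : Emb n 𝒜} {Ξ : ℝ → ℝ → e.Q → e.Q} {χ : e.Q → ℝ} {ρ : ℝ → Gs M → Gs M}
variable (hB : Bl M) (hR : Rot 𝒜 ρ) (h : PFlow e ρ χ Ξ)

include hB hR h

/-- the first variation along the rotated geodesics -/
theorem W_eq (c : Gs M) (τ : ℝ) :
    HasDerivAt (fun θ => dist (c.1 (-1)) (CC e Ξ θ (ρ τ c)))
      (-(sin τ * ∫ b in (0 : ℝ)..π, ⟪ee 𝒜 ρ (ρ τ c), JJ 𝒜 ρ (ρ τ c) b⟫)) 0 := by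
  have hπ := Real.pi_pos
  have hp3 := Real.pi_gt_three
  have hd1 := dist_neg_one c
  set c' := ρ τ c with hc'
  have hc0 : c'.1 0 = c.1 0 := hR.foot τ c
  let Φ : ℝ × ℝ → ℝ := fun z => dist (c.1 (-1)) ((Th e Ξ z.1 z.2 c').1 (0 - z.1))
  have hpt : ∀ b : ℝ, 0 ≤ b → (Th e Ξ b 0 c').1 (0 - b) = c.1 0 := by
    intro b hb
    rw [Th_zero hB hR h hb]
    show c'.1 (0 - b + b) = c.1 0
    rw [sub_add_cancel, hc0]
  have hTh : ∀ b : ℝ, 0 ≤ b → SmAt 𝒜 (fun z : ℝ × ℝ => (Th e Ξ z.1 z.2 c').1 (0 - z.1)) (b, 0) := fun b hb =>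
    (smooth_Th hB hR h (smGAt_const c' ((b, 0) : ℝ × ℝ)) (t := fun z : ℝ × ℝ => z.1) (θ := fun z : ℝ × ℝ => z.2)
      contDiffAt_fst contDiffAt_snd hb).ev hB (t := fun z : ℝ × ℝ => 0 - z.1) (contDiffAt_const.sub contDiffAt_fst)
  have hΦ : ∀ b : ℝ, 0 ≤ b → ContDiffAt ℝ ∞ Φ (b, 0) := by
    intro b hb
    refine SmAt.dist hB (smAt_const _ _) (hTh b hb) ?_ ?_
    · simp only [hpt b hb, hd1]; norm_num
    · simp only [hpt b hb, hd1]; linarith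
  -- the derivative in `b`
  have hw : ∀ b : ℝ, 0 < b → b < π →
      HasDerivAt (fun b => deriv (fun θ => Φ (b, θ)) 0) (-(sin τ * ⟪ee 𝒜 ρ c', JJ 𝒜 ρ c' b⟫)) b := by
    intro b hb hb'
    obtain ⟨D, hD1, hD2⟩ := PO.mixed (hΦ b hb.le)
    let m : ℝ → ℝ := fun θ => deriv (fun σ => dist (c.1 (-1)) ((ρ σ (Th e Ξ b θ c')).1 (0 - b))) 0
    -- `m` is smooth at `0`
    have hm : ContDiffAt ℝ ∞ m 0 := by
      refine PO.contDiffAt_deriv2' (g := fun z : ℝ × ℝ => dist (c.1 (-1)) ((ρ z.2 (Th e Ξ b z.1 c')).1 (0 - b))) ?_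
      have h1 := ((smooth_Th hB hR h (smGAt_const c' ((0, 0) : ℝ × ℝ)) (t := fun z : ℝ × ℝ => b) (θ := fun z : ℝ × ℝ => z.1)
        contDiffAt_const contDiffAt_fst hb.le).rot e hB hR (θ := fun z : ℝ × ℝ => z.2) contDiffAt_snd).ev hB
        (t := fun z : ℝ × ℝ => 0 - b) contDiffAt_const
      refine SmAt.dist hB (smAt_const _ _) h1 ?_ ?_
      · simp only [hR.zero, hpt b hb.le, hd1]; norm_num
      · simp only [hR.zero, hpt b hb.le, hd1]; linarith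
    have hev : (fun θ => deriv (fun b' => Φ (b', θ)) b) =ᶠ[𝓝 0] fun θ => sin θ * m θ := by
      have hc1 : ContinuousAt (fun θ : ℝ => dist (c.1 (-1)) ((Th e Ξ b θ c').1 (0 - b))) 0 := by
        have h1 := (hΦ b hb.le).continuousAt
        have h2 : ContinuousAt (fun θ : ℝ => (b, θ)) 0 := by fun_prop
        exact ContinuousAt.comp (g := Φ) (f := fun θ : ℝ => (b, θ)) h1 h2
      have hv : dist (c.1 (-1)) ((Th e Ξ b 0 c').1 (0 - b)) = 1 := by rw [hpt b hb.le, hd1]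
      have h3 : ∀ᶠ θ in 𝓝 (0 : ℝ), 0 < dist (c.1 (-1)) ((Th e Ξ b θ c').1 (0 - b)) :=
        hc1.eventually (lt_mem_nhds (show 0 < dist (c.1 (-1)) ((Th e Ξ b 0 c').1 (0 - b)) by rw [hv]; norm_num))
      have h4 : ∀ᶠ θ in 𝓝 (0 : ℝ), dist (c.1 (-1)) ((Th e Ξ b θ c').1 (0 - b)) < π :=
        hc1.eventually (gt_mem_nhds (show dist (c.1 (-1)) ((Th e Ξ b 0 c').1 (0 - b)) < π by rw [hv]; linarith))
      filter_upwards [h3, h4] with θ h5 h6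
      have h7 := transport hB hR h (f := fun y => dist (c.1 (-1)) y) (θ := θ) (a := 0) (b := b) (c := c') hb.le
        (smF_dist hB h5 h6)
      rw [smul_eq_mul] at h7
      exact h7.deriv
    have hD3 : HasDerivAt (fun θ => deriv (fun b' => Φ (b', θ)) b) (m 0) 0 :=
      (PO.hasDerivAt_sin_mul hm.continuousAt).congr_of_eventuallyEq hev
    have hDm : D = m 0 := hD2.unique hD3
    -- the value of `m 0`
    have hm0 : m 0 = ⟪𝒜.vel c.1 0, JJ 𝒜 ρ c' b⟫ := by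
      have h1 : m 0 = deriv (fun σ => dist (c.1 (-1)) ((ρ σ (shift b c')).1 (-b))) 0 := by
        simp only [m, Th_zero hB hR h hb.le, zero_sub]
      rw [h1]
      have h2 := ps_hasDerivAt 𝒜 hB hR c' b
      rw [hc0] at h2
      have h3 : ContinuousAt (fun σ => (ρ σ (shift b c')).1 (-b)) 0 :=
        (((smGAt_const (shift b c') (0 : ℝ)).rot e hB hR (θ := fun s => s) contDiffAt_id).ev hB (t := fun _ => -b)
          contDiffAt_const).1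
      refine (dist_deriv hB h3 ?_ h2).deriv
      rw [hR.zero]
      show c'.1 (-b + b) = c.1 0
      rw [neg_add_cancel, hc0]
    have hvel : 𝒜.vel c.1 0 = cos τ • 𝒜.vel c'.1 0 - sin τ • ee 𝒜 ρ c' := by
      have h1 := hR.vel (-τ) c'
      rw [hc', hR.add, neg_add_cancel, hR.zero, cos_neg, sin_neg, neg_smul, ← sub_eq_add_neg] at h1
      exact h1
    have hgauss := ps_gauss 𝒜 hB hR c' hb hb'
    have hm1 : m 0 = -(sin τ * ⟪ee 𝒜 ρ c', JJ 𝒜 ρ c' b⟫) := by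
      rw [hm0, hvel, inner_sub_left, real_inner_smul_left, real_inner_smul_left, hgauss, mul_zero, zero_sub]
    rw [← hm1, ← hDm]
    exact hD1
  -- integration
  have hwc : ∀ b ∈ Icc (0 : ℝ) π, ContinuousAt (fun b => deriv (fun θ => Φ (b, θ)) 0) b := fun b hb =>
    (PO.contDiffAt_deriv2' (hΦ b hb.1)).continuousAt
  have hgc : Continuous (fun b => ⟪ee 𝒜 ρ c', JJ 𝒜 ρ c' b⟫) := by
    have h1 := ps_cont 𝒜 hB hR c
    exact h1.comp (f := fun b : ℝ => ((b, τ) : ℝ × ℝ)) (by fun_prop)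
  have hint := intervalIntegral.integral_eq_sub_of_hasDerivAt_of_le hπ.le
    (fun b hb => (hwc b hb).continuousWithinAt) (fun b hb => hw b hb.1 hb.2)
    ((continuous_const.mul hgc).neg.intervalIntegrable 0 π)
  have hw0 : deriv (fun θ => Φ (0, θ)) 0 = 0 := by
    have h1 : (fun θ => Φ (0, θ)) = fun _ => dist (c.1 (-1)) (c'.1 0) := by
      funext θ
      simp only [Φ, Th_time_zero hB h, sub_zero]
    rw [h1, deriv_const]
  rw [hw0, sub_zero] at hint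
  have hfin : (fun θ => dist (c.1 (-1)) (CC e Ξ θ (ρ τ c))) = fun θ => Φ (π, θ) := by
    funext θ
    simp only [Φ, zero_sub]
    rfl
  rw [hfin]
  have h5 : DifferentiableAt ℝ (fun θ => Φ (π, θ)) 0 := by
    have h6 := (hΦ π hπ.le).differentiableAt (by simp : (∞ : WithTop ℕ∞) ≠ 0)
    exact (PO.hasDerivAt_snd (g := Φ) (z := (π, 0)) h6).differentiableAt
  have h7 := h5.hasDerivAt
  rw [← hint, intervalIntegral.integral_neg, intervalIntegral.integral_const_mul] at h7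
  exact h7

/-- the function `Λ` -/
theorem Lam_deriv (hK : 𝒜.HK 1) (c : Gs M) : ∃ D : ℝ, 0 < D ∧
    HasDerivAt (fun θ => deriv (fun τ => dist ((Psi e Ξ θ c).1 (-1)) (CC e Ξ θ (ρ τ c))) 0) D 0 := by
  have hπ := Real.pi_pos
  have hp3 := Real.pi_gt_three
  have hd1 := dist_neg_one c
  let K : ℝ × ℝ → ℝ := fun z => dist ((Psi e Ξ z.1 c).1 (-1)) (CC e Ξ z.1 (ρ z.2 c))
  have hPsi : ∀ {E : Type} [NormedAddCommGroup E] [NormedSpace ℝ E] (u : E) (θ : E → ℝ), ContDiffAt ℝ ∞ θ u →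
      SmAt 𝒜 (fun v => (Psi e Ξ (θ v) c).1 (-1)) u := fun u θ hθ =>
    (smooth_Psi hB hR h (smGAt_const c u) hθ).ev hB (t := fun _ => -1) contDiffAt_const
  have hCC0 : ∀ τ, CC e Ξ 0 (ρ τ c) = c.1 0 := fun τ => by rw [CC_zero hB hR h, hR.foot]
  have hKs : ContDiffAt ℝ ∞ K (0, 0) := by
    refine SmAt.dist hB (hPsi _ (fun z : ℝ × ℝ => z.1) contDiffAt_fst)
      (smooth_CC hB hR h ((smGAt_const c ((0, 0) : ℝ × ℝ)).rot e hB hR (θ := fun z : ℝ × ℝ => z.2) contDiffAt_snd)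
        (θ := fun z : ℝ × ℝ => z.1) contDiffAt_fst) ?_ ?_
    · simp only [Psi_theta_zero hB hR h, hCC0, hd1]; norm_num
    · simp only [Psi_theta_zero hB hR h, hCC0, hd1]; linarith
  obtain ⟨D, hD1, hD2⟩ := PO.mixed hKs
  refine ⟨D, ?_, hD1⟩
  -- the derivative in `θ` at `0`, for all `τ`
  let I : ℝ → ℝ := fun τ => ∫ b in (0 : ℝ)..π, ⟪ee 𝒜 ρ (ρ τ c), JJ 𝒜 ρ (ρ τ c) b⟫
  have hgc := ps_cont 𝒜 hB hR c
  have hIc : Continuous I := by
    have h1 : Continuous (fun z : ℝ × ℝ => ⟪ee 𝒜 ρ (ρ z.1 c), JJ 𝒜 ρ (ρ z.1 c) z.2⟫) :=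
      hgc.comp (f := fun z : ℝ × ℝ => (z.2, z.1)) (by fun_prop)
    exact intervalIntegral.continuous_parametric_intervalIntegral_of_continuous' (f := fun τ b =>
      ⟪ee 𝒜 ρ (ρ τ c), JJ 𝒜 ρ (ρ τ c) b⟫) h1 0 π
  have hder : ∀ τ : ℝ, deriv (fun θ => K (θ, τ)) 0 =
      deriv (fun s => dist ((Psi e Ξ s c).1 (-1)) (c.1 0)) 0 + -(sin τ * I τ) := by
    intro τ
    let g : ℝ × ℝ → ℝ := fun z => dist ((Psi e Ξ z.1 c).1 (-1)) (CC e Ξ z.2 (ρ τ c))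
    have hg : ContDiffAt ℝ ∞ g (0, 0) := by
      refine SmAt.dist hB (hPsi _ (fun z : ℝ × ℝ => z.1) contDiffAt_fst)
        (smooth_CC hB hR h (smGAt_const (ρ τ c) ((0, 0) : ℝ × ℝ)) (θ := fun z : ℝ × ℝ => z.2) contDiffAt_snd) ?_ ?_
      · simp only [Psi_theta_zero hB hR h, hCC0, hd1]; norm_num
      · simp only [Psi_theta_zero hB hR h, hCC0, hd1]; linarith
    have hs : ContDiffAt ℝ ∞ (fun s : ℝ => dist ((Psi e Ξ s c).1 (-1)) (c.1 0)) 0 := by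
      refine SmAt.dist hB (hPsi _ (fun s : ℝ => s) contDiffAt_id) (smAt_const _ _) ?_ ?_
      · simp only [Psi_theta_zero hB hR h, hd1]; norm_num
      · simp only [Psi_theta_zero hB hR h, hd1]; linarith
    have h1 : HasDerivAt (fun s => g (s, 0)) (deriv (fun s => dist ((Psi e Ξ s c).1 (-1)) (c.1 0)) 0) 0 := by
      simp only [g, hCC0]
      exact (hs.differentiableAt (by simp)).hasDerivAt
    have h2 : HasDerivAt (fun t => g (0, t)) (-(sin τ * I τ)) 0 := by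
      simp only [g, Psi_theta_zero hB hR h]
      exact W_eq hB hR h c τ
    have h3 := PO.two_var (hg.differentiableAt (by simp)) h1 h2 1
    simp only [one_mul, one_smul] at h3
    exact h3.deriv
  have hD3 : HasDerivAt (fun τ => deriv (fun θ => K (θ, τ)) 0) (-(I 0)) 0 := by
    have h1 : (fun τ => deriv (fun θ => K (θ, τ)) 0) = fun τ =>
        deriv (fun s => dist ((Psi e Ξ s c).1 (-1)) (c.1 0)) 0 + -(sin τ * I τ) := funext hder
    rw [h1]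
    exact ((PO.hasDerivAt_sin_mul hIc.continuousAt).neg).const_add _
  rw [hD2.unique hD3]
  have hI0 : I 0 = ∫ b in (0 : ℝ)..π, ⟪ee 𝒜 ρ c, JJ 𝒜 ρ c b⟫ := by simp only [I, hR.zero]
  rw [hI0, ← intervalIntegral.integral_neg]
  have hc1 : Continuous (fun b => ⟪ee 𝒜 ρ c, JJ 𝒜 ρ c b⟫) := by
    have h1 := hgc.comp (f := fun b : ℝ => ((b, 0) : ℝ × ℝ)) (by fun_prop)
    simp only [Function.comp_def, hR.zero] at h1
    exact h1
  refine intervalIntegral.intervalIntegral_pos_of_pos_on (hc1.neg.intervalIntegrable 0 π) ?_ hπ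
  intro b hb
  have := ps_sign 𝒜 hB hK hR c hb.1 hb.2
  linarith

/-- the local estimate of the speed -/
theorem speed_local (hK : 𝒜.HK 1) (c0 : Gs M) : ∃ m : ℝ, 0 < m ∧ ∃ ε : ℝ, 0 < ε ∧ ∀ᶠ c in 𝓝 c0, ∀ θ : ℝ, 0 < θ → θ < ε →
    ‖deriv (fun s => 𝒜.ψ (CC e Ξ θ c) (CC e Ξ θ (shift s c))) 0‖ ^ 2 ≤ 1 - m * (θ * sin θ) := by
  have hp3 := Real.pi_gt_three
  obtain ⟨D0, hD0, hD⟩ := Lam_deriv hB hR h hK c0
  set y0 := e.EE c0 with hy0
  have hRR : e.RR y0 = c0 := e.RR_EE hB c0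
  set p := c0.1 0 with hp
  -- smoothness of the two functions
  have hσ : ∀ z : (ℝ × e.Q) × ℝ, z.1.2 ∈ e.UU → SmGAt 𝒜 (fun z : (ℝ × e.Q) × ℝ => ρ z.2 (e.RR z.1.2)) z := by
    intro z hz
    exact (SmGAt.comp (σ := e.RR) (f := fun z : (ℝ × e.Q) × ℝ => z.1.2) (v := z) (e.smG_RR hB hz)
      (contDiffAt_snd.comp z contDiffAt_fst)).rot e hB hR contDiffAt_snd
  have hσ0 : ∀ z : (ℝ × e.Q) × ℝ, z.1.2 ∈ e.UU → SmGAt 𝒜 (fun z : (ℝ × e.Q) × ℝ => e.RR z.1.2) z := by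
    intro z hz
    exact SmGAt.comp (σ := e.RR) (f := fun z : (ℝ × e.Q) × ℝ => z.1.2) (v := z) (e.smG_RR hB hz)
      (contDiffAt_snd.comp z contDiffAt_fst)
  have hCs : ∀ z : (ℝ × e.Q) × ℝ, z.1.2 ∈ e.UU → SmAt 𝒜 (fun z : (ℝ × e.Q) × ℝ => CC e Ξ z.1.1 (ρ z.2 (e.RR z.1.2))) z :=
    fun z hz => smooth_CC hB hR h (hσ z hz) (θ := fun z : (ℝ × e.Q) × ℝ => z.1.1) (contDiffAt_fst.comp z contDiffAt_fst)
  have hPs : ∀ z : (ℝ × e.Q) × ℝ, z.1.2 ∈ e.UU → SmAt 𝒜 (fun z : (ℝ × e.Q) × ℝ => (Psi e Ξ z.1.1 (e.RR z.1.2)).1 (-1)) z :=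
    fun z hz => (smooth_Psi hB hR h (hσ0 z hz) (θ := fun z : (ℝ × e.Q) × ℝ => z.1.1)
      (contDiffAt_fst.comp z contDiffAt_fst)).ev hB (t := fun _ => -1) contDiffAt_const
  have hU0 : y0 ∈ e.UU := e.EE_mem c0
  -- `Λ`
  let L : ℝ × e.Q → ℝ := fun z => deriv (fun τ => dist ((Psi e Ξ z.1 (e.RR z.2)).1 (-1)) (CC e Ξ z.1 (ρ τ (e.RR z.2)))) 0
  have hL : ContDiffAt ℝ ∞ L (0, y0) := by
    refine PO.contDiffAt_deriv2' (g := fun z : (ℝ × e.Q) × ℝ =>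
      dist ((Psi e Ξ z.1.1 (e.RR z.1.2)).1 (-1)) (CC e Ξ z.1.1 (ρ z.2 (e.RR z.1.2)))) ?_
    refine SmAt.dist hB (hPs _ hU0) (hCs _ hU0) ?_ ?_
    · simp only [Psi_theta_zero hB hR h, CC_zero hB hR h, hR.foot, dist_neg_one]; norm_num
    · simp only [Psi_theta_zero hB hR h, CC_zero hB hR h, hR.foot, dist_neg_one]; linarith
  have hL0 : ∀ y, L (0, y) = 0 := by
    intro y
    simp only [L, CC_zero hB hR h, hR.foot, deriv_const]
  have hL1 := PO.lower_bound hL (Eventually.of_forall hL0) (D := D0) (by simp only [L, hRR]; exact hD) hD0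
  -- the derivative in the rotation direction in the chart at `p`
  let N : ℝ × e.Q → Eu n := fun z => deriv (fun τ => 𝒜.ψ p (CC e Ξ z.1 (ρ τ (e.RR z.2)))) 0
  have hN : ContDiffAt ℝ ∞ N (0, y0) := by
    refine PO.contDiffAt_deriv2' (g := fun z : (ℝ × e.Q) × ℝ => 𝒜.ψ p (CC e Ξ z.1.1 (ρ z.2 (e.RR z.1.2)))) ?_
    have h1 := (hCs ((0, y0), 0) hU0).2
    simp only [CC_zero hB hR h, hR.foot, hRR] at h1
    exact h1
  have hN0 : ∀ y, N (0, y) = 0 := by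
    intro y
    simp only [N, CC_zero hB hR h, hR.foot, deriv_const]
  obtain ⟨K, hK0, hN1⟩ := PO.upper_bound hN (Eventually.of_forall hN0)
  -- the foot is near `p`
  have hx : ContinuousAt (fun z : ℝ × e.Q => CC e Ξ z.1 (e.RR z.2)) (0, y0) := by
    have h1 : ContinuousAt (fun z : (ℝ × e.Q) × ℝ => CC e Ξ z.1.1 (ρ z.2 (e.RR z.1.2))) ((0, y0), 0) :=
      (hCs ((0, y0), 0) hU0).1
    have h2 : ContinuousAt (fun z : ℝ × e.Q => (z, (0 : ℝ))) (0, y0) := by fun_prop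
    have h3 := ContinuousAt.comp (g := fun z : (ℝ × e.Q) × ℝ => CC e Ξ z.1.1 (ρ z.2 (e.RR z.1.2)))
      (f := fun z : ℝ × e.Q => (z, (0 : ℝ))) h1 h2
    simp only [Function.comp_def, hR.zero] at h3
    exact h3
  have hxp : CC e Ξ 0 (e.RR y0) = p := by rw [CC_zero hB hR h, hRR]
  have hcmp : ∀ᶠ z : ℝ × e.Q in 𝓝 (0, y0), ∀ (α : ℝ → M) (v w : Eu n), ContinuousAt α 0 → α 0 = CC e Ξ z.1 (e.RR z.2) →
      HasDerivAt (fun t => 𝒜.ψ (CC e Ξ z.1 (e.RR z.2)) (α t)) v 0 → HasDerivAt (fun t => 𝒜.ψ p (α t)) w 0 →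
      ‖v‖ ≤ 2 * ‖w‖ := by
    have h1 := speed_compare (𝒜 := 𝒜) p
    have h2 : Tendsto (fun z : ℝ × e.Q => CC e Ξ z.1 (e.RR z.2)) (𝓝 (0, y0)) (𝓝 p) := by
      have := hx.tendsto
      simp only [hxp] at this
      exact this
    exact h2.eventually h1
  have hsrc : ∀ᶠ z : ℝ × e.Q in 𝓝 (0, y0), CC e Ξ z.1 (e.RR z.2) ∈ (𝒜.ψ p).source := by
    refine hx.eventually ((𝒜.ψ p).open_source.mem_nhds ?_)
    simp only [hxp]
    exact 𝒜.mem p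
  obtain ⟨r, hr, hball⟩ := Metric.eventually_nhds_iff.mp ((hL1.and hN1).and (hcmp.and hsrc))
  -- choice of `ε`
  obtain ⟨ε, hε0, hεr, hε1, hεK⟩ : ∃ ε : ℝ, 0 < ε ∧ ε ≤ r ∧ ε ≤ 1 ∧ 4 * K ^ 2 * ε ≤ D0 / 2 := by
    refine ⟨min (min r 1) (D0 / 2 / (4 * K ^ 2 + 1)), ?_, ?_, ?_, ?_⟩
    · refine lt_min (lt_min hr one_pos) (by positivity)
    · exact (min_le_left _ _).trans (min_le_left _ _)
    · exact (min_le_left _ _).trans (min_le_right _ _)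
    · calc 4 * K ^ 2 * min (min r 1) (D0 / 2 / (4 * K ^ 2 + 1)) ≤ (4 * K ^ 2 + 1) * (D0 / 2 / (4 * K ^ 2 + 1)) := by
            refine mul_le_mul (by linarith) (min_le_right _ _) ?_ (by positivity)
            exact le_min (le_min hr.le zero_le_one) (by positivity)
        _ = D0 / 2 := by field_simp
  refine ⟨D0 / 2, by positivity, ε, hε0, ?_⟩
  have hEE : ∀ᶠ c in 𝓝 c0, dist (e.EE c) y0 < r := by
    have h1 : ContinuousAt (fun c => dist (e.EE c) y0) c0 := (e.continuous_EE.dist continuous_const).continuousAt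
    exact h1.eventually (gt_mem_nhds (show dist (e.EE c0) y0 < r by rw [hy0, dist_self]; exact hr))
  filter_upwards [hEE] with c hc θ hθ0 hθε
  have hz : dist ((θ, e.EE c) : ℝ × e.Q) (0, y0) < r := by
    rw [Prod.dist_eq, max_lt_iff]
    refine ⟨?_, hc⟩
    rw [Real.dist_eq, sub_zero, abs_of_pos hθ0]
    linarith
  obtain ⟨⟨b1, b2⟩, b3, b4⟩ := hball hz
  simp only [L, N, e.RR_EE hB] at b1 b2 b3 b4
  have b1' := b1 hθ0.le
  rw [abs_of_pos hθ0] at b2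
  set x := CC e Ξ θ c with hx'
  -- the rotation derivative in the centered chart
  have hα : SmAt 𝒜 (fun τ : ℝ => CC e Ξ θ (ρ τ c)) 0 :=
    smooth_CC hB hR h ((smGAt_const c (0 : ℝ)).rot e hB hR (θ := fun s => s) contDiffAt_id) (θ := fun _ => θ) contDiffAt_const
  have hα0 : CC e Ξ θ (ρ 0 c) = x := by rw [hR.zero]
  have hαv : HasDerivAt (fun τ => 𝒜.ψ x (CC e Ξ θ (ρ τ c))) (deriv (fun τ => 𝒜.ψ x (CC e Ξ θ (ρ τ c))) 0) 0 := by
    have h1 := hα.2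
    simp only [hα0] at h1
    exact (h1.differentiableAt (by simp)).hasDerivAt
  have hαw : HasDerivAt (fun τ => 𝒜.ψ p (CC e Ξ θ (ρ τ c))) (deriv (fun τ => 𝒜.ψ p (CC e Ξ θ (ρ τ c))) 0) 0 := by
    have h1 := hα.chart (q := p) (by simp only [hα0]; exact b4)
    exact (h1.differentiableAt (by simp)).hasDerivAt
  have hDn := b3 _ _ _ hα.1 hα0 hαv hαw
  set D := deriv (fun τ => 𝒜.ψ x (CC e Ξ θ (ρ τ c))) 0 with hDdef
  have hDle : ‖D‖ ≤ 2 * (K * θ) := hDn.trans (mul_le_mul_of_nonneg_left b2 (by norm_num))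
  -- `Λ` is the scalar product
  have hLam : deriv (fun τ => dist ((Psi e Ξ θ c).1 (-1)) (CC e Ξ θ (ρ τ c))) 0 = ⟪𝒜.vel (Psi e Ξ θ c).1 0, D⟫ := by
    have h1 : (Psi e Ξ θ c).1 0 = x := Psi_zero e Ξ θ c
    refine (dist_deriv hB (c := Psi e Ξ θ c) (α := fun τ => CC e Ξ θ (ρ τ c)) hα.1 (by simp only [hα0, h1]) ?_).deriv
    rw [h1]
    exact hαv
  rw [hLam] at b1'
  have hsf := speed_formula hB hR h θ c
  rw [← hx', ← hDdef] at hsf
  rw [hsf]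
  have hv1 : ‖𝒜.vel (Psi e Ξ θ c).1 0‖ = 1 := (IsGeo.exists_vel 𝒜 (Psi e Ξ θ c).2 0).1
  have hexp : ‖𝒜.vel (Psi e Ξ θ c).1 0 - sin θ • D‖ ^ 2 =
      1 - 2 * (sin θ * ⟪𝒜.vel (Psi e Ξ θ c).1 0, D⟫) + sin θ ^ 2 * ‖D‖ ^ 2 := by
    rw [norm_sub_sq_real, hv1, real_inner_smul_right, norm_smul, mul_pow, Real.norm_eq_abs, sq_abs]
    ring
  have hs0 : 0 < sin θ := sin_pos_of_pos_of_lt_pi hθ0 (by linarith)
  have hs1 : sin θ ≤ θ := sin_le hθ0.le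
  have hD2 : ‖D‖ ^ 2 ≤ 4 * K ^ 2 * θ ^ 2 := by
    calc ‖D‖ ^ 2 ≤ (2 * (K * θ)) ^ 2 := pow_le_pow_left₀ (norm_nonneg _) hDle 2
      _ = 4 * K ^ 2 * θ ^ 2 := by ring
  rw [hexp]
  have t1 : sin θ * (D0 / 2 * θ) ≤ sin θ * ⟪𝒜.vel (Psi e Ξ θ c).1 0, D⟫ := mul_le_mul_of_nonneg_left b1' hs0.le
  have t2 : sin θ ^ 2 * ‖D‖ ^ 2 ≤ sin θ ^ 2 * (4 * K ^ 2 * θ ^ 2) := mul_le_mul_of_nonneg_left hD2 (by positivity)
  have t3 : sin θ ^ 2 * (4 * K ^ 2 * θ ^ 2) ≤ θ * sin θ * (D0 / 2) := by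
    have u1 : 4 * K ^ 2 * θ ≤ D0 / 2 := by
      have : 4 * K ^ 2 * θ ≤ 4 * K ^ 2 * ε := mul_le_mul_of_nonneg_left hθε.le (by positivity)
      linarith
    have u2 : sin θ * (4 * K ^ 2 * θ) ≤ 1 * (D0 / 2) := mul_le_mul (sin_le_one θ) u1 (by positivity) zero_le_one
    rw [one_mul] at u2
    calc sin θ ^ 2 * (4 * K ^ 2 * θ ^ 2) = (θ * sin θ) * (sin θ * (4 * K ^ 2 * θ)) := by ring
      _ ≤ (θ * sin θ) * (D0 / 2) := mul_le_mul_of_nonneg_left u2 (by positivity)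
  linarith

end Pool.Agent.Lib.MP_ccbbf6_gt.L4
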