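import Pool.Agent.Lib.MP_ccbbf6_gt.Geo.SMk

/-!
# L4 smoothing block, file 0 (helper95): implicit function theorem for a family of nondegenerate minima
-/

set_option autoImplicit false

open Set Filter Topology Metric
open scoped ContDiff RealInnerProductSpace

noncomputable section

namespace Pool.Agent.Lib.MP_ccbbf6_gt.L4

open Geo

/-! ## the implicit function theorem -/

section IFT

variable {n : ℕ} {Z : Type*} [NormedAddCommGroup Z] [NormedSpace ℝ Z] [CompleteSpace Z]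

theorem ift_min_at {G : Z × EuclideanSpace ℝ (Fin n) → ℝ} {z₀ : Z} {w₀ : EuclideanSpace ℝ (Fin n)}
    (hG : ContDiffAt ℝ ∞ G (z₀, w₀))
    (hinv : ((fderiv ℝ (fun x => (fderiv ℝ G x).comp (ContinuousLinearMap.inr ℝ Z (EuclideanSpace ℝ (Fin n))))
      (z₀, w₀)).comp (ContinuousLinearMap.inr ℝ Z (EuclideanSpace ℝ (Fin n)))).IsInvertible)
    {m : Z → EuclideanSpace ℝ (Fin n)} (hm : Tendsto m (𝓝 z₀) (𝓝 w₀))
    (hmin : ∀ᶠ z in 𝓝 z₀, IsLocalMin (fun w => G (z, w)) (m z)) : ContDiffAt ℝ ∞ m z₀ := by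
  have hm0 : m z₀ = w₀ := eq_of_tendsto_nhds hm
  set R := ContinuousLinearMap.inr ℝ Z (EuclideanSpace ℝ (Fin n)) with hR
  set Φ : Z × EuclideanSpace ℝ (Fin n) → (EuclideanSpace ℝ (Fin n) →L[ℝ] ℝ) :=
    fun x => (fderiv ℝ G x).comp R with hΦ
  have hdG : ContDiffAt ℝ ∞ (fderiv ℝ G) (z₀, w₀) := hG.fderiv_right (by norm_cast)
  have hΦc : ContDiffAt ℝ ∞ Φ (z₀, w₀) := hdG.clm_comp contDiffAt_const
  have hev : ∀ᶠ x in 𝓝 (z₀, w₀), ContDiffAt ℝ 2 G x := smb_ev hG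
  have hpart : ∀ z w, ContDiffAt ℝ 2 G (z, w) → fderiv ℝ (fun w => G (z, w)) w = Φ (z, w) := by
    intro z w h
    have h1 : HasFDerivAt G (fderiv ℝ G (z, w)) (z, w) := (h.differentiableAt (by simp)).hasFDerivAt
    have h2 : HasFDerivAt (fun w : EuclideanSpace ℝ (Fin n) => (z, w)) R w := hasFDerivAt_prodMk_right z w
    exact (h1.comp w h2).fderiv
  have hzero : ∀ z w, ContDiffAt ℝ 2 G (z, w) → IsLocalMin (fun w => G (z, w)) w → Φ (z, w) = 0 := by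
    intro z w h h1
    rw [← hpart z w h]
    exact h1.fderiv_eq_zero
  have hΦ0 : Φ (z₀, w₀) = 0 := by
    refine hzero z₀ w₀ hev.self_of_nhds ?_
    have := hmin.self_of_nhds
    rwa [hm0] at this
  have h1 := hΦc.eventually_apply_eq_iff_implicitFunction (by simp) hinv
  have h2 := hΦc.contDiffAt_implicitFunction (by simp) hinv
  set ψ := hΦc.implicitFunction (by simp) hinv with hψ
  have hzm : Tendsto (fun z => (z, m z)) (𝓝 z₀) (𝓝 (z₀, w₀)) := by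
    rw [nhds_prod_eq]
    exact tendsto_id.prodMk hm
  have h4 : ∀ᶠ z in 𝓝 z₀, m z = ψ z := by
    filter_upwards [hzm.eventually h1, hzm.eventually hev, hmin] with z hz1 hz2 hz3
    symm
    apply hz1.1
    rw [hzero z (m z) hz2 hz3, hΦ0]
  exact h2.congr_of_eventuallyEq h4

/-- implicit function theorem for a family of nondegenerate minima -/
theorem ift_min {G : Z × EuclideanSpace ℝ (Fin n) → ℝ} {z₀ : Z} {w₀ : EuclideanSpace ℝ (Fin n)}
    (hG : ∀ᶠ x in 𝓝 (z₀, w₀), ContDiffAt ℝ ∞ G x)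
    (hnd : ∀ a, fderiv ℝ (fderiv ℝ fun w => G (z₀, w)) w₀ a a = 0 → a = 0)
    {m : Z → EuclideanSpace ℝ (Fin n)} (hm : Tendsto m (𝓝 z₀) (𝓝 w₀))
    (hmin : ∀ᶠ z in 𝓝 z₀, IsLocalMin (fun w => G (z, w)) (m z)) : ∀ᶠ z in 𝓝 z₀, ContDiffAt ℝ ∞ m z := by
  set R := ContinuousLinearMap.inr ℝ Z (EuclideanSpace ℝ (Fin n)) with hR
  set Φ : Z × EuclideanSpace ℝ (Fin n) → (EuclideanSpace ℝ (Fin n) →L[ℝ] ℝ) :=
    fun x => (fderiv ℝ G x).comp R with hΦ
  have hG0 : ContDiffAt ℝ ∞ G (z₀, w₀) := hG.self_of_nhds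
  have hdG : ContDiffAt ℝ ∞ (fderiv ℝ G) (z₀, w₀) := hG0.fderiv_right (by norm_cast)
  have hΦc : ContDiffAt ℝ ∞ Φ (z₀, w₀) := hdG.clm_comp contDiffAt_const
  have hev : ∀ᶠ x in 𝓝 (z₀, w₀), ContDiffAt ℝ 2 G x := smb_ev hG0
  have hpart : ∀ z w, ContDiffAt ℝ 2 G (z, w) → fderiv ℝ (fun w => G (z, w)) w = Φ (z, w) := by
    intro z w h
    have h1 : HasFDerivAt G (fderiv ℝ G (z, w)) (z, w) := (h.differentiableAt (by simp)).hasFDerivAt
    have h2 : HasFDerivAt (fun w : EuclideanSpace ℝ (Fin n) => (z, w)) R w := hasFDerivAt_prodMk_right z w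
    exact (h1.comp w h2).fderiv
  have hcw : Tendsto (fun w : EuclideanSpace ℝ (Fin n) => (z₀, w)) (𝓝 w₀) (𝓝 (z₀, w₀)) := by
    have h : Continuous (fun w : EuclideanSpace ℝ (Fin n) => (z₀, w)) := by fun_prop
    exact h.tendsto w₀
  have hDD : (fderiv ℝ Φ (z₀, w₀)).comp R = fderiv ℝ (fderiv ℝ fun w => G (z₀, w)) w₀ := by
    have h1 : (fderiv ℝ fun w => G (z₀, w)) =ᶠ[𝓝 w₀] fun w => Φ (z₀, w) := by
      filter_upwards [hcw.eventually hev] with w hw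
      exact hpart z₀ w hw
    rw [h1.fderiv_eq]
    have h2 : HasFDerivAt Φ (fderiv ℝ Φ (z₀, w₀)) (z₀, w₀) := (hΦc.differentiableAt (by simp)).hasFDerivAt
    have h3 : HasFDerivAt (fun w : EuclideanSpace ℝ (Fin n) => (z₀, w)) R w₀ := hasFDerivAt_prodMk_right z₀ w₀
    exact (h2.comp w₀ h3).fderiv.symm
  have hinj : Function.Injective ((fderiv ℝ Φ (z₀, w₀)).comp R) := by
    rw [injective_iff_map_eq_zero]
    intro a ha
    apply hnd a
    rw [← hDD, ha]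
    rfl
  have hfr : Module.finrank ℝ (EuclideanSpace ℝ (Fin n)) =
      Module.finrank ℝ (EuclideanSpace ℝ (Fin n) →L[ℝ] ℝ) :=
    (InnerProductSpace.toDual ℝ (EuclideanSpace ℝ (Fin n))).toLinearEquiv.finrank_eq
  obtain ⟨L, hL⟩ : ∃ L : EuclideanSpace ℝ (Fin n) ≃L[ℝ] (EuclideanSpace ℝ (Fin n) →L[ℝ] ℝ),
      (L : EuclideanSpace ℝ (Fin n) →L[ℝ] (EuclideanSpace ℝ (Fin n) →L[ℝ] ℝ)) = (fderiv ℝ Φ (z₀, w₀)).comp R := by
    refine ⟨(LinearMap.linearEquivOfInjective ((fderiv ℝ Φ (z₀, w₀)).comp R).toLinearMap hinj hfr).toContinuousLinearEquiv, ?_⟩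
    ext a b
    simp
  have hinvn : ∀ᶠ x in 𝓝 (z₀, w₀), ((fderiv ℝ Φ x).comp R).IsInvertible := by
    have hcont : ContinuousAt (fun x => (fderiv ℝ Φ x).comp R) (z₀, w₀) := by
      have h1 : ContDiffAt ℝ ∞ (fderiv ℝ Φ) (z₀, w₀) := hΦc.fderiv_right (by norm_cast)
      exact (h1.clm_comp contDiffAt_const).continuousAt
    have h2 := L.nhds
    rw [hL] at h2
    filter_upwards [hcont.eventually h2] with x hx
    obtain ⟨L', hL'⟩ := hx
    exact ⟨L', hL'⟩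
  have hzm : Tendsto (fun z => (z, m z)) (𝓝 z₀) (𝓝 (z₀, w₀)) := by
    rw [nhds_prod_eq]
    exact tendsto_id.prodMk hm
  have h0 : ContDiffAt ℝ ∞ m z₀ := ift_min_at hG0 hinvn.self_of_nhds hm hmin
  have hmc : ∀ᶠ z in 𝓝 z₀, ContinuousAt m z := by
    have h1 : ContDiffAt ℝ 1 m z₀ := h0.of_le (by norm_cast)
    filter_upwards [h1.eventually (by simp)] with z hz
    exact hz.continuousAt
  filter_upwards [hzm.eventually hG, hzm.eventually hinvn, hmc, eventually_eventually_nhds.2 hmin] with z k1 k2 k3 k4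
  exact ift_min_at k1 k2 k3 k4

end IFT

end Pool.Agent.Lib.MP_ccbbf6_gt.L4
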