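import Pool.Agent.Lib.MP_ccbbf6_gt.L4.Def
import Pool.Agent.Lib.MP_ccbbf6_gt.L4.SMi

/-!
# L4 smoothing block, file 1 (helper95): smooth functions on `M`, the smooth retraction

* `SmFA 𝒜 g x`: `g : M → F` is smooth at `x`.
* `retraction_of_immersion`: an injective immersion `ι : M → F` of a compact `M` has a left inverse which is smooth
  near its image (the nearest point map).
-/

set_option autoImplicit false

open Set Filter Topology Metric
open scoped ContDiff RealInnerProductSpace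

noncomputable section

namespace Pool.Agent.Lib.MP_ccbbf6_gt.L4

open Geo

section

variable {n : ℕ} {M : Type*} [MetricSpace M] (𝒜 : SDist n M)
variable {F : Type*} [NormedAddCommGroup F] [NormedSpace ℝ F]
variable {Z : Type*} [NormedAddCommGroup Z] [NormedSpace ℝ Z]

/-- `g : M → F` is smooth at `x` -/
def SmFA (g : M → F) (x : M) : Prop := ContDiffAt ℝ ∞ (fun u => g ((𝒜.ψ x).symm u)) 0

theorem sm_symm_zero (p : M) : (𝒜.ψ p).symm 0 = p := by
  conv_lhs => rw [← 𝒜.zero p]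
  exact (𝒜.ψ p).left_inv (𝒜.mem p)

theorem sm_zero_mem (p : M) : (0 : Eu n) ∈ (𝒜.ψ p).target := by
  rw [← 𝒜.zero p]
  exact (𝒜.ψ p).map_source (𝒜.mem p)

theorem sm_tendsto_symm (p : M) : Tendsto (𝒜.ψ p).symm (𝓝 0) (𝓝 p) := by
  have h := ((𝒜.ψ p).continuousAt_symm (sm_zero_mem 𝒜 p)).tendsto
  rwa [sm_symm_zero] at h

variable {𝒜}

theorem smF_chart_change {g : M → F} {p q x : M} (hp : x ∈ (𝒜.ψ p).source) (hq : x ∈ (𝒜.ψ q).source)
    (h : ContDiffAt ℝ ∞ (fun u => g ((𝒜.ψ p).symm u)) (𝒜.ψ p x)) :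
    ContDiffAt ℝ ∞ (fun u => g ((𝒜.ψ q).symm u)) (𝒜.ψ q x) := by
  have h1 := 𝒜.trans q p x hq hp
  have h2 : ContDiffAt ℝ ∞ (fun u => g ((𝒜.ψ p).symm u)) ((fun u => 𝒜.ψ p ((𝒜.ψ q).symm u)) (𝒜.ψ q x)) := by
    simpa only [(𝒜.ψ q).left_inv hq] using h
  refine (ContDiffAt.comp (𝒜.ψ q x) (f := fun u => 𝒜.ψ p ((𝒜.ψ q).symm u))
    (g := fun u => g ((𝒜.ψ p).symm u)) h2 h1).congr_of_eventuallyEq ?_
  have h3 : ContinuousAt (𝒜.ψ q).symm (𝒜.ψ q x) := (𝒜.ψ q).continuousAt_symm ((𝒜.ψ q).map_source hq)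
  have h4 : ∀ᶠ u in 𝓝 (𝒜.ψ q x), (𝒜.ψ q).symm u ∈ (𝒜.ψ p).source := by
    apply h3.eventually
    rw [(𝒜.ψ q).left_inv hq]
    exact (𝒜.ψ p).open_source.mem_nhds hp
  filter_upwards [h4] with u hu
  simp only [Function.comp_apply, (𝒜.ψ p).left_inv hu]

theorem smF_iff {g : M → F} {p x : M} (hp : x ∈ (𝒜.ψ p).source) :
    SmFA 𝒜 g x ↔ ContDiffAt ℝ ∞ (fun u => g ((𝒜.ψ p).symm u)) (𝒜.ψ p x) := by
  unfold SmFA
  rw [← 𝒜.zero x]
  exact ⟨smF_chart_change (𝒜.mem x) hp, smF_chart_change hp (𝒜.mem x)⟩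

theorem SmFA.congr {g g' : M → F} {x : M} (h : SmFA 𝒜 g x) (he : g' =ᶠ[𝓝 x] g) : SmFA 𝒜 g' x := by
  refine ContDiffAt.congr_of_eventuallyEq h ?_
  exact (sm_tendsto_symm 𝒜 x).eventually he

theorem SmFA.continuousAt {g : M → F} {x : M} (h : SmFA 𝒜 g x) : ContinuousAt g x := by
  have h1 : ContinuousAt (𝒜.ψ x) x := (𝒜.ψ x).continuousAt (𝒜.mem x)
  have h2 : ContinuousAt (fun u => g ((𝒜.ψ x).symm u)) (𝒜.ψ x x) := by
    rw [𝒜.zero x]
    exact ContDiffAt.continuousAt h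
  refine (h2.comp h1).congr ?_
  filter_upwards [(𝒜.ψ x).open_source.mem_nhds (𝒜.mem x)] with y hy
  simp only [Function.comp_apply, (𝒜.ψ x).left_inv hy]

theorem SmFA.comp_to {g : M → F} {r : Z → M} {z : Z} (hg : SmFA 𝒜 g (r z)) (hr : SmAt 𝒜 r z) :
    ContDiffAt ℝ ∞ (fun z' => g (r z')) z := by
  have h1 : ContDiffAt ℝ ∞ (fun u => g ((𝒜.ψ (r z)).symm u)) ((fun z' => 𝒜.ψ (r z) (r z')) z) := by
    show ContDiffAt ℝ ∞ (fun u => g ((𝒜.ψ (r z)).symm u)) (𝒜.ψ (r z) (r z))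
    rw [𝒜.zero]
    exact hg
  refine (h1.comp z hr.2).congr_of_eventuallyEq ?_
  filter_upwards [hr.1.eventually ((𝒜.ψ (r z)).open_source.mem_nhds (𝒜.mem _))] with z' hz'
  simp only [Function.comp_apply, (𝒜.ψ (r z)).left_inv hz']

theorem smF_const (a : F) (x : M) : SmFA 𝒜 (fun _ => a) x := contDiffAt_const

end

section

variable {n : ℕ} {M : Type*} [MetricSpace M] (𝒜 : SDist n M)
variable {F : Type*} [NormedAddCommGroup F] [InnerProductSpace ℝ F]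

/-- the Hessian of `½ ‖y₀ - h w‖²` at a point with `h w₀ = y₀` -/
theorem hess_dist_sq {h : Eu n → F} {w₀ : Eu n} (hh : ContDiffAt ℝ ∞ h w₀) (a : Eu n) :
    fderiv ℝ (fderiv ℝ fun w => ‖h w₀ - h w‖ ^ 2 / 2) w₀ a a = ‖fderiv ℝ h w₀ a‖ ^ 2 := by
  have hev : ∀ᶠ w in 𝓝 w₀, ContDiffAt ℝ 2 h w := smb_ev hh
  have h1 : (fderiv ℝ fun w => ‖h w₀ - h w‖ ^ 2 / 2) =ᶠ[𝓝 w₀]
      fun w => (innerSL ℝ (h w - h w₀)).comp (fderiv ℝ h w) := by
    filter_upwards [hev] with w hw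
    have h2 : HasFDerivAt (fun w => h w - h w₀) (fderiv ℝ h w) w :=
      ((hw.differentiableAt (by simp)).hasFDerivAt).sub_const _
    have h3 := (h2.norm_sq).const_smul (1 / 2 : ℝ)
    have h4 : (fun w => ‖h w₀ - h w‖ ^ 2 / 2) = fun w => (1 / 2 : ℝ) • ‖h w - h w₀‖ ^ 2 := by
      funext w
      rw [norm_sub_rev, smul_eq_mul]
      ring
    rw [h4]
    have h5 := h3.fderiv
    rw [show (fun w => (1 / 2 : ℝ) • ‖h w - h w₀‖ ^ 2) = ((1 / 2 : ℝ) • fun w => ‖h w - h w₀‖ ^ 2) from rfl, h5]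
    ext b
    simp
  rw [h1.fderiv_eq]
  have hd : HasFDerivAt h (fderiv ℝ h w₀) w₀ := (hh.differentiableAt (by simp)).hasFDerivAt
  have hc : HasFDerivAt (fun w => innerSL ℝ (h w - h w₀)) ((innerSL ℝ).comp (fderiv ℝ h w₀)) w₀ :=
    (innerSL ℝ (E := F)).hasFDerivAt.comp w₀ (hd.sub_const _)
  have hdd : HasFDerivAt (fderiv ℝ h) (fderiv ℝ (fderiv ℝ h) w₀) w₀ := by
    have h6 : ContDiffAt ℝ 1 (fderiv ℝ h) w₀ := hh.fderiv_right (by norm_cast)
    exact (h6.differentiableAt (by simp)).hasFDerivAt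
  have h7 := hc.clm_comp hdd
  rw [h7.fderiv]
  simp

/-- the nearest point map: smooth left inverse of an injective immersion, near its image -/
theorem retraction_of_immersion [CompactSpace M] [Nonempty M] [CompleteSpace F] {ι : M → F} (hs : ∀ x, SmFA 𝒜 ι x)
    (hinj : Function.Injective ι) (himm : ∀ x, Function.Injective (fderiv ℝ (fun u => ι ((𝒜.ψ x).symm u)) 0)) :
    ∃ r : F → M, (∀ x, r (ι x) = x) ∧ ∀ x, ∀ᶠ y in 𝓝 (ι x), SmAt 𝒜 r y := by
  have hc : Continuous ι := continuous_iff_continuousAt.2 fun x => (hs x).continuousAt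
  have hex : ∀ y : F, ∃ x : M, ∀ x', ‖y - ι x‖ ≤ ‖y - ι x'‖ := by
    intro y
    obtain ⟨x, -, hx⟩ := isCompact_univ.exists_isMinOn (univ_nonempty (α := M))
      (f := fun x => ‖y - ι x‖) (by fun_prop)
    exact ⟨x, fun x' => hx (mem_univ x')⟩
  choose r hr using hex
  have hrι : ∀ x, r (ι x) = x := by
    intro x
    have h1 := hr (ι x) x
    rw [sub_self, norm_zero] at h1
    have h2 := norm_le_zero_iff.1 h1
    exact (hinj (sub_eq_zero.1 h2)).symm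
  -- continuity at the image
  have htend : ∀ x, Tendsto r (𝓝 (ι x)) (𝓝 x) := by
    intro x
    rw [_root_.tendsto_nhds]
    intro V hV hxV
    have hVc : IsCompact Vᶜ := hV.isClosed_compl.isCompact
    rcases (Vᶜ).eq_empty_or_nonempty with he | hne
    · rw [compl_empty_iff.1 he, preimage_univ]
      exact univ_mem
    · obtain ⟨x₁, hx₁, hmin⟩ := hVc.exists_isMinOn hne (f := fun x' => ‖ι x - ι x'‖) (by fun_prop)
      have hpos : 0 < ‖ι x - ι x₁‖ := by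
        rw [norm_pos_iff, sub_ne_zero]
        intro h
        exact hx₁ (by rw [← hinj h]; exact hxV)
      filter_upwards [Metric.ball_mem_nhds (ι x) (half_pos hpos)] with y hy
      by_contra hcon
      have h1 : ‖ι x - ι x₁‖ ≤ ‖ι x - ι (r y)‖ := hmin hcon
      have h2 : ‖ι x - ι (r y)‖ ≤ ‖ι x - y‖ + ‖y - ι (r y)‖ := by
        have := norm_add_le (ι x - y) (y - ι (r y))
        rwa [sub_add_sub_cancel] at this
      have h3 := hr y x
      rw [mem_ball, dist_eq_norm] at hy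
      rw [norm_sub_rev (ι x) y] at h2
      linarith
  refine ⟨r, hrι, fun x => ?_⟩
  set ψ := 𝒜.ψ x with hψ
  set h : Eu n → F := fun w => ι (ψ.symm w) with hh
  have h0 : h 0 = ι x := by
    simp only [hh, hψ, sm_symm_zero]
  have hsm : ∀ w ∈ ψ.target, ContDiffAt ℝ ∞ h w := by
    intro w hw
    have h1 := (smF_iff (g := ι) (𝒜 := 𝒜) (ψ.map_target hw)).1 (hs _)
    rwa [ψ.right_inv hw] at h1
  have hr1 : ∀ᶠ y in 𝓝 (ι x), r y ∈ ψ.source := (htend x).eventually (ψ.open_source.mem_nhds (𝒜.mem x))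
  -- the implicit function theorem
  have hm : Tendsto (fun y => ψ (r y)) (𝓝 (ι x)) (𝓝 0) := by
    have h1 : ContinuousAt ψ x := ψ.continuousAt (𝒜.mem x)
    have h2 := h1.tendsto.comp (htend x)
    rwa [hψ, 𝒜.zero x] at h2
  have hG : ∀ᶠ z in 𝓝 (ι x, (0 : Eu n)), ContDiffAt ℝ ∞ (fun z : F × Eu n => ‖z.1 - h z.2‖ ^ 2 / 2) z := by
    have h1 : ∀ᶠ z in 𝓝 (ι x, (0 : Eu n)), z.2 ∈ ψ.target := by
      have h2 : Tendsto (Prod.snd : F × Eu n → Eu n) (𝓝 (ι x, (0 : Eu n))) (𝓝 0) := continuous_snd.tendsto _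
      exact h2.eventually (ψ.open_target.mem_nhds (sm_zero_mem 𝒜 x))
    filter_upwards [h1] with z hz
    have h2 : ContDiffAt ℝ ∞ (fun z : F × Eu n => z.1 - h z.2) z :=
      contDiffAt_fst.sub (ContDiffAt.comp z (f := fun z : F × Eu n => z.2) (g := h) (hsm _ hz) contDiffAt_snd)
    exact (h2.norm_sq ℝ).div_const 2
  have hmin : ∀ᶠ y in 𝓝 (ι x), IsLocalMin (fun w => ‖y - h w‖ ^ 2 / 2) (ψ (r y)) := by
    filter_upwards [hr1] with y hy
    refine Eventually.of_forall fun w => ?_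
    have h1 : h (ψ (r y)) = ι (r y) := by simp only [hh, ψ.left_inv hy]
    have h2 := hr y (ψ.symm w)
    simp only [h1]
    have h3 : ‖y - ι (r y)‖ ^ 2 ≤ ‖y - h w‖ ^ 2 := pow_le_pow_left₀ (norm_nonneg _) h2 2
    linarith
  have hkey := ift_min (G := fun z : F × Eu n => ‖z.1 - h z.2‖ ^ 2 / 2) (z₀ := ι x) (w₀ := (0 : Eu n))
    (m := fun y => ψ (r y)) hG (by
      intro a ha
      rw [← h0] at ha
      have h1 := hess_dist_sq (hsm 0 (sm_zero_mem 𝒜 x)) a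
      have h2 : ‖fderiv ℝ h 0 a‖ ^ 2 = 0 := by rw [← h1]; exact ha
      have h3 : fderiv ℝ h 0 a = 0 := by
        rwa [sq_eq_zero_iff, norm_eq_zero] at h2
      apply himm x
      rw [map_zero]
      exact h3) hm hmin
  filter_upwards [hkey, eventually_eventually_nhds.2 hr1] with y h1 h2
  have h3 : r y ∈ ψ.source := h2.self_of_nhds
  have h4 := smAt_symm (𝒜 := 𝒜) (p := x) (f := fun y => ψ (r y)) h1 (ψ.map_source h3)
  refine h4.congr ?_
  filter_upwards [h2] with y' hy'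
  exact (ψ.left_inv hy').symm

end

end Pool.Agent.Lib.MP_ccbbf6_gt.L4
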