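import Pool.Agent.Lib.MP_ccbbf6_gt.L4.EvB

/-!
# Spheres of different dimensions are not homeomorphic
-/

set_option autoImplicit false

open Set Filter Topology Metric MeasureTheory
open scoped ContDiff Manifold

noncomputable section

namespace Pool.Agent.Lib.MP_ccbbf6_gt.L4.SPH

open EV

section approx

variable {E : Type*} [NormedAddCommGroup E] [NormedSpace ℝ E] [FiniteDimensional ℝ E]
  {F : Type*} [NormedAddCommGroup F] [NormedSpace ℝ F]

/-- smooth approximation of a continuous map -/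
theorem exists_approx {f : E → F} (hf : Continuous f) {ε : ℝ} (hε : 0 < ε) :
    ∃ g : E → F, ContDiff ℝ ∞ g ∧ ∀ x, ‖g x - f x‖ < ε := by
  have hloc : ∀ x : E, ∃ c : F, ∀ᶠ y in 𝓝 x, c ∈ ball (f y) ε := by
    intro x
    refine ⟨f x, ?_⟩
    filter_upwards [hf.continuousAt.eventually (ball_mem_nhds (f x) hε)] with y hy
    rw [mem_ball, dist_comm]
    exact hy
  obtain ⟨g, hg⟩ := exists_contMDiffMap_forall_mem_convex_of_local_const (I := 𝓘(ℝ, E)) (F := F)
    (n := (⊤ : ℕ∞)) (t := fun x : E => ball (f x) ε) (fun x => convex_ball _ _) hloc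
  exact ⟨g, g.contMDiff.contDiff, fun x => mem_ball_iff_norm.1 (hg x)⟩

end approx

section retr

variable {E : Type*} [NormedAddCommGroup E] [InnerProductSpace ℝ E] [FiniteDimensional ℝ E] [Nontrivial E]

/-- smooth cut-off: `0` for `‖x‖ ≤ 1`, `1` for `2 ≤ ‖x‖` -/
def sg (x : E) : ℝ := Real.smoothTransition (‖x‖ ^ 2 - 1)

theorem no_retraction {R : E → E} (hR : Continuous R) (h1 : ∀ x, 1 ≤ ‖x‖ → R x = x) (h0 : ∀ x, R x ≠ 0) : False := by
  borelize E
  let μ : Measure E := Measure.addHaar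
  obtain ⟨c, hc, hc1, hcR⟩ : ∃ c : ℝ, 0 < c ∧ c ≤ 1 ∧ ∀ x, c ≤ ‖R x‖ := by
    obtain ⟨x₀, -, hx₀⟩ := (isCompact_closedBall (0 : E) 1).exists_isMinOn ⟨0, by simp⟩ hR.norm.continuousOn
    refine ⟨min ‖R x₀‖ 1, lt_min (norm_pos_iff.2 (h0 _)) one_pos, min_le_right _ _, fun x => ?_⟩
    by_cases hx : ‖x‖ ≤ 1
    · exact (min_le_left _ _).trans (hx₀ (mem_closedBall_zero_iff.2 hx))
    · rw [h1 x (le_of_not_ge hx)]
      exact (min_le_right _ _).trans (le_of_not_ge hx)
  obtain ⟨g, hg, hgR⟩ := exists_approx hR (half_pos hc)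
  have hs : ContDiff ℝ ∞ (sg : E → ℝ) := Real.smoothTransition.contDiff.comp ((contDiff_norm_sq ℝ).sub contDiff_const)
  have hs0 : ∀ x : E, 0 ≤ sg x := fun x => Real.smoothTransition.nonneg _
  have hs1 : ∀ x : E, sg x ≤ 1 := fun x => Real.smoothTransition.le_one _
  obtain ⟨F, hF⟩ : ∃ F : E → E, ∀ x, F x = g x + sg x • (x - g x) := ⟨_, fun _ => rfl⟩
  have hFc : ContDiff ℝ ∞ F := by
    have : F = fun x => g x + sg x • (x - g x) := funext hF
    rw [this]
    exact hg.add (hs.smul (contDiff_id.sub hg))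
  have hF1 : ∀ x, ‖x‖ ≤ 1 → F x = g x := by
    intro x hx
    have : sg x = 0 := Real.smoothTransition.zero_of_nonpos (by nlinarith [norm_nonneg x])
    rw [hF, this, zero_smul, add_zero]
  have hF2 : ∀ x, 1 ≤ ‖x‖ → ‖F x - x‖ ≤ c / 2 := by
    intro x hx
    have e : F x - x = (1 - sg x) • (g x - x) := by
      rw [hF]
      module
    rw [e, norm_smul, Real.norm_of_nonneg (by linarith [hs1 x])]
    have h3 := hgR x
    rw [h1 x hx] at h3
    nlinarith [hs0 x, hs1 x, norm_nonneg (g x - x)]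
  have hge : ∀ x, 1 ≤ ‖x‖ → ∀ s ∈ Icc (0 : ℝ) 1, (1 / 2 : ℝ) * ‖x‖ ≤ ‖(1 - s) • F x + s • cut (fun x : E => x) x‖ := by
    intro x hx s hs
    have e : (1 - s) • F x + s • cut (fun x : E => x) x = x + (1 - s) • (F x - x) := by
      unfold cut
      rw [ro_one hx, one_smul]
      module
    rw [e]
    have h3 : ‖(1 - s) • (F x - x)‖ ≤ c / 2 := by
      rw [norm_smul, Real.norm_of_nonneg (by linarith [hs.2])]
      nlinarith [hF2 x hx, hs.1, hs.2, norm_nonneg (F x - x)]
    have h4 := norm_sub_norm_le x (-((1 - s) • (F x - x)))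
    rw [norm_neg, sub_neg_eq_add] at h4
    linarith
  have hge0 : ∀ x, 1 ≤ ‖x‖ → (1 / 2 : ℝ) * ‖x‖ ≤ ‖F x‖ := by
    intro x hx
    have := hge x hx 0 (by simp)
    simpa using this
  obtain ⟨k, hk⟩ := exists_hasDeg μ hFc (by norm_num : (0 : ℝ) < 1 / 2) hge0
  have hid : Hg fun x : E => x := ⟨fun x _ => contDiffAt_id, fun x hx => hx, fun r _ x => rfl⟩
  obtain ⟨k', hk'⟩ : ∃ k, HasDeg μ (cut fun x : E => x) k := by
    refine exists_hasDeg μ hid.contDiff_cut (by norm_num : (0 : ℝ) < 1 / 2) fun x hx => ?_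
    have := hge x hx 1 (by simp)
    simpa using this
  have hk1 : k' = 1 := hasDeg_id μ hk'
  have hkk : k = k' := hasDeg_segment μ hFc hid.contDiff_cut (by norm_num : (0 : ℝ) < 1 / 2) hge hk hk'
  -- `F` has no zero
  have hp : IsProperMap F := by
    refine isProperMap_iff_tendsto_cocompact.2 ⟨hFc.continuous, ?_⟩
    rw [← Metric.cobounded_eq_cocompact, ← comap_norm_atTop, tendsto_comap_iff]
    have h1 : Tendsto (fun x : E => ‖x‖) (comap norm atTop) atTop := tendsto_comap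
    refine tendsto_atTop_mono' _ ?_ (h1.const_mul_atTop (by norm_num : (0 : ℝ) < 1 / 2))
    filter_upwards [h1.eventually (eventually_ge_atTop 1)] with x hx
    exact hge0 x hx
  have hns : (0 : E) ∉ range F := by
    rintro ⟨x, hx⟩
    by_cases h2 : ‖x‖ ≤ 1
    · rw [hF1 x h2] at hx
      have h3 := hgR x
      rw [hx, zero_sub, norm_neg] at h3
      linarith [hcR x]
    · have h3 := hge0 x (le_of_not_ge h2)
      rw [hx, norm_zero] at h3
      linarith [not_le.1 h2]
  let b : ContDiffBump (0 : E) := ⟨1, 2, one_pos, one_lt_two⟩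
  have h5 := DEG.integral_eq_zero_of_not_surj μ hFc hp hns b.contDiff b.hasCompactSupport
  have h6 := hk b b.contDiff b.hasCompactSupport
  rw [h5, hkk, hk1] at h6
  have h7 : 0 < ∫ y, b y ∂μ := b.integral_pos
  push_cast at h6
  linarith

end retr

section sph

variable {E : Type*} [NormedAddCommGroup E] [InnerProductSpace ℝ E] {F : Type*} [NormedAddCommGroup F] [NormedSpace ℝ F]

/-- the unit vector of `x` -/
def nz (x : E) (h : x ≠ 0) : sphere (0 : E) 1 := ⟨‖x‖⁻¹ • x, by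
  rw [mem_sphere_zero_iff_norm, norm_smul, norm_inv, norm_norm, inv_mul_cancel₀ (norm_ne_zero_iff.2 h)]⟩

open Classical in
/-- radial extension of a map of the sphere -/
def rd (φ : sphere (0 : E) 1 → F) (x : E) : F := if h : x ≠ 0 then φ (nz x h) else 0

theorem rd_of {φ : sphere (0 : E) 1 → F} {x : E} (h : x ≠ 0) : rd φ x = φ (nz x h) := dif_pos h

theorem rd_sphere (φ : sphere (0 : E) 1 → F) (x : sphere (0 : E) 1) : rd φ x = φ x := by
  have hx : ‖(x : E)‖ = 1 := mem_sphere_zero_iff_norm.1 x.2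
  have h : (x : E) ≠ 0 := by
    rw [← norm_ne_zero_iff, hx]
    exact one_ne_zero
  rw [rd_of h]
  congr 1
  refine Subtype.ext ?_
  change ‖(x : E)‖⁻¹ • (x : E) = x
  rw [hx, inv_one, one_smul]

theorem rd_smul (φ : sphere (0 : E) 1 → F) {r : ℝ} (hr : 0 < r) (x : E) : rd φ (r • x) = rd φ x := by
  by_cases h : x = 0
  · rw [h, smul_zero]
  · have h' : r • x ≠ 0 := smul_ne_zero hr.ne' h
    rw [rd_of h, rd_of h']
    congr 1
    refine Subtype.ext ?_
    change ‖r • x‖⁻¹ • (r • x) = ‖x‖⁻¹ • x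
    rw [norm_smul, Real.norm_of_nonneg hr.le, mul_inv, smul_smul]
    congr 1
    field_simp

theorem continuousOn_rd {φ : sphere (0 : E) 1 → F} (hφ : Continuous φ) : ContinuousOn (rd φ) {x | x ≠ 0} := by
  rw [continuousOn_iff_continuous_domRestrict]
  have h : Set.domRestrict {x : E | x ≠ 0} (rd φ) = fun x => φ (nz x.1 x.2) := by
    funext x
    exact rd_of x.2
  rw [h]
  refine hφ.comp (Continuous.subtype_mk ?_ _)
  exact (continuous_subtype_val.norm.inv₀ fun x => norm_ne_zero_iff.2 x.2).smul continuous_subtype_val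

theorem continuous_nrd {φ : sphere (0 : E) 1 → F} (hφ : Continuous φ) {C : ℝ} (hC : ∀ x, ‖φ x‖ ≤ C) :
    Continuous fun x => ‖x‖ • rd φ x := by
  have hC' : ∀ x, ‖rd φ x‖ ≤ max C 0 := by
    intro x
    by_cases h : x = 0
    · have : rd φ x = 0 := dif_neg (by simp [h])
      rw [this, norm_zero]
      exact le_max_right _ _
    · rw [rd_of h]
      exact (hC _).trans (le_max_left _ _)
  rw [continuous_iff_continuousAt]
  intro x
  by_cases h : x = 0
  · subst h
    have h1 : Tendsto (fun x : E => ‖x‖ * max C 0) (𝓝 0) (𝓝 0) := by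
      have h2 : Continuous fun x : E => ‖x‖ * max C 0 := continuous_norm.mul continuous_const
      have h3 := h2.tendsto 0
      simpa using h3
    have h2 : ‖(0 : E)‖ • rd φ 0 = 0 := by simp
    rw [ContinuousAt, h2]
    refine squeeze_zero_norm (fun x => ?_) h1
    rw [norm_smul, norm_norm]
    exact mul_le_mul_of_nonneg_left (hC' x) (norm_nonneg x)
  · exact continuous_norm.continuousAt.smul ((continuousOn_rd hφ).continuousAt (isOpen_ne.mem_nhds h))

/-- **no homeomorphism from a sphere onto a sphere of larger dimension** -/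
theorem not_lt {a b : ℕ} (hab : a < b) (φ : sphere (0 : EuclideanSpace ℝ (Fin (a + 1))) 1 ≃ₜ
    sphere (0 : EuclideanSpace ℝ (Fin (b + 1))) 1) : False := by
  -- the map to the larger sphere
  obtain ⟨h, hh⟩ : ∃ h : EuclideanSpace ℝ (Fin (a + 1)) → EuclideanSpace ℝ (Fin (b + 1)),
    ∀ x, h x = ‖x‖ • rd (fun y => (φ y : EuclideanSpace ℝ (Fin (b + 1)))) x := ⟨_, fun _ => rfl⟩
  have hφn : ∀ x, ‖(φ x : EuclideanSpace ℝ (Fin (b + 1)))‖ = 1 := fun x => mem_sphere_zero_iff_norm.1 (φ x).2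
  have hhc : Continuous h := by
    rw [funext hh]
    exact continuous_nrd (continuous_subtype_val.comp φ.continuous) (C := 1) fun x => (hφn x).le
  have hhn : ∀ x, ‖x‖ = 1 → ‖h x‖ = 1 := by
    intro x hx
    have h0 : x ≠ 0 := by rw [← norm_ne_zero_iff, hx]; exact one_ne_zero
    rw [hh, hx, one_smul, rd_of h0, hφn]
  obtain ⟨g, hg, hgh⟩ := exists_approx hhc (by norm_num : (0 : ℝ) < 1 / 2)
  have hg1 : ∀ x, ‖x‖ = 1 → 1 / 2 < ‖g x‖ ∧ ‖g x‖ < 3 / 2 := by
    intro x hx
    have h1 := hgh x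
    have h2 := hhn x hx
    constructor
    · have := norm_sub_norm_le (h x) (g x)
      rw [norm_sub_rev] at this
      linarith
    · have := norm_sub_norm_le (g x) (h x)
      linarith
  -- the cone over `g`
  obtain ⟨Θ, hΘ⟩ : ∃ Θ : EuclideanSpace ℝ (Fin (a + 1)) → EuclideanSpace ℝ (Fin (b + 1)),
    ∀ x, Θ x = (ro x * ‖x‖) • g (‖x‖⁻¹ • x) := ⟨_, fun _ => rfl⟩
  have hΘc : ContDiff ℝ ∞ Θ := by
    rw [funext hΘ, contDiff_iff_contDiffAt]
    intro x
    by_cases hx : x = 0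
    · subst hx
      refine (contDiffAt_const (c := (0 : EuclideanSpace ℝ (Fin (b + 1))))).congr_of_eventuallyEq ?_
      filter_upwards [ro_zero_nhds (E := EuclideanSpace ℝ (Fin (a + 1)))] with x hx
      rw [hx, zero_mul, zero_smul]
    · have h1 : ContDiffAt ℝ ∞ (fun x : EuclideanSpace ℝ (Fin (a + 1)) => ‖x‖) x := contDiffAt_norm ℝ hx
      exact (contDiff_ro.contDiffAt.mul h1).smul
        (hg.contDiffAt.comp x ((h1.inv (norm_ne_zero_iff.2 hx)).smul contDiffAt_id))
  obtain ⟨y, hy2, hyΘ⟩ : ∃ y, 2 < ‖y‖ ∧ y ∉ range Θ := by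
    have hd := ContDiff.dense_compl_range_of_finrank_lt_finrank (hΘc.of_le (by simp) : ContDiff ℝ 1 Θ)
      (by rw [finrank_euclideanSpace_fin, finrank_euclideanSpace_fin]; omega)
    have ho : IsOpen {y : EuclideanSpace ℝ (Fin (b + 1)) | 2 < ‖y‖} := isOpen_lt continuous_const continuous_norm
    obtain ⟨y0, hy0⟩ := exists_norm_eq (EuclideanSpace ℝ (Fin (b + 1))) (by norm_num : (0 : ℝ) ≤ 3)
    obtain ⟨y, hy, hy'⟩ := hd.inter_open_nonempty _ ho ⟨y0, by
      show (2 : ℝ) < ‖y0‖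
      rw [hy0]
      norm_num⟩
    exact ⟨y, hy, hy'⟩
  have hseg : ∀ u, ‖u‖ = 1 → ∀ s ∈ Icc (0 : ℝ) 1, s • g u - (1 - s) • y ≠ 0 := by
    intro u hu s hs h0
    have h1 : s • g u = (1 - s) • y := sub_eq_zero.1 h0
    have hs1 : s ≠ 1 := by
      intro h2
      rw [h2, one_smul, sub_self, zero_smul] at h1
      have := (hg1 u hu).1
      rw [h1, norm_zero] at this
      linarith
    have hs2 : 0 < 1 - s := by
      rcases hs.2.lt_or_eq with h3 | h3
      · linarith
      · exact absurd h3 hs1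
    have h2 : y = (s / (1 - s)) • g u := by
      rw [div_eq_inv_mul, ← smul_smul, h1, smul_smul, inv_mul_cancel₀ hs2.ne', one_smul]
    obtain ⟨r, hr⟩ : ∃ r, r = s / (1 - s) := ⟨_, rfl⟩
    rw [← hr] at h2
    have hr0 : 0 ≤ r := by rw [hr]; exact div_nonneg hs.1 hs2.le
    have hr1 : 1 ≤ r := by
      by_contra h3
      push Not at h3
      have h4 : ‖y‖ = r * ‖g u‖ := by rw [h2, norm_smul, Real.norm_of_nonneg hr0]
      have h5 := (hg1 u hu).2
      nlinarith [norm_nonneg (g u)]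
    apply hyΘ
    have hn : ‖r • u‖ = r := by rw [norm_smul, hu, mul_one, Real.norm_of_nonneg hr0]
    refine ⟨r • u, ?_⟩
    rw [hΘ, ro_one (by rw [hn]; exact hr1), hn, one_mul, smul_smul, inv_mul_cancel₀ (by linarith), one_smul, h2]
  have hseg' : ∀ u, ‖u‖ = 1 → ∀ s ∈ Icc (0 : ℝ) 1, (1 - s) • g u + s • h u ≠ 0 := by
    intro u hu s hs h0
    have e : h u = -((1 - s) • (g u - h u)) := by
      have e1 : (1 - s) • (g u - h u) + h u = (1 - s) • g u + s • h u := by module
      rw [h0] at e1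
      exact eq_neg_of_add_eq_zero_right e1
    have h1 := congrArg norm e
    rw [hhn u hu, norm_neg, norm_smul, Real.norm_of_nonneg (by linarith [hs.2])] at h1
    nlinarith [hgh u, hs.1, hs.2, norm_nonneg (g u - h u)]
  -- the extension to the ball
  have hGc : Continuous fun x : EuclideanSpace ℝ (Fin (a + 1)) => ‖x‖ • rd (fun y => g (y : EuclideanSpace ℝ (Fin (a + 1)))) x :=
    continuous_nrd (hg.continuous.comp continuous_subtype_val) (C := 3 / 2) fun x =>
      (hg1 x (mem_sphere_zero_iff_norm.1 x.2)).2.le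
  obtain ⟨G, hG⟩ : ∃ G : EuclideanSpace ℝ (Fin (a + 1)) → EuclideanSpace ℝ (Fin (b + 1)),
    ∀ x, G x = ‖x‖ • rd (fun y => g (y : EuclideanSpace ℝ (Fin (a + 1)))) x := ⟨_, fun _ => rfl⟩
  have hGc' : Continuous G := by rw [funext hG]; exact hGc
  obtain ⟨H, hH⟩ : ∃ H : EuclideanSpace ℝ (Fin (a + 1)) → EuclideanSpace ℝ (Fin (b + 1)),
    ∀ x, H x = if ‖x‖ ≤ 1 / 2 then (2 : ℝ) • G x - (1 - 2 * ‖x‖) • y else
      (2 - 2 * ‖x‖) • (‖x‖⁻¹ • G x) + (2 * ‖x‖ - 1) • (‖x‖⁻¹ • h x) := ⟨_, fun _ => rfl⟩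
  have hHc : Continuous H := by
    rw [funext hH]
    refine continuous_if_le continuous_norm continuous_const ?_ ?_ ?_
    · exact ((hGc'.const_smul (2 : ℝ)).sub (((continuous_const.sub (continuous_const.mul continuous_norm))).smul
        continuous_const)).continuousOn
    · have hinv : ContinuousOn (fun x : EuclideanSpace ℝ (Fin (a + 1)) => ‖x‖⁻¹) {x | 1 / 2 ≤ ‖x‖} :=
        continuous_norm.continuousOn.inv₀ fun x hx => by
          have : (1 / 2 : ℝ) ≤ ‖x‖ := hx
          linarith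
      exact (((continuous_const.sub (continuous_const.mul continuous_norm)).continuousOn).smul
        (hinv.smul hGc'.continuousOn)).add ((((continuous_const.mul continuous_norm).sub continuous_const).continuousOn).smul
        (hinv.smul hhc.continuousOn))
    · intro x hx
      rw [hx]
      norm_num
  have hHne : ∀ x, ‖x‖ ≤ 1 → H x ≠ 0 := by
    intro x hx h0
    have hy0 : y ≠ 0 := by
      rw [← norm_ne_zero_iff]
      linarith
    by_cases hx0 : x = 0
    · rw [hH, if_pos (by rw [hx0, norm_zero]; norm_num), hG, hx0, norm_zero, zero_smul, smul_zero, mul_zero, sub_zero,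
        one_smul, zero_sub, neg_eq_zero] at h0
      exact hy0 h0
    have hpos : 0 < ‖x‖ := norm_pos_iff.2 hx0
    obtain ⟨u, hu⟩ : ∃ u, u = ‖x‖⁻¹ • x := ⟨_, rfl⟩
    have hun : ‖u‖ = 1 := by rw [hu, norm_smul, norm_inv, norm_norm, inv_mul_cancel₀ hpos.ne']
    have hxu : x = ‖x‖ • u := by rw [hu, smul_smul, mul_inv_cancel₀ hpos.ne', one_smul]
    have hu0 : u ≠ 0 := by rw [← norm_ne_zero_iff, hun]; exact one_ne_zero
    have hGx : G x = ‖x‖ • g u := by
      rw [hG, rd_of hx0, hu]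
      rfl
    have hhx : h x = ‖x‖ • h u := by
      rw [hh, hh u, hun, one_smul]
      congr 1
      nth_rewrite 1 [hxu]
      exact rd_smul _ hpos u
    by_cases h12 : ‖x‖ ≤ 1 / 2
    · rw [hH, if_pos h12, hGx, smul_smul] at h0
      exact hseg u hun (2 * ‖x‖) ⟨by positivity, by linarith⟩ h0
    · rw [hH, if_neg h12, hGx, hhx, smul_smul _ ‖x‖ (g u), smul_smul _ ‖x‖ (h u), inv_mul_cancel₀ hpos.ne', one_smul,
        one_smul] at h0
      push Not at h12
      refine hseg' u hun (2 * ‖x‖ - 1) ⟨by linarith, by linarith⟩ ?_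
      have e : (1 : ℝ) - (2 * ‖x‖ - 1) = 2 - 2 * ‖x‖ := by ring
      rw [e]
      exact h0
  have hH1 : ∀ x : sphere (0 : EuclideanSpace ℝ (Fin (a + 1))) 1, H x = φ x := by
    intro x
    have hx : ‖(x : EuclideanSpace ℝ (Fin (a + 1)))‖ = 1 := mem_sphere_zero_iff_norm.1 x.2
    rw [hH, hx, if_neg (by norm_num), hh, hx, rd_sphere]
    norm_num
  -- the retraction
  obtain ⟨R, hR⟩ : ∃ R : EuclideanSpace ℝ (Fin (a + 1)) → EuclideanSpace ℝ (Fin (a + 1)),
    ∀ x, R x = if ‖x‖ ≤ 1 then rd (fun z => (φ.symm z : EuclideanSpace ℝ (Fin (a + 1)))) (H x) else x :=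
    ⟨_, fun _ => rfl⟩
  have hRc : Continuous R := by
    rw [funext hR]
    refine continuous_if_le continuous_norm continuous_const ?_ continuousOn_id ?_
    · exact (continuousOn_rd (continuous_subtype_val.comp φ.symm.continuous)).comp hHc.continuousOn fun x hx => hHne x hx
    · intro x hx
      have h1 := hH1 ⟨x, mem_sphere_zero_iff_norm.2 hx⟩
      change H x = _ at h1
      rw [h1, rd_sphere, Homeomorph.symm_apply_apply]
  refine no_retraction hRc (fun x hx => ?_) fun x h0 => ?_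
  · rcases hx.eq_or_lt with h1 | h1
    · have h2 := hH1 ⟨x, mem_sphere_zero_iff_norm.2 h1.symm⟩
      change H x = _ at h2
      rw [hR, if_pos h1.symm.le, h2, rd_sphere, Homeomorph.symm_apply_apply]
    · rw [hR, if_neg (not_le.2 h1)]
  · by_cases hx : ‖x‖ ≤ 1
    · rw [hR, if_pos hx, rd_of (hHne x hx)] at h0
      have h1 : ‖((φ.symm (nz (H x) (hHne x hx)) : sphere (0 : EuclideanSpace ℝ (Fin (a + 1))) 1) :
        EuclideanSpace ℝ (Fin (a + 1)))‖ = 1 := mem_sphere_zero_iff_norm.1 (φ.symm _).2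
      rw [h0, norm_zero] at h1
      exact zero_ne_one h1
    · rw [hR, if_neg hx] at h0
      rw [h0, norm_zero] at hx
      exact hx zero_le_one

/-- **spheres of different dimensions are not homeomorphic** -/
theorem dim_eq {a b : ℕ} (φ : sphere (0 : EuclideanSpace ℝ (Fin (a + 1))) 1 ≃ₜ
    sphere (0 : EuclideanSpace ℝ (Fin (b + 1))) 1) : a = b := by
  rcases lt_trichotomy a b with h | h | h
  · exact (not_lt h φ).elim
  · exact h
  · exact (not_lt h φ.symm).elim

end sph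

end Pool.Agent.Lib.MP_ccbbf6_gt.L4.SPH
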